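import Mathlib

section

/-!
# Lang-Vojta for generic divisors: definitions

`mon x J = x^J` for a multiset `J` of `n` indices, `form a x = ∑_J a_J x^J`.
-/

set_option autoImplicit false

namespace Pool.Agent.Helper8.LG

open scoped BigOperators

/-- The monomial `x^J`: the product of the `x_j`, `j` running through the multiset `J`. -/
def mon {σ R : Type*} [CommMonoid R] {n : ℕ} (x : σ → R) (J : Sym σ n) : R :=
  ((J : Multiset σ).map x).prod

/-- The value at `x` of the form of degree `n` with coefficients `a`. -/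
def form {σ R : Type*} [Fintype σ] [DecidableEq σ] [CommSemiring R] {n : ℕ}
    (a : Sym σ n → R) (x : σ → R) : R :=
  ∑ J : Sym σ n, a J * mon x J

/-- The index type of all the coefficients of a family of forms of degrees `d i`. -/
abbrev Ix (σ : Type*) {ι : Type*} (d : ι → ℕ) := Σ i : ι, Sym σ (d i)

section

variable {E : Type*} [Field E] {σ ι P τ : Type*}

/-- `D_s(a_q) = [s = q] - ∑_j [jj_j = q] θ_j(s)`: the derivations are dual to the coefficients up to
the corrections `θ`, which are supported on the indices `jj j`. -/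
def Dual [DecidableEq σ] [DecidableEq ι] [Fintype τ] (d : ι → ℕ)
    (a : (i : ι) → Sym σ (d i) → E) (D : Ix σ d → Derivation ℤ E E) (jj : τ → Ix σ d)
    (θ : τ → Ix σ d → E) : Prop :=
  ∀ s q : Ix σ d,
    D s (a q.1 q.2) = (if s = q then 1 else 0) - ∑ j, if jj j = q then θ j s else 0

/-- The columns `x` and `D_p x`. -/
def col (D : P → Derivation ℤ E E) (x : σ → E) : Option P → σ → E
  | none => x
  | some p => fun l => D p (x l)

/-- The matrix with columns `x` and `D_p x` has rank at most `w + 1`. -/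
def MinorsVanish (D : P → Derivation ℤ E E) (x : σ → E) (w : ℕ) : Prop :=
  ∀ (r : Fin (w + 2) → σ) (c : Fin (w + 2) → Option P),
    Matrix.det (Matrix.of fun s t => col D x (c t) (r s)) = 0

/-- `Δ` bounds the poles of the derivations on the valuation ring `O`. -/
def Bdd (D : P → Derivation ℤ E E) (Δ : E) (O : ValuationSubring E) : Prop :=
  Δ ∈ O ∧ ∀ p, ∀ f ∈ O, Δ * D p f ∈ O

/-- The row belonging to the form `g` (a function of `x`), multiplied by the weight `u` (of degree
`e`), is bounded by `Δ⁻¹` at `O`-primitive coordinates `x / x_j` of the point `x`. -/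
def RowBdd (D : P → Derivation ℤ E E) (Δ : E) (O : ValuationSubring E) (x : σ → E)
    (g : (σ → E) → E) (u : E) (e : ℕ) : Prop :=
  ∀ j, x j ≠ 0 → (∀ l, x l / x j ∈ O) →
    Δ * (u / x j ^ e) ∈ O ∧
    ∀ p, Δ * (u / x j ^ e * (D p (g fun l => x l / x j) / g fun l => x l / x j)) ∈ O

/-- The conclusion of the key lemma: `G x_l` is integral up to a power of `Δ` at all valuation
rings where `Δ` bounds the derivations, the corrections and the rows. -/
def KeyG [Fintype σ] [DecidableEq σ] [Fintype ι] [Fintype τ]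
    (d e : ι → ℕ) (a : (i : ι) → Sym σ (d i) → E) (D : Ix σ d → Derivation ℤ E E)
    (θ : τ → Ix σ d → E) (Z : Finset ι) (u : ι → E) (x : σ → E) (G : E) : Prop :=
  ∀ (O : ValuationSubring E) (Δ : E), Bdd D Δ O → (∀ j s, Δ * θ j s ∈ O) →
      (∀ i ∉ Z, RowBdd D Δ O x (form (a i)) (u i) (e i)) →
      ∀ l, Δ ^ (Fintype.card σ + Fintype.card ι + Fintype.card τ) * (G * x l) ∈ O

/-- `u_i = y_i` for `i ∈ C` and `u_i = 1` otherwise. -/
def uu [DecidableEq ι] (C : Finset ι) (y : ι → E) (i : ι) : E := if i ∈ C then y i else 1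

/-- The numerical hypotheses: `Z` and `C` are disjoint, `d_i > 0`, `d_i = m_i e_i` for `i ∈ C`,
`e_i = 0` for `i ∉ C`, and `∑ d_i + |Z| - ∑ e_i ≥ 2 w + 2 + c`. -/
structure Num [Fintype ι] (d e m : ι → ℕ) (Z C : Finset ι) (w c : ℕ) : Prop where
  pos : ∀ i, 0 < d i
  disj : ∀ i ∈ C, i ∉ Z
  deg : ∀ i ∈ C, d i = m i * e i
  e0 : ∀ i ∉ C, e i = 0
  ineq : 2 * w + 2 + c + ∑ i, e i ≤ ∑ i, d i + Z.card

/-- The conditions on a normalised point `x` with roots `y_i`, `i ∈ C`:
`F_i(x) = 0` for `i ∈ Z`, `F_i(x) ≠ 0` for `i ∉ Z`, `y_i ^ m_i = F_i(x)` for `i ∈ C`, all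
`x^J/F_i(x)` integral over `A` for the other `i`, rank at most `w + 1`. -/
structure Good [Fintype σ] [DecidableEq σ]
    (d m : ι → ℕ) (a : (i : ι) → Sym σ (d i) → E) (D : Ix σ d → Derivation ℤ E E)
    (Z C : Finset ι) (i₀ : σ) (w : ℕ) (A : Subring E) (x : σ → E) (y : ι → E) : Prop where
  one : x i₀ = 1
  zero : ∀ i ∈ Z, form (a i) x = 0
  ne : ∀ i ∉ Z, form (a i) x ≠ 0
  root : ∀ i ∈ C, y i ^ m i = form (a i) x
  int : ∀ i ∉ Z, i ∉ C → ∀ J : Sym σ (d i), IsIntegral A (mon x J / form (a i) x)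
  rank : MinorsVanish D x w

/-- The integral closure in `E` of the ring generated by the field `E₀` and `t`. -/
def intCl (E₀ : Subfield E) (t : E) : Subring E :=
  (integralClosure (Subring.closure ((E₀ : Set E) ∪ {t})) E).toSubring

/-- the field generated over `k` by the `y_j`, `j ≠ i` -/
def others {k L τ : Type*} [Field k] [Field L] [Algebra k L] (y : τ → L) (i : τ) : Subfield L :=
  (IntermediateField.adjoin k (y '' {i}ᶜ)).toSubfield

end

end Pool.Agent.Helper8.LG

end
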