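import Pool.Agent.Helper74.MG.T02
import Pool.Agent.Helper74.MG.T01

section

/-! # LG-POLY: homogeneous polynomials and the function `form` -/

set_option autoImplicit false

open MvPolynomial

namespace Pool.Agent.Helper8.LG

/-- the coefficients of a polynomial, indexed by multisets of size `n` -/
noncomputable def cf {K : Type*} [CommRing K] {N : ℕ} (n : ℕ)
    (F : MvPolynomial (Fin (N + 1)) K) (J : Sym (Fin (N + 1)) n) : K :=
  coeff (Multiset.toFinsupp (J : Multiset (Fin (N + 1)))) F

theorem poly_mon_eq {R : Type*} [CommMonoid R] {N n : ℕ} (x : Fin (N + 1) → R)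
    (J : Sym (Fin (N + 1)) n) :
    mon x J = ∏ i, x i ^ (Multiset.toFinsupp (J : Multiset (Fin (N + 1)))) i := by
  rw [mon, Finset.prod_multiset_map_count]
  simp only [Multiset.toFinsupp_apply]
  refine Finset.prod_subset (Finset.subset_univ _) fun i _ hi => ?_
  rw [Multiset.count_eq_zero_of_notMem (fun h => hi (Multiset.mem_toFinset.2 h)), pow_zero]

theorem poly_toFinsupp_inj {N n : ℕ} :
    Function.Injective fun J : Sym (Fin (N + 1)) n =>
      Multiset.toFinsupp (J : Multiset (Fin (N + 1))) := fun _ _ h =>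
  Subtype.ext (Multiset.toFinsupp.injective h)

theorem poly_exists_sym {N n : ℕ} (m : Fin (N + 1) →₀ ℕ) (hm : m.degree = n) :
    ∃ J : Sym (Fin (N + 1)) n, Multiset.toFinsupp (J : Multiset (Fin (N + 1))) = m := by
  refine ⟨⟨Finsupp.toMultiset m, ?_⟩, ?_⟩
  · rw [Finsupp.card_toMultiset, ← hm, Finsupp.degree_eq_sum]
    exact Finsupp.sum_fintype _ _ fun _ => rfl
  · exact Finsupp.toMultiset_toFinsupp m

theorem form_cf {K : Type*} [CommRing K] {N : ℕ} {n : ℕ} (F : MvPolynomial (Fin (N + 1)) K)
    (hF : F.IsHomogeneous n) (x : Fin (N + 1) → K) : form (cf n F) x = eval x F := by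
  classical
  have h1 : form (cf n F) x = ∑ m ∈ Finset.univ.image (fun J : Sym (Fin (N + 1)) n =>
      Multiset.toFinsupp (J : Multiset (Fin (N + 1)))), coeff m F * ∏ i, x i ^ m i := by
    rw [Finset.sum_image fun a _ b _ h => poly_toFinsupp_inj h, form]
    refine Finset.sum_congr rfl fun J _ => ?_
    rw [poly_mon_eq, cf]
  rw [h1, eval_eq']
  symm
  refine Finset.sum_subset (fun m hm => ?_) fun m _ hm => ?_
  · have h2 : m.degree = n := by
      by_contra h
      exact (mem_support_iff.1 hm) (hF.coeff_eq_zero h)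
    obtain ⟨J, hJ⟩ := poly_exists_sym m h2
    exact Finset.mem_image.2 ⟨J, Finset.mem_univ _, hJ⟩
  · rw [notMem_support_iff.1 hm, zero_mul]

/-- the monomial `X^J` -/
noncomputable def monX (K : Type*) [CommRing K] {N n : ℕ} (J : Sym (Fin (N + 1)) n) :
    MvPolynomial (Fin (N + 1)) K :=
  mon (fun i => X i) J

theorem monX_hom (K : Type*) [CommRing K] {N n : ℕ} (J : Sym (Fin (N + 1)) n) :
    (monX K J).IsHomogeneous n := by
  have h : ∀ s : Multiset (Fin (N + 1)),
      ((s.map fun i => (X i : MvPolynomial (Fin (N + 1)) K)).prod).IsHomogeneous s.card := by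
    intro s
    induction s using Multiset.induction_on with
    | empty => simpa using isHomogeneous_one (Fin (N + 1)) K
    | cons a s ih =>
      rw [Multiset.map_cons, Multiset.prod_cons, Multiset.card_cons, add_comm s.card 1]
      exact (isHomogeneous_X K a).mul ih
  have h2 := h J.1
  rw [J.2] at h2
  exact h2

theorem eval_monX {K : Type*} [CommRing K] {N n : ℕ} (J : Sym (Fin (N + 1)) n)
    (x : Fin (N + 1) → K) : eval x (monX K J) = mon x J := by
  rw [monX, mon, mon, map_multiset_prod, Multiset.map_map]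
  refine congrArg Multiset.prod (Multiset.map_congr rfl fun i _ => ?_)
  rw [Function.comp_apply, eval_X]

theorem card_Ix {N r : ℕ} (d : Fin r → ℕ) :
    Fintype.card (Ix (Fin (N + 1)) d) = ∑ i, (N + d i).choose N := by
  rw [Fintype.card_sigma]
  refine Finset.sum_congr rfl fun i _ => ?_
  rw [Sym.card_sym_eq_choose, Fintype.card_fin]
  have h : N + 1 + d i - 1 = N + d i := by omega
  rw [h, Nat.choose_symm_add]

/-- for homogeneous polynomials all coefficients are among the `cf` -/
theorem coeffField_eq (k : Type*) {M : Type*} [Field k] [Field M] [Algebra k M] {N r : ℕ}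
    (d : Fin r → ℕ) (F : Fin r → MvPolynomial (Fin (N + 1)) M)
    (hF : ∀ i, (F i).IsHomogeneous (d i)) :
    coeffField k F =
      IntermediateField.adjoin k
        (Set.range fun p : Ix (Fin (N + 1)) d => cf (d p.1) (F p.1) p.2) := by
  refine le_antisymm (IntermediateField.adjoin_le_iff.2 ?_) (IntermediateField.adjoin_le_iff.2 ?_)
  · rintro z ⟨i, m, rfl⟩
    by_cases h : m.degree = d i
    · obtain ⟨J, hJ⟩ := poly_exists_sym m h
      refine IntermediateField.subset_adjoin _ _ ⟨⟨i, J⟩, ?_⟩
      change coeff (Multiset.toFinsupp (J : Multiset (Fin (N + 1)))) (F i) = _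
      rw [hJ]
    · rw [(hF i).coeff_eq_zero h]
      exact zero_mem _
  · rintro z ⟨p, rfl⟩
    exact IntermediateField.subset_adjoin _ _ ⟨p.1, _, rfl⟩

theorem subst_hom {K M : Type*} [CommRing K] [CommRing M] [Algebra K M] {N n : ℕ}
    (g : Matrix (Fin (N + 1)) (Fin (N + 1)) M) (F : MvPolynomial (Fin (N + 1)) K)
    (hF : F.IsHomogeneous n) : (subst g F).IsHomogeneous n := by
  have h := hF.aeval (fun i => ∑ j, MvPolynomial.C (g i j) * MvPolynomial.X j) (n := 1)
    fun i => IsHomogeneous.sum _ _ _ fun j _ => isHomogeneous_C_mul_X _ _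
  rw [one_mul] at h
  exact h

theorem eval_subst {K M : Type*} [CommRing K] [CommRing M] [Algebra K M] {N : ℕ}
    (g : Matrix (Fin (N + 1)) (Fin (N + 1)) M) (F : MvPolynomial (Fin (N + 1)) K)
    (x : Fin (N + 1) → M) : eval x (subst g F) = aeval (g.mulVec x) F := by
  have h1 : ∀ G : MvPolynomial (Fin (N + 1)) M, eval x G = aeval (R := M) x G := fun G => by
    rw [aeval_def, eval₂_eq_eval_map]
    simp
  rw [subst]
  have h2 : ((aeval (R := M) x).restrictScalars K).comp
      (aeval (R := K) fun i => ∑ j, MvPolynomial.C (g i j) * MvPolynomial.X j) =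
      aeval (R := K) (g.mulVec x) := by
    refine MvPolynomial.algHom_ext fun i => ?_
    simp only [AlgHom.comp_apply, aeval_X, AlgHom.restrictScalars_apply, map_sum, map_mul,
      aeval_C, Algebra.algebraMap_self, RingHom.id_apply, Matrix.mulVec, dotProduct]
  rw [h1, ← h2]
  rfl

/-- the monomials of `h x` are combinations of the monomials of `x` with coefficients in the ring
generated by the entries of `h` -/
theorem mon_mulVec {M : Type*} [CommRing M] {N n : ℕ}
    (h : Matrix (Fin (N + 1)) (Fin (N + 1)) M) (A : Subring M) (hA : ∀ i j, h i j ∈ A)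
    (J : Sym (Fin (N + 1)) n) :
    ∃ b : Sym (Fin (N + 1)) n → M, (∀ J', b J' ∈ A) ∧
      ∀ x : Fin (N + 1) → M, mon (h.mulVec x) J = ∑ J', b J' * mon x J' := by
  set h' : Matrix (Fin (N + 1)) (Fin (N + 1)) A := fun i j => ⟨h i j, hA i j⟩ with hh'
  set P : MvPolynomial (Fin (N + 1)) A := subst h' (monX A J) with hP
  have hP1 : P.IsHomogeneous n := subst_hom h' _ (monX_hom A J)
  refine ⟨fun J' => A.subtype (cf n P J'), fun J' => (cf n P J').2, fun x => ?_⟩
  have h1 := form_cf (map A.subtype P) (hP1.map _) x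
  have h2 : ∀ J', cf n (map A.subtype P) J' = A.subtype (cf n P J') := fun J' => by
    rw [cf, coeff_map, cf]
  rw [form] at h1
  simp only [h2] at h1
  rw [h1, hP]
  have h3 : map A.subtype (subst h' (monX A J)) = subst h (monX M J) := by
    rw [subst, subst, monX, monX, mon, mon]
    simp only [map_multiset_prod, Multiset.map_map]
    refine congrArg Multiset.prod (Multiset.map_congr rfl fun i _ => ?_)
    simp only [Function.comp_apply, aeval_X, map_sum, map_mul, map_C, map_X]
    rfl
  rw [h3, eval_subst, aeval_def, eval₂_eq_eval_map]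
  have h4 : map (algebraMap M M) (monX M J) = monX M J := by
    rw [Algebra.algebraMap_self, map_id]
  rw [h4, eval_monX]

end Pool.Agent.Helper8.LG

end

section

/-! # LG-SEX: sections and the generic fibre; the function field -/

set_option autoImplicit false

open AlgebraicGeometry CategoryTheory CategoryTheory.Limits

namespace Pool.Agent.Helper8.LG

universe u

/-- the inclusion of the generic point is dominant -/
theorem isDominant_fromSpecStalk_genericPoint (B : Scheme.{u}) [IsIntegral B] :
    IsDominant (B.fromSpecStalk (genericPoint B)) := by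
  constructor
  intro x
  have h1 : genericPoint B ∈ Set.range (B.fromSpecStalk (genericPoint B)) :=
    ⟨_, Scheme.fromSpecStalk_closedPoint⟩
  exact closure_mono (Set.singleton_subset_iff.2 h1)
    ((genericPoint_spec B).specializes trivial).mem_closure

/-- sections which agree generically are equal -/
theorem section_ext {B : Scheme.{u}} [IsIntegral B] {U : Scheme.{u}} (π : U ⟶ B)
    [IsSeparated π] (σ σ' : B ⟶ U) (hσ : σ ≫ π = 𝟙 B) (hσ' : σ' ≫ π = 𝟙 B)
    (h : genPt π σ hσ = genPt π σ' hσ') : σ = σ' := by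
  have := isDominant_fromSpecStalk_genericPoint B
  refine ext_of_isDominant_of_isSeparated π (hσ.trans hσ'.symm)
    (B.fromSpecStalk (genericPoint B)) ?_
  have h2 := congrArg (fun f => f ≫ pullback.fst _ _) h
  simpa only [genPt, pullback.lift_fst] using h2

/-- the map from the base ring to the function field through an affine open set -/
theorem germ_appLE_eq_preimage (R : CommRingCat.{u}) {B : Scheme.{u}} [IsIntegral B]
    (s : B ⟶ Spec R) (V : B.Opens) [Nonempty V] (hV : IsAffineOpen V) (e : V ≤ s ⁻¹ᵁ ⊤) :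
    (Scheme.ΓSpecIso R).inv ≫ s.appLE ⊤ V e ≫ B.germToFunctionField V =
      Spec.preimage (B.fromSpecStalk (genericPoint B) ≫ s) := by
  apply Spec.map_injective
  have hmem : genericPoint B ∈ V :=
    ((genericPoint_spec B).mem_open_set_iff V.isOpen).mpr (by simpa using ‹Nonempty V›)
  rw [Spec.map_preimage, ← hV.fromSpecStalk_eq_fromSpecStalk hmem, IsAffineOpen.fromSpecStalk,
    Category.assoc, ← IsAffineOpen.SpecMap_appLE_fromSpec s (isAffineOpen_top (Spec R)) hV e,
    IsAffineOpen.fromSpec_top, Scheme.isoSpec_Spec_inv, Spec.map_comp, Spec.map_comp,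
    Category.assoc]

/-- the function field of an integral scheme locally of finite type over `R` -/
theorem exists_affine_ft (R : CommRingCat.{u}) {B : Scheme.{u}} [IsIntegral B]
    (s : B ⟶ Spec R) [LocallyOfFiniteType s] (k₀ : Subfield B.functionField)
    (hk₀ : ∀ r : R,
      (Spec.preimage (B.fromSpecStalk (genericPoint B) ≫ s)).hom r ∈ k₀) :
    ∃ (V : B.Opens) (_ : Nonempty V), IsAffineOpen V ∧
      (∃ A : Subalgebra k₀ B.functionField, A.FG ∧
        ∀ b : Γ(B, V), B.germToFunctionField V b ∈ A) ∧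
      (⊤ : IntermediateField k₀ B.functionField).FG := by
  classical
  obtain ⟨_, ⟨V, hV, rfl⟩, hmem, -⟩ :=
    B.isBasis_affineOpens.exists_subset_of_mem_open (Set.mem_univ (genericPoint B)) isOpen_univ
  have hV' : IsAffineOpen V := hV
  have hne : Nonempty V := ⟨⟨_, hmem⟩⟩
  have e : V ≤ s ⁻¹ᵁ ⊤ := le_top
  have hft : (s.appLE ⊤ V e).hom.FiniteType :=
    s.finiteType_appLE (isAffineOpen_top (Spec R)) hV' e
  have hft2 : ((s.appLE ⊤ V e).hom.comp (Scheme.ΓSpecIso R).inv.hom).FiniteType := by
    apply RingHom.FiniteType.comp hft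
    apply RingHom.FiniteType.of_surjective
    exact (ConcreteCategory.bijective_of_isIso (Scheme.ΓSpecIso R).inv).2
  set φ : R →+* Γ(B, V) := (s.appLE ⊤ V e).hom.comp (Scheme.ΓSpecIso R).inv.hom with hφ
  have hkey : ∀ r : R, B.germToFunctionField V (φ r) ∈ k₀ := by
    intro r
    have h1 := hk₀ r
    rw [← germ_appLE_eq_preimage R s V hV' e] at h1
    simpa [hφ] using h1
  let _ : Algebra R Γ(B, V) := φ.toAlgebra
  obtain ⟨T, hT⟩ := hft2.out
  let γ : Γ(B, V) →+* B.functionField := (B.germToFunctionField V).hom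
  let A : Subalgebra k₀ B.functionField := Algebra.adjoin k₀ ((T.image γ : Finset _) : Set _)
  have hA : ∀ b : Γ(B, V), γ b ∈ A := by
    intro b
    have hb : b ∈ Algebra.adjoin R (T : Set Γ(B, V)) := by
      rw [hT]; trivial
    induction hb using Algebra.adjoin_induction with
    | mem x hx =>
      apply Algebra.subset_adjoin
      simp only [Finset.coe_image]
      exact ⟨x, hx, rfl⟩
    | algebraMap r => exact A.algebraMap_mem ⟨_, hkey r⟩
    | add x y _ _ hx hy => rw [map_add]; exact A.add_mem hx hy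
    | mul x y _ _ hx hy => rw [map_mul]; exact A.mul_mem hx hy
  refine ⟨V, hne, hV', ⟨A, ⟨_, rfl⟩, hA⟩, ⟨T.image γ, ?_⟩⟩
  rw [eq_top_iff]
  intro x _
  have := functionField_isFractionRing_of_isAffineOpen B V hV'
  obtain ⟨a, b, -, hx⟩ := IsFractionRing.div_surjective (A := Γ(B, V)) x
  have hsub : ∀ c : Γ(B, V), γ c ∈ IntermediateField.adjoin k₀
      ((T.image γ : Finset _) : Set B.functionField) := fun c =>
    IntermediateField.algebra_adjoin_le_adjoin k₀ _ (hA c)
  rw [← hx]
  exact IntermediateField.div_mem _ (hsub a) (hsub b)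

end Pool.Agent.Helper8.LG

end
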