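import Pool.Agent.Helper74.MG.T01

section

/-! # LG-KPT: coordinates of points, rational points over a field -/

set_option autoImplicit false

open AlgebraicGeometry CategoryTheory CategoryTheory.Limits MvPolynomial

namespace Pool.Agent.Helper8.LG

attribute [local instance] MvPolynomial.gradedAlgebra

universe u

private theorem kpt_eval_smul {N n : ℕ} {K : Type*} [CommRing K] (F : MvPolynomial (Fin (N + 1)) K)
    (hF : F.IsHomogeneous n) (c : K) (x : Fin (N + 1) → K) :
    eval (fun i => c * x i) F = c ^ n * eval x F := by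
  rw [eval_eq, eval_eq, Finset.mul_sum]
  refine Finset.sum_congr rfl fun s hs => ?_
  have h1 : ∑ i ∈ s.support, s i = n := by
    have h2 := hF (mem_support_iff.1 hs)
    simpa [Finsupp.weight_apply, Finsupp.sum] using h2
  have h3 : ∏ i ∈ s.support, (c * x i) ^ s i = c ^ n * ∏ i ∈ s.support, x i ^ s i := by
    rw [← h1, ← Finset.prod_pow_eq_pow_sum, ← Finset.prod_mul_distrib]
    exact Finset.prod_congr rfl fun i _ => mul_pow _ _ _
  rw [h3]
  ring

/-- coordinates are unique up to a scalar -/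
theorem coord_unique {N : ℕ} {K : Type u} [Field K] {z : PN N K} {x x' : Fin (N + 1) → K}
    (hx : IsCoord z x) (hx' : IsCoord z x') : ∃ c : K, c ≠ 0 ∧ ∀ i, x' i = c * x i := by
  obtain ⟨j, hj⟩ : ∃ j, x j ≠ 0 := by
    by_contra h
    push Not at h
    exact hx.1 (funext h)
  have h1 : ∀ i, x j * x' i = x i * x' j := by
    intro i
    have h2 : (C (x j) * X i - C (x i) * X j : MvPolynomial (Fin (N + 1)) K).IsHomogeneous 1 :=
      ((isHomogeneous_C_mul_X _ _).sub (isHomogeneous_C_mul_X _ _))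
    have h3 := (hx.2 1 _ h2).2 (by simp; ring)
    have h4 := (hx'.2 1 _ h2).1 h3
    simp only [map_sub, map_mul, eval_C, eval_X] at h4
    exact sub_eq_zero.1 h4
  have h5 : x' j ≠ 0 := by
    intro h
    apply hx'.1
    funext i
    have h6 := h1 i
    rw [h, mul_zero] at h6
    exact (mul_eq_zero.1 h6).resolve_left hj
  refine ⟨x' j / x j, div_ne_zero h5 hj, fun i => ?_⟩
  rw [div_mul_eq_mul_div, eq_div_iff hj]
  linear_combination h1 i

/-- scaling coordinates -/
theorem coord_smul {N : ℕ} {K : Type u} [Field K] {z : PN N K} {x : Fin (N + 1) → K}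
    (hx : IsCoord z x) (c : K) (hc : c ≠ 0) : IsCoord z fun i => c * x i := by
  refine ⟨?_, fun n F hF => ?_⟩
  · intro h
    apply hx.1
    funext i
    have h1 := congrFun h i
    exact (mul_eq_zero.1 h1).resolve_left hc
  · rw [hx.2 n F hF, kpt_eval_smul F hF]
    exact ⟨fun h => by rw [h, mul_zero], fun h => (mul_eq_zero.1 h).resolve_left (pow_ne_zero _ hc)⟩

/-- coordinates determine the point -/
theorem point_unique {N : ℕ} {K : Type u} [Field K] {z z' : PN N K} {x : Fin (N + 1) → K}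
    (hx : IsCoord z x) (hx' : IsCoord z' x) : z = z' := by
  apply ProjectiveSpectrum.ext
  apply HomogeneousIdeal.ext'
  intro n F hF
  have hF' : F.IsHomogeneous n := hF
  exact (hx.2 n F hF').trans (hx'.2 n F hF').symm

/-- a rational point of a scheme over a field is determined by its image point -/
theorem kpoint_ext {K : Type u} [Field K] {X : Scheme.{u}} (f : X ⟶ Spec (.of K))
    (p p' : Spec (.of K) ⟶ X) (hp : p ≫ f = 𝟙 _) (hp' : p' ≫ f = 𝟙 _) (t : Spec (.of K))
    (h : p t = p' t) : p = p' := by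
  obtain ⟨⟨x, a⟩, rfl⟩ := (Scheme.SpecToEquivOfField K X).symm.surjective p
  obtain ⟨⟨x', a'⟩, rfl⟩ := (Scheme.SpecToEquivOfField K X).symm.surjective p'
  simp only [Scheme.SpecToEquivOfField_symm_apply] at *
  have h1 : x = x' := by
    rw [Scheme.Hom.comp_apply, Scheme.Hom.comp_apply, Scheme.fromSpecResidueField_apply,
      Scheme.fromSpecResidueField_apply] at h
    exact h
  subst h1
  obtain ⟨b, hb⟩ : ∃ b : CommRingCat.of K ⟶ X.residueField x,
      Spec.map b = X.fromSpecResidueField x ≫ f := ⟨Spec.preimage _, Spec.map_preimage _⟩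
  rw [Category.assoc, ← hb, ← Spec.map_comp] at hp hp'
  have h2 : b ≫ a = 𝟙 _ := Spec.map_injective (by rw [hp, Spec.map_id])
  have h3 : b ≫ a' = 𝟙 _ := Spec.map_injective (by rw [hp', Spec.map_id])
  have h4 : a = a' := by
    ext y
    have h5 : ∀ k : K, a.hom (b.hom k) = k := fun k => by
      have := congrArg (fun f => f.hom k) h2
      exact this
    have h6 : ∀ k : K, a'.hom (b.hom k) = k := fun k => by
      have := congrArg (fun f => f.hom k) h3
      exact this
    have h7 : b.hom (a.hom y) = y := a.hom.injective (h5 _)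
    have h8 := h6 (a.hom y)
    rw [h7] at h8
    exact h8.symm
  rw [h4]

end Pool.Agent.Helper8.LG

end

section

/-! # LG-PT: rational points of projective space -/

set_option autoImplicit false

open AlgebraicGeometry CategoryTheory CategoryTheory.Limits MvPolynomial

namespace Pool.Agent.Helper8.LG

attribute [local instance] MvPolynomial.gradedAlgebra

universe u

private theorem pt_mem_away {N : ℕ} {K : Type u} [Field K] {m n : ℕ}
    (F : MvPolynomial (Fin (N + 1)) K)
    (hF : F ∈ homogeneousSubmodule (Fin (N + 1)) K m) (hm : 0 < m)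
    (ψ : HomogeneousLocalization.Away (homogeneousSubmodule (Fin (N + 1)) K) F →+* K)
    (t : Spec (.of K)) (G : MvPolynomial (Fin (N + 1)) K)
    (hG : G ∈ homogeneousSubmodule (Fin (N + 1)) K n) (hn : 0 < n) :
    G ∈ ((Spec.map (CommRingCat.ofHom ψ) ≫ Proj.awayι _ F hF hm) t).asHomogeneousIdeal ↔
      ψ (HomogeneousLocalization.Away.isLocalizationElem hF hG) = 0 := by
  have h := Proj.awayι_preimage_basicOpen (homogeneousSubmodule (Fin (N + 1)) K) hF hm hG hn
  have h1 : (Spec.map (CommRingCat.ofHom ψ) t) ∈ (Proj.awayι _ F hF hm) ⁻¹ᵁ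
      (Proj.basicOpen (homogeneousSubmodule (Fin (N + 1)) K) G) ↔
      (Spec.map (CommRingCat.ofHom ψ) t) ∈ PrimeSpectrum.basicOpen
        (HomogeneousLocalization.Away.isLocalizationElem hF hG) := by
    rw [h]
    rfl
  have h2 : (Spec.map (CommRingCat.ofHom ψ) t) ∈ (Proj.awayι _ F hF hm) ⁻¹ᵁ
      (Proj.basicOpen (homogeneousSubmodule (Fin (N + 1)) K) G) ↔
      ¬ (G ∈ ((Spec.map (CommRingCat.ofHom ψ) ≫ Proj.awayι _ F hF hm) t).asHomogeneousIdeal) :=
    Iff.rfl
  have h3 : (Spec.map (CommRingCat.ofHom ψ) t) ∈ PrimeSpectrum.basicOpen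
        (HomogeneousLocalization.Away.isLocalizationElem hF hG) ↔
      ¬ (ψ (HomogeneousLocalization.Away.isLocalizationElem hF hG) ∈ t.asIdeal) := Iff.rfl
  have h4 : t.asIdeal = (⊥ : Ideal K) := Ideal.eq_bot_of_prime _
  rw [h4] at h3
  have h5 : ψ (HomogeneousLocalization.Away.isLocalizationElem hF hG) ∈ (⊥ : Ideal K) ↔
      ψ (HomogeneousLocalization.Away.isLocalizationElem hF hG) = 0 := Ideal.mem_bot
  tauto

/-- `ψ` is the identity on the scalars -/
private theorem pt_scalar {N : ℕ} {K : Type u} [Field K] {m : ℕ}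
    (F : MvPolynomial (Fin (N + 1)) K)
    (hF : F ∈ homogeneousSubmodule (Fin (N + 1)) K m) (hm : 0 < m)
    (ψ : HomogeneousLocalization.Away (homogeneousSubmodule (Fin (N + 1)) K) F →+* K)
    (hψ : Spec.map (CommRingCat.ofHom ψ) ≫ Proj.awayι _ F hF hm ≫ PN.toSpec N K = 𝟙 _) (c : K) :
    ψ (HomogeneousLocalization.fromZeroRingHom _ _
      (algebraMap K (homogeneousSubmodule (Fin (N + 1)) K 0) c)) = c := by
  unfold PN.toSpec at hψ
  rw [Proj.awayι_toSpecZero_assoc, ← Spec.map_comp, ← Spec.map_comp, ← Spec.map_id] at hψ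
  have h := Spec.map_injective hψ
  have h1 := congrArg (fun f => f.hom c) h
  exact h1

/-- a form not in the prime of a point of `D₊(F)` -/
private theorem pt_not_mem {N : ℕ} {K : Type u} [Field K] {m : ℕ}
    (F : MvPolynomial (Fin (N + 1)) K)
    (hF : F ∈ homogeneousSubmodule (Fin (N + 1)) K m) (hm : 0 < m)
    (ψ : HomogeneousLocalization.Away (homogeneousSubmodule (Fin (N + 1)) K) F →+* K)
    (t : Spec (.of K)) :
    F ∉ ((Spec.map (CommRingCat.ofHom ψ) ≫ Proj.awayι _ F hF hm) t).asHomogeneousIdeal := by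
  rw [pt_mem_away F hF hm ψ t F hF hm]
  have h : HomogeneousLocalization.Away.isLocalizationElem hF hF = 1 := by
    ext
    rw [HomogeneousLocalization.Away.val_mk, HomogeneousLocalization.val_one]
    exact Localization.mk_self (⟨F ^ m, m, rfl⟩ : Submonoid.powers F)
  rw [h, map_one]
  exact one_ne_zero

/-- some coordinate does not vanish -/
private theorem pt_exists_X {N : ℕ} {K : Type u} [Field K] (z : PN N K) :
    ∃ j, (X j : MvPolynomial (Fin (N + 1)) K) ∉ z.asHomogeneousIdeal := by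
  by_contra! h
  refine z.not_irrelevant_le ?_
  intro p hp
  have hp1 := (HomogeneousIdeal.mem_irrelevant_iff _ _).1 hp
  have hp2 : homogeneousComponent 0 p = 0 := (decomposition.decompose'_apply p 0).symm.trans hp1
  rw [homogeneousComponent_zero, C_eq_zero] at hp2
  have h1 : p ∈ Ideal.span (MvPolynomial.X '' (Set.univ : Set (Fin (N + 1)))) := by
    rw [mem_ideal_span_X_image]
    intro m hm
    by_contra! h2
    have h3 : m = 0 := by
      ext i
      exact h2 i (Set.mem_univ i)
    rw [h3, mem_support_iff] at hm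
    exact hm hp2
  have h4 : Ideal.span (MvPolynomial.X '' (Set.univ : Set (Fin (N + 1)))) ≤
      z.asHomogeneousIdeal.toIdeal := by
    rw [Ideal.span_le]
    rintro _ ⟨i, -, rfl⟩
    exact h i
  exact h4 h1

private theorem pt_eval_hom {N n : ℕ} {K : Type u} [Field K] {S : Type u} [CommRing S]
    (G : MvPolynomial (Fin (N + 1)) K) (hG : G.IsHomogeneous n)
    (a : MvPolynomial (Fin (N + 1)) K →+* S) (s : S) :
    eval₂ (a.comp C) (fun i => a (X i) * s) G = a G * s ^ n := by
  rw [eval₂_eq']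
  have e4 : ∀ d ∈ G.support, (a.comp C) (coeff d G) * ∏ i, (a (X i) * s) ^ d i =
      a (monomial d (coeff d G)) * s ^ n := by
    intro d hd
    have h1 : ∑ i, d i = n := by
      have h2 := hG.degree_eq_sum_deg_support hd
      rw [h2]
      exact (Finset.sum_subset (Finset.subset_univ _) fun i _ hi => by
        simpa using hi).symm
    simp only [mul_pow]
    rw [Finset.prod_mul_distrib, Finset.prod_pow_eq_pow_sum, h1, ← mul_assoc]
    congr 1
    rw [monomial_eq, map_mul, Finsupp.prod_fintype _ _ (by simp), map_prod]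
    simp only [map_pow]
    rfl
  rw [Finset.sum_congr rfl e4, ← Finset.sum_mul, ← map_sum, ← MvPolynomial.as_sum]

/-- the function `X_i / X_j` -/
private noncomputable def ptY {N : ℕ} (K : Type u) [Field K] (j i : Fin (N + 1)) :
    HomogeneousLocalization.Away (homogeneousSubmodule (Fin (N + 1)) K) (X j) :=
  HomogeneousLocalization.Away.mk _ ((mem_homogeneousSubmodule 1 _).2 (isHomogeneous_X K j)) 1
    (X i) ((mem_homogeneousSubmodule _ _).2 (isHomogeneous_X K i))

/-- the scalars -/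
private noncomputable def ptC {N : ℕ} (K : Type u) [Field K] (j : Fin (N + 1)) :
    K →+* HomogeneousLocalization.Away (homogeneousSubmodule (Fin (N + 1)) K) (X j) :=
  (HomogeneousLocalization.fromZeroRingHom _ _).comp
        (algebraMap K (homogeneousSubmodule (Fin (N + 1)) K 0))

/-- dehomogenisation -/
private theorem pt_dehom {N : ℕ} {K : Type u} [Field K] (j : Fin (N + 1)) {n : ℕ}
    (G : MvPolynomial (Fin (N + 1)) K) (hG : G.IsHomogeneous n)
    (hG' : G ∈ homogeneousSubmodule (Fin (N + 1)) K (n • 1)) :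
    HomogeneousLocalization.Away.mk (homogeneousSubmodule (Fin (N + 1)) K)
      ((mem_homogeneousSubmodule 1 _).2 (isHomogeneous_X K j)) n G hG' =
      eval₂ (ptC K j) (ptY K j) G := by
  apply HomogeneousLocalization.val_injective
  have e5 : (⟨X j ^ 1, 1, rfl⟩ : Submonoid.powers (X j : MvPolynomial (Fin (N + 1)) K)) =
        ⟨X j, Submonoid.mem_powers _⟩ := Subtype.ext (pow_one _)
  have h1 := pt_eval_hom G hG (algebraMap _ (Localization.Away (X j :
    MvPolynomial (Fin (N + 1)) K))) (Localization.mk 1 ⟨X j, Submonoid.mem_powers _⟩)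
  have h2 := hom_eval₂ G (ptC K j) (algebraMap _ (Localization.Away (X j :
    MvPolynomial (Fin (N + 1)) K))) (ptY K j)
  refine Eq.trans ?_ (h1.symm.trans (Eq.trans ?_ h2.symm))
  · rw [HomogeneousLocalization.Away.val_mk, ← Localization.mk_one_eq_algebraMap,
      Localization.mk_pow, Localization.mk_mul, one_pow, mul_one, one_mul]
    rfl
  · congr 1
    · funext c
      rw [← Localization.mk_one_eq_algebraMap, Localization.mk_mul, mul_one, one_mul, ← e5]
      rfl

/-- the values of the functions `G / F` at a rational point -/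
theorem away_eval {N : ℕ} {K : Type u} [Field K] {n : ℕ} (F : MvPolynomial (Fin (N + 1)) K)
    (hF : F ∈ homogeneousSubmodule (Fin (N + 1)) K n) (hn : 0 < n)
    (ψ : HomogeneousLocalization.Away (homogeneousSubmodule (Fin (N + 1)) K) F →+* K)
    (hψ : Spec.map (CommRingCat.ofHom ψ) ≫ Proj.awayι _ F hF hn ≫ PN.toSpec N K = 𝟙 _)
    (t : Spec (.of K)) (x : Fin (N + 1) → K)
    (hx : IsCoord ((Spec.map (CommRingCat.ofHom ψ) ≫ Proj.awayι _ F hF hn) t) x)
    (G : MvPolynomial (Fin (N + 1)) K) (hG : G ∈ homogeneousSubmodule (Fin (N + 1)) K n) :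
    ψ (HomogeneousLocalization.mk ⟨n, ⟨G, hG⟩, ⟨F, hF⟩, Submonoid.mem_powers F⟩) =
      eval x G / eval x F := by
  have hF0 : eval x F ≠ 0 := fun h =>
    pt_not_mem F hF hn ψ t ((hx.2 n F ((mem_homogeneousSubmodule n F).1 hF)).2 h)
  set c : K := eval x G / eval x F with hc
  set H : MvPolynomial (Fin (N + 1)) K := G - c • F with hH
  have hHm : H ∈ homogeneousSubmodule (Fin (N + 1)) K n :=
    Submodule.sub_mem _ hG (Submodule.smul_mem _ c hF)
  have hH0 : eval x H = 0 := by
    rw [hH, map_sub, smul_eval, hc, div_mul_cancel₀ _ hF0, sub_self]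
  have h1 := (pt_mem_away F hF hn ψ t H hHm hn).1
    ((hx.2 n H ((mem_homogeneousSubmodule n H).1 hHm)).2 hH0)
  have h2 : HomogeneousLocalization.Away.isLocalizationElem hF hHm =
      (HomogeneousLocalization.mk ⟨n, ⟨H, hHm⟩, ⟨F, hF⟩, Submonoid.mem_powers F⟩ :
        HomogeneousLocalization.Away (homogeneousSubmodule (Fin (N + 1)) K) F) ^ n := by
    ext
    rw [HomogeneousLocalization.Away.val_mk, HomogeneousLocalization.val_pow,
      HomogeneousLocalization.val_mk, Localization.mk_pow]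
    rfl
  rw [h2, map_pow] at h1
  have h3 := eq_zero_of_pow_eq_zero h1
  have h4 : (HomogeneousLocalization.mk ⟨n, ⟨H, hHm⟩, ⟨F, hF⟩, Submonoid.mem_powers F⟩ :
        HomogeneousLocalization.Away (homogeneousSubmodule (Fin (N + 1)) K) F) =
      HomogeneousLocalization.mk ⟨n, ⟨G, hG⟩, ⟨F, hF⟩, Submonoid.mem_powers F⟩ -
        HomogeneousLocalization.fromZeroRingHom _ _
          (algebraMap K (homogeneousSubmodule (Fin (N + 1)) K 0) c) := by
    ext
    have e1 : (HomogeneousLocalization.fromZeroRingHom (homogeneousSubmodule (Fin (N + 1)) K)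
        (Submonoid.powers F) (algebraMap K (homogeneousSubmodule (Fin (N + 1)) K 0) c)).val =
        Localization.mk (MvPolynomial.C c) 1 := rfl
    rw [HomogeneousLocalization.val_sub, e1, HomogeneousLocalization.val_mk,
      HomogeneousLocalization.val_mk, Localization.sub_mk]
    congr 1
    · simp only [hH, smul_eq_C_mul]
      simp [mul_comm]
    · simp
  rw [h4, map_sub, pt_scalar F hF hn ψ hψ] at h3
  exact sub_eq_zero.1 h3

theorem exists_coord {N : ℕ} {K : Type u} [Field K] (p : Spec (.of K) ⟶ PN N K)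
    (hp : p ≫ PN.toSpec N K = 𝟙 _) (t : Spec (.of K)) : ∃ x, IsCoord (p t) x := by
  obtain ⟨j, hj⟩ := pt_exists_X (p t)
  have hXj := (mem_homogeneousSubmodule 1 _).2 (isHomogeneous_X K j)
  have hr : Set.range p ⊆ Set.range
      (Proj.awayι (homogeneousSubmodule (Fin (N + 1)) K) (X j) hXj one_pos) := by
    rintro _ ⟨t', rfl⟩
    have h1 : t' = t := by
      apply PrimeSpectrum.ext
      have h4 : t.asIdeal = (⊥ : Ideal K) := Ideal.eq_bot_of_prime _
      have h5 : t'.asIdeal = (⊥ : Ideal K) := Ideal.eq_bot_of_prime _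
      rw [h4, h5]
    rw [h1]
    have h2 : p t ∈ (Proj.awayι (homogeneousSubmodule (Fin (N + 1)) K) (X j) hXj
        one_pos).opensRange := by
      rw [Proj.opensRange_awayι]
      exact hj
    exact h2
  obtain ⟨ψ, hψ⟩ : ∃ ψ : HomogeneousLocalization.Away
      (homogeneousSubmodule (Fin (N + 1)) K) (X j) →+* K,
      p = Spec.map (CommRingCat.ofHom ψ) ≫ Proj.awayι _ (X j) hXj one_pos := by
    refine ⟨(Spec.preimage (IsOpenImmersion.lift (Proj.awayι _ (X j) hXj one_pos) p hr)).hom, ?_⟩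
    rw [CommRingCat.ofHom_hom, Spec.map_preimage, IsOpenImmersion.lift_fac]
  have hψ1 : Spec.map (CommRingCat.ofHom ψ) ≫ Proj.awayι _ (X j) hXj one_pos ≫ PN.toSpec N K =
      𝟙 _ := by
    rw [← Category.assoc, ← hψ, hp]
  set x : Fin (N + 1) → K := fun i => ψ (ptY K j i) with hxdef
  have hev : ∀ (n : ℕ) (G : MvPolynomial (Fin (N + 1)) K) (_ : G.IsHomogeneous n)
      (hG' : G ∈ homogeneousSubmodule (Fin (N + 1)) K (n • 1)),
      ψ (HomogeneousLocalization.Away.mk (homogeneousSubmodule (Fin (N + 1)) K) hXj n G hG') =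
        eval x G := by
    intro n G hG hG'
    rw [pt_dehom j G hG hG', hom_eval₂]
    have h1 : ψ.comp (ptC K j) = RingHom.id K := by
      ext c
      exact pt_scalar (X j) hXj one_pos ψ hψ1 c
    rw [h1]
    rfl
  refine ⟨x, ?_, ?_⟩
  · intro h0
    have h1 := hev 1 (X j) (isHomogeneous_X K j) hXj
    rw [h0] at h1
    have h2 : HomogeneousLocalization.Away.mk (homogeneousSubmodule (Fin (N + 1)) K) hXj 1 (X j)
        hXj = 1 := by
      ext
      rw [HomogeneousLocalization.Away.val_mk, HomogeneousLocalization.val_one]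
      simp
    rw [h2, map_one] at h1
    simp at h1
  · intro n F hF
    rcases Nat.eq_zero_or_pos n with hn | hn
    · subst hn
      obtain ⟨c, rfl⟩ : ∃ c : K, F = C c :=
        ⟨_, totalDegree_eq_zero_iff_eq_C.1 ((totalDegree_zero_iff_isHomogeneous _).2 hF)⟩
      rw [eval_C]
      constructor
      · intro h1
        by_contra hc
        have h2 : (1 : MvPolynomial (Fin (N + 1)) K) ∈ (p t).asHomogeneousIdeal.toIdeal := by
          have h3 := Ideal.mul_mem_left (p t).asHomogeneousIdeal.toIdeal (C c⁻¹) h1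
          rwa [← C_mul, inv_mul_cancel₀ hc, C_1] at h3
        exact (p t).isPrime.ne_top ((Ideal.eq_top_iff_one _).2 h2)
      · intro h1
        rw [h1, C_0]
        exact Submodule.zero_mem (p t).asHomogeneousIdeal.toIdeal
    · rw [hψ, pt_mem_away (X j) hXj one_pos ψ t F ((mem_homogeneousSubmodule n F).2 hF) hn]
      have h1 := hev n (F ^ 1) (by rw [pow_one]; exact hF)
        (by rw [pow_one, smul_eq_mul, mul_one]; exact (mem_homogeneousSubmodule n F).2 hF)
      rw [h1, pow_one]

end Pool.Agent.Helper8.LG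

end

section

/-! # LG-SPR: values of regular functions of the generic fibre at sections -/

set_option autoImplicit false

open AlgebraicGeometry CategoryTheory CategoryTheory.Limits

namespace Pool.Agent.Helper8.LG

universe u

open TensorProduct in
private theorem SPR_tensor {A C K : Type u} [CommRing A] [IsDomain A] [CommRing C] [Field K]
    [Algebra A C] [Algebra A K] [IsFractionRing A K] (t : C ⊗[A] K) :
    ∃ s : A, algebraMap A K s ≠ 0 ∧ ∃ c : C,
      ((1 : C) ⊗ₜ[A] (algebraMap A K s)) * t = c ⊗ₜ[A] (1 : K) := by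
  have hinj : Function.Injective (algebraMap A K) := IsFractionRing.injective A K
  induction t using TensorProduct.induction_on with
  | zero => exact ⟨1, by simp, 0, by simp⟩
  | tmul c k =>
    obtain ⟨a, s, rfl⟩ := IsLocalization.exists_mk'_eq (nonZeroDivisors A) k
    refine ⟨s, ?_, a • c, ?_⟩
    · intro h
      exact nonZeroDivisors.ne_zero s.2 (hinj (by rw [h, map_zero]))
    · rw [Algebra.TensorProduct.tmul_mul_tmul, one_mul, IsLocalization.mk'_spec',
        TensorProduct.smul_tmul, Algebra.smul_def, mul_one]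
  | add t₁ t₂ h₁ h₂ =>
    obtain ⟨s₁, hs₁, c₁, e₁⟩ := h₁
    obtain ⟨s₂, hs₂, c₂, e₂⟩ := h₂
    refine ⟨s₁ * s₂, by rw [map_mul]; exact mul_ne_zero hs₁ hs₂,
      s₂ • c₁ + s₁ • c₂, ?_⟩
    have f₁ : ((1 : C) ⊗ₜ[A] (algebraMap A K (s₁ * s₂))) =
        ((1 : C) ⊗ₜ[A] (algebraMap A K s₂)) * ((1 : C) ⊗ₜ[A] (algebraMap A K s₁)) := by
      rw [Algebra.TensorProduct.tmul_mul_tmul, one_mul, map_mul, mul_comm]
    have f₂ : ((1 : C) ⊗ₜ[A] (algebraMap A K (s₁ * s₂))) =
        ((1 : C) ⊗ₜ[A] (algebraMap A K s₁)) * ((1 : C) ⊗ₜ[A] (algebraMap A K s₂)) := by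
      rw [Algebra.TensorProduct.tmul_mul_tmul, one_mul, map_mul]
    rw [mul_add]
    conv_lhs =>
      congr
      · rw [f₁, mul_assoc, e₁]
      · rw [f₂, mul_assoc, e₂]
    rw [Algebra.TensorProduct.tmul_mul_tmul, Algebra.TensorProduct.tmul_mul_tmul, one_mul,
      one_mul, mul_one, mul_one, TensorProduct.add_tmul, TensorProduct.smul_tmul,
      TensorProduct.smul_tmul, Algebra.smul_def, Algebra.smul_def, mul_one, mul_one]

private theorem SPR_mem {B : Scheme.{u}} [IsIntegral B] (V : B.Opens) (b : B) (hb : b ∈ V) :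
    genericPoint B ∈ V :=
  ((genericPoint_spec B).mem_open_set_iff V.isOpen).mpr ⟨b, trivial, hb⟩

private theorem SPR_glue {B : Scheme.{u}} [IsIntegral B] (V : B.Opens) [Nonempty V]
    (x : B.functionField)
    (h : ∀ b : V, ∃ (W : B.Opens) (_ : (b : B) ∈ W) (hη : genericPoint B ∈ W) (f : Γ(B, W)),
      W ≤ V ∧ B.presheaf.germ W (genericPoint B) hη f = x) :
    ∃ f : Γ(B, V), B.germToFunctionField V f = x := by
  choose W hW hη f hle hf using h
  have hcomp : TopCat.Presheaf.IsCompatible B.presheaf W f := by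
    intro i j
    have hij : genericPoint B ∈ W i ⊓ W j := ⟨hη i, hη j⟩
    apply germ_injective_of_isIntegral B (genericPoint B) hij
    rw [TopCat.Presheaf.germ_res_apply, TopCat.Presheaf.germ_res_apply, hf, hf]
  obtain ⟨s, hs, -⟩ := B.sheaf.existsUnique_gluing' W V (fun b => homOfLE (hle b))
    (fun b hb => TopologicalSpace.Opens.mem_iSup.mpr ⟨⟨b, hb⟩, hW ⟨b, hb⟩⟩) f hcomp
  refine ⟨s, ?_⟩
  obtain ⟨b⟩ := (inferInstance : Nonempty V)
  rw [← hf b, ← hs b]
  exact (TopCat.Presheaf.germ_res_apply B.presheaf (homOfLE (hle b)) (genericPoint B) (hη b)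
    s).symm


/-- the value of a regular function of the generic fibre at the rational point of a section -/
noncomputable def genVal {B : Scheme.{u}} [IsIntegral B] {U : Scheme.{u}} (π : U ⟶ B)
    (σ : B ⟶ U) (hσ : σ ≫ π = 𝟙 B) (φ : Γ(genFib π, ⊤)) : B.functionField :=
  (Scheme.ΓSpecIso B.functionField).hom ((genPt π σ hσ).appTop φ)

private theorem SPR_comm {B : Scheme.{u}} [IsIntegral B] (V W : B.Opens) (f : B ⟶ B)
    (hf : f = 𝟙 B) (e : W ≤ f ⁻¹ᵁ V) (hV : genericPoint B ∈ V) (hW : genericPoint B ∈ W) :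
    f.appLE V W e ≫ B.presheaf.germ W (genericPoint B) hW =
      B.presheaf.germ V (genericPoint B) hV := by
  subst hf
  rw [Scheme.Hom.appLE, Scheme.Hom.id_app]
  erw [Category.id_comp]
  exact TopCat.Presheaf.germ_res _ _ _ _

open TensorProduct in
private theorem SPR_local {B : Scheme.{u}} [IsIntegral B] {U : Scheme.{u}} (π : U ⟶ B)
    (V : B.Opens) [Nonempty V] (hV : IsAffineOpen V) (W : U.Opens) (hW : IsAffineOpen W)
    (hle : W ≤ π ⁻¹ᵁ V) (φ : Γ(genFib π, ⊤)) :
    ∃ s : Γ(B, V), B.germToFunctionField V s ≠ 0 ∧ ∃ c : Γ(U, W),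
      ∀ (σ : B ⟶ U) (hσ : σ ≫ π = 𝟙 B) (hη : genericPoint B ∈ σ ⁻¹ᵁ W),
        B.germToFunctionField V s * genVal π σ hσ φ =
          B.presheaf.germ (σ ⁻¹ᵁ W) (genericPoint B) hη (σ.app W c) := by
  have hηV : genericPoint B ∈ V := by
    obtain ⟨b⟩ := (inferInstance : Nonempty V)
    exact SPR_mem V b.1 b.2
  have : IsFractionRing Γ(B, V) B.functionField :=
    functionField_isFractionRing_of_isAffineOpen B V hV
  let algC : Algebra Γ(B, V) Γ(U, W) := (π.appLE V W hle).hom.toAlgebra
  let iL : Γ(U, W) ⟶ CommRingCat.of (Γ(U, W) ⊗[Γ(B, V)] B.functionField) :=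
    CommRingCat.ofHom Algebra.TensorProduct.includeLeftRingHom
  let iR : B.functionField ⟶ CommRingCat.of (Γ(U, W) ⊗[Γ(B, V)] B.functionField) :=
    CommRingCat.ofHom
      (Algebra.TensorProduct.includeRight (R := Γ(B, V)) (A := Γ(U, W))
        (B := B.functionField)).toRingHom
  have hcomp : π.appLE V W hle ≫ iL = B.germToFunctionField V ≫ iR := by
    ext a
    change (algebraMap Γ(B, V) Γ(U, W) a) ⊗ₜ[Γ(B, V)] (1 : B.functionField) =
      (1 : Γ(U, W)) ⊗ₜ[Γ(B, V)] (algebraMap Γ(B, V) B.functionField a)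
    rw [Algebra.algebraMap_eq_smul_one, Algebra.algebraMap_eq_smul_one,
      TensorProduct.smul_tmul]
  have hcompat : (Spec.map iL ≫ hW.fromSpec) ≫ π =
      Spec.map iR ≫ B.fromSpecStalk (genericPoint B) := by
    rw [Category.assoc, ← IsAffineOpen.SpecMap_appLE_fromSpec π hV hW hle,
      ← Spec.map_comp_assoc, hcomp, Spec.map_comp_assoc,
      ← hV.fromSpecStalk_eq_fromSpecStalk hηV]
    rfl
  let g : Spec (CommRingCat.of (Γ(U, W) ⊗[Γ(B, V)] B.functionField)) ⟶ genFib π :=
    pullback.lift (Spec.map iL ≫ hW.fromSpec) (Spec.map iR) hcompat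
  let t : Γ(U, W) ⊗[Γ(B, V)] B.functionField :=
    (Scheme.ΓSpecIso (CommRingCat.of (Γ(U, W) ⊗[Γ(B, V)] B.functionField))).hom
      (g.appTop φ)
  obtain ⟨s, hs, c, hc⟩ := SPR_tensor t
  refine ⟨s, hs, c, ?_⟩
  intro σ hσ hη
  let τ : Γ(U, W) ⟶ B.functionField :=
    σ.app W ≫ B.presheaf.germ (σ ⁻¹ᵁ W) (genericPoint B) hη
  have hτ : π.appLE V W hle ≫ τ = B.germToFunctionField V := by
    have h1 : σ ⁻¹ᵁ W ≤ (σ ≫ π) ⁻¹ᵁ V := by
      intro b hb
      exact hle hb
    have h2 := SPR_comm V (σ ⁻¹ᵁ W) (σ ≫ π) hσ h1 hηV hη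
    refine Eq.trans ?_ h2
    change π.appLE V W hle ≫ σ.app W ≫ _ = _
    rw [Scheme.Hom.app_eq_appLE, ← Category.assoc, Scheme.Hom.appLE_comp_appLE]
  let τA : Γ(U, W) →ₐ[Γ(B, V)] B.functionField :=
    { τ.hom with
      commutes' := fun a => by
        have := congrArg (fun f => f.hom a) hτ
        exact this }
  let m : (Γ(U, W) ⊗[Γ(B, V)] B.functionField) →ₐ[Γ(B, V)] B.functionField :=
    Algebra.TensorProduct.productMap τA (AlgHom.id _ _)
  let mc : CommRingCat.of (Γ(U, W) ⊗[Γ(B, V)] B.functionField) ⟶ B.functionField :=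
    CommRingCat.ofHom m.toRingHom
  have hmL : iL ≫ mc = τ := by
    ext a
    change m (a ⊗ₜ[Γ(B, V)] (1 : B.functionField)) = τ a
    rw [Algebra.TensorProduct.productMap_apply_tmul]
    simp only [map_one, mul_one]
    rfl
  have hmR : iR ≫ mc = 𝟙 _ := by
    ext a
    change m ((1 : Γ(U, W)) ⊗ₜ[Γ(B, V)] a) = a
    rw [Algebra.TensorProduct.productMap_apply_tmul]
    simp
  have hpt : Spec.map mc ≫ g = genPt π σ hσ := by
    apply pullback.hom_ext
    · rw [Category.assoc, pullback.lift_fst, genPt, pullback.lift_fst, ← Category.assoc,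
        ← Spec.map_comp, hmL]
      rw [← Scheme.SpecMap_stalkMap_fromSpecStalk σ (x := genericPoint B),
        ← hW.fromSpecStalk_eq_fromSpecStalk hη, IsAffineOpen.fromSpecStalk,
        ← Spec.map_comp_assoc, Scheme.Hom.germ_stalkMap]
    · rw [Category.assoc, pullback.lift_snd, genPt, pullback.lift_snd, ← Spec.map_comp, hmR,
        Spec.map_id]
  have hval : genVal π σ hσ φ = m t := by
    have h3 : (genPt π σ hσ).appTop ≫ (Scheme.ΓSpecIso B.functionField).hom =
        g.appTop ≫ (Scheme.ΓSpecIso (CommRingCat.of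
          (Γ(U, W) ⊗[Γ(B, V)] B.functionField))).hom ≫ mc := by
      rw [← Scheme.ΓSpecIso_naturality, ← hpt, Scheme.Hom.comp_appTop, Category.assoc]
    exact congrArg (fun f => f.hom φ) h3
  rw [hval]
  have h4 := congrArg m hc
  rw [map_mul, Algebra.TensorProduct.productMap_apply_tmul,
    Algebra.TensorProduct.productMap_apply_tmul] at h4
  simp only [map_one, mul_one, one_mul] at h4
  exact h4

/-- bounded denominators -/
theorem spread {B : Scheme.{u}} [IsIntegral B] {U : Scheme.{u}} (π : U ⟶ B) [QuasiCompact π]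
    (V : B.Opens) [Nonempty V] (hV : IsAffineOpen V) (φ : Γ(genFib π, ⊤)) :
    ∃ s : Γ(B, V), B.germToFunctionField V s ≠ 0 ∧ ∀ (σ : B ⟶ U) (hσ : σ ≫ π = 𝟙 B),
      ∃ b : Γ(B, V), B.germToFunctionField V s * genVal π σ hσ φ =
        B.germToFunctionField V b := by
  classical
  obtain ⟨Us, hUs, hfin, hsup⟩ := U.isBasis_affineOpens.exists_finite_of_isCompact
    (U := π ⁻¹ᵁ V) (QuasiCompact.isCompact_preimage V.1 V.2 hV.isCompact)
  have hloc : ∀ W : U.Opens, ∃ s : Γ(B, V), B.germToFunctionField V s ≠ 0 ∧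
      (W ∈ Us → ∃ c : Γ(U, W),
        ∀ (σ : B ⟶ U) (hσ : σ ≫ π = 𝟙 B) (hη : genericPoint B ∈ σ ⁻¹ᵁ W),
          B.germToFunctionField V s * genVal π σ hσ φ =
            B.presheaf.germ (σ ⁻¹ᵁ W) (genericPoint B) hη (σ.app W c)) := by
    intro W
    by_cases hW : W ∈ Us
    · have hle : W ≤ π ⁻¹ᵁ V := by
        rw [hsup]
        exact le_sSup hW
      obtain ⟨s, hs, c, hc⟩ := SPR_local π V hV W (hUs hW) hle φ
      exact ⟨s, hs, fun _ => ⟨c, hc⟩⟩
    · exact ⟨1, by rw [map_one]; exact one_ne_zero, fun h => absurd h hW⟩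
  choose s hs hc using hloc
  refine ⟨∏ W ∈ hfin.toFinset, s W, ?_, ?_⟩
  · rw [map_prod]
    exact Finset.prod_ne_zero_iff.mpr fun W _ => hs W
  · intro σ hσ
    obtain ⟨b, hb⟩ := SPR_glue V
      (B.germToFunctionField V (∏ W ∈ hfin.toFinset, s W) * genVal π σ hσ φ) (by
        intro b
        have hπσ : π (σ b.1) = b.1 := by
          rw [← Scheme.Hom.comp_apply, hσ]
          rfl
        have hmem : σ b.1 ∈ π ⁻¹ᵁ V := by
          change π (σ b.1) ∈ V
          rw [hπσ]
          exact b.2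
        rw [hsup] at hmem
        obtain ⟨W, hW, hbW⟩ := TopologicalSpace.Opens.mem_sSup.mp hmem
        obtain ⟨c, hc'⟩ := hc W hW
        have hbW' : b.1 ∈ V ⊓ σ ⁻¹ᵁ W := ⟨b.2, hbW⟩
        have hη : genericPoint B ∈ V ⊓ σ ⁻¹ᵁ W := SPR_mem _ b.1 hbW'
        refine ⟨V ⊓ σ ⁻¹ᵁ W, hbW', hη,
          B.presheaf.map (homOfLE inf_le_left).op (∏ W' ∈ hfin.toFinset.erase W, s W') *
            B.presheaf.map (homOfLE inf_le_right).op (σ.app W c), inf_le_left, ?_⟩
        rw [map_mul, TopCat.Presheaf.germ_res_apply, TopCat.Presheaf.germ_res_apply,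
          ← hc' σ hσ hη.2, ← mul_assoc]
        congr 1
        rw [← Finset.prod_erase_mul hfin.toFinset s (hfin.mem_toFinset.mpr hW), map_mul])
    exact ⟨b, hb.symm⟩

end Pool.Agent.Helper8.LG

end
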