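import Pool.Agent.Helper74.MG.T01
import Pool.Agent.Helper74.MG.T03

section

/-! # LV-PTS: from normalised points over `M` to projective points over `L` -/

set_option autoImplicit false

open MvPolynomial

namespace Pool.Agent.Helper8.LV

open scoped BigOperators LinearAlgebra.Projectivization
open Pool.Agent.Helper8.LG

private theorem pts_mon_smul {M : Type*} [Field M] {N n : ℕ} (c : M) (x : Fin (N + 1) → M)
    (J : Sym (Fin (N + 1)) n) : mon (fun i => c * x i) J = c ^ n * mon x J := by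
  rw [mon, mon, Multiset.prod_map_mul, Multiset.map_const', Multiset.prod_replicate, Sym.card_coe]

private theorem pts_mon_map {L M : Type*} [Field L] [Field M] [Algebra L M] {N n : ℕ}
    (x : Fin (N + 1) → L) (J : Sym (Fin (N + 1)) n) :
    mon (fun i => algebraMap L M (x i)) J = algebraMap L M (mon x J) := by
  rw [mon, mon, map_multiset_prod, Multiset.map_map]
  rfl

private theorem pts_eval_smul {M : Type*} [Field M] {N n : ℕ}
    (F : MvPolynomial (Fin (N + 1)) M) (hF : F.IsHomogeneous n) (c : M)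
    (x : Fin (N + 1) → M) : eval (fun i => c * x i) F = c ^ n * eval x F := by
  rw [← form_cf F hF, ← form_cf F hF, form, form, Finset.mul_sum]
  refine Finset.sum_congr rfl (fun J _ => ?_)
  rw [pts_mon_smul]
  ring

theorem points {κ L M : Type*} [CommRing κ] [Field L] [Field M] [Algebra κ M] [Algebra L M]
    {N r : ℕ} (d : Fin r → ℕ) (F : Fin r → MvPolynomial (Fin (N + 1)) L)
    (hF : ∀ i, (F i).IsHomogeneous (d i)) (g : GL (Fin (N + 1)) M) (W : Finset (Fin r))
    (Q : (Fin (N + 1) → M) → Prop)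
    (hfin : ∀ (i₀ : Fin (N + 1)) (A : Subalgebra κ M), A.FG →
      {y : Fin (N + 1) → M | y i₀ = 1 ∧ Q y ∧
        ∀ i ∈ W, eval y (subst (g : Matrix _ _ M) (F i)) ≠ 0 ∧ ∀ J : Sym (Fin (N + 1)) (d i),
          mon y J / eval y (subst (g : Matrix _ _ M) (F i)) ∈ A}.Finite)
    (A : Subalgebra κ M) (hA : A.FG) :
    {x : ℙ L (Fin (N + 1) → L) |
      (∀ i₀, (g⁻¹ : GL (Fin (N + 1)) M).1.mulVec (fun l => algebraMap L M (x.rep l)) i₀ ≠ 0 →
        Q fun i => (g⁻¹ : GL (Fin (N + 1)) M).1.mulVec (fun l => algebraMap L M (x.rep l)) i /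
          (g⁻¹ : GL (Fin (N + 1)) M).1.mulVec (fun l => algebraMap L M (x.rep l)) i₀) ∧
      ∀ i ∈ W, eval x.rep (F i) ≠ 0 ∧ ∀ J : Sym (Fin (N + 1)) (d i),
        algebraMap L M (mon x.rep J / eval x.rep (F i)) ∈ A}.Finite := by
  classical
  obtain ⟨h, hh⟩ : ∃ h : Matrix (Fin (N + 1)) (Fin (N + 1)) M,
      h = (g⁻¹ : GL (Fin (N + 1)) M).1 := ⟨_, rfl⟩
  have hgh : (g : Matrix (Fin (N + 1)) (Fin (N + 1)) M) * h = 1 := by
    rw [hh]; exact Units.mul_inv g
  rw [← hh]
  -- the coordinates over `M`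
  obtain ⟨ξ, hξ⟩ : ∃ ξ : ℙ L (Fin (N + 1) → L) → Fin (N + 1) → M,
      ξ = fun x l => algebraMap L M (x.rep l) := ⟨_, rfl⟩
  have hξ' : ∀ x : ℙ L (Fin (N + 1) → L), (fun l => algebraMap L M (x.rep l)) = ξ x := by
    intro x; rw [hξ]
  have hgy : ∀ x, (g : Matrix (Fin (N + 1)) (Fin (N + 1)) M).mulVec (h.mulVec (ξ x)) = ξ x := by
    intro x
    rw [Matrix.mulVec_mulVec, hgh, Matrix.one_mulVec]
  have hy0 : ∀ x, ∃ i₀, h.mulVec (ξ x) i₀ ≠ 0 := by
    intro x
    by_contra hne
    push Not at hne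
    have h1 := hgy x
    rw [show h.mulVec (ξ x) = 0 from funext hne, Matrix.mulVec_zero, hξ] at h1
    refine x.rep_nonzero (funext fun i => ?_)
    have h2 := congrFun h1 i
    simp only [Pi.zero_apply] at h2 ⊢
    exact (map_eq_zero_iff _ (algebraMap L M).injective).1 h2.symm
  -- the new polynomials
  have hF'h : ∀ i, (subst (g : Matrix _ _ M) (F i)).IsHomogeneous (d i) :=
    fun i => subst_hom _ _ (hF i)
  have hev : ∀ x i, eval (h.mulVec (ξ x)) (subst (g : Matrix _ _ M) (F i))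
      = algebraMap L M (eval x.rep (F i)) := by
    intro x i
    rw [eval_subst, hgy, hξ]
    simp only
    rw [aeval_def]
    exact (eval₂_comp_left (algebraMap L M) (RingHom.id L) x.rep (F i)).symm
  -- the new algebra
  obtain ⟨A', hA'⟩ : ∃ A' : Subalgebra κ M,
      A' = A ⊔ Algebra.adjoin κ (Set.range fun p : Fin (N + 1) × Fin (N + 1) => h p.1 p.2) :=
    ⟨_, rfl⟩
  have hAA' : A ≤ A' := by rw [hA']; exact le_sup_left
  have hhA' : ∀ i j, h i j ∈ A' := by
    intro i j
    rw [hA']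
    exact (le_sup_right : _ ≤ A ⊔ Algebra.adjoin κ (Set.range fun p : Fin (N + 1) ×
      Fin (N + 1) => h p.1 p.2)) (Algebra.subset_adjoin ⟨(i, j), rfl⟩)
  have hA'fg : A'.FG := by
    rw [hA']
    refine hA.sup ?_
    have h1 := Subalgebra.fg_adjoin_finset (R := κ) (A := M)
      (Finset.univ.image fun p : Fin (N + 1) × Fin (N + 1) => h p.1 p.2)
    rwa [Finset.coe_image, Finset.coe_univ, Set.image_univ] at h1
  simp only [hξ']
  -- the normalised points
  obtain ⟨S, hS⟩ : ∃ S : Fin (N + 1) → Set (Fin (N + 1) → M),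
      S = fun i₀ => {y : Fin (N + 1) → M | y i₀ = 1 ∧ Q y ∧
        ∀ i ∈ W, eval y (subst (g : Matrix _ _ M) (F i)) ≠ 0 ∧ ∀ J : Sym (Fin (N + 1)) (d i),
          mon y J / eval y (subst (g : Matrix _ _ M) (F i)) ∈ A'} := ⟨_, rfl⟩
  have hSf : ∀ i₀, (S i₀).Finite := by
    intro i₀; rw [hS]; exact hfin i₀ A' hA'fg
  refine Set.Finite.subset (s := ⋃ i₀ : Fin (N + 1), {x : ℙ L (Fin (N + 1) → L) |
    h.mulVec (ξ x) i₀ ≠ 0 ∧ (fun i => h.mulVec (ξ x) i / h.mulVec (ξ x) i₀) ∈ S i₀}) ?_ ?_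
  · refine Set.finite_iUnion (fun i₀ => ?_)
    refine Set.Finite.of_injOn (f := fun x : ℙ L (Fin (N + 1) → L) =>
      fun i => h.mulVec (ξ x) i / h.mulVec (ξ x) i₀) (fun x hx => hx.2) ?_ (hSf i₀)
    rintro x ⟨hx, -⟩ x' ⟨hx', -⟩ hxx
    simp only at hxx
    -- `c' • h ξ' = h ξ`
    obtain ⟨c', hc'⟩ : ∃ c' : M, c' • h.mulVec (ξ x') = h.mulVec (ξ x) := by
      refine ⟨h.mulVec (ξ x) i₀ / h.mulVec (ξ x') i₀, funext fun i => ?_⟩
      have h1 : h.mulVec (ξ x) i / h.mulVec (ξ x) i₀
        = h.mulVec (ξ x') i / h.mulVec (ξ x') i₀ := congrFun hxx i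
      rw [Pi.smul_apply, smul_eq_mul, div_mul_eq_mul_div, mul_div_assoc, ← h1,
        mul_div_cancel₀ _ hx]
    have hc1 : ∀ i, c' * algebraMap L M (x'.rep i) = algebraMap L M (x.rep i) := by
      have h1 := congrArg ((g : Matrix (Fin (N + 1)) (Fin (N + 1)) M).mulVec) hc'
      rw [Matrix.mulVec_smul, hgy, hgy, hξ] at h1
      intro i
      exact congrFun h1 i
    obtain ⟨i₁, hi₁⟩ : ∃ i₁, x'.rep i₁ ≠ 0 := by
      by_contra hne
      push Not at hne
      exact x'.rep_nonzero (funext hne)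
    have hi₁' : algebraMap L M (x'.rep i₁) ≠ 0 :=
      (map_ne_zero_iff _ (algebraMap L M).injective).2 hi₁
    rw [← x.mk_rep, ← x'.mk_rep, Projectivization.mk_eq_mk_iff']
    refine ⟨x.rep i₁ / x'.rep i₁, ?_⟩
    funext i
    apply (algebraMap L M).injective
    rw [Pi.smul_apply, smul_eq_mul, map_mul, map_div₀, ← hc1 i₁, ← hc1 i,
      mul_div_assoc, div_self hi₁', mul_one]
  · rintro x ⟨h1, h2⟩
    obtain ⟨i₀, hi₀⟩ := hy0 x
    rw [Set.mem_iUnion]
    refine ⟨i₀, hi₀, ?_⟩
    have hu0 : (h.mulVec (ξ x) i₀)⁻¹ ≠ 0 := inv_ne_zero hi₀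
    have hrep : (fun i => h.mulVec (ξ x) i / h.mulVec (ξ x) i₀)
        = fun i => (h.mulVec (ξ x) i₀)⁻¹ * h.mulVec (ξ x) i := by
      funext i
      rw [div_eq_mul_inv, mul_comm]
    have hevφ : ∀ i, eval (fun i => h.mulVec (ξ x) i / h.mulVec (ξ x) i₀)
        (subst (g : Matrix _ _ M) (F i))
        = (h.mulVec (ξ x) i₀)⁻¹ ^ d i * algebraMap L M (eval x.rep (F i)) := by
      intro i
      rw [hrep, pts_eval_smul _ (hF'h i), hev]
    rw [hS]
    refine ⟨div_self hi₀, h1 i₀ hi₀, fun i hi => ?_⟩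
    obtain ⟨h5, h6⟩ := h2 i hi
    have hud : (h.mulVec (ξ x) i₀)⁻¹ ^ d i ≠ 0 := pow_ne_zero _ hu0
    refine ⟨?_, fun J => ?_⟩
    · rw [hevφ]
      exact mul_ne_zero hud ((map_ne_zero_iff _ (algebraMap L M).injective).2 h5)
    · obtain ⟨b, hb, hb'⟩ := mon_mulVec h A'.toSubring hhA' J
      have h7 : mon (fun i => h.mulVec (ξ x) i / h.mulVec (ξ x) i₀) J
          / eval (fun i => h.mulVec (ξ x) i / h.mulVec (ξ x) i₀) (subst (g : Matrix _ _ M) (F i))
          = ∑ J', b J' * algebraMap L M (mon x.rep J' / eval x.rep (F i)) := by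
        rw [hevφ, hrep, pts_mon_smul, mul_div_mul_left _ _ hud, hb' (ξ x), Finset.sum_div]
        refine Finset.sum_congr rfl (fun J' _ => ?_)
        rw [map_div₀, hξ]
        simp only
        rw [pts_mon_map, mul_div_assoc]
      rw [h7]
      exact A'.sum_mem fun J' _ => A'.mul_mem (hb J') (hAA' (h6 J'))

end Pool.Agent.Helper8.LV

end

section

/-! # LN-PTS: from normalised points over `M` to projective points over `L` -/

set_option autoImplicit false

open MvPolynomial

namespace Pool.Agent.Helper10.LN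

open scoped BigOperators LinearAlgebra.Projectivization
open Pool.Agent.Helper8.LG

private theorem pts2_mon_smul {M : Type*} [Field M] {N n : ℕ} (c : M) (x : Fin (N + 1) → M)
    (J : Sym (Fin (N + 1)) n) : mon (fun i => c * x i) J = c ^ n * mon x J := by
  rw [mon, mon, Multiset.prod_map_mul, Multiset.map_const', Multiset.prod_replicate, Sym.card_coe]

private theorem pts2_mon_map {L M : Type*} [Field L] [Field M] [Algebra L M] {N n : ℕ}
    (x : Fin (N + 1) → L) (J : Sym (Fin (N + 1)) n) :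
    mon (fun i => algebraMap L M (x i)) J = algebraMap L M (mon x J) := by
  rw [mon, mon, map_multiset_prod, Multiset.map_map]
  rfl

private theorem pts2_eval_smul {M : Type*} [Field M] {N n : ℕ}
    (F : MvPolynomial (Fin (N + 1)) M) (hF : F.IsHomogeneous n) (c : M)
    (x : Fin (N + 1) → M) : eval (fun i => c * x i) F = c ^ n * eval x F := by
  rw [← form_cf F hF, ← form_cf F hF, form, form, Finset.mul_sum]
  refine Finset.sum_congr rfl (fun J _ => ?_)
  rw [pts2_mon_smul]
  ring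

/-- from normalised points over `M` to projective points over `L`, one ring for all conditions -/
theorem points2 {κ L M : Type*} [CommRing κ] [Field L] [Field M] [Algebra κ M] [Algebra L M]
    {N r : ℕ} (d : Fin r → ℕ) (F : Fin r → MvPolynomial (Fin (N + 1)) L)
    (hF : ∀ i, (F i).IsHomogeneous (d i)) (g : GL (Fin (N + 1)) M) (W : Finset (Fin r))
    (A : Subalgebra κ M) (hA : A.FG) : ∃ A' : Subalgebra κ M, A'.FG ∧
    ∀ Q : (Fin (N + 1) → M) → Prop,
    (∀ (i₀ : Fin (N + 1)),
      {y : Fin (N + 1) → M | y i₀ = 1 ∧ Q y ∧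
        ∀ i ∈ W, eval y (subst (g : Matrix _ _ M) (F i)) ≠ 0 ∧ ∀ J : Sym (Fin (N + 1)) (d i),
          mon y J / eval y (subst (g : Matrix _ _ M) (F i)) ∈ A'}.Finite) →
    {x : ℙ L (Fin (N + 1) → L) |
      (∀ i₀, (g⁻¹ : GL (Fin (N + 1)) M).1.mulVec (fun l => algebraMap L M (x.rep l)) i₀ ≠ 0 →
        Q fun i => (g⁻¹ : GL (Fin (N + 1)) M).1.mulVec (fun l => algebraMap L M (x.rep l)) i /
          (g⁻¹ : GL (Fin (N + 1)) M).1.mulVec (fun l => algebraMap L M (x.rep l)) i₀) ∧
      ∀ i ∈ W, eval x.rep (F i) ≠ 0 ∧ ∀ J : Sym (Fin (N + 1)) (d i),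
        algebraMap L M (mon x.rep J / eval x.rep (F i)) ∈ A}.Finite := by
  classical
  obtain ⟨h, hh⟩ : ∃ h : Matrix (Fin (N + 1)) (Fin (N + 1)) M,
      h = (g⁻¹ : GL (Fin (N + 1)) M).1 := ⟨_, rfl⟩
  have hgh : (g : Matrix (Fin (N + 1)) (Fin (N + 1)) M) * h = 1 := by
    rw [hh]; exact Units.mul_inv g
  rw [← hh]
  -- the coordinates over `M`
  obtain ⟨ξ, hξ⟩ : ∃ ξ : ℙ L (Fin (N + 1) → L) → Fin (N + 1) → M,
      ξ = fun x l => algebraMap L M (x.rep l) := ⟨_, rfl⟩
  have hξ' : ∀ x : ℙ L (Fin (N + 1) → L), (fun l => algebraMap L M (x.rep l)) = ξ x := by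
    intro x; rw [hξ]
  have hgy : ∀ x, (g : Matrix (Fin (N + 1)) (Fin (N + 1)) M).mulVec (h.mulVec (ξ x)) = ξ x := by
    intro x
    rw [Matrix.mulVec_mulVec, hgh, Matrix.one_mulVec]
  have hy0 : ∀ x, ∃ i₀, h.mulVec (ξ x) i₀ ≠ 0 := by
    intro x
    by_contra hne
    push Not at hne
    have h1 := hgy x
    rw [show h.mulVec (ξ x) = 0 from funext hne, Matrix.mulVec_zero, hξ] at h1
    refine x.rep_nonzero (funext fun i => ?_)
    have h2 := congrFun h1 i
    simp only [Pi.zero_apply] at h2 ⊢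
    exact (map_eq_zero_iff _ (algebraMap L M).injective).1 h2.symm
  -- the new polynomials
  have hF'h : ∀ i, (subst (g : Matrix _ _ M) (F i)).IsHomogeneous (d i) :=
    fun i => subst_hom _ _ (hF i)
  have hev : ∀ x i, eval (h.mulVec (ξ x)) (subst (g : Matrix _ _ M) (F i))
      = algebraMap L M (eval x.rep (F i)) := by
    intro x i
    rw [eval_subst, hgy, hξ]
    simp only
    rw [aeval_def]
    exact (eval₂_comp_left (algebraMap L M) (RingHom.id L) x.rep (F i)).symm
  -- the new algebra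
  obtain ⟨A', hA'⟩ : ∃ A' : Subalgebra κ M,
      A' = A ⊔ Algebra.adjoin κ (Set.range fun p : Fin (N + 1) × Fin (N + 1) => h p.1 p.2) :=
    ⟨_, rfl⟩
  have hAA' : A ≤ A' := by rw [hA']; exact le_sup_left
  have hhA' : ∀ i j, h i j ∈ A' := by
    intro i j
    rw [hA']
    exact (le_sup_right : _ ≤ A ⊔ Algebra.adjoin κ (Set.range fun p : Fin (N + 1) ×
      Fin (N + 1) => h p.1 p.2)) (Algebra.subset_adjoin ⟨(i, j), rfl⟩)
  have hA'fg : A'.FG := by
    rw [hA']
    refine hA.sup ?_
    have h1 := Subalgebra.fg_adjoin_finset (R := κ) (A := M)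
      (Finset.univ.image fun p : Fin (N + 1) × Fin (N + 1) => h p.1 p.2)
    rwa [Finset.coe_image, Finset.coe_univ, Set.image_univ] at h1
  simp only [hξ']
  refine ⟨A', hA'fg, fun Q hfin => ?_⟩
  -- the normalised points
  obtain ⟨S, hS⟩ : ∃ S : Fin (N + 1) → Set (Fin (N + 1) → M),
      S = fun i₀ => {y : Fin (N + 1) → M | y i₀ = 1 ∧ Q y ∧
        ∀ i ∈ W, eval y (subst (g : Matrix _ _ M) (F i)) ≠ 0 ∧ ∀ J : Sym (Fin (N + 1)) (d i),
          mon y J / eval y (subst (g : Matrix _ _ M) (F i)) ∈ A'} := ⟨_, rfl⟩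
  have hSf : ∀ i₀, (S i₀).Finite := by
    intro i₀; rw [hS]; exact hfin i₀
  refine Set.Finite.subset (s := ⋃ i₀ : Fin (N + 1), {x : ℙ L (Fin (N + 1) → L) |
    h.mulVec (ξ x) i₀ ≠ 0 ∧ (fun i => h.mulVec (ξ x) i / h.mulVec (ξ x) i₀) ∈ S i₀}) ?_ ?_
  · refine Set.finite_iUnion (fun i₀ => ?_)
    refine Set.Finite.of_injOn (f := fun x : ℙ L (Fin (N + 1) → L) =>
      fun i => h.mulVec (ξ x) i / h.mulVec (ξ x) i₀) (fun x hx => hx.2) ?_ (hSf i₀)
    rintro x ⟨hx, -⟩ x' ⟨hx', -⟩ hxx
    simp only at hxx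
    -- `c' • h ξ' = h ξ`
    obtain ⟨c', hc'⟩ : ∃ c' : M, c' • h.mulVec (ξ x') = h.mulVec (ξ x) := by
      refine ⟨h.mulVec (ξ x) i₀ / h.mulVec (ξ x') i₀, funext fun i => ?_⟩
      have h1 : h.mulVec (ξ x) i / h.mulVec (ξ x) i₀
        = h.mulVec (ξ x') i / h.mulVec (ξ x') i₀ := congrFun hxx i
      rw [Pi.smul_apply, smul_eq_mul, div_mul_eq_mul_div, mul_div_assoc, ← h1,
        mul_div_cancel₀ _ hx]
    have hc1 : ∀ i, c' * algebraMap L M (x'.rep i) = algebraMap L M (x.rep i) := by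
      have h1 := congrArg ((g : Matrix (Fin (N + 1)) (Fin (N + 1)) M).mulVec) hc'
      rw [Matrix.mulVec_smul, hgy, hgy, hξ] at h1
      intro i
      exact congrFun h1 i
    obtain ⟨i₁, hi₁⟩ : ∃ i₁, x'.rep i₁ ≠ 0 := by
      by_contra hne
      push Not at hne
      exact x'.rep_nonzero (funext hne)
    have hi₁' : algebraMap L M (x'.rep i₁) ≠ 0 :=
      (map_ne_zero_iff _ (algebraMap L M).injective).2 hi₁
    rw [← x.mk_rep, ← x'.mk_rep, Projectivization.mk_eq_mk_iff']
    refine ⟨x.rep i₁ / x'.rep i₁, ?_⟩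
    funext i
    apply (algebraMap L M).injective
    rw [Pi.smul_apply, smul_eq_mul, map_mul, map_div₀, ← hc1 i₁, ← hc1 i,
      mul_div_assoc, div_self hi₁', mul_one]
  · rintro x ⟨h1, h2⟩
    obtain ⟨i₀, hi₀⟩ := hy0 x
    rw [Set.mem_iUnion]
    refine ⟨i₀, hi₀, ?_⟩
    have hu0 : (h.mulVec (ξ x) i₀)⁻¹ ≠ 0 := inv_ne_zero hi₀
    have hrep : (fun i => h.mulVec (ξ x) i / h.mulVec (ξ x) i₀)
        = fun i => (h.mulVec (ξ x) i₀)⁻¹ * h.mulVec (ξ x) i := by
      funext i
      rw [div_eq_mul_inv, mul_comm]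
    have hevφ : ∀ i, eval (fun i => h.mulVec (ξ x) i / h.mulVec (ξ x) i₀)
        (subst (g : Matrix _ _ M) (F i))
        = (h.mulVec (ξ x) i₀)⁻¹ ^ d i * algebraMap L M (eval x.rep (F i)) := by
      intro i
      rw [hrep, pts2_eval_smul _ (hF'h i), hev]
    rw [hS]
    refine ⟨div_self hi₀, h1 i₀ hi₀, fun i hi => ?_⟩
    obtain ⟨h5, h6⟩ := h2 i hi
    have hud : (h.mulVec (ξ x) i₀)⁻¹ ^ d i ≠ 0 := pow_ne_zero _ hu0
    refine ⟨?_, fun J => ?_⟩
    · rw [hevφ]
      exact mul_ne_zero hud ((map_ne_zero_iff _ (algebraMap L M).injective).2 h5)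
    · obtain ⟨b, hb, hb'⟩ := mon_mulVec h A'.toSubring hhA' J
      have h7 : mon (fun i => h.mulVec (ξ x) i / h.mulVec (ξ x) i₀) J
          / eval (fun i => h.mulVec (ξ x) i / h.mulVec (ξ x) i₀) (subst (g : Matrix _ _ M) (F i))
          = ∑ J', b J' * algebraMap L M (mon x.rep J' / eval x.rep (F i)) := by
        rw [hevφ, hrep, pts2_mon_smul, mul_div_mul_left _ _ hud, hb' (ξ x), Finset.sum_div]
        refine Finset.sum_congr rfl (fun J' _ => ?_)
        rw [map_div₀, hξ]
        simp only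
        rw [pts2_mon_map, mul_div_assoc]
      rw [h7]
      exact A'.sum_mem fun J' _ => A'.mul_mem (hb J') (hAA' (h6 J'))

end Pool.Agent.Helper10.LN

end

section

/-! # LV-MULTI: from one moving multiplier to several -/

set_option autoImplicit false

open MvPolynomial

namespace Pool.Agent.Helper8.LV

open scoped BigOperators

theorem multi_trdeg_le {F E : Type*} [Field F] [Field E] [Algebra F E] {ι : Type} [Fintype ι]
    (x : ι → E) :
    Algebra.trdeg F (IntermediateField.adjoin F (Set.range x)) ≤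
      (Fintype.card ι : Cardinal) := by
  set K := IntermediateField.adjoin F (Set.range x) with hK
  have hxK : ∀ j, x j ∈ K := fun j => IntermediateField.subset_adjoin _ _ ⟨j, rfl⟩
  set S : Set K := Set.range (fun j => (⟨x j, hxK j⟩ : K)) with hS
  have hSimg : ((↑) : K → E) '' S = Set.range x := by
    rw [hS, ← Set.range_comp]
    rfl
  have htop : IntermediateField.adjoin F S = ⊤ := by
    apply IntermediateField.map_injective K.val
    rw [IntermediateField.adjoin_map, ← AlgHom.fieldRange_eq_map,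
      IntermediateField.fieldRange_val]
    have e : (K.val : K → E) '' S = Set.range x := hSimg
    rw [e]
  have halg : Algebra.IsAlgebraic (Algebra.adjoin F S) K := by
    rw [← IntermediateField.isAlgebraic_adjoin_iff_top, htop,
      Algebra.isAlgebraic_iff_isIntegral]
    exact Algebra.isIntegral_of_surjective IntermediateField.topEquiv.surjective
  refine (Algebra.IsAlgebraic.trdeg_le_cardinalMk F S).trans ?_
  have h1 := Cardinal.mk_range_le_lift (f := fun j => (⟨x j, hxK j⟩ : K))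
  rw [Cardinal.mk_fintype ι, Cardinal.lift_natCast] at h1
  have h2 : Cardinal.lift.{0} (Cardinal.mk S) = Cardinal.mk S := Cardinal.lift_uzero _
  rw [← h2]
  exact h1

theorem multi_exists_sym {N n : ℕ} (m : Fin (N + 1) →₀ ℕ) (hm : m.degree = n) :
    ∃ J : Sym (Fin (N + 1)) n, Multiset.toFinsupp (J : Multiset (Fin (N + 1))) = m := by
  refine ⟨⟨Finsupp.toMultiset m, ?_⟩, ?_⟩
  · rw [Finsupp.card_toMultiset, ← hm, Finsupp.degree_eq_sum]
    exact Finsupp.sum_fintype _ _ fun _ => rfl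
  · exact Finsupp.toMultiset_toFinsupp m

theorem multi_tower {k₀ L : Type*} [Field k₀] [Field L] [Algebra k₀ L]
    (K : IntermediateField k₀ L) (M : IntermediateField K L) :
    Algebra.trdeg k₀ K + Algebra.trdeg K M = Algebra.trdeg k₀ (M.restrictScalars k₀) := by
  have i1 : FaithfulSMul k₀ K := (faithfulSMul_iff_algebraMap_injective k₀ K).2
    (algebraMap k₀ K).injective
  have i2 : FaithfulSMul K M := (faithfulSMul_iff_algebraMap_injective K M).2
    (algebraMap K M).injective
  have i3 : IsScalarTower k₀ K M := IsScalarTower.of_algebraMap_eq fun x => rfl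
  have h : Algebra.trdeg k₀ K + Algebra.trdeg K M = Algebra.trdeg k₀ M := trdeg_add_eq k₀ K
  exact h

/-- `A i + ∑ j, P i j * H i j` with all coefficients of the `H i j` moving: fix `j i` for all `i`
and put the other coefficients into the constant field. -/
theorem multi {k₀ L : Type*} [Field k₀] [Field L] [Algebra k₀ L] {N r s : ℕ}
    (d : Fin r → ℕ) (b : Fin r → Fin s → ℕ) (hb : ∀ i j, b i j ≤ d i)
    (A : Fin r → MvPolynomial (Fin (N + 1)) k₀) (hA : ∀ i, (A i).IsHomogeneous (d i))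
    (P : Fin r → Fin s → MvPolynomial (Fin (N + 1)) k₀)
    (hP : ∀ i j, (P i j).IsHomogeneous (b i j))
    (H : Fin r → Fin s → MvPolynomial (Fin (N + 1)) L)
    (hH : ∀ i j, (H i j).IsHomogeneous (d i - b i j)) (c : ℕ)
    (hcoef : ((∑ i, ∑ j, (N + (d i - b i j)).choose N : ℕ) : Cardinal) ≤
      Algebra.trdeg k₀ (IntermediateField.adjoin k₀ {z | ∃ i j J, z = coeff J (H i j)}) + c)
    (S : Set (Fin (N + 1) → L))
    (E : ∀ (k : IntermediateField k₀ L) (j : Fin r → Fin s)
      (A' : Fin r → MvPolynomial (Fin (N + 1)) k), (∀ i, (A' i).IsHomogeneous (d i)) →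
      (∀ i, map (algebraMap k₀ L) (A i) + ∑ l, map (algebraMap k₀ L) (P i l) * H i l =
        map (algebraMap k L) (A' i) + map (algebraMap k₀ L) (P i (j i)) * H i (j i)) →
      ((∑ i, (N + (d i - b i (j i))).choose N : ℕ) : Cardinal) ≤ Algebra.trdeg k
        (IntermediateField.adjoin k {z | ∃ i J, z = coeff J (H i (j i))}) + c →
      {x ∈ S | ∀ i, aeval x (P i (j i)) ≠ 0}.Finite) :
    {x ∈ S | ∀ i, ∃ j, aeval x (P i j) ≠ 0}.Finite := by
  classical
  suffices h : ∀ j : Fin r → Fin s, {x ∈ S | ∀ i, aeval x (P i (j i)) ≠ 0}.Finite by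
    refine (Set.finite_iUnion h).subset ?_
    rintro x ⟨hx, hx2⟩
    choose j hj using hx2
    exact Set.mem_iUnion.2 ⟨j, hx, hj⟩
  intro j
  -- the constant field
  set T : Set L := {z | ∃ i l, l ≠ j i ∧ ∃ J, z = coeff J (H i l)} with hT
  set k : IntermediateField k₀ L := IntermediateField.adjoin k₀ T with hk
  set T' : Set L := {z | ∃ i J, z = coeff J (H i (j i))} with hT'
  -- descent of the other forms
  have hdesc : ∀ i l, l ≠ j i → ∃ Q : MvPolynomial (Fin (N + 1)) k,
      map (algebraMap k L) Q = H i l := by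
    intro i l hl
    have h1 : H i l ∈ Set.range (MvPolynomial.map (σ := Fin (N + 1)) (algebraMap k L)) := by
      rw [mem_range_map_iff_coeffs_subset]
      intro z hz
      obtain ⟨J, -, hJ⟩ := mem_coeffs_iff.1 (Finset.mem_coe.1 hz)
      exact ⟨⟨z, IntermediateField.subset_adjoin _ _ ⟨i, l, hl, J, hJ⟩⟩, rfl⟩
    exact h1
  choose! Q hQ using hdesc
  set A' : Fin r → MvPolynomial (Fin (N + 1)) k := fun i =>
    map (algebraMap k₀ k) (A i) +
      ∑ l ∈ Finset.univ.erase (j i), map (algebraMap k₀ k) (P i l) * Q i l with hA'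
  have hmap : ∀ B : MvPolynomial (Fin (N + 1)) k₀,
      map (algebraMap k L) (map (algebraMap k₀ k) B) = map (algebraMap k₀ L) B := by
    intro B
    rw [map_map, ← IsScalarTower.algebraMap_eq]
  have hA'1 : ∀ i, map (algebraMap k L) (A' i) = map (algebraMap k₀ L) (A i) +
      ∑ l ∈ Finset.univ.erase (j i), map (algebraMap k₀ L) (P i l) * H i l := by
    intro i
    rw [hA']
    simp only [map_add, map_sum, map_mul, hmap]
    congr 1
    refine Finset.sum_congr rfl fun l hl => ?_
    rw [hQ i l (Finset.ne_of_mem_erase hl)]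
  have hinj : Function.Injective (algebraMap k L) := (algebraMap k L).injective
  refine E k j A' (fun i => ?_) (fun i => ?_) ?_
  · refine IsHomogeneous.of_map hinj ?_
    rw [hA'1]
    refine ((hA i).map _).add (IsHomogeneous.sum _ _ _ fun l _ => ?_)
    have h1 := ((hP i l).map (algebraMap k₀ L)).mul (hH i l)
    rw [Nat.add_sub_cancel' (hb i l)] at h1
    exact h1
  · rw [hA'1, ← Finset.sum_erase_add _ _ (Finset.mem_univ (j i)), add_assoc]
  · -- the transcendence degree
    set ι : Type := Σ p : {p : Fin r × Fin s // p.2 ≠ j p.1},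
      Sym (Fin (N + 1)) (d p.1.1 - b p.1.1 p.1.2) with hι
    set y : ι → L := fun q => coeff (Multiset.toFinsupp (q.2 : Multiset (Fin (N + 1))))
      (H q.1.1.1 q.1.1.2) with hy
    have hk' : k = IntermediateField.adjoin k₀ (Set.range y) := by
      refine le_antisymm (IntermediateField.adjoin_le_iff.2 ?_)
        (IntermediateField.adjoin_le_iff.2 ?_)
      · rintro z ⟨i, l, hl, m, rfl⟩
        by_cases h : m.degree = d i - b i l
        · obtain ⟨J, hJ⟩ := multi_exists_sym m h
          refine IntermediateField.subset_adjoin _ _ ⟨⟨⟨(i, l), hl⟩, J⟩, ?_⟩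
          change coeff (Multiset.toFinsupp (J : Multiset (Fin (N + 1)))) (H i l) = _
          rw [hJ]
        · rw [(hH i l).coeff_eq_zero h]
          exact zero_mem _
      · rintro z ⟨q, rfl⟩
        exact IntermediateField.subset_adjoin _ _ ⟨q.1.1.1, q.1.1.2, q.1.2, _, rfl⟩
    have hcard : Fintype.card ι =
        ∑ i, ∑ l ∈ Finset.univ.erase (j i), (N + (d i - b i l)).choose N := by
      change Fintype.card (Σ p : {p : Fin r × Fin s // p.2 ≠ j p.1},
        Sym (Fin (N + 1)) (d p.1.1 - b p.1.1 p.1.2)) = _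
      rw [Fintype.card_sigma]
      have h1 : ∀ p : {p : Fin r × Fin s // p.2 ≠ j p.1},
          Fintype.card (Sym (Fin (N + 1)) (d p.1.1 - b p.1.1 p.1.2)) =
            (fun p : Fin r × Fin s => (N + (d p.1 - b p.1 p.2)).choose N) p.1 := by
        intro p
        rw [Sym.card_sym_eq_choose, Fintype.card_fin]
        have h : N + 1 + (d p.1.1 - b p.1.1 p.1.2) - 1 = N + (d p.1.1 - b p.1.1 p.1.2) := by
          omega
        rw [h]
        exact Nat.choose_symm_add.symm
      rw [Finset.sum_congr rfl fun p _ => h1 p]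
      rw [← Finset.sum_subtype (Finset.univ.filter fun p : Fin r × Fin s => p.2 ≠ j p.1)
        (by simp) (fun p : Fin r × Fin s => (N + (d p.1 - b p.1 p.2)).choose N)]
      rw [Finset.sum_filter, Fintype.sum_prod_type]
      refine Finset.sum_congr rfl fun i _ => ?_
      rw [← Finset.sum_filter]
      refine Finset.sum_congr ?_ fun l _ => rfl
      ext l
      simp
    have hk1 : Algebra.trdeg k₀ k ≤ (Fintype.card ι : Cardinal) := by
      rw [hk']
      exact multi_trdeg_le y
    have hunion : ({z | ∃ i l J, z = coeff J (H i l)} : Set L) = T ∪ T' := by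
      ext z
      constructor
      · rintro ⟨i, l, J, rfl⟩
        by_cases hl : l = j i
        · subst hl
          exact Or.inr ⟨i, J, rfl⟩
        · exact Or.inl ⟨i, l, hl, J, rfl⟩
      · rintro (⟨i, l, -, J, rfl⟩ | ⟨i, J, rfl⟩)
        · exact ⟨i, l, J, rfl⟩
        · exact ⟨i, j i, J, rfl⟩
    rw [hunion, ← IntermediateField.adjoin_adjoin_left] at hcoef
    have htr : Algebra.trdeg k₀ k + Algebra.trdeg k (IntermediateField.adjoin k T') =
        Algebra.trdeg k₀ ((IntermediateField.adjoin k T').restrictScalars k₀) :=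
      multi_tower k (IntermediateField.adjoin k T')
    rw [← htr] at hcoef
    have hsum : ∑ i, ∑ l, (N + (d i - b i l)).choose N =
        Fintype.card ι + ∑ i, (N + (d i - b i (j i))).choose N := by
      rw [hcard, ← Finset.sum_add_distrib]
      refine Finset.sum_congr rfl fun i _ => ?_
      rw [Finset.sum_erase_add _ _ (Finset.mem_univ (j i))]
    rw [hsum, Nat.cast_add] at hcoef
    have h3 : (Fintype.card ι : Cardinal) + ((∑ i, (N + (d i - b i (j i))).choose N : ℕ) : Cardinal)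
        ≤ (Fintype.card ι : Cardinal) +
          (Algebra.trdeg k (IntermediateField.adjoin k T') + c) := by
      refine hcoef.trans ?_
      rw [add_assoc]
      exact add_le_add_left hk1 _
    exact (Cardinal.add_le_add_iff_of_lt_aleph0 (Cardinal.natCast_lt_aleph0)).1
      (by rw [add_comm _ (Fintype.card ι : Cardinal), add_comm _ (Fintype.card ι : Cardinal)]; exact h3)

end Pool.Agent.Helper8.LV

end

section

/-! # LB-SZ: schemes of finite type over a finitely generated ring -/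

set_option autoImplicit false

open AlgebraicGeometry CategoryTheory CategoryTheory.Limits

namespace Pool.Agent.Helper10.LB

open Pool.Agent.Helper8.LG

universe u

/-- copy of `Helper8.LG.exists_affine_ft` over `ℤ` -/
theorem exists_affine_ftZ (R : CommRingCat.{u}) [Algebra.FiniteType ℤ R] {B : Scheme.{u}}
    [IsIntegral B] (s : B ⟶ Spec R) [LocallyOfFiniteType s] [CharZero B.functionField] :
    ∃ (V : B.Opens) (_ : Nonempty V), IsAffineOpen V ∧
      (∃ A : Subalgebra ℤ B.functionField, A.FG ∧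
        ∀ b : Γ(B, V), B.germToFunctionField V b ∈ A) ∧
      (⊤ : IntermediateField ℚ B.functionField).FG := by
  classical
  obtain ⟨_, ⟨V, hV, rfl⟩, hmem, -⟩ :=
    B.isBasis_affineOpens.exists_subset_of_mem_open (Set.mem_univ (genericPoint B)) isOpen_univ
  have hV' : IsAffineOpen V := hV
  have hne : Nonempty V := ⟨⟨_, hmem⟩⟩
  have e : V ≤ s ⁻¹ᵁ ⊤ := le_top
  have hft : (s.appLE ⊤ V e).hom.FiniteType :=
    s.finiteType_appLE (isAffineOpen_top (Spec R)) hV' e
  have hft2 : ((s.appLE ⊤ V e).hom.comp (Scheme.ΓSpecIso R).inv.hom).FiniteType := by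
    apply RingHom.FiniteType.comp hft
    apply RingHom.FiniteType.of_surjective
    exact (ConcreteCategory.bijective_of_isIso (Scheme.ΓSpecIso R).inv).2
  have hR : (algebraMap ℤ R).FiniteType :=
    RingHom.finiteType_algebraMap.2 inferInstance
  have hft3 := hft2.comp hR
  have hZ : ((s.appLE ⊤ V e).hom.comp (Scheme.ΓSpecIso R).inv.hom).comp (algebraMap ℤ R) =
      algebraMap ℤ Γ(B, V) := RingHom.ext_int _ _
  rw [hZ] at hft3
  have hft4 : Algebra.FiniteType ℤ Γ(B, V) := RingHom.finiteType_algebraMap.1 hft3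
  obtain ⟨T, hT⟩ := hft4.out
  let γ : Γ(B, V) →+* B.functionField := (B.germToFunctionField V).hom
  let A : Subalgebra ℤ B.functionField := Algebra.adjoin ℤ ((T.image γ : Finset _) : Set _)
  have hA : ∀ b : Γ(B, V), γ b ∈ A := by
    intro b
    have hb : b ∈ Algebra.adjoin ℤ (T : Set Γ(B, V)) := by
      rw [hT]; trivial
    induction hb using Algebra.adjoin_induction with
    | mem x hx =>
      apply Algebra.subset_adjoin
      simp only [Finset.coe_image]
      exact ⟨x, hx, rfl⟩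
    | algebraMap r =>
      have h1 : γ (algebraMap ℤ Γ(B, V) r) = algebraMap ℤ B.functionField r := by
        simp
      rw [h1]
      exact A.algebraMap_mem r
    | add x y _ _ hx hy => rw [map_add]; exact A.add_mem hx hy
    | mul x y _ _ hx hy => rw [map_mul]; exact A.mul_mem hx hy
  refine ⟨V, hne, hV', ⟨A, ⟨_, rfl⟩, hA⟩, ⟨T.image γ, ?_⟩⟩
  rw [eq_top_iff]
  intro x _
  have := functionField_isFractionRing_of_isAffineOpen B V hV'
  obtain ⟨a, b, -, hx⟩ := IsFractionRing.div_surjective (A := Γ(B, V)) x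
  have hsub : ∀ c : Γ(B, V), γ c ∈ IntermediateField.adjoin ℚ
      ((T.image γ : Finset _) : Set B.functionField) := by
    intro c
    have hc : γ c ∈ Algebra.adjoin ℤ ((T.image γ : Finset _) : Set B.functionField) := hA c
    generalize γ c = z at hc
    induction hc using Algebra.adjoin_induction with
    | mem x hx => exact IntermediateField.subset_adjoin ℚ _ hx
    | algebraMap r =>
      have h1 : algebraMap ℤ B.functionField r = ((r : ℤ) : B.functionField) := by simp
      rw [h1]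
      exact intCast_mem _ r
    | add x y _ _ hx hy => exact add_mem hx hy
    | mul x y _ _ hx hy => exact mul_mem hx hy
  rw [← hx]
  exact IntermediateField.div_mem _ (hsub a) (hsub b)

end Pool.Agent.Helper10.LB

end
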