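import Pool.Agent.Helper74.MG.T04
import Pool.Agent.Helper74.MG.T03
import Pool.Agent.Helper74.MG.T01
import Pool.Agent.Helper74.MG.T05

section

/-! # LG-GFUN: the functions `G / F` on the generic fibre; finite fibres of the morphism `q` -/

set_option autoImplicit false

open AlgebraicGeometry CategoryTheory CategoryTheory.Limits MvPolynomial

namespace Pool.Agent.Helper8.LG

attribute [local instance] MvPolynomial.gradedAlgebra

universe u

/-- if `F` does not vanish on the image of `q` then `G / F` is a regular function on the generic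
fibre, with the expected values at the sections -/
theorem exists_fun {B : Scheme.{u}} [IsIntegral B] {U : Scheme.{u}} (π : U ⟶ B) {N n : ℕ}
    (q : genFib π ⟶ PN N B.functionField) (hq : q ≫ PN.toSpec N _ = pullback.snd _ _)
    (hn : 0 < n) (F : MvPolynomial (Fin (N + 1)) B.functionField) (hF : F.IsHomogeneous n)
    (hU : ∀ z : genFib π, q z ∈ Proj.basicOpen _ F)
    (G : MvPolynomial (Fin (N + 1)) B.functionField) (hG : G.IsHomogeneous n) :
    ∃ φ : Γ(genFib π, ⊤), ∀ (σ : B ⟶ U) (hσ : σ ≫ π = 𝟙 B) (t : Spec B.functionField)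
      (x : Fin (N + 1) → B.functionField), IsCoord (q (genPt π σ hσ t)) x →
      genVal π σ hσ φ = eval x G / eval x F := by
  have hF' : F ∈ homogeneousSubmodule (Fin (N + 1)) B.functionField n := hF
  have hG' : G ∈ homogeneousSubmodule (Fin (N + 1)) B.functionField n := hG
  let j := Proj.awayι (homogeneousSubmodule (Fin (N + 1)) B.functionField) F hF' hn
  have hr : Set.range q ⊆ Set.range j := by
    rintro _ ⟨z, rfl⟩
    have h1 := hU z
    rw [← Proj.opensRange_awayι _ F hF' hn] at h1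
    exact h1
  let qt := IsOpenImmersion.lift j q hr
  have hqt : qt ≫ j = q := IsOpenImmersion.lift_fac j q hr
  let e : HomogeneousLocalization.Away (homogeneousSubmodule (Fin (N + 1)) B.functionField) F :=
    HomogeneousLocalization.mk ⟨n, ⟨G, hG'⟩, ⟨F, hF'⟩, Submonoid.mem_powers F⟩
  refine ⟨qt.appTop ((Scheme.ΓSpecIso (.of _)).inv e), fun σ hσ t x hx => ?_⟩
  let ψ := Spec.preimage (genPt π σ hσ ≫ qt)
  have hψ : Spec.map ψ = genPt π σ hσ ≫ qt := Spec.map_preimage _
  have h1 : Spec.map ψ ≫ j = genPt π σ hσ ≫ q := by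
    rw [hψ, Category.assoc, hqt]
  have h2 : Spec.map ψ ≫ j ≫ PN.toSpec N B.functionField = 𝟙 _ := by
    rw [← Category.assoc, h1, Category.assoc, hq]
    exact pullback.lift_snd _ _ _
  have h3 := away_eval F hF' hn ψ.hom h2 t x (by
    have h4 : (Spec.map ψ ≫ j) t = q (genPt π σ hσ t) := by
      rw [h1]
      rfl
    change IsCoord ((Spec.map ψ ≫ j) t) x
    rw [h4]
    exact hx) G hG'
  rw [← h3]
  have h5 : (Scheme.ΓSpecIso (.of _)).inv ≫ (Spec.map ψ).appTop ≫
      (Scheme.ΓSpecIso B.functionField).hom = ψ := by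
    rw [Scheme.ΓSpecIso_naturality, Iso.inv_hom_id_assoc]
  have h6 : (genPt π σ hσ ≫ qt).appTop = qt.appTop ≫ (genPt π σ hσ).appTop :=
    Scheme.Hom.comp_appTop _ _
  rw [hψ, h6] at h5
  have h7 := congrArg (fun f => f.hom e) h5
  exact h7

end Pool.Agent.Helper8.LG

end

section

/-! # LG-FFIB: finitely many sections over a given point -/

set_option autoImplicit false

open AlgebraicGeometry CategoryTheory CategoryTheory.Limits MvPolynomial

namespace Pool.Agent.Helper8.LG

attribute [local instance] MvPolynomial.gradedAlgebra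

universe u

/-- projective space is separated -/
theorem ffib_separated (N : ℕ) (K : Type u) [CommRing K] : IsSeparated (PN.toSpec N K) := by
  unfold PN.toSpec
  infer_instance

theorem ffib_snd {B : Scheme.{u}} [IsIntegral B] {U : Scheme.{u}} (π : U ⟶ B)
    (σ : B ⟶ U) (hσ : σ ≫ π = 𝟙 B) : genPt π σ hσ ≫ pullback.snd _ _ = 𝟙 _ := by
  unfold genPt
  exact pullback.lift_snd _ _ _

/-- finitely many sections map to a given point of projective space -/
theorem fib_finite {B : Scheme.{u}} [IsIntegral B] {U : Scheme.{u}} (π : U ⟶ B)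
    [IsSeparated π] [LocallyOfFiniteType π] [QuasiCompact π] {N : ℕ}
    (q : genFib π ⟶ PN N B.functionField) (hq : q ≫ PN.toSpec N _ = pullback.snd _ _)
    [LocallyQuasiFinite q] (t : Spec B.functionField) (z : PN N B.functionField) :
    {σ : B ⟶ U | ∃ hσ : σ ≫ π = 𝟙 B, q (genPt π σ hσ t) = z}.Finite := by
  have hsep : IsSeparated (PN.toSpec N B.functionField) := ffib_separated N _
  have hqc' : QuasiCompact (q ≫ PN.toSpec N B.functionField) := by
    rw [hq]
    infer_instance
  have hqc : QuasiCompact q := QuasiCompact.of_comp q (PN.toSpec N B.functionField)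
  have hfin : (q ⁻¹' {z}).Finite := q.finite_preimage_singleton z
  have hF : Finite (q ⁻¹' {z} : Set _) := hfin.to_subtype
  rw [← Set.finite_coe_iff]
  refine Finite.of_injective
    (β := (q ⁻¹' {z} : Set _))
    (fun σ => ⟨genPt π σ.1 σ.2.choose t, σ.2.choose_spec⟩) ?_
  intro σ σ' h
  have h1 : genPt π σ.1 σ.2.choose t = genPt π σ'.1 σ'.2.choose t := congrArg Subtype.val h
  have h2 : genPt π σ.1 σ.2.choose = genPt π σ'.1 σ'.2.choose :=
    kpoint_ext (K := B.functionField) (pullback.snd _ _) _ _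
      (ffib_snd π σ.1 σ.2.choose) (ffib_snd π σ'.1 σ'.2.choose) t h1
  exact Subtype.ext (section_ext π σ.1 σ'.1 σ.2.choose σ'.2.choose h2)

end Pool.Agent.Helper8.LG

end

section

/-! # LV-WRAP: from projective points to sections -/

set_option autoImplicit false

open AlgebraicGeometry CategoryTheory CategoryTheory.Limits MvPolynomial

namespace Pool.Agent.Helper8.LV

open Pool.Agent.Helper8.LG
open scoped LinearAlgebra.Projectivization

attribute [local instance] MvPolynomial.gradedAlgebra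

universe u v

theorem wrap_core {κ : Type*} [CommRing κ] {B : Scheme.{u}} [IsIntegral B]
    [Algebra κ B.functionField]
    (V : B.Opens) [Nonempty V] (hV : IsAffineOpen V) (A₀ : Subalgebra κ B.functionField)
    (hA₀ : A₀.FG) (hVA : ∀ b : Γ(B, V), B.germToFunctionField V b ∈ A₀)
    {U : Scheme.{u}} (π : U ⟶ B) [IsSeparated π] [LocallyOfFiniteType π] [QuasiCompact π]
    {N r : ℕ} (d : Fin r → ℕ) (hd : ∀ i, 0 < d i)
    (F : Fin r → MvPolynomial (Fin (N + 1)) B.functionField)
    (hF : ∀ i, (F i).IsHomogeneous (d i))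
    (f : genFib π ⟶ PN N B.functionField) (hf : f ≫ PN.toSpec N _ = pullback.snd _ _)
    [LocallyQuasiFinite f] (W : Finset (Fin r))
    (hU : ∀ i ∈ W, ∀ z : genFib π, NonVanishing (f z) (F i))
    (M : Type v) [Field M] [Algebra B.functionField M] [Algebra κ M]
    [IsScalarTower κ B.functionField M] (Q : (Fin (N + 1) → B.functionField) → Prop)
    (hfin : ∀ A : Subalgebra κ M, A.FG →
      {x : ℙ B.functionField (Fin (N + 1) → B.functionField) | Q x.rep ∧
        ∀ i ∈ W, eval x.rep (F i) ≠ 0 ∧ ∀ J : Sym (Fin (N + 1)) (d i),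
          algebraMap B.functionField M (mon x.rep J / eval x.rep (F i)) ∈ A}.Finite) :
    {σ : B ⟶ U | ∃ hσ : σ ≫ π = 𝟙 B, ∀ (t : Spec B.functionField)
      (x : Fin (N + 1) → B.functionField), IsCoord (f (genPt π σ hσ t)) x → Q x}.Finite := by
  classical
  obtain ⟨T, hT⟩ := hA₀
  -- the functions
  have hfun : ∀ (i : {i : Fin r // i ∈ W}) (J : Sym (Fin (N + 1)) (d i)),
      ∃ s : Γ(B, V), B.germToFunctionField V s ≠ 0 ∧
      ∀ (σ : B ⟶ U) (hσ : σ ≫ π = 𝟙 B) (t : Spec B.functionField)
        (x : Fin (N + 1) → B.functionField), IsCoord (f (genPt π σ hσ t)) x →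
        ∃ b : Γ(B, V), B.germToFunctionField V s * (mon x J / eval x (F i)) =
          B.germToFunctionField V b := by
    intro i J
    obtain ⟨φ, hφ⟩ := exists_fun π f hf (hd i) (F i) (hF i)
      (fun z => (Proj.mem_basicOpen _ _ _).2 (hU i i.2 z))
      (monX B.functionField J) (monX_hom _ J)
    obtain ⟨s, hs, hsb⟩ := spread π V hV φ
    refine ⟨s, hs, fun σ hσ t x hx => ?_⟩
    obtain ⟨b, hb⟩ := hsb σ hσ
    refine ⟨b, ?_⟩
    rw [← hb, hφ σ hσ t x hx, eval_monX]
  choose sf hsf hsb using hfun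
  let ι := algebraMap B.functionField M
  let S : Set M := ι '' T ∪ Set.range fun p : (Σ i : {i : Fin r // i ∈ W},
    Sym (Fin (N + 1)) (d i)) => (ι (B.germToFunctionField V (sf p.1 p.2)))⁻¹
  have hSfin : S.Finite := (T.finite_toSet.image ι).union (Set.finite_range _)
  let A : Subalgebra κ M := Algebra.adjoin κ S
  have hA : A.FG := Subalgebra.fg_def.mpr ⟨S, hSfin, rfl⟩
  have hιA : ∀ a ∈ A₀, ι a ∈ A := by
    intro a ha
    rw [← hT] at ha
    induction ha using Algebra.adjoin_induction with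
    | mem x hx => exact Algebra.subset_adjoin (Or.inl ⟨x, hx, rfl⟩)
    | algebraMap a =>
      have h1 : ι (algebraMap κ B.functionField a) = algebraMap κ M a :=
        (IsScalarTower.algebraMap_apply κ B.functionField M a).symm
      rw [h1]
      exact A.algebraMap_mem _
    | add x y _ _ hx hy =>
      rw [map_add]
      exact add_mem hx hy
    | mul x y _ _ hx hy =>
      rw [map_mul]
      exact mul_mem hx hy
  have hmain := hfin A hA
  obtain ⟨t⟩ : Nonempty (Spec B.functionField) := inferInstance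
  have hfib : ∀ P : Projectivization B.functionField (Fin (N + 1) → B.functionField),
      {σ : B ⟶ U | ∃ hσ : σ ≫ π = 𝟙 B, IsCoord (f (genPt π σ hσ t)) P.rep}.Finite := by
    intro P
    by_cases hne : ∃ σ : B ⟶ U, ∃ hσ : σ ≫ π = 𝟙 B, IsCoord (f (genPt π σ hσ t)) P.rep
    · obtain ⟨σ₀, hσ₀, h0⟩ := hne
      refine (fib_finite π f hf t (f (genPt π σ₀ hσ₀ t))).subset ?_
      rintro σ ⟨hσ, h1⟩
      exact ⟨hσ, point_unique h1 h0⟩
    · refine Set.Finite.subset Set.finite_empty ?_
      rintro σ ⟨hσ, h1⟩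
      exact hne ⟨σ, hσ, h1⟩
  refine (hmain.biUnion fun P _ => hfib P).subset fun σ hσ => ?_
  obtain ⟨hσ', hQ⟩ := hσ
  have hp : (genPt π σ hσ' ≫ f) ≫ PN.toSpec N B.functionField = 𝟙 _ := by
    rw [Category.assoc, hf]
    exact ffib_snd π σ hσ'
  obtain ⟨x, hx⟩ := exists_coord (genPt π σ hσ' ≫ f) hp t
  have hx' : IsCoord (f (genPt π σ hσ' t)) x := hx
  let P := Projectivization.mk B.functionField x hx'.1
  have hP : IsCoord (f (genPt π σ hσ' t)) P.rep := by
    obtain ⟨a, ha⟩ := Projectivization.exists_smul_eq_mk_rep B.functionField x hx'.1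
    have h1 := coord_smul hx' (a : B.functionField) a.ne_zero
    have h2 : (fun i => (a : B.functionField) * x i) = P.rep := ha
    rwa [h2] at h1
  refine Set.mem_biUnion (x := P) ?_ ⟨hσ', hP⟩
  refine ⟨hQ t P.rep hP, fun i hiW => ⟨?_, fun J => ?_⟩⟩
  · have h4 := hU i hiW (genPt π σ hσ' t)
    intro h5
    exact h4 ((hP.2 (d i) (F i) (hF i)).mpr h5)
  · obtain ⟨b, hb⟩ := hsb ⟨i, hiW⟩ J σ hσ' t P.rep hP
    have hs0 := hsf ⟨i, hiW⟩ J
    have h6 : mon P.rep J / eval P.rep (F i) = B.germToFunctionField V b *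
        (B.germToFunctionField V (sf ⟨i, hiW⟩ J))⁻¹ := by
      rw [← hb]
      field_simp
    rw [h6, map_mul, map_inv₀]
    exact mul_mem (hιA _ (hVA b)) (Algebra.subset_adjoin (Or.inr ⟨⟨⟨i, hiW⟩, J⟩, rfl⟩))

end Pool.Agent.Helper8.LV

end

section

/-! # LN-WC: from projective points to sections -/

set_option autoImplicit false

open AlgebraicGeometry CategoryTheory CategoryTheory.Limits MvPolynomial

namespace Pool.Agent.Helper10.LN

open Pool.Agent.Helper8.LG
open scoped LinearAlgebra.Projectivization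

attribute [local instance] MvPolynomial.gradedAlgebra

universe u v

/-- from projective points to sections, one ring for all conditions -/
theorem wrap_core2 {κ : Type*} [CommRing κ] {B : Scheme.{u}} [IsIntegral B]
    [Algebra κ B.functionField]
    (V : B.Opens) [Nonempty V] (hV : IsAffineOpen V) (A₀ : Subalgebra κ B.functionField)
    (hA₀ : A₀.FG) (hVA : ∀ b : Γ(B, V), B.germToFunctionField V b ∈ A₀)
    {U : Scheme.{u}} (π : U ⟶ B) [IsSeparated π] [LocallyOfFiniteType π] [QuasiCompact π]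
    {N r : ℕ} (d : Fin r → ℕ) (hd : ∀ i, 0 < d i)
    (F : Fin r → MvPolynomial (Fin (N + 1)) B.functionField)
    (hF : ∀ i, (F i).IsHomogeneous (d i))
    (f : genFib π ⟶ PN N B.functionField) (hf : f ≫ PN.toSpec N _ = pullback.snd _ _)
    [LocallyQuasiFinite f] (W : Finset (Fin r))
    (hU : ∀ i ∈ W, ∀ z : genFib π, NonVanishing (f z) (F i))
    (M : Type v) [Field M] [Algebra B.functionField M] [Algebra κ M]
    [IsScalarTower κ B.functionField M] :
    ∃ A : Subalgebra κ M, A.FG ∧ ∀ Q : (Fin (N + 1) → B.functionField) → Prop,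
      {x : ℙ B.functionField (Fin (N + 1) → B.functionField) | Q x.rep ∧
        ∀ i ∈ W, eval x.rep (F i) ≠ 0 ∧ ∀ J : Sym (Fin (N + 1)) (d i),
          algebraMap B.functionField M (mon x.rep J / eval x.rep (F i)) ∈ A}.Finite →
      {σ : B ⟶ U | ∃ hσ : σ ≫ π = 𝟙 B, ∀ (t : Spec B.functionField)
        (x : Fin (N + 1) → B.functionField), IsCoord (f (genPt π σ hσ t)) x → Q x}.Finite := by
  classical
  obtain ⟨T, hT⟩ := hA₀
  -- the functions
  have hfun : ∀ (i : {i : Fin r // i ∈ W}) (J : Sym (Fin (N + 1)) (d i)),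
      ∃ s : Γ(B, V), B.germToFunctionField V s ≠ 0 ∧
      ∀ (σ : B ⟶ U) (hσ : σ ≫ π = 𝟙 B) (t : Spec B.functionField)
        (x : Fin (N + 1) → B.functionField), IsCoord (f (genPt π σ hσ t)) x →
        ∃ b : Γ(B, V), B.germToFunctionField V s * (mon x J / eval x (F i)) =
          B.germToFunctionField V b := by
    intro i J
    obtain ⟨φ, hφ⟩ := exists_fun π f hf (hd i) (F i) (hF i)
      (fun z => (Proj.mem_basicOpen _ _ _).2 (hU i i.2 z))
      (monX B.functionField J) (monX_hom _ J)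
    obtain ⟨s, hs, hsb⟩ := spread π V hV φ
    refine ⟨s, hs, fun σ hσ t x hx => ?_⟩
    obtain ⟨b, hb⟩ := hsb σ hσ
    refine ⟨b, ?_⟩
    rw [← hb, hφ σ hσ t x hx, eval_monX]
  choose sf hsf hsb using hfun
  let ι := algebraMap B.functionField M
  let S : Set M := ι '' T ∪ Set.range fun p : (Σ i : {i : Fin r // i ∈ W},
    Sym (Fin (N + 1)) (d i)) => (ι (B.germToFunctionField V (sf p.1 p.2)))⁻¹
  have hSfin : S.Finite := (T.finite_toSet.image ι).union (Set.finite_range _)
  let A : Subalgebra κ M := Algebra.adjoin κ S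
  have hA : A.FG := Subalgebra.fg_def.mpr ⟨S, hSfin, rfl⟩
  have hιA : ∀ a ∈ A₀, ι a ∈ A := by
    intro a ha
    rw [← hT] at ha
    induction ha using Algebra.adjoin_induction with
    | mem x hx => exact Algebra.subset_adjoin (Or.inl ⟨x, hx, rfl⟩)
    | algebraMap a =>
      have h1 : ι (algebraMap κ B.functionField a) = algebraMap κ M a :=
        (IsScalarTower.algebraMap_apply κ B.functionField M a).symm
      rw [h1]
      exact A.algebraMap_mem _
    | add x y _ _ hx hy =>
      rw [map_add]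
      exact add_mem hx hy
    | mul x y _ _ hx hy =>
      rw [map_mul]
      exact mul_mem hx hy
  refine ⟨A, hA, fun Q hmain => ?_⟩
  obtain ⟨t⟩ : Nonempty (Spec B.functionField) := inferInstance
  have hfib : ∀ P : Projectivization B.functionField (Fin (N + 1) → B.functionField),
      {σ : B ⟶ U | ∃ hσ : σ ≫ π = 𝟙 B, IsCoord (f (genPt π σ hσ t)) P.rep}.Finite := by
    intro P
    by_cases hne : ∃ σ : B ⟶ U, ∃ hσ : σ ≫ π = 𝟙 B, IsCoord (f (genPt π σ hσ t)) P.rep
    · obtain ⟨σ₀, hσ₀, h0⟩ := hne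
      refine (fib_finite π f hf t (f (genPt π σ₀ hσ₀ t))).subset ?_
      rintro σ ⟨hσ, h1⟩
      exact ⟨hσ, point_unique h1 h0⟩
    · refine Set.Finite.subset Set.finite_empty ?_
      rintro σ ⟨hσ, h1⟩
      exact hne ⟨σ, hσ, h1⟩
  refine (hmain.biUnion fun P _ => hfib P).subset fun σ hσ => ?_
  obtain ⟨hσ', hQ⟩ := hσ
  have hp : (genPt π σ hσ' ≫ f) ≫ PN.toSpec N B.functionField = 𝟙 _ := by
    rw [Category.assoc, hf]
    exact ffib_snd π σ hσ'
  obtain ⟨x, hx⟩ := exists_coord (genPt π σ hσ' ≫ f) hp t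
  have hx' : IsCoord (f (genPt π σ hσ' t)) x := hx
  let P := Projectivization.mk B.functionField x hx'.1
  have hP : IsCoord (f (genPt π σ hσ' t)) P.rep := by
    obtain ⟨a, ha⟩ := Projectivization.exists_smul_eq_mk_rep B.functionField x hx'.1
    have h1 := coord_smul hx' (a : B.functionField) a.ne_zero
    have h2 : (fun i => (a : B.functionField) * x i) = P.rep := ha
    rwa [h2] at h1
  refine Set.mem_biUnion (x := P) ?_ ⟨hσ', hP⟩
  refine ⟨hQ t P.rep hP, fun i hiW => ⟨?_, fun J => ?_⟩⟩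
  · have h4 := hU i hiW (genPt π σ hσ' t)
    intro h5
    exact h4 ((hP.2 (d i) (F i) (hF i)).mpr h5)
  · obtain ⟨b, hb⟩ := hsb ⟨i, hiW⟩ J σ hσ' t P.rep hP
    have hs0 := hsf ⟨i, hiW⟩ J
    have h6 : mon P.rep J / eval P.rep (F i) = B.germToFunctionField V b *
        (B.germToFunctionField V (sf ⟨i, hiW⟩ J))⁻¹ := by
      rw [← hb]
      field_simp
    rw [h6, map_mul, map_inv₀]
    exact mul_mem (hιA _ (hVA b)) (Algebra.subset_adjoin (Or.inr ⟨⟨⟨i, hiW⟩, J⟩, rfl⟩))

end Pool.Agent.Helper10.LN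

end
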