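import Pool.Agent.Helper74.MG.T02

section

/-! # LG-DED: valuation rings over a Dedekind domain -/

set_option autoImplicit false

namespace Pool.Agent.Helper8.LG

variable {E : Type*} [Field E]

open IsDedekindDomain

/-- the prime of `R` below the valuation ring `O` -/
private noncomputable def dedPrime (R : Subring E) (O : ValuationSubring E)
    (hO : R ≤ O.toSubring) : Ideal R :=
  Ideal.comap (Subring.inclusion hO : R →+* O.toSubring) (IsLocalRing.maximalIdeal O)

private theorem dedPrime_isPrime (R : Subring E) (O : ValuationSubring E)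
    (hO : R ≤ O.toSubring) : (dedPrime R O hO).IsPrime := by
  unfold dedPrime
  exact Ideal.comap_isPrime (Subring.inclusion hO : R →+* O.toSubring)
    (IsLocalRing.maximalIdeal O)

private theorem dedPrime_inv (R : Subring E) (O : ValuationSubring E)
    (hO : R ≤ O.toSubring) (r : R) (hr : r ∉ dedPrime R O hO) :
    (r : E) ≠ 0 ∧ (r : E)⁻¹ ∈ O := by
  have h1 : IsUnit (⟨(r : E), hO r.2⟩ : O) := by
    by_contra h
    exact hr ((IsLocalRing.mem_maximalIdeal _).2 h)
  obtain ⟨u, hu⟩ := h1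
  have h2 : (r : E) * ((u⁻¹ : Oˣ) : O) = 1 := by
    have h3 : ((u : O) : E) * ((u⁻¹ : Oˣ) : O) = 1 := by
      have := u.mul_inv
      exact congrArg (fun z : O => (z : E)) this
    rw [hu] at h3
    exact h3
  have h4 : (r : E) ≠ 0 := by
    intro h
    rw [h, zero_mul] at h2
    exact zero_ne_one h2
  refine ⟨h4, ?_⟩
  have h5 : (r : E)⁻¹ = ((u⁻¹ : Oˣ) : O) := by
    exact (eq_inv_of_mul_eq_one_right h2).symm
  rw [h5]
  exact ((u⁻¹ : Oˣ) : O).2

private theorem ded_frac (R : Subring E) [IsDedekindDomain R] [IsFractionRing R E]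
    (O : ValuationSubring E) (hO : R ≤ O.toSubring) (f : E) (hf : f ∈ O) :
    ∃ a ∈ R, ∃ b ∈ R, b ≠ 0 ∧ b⁻¹ ∈ O ∧ f = a / b := by
  by_cases hP : dedPrime R O hO = ⊥
  · obtain ⟨a, b, hb, hab⟩ := IsFractionRing.div_surjective (A := R) f
    have hb0 : b ≠ 0 := nonZeroDivisors.ne_zero hb
    have hb1 : b ∉ dedPrime R O hO := by
      rw [hP]
      exact hb0
    obtain ⟨h1, h2⟩ := dedPrime_inv R O hO b hb1
    exact ⟨a, a.2, b, b.2, h1, h2, hab.symm⟩
  · let v : HeightOneSpectrum R := ⟨dedPrime R O hO, dedPrime_isPrime R O hO, hP⟩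
    obtain ⟨n, d, h | h⟩ := v.exists_primeCompl_mul_eq_or_mul_eq (K := E) f
    · obtain ⟨h1, h2⟩ := dedPrime_inv R O hO d d.2
      refine ⟨n, n.2, d, d.1.2, h1, h2, ?_⟩
      rw [eq_div_iff h1]
      exact h
    · obtain ⟨h1, h2⟩ := dedPrime_inv R O hO d d.2
      have h3 : f * (n : E) = ((d : R) : E) := h
      have hn : (n : E) ≠ 0 := by
        intro h0
        rw [h0, mul_zero] at h3
        exact h1 h3.symm
      refine ⟨d, d.1.2, n, n.2, hn, ?_, ?_⟩
      · have h4 : (n : E)⁻¹ = f * ((d : R) : E)⁻¹ := by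
          rw [← h3]
          have hf0 : f ≠ 0 := by
            intro h0
            rw [h0, zero_mul] at h3
            exact h1 h3.symm
          field_simp
        rw [h4]
        exact O.mul_mem _ _ hf h2
      · rw [eq_div_iff hn]
        exact h3

theorem bdd_of {P : Type*} (R : Subring E) [IsDedekindDomain R] [IsFractionRing R E]
    (D : P → Derivation ℤ E E) (Δ : E) (hΔ : Δ ∈ R) (h : ∀ p, ∀ f ∈ R, Δ * D p f ∈ R)
    (O : ValuationSubring E) (hO : R ≤ O.toSubring) : Bdd D Δ O := by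
  refine ⟨hO hΔ, ?_⟩
  intro p f hf
  obtain ⟨a, ha, b, hb, hb0, hbO, rfl⟩ := ded_frac R O hO f hf
  have h1 : Δ * D p (a / b) = b⁻¹ ^ 2 * (b * (Δ * D p a) - a * (Δ * D p b)) := by
    rw [Derivation.leibniz_div]
    simp only [smul_eq_mul]
    ring
  rw [h1]
  have h2 : b * (Δ * D p a) - a * (Δ * D p b) ∈ O :=
    hO (R.sub_mem (R.mul_mem hb (h p a ha)) (R.mul_mem ha (h p b hb)))
  exact O.mul_mem _ _ (pow_mem hbO 2) h2

theorem mem_of (R : Subring E) [IsDedekindDomain R] [IsFractionRing R E] (f : E)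
    (h : ∀ O : ValuationSubring E, R ≤ O.toSubring → f ∈ O) : f ∈ R := by
  have h1 : f ∈ (algebraMap R E).range := by
    apply HeightOneSpectrum.mem_integers_of_valuation_le_one
    intro v
    have h2 := h (v.valuation E).valuationSubring (by
      intro r hr
      exact v.valuation_le_one (K := E) ⟨r, hr⟩)
    exact h2
  obtain ⟨r, hr⟩ := h1
  rw [← hr]
  exact r.2

private theorem dlog_zpow {P : Type*} (D : P → Derivation ℤ E E) (p : P) (x : E) (hx : x ≠ 0)
    (n : ℤ) : D p (x ^ n) / x ^ n = n * (D p x / x) := by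
  rw [Derivation.leibniz_zpow, zsmul_eq_mul, smul_eq_mul, zpow_sub_one₀ hx]
  have : x ^ n ≠ 0 := zpow_ne_zero _ hx
  field_simp

theorem log_of {P : Type*} [CharZero E] (R : Subring E) [IsDedekindDomain R]
    [IsFractionRing R E] (hQ : ∀ n : ℕ, n ≠ 0 → ((n : E))⁻¹ ∈ R)
    (D : P → Derivation ℤ E E) (O : ValuationSubring E) (hO : R ≤ O.toSubring)
    (Δ : E) (hΔ : Bdd D Δ O) (c : E) (hc : c ≠ 0) (hcO : c ∉ O ∨ c⁻¹ ∉ O)
    (hΔc : ∀ p, Δ * (D p c / c) ∈ O) (g : E) (hg : g ≠ 0) (p : P) :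
    Δ * (D p g / g) ∈ O := by
  have hP : dedPrime R O hO ≠ ⊥ := by
    intro hP
    have key : ∀ f : E, f ∈ O := by
      intro f
      obtain ⟨a, b, hb, hab⟩ := IsFractionRing.div_surjective (A := R) f
      have hb0 : b ≠ 0 := nonZeroDivisors.ne_zero hb
      have hb1 : b ∉ dedPrime R O hO := by
        rw [hP]
        exact hb0
      obtain ⟨h1, h2⟩ := dedPrime_inv R O hO b hb1
      rw [← hab, div_eq_mul_inv]
      exact O.mul_mem _ _ (hO a.2) h2
    rcases hcO with h | h
    · exact h (key c)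
    · exact h (key c⁻¹)
  let v : HeightOneSpectrum R := ⟨dedPrime R O hO, dedPrime_isPrime R O hO, hP⟩
  have hle : ∀ f : E, v.valuation E f ≤ 1 → f ∈ O := by
    intro f hf
    obtain ⟨n, d, h⟩ := v.exists_primeCompl_mul_eq_of_integer (K := E) f hf
    obtain ⟨h1, h2⟩ := dedPrime_inv R O hO d d.2
    have h3 : f = (n : E) * ((d : R) : E)⁻¹ := by
      rw [← div_eq_mul_inv, eq_div_iff h1]
      exact h
    rw [h3]
    exact O.mul_mem _ _ (hO n.2) h2
  have hvc : v.valuation E c ≠ 0 := (Valuation.ne_zero_iff _).2 hc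
  have hvg : v.valuation E g ≠ 0 := (Valuation.ne_zero_iff _).2 hg
  set k : ℤ := WithZero.log (v.valuation E c) with hk
  set n : ℤ := WithZero.log (v.valuation E g) with hn
  have hck : v.valuation E c = WithZero.exp k := (WithZero.exp_log hvc).symm
  have hgn : v.valuation E g = WithZero.exp n := (WithZero.exp_log hvg).symm
  have hk0 : k ≠ 0 := by
    intro h0
    rw [h0, WithZero.exp_zero] at hck
    rcases hcO with h | h
    · exact h (hle c hck.le)
    · refine h (hle c⁻¹ ?_)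
      rw [map_inv₀, hck, inv_one]
  have hu : v.valuation E (g ^ k * c ^ (-n)) = 1 := by
    rw [map_mul, map_zpow₀, map_zpow₀, hck, hgn, ← WithZero.exp_zsmul, ← WithZero.exp_zsmul,
      ← WithZero.exp_add, ← WithZero.exp_zero]
    congr 1
    simp only [smul_eq_mul]
    ring
  have hgk : g ^ k ≠ 0 := zpow_ne_zero _ hg
  have hcn : c ^ (-n) ≠ 0 := zpow_ne_zero _ hc
  have huO : g ^ k * c ^ (-n) ∈ O := hle _ hu.le
  have huO' : (g ^ k * c ^ (-n))⁻¹ ∈ O := by
    apply hle
    rw [map_inv₀, hu, inv_one]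
  have hDu : Δ * (D p (g ^ k * c ^ (-n)) / (g ^ k * c ^ (-n))) ∈ O := by
    have h1 := O.mul_mem _ _ (hΔ.2 p _ huO) huO'
    rw [div_eq_mul_inv, ← mul_assoc]
    exact h1
  have hsum : D p (g ^ k * c ^ (-n)) / (g ^ k * c ^ (-n)) =
      k * (D p g / g) + ((-n : ℤ) : E) * (D p c / c) := by
    rw [← dlog_zpow D p g hg k, ← dlog_zpow D p c hc (-n), Derivation.leibniz]
    simp only [smul_eq_mul]
    field_simp
    ring
  have hkE : (k : E) ≠ 0 := by exact_mod_cast hk0
  have hkinv : (k : E)⁻¹ ∈ O := by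
    have h1 : ((k.natAbs : ℕ) : E)⁻¹ ∈ O := hO (hQ k.natAbs (Int.natAbs_ne_zero.2 hk0))
    have h2 : (k : E) = ((k.natAbs : ℕ) : E) ∨ (k : E) = -((k.natAbs : ℕ) : E) := by
      rcases Int.natAbs_eq k with h | h
      · left
        calc (k : E) = (((k.natAbs : ℕ) : ℤ) : E) := congrArg _ h
          _ = _ := Int.cast_natCast _
      · right
        calc (k : E) = ((-((k.natAbs : ℕ) : ℤ) : ℤ) : E) := congrArg _ h
          _ = _ := by rw [Int.cast_neg, Int.cast_natCast]
    rcases h2 with h | h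
    · rw [h]
      exact h1
    · rw [h, inv_neg]
      exact O.neg_mem _ h1
  have hfin : Δ * (D p g / g) = (k : E)⁻¹ *
      (Δ * (D p (g ^ k * c ^ (-n)) / (g ^ k * c ^ (-n))) + (n : E) * (Δ * (D p c / c))) := by
    rw [hsum]
    push_cast
    field_simp
    ring
  rw [hfin]
  refine O.mul_mem _ _ hkinv (O.add_mem _ _ hDu (O.mul_mem _ _ ?_ (hΔc p)))
  exact intCast_mem O n

end Pool.Agent.Helper8.LG

end

section

/-! # LG-DEDB: bounded values on a finite-dimensional space -/

set_option autoImplicit false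

namespace Pool.Agent.Helper8.LG

variable {E : Type*} [Field E]

open IsDedekindDomain

/-- the prime of `R` below the valuation ring `O` -/
private noncomputable def dbPrime (R : Subring E) (O : ValuationSubring E)
    (hO : R ≤ O.toSubring) : Ideal R :=
  Ideal.comap (Subring.inclusion hO : R →+* O.toSubring) (IsLocalRing.maximalIdeal O)

private theorem dbPrime_isPrime (R : Subring E) (O : ValuationSubring E)
    (hO : R ≤ O.toSubring) : (dbPrime R O hO).IsPrime := by
  unfold dbPrime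
  exact Ideal.comap_isPrime (Subring.inclusion hO : R →+* O.toSubring)
    (IsLocalRing.maximalIdeal O)

private theorem dbPrime_inv (R : Subring E) (O : ValuationSubring E)
    (hO : R ≤ O.toSubring) (r : R) (hr : r ∉ dbPrime R O hO) :
    (r : E) ≠ 0 ∧ (r : E)⁻¹ ∈ O := by
  have h1 : IsUnit (⟨(r : E), hO r.2⟩ : O) := by
    by_contra h
    exact hr ((IsLocalRing.mem_maximalIdeal _).2 h)
  obtain ⟨u, hu⟩ := h1
  have h2 : (r : E) * ((u⁻¹ : Oˣ) : O) = 1 := by
    have h3 : ((u : O) : E) * ((u⁻¹ : Oˣ) : O) = 1 := by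
      have := u.mul_inv
      exact congrArg (fun z : O => (z : E)) this
    rw [hu] at h3
    exact h3
  have h4 : (r : E) ≠ 0 := by
    intro h
    rw [h, zero_mul] at h2
    exact zero_ne_one h2
  refine ⟨h4, ?_⟩
  have h5 : (r : E)⁻¹ = ((u⁻¹ : Oˣ) : O) := by
    exact (eq_inv_of_mul_eq_one_right h2).symm
  rw [h5]
  exact ((u⁻¹ : Oˣ) : O).2

/-- the elements of `V` of valuation at least `n` -/
private def dbFil {k : Type*} [Field k] [Algebra k E] (R : Subring E) [IsDedekindDomain R]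
    [IsFractionRing R E] (hk : ∀ c : k, algebraMap k E c ∈ R) (V : Submodule k E)
    (v : HeightOneSpectrum R) (n : ℕ) : Submodule k V where
  carrier := {f | v.valuation E (f : E) ≤ WithZero.exp (-(n : ℤ))}
  add_mem' := by
    intro f g hf hg
    have hf' : v.valuation E (f : E) ≤ WithZero.exp (-(n : ℤ)) := hf
    have hg' : v.valuation E (g : E) ≤ WithZero.exp (-(n : ℤ)) := hg
    exact Valuation.map_add_le (v.valuation E) hf' hg'
  zero_mem' := by
    simp
  smul_mem' := by
    intro c f hf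
    show v.valuation E ((c • f : V) : E) ≤ _
    have h1 : ((c • f : V) : E) = algebraMap k E c * (f : E) := by
      rw [Submodule.coe_smul, Algebra.smul_def]
    rw [h1, map_mul]
    have h2 : v.valuation E (algebraMap k E c) ≤ 1 :=
      v.valuation_le_one (K := E) ⟨_, hk c⟩
    calc v.valuation E (algebraMap k E c) * v.valuation E (f : E)
        ≤ 1 * WithZero.exp (-(n : ℤ)) := mul_le_mul' h2 hf
      _ = _ := one_mul _

private theorem dbBound {k : Type*} [Field k] [Algebra k E] (R : Subring E) [IsDedekindDomain R]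
    [IsFractionRing R E] (hk : ∀ c : k, algebraMap k E c ∈ R) (V : Submodule k E)
    [FiniteDimensional k V] (v : HeightOneSpectrum R) :
    ∃ n : ℕ, ∀ f ∈ V, f ≠ 0 → WithZero.exp (-(n : ℤ)) < v.valuation E f := by
  have hanti : Monotone (fun n : ℕ => OrderDual.toDual (dbFil R hk V v n)) := by
    intro m n hmn
    show dbFil R hk V v n ≤ dbFil R hk V v m
    intro f hf
    have h1 : v.valuation E (f : E) ≤ WithZero.exp (-(n : ℤ)) := hf
    show v.valuation E (f : E) ≤ WithZero.exp (-(m : ℤ))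
    refine h1.trans (WithZero.exp_le_exp.2 ?_)
    have : (m : ℤ) ≤ n := by exact_mod_cast hmn
    linarith
  obtain ⟨n, hn⟩ := IsArtinian.monotone_stabilizes
    (⟨fun n : ℕ => OrderDual.toDual (dbFil R hk V v n), hanti⟩ : ℕ →o (Submodule k V)ᵒᵈ)
  refine ⟨n, ?_⟩
  intro f hfV hf0
  by_contra hle
  have hle' : v.valuation E f ≤ WithZero.exp (-(n : ℤ)) := not_lt.1 hle
  have h1 : ∀ m : ℕ, n ≤ m → v.valuation E f ≤ WithZero.exp (-(m : ℤ)) := by
    intro m hm
    have h2 : dbFil R hk V v n = dbFil R hk V v m := hn m hm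
    have h3 : (⟨f, hfV⟩ : V) ∈ dbFil R hk V v n := hle'
    rw [h2] at h3
    exact h3
  have hv0 : v.valuation E f ≠ 0 := (Valuation.ne_zero_iff _).2 hf0
  have h4 := h1 (max n ((-(WithZero.log (v.valuation E f)) + 1).toNat)) (le_max_left _ _)
  rw [← WithZero.exp_log hv0, WithZero.exp_le_exp, WithZero.exp_log hv0] at h4
  have h5 : (-(WithZero.log (v.valuation E f)) + 1) ≤
      ((max n ((-(WithZero.log (v.valuation E f)) + 1).toNat) : ℕ) : ℤ) := by
    refine (Int.self_le_toNat _).trans ?_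
    exact_mod_cast le_max_right _ _
  omega

theorem bounded_of {k : Type*} [Field k] [Algebra k E] (R : Subring E) [IsDedekindDomain R]
    [IsFractionRing R E] (hk : ∀ c : k, algebraMap k E c ∈ R) (V : Submodule k E)
    [FiniteDimensional k V] (Δ : E) (hΔ : Δ ∈ R) (hΔ0 : Δ ≠ 0) :
    ∃ C : ℕ, ∀ O : ValuationSubring E, R ≤ O.toSubring → Δ⁻¹ ∉ O → ∀ f ∈ V, f ≠ 0 →
      Δ ^ C * f⁻¹ ∈ O := by
  classical
  choose n hn using fun v : HeightOneSpectrum R => dbBound R hk V v
  have hI : (Ideal.span {(⟨Δ, hΔ⟩ : R)}) ≠ 0 := by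
    rw [Ne, Ideal.zero_eq_bot, Ideal.span_singleton_eq_bot]
    intro h
    exact hΔ0 (congrArg Subtype.val h)
  have hfin := Ideal.finite_factors hI
  refine ⟨hfin.toFinset.sup n, ?_⟩
  intro O hO hΔO f hf hf0
  have hmem : (⟨Δ, hΔ⟩ : R) ∈ dbPrime R O hO := by
    by_contra h
    exact hΔO (dbPrime_inv R O hO _ h).2
  have hP : dbPrime R O hO ≠ ⊥ := by
    intro h
    rw [h] at hmem
    exact hΔ0 (congrArg Subtype.val ((Submodule.mem_bot _).1 hmem))
  let v : HeightOneSpectrum R := ⟨dbPrime R O hO, dbPrime_isPrime R O hO, hP⟩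
  have hle : ∀ f : E, v.valuation E f ≤ 1 → f ∈ O := by
    intro f hf
    obtain ⟨n, d, h⟩ := v.exists_primeCompl_mul_eq_of_integer (K := E) f hf
    obtain ⟨h1, h2⟩ := dbPrime_inv R O hO d d.2
    have h3 : f = (n : E) * ((d : R) : E)⁻¹ := by
      rw [← div_eq_mul_inv, eq_div_iff h1]
      exact h
    rw [h3]
    exact O.mul_mem _ _ (hO n.2) h2
  have hvI : v ∈ hfin.toFinset := by
    rw [Set.Finite.mem_toFinset]
    show v.asIdeal ∣ _
    rw [Ideal.dvd_span_singleton]
    exact hmem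
  have hC : n v ≤ hfin.toFinset.sup n := Finset.le_sup hvI
  have hv0 : v.valuation E f ≠ 0 := (Valuation.ne_zero_iff _).2 hf0
  have h1 := hn v f hf hf0
  have h2 : v.valuation E Δ ≤ WithZero.exp (-1 : ℤ) := by
    have h3 : v.valuation E (algebraMap R E ⟨Δ, hΔ⟩) < 1 := by
      rw [HeightOneSpectrum.valuation_lt_one_iff_mem]
      exact hmem
    have h4 : v.valuation E Δ < 1 := h3
    have hv0' : v.valuation E Δ ≠ 0 := (Valuation.ne_zero_iff _).2 hΔ0
    rw [← WithZero.exp_log hv0', ← WithZero.exp_zero, WithZero.exp_lt_exp] at h4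
    rw [← WithZero.exp_log hv0', WithZero.exp_le_exp]
    omega
  apply hle
  rw [map_mul, map_pow, map_inv₀]
  rw [← WithZero.exp_log hv0] at h1 ⊢
  rw [WithZero.exp_lt_exp] at h1
  have hv0' : v.valuation E Δ ≠ 0 := (Valuation.ne_zero_iff _).2 hΔ0
  rw [← WithZero.exp_log hv0', WithZero.exp_le_exp] at h2
  rw [← WithZero.exp_log hv0', ← WithZero.exp_nsmul, ← WithZero.exp_neg, ← WithZero.exp_add,
    ← WithZero.exp_zero, WithZero.exp_le_exp]
  have hC' : ((n v : ℕ) : ℤ) ≤ ((hfin.toFinset.sup n : ℕ) : ℤ) := by exact_mod_cast hC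
  rw [nsmul_eq_mul]
  nlinarith [h1, h2, hC', Int.natCast_nonneg (n v),
    Int.natCast_nonneg (hfin.toFinset.sup n)]

end Pool.Agent.Helper8.LG

end
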