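import Pool.Agent.Helper74.MG.T02
import Pool.Agent.Helper74.MG.T10
import Pool.Agent.Helper74.MG.T09

section

/-! # LG-RING: the integral closures -/

set_option autoImplicit false

namespace Pool.Agent.Helper8.LG

variable {E : Type*} [Field E] [CharZero E]

theorem ring_closure_eq (E₀ : Subfield E) (t : E) :
    Subring.closure ((E₀ : Set E) ∪ {t}) = (Algebra.adjoin E₀ {t}).toSubring := by
  rw [Algebra.adjoin_eq_ring_closure]
  congr 2
  ext x
  constructor
  · intro hx
    exact ⟨⟨x, hx⟩, rfl⟩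
  · rintro ⟨y, rfl⟩
    exact y.2

theorem ring_fieldClosure_eq (E₀ : Subfield E) (t : E) :
    Subfield.closure ((E₀ : Set E) ∪ {t}) = (IntermediateField.adjoin E₀ {t}).toSubfield := by
  rw [IntermediateField.adjoin_toSubfield]
  congr 2
  ext x
  constructor
  · intro hx
    exact ⟨⟨x, hx⟩, rfl⟩
  · rintro ⟨y, rfl⟩
    exact y.2

theorem ring_finite (E₀ : Subfield E) (t : E)
    (hfin : FiniteDimensional (Subfield.closure ((E₀ : Set E) ∪ {t})) E) :
    FiniteDimensional (IntermediateField.adjoin E₀ {t}) E := by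
  rw [ring_fieldClosure_eq] at hfin
  exact hfin

theorem ring_isIntegral_iff (E₀ : Subfield E) (A : Subring E) (B : Subalgebra E₀ E)
    (h : A = B.toSubring) (f : E) : IsIntegral A f ↔ IsIntegral B f := by
  subst h
  exact Iff.rfl

theorem ring_mem_intCl (E₀ : Subfield E) (t f : E) :
    f ∈ intCl E₀ t ↔ IsIntegral (Algebra.adjoin E₀ {t}) f :=
  ring_isIntegral_iff E₀ _ _ (ring_closure_eq E₀ t) f

theorem ring_intCl_eq (E₀ : Subfield E) (t : E) :
    intCl E₀ t = (integralClosure (Algebra.adjoin E₀ {t}) E).toSubring := by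
  ext f
  exact ring_mem_intCl E₀ t f

theorem ring_adjoin_dedekind (E₀ : Subfield E) (t : E) (ht : Transcendental E₀ t) :
    IsDedekindDomain (Algebra.adjoin E₀ {t}) := by
  have hinj : Function.Injective (Polynomial.aeval t : Polynomial E₀ →ₐ[E₀] E) :=
    transcendental_iff_injective.mp ht
  let e : Polynomial E₀ ≃+* Algebra.adjoin E₀ {t} :=
    ((AlgEquiv.ofInjective _ hinj).trans
      (Subalgebra.equivOfEq _ _
        (Algebra.adjoin_singleton_eq_range_aeval E₀ t).symm)).toRingEquiv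
  have : IsPrincipalIdealRing (Algebra.adjoin E₀ {t}) :=
    IsPrincipalIdealRing.of_surjective (e : Polynomial E₀ →+* Algebra.adjoin E₀ {t}) e.surjective
  infer_instance

open IntermediateField.algebraAdjoinAdjoin in
theorem intCl_dedekind (E₀ : Subfield E) (t : E) (ht : Transcendental E₀ t)
    (hfin : FiniteDimensional (Subfield.closure ((E₀ : Set E) ∪ {t})) E) :
    IsDedekindDomain (intCl E₀ t) ∧ IsFractionRing (intCl E₀ t) E := by
  have hfin' := ring_finite E₀ t hfin
  have hD := ring_adjoin_dedekind E₀ t ht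
  rw [ring_intCl_eq]
  have h1 : IsDedekindDomain (integralClosure (Algebra.adjoin E₀ {t}) E) :=
    integralClosure.isDedekindDomain (Algebra.adjoin E₀ {t}) (IntermediateField.adjoin E₀ {t}) E
  have h2 : IsFractionRing (integralClosure (Algebra.adjoin E₀ {t}) E) E :=
    integralClosure.isFractionRing_of_finite_extension (IntermediateField.adjoin E₀ {t}) E
  exact ⟨h1, h2⟩

/-- one `Δ` for the derivations and for a finite set of elements -/
theorem exists_bound {P : Type*} [Finite P] (E₀ : Subfield E) (t : E)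
    (ht : Transcendental E₀ t)
    (hfin : FiniteDimensional (Subfield.closure ((E₀ : Set E) ∪ {t})) E)
    (D : P → Derivation ℤ E E) (hE₀ : ∀ p, ∀ f ∈ E₀, D p f ∈ E₀)
    (hDt : ∀ p, D p t ∈ Subring.closure ((E₀ : Set E) ∪ {t})) (S : Set E) (hS : S.Finite) :
    ∃ Δ ∈ Subring.closure ((E₀ : Set E) ∪ {t}), Δ ≠ 0 ∧
      (∀ p, ∀ f ∈ intCl E₀ t, Δ * D p f ∈ intCl E₀ t) ∧ ∀ f ∈ S, Δ * f ∈ intCl E₀ t := by
  classical
  have hfin' := ring_finite E₀ t hfin
  have hcl : Subring.closure ((E₀ : Set E) ∪ {t}) ≤ intCl E₀ t := by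
    intro f hf
    exact isIntegral_algebraMap (R := Subring.closure ((E₀ : Set E) ∪ {t})) (x := ⟨f, hf⟩)
  have hmem : ∀ f, f ∈ Subring.closure ((E₀ : Set E) ∪ {t}) ↔ f ∈ Algebra.adjoin E₀ {t} := by
    intro f
    rw [ring_closure_eq]
    exact Iff.rfl
  have h1 : ∀ p, ∃ Δ ∈ Subring.closure ((E₀ : Set E) ∪ {t}), Δ ≠ 0 ∧
      ∀ f ∈ intCl E₀ t, Δ * D p f ∈ intCl E₀ t := by
    intro p
    obtain ⟨Δ, hΔ, hΔ0, h⟩ := Pool.Agent.Helper70.GG.exists_derivation_bound ht hfin' (D p)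
      (fun a => ⟨⟨D p a, hE₀ p a a.2⟩, rfl⟩) ((hmem _).1 (hDt p))
    exact ⟨Δ, (hmem _).2 hΔ, hΔ0, fun f hf =>
      (ring_mem_intCl E₀ t _).2 (h f ((ring_mem_intCl E₀ t f).1 hf))⟩
  have h2 : ∀ f, ∃ c ∈ Subring.closure ((E₀ : Set E) ∪ {t}), c ≠ 0 ∧ c * f ∈ intCl E₀ t := by
    intro f
    obtain ⟨c, hc, hc0, h⟩ := Pool.Agent.Helper70.GG.exists_mul_isIntegral
      (IntermediateField.adjoin E₀ {t}) rfl f
    exact ⟨c, (hmem _).2 hc, hc0, (ring_mem_intCl E₀ t _).2 h⟩
  choose Δ₁ hΔ₁ hΔ₁0 hΔ₁D using h1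
  choose c hc hc0 hcf using h2
  have := Fintype.ofFinite P
  refine ⟨(∏ p, Δ₁ p) * ∏ f ∈ hS.toFinset, c f, ?_, ?_, ?_, ?_⟩
  · exact mul_mem (prod_mem fun p _ => hΔ₁ p) (prod_mem fun f _ => hc f)
  · exact mul_ne_zero (Finset.prod_ne_zero_iff.2 fun p _ => hΔ₁0 p)
      (Finset.prod_ne_zero_iff.2 fun f _ => hc0 f)
  · intro p f hf
    rw [← Finset.mul_prod_erase Finset.univ Δ₁ (Finset.mem_univ p)]
    have h3 : Δ₁ p * (∏ x ∈ Finset.univ.erase p, Δ₁ x) * (∏ f ∈ hS.toFinset, c f) * D p f =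
        ((∏ x ∈ Finset.univ.erase p, Δ₁ x) * (∏ f ∈ hS.toFinset, c f)) * (Δ₁ p * D p f) := by
      ring
    rw [h3]
    exact mul_mem (hcl (mul_mem (prod_mem fun p _ => hΔ₁ p) (prod_mem fun f _ => hc f)))
      (hΔ₁D p f hf)
  · intro f hf
    rw [← Finset.mul_prod_erase hS.toFinset c (hS.mem_toFinset.2 hf)]
    have h3 : (∏ p, Δ₁ p) * (c f * ∏ x ∈ hS.toFinset.erase f, c x) * f =
        ((∏ p, Δ₁ p) * ∏ x ∈ hS.toFinset.erase f, c x) * (c f * f) := by
      ring
    rw [h3]
    exact mul_mem (hcl (mul_mem (prod_mem fun p _ => hΔ₁ p) (prod_mem fun f _ => hc f)))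
      (hcf f)

/-- an element integral over `E₀[t]` and over `E₀[1/t]` is algebraic over `E₀` -/
theorem algebraic_of_mem (E₀ : Subfield E) (t : E) (ht : Transcendental E₀ t)
    (hfin : FiniteDimensional (Subfield.closure ((E₀ : Set E) ∪ {t})) E) (f : E)
    (h1 : f ∈ intCl E₀ t) (h2 : f ∈ intCl E₀ t⁻¹) : IsAlgebraic E₀ f := by
  have hfin' := ring_finite E₀ t hfin
  exact (Pool.Agent.Helper70.GG.isIntegral_of_charts ht hfin' ((ring_mem_intCl E₀ t f).1 h1)
    ((ring_mem_intCl E₀ t⁻¹ f).1 h2)).isAlgebraic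

end Pool.Agent.Helper8.LG

end

section

/-! # LG-DIR1: one direction of the base, first round -/

set_option autoImplicit false

namespace Pool.Agent.Helper8.LG

open scoped BigOperators

section DirOneAux

variable {L : Type*} [Field L] {σ : Type*}

theorem dirOne_mon_div {n : ℕ} (x : σ → L) (c : L) (J : Sym σ n) :
    mon (fun l => x l / c) J = mon x J / c ^ n := by
  unfold mon
  rw [Multiset.prod_map_div]
  congr 1
  rw [Multiset.map_const', Multiset.prod_replicate]
  congr 1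
  exact J.2

theorem dirOne_form_div [Fintype σ] [DecidableEq σ] {n : ℕ} (a : Sym σ n → L) (x : σ → L)
    (c : L) : form a (fun l => x l / c) = form a x / c ^ n := by
  unfold form
  rw [Finset.sum_div]
  refine Finset.sum_congr rfl fun J _ => ?_
  rw [dirOne_mon_div, mul_div_assoc]

theorem dirOne_mon_replicate {n : ℕ} (x : σ → L) (j : σ) :
    mon x (Sym.replicate n j) = x j ^ n := by
  unfold mon
  rw [Sym.coe_replicate, Multiset.map_replicate, Multiset.prod_replicate]

theorem dirOne_mon_mem {n : ℕ} (O : ValuationSubring L) (x : σ → L) (hx : ∀ l, x l ∈ O)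
    (J : Sym σ n) : mon x J ∈ O := by
  unfold mon
  refine multiset_prod_mem _ fun c hc => ?_
  obtain ⟨l, _, rfl⟩ := Multiset.mem_map.1 hc
  exact hx l

theorem dirOne_form_mem [Fintype σ] [DecidableEq σ] {n : ℕ} (O : ValuationSubring L)
    (c : L) (a : Sym σ n → L) (ha : ∀ J, c * a J ∈ O) (x : σ → L) (hx : ∀ l, x l ∈ O) :
    c * form a x ∈ O := by
  unfold form
  rw [Finset.mul_sum]
  refine sum_mem fun J _ => ?_
  rw [← mul_assoc]
  exact mul_mem (ha J) (dirOne_mon_mem O x hx J)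

theorem dirOne_pow_mem (O : ValuationSubring L) {z : L} {m : ℕ} (hm : 0 < m)
    (h : z ^ m ∈ O) : z ∈ O := by
  rcases O.mem_or_inv_mem z with h1 | h1
  · exact h1
  · rcases eq_or_ne z 0 with rfl | hz
    · exact zero_mem _
    · obtain ⟨n, rfl⟩ := Nat.exists_eq_succ_of_ne_zero hm.ne'
      have h2 : z = z ^ (n + 1) * (z⁻¹) ^ n := by
        rw [pow_succ, inv_pow]
        field_simp
      rw [h2]
      exact mul_mem h (pow_mem h1 n)

theorem dirOne_int_mem (O : ValuationSubring L) (A : Subring L) (hA : A ≤ O.toSubring)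
    {f : L} (hf : IsIntegral A f) : f ∈ O := by
  have h1 : IsIntegral O f := by
    obtain ⟨p, hp, hpe⟩ := hf
    refine ⟨p.map (Subring.inclusion hA), hp.map _, ?_⟩
    rw [Polynomial.eval₂_map]
    exact hpe
  obtain ⟨y, hy⟩ := (IsIntegrallyClosed.isIntegral_iff (R := O) (K := L)).1 h1
  rw [← hy]
  exact y.2

end DirOneAux

/-- first round: the poles of `G x_l` are bounded -/
theorem dir_one {L : Type*} [Field L] [CharZero L] {σ ι τ : Type*} [Fintype σ]
    [DecidableEq σ] [Fintype ι] [DecidableEq ι] [Fintype τ]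
    (d e m : ι → ℕ) (a : (i : ι) → Sym σ (d i) → L) (D : Ix σ d → Derivation ℤ L L)
    (θ : τ → Ix σ d → L)
    (Z C : Finset ι) (i₀ : σ) (w c : ℕ) (hnum : Num d e m Z C w c)
    (E₀ : Subfield L) (t : L) (ht : Transcendental E₀ t)
    (hfin : FiniteDimensional (Subfield.closure ((E₀ : Set L) ∪ {t})) L)
    (hE₀ : ∀ p, ∀ f ∈ E₀, D p f ∈ E₀)
    (hDt : ∀ p, D p t ∈ Subring.closure ((E₀ : Set L) ∪ {t}))
    (S : Set L) (hS : S.Finite) (hSa : ∀ p : Ix σ d, a p.1 p.2 ∈ S)
    (hSθ : ∀ j s, θ j s ∈ S) :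
    ∃ Δ : L, Δ ≠ 0 ∧ ∀ (x : σ → L) (y : ι → L) (G : L),
      Good d m a D Z C i₀ w (Subring.closure ((E₀ : Set L) ∪ S)) x y →
      KeyG d e a D θ Z (uu C y) x G →
      ∀ l, Δ * (G * x l) ∈ intCl E₀ t := by
  obtain ⟨Δ₀, hΔc, hΔ0, hΔD, hΔS⟩ := exists_bound E₀ t ht hfin D hE₀ hDt S hS
  obtain ⟨hDed, hFrac⟩ := intCl_dedekind E₀ t ht hfin
  have hcl : Subring.closure ((E₀ : Set L) ∪ {t}) ≤ intCl E₀ t := by
    intro f hf
    exact isIntegral_algebraMap (R := Subring.closure ((E₀ : Set L) ∪ {t})) (x := ⟨f, hf⟩)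
  have hE₀R : ∀ f ∈ E₀, f ∈ intCl E₀ t := fun f hf =>
    hcl (Subring.subset_closure (Or.inl hf))
  have hQ : ∀ n : ℕ, n ≠ 0 → ((n : L))⁻¹ ∈ intCl E₀ t := fun n _ =>
    hE₀R _ (E₀.inv_mem (natCast_mem E₀ n))
  have hΔR : Δ₀ ∈ intCl E₀ t := hcl hΔc
  refine ⟨(Δ₀ ^ 3) ^ (Fintype.card σ + Fintype.card ι + Fintype.card τ), pow_ne_zero _ (pow_ne_zero _ hΔ0), ?_⟩
  intro x y G hgood hkey l
  refine mem_of (intCl E₀ t) _ fun O hO => ?_
  have hb : Bdd D Δ₀ O := bdd_of (intCl E₀ t) D Δ₀ hΔR hΔD O hO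
  have hΔO : Δ₀ ∈ O := hb.1
  refine hkey O (Δ₀ ^ 3) ⟨pow_mem hΔO 3, fun p f hf => ?_⟩ (fun j s => ?_) ?_ l
  · have h1 : Δ₀ ^ 3 * D p f = Δ₀ ^ 2 * (Δ₀ * D p f) := by ring
    rw [h1]
    exact mul_mem (pow_mem hΔO 2) (hb.2 p f hf)
  · have h1 : Δ₀ ^ 3 * θ j s = Δ₀ ^ 2 * (Δ₀ * θ j s) := by ring
    rw [h1]
    exact mul_mem (pow_mem hΔO 2) (hO (hΔS _ (hSθ j s)))
  intro i hi j hj hxO
  have hane : form (a i) x ≠ 0 := hgood.ne i hi
  have hgeq : form (a i) (fun l => x l / x j) = form (a i) x / x j ^ d i :=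
    dirOne_form_div (a i) x (x j)
  have hg0 : form (a i) (fun l => x l / x j) ≠ 0 := by
    rw [hgeq]
    exact div_ne_zero hane (pow_ne_zero _ hj)
  have haS : ∀ J, Δ₀ * a i J ∈ O := fun J => hO (hΔS _ (hSa ⟨i, J⟩))
  have hΔg : Δ₀ * form (a i) (fun l => x l / x j) ∈ O :=
    dirOne_form_mem O Δ₀ (a i) haS _ hxO
  by_cases hiC : i ∈ C
  · -- ramified case
    have hu : uu C y i = y i := if_pos hiC
    have hdm : d i = m i * e i := hnum.deg i hiC
    have hm : 0 < m i := by
      rcases Nat.eq_zero_or_pos (m i) with h0 | h0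
      · have := hnum.pos i
        rw [hdm, h0, zero_mul] at this
        exact absurd this (lt_irrefl 0)
      · exact h0
    rw [hu]
    generalize hgg : form (a i) (fun l => x l / x j) = g at hg0 hΔg hgeq ⊢
    generalize hyy : y i / x j ^ e i = yt
    have hyg : yt ^ m i = g := by
      have hpw : x j ^ d i = x j ^ (e i * m i) :=
        congrArg (fun r => x j ^ r) (hdm.trans (mul_comm _ _))
      rw [← hyy, div_pow, hgood.root i hiC, hgeq, ← pow_mul, hpw]
    have hy0 : yt ≠ 0 := by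
      intro h0
      rw [h0, zero_pow hm.ne'] at hyg
      exact hg0 hyg.symm
    have hΔy : Δ₀ * yt ∈ O := by
      refine dirOne_pow_mem O hm ?_
      obtain ⟨r, hr⟩ := Nat.exists_eq_succ_of_ne_zero hm.ne'
      have h1 : (Δ₀ * yt) ^ m i = Δ₀ ^ r * (Δ₀ * g) := by
        rw [mul_pow, hyg, hr, pow_succ]
        ring
      rw [h1]
      exact mul_mem (pow_mem hΔO r) hΔg
    refine ⟨?_, fun p => ?_⟩
    · have h1 : Δ₀ ^ 3 * yt = Δ₀ ^ 2 * (Δ₀ * yt) := by ring
      rw [h1]
      exact mul_mem (pow_mem hΔO 2) hΔy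
    · have h2 : D p g = (m i : L) * yt ^ (m i - 1) * D p yt := by
        rw [← hyg, Derivation.leibniz_pow, smul_eq_mul, nsmul_eq_mul]
        ring
      have h3 : yt * (D p g / g) = (m i : L) * D p yt := by
        rw [h2, ← hyg]
        obtain ⟨r, hr⟩ := Nat.exists_eq_succ_of_ne_zero hm.ne'
        rw [hr, Nat.succ_sub_one, pow_succ]
        field_simp
      have h4 : Δ₀ ^ 3 * D p yt =
          Δ₀ * (Δ₀ * D p (Δ₀ * yt)) - (Δ₀ * yt) * (Δ₀ * D p Δ₀) := by
        rw [Derivation.leibniz, smul_eq_mul, smul_eq_mul]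
        ring
      have h5 : Δ₀ ^ 3 * D p yt ∈ O := by
        rw [h4]
        exact sub_mem (mul_mem hΔO (hb.2 p _ hΔy)) (mul_mem hΔy (hb.2 p _ hΔO))
      have h6 : Δ₀ ^ 3 * (yt * (D p g / g)) = (m i : L) * (Δ₀ ^ 3 * D p yt) := by
        rw [h3]
        ring
      rw [h6]
      exact mul_mem (natCast_mem O (m i)) h5
  · -- unramified case
    have hu : uu C y i = 1 := if_neg hiC
    have he : e i = 0 := hnum.e0 i hiC
    rw [hu, he, pow_zero, div_one]
    refine ⟨by rw [mul_one]; exact pow_mem hΔO 3, fun p => ?_⟩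
    rw [one_mul]
    have key : Δ₀ ^ 2 * (D p (form (a i) fun l => x l / x j) /
        form (a i) fun l => x l / x j) ∈ O := by
      by_cases hinv : Δ₀⁻¹ ∈ O
      · have hSO : ∀ f ∈ S, f ∈ O := fun f hf => by
          have h1 : f = Δ₀⁻¹ * (Δ₀ * f) := by
            rw [← mul_assoc, inv_mul_cancel₀ hΔ0, one_mul]
          rw [h1]
          exact mul_mem hinv (hO (hΔS f hf))
        have hA : Subring.closure ((E₀ : Set L) ∪ S) ≤ O.toSubring := by
          rw [Subring.closure_le]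
          rintro f (hf | hf)
          · exact hO (hE₀R f hf)
          · exact hSO f hf
        have hint := dirOne_int_mem O _ hA (hgood.int i hi hiC (Sym.replicate (d i) j))
        rw [dirOne_mon_replicate] at hint
        have hgi : (form (a i) (fun l => x l / x j))⁻¹ ∈ O := by
          rw [hgeq, inv_div]
          exact hint
        have hgO : form (a i) (fun l => x l / x j) ∈ O := by
          have h1 := dirOne_form_mem O 1 (a i)
            (fun J => by rw [one_mul]; exact hSO _ (hSa ⟨i, J⟩)) _ hxO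
          rwa [one_mul] at h1
        have h2 : Δ₀ ^ 2 * (D p (form (a i) fun l => x l / x j) /
            form (a i) fun l => x l / x j) =
            Δ₀ * ((Δ₀ * D p (form (a i) fun l => x l / x j)) *
              (form (a i) (fun l => x l / x j))⁻¹) := by
          rw [div_eq_mul_inv]
          ring
        rw [h2]
        exact mul_mem hΔO (mul_mem (hb.2 p _ hgO) hgi)
      · have hb2 : Bdd D (Δ₀ ^ 2) O := by
          refine ⟨pow_mem hΔO 2, fun p f hf => ?_⟩
          have h1 : Δ₀ ^ 2 * D p f = Δ₀ * (Δ₀ * D p f) := by ring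
          rw [h1]
          exact mul_mem hΔO (hb.2 p f hf)
        refine log_of (intCl E₀ t) hQ D O hO (Δ₀ ^ 2) hb2 Δ₀ hΔ0 (Or.inr hinv) (fun q => ?_)
          _ hg0 p
        have h1 : Δ₀ ^ 2 * (D q Δ₀ / Δ₀) = Δ₀ * D q Δ₀ := by
          field_simp
        rw [h1]
        exact hb.2 q _ hΔO
    have h3 : Δ₀ ^ 3 * (D p (form (a i) fun l => x l / x j) /
        form (a i) fun l => x l / x j) =
        Δ₀ * (Δ₀ ^ 2 * (D p (form (a i) fun l => x l / x j) /
        form (a i) fun l => x l / x j)) := by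
      ring
    rw [h3]
    exact mul_mem hΔO key

end Pool.Agent.Helper8.LG

end

section

/-! # LG-DIR2: one direction of the base, second round -/

set_option autoImplicit false

namespace Pool.Agent.Helper8.LG

open scoped BigOperators

section DirTwoAux

variable {L : Type*} [Field L] {σ : Type*}

theorem dirTwo_mon_mul {n : ℕ} (x : σ → L) (c : L) (J : Sym σ n) :
    mon (fun l => c * x l) J = c ^ n * mon x J := by
  unfold mon
  rw [Multiset.prod_map_mul, Multiset.map_const', Multiset.prod_replicate]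
  congr 2
  exact J.2

theorem dirTwo_form_mul [Fintype σ] [DecidableEq σ] {n : ℕ} (a : Sym σ n → L) (x : σ → L)
    (c : L) : form a (fun l => c * x l) = c ^ n * form a x := by
  unfold form
  rw [Finset.mul_sum]
  refine Finset.sum_congr rfl fun J _ => ?_
  rw [dirTwo_mon_mul]
  ring

theorem dirTwo_mon_mem (R : Subring L) {n : ℕ} (c : L) (x : σ → L) (hx : ∀ l, c * x l ∈ R)
    (J : Sym σ n) : c ^ n * mon x J ∈ R := by
  rw [← dirTwo_mon_mul]
  unfold mon
  refine multiset_prod_mem _ fun b hb => ?_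
  obtain ⟨l, _, rfl⟩ := Multiset.mem_map.1 hb
  exact hx l

theorem dirTwo_int_mem (O : ValuationSubring L) (A : Subring L) (hA : A ≤ O.toSubring)
    {f : L} (hf : IsIntegral A f) : f ∈ O := by
  have h1 : IsIntegral O f := by
    obtain ⟨p, hp, hpe⟩ := hf
    refine ⟨p.map (Subring.inclusion hA), hp.map _, ?_⟩
    rw [Polynomial.eval₂_map]
    exact hpe
  obtain ⟨y, hy⟩ := (IsIntegrallyClosed.isIntegral_iff (R := O) (K := L)).1 h1
  rw [← hy]
  exact y.2

theorem dirTwo_prod_mem {k : Type*} [Field k] [Algebra k L] (V : Submodule k L) (x : σ → L)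
    (hx : ∀ l, x l ∈ V) (J : Multiset σ) : (J.map x).prod ∈ V ^ (Multiset.card J) := by
  induction J using Multiset.induction_on with
  | empty =>
    rw [Multiset.map_zero, Multiset.prod_zero, Multiset.card_zero, pow_zero]
    exact Submodule.one_le.1 le_rfl
  | cons l J ih =>
    rw [Multiset.map_cons, Multiset.prod_cons, Multiset.card_cons, pow_succ']
    exact Submodule.mul_mem_mul (hx l) ih

theorem dirTwo_mon_pow {k : Type*} [Field k] [Algebra k L] (V : Submodule k L) {n : ℕ}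
    (x : σ → L) (hx : ∀ l, x l ∈ V) (J : Sym σ n) : mon x J ∈ V ^ n := by
  have h := dirTwo_prod_mem V x hx (J : Multiset σ)
  have e : Multiset.card (J : Multiset σ) = n := J.2
  rw [e] at h
  exact h

/-- the space containing all values of the form at points with coordinates in `V` -/
noncomputable def dirTwoW {k : Type*} [Field k] [Algebra k L] (V : Submodule k L) {n : ℕ}
    (a : Sym σ n → L) : Submodule k L :=
  Submodule.span k (Set.range a) * V ^ n

theorem dirTwo_form_mem {k : Type*} [Field k] [Algebra k L] [Fintype σ] [DecidableEq σ]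
    (V : Submodule k L) {n : ℕ} (a : Sym σ n → L) (x : σ → L) (hx : ∀ l, x l ∈ V) :
    form a x ∈ dirTwoW V a := by
  unfold form dirTwoW
  refine Submodule.sum_mem _ fun J _ => ?_
  exact Submodule.mul_mem_mul (Submodule.subset_span ⟨J, rfl⟩) (dirTwo_mon_pow V x hx J)

theorem dirTwo_finite {k : Type*} [Field k] [Algebra k L] [Fintype σ] [DecidableEq σ]
    (V : Submodule k L) [FiniteDimensional k V] {n : ℕ} (a : Sym σ n → L) :
    FiniteDimensional k (dirTwoW V a) := by
  have h1 : V.FG := Module.Finite.iff_fg.1 inferInstance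
  have h2 : (Submodule.span k (Set.range a)).FG := Submodule.fg_span (Set.finite_range a)
  exact Module.Finite.iff_fg.2 (h2.mul (h1.pow n))

end DirTwoAux

/-- second round: the poles of `x^J/F_i(x)` and of `G^(e_i) y_i` are bounded -/
theorem dir_two {k L : Type*} [Field k] [Field L] [CharZero L] [Algebra k L]
    {σ ι : Type*} [Fintype σ] [DecidableEq σ] [Fintype ι] [DecidableEq ι]
    (d e m : ι → ℕ) (a : (i : ι) → Sym σ (d i) → L) (D : Ix σ d → Derivation ℤ L L)
    (Z C : Finset ι) (i₀ : σ) (w c : ℕ) (hnum : Num d e m Z C w c)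
    (E₀ : Subfield L) (hk : ∀ c : k, algebraMap k L c ∈ E₀) (t : L) (ht : Transcendental E₀ t)
    (hfin : FiniteDimensional (Subfield.closure ((E₀ : Set L) ∪ {t})) L)
    (S : Set L) (hS : S.Finite) (hSa : ∀ p : Ix σ d, a p.1 p.2 ∈ S)
    (V : Submodule k L) [FiniteDimensional k V] :
    ∃ Δ : L, Δ ≠ 0 ∧ ∀ (x : σ → L) (y : ι → L) (G : L),
      Good d m a D Z C i₀ w (Subring.closure ((E₀ : Set L) ∪ S)) x y →
      G ≠ 0 → (∀ l, G * x l ∈ V) →
      (∀ i ∉ Z, i ∉ C → ∀ J : Sym σ (d i), Δ * (mon x J / form (a i) x) ∈ intCl E₀ t) ∧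
      ∀ i ∈ C, Δ * (G ^ e i * y i) ∈ intCl E₀ t := by
  classical
  obtain ⟨T, hT⟩ : V.FG := Module.Finite.iff_fg.1 inferInstance
  obtain ⟨Δ₀, hΔc, hΔ0, _, hΔS⟩ := exists_bound (P := Empty) E₀ t ht hfin (fun p => p.elim)
    (fun p => p.elim) (fun p => p.elim) (S ∪ (T : Set L)) (hS.union T.finite_toSet)
  obtain ⟨hDed, hFrac⟩ := intCl_dedekind E₀ t ht hfin
  have hcl : Subring.closure ((E₀ : Set L) ∪ {t}) ≤ intCl E₀ t := by
    intro f hf
    exact isIntegral_algebraMap (R := Subring.closure ((E₀ : Set L) ∪ {t})) (x := ⟨f, hf⟩)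
  have hE₀R : ∀ f ∈ E₀, f ∈ intCl E₀ t := fun f hf =>
    hcl (Subring.subset_closure (Or.inl hf))
  have hkR : ∀ c : k, algebraMap k L c ∈ intCl E₀ t := fun c => hE₀R _ (hk c)
  have hΔR : Δ₀ ∈ intCl E₀ t := hcl hΔc
  -- elements of `V` have bounded poles
  have hVR : ∀ v ∈ V, Δ₀ * v ∈ intCl E₀ t := by
    intro v hv
    rw [← hT] at hv
    induction hv using Submodule.span_induction with
    | mem v hv => exact hΔS v (Or.inr hv)
    | zero => rw [mul_zero]; exact zero_mem _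
    | add u v _ _ hu hv => rw [mul_add]; exact add_mem hu hv
    | smul c v _ hv =>
      rw [Algebra.smul_def, mul_left_comm]
      exact mul_mem (hkR c) hv
  -- the constants of `bounded_of`
  have hB : ∀ i : ι, ∃ c : ℕ, ∀ O : ValuationSubring L, intCl E₀ t ≤ O.toSubring →
      Δ₀⁻¹ ∉ O → ∀ f ∈ dirTwoW V (a i), f ≠ 0 → Δ₀ ^ c * f⁻¹ ∈ O := by
    intro i
    have := dirTwo_finite V (a i)
    exact bounded_of (intCl E₀ t) hkR (dirTwoW V (a i)) Δ₀ hΔR hΔ0
  choose B hB using hB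
  set N : ℕ := ∑ i, (B i + d i + 1) with hN
  have hNi : ∀ i, B i + d i + 1 ≤ N := fun i =>
    Finset.single_le_sum (f := fun i => B i + d i + 1) (fun _ _ => Nat.zero_le _)
      (Finset.mem_univ i)
  refine ⟨Δ₀ ^ N, pow_ne_zero _ hΔ0, ?_⟩
  intro x y G hgood hG hGx
  -- the monomials and the forms at `G x`
  have hmon : ∀ i (J : Sym σ (d i)), Δ₀ ^ d i * mon (fun l => G * x l) J ∈ intCl E₀ t :=
    fun i J => dirTwo_mon_mem (intCl E₀ t) Δ₀ _ (fun l => hVR _ (hGx l)) J
  refine ⟨?_, ?_⟩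
  · intro i hiZ hiC J
    refine mem_of (intCl E₀ t) _ fun O hO => ?_
    have hΔO : Δ₀ ∈ O := hO hΔR
    by_cases hinv : Δ₀⁻¹ ∈ O
    · have hA : Subring.closure ((E₀ : Set L) ∪ S) ≤ O.toSubring := by
        rw [Subring.closure_le]
        rintro f (hf | hf)
        · exact hO (hE₀R f hf)
        · have h1 : f = Δ₀⁻¹ * (Δ₀ * f) := by
            rw [← mul_assoc, inv_mul_cancel₀ hΔ0, one_mul]
          rw [h1]
          exact mul_mem (S := ValuationSubring L) hinv (hO (hΔS f (Or.inl hf)))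
      exact mul_mem (pow_mem hΔO N) (dirTwo_int_mem O _ hA (hgood.int i hiZ hiC J))
    · have hne : form (a i) (fun l => G * x l) ≠ 0 := by
        rw [dirTwo_form_mul]
        exact mul_ne_zero (pow_ne_zero _ hG) (hgood.ne i hiZ)
      have h1 := hB i O hO hinv _ (dirTwo_form_mem V (a i) _ hGx) hne
      have h2 : Δ₀ ^ d i * mon (fun l => G * x l) J ∈ O := hO (hmon i J)
      have h3 : mon x J / form (a i) x
          = mon (fun l => G * x l) J * (form (a i) (fun l => G * x l))⁻¹ := by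
        rw [dirTwo_mon_mul, dirTwo_form_mul]
        have := hgood.ne i hiZ
        field_simp
      obtain ⟨r, hr⟩ := Nat.exists_eq_add_of_le (hNi i)
      have h4 : Δ₀ ^ N * (mon x J / form (a i) x) = Δ₀ ^ (r + 1)
          * ((Δ₀ ^ B i * (form (a i) (fun l => G * x l))⁻¹)
            * (Δ₀ ^ d i * mon (fun l => G * x l) J)) := by
        rw [h3, hr]
        ring
      rw [h4]
      exact mul_mem (pow_mem hΔO _) (mul_mem h1 h2)
  · intro i hiC
    have hdm : d i = m i * e i := hnum.deg i hiC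
    have hm : 0 < m i := by
      rcases Nat.eq_zero_or_pos (m i) with h0 | h0
      · have := hnum.pos i
        rw [hdm, h0, zero_mul] at this
        exact absurd this (lt_irrefl 0)
      · exact h0
    have hroot : (G ^ e i * y i) ^ m i = form (a i) (fun l => G * x l) := by
      have h1 : G ^ d i = G ^ (e i * m i) := congrArg (fun r => G ^ r) (hdm.trans (mul_comm _ _))
      rw [mul_pow, hgood.root i hiC, dirTwo_form_mul, ← pow_mul, h1]
    have hform : Δ₀ ^ (d i + 1) * form (a i) (fun l => G * x l) ∈ intCl E₀ t := by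
      unfold form
      rw [Finset.mul_sum]
      refine sum_mem fun J _ => ?_
      have h1 : Δ₀ ^ (d i + 1) * (a i J * mon (fun l => G * x l) J)
          = (Δ₀ * a i J) * (Δ₀ ^ d i * mon (fun l => G * x l) J) := by ring
      rw [h1]
      exact mul_mem (hΔS _ (Or.inl (hSa ⟨i, J⟩))) (hmon i J)
    have hz : Δ₀ ^ (d i + 1) * (G ^ e i * y i) ∈ intCl E₀ t := by
      have h1 : (Δ₀ ^ (d i + 1) * (G ^ e i * y i)) ^ m i ∈ intCl E₀ t := by
        obtain ⟨r, hr⟩ := Nat.exists_eq_succ_of_ne_zero hm.ne'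
        have h2 : (Δ₀ ^ (d i + 1) * (G ^ e i * y i)) ^ m i
            = (Δ₀ ^ (d i + 1)) ^ r * (Δ₀ ^ (d i + 1) * form (a i) (fun l => G * x l)) := by
          rw [mul_pow, hroot, hr, pow_succ]
          ring
        rw [h2]
        exact mul_mem (pow_mem (pow_mem hΔR _) r) hform
      exact IsIntegral.of_pow hm h1
    obtain ⟨r, hr⟩ := Nat.exists_eq_add_of_le (hNi i)
    have h4 : Δ₀ ^ N * (G ^ e i * y i)
        = Δ₀ ^ (B i + r) * (Δ₀ ^ (d i + 1) * (G ^ e i * y i)) := by
      rw [hr]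
      ring
    rw [h4]
    exact mul_mem (pow_mem hΔR _) hz

end Pool.Agent.Helper8.LG

end
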