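import Mathlib
import Pool.Agent.Helper74.MG.T02
import Pool.Agent.Helper74.MG.T10

section

/-! # LG-OTH: the fields generated by all variables but one -/

set_option autoImplicit false

namespace Pool.Agent.Helper8.LG

/-- `y_i` is transcendental over the field generated by the others and `L` is finite over
the field generated by both. -/
theorem others_transcendental {k L τ : Type*} [Field k] [Field L] [Algebra k L]
    (y : τ → L) (hy : AlgebraicIndependent k y) (i : τ) :
    Transcendental (others (k := k) y i) (y i) ∧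
      Transcendental (others (k := k) y i) (y i)⁻¹ := by
  have h1 : Transcendental (IntermediateField.adjoin k (y '' {i}ᶜ)) (y i) :=
    IntermediateField.transcendental_adjoin_iff.mpr
      (hy.transcendental_adjoin (s := {i}ᶜ) (i := i) (by simp))
  have h2 : Transcendental (others (k := k) y i) (y i) := h1
  refine ⟨h2, fun h => h2 ?_⟩
  have := h.inv
  rwa [inv_inv] at this

private theorem oth_le {k L τ : Type*} [Field k] [Field L] [Algebra k L] (y : τ → L) (i : τ)
    (t : L) (ht : t ∈ IntermediateField.adjoin k (Set.range y)) :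
    Subfield.closure ((others (k := k) y i : Set L) ∪ {t}) ≤
      (IntermediateField.adjoin k (Set.range y)).toSubfield := by
  refine Subfield.closure_le.mpr ?_
  rintro z (hz | hz)
  · have hle : IntermediateField.adjoin k (y '' {i}ᶜ) ≤ IntermediateField.adjoin k (Set.range y) :=
      IntermediateField.adjoin.mono k _ _ (Set.image_subset_range _ _)
    exact hle hz
  · rw [Set.mem_singleton_iff] at hz
    rw [hz]
    exact ht

private theorem oth_ge {k L τ : Type*} [Field k] [Field L] [Algebra k L] (y : τ → L) (i : τ)
    (S : Subfield L) (h1 : (others (k := k) y i : Set L) ⊆ S) (h2 : y i ∈ S) :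
    (IntermediateField.adjoin k (Set.range y)).toSubfield ≤ S := by
  have hk : ∀ c : k, algebraMap k L c ∈ S := fun c =>
    h1 ((IntermediateField.adjoin k (y '' {i}ᶜ)).algebraMap_mem c)
  let T : IntermediateField k L := { S with algebraMap_mem' := hk }
  have hT : IntermediateField.adjoin k (Set.range y) ≤ T := by
    refine IntermediateField.adjoin_le_iff.mpr ?_
    rintro _ ⟨j, rfl⟩
    by_cases hj : j = i
    · rw [hj]; exact h2
    · exact h1 (IntermediateField.subset_adjoin k _ (Set.mem_image_of_mem _ hj))
  exact fun z hz => hT hz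

theorem others_finite {k L τ : Type*} [Field k] [Field L] [Algebra k L]
    (y : τ → L) (hfin : FiniteDimensional (IntermediateField.adjoin k (Set.range y)) L)
    (i : τ) :
    FiniteDimensional (Subfield.closure ((others (k := k) y i : Set L) ∪ {y i})) L ∧
      FiniteDimensional (Subfield.closure ((others (k := k) y i : Set L) ∪ {(y i)⁻¹})) L := by
  have hy : y i ∈ IntermediateField.adjoin k (Set.range y) :=
    IntermediateField.subset_adjoin k _ (Set.mem_range_self i)
  have hfin' : FiniteDimensional (IntermediateField.adjoin k (Set.range y)).toSubfield L := hfin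
  have e1 : Subfield.closure ((others (k := k) y i : Set L) ∪ {y i}) =
      (IntermediateField.adjoin k (Set.range y)).toSubfield := by
    refine le_antisymm (oth_le y i _ hy) (oth_ge y i _ ?_ ?_)
    · exact fun z hz => Subfield.subset_closure (Or.inl hz)
    · exact Subfield.subset_closure (Or.inr rfl)
  have e2 : Subfield.closure ((others (k := k) y i : Set L) ∪ {(y i)⁻¹}) =
      (IntermediateField.adjoin k (Set.range y)).toSubfield := by
    refine le_antisymm (oth_le y i _ (inv_mem hy)) (oth_ge y i _ ?_ ?_)
    · exact fun z hz => Subfield.subset_closure (Or.inl hz)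
    · have := inv_mem (Subfield.subset_closure
        (s := (others (k := k) y i : Set L) ∪ {(y i)⁻¹}) (Or.inr rfl))
      rwa [inv_inv] at this
  constructor
  · rw [e1]; exact hfin'
  · rw [e2]; exact hfin'

end Pool.Agent.Helper8.LG

end

section

/-! # LG-FD: finite dimensionality -/

set_option autoImplicit false

namespace Pool.Agent.Helper8.LG

theorem fd_isIntegral_mono {E : Type*} [CommRing E] {A B : Subring E} (h : A ≤ B) {x : E}
    (hx : IsIntegral A x) : IsIntegral B x := by
  obtain ⟨p, hp, he⟩ := hx
  refine ⟨p.map (Subring.inclusion h), hp.map _, ?_⟩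
  rw [Polynomial.eval₂_map]
  exact he

theorem fd_isIntegral_adjoin {k L : Type*} [Field k] [Field L] [Algebra k L]
    (F : IntermediateField k L) (t : L) {x : L} (hx : x ∈ intCl F.toSubfield t) :
    IsIntegral (Algebra.adjoin F {t}) x := by
  have h1 : IsIntegral (Subring.closure ((F.toSubfield : Set L) ∪ {t})) x := hx
  have hle : Subring.closure ((F.toSubfield : Set L) ∪ {t}) ≤ (Algebra.adjoin F {t}).toSubring := by
    rw [Subring.closure_le]
    rintro z (hz | hz)
    · exact (Algebra.adjoin F {t}).algebraMap_mem ⟨z, hz⟩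
    · exact Algebra.subset_adjoin hz
  exact fd_isIntegral_mono hle h1

theorem fd {k L τ : Type*} [Field k] [Field L] [CharZero L] [Algebra k L] [Finite τ]
    (y : τ → L) (hy : AlgebraicIndependent k y)
    (hfin : FiniteDimensional (IntermediateField.adjoin k (Set.range y)) L)
    (Δ Δ' : τ → L) (h0 : ∀ i, Δ i ≠ 0) (h0' : ∀ i, Δ' i ≠ 0) :
    ∃ V : Submodule k L, FiniteDimensional k V ∧ ∀ g : L,
      (∀ i, Δ i * g ∈ intCl (others (k := k) y i) (y i) ∧
        Δ' i * g ∈ intCl (others (k := k) y i) (y i)⁻¹) → g ∈ V := by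
  have key := Pool.Agent.Helper70.GG.finite_dim_of_directions y hy hfin
    {g : L | ∀ i, Δ i * g ∈ intCl (others (k := k) y i) (y i) ∧
        Δ' i * g ∈ intCl (others (k := k) y i) (y i)⁻¹} ?_
  · obtain ⟨W, hW, hS⟩ := key
    exact ⟨W, Module.Finite.iff_fg.mpr hW, fun g hg => hS hg⟩
  · intro i
    rw [← Set.compl_singleton_eq]
    set F := IntermediateField.adjoin k (y '' {i}ᶜ) with hF
    have hC : CharZero F := by
      have : CharZero k := (algebraMap k L).charZero_iff (algebraMap k L).injective |>.2 inferInstance
      infer_instance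
    have htr : Transcendental F (y i) := (others_transcendental y hy i).1
    have hfd : FiniteDimensional (IntermediateField.adjoin F {y i}) L := by
      have h1 : (IntermediateField.adjoin F {y i}).restrictScalars k
          = IntermediateField.adjoin k (Set.range y) := by
        rw [hF, IntermediateField.adjoin_adjoin_left]
        congr 1
        rw [← Set.image_singleton, ← Set.image_union]
        rw [Set.compl_union_self, Set.image_univ]
      have h2 : FiniteDimensional ((IntermediateField.adjoin F {y i}).restrictScalars k) L := by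
        rw [h1]
        exact hfin
      exact h2
    obtain ⟨V, hV, h⟩ := Pool.Agent.Helper70.GG.exists_fg_of_isIntegral htr hfd (h0 i) (h0' i)
    exact ⟨V, hV, fun g hg => h g (fd_isIntegral_adjoin F (y i) (hg i).1)
      (fd_isIntegral_adjoin F (y i)⁻¹ (hg i).2)⟩

end Pool.Agent.Helper8.LG

end

section

/-! # LG-ULTRA: an ultrapower of a field, with its derivations -/

set_option autoImplicit false

namespace Pool.Agent.Helper8.LG

open scoped BigOperators

section

universe u

/-- an ultrapower of the field `L`, as a quotient of the ring of sequences -/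
theorem ul_exists (L : Type u) [Field L] : ∃ (Ω : Type u) (_ : Field Ω) (Q : (ℕ → L) →+* Ω),
    Function.Surjective Q ∧
      ∀ f, Q f = 0 ↔ ∀ᶠ m in (Filter.hyperfilter ℕ : Filter ℕ), f m = 0 := by
  refine ⟨(Filter.hyperfilter ℕ : Filter ℕ).Germ L, inferInstance,
    Filter.Germ.coeRingHom _, ?_, ?_⟩
  · intro x
    induction x using Filter.Germ.inductionOn with
    | _ f => exact ⟨f, rfl⟩
  · intro f
    exact Filter.Germ.coe_eq

variable {L : Type*} [Field L] {Ω : Type*} [Field Ω] (Q : (ℕ → L) →+* Ω)

theorem ul_eq (hker : ∀ f, Q f = 0 ↔ ∀ᶠ m in (Filter.hyperfilter ℕ : Filter ℕ), f m = 0)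
    (f g : ℕ → L) : Q f = Q g ↔ ∀ᶠ m in (Filter.hyperfilter ℕ : Filter ℕ), f m = g m := by
  rw [← sub_eq_zero, ← map_sub, hker]
  simp only [Pi.sub_apply, sub_eq_zero]

/-- the derivation of the ultrapower -/
noncomputable def ulDer (hQ : Function.Surjective Q)
    (hker : ∀ f, Q f = 0 ↔ ∀ᶠ m in (Filter.hyperfilter ℕ : Filter ℕ), f m = 0)
    (D : Derivation ℤ L L) : Derivation ℤ Ω Ω :=
  Derivation.mk' (AddMonoidHom.toIntLinearMap
    { toFun := fun z => Q fun m => D (Function.surjInv hQ z m)
      map_zero' := by
        rw [hker]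
        have h : Q (Function.surjInv hQ 0) = 0 := Function.surjInv_eq hQ 0
        rw [hker] at h
        filter_upwards [h] with m hm
        rw [hm, map_zero]
      map_add' := fun x y => by
        rw [← map_add, ul_eq Q hker]
        have h : Q (Function.surjInv hQ (x + y)) =
            Q (Function.surjInv hQ x + Function.surjInv hQ y) := by
          rw [map_add, Function.surjInv_eq hQ, Function.surjInv_eq hQ, Function.surjInv_eq hQ]
        rw [ul_eq Q hker] at h
        filter_upwards [h] with m hm
        rw [hm, Pi.add_apply, map_add, Pi.add_apply] })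
    (fun x y => by
      show Q (fun m => D (Function.surjInv hQ (x * y) m)) =
        x • Q (fun m => D (Function.surjInv hQ y m)) +
          y • Q (fun m => D (Function.surjInv hQ x m))
      have h : Q (Function.surjInv hQ (x * y)) =
          Q (Function.surjInv hQ x * Function.surjInv hQ y) := by
        rw [map_mul, Function.surjInv_eq hQ, Function.surjInv_eq hQ, Function.surjInv_eq hQ]
      rw [ul_eq Q hker] at h
      rw [smul_eq_mul, smul_eq_mul]
      nth_rewrite 2 [← Function.surjInv_eq hQ x]
      nth_rewrite 3 [← Function.surjInv_eq hQ y]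
      rw [← map_mul, ← map_mul, ← map_add, ul_eq Q hker]
      filter_upwards [h] with m hm
      rw [hm, Pi.mul_apply, D.leibniz]
      simp only [smul_eq_mul, Pi.add_apply, Pi.mul_apply])

theorem ulDer_apply (hQ : Function.Surjective Q)
    (hker : ∀ f, Q f = 0 ↔ ∀ᶠ m in (Filter.hyperfilter ℕ : Filter ℕ), f m = 0)
    (D : Derivation ℤ L L) (f : ℕ → L) :
    ulDer Q hQ hker D (Q f) = Q fun m => D (f m) := by
  show Q (fun m => D (Function.surjInv hQ (Q f) m)) = _
  rw [ul_eq Q hker]
  have h : Q (Function.surjInv hQ (Q f)) = Q f := Function.surjInv_eq hQ _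
  rw [ul_eq Q hker] at h
  filter_upwards [h] with m hm
  rw [hm]

/-- linear disjointness of the constants `L` and the `k`-valued germs -/
theorem ul_disj {k : Type*} [Field k] [Algebra k L]
    (hker : ∀ f, Q f = 0 ↔ ∀ᶠ m in (Filter.hyperfilter ℕ : Filter ℕ), f m = 0)
    (J : Set L) (hJ : LinearIndependent k (Subtype.val : J → L)) (T : Finset J) (g : J → ℕ → k)
    (h : ∑ b ∈ T, Q (fun _ => (b : L)) * Q (fun m => algebraMap k L (g b m)) = 0) :
    ∀ b ∈ T, Q (fun m => algebraMap k L (g b m)) = 0 := by
  have h1 : Q (fun m => ∑ b ∈ T, (b : L) * algebraMap k L (g b m)) = 0 := by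
    rw [← h]
    have h2 : (fun m => ∑ b ∈ T, (b : L) * algebraMap k L (g b m)) =
        ∑ b ∈ T, (fun _ => (b : L)) * (fun m => algebraMap k L (g b m)) := by
      ext m
      rw [Finset.sum_apply]
      rfl
    rw [h2, map_sum]
    exact Finset.sum_congr rfl fun b _ => map_mul Q _ _
  rw [hker] at h1
  intro b hb
  rw [hker]
  filter_upwards [h1] with m hm
  have h3 : ∑ b ∈ T, g b m • (b : L) = 0 := by
    rw [← hm]
    exact Finset.sum_congr rfl fun b _ => by rw [Algebra.smul_def, mul_comm]
  have h4 := linearIndependent_iff'.1 hJ T (fun b => g b m) h3 b hb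
  rw [h4, map_zero]

end

end Pool.Agent.Helper8.LG

end

section

/-! # LG-ULTRA: algebraic independence under linear disjointness -/

set_option autoImplicit false

namespace Pool.Agent.Helper8.LG

open scoped BigOperators

section

variable {k L Ω : Type*} [Field k] [Field L] [Field Ω] [Algebra k L] [Algebra L Ω] [Algebra k Ω]

/-- `L` and the ring `K` are linearly disjoint over `k` -/
def UlDisj (k : Type*) {L Ω : Type*} [Field k] [Field L] [Field Ω] [Algebra k L] [Algebra L Ω]
    (K : Subring Ω) : Prop :=
  ∀ (J : Set L), LinearIndependent k (Subtype.val : J → L) → ∀ (T : Finset J) (z : J → Ω),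
    (∀ b, z b ∈ K) → ∑ b ∈ T, algebraMap L Ω b * z b = 0 → ∀ b ∈ T, z b = 0

theorem ul_algInd [IsScalarTower k L Ω] (K : Subring Ω) (hkK : ∀ b : k, algebraMap k Ω b ∈ K)
    (hLD : UlDisj k (L := L) K) {β : Type*} (c : β → Ω) (hc : ∀ b, c b ∈ K)
    (hind : AlgebraicIndependent k c) : AlgebraicIndependent L c := by
  classical
  rw [algebraicIndependent_iff] at hind ⊢
  intro P hP
  set 𝔟 := Module.Basis.ofVectorSpace k L with h𝔟
  set T : Finset (Module.Basis.ofVectorSpaceIndex k L) :=
    P.support.biUnion fun m => (𝔟.repr (P.coeff m)).support with hT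
  set R : Module.Basis.ofVectorSpaceIndex k L → MvPolynomial β k := fun j =>
    ∑ m ∈ P.support, MvPolynomial.monomial m (𝔟.repr (P.coeff m) j) with hR
  have hcoef : ∀ m ∈ P.support, P.coeff m = ∑ j ∈ T, (𝔟.repr (P.coeff m) j) • (j : L) := by
    intro m hm
    conv_lhs => rw [← 𝔟.linearCombination_repr (P.coeff m)]
    rw [Finsupp.linearCombination_apply, Finsupp.sum_of_support_subset (s := T)]
    · exact Finset.sum_congr rfl fun j _ => by rw [h𝔟, Module.Basis.ofVectorSpace_apply_self]
    · exact Finset.subset_biUnion_of_mem (fun m => (𝔟.repr (P.coeff m)).support) hm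
    · intro i _
      exact zero_smul _ _
  have hzR : ∀ j, MvPolynomial.aeval c (R j) =
      ∑ m ∈ P.support, algebraMap k Ω (𝔟.repr (P.coeff m) j) * m.prod fun i e => c i ^ e := by
    intro j
    rw [hR, map_sum]
    exact Finset.sum_congr rfl fun m _ => MvPolynomial.aeval_monomial _ _ _
  have hK : ∀ j, MvPolynomial.aeval c (R j) ∈ K := by
    intro j
    rw [hzR]
    exact sum_mem fun m _ => mul_mem (hkK _) (prod_mem fun i _ => pow_mem (hc i) _)
  have hsum : ∑ j ∈ T, algebraMap L Ω j * MvPolynomial.aeval c (R j) = 0 := by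
    rw [← hP]
    conv_rhs => rw [P.as_sum, map_sum]
    simp only [hzR, Finset.mul_sum]
    rw [Finset.sum_comm]
    refine Finset.sum_congr rfl fun m hm => ?_
    rw [MvPolynomial.aeval_monomial]
    conv_rhs => rw [hcoef m hm]
    rw [map_sum, Finset.sum_mul]
    refine Finset.sum_congr rfl fun j _ => ?_
    rw [Algebra.smul_def, map_mul, ← IsScalarTower.algebraMap_apply k L Ω]
    ring
  have hz := hLD _ (Module.Basis.ofVectorSpaceIndex.linearIndependent k L) T
    (fun j => MvPolynomial.aeval c (R j)) hK hsum
  rw [← MvPolynomial.support_eq_empty, Finset.eq_empty_iff_forall_notMem]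
  intro m hm
  have h1 : P.coeff m = 0 := by
    rw [hcoef m hm]
    refine Finset.sum_eq_zero fun j hj => ?_
    have h2 := hind _ (hz j hj)
    have h3 : MvPolynomial.coeff m (R j) = 𝔟.repr (P.coeff m) j := by
      rw [hR]
      simp only [MvPolynomial.coeff_sum, MvPolynomial.coeff_monomial]
      rw [Finset.sum_ite_eq' P.support m, if_pos hm]
    rw [← h3, h2, MvPolynomial.coeff_zero, zero_smul]
  exact (MvPolynomial.mem_support_iff.1 hm) h1

theorem ul_basis {n : ℕ} (c : Fin n → Ω) : ∃ B : Set (Fin n),
    AlgebraicIndependent k (fun b : B => c b) ∧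
      ∀ r, IsAlgebraic (Algebra.adjoin k (c '' B)) (c r) := by
  have hfin : ({B : Set (Fin n) | AlgebraicIndepOn k c B}).Finite := Set.toFinite _
  have hne : ({B : Set (Fin n) | AlgebraicIndepOn k c B}).Nonempty := by
    refine ⟨∅, ?_⟩
    show AlgebraicIndependent k (fun b : (∅ : Set (Fin n)) => c b)
    rw [algebraicIndependent_empty_type_iff]
    exact (algebraMap k Ω).injective
  obtain ⟨B, hB⟩ := hfin.exists_maximal hne
  refine ⟨B, hB.1, fun r => ?_⟩
  by_cases hr : r ∈ B
  · exact isAlgebraic_algebraMap
      (⟨c r, Algebra.subset_adjoin ⟨r, hr, rfl⟩⟩ : Algebra.adjoin k (c '' B))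
  · by_contra h
    have h1 : AlgebraicIndepOn k c (insert r B) := (AlgebraicIndepOn.insert_iff hr).2 ⟨hB.1, h⟩
    exact hr (hB.2 h1 (Set.subset_insert r B) (Set.mem_insert r B))

end

end Pool.Agent.Helper8.LG

end
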