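import Pool.Agent.Helper74.MG.T08
import Pool.Agent.Helper74.MG.T09
import Pool.Agent.Helper74.MG.T11
import Pool.Agent.Helper74.MG.T12

section

/-! # LB-DP: preparation of the directions -/

set_option autoImplicit false

namespace Pool.Agent.Helper10.LB

open scoped BigOperators
open Polynomial Pool.Agent.Helper8.LG

private theorem dprep_inv {L : Type*} [Field L] (D : Derivation ℤ L L) (f : L) :
    D f⁻¹ = -(f⁻¹ ^ 2) * D f := by
  have h := Derivation.leibniz_inv D f
  rw [h, smul_eq_mul]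

private theorem dprep_stable {k L : Type*} [Field k] [Field L] [Algebra k L] {P T : Type*}
    [DecidableEq T] (y : T → L) (D : P → Derivation ℤ L L) (hy : Dirs k y D) (i : T) (p : P) :
    ∀ f ∈ others (k := k) y i, D p f ∈ others (k := k) y i := by
  intro f hf
  have hf' : f ∈ IntermediateField.adjoin k (y '' {i}ᶜ) := hf
  change D p f ∈ IntermediateField.adjoin k (y '' {i}ᶜ)
  induction hf' using IntermediateField.adjoin_induction with
  | mem x hx =>
    obtain ⟨j, _, rfl⟩ := hx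
    obtain ⟨n, hn⟩ := hy.int p j
    rw [hn]
    exact intCast_mem _ n
  | algebraMap c =>
    rw [hy.ker p c]
    exact zero_mem _
  | add x y hx hy hx' hy' =>
    rw [map_add]
    exact add_mem (hx' hx) (hy' hy)
  | inv x hx hx' =>
    rw [dprep_inv]
    exact mul_mem (neg_mem (pow_mem (inv_mem hx) 2)) (hx' hx)
  | mul x y hx hy hx' hy' =>
    rw [Derivation.leibniz, smul_eq_mul, smul_eq_mul]
    exact add_mem (mul_mem hx (hy' hy)) (mul_mem hy (hx' hx))

/-- both charts at once: `t` is transcendental and `L` is finite over `others(t)` -/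
private theorem dprep_chart {k L : Type*} [Field k] [Field L] [Algebra k L] {P T : Type*}
    [DecidableEq T] (y : T → L) (D : P → Derivation ℤ L L) (hy : Dirs k y D) (i : T) (t : L)
    (ht : t = y i ∨ t = (y i)⁻¹) :
    Transcendental (others (k := k) y i) t ∧
      FiniteDimensional (Subfield.closure ((others (k := k) y i : Set L) ∪ {t})) L := by
  rcases ht with rfl | rfl
  · exact ⟨(others_transcendental (k := k) y hy.ind i).1, (others_finite (k := k) y hy.fin i).1⟩
  · exact ⟨(others_transcendental (k := k) y hy.ind i).2, (others_finite (k := k) y hy.fin i).2⟩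

/-- one `Δ` for a direction `t = y_i` or `t = 1 / y_i` -/
theorem dir_prep {k L : Type*} [Field k] [Field L] [CharZero L] [Algebra k L] {P T : Type*}
    [Finite P] [Finite T] [DecidableEq T] (y : T → L) (D : P → Derivation ℤ L L)
    (hy : Dirs k y D) (V : Submodule k L) [FiniteDimensional k V] (S : Set L) (hS : S.Finite)
    (i : T) (t : L) (ht : t = y i ∨ t = (y i)⁻¹) :
    ∃ Δ : L, Δ ≠ 0 ∧ Δ ∈ intCl (others (k := k) y i) t ∧
      ∀ O : ValuationSubring L, intCl (others (k := k) y i) t ≤ O.toSubring →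
        Bdd D Δ O ∧ (∀ f ∈ V, Δ * f ∈ O) ∧ ∀ f ∈ S, Δ * f ∈ O := by
  classical
  obtain ⟨htr, hfin⟩ := dprep_chart y D hy i t ht
  obtain ⟨B, hB⟩ := (Submodule.fg_iff_finiteDimensional V).2 inferInstance
  have hDt : ∀ p, D p t ∈ Subring.closure ((others (k := k) y i : Set L) ∪ {t}) := by
    intro p
    obtain ⟨n, hn⟩ := hy.int p i
    rcases ht with rfl | rfl
    · rw [hn]
      exact intCast_mem _ n
    · have h1 : (y i)⁻¹ ∈ Subring.closure ((others (k := k) y i : Set L) ∪ {(y i)⁻¹}) :=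
        Subring.subset_closure (Or.inr rfl)
      rw [dprep_inv, hn]
      exact mul_mem (neg_mem (pow_mem h1 2)) (intCast_mem _ n)
  obtain ⟨Δ, hΔ, hΔ0, hΔD, hΔS⟩ := exists_bound (others (k := k) y i) t htr hfin D
    (fun p => dprep_stable y D hy i p) hDt ((B : Set L) ∪ S) (B.finite_toSet.union hS)
  have hcl : Subring.closure ((others (k := k) y i : Set L) ∪ {t}) ≤
      intCl (others (k := k) y i) t := by
    intro f hf
    exact isIntegral_algebraMap
      (R := Subring.closure ((others (k := k) y i : Set L) ∪ {t})) (x := ⟨f, hf⟩)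
  have hk : ∀ c : k, algebraMap k L c ∈ intCl (others (k := k) y i) t := by
    intro c
    refine hcl (Subring.subset_closure (Or.inl ?_))
    exact IntermediateField.algebraMap_mem (IntermediateField.adjoin k (y '' {i}ᶜ)) c
  obtain ⟨hded, hfr⟩ := intCl_dedekind (others (k := k) y i) t htr hfin
  refine ⟨Δ, hΔ0, hcl hΔ, ?_⟩
  intro O hO
  have := hded
  have := hfr
  refine ⟨bdd_of (intCl (others (k := k) y i) t) D Δ (hcl hΔ) hΔD O hO, ?_, ?_⟩
  · intro f hf
    rw [← hB] at hf
    induction hf using Submodule.span_induction with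
    | mem x hx => exact hO (hΔS x (Or.inl hx))
    | zero =>
      rw [mul_zero]
      exact O.zero_mem
    | add x y _ _ hx hy =>
      rw [mul_add]
      exact O.add_mem _ _ hx hy
    | smul c x _ hx =>
      rw [Algebra.smul_def, mul_left_comm]
      exact O.mul_mem _ _ (hO (hk c)) hx
  · intro f hf
    exact hO (hΔS f (Or.inr hf))

/-- an element with bounded poles in all directions lies in a finite-dimensional space -/
theorem fd_of_dirs {k L : Type*} [Field k] [Field L] [CharZero L] [Algebra k L] {P T : Type*}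
    [Finite P] [Finite T] [DecidableEq T] (y : T → L) (D : P → Derivation ℤ L L)
    (hy : Dirs k y D) (Δ : T → Bool → L) (h0 : ∀ i b, Δ i b ≠ 0) :
    ∃ V : Submodule k L, FiniteDimensional k V ∧ ∀ g : L,
      (∀ i b, ∀ O : ValuationSubring L,
        intCl (others (k := k) y i) (if b then y i else (y i)⁻¹) ≤ O.toSubring →
          Δ i b * g ∈ O) → g ∈ V := by
  obtain ⟨V, hV, h⟩ := fd y hy.ind hy.fin (fun i => Δ i true) (fun i => Δ i false)
    (fun i => h0 i true) (fun i => h0 i false)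
  refine ⟨V, hV, ?_⟩
  intro g hg
  apply h
  intro i
  constructor
  · obtain ⟨htr, hfin⟩ := dprep_chart y D hy i (y i) (Or.inl rfl)
    obtain ⟨hded, hfr⟩ := intCl_dedekind (others (k := k) y i) (y i) htr hfin
    have := hded
    have := hfr
    exact mem_of _ _ (fun O hO => hg i true O hO)
  · obtain ⟨htr, hfin⟩ := dprep_chart y D hy i (y i)⁻¹ (Or.inr rfl)
    obtain ⟨hded, hfr⟩ := intCl_dedekind (others (k := k) y i) (y i)⁻¹ htr hfin
    have := hded
    have := hfr
    exact mem_of _ _ (fun O hO => hg i false O hO)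

end Pool.Agent.Helper10.LB

end

section

/-! # LB-RT: roots of bounded polynomials; equations of higher degree -/

set_option autoImplicit false

namespace Pool.Agent.Helper10.LB

open scoped BigOperators
open Polynomial Pool.Agent.Helper8.LG

theorem tail_bound {k L : Type*} [Field k] [Field L] [CharZero L] [Algebra k L] {P T : Type*}
    [Finite P] [Finite T] [DecidableEq T] (y : T → L) (D : P → Derivation ℤ L L)
    (hy : Dirs k y D) (V : Submodule k L) [FiniteDimensional k V] :
    ∃ V' : Submodule k L, FiniteDimensional k V' ∧ ∀ (p : P) (z e : L) (q : L[X]),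
      e ∈ V → e ≠ 0 → (∀ n, e * q.coeff n ∈ V) → 3 ≤ q.natDegree → D p z = q.eval z →
      e * q.leadingCoeff ∈ V' ∧ e * (q.leadingCoeff * z) ∈ V' := by
  have hprep : ∀ (i : T) (b : Bool), ∃ Δ : L, Δ ≠ 0 ∧
      Δ ∈ intCl (others (k := k) y i) (if b then y i else (y i)⁻¹) ∧
      ∀ O : ValuationSubring L,
        intCl (others (k := k) y i) (if b then y i else (y i)⁻¹) ≤ O.toSubring →
        Bdd D Δ O ∧ (∀ f ∈ V, Δ * f ∈ O) ∧ ∀ f ∈ (∅ : Set L), Δ * f ∈ O := by
    intro i b
    refine dir_prep y D hy V ∅ Set.finite_empty i _ ?_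
    cases b
    · right; simp
    · left; simp
  choose Δ h0 _ hΔ using hprep
  obtain ⟨V', hV', hfd⟩ := fd_of_dirs y D hy (fun i b => Δ i b ^ 2)
    (fun i b => pow_ne_zero 2 (h0 i b))
  refine ⟨V', hV', fun p z e q heV _ hq hdeg hz => ?_⟩
  have key : ∀ (i : T) (b : Bool) (O : ValuationSubring L),
      intCl (others (k := k) y i) (if b then y i else (y i)⁻¹) ≤ O.toSubring →
      Δ i b ^ 2 * e * q.leadingCoeff ∈ O ∧ Δ i b ^ 2 * e * (q.leadingCoeff * z) ∈ O := by
    intro i b O hO
    obtain ⟨⟨hb1, hb2⟩, hV, -⟩ := hΔ i b O hO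
    have he : Δ i b * e ∈ O := hV e heV
    refine tail_key O (D p) (Δ i b ^ 2 * e) ?_ ?_ q hdeg ?_ z hz
    · have h := O.mul_mem _ _ hb1 he
      have e1 : Δ i b ^ 2 * e = Δ i b * (Δ i b * e) := by ring
      rw [e1]; exact h
    · intro f hf
      have h := O.mul_mem _ _ he (hb2 p f hf)
      have e1 : Δ i b ^ 2 * e * D p f = Δ i b * e * (Δ i b * D p f) := by ring
      rw [e1]; exact h
    · intro n
      have h := O.mul_mem _ _ hb1 (hV _ (hq n))
      have e1 : Δ i b ^ 2 * e * q.coeff n = Δ i b * (Δ i b * (e * q.coeff n)) := by ring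
      rw [e1]; exact h
  constructor
  · refine hfd _ fun i b O hO => ?_
    have h := (key i b O hO).1
    rwa [mul_assoc] at h
  · refine hfd _ fun i b O hO => ?_
    have h := (key i b O hO).2
    rwa [mul_assoc] at h

theorem root_bound {k L : Type*} [Field k] [Field L] [CharZero L] [Algebra k L] {P T : Type*}
    [Finite P] [Finite T] [DecidableEq T] (y : T → L) (D : P → Derivation ℤ L L)
    (hy : Dirs k y D) (V : Submodule k L) [FiniteDimensional k V] :
    ∃ V' : Submodule k L, FiniteDimensional k V' ∧ ∀ (z : L) (g : L[X]), g ≠ 0 →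
      (∀ n, g.coeff n ∈ V) → g.eval z = 0 → g.leadingCoeff * z ∈ V' := by
  have hprep : ∀ (i : T) (b : Bool), ∃ Δ : L, Δ ≠ 0 ∧
      Δ ∈ intCl (others (k := k) y i) (if b then y i else (y i)⁻¹) ∧
      ∀ O : ValuationSubring L,
        intCl (others (k := k) y i) (if b then y i else (y i)⁻¹) ≤ O.toSubring →
        Bdd D Δ O ∧ (∀ f ∈ V, Δ * f ∈ O) ∧ ∀ f ∈ (∅ : Set L), Δ * f ∈ O := by
    intro i b
    refine dir_prep y D hy V ∅ Set.finite_empty i _ ?_
    cases b
    · right; simp
    · left; simp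
  choose Δ h0 _ hΔ using hprep
  obtain ⟨V', hV', hfd⟩ := fd_of_dirs y D hy Δ h0
  refine ⟨V', hV', fun z g hg hc hz => hfd _ fun i b O hO => ?_⟩
  obtain ⟨-, hV, -⟩ := hΔ i b O hO
  exact root_key O (Δ i b) g hg (fun n => hV _ (hc n)) z hz

end Pool.Agent.Helper10.LB

end

section

/-! # LB-MB: the Mason bound in all directions -/

set_option autoImplicit false

namespace Pool.Agent.Helper10.LB

open scoped BigOperators
open Polynomial Pool.Agent.Helper8.LG

section MBAux

/-- one of two integral elements with sum one is a unit -/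
theorem mb_unit_of_add {E : Type*} [Field E] (O : ValuationSubring E) {a b : E}
    (hab : a + b = 1) : (a ≠ 0 ∧ a⁻¹ ∈ O) ∨ (b ≠ 0 ∧ b⁻¹ ∈ O) := by
  by_cases h0 : a = 0
  · right
    rw [h0, zero_add] at hab
    rw [hab]
    exact ⟨one_ne_zero, by rw [inv_one]; exact O.one_mem⟩
  by_cases h1 : b = 0
  · left
    rw [h1, add_zero] at hab
    rw [hab]
    exact ⟨one_ne_zero, by rw [inv_one]; exact O.one_mem⟩
  rcases O.mem_or_inv_mem (a / b) with h | h
  · right
    refine ⟨h1, ?_⟩
    have h2 : b⁻¹ = a / b + 1 := by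
      field_simp
      exact hab.symm
    rw [h2]
    exact O.add_mem _ _ h O.one_mem
  · left
    rw [inv_div] at h
    refine ⟨h0, ?_⟩
    have h2 : a⁻¹ = 1 + b / a := by
      field_simp
      exact hab.symm
    rw [h2]
    exact O.add_mem _ _ O.one_mem h

theorem mb_prim {E σ : Type*} [Field E] (O : ValuationSubring E) (y : σ → E) (b b' : σ)
    {α β : E} (hα : α ∈ O) (hβ : β ∈ O) (h : y b * α + y b' * β = 1) :
    ∃ j, y j ≠ 0 ∧ (y j)⁻¹ ∈ O := by
  rcases mb_unit_of_add O h with ⟨h1, h2⟩ | ⟨h1, h2⟩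
  · refine ⟨b, left_ne_zero_of_mul h1, ?_⟩
    have h3 := O.mul_mem _ _ hα h2
    have h4 : α * (y b * α)⁻¹ = (y b)⁻¹ := by
      have := left_ne_zero_of_mul h1
      have := right_ne_zero_of_mul h1
      field_simp
    rwa [h4] at h3
  · refine ⟨b', left_ne_zero_of_mul h1, ?_⟩
    have h3 := O.mul_mem _ _ hβ h2
    have h4 : β * (y b' * β)⁻¹ = (y b')⁻¹ := by
      have := left_ne_zero_of_mul h1
      have := right_ne_zero_of_mul h1
      field_simp
    rwa [h4] at h3

theorem mb_mon_smul {E σ : Type*} [Field E] {n : ℕ} (c : E) (x : σ → E) (J : Sym σ n) :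
    mon (fun l => c * x l) J = c ^ n * mon x J := by
  unfold mon
  rw [Multiset.prod_map_mul, Multiset.map_const', Multiset.prod_replicate, Sym.card_coe]

theorem mb_form_smul {E σ : Type*} [Field E] [Fintype σ] [DecidableEq σ] {n : ℕ}
    (a : Sym σ n → E) (c : E) (x : σ → E) :
    form a (fun l => c * x l) = c ^ n * form a x := by
  unfold form
  rw [Finset.mul_sum]
  refine Finset.sum_congr rfl fun J _ => ?_
  rw [mb_mon_smul]
  ring

/-- the values of the forms at primitive coordinates are units -/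
theorem mb_units {E σ ι : Type*} [Field E] [Fintype σ] [DecidableEq σ]
    {d : ι → ℕ} (a : (i : ι) → Sym σ (d i) → E) (Z : Finset ι) (A : Subring E) (x : σ → E)
    (hP : Pt a Z A x) (O : ValuationSubring E) (hA : A ≤ O.toSubring)
    (ha : ∀ i J, a i J ∈ O) (y : σ → E) (hy : ∀ l, y l ∈ O) (c : E) (hc : c ≠ 0)
    (hx : ∀ l, x l = c * y l) (j : σ) (hj : y j ≠ 0) (hj' : (y j)⁻¹ ∈ O) (i : ι) (hi : i ∉ Z) :
    form (a i) y ≠ 0 ∧ form (a i) y ∈ O ∧ (form (a i) y)⁻¹ ∈ O := by
  have hxy : x = fun l => c * y l := funext hx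
  have h0 : form (a i) x = c ^ d i * form (a i) y := by rw [hxy, mb_form_smul]
  have hne : form (a i) y ≠ 0 := by
    intro h1
    apply hP.ne i hi
    rw [h0, h1, mul_zero]
  have hcd : c ^ d i ≠ 0 := pow_ne_zero _ hc
  refine ⟨hne, ?_, ?_⟩
  · have h1 := dirOne_form_mem O 1 (a i) (fun J => by rw [one_mul]; exact ha i J) _ hy
    rwa [one_mul] at h1
  · have h1 := dirOne_int_mem O A hA (hP.int i hi (Sym.replicate (d i) j))
    rw [dirOne_mon_replicate, h0, hx j, mul_pow, mul_div_mul_left _ _ hcd] at h1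
    have h2 : (form (a i) y)⁻¹ = (y j)⁻¹ ^ d i * (y j ^ d i / form (a i) y) := by
      rw [inv_pow]
      have := pow_ne_zero (d i) hj
      field_simp
    rw [h2]
    exact O.mul_mem _ _ (pow_mem hj' _) h1

theorem mb_prod {E ι : Type*} [Field E] (O : ValuationSubring E) (s : Finset ι) (f : ι → E)
    (h : ∀ i ∈ s, f i ≠ 0 ∧ f i ∈ O ∧ (f i)⁻¹ ∈ O) :
    ∏ i ∈ s, f i ≠ 0 ∧ ∏ i ∈ s, f i ∈ O ∧ (∏ i ∈ s, f i)⁻¹ ∈ O := by
  refine ⟨Finset.prod_ne_zero_iff.2 fun i hi => (h i hi).1, prod_mem fun i hi => (h i hi).2.1, ?_⟩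
  rw [← Finset.prod_inv_distrib]
  exact prod_mem fun i hi => (h i hi).2.2

/-- the logarithmic derivative of a unit -/
theorem mb_log {E : Type*} [Field E] (O : ValuationSubring E) (D : Derivation ℤ E E) (D₂ : E)
    (hD : ∀ f ∈ O, D₂ * D f ∈ O) (g w : E) (hg : g ∈ O) (hw : w ∈ O)
    (h0 : g * w ≠ 0) (h1 : (g * w)⁻¹ ∈ O) : D₂ * (D g / g) ∈ O := by
  have hg0 := left_ne_zero_of_mul h0
  have hw0 := right_ne_zero_of_mul h0
  have h2 : D₂ * (D g / g) = D₂ * D g * (w * (g * w)⁻¹) := by
    field_simp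
  rw [h2]
  exact O.mul_mem _ _ (hD g hg) (O.mul_mem _ _ hw h1)

theorem mb_key {k L P σ ι : Type*} [Field k] [Field L] [CharZero L] [Algebra k L]
    [Fintype σ] [DecidableEq σ] [Fintype ι] [DecidableEq ι] {d : ι → ℕ}
    (a : (i : ι) → Sym σ (d i) → L) (Z : Finset ι) (A : Subalgebra k L) (gens : Set L)
    (hgens : Algebra.adjoin k gens = A) (D : P → Derivation ℤ L L) (V : Submodule k L)
    (R : Subring L) [IsDedekindDomain R] [IsFractionRing R L]
    (hkR : ∀ c : k, algebraMap k L c ∈ R) (O : ValuationSubring L) (hO : R ≤ O.toSubring)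
    (Δ : L) (hΔ0 : Δ ≠ 0) (hb : Bdd D Δ O) (hV : ∀ f ∈ V, Δ * f ∈ O)
    (haS : ∀ i J, Δ * a i J ∈ O) (hgS : ∀ f ∈ gens, Δ * f ∈ O)
    (p : P) (x u v : σ → L) (lam z e : L) (h w q s α β α' β' : L[X])
    (hM : MData a Z V (D p) x u v lam z e h w q s α β α' β') (hP : Pt a Z A.toSubring x) :
    Δ ^ 6 * (e ^ 2 * ((D p z - q.eval z) / h.eval z)) ∈ O ∧
      Δ ^ 6 * (e ^ 2 * ((D p z - q.eval z) / h.eval z * z)) ∈ O := by
  have hΔO : Δ ∈ O := hb.1
  have he0 := hM.e0
  have hlam0 := hM.lam0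
  obtain ⟨D₁, hD₁⟩ : ∃ D₁ : L, D₁ = Δ ^ 2 * e := ⟨_, rfl⟩
  have hD₁0 : D₁ ≠ 0 := by
    rw [hD₁]; exact mul_ne_zero (pow_ne_zero _ hΔ0) he0
  have hD₁O : D₁ ∈ O := by
    rw [hD₁, pow_two, mul_assoc]
    exact O.mul_mem _ _ hΔO (hV e hM.eV)
  have hdat : ∀ f, e * f ∈ V → D₁ * f ∈ O := by
    intro f hf
    have h1 : D₁ * f = Δ * (Δ * (e * f)) := by rw [hD₁]; ring
    rw [h1]
    exact O.mul_mem _ _ hΔO (hV _ hf)
  obtain ⟨D₂, hD₂⟩ : ∃ D₂ : L, D₂ = Δ * D₁ := ⟨_, rfl⟩
  have hD₂O : D₂ ∈ O := by rw [hD₂]; exact O.mul_mem _ _ hΔO hD₁O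
  have hD₂D : ∀ p, ∀ f ∈ O, D₂ * D p f ∈ O := by
    intro p f hf
    have h1 : D₂ * D p f = D₁ * (Δ * D p f) := by rw [hD₂]; ring
    rw [h1]
    exact O.mul_mem _ _ hD₁O (hb.2 p f hf)
  have hdat2 : ∀ f, e * f ∈ V → D₂ * f ∈ O := by
    intro f hf
    rw [hD₂, mul_assoc]
    exact O.mul_mem _ _ hΔO (hdat f hf)
  -- the degrees
  have hlfne : ∀ i ∈ Zᶜ, lf (a i) u v ≠ 0 := by
    intro i hi h0
    have h1 := lf_coeff_top (a i) u v
    rw [h0, coeff_zero] at h1
    exact (hM.top i (Finset.mem_compl.1 hi)).1 h1.symm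
  have hlfdeg : ∀ i ∈ Zᶜ, (lf (a i) u v).natDegree = d i := by
    intro i hi
    refine le_antisymm (lf_natDegree_le _ _ _) (le_natDegree_of_ne_zero ?_)
    rw [lf_coeff_top]
    exact (hM.top i (Finset.mem_compl.1 hi)).1
  have hprodne : ∏ i ∈ Zᶜ, lf (a i) u v ≠ 0 := Finset.prod_ne_zero_iff.2 hlfne
  have hh0 : h ≠ 0 := hM.mon.ne_zero
  have hw0 : w ≠ 0 := by
    intro h0
    apply hprodne
    rw [← hM.hw, h0, mul_zero]
  have hdeg : h.natDegree + w.natDegree = ∑ i ∈ Zᶜ, d i := by
    rw [← natDegree_mul hh0 hw0, hM.hw, natDegree_prod _ _ hlfne]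
    exact Finset.sum_congr rfl hlfdeg
  have hxy : ∀ l, x l = lam * (u l + z * v l) := hM.hx
  have hevprod : h.eval z * w.eval z = ∏ i ∈ Zᶜ, form (a i) (fun l => u l + z * v l) := by
    rw [← eval_mul, hM.hw, eval_prod]
    exact Finset.prod_congr rfl fun i _ => lf_eval _ _ _ _
  have hformne : ∀ i ∈ Zᶜ, form (a i) (fun l => u l + z * v l) ≠ 0 := by
    intro i hi h0
    apply hP.ne i (Finset.mem_compl.1 hi)
    rw [show x = fun l => lam * (u l + z * v l) from funext hxy, mb_form_smul, h0, mul_zero]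
  have hhw0 : h.eval z * w.eval z ≠ 0 := by
    rw [hevprod]
    exact Finset.prod_ne_zero_iff.2 hformne
  have hhz : h.eval z ≠ 0 := left_ne_zero_of_mul hhw0
  -- the reversed polynomials
  have hrev : ∀ g : L[X], z ≠ 0 → g.reverse.eval z⁻¹ = z⁻¹ ^ g.natDegree * g.eval z := by
    intro g hz
    exact Pool.Agent.Helper74.LG.eval_reflect (inv_mul_cancel₀ hz) _ g le_rfl
  have hrev0 : z = 0 → h.reverse.eval z⁻¹ = 1 := by
    intro hz
    rw [hz, inv_zero, ← coeff_zero_eq_eval_zero, coeff_zero_reverse]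
    exact hM.mon
  -- the logarithmic derivatives
  have hlogs : (z ∈ O → D₂ * (D p (h.eval z) / h.eval z) ∈ O) ∧
      (z⁻¹ ∈ O → D₂ * (D p (h.reverse.eval z⁻¹) / h.reverse.eval z⁻¹) ∈ O) := by
    by_cases hinv : D₁⁻¹ ∈ O
    · -- good valuation rings
      have hmem : ∀ f, D₁ * f ∈ O → f ∈ O := by
        intro f hf
        have h1 := O.mul_mem _ _ hinv hf
        rwa [← mul_assoc, inv_mul_cancel₀ hD₁0, one_mul] at h1
      have hΔinv : Δ⁻¹ ∈ O := by
        have h1 := O.mul_mem _ _ hinv (hV e hM.eV)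
        have h2 : D₁⁻¹ * (Δ * e) = Δ⁻¹ := by
          rw [hD₁]; field_simp
        rwa [h2] at h1
      have hΔmem : ∀ f, Δ * f ∈ O → f ∈ O := by
        intro f hf
        have h1 := O.mul_mem _ _ hΔinv hf
        rwa [← mul_assoc, inv_mul_cancel₀ hΔ0, one_mul] at h1
      have haO : ∀ i J, a i J ∈ O := fun i J => hΔmem _ (haS i J)
      have hAO : A.toSubring ≤ O.toSubring := by
        intro f hf
        have hf' : f ∈ Algebra.adjoin k gens := by rw [hgens]; exact hf
        refine Algebra.adjoin_induction (p := fun f _ => f ∈ O.toSubring) ?_ ?_ ?_ ?_ hf'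
        · intro g hg
          exact hΔmem g (hgS g hg)
        · intro c
          exact hO (hkR c)
        · intro f g _ _ h1 h2
          exact O.toSubring.add_mem h1 h2
        · intro f g _ _ h1 h2
          exact O.toSubring.mul_mem h1 h2
      have hu : ∀ l, u l ∈ O := fun l => hmem _ (hdat _ (hM.uV l))
      have hv : ∀ l, v l ∈ O := fun l => hmem _ (hdat _ (hM.vV l))
      have hco : ∀ n, h.coeff n ∈ O ∧ w.coeff n ∈ O := fun n =>
        ⟨hmem _ (hdat _ (hM.bd n).1), hmem _ (hdat _ (hM.bd n).2.1)⟩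
      obtain ⟨b, b', hπ0, hπV⟩ := hM.pi
      have hπ : (u b * v b' - u b' * v b)⁻¹ ∈ O := hmem _ (hdat _ hπV)
      refine ⟨fun hz => ?_, fun hz => ?_⟩
      · obtain ⟨j, hj, hj'⟩ := mb_prim O (fun l => u l + z * v l) b b'
          (α := v b' * (u b * v b' - u b' * v b)⁻¹)
          (β := -(v b) * (u b * v b' - u b' * v b)⁻¹)
          (O.mul_mem _ _ (hv _) hπ) (O.mul_mem _ _ (O.neg_mem _ (hv _)) hπ) (by
            have h3 : (u b + z * v b) * (v b' * (u b * v b' - u b' * v b)⁻¹) +
                (u b' + z * v b') * (-(v b) * (u b * v b' - u b' * v b)⁻¹) =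
                (u b * v b' - u b' * v b) * (u b * v b' - u b' * v b)⁻¹ := by ring
            rw [h3, mul_inv_cancel₀ hπ0])
        have hyO : ∀ l, (fun l => u l + z * v l) l ∈ O := fun l =>
          O.add_mem _ _ (hu l) (O.mul_mem _ _ hz (hv l))
        have h4 := mb_prod O Zᶜ (fun i => form (a i) (fun l => u l + z * v l)) (fun i hi =>
          mb_units a Z A.toSubring x hP O hAO haO _ hyO lam hlam0 hxy j hj hj' i
            (Finset.mem_compl.1 hi))
        rw [← hevprod] at h4
        have h5 := Pool.Agent.Helper74.LG.eval_mem O 1 h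
          (fun n => by rw [one_mul]; exact (hco n).1) z hz
        have h6 := Pool.Agent.Helper74.LG.eval_mem O 1 w
          (fun n => by rw [one_mul]; exact (hco n).2) z hz
        rw [one_mul] at h5 h6
        exact mb_log O (D p) D₂ (hD₂D p) _ _ h5 h6 h4.1 h4.2.2
      · by_cases hz0 : z = 0
        · rw [hrev0 hz0, Derivation.map_one_eq_zero, zero_div, mul_zero]
          exact O.zero_mem
        obtain ⟨j, hj, hj'⟩ := mb_prim O (fun l => z⁻¹ * u l + v l) b b'
          (α := -(u b') * (u b * v b' - u b' * v b)⁻¹)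
          (β := u b * (u b * v b' - u b' * v b)⁻¹)
          (O.mul_mem _ _ (O.neg_mem _ (hu _)) hπ) (O.mul_mem _ _ (hu _) hπ) (by
            have h3 : (z⁻¹ * u b + v b) * (-(u b') * (u b * v b' - u b' * v b)⁻¹) +
                (z⁻¹ * u b' + v b') * (u b * (u b * v b' - u b' * v b)⁻¹) =
                (u b * v b' - u b' * v b) * (u b * v b' - u b' * v b)⁻¹ := by ring
            rw [h3, mul_inv_cancel₀ hπ0])
        have hyO : ∀ l, (fun l => z⁻¹ * u l + v l) l ∈ O := fun l =>
          O.add_mem _ _ (O.mul_mem _ _ hz (hu l)) (hv l)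
        have hzy : ∀ l, u l + z * v l = z * (z⁻¹ * u l + v l) := by
          intro l
          field_simp
        have h4 := mb_prod O Zᶜ (fun i => form (a i) (fun l => z⁻¹ * u l + v l)) (fun i hi =>
          mb_units a Z A.toSubring x hP O hAO haO _ hyO (lam * z) (mul_ne_zero hlam0 hz0)
            (fun l => by rw [hxy, hzy, mul_assoc]) j hj hj' i (Finset.mem_compl.1 hi))
        have h7 : h.reverse.eval z⁻¹ * w.reverse.eval z⁻¹ =
            ∏ i ∈ Zᶜ, form (a i) (fun l => z⁻¹ * u l + v l) := by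
          rw [hrev h hz0, hrev w hz0]
          have h8 : ∏ i ∈ Zᶜ, form (a i) (fun l => u l + z * v l) =
              z ^ (∑ i ∈ Zᶜ, d i) * ∏ i ∈ Zᶜ, form (a i) (fun l => z⁻¹ * u l + v l) := by
            rw [← Finset.prod_pow_eq_pow_sum, ← Finset.prod_mul_distrib]
            refine Finset.prod_congr rfl fun i _ => ?_
            rw [← mb_form_smul]
            congr 1
            funext l
            exact hzy l
          have h9 : z⁻¹ ^ h.natDegree * h.eval z * (z⁻¹ ^ w.natDegree * w.eval z) =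
              z⁻¹ ^ (h.natDegree + w.natDegree) * (h.eval z * w.eval z) := by
            rw [pow_add]; ring
          rw [h9, hevprod, h8, hdeg, ← mul_assoc, ← mul_pow, inv_mul_cancel₀ hz0, one_pow,
            one_mul]
        rw [← h7] at h4
        have h5 := Pool.Agent.Helper74.LG.eval_mem O 1 h.reverse
          (fun n => by rw [one_mul, coeff_reverse]; exact (hco _).1) z⁻¹ hz
        have h6 := Pool.Agent.Helper74.LG.eval_mem O 1 w.reverse
          (fun n => by rw [one_mul, coeff_reverse]; exact (hco _).2) z⁻¹ hz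
        rw [one_mul] at h5 h6
        exact mb_log O (D p) D₂ (hD₂D p) _ _ h5 h6 h4.1 h4.2.2
    · -- bad valuation rings
      have hQ : ∀ n : ℕ, n ≠ 0 → ((n : L))⁻¹ ∈ R := by
        intro n _
        have h1 := hkR ((n : k)⁻¹)
        rwa [map_inv₀, map_natCast] at h1
      have hbig : ∀ g : L, g ≠ 0 → D₂ * (D p g / g) ∈ O := by
        intro g hg
        refine log_of R hQ D O hO D₂ ⟨hD₂O, hD₂D⟩ D₁ hD₁0 (Or.inr hinv) (fun q => ?_) g hg p
        have h1 : D₂ * (D q D₁ / D₁) = Δ * D q D₁ := by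
          rw [hD₂]; field_simp
        rw [h1]
        exact hb.2 q _ hD₁O
      refine ⟨fun _ => hbig _ hhz, fun _ => hbig _ ?_⟩
      by_cases hz0 : z = 0
      · rw [hrev0 hz0]
        exact one_ne_zero
      · rw [hrev h hz0]
        exact mul_ne_zero (pow_ne_zero _ (inv_ne_zero hz0)) hhz
  have hfin := mason_key O (D p) D₂ hD₂O (hD₂D p) h q s α β α' β' hM.mon hM.deg hM.hq hM.hs
    hM.h1 hM.h2 (fun n => ⟨hdat2 _ (hM.bd n).2.2.1, hdat2 _ (hM.bd n).2.2.2.1,
      hdat2 _ (hM.bd n).2.2.2.2.1, hdat2 _ (hM.bd n).2.2.2.2.2.1,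
      hdat2 _ (hM.bd n).2.2.2.2.2.2.1, hdat2 _ (hM.bd n).2.2.2.2.2.2.2⟩) z hhz
    hlogs.1 hlogs.2
  have hpow : D₂ ^ 2 = Δ ^ 6 * e ^ 2 := by rw [hD₂, hD₁]; ring
  rw [hpow, mul_assoc, mul_assoc (Δ ^ 6)] at hfin
  exact hfin

end MBAux

theorem mason_bound {k L : Type*} [Field k] [Field L] [CharZero L] [Algebra k L] {P T : Type*}
    [Finite P] [Finite T] [DecidableEq T] (y : T → L) (D : P → Derivation ℤ L L)
    (hy : Dirs k y D) {σ ι : Type*} [Fintype σ] [DecidableEq σ] [Fintype ι] [DecidableEq ι]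
    {d : ι → ℕ} (a : (i : ι) → Sym σ (d i) → L) (Z : Finset ι) (A : Subalgebra k L) (hA : A.FG)
    (V : Submodule k L) [FiniteDimensional k V] :
    ∃ V' : Submodule k L, FiniteDimensional k V' ∧
      ∀ (p : P) (x u v : σ → L) (lam z e : L) (h w q s α β α' β' : L[X]),
        MData a Z V (D p) x u v lam z e h w q s α β α' β' → Pt a Z A.toSubring x →
        e ^ 2 * ((D p z - q.eval z) / h.eval z) ∈ V' ∧
          e ^ 2 * ((D p z - q.eval z) / h.eval z * z) ∈ V' := by
  obtain ⟨gens, hgens⟩ := hA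
  obtain ⟨S, hS⟩ : ∃ S : Set L, S = (Set.range fun q : Ix σ d => a q.1 q.2) ∪ (gens : Set L) :=
    ⟨_, rfl⟩
  have hSfin : S.Finite := by
    rw [hS]
    exact (Set.finite_range _).union gens.finite_toSet
  have ht : ∀ (i : T) (b : Bool), (if b then y i else (y i)⁻¹) = y i ∨
      (if b then y i else (y i)⁻¹) = (y i)⁻¹ := by
    intro i b
    cases b
    · right; rfl
    · left; rfl
  choose Δ hΔ0 _ hΔ using fun (i : T) (b : Bool) =>
    dir_prep (k := k) y D hy V S hSfin i _ (ht i b)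
  obtain ⟨V', hV', hmem⟩ := fd_of_dirs (k := k) y D hy (fun i b => Δ i b ^ 6)
    (fun i b => pow_ne_zero _ (hΔ0 i b))
  refine ⟨V', hV', ?_⟩
  intro p x u v lam z e h w q s α β α' β' hM hP
  have key : ∀ i b, ∀ O : ValuationSubring L,
      intCl (others (k := k) y i) (if b then y i else (y i)⁻¹) ≤ O.toSubring →
      Δ i b ^ 6 * (e ^ 2 * ((D p z - q.eval z) / h.eval z)) ∈ O ∧
      Δ i b ^ 6 * (e ^ 2 * ((D p z - q.eval z) / h.eval z * z)) ∈ O := by
    intro i b O hO
    obtain ⟨h1, h2, h3⟩ := hΔ i b O hO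
    have htr : Transcendental (others (k := k) y i) (if b then y i else (y i)⁻¹) := by
      have h4 := others_transcendental y hy.ind i
      cases b
      · exact h4.2
      · exact h4.1
    have hfd : FiniteDimensional (Subfield.closure ((others (k := k) y i : Set L) ∪
        {if b then y i else (y i)⁻¹})) L := by
      have h4 := others_finite y hy.fin i
      cases b
      · exact h4.2
      · exact h4.1
    obtain ⟨hDed, hFrac⟩ := intCl_dedekind _ _ htr hfd
    have hkR : ∀ c : k, algebraMap k L c ∈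
        intCl (others (k := k) y i) (if b then y i else (y i)⁻¹) := by
      intro c
      have h5 : algebraMap k L c ∈ Subring.closure ((others (k := k) y i : Set L) ∪
          {if b then y i else (y i)⁻¹}) := by
        refine Subring.subset_closure (Or.inl ?_)
        exact (IntermediateField.adjoin k (y '' {i}ᶜ)).algebraMap_mem c
      exact isIntegral_algebraMap (R := Subring.closure ((others (k := k) y i : Set L) ∪
          {if b then y i else (y i)⁻¹})) (x := ⟨_, h5⟩)
    refine mb_key a Z A (gens : Set L) hgens D V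
      (intCl (others (k := k) y i) (if b then y i else (y i)⁻¹)) hkR O hO (Δ i b) (hΔ0 i b)
      h1 h2 (fun i' J => h3 _ ?_) (fun f hf => h3 f ?_) p x u v lam z e h w q s α β α' β' hM hP
    · rw [hS]
      exact Or.inl ⟨⟨i', J⟩, rfl⟩
    · rw [hS]
      exact Or.inr hf
  exact ⟨hmem _ fun i b O hO => (key i b O hO).1, hmem _ fun i b O hO => (key i b O hO).2⟩

end Pool.Agent.Helper10.LB

end

section

/-! # LB-S2: second round, the quotients `x^J/F_i(x)` of bounded points are bounded -/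

set_option autoImplicit false

namespace Pool.Agent.Helper10.LB

open scoped BigOperators
open Pool.Agent.Helper8.LG

private theorem secround_adjoin {k L : Type*} [Field k] [Field L] [Algebra k L] (s : Set L)
    (O : ValuationSubring L) (hk : ∀ c : k, algebraMap k L c ∈ O) (hs : ∀ f ∈ s, f ∈ O) :
    (Algebra.adjoin k s).toSubring ≤ O.toSubring := by
  intro f hf
  have hf' : f ∈ Algebra.adjoin k s := hf
  induction hf' using Algebra.adjoin_induction with
  | mem x hx => exact hs x hx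
  | algebraMap c => exact hk c
  | add x y hx hy hx' hy' => exact O.add_mem _ _ (hx' hx) (hy' hy)
  | mul x y hx hy hx' hy' => exact O.mul_mem _ _ (hx' hx) (hy' hy)

private theorem secround_dir {k L : Type*} [Field k] [Field L] [CharZero L] [Algebra k L]
    {P T : Type*} [Finite P] [Finite T] [DecidableEq T] (y : T → L) (D : P → Derivation ℤ L L)
    (hy : Dirs k y D) {σ ι : Type*} [Fintype σ] [DecidableEq σ] [Fintype ι] [DecidableEq ι]
    {d : ι → ℕ} (a : (i : ι) → Sym σ (d i) → L) (Z : Finset ι) (A : Subalgebra k L) (hA : A.FG)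
    (V : Submodule k L) [FiniteDimensional k V] (j : T) (t : L) (ht : t = y j ∨ t = (y j)⁻¹) :
    ∃ Δ : L, Δ ≠ 0 ∧ ∀ (x : σ → L) (G : L),
      Pt a Z A.toSubring x → G ≠ 0 → (∀ l, G * x l ∈ V) →
        ∀ i ∉ Z, ∀ J : Sym σ (d i), ∀ O : ValuationSubring L,
          intCl (others (k := k) y j) t ≤ O.toSubring →
          Δ * (mon x J / form (a i) x) ∈ O := by
  classical
  obtain ⟨s, hs⟩ := hA
  set S : Set L := (s : Set L) ∪ Set.range (fun p : Ix σ d => a p.1 p.2) with hS
  have hSfin : S.Finite := s.finite_toSet.union (Set.finite_range _)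
  obtain ⟨Δ₀, hΔ0, hΔR, hΔ⟩ := dir_prep y D hy V S hSfin j t ht
  have htr : Transcendental (others (k := k) y j) t := by
    rcases ht with rfl | rfl
    · exact (others_transcendental (k := k) y hy.ind j).1
    · exact (others_transcendental (k := k) y hy.ind j).2
  have hfin : FiniteDimensional (Subfield.closure ((others (k := k) y j : Set L) ∪ {t})) L := by
    rcases ht with rfl | rfl
    · exact (others_finite (k := k) y hy.fin j).1
    · exact (others_finite (k := k) y hy.fin j).2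
  obtain ⟨hDed, hFrac⟩ := intCl_dedekind (others (k := k) y j) t htr hfin
  have hcl : Subring.closure ((others (k := k) y j : Set L) ∪ {t}) ≤
      intCl (others (k := k) y j) t := by
    intro f hf
    exact isIntegral_algebraMap
      (R := Subring.closure ((others (k := k) y j : Set L) ∪ {t})) (x := ⟨f, hf⟩)
  have hkR : ∀ c : k, algebraMap k L c ∈ intCl (others (k := k) y j) t := by
    intro c
    refine hcl (Subring.subset_closure (Or.inl ?_))
    exact IntermediateField.algebraMap_mem (IntermediateField.adjoin k (y '' {j}ᶜ)) c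
  have hB : ∀ i : ι, ∃ c : ℕ, ∀ O : ValuationSubring L,
      intCl (others (k := k) y j) t ≤ O.toSubring →
      Δ₀⁻¹ ∉ O → ∀ f ∈ dirTwoW V (a i), f ≠ 0 → Δ₀ ^ c * f⁻¹ ∈ O := by
    intro i
    have := dirTwo_finite V (a i)
    exact bounded_of (intCl (others (k := k) y j) t) hkR (dirTwoW V (a i)) Δ₀ hΔR hΔ0
  choose B hB using hB
  set N : ℕ := ∑ i, (B i + d i + 1) with hN
  have hNi : ∀ i, B i + d i + 1 ≤ N := fun i =>
    Finset.single_le_sum (f := fun i => B i + d i + 1) (fun _ _ => Nat.zero_le _)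
      (Finset.mem_univ i)
  refine ⟨Δ₀ ^ N, pow_ne_zero _ hΔ0, ?_⟩
  intro x G hx hG hGx i hiZ J O hO
  obtain ⟨-, hΔV, hΔS⟩ := hΔ O hO
  have hΔO : Δ₀ ∈ O := hO hΔR
  by_cases hinv : Δ₀⁻¹ ∈ O
  · have hAO : A.toSubring ≤ O.toSubring := by
      rw [← hs]
      refine secround_adjoin (s : Set L) O (fun c => hO (hkR c)) ?_
      intro f hf
      have h1 : f = Δ₀⁻¹ * (Δ₀ * f) := by
        rw [← mul_assoc, inv_mul_cancel₀ hΔ0, one_mul]
      rw [h1]
      exact O.mul_mem _ _ hinv (hΔS f (Or.inl hf))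
    exact O.mul_mem _ _ (pow_mem hΔO N) (dirTwo_int_mem O _ hAO (hx.int i hiZ J))
  · have hne : form (a i) (fun l => G * x l) ≠ 0 := by
      rw [dirTwo_form_mul]
      exact mul_ne_zero (pow_ne_zero _ hG) (hx.ne i hiZ)
    have h1 := hB i O hO hinv _ (dirTwo_form_mem V (a i) _ hGx) hne
    have h2 : Δ₀ ^ d i * mon (fun l => G * x l) J ∈ O :=
      dirTwo_mon_mem O.toSubring Δ₀ _ (fun l => hΔV _ (hGx l)) J
    have h3 : mon x J / form (a i) x
        = mon (fun l => G * x l) J * (form (a i) (fun l => G * x l))⁻¹ := by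
      rw [dirTwo_mon_mul, dirTwo_form_mul]
      have := hx.ne i hiZ
      field_simp
    obtain ⟨r, hr⟩ := Nat.exists_eq_add_of_le (hNi i)
    have h4 : Δ₀ ^ N * (mon x J / form (a i) x) = Δ₀ ^ (r + 1)
        * ((Δ₀ ^ B i * (form (a i) (fun l => G * x l))⁻¹)
          * (Δ₀ ^ d i * mon (fun l => G * x l) J)) := by
      rw [h3, hr]
      ring
    rw [h4]
    exact O.mul_mem _ _ (pow_mem hΔO _) (O.mul_mem _ _ h1 h2)

/-- copy of the first part of `Helper8.LG.dir_two` (`C` empty) in all directions -/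
theorem second_round {k L : Type*} [Field k] [Field L] [CharZero L] [Algebra k L] {P T : Type*}
    [Finite P] [Finite T] [DecidableEq T] (y : T → L) (D : P → Derivation ℤ L L)
    (hy : Dirs k y D) {σ ι : Type*} [Fintype σ] [DecidableEq σ] [Fintype ι] [DecidableEq ι]
    {d : ι → ℕ} (a : (i : ι) → Sym σ (d i) → L) (Z : Finset ι) (A : Subalgebra k L) (hA : A.FG)
    (V : Submodule k L) [FiniteDimensional k V] :
    ∃ V' : Submodule k L, FiniteDimensional k V' ∧ ∀ (x : σ → L) (G : L),
      Pt a Z A.toSubring x → G ≠ 0 → (∀ l, G * x l ∈ V) →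
        ∀ i ∉ Z, ∀ J : Sym σ (d i), mon x J / form (a i) x ∈ V' := by
  have h1 : ∀ (j : T) (b : Bool), ∃ Δ : L, Δ ≠ 0 ∧ ∀ (x : σ → L) (G : L),
      Pt a Z A.toSubring x → G ≠ 0 → (∀ l, G * x l ∈ V) →
        ∀ i ∉ Z, ∀ J : Sym σ (d i), ∀ O : ValuationSubring L,
          intCl (others (k := k) y j) (if b then y j else (y j)⁻¹) ≤ O.toSubring →
          Δ * (mon x J / form (a i) x) ∈ O := by
    intro j b
    refine secround_dir y D hy a Z A hA V j _ ?_
    cases b
    · exact Or.inr (by simp)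
    · exact Or.inl (by simp)
  choose Δ hΔ0 hΔ using h1
  obtain ⟨V', hV', h⟩ := fd_of_dirs y D hy Δ hΔ0
  exact ⟨V', hV', fun x G hx hG hGx i hi J => h _ fun j b O hO => hΔ j b x G hx hG hGx i hi J O hO⟩

end Pool.Agent.Helper10.LB

end
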