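import Pool.Agent.Helper74.MG.T02

section

/-! # LG-K1: a non-vanishing maximal minor -/

set_option autoImplicit false

namespace Pool.Agent.Helper8.LG

theorem exists_minor {E ρ κ : Type*} [Field E] [Finite ρ] [Fintype κ] [DecidableEq κ]
    (v : κ → ρ → E) (hv : LinearIndependent E v) :
    ∃ r : κ → ρ, Function.Injective r ∧
      Matrix.det (Matrix.of fun s t => v t (r s)) ≠ 0 := by
  classical
  have : Fintype ρ := Fintype.ofFinite ρ
  obtain ⟨M, hM⟩ : ∃ M : Matrix κ ρ E, M = Matrix.of v := ⟨_, rfl⟩
  have hrow : LinearIndependent E M.row := by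
    rw [hM]
    exact hv
  have hrank : M.rank = Fintype.card κ := hrow.rank_matrix
  have hspan : Submodule.span E (Set.range M.col) = ⊤ := by
    apply Submodule.eq_top_of_finrank_eq
    rw [← Matrix.rank_eq_finrank_span_cols, hrank, Module.finrank_fintype_fun_eq_card]
  obtain ⟨b, hb1, hb2, hb3⟩ := exists_linearIndependent E (Set.range M.col)
  have htop : ⊤ ≤ Submodule.span E (Set.range (Subtype.val : b → κ → E)) := by
    rw [Subtype.range_coe, hb2, hspan]
  let B : Module.Basis b E (κ → E) := Module.Basis.mk hb3 htop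
  let e : b ≃ κ := B.indexEquiv (Pi.basisFun E κ)
  have hch : ∀ s : κ, ∃ j : ρ, M.col j = ((e.symm s : b) : κ → E) := fun s => hb1 (e.symm s).2
  choose r hr using hch
  have hinj : Function.Injective r := by
    intro s s' h
    have h1 : ((e.symm s : b) : κ → E) = ((e.symm s' : b) : κ → E) := by
      rw [← hr s, ← hr s', h]
    exact e.symm.injective (Subtype.ext h1)
  refine ⟨r, hinj, ?_⟩
  have hli : LinearIndependent E (Matrix.of fun s t => v t (r s)).row := by
    have h1 : (Matrix.of fun s t => v t (r s)).row = fun s => ((e.symm s : b) : κ → E) := by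
      funext s
      rw [← hr s, hM]
      rfl
    rw [h1]
    exact hb3.comp _ e.symm.injective
  have hunit := Matrix.linearIndependent_rows_iff_isUnit.mp hli
  exact ((Matrix.isUnit_iff_isUnit_det _).mp hunit).ne_zero

end Pool.Agent.Helper8.LG

end
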