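import Pool.Agent.Helper74.MG.T02

section

/-! # LG-KEY: definitions for the linear algebra

The rows are `(σ ⊕ ι) ⊕ τ`: the coordinates of the point, the forms, the corrections. -/

set_option autoImplicit false

namespace Pool.Agent.Helper8.LG

open scoped BigOperators

variable {E : Type*} [Field E] {σ ι τ : Type*} [Fintype σ] [DecidableEq σ]
  [DecidableEq ι]

/-- the Euler column `(x; d_i; 0)`, zero in the rows of `Z` -/
def eul (n : ι → ℕ) (Z : Finset ι) (x : σ → E) : (σ ⊕ ι) ⊕ τ → E :=
  Sum.elim (Sum.elim x fun i => if i ∈ Z then 0 else ((n i + 1 : ℕ) : E)) fun _ => 0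

/-- the column `(D_s x; D_s F_i(x) / F_i(x); θ_s)` of an index `s`, zero in the rows of `Z` -/
def cv (n : ι → ℕ) (a : (i : ι) → Sym σ (n i + 1) → E)
    (D : Ix σ (fun i => n i + 1) → Derivation ℤ E E)
    (θ : τ → Ix σ (fun i => n i + 1) → E) (Z : Finset ι) (x : σ → E)
    (s : Ix σ (fun i => n i + 1)) : (σ ⊕ ι) ⊕ τ → E :=
  Sum.elim (Sum.elim (fun l => D s (x l)) fun i =>
    if i ∈ Z then 0 else D s (form (a i) x) / form (a i) x) fun j => θ j s

/-- the column of the linear syzygy `x_j ∂_(I + e_l) - x_l ∂_(I + e_j)`,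
`s = (i, I, j, l)` -/
def syz (n : ι → ℕ) (a : (i : ι) → Sym σ (n i + 1) → E)
    (D : Ix σ (fun i => n i + 1) → Derivation ℤ E E)
    (θ : τ → Ix σ (fun i => n i + 1) → E) (Z : Finset ι) (x : σ → E)
    (s : Σ i : ι, Sym σ (n i) × σ × σ) : (σ ⊕ ι) ⊕ τ → E :=
  x s.2.2.1 • cv n a D θ Z x ⟨s.1, s.2.2.2 ::ₛ s.2.1⟩ -
    x s.2.2.2 • cv n a D θ Z x ⟨s.1, s.2.2.1 ::ₛ s.2.1⟩

/-- multiplication of the `x`-rows by `c` -/
def phi (c : E) : ((σ ⊕ ι) ⊕ τ → E) →ₗ[E] ((σ ⊕ ι) ⊕ τ → E) :=
  LinearMap.pi fun r =>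
    (Sum.elim (Sum.elim (fun _ => c) fun _ => 1) (fun _ => 1) r : E) • LinearMap.proj r

end Pool.Agent.Helper8.LG

end

section

/-! # LG-K2: modulo the linear syzygies all columns of one form are proportional -/

set_option autoImplicit false

namespace Pool.Agent.Helper8.LG

open scoped BigOperators

section path

variable {R M τ : Type*} [CommRing R] [AddCommGroup M] [Module R M]

/-- a function on multisets of one size, extended by zero -/
private noncomputable def K2_ext (m : ℕ) (V : Sym τ m → M) (s : Multiset τ) : M := by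
  classical
  exact if h : s.card = m then V (Sym.mk s h) else 0

private theorem K2_ext_coe (m : ℕ) (V : Sym τ m → M) (J : Sym τ m) :
    K2_ext m V (J : Multiset τ) = V J := by
  have h : (J : Multiset τ).card = m := J.2
  unfold K2_ext
  rw [dif_pos h]
  rfl

private theorem K2_path (m : ℕ) (V : Sym τ (m + 1) → M) (W : Submodule R M) (x : τ → R)
    (hW : ∀ (I : Sym τ m) (j l : τ), x j • V (l ::ₛ I) - x l • V (j ::ₛ I) ∈ W) (j₀ : τ)
    (s : Multiset τ) : ∀ t : Multiset τ, s.card + t.card = m + 1 →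
      x j₀ ^ s.card • K2_ext (m + 1) V (s + t) -
        (s.map x).prod • K2_ext (m + 1) V (Multiset.replicate s.card j₀ + t) ∈ W := by
  induction s using Multiset.induction_on with
  | empty =>
    intro t _
    simp
  | cons l s ih =>
    intro t ht
    rw [Multiset.card_cons] at ht
    have h1 := ih (l ::ₘ t) (by rw [Multiset.card_cons]; omega)
    have hI : (Multiset.replicate s.card j₀ + t).card = m := by
      rw [Multiset.card_add, Multiset.card_replicate]; omega
    have h2 := hW (Sym.mk (Multiset.replicate s.card j₀ + t) hI) j₀ l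
    rw [← K2_ext_coe (m + 1) V, ← K2_ext_coe (m + 1) V, Sym.coe_cons, Sym.coe_cons] at h2
    have h3 := W.add_mem (W.smul_mem (x j₀) h1) (W.smul_mem (s.map x).prod h2)
    have e1 : s + l ::ₘ t = l ::ₘ s + t := by
      rw [Multiset.add_cons, Multiset.cons_add]
    have e2 : Multiset.replicate s.card j₀ + l ::ₘ t =
        l ::ₘ (Multiset.replicate s.card j₀ + t) := by
      rw [Multiset.add_cons]
    have e3 : Multiset.replicate (s.card + 1) j₀ + t =
        j₀ ::ₘ (Multiset.replicate s.card j₀ + t) := by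
      rw [Multiset.replicate_succ, Multiset.cons_add]
    rw [e1, e2, Sym.coe_mk] at h3
    rw [Multiset.card_cons, e3, Multiset.map_cons, Multiset.prod_cons]
    have e5 : x j₀ ^ (s.card + 1) • K2_ext (m + 1) V (l ::ₘ s + t) -
        (x l * (s.map x).prod) • K2_ext (m + 1) V
          (j₀ ::ₘ (Multiset.replicate s.card j₀ + t)) =
        x j₀ • (x j₀ ^ s.card • K2_ext (m + 1) V (l ::ₘ s + t) -
          (s.map x).prod • K2_ext (m + 1) V
            (l ::ₘ (Multiset.replicate s.card j₀ + t))) +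
        (s.map x).prod • (x j₀ • K2_ext (m + 1) V
            (l ::ₘ (Multiset.replicate s.card j₀ + t)) -
          x l • K2_ext (m + 1) V
            (j₀ ::ₘ (Multiset.replicate s.card j₀ + t))) := by
      module
    rw [e5]
    exact h3

private theorem K2_main (m : ℕ) (V : Sym τ (m + 1) → M) (W : Submodule R M) (x : τ → R)
    (hW : ∀ (I : Sym τ m) (j l : τ), x j • V (l ::ₛ I) - x l • V (j ::ₛ I) ∈ W) (j₀ : τ)
    (J : Sym τ (m + 1)) :
    x j₀ ^ (m + 1) • V J - mon x J • V (Sym.replicate (m + 1) j₀) ∈ W := by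
  have hc : (J : Multiset τ).card = m + 1 := J.2
  have h := K2_path m V W x hW j₀ (J : Multiset τ) 0 (by rw [hc]; simp)
  rw [hc, add_zero, add_zero, K2_ext_coe] at h
  have hr : (Multiset.replicate (m + 1) j₀ : Multiset τ) =
      ((Sym.replicate (m + 1) j₀ : Sym τ (m + 1)) : Multiset τ) := by
    rw [Sym.coe_replicate]
  rw [hr, K2_ext_coe] at h
  exact h

end path

variable {E : Type*} [Field E] {σ ι τ : Type*} [Fintype σ] [DecidableEq σ]
  [DecidableEq ι]

theorem cv_sub_mem (n : ι → ℕ) (a : (i : ι) → Sym σ (n i + 1) → E)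
    (D : Ix σ (fun i => n i + 1) → Derivation ℤ E E)
    (θ : τ → Ix σ (fun i => n i + 1) → E) (Z : Finset ι) (x : σ → E)
    (j₀ : σ) (i : ι) (J : Sym σ (n i + 1)) :
    x j₀ ^ (n i + 1) • cv n a D θ Z x ⟨i, J⟩ -
      mon x J • cv n a D θ Z x ⟨i, Sym.replicate (n i + 1) j₀⟩ ∈
      Submodule.span E (Set.range (syz n a D θ Z x)) := by
  refine K2_main (n i) (fun J => cv n a D θ Z x ⟨i, J⟩) _ x ?_ j₀ J
  intro I j l
  exact Submodule.subset_span ⟨⟨i, I, j, l⟩, rfl⟩

end Pool.Agent.Helper8.LG

end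

section

/-! # LG-K3: the functionals -/

set_option autoImplicit false

namespace Pool.Agent.Helper8.LG

open scoped BigOperators

variable {E : Type*} [Field E] {σ ι τ : Type*} [Fintype σ] [DecidableEq σ]
  [DecidableEq ι]

theorem kf_grad_multiset (x : σ → E) (s : Multiset σ) :
    ∃ g : σ → E, (∀ δ : Derivation ℤ E E, δ (s.map x).prod = ∑ l, g l * δ (x l)) ∧
      ∑ l, g l * x l = (Multiset.card s : E) * (s.map x).prod := by
  induction s using Multiset.induction_on with
  | empty => exact ⟨fun _ => 0, by intro δ; simp, by simp⟩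
  | cons j s ih =>
    obtain ⟨g, hg, he⟩ := ih
    refine ⟨fun l => x j * g l + (if l = j then (s.map x).prod else 0), ?_, ?_⟩
    · intro δ
      rw [Multiset.map_cons, Multiset.prod_cons, Derivation.leibniz, hg δ]
      simp only [smul_eq_mul, add_mul, ite_mul, zero_mul, Finset.sum_add_distrib,
        Finset.sum_ite_eq', Finset.mem_univ, if_true, Finset.mul_sum, mul_assoc]
    · rw [Multiset.map_cons, Multiset.prod_cons, Multiset.card_cons]
      simp only [add_mul, ite_mul, zero_mul, Finset.sum_add_distrib,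
        Finset.sum_ite_eq', Finset.mem_univ, if_true, mul_assoc]
      rw [← Finset.mul_sum, he]
      push_cast
      ring

theorem kf_grad_form {m : ℕ} (a : Sym σ m → E) (x : σ → E) :
    ∃ g : σ → E, (∀ δ : Derivation ℤ E E,
        δ (form a x) = ∑ J, δ (a J) * mon x J + ∑ l, g l * δ (x l)) ∧
      ∑ l, g l * x l = (m : E) * form a x := by
  choose g hg he using fun J : Sym σ m => kf_grad_multiset x (J : Multiset σ)
  refine ⟨fun l => ∑ J, a J * g J l, ?_, ?_⟩
  · intro δ
    unfold form
    rw [map_sum]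
    have h1 : ∀ J : Sym σ m, δ (a J * mon x J) =
        δ (a J) * mon x J + ∑ l, a J * g J l * δ (x l) := by
      intro J
      rw [Derivation.leibniz]
      unfold mon
      rw [hg J δ]
      simp only [smul_eq_mul, Finset.mul_sum, mul_assoc]
      rw [add_comm, mul_comm (δ (a J))]
    simp only [h1]
    rw [Finset.sum_add_distrib, Finset.sum_comm (f := fun J l => a J * g J l * δ (x l))]
    simp only [Finset.sum_mul]
  · unfold form
    simp only [Finset.sum_mul]
    rw [Finset.sum_comm, Finset.mul_sum]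
    refine Finset.sum_congr rfl fun J _ => ?_
    have h2 := he J
    rw [Sym.card_coe] at h2
    simp only [mul_assoc]
    rw [← Finset.mul_sum, h2]
    unfold mon
    ring

theorem kf_mon_cons {m : ℕ} (x : σ → E) (j : σ) (I : Sym σ m) :
    mon x (j ::ₛ I) = x j * mon x I := by
  unfold mon
  rw [Sym.coe_cons, Multiset.map_cons, Multiset.prod_cons]

theorem exists_functional [Fintype ι] [Fintype τ] (n : ι → ℕ)
    (a : (i : ι) → Sym σ (n i + 1) → E)
    (D : Ix σ (fun i => n i + 1) → Derivation ℤ E E)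
    (jj : τ → Ix σ (fun i => n i + 1)) (θ : τ → Ix σ (fun i => n i + 1) → E)
    (hD : Dual (fun i => n i + 1) a D jj θ) (Z : Finset ι) (x : σ → E)
    (hZ : ∀ i ∈ Z, form (a i) x = 0) (hU : ∀ i ∉ Z, form (a i) x ≠ 0) :
    ∃ lam : ((σ ⊕ ι) ⊕ τ → E) →ₗ[E] (ι → E), lam (eul n Z x) = 0 ∧
      (∀ (i : ι) (J : Sym σ (n i + 1)),
        lam (cv n a D θ Z x ⟨i, J⟩) = Pi.single i (-mon x J)) ∧
      ∀ s, lam (syz n a D θ Z x s) = 0 := by
  choose g hg he using fun i : ι => kf_grad_form (a i) x
  let lam : ((σ ⊕ ι) ⊕ τ → E) →ₗ[E] (ι → E) := LinearMap.pi fun i =>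
    (∑ l, g i l • (LinearMap.proj (Sum.inl (Sum.inl l)) : ((σ ⊕ ι) ⊕ τ → E) →ₗ[E] E)) -
      (if i ∈ Z then (0 : E) else form (a i) x) •
        (LinearMap.proj (Sum.inl (Sum.inr i)) : ((σ ⊕ ι) ⊕ τ → E) →ₗ[E] E) -
      ∑ j, (if (jj j).1 = i then mon x (jj j).2 else 0) •
        (LinearMap.proj (Sum.inr j) : ((σ ⊕ ι) ⊕ τ → E) →ₗ[E] E)
  have hlam : ∀ (v : (σ ⊕ ι) ⊕ τ → E) (i : ι), lam v i = ∑ l, g i l * v (Sum.inl (Sum.inl l)) -
      (if i ∈ Z then (0 : E) else form (a i) x) * v (Sum.inl (Sum.inr i)) -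
      ∑ j, (if (jj j).1 = i then mon x (jj j).2 else 0) * v (Sum.inr j) := by
    intro v i
    show ((∑ l, g i l • (LinearMap.proj (Sum.inl (Sum.inl l)) : ((σ ⊕ ι) ⊕ τ → E) →ₗ[E] E)) -
      (if i ∈ Z then (0 : E) else form (a i) x) •
        (LinearMap.proj (Sum.inl (Sum.inr i)) : ((σ ⊕ ι) ⊕ τ → E) →ₗ[E] E) -
      ∑ j, (if (jj j).1 = i then mon x (jj j).2 else 0) •
        (LinearMap.proj (Sum.inr j) : ((σ ⊕ ι) ⊕ τ → E) →ₗ[E] E)) v = _
    rw [LinearMap.sub_apply, LinearMap.sub_apply, LinearMap.sum_apply, LinearMap.sum_apply,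
      LinearMap.smul_apply, LinearMap.proj_apply, smul_eq_mul]
    simp only [LinearMap.smul_apply, LinearMap.proj_apply, smul_eq_mul]
  have hcv : ∀ (s : Ix σ (fun i => n i + 1)) (i : ι),
      lam (cv n a D θ Z x s) i = -∑ J, D s (a i J) * mon x J -
        ∑ j, (if (jj j).1 = i then mon x (jj j).2 else 0) * θ j s := by
    intro s i
    rw [hlam]
    have h1 := hg i (D s)
    simp only [cv, Sum.elim_inl, Sum.elim_inr]
    by_cases hi : i ∈ Z
    · rw [if_pos hi, hZ i hi, map_zero] at *
      rw [zero_mul, sub_zero]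
      linear_combination -h1
    · rw [if_neg hi, if_neg hi, mul_div_cancel₀ _ (hU i hi), h1]
      ring
  -- the coefficient form of `D_s F_i`
  have hsum : ∀ (s : Ix σ (fun i => n i + 1)) (i : ι), ∑ J, D s (a i J) * mon x J =
      (if s.1 = i then mon x s.2 else 0) -
        ∑ j, (if (jj j).1 = i then mon x (jj j).2 else 0) * θ j s := by
    intro s i
    have h1 : ∀ J : Sym σ (n i + 1), D s (a i J) * mon x J =
        (if s = ⟨i, J⟩ then mon x J else 0) -
          ∑ j, if jj j = ⟨i, J⟩ then θ j s * mon x J else 0 := by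
      intro J
      rw [hD s ⟨i, J⟩, sub_mul, Finset.sum_mul]
      congr 1
      · split_ifs <;> simp
      · refine Finset.sum_congr rfl fun j _ => ?_
        split_ifs <;> simp
    have h2 : ∀ (q : Ix σ (fun i => n i + 1)) (f : E),
        ∑ J : Sym σ (n i + 1), (if q = ⟨i, J⟩ then f * mon x J else 0) =
          f * if q.1 = i then mon x q.2 else 0 := by
      rintro ⟨k, K⟩ f
      by_cases hk : k = i
      · subst hk
        rw [Finset.sum_eq_single K]
        · simp
        · intro J _ hJ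
          rw [if_neg]
          intro h
          apply hJ
          have := eq_of_heq (Sigma.mk.inj h).2
          exact this.symm
        · intro h
          exact absurd (Finset.mem_univ K) h
      · rw [Finset.sum_eq_zero]
        · simp [hk]
        · intro J _
          rw [if_neg]
          intro h
          exact hk (Sigma.mk.inj h).1
    rw [Finset.sum_congr rfl fun J _ => h1 J, Finset.sum_sub_distrib, Finset.sum_comm]
    congr 1
    · have h3 := h2 s 1
      simpa using h3
    · refine Finset.sum_congr rfl fun j _ => ?_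
      rw [h2 (jj j) (θ j s), mul_comm]
  have hcvD : ∀ (i : ι) (J : Sym σ (n i + 1)),
      lam (cv n a D θ Z x ⟨i, J⟩) = Pi.single i (-mon x J) := by
    intro i J
    funext k
    rw [hcv, hsum]
    by_cases hk : k = i
    · subst hk
      rw [Pi.single_eq_same, if_pos rfl]
      ring
    · rw [Pi.single_eq_of_ne hk, if_neg (fun h => hk h.symm)]
      ring
  refine ⟨lam, ?_, hcvD, ?_⟩
  · funext i
    rw [hlam]
    have h1 := he i
    simp only [eul, Sum.elim_inl, Sum.elim_inr, Pi.zero_apply, mul_zero, Finset.sum_const_zero,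
      sub_zero]
    rw [h1]
    by_cases hi : i ∈ Z
    · rw [if_pos hi, hZ i hi]
      ring
    · rw [if_neg hi, if_neg hi]
      ring
  · rintro ⟨i, I, j, l⟩
    simp only [syz, map_sub, map_smul, hcvD, kf_mon_cons]
    funext k
    by_cases hk : k = i
    · subst hk
      simp only [Pi.sub_apply, Pi.smul_apply, Pi.single_eq_same, smul_eq_mul, Pi.zero_apply]
      ring
    · simp only [Pi.sub_apply, Pi.smul_apply, Pi.single_eq_of_ne hk, smul_eq_mul, Pi.zero_apply]
      ring

/-- change of normalisation -/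
theorem eul_scale (n : ι → ℕ) (Z : Finset ι) (x : σ → E) (c : E) (hc : c ≠ 0) :
    (eul n Z x : (σ ⊕ ι) ⊕ τ → E) = phi c (eul n Z fun l => x l / c) := by
  funext r
  rcases r with (l | i) | j
  · simp only [eul, phi, LinearMap.pi_apply, LinearMap.smul_apply, LinearMap.proj_apply,
      Sum.elim_inl, smul_eq_mul]
    field_simp
  · simp only [eul, phi, LinearMap.pi_apply, LinearMap.smul_apply, LinearMap.proj_apply,
      Sum.elim_inl, Sum.elim_inr, smul_eq_mul, one_mul]
  · simp only [eul, phi, LinearMap.pi_apply, LinearMap.smul_apply, LinearMap.proj_apply,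
      Sum.elim_inr, smul_eq_mul, one_mul]

theorem kf_form_scale {m : ℕ} (a : Sym σ m → E) (x : σ → E) (c : E) (hc : c ≠ 0) :
    form a x = c ^ m * form a (fun l => x l / c) := by
  unfold form
  rw [Finset.mul_sum]
  refine Finset.sum_congr rfl fun J _ => ?_
  have h1 : mon x J = c ^ m * mon (fun l => x l / c) J := by
    unfold mon
    have h2 : ((J : Multiset σ).map fun l => x l) =
        (J : Multiset σ).map fun l => c * (x l / c) := by
      refine Multiset.map_congr rfl fun l _ => ?_
      field_simp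
    have h3 : ((J : Multiset σ).map x) = ((J : Multiset σ).map fun l => x l) := rfl
    rw [h3, h2, Multiset.prod_map_mul, Multiset.map_const', Multiset.prod_replicate,
      Sym.card_coe]
  rw [h1]
  ring

theorem kf_logderiv (δ : Derivation ℤ E E) (c f : E) (m : ℕ) (hc : c ≠ 0) (hf : f ≠ 0) :
    δ (c ^ (m + 1) * f) / (c ^ (m + 1) * f) = δ f / f + δ c / c * ((m + 1 : ℕ) : E) := by
  rw [Derivation.leibniz, Derivation.leibniz_pow]
  simp only [smul_eq_mul, nsmul_eq_mul, Nat.add_sub_cancel]
  field_simp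
  ring

theorem cv_scale (n : ι → ℕ) (a : (i : ι) → Sym σ (n i + 1) → E)
    (D : Ix σ (fun i => n i + 1) → Derivation ℤ E E)
    (θ : τ → Ix σ (fun i => n i + 1) → E) (Z : Finset ι) (x : σ → E)
    (hU : ∀ i ∉ Z, form (a i) x ≠ 0) (c : E) (hc : c ≠ 0) (s : Ix σ (fun i => n i + 1)) :
    cv n a D θ Z x s =
      phi c (cv n a D θ Z (fun l => x l / c) s) + (D s c / c) • eul n Z x := by
  funext r
  set δ := D s with hδ
  rcases r with (l | i) | j
  · simp only [eul, cv, phi, LinearMap.pi_apply, LinearMap.smul_apply, LinearMap.proj_apply,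
      Sum.elim_inl, smul_eq_mul, Pi.add_apply, Pi.smul_apply]
    have h1 : x l = c * (x l / c) := by field_simp
    have h2 : δ (x l) = c * δ (x l / c) + (x l / c) * δ c := by
      conv_lhs => rw [h1]
      rw [Derivation.leibniz]
      simp only [smul_eq_mul]
    rw [h2]
    ring
  · simp only [eul, cv, phi, LinearMap.pi_apply, LinearMap.smul_apply, LinearMap.proj_apply,
      Sum.elim_inl, Sum.elim_inr, smul_eq_mul, one_mul, Pi.add_apply, Pi.smul_apply]
    by_cases hi : i ∈ Z
    · simp only [if_pos hi]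
      ring
    · simp only [if_neg hi]
      have h1 := kf_form_scale (a i) x c hc
      have h2 : form (a i) (fun l => x l / c) ≠ 0 := by
        intro h0
        apply hU i hi
        rw [h1, h0, mul_zero]
      have h3 := kf_logderiv δ c (form (a i) (fun l => x l / c)) (n i) hc h2
      rw [← h1] at h3
      exact h3
  · simp only [eul, cv, phi, LinearMap.pi_apply, LinearMap.smul_apply, LinearMap.proj_apply,
      Sum.elim_inr, smul_eq_mul, one_mul, Pi.add_apply, Pi.smul_apply, mul_zero, add_zero]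

theorem syz_scale (n : ι → ℕ) (a : (i : ι) → Sym σ (n i + 1) → E)
    (D : Ix σ (fun i => n i + 1) → Derivation ℤ E E)
    (θ : τ → Ix σ (fun i => n i + 1) → E) (Z : Finset ι) (x : σ → E)
    (hU : ∀ i ∉ Z, form (a i) x ≠ 0) (c : E) (hc : c ≠ 0)
    (s : Σ i : ι, Sym σ (n i) × σ × σ) :
    ∃ b : E, syz n a D θ Z x s = c • phi c (syz n a D θ Z (fun l => x l / c) s) +
      b • eul n Z x := by
  obtain ⟨i, I, j, l⟩ := s
  refine ⟨x j * (D ⟨i, l ::ₛ I⟩ c / c) - x l * (D ⟨i, j ::ₛ I⟩ c / c), ?_⟩
  simp only [syz]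
  rw [cv_scale n a D θ Z x hU c hc ⟨i, l ::ₛ I⟩, cv_scale n a D θ Z x hU c hc ⟨i, j ::ₛ I⟩]
  funext r
  simp only [map_sub, map_smul, Pi.sub_apply, Pi.smul_apply, Pi.add_apply, smul_eq_mul]
  have h1 : x j = c * (x j / c) := by field_simp
  have h2 : x l = c * (x l / c) := by field_simp
  field_simp
  ring

end Pool.Agent.Helper8.LG

end
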