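import Mathlib

section

/-!
# Linear algebra lemmas for LG-KEY
-/

set_option autoImplicit false

namespace Pool.Agent.Helper74.LG

open scoped BigOperators

/-- The determinant of a matrix which is triangular for a rank function. -/
theorem det_tri {κ E : Type*} [Fintype κ] [DecidableEq κ] [CommRing E] (T : Matrix κ κ E)
    (b : κ → ℕ) (g : κ → E) (hdiag : ∀ t, T t t = g t)
    (hoff : ∀ t' t, t' ≠ t → b t ≤ b t' → T t' t = 0) : T.det = ∏ t, g t := by
  have hT : T.BlockTriangular b := fun i j hij => hoff i j (fun h => by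
    rw [h] at hij
    exact lt_irrefl _ hij) hij.le
  rw [hT.det]
  have h1 : ∀ a, (T.toSquareBlock b a).det = ∏ t : {t // b t = a}, g t := by
    intro a
    have h2 : T.toSquareBlock b a = Matrix.diagonal fun t : {t // b t = a} => g t := by
      ext i j
      rw [Matrix.toSquareBlock_def, Matrix.of_apply, Matrix.diagonal_apply]
      by_cases h : i = j
      · rw [if_pos h, h, hdiag]
      · rw [if_neg h]
        refine hoff _ _ (fun h' => h (Subtype.ext h')) ?_
        rw [i.2, j.2]
    rw [h2, Matrix.det_diagonal]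
  rw [Finset.prod_congr rfl fun a _ => h1 a]
  have h3 : ∀ a, ∏ t : {t // b t = a}, g t = ∏ t ∈ Finset.univ.filter (fun t => b t = a), g t := by
    intro a
    rw [Finset.prod_subtype (Finset.univ.filter (fun t => b t = a)) (p := fun t => b t = a)]
    intro t
    simp
  rw [Finset.prod_congr rfl fun a _ => h3 a]
  exact Finset.prod_fiberwise_of_maps_to (fun t _ => Finset.mem_image_of_mem b (Finset.mem_univ t))
    g

/-- A determinant with entries in a subring lies in the subring. -/
theorem det_mem {κ E : Type*} [Fintype κ] [DecidableEq κ] [CommRing E] (O : Subring E)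
    (T : Matrix κ κ E) (h : ∀ s t, T s t ∈ O) : T.det ∈ O := by
  rw [Matrix.det_apply]
  refine sum_mem fun p _ => ?_
  rw [Units.smul_def]
  exact zsmul_mem (prod_mem fun i _ => h _ _) _

/-- A coordinate of maximal value. -/
theorem exists_max_coord {E σ : Type*} [Field E] [Fintype σ] (O : ValuationSubring E)
    (x : σ → E) (i₀ : σ) (hx : x i₀ ≠ 0) : ∃ j, x j ≠ 0 ∧ ∀ l, x l / x j ∈ O := by
  have : Nonempty σ := ⟨i₀⟩
  obtain ⟨j, hj⟩ := Finite.exists_max fun l => O.valuation (x l)
  have hj0 : x j ≠ 0 := by
    intro h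
    have h1 := hj i₀
    rw [h, map_zero] at h1
    exact hx ((O.valuation).zero_iff.1 (le_zero_iff.1 h1))
  refine ⟨j, hj0, fun l => ?_⟩
  rw [← O.valuation_le_one_iff, map_div₀]
  exact div_le_one_of_le₀ (hj l) zero_le

/-- Choice of a basis of a span which contains a given non-zero vector. -/
theorem exists_basis_part {E V S : Type*} [Field E] [AddCommGroup V] [Module E V] (v₀ : V)
    (h₀ : v₀ ≠ 0) (f : S → V) : ∃ b : Set (Option S), none ∈ b ∧
      LinearIndependent E (fun o : b => (o : Option S).elim v₀ f) ∧
      ∀ s, f s ∈ Submodule.span E (Set.range fun o : b => (o : Option S).elim v₀ f) := by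
  obtain ⟨b, _, h1, h2, h3⟩ := exists_linearIndepOn_extension (K := E)
    (v := fun o : Option S => o.elim v₀ f) (s := {none}) (t := Set.univ)
    (by
      rw [linearIndepOn_singleton_iff]
      exact h₀) (Set.subset_univ _)
  refine ⟨b, h1 rfl, h3, fun s => ?_⟩
  have h4 := h2 ⟨some s, trivial, rfl⟩
  rwa [Set.image_eq_range] at h4

end Pool.Agent.Helper74.LG

end
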