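import Mathlib
import Pool.Agent.Helper74.MG.T02

section

/-! # LG-SEI: Seidenberg's theorem -/

set_option autoImplicit false

namespace Pool.Agent.Helper8.LG

/-- Iterated differences of the iterates of a derivation. -/
private def sU {E : Type*} [CommRing E] (D : E → E) (y : E) : ℕ → ℕ → E → E
  | 0, m, c => D^[m] c
  | n + 1, m, c => sU D y n m (c * y) - y * sU D y n m c

private theorem sU_zero_right {E : Type*} [CommRing E] (D : E → E) (y : E) (n : ℕ) (c : E) :
    sU D y (n + 1) 0 c = 0 := by
  induction n generalizing c with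
  | zero => simp [sU, mul_comm]
  | succ n ih =>
    rw [sU, ih, ih]
    simp

private theorem sU_succ_right {E : Type*} [CommRing E] (D : Derivation ℤ E E) (y : E) (n m : ℕ)
    (c : E) : sU D y (n + 1) (m + 1) c = D (sU D y (n + 1) m c) + (n + 1) * D y * sU D y n m c := by
  induction n generalizing c with
  | zero =>
    simp only [sU, Function.iterate_succ_apply', map_sub, Derivation.leibniz, smul_eq_mul]
    push_cast
    ring
  | succ n ih =>
    have h1 : sU D y (n + 1 + 1) (m + 1) c =
        sU D y (n + 1) (m + 1) (c * y) - y * sU D y (n + 1) (m + 1) c := rfl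
    have h2 : sU D y (n + 1 + 1) m c = sU D y (n + 1) m (c * y) - y * sU D y (n + 1) m c := rfl
    have h3 : sU D y (n + 1) m c = sU D y n m (c * y) - y * sU D y n m c := rfl
    rw [h1, ih, ih, h2, map_sub, Derivation.leibniz, smul_eq_mul, smul_eq_mul]
    push_cast
    linear_combination (-(n + 1 : E) * D y) * h3

private theorem sU_of_lt {E : Type*} [CommRing E] (D : Derivation ℤ E E) (y : E) (m n : ℕ)
    (h : m < n) (c : E) : sU D y n m c = 0 := by
  induction m generalizing n c with
  | zero =>
    obtain ⟨n, rfl⟩ := Nat.exists_eq_succ_of_ne_zero h.ne'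
    exact sU_zero_right D y n c
  | succ m ih =>
    obtain ⟨n, rfl⟩ := Nat.exists_eq_succ_of_ne_zero (Nat.ne_of_gt (Nat.zero_lt_of_lt h))
    rw [Nat.succ_eq_add_one, sU_succ_right, ih (n + 1) (by omega), ih n (by omega)]
    simp

private theorem sU_diag {E : Type*} [CommRing E] (D : Derivation ℤ E E) (y : E) (n : ℕ) (c : E) :
    sU D y n n c = n.factorial * D y ^ n * c := by
  induction n generalizing c with
  | zero => simp [sU]
  | succ n ih =>
    rw [sU_succ_right, sU_of_lt D y n (n + 1) (by omega), ih, Nat.factorial_succ, pow_succ]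
    push_cast
    simp only [map_zero, zero_add]
    ring

private theorem sU_mem {E : Type*} [CommRing E] (D : E → E) (y : E) (S : Subring E)
    (hD : ∀ x ∈ S, D x ∈ S) (b : E) (hb : ∀ i : ℕ, b * y ^ i ∈ S) (n m : ℕ) (c : E)
    (hc : ∀ i : ℕ, c * y ^ i ∈ S) (i : ℕ) : b * y ^ i * sU D y n m c ∈ S := by
  induction n generalizing c i with
  | zero =>
    refine S.mul_mem (hb i) ?_
    rw [sU]
    have h : ∀ m : ℕ, D^[m] c ∈ S := by
      intro m
      induction m with
      | zero => simpa using hc 0
      | succ m ih =>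
        rw [Function.iterate_succ_apply']
        exact hD _ ih
    exact h m
  | succ n ih =>
    have h1 := ih (c * y) (fun i => by
      have := hc (i + 1)
      rwa [pow_succ', ← mul_assoc] at this) i
    have h2 := ih c hc (i + 1)
    have e : b * y ^ i * sU D y (n + 1) m c =
        b * y ^ i * sU D y n m (c * y) - b * y ^ (i + 1) * sU D y n m c := by
      rw [sU, pow_succ]
      ring
    rw [e]
    exact S.sub_mem h1 h2

theorem seidenberg {E : Type*} [Field E] [CharZero E] (A : Subring E) [IsNoetherianRing A]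
    (hQ : ∀ n : ℕ, n ≠ 0 → ((n : E))⁻¹ ∈ A)
    (hfrac : ∀ f : E, ∃ b ∈ A, b ≠ 0 ∧ f * b ∈ A)
    (D : Derivation ℤ E E) (hD : ∀ f ∈ A, D f ∈ A) (f : E) (hf : IsIntegral A f) :
    IsIntegral A (D f) := by
  have hr : ∀ x : E, x ∈ (algebraMap A E).range ↔ x ∈ A := by
    intro x
    constructor
    · rintro ⟨a, rfl⟩
      exact a.2
    · intro hx
      exact ⟨⟨x, hx⟩, rfl⟩
  have hnz : ∀ {b : A}, (b : E) ≠ 0 → b ∈ nonZeroDivisors A := by
    intro b hb
    refine mem_nonZeroDivisors_of_ne_zero ?_
    rintro rfl
    exact hb rfl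
  obtain ⟨b, hb, hb0, hfb⟩ := hfrac f
  obtain ⟨r, hr0, h⟩ := hf.isAlmostIntegral_of_exists_smul_mem_range
    ⟨⟨b, hb⟩, hnz hb0, (hr _).mpr (by
      rw [Algebra.smul_def, mul_comm]
      exact hfb)⟩
  have hr' : ∀ i : ℕ, (r : E) * f ^ i ∈ A := by
    intro i
    have := (hr _).mp (h i)
    rwa [Algebra.smul_def] at this
  refine IsAlmostIntegral.isIntegral ⟨r * r, mul_mem hr0 hr0, fun n => ?_⟩
  have h1 := sU_mem D f A hD _ hr' n n _ hr' 0
  rw [sU_diag, pow_zero, mul_one] at h1
  rw [hr, Algebra.smul_def]
  have h2 := A.mul_mem (hQ n.factorial n.factorial_ne_zero) h1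
  have h3 : (n.factorial : E) ≠ 0 := by exact_mod_cast n.factorial_ne_zero
  have e : (algebraMap A E) (r * r) * D f ^ n =
      ((n.factorial : E))⁻¹ * ((r : E) * ((n.factorial : E) * D f ^ n * r)) := by
    rw [map_mul]
    change ((r : E) * (r : E)) * D f ^ n = _
    field_simp
  rw [e]
  exact h2

end Pool.Agent.Helper8.LG

end

section

/-! # LG-RST: stability of the integral closure without poles -/

set_option autoImplicit false

namespace Pool.Agent.Helper8.LG

variable {E : Type*} [Field E] [CharZero E]

private theorem rst_integral_mono {A B : Subring E} (h : A ≤ B) {x : E} (hx : IsIntegral A x) :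
    IsIntegral B x := by
  obtain ⟨p, hp, hpx⟩ := hx
  refine ⟨p.map (Subring.inclusion h), hp.map _, ?_⟩
  rw [Polynomial.eval₂_map]
  exact hpx

/-- an algebraic element becomes integral after multiplication by an element of the base; for an
abstract subring and an abstract subfield (the kernel is slow when it can unfold the closures) -/
private theorem rst_mult_aux (R : Subring E) (K : Subfield E) (hle : R ≤ K.toSubring)
    (hfr : ∀ x ∈ K, ∃ y ∈ R, ∃ z ∈ R, y / z = x) (c : E) (hc : IsAlgebraic K c) :
    ∃ h ∈ R, h ≠ 0 ∧ IsIntegral R (h * c) := by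
  letI : Algebra R K := (Subring.inclusion hle).toAlgebra
  haveI : IsScalarTower R K E := IsScalarTower.of_algebraMap_eq (fun _ => rfl)
  haveI : Algebra.IsAlgebraic R K := by
    refine ⟨fun x => ?_⟩
    obtain ⟨y, hy, z, hz, hyz⟩ := hfr x.1 x.2
    by_cases hz0 : z = 0
    · have hx : x = 0 := by
        apply Subtype.ext
        rw [← hyz, hz0, div_zero]
        rfl
      rw [hx]
      exact isAlgebraic_zero
    · refine ⟨Polynomial.C (⟨z, hz⟩ : R) * Polynomial.X -
        Polynomial.C (⟨y, hy⟩ : R), ?_, ?_⟩
      · intro h0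
        have := congrArg (fun q => Polynomial.coeff q 1) h0
        simp only [Polynomial.coeff_sub, Polynomial.coeff_C_mul, Polynomial.coeff_X_one, mul_one,
          Polynomial.coeff_C_succ, sub_zero, Polynomial.coeff_zero] at this
        exact hz0 (congrArg Subtype.val this)
      · apply Subtype.ext
        simp only [map_sub, map_mul, Polynomial.aeval_C, Polynomial.aeval_X]
        change z * (x : E) - y = 0
        rw [← hyz]
        field_simp
        ring
  have hc' : IsAlgebraic R c := hc.restrictScalars _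
  obtain ⟨h, hh0, hh⟩ := hc'.exists_integral_multiple
  refine ⟨h, h.2, ?_, ?_⟩
  · intro h0
    exact hh0 (Subtype.ext h0)
  · rwa [Algebra.smul_def] at hh

/-- an algebraic element becomes integral after multiplication by an element of the base -/
private theorem rst_mult (s : Set E) (c : E) (hc : IsAlgebraic (Subfield.closure s) c) :
    ∃ h ∈ Subring.closure s, h ≠ 0 ∧ IsIntegral (Subring.closure s) (h * c) :=
  rst_mult_aux (Subring.closure s) (Subfield.closure s)
    (Subring.closure_le.mpr Subfield.subset_closure)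
    (fun _ hx => Subfield.mem_closure_iff.mp hx) c hc

/-- stability without poles, when there are enough constants -/
theorem intCl_stable {P : Type*} (E₀ : Subfield E) (t : E)
    (D : P → Derivation ℤ E E) (hE₀ : ∀ p, ∀ f ∈ E₀, D p f ∈ E₀)
    (hDt : ∀ p, D p t = 0) (k₀ : Subfield E) (hk₀ : k₀ ≤ E₀) (hDk : ∀ p, ∀ f ∈ k₀, D p f = 0)
    (S : Set E) (hS : S.Finite) (hDS : ∀ p, ∀ c ∈ S, D p c = 0)
    (halg : ∀ c ∈ S, IsAlgebraic (Subfield.closure ((k₀ : Set E) ∪ {t})) c)
    (hgen : Subfield.closure ((E₀ : Set E) ∪ {t} ∪ S) = ⊤) :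
    ∀ p, ∀ f ∈ intCl E₀ t, D p f ∈ intCl E₀ t := by
  classical
  -- the multipliers
  have hm : ∀ c : E, ∃ h : E, c ∈ S → h ∈ Subring.closure ((k₀ : Set E) ∪ {t}) ∧ h ≠ 0 ∧
      IsIntegral (Subring.closure ((k₀ : Set E) ∪ {t})) (h * c) := by
    intro c
    by_cases hc : c ∈ S
    · obtain ⟨h, h1, h2, h3⟩ := rst_mult _ c (halg c hc)
      exact ⟨h, fun _ => ⟨h1, h2, h3⟩⟩
    · exact ⟨0, fun h => absurd h hc⟩
  choose H hH using hm
  have hkt : ∀ h ∈ Subring.closure ((k₀ : Set E) ∪ {t}), ∀ p, D p h = 0 := by
    intro h hh p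
    induction hh using Subring.closure_induction with
    | mem x hx =>
      rcases hx with hx | hx
      · exact hDk p x hx
      · rw [Set.mem_singleton_iff.mp hx]
        exact hDt p
    | zero => exact map_zero _
    | one => exact Derivation.map_one_eq_zero _
    | add x y _ _ hx hy => rw [map_add, hx, hy, add_zero]
    | neg x _ hx => rw [map_neg, hx, neg_zero]
    | mul x y _ _ hx hy => rw [Derivation.leibniz, hx, hy, smul_zero, smul_zero, add_zero]
  set C : Subring E := Subring.closure ((E₀ : Set E) ∪ {t}) with hCdef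
  set T : Set E := {t} ∪ (fun c => H c * c) '' S with hTdef
  have hT : T.Finite := (Set.finite_singleton t).union (hS.image _)
  set A' : Subalgebra E₀ E := Algebra.adjoin E₀ T with hA'def
  have hfg : A'.FG := by
    have := Subalgebra.fg_adjoin_finset (R := E₀) hT.toFinset
    rwa [Set.Finite.coe_toFinset] at this
  haveI : Algebra.FiniteType E₀ A' := A'.fg_iff_finiteType.mp hfg
  haveI hN : IsNoetherianRing A' := Algebra.FiniteType.isNoetherianRing E₀ A'
  set A : Subring E := A'.toSubring with hAdef
  haveI : IsNoetherianRing A := hN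
  have hE₀A : ∀ f ∈ E₀, f ∈ A := fun f hf => A'.algebraMap_mem ⟨f, hf⟩
  have htA : t ∈ A := Algebra.subset_adjoin (Or.inl rfl)
  have hHA : ∀ c ∈ S, H c * c ∈ A := fun c hc => Algebra.subset_adjoin (Or.inr ⟨c, hc, rfl⟩)
  have hCA : C ≤ A := by
    rw [hCdef, Subring.closure_le]
    rintro x (hx | hx)
    · exact hE₀A x hx
    · rw [Set.mem_singleton_iff.mp hx]
      exact htA
  have hktC : Subring.closure ((k₀ : Set E) ∪ {t}) ≤ C := by
    refine Subring.closure_mono ?_
    exact Set.union_subset_union_left _ hk₀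
  have hQ : ∀ n : ℕ, n ≠ 0 → ((n : E))⁻¹ ∈ A := fun n _ => hE₀A _ (E₀.inv_mem (natCast_mem E₀ n))
  -- fractions
  have hfrac : ∀ f : E, ∃ b ∈ A, b ≠ 0 ∧ f * b ∈ A := by
    intro f
    have hf : f ∈ Subfield.closure ((E₀ : Set E) ∪ {t} ∪ S) := by
      rw [hgen]
      exact Subfield.mem_top f
    induction hf using Subfield.closure_induction with
    | mem x hx =>
      rcases hx with (hx | hx) | hx
      · exact ⟨1, A.one_mem, one_ne_zero, by rw [mul_one]; exact hE₀A x hx⟩
      · refine ⟨1, A.one_mem, one_ne_zero, ?_⟩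
        rw [mul_one, Set.mem_singleton_iff.mp hx]
        exact htA
      · refine ⟨H x, hCA (hktC (hH x hx).1), (hH x hx).2.1, ?_⟩
        rw [mul_comm]
        exact hHA x hx
    | one => exact ⟨1, A.one_mem, one_ne_zero, by rw [mul_one]; exact A.one_mem⟩
    | add x y _ _ hx hy =>
      obtain ⟨b, hb, hb0, hxb⟩ := hx
      obtain ⟨b', hb', hb0', hyb⟩ := hy
      refine ⟨b * b', A.mul_mem hb hb', mul_ne_zero hb0 hb0', ?_⟩
      have : (x + y) * (b * b') = x * b * b' + y * b' * b := by ring
      rw [this]
      exact A.add_mem (A.mul_mem hxb hb') (A.mul_mem hyb hb)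
    | neg x _ hx =>
      obtain ⟨b, hb, hb0, hxb⟩ := hx
      exact ⟨b, hb, hb0, by rw [neg_mul]; exact A.neg_mem hxb⟩
    | inv x _ hx =>
      obtain ⟨b, hb, hb0, hxb⟩ := hx
      by_cases hx0 : x = 0
      · refine ⟨1, A.one_mem, one_ne_zero, ?_⟩
        rw [hx0, inv_zero, zero_mul]
        exact A.zero_mem
      · refine ⟨x * b, hxb, mul_ne_zero hx0 hb0, ?_⟩
        rw [← mul_assoc, inv_mul_cancel₀ hx0, one_mul]
        exact hb
    | mul x y _ _ hx hy =>
      obtain ⟨b, hb, hb0, hxb⟩ := hx
      obtain ⟨b', hb', hb0', hyb⟩ := hy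
      refine ⟨b * b', A.mul_mem hb hb', mul_ne_zero hb0 hb0', ?_⟩
      have : (x * y) * (b * b') = (x * b) * (y * b') := by ring
      rw [this]
      exact A.mul_mem hxb hyb
  -- stability of A
  have hDA : ∀ p, ∀ f ∈ A, D p f ∈ A := by
    intro p f hf
    have hf' : f ∈ Algebra.adjoin E₀ T := hf
    induction hf' using Algebra.adjoin_induction with
    | mem x hx =>
      rcases hx with hx | ⟨c, hc, rfl⟩
      · rw [Set.mem_singleton_iff.mp hx, hDt]
        exact A.zero_mem
      · have : D p (H c * c) = 0 := by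
          rw [Derivation.leibniz, hDS p c hc, hkt _ (hH c hc).1 p, smul_zero, smul_zero, add_zero]
        change D p (H c * c) ∈ A
        rw [this]
        exact A.zero_mem
    | algebraMap r => exact hE₀A _ (hE₀ p _ r.2)
    | add x y hx hy hx' hy' =>
      rw [map_add]
      exact A.add_mem (hx' hx) (hy' hy)
    | mul x y hx hy hx' hy' =>
      rw [Derivation.leibniz, smul_eq_mul, smul_eq_mul]
      exact A.add_mem (A.mul_mem hx (hy' hy)) (A.mul_mem hy (hx' hx))
  -- A is integral over C
  have hAint : A ≤ (integralClosure C E).toSubring := by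
    intro f hf
    have hf' : f ∈ Algebra.adjoin E₀ T := hf
    induction hf' using Algebra.adjoin_induction with
    | mem x hx =>
      rcases hx with hx | ⟨c, hc, rfl⟩
      · rw [Set.mem_singleton_iff.mp hx]
        exact (integralClosure C E).algebraMap_mem
          ⟨t, Subring.subset_closure (Or.inr rfl)⟩
      · exact rst_integral_mono hktC (hH c hc).2.2
    | algebraMap r =>
      exact (integralClosure C E).algebraMap_mem ⟨r, Subring.subset_closure (Or.inl r.2)⟩
    | add x y hx hy hx' hy' => exact Subring.add_mem _ (hx' hx) (hy' hy)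
    | mul x y hx hy hx' hy' => exact Subring.mul_mem _ (hx' hx) (hy' hy)
  intro p f hf
  have h1 : IsIntegral C f := hf
  have h2 : IsIntegral A (D p f) :=
    seidenberg A hQ hfrac (D p) (hDA p) f (rst_integral_mono hCA h1)
  have h3 : IsIntegral (integralClosure C E).toSubring (D p f) := rst_integral_mono hAint h2
  have h4 : IsIntegral (integralClosure C E) (D p f) := h3
  exact isIntegral_trans (R := C) (A := integralClosure C E) (D p f) h4

end Pool.Agent.Helper8.LG

end

section

/-! # LG-EXCH: the exchange step -/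

set_option autoImplicit false

namespace Pool.Agent.Helper8.LG

theorem exch_iff {L E : Type*} [Field L] [Field E] [Algebra L E] (S : Set E) (f : E) :
    IsAlgebraic (IntermediateField.adjoin L S) f ↔
      f ∈ (AlgebraicIndependent.matroid L E).closure S := by
  rw [AlgebraicIndependent.matroid_closure_eq, SetLike.mem_coe, Subalgebra.mem_algebraicClosure]
  exact IntermediateField.isAlgebraic_adjoin_iff

/-- The exchange step. -/
theorem exchange {L E : Type*} [Field L] [Field E] [Algebra L E] {β : Type*} [Finite β]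
    (c : β → E) (hc : AlgebraicIndependent L c)
    (f : E) (hf : IsAlgebraic (IntermediateField.adjoin L (Set.range c)) f)
    (h : ∀ b, IsAlgebraic (IntermediateField.adjoin L (c '' {b}ᶜ)) f) : IsAlgebraic L f := by
  have hinj : Function.Injective c := hc.injective
  have hI : (AlgebraicIndependent.matroid L E).Indep (Set.range c) := by
    rw [AlgebraicIndependent.matroid_indep_iff]
    exact hc.to_subtype_range
  have h0 : IsAlgebraic (IntermediateField.adjoin L (∅ : Set E)) f := by
    rw [exch_iff]
    rcases isEmpty_or_nonempty β with hβ | hβ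
    · rw [exch_iff] at hf
      rwa [Set.range_eq_empty] at hf
    · have key := Matroid.Indep.closure_iInter_eq_biInter_closure_of_forall_subset
        (Js := fun b => c '' {b}ᶜ) hI (fun b => Set.image_subset_range _ _)
      have he : (⋂ b, c '' {b}ᶜ) = (∅ : Set E) := by
        ext x
        simp only [Set.mem_iInter, Set.mem_image, Set.mem_compl_iff, Set.mem_singleton_iff,
          Set.mem_empty_iff_false, iff_false]
        intro hx
        obtain ⟨b⟩ := hβ
        obtain ⟨y, -, hy⟩ := hx b
        obtain ⟨z, hz, hz'⟩ := hx y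
        exact hz (hinj (hz'.trans hy.symm))
      rw [he] at key
      rw [key, Set.mem_iInter]
      intro b
      rw [← exch_iff]
      exact h b
  rw [IntermediateField.adjoin_empty] at h0
  exact h0.restrictScalars L

end Pool.Agent.Helper8.LG

end
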