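import Mathlib.FieldTheory.Differential.Basic
import Pool.Agent.Helper74.MG.T08
import Pool.Agent.Helper74.MG.T21
import Pool.Agent.Helper74.MG.T20

section

/-! # LB-DE: extension of derivations, constants (proofs by helper66, from Ext.lean) -/

set_option autoImplicit false

namespace Pool.Agent.Helper10.LB

open scoped BigOperators
open Polynomial Pool.Agent.Helper8.LG

/-- derivations extend to finite extensions in characteristic zero -/
theorem der_ext {F K : Type*} [Field F] [Field K] [CharZero F] [Algebra F K]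
    [FiniteDimensional F K] (D : Derivation ℤ F F) :
    ∃ D' : Derivation ℤ K K, ∀ x, D' (algebraMap F K x) = algebraMap F K (D x) := by
  let : Differential F := ⟨D⟩
  let := Differential.differentialFiniteDimensional F K
  have : DifferentialAlgebra F K := Differential.differentialAlgebraFiniteDimensional
  exact ⟨Differential.deriv, fun x => deriv_algebraMap x⟩

theorem mapD_map {F K : Type*} [Field F] [Field K] [Algebra F K] (D : Derivation ℤ F F)
    (D' : Derivation ℤ K K) (hD : ∀ x, D' (algebraMap F K x) = algebraMap F K (D x)) (g : F[X]) :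
    mapD D' (g.map (algebraMap F K)) = (mapD D g).map (algebraMap F K) := by
  ext n
  rw [coeff_mapD, coeff_map, coeff_map, coeff_mapD, hD]

theorem deriv_aeval {F K : Type*} [Field F] [Field K] [Algebra F K] (D : Derivation ℤ F F)
    (D' : Derivation ℤ K K) (hD : ∀ x, D' (algebraMap F K x) = algebraMap F K (D x)) (g : F[X])
    (c : K) : D' (aeval c g) = aeval c (mapD D g) + aeval c (derivative g) * D' c := by
  have h := deriv_eval D' (g.map (algebraMap F K)) c
  rw [mapD_map D D' hD, derivative_map, eval_map_algebraMap, eval_map_algebraMap,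
    eval_map_algebraMap] at h
  exact h

/-- constants of an algebraic extension are algebraic over the constants -/
theorem const_alg {F K : Type*} [Field F] [Field K] [CharZero F] [Algebra F K]
    {P : Type*} (D : P → Derivation ℤ F F) (D' : P → Derivation ℤ K K)
    (hD : ∀ p x, D' p (algebraMap F K x) = algebraMap F K (D p x)) (c : K)
    (hc : IsAlgebraic F c) (h : ∀ p, D' p c = 0) :
    ∃ g : F[X], g.Monic ∧ (∀ n p, D p (g.coeff n) = 0) ∧ aeval c g = 0 := by
  have hi : IsIntegral F c := hc.isIntegral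
  have hm : (minpoly F c).Monic := minpoly.monic hi
  refine ⟨minpoly F c, hm, fun n p => ?_, minpoly.aeval F c⟩
  have h1 : aeval c (mapD (D p) (minpoly F c)) = 0 := by
    have h2 := deriv_aeval (D p) (D' p) (hD p) (minpoly F c) c
    rw [minpoly.aeval, map_zero, h p, mul_zero, add_zero] at h2
    exact h2.symm
  have h3 : mapD (D p) (minpoly F c) = 0 := by
    by_contra h0
    have h4 : (minpoly F c).degree ≤ (mapD (D p) (minpoly F c)).degree :=
      minpoly.degree_le_of_ne_zero F c h0 h1
    have h5 : (mapD (D p) (minpoly F c)).degree < (minpoly F c).degree := by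
      rw [degree_eq_natDegree hm.ne_zero, degree_lt_iff_coeff_zero]
      intro m hmn
      rw [coeff_mapD]
      rcases eq_or_lt_of_le hmn with h6 | h6
      · rw [← h6, hm.coeff_natDegree]
        exact (D p).map_one_eq_zero
      · rw [coeff_eq_zero_of_natDegree_lt h6, map_zero]
    exact absurd h4 (not_le_of_gt h5)
  rw [← coeff_mapD, h3, coeff_zero]

end Pool.Agent.Helper10.LB

end

section

/-! # LB-CL: the constants of `L` -/

set_option autoImplicit false

namespace Pool.Agent.Helper10.LB

open scoped BigOperators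
open Polynomial Pool.Agent.Helper8.LG

/-- a derivation which kills `k` and the `y_i` is zero -/
theorem cl_zero {k L : Type*} [Field k] [Field L] [CharZero L] [Algebra k L] {T : Type*}
    (y : T → L) (hfin : FiniteDimensional (IntermediateField.adjoin k (Set.range y)) L)
    (δ : Derivation ℤ L L) (hk : ∀ c : k, δ (algebraMap k L c) = 0) (hy : ∀ i, δ (y i) = 0)
    (x : L) : δ x = 0 := by
  have hK : ∀ a ∈ IntermediateField.adjoin k (Set.range y), δ a = 0 := by
    intro a ha
    induction ha using IntermediateField.adjoin_induction with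
    | mem a ha =>
      obtain ⟨i, rfl⟩ := ha
      exact hy i
    | algebraMap c => exact hk c
    | add a b _ _ ha hb => rw [map_add, ha, hb, add_zero]
    | inv a _ ha => rw [Derivation.leibniz_inv, ha, smul_zero]
    | mul a b _ _ ha hb => rw [Derivation.leibniz, ha, hb, smul_zero, smul_zero, add_zero]
  have hi : IsIntegral (IntermediateField.adjoin k (Set.range y)) x :=
    Algebra.IsIntegral.isIntegral x
  have h1 := deriv_aeval (0 : Derivation ℤ (IntermediateField.adjoin k (Set.range y))
    (IntermediateField.adjoin k (Set.range y))) δ (fun a => by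
      rw [Derivation.zero_apply, map_zero]
      exact hK _ a.2) (minpoly (IntermediateField.adjoin k (Set.range y)) x) x
  have h2 : mapD (0 : Derivation ℤ (IntermediateField.adjoin k (Set.range y))
      (IntermediateField.adjoin k (Set.range y)))
      (minpoly (IntermediateField.adjoin k (Set.range y)) x) = 0 := by
    ext n
    rw [coeff_mapD, Derivation.zero_apply, coeff_zero]
  rw [minpoly.aeval, map_zero, h2, map_zero, zero_add] at h1
  have h3 : aeval x (derivative (minpoly (IntermediateField.adjoin k (Set.range y)) x)) ≠ 0 := by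
    have h4 : (minpoly (IntermediateField.adjoin k (Set.range y)) x).Separable :=
      (minpoly.irreducible hi).separable
    exact h4.aeval_derivative_ne_zero (minpoly.aeval _ _)
  exact (mul_eq_zero.1 h1.symm).resolve_left h3

theorem cl_sum_apply {L T : Type*} [Field L] (s : Finset T) (f : T → L)
    (D : T → Derivation ℤ L L) (x : L) :
    (∑ i ∈ s, f i • D i) x = ∑ i ∈ s, f i * D i x := by
  classical
  induction s using Finset.induction_on with
  | empty => simp
  | insert a s ha ih =>
    rw [Finset.sum_insert ha, Finset.sum_insert ha, Derivation.add_apply, ih,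
      Derivation.smul_apply, smul_eq_mul]

/-- the constants are algebraic over `k` -/
theorem cl_alg {k L : Type*} [Field k] [Field L] [CharZero L] [Algebra k L] {P T : Type*}
    [Finite T] [DecidableEq T] (y : T → L) (D : P → Derivation ℤ L L)
    (hy : Dirs k y D) (c : L) (hc : ∀ p, D p c = 0) : IsAlgebraic k c := by
  classical
  have := Fintype.ofFinite T
  by_contra hn
  have hn' : Transcendental k c := hn
  have h1 : AlgebraicIndepOn k id ({c} : Set L) := by
    have h2 : AlgebraicIndependent k (fun x : ({c} : Set L) => (x : L)) :=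
      (algebraicIndependent_singleton_iff (⟨c, rfl⟩ : ({c} : Set L))).2 hn'
    exact h2
  obtain ⟨t, ht, hb⟩ := exists_isTranscendenceBasis_superset (R := k) h1
  obtain ⟨δ, hδ⟩ := red_exists_der (Subtype.val : t → L) hb.1 hb.isAlgebraic
    (fun x => if (x : L) = c then 1 else 0)
  have hδc : δ c = 1 := by
    have := hδ ⟨c, ht rfl⟩
    simpa using this
  choose q hq using hy.dual
  let E : Derivation ℤ L L := δ.restrictScalars ℤ - ∑ i, δ (y i) • D (q i)
  have hE : ∀ x, E x = δ x - ∑ i, δ (y i) * D (q i) x := by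
    intro x
    simp only [E, Derivation.sub_apply, Derivation.restrictScalars_apply]
    rw [cl_sum_apply]
  have h0 : E c = 0 := by
    refine cl_zero (k := k) y hy.fin E (fun a => ?_) (fun j => ?_) c
    · rw [hE, Derivation.map_algebraMap]
      simp [hy.ker]
    · rw [hE]
      simp only [hq]
      rw [Finset.sum_eq_single j]
      · simp
      · intro i _ hij
        rw [if_neg (fun h => hij h.symm), mul_zero]
      · intro h
        exact absurd (Finset.mem_univ _) h
  rw [hE, hδc] at h0
  simp only [hc, mul_zero, Finset.sum_const_zero, sub_zero] at h0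
  exact one_ne_zero h0

open scoped IntermediateField.algebraAdjoinAdjoin in
/-- powers of an algebraic element stay independent over `k(y)` -/
theorem cl_deg {k L : Type*} [Field k] [Field L] [Algebra k L] {T : Type*}
    (y : T → L) (hind : AlgebraicIndependent k y)
    (hfin : FiniteDimensional (IntermediateField.adjoin k (Set.range y)) L) (c : L)
    (hc : IsAlgebraic k c) :
    (minpoly k c).natDegree ≤
      Module.finrank (IntermediateField.adjoin k (Set.range y)) L := by
  classical
  have h1 : AlgebraicIndependent (algebraicClosure k L) y := hind.algebraicClosure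
  let c' : algebraicClosure k L := ⟨c, mem_algebraicClosure_iff.2 hc⟩
  have h2 : LinearIndependent (Algebra.adjoin k (Set.range y))
      (fun i : Fin (minpoly k c).natDegree => c ^ (i : ℕ)) := by
    rw [Fintype.linearIndependent_iff]
    intro g hg
    have hp : ∀ i, ∃ p : MvPolynomial T k, MvPolynomial.aeval y p = (g i : L) := by
      intro i
      have h3 : (g i : L) ∈ (MvPolynomial.aeval (R := k) y).range := by
        rw [← Algebra.adjoin_range_eq_range_aeval]
        exact (g i).2
      exact h3
    choose p hp using hp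
    have h4 : MvPolynomial.aeval y (∑ i : Fin (minpoly k c).natDegree,
        MvPolynomial.C (c' ^ (i : ℕ)) *
        MvPolynomial.map (algebraMap k (algebraicClosure k L)) (p i)) = 0 := by
      rw [map_sum]
      rw [← hg]
      refine Finset.sum_congr rfl fun i _ => ?_
      rw [map_mul, MvPolynomial.aeval_map_algebraMap, hp, MvPolynomial.aeval_C]
      rw [Algebra.smul_def, mul_comm]
      rfl
    have h5 := (injective_iff_map_eq_zero _).1 h1 _ h4
    have h6 : ∀ i, p i = 0 := by
      intro i
      ext m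
      rw [MvPolynomial.coeff_zero]
      have h7 : ∑ j : Fin (minpoly k c).natDegree,
          (MvPolynomial.coeff m (p j)) • c ^ (j : ℕ) = 0 := by
        have h8 := congrArg (MvPolynomial.coeff m) h5
        rw [MvPolynomial.coeff_sum, MvPolynomial.coeff_zero] at h8
        simp only [MvPolynomial.coeff_C_mul, MvPolynomial.coeff_map] at h8
        have h9 := congrArg (algebraMap (algebraicClosure k L) L) h8
        rw [map_sum, map_zero] at h9
        rw [← h9]
        refine Finset.sum_congr rfl fun j _ => ?_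
        rw [map_mul, map_pow, Algebra.smul_def, mul_comm]
        rfl
      exact Fintype.linearIndependent_iff.1 (linearIndependent_pow c) _ h7 i
    intro i
    apply Subtype.ext
    rw [← hp i, h6 i, map_zero]
    rfl
  have h3 : LinearIndependent (IntermediateField.adjoin k (Set.range y))
      (fun i : Fin (minpoly k c).natDegree => c ^ (i : ℕ)) :=
    (LinearIndependent.iff_fractionRing (Algebra.adjoin k (Set.range y)) _).1 h2
  have h4 := h3.fintype_card_le_finrank
  rwa [Fintype.card_fin] at h4

/-- a constant of `L` is a root of a monic polynomial over `k` of fixed degree -/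
theorem const_L {k L : Type*} [Field k] [Field L] [CharZero L] [Algebra k L] {P T : Type*}
    [Finite P] [Finite T] [DecidableEq T] (y : T → L) (D : P → Derivation ℤ L L)
    (hy : Dirs k y D) :
    ∃ N : ℕ, ∀ c : L, (∀ p, D p c = 0) → ∃ g : k[X], g.Monic ∧ g.natDegree = N ∧
      aeval c g = 0 := by
  refine ⟨Module.finrank (IntermediateField.adjoin k (Set.range y)) L, fun c hc => ?_⟩
  have h1 := cl_alg y D hy c hc
  have h2 := cl_deg y hy.ind hy.fin c h1
  have h3 : (minpoly k c).Monic := minpoly.monic h1.isIntegral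
  refine ⟨minpoly k c * X ^ (Module.finrank (IntermediateField.adjoin k (Set.range y)) L -
    (minpoly k c).natDegree), h3.mul (monic_X_pow _), ?_, ?_⟩
  · rw [h3.natDegree_mul (monic_X_pow _), natDegree_X_pow]
    omega
  · rw [map_mul, minpoly.aeval, zero_mul]

end Pool.Agent.Helper10.LB

end

section

/-! # LB-RI: Riccati equations -/

set_option autoImplicit false

namespace Pool.Agent.Helper10.LB

open scoped BigOperators
open Polynomial Pool.Agent.Helper8.LG

/-- `D r = q(r)` for the roots `r` of `h`. -/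
theorem riccati_root {Ω K : Type*} [Field Ω] [Field K] [Algebra Ω K] (D : Derivation ℤ Ω Ω)
    (D' : Derivation ℤ K K) (hD : ∀ x, D' (algebraMap Ω K x) = algebraMap Ω K (D x))
    (h q : Polynomial Ω) (hsep : h.Separable) (hdvd : h ∣ mapD D h + derivative h * q)
    (r : K) (hr : (h.map (algebraMap Ω K)).eval r = 0) :
    D' r = (q.map (algebraMap Ω K)).eval r := by
  have h1 := deriv_eval D' (h.map (algebraMap Ω K)) r
  rw [hr, map_zero] at h1
  have h2 : mapD D' (h.map (algebraMap Ω K)) = (mapD D h).map (algebraMap Ω K) := by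
    ext n
    rw [coeff_mapD, coeff_map, coeff_map, coeff_mapD, hD]
  have h3 : (mapD D h).map (algebraMap Ω K) + derivative (h.map (algebraMap Ω K)) *
      q.map (algebraMap Ω K) = (mapD D h + derivative h * q).map (algebraMap Ω K) := by
    rw [Polynomial.map_add, Polynomial.map_mul, Polynomial.derivative_map]
  have h4 : (h.map (algebraMap Ω K)) ∣ (mapD D h).map (algebraMap Ω K) +
      derivative (h.map (algebraMap Ω K)) * q.map (algebraMap Ω K) := by
    rw [h3]
    exact Polynomial.map_dvd _ hdvd
  have h5 : ((mapD D h).map (algebraMap Ω K) +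
      derivative (h.map (algebraMap Ω K)) * q.map (algebraMap Ω K)).eval r = 0 :=
    Polynomial.eval_eq_zero_of_dvd_of_eval_eq_zero h4 hr
  rw [eval_add, eval_mul] at h5
  rw [h2] at h1
  have h6 : (derivative (h.map (algebraMap Ω K))).eval r ≠ 0 :=
    (Polynomial.Separable.map hsep).eval₂_derivative_ne_zero (RingHom.id K)
      (by simpa [eval₂_id] using hr)
  apply mul_left_cancel₀ h6
  linear_combination -h1 - h5

theorem riccati_quad {K : Type*} [Field K] (g : K[X]) (hg : g.natDegree ≤ 2) (x : K) :
    g.eval x = g.coeff 0 + g.coeff 1 * x + g.coeff 2 * x ^ 2 := by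
  rw [eval_eq_sum_range' (n := 3) (by omega)]
  simp [Finset.sum_range_succ]

/-- Riccati equations: if `z` and all roots of `h` satisfy `D_p z = q_p(z)` with `deg q_p ≤ 2`
and `h` has at least three roots then `z` is algebraic over the field of coefficients, provided
that all constants are. -/
theorem riccati {Ω P : Type*} [Field Ω] [CharZero Ω] (F : Subfield Ω)
    (D : P → Derivation ℤ Ω Ω) (hconst : ∀ c : Ω, (∀ p, D p c = 0) → IsAlgebraic F c)
    (h : Polynomial Ω) (hF : ∀ n, h.coeff n ∈ F) (hsep : h.Separable) (hr : 3 ≤ h.natDegree)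
    (q : P → Polynomial Ω) (hq : ∀ p, (q p).natDegree ≤ 2)
    (hdvd : ∀ p, h ∣ mapD (D p) h + derivative h * q p)
    (z : Ω) (hz : ∀ p, D p z = (q p).eval z) (hhz : h.eval z ≠ 0) : IsAlgebraic F z := by
  classical
  let K := h.SplittingField
  let f := algebraMap Ω K
  have hfinj : Function.Injective f := (algebraMap Ω K).injective
  have hK0 : CharZero K := charZero_of_injective_algebraMap hfinj
  choose D' hD' using fun p => der_ext (K := K) (D p)
  have hh0 : h ≠ 0 := by
    rintro rfl
    simp at hr
  -- three distinct roots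
  have hnd : (h.map f).roots.Nodup := nodup_roots (Polynomial.Separable.map hsep)
  have hcard : (h.map f).roots.card = h.natDegree := by
    have h1 := (Polynomial.SplittingField.splits h).natDegree_eq_card_roots
    rw [← h1]
    exact natDegree_map _
  have hcard' : 3 ≤ (h.map f).roots.toFinset.card := by
    rw [Multiset.toFinset_card_of_nodup hnd, hcard]
    exact hr
  obtain ⟨r1, r2, r3, hr1, hr2, hr3, h12, h13, h23⟩ := Finset.two_lt_card_iff.mp (by omega :
    2 < (h.map f).roots.toFinset.card)
  have hroot : ∀ r ∈ (h.map f).roots.toFinset, (h.map f).eval r = 0 := by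
    intro r hr
    rw [Multiset.mem_toFinset] at hr
    exact (mem_roots'.mp hr).2
  have e1 : ∀ p, D' p r1 = ((q p).map f).eval r1 := fun p =>
    riccati_root (D p) (D' p) (hD' p) h (q p) hsep (hdvd p) r1 (hroot r1 hr1)
  have e2 : ∀ p, D' p r2 = ((q p).map f).eval r2 := fun p =>
    riccati_root (D p) (D' p) (hD' p) h (q p) hsep (hdvd p) r2 (hroot r2 hr2)
  have e3 : ∀ p, D' p r3 = ((q p).map f).eval r3 := fun p =>
    riccati_root (D p) (D' p) (hD' p) h (q p) hsep (hdvd p) r3 (hroot r3 hr3)
  have ez : ∀ p, D' p (f z) = ((q p).map f).eval (f z) := by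
    intro p
    rw [hD', hz, eval_map, eval₂_at_apply]
  have hzr : ∀ r, (h.map f).eval r = 0 → f z - r ≠ 0 := by
    intro r hr0 h0
    rw [sub_eq_zero] at h0
    rw [← h0, eval_map, eval₂_at_apply] at hr0
    exact hhz (hfinj (by rw [hr0, map_zero]))
  have hz1 := hzr r1 (hroot r1 hr1)
  have hz3 := hzr r3 (hroot r3 hr3)
  have h21 : r2 - r1 ≠ 0 := sub_ne_zero.mpr (Ne.symm h12)
  have h23' : r2 - r3 ≠ 0 := sub_ne_zero.mpr h23
  have h31 : r3 - r1 ≠ 0 := sub_ne_zero.mpr (Ne.symm h13)
  have hM : (f z - r3) * (r2 - r1) ≠ 0 := mul_ne_zero hz3 h21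
  -- the cross ratio
  obtain ⟨c, hcM⟩ : ∃ c : K, (f z - r1) * (r2 - r3) = c * ((f z - r3) * (r2 - r1)) :=
    ⟨((f z - r1) * (r2 - r3)) / ((f z - r3) * (r2 - r1)), (div_mul_cancel₀ _ hM).symm⟩
  have hcc : ∀ p, D' p c = 0 := by
    intro p
    have hq2 : ((q p).map f).natDegree ≤ 2 := natDegree_map_le.trans (hq p)
    have h1 := congrArg (D' p) hcM
    rw [Derivation.leibniz, Derivation.leibniz, Derivation.leibniz, map_sub, map_sub, map_sub,
      map_sub, e1 p, e2 p, e3 p, ez p] at h1
    simp only [smul_eq_mul, riccati_quad _ hq2] at h1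
    generalize ((q p).map f).coeff 1 = b1 at h1
    generalize ((q p).map f).coeff 2 = b2 at h1
    generalize ((q p).map f).coeff 0 = b0 at h1
    have h2 : ((f z - r3) * (r2 - r1)) * D' p c = 0 := by
      linear_combination (-1 : K) * h1 + (2 * b1 + b2 * (f z + r1 + r2 + r3)) * hcM
    exact (mul_eq_zero.mp h2).resolve_left hM
  have hcalg : IsAlgebraic Ω c := Algebra.IsAlgebraic.isAlgebraic c
  obtain ⟨g, hgm, hg, hgc⟩ := const_alg D D' hD' c hcalg hcc
  -- algebraicity over `F`
  have hcF : IsAlgebraic F c := by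
    let S : IntermediateField F Ω := algebraicClosure F Ω
    have hmem : ∀ n, g.coeff n ∈ S := fun n => by
      rw [mem_algebraicClosure_iff]
      exact hconst _ (hg n)
    have hlift : g ∈ Polynomial.lifts (algebraMap S Ω) := by
      rw [Polynomial.lifts_iff_coeff_lifts]
      intro n
      exact ⟨⟨g.coeff n, hmem n⟩, rfl⟩
    obtain ⟨g0, hg0⟩ := hlift
    have hg0' : g0.map (algebraMap S Ω) = g := hg0
    have hcS : IsAlgebraic S c := by
      refine ⟨g0, ?_, ?_⟩
      · rintro rfl
        rw [Polynomial.map_zero] at hg0'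
        exact hgm.ne_zero hg0'.symm
      · rw [← hgc, ← hg0', aeval_map_algebraMap]
    have htower : IsScalarTower F S K := IsScalarTower.of_algebraMap_eq (fun x => rfl)
    exact hcS.restrictScalars F
  have hrF : ∀ r, (h.map f).eval r = 0 → IsAlgebraic F r := by
    intro r hr0
    have hlift : h ∈ Polynomial.lifts (algebraMap F Ω) := by
      rw [Polynomial.lifts_iff_coeff_lifts]
      intro n
      exact ⟨⟨h.coeff n, hF n⟩, rfl⟩
    obtain ⟨g0, hg0⟩ := hlift
    have hg0' : g0.map (algebraMap F Ω) = h := hg0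
    refine ⟨g0, ?_, ?_⟩
    · rintro rfl
      rw [Polynomial.map_zero] at hg0'
      exact hh0 hg0'.symm
    · rw [← aeval_map_algebraMap Ω r g0, hg0', aeval_def, ← eval_map]
      exact hr0
  have a1 := hrF r1 (hroot r1 hr1)
  have a2 := hrF r2 (hroot r2 hr2)
  have a3 := hrF r3 (hroot r3 hr3)
  have hden : c * (r2 - r1) - (r2 - r3) ≠ 0 := by
    intro h0
    have h1 : (r2 - r3) * (r3 - r1) = 0 := by
      linear_combination hcM + (f z - r3) * h0
    rcases mul_eq_zero.mp h1 with h2 | h2
    · exact h23' h2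
    · exact h31 h2
  have hzeq : f z = (c * r3 * (r2 - r1) - r1 * (r2 - r3)) / (c * (r2 - r1) - (r2 - r3)) := by
    rw [eq_div_iff hden]
    linear_combination -hcM
  have hzF : IsAlgebraic F (f z) := by
    rw [hzeq, div_eq_mul_inv]
    exact (((hcF.mul a3).mul (a2.sub a1)).sub (a1.mul (a2.sub a3))).mul
      ((hcF.mul (a2.sub a1)).sub (a2.sub a3)).inv
  exact (isAlgebraic_algebraMap_iff (R := F) hfinj).mp hzF

end Pool.Agent.Helper10.LB

end

section

/-! # LB-NT: lines meet the divisor in at least three points -/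

set_option autoImplicit false

namespace Pool.Agent.Helper10.LB

open scoped BigOperators
open Polynomial Pool.Agent.Helper8.LG

private theorem nt_scale {K σ : Type*} [Field K] [Fintype σ] [DecidableEq σ] {n : ℕ}
    (a : Sym σ n → K) (c : K) (x : σ → K) : form a (fun l => c * x l) = c ^ n * form a x := by
  unfold form
  rw [Finset.mul_sum]
  refine Finset.sum_congr rfl fun J _ => ?_
  have h : mon (fun l => c * x l) J = c ^ n * mon x J := by
    unfold mon
    rw [Multiset.prod_map_mul, Multiset.map_const', Multiset.prod_replicate, Sym.card_coe]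
  rw [h]
  ring

/-- the homogeneous version of `lf` with two roots -/
private theorem nt_hom {K : Type*} [Field K] {σ : Type*} [Fintype σ] [DecidableEq σ] {n : ℕ}
    (a : Sym σ n → K) (u v : σ → K) (ρ₁ ρ₂ : K) (α β : ℕ) (hαβ : α + β = n)
    (h : lf a u v = C (form a v) * ((X - C ρ₁) ^ α * (X - C ρ₂) ^ β)) (x y : K) :
    form a (fun l => x * (u l + ρ₁ * v l) + y * (u l + ρ₂ * v l)) =
      form a v * ((y * (ρ₂ - ρ₁)) ^ α * (x * (ρ₁ - ρ₂)) ^ β) := by
  by_cases hxy : x + y = 0
  · have hx : x = -y := by linear_combination hxy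
    have h1 : (fun l => x * (u l + ρ₁ * v l) + y * (u l + ρ₂ * v l)) =
        fun l => (y * (ρ₂ - ρ₁)) * v l := by
      funext l
      rw [hx]
      ring
    have h2 : x * (ρ₁ - ρ₂) = y * (ρ₂ - ρ₁) := by
      rw [hx]
      ring
    rw [h1, nt_scale, h2, ← pow_add, hαβ]
    ring
  · set z : K := (x * ρ₁ + y * ρ₂) / (x + y) with hz
    have hz1 : (x + y) * z = x * ρ₁ + y * ρ₂ := by
      rw [hz]
      field_simp
    have h1 : (fun l => x * (u l + ρ₁ * v l) + y * (u l + ρ₂ * v l)) =
        fun l => (x + y) * (u l + z * v l) := by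
      funext l
      linear_combination (-v l) * hz1
    have h2 : y * (ρ₂ - ρ₁) = (x + y) * (z - ρ₁) := by
      linear_combination -hz1
    have h3 : x * (ρ₁ - ρ₂) = (x + y) * (z - ρ₂) := by
      linear_combination -hz1
    have h5 : (x + y) ^ n = (x + y) ^ α * (x + y) ^ β := by rw [← pow_add, hαβ]
    rw [h1, nt_scale, ← lf_eval, h, h2, h3, mul_pow, mul_pow, h5]
    simp only [eval_mul, eval_C, eval_pow, eval_sub, eval_X]
    ring

/-- the factorisation -/
private theorem nt_fact {K : Type*} [Field K] (f h : K[X]) (hf0 : f ≠ 0) (hh0 : h ≠ 0)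
    (hh : h.Splits) (k : ℕ) (hdvd : f ∣ h ^ k) (ρ₁ ρ₂ : K) (hρ : ρ₁ ≠ ρ₂)
    (hr : ∀ r ∈ h.roots, r = ρ₁ ∨ r = ρ₂) :
    ∃ α β : ℕ, α + β = f.natDegree ∧
      f = C f.leadingCoeff * ((X - C ρ₁) ^ α * (X - C ρ₂) ^ β) := by
  classical
  have hs : f.Splits := (hh.pow k).of_dvd (pow_ne_zero _ hh0) hdvd
  have hsub : f.roots.toFinset ⊆ {ρ₁, ρ₂} := by
    intro r hr1
    rw [Multiset.mem_toFinset, mem_roots hf0] at hr1
    have h1 : (h ^ k).IsRoot r := hr1.dvd hdvd
    rw [IsRoot, eval_pow] at h1
    have h2 : r ∈ h.roots := by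
      rw [mem_roots hh0]
      exact eq_zero_of_pow_eq_zero h1
    rcases hr r h2 with h3 | h3
    · simp [h3]
    · simp [h3]
  refine ⟨f.roots.count ρ₁, f.roots.count ρ₂, ?_, ?_⟩
  · rw [hs.natDegree_eq_card_roots, ← Multiset.toFinset_sum_count_eq,
      Finset.sum_subset hsub fun r _ h1 => ?_, Finset.sum_pair hρ]
    rw [Multiset.mem_toFinset] at h1
    exact Multiset.count_eq_zero_of_notMem h1
  · conv_lhs => rw [hs.eq_prod_roots]
    congr 1
    rw [Finset.prod_multiset_map_count, Finset.prod_subset hsub fun r _ h1 => ?_,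
      Finset.prod_pair hρ]
    rw [Multiset.mem_toFinset] at h1
    rw [Multiset.count_eq_zero_of_notMem h1, pow_zero]

/-- at most two roots -/
private theorem nt_roots {K : Type*} [Field K] (h : K[X]) (hn : h.natDegree ≤ 2) :
    ∃ ρ₁ ρ₂ : K, ρ₁ ≠ ρ₂ ∧ ∀ r ∈ h.roots, r = ρ₁ ∨ r = ρ₂ := by
  classical
  have h1 : h.roots.toFinset.card ≤ 2 :=
    (Multiset.toFinset_card_le _).trans ((card_roots' h).trans hn)
  rcases Nat.lt_or_ge h.roots.toFinset.card 2 with h2 | h2
  · rcases Nat.eq_zero_or_pos h.roots.toFinset.card with h3 | h3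
    · refine ⟨0, 1, zero_ne_one, fun r hr => ?_⟩
      rw [Finset.card_eq_zero] at h3
      rw [← Multiset.mem_toFinset, h3] at hr
      exact absurd hr (Finset.notMem_empty _)
    · obtain ⟨ρ, hρ⟩ := Finset.card_eq_one.1 (by omega : h.roots.toFinset.card = 1)
      refine ⟨ρ, ρ + 1, fun h4 => ?_, fun r hr => ?_⟩
      · exact one_ne_zero (left_eq_add.1 h4)
      · rw [← Multiset.mem_toFinset, hρ, Finset.mem_singleton] at hr
        exact Or.inl hr
  · obtain ⟨ρ₁, ρ₂, hne, hρ⟩ := Finset.card_eq_two.1 (le_antisymm h1 h2)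
    refine ⟨ρ₁, ρ₂, hne, fun r hr => ?_⟩
    rw [← Multiset.mem_toFinset, hρ, Finset.mem_insert, Finset.mem_singleton] at hr
    exact hr

/-- If `F_i = 0` on the line `u + Y v` for `i ∈ Z` and the `F_i(u + Y v)`, `i ∉ Z`, have full
degree, then together they have at least three distinct roots (over an algebraic closure). -/
theorem three_roots {E : Type*} [Field E] [CharZero E] {σ ι τ : Type*} [Fintype σ]
    [DecidableEq σ] [Fintype ι] [DecidableEq ι] [Fintype τ] (d : ι → ℕ) (hd : ∀ i, 0 < d i)
    (a : (i : ι) → Sym σ (d i) → E) (D : Ix σ d → Derivation ℤ E E)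
    (jj : τ → Ix σ d) (θ : τ → Ix σ d → E) (hD : Dual d a D jj θ) (Z : Finset ι)
    (hnum : 2 * Fintype.card σ + Fintype.card τ ≤ ∑ i, d i + Z.card + 1)
    (u v : σ → E) (b b' : σ) (hpi : u b * v b' - u b' * v b ≠ 0)
    (hZ : ∀ i ∈ Z, lf (a i) u v = 0) (hU : ∀ i ∉ Z, form (a i) v ≠ 0)
    (h : E[X]) (h0 : h ≠ 0) (hdvd : ∀ i ∉ Z, ∃ n, lf (a i) u v ∣ h ^ n) :
    3 ≤ h.natDegree := by
  classical
  by_contra hlt
  have hn2 : h.natDegree ≤ 2 := by omega
  let K := h.SplittingField
  let φ : E →+* K := algebraMap E K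
  have hφ : Function.Injective φ := φ.injective
  have : CharZero K := charZero_of_injective_algebraMap hφ
  -- the polynomial over `K`
  have hhK0 : h.map φ ≠ 0 := (Polynomial.map_ne_zero_iff hφ).2 h0
  have hhK : (h.map φ).Splits := SplittingField.splits h
  obtain ⟨ρ₁, ρ₂, hρ, hroots⟩ := nt_roots (h.map φ) (by rw [natDegree_map]; exact hn2)
  -- derivations
  choose D' hD' using fun s : Ix σ d => der_ext (K := K) (D s)
  have hDual : Dual d (fun i J => φ (a i J)) D' jj (fun j s => φ (θ j s)) := by
    intro s q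
    have h1 := hD' s (a q.1 q.2)
    rw [hD s q] at h1
    rw [show D' s (φ (a q.1 q.2)) = _ from h1, map_sub, map_sum]
    congr 1
    · split_ifs
      · exact map_one φ
      · exact map_zero φ
    · refine Finset.sum_congr rfl fun j _ => ?_
      split_ifs
      · rfl
      · exact map_zero φ
  -- factorisations
  have hfac : ∀ i ∉ Z, ∃ α β : ℕ, α + β = d i ∧
      lf (fun J => φ (a i J)) (fun l => φ (u l)) (fun l => φ (v l)) =
        C (form (fun J => φ (a i J)) fun l => φ (v l)) *
          ((X - C ρ₁) ^ α * (X - C ρ₂) ^ β) := by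
    intro i hi
    obtain ⟨k, hk⟩ := hdvd i hi
    have hv : form (fun J => φ (a i J)) (fun l => φ (v l)) ≠ 0 := by
      rw [← pd_map_form]
      exact (map_ne_zero φ).2 (hU i hi)
    have hc := lf_coeff_top (fun J => φ (a i J)) (fun l => φ (u l)) (fun l => φ (v l))
    have hle := lf_natDegree_le (fun J => φ (a i J)) (fun l => φ (u l)) (fun l => φ (v l))
    have hdeg : (lf (fun J => φ (a i J)) (fun l => φ (u l)) (fun l => φ (v l))).natDegree =
        d i := by
      refine le_antisymm hle (le_natDegree_of_ne_zero ?_)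
      rw [hc]
      exact hv
    have hf0 : lf (fun J => φ (a i J)) (fun l => φ (u l)) (fun l => φ (v l)) ≠ 0 := by
      intro h1
      rw [h1, coeff_zero] at hc
      exact hv hc.symm
    obtain ⟨α, β, h1, h2⟩ := nt_fact _ _ hf0 hhK0 hhK k (by
      rw [← lf_map, ← Polynomial.map_pow]
      exact Polynomial.map_dvd φ hk) ρ₁ ρ₂ hρ hroots
    refine ⟨α, β, h1.trans hdeg, ?_⟩
    rw [leadingCoeff, hdeg, hc] at h2
    exact h2
  choose! α β hαβ hlf using hfac
  -- the two points
  set p : σ → K := fun l => φ (u l) + ρ₁ * φ (v l) with hp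
  set q : σ → K := fun l => φ (u l) + ρ₂ * φ (v l) with hq
  have hdet : p b * q b' - p b' * q b ≠ 0 := by
    have h1 : p b * q b' - p b' * q b = (ρ₂ - ρ₁) * φ (u b * v b' - u b' * v b) := by
      rw [hp, hq, map_sub, map_mul, map_mul]
      ring
    rw [h1]
    exact mul_ne_zero (sub_ne_zero.2 hρ.symm) ((map_ne_zero φ).2 hpi)
  obtain ⟨ip, hip⟩ : ∃ l, p l ≠ 0 := by
    by_contra! h1
    rw [h1 b, h1 b'] at hdet
    simp at hdet
  obtain ⟨iq, hiq⟩ : ∃ l, q l ≠ 0 := by
    by_contra! h1
    rw [h1 b, h1 b'] at hdet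
    simp at hdet
  have hform : ∀ i (x y : K), form (fun J => φ (a i J)) (fun l => x * p l + y * q l) =
      if i ∈ Z then 0 else form (fun J => φ (a i J)) (fun l => φ (v l)) *
        ((y * (ρ₂ - ρ₁)) ^ α i * (x * (ρ₁ - ρ₂)) ^ β i) := by
    intro i x y
    split_ifs with hi
    · have h1 : lf (fun J => φ (a i J)) (fun l => φ (u l)) (fun l => φ (v l)) = 0 := by
        rw [← lf_map, hZ i hi, Polynomial.map_zero]
      have h2 : form (fun J => φ (a i J)) (fun l => φ (v l)) = 0 := by
        rw [← lf_coeff_top (fun J => φ (a i J)) (fun l => φ (u l)) (fun l => φ (v l)), h1,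
          coeff_zero]
      have h3 := nt_hom (fun J => φ (a i J)) (fun l => φ (u l)) (fun l => φ (v l)) ρ₁ ρ₂ (d i) 0
        (Nat.add_zero _) (by rw [h1, h2, C_0, zero_mul]) x y
      rw [h2, zero_mul] at h3
      exact h3
    · exact nt_hom _ _ _ ρ₁ ρ₂ (α i) (β i) (hαβ i hi) (hlf i hi) x y
  refine Pool.Agent.Helper49.LG.no_two d (fun i J => φ (a i J)) D' jj (fun j s => φ (θ j s))
    hDual (fun l => (p ip)⁻¹ * p l) (fun l => (q iq)⁻¹ * q l) b b' ?_ ip iq
    (inv_mul_cancel₀ hip) (inv_mul_cancel₀ hiq) Zᶜ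
    (fun i => if i ∈ Z then 0 else form (fun J => φ (a i J)) (fun l => φ (v l)) *
        (((q iq)⁻¹ * (ρ₂ - ρ₁)) ^ α i * ((p ip)⁻¹ * (ρ₁ - ρ₂)) ^ β i)) α ?_ ?_ ?_
  · have h1 : (p ip)⁻¹ * p b * ((q iq)⁻¹ * q b') - (p ip)⁻¹ * p b' * ((q iq)⁻¹ * q b) =
        (p ip)⁻¹ * (q iq)⁻¹ * (p b * q b' - p b' * q b) := by ring
    rw [h1]
    exact mul_ne_zero (mul_ne_zero (inv_ne_zero hip) (inv_ne_zero hiq)) hdet
  · intro i hi
    rw [Finset.mem_compl, not_not] at hi
    rw [if_pos hi]
  · intro i n
    have h1 : (fun l => (p ip)⁻¹ * p l + (n : K) * ((q iq)⁻¹ * q l)) =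
        fun l => (p ip)⁻¹ * p l + ((n : K) * (q iq)⁻¹) * q l := by
      funext l
      ring
    rw [h1, hform]
    split_ifs
    · rw [zero_mul]
    · rw [mul_assoc (n : K), mul_pow (n : K)]
      ring
  · have h1 : Zᶜ.card = Fintype.card ι - Z.card := Finset.card_compl Z
    have h2 : Z.card ≤ Fintype.card ι := Finset.card_le_univ Z
    have h3 : ∑ i, (d i + 1) = ∑ i, d i + Fintype.card ι := by
      rw [Finset.sum_add_distrib, Finset.sum_const, smul_eq_mul, mul_one, Finset.card_univ]
    omega

end Pool.Agent.Helper10.LB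

end
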