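import Pool.Agent.Helper74.MG.T08
import Pool.Agent.Helper74.MG.T12
import Pool.Agent.Helper74.MG.T19
import Pool.Agent.Helper74.MG.T13
import Pool.Agent.Helper74.MG.T22

section

/-! # LB-BF: the bounded elements of the ultrapower -/

set_option autoImplicit false

namespace Pool.Agent.Helper10.LB

open scoped BigOperators
open Polynomial Pool.Agent.Helper8.LG

universe v

variable (k : Type v) {L Ω : Type*} [Field k] [Field L] [Algebra k L] [Field Ω]
  (Q : (ℕ → L) →+* Ω)

/-- `Q` is the quotient map onto the ultrapower -/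
structure IsUl (Q : (ℕ → L) →+* Ω) : Prop where
  surj : Function.Surjective Q
  ker : ∀ f, Q f = 0 ↔ ∀ᶠ m in (Filter.hyperfilter ℕ : Filter ℕ), f m = 0

/-- the bounded elements: quotients of sequences with values in finite-dimensional `k`-spaces -/
def bset : Set Ω :=
  {z | ∃ V : Submodule k L, FiniteDimensional k V ∧ ∃ n d : ℕ → L,
    (∀ m, n m ∈ V) ∧ (∀ m, d m ∈ V) ∧ (∀ m, d m ≠ 0) ∧ z * Q d = Q n}

variable {k Q}

theorem bf_ne (hQ : IsUl Q) (d : ℕ → L)
    (hd : ∀ᶠ m in (Filter.hyperfilter ℕ : Filter ℕ), d m ≠ 0) : Q d ≠ 0 := by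
  intro h
  rw [hQ.ker] at h
  obtain ⟨m, h1, h2⟩ := (h.and hd).exists
  exact h2 h1

theorem bf_prod {S : Type*} (W : Submodule k L) (T : Finset S) (f : S → L)
    (hf : ∀ s ∈ T, f s ∈ W) : ∏ s ∈ T, f s ∈ W ^ T.card := by
  classical
  induction T using Finset.induction_on with
  | empty =>
    rw [Finset.prod_empty, Finset.card_empty, pow_zero]
    exact Submodule.one_le.1 le_rfl
  | insert a T ha ih =>
    rw [Finset.prod_insert ha, Finset.card_insert_of_notMem ha, pow_succ']
    exact Submodule.mul_mem_mul (hf a (Finset.mem_insert_self a T))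
      (ih fun s hs => hf s (Finset.mem_insert_of_mem hs))

theorem bf_fd_pow (W : Submodule k L) [FiniteDimensional k W] (n : ℕ) :
    FiniteDimensional k ↥(W ^ n) := by
  have h : W.FG := (Submodule.fg_iff_finiteDimensional W).2 inferInstance
  exact (Submodule.fg_iff_finiteDimensional _).1 (h.pow n)

theorem bf_fd_mul (V W : Submodule k L) [FiniteDimensional k V] [FiniteDimensional k W] :
    FiniteDimensional k ↥(V * W) := by
  have h : V.FG := (Submodule.fg_iff_finiteDimensional V).2 inferInstance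
  have h' : W.FG := (Submodule.fg_iff_finiteDimensional W).2 inferInstance
  exact (Submodule.fg_iff_finiteDimensional _).1 (h.mul h')

/-- finitely many bounded elements have a common denominator -/
theorem bset_common (hQ : IsUl Q) {S : Type*} [Finite S] (z : S → Ω) (hz : ∀ s, z s ∈ bset k Q) :
    ∃ V : Submodule k L, FiniteDimensional k V ∧ ∃ (n : S → ℕ → L) (d : ℕ → L),
      (∀ s m, n s m ∈ V) ∧ (∀ m, d m ∈ V) ∧ (∀ m, d m ≠ 0) ∧ ∀ s, z s * Q d = Q (n s) := by
  classical
  have := Fintype.ofFinite S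
  choose V hV n d hn hd hd0 hz' using hz
  let W : Submodule k L := ⨆ s, V s
  have hW : FiniteDimensional k W := inferInstance
  have hVW : ∀ s, V s ≤ W := fun s => le_iSup V s
  let f : S → ℕ → S → L := fun s m t => if t = s then n s m else d t m
  refine ⟨W ^ (Finset.univ : Finset S).card, bf_fd_pow W _, fun s m => ∏ t, f s m t,
    fun m => ∏ t, d t m, fun s m => ?_, fun m => ?_, fun m => ?_, fun s => ?_⟩
  · refine bf_prod W _ _ fun t _ => ?_
    by_cases h : t = s
    · simp only [f, if_pos h]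
      exact hVW s (hn s m)
    · simp only [f, if_neg h]
      exact hVW t (hd t m)
  · exact bf_prod W _ _ fun t _ => hVW t (hd t m)
  · exact Finset.prod_ne_zero_iff.2 fun t _ => hd0 t m
  · have h1 : (fun m => ∏ t, d t m) = d s * fun m => ∏ t ∈ Finset.univ.erase s, d t m := by
      funext m
      exact (Finset.mul_prod_erase _ _ (Finset.mem_univ s)).symm
    have h2 : (fun m => ∏ t, f s m t) = n s * fun m => ∏ t ∈ Finset.univ.erase s, d t m := by
      funext m
      rw [← Finset.mul_prod_erase _ _ (Finset.mem_univ s)]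
      have h3 : f s m s = n s m := if_pos rfl
      rw [h3]
      show _ = n s m * _
      congr 1
      exact Finset.prod_congr rfl fun t ht => if_neg (Finset.ne_of_mem_erase ht)
    show z s * Q (fun m => ∏ t, d t m) = Q (fun m => ∏ t, f s m t)
    rw [h1, h2, map_mul, map_mul, ← mul_assoc, hz' s]

/-- the same with the quotients themselves -/
theorem bset_lift (hQ : IsUl Q) {S : Type*} [Finite S] (z : S → Ω) (hz : ∀ s, z s ∈ bset k Q) :
    ∃ V : Submodule k L, FiniteDimensional k V ∧ ∃ (ζ : S → ℕ → L) (e : ℕ → L),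
      (∀ m, e m ∈ V) ∧ (∀ m, e m ≠ 0) ∧ (∀ s m, e m * ζ s m ∈ V) ∧ ∀ s, Q (ζ s) = z s := by
  obtain ⟨V, hV, n, d, hn, hd, hd0, h⟩ := bset_common hQ z hz
  refine ⟨V, hV, fun s m => n s m / d m, d, hd, hd0, fun s m => ?_, fun s => ?_⟩
  · show d m * (n s m / d m) ∈ V
    rw [mul_div_cancel₀ _ (hd0 m)]
    exact hn s m
  · rw [ul_Q_div Q hQ.ker _ _ hd0, ← h s]
    exact mul_div_cancel_right₀ _ (bf_ne hQ d (Filter.Eventually.of_forall hd0))

theorem bset_of_fd (hQ : IsUl Q) (V : Submodule k L) [FiniteDimensional k V] (n d : ℕ → L)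
    (hn : ∀ᶠ m in (Filter.hyperfilter ℕ : Filter ℕ), n m ∈ V)
    (hd : ∀ᶠ m in (Filter.hyperfilter ℕ : Filter ℕ), d m ∈ V)
    (hd0 : ∀ᶠ m in (Filter.hyperfilter ℕ : Filter ℕ), d m ≠ 0)
    (z : Ω) (hz : z * Q d = Q n) : z ∈ bset k Q := by
  classical
  let G : ℕ → Prop := fun m => n m ∈ V ∧ d m ∈ V ∧ d m ≠ 0
  have hG : ∀ᶠ m in (Filter.hyperfilter ℕ : Filter ℕ), G m := hn.and (hd.and hd0)
  let n' : ℕ → L := fun m => if G m then n m else 1
  let d' : ℕ → L := fun m => if G m then d m else 1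
  have hV1 : V ≤ V ⊔ k ∙ (1 : L) := le_sup_left
  have h1V : (1 : L) ∈ V ⊔ k ∙ (1 : L) :=
    (le_sup_right : k ∙ (1 : L) ≤ V ⊔ k ∙ (1 : L)) (Submodule.mem_span_singleton_self _)
  have e1 : Q d' = Q d := by
    rw [ul_eq Q hQ.ker]
    filter_upwards [hG] with m hm
    exact if_pos hm
  have e2 : Q n' = Q n := by
    rw [ul_eq Q hQ.ker]
    filter_upwards [hG] with m hm
    exact if_pos hm
  refine ⟨V ⊔ k ∙ (1 : L), inferInstance, n', d', fun m => ?_, fun m => ?_, fun m => ?_, ?_⟩
  · by_cases h : G m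
    · simp only [n', if_pos h]
      exact hV1 h.1
    · simp only [n', if_neg h]
      exact h1V
  · by_cases h : G m
    · simp only [d', if_pos h]
      exact hV1 h.2.1
    · simp only [d', if_neg h]
      exact h1V
  · by_cases h : G m
    · simp only [d', if_pos h]
      exact h.2.2
    · simp only [d', if_neg h]
      exact one_ne_zero
  · rw [e1, e2, hz]

theorem bset_const (hQ : IsUl Q) (b : L) : (Q fun _ => b) ∈ bset k Q := by
  have hfd : FiniteDimensional k (Submodule.span k ({b, 1} : Set L)) :=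
    FiniteDimensional.span_of_finite k (Set.toFinite _)
  refine bset_of_fd hQ (Submodule.span k {b, 1}) (fun _ => b) (fun _ => 1)
    (Filter.Eventually.of_forall fun _ => Submodule.subset_span (Set.mem_insert _ _))
    (Filter.Eventually.of_forall fun _ => Submodule.subset_span
      (Set.mem_insert_of_mem _ (Set.mem_singleton _)))
    (Filter.Eventually.of_forall fun _ => one_ne_zero) _ ?_
  have h : Q (fun _ => (1 : L)) = 1 := map_one Q
  rw [h, mul_one]

theorem bset_mul (hQ : IsUl Q) (x y : Ω) (hx : x ∈ bset k Q) (hy : y ∈ bset k Q) :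
    x * y ∈ bset k Q := by
  obtain ⟨V, hV, n, d, hn, hd, hd0, h1⟩ := bset_common hQ (fun b : Bool => if b then x else y)
    (fun b => by cases b <;> assumption)
  have hF := bf_fd_mul V V
  refine bset_of_fd hQ (V * V) (n true * n false) (d * d)
    (Filter.Eventually.of_forall fun m => Submodule.mul_mem_mul (hn _ m) (hn _ m))
    (Filter.Eventually.of_forall fun m => Submodule.mul_mem_mul (hd m) (hd m))
    (Filter.Eventually.of_forall fun m => mul_ne_zero (hd0 m) (hd0 m)) _ ?_
  have e1 : x * Q d = Q (n true) := h1 true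
  have e2 : y * Q d = Q (n false) := h1 false
  rw [map_mul, map_mul, ← e1, ← e2]
  ring

theorem bset_add (hQ : IsUl Q) (x y : Ω) (hx : x ∈ bset k Q) (hy : y ∈ bset k Q) :
    x + y ∈ bset k Q := by
  obtain ⟨V, hV, n, d, hn, hd, hd0, h1⟩ := bset_common hQ (fun b : Bool => if b then x else y)
    (fun b => by cases b <;> assumption)
  refine bset_of_fd hQ V (n true + n false) d
    (Filter.Eventually.of_forall fun m => add_mem (hn _ m) (hn _ m))
    (Filter.Eventually.of_forall fun m => hd m)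
    (Filter.Eventually.of_forall fun m => hd0 m) _ ?_
  have e1 : x * Q d = Q (n true) := h1 true
  have e2 : y * Q d = Q (n false) := h1 false
  rw [map_add, ← e1, ← e2]
  ring

theorem bset_inv (hQ : IsUl Q) (x : Ω) (hx : x ∈ bset k Q) : x⁻¹ ∈ bset k Q := by
  rcases eq_or_ne x 0 with h0 | h0
  · rw [h0, inv_zero, ← h0]
    exact hx
  · obtain ⟨V, hV, n, d, hn, hd, hd0, h1⟩ := hx
    have hd' := bf_ne hQ d (Filter.Eventually.of_forall hd0)
    refine bset_of_fd hQ V d n (Filter.Eventually.of_forall fun m => hd m)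
      (Filter.Eventually.of_forall fun m => hn m) ?_ _ ?_
    · have h2 : Q n ≠ 0 := by
        rw [← h1]
        exact mul_ne_zero h0 hd'
      exact Ultrafilter.eventually_not.2 fun h3 => h2 ((hQ.ker n).2 h3)
    · rw [← h1, inv_mul_cancel_left₀ h0]

variable (k) in
/-- the subfield of the bounded elements -/
theorem exists_BF (hQ : IsUl Q) : ∃ F : Subfield Ω, (F : Set Ω) = bset k Q := by
  have h1 : (1 : Ω) ∈ bset k Q := by
    have h := bset_const (k := k) hQ (1 : L)
    have h' : Q (fun _ => (1 : L)) = 1 := map_one Q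
    rwa [h'] at h
  have h0 : (0 : Ω) ∈ bset k Q := by
    have h := bset_const (k := k) hQ (0 : L)
    have h' : Q (fun _ => (0 : L)) = 0 := map_zero Q
    rwa [h'] at h
  have hm : (-1 : Ω) ∈ bset k Q := by
    have h := bset_const (k := k) hQ (-1 : L)
    have h' : Q (fun _ => (-1 : L)) = -1 := by
      have h2 : (fun _ : ℕ => (-1 : L)) = -1 := rfl
      rw [h2, map_neg, map_one]
    rwa [h'] at h
  exact ⟨{ carrier := bset k Q
           mul_mem' := fun {x y} hx hy => bset_mul hQ x y hx hy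
           one_mem' := h1
           add_mem' := fun {x y} hx hy => bset_add hQ x y hx hy
           zero_mem' := h0
           neg_mem' := fun {x} hx => by
             rw [← neg_one_mul]
             exact bset_mul hQ _ _ hm hx
           inv_mem' := fun x hx => bset_inv hQ x hx }, rfl⟩

variable (k) in
/-- the subfield of the bounded elements -/
noncomputable def BF (hQ : IsUl Q) : Subfield Ω := (exists_BF k hQ).choose

variable (k) in
theorem mem_BF (hQ : IsUl Q) (z : Ω) : z ∈ BF k hQ ↔ z ∈ bset k Q := by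
  have h := (exists_BF k hQ).choose_spec
  rw [← h]
  rfl

theorem const_mem (hQ : IsUl Q) (b : L) : (Q fun _ => b) ∈ BF k hQ := by
  rw [mem_BF]
  exact bset_const hQ b

/-- stable under the derivations which kill `k` -/
theorem der_mem (hQ : IsUl Q) (D : Derivation ℤ L L) (hD : ∀ c : k, D (algebraMap k L c) = 0)
    (z : Ω) (hz : z ∈ BF k hQ) : ulDer Q hQ.surj hQ.ker D z ∈ BF k hQ := by
  rw [mem_BF] at hz ⊢
  obtain ⟨V, hV, n, d, hn, hd, hd0, h1⟩ := hz
  let T : L →ₗ[k] L :=
    { toFun := D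
      map_add' := fun x y => map_add D x y
      map_smul' := fun c x => by
        show D (c • x) = c • D x
        rw [Algebra.smul_def c x, D.leibniz, hD, smul_zero, add_zero, smul_eq_mul,
          Algebra.smul_def c (D x)] }
  let W : Submodule k L := V ⊔ V.map T
  have hW : FiniteDimensional k W := inferInstance
  have hF := bf_fd_mul W W
  have hVW : V ≤ W := le_sup_left
  have hTW : ∀ x ∈ V, D x ∈ W := fun x hx =>
    (le_sup_right : V.map T ≤ W) (Submodule.mem_map_of_mem (f := T) hx)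
  have hd' := bf_ne hQ d (Filter.Eventually.of_forall hd0)
  refine bset_of_fd hQ (W * W) (fun m => D (n m) * d m - n m * D (d m)) (d * d)
    (Filter.Eventually.of_forall fun m => sub_mem
      (Submodule.mul_mem_mul (hTW _ (hn m)) (hVW (hd m)))
      (Submodule.mul_mem_mul (hVW (hn m)) (hTW _ (hd m))))
    (Filter.Eventually.of_forall fun m => Submodule.mul_mem_mul (hVW (hd m)) (hVW (hd m)))
    (Filter.Eventually.of_forall fun m => mul_ne_zero (hd0 m) (hd0 m)) _ ?_
  have e1 : ulDer Q hQ.surj hQ.ker D (z * Q d) = ulDer Q hQ.surj hQ.ker D (Q n) := by rw [h1]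
  rw [Derivation.leibniz, ulDer_apply, ulDer_apply, smul_eq_mul, smul_eq_mul] at e1
  have e2 : (fun m => D (n m) * d m - n m * D (d m)) =
      (fun m => D (n m)) * d - n * (fun m => D (d m)) := rfl
  rw [e2, map_sub, map_mul, map_mul, map_mul, ← e1, ← h1]
  ring

/-- Los for polynomials: a polynomial over the ring of sequences whose image is zero is zero at
almost all places -/
theorem poly_los (hQ : IsUl Q) (p : (ℕ → L)[X]) (hp : p.map Q = 0) :
    ∀ᶠ m in (Filter.hyperfilter ℕ : Filter ℕ),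
      p.map (Pi.evalRingHom (fun _ : ℕ => L) m) = 0 := by
  have h1 : ∀ n ∈ Finset.range (p.natDegree + 1),
      ∀ᶠ m in (Filter.hyperfilter ℕ : Filter ℕ), p.coeff n m = 0 := by
    intro n _
    rw [← hQ.ker, ← coeff_map, hp, coeff_zero]
  rw [← Filter.eventually_all_finset] at h1
  filter_upwards [h1] with m hm
  ext n
  rw [coeff_map, coeff_zero]
  show p.coeff n m = 0
  by_cases hn : n ∈ Finset.range (p.natDegree + 1)
  · exact hm n hn
  · rw [Finset.mem_range, not_lt] at hn
    rw [coeff_eq_zero_of_natDegree_lt hn]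
    rfl

/-- polynomials with bounded coefficients lift to polynomials with bounded coefficients -/
theorem poly_lift (hQ : IsUl Q) {S : Type*} [Finite S] (p : S → Polynomial Ω)
    (hp : ∀ s n, (p s).coeff n ∈ BF k hQ) {S' : Type*} [Finite S'] (z : S' → Ω)
    (hz : ∀ s, z s ∈ BF k hQ) :
    ∃ V : Submodule k L, FiniteDimensional k V ∧
      ∃ (π : S → (ℕ → L)[X]) (ζ : S' → ℕ → L) (e : ℕ → L),
        (∀ m, e m ∈ V) ∧ (∀ m, e m ≠ 0) ∧ (∀ s n m, e m * (π s).coeff n m ∈ V) ∧
        (∀ s m, e m * ζ s m ∈ V) ∧ (∀ s, (π s).map Q = p s) ∧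
        (∀ s, (π s).natDegree ≤ (p s).natDegree) ∧ (∀ s, (p s).Monic → (π s).Monic) ∧
        ∀ s, Q (ζ s) = z s := by
  classical
  have := Fintype.ofFinite S
  have hBS : ∀ x : (Σ s : S, Fin ((p s).natDegree + 1)) ⊕ S',
      Sum.elim (fun y : Σ s : S, Fin ((p s).natDegree + 1) => (p y.1).coeff y.2) z x ∈
        bset k Q := by
    intro x
    rw [← mem_BF (k := k) hQ]
    rcases x with y | s
    · exact hp _ _
    · exact hz s
  obtain ⟨V, hV, ζ, e, he, he0, h1, h2⟩ := bset_lift hQ _ hBS
  let c : S → ℕ → ℕ → L := fun s n => if n = (p s).natDegree ∧ (p s).Monic then 1 else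
    if h : n < (p s).natDegree + 1 then ζ (Sum.inl ⟨s, ⟨n, h⟩⟩) else 0
  let π : S → (ℕ → L)[X] := fun s =>
    ∑ n ∈ Finset.range ((p s).natDegree + 1), monomial n (c s n)
  have hco : ∀ s n, (π s).coeff n = if n < (p s).natDegree + 1 then c s n else 0 := by
    intro s n
    simp only [π]
    rw [finsetSum_coeff]
    simp only [coeff_monomial]
    rw [Finset.sum_ite_eq' (Finset.range ((p s).natDegree + 1)) n]
    simp only [Finset.mem_range]
  refine ⟨V, hV, π, fun s => ζ (Sum.inr s), e, he, he0, fun s n m => ?_, fun s m => h1 _ m,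
    fun s => ?_, fun s => ?_, fun s hs => ?_, fun s => h2 _⟩
  · rw [hco]
    by_cases hn : n < (p s).natDegree + 1
    · rw [if_pos hn]
      by_cases hm : n = (p s).natDegree ∧ (p s).Monic
      · simp only [c, if_pos hm]
        show e m * 1 ∈ V
        rw [mul_one]
        exact he m
      · simp only [c, if_neg hm, dif_pos hn]
        exact h1 _ m
    · rw [if_neg hn]
      show e m * 0 ∈ V
      rw [mul_zero]
      exact zero_mem V
  · ext n
    rw [coeff_map, hco]
    by_cases hn : n < (p s).natDegree + 1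
    · rw [if_pos hn]
      by_cases hm : n = (p s).natDegree ∧ (p s).Monic
      · simp only [c, if_pos hm]
        rw [map_one, hm.1]
        exact hm.2.symm
      · simp only [c, if_neg hm, dif_pos hn]
        exact h2 _
    · rw [if_neg hn, map_zero, coeff_eq_zero_of_natDegree_lt (by omega)]
  · rw [natDegree_le_iff_coeff_eq_zero]
    intro n hn
    rw [hco, if_neg (by omega)]
  · refine monic_of_natDegree_le_of_coeff_eq_one (p s).natDegree ?_ ?_
    · rw [natDegree_le_iff_coeff_eq_zero]
      intro n hn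
      rw [hco, if_neg (by omega)]
    · rw [hco, if_pos (by omega)]
      exact if_pos ⟨rfl, hs⟩

theorem map_mapD (hQ : IsUl Q) (D : Derivation ℤ L L) (p : (ℕ → L)[X]) :
    ∃ p' : (ℕ → L)[X], p'.map Q = mapD (ulDer Q hQ.surj hQ.ker D) (p.map Q) ∧
      ∀ m, p'.map (Pi.evalRingHom (fun _ : ℕ => L) m) =
        mapD D (p.map (Pi.evalRingHom (fun _ : ℕ => L) m)) := by
  classical
  have hco : ∀ n, (∑ i ∈ Finset.range (p.natDegree + 1),
      monomial i (fun m => D (p.coeff i m))).coeff n = fun m => D (p.coeff n m) := by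
    intro n
    rw [finsetSum_coeff]
    simp only [coeff_monomial]
    rw [Finset.sum_ite_eq' (Finset.range (p.natDegree + 1)) n]
    by_cases hn : n ∈ Finset.range (p.natDegree + 1)
    · rw [if_pos hn]
    · rw [if_neg hn]
      rw [Finset.mem_range, not_lt] at hn
      funext m
      rw [coeff_eq_zero_of_natDegree_lt hn]
      exact (map_zero D).symm
  refine ⟨∑ i ∈ Finset.range (p.natDegree + 1), monomial i (fun m => D (p.coeff i m)),
    ?_, fun m => ?_⟩
  · ext n
    rw [coeff_map, hco, coeff_mapD, coeff_map, ulDer_apply]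
  · ext n
    rw [coeff_map, hco, coeff_mapD, coeff_map]
    rfl

end Pool.Agent.Helper10.LB

end

section

/-! # LB-OB: algebraic elements and solutions of equations of higher degree are bounded -/

set_option autoImplicit false

namespace Pool.Agent.Helper10.LB

open scoped BigOperators
open Polynomial Pool.Agent.Helper8.LG

section

variable {k L Ω : Type*} [Field k] [Field L] [CharZero L] [Algebra k L] [Field Ω]
    {Q : (ℕ → L) →+* Ω}

omit [CharZero L] in
/-- evaluation and the quotient map -/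
theorem ob_eval (π : (ℕ → L)[X]) (ζ : ℕ → L) :
    (π.map Q).eval (Q ζ) = Q fun m => (π.map (Pi.evalRingHom (fun _ : ℕ => L) m)).eval (ζ m) := by
  rw [eval_map, eval₂_at_apply]
  congr 1
  funext m
  have h := eval₂_at_apply (p := π) (Pi.evalRingHom (fun _ : ℕ => L) m) ζ
  rw [eval_map]
  exact h.symm

omit [CharZero L] in
/-- a nonzero coefficient is nonzero almost everywhere -/
theorem ob_ne (hQ : IsUl Q) (f : ℕ → L) (hf : Q f ≠ 0) :
    ∀ᶠ m in (Filter.hyperfilter ℕ : Filter ℕ), f m ≠ 0 :=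
  Ultrafilter.eventually_not.2 fun h => hf ((hQ.ker f).2 h)

/-- an element which is algebraic over the bounded elements is bounded -/
theorem alg_bdd (hQ : IsUl Q) {P T : Type*} [Finite P] [Finite T] [DecidableEq T] (y : T → L)
    (D : P → Derivation ℤ L L) (hy : Dirs k y D) (z : Ω) (hz : IsAlgebraic (BF k hQ) z) :
    z ∈ BF k hQ := by
  obtain ⟨p, hp0, hpz⟩ := hz
  set g : Polynomial Ω := p.map (algebraMap (BF k hQ) Ω) with hg
  have hg0 : g ≠ 0 := by
    rw [hg, Ne, Polynomial.map_eq_zero]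
    exact hp0
  have hgz : g.eval z = 0 := by
    rw [hg, eval_map]
    exact hpz
  have hgc : ∀ n, g.coeff n ∈ BF k hQ := by
    intro n
    rw [hg, coeff_map]
    exact (p.coeff n).2
  obtain ⟨V, hV, π, -, e, heV, he0, hco, -, hmap, -, -, -⟩ :=
    poly_lift (k := k) hQ (fun _ : Unit => g) (fun _ n => hgc n) (fun x : Empty => x.elim)
      (fun x => x.elim)
  obtain ⟨ζ, hζ⟩ := hQ.surj z
  obtain ⟨V', hV', hroot⟩ := root_bound y D hy V
  have hz0 : ∀ᶠ m in (Filter.hyperfilter ℕ : Filter ℕ),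
      ((π ()).map (Pi.evalRingHom (fun _ : ℕ => L) m)).eval (ζ m) = 0 := by
    rw [← hQ.ker, ← ob_eval, hmap, hζ]
    exact hgz
  have hn0 : ∀ᶠ m in (Filter.hyperfilter ℕ : Filter ℕ),
      (π ()).map (Pi.evalRingHom (fun _ : ℕ => L) m) ≠ 0 := by
    have h1 : Q ((π ()).coeff g.natDegree) ≠ 0 := by
      rw [← coeff_map, hmap]
      exact leadingCoeff_ne_zero.2 hg0
    filter_upwards [ob_ne hQ _ h1] with m hm h2
    apply hm
    have h3 := congrArg (fun r => r.coeff g.natDegree) h2
    simp only [coeff_map, coeff_zero] at h3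
    exact h3
  let G : ℕ → L[X] := fun m => C (e m) * (π ()).map (Pi.evalRingHom (fun _ : ℕ => L) m)
  have hGc : ∀ m n, (G m).coeff n ∈ V := by
    intro m n
    show (C (e m) * (π ()).map (Pi.evalRingHom (fun _ : ℕ => L) m)).coeff n ∈ V
    rw [coeff_C_mul, coeff_map]
    exact hco () n m
  rw [mem_BF]
  refine bset_of_fd hQ (V ⊔ V') (fun m => (G m).leadingCoeff * ζ m) (fun m => (G m).leadingCoeff)
    ?_ ?_ ?_ z ?_
  · filter_upwards [hz0, hn0] with m h1 h2
    refine (le_sup_right : V' ≤ V ⊔ V') (hroot (ζ m) (G m) ?_ (hGc m) ?_)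
    · exact mul_ne_zero (C_ne_zero.2 (he0 m)) h2
    · show (C (e m) * (π ()).map (Pi.evalRingHom (fun _ : ℕ => L) m)).eval (ζ m) = 0
      rw [eval_mul, h1, mul_zero]
  · exact Filter.Eventually.of_forall fun m => (le_sup_left : V ≤ V ⊔ V') (hGc m _)
  · filter_upwards [hn0] with m h2
    exact leadingCoeff_ne_zero.2 (mul_ne_zero (C_ne_zero.2 (he0 m)) h2)
  · rw [← hζ, ← map_mul]
    congr 1
    funext m
    exact mul_comm _ _

/-- a solution of `D z = q(z)` with bounded `q` of degree at least three is bounded -/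
theorem tail_bdd (hQ : IsUl Q) {P T : Type*} [Finite P] [Finite T] [DecidableEq T] (y : T → L)
    (D : P → Derivation ℤ L L) (hy : Dirs k y D) (p : P) (q : Polynomial Ω)
    (hq : ∀ n, q.coeff n ∈ BF k hQ) (hdeg : 3 ≤ q.natDegree) (z : Ω)
    (hz : ulDer Q hQ.surj hQ.ker (D p) z = q.eval z) : z ∈ BF k hQ := by
  have hq0 : q ≠ 0 := by
    rintro rfl
    simp at hdeg
  obtain ⟨V, hV, π, -, e, heV, he0, hco, -, hmap, hdegπ, -, -⟩ :=
    poly_lift (k := k) hQ (fun _ : Unit => q) (fun _ n => hq n) (fun x : Empty => x.elim)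
      (fun x => x.elim)
  obtain ⟨ζ, hζ⟩ := hQ.surj z
  obtain ⟨V', hV', htail⟩ := tail_bound y D hy V
  let q' : ℕ → L[X] := fun m => (π ()).map (Pi.evalRingHom (fun _ : ℕ => L) m)
  have hz1 : ∀ᶠ m in (Filter.hyperfilter ℕ : Filter ℕ), D p (ζ m) = (q' m).eval (ζ m) := by
    rw [← ul_eq Q hQ.ker (fun m => D p (ζ m)) (fun m => (q' m).eval (ζ m))]
    show (Q fun m => D p (ζ m)) =
      Q fun m => ((π ()).map (Pi.evalRingHom (fun _ : ℕ => L) m)).eval (ζ m)
    rw [← ob_eval, hmap, ← ulDer_apply Q hQ.surj hQ.ker, hζ]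
    exact hz
  have hlead : ∀ᶠ m in (Filter.hyperfilter ℕ : Filter ℕ), (q' m).coeff q.natDegree ≠ 0 := by
    have h1 : Q ((π ()).coeff q.natDegree) ≠ 0 := by
      rw [← coeff_map, hmap]
      exact leadingCoeff_ne_zero.2 hq0
    filter_upwards [ob_ne hQ _ h1] with m hm
    show ((π ()).map (Pi.evalRingHom (fun _ : ℕ => L) m)).coeff q.natDegree ≠ 0
    rw [coeff_map]
    exact hm
  have hc : ∀ n m, e m * (q' m).coeff n ∈ V := by
    intro n m
    show e m * ((π ()).map (Pi.evalRingHom (fun _ : ℕ => L) m)).coeff n ∈ V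
    rw [coeff_map]
    exact hco () n m
  have hkey : ∀ᶠ m in (Filter.hyperfilter ℕ : Filter ℕ),
      (e m * (q' m).leadingCoeff ∈ V' ∧ e m * ((q' m).leadingCoeff * ζ m) ∈ V') ∧
        e m * (q' m).leadingCoeff ≠ 0 := by
    filter_upwards [hz1, hlead] with m h1 h2
    refine ⟨htail p (ζ m) (e m) (q' m) (heV m) (he0 m) (fun n => hc n m) ?_ h1, ?_⟩
    · exact hdeg.trans (le_natDegree_of_ne_zero h2)
    · refine mul_ne_zero (he0 m) (leadingCoeff_ne_zero.2 fun h3 => h2 ?_)
      rw [h3, coeff_zero]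
  rw [mem_BF]
  refine bset_of_fd hQ V' (fun m => e m * ((q' m).leadingCoeff * ζ m))
    (fun m => e m * (q' m).leadingCoeff) ?_ ?_ ?_ z ?_
  · filter_upwards [hkey] with m h using h.1.2
  · filter_upwards [hkey] with m h using h.1.1
  · filter_upwards [hkey] with m h using h.2
  · rw [← hζ, ← map_mul]
    congr 1
    funext m
    show ζ m * (e m * (q' m).leadingCoeff) = e m * ((q' m).leadingCoeff * ζ m)
    ring

end

end Pool.Agent.Helper10.LB

end

section

/-! # LB-OM: the Mason bound in the ultrapower -/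

set_option autoImplicit false

namespace Pool.Agent.Helper10.LB

open scoped BigOperators
open Polynomial Pool.Agent.Helper8.LG

section OmAux

theorem om_lift {Ω : Type*} [Field Ω] (F : Subfield Ω) (p : Polynomial Ω)
    (hp : ∀ n, p.coeff n ∈ F) : ∃ p' : Polynomial F, p'.map F.subtype = p := by
  have h : p ∈ Polynomial.lifts F.subtype := by
    rw [Polynomial.lifts_iff_coeff_lifts]
    intro n
    exact ⟨⟨p.coeff n, hp n⟩, rfl⟩
  exact (Polynomial.mem_lifts _).1 h

theorem om_coe {Ω : Type*} [Field Ω] (F : Subfield Ω) (p : Polynomial F) (n : ℕ) :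
    (p.map F.subtype).coeff n ∈ F := by
  rw [coeff_map]
  exact (p.coeff n).2

/-- the quotient by a monic polynomial -/
theorem om_quot {Ω : Type*} [Field Ω] (F : Subfield Ω) (h g w : Polynomial Ω)
    (hF : ∀ n, h.coeff n ∈ F) (hg : ∀ n, g.coeff n ∈ F) (hm : h.Monic) (hw : h * w = g) :
    ∀ n, w.coeff n ∈ F := by
  obtain ⟨h', hh'⟩ := om_lift F h hF
  obtain ⟨g', hg'⟩ := om_lift F g hg
  have hm' : h'.Monic := by
    rw [← hh'] at hm
    exact Polynomial.monic_of_injective F.subtype.injective hm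
  have h1 : w = (g' /ₘ h').map F.subtype := by
    rw [Polynomial.map_divByMonic _ hm', hh', hg', ← hw, mul_divByMonic_cancel_left _ hm]
  intro n
  rw [h1]
  exact om_coe F _ n

/-- Bezout over the subfield -/
theorem om_bez {Ω : Type*} [Field Ω] (F : Subfield Ω) (h : Polynomial Ω)
    (hF : ∀ n, h.coeff n ∈ F) (hs : h.Separable) :
    ∃ α β : Polynomial Ω, (∀ n, α.coeff n ∈ F) ∧ (∀ n, β.coeff n ∈ F) ∧
      α * h + β * derivative h = 1 := by
  obtain ⟨h', hh'⟩ := om_lift F h hF
  have hs' : h'.Separable := by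
    rw [← hh', Polynomial.separable_map] at hs
    exact hs
  obtain ⟨α, β, hab⟩ := hs'
  refine ⟨α.map F.subtype, β.map F.subtype, om_coe F _, om_coe F _, ?_⟩
  rw [← hh', Polynomial.derivative_map, ← Polynomial.map_mul, ← Polynomial.map_mul,
    ← Polynomial.map_add, hab, Polynomial.map_one]

theorem om_revAt {N i : ℕ} (h : N < i) : revAt N i = i := by
  show revAtFun N i = i
  unfold revAtFun
  exact if_neg (by omega)

/-- the reversal of a separable monic polynomial -/
theorem om_rev {Ω : Type*} [Field Ω] (h : Polynomial Ω) (hm : h.Monic) (hs : h.Separable)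
    (hd : 1 ≤ h.natDegree) : h.reverse.Separable := by
  obtain ⟨α, β, hab⟩ := hs
  obtain ⟨n, hn⟩ : ∃ n, h.natDegree = n + 1 := ⟨h.natDegree - 1, by omega⟩
  obtain ⟨S, hS⟩ : ∃ S : Polynomial Ω, S = (derivative h).reflect n := ⟨_, rfl⟩
  have hco : ∀ i, h.reverse.coeff i = h.coeff (revAt (n + 1) i) := by
    intro i
    rw [coeff_reverse, hn]
  have h1 : X * derivative h.reverse + S = C ((n : Ω) + 1) * h.reverse := by
    ext i
    rw [coeff_add, coeff_C_mul, hS, coeff_reflect, coeff_derivative]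
    rcases Nat.lt_or_ge (n + 1) i with hi | hi
    · obtain ⟨j, rfl⟩ : ∃ j, i = j + 1 := ⟨i - 1, by omega⟩
      have e1 : revAt n (j + 1) = j + 1 := by
        exact om_revAt (by omega)
      have e2 : revAt (n + 1) (j + 1) = j + 1 := by
        exact om_revAt (by omega)
      rw [coeff_X_mul, coeff_derivative, hco, e1, e2, coeff_eq_zero_of_natDegree_lt (by omega),
        coeff_eq_zero_of_natDegree_lt (by omega)]
      ring
    · rcases Nat.eq_zero_or_pos i with h0 | h0
      · rw [h0, mul_coeff_zero, coeff_X_zero, zero_mul, zero_add, hco, revAt_le (by omega),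
          revAt_le (by omega), Nat.sub_zero, Nat.sub_zero]
        ring
      · obtain ⟨j, rfl⟩ : ∃ j, i = j + 1 := ⟨i - 1, by omega⟩
        rw [coeff_X_mul, coeff_derivative, hco, revAt_le hi]
        rcases Nat.lt_or_ge n (j + 1) with hj | hj
        · have e0 : j = n := by omega
          have e1 : revAt n (j + 1) = j + 1 := by
            exact om_revAt (by omega)
          rw [e1, coeff_eq_zero_of_natDegree_lt (p := h) (n := j + 1 + 1) (by omega), e0]
          ring
        · rw [revAt_le hj]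
          have e3 : n - (j + 1) + 1 = n + 1 - (j + 1) := by omega
          rw [e3]
          have e4 : ((n - (j + 1) : ℕ) : Ω) = (n : Ω) - ((j : Ω) + 1) := by
            rw [Nat.cast_sub hj]
            push_cast
            ring
          rw [e4]
          ring
  obtain ⟨N, hN⟩ : ∃ N, N = max α.natDegree β.natDegree := ⟨_, rfl⟩
  have hda : α.natDegree ≤ N := by rw [hN]; exact le_max_left _ _
  have hdb : β.natDegree ≤ N + 1 := by rw [hN]; exact (le_max_right _ _).trans (Nat.le_succ _)
  have hder : (derivative h).natDegree ≤ n := by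
    have := natDegree_derivative_le h
    omega
  have h2 : α.reflect N * h.reverse + β.reflect (N + 1) * S = X ^ (N + (n + 1)) := by
    have h3 := congrArg (reflect (N + (n + 1))) hab
    have e5 : N + (n + 1) = (N + 1) + n := by ring
    rw [reflect_add, reflect_mul α h hda (by omega), e5, reflect_mul β _ hdb hder,
      reflect_one] at h3
    rw [hS, e5, ← h3, reverse, hn]
  have h4 : h.reverse.coeff 0 = 1 := by
    rw [coeff_zero_reverse]
    exact hm
  have h5 : IsCoprime h.reverse X := by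
    refine ⟨1, -(divX h.reverse), ?_⟩
    have h6 := divX_mul_X_add h.reverse
    rw [h4, C_1] at h6
    linear_combination -h6
  obtain ⟨a, b, hab'⟩ := h5.pow_right (n := N + (n + 1))
  have h7 : S = C ((n : Ω) + 1) * h.reverse - X * derivative h.reverse := by
    rw [← h1]; ring
  rw [h7] at h2
  refine ⟨a + b * (α.reflect N + β.reflect (N + 1) * C ((n : Ω) + 1)),
    -(b * β.reflect (N + 1) * X), ?_⟩
  linear_combination hab' + b * h2

theorem om_mr {R E : Type*} [CommRing R] [CommRing E] [Nontrivial E] (p : R[X]) (hp : p.Monic)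
    (f : R →+* E) : p.reverse.map f = (p.map f).reverse := by
  rw [reverse, reverse, hp.natDegree_map f, reflect_map]

end OmAux

section

variable {k L Ω : Type*} [Field k] [Field L] [CharZero L] [Algebra k L] [Field Ω]
    {Q : (ℕ → L) →+* Ω}

/-- Los for an equality of polynomials -/
theorem om_los (hQ : IsUl Q) (p q : (ℕ → L)[X]) (h : p.map Q = q.map Q) :
    ∀ᶠ m in (Filter.hyperfilter ℕ : Filter ℕ),
      p.map (Pi.evalRingHom (fun _ : ℕ => L) m) = q.map (Pi.evalRingHom (fun _ : ℕ => L) m) := by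
  have h1 := poly_los hQ (p - q) (by rw [Polynomial.map_sub, h, sub_self])
  filter_upwards [h1] with m hm
  rw [Polynomial.map_sub, sub_eq_zero] at hm
  exact hm

/-- Mason: if `z` is the coordinate of an integral point on a bounded line then `z` is bounded or
`D z = q(z)` -/
theorem mason_bdd (hQ : IsUl Q) {P T : Type*} [Finite P] [Finite T] [DecidableEq T] (y : T → L)
    (D : P → Derivation ℤ L L) (hy : Dirs k y D) {σ ι : Type*} [Fintype σ] [DecidableEq σ]
    [Fintype ι] [DecidableEq ι] {d : ι → ℕ} (a : (i : ι) → Sym σ (d i) → L) (Z : Finset ι)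
    (A : Subalgebra k L) (hA : A.FG) (X : ℕ → σ → L) (hX : ∀ m, Pt a Z A.toSubring (X m))
    (u v : σ → Ω) (hu : ∀ l, u l ∈ BF k hQ) (hv : ∀ l, v l ∈ BF k hQ) (b b' : σ)
    (hpi : u b * v b' - u b' * v b ≠ 0)
    (htop : ∀ i ∉ Z, form (fun J => Q fun _ => a i J) v ≠ 0) (lam z : Ω) (hlam : lam ≠ 0)
    (hx : ∀ l, (Q fun m => X m l) = lam * (u l + z * v l)) (h w : Polynomial Ω)
    (hF : ∀ n, h.coeff n ∈ BF k hQ) (hmon : h.Monic) (hr : 3 ≤ h.natDegree) (hsep : h.Separable)
    (hw : h * w = ∏ i ∈ Zᶜ, lf (fun J => Q fun _ => a i J) u v) (p : P) (q : Polynomial Ω)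
    (hqF : ∀ n, q.coeff n ∈ BF k hQ) (hq : q.natDegree < h.natDegree)
    (hdvd : h ∣ mapD (ulDer Q hQ.surj hQ.ker (D p)) h + derivative h * q) :
    z ∈ BF k hQ ∨ ulDer Q hQ.surj hQ.ker (D p) z = q.eval z := by
  classical
  obtain ⟨s, hs⟩ := hdvd
  -- everything has coefficients in `BF`
  have hprodF : ∀ n, (∏ i ∈ Zᶜ, lf (fun J => Q fun _ => a i J) u v).coeff n ∈ BF k hQ := by
    obtain ⟨g, hg⟩ : ∃ g : Polynomial (BF k hQ), g = ∏ i ∈ Zᶜ,
        lf (E := BF k hQ) (fun J => ⟨Q fun _ => a i J, const_mem hQ (a i J)⟩)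
          (fun l => ⟨u l, hu l⟩) (fun l => ⟨v l, hv l⟩) := ⟨_, rfl⟩
    have h1 : (∏ i ∈ Zᶜ, lf (fun J => Q fun _ => a i J) u v) = g.map (BF k hQ).subtype := by
      rw [hg, Polynomial.map_prod]
      refine Finset.prod_congr rfl fun i _ => ?_
      rw [lf_map]
      rfl
    intro n
    rw [h1]
    exact om_coe _ _ n
  have hwF : ∀ n, w.coeff n ∈ BF k hQ := om_quot _ h _ w hF hprodF hmon hw
  have hsF : ∀ n, s.coeff n ∈ BF k hQ := by
    obtain ⟨h', hh'⟩ := om_lift _ h hF
    obtain ⟨q', hq'⟩ := om_lift _ q hqF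
    obtain ⟨e', he'⟩ := om_lift (BF k hQ) (mapD (ulDer Q hQ.surj hQ.ker (D p)) h) (fun n => by
      rw [coeff_mapD]
      exact der_mem hQ (D p) (hy.ker p) _ (hF n))
    refine om_quot _ h _ s hF ?_ hmon hs.symm
    intro n
    have h1 : mapD (ulDer Q hQ.surj hQ.ker (D p)) h + derivative h * q =
        (e' + derivative h' * q').map (BF k hQ).subtype := by
      rw [Polynomial.map_add, Polynomial.map_mul, ← Polynomial.derivative_map, he', hh', hq']
    rw [h1]
    exact om_coe _ _ n
  obtain ⟨α, β, hαF, hβF, hab⟩ := om_bez (BF k hQ) h hF hsep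
  obtain ⟨α', β', hαF', hβF', hab'⟩ := om_bez (BF k hQ) h.reverse
    (fun n => by rw [coeff_reverse]; exact hF _) (om_rev h hmon hsep (by omega))
  have hform : ∀ i, form (fun J => Q fun _ => a i J) v ∈ BF k hQ := by
    intro i
    have h1 := pd_map_form (BF k hQ).subtype (fun J => ⟨Q fun _ => a i J, const_mem hQ (a i J)⟩)
      (fun l => ⟨v l, hv l⟩)
    have h2 : (BF k hQ).subtype (form (fun J => ⟨Q fun _ => a i J, const_mem hQ (a i J)⟩)
      (fun l => ⟨v l, hv l⟩)) ∈ BF k hQ := Subtype.coe_prop _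
    rw [h1] at h2
    exact h2
  -- the lifts
  obtain ⟨V, hV, π, ζ, e, heV, he0, hπV, hζV, hπQ, hπd, hπm, hζQ⟩ := poly_lift hQ
    (S := Fin 8) ![h, w, q, s, α, β, α', β'] (fun i => by
      fin_cases i
      · exact hF
      · exact hwF
      · exact hqF
      · exact hsF
      · exact hαF
      · exact hβF
      · exact hαF'
      · exact hβF')
    (S' := (σ ⊕ σ) ⊕ (Unit ⊕ ι))
    (Sum.elim (Sum.elim u v) (Sum.elim (fun _ => (u b * v b' - u b' * v b)⁻¹)
      (fun i => (form (fun J => Q fun _ => a i J) v)⁻¹))) (fun i => by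
      rcases i with (l | l) | (l | i)
      · exact hu l
      · exact hv l
      · exact inv_mem (sub_mem (mul_mem (hu b) (hv b')) (mul_mem (hu b') (hv b)))
      · exact inv_mem (hform i))
  have q0 : (π 0).map Q = h := hπQ 0
  have q1 : (π 1).map Q = w := hπQ 1
  have q2 : (π 2).map Q = q := hπQ 2
  have q3 : (π 3).map Q = s := hπQ 3
  have q4 : (π 4).map Q = α := hπQ 4
  have q5 : (π 5).map Q = β := hπQ 5
  have q6 : (π 6).map Q = α' := hπQ 6
  have q7 : (π 7).map Q = β' := hπQ 7
  have m0 : (π 0).Monic := hπm 0 hmon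
  have d2 : (π 2).natDegree ≤ q.natDegree := hπd 2
  obtain ⟨U, hU⟩ : ∃ U : σ → ℕ → L, U = fun l => ζ (Sum.inl (Sum.inl l)) := ⟨_, rfl⟩
  obtain ⟨W, hW⟩ : ∃ W : σ → ℕ → L, W = fun l => ζ (Sum.inl (Sum.inr l)) := ⟨_, rfl⟩
  obtain ⟨c, hc⟩ : ∃ c : ℕ → L, c = ζ (Sum.inr (Sum.inl ())) := ⟨_, rfl⟩
  obtain ⟨t, ht⟩ : ∃ t : ι → ℕ → L, t = fun i => ζ (Sum.inr (Sum.inr i)) := ⟨_, rfl⟩
  have hUQ : ∀ l, Q (U l) = u l := by intro l; rw [hU]; exact hζQ _
  have hWQ : ∀ l, Q (W l) = v l := by intro l; rw [hW]; exact hζQ _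
  have hcQ : Q c = (u b * v b' - u b' * v b)⁻¹ := by rw [hc]; exact hζQ _
  have htQ : ∀ i, Q (t i) = (form (fun J => Q fun _ => a i J) v)⁻¹ := by
    intro i; rw [ht]; exact hζQ _
  have hUV : ∀ l m, e m * U l m ∈ V := by intro l m; rw [hU]; exact hζV _ _
  have hWV : ∀ l m, e m * W l m ∈ V := by intro l m; rw [hW]; exact hζV _ _
  have hcV : ∀ m, e m * c m ∈ V := by intro m; rw [hc]; exact hζV _ _
  have htV : ∀ i m, e m * t i m ∈ V := by intro i m; rw [ht]; exact hζV _ _
  obtain ⟨lam', hlam'⟩ := hQ.surj lam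
  obtain ⟨z', hz'⟩ := hQ.surj z
  -- the events
  have E1 : ∀ᶠ m in (Filter.hyperfilter ℕ : Filter ℕ),
      ∀ l, X m l = lam' m * (U l m + z' m * W l m) := by
    rw [Filter.eventually_all]
    intro l
    have h1 : Q (fun m => X m l) = Q (lam' * (U l + z' * W l)) := by
      rw [hx l, map_mul, map_add, map_mul, hUQ, hWQ, hlam', hz']
    rw [ul_eq Q hQ.ker] at h1
    exact h1
  have E2 : ∀ᶠ m in (Filter.hyperfilter ℕ : Filter ℕ), lam' m ≠ 0 := by
    refine Ultrafilter.eventually_not.2 fun h3 => hlam ?_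
    rw [← hlam', hQ.ker]
    exact h3
  have E3 : ∀ᶠ m in (Filter.hyperfilter ℕ : Filter ℕ),
      (U b m * W b' m - U b' m * W b m) * c m = 1 := by
    have h1 : Q ((U b * W b' - U b' * W b) * c) = Q 1 := by
      rw [map_mul, map_sub, map_mul, map_mul, hUQ, hUQ, hWQ, hWQ, hcQ, mul_inv_cancel₀ hpi,
        map_one]
    rw [ul_eq Q hQ.ker] at h1
    exact h1
  have E4 : ∀ᶠ m in (Filter.hyperfilter ℕ : Filter ℕ),
      ∀ i, i ∉ Z → form (a i) (fun l => W l m) * t i m = 1 := by
    rw [Filter.eventually_all]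
    intro i
    by_cases hi : i ∈ Z
    · exact Filter.Eventually.of_forall fun m h => absurd hi h
    · have h1 : Q ((fun m => form (a i) (fun l => W l m)) * t i) = Q 1 := by
        rw [map_mul, htQ, ul_Q_form Q (a i) (fun m l => W l m)]
        have h2 : (fun l => Q fun m => W l m) = v := funext fun l => hWQ l
        rw [h2, mul_inv_cancel₀ (htop i hi), map_one]
      rw [ul_eq Q hQ.ker] at h1
      filter_upwards [h1] with m hm _
      exact hm
  have E5 : ∀ᶠ m in (Filter.hyperfilter ℕ : Filter ℕ),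
      (π 0).map (Pi.evalRingHom (fun _ : ℕ => L) m) * (π 1).map (Pi.evalRingHom (fun _ : ℕ => L) m)
        = ∏ i ∈ Zᶜ, lf (a i) (fun l => U l m) (fun l => W l m) := by
    have h1 := om_los hQ (π 0 * π 1) (∏ i ∈ Zᶜ, lf (fun J => fun _ : ℕ => a i J) U W) (by
      rw [Polynomial.map_mul, q0, q1, hw, Polynomial.map_prod]
      refine Finset.prod_congr rfl fun i _ => ?_
      rw [lf_map]
      have h2 : (fun l => Q (U l)) = u := funext fun l => hUQ l
      have h3 : (fun l => Q (W l)) = v := funext fun l => hWQ l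
      rw [h2, h3])
    filter_upwards [h1] with m hm
    rw [Polynomial.map_mul, Polynomial.map_prod] at hm
    rw [hm]
    refine Finset.prod_congr rfl fun i _ => ?_
    rw [lf_map]
    rfl
  have E6 : ∀ᶠ m in (Filter.hyperfilter ℕ : Filter ℕ),
      mapD (D p) ((π 0).map (Pi.evalRingHom (fun _ : ℕ => L) m)) +
        derivative ((π 0).map (Pi.evalRingHom (fun _ : ℕ => L) m)) *
          (π 2).map (Pi.evalRingHom (fun _ : ℕ => L) m) =
        (π 0).map (Pi.evalRingHom (fun _ : ℕ => L) m) *
          (π 3).map (Pi.evalRingHom (fun _ : ℕ => L) m) := by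
    obtain ⟨p', hp1, hp2⟩ := map_mapD hQ (D p) (π 0)
    have h1 := om_los hQ (p' + derivative (π 0) * π 2) (π 0 * π 3) (by
      rw [Polynomial.map_add, Polynomial.map_mul, Polynomial.map_mul, hp1,
        ← Polynomial.derivative_map, q0, q2, q3]
      exact hs)
    filter_upwards [h1] with m hm
    rw [Polynomial.map_add, Polynomial.map_mul, Polynomial.map_mul, hp2,
      ← Polynomial.derivative_map] at hm
    exact hm
  have E7 : ∀ᶠ m in (Filter.hyperfilter ℕ : Filter ℕ),
      (π 4).map (Pi.evalRingHom (fun _ : ℕ => L) m) * (π 0).map (Pi.evalRingHom (fun _ : ℕ => L) m)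
        + (π 5).map (Pi.evalRingHom (fun _ : ℕ => L) m) *
          derivative ((π 0).map (Pi.evalRingHom (fun _ : ℕ => L) m)) = 1 := by
    have h1 := om_los hQ (π 4 * π 0 + π 5 * derivative (π 0)) 1 (by
      rw [Polynomial.map_add, Polynomial.map_mul, Polynomial.map_mul,
        ← Polynomial.derivative_map, q0, q4, q5, Polynomial.map_one]
      exact hab)
    filter_upwards [h1] with m hm
    rw [Polynomial.map_add, Polynomial.map_mul, Polynomial.map_mul,
      ← Polynomial.derivative_map, Polynomial.map_one] at hm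
    exact hm
  have E8 : ∀ᶠ m in (Filter.hyperfilter ℕ : Filter ℕ),
      (π 6).map (Pi.evalRingHom (fun _ : ℕ => L) m) *
          ((π 0).map (Pi.evalRingHom (fun _ : ℕ => L) m)).reverse
        + (π 7).map (Pi.evalRingHom (fun _ : ℕ => L) m) *
          derivative ((π 0).map (Pi.evalRingHom (fun _ : ℕ => L) m)).reverse = 1 := by
    have h1 := om_los hQ (π 6 * (π 0).reverse + π 7 * derivative (π 0).reverse) 1 (by
      rw [Polynomial.map_add, Polynomial.map_mul, Polynomial.map_mul,
        ← Polynomial.derivative_map, om_mr _ m0, q0, q6, q7, Polynomial.map_one]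
      exact hab')
    filter_upwards [h1] with m hm
    rw [Polynomial.map_add, Polynomial.map_mul, Polynomial.map_mul,
      ← Polynomial.derivative_map, Polynomial.map_one, om_mr _ m0] at hm
    exact hm
  have hdeg : ∀ m, ((π 0).map (Pi.evalRingHom (fun _ : ℕ => L) m)).natDegree = h.natDegree := by
    intro m
    rw [m0.natDegree_map, ← m0.natDegree_map Q, q0]
  -- the Mason data
  have hM : ∀ᶠ m in (Filter.hyperfilter ℕ : Filter ℕ),
      MData a Z V (D p) (X m) (fun l => U l m) (fun l => W l m) (lam' m) (z' m) (e m)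
        ((π 0).map (Pi.evalRingHom (fun _ : ℕ => L) m))
        ((π 1).map (Pi.evalRingHom (fun _ : ℕ => L) m))
        ((π 2).map (Pi.evalRingHom (fun _ : ℕ => L) m))
        ((π 3).map (Pi.evalRingHom (fun _ : ℕ => L) m))
        ((π 4).map (Pi.evalRingHom (fun _ : ℕ => L) m))
        ((π 5).map (Pi.evalRingHom (fun _ : ℕ => L) m))
        ((π 6).map (Pi.evalRingHom (fun _ : ℕ => L) m))
        ((π 7).map (Pi.evalRingHom (fun _ : ℕ => L) m)) := by
    filter_upwards [E1, E2, E3, E4, E5, E6, E7, E8] with m e1 e2 e3 e4 e5 e6 e7 e8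
    refine ⟨heV m, he0 m, e2, e1, fun l => hUV l m, fun l => hWV l m, ⟨b, b', ?_, ?_⟩,
      fun i hi => ⟨?_, ?_⟩, m0.map _, ?_, e5, ?_, e6, e7, e8, fun n => ?_⟩
    · exact left_ne_zero_of_mul (e3.trans_ne one_ne_zero)
    · rw [← eq_inv_of_mul_eq_one_right e3]
      exact hcV m
    · exact left_ne_zero_of_mul ((e4 i hi).trans_ne one_ne_zero)
    · rw [← eq_inv_of_mul_eq_one_right (e4 i hi)]
      exact htV i m
    · rw [hdeg]
      exact hr
    · rw [hdeg]
      exact (natDegree_map_le.trans d2).trans_lt hq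
    · simp only [coeff_map]
      exact ⟨hπV 0 n m, hπV 1 n m, hπV 2 n m, hπV 3 n m, hπV 4 n m, hπV 5 n m, hπV 6 n m,
        hπV 7 n m⟩
  obtain ⟨V', hV', hmem⟩ := mason_bound y D hy a Z A hA V
  obtain ⟨G, hG⟩ : ∃ G : ℕ → L, G = fun m =>
      (D p (z' m) - ((π 2).map (Pi.evalRingHom (fun _ : ℕ => L) m)).eval (z' m)) /
        ((π 0).map (Pi.evalRingHom (fun _ : ℕ => L) m)).eval (z' m) := ⟨_, rfl⟩
  have hmem1 : ∀ᶠ m in (Filter.hyperfilter ℕ : Filter ℕ), e m ^ 2 * G m ∈ V' ∧
      e m ^ 2 * (G m * z' m) ∈ V' := by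
    filter_upwards [hM] with m hm
    rw [hG]
    exact hmem p _ _ _ _ _ _ _ _ _ _ _ _ _ _ hm (hX m)
  by_cases hG0 : ∀ᶠ m in (Filter.hyperfilter ℕ : Filter ℕ), G m = 0
  · right
    have hzero : ∀ᶠ m in (Filter.hyperfilter ℕ : Filter ℕ),
        D p (z' m) = ((π 2).map (Pi.evalRingHom (fun _ : ℕ => L) m)).eval (z' m) := by
      filter_upwards [hG0, E1, E5] with m g0 e1 e5
      rw [hG] at g0
      have hev : ((π 0).map (Pi.evalRingHom (fun _ : ℕ => L) m)).eval (z' m) ≠ 0 := by
        have h1 := congrArg (eval (z' m)) e5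
        rw [eval_mul, eval_prod] at h1
        have h2 : ∏ i ∈ Zᶜ, (lf (a i) (fun l => U l m) (fun l => W l m)).eval (z' m) ≠ 0 := by
          refine Finset.prod_ne_zero_iff.2 fun i hi h3 => ?_
          rw [lf_eval] at h3
          apply (hX m).ne i (Finset.mem_compl.1 hi)
          rw [show X m = fun l => lam' m * (U l m + z' m * W l m) from funext e1, mb_form_smul,
            h3, mul_zero]
        rw [← h1] at h2
        exact left_ne_zero_of_mul h2
      rcases div_eq_zero_iff.1 g0 with h4 | h4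
      · exact sub_eq_zero.1 h4
      · exact absurd h4 hev
    rw [← hz', ulDer_apply, ← q2, eval_map, eval₂_at_apply, ul_eq Q hQ.ker]
    filter_upwards [hzero] with m hm
    rw [hm, eval_map]
    exact eval₂_at_apply (Pi.evalRingHom (fun _ : ℕ => L) m) z'
  · left
    have hG1 : ∀ᶠ m in (Filter.hyperfilter ℕ : Filter ℕ), G m ≠ 0 :=
      Ultrafilter.eventually_not.2 hG0
    rw [mem_BF]
    refine bset_of_fd hQ V' (fun m => e m ^ 2 * (G m * z' m)) (fun m => e m ^ 2 * G m)
      (hmem1.mono fun m hm => hm.2) (hmem1.mono fun m hm => hm.1)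
      (hG1.mono fun m hm => mul_ne_zero (pow_ne_zero _ (he0 m)) hm) z ?_
    rw [← hz', ← map_mul]
    congr 1
    funext m
    show z' m * (e m ^ 2 * G m) = e m ^ 2 * (G m * z' m)
    ring

end

end Pool.Agent.Helper10.LB

end

section

/-! # LB-CO: the constants of the ultrapower -/

set_option autoImplicit false

namespace Pool.Agent.Helper10.LB

open scoped BigOperators
open Polynomial Pool.Agent.Helper8.LG

/-- `k`-valued sequences are bounded -/
theorem co_mem {k L Ω : Type*} [Field k] [Field L] [Algebra k L] [Field Ω]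
    {Q : (ℕ → L) →+* Ω} (hQ : IsUl Q) (g : ℕ → k) :
    Q (fun m => algebraMap k L (g m)) ∈ BF k hQ := by
  rw [mem_BF]
  have hfd : FiniteDimensional k (Submodule.span k ({1} : Set L)) :=
    FiniteDimensional.span_of_finite k (Set.finite_singleton _)
  have h1V : (1 : L) ∈ Submodule.span k ({1} : Set L) := Submodule.mem_span_singleton_self _
  refine bset_of_fd hQ (Submodule.span k {1}) (fun m => algebraMap k L (g m)) (fun _ => 1)
    (Filter.Eventually.of_forall fun m => ?_)
    (Filter.Eventually.of_forall fun _ => h1V)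
    (Filter.Eventually.of_forall fun _ => one_ne_zero) _ ?_
  · rw [Algebra.algebraMap_eq_smul_one]
    exact Submodule.smul_mem _ _ h1V
  · have h : Q (fun _ => (1 : L)) = 1 := map_one Q
    rw [h, mul_one]

/-- the constants of the ultrapower are algebraic over the bounded elements -/
theorem const_Ω {k L Ω : Type*} [Field k] [Field L] [CharZero L] [Algebra k L] [Field Ω]
    {Q : (ℕ → L) →+* Ω} (hQ : IsUl Q) {P T : Type*}
    [Finite P] [Finite T] [DecidableEq T] (y : T → L) (D : P → Derivation ℤ L L)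
    (hy : Dirs k y D) (c : Ω) (hc : ∀ p, ulDer Q hQ.surj hQ.ker (D p) c = 0) :
    IsAlgebraic (BF k hQ) c := by
  classical
  obtain ⟨f, rfl⟩ := hQ.surj c
  obtain ⟨N, hN⟩ := const_L y D hy
  have h1 : ∀ᶠ m in (Filter.hyperfilter ℕ : Filter ℕ), ∀ p, D p (f m) = 0 := by
    rw [Filter.eventually_all]
    intro p
    have h := hc p
    rw [ulDer_apply, hQ.ker] at h
    exact h
  have h2 : ∀ m, ∃ g : k[X], g.Monic ∧ g.natDegree = N ∧
      ((∀ p, D p (f m) = 0) → aeval (f m) g = 0) := by
    intro m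
    by_cases hm : ∀ p, D p (f m) = 0
    · obtain ⟨g, hg1, hg2, hg3⟩ := hN (f m) hm
      exact ⟨g, hg1, hg2, fun _ => hg3⟩
    · exact ⟨X ^ N, monic_X_pow N, natDegree_X_pow N, fun h => absurd h hm⟩
  choose g hg1 hg2 hg3 using h2
  set a : ℕ → BF k hQ := fun j => ⟨Q fun m => algebraMap k L ((g m).coeff j), co_mem hQ _⟩
    with ha
  set G : (BF k hQ)[X] := ∑ j ∈ Finset.range (N + 1), monomial j (a j) with hG
  refine ⟨G, ?_, ?_⟩
  · intro h0
    have h3 : G.coeff N = a N := by
      rw [hG, finsetSum_coeff]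
      simp only [coeff_monomial]
      rw [Finset.sum_ite_eq' (Finset.range (N + 1)) N, if_pos (Finset.mem_range.2 (Nat.lt_succ_self N))]
    rw [h0, coeff_zero] at h3
    have h4 : (a N : Ω) = 1 := by
      have h5 : (fun m => algebraMap k L ((g m).coeff N)) = 1 := by
        funext m
        have h6 : (g m).coeff N = 1 := by
          rw [← hg2 m]
          exact hg1 m
        rw [h6, map_one]
        rfl
      show Q _ = 1
      rw [h5, map_one]
    rw [← h3] at h4
    exact zero_ne_one h4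
  · have h3 : aeval (Q f) G = Q fun m => aeval (f m) (g m) := by
      have h4 : (fun m => aeval (f m) (g m)) =
          ∑ j ∈ Finset.range (N + 1), (fun m => algebraMap k L ((g m).coeff j)) * f ^ j := by
        funext m
        rw [Finset.sum_apply, aeval_eq_sum_range' (n := N + 1) (by rw [hg2 m]; exact Nat.lt_succ_self N)]
        exact Finset.sum_congr rfl fun j _ => Algebra.smul_def _ _
      rw [h4, hG, map_sum, map_sum]
      refine Finset.sum_congr rfl fun j _ => ?_
      rw [aeval_monomial, map_mul, map_pow]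
      rfl
    rw [h3, hQ.ker]
    filter_upwards [h1] with m hm
    exact hg3 m hm

end Pool.Agent.Helper10.LB

end
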