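import Pool.Agent.Helper74.MG.T14
import Pool.Agent.Helper74.MG.T16

section

/-!
# The linear algebra of LG-KEY in abstract form

Rows `σ ⊕ ρ` (the `x`-rows and the other rows), columns `eul`, `syz s`, `cvr i`.
-/

set_option autoImplicit false

namespace Pool.Agent.Helper74.LG

open scoped BigOperators
open Pool.Agent.Helper8.LG (exists_minor)

/-- multiplication of the `x`-rows by `c` -/
def scl {E σ ρ : Type*} [Field E] (c : E) : (σ ⊕ ρ → E) →ₗ[E] (σ ⊕ ρ → E) :=
  LinearMap.pi fun r => (Sum.elim (fun _ => c) (fun _ => 1) r : E) • LinearMap.proj r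

theorem scl_apply {E σ ρ : Type*} [Field E] (c : E) (f : σ ⊕ ρ → E) (r : σ ⊕ ρ) :
    scl c f r = (Sum.elim (fun _ => c) (fun _ => 1) r : E) * f r := rfl

theorem scl_inj {E σ ρ : Type*} [Field E] {c : E} (hc : c ≠ 0) :
    Function.Injective (scl (σ := σ) (ρ := ρ) c) := by
  intro f g h
  funext r
  have h1 := congrFun h r
  rw [scl_apply, scl_apply] at h1
  rcases r with l | i
  · exact mul_left_cancel₀ hc h1
  · simpa using h1

theorem left_rows_le {E σ κ Q : Type*} [Field E] [Fintype κ] [DecidableEq κ] [Fintype Q]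
    (C : Q → σ → E) (w : ℕ)
    (hm : ∀ (r : Fin (w + 2) → σ) (c : Fin (w + 2) → Q),
      Matrix.det (Matrix.of fun s t => C (c t) (r s)) = 0)
    (K : κ → σ → E) (hK : ∀ t, K t ∈ Submodule.span E (Set.range C)) (M : Matrix κ κ E)
    (hM : M.det ≠ 0) (S : Finset κ) (ρ : κ → σ) (hS : ∀ s ∈ S, ∀ t, M s t = K t (ρ s)) :
    S.card ≤ w + 1 := by
  by_contra hcon
  have hcard : w + 2 ≤ S.card := by omega
  let f : Fin (w + 2) → κ := fun i => (S.equivFin.symm (Fin.castLE hcard i) : S)
  have hf : Function.Injective f := by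
    intro i j hij
    have h1 := S.equivFin.symm.injective (Subtype.ext hij)
    exact Fin.castLE_injective hcard h1
  have hfS : ∀ i, f i ∈ S := fun i => (S.equivFin.symm (Fin.castLE hcard i)).2
  have hlin : LinearIndependent E fun i : Fin (w + 2) => fun q : Q => C q (ρ (f i)) := by
    rw [Fintype.linearIndependent_iff]
    intro c hc
    have h1 : LinearIndependent E fun i : Fin (w + 2) => M (f i) :=
      (Matrix.linearIndependent_rows_of_det_ne_zero hM).comp f hf
    rw [Fintype.linearIndependent_iff] at h1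
    refine h1 c ?_
    funext t
    obtain ⟨T, hT⟩ := (Submodule.mem_span_range_iff_exists_fun E).1 (hK t)
    simp only [Finset.sum_apply, Pi.smul_apply, smul_eq_mul, Pi.zero_apply]
    have h2 : ∀ i, M (f i) t = ∑ q, T q * C q (ρ (f i)) := by
      intro i
      rw [hS _ (hfS i), ← hT]
      simp
    calc ∑ i, c i * M (f i) t = ∑ q, T q * ∑ i, c i * C q (ρ (f i)) := by
          simp only [h2, Finset.mul_sum]
          rw [Finset.sum_comm]
          exact Finset.sum_congr rfl fun q _ => Finset.sum_congr rfl fun i _ => by ring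
      _ = 0 := by
          apply Finset.sum_eq_zero
          intro q _
          have h3 := congrFun hc q
          simp only [Finset.sum_apply, Pi.smul_apply, smul_eq_mul, Pi.zero_apply] at h3
          rw [h3, mul_zero]
  obtain ⟨c, _, hc⟩ := exists_minor _ hlin
  apply hc
  have h4 := hm (fun s => ρ (f s)) c
  rw [← Matrix.det_transpose] at h4
  exact h4

theorem sum_single_smul {E κ V : Type*} [Semiring E] [AddCommMonoid V] [Module E V]
    [Fintype κ] [DecidableEq κ] (t : κ) (c : E) (v : κ → V) :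
    ∑ t', (Pi.single t c : κ → E) t' • v t' = c • v t := by
  rw [Finset.sum_eq_single t]
  · rw [Pi.single_eq_same]
  · intro t' _ h
    rw [Pi.single_eq_of_ne h, zero_smul]
  · intro h
    exact absurd (Finset.mem_univ t) h

section

variable {E : Type*} [Field E] {σ ρ ι S : Type*}

/-- the columns -/
def cols (b : Set (Option S)) (eul : σ ⊕ ρ → E) (syz : S → σ ⊕ ρ → E) (cvr : ι → σ ⊕ ρ → E) :
    (b ⊕ ι) → σ ⊕ ρ → E :=
  Sum.elim (fun o : b => (o : Option S).elim eul syz) cvr

/-- the rank function of the triangular transformation -/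
def rkK (b : Set (Option S)) : (b ⊕ ι) → ℕ :=
  Sum.elim (fun o : b => (o : Option S).elim 0 fun _ => 1) fun _ => 2

/-- its diagonal -/
def gK (d : ι → ℕ) (b : Set (Option S)) (c : E) : (b ⊕ ι) → E :=
  Sum.elim (fun o : b => (o : Option S).elim 1 fun _ => c) fun i => (c ^ d i)⁻¹

/-- The transformation formulas of the columns under `x ↦ x / c`. -/
structure Trans (d : ι → ℕ) (c : E) (eul eul' : σ ⊕ ρ → E) (syz syz' : S → σ ⊕ ρ → E)
    (cvr cvr' : ι → σ ⊕ ρ → E) : Prop where
  eul_eq : eul = scl c eul'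
  syz_eq : ∀ s, ∃ bb : E, syz s = c • scl c (syz' s) + bb • eul
  cvr_eq : ∀ i, ∃ y ∈ Submodule.span E (Set.range syz'), ∃ bb : E,
    cvr i = (c ^ d i)⁻¹ • scl c (cvr' i) + scl c y + bb • eul

theorem span_tilde {d : ι → ℕ} {c : E} {eul eul' : σ ⊕ ρ → E} {syz syz' : S → σ ⊕ ρ → E}
    {cvr cvr' : ι → σ ⊕ ρ → E} (hT : Trans d c eul eul' syz syz' cvr cvr')
    (b : Set (Option S)) (hb0 : none ∈ b)
    (hbsp : ∀ s, syz s ∈ Submodule.span E (Set.range fun o : b => (o : Option S).elim eul syz))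
    (hc : c ≠ 0) (s : S) :
    syz' s ∈ Submodule.span E (Set.range fun o : b => (o : Option S).elim eul' syz') := by
  set W := Submodule.span E (Set.range fun o : b => (o : Option S).elim eul' syz') with hW
  have h0 : eul' ∈ W := Submodule.subset_span ⟨⟨none, hb0⟩, rfl⟩
  have h0' : eul ∈ W.map (scl c) := by
    rw [hT.eul_eq]
    exact Submodule.mem_map_of_mem h0
  have h1 : Submodule.span E (Set.range fun o : b => (o : Option S).elim eul syz) ≤
      W.map (scl c) := by
    rw [Submodule.span_le]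
    rintro _ ⟨⟨o, ho⟩, rfl⟩
    rcases o with _ | s'
    · exact h0'
    · obtain ⟨bb, hbb⟩ := hT.syz_eq s'
      change syz s' ∈ W.map (scl c)
      rw [hbb]
      exact add_mem (Submodule.smul_mem _ _ (Submodule.mem_map_of_mem
        (Submodule.subset_span ⟨⟨some s', ho⟩, rfl⟩))) (Submodule.smul_mem _ _ h0')
  obtain ⟨bb, hbb⟩ := hT.syz_eq s
  have h2 := h1 (hbsp s)
  have h3 : c • scl c (syz' s) ∈ W.map (scl c) := by
    have h4 := sub_mem h2 (Submodule.smul_mem _ bb h0')
    rwa [hbb, add_sub_cancel_right] at h4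
  have h5 : scl c (syz' s) ∈ W.map (scl c) := by
    have h6 := Submodule.smul_mem _ c⁻¹ h3
    rwa [smul_smul, inv_mul_cancel₀ hc, one_smul] at h6
  obtain ⟨y, hy, hy2⟩ := h5
  rw [← scl_inj hc hy2]
  exact hy

theorem exists_T [Fintype ι] {d : ι → ℕ} {c : E} {eul eul' : σ ⊕ ρ → E}
    {syz syz' : S → σ ⊕ ρ → E} {cvr cvr' : ι → σ ⊕ ρ → E}
    (hT : Trans d c eul eul' syz syz' cvr cvr')
    (b : Set (Option S)) [Fintype b] [DecidableEq (b ⊕ ι)] (hb0 : none ∈ b)
    (hbsp : ∀ s, syz s ∈ Submodule.span E (Set.range fun o : b => (o : Option S).elim eul syz))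
    (hc : c ≠ 0) (t : b ⊕ ι) :
    ∃ τ : (b ⊕ ι) → E,
      cols b eul syz cvr t = ∑ t', τ t' • scl c (cols b eul' syz' cvr' t') ∧
      τ t = gK d b c t ∧ ∀ t', t' ≠ t → rkK b t ≤ rkK b t' → τ t' = 0 := by
  set N : b ⊕ ι := Sum.inl ⟨none, hb0⟩ with hN
  have hN1 : scl c (cols b eul' syz' cvr' N) = eul := hT.eul_eq.symm
  rcases t with ⟨o, ho⟩ | i
  · rcases o with _ | s
    · refine ⟨Pi.single N 1, ?_, ?_, ?_⟩
      · rw [sum_single_smul, one_smul, hN1]
        rfl
      · rw [← hN, Pi.single_eq_same]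
        rfl
      · intro t' ht _
        rw [Pi.single_eq_of_ne ht]
    · obtain ⟨bb, hbb⟩ := hT.syz_eq s
      have hne : (Sum.inl ⟨some s, ho⟩ : b ⊕ ι) ≠ N := by
        intro h
        have h1 := congrArg Subtype.val (Sum.inl_injective h)
        cases h1
      refine ⟨Pi.single (Sum.inl ⟨some s, ho⟩) c + Pi.single N bb, ?_, ?_, ?_⟩
      · simp only [Pi.add_apply, add_smul, Finset.sum_add_distrib, sum_single_smul]
        rw [hN1]
        exact hbb
      · rw [Pi.add_apply, Pi.single_eq_same, Pi.single_eq_of_ne hne, add_zero]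
        rfl
      · intro t' ht hrk
        have h1 : t' ≠ N := by
          intro h
          rw [h] at hrk
          change 1 ≤ 0 at hrk
          omega
        rw [Pi.add_apply, Pi.single_eq_of_ne ht, Pi.single_eq_of_ne h1, add_zero]
  · obtain ⟨y, hy, bb, hbb⟩ := hT.cvr_eq i
    have h2 : Submodule.span E (Set.range syz') ≤
        Submodule.span E (Set.range fun o : b => (o : Option S).elim eul' syz') := by
      rw [Submodule.span_le]
      rintro _ ⟨s, rfl⟩
      exact span_tilde hT b hb0 hbsp hc s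
    obtain ⟨cf, hcf⟩ := (Submodule.mem_span_range_iff_exists_fun E).1 (h2 hy)
    have h5 : cols b eul syz cvr (Sum.inr i) =
        (c ^ d i)⁻¹ • scl c (cols b eul' syz' cvr' (Sum.inr i)) +
          ∑ o : b, cf o • scl c (cols b eul' syz' cvr' (Sum.inl o)) +
            bb • scl c (cols b eul' syz' cvr' N) := by
      rw [hN1]
      have h6 : scl c y = ∑ o : b, cf o • scl c (cols b eul' syz' cvr' (Sum.inl o)) := by
        rw [← hcf, map_sum]
        simp only [map_smul]
        rfl
      rw [← h6]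
      exact hbb
    have hNr : (Sum.inr i : b ⊕ ι) ≠ N := Sum.inr_ne_inl
    refine ⟨Pi.single (Sum.inr i) (c ^ d i)⁻¹ + Sum.elim cf 0 + Pi.single N bb, ?_, ?_, ?_⟩
    · simp only [Pi.add_apply, add_smul, Finset.sum_add_distrib, sum_single_smul]
      rw [h5]
      congr 2
      rw [Fintype.sum_sum_type]
      simp
    · rw [Pi.add_apply, Pi.add_apply, Pi.single_eq_same, Pi.single_eq_of_ne hNr, add_zero]
      simp [gK]
    · intro t' ht hrk
      rcases t' with o | i'
      · exfalso
        rcases o with ⟨_ | s, ho⟩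
        · change 2 ≤ 0 at hrk
          omega
        · change 2 ≤ 1 at hrk
          omega
      · have h7 : (Sum.inr i' : b ⊕ ι) ≠ N := Sum.inr_ne_inl
        rw [Pi.add_apply, Pi.add_apply, Pi.single_eq_of_ne ht, Pi.single_eq_of_ne h7]
        simp

/-- The columns are linearly independent. -/
theorem li_cols [Fintype ι] [DecidableEq ι] (b : Set (Option S)) (eul : σ ⊕ ρ → E)
    (syz : S → σ ⊕ ρ → E) (cvr : ι → σ ⊕ ρ → E) (lam : (σ ⊕ ρ → E) →ₗ[E] (ι → E))
    (hl1 : lam eul = 0) (hl2 : ∀ s, lam (syz s) = 0) (g : ι → E) (hg : ∀ i, g i ≠ 0)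
    (hl3 : ∀ i, lam (cvr i) = Pi.single i (g i))
    (hbli : LinearIndependent E fun o : b => (o : Option S).elim eul syz) :
    LinearIndependent E (cols b eul syz cvr) := by
  have hlF : ∀ o : b, lam ((o : Option S).elim eul syz) = 0 := by
    rintro ⟨o, ho⟩
    rcases o with _ | s
    · exact hl1
    · exact hl2 s
  have key1 : ∀ (f : ι → E) (i : ι), lam (∑ i, f i • cvr i) i = f i * g i := by
    intro f i
    rw [map_sum]
    simp only [map_smul, hl3]
    rw [Finset.sum_apply, Finset.sum_eq_single i]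
    · simp
    · intro i' _ h
      rw [Pi.smul_apply, Pi.single_eq_of_ne h.symm, smul_zero]
    · intro h
      exact absurd (Finset.mem_univ i) h
  have hRli : LinearIndependent E cvr := by
    rw [Fintype.linearIndependent_iff]
    intro f hf i
    have h1 := key1 f i
    rw [hf, map_zero, Pi.zero_apply] at h1
    rcases mul_eq_zero.1 h1.symm with h | h
    · exact h
    · exact absurd h (hg i)
  refine LinearIndependent.sum_type hbli hRli ?_
  rw [Submodule.disjoint_def]
  intro z hz1 hz2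
  have h1 : lam z = 0 := by
    have h2 : Submodule.span E (Set.range fun o : b => (o : Option S).elim eul syz) ≤
        LinearMap.ker lam := by
      rw [Submodule.span_le]
      rintro _ ⟨o, rfl⟩
      exact hlF o
    exact h2 hz1
  obtain ⟨f, hf⟩ := (Submodule.mem_span_range_iff_exists_fun E).1 hz2
  have h3 : ∀ i, f i = 0 := by
    intro i
    have h2 := key1 f i
    rw [hf, h1, Pi.zero_apply] at h2
    rcases mul_eq_zero.1 h2.symm with h | h
    · exact h
    · exact absurd h (hg i)
  rw [← hf]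
  exact Finset.sum_eq_zero fun i _ => by rw [h3 i, zero_smul]

theorem prod_gK [Fintype ι] (d : ι → ℕ) (b : Set (Option S)) [Fintype b]
    (hb0 : none ∈ b) (c : E) (hc : c ≠ 0) :
    (∏ t, gK d b c t) * (c * c ^ ∑ i, d i) = c ^ Fintype.card b := by
  classical
  rw [Fintype.prod_sum_type]
  have h1 : ∏ i : ι, gK d b c (Sum.inr i) = (c ^ ∑ i, d i)⁻¹ := by
    rw [← Finset.prod_pow_eq_pow_sum, ← Finset.prod_inv_distrib]
    rfl
  have h2 : (∏ o : b, gK d b c (Sum.inl o)) * c = c ^ Fintype.card b := by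
    rw [← Finset.mul_prod_erase Finset.univ _ (Finset.mem_univ (⟨none, hb0⟩ : b))]
    have h3 : gK d b c (Sum.inl ⟨none, hb0⟩) = 1 := rfl
    rw [h3, one_mul, Finset.prod_congr rfl (g := fun _ => c)]
    · rw [Finset.prod_const, Finset.card_erase_of_mem (Finset.mem_univ _), Finset.card_univ,
        ← pow_succ]
      congr 1
      have h5 : 0 < Fintype.card b := Fintype.card_pos_iff.2 ⟨⟨none, hb0⟩⟩
      exact Nat.sub_add_cancel h5
    · rintro ⟨o, ho⟩ h
      rcases o with _ | s
      · exact absurd rfl (Finset.ne_of_mem_erase h)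
      · rfl
  rw [h1]
  have h4 : c ^ ∑ i, d i ≠ 0 := pow_ne_zero _ hc
  calc (∏ o : b, gK d b c (Sum.inl o)) * (c ^ ∑ i, d i)⁻¹ * (c * c ^ ∑ i, d i)
      = ((∏ o : b, gK d b c (Sum.inl o)) * c) * ((c ^ ∑ i, d i)⁻¹ * c ^ ∑ i, d i) := by
        ring
    _ = c ^ Fintype.card b := by rw [inv_mul_cancel₀ h4, mul_one, h2]

end

/-- **The linear algebra of the key lemma.** `G` is non-zero and `G c` is integral up to a power of
`Δ` at every valuation ring containing `c⁻¹` at which the columns transformed by `x ↦ x / c`,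
weighted by `u_i / c ^ e_i` in the rows `i`, are bounded. -/
theorem key_abs {E : Type*} [Field E] {σ ρ ι S Q : Type*} [Fintype σ] [Fintype ρ] [Fintype ι]
    [DecidableEq ι] [Finite S] [Fintype Q] (d : ι → ℕ) (e : ρ → ℕ) (Z : Finset ρ)
    (eul : σ ⊕ ρ → E) (syz : S → σ ⊕ ρ → E) (cvr : ι → σ ⊕ ρ → E)
    (i₀ : σ) (heul : eul (Sum.inl i₀) ≠ 0)
    (lam : (σ ⊕ ρ → E) →ₗ[E] (ι → E)) (hl1 : lam eul = 0) (hl2 : ∀ s, lam (syz s) = 0)
    (g : ι → E) (hg : ∀ i, g i ≠ 0) (hl3 : ∀ i, lam (cvr i) = Pi.single i (g i))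
    (hz1 : ∀ i ∈ Z, eul (Sum.inr i) = 0) (hz2 : ∀ s, ∀ i ∈ Z, syz s (Sum.inr i) = 0)
    (hz3 : ∀ i', ∀ i ∈ Z, cvr i' (Sum.inr i) = 0)
    (C : Q → σ → E) (w : ℕ)
    (hm : ∀ (r : Fin (w + 2) → σ) (c : Fin (w + 2) → Q),
      Matrix.det (Matrix.of fun s t => C (c t) (r s)) = 0)
    (hC1 : (fun l => eul (Sum.inl l)) ∈ Submodule.span E (Set.range C))
    (hC2 : ∀ s, (fun l => syz s (Sum.inl l)) ∈ Submodule.span E (Set.range C))
    (hC3 : ∀ i, (fun l => cvr i (Sum.inl l)) ∈ Submodule.span E (Set.range C))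
    (u : ρ → E) (hu : ∀ i ∉ Z, u i ≠ 0)
    (hw : 2 * w + 2 + ∑ i, e i + Fintype.card ρ ≤ ∑ i, d i + Z.card + Fintype.card ι) :
    ∃ G : E, G ≠ 0 ∧ ∀ (O : ValuationSubring E) (Δ c : E) (eul' : σ ⊕ ρ → E)
      (syz' : S → σ ⊕ ρ → E) (cvr' : ι → σ ⊕ ρ → E), c ≠ 0 → c⁻¹ ∈ O → Δ ∈ O →
      Trans d c eul eul' syz syz' cvr cvr' →
      (∀ l, Δ * eul' (Sum.inl l) ∈ O) → (∀ s l, Δ * syz' s (Sum.inl l) ∈ O) →
      (∀ i l, Δ * cvr' i (Sum.inl l) ∈ O) →
      (∀ i ∉ Z, Δ * (u i / c ^ e i * eul' (Sum.inr i)) ∈ O) →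
      (∀ i ∉ Z, ∀ s, Δ * (u i / c ^ e i * syz' s (Sum.inr i)) ∈ O) →
      (∀ i ∉ Z, ∀ i', Δ * (u i / c ^ e i * cvr' i' (Sum.inr i)) ∈ O) →
      Δ ^ (Fintype.card σ + Fintype.card ρ) * (G * c) ∈ O := by
  classical
  have heul0 : eul ≠ 0 := fun h => heul (by rw [h]; rfl)
  obtain ⟨b, hb0, hbli, hbsp⟩ := exists_basis_part (E := E) eul heul0 syz
  have : Fintype b := Fintype.ofFinite b
  have hK := li_cols b eul syz cvr lam hl1 hl2 g hg hl3 hbli
  obtain ⟨r, hrinj, hrdet⟩ := exists_minor _ hK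
  have hrZ : ∀ s i, r s = Sum.inr i → i ∉ Z := by
    intro s i hs hi
    apply hrdet
    refine Matrix.det_eq_zero_of_row_eq_zero s fun t => ?_
    rw [Matrix.of_apply, hs]
    rcases t with ⟨o, ho⟩ | i'
    · rcases o with _ | s'
      · exact hz1 i hi
      · exact hz2 s' i hi
    · exact hz3 i' i hi
  set uw : σ ⊕ ρ → E := Sum.elim (fun _ => 1) u with huw
  set ee : σ ⊕ ρ → ℕ := Sum.elim (fun _ => 0) e with hee
  -- counting
  set lft : Finset (b ⊕ ι) := Finset.univ.filter fun s => (r s).isLeft = true with hlft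
  set rgt : Finset (b ⊕ ι) := Finset.univ.filter fun s => ¬ (r s).isLeft = true with hrgt
  have hn' : lft.card ≤ w + 1 := by
    refine left_rows_le C w hm (fun t l => cols b eul syz cvr t (Sum.inl l)) ?_
      _ hrdet lft (fun s => Sum.elim id (fun _ => i₀) (r s)) ?_
    · rintro (⟨o, ho⟩ | i)
      · rcases o with _ | s
        · exact hC1
        · exact hC2 s
      · exact hC3 i
    · intro s hs t
      rw [hlft, Finset.mem_filter] at hs
      rcases h : r s with l | i
      · simp [h]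
      · rw [h] at hs
        simp at hs
  have hq' : rgt.card + Z.card ≤ Fintype.card ρ := by
    have h1 : rgt.image r ⊆ (Finset.univ \ Z).map ⟨Sum.inr, Sum.inr_injective⟩ := by
      intro y hy
      rw [Finset.mem_image] at hy
      obtain ⟨s, hs, rfl⟩ := hy
      rw [hrgt, Finset.mem_filter] at hs
      rcases h : r s with l | i
      · rw [h] at hs
        simp at hs
      · rw [Finset.mem_map]
        exact ⟨i, Finset.mem_sdiff.2 ⟨Finset.mem_univ i, hrZ s i h⟩, rfl⟩
    have h2 := Finset.card_le_card h1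
    rw [Finset.card_image_of_injective _ hrinj, Finset.card_map,
      Finset.card_sdiff_of_subset (Finset.subset_univ Z), Finset.card_univ] at h2
    have h3 : Z.card ≤ Fintype.card ρ := Finset.card_le_univ Z
    omega
  have hcard : Fintype.card b + Fintype.card ι = lft.card + rgt.card := by
    rw [← Fintype.card_sum, ← Finset.card_univ (α := b ⊕ ι)]
    exact (Finset.card_filter_add_card_filter_not _).symm
  have hesum : ∑ s, ee (r s) ≤ ∑ i, e i := by
    calc ∑ s, ee (r s) = ∑ y ∈ Finset.univ.image r, ee y :=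
          (Finset.sum_image fun _ _ _ _ h => hrinj h).symm
      _ ≤ ∑ y, ee y := Finset.sum_le_sum_of_subset (Finset.subset_univ _)
      _ = ∑ i, e i := by
          rw [Fintype.sum_sum_type]
          simp [hee]
  obtain ⟨m, hmP⟩ : ∃ m, 1 + ∑ i, d i = (∑ s, ee (r s) + lft.card + Fintype.card b) + 1 + m :=
    Nat.exists_eq_add_of_le (by omega)
  obtain ⟨k', hk'⟩ : ∃ k', Fintype.card σ + Fintype.card ρ = Fintype.card (b ⊕ ι) + k' := by
    apply Nat.exists_eq_add_of_le
    rw [← Fintype.card_sum]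
    exact Fintype.card_le_of_injective r hrinj
  refine ⟨Matrix.det (Matrix.of fun s t => uw (r s) * cols b eul syz cvr t (r s)), ?_, ?_⟩
  · have h1 := Matrix.det_mul_column (fun s => uw (r s))
      (Matrix.of fun s t => cols b eul syz cvr t (r s))
    simp only [Matrix.of_apply] at h1
    rw [h1]
    refine mul_ne_zero (Finset.prod_ne_zero_iff.2 fun s _ => ?_) hrdet
    rcases h : r s with l | i
    · rw [huw]
      simp
    · rw [huw]
      simpa using hu i (hrZ s i h)
  · intro O Δ c eul' syz' cvr' hc hci hΔ hTr he1 he2 he3 he4 he5 he6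
    choose τ hτ1 hτ2 hτ3 using exists_T hTr b hb0 hbsp hc
    set Kt := cols b eul' syz' cvr' with hKt
    set rf : σ ⊕ ρ → E := Sum.elim (fun _ => c) (fun _ => 1) with hrf
    set wt : σ ⊕ ρ → E := Sum.elim (fun _ => 1) (fun i => u i / c ^ e i) with hwt
    set N : Matrix (b ⊕ ι) (b ⊕ ι) E := Matrix.of fun s t => wt (r s) * Kt t (r s) with hN
    set T : Matrix (b ⊕ ι) (b ⊕ ι) E := Matrix.of fun t' t => τ t t' with hT
    have hTdet : T.det = ∏ t, gK d b c t :=
      det_tri T (rkK b) _ (fun t => hτ2 t) fun t' t h1 h2 => hτ3 t t' h1 h2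
    have hdecomp : ∀ s, uw s = c ^ ee s * wt s := by
      rintro (s | i)
      · simp [huw, hee, hwt]
      · have h1 : c ^ e i ≠ 0 := pow_ne_zero _ hc
        simp only [huw, hee, hwt, Sum.elim_inr]
        field_simp
    have hmat : (Matrix.of fun s t => uw (r s) * cols b eul syz cvr t (r s)) =
        (Matrix.of fun s t' => (c ^ ee (r s) * rf (r s)) * N s t') * T := by
      ext s t
      rw [Matrix.mul_apply, Matrix.of_apply, hτ1 t, Finset.sum_apply, Finset.mul_sum]
      refine Finset.sum_congr rfl fun t' _ => ?_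
      rw [Pi.smul_apply, smul_eq_mul, scl_apply, hdecomp]
      simp only [hN, hT, Matrix.of_apply]
      change _ * (_ * (rf (r s) * Kt t' (r s))) = _
      ring
    have hdet : Matrix.det (Matrix.of fun s t => uw (r s) * cols b eul syz cvr t (r s)) *
        (c * c ^ ∑ i, d i) =
        c ^ (∑ s, ee (r s) + lft.card + Fintype.card b) * N.det := by
      rw [hmat, Matrix.det_mul, Matrix.det_mul_column, hTdet, mul_assoc, prod_gK d b hb0 c hc,
        Finset.prod_mul_distrib, Finset.prod_pow_eq_pow_sum]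
      have h1 : ∏ s, rf (r s) = c ^ lft.card := by
        rw [hlft, ← Finset.prod_const, Finset.prod_filter]
        refine Finset.prod_congr rfl fun s _ => ?_
        rcases h : r s with l | i <;> simp [hrf]
      rw [h1]
      ring
    set G := Matrix.det (Matrix.of fun s t => uw (r s) * cols b eul syz cvr t (r s)) with hG
    have hG2 : G * c ^ (m + 1) = N.det := by
      have h1 : c * c ^ ∑ i, d i =
          c ^ (∑ s, ee (r s) + lft.card + Fintype.card b) * c ^ (m + 1) := by
        rw [← pow_succ', ← pow_add]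
        congr 1
        omega
      rw [h1] at hdet
      have h2 : c ^ (∑ s, ee (r s) + lft.card + Fintype.card b) ≠ 0 := pow_ne_zero _ hc
      apply mul_left_cancel₀ h2
      rw [← hdet]
      ring
    have hNdet : Δ ^ Fintype.card (b ⊕ ι) * N.det ∈ O := by
      rw [← Matrix.det_smul]
      refine det_mem O.toSubring _ fun s t => ?_
      rw [Matrix.smul_apply, smul_eq_mul]
      change Δ * (wt (r s) * Kt t (r s)) ∈ O
      rcases h : r s with l | i
      · have h1 : wt (Sum.inl l) = 1 := rfl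
        rw [h1, one_mul]
        rcases t with ⟨o, ho⟩ | i'
        · rcases o with _ | s'
          · exact he1 l
          · exact he2 s' l
        · exact he3 i' l
      · have hi := hrZ s i h
        rcases t with ⟨o, ho⟩ | i'
        · rcases o with _ | s'
          · exact he4 i hi
          · exact he5 i hi s'
        · exact he6 i hi i'
    have h1 : c⁻¹ ^ m * c ^ (m + 1) = c := by
      rw [pow_succ, ← mul_assoc, ← mul_pow, inv_mul_cancel₀ hc, one_pow, one_mul]
    have hfin : Δ ^ (Fintype.card σ + Fintype.card ρ) * (G * c) =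
        Δ ^ k' * c⁻¹ ^ m * (Δ ^ Fintype.card (b ⊕ ι) * N.det) := by
      rw [hk', pow_add, ← hG2]
      calc Δ ^ Fintype.card (b ⊕ ι) * Δ ^ k' * (G * c)
          = Δ ^ Fintype.card (b ⊕ ι) * Δ ^ k' * (G * (c⁻¹ ^ m * c ^ (m + 1))) := by
            rw [h1]
        _ = _ := by ring
    rw [hfin]
    exact mul_mem (mul_mem (pow_mem hΔ _) (pow_mem hci _)) hNdet

end Pool.Agent.Helper74.LG

end
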