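import Pool.Agent.Helper74.MG.T25
import Pool.Agent.Helper74.MG.T15
import Pool.Agent.Helper74.MG.T11

section

/-!
# The linear algebra of LG-KEY for two-vectors, abstract form

Rows `σ ⊕ ρ`; columns `eul`, `syz (q, j, l) = x_j C_(q,l) - x_l C_(q,j)`, `cvr i`. The bounded
objects are the two-vectors `x ∧ δ`, where `δ_l` is a maximal minor with one column `C_(q,l)`.
-/

set_option autoImplicit false

namespace Pool.Agent.Helper49.LG

open scoped BigOperators
open Pool.Agent.Helper8.LG (exists_minor)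
open Pool.Agent.Helper74.LG (scl scl_apply scl_inj Trans left_rows_le sum_single_smul det_tri
  det_mem exists_basis_part)

section

variable {E : Type*} [Field E] {σ ρ ι S K : Type*}

/-- the columns -/
def kc (f : K → S) (eul : σ ⊕ ρ → E) (syz : S → σ ⊕ ρ → E) (cvr : ι → σ ⊕ ρ → E) :
    (Option K ⊕ ι) → σ ⊕ ρ → E :=
  Sum.elim (fun o : Option K => o.elim eul fun k => syz (f k)) cvr

/-- the rank function of the triangular transformation -/
def krk : (Option K ⊕ ι) → ℕ :=
  Sum.elim (fun o : Option K => o.elim 0 fun _ => 1) fun _ => 2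

/-- its diagonal -/
def kg (d : ι → ℕ) (c : E) : (Option K ⊕ ι) → E :=
  Sum.elim (fun o : Option K => o.elim 1 fun _ => c) fun i => (c ^ d i)⁻¹

theorem k_span {d : ι → ℕ} {c : E} {eul eul' : σ ⊕ ρ → E} {syz syz' : S → σ ⊕ ρ → E}
    {cvr cvr' : ι → σ ⊕ ρ → E} (hT : Trans d c eul eul' syz syz' cvr cvr') (f : K → S)
    (hsp : ∀ s, syz s ∈ Submodule.span E
      (Set.range fun o : Option K => o.elim eul fun k => syz (f k)))
    (hc : c ≠ 0) (s : S) :
    syz' s ∈ Submodule.span E (Set.range fun o : Option K => o.elim eul' fun k => syz' (f k)) := by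
  set W := Submodule.span E (Set.range fun o : Option K => o.elim eul' fun k => syz' (f k)) with hW
  have h0 : eul' ∈ W := Submodule.subset_span ⟨none, rfl⟩
  have h0' : eul ∈ W.map (scl c) := by
    rw [hT.eul_eq]
    exact Submodule.mem_map_of_mem h0
  have h1 : Submodule.span E (Set.range fun o : Option K => o.elim eul fun k => syz (f k)) ≤
      W.map (scl c) := by
    rw [Submodule.span_le]
    rintro _ ⟨o, rfl⟩
    rcases o with _ | k
    · exact h0'
    · obtain ⟨bb, hbb⟩ := hT.syz_eq (f k)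
      change syz (f k) ∈ W.map (scl c)
      rw [hbb]
      exact add_mem (Submodule.smul_mem _ _ (Submodule.mem_map_of_mem
        (Submodule.subset_span ⟨some k, rfl⟩))) (Submodule.smul_mem _ _ h0')
  obtain ⟨bb, hbb⟩ := hT.syz_eq s
  have h2 := h1 (hsp s)
  have h3 : c • scl c (syz' s) ∈ W.map (scl c) := by
    have h4 := sub_mem h2 (Submodule.smul_mem _ bb h0')
    rwa [hbb, add_sub_cancel_right] at h4
  have h5 : scl c (syz' s) ∈ W.map (scl c) := by
    have h6 := Submodule.smul_mem _ c⁻¹ h3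
    rwa [smul_smul, inv_mul_cancel₀ hc, one_smul] at h6
  obtain ⟨y, hy, hy2⟩ := h5
  rw [← scl_inj hc hy2]
  exact hy

theorem k_exists_T [Fintype ι] [Fintype K] {d : ι → ℕ} {c : E} {eul eul' : σ ⊕ ρ → E}
    {syz syz' : S → σ ⊕ ρ → E} {cvr cvr' : ι → σ ⊕ ρ → E}
    (hT : Trans d c eul eul' syz syz' cvr cvr')
    (f : K → S) [DecidableEq (Option K ⊕ ι)]
    (hsp : ∀ s, syz s ∈ Submodule.span E
      (Set.range fun o : Option K => o.elim eul fun k => syz (f k)))
    (hc : c ≠ 0) (t : Option K ⊕ ι) :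
    ∃ τ : (Option K ⊕ ι) → E,
      kc f eul syz cvr t = ∑ t', τ t' • scl c (kc f eul' syz' cvr' t') ∧
      τ t = kg d c t ∧ ∀ t', t' ≠ t → krk t ≤ krk t' → τ t' = 0 := by
  set N : Option K ⊕ ι := Sum.inl none with hN
  have hN1 : scl c (kc f eul' syz' cvr' N) = eul := hT.eul_eq.symm
  rcases t with o | i
  · rcases o with _ | k
    · refine ⟨Pi.single N 1, ?_, ?_, ?_⟩
      · rw [sum_single_smul, one_smul, hN1]
        rfl
      · rw [← hN, Pi.single_eq_same]
        rfl
      · intro t' ht _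
        rw [Pi.single_eq_of_ne ht]
    · obtain ⟨bb, hbb⟩ := hT.syz_eq (f k)
      have hne : (Sum.inl (some k) : Option K ⊕ ι) ≠ N := by
        intro h
        have h1 := Sum.inl_injective h
        cases h1
      refine ⟨Pi.single (Sum.inl (some k)) c + Pi.single N bb, ?_, ?_, ?_⟩
      · simp only [Pi.add_apply, add_smul, Finset.sum_add_distrib, sum_single_smul]
        rw [hN1]
        exact hbb
      · rw [Pi.add_apply, Pi.single_eq_same, Pi.single_eq_of_ne hne, add_zero]
        rfl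
      · intro t' ht hrk
        have h1 : t' ≠ N := by
          intro h
          rw [h] at hrk
          change 1 ≤ 0 at hrk
          omega
        rw [Pi.add_apply, Pi.single_eq_of_ne ht, Pi.single_eq_of_ne h1, add_zero]
  · obtain ⟨y, hy, bb, hbb⟩ := hT.cvr_eq i
    have h2 : Submodule.span E (Set.range syz') ≤
        Submodule.span E (Set.range fun o : Option K => o.elim eul' fun k => syz' (f k)) := by
      rw [Submodule.span_le]
      rintro _ ⟨s, rfl⟩
      exact k_span hT f hsp hc s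
    obtain ⟨cf, hcf⟩ := (Submodule.mem_span_range_iff_exists_fun E).1 (h2 hy)
    have h5 : kc f eul syz cvr (Sum.inr i) =
        (c ^ d i)⁻¹ • scl c (kc f eul' syz' cvr' (Sum.inr i)) +
          ∑ o : Option K, cf o • scl c (kc f eul' syz' cvr' (Sum.inl o)) +
            bb • scl c (kc f eul' syz' cvr' N) := by
      rw [hN1]
      have h6 : scl c y = ∑ o : Option K, cf o • scl c (kc f eul' syz' cvr' (Sum.inl o)) := by
        rw [← hcf, map_sum]
        simp only [map_smul]
        rfl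
      rw [← h6]
      exact hbb
    have hNr : (Sum.inr i : Option K ⊕ ι) ≠ N := Sum.inr_ne_inl
    refine ⟨Pi.single (Sum.inr i) (c ^ d i)⁻¹ + Sum.elim cf 0 + Pi.single N bb, ?_, ?_, ?_⟩
    · simp only [Pi.add_apply, add_smul, Finset.sum_add_distrib, sum_single_smul]
      rw [h5]
      congr 2
      rw [Fintype.sum_sum_type]
      simp
    · rw [Pi.add_apply, Pi.add_apply, Pi.single_eq_same, Pi.single_eq_of_ne hNr, add_zero]
      simp [kg]
    · intro t' ht hrk
      rcases t' with o | i'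
      · exfalso
        rcases o with _ | k
        · change 2 ≤ 0 at hrk
          omega
        · change 2 ≤ 1 at hrk
          omega
      · have h7 : (Sum.inr i' : Option K ⊕ ι) ≠ N := Sum.inr_ne_inl
        rw [Pi.add_apply, Pi.add_apply, Pi.single_eq_of_ne ht, Pi.single_eq_of_ne h7]
        simp

theorem k_prod [Fintype ι] [Fintype K] (d : ι → ℕ) (c : E) (hc : c ≠ 0) :
    (∏ t, kg (K := K) d c t) * c ^ ∑ i, d i = c ^ Fintype.card K := by
  rw [Fintype.prod_sum_type, Fintype.prod_option]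
  have h1 : ∏ i : ι, kg (K := K) d c (Sum.inr i) = (c ^ ∑ i, d i)⁻¹ := by
    rw [← Finset.prod_pow_eq_pow_sum, ← Finset.prod_inv_distrib]
    rfl
  have h2 : ∏ k : K, kg (ι := ι) d c (Sum.inl (some k)) = c ^ Fintype.card K := by
    have h5 : ∀ k : K, kg (ι := ι) d c (Sum.inl (some k)) = c := fun _ => rfl
    simp only [h5, Finset.prod_const, Finset.card_univ]
  have h3 : kg (ι := ι) (K := K) d c (Sum.inl none) = 1 := rfl
  have h4 : c ^ ∑ i, d i ≠ 0 := pow_ne_zero _ hc
  rw [h1, h2, h3, one_mul, mul_assoc, inv_mul_cancel₀ h4, mul_one]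

end

/-- The number of `x`-rows and of other rows of a minor. -/
def nlft {κ σ ρ : Type*} [Fintype κ] (r : κ → σ ⊕ ρ) : ℕ :=
  (Finset.univ.filter fun s => (r s).isLeft = true).card

/-- **The transformed minor.** `G c^(∑ d_i) = c^(n' + |K|) N`, `N` integral up to a power of `Δ`. -/
theorem k_minor {E : Type*} [Field E] {σ ρ ι S K : Type*} [Fintype σ] [Fintype ρ] [Fintype ι]
    [Fintype K] [DecidableEq (Option K ⊕ ι)] (d : ι → ℕ) (f : K → S)
    (eul : σ ⊕ ρ → E) (syz : S → σ ⊕ ρ → E) (cvr : ι → σ ⊕ ρ → E)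
    (hsp : ∀ s, syz s ∈ Submodule.span E
      (Set.range fun o : Option K => o.elim eul fun k => syz (f k)))
    (r : (Option K ⊕ ι) → σ ⊕ ρ)
    (O : ValuationSubring E) (Δ c : E) (eul' : σ ⊕ ρ → E)
    (syz' : S → σ ⊕ ρ → E) (cvr' : ι → σ ⊕ ρ → E) (hc : c ≠ 0)
    (hTr : Trans d c eul eul' syz syz' cvr cvr')
    (he1 : ∀ l, Δ * eul' l ∈ O) (he2 : ∀ s l, Δ * syz' s l ∈ O)
    (he3 : ∀ i l, Δ * cvr' i l ∈ O) :
    ∃ N : E, Δ ^ Fintype.card (Option K ⊕ ι) * N ∈ O ∧
      Matrix.det (Matrix.of fun s t => kc f eul syz cvr t (r s)) * c ^ ∑ i, d i =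
        c ^ (nlft r + Fintype.card K) * N := by
  choose τ hτ1 hτ2 hτ3 using k_exists_T hTr f hsp hc
  set Kt := kc f eul' syz' cvr' with hKt
  set rf : σ ⊕ ρ → E := Sum.elim (fun _ => c) (fun _ => 1) with hrf
  set N : Matrix (Option K ⊕ ι) (Option K ⊕ ι) E := Matrix.of fun s t => Kt t (r s) with hN
  set T : Matrix (Option K ⊕ ι) (Option K ⊕ ι) E := Matrix.of fun t' t => τ t t' with hT
  have hTdet : T.det = ∏ t, kg d c t :=
    det_tri T krk _ (fun t => hτ2 t) fun t' t h1 h2 => hτ3 t t' h1 h2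
  have hmat : (Matrix.of fun s t => kc f eul syz cvr t (r s)) =
      (Matrix.of fun s t' => rf (r s) * N s t') * T := by
    ext s t
    rw [Matrix.mul_apply, Matrix.of_apply, hτ1 t, Finset.sum_apply]
    refine Finset.sum_congr rfl fun t' _ => ?_
    rw [Pi.smul_apply, smul_eq_mul, scl_apply]
    simp only [hN, hT, Matrix.of_apply]
    change _ * (rf (r s) * Kt t' (r s)) = _
    ring
  refine ⟨N.det, ?_, ?_⟩
  · rw [← Matrix.det_smul]
    refine det_mem O.toSubring _ fun s t => ?_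
    rw [Matrix.smul_apply, smul_eq_mul]
    change Δ * Kt t (r s) ∈ O
    rcases t with o | i'
    · rcases o with _ | k
      · exact he1 _
      · exact he2 _ _
    · exact he3 i' _
  · rw [hmat, Matrix.det_mul, Matrix.det_mul_column, hTdet, mul_assoc, k_prod d c hc]
    have h1 : ∏ s, rf (r s) = c ^ nlft r := by
      rw [nlft, ← Finset.prod_const, Finset.prod_filter]
      refine Finset.prod_congr rfl fun s _ => ?_
      rcases h : r s with l | i <;> simp [hrf]
    rw [h1]
    ring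

end Pool.Agent.Helper49.LG

end

section

/-!
# The linear algebra of LG-KEY for two-vectors, abstract form: the theorem
-/

set_option autoImplicit false

namespace Pool.Agent.Helper49.LG

open scoped BigOperators
open Pool.Agent.Helper8.LG (exists_minor)
open Pool.Agent.Helper74.LG (scl scl_apply scl_inj Trans left_rows_le sum_single_smul det_tri
  det_mem exists_basis_part cols li_cols)

/-- the syzygies -/
def sy {E σ R Q : Type*} [Field E] (x : σ → E) (C : Q → σ → R → E) (s : Q × σ × σ) : R → E :=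
  x s.2.1 • C s.1 s.2.2 - x s.2.2 • C s.1 s.2.1

/-- A linearly independent family of the right size in a span. -/
theorem span_of_li {E V S K : Type*} [Field E] [AddCommGroup V] [Module E V] [Fintype K]
    (v v' : K → V) (hv : LinearIndependent E v) (hv' : LinearIndependent E v')
    (h : ∀ k, v' k ∈ Submodule.span E (Set.range v)) (u : S → V)
    (hu : ∀ s, u s ∈ Submodule.span E (Set.range v)) (s : S) :
    u s ∈ Submodule.span E (Set.range v') := by
  have hle : Submodule.span E (Set.range v') ≤ Submodule.span E (Set.range v) := by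
    rw [Submodule.span_le]
    rintro _ ⟨k, rfl⟩
    exact h k
  have hfin : FiniteDimensional E (Submodule.span E (Set.range v)) :=
    FiniteDimensional.span_of_finite E (Set.finite_range v)
  have heq := Submodule.eq_of_le_of_finrank_eq hle (by
    rw [finrank_span_eq_card hv, finrank_span_eq_card hv'])
  rw [heq]
  exact hu s

/-- Linear independence from a non-zero minor. -/
theorem li_of_minor {E R κ : Type*} [Field E] [Fintype κ] [DecidableEq κ] (v : κ → R → E)
    (r : κ → R) (h : Matrix.det (Matrix.of fun s t => v t (r s)) ≠ 0) :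
    LinearIndependent E v := by
  have h1 : LinearIndependent E (Matrix.of fun s t => v t (r s)).col :=
    Matrix.linearIndependent_cols_of_det_ne_zero h
  have h2 : (Matrix.of fun s t => v t (r s)).col = (LinearMap.funLeft E E r) ∘ v := rfl
  rw [h2] at h1
  exact LinearIndependent.of_comp _ h1

/-- The two-vector version of the linear algebra of the key lemma. -/
theorem key_two_abs {E : Type*} [Field E] {σ ρ ι Q P : Type*} [Fintype σ] [DecidableEq σ]
    [Fintype ρ] [Fintype ι] [DecidableEq ι] [Finite Q] [Fintype P] (d : ι → ℕ)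
    (Z : Finset ρ) (x : σ → E) (i₀ j₁ : σ) (hx : x i₀ = 1) (hj : j₁ ≠ i₀)
    (eul : σ ⊕ ρ → E) (C : Q → σ → σ ⊕ ρ → E) (cvr : ι → σ ⊕ ρ → E)
    (heul : eul (Sum.inl i₀) ≠ 0)
    (hz1 : ∀ i ∈ Z, eul (Sum.inr i) = 0) (hz2 : ∀ q l, ∀ i ∈ Z, C q l (Sum.inr i) = 0)
    (hz3 : ∀ i', ∀ i ∈ Z, cvr i' (Sum.inr i) = 0)
    (lam : (σ ⊕ ρ → E) →ₗ[E] (ι → E)) (hl1 : lam eul = 0) (hl2 : ∀ s, lam (sy x C s) = 0)
    (g : ι → E) (hg : ∀ i, g i ≠ 0) (hl3 : ∀ i, lam (cvr i) = Pi.single i (g i))
    (Cm : P → σ → E) (w : ℕ)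
    (hm : ∀ (r : Fin (w + 2) → σ) (c : Fin (w + 2) → P),
      Matrix.det (Matrix.of fun s t => Cm (c t) (r s)) = 0)
    (hC1 : (fun l => eul (Sum.inl l)) ∈ Submodule.span E (Set.range Cm))
    (hC2 : ∀ s, (fun l => sy x C s (Sum.inl l)) ∈ Submodule.span E (Set.range Cm))
    (hC3 : ∀ i, (fun l => cvr i (Sum.inl l)) ∈ Submodule.span E (Set.range Cm))
    (hw1 : 2 * w + 1 + Fintype.card ρ ≤ ∑ i, d i + Z.card + Fintype.card ι)
    (hw2 : w + 2 ≤ ∑ i, d i) :
    ∃ δ : σ → E, (∃ j l, x j * δ l - x l * δ j ≠ 0) ∧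
      ∀ (O : ValuationSubring E) (Δ c : E) (eul' : σ ⊕ ρ → E)
      (syz' : Q × σ × σ → σ ⊕ ρ → E) (cvr' : ι → σ ⊕ ρ → E), c ≠ 0 → c⁻¹ ∈ O →
      (∀ l, x l / c ∈ O) → Δ ∈ O → Trans d c eul eul' (sy x C) syz' cvr cvr' →
      (∀ l, Δ * eul' l ∈ O) → (∀ s l, Δ * syz' s l ∈ O) → (∀ i l, Δ * cvr' i l ∈ O) →
      ∀ j l, Δ ^ (Fintype.card σ + Fintype.card ρ) * (x j * δ l - x l * δ j) ∈ O := by
  classical
  have heul0 : eul ≠ 0 := fun h => heul (by rw [h]; rfl)
  obtain ⟨b, hb0, hbli, hbsp⟩ := exists_basis_part (E := E) eul heul0 (sy x C)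
  have : Finite (Q × σ × σ) := inferInstance
  let K := {s : Q × σ × σ // some s ∈ b}
  have hKfin : Fintype K := Fintype.ofFinite K
  let f : K → Q × σ × σ := Subtype.val
  let emb : Option K → b := fun o => o.elim ⟨none, hb0⟩ fun k => ⟨some k.1, k.2⟩
  have hemb : Function.Injective emb := by
    intro o o' h
    rcases o with _ | k <;> rcases o' with _ | k'
    · rfl
    · exact absurd (congrArg Subtype.val h) (by simp [emb])
    · exact absurd (congrArg Subtype.val h) (by simp [emb])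
    · have h1 := congrArg Subtype.val h
      have h2 : k.1 = k'.1 := Option.some_injective _ h1
      rw [Subtype.ext h2]
  have hfli : LinearIndependent E
      (fun o : Option K => o.elim eul fun k => sy x C (f k)) := by
    have h1 := hbli.comp emb hemb
    have h2 : (fun o : b => (o : Option _).elim eul (sy x C)) ∘ emb =
        fun o : Option K => o.elim eul fun k => sy x C (f k) := by
      funext o
      rcases o with _ | k <;> rfl
    rwa [h2] at h1
  have hfsp : ∀ s, sy x C s ∈ Submodule.span E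
      (Set.range fun o : Option K => o.elim eul fun k => sy x C (f k)) := by
    intro s
    refine Submodule.span_mono ?_ (hbsp s)
    rintro _ ⟨⟨o, ho⟩, rfl⟩
    rcases o with _ | s'
    · exact ⟨none, rfl⟩
    · exact ⟨some ⟨s', ho⟩, rfl⟩
  have hK : LinearIndependent E (kc f eul (sy x C) cvr) := by
    have h1 := (li_cols b eul (sy x C) cvr lam hl1 hl2 g hg hl3 hbli).comp (Sum.map emb id)
      (hemb.sumMap Function.injective_id)
    have h2 : cols b eul (sy x C) cvr ∘ Sum.map emb id = kc f eul (sy x C) cvr := by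
      funext t
      rcases t with (_ | k) | i <;> rfl
    rwa [h2] at h1
  obtain ⟨r, hrinj, hrdet⟩ := exists_minor _ hK
  have hrZ : ∀ s i, r s = Sum.inr i → i ∉ Z := by
    intro s i hs hi
    apply hrdet
    refine Matrix.det_eq_zero_of_row_eq_zero s fun t => ?_
    rw [Matrix.of_apply, hs]
    rcases t with o | i'
    · rcases o with _ | k
      · exact hz1 i hi
      · change sy x C (f k) (Sum.inr i) = 0
        simp [sy, hz2 _ _ i hi]
    · exact hz3 i' i hi
  -- counting
  have hn' : nlft r ≤ w + 1 := by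
    refine left_rows_le Cm w hm (fun t l => kc f eul (sy x C) cvr t (Sum.inl l)) ?_
      _ hrdet _ (fun s => Sum.elim id (fun _ => i₀) (r s)) ?_
    · rintro (o | i)
      · rcases o with _ | k
        · exact hC1
        · exact hC2 (f k)
      · exact hC3 i
    · intro s hs t
      rw [Finset.mem_filter] at hs
      rcases h : r s with l | i
      · simp [h]
      · rw [h] at hs
        simp at hs
  have hq' : (Finset.univ.filter fun s => ¬ (r s).isLeft = true).card + Z.card ≤
      Fintype.card ρ := by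
    have h1 : (Finset.univ.filter fun s => ¬ (r s).isLeft = true).image r ⊆
        (Finset.univ \ Z).map ⟨Sum.inr, Sum.inr_injective⟩ := by
      intro y hy
      rw [Finset.mem_image] at hy
      obtain ⟨s, hs, rfl⟩ := hy
      rw [Finset.mem_filter] at hs
      rcases h : r s with l | i
      · rw [h] at hs
        simp at hs
      · rw [Finset.mem_map]
        exact ⟨i, Finset.mem_sdiff.2 ⟨Finset.mem_univ i, hrZ s i h⟩, rfl⟩
    have h2 := Finset.card_le_card h1
    rw [Finset.card_image_of_injective _ hrinj, Finset.card_map,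
      Finset.card_sdiff_of_subset (Finset.subset_univ Z), Finset.card_univ] at h2
    have h3 : Z.card ≤ Fintype.card ρ := Finset.card_le_univ Z
    omega
  have hcard : Fintype.card K + 1 + Fintype.card ι =
      nlft r + (Finset.univ.filter fun s => ¬ (r s).isLeft = true).card := by
    rw [← Fintype.card_option, ← Fintype.card_sum, ← Finset.card_univ (α := Option K ⊕ ι)]
    exact (Finset.card_filter_add_card_filter_not _).symm
  obtain ⟨k', hk'⟩ : ∃ k', Fintype.card σ + Fintype.card ρ =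
      Fintype.card (Option K ⊕ ι) + k' := by
    apply Nat.exists_eq_add_of_le
    rw [← Fintype.card_sum]
    exact Fintype.card_le_of_injective r hrinj
  by_cases hne : Nonempty K
  · -- one syzygy is varied
    obtain ⟨k₁⟩ := hne
    set q₁ := (f k₁).1 with hq₁
    set M := Matrix.of fun s t => kc f eul (sy x C) cvr t (r s) with hM
    set t₁ : Option K ⊕ ι := Sum.inl (some k₁) with ht₁
    have hup : ∀ j l, Matrix.det (Matrix.of fun s t =>
        kc (Function.update f k₁ (q₁, j, l)) eul (sy x C) cvr t (r s)) =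
        x j * Matrix.det (M.updateCol t₁ fun s => C q₁ l (r s)) -
          x l * Matrix.det (M.updateCol t₁ fun s => C q₁ j (r s)) := by
      intro j l
      have h1 : (Matrix.of fun s t =>
          kc (Function.update f k₁ (q₁, j, l)) eul (sy x C) cvr t (r s)) =
          M.updateCol t₁ ((x j • fun s => C q₁ l (r s)) + (-x l) • fun s => C q₁ j (r s)) := by
        ext s t
        rw [Matrix.updateCol_apply]
        by_cases ht : t = t₁
        · rw [if_pos ht, ht]
          have h2 : kc (Function.update f k₁ (q₁, j, l)) eul (sy x C) cvr t₁ =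
              sy x C (q₁, j, l) := by
            change sy x C (Function.update f k₁ (q₁, j, l) k₁) = _
            rw [Function.update_self]
          rw [Matrix.of_apply, h2]
          simp only [sy, Pi.sub_apply, Pi.add_apply, Pi.smul_apply, smul_eq_mul]
          ring
        · rw [if_neg ht, hM, Matrix.of_apply, Matrix.of_apply]
          rcases t with (_ | k) | i
          · rfl
          · have h3 : k ≠ k₁ := fun h => ht (by rw [h])
            change sy x C (Function.update f k₁ (q₁, j, l) k) _ = sy x C (f k) _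
            rw [Function.update_of_ne h3]
          · rfl
      rw [h1, Matrix.det_updateCol_add, Matrix.det_updateCol_smul, Matrix.det_updateCol_smul]
      ring
    refine ⟨fun l => Matrix.det (M.updateCol t₁ fun s => C q₁ l (r s)),
      ⟨(f k₁).2.1, (f k₁).2.2, ?_⟩, ?_⟩
    · rw [← hup]
      have h1 : ((q₁, (f k₁).2.1, (f k₁).2.2) : Q × σ × σ) = f k₁ := rfl
      rw [h1, Function.update_eq_self]
      exact hrdet
    · intro O Δ c eul' syz' cvr' hc hci _ hΔ hTr he1 he2 he3 j l
      rw [← hup]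
      set f' := Function.update f k₁ (q₁, j, l) with hf'
      by_cases h0 : Matrix.det (Matrix.of fun s t => kc f' eul (sy x C) cvr t (r s)) = 0
      · rw [h0, mul_zero]
        exact zero_mem O
      · have hli' : LinearIndependent E (kc f' eul (sy x C) cvr) := li_of_minor _ r h0
        have hfli' : LinearIndependent E
            (fun o : Option K => o.elim eul fun k => sy x C (f' k)) :=
          hli'.comp Sum.inl Sum.inl_injective
        have hfsp' : ∀ s, sy x C s ∈ Submodule.span E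
            (Set.range fun o : Option K => o.elim eul fun k => sy x C (f' k)) := by
          refine span_of_li _ _ hfli hfli' ?_ (sy x C) hfsp
          rintro (_ | k)
          · exact Submodule.subset_span ⟨none, rfl⟩
          · exact hfsp _
        obtain ⟨N, hN1, hN2⟩ := k_minor d f' eul (sy x C) cvr hfsp' r O Δ c eul' syz' cvr' hc
          hTr he1 he2 he3
        obtain ⟨m, hm'⟩ : ∃ m, ∑ i, d i = nlft r + Fintype.card K + m :=
          Nat.exists_eq_add_of_le (by omega)
        rw [hm', pow_add, mul_comm _ N, mul_comm (c ^ (nlft r + Fintype.card K)) (c ^ m),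
          ← mul_assoc] at hN2
        have hN3 := mul_right_cancel₀ (pow_ne_zero _ hc) hN2
        have h1 : Matrix.det (Matrix.of fun s t => kc f' eul (sy x C) cvr t (r s)) =
            c⁻¹ ^ m * N := by
          rw [← hN3, mul_comm, mul_assoc, ← mul_pow, mul_inv_cancel₀ hc, one_pow, mul_one]
        rw [h1, hk', pow_add]
        have h2 : Δ ^ Fintype.card (Option K ⊕ ι) * Δ ^ k' * (c⁻¹ ^ m * N) =
            Δ ^ k' * c⁻¹ ^ m * (Δ ^ Fintype.card (Option K ⊕ ι) * N) := by ring
        rw [h2]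
        exact mul_mem (mul_mem (pow_mem hΔ _) (pow_mem hci _)) hN1
  · -- no syzygy
    have hK0 : Fintype.card K = 0 := by
      rw [Fintype.card_eq_zero_iff]
      exact not_nonempty_iff.1 hne
    set G := Matrix.det (Matrix.of fun s t => kc f eul (sy x C) cvr t (r s)) with hG
    refine ⟨Pi.single j₁ G, ⟨i₀, j₁, ?_⟩, ?_⟩
    · rw [Pi.single_eq_same, Pi.single_eq_of_ne hj.symm, hx, one_mul, mul_zero, sub_zero]
      exact hrdet
    · intro O Δ c eul' syz' cvr' hc hci hxc hΔ hTr he1 he2 he3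
      obtain ⟨N, hN1, hN2⟩ := k_minor d f eul (sy x C) cvr hfsp r O Δ c eul' syz' cvr' hc
        hTr he1 he2 he3
      obtain ⟨m, hm'⟩ : ∃ m, ∑ i, d i = nlft r + Fintype.card K + 1 + m :=
        Nat.exists_eq_add_of_le (by omega)
      rw [hm', add_assoc _ 1 m, pow_add, mul_comm _ N,
        mul_comm (c ^ (nlft r + Fintype.card K)) (c ^ (1 + m)), ← mul_assoc] at hN2
      have hN3 := mul_right_cancel₀ (pow_ne_zero _ hc) hN2
      have h1 : G * c = c⁻¹ ^ m * N := by
        rw [← hN3, pow_add, pow_one]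
        have h2 : c⁻¹ ^ m * c ^ m = 1 := by rw [← mul_pow, inv_mul_cancel₀ hc, one_pow]
        calc G * c = G * c * (c⁻¹ ^ m * c ^ m) := by rw [h2, mul_one]
          _ = _ := by ring
      have hGx : ∀ l, Δ ^ (Fintype.card σ + Fintype.card ρ) * (G * x l) ∈ O := by
        intro l
        have h2 : G * x l = c⁻¹ ^ m * N * (x l / c) := by
          rw [← h1]
          field_simp
        rw [h2, hk', pow_add]
        have h3 : Δ ^ Fintype.card (Option K ⊕ ι) * Δ ^ k' * (c⁻¹ ^ m * N * (x l / c)) =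
            Δ ^ k' * c⁻¹ ^ m * (x l / c) * (Δ ^ Fintype.card (Option K ⊕ ι) * N) := by ring
        rw [h3]
        exact mul_mem (mul_mem (mul_mem (pow_mem hΔ _) (pow_mem hci _)) (hxc l)) hN1
      have hGx' : ∀ j l, Δ ^ (Fintype.card σ + Fintype.card ρ) *
          (x j * (Pi.single j₁ G : σ → E) l) ∈ O := by
        intro j l
        by_cases hl : l = j₁
        · rw [hl, Pi.single_eq_same, mul_comm (x j) G]
          exact hGx j
        · rw [Pi.single_eq_of_ne hl, mul_zero, mul_zero]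
          exact zero_mem O
      intro j l
      rw [mul_sub]
      exact sub_mem (hGx' j l) (hGx' l j)

end Pool.Agent.Helper49.LG

end

section

/-!
# The key lemma for two-vectors `x ∧ δ`

One degree better than `Helper8.LG.key`: if `∑ d_i + |Z| ≥ 2 w + 1 + c`, the two-vector `x ∧ δ` is
integral up to a power of `Δ` for some `δ` not proportional to `x`.
-/

set_option autoImplicit false

namespace Pool.Agent.Helper49.LG

open scoped BigOperators
open Pool.Agent.Helper8.LG
open Pool.Agent.Helper74.LG (scl scl_apply Trans exists_max_coord)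

/-- The conclusion of the key lemma: the entries `P_jl` are integral up to a power of `Δ` at all
valuation rings where `Δ` bounds the derivations, the corrections and the rows. -/
def KeyP {E : Type*} [Field E] {σ ι τ : Type*} [Fintype σ] [DecidableEq σ] [Fintype ι] [Fintype τ]
    (d : ι → ℕ) (a : (i : ι) → Sym σ (d i) → E) (D : Ix σ d → Derivation ℤ E E)
    (θ : τ → Ix σ d → E) (Z : Finset ι) (x : σ → E) (P : σ → σ → E) : Prop :=
  ∀ (O : ValuationSubring E) (Δ : E), Bdd D Δ O → (∀ j s, Δ * θ j s ∈ O) →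
      (∀ i ∉ Z, RowBdd D Δ O x (form (a i)) 1 0) →
      ∀ j l, Δ ^ (Fintype.card σ + Fintype.card ι + Fintype.card τ) * P j l ∈ O

section

variable {E : Type*} [Field E] {σ ι Tt : Type*}

/-- the reordering of the rows -/
def emb : σ ⊕ (ι ⊕ Tt) → (σ ⊕ ι) ⊕ Tt := (Equiv.sumAssoc σ ι Tt).symm

theorem phi_emb (c : E) (f : (σ ⊕ ι) ⊕ Tt → E) :
    (fun r => phi c f (emb r)) = scl c fun r => f (emb r) := by
  funext r
  rcases r with l | (i | j) <;> rfl

variable [Fintype σ] [DecidableEq σ] [DecidableEq ι]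
  (n : ι → ℕ) (a : (i : ι) → Sym σ (n i + 1) → E)
  (D : Ix σ (fun i => n i + 1) → Derivation ℤ E E)
  (θ : Tt → Ix σ (fun i => n i + 1) → E) (Z : Finset ι) (x : σ → E)

/-- the columns `C_(q,l)` -/
def c0 (q : Σ i : ι, Sym σ (n i)) (l : σ) : σ ⊕ (ι ⊕ Tt) → E :=
  fun r => cv n a D θ Z x ⟨q.1, l ::ₛ q.2⟩ (emb r)

/-- the Euler column -/
def e0 (n : ι → ℕ) (Z : Finset ι) (x : σ → E) : σ ⊕ (ι ⊕ Tt) → E := fun r => eul n Z x (emb r)

/-- the columns of `x_(j₀)^(d_i)` -/
def r0 (j₀ : σ) (i : ι) : σ ⊕ (ι ⊕ Tt) → E :=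
  fun r => cv n a D θ Z x ⟨i, Sym.replicate (n i + 1) j₀⟩ (emb r)

theorem sy_c0 (s : (Σ i : ι, Sym σ (n i)) × σ × σ) :
    sy x (c0 n a D θ Z x) s =
      fun r => syz n a D θ Z x ⟨s.1.1, s.1.2, s.2.1, s.2.2⟩ (emb r) := rfl

theorem trans0 (hU : ∀ i ∉ Z, form (a i) x ≠ 0) (i₀ : σ) (hx : x i₀ = 1) (j₀ : σ)
    (hj : x j₀ ≠ 0) :
    Trans (fun i => n i + 1) (x j₀) (e0 n Z x) (e0 n Z fun l => x l / x j₀)
      (sy x (c0 n a D θ Z x)) (sy (fun l => x l / x j₀) (c0 n a D θ Z fun l => x l / x j₀))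
      (r0 n a D θ Z x i₀) (r0 n a D θ Z (fun l => x l / x j₀) j₀) := by
  set c := x j₀ with hc
  set xt : σ → E := fun l => x l / c with hxt
  refine ⟨?_, ?_, ?_⟩
  · unfold e0
    rw [eul_scale n Z x c hj, phi_emb]
  · intro s
    obtain ⟨bb, hbb⟩ := syz_scale n a D θ Z x hU c hj ⟨s.1.1, s.1.2, s.2.1, s.2.2⟩
    refine ⟨bb, ?_⟩
    rw [sy_c0, sy_c0, hbb, ← phi_emb]
    rfl
  · intro i
    have h1 := cv_sub_mem n a D θ Z xt j₀ i (Sym.replicate (n i + 1) i₀)
    have hxj : xt j₀ = 1 := div_self hj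
    have hxi : mon xt (Sym.replicate (n i + 1) i₀) = (c ^ (n i + 1))⁻¹ := by
      rw [mon, Sym.coe_replicate, Multiset.map_replicate, Multiset.prod_replicate, hxt]
      simp only
      rw [hx, one_div, inv_pow]
    rw [hxj, one_pow, one_smul, hxi] at h1
    refine ⟨fun r => (cv n a D θ Z xt ⟨i, Sym.replicate (n i + 1) i₀⟩ -
      (c ^ (n i + 1))⁻¹ • cv n a D θ Z xt ⟨i, Sym.replicate (n i + 1) j₀⟩) (emb r),
      ?_, D ⟨i, Sym.replicate (n i + 1) i₀⟩ c / c, ?_⟩
    · have h2 := Submodule.mem_map_of_mem (f := LinearMap.funLeft E E (emb (σ := σ) (ι := ι)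
        (Tt := Tt))) h1
      rw [Submodule.map_span, ← Set.range_comp] at h2
      refine Submodule.span_mono ?_ h2
      rintro _ ⟨⟨i', I, j, l⟩, rfl⟩
      exact ⟨⟨⟨i', I⟩, j, l⟩, rfl⟩
    · have h6 := cv_scale n a D θ Z x hU c hj ⟨i, Sym.replicate (n i + 1) i₀⟩
      funext r
      have h7 := congrFun (phi_emb c (cv n a D θ Z xt
        ⟨i, Sym.replicate (n i + 1) i₀⟩)) r
      rw [scl_apply] at h7
      have h8 := congrFun h6 (emb r)
      rw [Pi.add_apply, Pi.smul_apply, smul_eq_mul] at h8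
      have h9 : r0 n a D θ Z x i₀ i r = cv n a D θ Z x
        ⟨i, Sym.replicate (n i + 1) i₀⟩ (emb r) := rfl
      rw [h9, h8]
      simp only [Pi.add_apply, Pi.smul_apply, smul_eq_mul, scl_apply, Pi.sub_apply]
      change _ = _ * (_ * cv n a D θ Z xt
        ⟨i, Sym.replicate (n i + 1) j₀⟩ (emb r)) + _ + _ * eul n Z x (emb r)
      rw [← hxt]
      change phi c (cv n a D θ Z xt
        ⟨i, Sym.replicate (n i + 1) i₀⟩) (emb r) + _ = _
      rw [h7]
      ring

end

private theorem key_line_aux {E : Type*} [Field E] {σ ι Tt : Type*} [Fintype σ] [DecidableEq σ]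
    [Fintype ι] [DecidableEq ι] [Fintype Tt] (n : ι → ℕ)
    (a : (i : ι) → Sym σ (n i + 1) → E)
    (D : Ix σ (fun i => n i + 1) → Derivation ℤ E E)
    (jj : Tt → Ix σ (fun i => n i + 1)) (θ : Tt → Ix σ (fun i => n i + 1) → E)
    (hD : Dual (fun i => n i + 1) a D jj θ)
    (Z : Finset ι) (x : σ → E) (i₀ j₁ : σ) (hx : x i₀ = 1) (hj : j₁ ≠ i₀)
    (hZ : ∀ i ∈ Z, form (a i) x = 0) (hU : ∀ i ∉ Z, form (a i) x ≠ 0) (w : ℕ)
    (hw1 : 2 * w + 1 + Fintype.card Tt ≤ ∑ i, (n i + 1) + Z.card)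
    (hw2 : w + 2 ≤ ∑ i, (n i + 1)) (hm : MinorsVanish D x w) :
    ∃ δ : σ → E, (∃ j l, x j * δ l - x l * δ j ≠ 0) ∧
      KeyP (fun i => n i + 1) a D θ Z x fun j l => x j * δ l - x l * δ j := by
  classical
  obtain ⟨lam, hl1, hl2, hl3⟩ := exists_functional n a D jj θ hD Z x hZ hU
  have hext : ∀ f : (σ ⊕ ι) ⊕ Tt → E,
      LinearMap.funLeft E E (Equiv.sumAssoc σ ι Tt) (fun r => f (emb r)) = f := by
    intro f
    funext r
    rw [LinearMap.funLeft_apply]
    change f ((Equiv.sumAssoc σ ι Tt).symm (Equiv.sumAssoc σ ι Tt r)) = f r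
    rw [Equiv.symm_apply_apply]
  have hcv0 : ∀ s, ∀ i ∈ Z, cv n a D θ Z x s (Sum.inl (Sum.inr i)) = 0 := by
    intro s i hi
    simp [cv, hi]
  have hCm : ∀ q, col D x q ∈ Submodule.span E (Set.range (col D x)) :=
    fun q => Submodule.subset_span ⟨q, rfl⟩
  obtain ⟨δ, hδ1, hδ2⟩ := key_two_abs (fun i => n i + 1)
    (Z.map ⟨Sum.inl, Sum.inl_injective⟩ : Finset (ι ⊕ Tt)) x i₀ j₁ hx hj (e0 n Z x)
    (c0 n a D θ Z x) (r0 n a D θ Z x i₀) (by
      change x i₀ ≠ 0
      rw [hx]
      exact one_ne_zero)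
    (by
      intro i hi
      obtain ⟨i', hi', rfl⟩ := Finset.mem_map.1 hi
      change eul n Z x (Sum.inl (Sum.inr i') : (σ ⊕ ι) ⊕ Tt) = 0
      simp [eul, hi'])
    (by
      intro q l i hi
      obtain ⟨i', hi', rfl⟩ := Finset.mem_map.1 hi
      exact hcv0 _ i' hi')
    (by
      intro i'' i hi
      obtain ⟨i', hi', rfl⟩ := Finset.mem_map.1 hi
      exact hcv0 _ i' hi')
    (lam ∘ₗ LinearMap.funLeft E E (Equiv.sumAssoc σ ι Tt))
    (by
      rw [LinearMap.comp_apply]
      unfold e0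
      rw [hext, hl1])
    (by
      intro s
      rw [LinearMap.comp_apply, sy_c0, hext, hl3])
    (fun _ => -1) (fun _ => neg_ne_zero.2 one_ne_zero)
    (by
      intro i
      rw [LinearMap.comp_apply]
      unfold r0
      rw [hext, hl2, mon, Sym.coe_replicate, Multiset.map_replicate,
        Multiset.prod_replicate, hx, one_pow])
    (col D x) w hm (hCm none)
    (by
      intro s
      exact sub_mem (Submodule.smul_mem _ (x s.2.1) (hCm (some ⟨s.1.1, s.2.2 ::ₛ s.1.2⟩)))
        (Submodule.smul_mem _ (x s.2.2) (hCm (some ⟨s.1.1, s.2.1 ::ₛ s.1.2⟩))))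
    (fun i => hCm (some ⟨i, Sym.replicate (n i + 1) i₀⟩))
    (by
      rw [Finset.card_map, Fintype.card_sum]
      omega) hw2
  refine ⟨δ, hδ1, fun O Δ hO hθ hrow => ?_⟩
  obtain ⟨j₀, hj₀, hjO⟩ := exists_max_coord O x i₀ (by
    rw [hx]
    exact one_ne_zero)
  have hci : (x j₀)⁻¹ ∈ O := by
    have h1 := hjO i₀
    rwa [hx, one_div] at h1
  have hcv : ∀ s r, Δ * cv n a D θ Z (fun l => x l / x j₀) s (emb r) ∈ O := by
    intro s r
    rcases r with l | (i | j)
    · exact hO.2 s _ (hjO l)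
    · change Δ * (if i ∈ Z then 0 else _) ∈ O
      split_ifs with hi
      · rw [mul_zero]
        exact zero_mem O
      · have h1 := (hrow i hi j₀ hj₀ hjO).2 s
        rwa [pow_zero, div_one, one_mul] at h1
    · exact hθ j s
  have hmain := hδ2 O Δ (x j₀) (e0 n Z fun l => x l / x j₀)
    (sy (fun l => x l / x j₀) (c0 n a D θ Z fun l => x l / x j₀))
    (r0 n a D θ Z (fun l => x l / x j₀) j₀) hj₀ hci hjO hO.1
    (trans0 n a D θ Z x hU i₀ hx j₀ hj₀) ?_ ?_ ?_
  · intro j l
    have h1 := hmain j l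
    rwa [Fintype.card_sum, ← add_assoc] at h1
  · rintro (l | (i | j))
    · exact mul_mem hO.1 (hjO l)
    · change Δ * (if i ∈ Z then 0 else _) ∈ O
      split_ifs with hi
      · rw [mul_zero]
        exact zero_mem O
      · exact mul_mem hO.1 (natCast_mem O _)
    · change Δ * 0 ∈ O
      rw [mul_zero]
      exact zero_mem O
  · intro s r
    have h4 := sub_mem (mul_mem (hjO s.2.1) (hcv ⟨s.1.1, s.2.2 ::ₛ s.1.2⟩ r))
      (mul_mem (hjO s.2.2) (hcv ⟨s.1.1, s.2.1 ::ₛ s.1.2⟩ r))
    have h5 : Δ * sy (fun l => x l / x j₀) (c0 n a D θ Z fun l => x l / x j₀) s r =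
        x s.2.1 / x j₀ * (Δ * cv n a D θ Z (fun l => x l / x j₀)
          ⟨s.1.1, s.2.2 ::ₛ s.1.2⟩ (emb r)) -
        x s.2.2 / x j₀ * (Δ * cv n a D θ Z (fun l => x l / x j₀)
          ⟨s.1.1, s.2.1 ::ₛ s.1.2⟩ (emb r)) := by
      simp only [sy, c0, Pi.sub_apply, Pi.smul_apply, smul_eq_mul]
      ring
    rw [h5]
    exact h4
  · intro i r
    exact hcv _ r

/-- **The key lemma for two-vectors**, one degree better than `key`. -/
theorem key_line {E : Type*} [Field E] {σ ι τ : Type*} [Fintype σ] [DecidableEq σ] [Fintype ι]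
    [DecidableEq ι] [Fintype τ] (d : ι → ℕ) (hd : ∀ i, 0 < d i)
    (a : (i : ι) → Sym σ (d i) → E) (D : Ix σ d → Derivation ℤ E E)
    (jj : τ → Ix σ d) (θ : τ → Ix σ d → E) (hD : Dual d a D jj θ)
    (Z : Finset ι) (x : σ → E) (i₀ j₁ : σ) (hx : x i₀ = 1) (hj : j₁ ≠ i₀)
    (hZ : ∀ i ∈ Z, form (a i) x = 0) (hU : ∀ i ∉ Z, form (a i) x ≠ 0) (w : ℕ)
    (hw1 : 2 * w + 1 + Fintype.card τ ≤ ∑ i, d i + Z.card)
    (hw2 : w + 2 ≤ ∑ i, d i) (hm : MinorsVanish D x w) :
    ∃ δ : σ → E, (∃ j l, x j * δ l - x l * δ j ≠ 0) ∧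
      KeyP d a D θ Z x fun j l => x j * δ l - x l * δ j := by
  obtain ⟨n, rfl⟩ : ∃ n : ι → ℕ, d = fun i => n i + 1 :=
    ⟨fun i => d i - 1, funext fun i => (Nat.sub_add_cancel (hd i)).symm⟩
  exact key_line_aux n a D jj θ hD Z x i₀ j₁ hx hj hZ hU w hw1 hw2 hm

end Pool.Agent.Helper49.LG

end

section

/-! # LG-ROWS: the rows are bounded in one direction of the base (`C` empty)

The proof is the one of `Helper8.LG.dir_one` (unramified case). -/

set_option autoImplicit false

namespace Pool.Agent.Helper49.LG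

open scoped BigOperators
open Pool.Agent.Helper8.LG

/-- In one direction: the derivations, the corrections and the rows of all good points are bounded
by one `Δ` at all valuation rings containing `intCl E₀ t`. -/
theorem dir_rows {L : Type*} [Field L] [CharZero L] {σ ι τ : Type*} [Fintype σ]
    [DecidableEq σ] [Fintype ι] [DecidableEq ι] [Fintype τ]
    (d : ι → ℕ) (hd : ∀ i, 0 < d i)
    (a : (i : ι) → Sym σ (d i) → L) (D : Ix σ d → Derivation ℤ L L)
    (θ : τ → Ix σ d → L) (Z : Finset ι)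
    (E₀ : Subfield L) (t : L) (ht : Transcendental E₀ t)
    (hfin : FiniteDimensional (Subfield.closure ((E₀ : Set L) ∪ {t})) L)
    (hE₀ : ∀ p, ∀ f ∈ E₀, D p f ∈ E₀)
    (hDt : ∀ p, D p t ∈ Subring.closure ((E₀ : Set L) ∪ {t}))
    (S : Set L) (hS : S.Finite) (hSa : ∀ p : Ix σ d, a p.1 p.2 ∈ S)
    (hSθ : ∀ j s, θ j s ∈ S) :
    ∃ Δ : L, Δ ≠ 0 ∧ Δ ∈ intCl E₀ t ∧ (∀ f ∈ S, Δ * f ∈ intCl E₀ t) ∧ ∀ x : σ → L,
      (∀ i ∉ Z, form (a i) x ≠ 0) →
      (∀ i ∉ Z, ∀ J : Sym σ (d i),
        IsIntegral (Subring.closure ((E₀ : Set L) ∪ S)) (mon x J / form (a i) x)) →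
      ∀ O : ValuationSubring L, intCl E₀ t ≤ O.toSubring →
        Bdd D Δ O ∧ (∀ j s, Δ * θ j s ∈ O) ∧ ∀ i ∉ Z, RowBdd D Δ O x (form (a i)) 1 0 := by
  obtain ⟨Δ₀, hΔc, hΔ0, hΔD, hΔS⟩ := exists_bound E₀ t ht hfin D hE₀ hDt S hS
  obtain ⟨hDed, hFrac⟩ := intCl_dedekind E₀ t ht hfin
  have hcl : Subring.closure ((E₀ : Set L) ∪ {t}) ≤ intCl E₀ t := by
    intro f hf
    exact isIntegral_algebraMap (R := Subring.closure ((E₀ : Set L) ∪ {t})) (x := ⟨f, hf⟩)
  have hE₀R : ∀ f ∈ E₀, f ∈ intCl E₀ t := fun f hf =>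
    hcl (Subring.subset_closure (Or.inl hf))
  have hQ : ∀ n : ℕ, n ≠ 0 → ((n : L))⁻¹ ∈ intCl E₀ t := fun n _ =>
    hE₀R _ (E₀.inv_mem (natCast_mem E₀ n))
  have hΔR : Δ₀ ∈ intCl E₀ t := hcl hΔc
  refine ⟨Δ₀ ^ 3, pow_ne_zero _ hΔ0, pow_mem hΔR 3, fun f hf => ?_, ?_⟩
  · have h1 : Δ₀ ^ 3 * f = Δ₀ ^ 2 * (Δ₀ * f) := by ring
    rw [h1]
    exact mul_mem (pow_mem hΔR 2) (hΔS f hf)
  intro x hne hint₀ O hO
  have hb : Bdd D Δ₀ O := bdd_of (intCl E₀ t) D Δ₀ hΔR hΔD O hO
  have hΔO : Δ₀ ∈ O := hb.1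
  refine ⟨⟨pow_mem hΔO 3, fun p f hf => ?_⟩, fun j s => ?_, ?_⟩
  · have h1 : Δ₀ ^ 3 * D p f = Δ₀ ^ 2 * (Δ₀ * D p f) := by ring
    rw [h1]
    exact mul_mem (pow_mem hΔO 2) (hb.2 p f hf)
  · have h1 : Δ₀ ^ 3 * θ j s = Δ₀ ^ 2 * (Δ₀ * θ j s) := by ring
    rw [h1]
    exact mul_mem (pow_mem hΔO 2) (hO (hΔS _ (hSθ j s)))
  intro i hi j hj hxO
  have hane : form (a i) x ≠ 0 := hne i hi
  have hgeq : form (a i) (fun l => x l / x j) = form (a i) x / x j ^ d i :=
    dirOne_form_div (a i) x (x j)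
  have hg0 : form (a i) (fun l => x l / x j) ≠ 0 := by
    rw [hgeq]
    exact div_ne_zero hane (pow_ne_zero _ hj)
  rw [pow_zero, div_one]
  refine ⟨by rw [mul_one]; exact pow_mem hΔO 3, fun p => ?_⟩
  rw [one_mul]
  have key : Δ₀ ^ 2 * (D p (form (a i) fun l => x l / x j) /
      form (a i) fun l => x l / x j) ∈ O := by
    by_cases hinv : Δ₀⁻¹ ∈ O
    · have hSO : ∀ f ∈ S, f ∈ O := fun f hf => by
        have h1 : f = Δ₀⁻¹ * (Δ₀ * f) := by
          rw [← mul_assoc, inv_mul_cancel₀ hΔ0, one_mul]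
        rw [h1]
        exact mul_mem hinv (hO (hΔS f hf))
      have hA : Subring.closure ((E₀ : Set L) ∪ S) ≤ O.toSubring := by
        rw [Subring.closure_le]
        rintro f (hf | hf)
        · exact hO (hE₀R f hf)
        · exact hSO f hf
      have hint := dirOne_int_mem O _ hA (hint₀ i hi (Sym.replicate (d i) j))
      rw [dirOne_mon_replicate] at hint
      have hgi : (form (a i) (fun l => x l / x j))⁻¹ ∈ O := by
        rw [hgeq, inv_div]
        exact hint
      have hgO : form (a i) (fun l => x l / x j) ∈ O := by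
        have h1 := dirOne_form_mem O 1 (a i)
          (fun J => by rw [one_mul]; exact hSO _ (hSa ⟨i, J⟩)) _ hxO
        rwa [one_mul] at h1
      have h2 : Δ₀ ^ 2 * (D p (form (a i) fun l => x l / x j) /
          form (a i) fun l => x l / x j) =
          Δ₀ * ((Δ₀ * D p (form (a i) fun l => x l / x j)) *
            (form (a i) (fun l => x l / x j))⁻¹) := by
        rw [div_eq_mul_inv]
        ring
      rw [h2]
      exact mul_mem hΔO (mul_mem (hb.2 p _ hgO) hgi)
    · have hb2 : Bdd D (Δ₀ ^ 2) O := by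
        refine ⟨pow_mem hΔO 2, fun p f hf => ?_⟩
        have h1 : Δ₀ ^ 2 * D p f = Δ₀ * (Δ₀ * D p f) := by ring
        rw [h1]
        exact mul_mem hΔO (hb.2 p f hf)
      refine log_of (intCl E₀ t) hQ D O hO (Δ₀ ^ 2) hb2 Δ₀ hΔ0 (Or.inr hinv) (fun q => ?_)
        _ hg0 p
      have h1 : Δ₀ ^ 2 * (D q Δ₀ / Δ₀) = Δ₀ * D q Δ₀ := by
        field_simp
      rw [h1]
      exact hb.2 q _ hΔO
  have h3 : Δ₀ ^ 3 * (D p (form (a i) fun l => x l / x j) /
      form (a i) fun l => x l / x j) =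
      Δ₀ * (Δ₀ ^ 2 * (D p (form (a i) fun l => x l / x j) /
      form (a i) fun l => x l / x j)) := by
    ring
  rw [h3]
  exact mul_mem hΔO key

end Pool.Agent.Helper49.LG

end
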