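import Pool.Agent.Helper74.MG.T26
import Pool.Agent.Helper74.MG.T19
import Pool.Agent.Helper74.MG.T20
import Pool.Agent.Helper74.MG.T24

section

/-! # LG-BOUNDLINE: the two-vectors lie in a finite-dimensional space

Copy of the first round of `Helper8.LG.bounded`, with `key_line` instead of `key`. -/

set_option autoImplicit false

namespace Pool.Agent.Helper49.LG

open scoped BigOperators
open Pool.Agent.Helper8.LG

private theorem blInv {L : Type*} [Field L] (D : Derivation ℤ L L) (f : L) :
    D f⁻¹ = -(f⁻¹ ^ 2) * D f := by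
  have h := Derivation.leibniz_inv D f
  rw [h, smul_eq_mul]

private theorem blDual {L σ ι τ : Type*} [Field L] [DecidableEq σ] [DecidableEq ι] [Fintype τ]
    (d : ι → ℕ) (a : (i : ι) → Sym σ (d i) → L)
    (D : Ix σ d → Derivation ℤ L L) (jj : τ → Ix σ d) (θ : τ → Ix σ d → L)
    (hD : Dual d a D jj θ) (T : Finset (Ix σ d)) (hT : ∀ j, jj j ∉ T) (q : Ix σ d) (p : T) :
    D q (a p.1.1 p.1.2) = if q = p.1 then 1 else 0 := by
  have h := hD q p.1
  rw [Finset.sum_eq_zero, sub_zero] at h
  · exact h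
  · intro j _
    rw [if_neg]
    rintro h1
    exact hT j (h1 ▸ p.2)

private theorem blStable {k L σ ι τ : Type*} [Field k] [Field L] [Algebra k L]
    [DecidableEq σ] [DecidableEq ι] [Fintype τ]
    (d : ι → ℕ) (a : (i : ι) → Sym σ (d i) → L)
    (D : Ix σ d → Derivation ℤ L L) (jj : τ → Ix σ d) (θ : τ → Ix σ d → L)
    (hD : Dual d a D jj θ) (T : Finset (Ix σ d)) (hT : ∀ j, jj j ∉ T)
    (hDk : ∀ p (c : k), D p (algebraMap k L c) = 0) (p : T) (q : Ix σ d) :
    ∀ f ∈ others (k := k) (fun p : T => a p.1.1 p.1.2) p,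
      D q f ∈ others (k := k) (fun p : T => a p.1.1 p.1.2) p := by
  intro f hf
  have hf' : f ∈ IntermediateField.adjoin k ((fun p : T => a p.1.1 p.1.2) '' {p}ᶜ) := hf
  show D q f ∈ IntermediateField.adjoin k ((fun p : T => a p.1.1 p.1.2) '' {p}ᶜ)
  induction hf' using IntermediateField.adjoin_induction with
  | mem x hx =>
    obtain ⟨r, _, rfl⟩ := hx
    show D q (a r.1.1 r.1.2) ∈ _
    rw [blDual d a D jj θ hD T hT q r]
    split_ifs
    · exact one_mem _
    · exact zero_mem _
  | algebraMap c =>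
    rw [hDk q c]
    exact zero_mem _
  | add x y hx hy hx' hy' =>
    rw [map_add]
    exact add_mem (hx' hx) (hy' hy)
  | inv x hx hx' =>
    rw [blInv]
    exact mul_mem (neg_mem (pow_mem (inv_mem hx) 2)) (hx' hx)
  | mul x y hx hy hx' hy' =>
    rw [Derivation.leibniz, smul_eq_mul, smul_eq_mul]
    exact add_mem (mul_mem hx (hy' hy)) (mul_mem hy (hx' hx))

private theorem blVar {L σ ι τ : Type*} [Field L] [DecidableEq σ] [DecidableEq ι] [Fintype τ]
    (d : ι → ℕ) (a : (i : ι) → Sym σ (d i) → L)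
    (D : Ix σ d → Derivation ℤ L L) (jj : τ → Ix σ d) (θ : τ → Ix σ d → L)
    (hD : Dual d a D jj θ) (T : Finset (Ix σ d)) (hT : ∀ j, jj j ∉ T) (p : T) (q : Ix σ d)
    (R : Subring L) :
    D q (a p.1.1 p.1.2) ∈ R := by
  rw [blDual d a D jj θ hD T hT q p]
  split_ifs
  · exact one_mem _
  · exact zero_mem _

private theorem blVarInv {L σ ι τ : Type*} [Field L] [DecidableEq σ] [DecidableEq ι] [Fintype τ]
    (d : ι → ℕ) (a : (i : ι) → Sym σ (d i) → L)
    (D : Ix σ d → Derivation ℤ L L) (jj : τ → Ix σ d) (θ : τ → Ix σ d → L)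
    (hD : Dual d a D jj θ) (T : Finset (Ix σ d)) (hT : ∀ j, jj j ∉ T) (p : T) (q : Ix σ d)
    (R : Subring L) (hR : (a p.1.1 p.1.2)⁻¹ ∈ R) :
    D q (a p.1.1 p.1.2)⁻¹ ∈ R := by
  rw [blInv]
  exact mul_mem (neg_mem (pow_mem hR 2)) (blVar d a D jj θ hD T hT p q R)

private theorem blLe {k L : Type*} [Field k] [Field L] [Algebra k L] (s : Set L)
    (E₀ : Subfield L) (hk : ∀ c : k, algebraMap k L c ∈ E₀) (S : Set L) (hs : s ⊆ S) :
    (Algebra.adjoin k s).toSubring ≤ Subring.closure ((E₀ : Set L) ∪ S) := by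
  intro f hf
  have hf' : f ∈ Algebra.adjoin k s := hf
  induction hf' using Algebra.adjoin_induction with
  | mem x hx => exact Subring.subset_closure (Or.inr (hs hx))
  | algebraMap c => exact Subring.subset_closure (Or.inl (hk c))
  | add x y hx hy hx' hy' => exact add_mem (hx' hx) (hy' hy)
  | mul x y hx hy hx' hy' => exact mul_mem (hx' hx) (hy' hy)

/-- In one direction the entries of all the two-vectors have bounded poles. -/
private theorem blDir {L : Type*} [Field L] [CharZero L] {σ ι τ : Type*} [Fintype σ]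
    [DecidableEq σ] [Fintype ι] [DecidableEq ι] [Fintype τ]
    (d : ι → ℕ) (hd : ∀ i, 0 < d i)
    (a : (i : ι) → Sym σ (d i) → L) (D : Ix σ d → Derivation ℤ L L)
    (θ : τ → Ix σ d → L) (Z : Finset ι)
    (E₀ : Subfield L) (t : L) (ht : Transcendental E₀ t)
    (hfin : FiniteDimensional (Subfield.closure ((E₀ : Set L) ∪ {t})) L)
    (hE₀ : ∀ p, ∀ f ∈ E₀, D p f ∈ E₀)
    (hDt : ∀ p, D p t ∈ Subring.closure ((E₀ : Set L) ∪ {t}))
    (S : Set L) (hS : S.Finite) (hSa : ∀ p : Ix σ d, a p.1 p.2 ∈ S)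
    (hSθ : ∀ j s, θ j s ∈ S) :
    ∃ Δ : L, Δ ≠ 0 ∧ ∀ (x : σ → L) (P : σ → σ → L),
      (∀ i ∉ Z, form (a i) x ≠ 0) →
      (∀ i ∉ Z, ∀ J : Sym σ (d i),
        IsIntegral (Subring.closure ((E₀ : Set L) ∪ S)) (mon x J / form (a i) x)) →
      KeyP d a D θ Z x P → ∀ j l, Δ * P j l ∈ intCl E₀ t := by
  obtain ⟨Δ, hΔ0, hΔR, hΔS, hΔ⟩ :=
    dir_rows d hd a D θ Z E₀ t ht hfin hE₀ hDt S hS hSa hSθ
  obtain ⟨hDed, hFrac⟩ := intCl_dedekind E₀ t ht hfin
  refine ⟨Δ ^ (Fintype.card σ + Fintype.card ι + Fintype.card τ), pow_ne_zero _ hΔ0,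
    fun x P hne hint hkey j l => ?_⟩
  refine mem_of (intCl E₀ t) _ fun O hO => ?_
  obtain ⟨h1, h2, h3⟩ := hΔ x hne hint O hO
  exact hkey O Δ h1 h2 h3 j l

theorem bounded_line {k L : Type*} [Field k] [Field L] [CharZero L] [Algebra k L]
    {σ ι τ : Type*} [Fintype σ] [DecidableEq σ] [Fintype ι] [DecidableEq ι] [Fintype τ]
    (d : ι → ℕ) (hd : ∀ i, 0 < d i) (a : (i : ι) → Sym σ (d i) → L) (T : Finset (Ix σ d))
    (hind : AlgebraicIndependent k (fun p : T => a p.1.1 p.1.2))
    (hfin : FiniteDimensional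
      (IntermediateField.adjoin k (Set.range fun p : T => a p.1.1 p.1.2)) L)
    (D : Ix σ d → Derivation ℤ L L) (jj : τ → Ix σ d) (θ : τ → Ix σ d → L)
    (hD : Dual d a D jj θ) (hT : ∀ j, jj j ∉ T)
    (hDk : ∀ p (c : k), D p (algebraMap k L c) = 0)
    (Z : Finset ι) (i₀ j₁ : σ) (hj : j₁ ≠ i₀) (w : ℕ)
    (hw1 : 2 * w + 1 + Fintype.card τ ≤ ∑ i, d i + Z.card) (hw2 : w + 2 ≤ ∑ i, d i)
    (A : Subalgebra k L) (hA : A.FG) :
    ∃ V : Submodule k L, FiniteDimensional k V ∧ ∀ x : σ → L, x i₀ = 1 →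
      (∀ i ∈ Z, form (a i) x = 0) → (∀ i ∉ Z, form (a i) x ≠ 0) →
      (∀ i ∉ Z, ∀ J : Sym σ (d i), IsIntegral A (mon x J / form (a i) x)) →
      MinorsVanish D x w →
      ∃ δ : σ → L, (∃ j l, x j * δ l - x l * δ j ≠ 0) ∧ ∀ j l, x j * δ l - x l * δ j ∈ V := by
  classical
  obtain ⟨s, hs⟩ := hA
  set y₀ : T → L := fun p : T => a p.1.1 p.1.2 with hy₀
  set S : Set L := (s : Set L) ∪ (Set.range (fun p : Ix σ d => a p.1 p.2) ∪
    Set.range fun r : τ × Ix σ d => θ r.1 r.2) with hS
  have hSfin : S.Finite :=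
    (s.finite_toSet).union ((Set.finite_range _).union (Set.finite_range _))
  have hSa : ∀ p : Ix σ d, a p.1 p.2 ∈ S := fun p => Or.inr (Or.inl ⟨p, rfl⟩)
  have hSθ : ∀ j s, θ j s ∈ S := fun j s => Or.inr (Or.inr ⟨(j, s), rfl⟩)
  have hk : ∀ (p : T) (c : k), algebraMap k L c ∈ others (k := k) y₀ p := by
    intro p c
    exact IntermediateField.algebraMap_mem _ c
  have hAle : ∀ p : T,
      A.toSubring ≤ Subring.closure ((others (k := k) y₀ p : Set L) ∪ S) := by
    intro p
    rw [← hs]
    exact blLe (s : Set L) _ (hk p) S Set.subset_union_left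
  have htr := others_transcendental (k := k) y₀ hind
  have hof := others_finite (k := k) y₀ hfin
  have hst : ∀ (p : T) (q : Ix σ d), ∀ f ∈ others (k := k) y₀ p,
      D q f ∈ others (k := k) y₀ p :=
    fun p q => blStable d a D jj θ hD T hT hDk p q
  have h1 := fun p : T => blDir d hd a D θ Z (others (k := k) y₀ p) (y₀ p) (htr p).1 (hof p).1
    (fun q => hst p q) (fun q => blVar d a D jj θ hD T hT p q _) S hSfin hSa hSθ
  have h1' := fun p : T => blDir d hd a D θ Z (others (k := k) y₀ p) (y₀ p)⁻¹ (htr p).2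
    (hof p).2 (fun q => hst p q)
    (fun q => blVarInv d a D jj θ hD T hT p q _ (Subring.subset_closure (Or.inr rfl)))
    S hSfin hSa hSθ
  choose Δ₁ hΔ₁ H₁ using h1
  choose Δ₁' hΔ₁' H₁' using h1'
  obtain ⟨V₁, hV₁, hV₁'⟩ := fd y₀ hind hfin Δ₁ Δ₁' hΔ₁ hΔ₁'
  refine ⟨V₁, hV₁, fun x hx hZ hU hint hm => ?_⟩
  obtain ⟨δ, hδ, hkey⟩ := key_line d hd a D jj θ hD Z x i₀ j₁ hx hj hZ hU w hw1 hw2 hm
  refine ⟨δ, hδ, fun j l => ?_⟩
  have hint' : ∀ p : T, ∀ i ∉ Z, ∀ J : Sym σ (d i),
      IsIntegral (Subring.closure ((others (k := k) y₀ p : Set L) ∪ S))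
        (mon x J / form (a i) x) := fun p i hi J =>
    (hint i hi J).map_of_comp_eq (Subring.inclusion (S := A.toSubring) (hAle p))
      (RingHom.id L) rfl
  apply hV₁'
  intro p
  exact ⟨H₁ p x _ hU (hint' p) hkey j l, H₁' p x _ hU (hint' p) hkey j l⟩

end Pool.Agent.Helper49.LG

end

section

/-!
# Points of the intersection are bounded

If all `F_i(x) = 0` and the two-vector `P = x ∧ δ` is bounded, then `x` is bounded: some `F_i` is
not zero on the line of `P`, and the leading coefficient of the restriction clears the denominators.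
-/

set_option autoImplicit false

namespace Pool.Agent.Helper49.LG

open scoped BigOperators
open Pool.Agent.Helper8.LG

/-- A common denominator of a finite-dimensional space and a finite set. -/
theorem exists_den {k L : Type*} [Field k] [Field L] [Algebra k L] (R : Subring L)
    [IsFractionRing R L] (hk : ∀ c : k, algebraMap k L c ∈ R) (V : Submodule k L)
    [FiniteDimensional k V] (S : Set L) (hS : S.Finite) :
    ∃ Δ : L, Δ ≠ 0 ∧ Δ ∈ R ∧ (∀ f ∈ V, Δ * f ∈ R) ∧ ∀ f ∈ S, Δ * f ∈ R := by
  classical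
  obtain ⟨s, hs⟩ := (Submodule.fg_iff_finiteDimensional V).2 inferInstance
  obtain ⟨b, hb⟩ := IsLocalization.exist_integer_multiples_of_finset (nonZeroDivisors R)
    (s ∪ hS.toFinset : Finset L)
  have hb' : ∀ f ∈ s ∪ hS.toFinset, ((b : R) : L) * f ∈ R := by
    intro f hf
    obtain ⟨r, hr⟩ := hb f hf
    have h1 : ((b : R) : L) * f = (r : L) := by
      rw [show (r : L) = algebraMap R L r from rfl, hr]
      rfl
    rw [h1]
    exact r.2
  refine ⟨((b : R) : L), ?_, (b : R).2, ?_, ?_⟩
  · intro h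
    exact nonZeroDivisors.ne_zero b.2 (Subtype.ext h)
  · intro f hf
    rw [← hs] at hf
    induction hf using Submodule.span_induction with
    | mem x hx => exact hb' x (Finset.mem_union_left _ hx)
    | zero => rw [mul_zero]; exact zero_mem R
    | add x y _ _ hx hy => rw [mul_add]; exact add_mem hx hy
    | smul c x _ hx =>
      rw [Algebra.smul_def, mul_left_comm]
      exact mul_mem (hk c) hx
  · intro f hf
    exact hb' f (Finset.mem_union_right _ (hS.mem_toFinset.2 hf))

/-- the restriction of a form to a line, as a polynomial -/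
noncomputable def lineP {L σ : Type*} [CommSemiring L] [Fintype σ] [DecidableEq σ] {n : ℕ}
    (a : Sym σ n → L) (p q : σ → L) : Polynomial L :=
  form (fun J => Polynomial.C (a J)) fun l => Polynomial.C (p l) + Polynomial.X * Polynomial.C (q l)

theorem mon_map {R R' : Type*} [CommSemiring R] [CommSemiring R'] (f : R →+* R') {σ : Type*}
    {n : ℕ} (x : σ → R) (J : Sym σ n) : f (mon x J) = mon (fun l => f (x l)) J := by
  unfold mon
  rw [map_multiset_prod, Multiset.map_map]
  rfl

theorem form_map {R R' : Type*} [CommSemiring R] [CommSemiring R'] (f : R →+* R') {σ : Type*}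
    [Fintype σ] [DecidableEq σ] {n : ℕ} (a : Sym σ n → R) (x : σ → R) :
    f (form a x) = form (fun J => f (a J)) (fun l => f (x l)) := by
  unfold form
  rw [map_sum]
  exact Finset.sum_congr rfl fun J _ => by rw [map_mul, mon_map]

theorem lineP_eval {L σ : Type*} [CommRing L] [Fintype σ] [DecidableEq σ] {n : ℕ}
    (a : Sym σ n → L) (p q : σ → L) (z : L) :
    (lineP a p q).eval z = form a fun l => p l + z * q l := by
  have h := form_map (Polynomial.evalRingHom z) (fun J => Polynomial.C (a J))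
    (fun l => Polynomial.C (p l) + Polynomial.X * Polynomial.C (q l))
  simp only [Polynomial.coe_evalRingHom, Polynomial.eval_add, Polynomial.eval_mul,
    Polynomial.eval_C, Polynomial.eval_X] at h
  exact h

theorem lineP_map {R L σ : Type*} [CommRing R] [CommRing L] (f : R →+* L) [Fintype σ]
    [DecidableEq σ] {n : ℕ} (a : Sym σ n → R) (p q : σ → R) :
    (lineP a p q).map f = lineP (fun J => f (a J)) (fun l => f (p l)) fun l => f (q l) := by
  have h := form_map (Polynomial.mapRingHom f) (fun J => Polynomial.C (a J))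
    (fun l => Polynomial.C (p l) + Polynomial.X * Polynomial.C (q l))
  simp only [Polynomial.coe_mapRingHom, Polynomial.map_add, Polynomial.map_mul,
    Polynomial.map_C, Polynomial.map_X] at h
  exact h

theorem mon_mul {R σ : Type*} [CommMonoid R] {n : ℕ} (c : R) (x : σ → R) (J : Sym σ n) :
    mon (fun l => c * x l) J = c ^ n * mon x J := by
  unfold mon
  rw [Multiset.prod_map_mul, Multiset.map_const', Multiset.prod_replicate, Sym.card_coe]

theorem form_mul {R σ : Type*} [CommSemiring R] [Fintype σ] [DecidableEq σ] {n : ℕ} (b c : R)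
    (a : Sym σ n → R) (x : σ → R) :
    form (fun J => b * a J) (fun l => c * x l) = b * c ^ n * form a x := by
  unfold form
  rw [Finset.mul_sum]
  exact Finset.sum_congr rfl fun J _ => by rw [mon_mul]; ring

theorem lineP_scale {L σ : Type*} [CommRing L] [Fintype σ] [DecidableEq σ] {n : ℕ}
    (c : L) (a : Sym σ n → L) (p q : σ → L) :
    lineP (fun J => c * a J) (fun l => c * p l) (fun l => c * q l) =
      Polynomial.C (c ^ (n + 1)) * lineP a p q := by
  unfold lineP
  have h1 : (fun J => Polynomial.C (c * a J)) = fun J => Polynomial.C c * Polynomial.C (a J) := by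
    funext J
    rw [Polynomial.C_mul]
  have h2 : (fun l => Polynomial.C (c * p l) + Polynomial.X * Polynomial.C (c * q l)) =
      fun l => Polynomial.C c * (Polynomial.C (p l) + Polynomial.X * Polynomial.C (q l)) := by
    funext l
    rw [Polynomial.C_mul, Polynomial.C_mul]
    ring
  rw [h1, h2, form_mul, Polynomial.C_pow, pow_succ']

/-- The leading coefficient clears the denominator of a root. -/
theorem lead_mem {L σ : Type*} [Field L] [Fintype σ] [DecidableEq σ] {n : ℕ} (R : Subring L)
    (hR : ∀ z : L, IsIntegral R z → z ∈ R) (Δ : L) (a : Sym σ n → L) (p q : σ → L)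
    (hΔ0 : Δ ≠ 0)
    (ha : ∀ J, Δ * a J ∈ R) (hp : ∀ l, Δ * p l ∈ R) (hq : ∀ l, Δ * q l ∈ R) (z : L)
    (hz : form a (fun l => p l + z * q l) = 0) (l : σ) :
    Δ ^ (n + 2) * ((lineP a p q).leadingCoeff * (p l + z * q l)) ∈ R := by
  set Ψ : Polynomial R := lineP (fun J => (⟨Δ * a J, ha J⟩ : R)) (fun l => ⟨Δ * p l, hp l⟩)
    fun l => ⟨Δ * q l, hq l⟩ with hΨ
  have hmap : Ψ.map (algebraMap R L) = Polynomial.C (Δ ^ (n + 1)) * lineP a p q := by
    rw [hΨ, lineP_map, ← lineP_scale]
    rfl
  have hc0 : Δ ^ (n + 1) ≠ 0 := pow_ne_zero _ hΔ0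
  have hinj : Function.Injective (algebraMap R L) := Subtype.val_injective
  have hlead : algebraMap R L Ψ.leadingCoeff = Δ ^ (n + 1) * (lineP a p q).leadingCoeff := by
    rw [← Polynomial.leadingCoeff_map_of_injective hinj, hmap, Polynomial.leadingCoeff_mul,
      Polynomial.leadingCoeff_C]
  have hroot : Polynomial.aeval z Ψ = 0 := by
    rw [Polynomial.aeval_def, Polynomial.eval₂_eq_eval_map, hmap, Polynomial.eval_mul, lineP_eval,
      hz, mul_zero]
  have hint := hR _ (isIntegral_leadingCoeff_smul Ψ z hroot)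
  rw [Algebra.smul_def, hlead] at hint
  have hlR : Δ ^ (n + 1) * (lineP a p q).leadingCoeff ∈ R := by
    rw [← hlead]
    exact Ψ.leadingCoeff.2
  have h1 : Δ ^ (n + 2) * ((lineP a p q).leadingCoeff * (p l + z * q l)) =
      Δ ^ (n + 1) * (lineP a p q).leadingCoeff * (Δ * p l) +
        Δ ^ (n + 1) * (lineP a p q).leadingCoeff * z * (Δ * q l) := by
    ring
  rw [h1]
  exact add_mem (mul_mem hlR (hp l)) (mul_mem hint (hq l))

end Pool.Agent.Helper49.LG

end

section

/-!
# A derivation which kills few given elements and moves the forms, moving linear systems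

If fewer than `∑ (q_i + 1)` conditions are imposed, there is a combination `δ` of the `D_s`, `s` the
monomials in two variables `x_α, x_β`, which kills the given elements and acts on the coefficients
of the `H_i` by a non-zero family of binary forms.
-/

set_option autoImplicit false

namespace Pool.Agent.Helper49.LV

open scoped BigOperators
open Pool.Agent.Helper8.LG (Ix Dual form mon)
open Pool.Agent.Helper8.LV
open Pool.Agent.Helper49.LG (ab mon_ab abi zero_of_nat)

/-- a derivation which kills the coefficients and the point kills the value of the form -/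
theorem form_killed {E : Type*} [Field E] {σ : Type*} [Fintype σ] [DecidableEq σ] {m : ℕ}
    (δ : Derivation ℤ E E) (a : Sym σ m → E) (x : σ → E) (ha : ∀ J, δ (a J) = 0)
    (hx : ∀ l, δ (x l) = 0) : δ (form a x) = 0 := by
  classical
  obtain ⟨g, hg, _⟩ := Helper8.LG.kf_grad_form a x
  rw [hg δ, Finset.sum_eq_zero (s := Finset.univ) (f := fun l => g l * δ (x l))
    (fun l _ => by rw [hx, mul_zero]), add_zero]
  exact Finset.sum_eq_zero fun J _ => by rw [ha, zero_mul]

/-- **The killer derivation.** -/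
theorem exists_killer {E : Type*} [Field E] {σ ι τ κ : Type*} [Fintype σ] [DecidableEq σ]
    [Fintype ι] [DecidableEq ι] [Fintype τ] [Fintype κ] (d b q : ι → ℕ)
    (a A : (i : ι) → Sym σ (d i) → E) (p : (i : ι) → Sym σ (b i) → E)
    (h : (i : ι) → Sym σ (q i) → E) (D : Ix σ q → Derivation ℤ E E)
    (jj : τ → Ix σ q) (θ : τ → Ix σ q → E) (hD : Dual q h D jj θ) (hM : Mov d b q a A p h D)
    (α β : σ) (z : κ → E)
    (hcard : Fintype.card κ + Fintype.card τ < ∑ i, (q i + 1)) :
    ∃ (f : (i : ι) → Fin (q i + 1) → E) (δ : Derivation ℤ E E), (∃ i r, f i r ≠ 0) ∧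
      (∀ m, δ (z m) = 0) ∧ ∀ (i : ι) (x : σ → E), (∀ l, δ (x l) = 0) →
        δ (form (a i) x) =
          form (p i) x * ∑ r : Fin (q i + 1), f i r * (x α ^ (q i - r) * x β ^ (r : ℕ)) := by
  classical
  set Λ : ((Σ i : ι, Fin (q i + 1)) → E) →ₗ[E] (κ ⊕ τ → E) :=
    { toFun := fun f => Sum.elim (fun m => ∑ s, f s * D (abi q α β s) (z m))
        fun j => ∑ s, f s * θ j (abi q α β s)
      map_add' := fun f g => by
        funext t
        rcases t with m | j <;> simp [add_mul, Finset.sum_add_distrib]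
      map_smul' := fun c f => by
        funext t
        rcases t with m | j <;> simp [Finset.mul_sum, mul_assoc] } with hΛ
  have hker : LinearMap.ker Λ ≠ ⊥ := by
    apply LinearMap.ker_ne_bot_of_finrank_lt
    rw [Module.finrank_fintype_fun_eq_card, Module.finrank_fintype_fun_eq_card, Fintype.card_sum,
      Fintype.card_sigma]
    simpa using hcard
  obtain ⟨f, hf, hf0⟩ := (Submodule.ne_bot_iff _).1 hker
  have hf1 : ∀ m, ∑ s, f s * D (abi q α β s) (z m) = 0 := fun m =>
    congrFun (LinearMap.mem_ker.1 hf) (Sum.inl m)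
  have hf2 : ∀ j, ∑ s, f s * θ j (abi q α β s) = 0 := fun j =>
    congrFun (LinearMap.mem_ker.1 hf) (Sum.inr j)
  set δ : Derivation ℤ E E := ∑ s, f s • D (abi q α β s) with hδ
  have hδa : ∀ y, δ y = ∑ s, f s * D (abi q α β s) y := by
    intro y
    have h1 : δ y = (Derivation.coeFnAddMonoidHom δ) y := rfl
    rw [h1, hδ, map_sum, Finset.sum_apply]
    rfl
  have hδ0 : ∀ y, (∀ s, D s y = 0) → δ y = 0 := by
    intro y hy
    rw [hδa]
    exact Finset.sum_eq_zero fun s _ => by rw [hy, mul_zero]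
  have hδq : ∀ t : Ix σ q, δ (h t.1 t.2) = ∑ s, if abi q α β s = t then f s else 0 := by
    intro t
    rw [hδa]
    have h1 : ∀ s, f s * D (abi q α β s) (h t.1 t.2) = (if abi q α β s = t then f s else 0) -
        ∑ j, if jj j = t then f s * θ j (abi q α β s) else 0 := by
      intro s
      rw [hD (abi q α β s) t, mul_sub, mul_ite, mul_one, mul_zero, Finset.mul_sum]
      congr 1
      exact Finset.sum_congr rfl fun j _ => by rw [mul_ite, mul_zero]
    rw [Finset.sum_congr rfl fun s _ => h1 s, Finset.sum_sub_distrib, Finset.sum_comm]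
    have h2 : ∑ j, ∑ s, (if jj j = t then f s * θ j (abi q α β s) else 0) = 0 := by
      refine Finset.sum_eq_zero fun j _ => ?_
      split_ifs
      · exact hf2 j
      · exact Finset.sum_const_zero
    rw [h2, sub_zero]
  refine ⟨fun i r => f ⟨i, r⟩, δ, ?_, fun m => by rw [hδa]; exact hf1 m, ?_⟩
  · by_contra h
    push Not at h
    exact hf0 (funext fun s => h s.1 s.2)
  · intro i x hx
    rw [mov_form hM i x, map_add, Derivation.leibniz,
      form_killed δ (A i) x (fun J => hδ0 _ fun s => hM.DA s i J) hx,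
      form_killed δ (p i) x (fun J => hδ0 _ fun s => hM.Dp s i J) hx, smul_zero, add_zero,
      zero_add, smul_eq_mul]
    congr 1
    obtain ⟨g, hg, _⟩ := Helper8.LG.kf_grad_form (h i) x
    rw [hg δ, Finset.sum_eq_zero (s := Finset.univ) (f := fun l => g l * δ (x l))
      (fun l _ => by rw [hx, mul_zero]), add_zero]
    have h1 : ∀ J : Sym σ (q i), δ (h i J) * mon x J =
        ∑ s, if abi q α β s = ⟨i, J⟩ then f s * mon x J else 0 := by
      intro J
      rw [hδq ⟨i, J⟩, Finset.sum_mul]
      exact Finset.sum_congr rfl fun s _ => by rw [ite_mul, zero_mul]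
    rw [Finset.sum_congr rfl fun J _ => h1 J, Finset.sum_comm, ← Finset.univ_sigma_univ,
      Finset.sum_sigma, Finset.sum_eq_single i]
    · refine Finset.sum_congr rfl fun r _ => ?_
      rw [Finset.sum_eq_single (ab α β (q i) r)]
      · rw [if_pos (show abi q α β ⟨i, r⟩ = ⟨i, ab α β (q i) r⟩ from rfl), mon_ab]
      · intro J _ hJ
        rw [if_neg]
        intro h
        apply hJ
        unfold abi at h
        rw [Sigma.mk.injEq] at h
        exact (eq_of_heq h.2).symm
      · intro h
        exact absurd (Finset.mem_univ _) h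
    · intro i' _ hi'
      refine Finset.sum_eq_zero fun r _ => Finset.sum_eq_zero fun J _ => ?_
      rw [if_neg]
      intro h
      exact hi' (congrArg Sigma.fst h)
    · intro h
      exact absurd (Finset.mem_univ _) h

end Pool.Agent.Helper49.LV

end

section

/-!
# Lines and moving linear systems

`gen_line`: a line with a point `y` where all `P_i(y) ≠ 0` is not contained in all the `F_i = 0`.
`no_two`: the `F_i` do not all vanish in at most two points of such a line.
-/

set_option autoImplicit false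

namespace Pool.Agent.Helper49.LV

open scoped BigOperators
open Pool.Agent.Helper8.LG (Ix Dual form mon)
open Pool.Agent.Helper8.LV
open Pool.Agent.Helper49.LG (zero_of_nat lineP lineP_eval form_mul)

/-- If a form vanishes at all `u + z v`, it vanishes at all `v + z u`. -/
theorem lineP_swap {E : Type*} [Field E] [CharZero E] {σ : Type*} [Fintype σ] [DecidableEq σ]
    {m : ℕ} (a : Sym σ m → E) (u v : σ → E) (h : lineP a u v = 0) : lineP a v u = 0 := by
  refine Polynomial.eq_zero_of_infinite_isRoot _ ?_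
  have hinj : Function.Injective fun n : ℕ => ((n : E) + 1)⁻¹ := by
    intro n n' hn
    have h1 : (n : E) + 1 = n' + 1 := inv_injective hn
    exact Nat.cast_injective (add_right_cancel h1)
  refine Set.Infinite.mono ?_ (Set.infinite_range_of_injective hinj)
  rintro _ ⟨n, rfl⟩
  have hn : (n : E) + 1 ≠ 0 := by exact_mod_cast Nat.succ_ne_zero n
  change Polynomial.IsRoot _ _
  rw [Polynomial.IsRoot, lineP_eval]
  have h1 := form_mul 1 ((n : E) + 1)⁻¹ a fun l => u l + ((n : E) + 1) * v l
  have h2 : form a (fun l => u l + ((n : E) + 1) * v l) = 0 := by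
    rw [← lineP_eval, h, Polynomial.eval_zero]
  rw [h2, mul_zero] at h1
  simp only [one_mul] at h1
  rw [← h1]
  congr 1
  funext l
  field_simp
  ring

/-- A form which is not zero at a point of a line is not zero on it. -/
theorem lineP_ne {E : Type*} [Field E] [CharZero E] {σ : Type*} [Fintype σ] [DecidableEq σ]
    {m : ℕ} (a : Sym σ m → E) (u v : σ → E) (s t : E)
    (h : form a (fun l => s * u l + t * v l) ≠ 0) : lineP a u v ≠ 0 := by
  intro h0
  apply h
  by_cases hs : s = 0
  · have h1 := lineP_swap a u v h0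
    have h2 : form a v = 0 := by
      have h3 := lineP_eval a v u 0
      rw [h1, Polynomial.eval_zero] at h3
      rw [h3]
      congr 1
      funext l
      rw [zero_mul, add_zero]
    have h3 := form_mul 1 t a v
    rw [h2, mul_zero] at h3
    simp only [one_mul] at h3
    rw [← h3]
    congr 1
    funext l
    rw [hs, zero_mul, zero_add]
  · have h1 := form_mul 1 s a fun l => u l + t / s * v l
    have h2 : form a (fun l => u l + t / s * v l) = 0 := by
      rw [← lineP_eval, h0, Polynomial.eval_zero]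
    rw [h2, mul_zero] at h1
    simp only [one_mul] at h1
    rw [← h1]
    congr 1
    funext l
    field_simp

/-- A binary form vanishes if its product with a form not zero on the line vanishes. -/
theorem zero_of_mul {E : Type*} [Field E] [CharZero E] {σ : Type*} [Fintype σ] [DecidableEq σ]
    {b : ℕ} (g : Sym σ b → E) (u v : σ → E) (hg : lineP g u v ≠ 0) (α β : σ)
    (hdet : u α * v β - u β * v α ≠ 0) (m : ℕ) (f : Fin (m + 1) → E)
    (h : ∀ n : ℕ, form g (fun l => u l + n * v l) *
      ∑ r : Fin (m + 1), f r * ((u α + n * v α) ^ (m - r) * (u β + n * v β) ^ (r : ℕ)) = 0)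
    (r : Fin (m + 1)) : f r = 0 := by
  set S : Polynomial E := ∑ r : Fin (m + 1), Polynomial.C (f r) *
    ((Polynomial.C (u α) + Polynomial.X * Polynomial.C (v α)) ^ (m - r) *
      (Polynomial.C (u β) + Polynomial.X * Polynomial.C (v β)) ^ (r : ℕ)) with hS
  have heval : ∀ z : E, S.eval z =
      ∑ r : Fin (m + 1), f r * ((u α + z * v α) ^ (m - r) * (u β + z * v β) ^ (r : ℕ)) := by
    intro z
    rw [hS, Polynomial.eval_finsetSum]
    refine Finset.sum_congr rfl fun r _ => ?_
    simp only [Polynomial.eval_mul, Polynomial.eval_C, Polynomial.eval_pow, Polynomial.eval_add,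
      Polynomial.eval_X]
  have h1 : lineP g u v * S = 0 := by
    refine Polynomial.eq_zero_of_infinite_isRoot _ ?_
    refine Set.Infinite.mono ?_ (Set.infinite_range_of_injective
      (f := fun n : ℕ => (n : E)) Nat.cast_injective)
    rintro _ ⟨n, rfl⟩
    change Polynomial.IsRoot _ _
    rw [Polynomial.IsRoot, Polynomial.eval_mul, lineP_eval, heval]
    exact h n
  have hS0 : S = 0 := (mul_eq_zero.1 h1).resolve_left hg
  refine zero_of_nat m f (u α) (u β) (v α) (v β) hdet (fun n => ?_) r
  rw [← heval, hS0, Polynomial.eval_zero]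

/-- A line is not contained in all the hypersurfaces. -/
theorem gen_line {E : Type*} [Field E] [CharZero E] {σ ι τ : Type*} [Fintype σ] [DecidableEq σ]
    [Fintype ι] [DecidableEq ι] [Fintype τ] (d b q : ι → ℕ)
    (a A : (i : ι) → Sym σ (d i) → E) (p : (i : ι) → Sym σ (b i) → E)
    (h : (i : ι) → Sym σ (q i) → E) (D : Ix σ q → Derivation ℤ E E)
    (jj : τ → Ix σ q) (θ : τ → Ix σ q → E) (hD : Dual q h D jj θ) (hM : Mov d b q a A p h D)
    (α β : σ) (hαβ : α ≠ β)
    (u v : σ → E) (huα : u α = 1) (huβ : u β = 0) (hvα : v α = 0) (hvβ : v β = 1)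
    (y : σ → E) (hy : ∀ l, y l = y α * u l + y β * v l) (hPy : ∀ i, form (p i) y ≠ 0)
    (hcount : 2 * Fintype.card σ + Fintype.card τ ≤ ∑ i, (q i + 1) + 3) :
    ∃ (i : ι) (n : ℕ), form (a i) (fun l => u l + n * v l) ≠ 0 := by
  classical
  by_contra hcon
  push Not at hcon
  have hcard : Fintype.card {l : σ // l ≠ α ∧ l ≠ β} + 2 = Fintype.card σ := by
    have h1 : Fintype.card {l : σ // l ≠ α ∧ l ≠ β} =
        (Finset.univ.filter fun l : σ => l ≠ α ∧ l ≠ β).card := Fintype.card_subtype _
    have h2 : (Finset.univ.filter fun l : σ => l ≠ α ∧ l ≠ β) = Finset.univ \ {α, β} := by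
      ext l
      simp
    rw [h1, h2, Finset.card_sdiff_of_subset (Finset.subset_univ _), Finset.card_pair hαβ,
      Finset.card_univ]
    have h3 : 2 ≤ Fintype.card σ := by
      rw [← Finset.card_pair hαβ]
      exact Finset.card_le_univ _
    omega
  obtain ⟨f, δ, ⟨i, r, hfr⟩, hδ, hform⟩ := exists_killer d b q a A p h D jj θ hD hM α β
    (κ := {l : σ // l ≠ α ∧ l ≠ β} × Bool) (fun m => if m.2 then u m.1 else v m.1) (by
      rw [Fintype.card_prod, Fintype.card_bool]
      omega)
  have hδu : ∀ l, δ (u l) = 0 := by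
    intro l
    by_cases h1 : l = α
    · rw [h1, huα, Derivation.map_one_eq_zero]
    · by_cases h2 : l = β
      · rw [h2, huβ, map_zero]
      · exact hδ (⟨l, h1, h2⟩, true)
  have hδv : ∀ l, δ (v l) = 0 := by
    intro l
    by_cases h1 : l = α
    · rw [h1, hvα, map_zero]
    · by_cases h2 : l = β
      · rw [h2, hvβ, Derivation.map_one_eq_zero]
      · exact hδ (⟨l, h1, h2⟩, false)
  have hPl : lineP (p i) u v ≠ 0 := by
    refine lineP_ne (p i) u v (y α) (y β) ?_
    have h1 : (fun l => y α * u l + y β * v l) = y := by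
      funext l
      exact (hy l).symm
    rw [h1]
    exact hPy i
  apply hfr
  refine zero_of_mul (p i) u v hPl α β ?_ (q i) (f i) ?_ r
  · rw [huα, huβ, hvα, hvβ]
    simp
  · intro n
    rw [← hform i (fun l => u l + n * v l), hcon i n, map_zero]
    intro l
    rw [map_add, hδu, zero_add, Derivation.leibniz, hδv, smul_zero, zero_add,
      Derivation.map_natCast, smul_zero]

/-- The forms do not all vanish in at most two points `u`, `v` of a line. -/
theorem no_two {E : Type*} [Field E] [CharZero E] {σ ι τ : Type*} [Fintype σ] [DecidableEq σ]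
    [Fintype ι] [DecidableEq ι] [Fintype τ] (d b q : ι → ℕ)
    (a A : (i : ι) → Sym σ (d i) → E) (p : (i : ι) → Sym σ (b i) → E)
    (h : (i : ι) → Sym σ (q i) → E) (D : Ix σ q → Derivation ℤ E E)
    (jj : τ → Ix σ q) (θ : τ → Ix σ q → E) (hD : Dual q h D jj θ) (hM : Mov d b q a A p h D)
    (u v : σ → E) (α β : σ) (hdet : u α * v β - u β * v α ≠ 0)
    (iu iv : σ) (hu : u iu = 1) (hv : v iv = 1)
    (s t : E) (hPy : ∀ i, form (p i) (fun l => s * u l + t * v l) ≠ 0)
    (U : Finset ι) (e : ι → E) (c : ι → ℕ)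
    (he : ∀ i ∉ U, e i = 0)
    (heq : ∀ (i : ι) (n : ℕ), form (a i) (fun l => u l + n * v l) = e i * (n : E) ^ c i)
    (hcount : 2 * Fintype.card σ + U.card + Fintype.card τ < ∑ i, (q i + 1) + 2) : False := by
  classical
  have hcard : ∀ j : σ, Fintype.card {l : σ // l ≠ j} + 1 = Fintype.card σ := by
    intro j
    have h1 : Fintype.card {l : σ // l ≠ j} = Fintype.card σ - 1 := by
      rw [Fintype.card_subtype_compl (fun l => l = j)]
      simp
    have h2 : 0 < Fintype.card σ := Fintype.card_pos_iff.2 ⟨j⟩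
    omega
  obtain ⟨f, δ, ⟨i, r, hfr⟩, hδ, hform⟩ := exists_killer d b q a A p h D jj θ hD hM α β
    (κ := ({l : σ // l ≠ iu} ⊕ {l : σ // l ≠ iv}) ⊕ U)
    (Sum.elim (Sum.elim (fun l => u l) fun l => v l) fun i => e i) (by
      rw [Fintype.card_sum, Fintype.card_sum, Fintype.card_coe]
      have h1 := hcard iu
      have h2 := hcard iv
      omega)
  have hδu : ∀ l, δ (u l) = 0 := by
    intro l
    by_cases h1 : l = iu
    · rw [h1, hu, Derivation.map_one_eq_zero]
    · exact hδ (Sum.inl (Sum.inl ⟨l, h1⟩))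
  have hδv : ∀ l, δ (v l) = 0 := by
    intro l
    by_cases h1 : l = iv
    · rw [h1, hv, Derivation.map_one_eq_zero]
    · exact hδ (Sum.inl (Sum.inr ⟨l, h1⟩))
  have hδe : ∀ i, δ (e i) = 0 := by
    intro i
    by_cases h1 : i ∈ U
    · exact hδ (Sum.inr ⟨i, h1⟩)
    · rw [he i h1, map_zero]
  apply hfr
  refine zero_of_mul (p i) u v (lineP_ne (p i) u v s t (hPy i)) α β hdet (q i) (f i) ?_ r
  intro n
  rw [← hform i (fun l => u l + n * v l), heq i n, Derivation.leibniz, hδe, smul_zero, add_zero]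
  · have h1 : δ ((n : E) ^ c i) = 0 := by
      rw [Derivation.leibniz_pow, Derivation.map_natCast, smul_zero, smul_zero]
    rw [h1, smul_zero]
  · intro l
    rw [map_add, hδu, zero_add, Derivation.leibniz, hδv, smul_zero, zero_add,
      Derivation.map_natCast, smul_zero]

end Pool.Agent.Helper49.LV

end
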