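import Mathlib

section

/-!
Sum of the residues of `1 / ((w - a) ^ p (w - b) ^ q (w - c) ^ r)`, in terms of power series.
-/

open PowerSeries

namespace Pool.Agent.Helper19.UE

variable {K : Type*} [Field K]

/-- The power series `1 / (X + A)`. -/
noncomputable def g (A : K) : K⟦X⟧ := (X + C A)⁻¹

lemma g_mul {A : K} (hA : A ≠ 0) : (X + C A) * g A = 1 :=
  PowerSeries.mul_inv_cancel _ (by simpa using hA)

/-- The sum of the three residues. -/
noncomputable def T (a b c : K) (p q r : ℕ) : K :=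
  coeff p (X * (g (a - b) ^ q * g (a - c) ^ r)) + coeff q (X * (g (b - a) ^ p * g (b - c) ^ r)) +
    coeff r (X * (g (c - a) ^ p * g (c - b) ^ q))

lemma T_swap (a b c : K) (p q r : ℕ) : T a b c p q r = T b a c q p r := by
  unfold T
  rw [mul_comm (g (c - a) ^ p)]
  ring

lemma T_swap' (a b c : K) (p q r : ℕ) : T a b c p q r = T a c b p r q := by
  unfold T
  rw [mul_comm (g (a - b) ^ q)]
  ring

lemma g_sub {A B : K} (hA : A ≠ 0) (hB : B ≠ 0) : C (B - A) * (g A * g B) = g A - g B := by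
  have h1 := g_mul hA
  have h2 := g_mul hB
  rw [map_sub]
  linear_combination (g A) * h2 - (g B) * h1

lemma T_rec {a b c : K} (hab : a ≠ b) (hac : a ≠ c) (hbc : b ≠ c) (p q r : ℕ) :
    (b - c) * T a b c p (q + 1) (r + 1) = T a b c p (q + 1) r - T a b c p q (r + 1) := by
  have hA : a - b ≠ 0 := sub_ne_zero.2 hab
  have hB : a - c ≠ 0 := sub_ne_zero.2 hac
  have hC : b - c ≠ 0 := sub_ne_zero.2 hbc
  have hD : c - b ≠ 0 := sub_ne_zero.2 (Ne.symm hbc)
  have h1 : (b - c) * coeff p (X * (g (a - b) ^ (q + 1) * g (a - c) ^ (r + 1))) =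
      coeff p (X * (g (a - b) ^ (q + 1) * g (a - c) ^ r)) -
        coeff p (X * (g (a - b) ^ q * g (a - c) ^ (r + 1))) := by
    have := g_sub hA hB
    rw [← coeff_C_mul, ← map_sub]
    congr 1
    have e : b - c = (a - c) - (a - b) := by ring
    rw [e]
    linear_combination (X * (g (a - b) ^ q * g (a - c) ^ r)) * this
  have h2 : (b - c) * coeff (q + 1) (X * (g (b - a) ^ p * g (b - c) ^ (r + 1))) =
      coeff (q + 1) (X * (g (b - a) ^ p * g (b - c) ^ r)) -
        coeff q (X * (g (b - a) ^ p * g (b - c) ^ (r + 1))) := by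
    have := g_mul hC
    rw [← coeff_C_mul, ← coeff_succ_X_mul q, ← map_sub]
    congr 1
    linear_combination (X * (g (b - a) ^ p * g (b - c) ^ r)) * this
  have h3 : (b - c) * coeff (r + 1) (X * (g (c - a) ^ p * g (c - b) ^ (q + 1))) =
      coeff r (X * (g (c - a) ^ p * g (c - b) ^ (q + 1))) -
        coeff (r + 1) (X * (g (c - a) ^ p * g (c - b) ^ q)) := by
    have := g_mul hD
    rw [← coeff_C_mul, ← coeff_succ_X_mul r, ← map_sub]
    congr 1
    have e : (C (b - c) : K⟦X⟧) = - C (c - b) := by rw [← map_neg]; congr 1; ring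
    rw [e]
    linear_combination (-X * (g (c - a) ^ p * g (c - b) ^ q)) * this
  unfold T
  rw [mul_add, mul_add, h1, h2, h3]
  ring

/-- Sum of the residues. -/
theorem T_eq (n : ℕ) : ∀ {a b c : K} (_ : a ≠ b) (_ : a ≠ c) (_ : b ≠ c) (p q r : ℕ),
    p + q + r = n + 1 → T a b c p q r = if n = 0 then 1 else 0 := by
  induction n with
  | zero =>
    intro a b c _ _ _ p q r h
    have : (p = 1 ∧ q = 0 ∧ r = 0) ∨ (p = 0 ∧ q = 1 ∧ r = 0) ∨ (p = 0 ∧ q = 0 ∧ r = 1) := by omega
    rcases this with ⟨rfl, rfl, rfl⟩ | ⟨rfl, rfl, rfl⟩ | ⟨rfl, rfl, rfl⟩ <;>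
      simp [T]
  | succ n ih =>
    have key : ∀ {a b c : K} (_ : a ≠ b) (_ : a ≠ c) (_ : b ≠ c) (p q r : ℕ),
        p + (q + 1) + (r + 1) = n + 1 + 1 → T a b c p (q + 1) (r + 1) = 0 := by
      intro a b c hab hac hbc p q r h
      have h0 := T_rec hab hac hbc p q r
      rw [ih hab hac hbc p (q + 1) r (by omega), ih hab hac hbc p q (r + 1) (by omega), sub_self]
        at h0
      exact (mul_eq_zero.1 h0).resolve_left (sub_ne_zero.2 hbc)
    intro a b c hab hac hbc p q r h
    simp only [Nat.succ_ne_zero, if_false]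
    rcases Nat.eq_zero_or_pos p with hp | hp
    · subst hp
      rcases Nat.eq_zero_or_pos q with hq | hq
      · subst hq
        have : r = n + 2 := by omega
        subst this
        simp [T, coeff_X]
      · obtain ⟨q, rfl⟩ : ∃ q', q = q' + 1 := ⟨q - 1, by omega⟩
        rcases Nat.eq_zero_or_pos r with hr | hr
        · subst hr
          have : q + 1 = n + 2 := by omega
          rw [this]
          simp [T, coeff_X]
        · obtain ⟨r, rfl⟩ : ∃ q', r = q' + 1 := ⟨r - 1, by omega⟩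
          exact key hab hac hbc _ _ _ (by omega)
    · obtain ⟨p, rfl⟩ : ∃ q', p = q' + 1 := ⟨p - 1, by omega⟩
      rcases Nat.eq_zero_or_pos q with hq | hq
      · subst hq
        rcases Nat.eq_zero_or_pos r with hr | hr
        · subst hr
          have : p + 1 = n + 2 := by omega
          rw [this]
          simp [T, coeff_X]
        · obtain ⟨r, rfl⟩ : ∃ q', r = q' + 1 := ⟨r - 1, by omega⟩
          rw [T_swap]
          exact key (Ne.symm hab) hbc hac _ _ _ (by omega)
      · obtain ⟨q, rfl⟩ : ∃ q', q = q' + 1 := ⟨q - 1, by omega⟩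
        rw [T_swap', T_swap]
        exact key (Ne.symm hac) (Ne.symm hbc) hab _ _ _ (by omega)

end Pool.Agent.Helper19.UE

end

section

/-!
Pade approximants: forms `P, Q` of degree `n + 1` with positive integer coefficients (up to signs)
and `∑ x_i ^ (2 (n + 1)) P_i (x) = 0` on `x_0 + x_1 + x_2 = 0`, independent at every point.
-/

open PowerSeries
open Finset.HasAntidiagonal (antidiagonal)

namespace Pool.Agent.Helper19.UE

/-- The form `∑_{i + j = n} C(q + i, q) C(r + j, r) u ^ j v ^ i`. -/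
def S {R : Type*} [CommRing R] (n q r : ℕ) (u v : R) : R :=
  ∑ ij ∈ antidiagonal n, ((Nat.choose (q + ij.1) q : R) * (Nat.choose (r + ij.2) r : R)) *
    (u ^ ij.2 * v ^ ij.1)

lemma map_S {R R' : Type*} [CommRing R] [CommRing R'] (f : R →+* R') (n q r : ℕ) (u v : R) :
    f (S n q r u v) = S n q r (f u) (f v) := by
  simp [S, map_sum, map_mul, map_pow, map_natCast]

section field

variable {K : Type*} [Field K]

lemma g_eq {A : K} (hA : A ≠ 0) : g A = C A⁻¹ * mk (fun n => (-A⁻¹) ^ n) := by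
  have h1 := g_mul hA
  have h2 : (X + C A) * (C A⁻¹ * mk (fun n => (-A⁻¹) ^ n) : K⟦X⟧) = 1 := by
    ext n
    rw [add_mul, map_add, mul_left_comm, coeff_C_mul, coeff_C_mul, coeff_C_mul, coeff_mk]
    rcases n with _ | n
    · simp [hA]
    · rw [coeff_succ_X_mul, coeff_mk, coeff_one, if_neg (Nat.succ_ne_zero n), pow_succ]
      field_simp
      ring
  calc g A = g A * ((X + C A) * (C A⁻¹ * mk (fun n => (-A⁻¹) ^ n))) := by rw [h2, mul_one]
    _ = ((X + C A) * g A) * (C A⁻¹ * mk (fun n => (-A⁻¹) ^ n)) := by ring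
    _ = _ := by rw [h1, one_mul]

lemma geo_pow (v : K) (d : ℕ) :
    (mk (fun n => v ^ n) : K⟦X⟧) ^ (d + 1) = mk (fun n => (Nat.choose (d + n) d : K) * v ^ n) := by
  have h0 : (mk (fun n => v ^ n) : K⟦X⟧) = rescale v (mk 1) := by
    ext n
    simp [coeff_rescale]
  rw [h0, ← map_pow, mk_one_pow_eq_mk_choose_add]
  ext n
  simp [coeff_rescale, mul_comm]

lemma coeff_T {A B : K} (hA : A ≠ 0) (hB : B ≠ 0) (p q r : ℕ) :
    A ^ (p + q + 1) * B ^ (p + r + 1) *
      coeff (p + 1) (X * (g A ^ (q + 1) * g B ^ (r + 1)) : K⟦X⟧) = (-1) ^ p * S p q r A B := by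
  rw [coeff_succ_X_mul, g_eq hA, g_eq hB, mul_pow, mul_pow, geo_pow, geo_pow, ← map_pow, ← map_pow,
    show ∀ (a b c d : K⟦X⟧), a * b * (c * d) = a * (c * (b * d)) by intros; ring,
    coeff_C_mul, coeff_C_mul, coeff_mul, S, Finset.mul_sum, Finset.mul_sum, Finset.mul_sum,
    Finset.mul_sum]
  refine Finset.sum_congr rfl fun ij hij => ?_
  rw [Finset.HasAntidiagonal.mem_antidiagonal] at hij
  obtain ⟨i, j⟩ := ij
  simp only at hij ⊢
  subst hij
  rw [coeff_mk, coeff_mk, neg_pow, neg_pow B⁻¹]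
  have e1 : A ^ (i + j + q + 1) = A ^ (q + 1) * A ^ i * A ^ j := by ring
  have e2 : B ^ (i + j + r + 1) = B ^ (r + 1) * B ^ j * B ^ i := by ring
  rw [e1, e2, inv_pow, inv_pow, inv_pow, inv_pow]
  field_simp
  ring

/-- The identity over a field. -/
lemma S_id_field {x0 x1 x2 : K} (h : x0 + x1 + x2 = 0) (h0 : x0 ≠ 0) (h1 : x1 ≠ 0) (h2 : x2 ≠ 0)
    (p q r : ℕ) :
    (-1) ^ r * x0 ^ (q + r + 1) * S p q r x2 (-x1) + (-1) ^ p * x1 ^ (p + r + 1) * S q p r (-x2) x0 +
      (-1) ^ q * x2 ^ (p + q + 1) * S r p q x1 (-x0) = 0 := by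
  have hT := T_eq (K := K) (p + q + r + 2) (a := -x1) (b := x0) (c := 0)
    (by intro h'; apply h2; linear_combination h + h') (by simpa using h1) h0 (p + 1) (q + 1) (r + 1)
    (by ring)
  simp only [Nat.add_eq_zero_iff, OfNat.ofNat_ne_zero, and_false, if_false] at hT
  unfold T at hT
  have ea : -x1 - x0 = x2 := by linear_combination -h
  have eb : x0 - -x1 = -x2 := by linear_combination h
  rw [ea, eb, sub_zero, sub_zero, zero_sub, zero_sub, neg_neg] at hT
  have c1 := coeff_T h2 (neg_ne_zero.2 h1) p q r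
  have c2 := coeff_T (neg_ne_zero.2 h2) h0 q p r
  have c3 := coeff_T h1 (neg_ne_zero.2 h0) r p q
  generalize coeff (p + 1) (X * (g x2 ^ (q + 1) * g (-x1) ^ (r + 1))) = t1 at *
  generalize coeff (q + 1) (X * (g (-x2) ^ (p + 1) * g x0 ^ (r + 1))) = t2 at *
  generalize coeff (r + 1) (X * (g x1 ^ (p + 1) * g (-x0) ^ (q + 1))) = t3 at *
  have hm := congrArg (fun z => z * (x0 ^ (q + r + 1) * x1 ^ (p + r + 1) * x2 ^ (p + q + 1))) hT
  simp only [zero_mul] at hm
  have s1 : ∀ k : ℕ, ((-1 : K) ^ k) * (-1) ^ k = 1 := fun k => by rw [← mul_pow]; norm_num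
  have d1 : x0 ^ (q + r + 1) * x1 ^ (p + r + 1) * x2 ^ (p + q + 1) * t1 =
      (-1) ^ (r + 1) * x0 ^ (q + r + 1) * S p q r x2 (-x1) := by
    have : S p q r x2 (-x1) = (-1) ^ p * (x2 ^ (p + q + 1) * (-x1) ^ (p + r + 1) * t1) := by
      rw [c1, ← mul_assoc, s1, one_mul]
    rw [this, neg_pow x1, show p + r + 1 = p + (r + 1) by ring, pow_add (-1 : K) p (r + 1)]
    have := s1 p
    have := s1 (r + 1)
    linear_combination (exp := 1) (-(x0 ^ (q + r + 1) * x1 ^ (p + (r + 1)) * x2 ^ (p + q + 1) * t1)) *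
      ((-1) ^ (r + 1) * (-1) ^ (r + 1) * (s1 p) + s1 (r + 1))
  have d2 : x0 ^ (q + r + 1) * x1 ^ (p + r + 1) * x2 ^ (p + q + 1) * t2 =
      (-1) ^ (p + 1) * x1 ^ (p + r + 1) * S q p r (-x2) x0 := by
    have : S q p r (-x2) x0 = (-1) ^ q * ((-x2) ^ (q + p + 1) * x0 ^ (q + r + 1) * t2) := by
      rw [c2, ← mul_assoc, s1, one_mul]
    rw [this, neg_pow x2, show q + p + 1 = q + (p + 1) by ring, show p + q + 1 = q + (p + 1) by ring,
      pow_add (-1 : K) q (p + 1)]
    linear_combination (exp := 1) (-(x0 ^ (q + r + 1) * x1 ^ (p + r + 1) * x2 ^ (q + (p + 1)) * t2)) *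
      ((-1) ^ (p + 1) * (-1) ^ (p + 1) * (s1 q) + s1 (p + 1))
  have d3 : x0 ^ (q + r + 1) * x1 ^ (p + r + 1) * x2 ^ (p + q + 1) * t3 =
      (-1) ^ (q + 1) * x2 ^ (p + q + 1) * S r p q x1 (-x0) := by
    have : S r p q x1 (-x0) = (-1) ^ r * (x1 ^ (r + p + 1) * (-x0) ^ (r + q + 1) * t3) := by
      rw [c3, ← mul_assoc, s1, one_mul]
    rw [this, neg_pow x0, show r + q + 1 = r + (q + 1) by ring, show q + r + 1 = r + (q + 1) by ring,
      show r + p + 1 = p + r + 1 by ring,
      pow_add (-1 : K) r (q + 1)]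
    linear_combination (exp := 1) (-(x0 ^ (r + (q + 1)) * x1 ^ (p + r + 1) * x2 ^ (p + q + 1) * t3)) *
      ((-1) ^ (q + 1) * (-1) ^ (q + 1) * (s1 r) + s1 (q + 1))
  rw [pow_succ (-1 : K) r] at d1
  rw [pow_succ (-1 : K) p] at d2
  rw [pow_succ (-1 : K) q] at d3
  linear_combination (-1) * hm + d1 + d2 + d3

end field

end Pool.Agent.Helper19.UE

end

section

/-!
The two Pade triples `P, Q`.
-/

open Finset.HasAntidiagonal (antidiagonal)

namespace Pool.Agent.Helper19.UE

/-- First Pade triple. -/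
def P {R : Type*} [CommRing R] (n : ℕ) (x : Fin 3 → R) : Fin 3 → R :=
  ![(-1) ^ (n + 1) * S (n + 1) n (n + 1) (x 2) (-x 1),
    (-1) ^ (n + 1) * (x 1 * S n (n + 1) (n + 1) (-x 2) (x 0)),
    (-1) ^ n * S (n + 1) (n + 1) n (x 1) (-x 0)]

/-- Second Pade triple. -/
def Q {R : Type*} [CommRing R] (n : ℕ) (x : Fin 3 → R) : Fin 3 → R :=
  ![(-1) ^ (n + 1) * (x 0 * S n (n + 1) (n + 1) (x 2) (-x 1)),
    (-1) ^ n * S (n + 1) n (n + 1) (-x 2) (x 0),
    (-1) ^ (n + 1) * S (n + 1) n (n + 1) (x 1) (-x 0)]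

lemma map_P {R R' : Type*} [CommRing R] [CommRing R'] (f : R →+* R') (n : ℕ) (x : Fin 3 → R)
    (i : Fin 3) : f (P n x i) = P n (fun j => f (x j)) i := by
  fin_cases i <;> simp [P, map_S]

lemma map_Q {R R' : Type*} [CommRing R] [CommRing R'] (f : R →+* R') (n : ℕ) (x : Fin 3 → R)
    (i : Fin 3) : f (Q n x i) = Q n (fun j => f (x j)) i := by
  fin_cases i <;> simp [Q, map_S]

lemma P_orth_field {K : Type*} [Field K] (n : ℕ) (x : Fin 3 → K) (h : x 0 + x 1 + x 2 = 0)
    (h0 : x 0 ≠ 0) (h1 : x 1 ≠ 0) (h2 : x 2 ≠ 0) :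
    x 0 ^ (2 * (n + 1)) * P n x 0 + x 1 ^ (2 * (n + 1)) * P n x 1 +
      x 2 ^ (2 * (n + 1)) * P n x 2 = 0 := by
  have := S_id_field h h0 h1 h2 (n + 1) n (n + 1)
  rw [show n + (n + 1) + 1 = 2 * (n + 1) by ring, show n + 1 + (n + 1) + 1 = 2 * (n + 1) + 1 by ring,
    show n + 1 + n + 1 = 2 * (n + 1) by ring] at this
  simp only [P, Matrix.cons_val_zero, Matrix.cons_val_one, Matrix.cons_val]
  linear_combination this

lemma Q_orth_field {K : Type*} [Field K] (n : ℕ) (x : Fin 3 → K) (h : x 0 + x 1 + x 2 = 0)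
    (h0 : x 0 ≠ 0) (h1 : x 1 ≠ 0) (h2 : x 2 ≠ 0) :
    x 0 ^ (2 * (n + 1)) * Q n x 0 + x 1 ^ (2 * (n + 1)) * Q n x 1 +
      x 2 ^ (2 * (n + 1)) * Q n x 2 = 0 := by
  have := S_id_field h h0 h1 h2 n (n + 1) (n + 1)
  rw [show n + (n + 1) + 1 = 2 * (n + 1) by ring,
    show n + 1 + (n + 1) + 1 = 2 * (n + 1) + 1 by ring] at this
  simp only [Q, Matrix.cons_val_zero, Matrix.cons_val_one, Matrix.cons_val]
  linear_combination this

open Polynomial

/-- The generic point of the line. -/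
noncomputable def pt (K : Type*) [Field K] : Fin 3 → K[X] := ![X, 1 - X, -1]

lemma P_orth_poly (K : Type*) [Field K] (n : ℕ) :
    (X : K[X]) ^ (2 * (n + 1)) * P n (pt K) 0 + (1 - X) ^ (2 * (n + 1)) * P n (pt K) 1 +
      P n (pt K) 2 = 0 := by
  apply IsFractionRing.injective K[X] (FractionRing K[X])
  have hx : (1 - X : K[X]) ≠ 0 := by
    intro h
    have := congrArg (eval 0) h
    simp at this
  have := P_orth_field (K := FractionRing K[X]) n (fun j => algebraMap K[X] (FractionRing K[X]) (pt K j))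
    (by simp [pt]) (by simpa [pt] using X_ne_zero)
    (by
      have := (map_ne_zero_iff (algebraMap K[X] (FractionRing K[X]))
        (IsFractionRing.injective K[X] (FractionRing K[X]))).2 hx
      simpa [pt] using this) (by simp [pt])
  simp only [map_add, map_mul, map_pow, map_P, map_zero]
  simpa [pt] using this

lemma Q_orth_poly (K : Type*) [Field K] (n : ℕ) :
    (X : K[X]) ^ (2 * (n + 1)) * Q n (pt K) 0 + (1 - X) ^ (2 * (n + 1)) * Q n (pt K) 1 +
      Q n (pt K) 2 = 0 := by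
  apply IsFractionRing.injective K[X] (FractionRing K[X])
  have hx : (1 - X : K[X]) ≠ 0 := by
    intro h
    have := congrArg (eval 0) h
    simp at this
  have := Q_orth_field (K := FractionRing K[X]) n (fun j => algebraMap K[X] (FractionRing K[X]) (pt K j))
    (by simp [pt]) (by simpa [pt] using X_ne_zero)
    (by
      have := (map_ne_zero_iff (algebraMap K[X] (FractionRing K[X]))
        (IsFractionRing.injective K[X] (FractionRing K[X]))).2 hx
      simpa [pt] using this) (by simp [pt])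
  simp only [map_add, map_mul, map_pow, map_Q, map_zero]
  simpa [pt] using this

lemma natDegree_S {K : Type*} [Field K] (n q r : ℕ) {u v : K[X]} (hu : u.natDegree ≤ 1)
    (hv : v.natDegree ≤ 1) : (S n q r u v).natDegree ≤ n := by
  unfold S
  apply natDegree_sum_le_of_forall_le
  intro ij hij
  rw [Finset.HasAntidiagonal.mem_antidiagonal] at hij
  refine (natDegree_mul_le).trans ?_
  have h1 : (((Nat.choose (q + ij.1) q : ℕ) : K[X]) * ((Nat.choose (r + ij.2) r : ℕ) : K[X])).natDegree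
      ≤ 0 := by
    refine (natDegree_mul_le).trans ?_
    simp
  have h2 : (u ^ ij.2 * v ^ ij.1).natDegree ≤ ij.2 + ij.1 := by
    refine (natDegree_mul_le).trans ?_
    refine add_le_add ((natDegree_pow_le).trans ?_) ((natDegree_pow_le).trans ?_)
    · calc ij.2 * u.natDegree ≤ ij.2 * 1 := Nat.mul_le_mul_left _ hu
        _ = ij.2 := mul_one _
    · calc ij.1 * v.natDegree ≤ ij.1 * 1 := Nat.mul_le_mul_left _ hv
        _ = ij.1 := mul_one _
  omega

lemma natDegree_sign {K : Type*} [Field K] (m : ℕ) (f : K[X]) :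
    ((-1) ^ m * f).natDegree = f.natDegree := by
  rcases neg_one_pow_eq_or K[X] m with h | h <;> simp [h]

lemma pt_deg {K : Type*} [Field K] (i : Fin 3) : (pt K i).natDegree ≤ 1 := by
  fin_cases i
  · simp [pt]
  · simp only [pt]
    exact (natDegree_sub_le _ _).trans (by simp)
  · simp [pt]

lemma natDegree_P {K : Type*} [Field K] (n : ℕ) (i : Fin 3) : (P n (pt K) i).natDegree ≤ n + 1 := by
  have h := fun i => pt_deg (K := K) i
  have h' : ∀ i, (- pt K i).natDegree ≤ 1 := fun i => by rw [natDegree_neg]; exact h i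
  fin_cases i
  · simp only [P, Fin.zero_eta, Matrix.cons_val_zero]
    rw [natDegree_sign]
    exact natDegree_S _ _ _ (h _) (h' _)
  · simp only [P, Fin.mk_one, Matrix.cons_val_one, Matrix.cons_val_zero]
    rw [natDegree_sign]
    refine (natDegree_mul_le).trans ?_
    have := natDegree_S (K := K) n (n + 1) (n + 1) (h' 2) (h 0)
    have := h 1
    omega
  · simp only [P, Fin.reduceFinMk, Matrix.cons_val]
    rw [natDegree_sign]
    exact natDegree_S _ _ _ (h _) (h' _)

lemma natDegree_Q {K : Type*} [Field K] (n : ℕ) (i : Fin 3) : (Q n (pt K) i).natDegree ≤ n + 1 := by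
  have h := fun i => pt_deg (K := K) i
  have h' : ∀ i, (- pt K i).natDegree ≤ 1 := fun i => by rw [natDegree_neg]; exact h i
  fin_cases i
  · simp only [Q, Fin.zero_eta, Matrix.cons_val_zero]
    rw [natDegree_sign]
    refine (natDegree_mul_le).trans ?_
    have := natDegree_S (K := K) n (n + 1) (n + 1) (h 2) (h' 1)
    have := h 0
    omega
  · simp only [Q, Fin.mk_one, Matrix.cons_val_one, Matrix.cons_val_zero]
    rw [natDegree_sign]
    exact natDegree_S _ _ _ (h' _) (h _)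
  · simp only [Q, Fin.reduceFinMk, Matrix.cons_val]
    rw [natDegree_sign]
    exact natDegree_S _ _ _ (h _) (h' _)

/-- The minor is a constant. -/
lemma minor_const (K : Type*) [Field K] (n : ℕ) :
    P n (pt K) 0 * Q n (pt K) 1 - P n (pt K) 1 * Q n (pt K) 0 =
      C ((P n (pt K) 0 * Q n (pt K) 1 - P n (pt K) 1 * Q n (pt K) 0).eval 0) := by
  set D := P n (pt K) 0 * Q n (pt K) 1 - P n (pt K) 1 * Q n (pt K) 0 with hD
  have h1 := P_orth_poly K n
  have h2 := Q_orth_poly K n
  have h3 : P n (pt K) 1 * Q n (pt K) 2 - P n (pt K) 2 * Q n (pt K) 1 =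
      X ^ (2 * (n + 1)) * D := by
    rw [hD]
    linear_combination P n (pt K) 1 * h2 - Q n (pt K) 1 * h1
  have h4 : (P n (pt K) 1 * Q n (pt K) 2 - P n (pt K) 2 * Q n (pt K) 1).natDegree ≤
      2 * (n + 1) := by
    refine (natDegree_sub_le _ _).trans (max_le ?_ ?_) <;>
    · refine (natDegree_mul_le).trans ?_
      have := natDegree_P (K := K) n 1
      have := natDegree_P (K := K) n 2
      have := natDegree_Q (K := K) n 1
      have := natDegree_Q (K := K) n 2
      omega
  have h5 : D.natDegree = 0 := by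
    by_cases hD0 : D = 0
    · simp [hD0]
    · rw [h3, natDegree_mul (pow_ne_zero _ X_ne_zero) hD0, natDegree_X_pow] at h4
      omega
  obtain ⟨c, hc⟩ := natDegree_eq_zero.1 h5
  rw [← hc]
  simp

lemma S_pos {K : Type*} [Field K] [CharZero K] (n q r : ℕ) : S n q r (-1 : K) (-1) ≠ 0 := by
  have h : S n q r (-1 : K) (-1) = (-1) ^ n *
      ((∑ ij ∈ antidiagonal n, Nat.choose (q + ij.1) q * Nat.choose (r + ij.2) r : ℕ) : K) := by
    unfold S
    rw [Nat.cast_sum, Finset.mul_sum]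
    refine Finset.sum_congr rfl fun ij hij => ?_
    rw [Finset.HasAntidiagonal.mem_antidiagonal] at hij
    rw [← hij, ← pow_add, add_comm ij.2, Nat.cast_mul]
    ring
  rw [h]
  refine mul_ne_zero (pow_ne_zero _ (by norm_num)) ?_
  rw [Nat.cast_ne_zero]
  apply ne_of_gt
  apply Finset.sum_pos
  · intro ij _
    exact Nat.mul_pos (Nat.choose_pos (by omega)) (Nat.choose_pos (by omega))
  · exact ⟨(0, n), by simp⟩

lemma S_zero {K : Type*} [Field K] [CharZero K] (n q r : ℕ) : S n q r (1 : K) 0 ≠ 0 := by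
  have h : S n q r (1 : K) 0 = (Nat.choose (r + n) r : K) := by
    unfold S
    rw [Finset.sum_eq_single (0, n)]
    · simp
    · intro ij hij hne
      rw [Finset.HasAntidiagonal.mem_antidiagonal] at hij
      have : ij.1 ≠ 0 := by
        intro h0
        apply hne
        ext <;> simp <;> omega
      simp [this]
    · intro h
      exact absurd (by simp) h
  rw [h, Nat.cast_ne_zero]
  exact ne_of_gt (Nat.choose_pos (by omega))

/-- Independence at every point. -/
theorem minor_ne {K : Type*} [Field K] [CharZero K] (n : ℕ) (t : K) :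
    P n ![t, 1 - t, -1] 0 * Q n ![t, 1 - t, -1] 1 - P n ![t, 1 - t, -1] 1 * Q n ![t, 1 - t, -1] 0
      ≠ 0 := by
  have hev : ∀ t : K, (P n (pt K) 0 * Q n (pt K) 1 - P n (pt K) 1 * Q n (pt K) 0).eval t =
      P n ![t, 1 - t, -1] 0 * Q n ![t, 1 - t, -1] 1 -
        P n ![t, 1 - t, -1] 1 * Q n ![t, 1 - t, -1] 0 := by
    intro t
    have e : (fun j => evalRingHom t (pt K j)) = ![t, 1 - t, -1] := by
      ext j
      fin_cases j <;> simp [pt]
    rw [← coe_evalRingHom, map_sub, map_mul, map_mul, map_P, map_P, map_Q, map_Q, e]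
  rw [← hev, minor_const K n, eval_C, hev]
  have h1 : P n ![(0 : K), 1 - 0, -1] 0 ≠ 0 := by
    simp only [P, Matrix.cons_val_zero, Matrix.cons_val_one, Matrix.cons_val, sub_zero]
    exact mul_ne_zero (pow_ne_zero _ (by norm_num)) (S_pos _ _ _)
  have h2 : Q n ![(0 : K), 1 - 0, -1] 1 ≠ 0 := by
    simp only [Q, Matrix.cons_val_zero, Matrix.cons_val_one, Matrix.cons_val, neg_neg]
    exact mul_ne_zero (pow_ne_zero _ (by norm_num)) (S_zero _ _ _)
  have h3 : Q n ![(0 : K), 1 - 0, -1] 0 = 0 := by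
    simp [Q]
  rw [h3, mul_zero, sub_zero]
  exact mul_ne_zero h1 h2

end Pool.Agent.Helper19.UE

end
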