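import Pool.Agent.Helper74.MG.T29

section

/-!
Local bounds for the Pade triples and the global height inequality.
-/

open Finset.HasAntidiagonal (antidiagonal)

namespace Pool.Agent.Helper19.UE

variable {K : Type*} [Field K]

lemma abv_S_le (v : AbsoluteValue K ℝ) (n q r : ℕ) {u w : K} {M : ℝ} (hu : v u ≤ M)
    (hw : v w ≤ M) : v (S n q r u w) ≤ 2 ^ (q + r + 2 * n) * M ^ n := by
  have hM : 0 ≤ M := (v.nonneg u).trans hu
  unfold S
  calc v (∑ ij ∈ antidiagonal n, ((Nat.choose (q + ij.1) q : K) * (Nat.choose (r + ij.2) r : K)) *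
        (u ^ ij.2 * w ^ ij.1))
      ≤ ∑ ij ∈ antidiagonal n, v (((Nat.choose (q + ij.1) q : K) * (Nat.choose (r + ij.2) r : K)) *
        (u ^ ij.2 * w ^ ij.1)) := v.sum_le _ _
    _ ≤ ∑ ij ∈ antidiagonal n, 2 ^ (q + r + n) * M ^ n := by
        refine Finset.sum_le_sum fun ij hij => ?_
        rw [Finset.HasAntidiagonal.mem_antidiagonal] at hij
        rw [map_mul, map_mul, map_mul, map_pow, map_pow]
        have h1 : v ((Nat.choose (q + ij.1) q : ℕ) : K) ≤ 2 ^ (q + ij.1) :=
          (v.apply_nat_le_self _).trans (by exact_mod_cast Nat.choose_le_two_pow _ _)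
        have h2 : v ((Nat.choose (r + ij.2) r : ℕ) : K) ≤ 2 ^ (r + ij.2) :=
          (v.apply_nat_le_self _).trans (by exact_mod_cast Nat.choose_le_two_pow _ _)
        calc v ((Nat.choose (q + ij.1) q : ℕ) : K) * v ((Nat.choose (r + ij.2) r : ℕ) : K) *
              (v u ^ ij.2 * v w ^ ij.1)
            ≤ (2 ^ (q + ij.1) * 2 ^ (r + ij.2)) * (M ^ ij.2 * M ^ ij.1) := by
              gcongr
          _ = 2 ^ (q + r + n) * M ^ n := by
              rw [← pow_add, ← pow_add, ← hij]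
              congr 2 <;> ring
    _ = (n + 1) * (2 ^ (q + r + n) * M ^ n) := by
        rw [Finset.sum_const, Finset.Nat.card_antidiagonal, nsmul_eq_mul]
        push_cast
        ring
    _ ≤ 2 ^ n * (2 ^ (q + r + n) * M ^ n) := by
        gcongr
        exact_mod_cast Nat.lt_two_pow_self
    _ = 2 ^ (q + r + 2 * n) * M ^ n := by ring

lemma nonarch_S_le {v : AbsoluteValue K ℝ} (hv : IsNonarchimedean v) (n q r : ℕ) {u w : K} {M : ℝ}
    (hu : v u ≤ M) (hw : v w ≤ M) : v (S n q r u w) ≤ M ^ n := by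
  have hM : 0 ≤ M := (v.nonneg u).trans hu
  unfold S
  obtain ⟨ij, hij, h⟩ := hv.finset_image_add_of_nonempty
    (fun ij : ℕ × ℕ => ((Nat.choose (q + ij.1) q : K) * (Nat.choose (r + ij.2) r : K)) *
        (u ^ ij.2 * w ^ ij.1)) (t := antidiagonal n) ⟨(0, n), by simp⟩
  refine h.trans ?_
  rw [Finset.HasAntidiagonal.mem_antidiagonal] at hij
  rw [map_mul, map_mul, map_mul, map_pow, map_pow]
  have h1 : v ((Nat.choose (q + ij.1) q : ℕ) : K) ≤ 1 := hv.apply_natCast_le_one
  have h2 : v ((Nat.choose (r + ij.2) r : ℕ) : K) ≤ 1 := hv.apply_natCast_le_one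
  calc v ((Nat.choose (q + ij.1) q : ℕ) : K) * v ((Nat.choose (r + ij.2) r : ℕ) : K) *
        (v u ^ ij.2 * v w ^ ij.1)
      ≤ (1 * 1) * (M ^ ij.2 * M ^ ij.1) := by gcongr
    _ = M ^ n := by
        rw [← pow_add, ← hij, add_comm ij.2]
        ring

lemma abv_sign (v : AbsoluteValue K ℝ) (m : ℕ) (f : K) : v ((-1) ^ m * f) = v f := by
  rcases neg_one_pow_eq_or K m with h | h <;> simp [h]

lemma abv_P_le (v : AbsoluteValue K ℝ) (n : ℕ) {x : Fin 3 → K} {M : ℝ} (hx : ∀ i, v (x i) ≤ M)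
    (i : Fin 3) : v (P n x i) ≤ 16 ^ (n + 1) * M ^ (n + 1) := by
  have hM : 0 ≤ M := (v.nonneg _).trans (hx 0)
  have hx' : ∀ i, v (- x i) ≤ M := fun i => by rw [map_neg_eq_map]; exact hx i
  have e : ((16 : ℝ)) ^ (n + 1) = 2 ^ (4 * (n + 1)) := by rw [pow_mul]; norm_num
  fin_cases i
  · simp only [P, Fin.zero_eta, Matrix.cons_val_zero]
    rw [abv_sign]
    refine (abv_S_le v _ _ _ (hx _) (hx' _)).trans ?_
    rw [e]
    gcongr
    · norm_num
    · omega
  · simp only [P, Fin.mk_one, Matrix.cons_val_one, Matrix.cons_val_zero]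
    rw [abv_sign, map_mul]
    calc v (x 1) * v (S n (n + 1) (n + 1) (-x 2) (x 0))
        ≤ M * (2 ^ (n + 1 + (n + 1) + 2 * n) * M ^ n) := by
          gcongr
          · exact hx 1
          · exact abv_S_le v _ _ _ (hx' _) (hx _)
      _ = 2 ^ (n + 1 + (n + 1) + 2 * n) * M ^ (n + 1) := by ring
      _ ≤ 16 ^ (n + 1) * M ^ (n + 1) := by
          rw [e]
          gcongr
          · norm_num
          · omega
  · simp only [P, Fin.reduceFinMk, Matrix.cons_val]
    rw [abv_sign]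
    refine (abv_S_le v _ _ _ (hx _) (hx' _)).trans ?_
    rw [e]
    gcongr
    · norm_num
    · omega

lemma abv_Q_le (v : AbsoluteValue K ℝ) (n : ℕ) {x : Fin 3 → K} {M : ℝ} (hx : ∀ i, v (x i) ≤ M)
    (i : Fin 3) : v (Q n x i) ≤ 16 ^ (n + 1) * M ^ (n + 1) := by
  have hM : 0 ≤ M := (v.nonneg _).trans (hx 0)
  have hx' : ∀ i, v (- x i) ≤ M := fun i => by rw [map_neg_eq_map]; exact hx i
  have e : ((16 : ℝ)) ^ (n + 1) = 2 ^ (4 * (n + 1)) := by rw [pow_mul]; norm_num
  fin_cases i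
  · simp only [Q, Fin.zero_eta, Matrix.cons_val_zero]
    rw [abv_sign, map_mul]
    calc v (x 0) * v (S n (n + 1) (n + 1) (x 2) (-x 1))
        ≤ M * (2 ^ (n + 1 + (n + 1) + 2 * n) * M ^ n) := by
          gcongr
          · exact hx 0
          · exact abv_S_le v _ _ _ (hx _) (hx' _)
      _ = 2 ^ (n + 1 + (n + 1) + 2 * n) * M ^ (n + 1) := by ring
      _ ≤ 16 ^ (n + 1) * M ^ (n + 1) := by
          rw [e]
          gcongr
          · norm_num
          · omega
  · simp only [Q, Fin.mk_one, Matrix.cons_val_one, Matrix.cons_val_zero]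
    rw [abv_sign]
    refine (abv_S_le v _ _ _ (hx' _) (hx _)).trans ?_
    rw [e]
    gcongr
    · norm_num
    · omega
  · simp only [Q, Fin.reduceFinMk, Matrix.cons_val]
    rw [abv_sign]
    refine (abv_S_le v _ _ _ (hx _) (hx' _)).trans ?_
    rw [e]
    gcongr
    · norm_num
    · omega

lemma nonarch_P_le {v : AbsoluteValue K ℝ} (hv : IsNonarchimedean v) (n : ℕ) {x : Fin 3 → K} {M : ℝ}
    (hx : ∀ i, v (x i) ≤ M) (i : Fin 3) : v (P n x i) ≤ M ^ (n + 1) := by
  have hM : 0 ≤ M := (v.nonneg _).trans (hx 0)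
  have hx' : ∀ i, v (- x i) ≤ M := fun i => by rw [map_neg_eq_map]; exact hx i
  fin_cases i
  · simp only [P, Fin.zero_eta, Matrix.cons_val_zero]
    rw [abv_sign]
    exact nonarch_S_le hv _ _ _ (hx _) (hx' _)
  · simp only [P, Fin.mk_one, Matrix.cons_val_one, Matrix.cons_val_zero]
    rw [abv_sign, map_mul, pow_succ']
    gcongr
    · exact hx 1
    · exact nonarch_S_le hv _ _ _ (hx' _) (hx _)
  · simp only [P, Fin.reduceFinMk, Matrix.cons_val]
    rw [abv_sign]
    exact nonarch_S_le hv _ _ _ (hx _) (hx' _)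

lemma nonarch_Q_le {v : AbsoluteValue K ℝ} (hv : IsNonarchimedean v) (n : ℕ) {x : Fin 3 → K} {M : ℝ}
    (hx : ∀ i, v (x i) ≤ M) (i : Fin 3) : v (Q n x i) ≤ M ^ (n + 1) := by
  have hM : 0 ≤ M := (v.nonneg _).trans (hx 0)
  have hx' : ∀ i, v (- x i) ≤ M := fun i => by rw [map_neg_eq_map]; exact hx i
  fin_cases i
  · simp only [Q, Fin.zero_eta, Matrix.cons_val_zero]
    rw [abv_sign, map_mul, pow_succ']
    gcongr
    · exact hx 0
    · exact nonarch_S_le hv _ _ _ (hx _) (hx' _)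
  · simp only [Q, Fin.mk_one, Matrix.cons_val_one, Matrix.cons_val_zero]
    rw [abv_sign]
    exact nonarch_S_le hv _ _ _ (hx' _) (hx _)
  · simp only [Q, Fin.reduceFinMk, Matrix.cons_val]
    rw [abv_sign]
    exact nonarch_S_le hv _ _ _ (hx _) (hx' _)

open Height AdmissibleAbsValues Multiset Function

/-- Copy of a private lemma of Mathlib. -/
lemma finSupp_iSup [AdmissibleAbsValues K] {ι : Type*} [Finite ι] {x : ι → K} (hx : x ≠ 0) :
    (fun v : nonarchAbsVal (K := K) ↦ ⨆ i, v.val (x i)).HasFiniteMulSupport := by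
  have : Nonempty {j // x j ≠ 0} := nonempty_subtype.mpr <| ne_iff.mp hx
  suffices (fun v : nonarchAbsVal (K := K) ↦ ⨆ i : {j // x j ≠ 0}, v.val (x i)).HasFiniteMulSupport by
    convert! this with v
    obtain ⟨i, hi⟩ : ∃ j, x j ≠ 0 := Function.ne_iff.mp hx
    have : Nonempty ι := .intro i
    refine le_antisymm (ciSup_le fun j ↦ ?_) (ciSup_le fun ⟨j, hj⟩ ↦ Finite.le_ciSup_of_le j le_rfl)
    rcases eq_or_ne (x j) 0 with h | h
    · rw [h, v.val.map_zero]
      exact Real.iSup_nonneg' ⟨⟨i, hi⟩, v.val.nonneg ..⟩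
    · exact Finite.le_ciSup_of_le ⟨j, h⟩ le_rfl
  fun_prop (disch := grind)

/-- From local bounds to a height bound. -/
lemma mulHeight_le_of_local [AdmissibleAbsValues K] {ι ι' κ : Type*} [Finite ι] [Finite ι']
    [Nonempty ι'] [Finite κ] {x : ι → K} {z : κ → K} {w : ι' → K} (hx : x ≠ 0) (hz : z ≠ 0)
    (hw : w ≠ 0) {C : ℝ} (hC : 0 ≤ C) (N : ℕ)
    (harch : ∀ v ∈ archAbsVal (K := K), ∀ j, v (w j) ≤ C * ((⨆ k, v (z k)) * (⨆ i, v (x i)) ^ N))
    (hna : ∀ v : nonarchAbsVal (K := K), ∀ j,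
      v.val (w j) ≤ (⨆ k, v.val (z k)) * (⨆ i, v.val (x i)) ^ N) :
    mulHeight w ≤ C ^ totalWeight K * mulHeight z * mulHeight x ^ N := by
  simp only [mulHeight_eq hx, mulHeight_eq hz, mulHeight_eq hw]
  have HH₁ (v : AbsoluteValue K ℝ) : 0 ≤ (⨆ i, v (x i)) ^ N :=
    pow_nonneg (Real.iSup_nonneg_of_nonnegHomClass v _) N
  have HH₂ (v : AbsoluteValue K ℝ) : 0 ≤ (⨆ i, v (z i)) := Real.iSup_nonneg_of_nonnegHomClass v _
  have h1 : (archAbsVal.map (fun v : AbsoluteValue K ℝ ↦ ⨆ i, v (w i))).prod ≤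
      C ^ totalWeight K * (archAbsVal.map (fun v : AbsoluteValue K ℝ ↦ ⨆ i, v (z i))).prod *
        (archAbsVal.map (fun v : AbsoluteValue K ℝ ↦ ⨆ i, v (x i))).prod ^ N := by
    have e : C ^ totalWeight K = (archAbsVal.map (fun _ : AbsoluteValue K ℝ ↦ C)).prod := by
      rw [Multiset.map_const', Multiset.prod_replicate, totalWeight]
    rw [e, ← prod_map_pow, ← prod_map_mul, ← prod_map_mul]
    refine prod_map_le_prod_map₀ _ _ (fun _ _ ↦ Real.iSup_nonneg_of_nonnegHomClass ..)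
      fun v hv ↦ ciSup_le fun j ↦ ?_
    rw [mul_assoc]
    exact harch v hv j
  have h2 : ∏ᶠ v : nonarchAbsVal (K := K), ⨆ i, v.val (w i) ≤
      (∏ᶠ v : nonarchAbsVal (K := K), ⨆ i, v.val (z i)) *
        (∏ᶠ v : nonarchAbsVal (K := K), ⨆ i, v.val (x i)) ^ N := by
    have F := finSupp_iSup hx
    have F' := finSupp_iSup hz
    have F'' := finSupp_iSup hw
    rw [finprod_pow F, ← finprod_mul_distrib (by fun_prop) (by fun_prop)]
    exact finprod_le_finprod (by fun_prop)
      (fun _ ↦ Real.iSup_nonneg_of_nonnegHomClass ..) (by fun_prop) fun v ↦ ciSup_le (hna v)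
  have H₂ : 0 ≤ (archAbsVal.map (fun v : AbsoluteValue K ℝ ↦ ⨆ i, v (x i))).prod :=
    prod_map_nonneg fun _ _ ↦ Real.iSup_nonneg_of_nonnegHomClass ..
  have H₂' : 0 ≤ (archAbsVal.map (fun v : AbsoluteValue K ℝ ↦ ⨆ i, v (z i))).prod :=
    prod_map_nonneg fun _ _ ↦ Real.iSup_nonneg_of_nonnegHomClass ..
  have H₃ : 0 ≤ ∏ᶠ v : nonarchAbsVal (K := K), ⨆ i, v.val (w i) :=
    finprod_nonneg fun _ ↦ Real.iSup_nonneg_of_nonnegHomClass ..
  calc _ ≤ (C ^ totalWeight K * (archAbsVal.map (fun v : AbsoluteValue K ℝ ↦ ⨆ i, v (z i))).prod *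
        (archAbsVal.map (fun v : AbsoluteValue K ℝ ↦ ⨆ i, v (x i))).prod ^ N) *
        ((∏ᶠ v : nonarchAbsVal (K := K), ⨆ i, v.val (z i)) *
        (∏ᶠ v : nonarchAbsVal (K := K), ⨆ i, v.val (x i)) ^ N) := by
        gcongr
    _ = _ := by ring

end Pool.Agent.Helper19.UE

end

section

/-!
The key inequality: if `z` is orthogonal to `x ^ (2 (n + 1))`, `x = (t, 1 - t, -1)`, then
`H(x) ^ (n + 1) ≤ C ^ (n + 1) H(z)`.
-/

namespace Pool.Agent.Helper19.UE

variable {K : Type*} [Field K]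

/-- Cross product. -/
def cr (z R : Fin 3 → K) : Fin 3 → K :=
  ![z 1 * R 2 - z 2 * R 1, z 2 * R 0 - z 0 * R 2, z 0 * R 1 - z 1 * R 0]

lemma cr_eq {y z R : Fin 3 → K} (hy : y 2 = 1) (hz : y 0 * z 0 + y 1 * z 1 + y 2 * z 2 = 0)
    (hR : y 0 * R 0 + y 1 * R 1 + y 2 * R 2 = 0) : cr z R = (cr z R 2) • y := by
  rw [hy] at hz hR
  ext i
  fin_cases i
  · simp only [cr, Fin.zero_eta, Matrix.cons_val_zero, Matrix.cons_val, Pi.smul_apply, smul_eq_mul]
    linear_combination z 1 * hR - R 1 * hz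
  · simp only [cr, Fin.mk_one, Matrix.cons_val_one, Matrix.cons_val_zero, Matrix.cons_val,
      Pi.smul_apply, smul_eq_mul]
    linear_combination R 0 * hz - z 0 * hR
  · simp [hy]

open Height AdmissibleAbsValues

variable [AdmissibleAbsValues K]

lemma key_step (n : ℕ) {x z R : Fin 3 → K} (hx2 : x 2 = -1) (hz0 : z ≠ 0)
    (hz : x 0 ^ (2 * (n + 1)) * z 0 + x 1 ^ (2 * (n + 1)) * z 1 + x 2 ^ (2 * (n + 1)) * z 2 = 0)
    (hR : x 0 ^ (2 * (n + 1)) * R 0 + x 1 ^ (2 * (n + 1)) * R 1 + x 2 ^ (2 * (n + 1)) * R 2 = 0)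
    (hRa : ∀ (v : AbsoluteValue K ℝ) {M : ℝ}, (∀ i, v (x i) ≤ M) →
      ∀ i, v (R i) ≤ 16 ^ (n + 1) * M ^ (n + 1))
    (hRn : ∀ (v : AbsoluteValue K ℝ), IsNonarchimedean v → ∀ {M : ℝ}, (∀ i, v (x i) ≤ M) →
      ∀ i, v (R i) ≤ M ^ (n + 1))
    (hw : cr z R ≠ 0) :
    mulHeight x ^ (n + 1) ≤ (2 * 16 ^ (n + 1)) ^ totalWeight K * mulHeight z := by
  have hy : (x ^ (2 * (n + 1))) 2 = 1 := by
    rw [Pi.pow_apply, hx2, pow_mul]
    simp
  have hcr := cr_eq (y := x ^ (2 * (n + 1))) hy (by simpa [Pi.pow_apply] using hz)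
    (by simpa [Pi.pow_apply] using hR)
  have h2 : cr z R 2 ≠ 0 := by
    intro h
    rw [h, zero_smul] at hcr
    exact hw hcr
  have hx : x ≠ 0 := by
    intro h
    rw [h] at hx2
    simp at hx2
  have h1 : mulHeight (cr z R) = mulHeight x ^ (2 * (n + 1)) := by
    rw [hcr, mulHeight_smul_eq_mulHeight _ h2, mulHeight_pow]
  have hsup : ∀ (v : AbsoluteValue K ℝ) (y : Fin 3 → K) (i : Fin 3), v (y i) ≤ ⨆ j, v (y j) :=
    fun v y i => Finite.le_ciSup_of_le i le_rfl
  have h3 : mulHeight (cr z R) ≤ (2 * 16 ^ (n + 1)) ^ totalWeight K * mulHeight z *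
      mulHeight x ^ (n + 1) := by
    refine mulHeight_le_of_local hx hz0 hw (by positivity) (n + 1) ?_ ?_
    · intro v _ j
      have hZ := hsup v z
      have hRR := hRa v (hsup v x)
      set Z := ⨆ j, v (z j)
      set M := ⨆ j, v (x j)
      have hZ0 : 0 ≤ Z := (v.nonneg _).trans (hZ 0)
      have hM0 : 0 ≤ M := (v.nonneg _).trans (hsup v x 0)
      have key : ∀ a b c d : Fin 3, v (z a * R b - z c * R d) ≤
          2 * 16 ^ (n + 1) * (Z * M ^ (n + 1)) := by
        intro a b c d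
        calc v (z a * R b - z c * R d) ≤ v (z a * R b) + v (z c * R d) := by
              rw [sub_eq_add_neg]
              refine (v.add_le _ _).trans ?_
              rw [map_neg_eq_map]
          _ ≤ Z * (16 ^ (n + 1) * M ^ (n + 1)) + Z * (16 ^ (n + 1) * M ^ (n + 1)) := by
              rw [map_mul, map_mul]
              have := v.nonneg (R b)
              have := v.nonneg (R d)
              gcongr
              · exact hZ a
              · exact hRR b
              · exact hZ c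
              · exact hRR d
          _ = _ := by ring
      fin_cases j
      · exact key 1 2 2 1
      · exact key 2 0 0 2
      · exact key 0 1 1 0
    · intro v j
      have hv := AdmissibleAbsValues.isNonarchimedean v.val v.prop
      have hZ := hsup v.val z
      have hRR := hRn v.val hv (hsup v.val x)
      set Z := ⨆ j, v.val (z j)
      set M := ⨆ j, v.val (x j)
      have hZ0 : 0 ≤ Z := (v.val.nonneg _).trans (hZ 0)
      have hM0 : 0 ≤ M := (v.val.nonneg _).trans (hsup v.val x 0)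
      have key : ∀ a b c d : Fin 3, v.val (z a * R b - z c * R d) ≤ Z * M ^ (n + 1) := by
        intro a b c d
        rw [sub_eq_add_neg]
        refine (hv _ _).trans ?_
        rw [map_neg_eq_map, map_mul, map_mul]
        have := v.val.nonneg (R b)
        have := v.val.nonneg (R d)
        refine max_le ?_ ?_
        · gcongr
          · exact hZ a
          · exact hRR b
        · gcongr
          · exact hZ c
          · exact hRR d
      fin_cases j
      · exact key 1 2 2 1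
      · exact key 2 0 0 2
      · exact key 0 1 1 0
  have hpos : 0 < mulHeight x ^ (n + 1) := pow_pos (mulHeight_pos x) _
  rw [h1] at h3
  have h4 : mulHeight x ^ (n + 1) * mulHeight x ^ (n + 1) ≤
      ((2 * 16 ^ (n + 1)) ^ totalWeight K * mulHeight z) * mulHeight x ^ (n + 1) := by
    rw [← pow_add, ← two_mul]
    exact h3
  exact le_of_mul_le_mul_right h4 hpos

/-- The key inequality. -/
theorem key [CharZero K] (n : ℕ) {t : K} (ht0 : t ≠ 0) (ht1 : t ≠ 1) {z : Fin 3 → K} (hz0 : z ≠ 0)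
    (hz : t ^ (2 * (n + 1)) * z 0 + (1 - t) ^ (2 * (n + 1)) * z 1 + z 2 = 0) :
    mulHeight ![t, 1 - t, -1] ^ (n + 1) ≤ (2 * 16 ^ (n + 1)) ^ totalWeight K * mulHeight z := by
  have hsum : (![t, 1 - t, -1] : Fin 3 → K) 0 + (![t, 1 - t, -1] : Fin 3 → K) 1 +
      (![t, 1 - t, -1] : Fin 3 → K) 2 = 0 := by simp
  have h1 : (![t, 1 - t, -1] : Fin 3 → K) 1 ≠ 0 := by
    simpa using sub_ne_zero.2 (Ne.symm ht1)
  have h2 : (![t, 1 - t, -1] : Fin 3 → K) 2 ≠ 0 := by simp
  have hP := P_orth_field n ![t, 1 - t, -1] hsum (by simpa using ht0) h1 h2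
  have hQ := Q_orth_field n ![t, 1 - t, -1] hsum (by simpa using ht0) h1 h2
  have hz' : (![t, 1 - t, -1] : Fin 3 → K) 0 ^ (2 * (n + 1)) * z 0 +
      (![t, 1 - t, -1] : Fin 3 → K) 1 ^ (2 * (n + 1)) * z 1 +
      (![t, 1 - t, -1] : Fin 3 → K) 2 ^ (2 * (n + 1)) * z 2 = 0 := by
    simp only [Matrix.cons_val_zero, Matrix.cons_val_one, Matrix.cons_val]
    rw [pow_mul (-1 : K)]
    simpa using hz
  by_cases hp : cr z (P n ![t, 1 - t, -1]) = 0
  · by_cases hq : cr z (Q n ![t, 1 - t, -1]) = 0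
    · exfalso
      apply minor_ne n t
      set p := P n ![t, 1 - t, -1]
      set q := Q n ![t, 1 - t, -1]
      have p0 := congrFun hp 0
      have p1 := congrFun hp 1
      have p2 := congrFun hp 2
      have q0 := congrFun hq 0
      have q1 := congrFun hq 1
      have q2 := congrFun hq 2
      simp only [cr, Matrix.cons_val_zero, Matrix.cons_val_one, Matrix.cons_val, Pi.zero_apply]
        at p0 p1 p2 q0 q1 q2
      have e0 : z 0 * (p 0 * q 1 - p 1 * q 0) = 0 := by
        linear_combination p 0 * q2 - q 0 * p2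
      have e1 : z 1 * (p 0 * q 1 - p 1 * q 0) = 0 := by
        linear_combination p 1 * q2 - q 1 * p2
      by_contra hne
      have z0 : z 0 = 0 := (mul_eq_zero.1 e0).resolve_right hne
      have z1 : z 1 = 0 := (mul_eq_zero.1 e1).resolve_right hne
      have e2 : z 2 * (p 0 * q 1 - p 1 * q 0) = 0 := by
        linear_combination q 1 * p1 + q 0 * p0 + p 2 * q 1 * z0 - p 2 * q 0 * z1
      apply hz0
      ext i
      fin_cases i
      · exact z0
      · exact z1
      · exact (mul_eq_zero.1 e2).resolve_right hne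
    · exact key_step n (by simp) hz0 hz' hQ (fun v M h => abv_Q_le v n h)
        (fun v hv M h => nonarch_Q_le hv n h) hq
  · exact key_step n (by simp) hz0 hz' hP (fun v M h => abv_P_le v n h)
      (fun v hv M h => nonarch_P_le hv n h) hp

end Pool.Agent.Helper19.UE

end

section

/-!
Finiteness for the unit equation over a field with a Northcott height.
-/

namespace Pool.Agent.Helper19.UE

open Height AdmissibleAbsValues

variable {K : Type*} [Field K] [AdmissibleAbsValues K]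

lemma le_h1_arch {v : AbsoluteValue K ℝ} (hv : v ∈ archAbsVal (K := K)) (x : K) :
    v x ≤ mulHeight₁ x := by
  classical
  rw [mulHeight₁_eq]
  obtain ⟨t, ht⟩ := Multiset.exists_cons_of_mem hv
  rw [ht, Multiset.map_cons, Multiset.prod_cons]
  have h1 : 1 ≤ (t.map fun v ↦ max (v x) 1).prod := Multiset.one_le_prod_map fun _ _ ↦ le_max_right ..
  have h2 : 1 ≤ ∏ᶠ v : nonarchAbsVal (K := K), max (v.val x) 1 :=
    one_le_finprod fun _ ↦ le_max_right ..
  have h3 : v x ≤ max (v x) 1 := le_max_left _ _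
  have h4 : 0 ≤ max (v x) 1 := zero_le_one.trans (le_max_right _ _)
  calc v x ≤ max (v x) 1 := h3
    _ = max (v x) 1 * 1 * 1 := by ring
    _ ≤ _ := by gcongr

lemma le_h1_nonarch (v : nonarchAbsVal (K := K)) (x : K) : v.val x ≤ mulHeight₁ x := by
  classical
  by_cases hx : x = 0
  · rw [hx, map_zero]
    exact zero_le_one.trans (one_le_mulHeight₁ _)
  rw [mulHeight₁_eq]
  have h1 : 1 ≤ (archAbsVal.map fun v : AbsoluteValue K ℝ ↦ max (v x) 1).prod :=
    Multiset.one_le_prod_map fun _ _ ↦ le_max_right ..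
  have hf : (fun v : nonarchAbsVal (K := K) ↦ max (v.val x) 1).HasFiniteMulSupport := by
    have := AdmissibleAbsValues.hasFiniteMulSupport hx
    refine this.subset fun w hw => ?_
    rw [Function.mem_mulSupport] at hw ⊢
    intro h
    apply hw
    rw [h, max_self]
  have h2 : max (v.val x) 1 ≤ ∏ᶠ v : nonarchAbsVal (K := K), max (v.val x) 1 := by
    have hs : (fun v : nonarchAbsVal (K := K) ↦ max (v.val x) 1).mulSupport ⊆
        ((insert v hf.toFinset : Finset _) : Set _) := by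
      intro w hw
      rw [Finset.coe_insert]
      exact Or.inr (by simpa using hw)
    rw [finprod_eq_finsetProd_of_mulSupport_subset _ hs,
      ← Finset.mul_prod_erase _ _ (Finset.mem_insert_self v _)]
    have : 1 ≤ ∏ w ∈ (insert v hf.toFinset).erase v, max (w.val x) 1 :=
      Finset.one_le_prod fun _ _ => le_max_right _ _
    calc max (v.val x) 1 = max (v.val x) 1 * 1 := by ring
      _ ≤ _ := by
        have := (zero_le_one (α := ℝ)).trans (le_max_right (v.val x) 1)
        gcongr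
  calc v.val x ≤ max (v.val x) 1 := le_max_left _ _
    _ = 1 * max (v.val x) 1 := by ring
    _ ≤ _ := by
        have := (zero_le_one (α := ℝ)).trans (le_max_right (v.val x) 1)
        gcongr

lemma h1_le (X : Fin 3 → K) (h2 : X 2 = -1) (i : Fin 3) : mulHeight₁ (X i) ≤ mulHeight X := by
  have h := mulHeight_comp_le ![i, 2] X
  have e : X ∘ ![i, 2] = -![-X i, 1] := by
    ext j
    fin_cases j
    · simp
    · simp [h2]
  rw [e, mulHeight_neg, ← mulHeight₁_eq_mulHeight, mulHeight₁_neg] at h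
  exact h

/-- Bound for the height of a triple by a bound at finitely many places. -/
lemma mulHeight_le_pow {ι : Type*} [Finite ι] [Nonempty ι] {z : ι → K} (hz : z ≠ 0)
    (S : Finset (nonarchAbsVal (K := K))) {E : ℝ} (hE : 0 < E)
    (ha : ∀ v ∈ archAbsVal (K := K), ∀ i, v (z i) ≤ E)
    (hS : ∀ v ∈ S, ∀ i, v.val (z i) ≤ E)
    (hn : ∀ v : nonarchAbsVal (K := K), v ∉ S → ∀ i, v.val (z i) ≤ 1) :
    mulHeight z ≤ E ^ (totalWeight K + S.card) := by
  classical
  rw [mulHeight_eq hz, pow_add]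
  have h1 : (archAbsVal.map (fun v : AbsoluteValue K ℝ ↦ ⨆ i, v (z i))).prod ≤
      E ^ totalWeight K := by
    have e : E ^ totalWeight K = (archAbsVal.map (fun _ : AbsoluteValue K ℝ ↦ E)).prod := by
      rw [Multiset.map_const', Multiset.prod_replicate, totalWeight]
    rw [e]
    exact Multiset.prod_map_le_prod_map₀ _ _ (fun _ _ ↦ Real.iSup_nonneg_of_nonnegHomClass ..)
      fun v hv ↦ ciSup_le fun j ↦ ha v hv j
  have h2 : ∏ᶠ v : nonarchAbsVal (K := K), ⨆ i, v.val (z i) ≤ E ^ S.card := by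
    have e : E ^ S.card = ∏ᶠ v : nonarchAbsVal (K := K), (if v ∈ S then E else 1) := by
      rw [finprod_eq_finsetProd_of_mulSupport_subset (s := S)]
      · rw [← Finset.prod_const]
        exact Finset.prod_congr rfl fun v hv => by rw [if_pos hv]
      · intro v hv
        rw [Function.mem_mulSupport] at hv
        by_contra h
        exact hv (if_neg (by simpa using h))
    rw [e]
    refine finprod_le_finprod (finSupp_iSup hz) (fun _ ↦ Real.iSup_nonneg_of_nonnegHomClass ..) ?_ ?_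
    · refine (S.finite_toSet).subset fun v hv => ?_
      rw [Function.mem_mulSupport] at hv
      by_contra h
      exact hv (if_neg (by simpa using h))
    · intro v
      dsimp only
      by_cases hv : v ∈ S
      · rw [if_pos hv]
        exact ciSup_le fun j ↦ hS v hv j
      · rw [if_neg hv]
        exact ciSup_le fun j ↦ hn v hv j
  have h3 : 0 ≤ ∏ᶠ v : nonarchAbsVal (K := K), ⨆ i, v.val (z i) :=
    finprod_nonneg fun _ ↦ Real.iSup_nonneg_of_nonnegHomClass ..
  gcongr

end Pool.Agent.Helper19.UE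

end

section

/-!
The unit equation `u + v = 1` has finitely many solutions in `S`-units.
-/

namespace Pool.Agent.Helper19.UE

open Height AdmissibleAbsValues

variable {K : Type*} [Field K] [AdmissibleAbsValues K]

/-- The point `(u, 1 - u, -1)`. -/
def tri (u : K) : Fin 3 → K := ![u, 1 - u, -1]

lemma tri_two (u : K) : tri u 2 = -1 := by simp [tri]

lemma tri_ne {u : K} (h0 : u ≠ 0) (h1 : u ≠ 1) (i : Fin 3) : tri u i ≠ 0 := by
  fin_cases i
  · simpa [tri] using h0
  · simpa [tri] using sub_ne_zero.2 (Ne.symm h1)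
  · simp [tri]

/-- The height of `(u, 1 - u, -1)`. -/
noncomputable def ht (u : K) : ℝ := Real.log (mulHeight (tri u))

lemma exp_ht (u : K) : Real.exp (ht u) = mulHeight (tri u) := Real.exp_log (mulHeight_pos _)

lemma ht_nonneg (u : K) : 0 ≤ ht u := Real.log_nonneg (one_le_mulHeight _)

/-- A place at which we look: archimedean, or nonarchimedean in `S`. -/
def Look (v : AbsoluteValue K ℝ) : Prop :=
  v ∈ archAbsVal (K := K) ∨ v ∈ nonarchAbsVal (K := K)

lemma Look.le {v : AbsoluteValue K ℝ} (hv : Look v) (x : K) : v x ≤ mulHeight₁ x := by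
  rcases hv with hv | hv
  · exact le_h1_arch hv x
  · exact le_h1_nonarch ⟨v, hv⟩ x

lemma abs_log_le {v : AbsoluteValue K ℝ} (hv : Look v) {u : K} (h0 : u ≠ 0) (h1 : u ≠ 1)
    (i : Fin 3) : |Real.log (v (tri u i))| ≤ ht u := by
  have hne := tri_ne h0 h1 i
  have hpos : 0 < v (tri u i) := v.pos hne
  have hb := h1_le (tri u) (tri_two u) i
  rw [abs_le]
  constructor
  · have h := (hv.le (tri u i)⁻¹).trans_eq (mulHeight₁_inv _)
    rw [map_inv₀] at h
    have := Real.log_le_log (inv_pos.2 hpos) (h.trans hb)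
    rw [Real.log_inv] at this
    have : -Real.log (v (tri u i)) ≤ ht u := this
    linarith
  · exact Real.log_le_log hpos ((hv.le _).trans hb)

/-- The direction of the log vector. -/
noncomputable def dir (u : K) (v : AbsoluteValue K ℝ) (i : Fin 3) : ℝ :=
  Real.log (v (tri u i)) / ht u

lemma abs_dir_le {v : AbsoluteValue K ℝ} (hv : Look v) {u : K} (h0 : u ≠ 0) (h1 : u ≠ 1)
    (i : Fin 3) : |dir u v i| ≤ 1 := by
  unfold dir
  rw [abs_div, abs_of_nonneg (ht_nonneg u)]
  exact div_le_one_of_le₀ (abs_log_le hv h0 h1 i) (ht_nonneg u)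

lemma log_eq {u : K} (h : 0 < ht u) (v : AbsoluteValue K ℝ) (i : Fin 3) :
    Real.log (v (tri u i)) = ht u * dir u v i := by
  unfold dir
  field_simp

/-- The main estimate. -/
lemma main_step [CharZero K] (S : Finset (nonarchAbsVal (K := K))) {x y : K}
    (hx0 : x ≠ 0) (hx1 : x ≠ 1) (hy0 : y ≠ 0) (hy1 : y ≠ 1)
    (hxS : ∀ v : nonarchAbsVal (K := K), v ∉ S → v.val x = 1 ∧ v.val (1 - x) = 1)
    (hyS : ∀ v : nonarchAbsVal (K := K), v ∉ S → v.val y = 1 ∧ v.val (1 - y) = 1)
    {ε : ℝ} (hε : 0 ≤ ε)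
    (hdir : ∀ v : AbsoluteValue K ℝ, (v ∈ archAbsVal (K := K) ∨ ∃ w ∈ S, w.val = v) → ∀ i,
      |dir y v i - dir x v i| ≤ ε)
    (hxp : 0 < ht x) (n : ℕ) (hle : 2 * (n + 1) * ht x ≤ ht y)
    (hlt : ht y ≤ 2 * (n + 1) * ht x + 2 * ht x) :
    (n + 1) * ht x ≤ 4 * (n + 1) * (totalWeight K + S.card : ℕ) +
      (totalWeight K + S.card : ℕ) * (ht x * (2 + 2 * (n + 1) * ε)) := by
  set w := totalWeight K + S.card with hw
  set B := ht x * (2 + 2 * (n + 1) * ε) with hB
  have hyp : 0 < ht y := lt_of_lt_of_le (by positivity) hle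
  set z : Fin 3 → K := fun i => tri y i / tri x i ^ (2 * (n + 1)) with hz
  have hxn := tri_ne hx0 hx1
  have hyn := tri_ne hy0 hy1
  have hz0 : z ≠ 0 := by
    intro h
    have := congrFun h 0
    simp only [hz, Pi.zero_apply, div_eq_zero_iff] at this
    rcases this with h' | h'
    · exact hyn 0 h'
    · exact pow_ne_zero _ (hxn 0) h'
  have hlook : ∀ v : AbsoluteValue K ℝ, (v ∈ archAbsVal (K := K) ∨ ∃ w ∈ S, w.val = v) → Look v := by
    rintro v (h | ⟨w, _, rfl⟩)
    · exact Or.inl h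
    · exact Or.inr w.prop
  have hloc : ∀ v : AbsoluteValue K ℝ, (v ∈ archAbsVal (K := K) ∨ ∃ w ∈ S, w.val = v) → ∀ i,
      v (z i) ≤ Real.exp B := by
    intro v hv i
    have hvz : 0 < v (z i) := v.pos (div_ne_zero (hyn i) (pow_ne_zero _ (hxn i)))
    rw [← Real.log_le_iff_le_exp hvz]
    have e : Real.log (v (z i)) = Real.log (v (tri y i)) - 2 * (n + 1) * Real.log (v (tri x i)) := by
      simp only [hz]
      rw [map_div₀, map_pow, Real.log_div (v.pos (hyn i)).ne' (pow_pos (v.pos (hxn i)) _).ne',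
        Real.log_pow]
      push_cast
      ring
    rw [e, log_eq hyp, log_eq hxp]
    have h1 := abs_dir_le (hlook v hv) hy0 hy1 i
    have h2 := hdir v hv i
    have h3 : (ht y - 2 * (n + 1) * ht x) * dir y v i ≤ 2 * ht x := by
      calc (ht y - 2 * (n + 1) * ht x) * dir y v i
          ≤ (ht y - 2 * (n + 1) * ht x) * 1 := by
            apply mul_le_mul_of_nonneg_left ((le_abs_self _).trans h1)
            linarith
        _ ≤ 2 * ht x := by linarith
    have h4 : 2 * (n + 1) * ht x * (dir y v i - dir x v i) ≤ 2 * (n + 1) * ht x * ε := by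
      apply mul_le_mul_of_nonneg_left ((le_abs_self _).trans h2)
      positivity
    calc ht y * dir y v i - 2 * (n + 1) * (ht x * dir x v i)
        = (ht y - 2 * (n + 1) * ht x) * dir y v i +
            2 * (n + 1) * ht x * (dir y v i - dir x v i) := by ring
      _ ≤ 2 * ht x + 2 * (n + 1) * ht x * ε := add_le_add h3 h4
      _ = B := by rw [hB]; ring
  have hmz : mulHeight z ≤ Real.exp B ^ w := by
    refine mulHeight_le_pow hz0 S (Real.exp_pos B) (fun v hv i => hloc v (Or.inl hv) i)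
      (fun v hv i => hloc v.val (Or.inr ⟨v, hv, rfl⟩) i) ?_
    intro v hv i
    have hX := hxS v hv
    have hY := hyS v hv
    have e : ∀ (u : K) (hu : v.val u = 1 ∧ v.val (1 - u) = 1), v.val (tri u i) = 1 := by
      intro u hu
      fin_cases i
      · simpa [tri] using hu.1
      · simpa [tri] using hu.2
      · simp [tri]
    simp only [hz]
    rw [map_div₀, map_pow, e y hY, e x hX]
    simp
  have horth : x ^ (2 * (n + 1)) * z 0 + (1 - x) ^ (2 * (n + 1)) * z 1 + z 2 = 0 := by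
    have p0 := pow_ne_zero (2 * (n + 1)) (hxn 0)
    have p1 := pow_ne_zero (2 * (n + 1)) (hxn 1)
    have e0 : x ^ (2 * (n + 1)) * z 0 = y := by
      simp only [hz]
      have : tri x 0 = x := rfl
      rw [this] at p0 ⊢
      have : tri y 0 = y := rfl
      rw [this]
      field_simp
    have e1 : (1 - x) ^ (2 * (n + 1)) * z 1 = 1 - y := by
      simp only [hz]
      have : tri x 1 = 1 - x := rfl
      rw [this] at p1 ⊢
      have : tri y 1 = 1 - y := rfl
      rw [this]
      field_simp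
    have e2 : z 2 = -1 := by
      simp only [hz, tri_two]
      rw [pow_mul]
      simp
    rw [e0, e1, e2]
    ring
  have hkey := key n hx0 hx1 hz0 horth
  have hkey' : Real.exp (ht x) ^ (n + 1) ≤ (2 * 16 ^ (n + 1)) ^ totalWeight K * Real.exp B ^ w := by
    rw [exp_ht]
    calc mulHeight (tri x) ^ (n + 1) ≤ (2 * 16 ^ (n + 1)) ^ totalWeight K * mulHeight z := hkey
      _ ≤ _ := by gcongr
  have hlog := Real.log_le_log (by positivity) hkey'
  rw [Real.log_pow, Real.log_exp, Real.log_mul (by positivity) (by positivity), Real.log_pow,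
    Real.log_pow, Real.log_exp, Real.log_mul (by norm_num) (by positivity), Real.log_pow] at hlog
  have hl2 : Real.log 2 ≤ 0.7 := by
    have := Real.log_two_lt_d9
    linarith
  have hl16 : Real.log 16 = 4 * Real.log 2 := by
    rw [show (16 : ℝ) = 2 ^ 4 by norm_num, Real.log_pow]
    norm_num
  have hl0 : 0 ≤ Real.log 2 := Real.log_nonneg (by norm_num)
  have hb : Real.log 2 + ((n + 1 : ℕ) : ℝ) * Real.log 16 ≤ 4 * (n + 1) := by
    rw [hl16]
    push_cast
    have hn : (0 : ℝ) ≤ n := Nat.cast_nonneg n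
    nlinarith
  have htw : ((totalWeight K : ℕ) : ℝ) ≤ (w : ℕ) := by
    rw [hw]
    exact_mod_cast Nat.le_add_right _ _
  have htw0 : (0 : ℝ) ≤ (totalWeight K : ℕ) := Nat.cast_nonneg _
  have hn0 : (0 : ℝ) ≤ 4 * (n + 1) := by positivity
  have h1 : ((totalWeight K : ℕ) : ℝ) * (Real.log 2 + ((n + 1 : ℕ) : ℝ) * Real.log 16) ≤
      (w : ℕ) * (4 * (n + 1)) := by
    calc _ ≤ ((totalWeight K : ℕ) : ℝ) * (4 * (n + 1)) := mul_le_mul_of_nonneg_left hb htw0
      _ ≤ _ := mul_le_mul_of_nonneg_right htw hn0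
  push_cast at hlog h1 ⊢
  linarith

/-- Finiteness for the unit equation. -/
theorem unit_finite [CharZero K] [Northcott (mulHeight₁ (K := K))]
    (S : Finset (nonarchAbsVal (K := K))) :
    {u : K | u ≠ 0 ∧ u ≠ 1 ∧ ∀ v : nonarchAbsVal (K := K), v ∉ S →
      v.val u = 1 ∧ v.val (1 - u) = 1}.Finite := by
  classical
  set Sg := {u : K | u ≠ 0 ∧ u ≠ 1 ∧ ∀ v : nonarchAbsVal (K := K), v ∉ S →
      v.val u = 1 ∧ v.val (1 - u) = 1} with hSg
  by_contra hinf
  set w := totalWeight K + S.card with hw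
  set ε : ℝ := 1 / (8 * (w + 1)) with hε
  have hεp : 0 < ε := by positivity
  let W : Finset (AbsoluteValue K ℝ) := (archAbsVal (K := K)).toFinset ∪ S.image Subtype.val
  have hWlook : ∀ v ∈ W, Look v := by
    intro v hv
    rcases Finset.mem_union.1 hv with h | h
    · exact Or.inl (Multiset.mem_toFinset.1 h)
    · obtain ⟨a, _, rfl⟩ := Finset.mem_image.1 h
      exact Or.inr a.prop
  let f : K → (W × Fin 3 → ℤ) := fun u p => ⌊dir u p.1.val p.2 / ε⌋
  have himg : (f '' Sg).Finite := by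
    refine (Set.finite_Icc (fun _ : W × Fin 3 => ⌊-1 / ε⌋) (fun _ => ⌊1 / ε⌋)).subset ?_
    rintro _ ⟨u, hu, rfl⟩
    constructor <;>
    · intro p
      have := abs_le.1 (abs_dir_le (hWlook p.1.val p.1.prop) hu.1 hu.2.1 p.2)
      apply Int.floor_le_floor
      apply div_le_div_of_nonneg_right _ hεp.le
      first | exact this.1 | exact this.2
  obtain ⟨c, hc⟩ : ∃ c, ¬ (Sg ∩ f ⁻¹' {c}).Finite := by
    by_contra h
    push Not at h
    exact hinf (Set.Finite.of_finite_fibers f himg fun c _ => h c)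
  have hunb : ∀ B : ℝ, ∃ u ∈ Sg ∩ f ⁻¹' {c}, B < ht u := by
    intro B
    by_contra h
    push Not at h
    apply hc
    refine (Northcott.finite_le (h := mulHeight₁ (K := K)) (Real.exp B)).subset fun u hu => ?_
    have h1 := h u hu
    have h2 := h1_le (tri u) (tri_two u) 0
    calc mulHeight₁ u ≤ mulHeight (tri u) := h2
      _ = Real.exp (ht u) := (exp_ht u).symm
      _ ≤ Real.exp B := Real.exp_le_exp.2 h1
  obtain ⟨x, ⟨hxS, hxc⟩, hxB⟩ := hunb (16 * (w + 1))
  have hxp : 0 < ht x := lt_trans (by positivity) hxB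
  obtain ⟨y, ⟨hyS, hyc⟩, hyB⟩ := hunb ((8 * w + 4) * ht x)
  have hdir : ∀ v : AbsoluteValue K ℝ, (v ∈ archAbsVal (K := K) ∨ ∃ w ∈ S, w.val = v) → ∀ i,
      |dir y v i - dir x v i| ≤ ε := by
    intro v hv i
    have hvW : v ∈ W := by
      rcases hv with h | ⟨a, ha, rfl⟩
      · exact Finset.mem_union_left _ (Multiset.mem_toFinset.2 h)
      · exact Finset.mem_union_right _ (Finset.mem_image_of_mem _ ha)
    have e : f y = f x := by
      rw [Set.mem_preimage, Set.mem_singleton_iff] at hxc hyc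
      rw [hxc, hyc]
    have e' := congrFun e (⟨v, hvW⟩, i)
    simp only [f] at e'
    have := Int.abs_sub_lt_one_of_floor_eq_floor e'
    rw [← sub_div, abs_div, abs_of_pos hεp, div_lt_one hεp] at this
    exact this.le
  set N := ⌊ht y / (2 * ht x)⌋₊ with hN
  have h2x : 0 < 2 * ht x := by positivity
  have hNle : (N : ℝ) ≤ ht y / (2 * ht x) := Nat.floor_le (by have := ht_nonneg y; positivity)
  have hNlt : ht y / (2 * ht x) < N + 1 := Nat.lt_floor_add_one _
  have hNbig : 4 * w + 1 ≤ N := by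
    apply Nat.le_floor
    rw [le_div_iff₀ h2x]
    push_cast
    nlinarith
  obtain ⟨n, hn⟩ : ∃ n, N = n + 1 := ⟨N - 1, by omega⟩
  rw [hn] at hNle hNlt hNbig
  push_cast at hNle hNlt
  rw [le_div_iff₀ h2x] at hNle
  rw [div_lt_iff₀ h2x] at hNlt
  have hfin := main_step S hxS.1 hxS.2.1 hyS.1 hyS.2.1 hxS.2.2 hyS.2.2 hεp.le hdir hxp n
    (by linarith) (by linarith)
  rw [← hw] at hfin
  have hbig : (4 * w + 1 : ℝ) ≤ n + 1 := by exact_mod_cast hNbig
  have hw0 : (0 : ℝ) ≤ w := Nat.cast_nonneg _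
  have hwe : (w : ℝ) * (2 * (n + 1) * ε) ≤ (n + 1) / 4 := by
    rw [hε]
    rw [mul_one_div, mul_div_assoc', div_le_div_iff₀ (by positivity) (by norm_num)]
    have : (0 : ℝ) ≤ n := Nat.cast_nonneg n
    nlinarith
  have h5 : (w : ℝ) * (ht x * (2 + 2 * (n + 1) * ε)) ≤ 2 * w * ht x + ht x * ((n + 1) / 4) := by
    have := mul_le_mul_of_nonneg_left hwe hxp.le
    linarith
  have h6 : 4 * ((n : ℝ) + 1) * w ≤ (n + 1) * (ht x / 4) := by
    have : (4 : ℝ) * w ≤ ht x / 4 := by linarith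
    have hn1 : (0 : ℝ) ≤ (n : ℝ) + 1 := by positivity
    nlinarith
  nlinarith

end Pool.Agent.Helper19.UE

end

section

/-!
The S-unit equation over a number field.
-/

namespace Pool.Agent.Helper19.UE

open Height AdmissibleAbsValues Polynomial

lemma abv_integral_le {K : Type*} [Field K] {v : AbsoluteValue K ℝ} (hv : IsNonarchimedean v)
    {x : K} (hx : IsIntegral ℤ x) : v x ≤ 1 := by
  obtain ⟨p, hp, hpx⟩ := hx
  by_contra hlt
  push Not at hlt
  have hn : p.natDegree ≠ 0 := by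
    intro h
    have h1 : p = 1 := hp.natDegree_eq_zero.1 h
    rw [h1] at hpx
    simp at hpx
  rw [eval₂_eq_sum_range, Finset.sum_range_succ, hp.coeff_natDegree, map_one, one_mul] at hpx
  have e : x ^ p.natDegree = -∑ i ∈ Finset.range p.natDegree, algebraMap ℤ K (p.coeff i) * x ^ i := by
    linear_combination hpx
  obtain ⟨i, hi, h⟩ := hv.finset_image_add_of_nonempty
    (fun i => algebraMap ℤ K (p.coeff i) * x ^ i) (t := Finset.range p.natDegree)
    ⟨0, Finset.mem_range.2 (Nat.pos_of_ne_zero hn)⟩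
  have h1 : v x ^ p.natDegree ≤ v x ^ i := by
    calc v x ^ p.natDegree = v (∑ i ∈ Finset.range p.natDegree, algebraMap ℤ K (p.coeff i) * x ^ i) := by
          rw [← map_pow, e, map_neg_eq_map]
      _ ≤ v (algebraMap ℤ K (p.coeff i) * x ^ i) := h
      _ ≤ 1 * v x ^ i := by
          rw [map_mul, map_pow]
          have := hv.apply_intCast_le_one (n := p.coeff i)
          have h0 : 0 ≤ v x := v.nonneg _
          gcongr
          simpa using this
      _ = v x ^ i := one_mul _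
  have h2 : v x ^ i < v x ^ p.natDegree := pow_lt_pow_right₀ hlt (Finset.mem_range.1 hi)
  exact absurd h1 (not_le.2 h2)

/-- The S-unit equation `u + v = 1` over a number field has finitely many solutions. -/
theorem sunit_finite {K : Type*} [Field K] [NumberField K] (M : ℕ) (hM : M ≠ 0) :
    {u : K | u ≠ 0 ∧ 1 - u ≠ 0 ∧ (∃ n : ℕ, IsIntegral ℤ ((M : K) ^ n * u)) ∧
      (∃ n : ℕ, IsIntegral ℤ ((M : K) ^ n * u⁻¹)) ∧
      (∃ n : ℕ, IsIntegral ℤ ((M : K) ^ n * (1 - u))) ∧
      ∃ n : ℕ, IsIntegral ℤ ((M : K) ^ n * (1 - u)⁻¹)}.Finite := by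
  have hMK : (M : K) ≠ 0 := Nat.cast_ne_zero.2 hM
  have hfin := AdmissibleAbsValues.hasFiniteMulSupport hMK
  refine (unit_finite (K := K) hfin.toFinset).subset ?_
  rintro u ⟨h0, h1, h2, h3, h4, h5⟩
  refine ⟨h0, fun h => h1 (by rw [h, sub_self]), fun v hv => ?_⟩
  have hvM : v.val (M : K) = 1 := by
    by_contra h
    exact hv (by simpa using h)
  have key : ∀ z : K, z ≠ 0 → (∃ n : ℕ, IsIntegral ℤ ((M : K) ^ n * z)) →
      (∃ n : ℕ, IsIntegral ℤ ((M : K) ^ n * z⁻¹)) → v.val z = 1 := by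
    rintro z hz ⟨n, hn⟩ ⟨m, hm⟩
    have hv' := AdmissibleAbsValues.isNonarchimedean v.val v.prop
    have a := abv_integral_le hv' hn
    have b := abv_integral_le hv' hm
    rw [map_mul, map_pow, hvM, one_pow, one_mul] at a b
    rw [map_inv₀] at b
    have hp : 0 < v.val z := v.val.pos hz
    exact le_antisymm a ((inv_le_one₀ hp).1 b)
  exact ⟨key u h0 h2 h3, key (1 - u) h1 h4 h5⟩

end Pool.Agent.Helper19.UE

end
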