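import Mathlib
import Pool.Agent.Helper74.MG.T30
import Pool.Agent.Helper74.MG.T08

section

/-!
Units of finitely generated domains of characteristic zero: finitely many number-field points
separate the units from `1`.  Support file for MP_26d9ad_nt.
-/

namespace Pool.Agent.Helper8.UnitSep

section infinity

open WithZero IsDedekindDomain


noncomputable def degVal (n : ℕ) : Valuation (MvPolynomial (Fin n) ℚ) ℤᵐ⁰ where
  toFun p := if p = 0 then 0 else WithZero.exp (p.totalDegree : ℤ)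
  map_zero' := by simp
  map_one' := by simp
  map_mul' x y := by
    by_cases hx : x = 0
    · simp [hx]
    by_cases hy : y = 0
    · simp [hy]
    rw [if_neg (mul_ne_zero hx hy), if_neg hx, if_neg hy,
      MvPolynomial.totalDegree_mul_of_isDomain hx hy, ← WithZero.exp_add]
    push_cast
    rfl
  map_add_le_max' x y := by
    by_cases hx : x = 0
    · simp [hx]
    by_cases hy : y = 0
    · simp [hy]
    by_cases hxy : x + y = 0
    · simp [hxy]
    rw [if_neg hxy, if_neg hx, if_neg hy]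
    have h := MvPolynomial.totalDegree_add x y
    rcases le_max_iff.mp h with h | h
    · exact le_max_of_le_left (by rw [WithZero.exp_le_exp]; exact_mod_cast h)
    · exact le_max_of_le_right (by rw [WithZero.exp_le_exp]; exact_mod_cast h)

theorem degVal_apply (n : ℕ) (p : MvPolynomial (Fin n) ℚ) (hp : p ≠ 0) :
    degVal n p = WithZero.exp (p.totalDegree : ℤ) := if_neg hp

noncomputable def fracVal (n : ℕ) : Valuation (FractionRing (MvPolynomial (Fin n) ℚ)) ℤᵐ⁰ :=
  (degVal n).extendToLocalization (S := nonZeroDivisors _) (by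
    intro x hx
    have hx0 := nonZeroDivisors.ne_zero hx
    simp only [Ideal.primeCompl, Submonoid.mem_mk, Subsemigroup.mem_mk]
    intro hmem
    have : degVal n x = 0 := hmem
    rw [degVal_apply n x hx0] at this
    exact WithZero.exp_ne_zero this) _

theorem fracVal_algebraMap (n : ℕ) (p : MvPolynomial (Fin n) ℚ) :
    fracVal n (algebraMap _ _ p) = degVal n p :=
  Valuation.extendToLocalization_apply_map_apply _ _ _ _

theorem degree_le_zero (n : ℕ) (p : MvPolynomial (Fin n) ℚ) (h : degVal n p ≤ 1) :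
    ∃ c : ℚ, p = MvPolynomial.C c := by
  by_cases hp : p = 0
  · exact ⟨0, by simp [hp]⟩
  rw [degVal_apply n p hp, ← WithZero.exp_zero, WithZero.exp_le_exp] at h
  have h0 : p.totalDegree = 0 := by exact_mod_cast le_antisymm h (by positivity)
  rw [MvPolynomial.totalDegree_eq_zero_iff_eq_C] at h0
  exact ⟨_, h0⟩

instance (n : ℕ) [NeZero n] : Valuation.IsNontrivial (fracVal n) := by
  refine ⟨algebraMap (MvPolynomial (Fin n) ℚ) _ (MvPolynomial.X 0), ?_, ?_⟩
  · rw [fracVal_algebraMap, degVal_apply _ _ (MvPolynomial.X_ne_zero _)]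
    exact WithZero.exp_ne_zero
  · rw [fracVal_algebraMap, degVal_apply _ _ (MvPolynomial.X_ne_zero _), MvPolynomial.totalDegree_X]
    simp

instance (n : ℕ) : IsCyclic (MonoidWithZeroHom.valueGroup (.ofClass (fracVal n))) := by
  infer_instance

example (n : ℕ) [NeZero n] : IsDiscreteValuationRing (fracVal n).valuationSubring := inferInstance


/-- Valuations at infinity: the units of a domain finite over `ℚ[X₁..Xₙ]`, up to algebraic
elements, inject into a finite product of copies of `ℤ`. -/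
theorem exists_infinity_map.{v} (n : ℕ) [NeZero n] (K : Type v) [Field K]
    [Algebra (FractionRing (MvPolynomial (Fin n) ℚ)) K]
    [FiniteDimensional (FractionRing (MvPolynomial (Fin n) ℚ)) K]
    [Algebra (MvPolynomial (Fin n) ℚ) K]
    [IsScalarTower (MvPolynomial (Fin n) ℚ) (FractionRing (MvPolynomial (Fin n) ℚ)) K] [CharZero K] :
    ∃ (ι : Type v) (_ : Finite ι) (Φ : Kˣ →* (ι → Multiplicative ℤ)), ∀ x : Kˣ,
      Φ x = 1 → IsIntegral (MvPolynomial (Fin n) ℚ) (x : K) → IsAlgebraic ℚ (x : K) := by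
  let P := MvPolynomial (Fin n) ℚ
  let F := FractionRing (MvPolynomial (Fin n) ℚ)
  let O := (fracVal n).valuationSubring
  have hdvr : IsDiscreteValuationRing O := inferInstance
  let D := integralClosure O K
  have hded : IsDedekindDomain D := integralClosure.isDedekindDomain O F K
  have hfrac : IsFractionRing D K := integralClosure.isFractionRing_of_finite_extension F K
  have hfinD : Finite (HeightOneSpectrum D) := by
    have h1 := IsDedekindDomain.primesOver_finite (IsLocalRing.maximalIdeal O) D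
    have : Finite ((IsLocalRing.maximalIdeal O).primesOver D) := h1
    refine Finite.of_injective (β := (IsLocalRing.maximalIdeal O).primesOver D)
      (fun Q => ⟨Q.asIdeal, Q.isPrime, ⟨?_⟩⟩) ?_
    · symm
      apply IsLocalRing.eq_maximalIdeal
      have h2 := (HeightOneSpectrum.under O Q).isPrime.isMaximal (HeightOneSpectrum.under O Q).ne_bot
      exact h2
    · intro Q Q' h
      have := congrArg Subtype.val h
      exact HeightOneSpectrum.ext this
  refine ⟨HeightOneSpectrum D, hfinD, MonoidHom.pi fun Q => Q.valuationOfNeZero, ?_⟩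
  intro x hx hxP
  have hxO : IsIntegral O (x : K) := by
    have h3 : (x : K) ∈ (algebraMap D K).range := by
      apply HeightOneSpectrum.mem_integers_of_valuation_le_one
      intro Q
      have h4 : Q.valuationOfNeZero x = 1 := congrFun hx Q
      rw [← HeightOneSpectrum.valuationOfNeZero_eq, h4]
      exact le_rfl
    obtain ⟨y, hy⟩ := h3
    rw [← hy]
    exact y.2
  have e1 := minpoly.isIntegrallyClosed_eq_field_fractions' (K := F) hxP
  have e2 := minpoly.isIntegrallyClosed_eq_field_fractions' (K := F) hxO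
  have hlift : minpoly P (x : K) ∈ Polynomial.lifts (MvPolynomial.C : ℚ →+* P) := by
    rw [Polynomial.lifts_iff_coeff_lifts]
    intro k
    have h5 : algebraMap P F ((minpoly P (x : K)).coeff k) = algebraMap O F ((minpoly O (x : K)).coeff k) := by
      rw [← Polynomial.coeff_map, ← Polynomial.coeff_map, ← e1, ← e2]
    have h6 : fracVal n (algebraMap P F ((minpoly P (x : K)).coeff k)) ≤ 1 := by
      rw [h5]
      exact ((minpoly O (x : K)).coeff k).2
    rw [fracVal_algebraMap] at h6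
    obtain ⟨c, hc⟩ := degree_le_zero n _ h6
    exact ⟨c, hc.symm⟩
  obtain ⟨q, hq, -, hqm⟩ := Polynomial.lifts_and_natDegree_eq_and_monic hlift (minpoly.monic hxP)
  refine ⟨q, hqm.ne_zero, ?_⟩
  have h7 := minpoly.aeval P (x : K)
  rw [← hq] at h7
  rw [Polynomial.aeval_def, Polynomial.eval₂_map] at h7
  rw [Polynomial.aeval_def]
  have h8 : algebraMap ℚ K = (algebraMap P K).comp MvPolynomial.C := RingHom.ext_rat _ _
  rw [h8]
  exact h7


open scoped nonZeroDivisors in
attribute [local instance] FractionRing.liftAlgebra in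
/-- Units of a finitely generated `ℚ`-domain, modulo algebraic ones, inject into `ℤ^ι`. -/
theorem exists_unit_map.{v} (R : Type v) [CommRing R] [IsDomain R] [Algebra ℚ R]
    [Algebra.FiniteType ℚ R] :
    ∃ (ι : Type v) (_ : Finite ι) (Φ : Rˣ →* (ι → Multiplicative ℤ)), ∀ x : Rˣ,
      Φ x = 1 → IsAlgebraic ℚ (x : R) := by
  obtain ⟨n, g, hg, hgfin⟩ := exists_finite_inj_algHom_of_fg ℚ R
  let P := MvPolynomial (Fin n) ℚ
  let _ : Algebra P R := g.toRingHom.toAlgebra
  have hfin : Module.Finite P R := hgfin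
  have hinj : Function.Injective (algebraMap P R) := hg
  rcases Nat.eq_zero_or_pos n with h0 | hn
  · subst h0
    refine ⟨PEmpty, inferInstance, 1, fun x _ => ?_⟩
    have h1 : IsIntegral P (x : R) := Algebra.IsIntegral.isIntegral _
    obtain ⟨p, hpm, hp⟩ := h1
    let e : P →+* ℚ := MvPolynomial.eval (fun i : Fin 0 => i.elim0)
    refine ⟨p.map e, (hpm.map e).ne_zero, ?_⟩
    rw [Polynomial.aeval_def, Polynomial.eval₂_map]
    have h2 : (algebraMap ℚ R).comp e = algebraMap P R := by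
      apply MvPolynomial.ringHom_ext
      · intro r
        have h3 : g (MvPolynomial.C r) = algebraMap ℚ R r := g.commutes r
        change algebraMap ℚ R (e (MvPolynomial.C r)) = g (MvPolynomial.C r)
        rw [h3]
        congr 1
        exact MvPolynomial.eval_C _
      · intro i; exact i.elim0
    rw [h2]
    exact hp
  · have : NeZero n := ⟨hn.ne'⟩
    let K := FractionRing R
    have htower : IsScalarTower P R K := inferInstance
    have hfaith : FaithfulSMul P K := by
      rw [faithfulSMul_iff_algebraMap_injective, IsScalarTower.algebraMap_eq P R K]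
      exact (IsFractionRing.injective R K).comp hinj
    have hfaith' : FaithfulSMul P R := by
      rw [faithfulSMul_iff_algebraMap_injective]
      exact hinj
    let F := FractionRing P
    have hfd : Module.Finite F K := Module.Finite.of_isLocalization P R (P⁰)
    have hchar : CharZero K := by
      have : CharZero R := algebraRat.charZero R
      exact charZero_of_injective_algebraMap (IsFractionRing.injective R K)
    obtain ⟨ι, hι, Φ, hΦ⟩ := exists_infinity_map n K
    refine ⟨ι, hι, Φ.comp (Units.map (algebraMap R K : R →* K)), ?_⟩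
    intro x hx
    obtain ⟨p, hp0, hp⟩ := hΦ _ hx
      ((Algebra.IsIntegral.isIntegral (R := P) (x : R)).map (IsScalarTower.toAlgHom P R K))
    refine ⟨p, hp0, ?_⟩
    apply IsFractionRing.injective R K
    rw [map_zero, Polynomial.aeval_def, Polynomial.hom_eval₂]
    rw [Polynomial.aeval_def] at hp
    have h8 : (algebraMap R K).comp (algebraMap ℚ R) =
        @algebraMap ℚ K _ _ DivisionRing.toRatAlgebra := RingHom.ext_rat _ _
    rw [h8]
    exact hp


end infinity

section separation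

open Polynomial PrimeSpectrum




/-- A transcendental element is not a root of unity modulo some maximal ideal. -/
theorem exists_maximal_not_root {R : Type*} [CommRing R] [IsDomain R] [Algebra ℚ R]
    [Algebra.FiniteType ℚ R] (v : R) (hv : Transcendental ℚ v) :
    ∃ m : Ideal R, m.IsMaximal ∧ ∀ n : ℕ, 0 < n → v ^ n - 1 ∉ m := by
  let _ : Algebra ℚ[X] R := (aeval v : ℚ[X] →ₐ[ℚ] R).toRingHom.toAlgebra
  have htow : IsScalarTower ℚ ℚ[X] R := IsScalarTower.of_algebraMap_eq' (by
    change _ = (aeval v : ℚ[X] →ₐ[ℚ] R).toRingHom.comp _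
    exact RingHom.ext_rat _ _)
  have halg : ∀ p : ℚ[X], algebraMap ℚ[X] R p = aeval v p := fun p => rfl
  have hinj : Function.Injective (algebraMap ℚ[X] R) := by
    rw [injective_iff_map_eq_zero]
    intro p hp
    by_contra hne
    exact hv ⟨p, hne, hp⟩
  have hft : Algebra.FiniteType ℚ[X] R := Algebra.FiniteType.of_restrictScalars_finiteType ℚ ℚ[X] R
  have hfp : Algebra.FinitePresentation ℚ[X] R := Algebra.FinitePresentation.of_finiteType.mp hft
  have hflat : Module.Flat ℚ[X] R := by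
    rw [Module.Flat.flat_iff_torsion_eq_bot_of_isBezout]
    rw [eq_bot_iff]
    intro x hx
    obtain ⟨⟨a, ha⟩, hax⟩ := (Submodule.mem_torsion_iff x).mp hx
    have h1 : algebraMap ℚ[X] R a * x = 0 := by
      rw [← Algebra.smul_def]; exact hax
    rcases mul_eq_zero.mp h1 with h2 | h2
    · exact absurd (hinj (h2.trans (map_zero _).symm)) (nonZeroDivisors.ne_zero ha)
    · exact h2
  have hopen := isOpenMap_comap_of_hasGoingDown_of_finitePresentation (R := ℚ[X]) (S := R)
  have hU : IsOpen (Set.range (comap (algebraMap ℚ[X] R))) := by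
    have := hopen Set.univ isOpen_univ
    rwa [Set.image_univ] at this
  have hbot : (⊥ : PrimeSpectrum ℚ[X]) ∈ Set.range (comap (algebraMap ℚ[X] R)) := by
    refine ⟨⊥, ?_⟩
    ext1
    change Ideal.comap (algebraMap ℚ[X] R) ⊥ = ⊥
    rw [← RingHom.ker_eq_comap_bot]
    exact (RingHom.injective_iff_ker_eq_bot _).mp hinj
  obtain ⟨_, ⟨_, ⟨g, rfl⟩, rfl⟩, hgbot, hgU⟩ :=
    isBasis_basic_opens.exists_subset_of_mem_open hbot hU
  have hg0 : g ≠ 0 := by
    intro h0
    exact hgbot (by rw [h0]; exact Ideal.zero_mem _)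
  -- choose an integer `c ≥ 2` which is not a root of `g`
  obtain ⟨c, hc2, hc⟩ : ∃ c : ℕ, 2 ≤ c ∧ g.eval (c : ℚ) ≠ 0 := by
    have hfin : {c : ℕ | g.eval (c : ℚ) = 0}.Finite := by
      apply Set.Finite.of_injOn (f := fun c : ℕ => (c : ℚ)) (t := (g.roots.toFinset : Set ℚ))
      · intro c hc
        simp only [Finset.mem_coe, Multiset.mem_toFinset, mem_roots hg0]
        exact hc
      · intro a _ b _ h
        exact Nat.cast_injective h
      · exact Finset.finite_toSet _
    obtain ⟨c, hc⟩ := (hfin.union (Set.finite_lt_nat 2)).infinite_compl.nonempty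
    simp only [Set.mem_compl_iff, Set.mem_union, not_or] at hc
    exact ⟨c, not_lt.mp hc.2, hc.1⟩
  have hprime : (Ideal.span {(X - C (c : ℚ) : ℚ[X])}).IsPrime := by
    rw [Ideal.span_singleton_prime (X_sub_C_ne_zero _)]
    exact prime_X_sub_C _
  have hmem : (⟨Ideal.span {(X - C (c : ℚ) : ℚ[X])}, hprime⟩ : PrimeSpectrum ℚ[X]) ∈
      (basicOpen g : Set (PrimeSpectrum ℚ[X])) := by
    intro hgm
    have h3 : g ∈ Ideal.span {(X - C (c : ℚ) : ℚ[X])} := hgm
    rw [Ideal.mem_span_singleton, dvd_iff_isRoot] at h3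
    exact hc h3
  obtain ⟨q, hq⟩ := hgU hmem
  obtain ⟨m, hm, hqm⟩ := Ideal.exists_le_maximal q.asIdeal q.isPrime.ne_top
  refine ⟨m, hm, ?_⟩
  have h4 : v - algebraMap ℚ R c ∈ m := by
    apply hqm
    have h5 : (X - C (c : ℚ) : ℚ[X]) ∈ (comap (algebraMap ℚ[X] R) q).asIdeal := by
      rw [hq]; exact Ideal.mem_span_singleton_self _
    have h6 : algebraMap ℚ[X] R (X - C (c : ℚ)) ∈ q.asIdeal := h5
    rw [halg] at h6
    simpa using h6
  intro n hn hmem'
  have h7 : v ^ n - (algebraMap ℚ R c) ^ n ∈ m := by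
    obtain ⟨w, hw⟩ := sub_dvd_pow_sub_pow v (algebraMap ℚ R c) n
    rw [hw]; exact Ideal.mul_mem_right _ _ h4
  have h8 : algebraMap ℚ R ((c : ℚ) ^ n - 1) ∈ m := by
    have := Ideal.sub_mem _ hmem' h7
    rw [map_sub, map_pow, map_one]
    convert this using 1
    ring
  have h9 : ((c : ℚ) ^ n - 1) ≠ 0 := by
    have h10 : (1 : ℚ) < (c : ℚ) ^ n := one_lt_pow₀ (by exact_mod_cast hc2) hn.ne'
    exact (sub_pos.mpr h10).ne'
  have h11 : IsUnit (algebraMap ℚ R ((c : ℚ) ^ n - 1)) := (IsUnit.mk0 _ h9).map _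
  exact hm.ne_top (Ideal.eq_top_of_isUnit_mem _ h8 h11)


end separation
/-- nested submodules of the same rank have torsion quotient -/
theorem exists_smul_mem {M : Type*} [AddCommGroup M] [Module.Finite ℤ M]
    (N N' : Submodule ℤ M) (hle : N' ≤ N) (hr : Module.finrank ℤ N = Module.finrank ℤ N')
    (x : M) (hx : x ∈ N) : ∃ n : ℕ, 0 < n ∧ (n : ℤ) • x ∈ N' := by
  have h1 := Submodule.finrank_quotient_add_finrank (N'.submoduleOf N)
  have h2 : Module.finrank ℤ (N'.submoduleOf N) = Module.finrank ℤ N' :=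
    LinearEquiv.finrank_eq (Submodule.submoduleOfEquivOfLe hle)
  have h3 : Module.finrank ℤ (N ⧸ N'.submoduleOf N) = 0 := by omega
  rw [Module.finrank_eq_zero_iff_isTorsion] at h3
  obtain ⟨⟨a, ha⟩, hax⟩ := @h3 (Submodule.Quotient.mk ⟨x, hx⟩)
  have ha0 : a ≠ 0 := nonZeroDivisors.ne_zero ha
  have h4 : a • (⟨x, hx⟩ : N) ∈ N'.submoduleOf N := by
    rw [← Submodule.Quotient.mk_eq_zero, Submodule.Quotient.mk_smul]
    exact hax
  have h5 : a • x ∈ N' := h4
  refine ⟨a.natAbs, Int.natAbs_pos.mpr ha0, ?_⟩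
  rcases Int.natAbs_eq a with h | h
  · rw [← h]; exact h5
  · have h6 : ((a.natAbs : ℕ) : ℤ) = -a := by omega
    rw [h6, neg_smul]
    exact Submodule.neg_mem _ h5

/-- Finitely many maximal ideals separate the units of a finitely generated `ℚ`-domain from 1. -/
theorem exists_finset_maximal.{v} (R : Type v) [CommRing R] [IsDomain R] [Algebra ℚ R]
    [Algebra.FiniteType ℚ R] :
    ∃ S : Finset (MaximalSpectrum R), ∀ x : Rˣ, (∀ m ∈ S, (x : R) - 1 ∈ m.asIdeal) → x = 1 := by
  classical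
  obtain ⟨ι, hι, Φ, hΦ⟩ := exists_unit_map R
  obtain ⟨m₀⟩ : Nonempty (MaximalSpectrum R) := inferInstance
  -- the subgroups
  let N : Finset (MaximalSpectrum R) → Subgroup Rˣ := fun S =>
    { carrier := {x | ∀ m ∈ S, (x : R) - 1 ∈ m.asIdeal}
      mul_mem' := by
        intro x y hx hy m hm
        have : ((x * y : Rˣ) : R) - 1 = x * ((y : R) - 1) + ((x : R) - 1) := by
          push_cast; ring
        rw [this]
        exact Ideal.add_mem _ (Ideal.mul_mem_left _ _ (hy m hm)) (hx m hm)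
      one_mem' := by
        intro m _
        simp
      inv_mem' := by
        intro x hx m hm
        have : ((x⁻¹ : Rˣ) : R) - 1 = -((x⁻¹ : Rˣ) : R) * ((x : R) - 1) := by
          have := x.inv_mul
          linear_combination this
        rw [this]
        exact Ideal.mul_mem_left _ _ (hx m hm) }
  -- the map to `ℤ^ι`
  let f : Additive Rˣ →+ (ι → ℤ) := 
    { toFun := fun x i => Multiplicative.toAdd (Φ x.toMul i)
      map_zero' := by ext i; simp
      map_add' := by intro x y; ext i; simp }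
  have hf0 : ∀ x : Rˣ, f (Additive.ofMul x) = 0 → IsAlgebraic ℚ (x : R) := by
    intro x hx
    apply hΦ
    ext i
    exact congrFun hx i
  let M : Finset (MaximalSpectrum R) → Submodule ℤ (ι → ℤ) := fun S =>
    AddSubgroup.toIntSubmodule ((Subgroup.toAddSubgroup (N S)).map f)
  have hMmem : ∀ S z, z ∈ M S ↔ ∃ x ∈ N S, f (Additive.ofMul x) = z := by
    intro S z
    constructor
    · rintro ⟨x, hx, rfl⟩
      exact ⟨x.toMul, hx, rfl⟩
    · rintro ⟨x, hx, rfl⟩
      exact ⟨Additive.ofMul x, hx, rfl⟩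
  have halg : ∀ x : Rˣ, (x : R) - 1 ∈ m₀.asIdeal → IsAlgebraic ℚ (x : R) → x = 1 := by
    intro x hx hxa
    by_contra hne
    have h1 : IsAlgebraic ℚ ((x : R) - 1) := hxa.sub isAlgebraic_one
    have h2 : (x : R) - 1 ≠ 0 := by
      intro h
      apply hne
      ext
      exact sub_eq_zero.mp h
    obtain ⟨r, hr, hdvd⟩ := h1.exists_nonzero_dvd (mem_nonZeroDivisors_of_ne_zero h2)
    have h3 : algebraMap ℚ R r ∈ m₀.asIdeal := Ideal.mem_of_dvd _ hdvd hx
    exact m₀.isMaximal.ne_top (Ideal.eq_top_of_isUnit_mem _ h3 ((IsUnit.mk0 r hr).map _))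
  obtain ⟨S, hS, hmin⟩ : ∃ S : Finset (MaximalSpectrum R), m₀ ∈ S ∧
      ∀ S' : Finset (MaximalSpectrum R), m₀ ∈ S' → Module.finrank ℤ (M S) ≤ Module.finrank ℤ (M S') := by
    have hne : {k : ℕ | ∃ S : Finset (MaximalSpectrum R), m₀ ∈ S ∧ Module.finrank ℤ (M S) = k}.Nonempty :=
      ⟨_, {m₀}, Finset.mem_singleton_self _, rfl⟩
    obtain ⟨S, hS, hk⟩ := Nat.sInf_mem hne
    refine ⟨S, hS, fun S' hS' => ?_⟩
    rw [hk]
    exact Nat.sInf_le ⟨S', hS', rfl⟩
  refine ⟨S, ?_⟩
  intro v hv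
  by_contra hv1
  have hvtr : Transcendental ℚ (v : R) := by
    intro hva
    exact hv1 (halg v (hv m₀ hS) hva)
  obtain ⟨m', hm', hroot⟩ := exists_maximal_not_root (v : R) hvtr
  let S' := insert (⟨m', hm'⟩ : MaximalSpectrum R) S
  have hS'0 : m₀ ∈ S' := Finset.mem_insert_of_mem hS
  have hle : M S' ≤ M S := by
    intro z hz
    rw [hMmem] at hz ⊢
    obtain ⟨x, hx, rfl⟩ := hz
    exact ⟨x, fun m hm => hx m (Finset.mem_insert_of_mem hm), rfl⟩
  have hrank : Module.finrank ℤ (M S) = Module.finrank ℤ (M S') :=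
    le_antisymm (hmin S' hS'0) (Submodule.finrank_mono hle)
  have hvM : f (Additive.ofMul v) ∈ M S := (hMmem _ _).mpr ⟨v, hv, rfl⟩
  obtain ⟨n, hn, hnv⟩ := exists_smul_mem (M S) (M S') hle hrank _ hvM
  obtain ⟨w, hw, hfw⟩ := (hMmem _ _).mp hnv
  have h1 : f (Additive.ofMul (v ^ n * w⁻¹)) = 0 := by
    have : Additive.ofMul (v ^ n * w⁻¹) = n • Additive.ofMul v - Additive.ofMul w := rfl
    rw [this, map_sub, map_nsmul, hfw]
    simp
  have h2 : v ^ n * w⁻¹ = 1 := by
    apply halg _ _ (hf0 _ h1)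
    have h3 : v ^ n * w⁻¹ ∈ N S := by
      refine Subgroup.mul_mem _ (Subgroup.pow_mem _ ?_ _) (Subgroup.inv_mem _ ?_)
      · exact hv
      · exact fun m hm => hw m (Finset.mem_insert_of_mem hm)
    exact h3 m₀ hS
  have h4 : v ^ n = w := by
    rwa [mul_inv_eq_one] at h2
  apply hroot n hn
  have h5 := hw ⟨m', hm'⟩ (Finset.mem_insert_self _ _)
  rw [← h4] at h5
  simpa using h5


open NumberField

/-- A homomorphism from a finitely generated ring to a number field lands in a ring of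
`S`-integers. -/
theorem exists_lift_away {R : Type*} [CommRing R] [Algebra.FiniteType ℤ R] (k : Type*) [Field k]
    [NumberField k] (ψ : R →+* k) : ∃ (M : ℕ) (_ : M ≠ 0)
    (φ : R →+* Localization.Away ((M : ℕ) : 𝓞 k)), ∀ x, φ x = 1 → ψ x = 1 := by
  classical
  obtain ⟨S, hS⟩ := (inferInstance : Algebra.FiniteType ℤ R).out
  -- common denominator
  have hden : ∀ s : R, ∃ M : ℕ, M ≠ 0 ∧ IsIntegral ℤ ((M : k) * ψ s) := by
    intro s
    have halg : IsAlgebraic ℤ (ψ s) := by
      have := Algebra.IsAlgebraic.isAlgebraic (R := ℚ) (ψ s)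
      exact (IsFractionRing.isAlgebraic_iff ℤ ℚ k).mpr this
    obtain ⟨a, ha, hint⟩ := halg.exists_integral_multiple
    refine ⟨a.natAbs, Int.natAbs_ne_zero.mpr ha, ?_⟩
    have h1 : ((a.natAbs : ℕ) : k) * ψ s = a • ψ s ∨ ((a.natAbs : ℕ) : k) * ψ s = -(a • ψ s) := by
      rw [zsmul_eq_mul]
      rcases Int.natAbs_eq a with h | h
      · left
        congr 1
        rw [h]; simp
      · right
        rw [← neg_mul]
        congr 1
        rw [h]; simp
    rcases h1 with h1 | h1
    · rw [h1]; exact hint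
    · rw [h1]; exact hint.neg
  choose D hD0 hD using hden
  let M : ℕ := ∏ s ∈ S, D s
  have hM0 : M ≠ 0 := Finset.prod_ne_zero_iff.mpr fun s _ => hD0 s
  let L := Localization.Away ((M : ℕ) : 𝓞 k)
  have hMk : IsUnit (algebraMap (𝓞 k) k ((M : ℕ) : 𝓞 k)) := by
    rw [map_natCast]
    exact IsUnit.mk0 _ (by exact_mod_cast hM0)
  let e : L →+* k := IsLocalization.Away.lift (S := L) ((M : ℕ) : 𝓞 k) hMk
  have he : ∀ a, e (algebraMap (𝓞 k) L a) = algebraMap (𝓞 k) k a := fun a =>
    IsLocalization.Away.lift_eq _ hMk a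
  have hdomL : IsDomain L := IsLocalization.isDomain_localization
    (powers_le_nonZeroDivisors_of_noZeroDivisors (by exact_mod_cast hM0))
  have heinj : Function.Injective e := by
    rw [injective_iff_map_eq_zero]
    intro a ha
    obtain ⟨⟨x, s⟩, hs⟩ := IsLocalization.surj (Submonoid.powers ((M : ℕ) : 𝓞 k)) a
    have h1 : algebraMap (𝓞 k) k x = 0 := by
      rw [← he, ← hs, map_mul, ha, zero_mul]
    have h2 : x = 0 := by
      apply IsFractionRing.injective (𝓞 k) k
      rw [h1, map_zero]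
    simp only [h2, map_zero] at hs
    exact (IsUnit.mul_left_eq_zero (IsLocalization.map_units L s)).mp hs
  have hrange : ∀ x : R, ψ x ∈ e.range := by
    intro x
    have hx : x ∈ Algebra.adjoin ℤ (S : Set R) := hS ▸ Algebra.mem_top
    induction hx using Algebra.adjoin_induction with
    | mem s hs =>
      have h1 : IsIntegral ℤ ((M : k) * ψ s) := by
        have : (M : k) * ψ s = ((∏ t ∈ S.erase s, D t : ℕ) : k) * ((D s : k) * ψ s) := by
          rw [← mul_assoc, ← Nat.cast_mul, mul_comm (∏ t ∈ S.erase s, D t),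
            Finset.mul_prod_erase S D hs]
        rw [this]
        exact (isIntegral_algebraMap (R := ℤ) (A := k) (x := ((∏ t ∈ S.erase s, D t : ℕ) : ℤ)) |> fun h => by
          have h' : IsIntegral ℤ (((∏ t ∈ S.erase s, D t : ℕ) : k)) := by
            simpa using h
          exact h'.mul (hD s))
      let a : 𝓞 k := ⟨(M : k) * ψ s, h1⟩
      refine ⟨algebraMap (𝓞 k) L a * IsLocalization.Away.invSelf (S := L) ((M : ℕ) : 𝓞 k), ?_⟩
      have h2 : e (algebraMap (𝓞 k) L ((M : ℕ) : 𝓞 k)) * e (IsLocalization.Away.invSelf (S := L) ((M : ℕ) : 𝓞 k)) = 1 := by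
        rw [← map_mul, IsLocalization.Away.mul_invSelf, map_one]
      rw [he, map_natCast] at h2
      rw [map_mul, he]
      have h3 : algebraMap (𝓞 k) k a = (M : k) * ψ s := rfl
      rw [h3]
      linear_combination (ψ s) * h2
    | algebraMap r => exact ⟨algebraMap ℤ L r, by simp⟩
    | add x y _ _ hx hy => rw [map_add]; exact Subring.add_mem _ hx hy
    | mul x y _ _ hx hy => rw [map_mul]; exact Subring.mul_mem _ hx hy
  let e' : L ≃+* e.range := RingEquiv.ofBijective e.rangeRestrict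
    ⟨fun a b h => heinj (congrArg Subtype.val h), e.rangeRestrict_surjective⟩
  refine ⟨M, hM0, e'.symm.toRingHom.comp (ψ.codRestrict e.range hrange), ?_⟩
  intro x hx
  have h1 : e'.symm (ψ.codRestrict e.range hrange x) = 1 := hx
  have h2 : ψ.codRestrict e.range hrange x = 1 := by
    rw [← e'.apply_symm_apply (ψ.codRestrict e.range hrange x), h1, map_one]
  exact congrArg Subtype.val h2


theorem numberField_of_surjective {A k : Type*} [CommRing A] [Algebra ℚ A]
    [Algebra.FiniteType ℚ A] [Field k] (ψ : A →+* k) (hψ : Function.Surjective ψ) :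
    NumberField k := by
  have h1 : CharZero k := 
    charZero_of_injective_ringHom (f := ψ.comp (algebraMap ℚ A)) (RingHom.injective _)
  have hcomm : ∀ r : ℚ, ψ (algebraMap ℚ A r) = algebraMap ℚ k r := by
    intro r
    have := RingHom.ext_rat (ψ.comp (algebraMap ℚ A)) (algebraMap ℚ k)
    exact congr($this r)
  let g : A →ₐ[ℚ] k := { ψ with commutes' := hcomm }
  have h2 : Algebra.FiniteType ℚ k := Algebra.FiniteType.of_surjective g hψ
  have h3 := finite_of_finite_type_of_isJacobsonRing ℚ k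
  exact @NumberField.mk _ _ h1 h3

/-- Finitely many homomorphisms to rings of `S`-integers of number fields separate the units of a
finitely generated domain of characteristic zero from `1`. -/
theorem exists_family.{v} (R : Type v) [CommRing R] [IsDomain R] [Algebra.FiniteType ℤ R]
    [CharZero R] :
    ∃ (I : Type v) (_ : Finite I) (k : I → Type v) (_ : ∀ i, Field (k i))
      (_ : ∀ i, NumberField (k i)) (M : I → ℕ) (_ : ∀ i, M i ≠ 0)
      (φ : ∀ i, R →+* Localization.Away ((M i : ℕ) : 𝓞 (k i))),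
      ∀ x : Rˣ, (∀ i, φ i x = 1) → x = 1 := by
  classical
  let K := FractionRing R
  have hchar : CharZero K := charZero_of_injective_algebraMap (IsFractionRing.injective R K)
  obtain ⟨S, hS⟩ := (inferInstance : Algebra.FiniteType ℤ R).out
  let A : Subalgebra ℚ K := Algebra.adjoin ℚ ((algebraMap R K) '' (S : Set R))
  have hft : Algebra.FiniteType ℚ A := by
    rw [← Subalgebra.fg_iff_finiteType]
    exact ⟨S.image (algebraMap R K), by simp [A]⟩
  have hrange : ∀ x : R, algebraMap R K x ∈ A := by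
    intro x
    have hx : x ∈ Algebra.adjoin ℤ (S : Set R) := hS ▸ Algebra.mem_top
    induction hx using Algebra.adjoin_induction with
    | mem s hs => exact Algebra.subset_adjoin ⟨s, hs, rfl⟩
    | algebraMap r =>
      have : algebraMap R K (algebraMap ℤ R r) = algebraMap ℚ K (r : ℚ) := by simp
      rw [this]
      exact A.algebraMap_mem _
    | add x y _ _ hx hy => rw [map_add]; exact A.add_mem hx hy
    | mul x y _ _ hx hy => rw [map_mul]; exact A.mul_mem hx hy
  let j : R →+* A := (algebraMap R K).codRestrict A hrange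
  have hj : Function.Injective j := by
    intro a b h
    exact IsFractionRing.injective R K (congrArg Subtype.val h)
  obtain ⟨T, hT⟩ := exists_finset_maximal A
  have hfield : ∀ m : T, ∃ (M : ℕ) (_ : M ≠ 0) (_ : Field (A ⧸ m.1.asIdeal))
      (_ : NumberField (A ⧸ m.1.asIdeal))
      (φ : R →+* Localization.Away ((M : ℕ) : 𝓞 (A ⧸ m.1.asIdeal))), ∀ x, φ x = 1 → j x - 1 ∈ m.1.asIdeal := by
    intro m
    let _ : Field (A ⧸ m.1.asIdeal) := Ideal.Quotient.field _
    have h4 : NumberField (A ⧸ m.1.asIdeal) :=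
      numberField_of_surjective (Ideal.Quotient.mk m.1.asIdeal) Ideal.Quotient.mk_surjective
    obtain ⟨M, hM, φ, hφ⟩ := exists_lift_away (A ⧸ m.1.asIdeal) ((Ideal.Quotient.mk m.1.asIdeal).comp j)
    refine ⟨M, hM, _, h4, φ, ?_⟩
    intro x hx
    have h5 := hφ x hx
    rw [← Ideal.Quotient.eq_zero_iff_mem, map_sub, map_one, sub_eq_zero]
    exact h5
  choose M hM hfl hnf φ hφ using hfield
  refine ⟨T, inferInstance, fun m => A ⧸ m.1.asIdeal, hfl, hnf, M, hM, φ, ?_⟩
  intro x hx
  have h1 : Units.map (j : R →* A) x = 1 := by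
    apply hT
    intro m hm
    exact hφ ⟨m, hm⟩ x (hx ⟨m, hm⟩)
  have h2 : j x = 1 := congrArg Units.val h1
  ext
  exact hj (by rw [h2]; simp)


end Pool.Agent.Helper8.UnitSep

end

section

/-!
# The unit equation over finitely generated domains of characteristic zero (Lang)
-/

set_option autoImplicit false

namespace Pool.Agent.Helper74.LG

open NumberField

/-- The elements of `𝓞 k [1/M]` in `k`. -/
lemma integral_of_away {k : Type} [Field k] [NumberField k] (M : ℕ)
    (ψ : Localization.Away ((M : ℕ) : 𝓞 k) →+* k)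
    (hψ : ∀ a : 𝓞 k, ψ (algebraMap (𝓞 k) _ a) = (a : k))
    (z : Localization.Away ((M : ℕ) : 𝓞 k)) : ∃ n : ℕ, IsIntegral ℤ ((M : k) ^ n * ψ z) := by
  obtain ⟨⟨a, ⟨_, n, rfl⟩⟩, hz⟩ := IsLocalization.surj (Submonoid.powers ((M : ℕ) : 𝓞 k)) z
  refine ⟨n, ?_⟩
  have h1 := congrArg ψ hz
  simp only [map_mul, hψ, map_pow, map_natCast] at h1
  have h2 : ((M : k) ^ n * ψ z) = (a : k) := by
    rw [mul_comm, ← h1]
  rw [h2]
  exact a.isIntegral_coe

theorem away_units_finite (k : Type) [Field k] [NumberField k] (M : ℕ) (hM : M ≠ 0) :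
    {u : Localization.Away ((M : ℕ) : 𝓞 k) | IsUnit u ∧ IsUnit (1 - u)}.Finite := by
  have hM' : ((M : ℕ) : 𝓞 k) ≠ 0 := by exact_mod_cast hM
  let ψ : Localization.Away ((M : ℕ) : 𝓞 k) →+* k :=
    IsLocalization.Away.lift ((M : ℕ) : 𝓞 k) (g := algebraMap (𝓞 k) k)
      (isUnit_iff_ne_zero.2 (by simpa using hM'))
  have hψ : ∀ a : 𝓞 k, ψ (algebraMap (𝓞 k) _ a) = (a : k) := fun a =>
    IsLocalization.Away.lift_eq _ _ a
  have hinj : Function.Injective ψ := by
    rw [injective_iff_map_eq_zero]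
    intro z hz
    obtain ⟨⟨a, ⟨_, n, rfl⟩⟩, h1⟩ := IsLocalization.surj (Submonoid.powers ((M : ℕ) : 𝓞 k)) z
    have h2 := congrArg ψ h1
    simp only [map_mul, hz, zero_mul, hψ] at h2
    have h3 : a = 0 := by
      apply NumberField.RingOfIntegers.coe_injective
      rw [map_zero]
      exact h2.symm
    simp only [h3, map_zero] at h1
    have h4 : IsUnit (algebraMap (𝓞 k) (Localization.Away ((M : ℕ) : 𝓞 k))
        (((M : ℕ) : 𝓞 k) ^ n)) :=
      IsLocalization.map_units (M := Submonoid.powers ((M : ℕ) : 𝓞 k)) _ ⟨_, n, rfl⟩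
    exact (h4.mul_left_eq_zero).1 h1
  refine Set.Finite.of_finite_image ((Pool.Agent.Helper19.UE.sunit_finite (K := k) M hM).subset ?_) hinj.injOn
  rintro _ ⟨u, ⟨h1, h2⟩, rfl⟩
  have key : ∀ z : Localization.Away ((M : ℕ) : 𝓞 k), IsUnit z → ψ z ≠ 0 ∧
      ∃ n : ℕ, IsIntegral ℤ ((M : k) ^ n * (ψ z)⁻¹) := by
    rintro _ ⟨z, rfl⟩
    have h3 : ψ (z : Localization.Away ((M : ℕ) : 𝓞 k)) *
        ψ ((z⁻¹ : (Localization.Away ((M : ℕ) : 𝓞 k))ˣ) : Localization.Away ((M : ℕ) : 𝓞 k)) = 1 := by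
      rw [← map_mul, Units.mul_inv, map_one]
    refine ⟨left_ne_zero_of_mul_eq_one h3, ?_⟩
    rw [← eq_inv_of_mul_eq_one_right h3]
    exact integral_of_away M ψ hψ _
  have h4 := key u h1
  have h5 := key (1 - u) h2
  rw [map_sub, map_one] at h5
  have h6 := integral_of_away M ψ hψ u
  have h7 := integral_of_away M ψ hψ (1 - u)
  rw [map_sub, map_one] at h7
  exact ⟨h4.1, h5.1, h6, h4.2, h7, h5.2⟩

/-- **Lang's unit theorem**: the equation `u + v = 1` has finitely many solutions in units of a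
finitely generated domain of characteristic zero. -/
theorem units_finite (R : Type) [CommRing R] [IsDomain R] [Algebra.FiniteType ℤ R] [CharZero R] :
    {u : R | IsUnit u ∧ IsUnit (1 - u)}.Finite := by
  obtain ⟨I, hI, k, hk, hnf, M, hM, φ, hφ⟩ := Pool.Agent.Helper8.UnitSep.exists_family R
  let Φ : R → ∀ i, Localization.Away ((M i : ℕ) : 𝓞 (k i)) := fun u i => φ i u
  have hfin : (Set.univ.pi fun i => {u : Localization.Away ((M i : ℕ) : 𝓞 (k i)) |
      IsUnit u ∧ IsUnit (1 - u)}).Finite :=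
    Set.Finite.pi fun i => away_units_finite (k i) (M i) (hM i)
  refine Set.Finite.of_finite_image (f := Φ) (hfin.subset ?_) ?_
  · rintro _ ⟨u, ⟨h1, h2⟩, rfl⟩ i _
    refine ⟨h1.map (φ i), ?_⟩
    have h3 := h2.map (φ i)
    rw [map_sub, map_one] at h3
    exact h3
  · rintro u ⟨⟨x, hx⟩, -⟩ v ⟨⟨y, hy⟩, -⟩ huv
    have h1 : x * y⁻¹ = 1 := by
      apply hφ
      intro i
      have h2 : φ i u = φ i v := congrFun huv i
      rw [← hx, ← hy] at h2
      have h3 : φ i ((x * y⁻¹ : Rˣ) : R) = φ i (x : R) * φ i ((y⁻¹ : Rˣ) : R) := by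
        rw [Units.val_mul, map_mul]
      rw [h3, h2, ← map_mul, Units.mul_inv, map_one]
    have h4 : x = y := mul_inv_eq_one.1 h1
    rw [← hx, ← hy, h4]

end Pool.Agent.Helper74.LG

end

section

/-! # LB-UU: the unit equation over finitely generated domains in any universe -/

set_option autoImplicit false

namespace Pool.Agent.Helper10.LB

universe u

theorem units_finiteU (R : Type u) [CommRing R] [IsDomain R] [Algebra.FiniteType ℤ R]
    [CharZero R] : {u : R | IsUnit u ∧ IsUnit (1 - u)}.Finite := by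
  obtain ⟨n, f, hf⟩ := Algebra.FiniteType.iff_quotient_mvPolynomial''.1
    (inferInstance : Algebra.FiniteType ℤ R)
  obtain ⟨Q, _, ⟨e⟩⟩ : ∃ (Q : Type) (_ : CommRing Q), Nonempty (Q ≃+* R) :=
    ⟨MvPolynomial (Fin n) ℤ ⧸ RingHom.ker f, inferInstance,
      ⟨RingHom.quotientKerEquivOfSurjective hf⟩⟩
  have : IsDomain Q := e.toMulEquiv.isDomain R
  have : CharZero Q :=
    ⟨fun a b hab => by
      have h := congrArg e hab
      rw [map_natCast, map_natCast] at h
      exact Nat.cast_injective h⟩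
  have : Algebra.FiniteType ℤ Q :=
    Algebra.FiniteType.of_surjective (RingHom.toIntAlgHom (e.symm : R →+* Q)) e.symm.surjective
  have h := Pool.Agent.Helper74.LG.units_finite Q
  refine (h.image e).subset ?_
  rintro u ⟨h1, h2⟩
  refine ⟨e.symm u, ⟨h1.map e.symm, ?_⟩, e.apply_symm_apply u⟩
  have h3 := h2.map e.symm
  rwa [map_sub, map_one] at h3

/-- in a field: units of a finitely generated subring -/
theorem units_field {K : Type u} [Field K] [CharZero K] (A : Subalgebra ℤ K) (hA : A.FG) :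
    {u : K | u ≠ 0 ∧ u ≠ 1 ∧ u ∈ A ∧ u⁻¹ ∈ A ∧ (1 - u)⁻¹ ∈ A}.Finite := by
  have : Algebra.FiniteType ℤ A := A.fg_iff_finiteType.1 hA
  have : CharZero A := ⟨fun a b hab => by
    have h := congrArg (algebraMap A K) hab
    rw [map_natCast, map_natCast] at h
    exact Nat.cast_injective h⟩
  have h := units_finiteU A
  refine (h.image (fun z : A => (z : K))).subset ?_
  rintro u ⟨h0, h1, h2, h3, h4⟩
  refine ⟨⟨u, h2⟩, ⟨?_, ?_⟩, rfl⟩
  · refine IsUnit.of_mul_eq_one ⟨u⁻¹, h3⟩ (Subtype.ext ?_)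
    exact mul_inv_cancel₀ h0
  · refine IsUnit.of_mul_eq_one ⟨(1 - u)⁻¹, h4⟩ (Subtype.ext ?_)
    exact mul_inv_cancel₀ (sub_ne_zero.2 (Ne.symm h1))

end Pool.Agent.Helper10.LB

end

section

/-! # LB-LA: integral points on a line, arithmetic rings -/

set_option autoImplicit false

namespace Pool.Agent.Helper10.LB

open scoped BigOperators
open Polynomial Pool.Agent.Helper8.LG

/-- products of linear combinations of `y`, `y'` -/
theorem la_lin {E : Type*} [Field E] (A : Subalgebra ℤ E) {d : ℕ} {y y' F α β γ δ : E}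
    (hy : ∀ m ≤ d, y ^ m * y' ^ (d - m) / F ∈ A)
    (hα : α ∈ A) (hβ : β ∈ A) (hγ : γ ∈ A) (hδ : δ ∈ A) {j : ℕ} (hj : j ≤ d) :
    (α * y + β * y') ^ j * (γ * y + δ * y') ^ (d - j) / F ∈ A := by
  rw [add_pow, add_pow, Finset.sum_mul_sum, Finset.sum_div]
  refine sum_mem fun p hp => ?_
  rw [Finset.sum_div]
  refine sum_mem fun q hq => ?_
  have hp' : p ≤ j := Nat.lt_succ_iff.1 (Finset.mem_range.1 hp)
  have hq' : q ≤ d - j := Nat.lt_succ_iff.1 (Finset.mem_range.1 hq)
  have h1 := hy (p + q) (by omega)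
  have h2 : (α * y) ^ p * (β * y') ^ (j - p) * (j.choose p : E) *
      ((γ * y) ^ q * (δ * y') ^ (d - j - q) * ((d - j).choose q : E)) / F =
      (α ^ p * β ^ (j - p) * γ ^ q * δ ^ (d - j - q) * (j.choose p : E) *
        ((d - j).choose q : E)) * (y ^ (p + q) * y' ^ (d - (p + q)) / F) := by
    have h3 : d - (p + q) = (j - p) + (d - j - q) := by omega
    rw [h3, mul_pow, mul_pow, mul_pow, mul_pow, pow_add, pow_add]
    ring
  rw [h2]
  exact mul_mem (mul_mem (mul_mem (mul_mem (mul_mem (mul_mem (pow_mem hα _) (pow_mem hβ _))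
    (pow_mem hγ _)) (pow_mem hδ _)) (natCast_mem A _)) (natCast_mem A _)) h1

theorem la_prod {E ι : Type*} [Field E] [DecidableEq ι] (A : Subalgebra ℤ E) {d : ι → ℕ}
    {F : ι → E} {z : E} (s : Finset ι) (h : ∀ i ∈ s, ∀ j ≤ d i, z ^ j / F i ∈ A) :
    ∀ j ≤ ∑ i ∈ s, d i, z ^ j / ∏ i ∈ s, F i ∈ A := by
  induction s using Finset.induction_on with
  | empty =>
    intro j hj
    rw [Finset.sum_empty, Nat.le_zero] at hj
    rw [hj, Finset.prod_empty, pow_zero, div_one]
    exact one_mem A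
  | insert i s hi ih =>
    intro j hj
    rw [Finset.sum_insert hi] at hj
    rw [Finset.prod_insert hi]
    have h1 := h i (Finset.mem_insert_self i s) (min j (d i)) (min_le_right _ _)
    have h2 := ih (fun i' hi' => h i' (Finset.mem_insert_of_mem hi')) (j - min j (d i)) (by omega)
    have h3 : z ^ j / (F i * ∏ i ∈ s, F i) =
        z ^ min j (d i) / F i * (z ^ (j - min j (d i)) / ∏ i ∈ s, F i) := by
      rw [div_mul_div_comm, ← pow_add, Nat.add_sub_cancel' (min_le_left _ _)]
    rw [h3]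
    exact mul_mem h1 h2

theorem la_mult {E : Type*} [Field E] (A : Subalgebra ℤ E) {n : ℕ} {F z : E}
    (hz : ∀ j ≤ n, z ^ j / F ∈ A) (s : Multiset E) (hs : ∀ r ∈ s, r ∈ A) :
    ∀ k, s.card + k ≤ n → (s.map fun r => z - r).prod * z ^ k / F ∈ A := by
  induction s using Multiset.induction_on with
  | empty =>
    intro k hk
    rw [Multiset.map_zero, Multiset.prod_zero, one_mul]
    exact hz k (by simpa using hk)
  | cons r s ih =>
    intro k hk
    rw [Multiset.card_cons] at hk
    have hs' : ∀ r ∈ s, r ∈ A := fun r' hr' => hs r' (Multiset.mem_cons_of_mem hr')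
    have h1 := ih hs' (k + 1) (by omega)
    have h2 := ih hs' k (by omega)
    have h3 : ((r ::ₘ s).map fun r => z - r).prod * z ^ k / F =
        (s.map fun r => z - r).prod * z ^ (k + 1) / F -
          r * ((s.map fun r => z - r).prod * z ^ k / F) := by
      rw [Multiset.map_cons, Multiset.prod_cons]
      ring
    rw [h3]
    exact sub_mem h1 (mul_mem (hs r (Multiset.mem_cons_self r s)) h2)

theorem la_quot {E : Type*} [Field E] (A : Subalgebra ℤ E) {n : ℕ} {F z c : E}
    (hz : ∀ j ≤ n, z ^ j / F ∈ A) (R : Multiset E) (hR : ∀ r ∈ R, r ∈ A) (hn : R.card = n)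
    (hc : c ∈ A) (hF : F = c * (R.map fun r => z - r).prod) (hF0 : F ≠ 0) {r₀ r₁ : E}
    (h0 : r₀ ∈ R) (h1 : r₁ ∈ A) : (z - r₁) / (z - r₀) ∈ A := by
  classical
  obtain ⟨R', rfl⟩ := Multiset.exists_cons_of_mem h0
  rw [Multiset.card_cons] at hn
  rw [Multiset.map_cons, Multiset.prod_cons] at hF
  have h2 := la_mult A hz (r₁ ::ₘ R') (fun r hr => by
    rcases Multiset.mem_cons.1 hr with h | h
    · rw [h]; exact h1
    · exact hR r (Multiset.mem_cons_of_mem h)) 0 (by rw [Multiset.card_cons]; omega)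
  rw [Multiset.map_cons, Multiset.prod_cons, pow_zero, mul_one] at h2
  have h3 : (z - r₁) / (z - r₀) =
      c * ((z - r₁) * (R'.map fun r => z - r).prod / F) := by
    have hc0 : c ≠ 0 := fun h => hF0 (by rw [hF, h, zero_mul])
    have hz0 : z - r₀ ≠ 0 := fun h => hF0 (by rw [hF, h, zero_mul, mul_zero])
    have hP0 : (R'.map fun r => z - r).prod ≠ 0 := fun h =>
      hF0 (by rw [hF, h, mul_zero, mul_zero])
    rw [hF]
    field_simp
  rw [h3]
  exact mul_mem hc h2

theorem la_mon {E σ : Type*} [CommMonoid E] [DecidableEq σ] {d m : ℕ} (hm : m ≤ d) (b b' : σ) :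
    ∃ J : Sym σ d, ∀ x : σ → E, mon x J = x b ^ m * x b' ^ (d - m) := by
  refine ⟨⟨Multiset.replicate m b + Multiset.replicate (d - m) b', ?_⟩, fun x => ?_⟩
  · rw [Multiset.card_add, Multiset.card_replicate, Multiset.card_replicate]
    omega
  · change ((Multiset.replicate m b + Multiset.replicate (d - m) b').map x).prod = _
    rw [Multiset.map_add, Multiset.prod_add, Multiset.map_replicate, Multiset.map_replicate,
      Multiset.prod_replicate, Multiset.prod_replicate]

theorem la_three {K E : Type*} [Field K] [CharZero K] [Field E] [Algebra K E] [IsAlgClosed E]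
    (f : K[X]) (hf : f ≠ 0) (h3 : ∀ h : K[X], h ≠ 0 → (∃ n, f ∣ h ^ n) → 3 ≤ h.natDegree) :
    ∃ r₁ ∈ (f.map (algebraMap K E)).roots, ∃ r₂ ∈ (f.map (algebraMap K E)).roots,
      ∃ r₃ ∈ (f.map (algebraMap K E)).roots, r₁ ≠ r₂ ∧ r₁ ≠ r₃ ∧ r₂ ≠ r₃ := by
  classical
  set h := UniqueFactorizationMonoid.radical f with hh
  have h0 : h ≠ 0 := UniqueFactorizationMonoid.radical_ne_zero
  have h1 := h3 h h0 (UniqueFactorizationMonoid.exists_dvd_radical_self_pow hf)
  have hsep : h.Separable := PerfectField.separable_iff_squarefree.2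
    UniqueFactorizationMonoid.squarefree_radical
  have hdvd : h ∣ f := UniqueFactorizationMonoid.radical_dvd_self
  have hnodup : (h.map (algebraMap K E)).roots.Nodup := nodup_roots hsep.map
  have hcard : (h.map (algebraMap K E)).roots.card = h.natDegree := by
    rw [← (IsAlgClosed.splits (h.map (algebraMap K E))).natDegree_eq_card_roots,
      natDegree_map]
  have hsub : ∀ r ∈ (h.map (algebraMap K E)).roots, r ∈ (f.map (algebraMap K E)).roots := by
    intro r hr
    exact Multiset.mem_of_le (roots.le_of_dvd (map_ne_zero hf) (map_dvd _ hdvd)) hr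
  have h2 : 2 < (h.map (algebraMap K E)).roots.toFinset.card := by
    rw [Multiset.toFinset_card_of_nodup hnodup, hcard]
    omega
  obtain ⟨r₁, hr1, r₂, hr2, r₃, hr3, h12, h13, h23⟩ := Finset.two_lt_card.1 h2
  exact ⟨r₁, hsub _ (Multiset.mem_toFinset.1 hr1), r₂, hsub _ (Multiset.mem_toFinset.1 hr2),
    r₃, hsub _ (Multiset.mem_toFinset.1 hr3), h12, h13, h23⟩

/-- the parameters of the integral points -/
theorem la_param {K : Type*} [Field K] [CharZero K] (E : Type*) [Field E] [CharZero E]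
    [Algebra K E] [IsAlgClosed E] {σ ι : Type*} [Fintype σ] [DecidableEq σ]
    [Fintype ι] [DecidableEq ι] {d : ι → ℕ} (a : (i : ι) → Sym σ (d i) → K) (Z : Finset ι)
    (A : Subalgebra ℤ K) (hA : A.FG) (u v : σ → K) (b b' : σ)
    (hpi : u b * v b' - u b' * v b ≠ 0) (hv : ∀ i ∉ Z, form (a i) v ≠ 0)
    (h3 : ∀ h : K[X], h ≠ 0 → (∀ i ∉ Z, ∃ n, lf (a i) u v ∣ h ^ n) → 3 ≤ h.natDegree) :
    {z : K | ∀ i ∉ Z, form (a i) (fun l => u l + z * v l) ≠ 0 ∧
      ∀ J : Sym σ (d i), mon (fun l => u l + z * v l) J /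
        form (a i) (fun l => u l + z * v l) ∈ A}.Finite := by
  classical
  obtain ⟨φ, hφ⟩ : ∃ φ : K →+* E, φ = algebraMap K E := ⟨_, rfl⟩
  set f : K[X] := ∏ i ∈ Zᶜ, lf (a i) u v with hf
  have hdeg : ∀ i ∉ Z, (lf (a i) u v).natDegree = d i := fun i hi =>
    natDegree_eq_of_le_of_coeff_ne_zero (lf_natDegree_le _ _ _) (by
      rw [lf_coeff_top]
      exact hv i hi)
  have hne : ∀ i ∈ Zᶜ, lf (a i) u v ≠ 0 := fun i hi h => hv i (Finset.mem_compl.1 hi) (by
    rw [← lf_coeff_top (a i) u v, h, coeff_zero])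
  have hf0 : f ≠ 0 := Finset.prod_ne_zero_iff.2 hne
  have hfd : f.natDegree = ∑ i ∈ Zᶜ, d i := by
    rw [hf, natDegree_prod _ _ hne]
    exact Finset.sum_congr rfl fun i hi => hdeg i (Finset.mem_compl.1 hi)
  have hdvd : ∀ i ∉ Z, lf (a i) u v ∣ f := fun i hi =>
    Finset.dvd_prod_of_mem (fun i => lf (a i) u v) (Finset.mem_compl.2 hi)
  have h3' : ∀ h : K[X], h ≠ 0 → (∃ n, f ∣ h ^ n) → 3 ≤ h.natDegree := by
    rintro h h0 ⟨n, hn⟩
    exact h3 h h0 fun i hi => ⟨n, (hdvd i hi).trans hn⟩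
  obtain ⟨r₁, hr1, r₂, hr2, r₃, hr3, h12, h13, h23⟩ := la_three (E := E) f hf0 h3'
  rw [← hφ] at hr1 hr2 hr3
  obtain ⟨R, hR⟩ : ∃ R : Multiset E, R = (f.map φ).roots := ⟨_, rfl⟩
  rw [← hR] at hr1 hr2 hr3
  have hsplit : (f.map φ).Splits := IsAlgClosed.splits _
  have hcard : R.card = ∑ i ∈ Zᶜ, d i := by
    rw [hR, ← hsplit.natDegree_eq_card_roots, natDegree_map, hfd]
  obtain ⟨T, hT⟩ : ∃ T : Set E, T = (R.toFinset : Set E) ∪
    ((fun p : E × E => (p.1 - p.2)⁻¹) '' ((R.toFinset : Set E) ×ˢ (R.toFinset : Set E))) ∪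
    (Set.range fun l => φ (u l)) ∪ (Set.range fun l => φ (v l)) ∪
    {φ (u b * v b' - u b' * v b)⁻¹, (f.map φ).leadingCoeff} := ⟨_, rfl⟩
  have hTfin : T.Finite := by
    rw [hT]
    exact ((((Finset.finite_toSet _).union (((Finset.finite_toSet _).prod
      (Finset.finite_toSet _)).image _)).union (Set.finite_range _)).union
      (Set.finite_range _)).union (Set.toFinite _)
  obtain ⟨A', hA'fg, hTA, hAA⟩ : ∃ A' : Subalgebra ℤ E, A'.FG ∧ (∀ e ∈ T, e ∈ A') ∧
      ∀ e ∈ A, φ e ∈ A' :=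
    ⟨A.map φ.toIntAlgHom ⊔ Algebra.adjoin ℤ T,
      (hA.map _).sup (Subalgebra.fg_def.2 ⟨T, hTfin, rfl⟩),
      fun e he => (le_sup_right : Algebra.adjoin ℤ T ≤ _) (Algebra.subset_adjoin he),
      fun e he => (le_sup_left : A.map φ.toIntAlgHom ≤ _) (Subalgebra.mem_map.2 ⟨e, he, rfl⟩)⟩
  rw [hT] at hTA
  have hRA : ∀ r ∈ R, r ∈ A' := fun r hr => hTA r
    (Or.inl (Or.inl (Or.inl (Or.inl (Multiset.mem_toFinset.2 hr)))))
  have hinv : ∀ r ∈ R, ∀ r' ∈ R, (r - r')⁻¹ ∈ A' := fun r hr r' hr' => hTA _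
    (Or.inl (Or.inl (Or.inl (Or.inr ⟨(r, r'), ⟨Multiset.mem_toFinset.2 hr,
      Multiset.mem_toFinset.2 hr'⟩, rfl⟩))))
  have huA : ∀ l, φ (u l) ∈ A' := fun l => hTA _ (Or.inl (Or.inl (Or.inr ⟨l, rfl⟩)))
  have hvA : ∀ l, φ (v l) ∈ A' := fun l => hTA _ (Or.inl (Or.inr ⟨l, rfl⟩))
  have hpA : φ (u b * v b' - u b' * v b)⁻¹ ∈ A' := hTA _ (Or.inr (Or.inl rfl))
  have hcA : (f.map φ).leadingCoeff ∈ A' := hTA _ (Or.inr (Or.inr rfl))
  -- the powers of `z` divided by the value of `f`
  have key : ∀ z : K, (∀ i ∉ Z, form (a i) (fun l => u l + z * v l) ≠ 0 ∧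
      ∀ J : Sym σ (d i), mon (fun l => u l + z * v l) J /
        form (a i) (fun l => u l + z * v l) ∈ A) →
      (f.map φ).eval (φ z) ≠ 0 ∧
        ∀ j ≤ ∑ i ∈ Zᶜ, d i, φ z ^ j / (f.map φ).eval (φ z) ∈ A' := by
    intro z hz
    have h1 : (f.map φ).eval (φ z) = ∏ i ∈ Zᶜ, φ (form (a i) fun l => u l + z * v l) := by
      rw [eval_map_apply, hf, eval_prod, map_prod]
      refine Finset.prod_congr rfl fun i _ => ?_
      rw [lf_eval]
    rw [h1]
    refine ⟨Finset.prod_ne_zero_iff.2 fun i hi => ?_, la_prod A' _ fun i hi j hj => ?_⟩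
    · rw [Ne, map_eq_zero]
      exact (hz i (Finset.mem_compl.1 hi)).1
    · have hz' := (hz i (Finset.mem_compl.1 hi)).2
      have h2 : ∀ m ≤ d i, φ (u b + z * v b) ^ m * φ (u b' + z * v b') ^ (d i - m) /
          φ (form (a i) fun l => u l + z * v l) ∈ A' := by
        intro m hm
        obtain ⟨J, hJ⟩ := la_mon (E := K) hm b b'
        have h4 := hAA _ (hz' J)
        rw [hJ, map_div₀, map_mul, map_pow, map_pow] at h4
        exact h4
      have hp0 : φ (u b * v b' - u b' * v b) ≠ 0 := by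
        rw [Ne, map_eq_zero]
        exact hpi
      have h5 := la_lin A' (α := -(φ (u b') * φ (u b * v b' - u b' * v b)⁻¹))
        (β := φ (u b) * φ (u b * v b' - u b' * v b)⁻¹)
        (γ := φ (v b') * φ (u b * v b' - u b' * v b)⁻¹)
        (δ := -(φ (v b) * φ (u b * v b' - u b' * v b)⁻¹)) h2
        (neg_mem (mul_mem (huA _) hpA)) (mul_mem (huA _) hpA) (mul_mem (hvA _) hpA)
        (neg_mem (mul_mem (hvA _) hpA)) hj
      have h6 : -(φ (u b') * φ (u b * v b' - u b' * v b)⁻¹) * φ (u b + z * v b) +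
          φ (u b) * φ (u b * v b' - u b' * v b)⁻¹ * φ (u b' + z * v b') = φ z := by
        have h8 : -(u b' * (u b * v b' - u b' * v b)⁻¹) * (u b + z * v b) +
            u b * (u b * v b' - u b' * v b)⁻¹ * (u b' + z * v b') = z := by
          linear_combination z * inv_mul_cancel₀ hpi
        simpa only [map_add, map_mul, map_neg] using congrArg φ h8
      have h7 : φ (v b') * φ (u b * v b' - u b' * v b)⁻¹ * φ (u b + z * v b) +
          -(φ (v b) * φ (u b * v b' - u b' * v b)⁻¹) * φ (u b' + z * v b') = 1 := by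
        have h8 : v b' * (u b * v b' - u b' * v b)⁻¹ * (u b + z * v b) +
            -(v b * (u b * v b' - u b' * v b)⁻¹) * (u b' + z * v b') = 1 := by
          linear_combination inv_mul_cancel₀ hpi
        simpa only [map_add, map_mul, map_neg, map_one] using congrArg φ h8
      rw [h6, h7, one_pow, mul_one] at h5
      exact h5
  have hev : ∀ z : E, (f.map φ).eval z =
      (f.map φ).leadingCoeff * (R.map fun r => z - r).prod := by
    rw [hR]
    exact fun z => hsplit.eval_eq_prod_roots z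
  have hroot : ∀ r ∈ R, (f.map φ).eval r = 0 := by
    rw [hR]
    exact fun r hr => (mem_roots (map_ne_zero hf0)).1 hr
  refine Set.Finite.of_injOn (f := fun z : K => ((φ z - r₁) * (r₂ - r₃)) /
    ((φ z - r₃) * (r₂ - r₁))) ?_ ?_ (units_field A' hA'fg)
  · intro z hz
    obtain ⟨hF0, hF⟩ := key z hz
    have hq : ∀ r₀ ∈ R, ∀ r ∈ R, (φ z - r) / (φ z - r₀) ∈ A' := fun r₀ h0 r h =>
      la_quot A' hF R hRA hcard hcA (hev _) hF0 h0 (hRA r h)
    have hn : ∀ r ∈ R, φ z - r ≠ 0 := by
      intro r hr h0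
      apply hF0
      rw [sub_eq_zero.1 h0]
      exact hroot r hr
    have e1 := hn r₁ hr1
    have e2 := hn r₂ hr2
    have e3 := hn r₃ hr3
    have e21 : r₂ - r₁ ≠ 0 := sub_ne_zero.2 h12.symm
    have e23 : r₂ - r₃ ≠ 0 := sub_ne_zero.2 h23
    have e31 : r₃ - r₁ ≠ 0 := sub_ne_zero.2 h13.symm
    have hw1 : 1 - ((φ z - r₁) * (r₂ - r₃)) / ((φ z - r₃) * (r₂ - r₁)) =
        ((φ z - r₂) / (φ z - r₃)) * ((r₃ - r₁) / (r₂ - r₁)) := by
      field_simp
      ring
    refine ⟨?_, ?_, ?_, ?_, ?_⟩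
    · exact div_ne_zero (mul_ne_zero e1 e23) (mul_ne_zero e3 e21)
    · intro h
      have h4 : (1 : E) - ((φ z - r₁) * (r₂ - r₃)) / ((φ z - r₃) * (r₂ - r₁)) = 0 := by
        rw [sub_eq_zero]
        exact h.symm
      rw [hw1] at h4
      exact mul_ne_zero (div_ne_zero e2 e3) (div_ne_zero e31 e21) h4
    · have h4 : ((φ z - r₁) * (r₂ - r₃)) / ((φ z - r₃) * (r₂ - r₁)) =
          (φ z - r₁) / (φ z - r₃) * ((r₂ - r₃) * (r₂ - r₁)⁻¹) := by
        field_simp
      change ((φ z - r₁) * (r₂ - r₃)) / ((φ z - r₃) * (r₂ - r₁)) ∈ A'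
      rw [h4]
      exact mul_mem (hq r₃ hr3 r₁ hr1) (mul_mem (sub_mem (hRA _ hr2) (hRA _ hr3))
        (hinv _ hr2 _ hr1))
    · have h4 : (((φ z - r₁) * (r₂ - r₃)) / ((φ z - r₃) * (r₂ - r₁)))⁻¹ =
          (φ z - r₃) / (φ z - r₁) * ((r₂ - r₁) * (r₂ - r₃)⁻¹) := by
        field_simp
      change (((φ z - r₁) * (r₂ - r₃)) / ((φ z - r₃) * (r₂ - r₁)))⁻¹ ∈ A'
      rw [h4]
      exact mul_mem (hq r₁ hr1 r₃ hr3) (mul_mem (sub_mem (hRA _ hr2) (hRA _ hr1))
        (hinv _ hr2 _ hr3))
    · change (1 - ((φ z - r₁) * (r₂ - r₃)) / ((φ z - r₃) * (r₂ - r₁)))⁻¹ ∈ A'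
      have h4 : (1 - ((φ z - r₁) * (r₂ - r₃)) / ((φ z - r₃) * (r₂ - r₁)))⁻¹ =
          (φ z - r₃) / (φ z - r₂) * ((r₂ - r₁) * (r₃ - r₁)⁻¹) := by
        rw [hw1]
        field_simp
      rw [h4]
      exact mul_mem (hq r₂ hr2 r₃ hr3) (mul_mem (sub_mem (hRA _ hr2) (hRA _ hr1))
        (hinv _ hr3 _ hr1))
  · intro z hz z' hz' h
    obtain ⟨hF0, -⟩ := key z hz
    obtain ⟨hF0', -⟩ := key z' hz'
    have hn : ∀ y : E, (f.map φ).eval y ≠ 0 → ∀ r ∈ R, y - r ≠ 0 := by
      intro y hy r hr h0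
      apply hy
      rw [sub_eq_zero.1 h0]
      exact hroot r hr
    have e3 := hn _ hF0 r₃ hr3
    have e3' := hn _ hF0' r₃ hr3
    have e21 : r₂ - r₁ ≠ 0 := sub_ne_zero.2 h12.symm
    have e23 : r₂ - r₃ ≠ 0 := sub_ne_zero.2 h23
    have e31 : r₃ - r₁ ≠ 0 := sub_ne_zero.2 h13.symm
    have h4 : ((φ z - r₁) * (r₂ - r₃)) / ((φ z - r₃) * (r₂ - r₁)) =
      ((φ z' - r₁) * (r₂ - r₃)) / ((φ z' - r₃) * (r₂ - r₁)) := h
    rw [div_eq_div_iff (mul_ne_zero e3 e21) (mul_ne_zero e3' e21)] at h4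
    have h5 : (φ z - φ z') * ((r₃ - r₁) * ((r₂ - r₃) * (r₂ - r₁))) = 0 := by
      linear_combination -h4
    have h6 : φ z - φ z' = 0 := by
      rcases mul_eq_zero.1 h5 with h6 | h6
      · exact h6
      · exact absurd h6 (mul_ne_zero e31 (mul_ne_zero e23 e21))
    exact φ.injective (sub_eq_zero.1 h6)

theorem la_mon_smul {K σ : Type*} [CommSemiring K] {n : ℕ} (s : K) (x : σ → K) (J : Sym σ n) :
    mon (fun l => s * x l) J = s ^ n * mon x J := by
  unfold mon
  rw [Multiset.prod_map_mul, Multiset.map_const', Multiset.prod_replicate, Sym.card_coe]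

theorem la_form_smul {K σ : Type*} [CommSemiring K] [Fintype σ] [DecidableEq σ] {n : ℕ}
    (a : Sym σ n → K) (s : K) (x : σ → K) :
    form a (fun l => s * x l) = s ^ n * form a x := by
  unfold form
  rw [Finset.mul_sum]
  refine Finset.sum_congr rfl fun J _ => ?_
  rw [la_mon_smul]
  ring

/-- The forms `F_i`, `i ∉ Z`, have together at least three distinct zeros on the line `u, v`, none
of them the point `v`: there are finitely many integral points on the line. -/
theorem line_arith {K : Type*} [Field K] [CharZero K] {σ ι : Type*} [Fintype σ] [DecidableEq σ]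
    [Fintype ι] [DecidableEq ι] {d : ι → ℕ} (a : (i : ι) → Sym σ (d i) → K) (Z : Finset ι)
    (A : Subalgebra ℤ K) (hA : A.FG) (u v : σ → K) (b b' : σ)
    (hpi : u b * v b' - u b' * v b ≠ 0) (hv : ∀ i ∉ Z, form (a i) v ≠ 0)
    (h3 : ∀ h : K[X], h ≠ 0 → (∀ i ∉ Z, ∃ n, lf (a i) u v ∣ h ^ n) → 3 ≤ h.natDegree)
    (i₀ : σ) :
    {x : σ → K | x i₀ = 1 ∧ (∀ i ∉ Z, form (a i) x ≠ 0 ∧
      ∀ J : Sym σ (d i), mon x J / form (a i) x ∈ A) ∧
      ∃ s t : K, ∀ l, x l = s * u l + t * v l}.Finite := by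
  refine ((la_param (AlgebraicClosure K) a Z A hA u v b b' hpi hv h3).image
    (fun z l => (u l + z * v l) / (u i₀ + z * v i₀))).union (Set.finite_singleton
      (fun l => v l / v i₀)) |>.subset ?_
  rintro x ⟨hx1, hx2, s, t, hst⟩
  by_cases hs : s = 0
  · right
    rw [Set.mem_singleton_iff]
    have h1 : t * v i₀ = 1 := by
      have h2 := hst i₀
      rw [hx1, hs, zero_mul, zero_add] at h2
      exact h2.symm
    have hv0 : v i₀ ≠ 0 := right_ne_zero_of_mul_eq_one h1
    funext l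
    rw [hst l, hs, zero_mul, zero_add, eq_div_iff hv0]
    linear_combination v l * h1
  · left
    have hx : x = fun l => s * (u l + t / s * v l) := by
      funext l
      rw [hst l]
      field_simp
    have h1 : s * (u i₀ + t / s * v i₀) = 1 := by
      rw [← hx1, hx]
    have hd0 : u i₀ + t / s * v i₀ ≠ 0 := right_ne_zero_of_mul_eq_one h1
    refine ⟨t / s, fun i hi => ?_, ?_⟩
    · obtain ⟨h2, h4⟩ := hx2 i hi
      rw [hx, la_form_smul] at h2
      have h5 : form (a i) (fun l => u l + t / s * v l) ≠ 0 := right_ne_zero_of_mul h2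
      refine ⟨h5, fun J => ?_⟩
      have h6 := h4 J
      rw [hx, la_form_smul, la_mon_smul, mul_div_mul_left _ _ (pow_ne_zero _ hs)] at h6
      exact h6
    · funext l
      change (u l + t / s * v l) / (u i₀ + t / s * v i₀) = x l
      rw [hst l, div_eq_iff hd0]
      have h7 : s * u l + t * v l = s * (u l + t / s * v l) := by
        field_simp
      rw [h7]
      linear_combination -(u l + t / s * v l) * h1

end Pool.Agent.Helper10.LB

end
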