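import Pool.Agent.Helper74.MG.T23
import Pool.Agent.Helper74.MG.T22
import Pool.Agent.Helper74.MG.T11
import Pool.Agent.Helper74.MG.T13
import Pool.Agent.Helper74.MG.T27
import Pool.Agent.Helper74.MG.T28
import Pool.Agent.Helper74.MG.T31
import Pool.Agent.Helper74.MG.T21

section

/-! # LB-C2: the coordinate of an integral point on a bounded line is bounded -/

set_option autoImplicit false

namespace Pool.Agent.Helper10.LB

open scoped BigOperators
open Polynomial Pool.Agent.Helper8.LG

/-- the monic squarefree polynomial with the same roots -/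
theorem exists_sqfree {F : Type*} [Field F] [CharZero F] (g : F[X]) (hg : g ≠ 0) :
    ∃ h w : F[X], h.Monic ∧ h.Separable ∧ h * w = g ∧ ∃ n, g ∣ h ^ n := by
  classical
  have hr0 : UniqueFactorizationMonoid.radical g ≠ 0 := UniqueFactorizationMonoid.radical_ne_zero
  have has : Associated (normalize (UniqueFactorizationMonoid.radical g))
      (UniqueFactorizationMonoid.radical g) := normalize_associated _
  obtain ⟨w, hw⟩ := has.dvd.trans (UniqueFactorizationMonoid.radical_dvd_self (a := g))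
  obtain ⟨n, hn⟩ := UniqueFactorizationMonoid.exists_dvd_radical_self_pow hg
  refine ⟨normalize (UniqueFactorizationMonoid.radical g), w, Polynomial.monic_normalize hr0, ?_,
    hw.symm, n, hn.trans (pow_dvd_pow_of_dvd has.symm.dvd n)⟩
  rw [PerfectField.separable_iff_squarefree]
  exact (UniqueFactorizationMonoid.squarefree_radical (a := g)).squarefree_of_dvd has.dvd

/-- polynomials with coefficients in a subfield -/
theorem exists_lift_sub {Ω : Type*} [Field Ω] (F : Subfield Ω) (p : Polynomial Ω)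
    (hp : ∀ n, p.coeff n ∈ F) : ∃ p' : F[X], p'.map F.subtype = p := by
  have h : p ∈ Polynomial.lifts F.subtype := by
    rw [Polynomial.lifts_iff_coeff_lifts]
    intro n
    exact ⟨⟨p.coeff n, hp n⟩, rfl⟩
  exact (Polynomial.mem_lifts _).1 h

/-- the polynomial `q` with `h ∣ e + h' q` -/
theorem exists_q {F : Type*} [Field F] (h e : F[X]) (hm : h.Monic) (hs : h.Separable)
    (hdeg : h.natDegree ≠ 0) :
    ∃ q : F[X], q.natDegree < h.natDegree ∧ h ∣ e + derivative h * q := by
  obtain ⟨α, β, hab⟩ := hs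
  refine ⟨(-(β * e)) %ₘ h, ?_, ?_⟩
  · exact Polynomial.natDegree_modByMonic_lt _ hm (fun h1 => hdeg (by rw [h1, natDegree_one]))
  · have h1 := Polynomial.modByMonic_add_div (-(β * e)) h
    refine ⟨α * e - derivative h * ((-(β * e)) /ₘ h), ?_⟩
    have h2 : (-(β * e)) %ₘ h = -(β * e) - h * ((-(β * e)) /ₘ h) := eq_sub_of_add_eq h1
    rw [h2]
    linear_combination (-e) * hab

/-- **The coordinate `z` of the integral point `x = lam (u + z v)` on the bounded line `u, v` is
algebraic over the bounded elements.** -/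
theorem case_two {k L Ω : Type*} [Field k] [Field L] [CharZero L] [Algebra k L] [Field Ω]
    {Q : (ℕ → L) →+* Ω} (hQ : IsUl Q) {T : Type*} [Finite T] [DecidableEq T] (y : T → L)
    {σ ι τ : Type*} [Fintype σ] [DecidableEq σ]
    [Fintype ι] [DecidableEq ι] [Fintype τ] {d : ι → ℕ} (hd : ∀ i, 0 < d i)
    (a : (i : ι) → Sym σ (d i) → L) (D : Ix σ d → Derivation ℤ L L) (hy : Dirs k y D)
    (jj : τ → Ix σ d) (θ : τ → Ix σ d → L) (hD : Dual d a D jj θ) (Z : Finset ι)
    (hnum : 2 * Fintype.card σ + Fintype.card τ ≤ ∑ i, d i + Z.card + 1)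
    (A : Subalgebra k L) (hA : A.FG) (X : ℕ → σ → L) (hX : ∀ m, Pt a Z A.toSubring (X m))
    (u v : σ → Ω) (hu : ∀ l, u l ∈ BF k hQ) (hv : ∀ l, v l ∈ BF k hQ) (b b' : σ)
    (hpi : u b * v b' - u b' * v b ≠ 0)
    (htop : ∀ i ∉ Z, form (fun J => Q fun _ => a i J) v ≠ 0) (lam z : Ω) (hlam : lam ≠ 0)
    (hx : ∀ l, (Q fun m => X m l) = lam * (u l + z * v l)) :
    IsAlgebraic (BF k hQ) z := by
  classical
  by_contra hz
  have hz' : Transcendental (BF k hQ) z := hz
  have hzF : z ∉ BF k hQ := by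
    intro h
    exact hz (isAlgebraic_algebraMap (⟨z, h⟩ : BF k hQ))
  have : CharZero Ω := by
    have hinj : Function.Injective (Q.comp (Pi.constRingHom ℕ L)) :=
      (Q.comp (Pi.constRingHom ℕ L)).injective
    exact charZero_of_injective_ringHom hinj
  -- the line over the field of the bounded elements
  set F := BF k hQ with hF
  set u' : σ → F := fun l => ⟨u l, hu l⟩ with hu'
  set v' : σ → F := fun l => ⟨v l, hv l⟩ with hv'
  set a' : (i : ι) → Sym σ (d i) → F := fun i J => ⟨Q fun _ => a i J, const_mem hQ _⟩ with ha'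
  have hmap : ∀ i, (lf (a' i) u' v').map F.subtype = lf (fun J => Q fun _ => a i J) u v := by
    intro i
    rw [lf_map]
    rfl
  have hev0 : ∀ p : F[X], (p.map F.subtype).eval z = 0 → p = 0 := by
    intro p hp
    by_contra h0
    refine hz ⟨p, h0, ?_⟩
    rw [Polynomial.aeval_def, Polynomial.eval₂_eq_eval_map]
    exact hp
  have hform : ∀ i, form (fun J => Q fun _ => a i J) (fun l => u l + z * v l) * lam ^ d i =
      Q fun m => form (a i) (X m) := by
    intro i
    rw [ul_Q_form, funext hx, dirTwo_form_mul, mul_comm]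
  have hZ0 : ∀ i ∈ Z, lf (a' i) u' v' = 0 := by
    intro i hi
    refine hev0 _ ?_
    rw [hmap, lf_eval]
    have h1 := hform i
    have h2 : (fun m => form (a i) (X m)) = 0 := by
      funext m
      exact (hX m).zero i hi
    rw [h2, map_zero] at h1
    exact (mul_eq_zero.1 h1).resolve_right (pow_ne_zero _ hlam)
  have hU0 : ∀ i ∉ Z, lf (a' i) u' v' ≠ 0 := by
    intro i hi h0
    apply htop i hi
    rw [← lf_coeff_top (fun J => Q fun _ => a i J) u v, ← hmap, h0, Polynomial.map_zero,
      Polynomial.coeff_zero]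
  set g : F[X] := ∏ i ∈ Zᶜ, lf (a' i) u' v' with hg
  have hg0 : g ≠ 0 := Finset.prod_ne_zero_iff.2 fun i hi => hU0 i (Finset.mem_compl.1 hi)
  obtain ⟨h, w, hmon, hsep, hw, n, hn⟩ := exists_sqfree g hg0
  have hgmap : (h.map F.subtype) * (w.map F.subtype) =
      ∏ i ∈ Zᶜ, lf (fun J => Q fun _ => a i J) u v := by
    rw [← Polynomial.map_mul, hw, hg, Polynomial.map_prod]
    exact Finset.prod_congr rfl fun i _ => hmap i
  have hr : 3 ≤ (h.map F.subtype).natDegree := by
    have hDual : Dual d (fun i J => Q fun _ => a i J)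
        (fun p => ulDer Q hQ.surj hQ.ker (D p)) jj (fun j s => Q fun _ => θ j s) := by
      intro s q
      have h1 := congrArg (Q.comp (Pi.constRingHom ℕ L)) (hD s q)
      show ulDer Q hQ.surj hQ.ker (D s) (Q fun _ => a q.1 q.2) = _
      rw [ulDer_apply]
      rw [map_sub, map_sum] at h1
      have h2 : (Q fun _ => D s (a q.1 q.2)) =
          (Q.comp (Pi.constRingHom ℕ L)) (D s (a q.1 q.2)) := rfl
      rw [h2, h1]
      congr 1
      · split_ifs
        · exact map_one _
        · exact map_zero _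
      · refine Finset.sum_congr rfl fun j _ => ?_
        split_ifs
        · rfl
        · exact map_zero _
    refine three_roots d hd (fun i J => Q fun _ => a i J) _ jj _ hDual Z hnum u v b b' hpi
      (fun i hi => ?_) htop _ ?_ fun i hi => ?_
    · rw [← hmap, hZ0 i hi, Polynomial.map_zero]
    · exact (Polynomial.map_ne_zero_iff F.subtype.injective).2 hmon.ne_zero
    · refine ⟨n, ?_⟩
      have h1 : lf (a' i) u' v' ∣ h ^ n :=
        (Finset.dvd_prod_of_mem (fun i => lf (a' i) u' v') (Finset.mem_compl.2 hi)).trans hn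
      rw [← hmap, ← Polynomial.map_pow]
      exact Polynomial.map_dvd F.subtype h1
  rw [Polynomial.natDegree_map] at hr
  -- the polynomials q
  have hq : ∀ p : Ix σ d, ∃ q : F[X], q.natDegree < h.natDegree ∧
      h.map F.subtype ∣ mapD (ulDer Q hQ.surj hQ.ker (D p)) (h.map F.subtype) +
        derivative (h.map F.subtype) * q.map F.subtype := by
    intro p
    obtain ⟨e, he⟩ := exists_lift_sub F (mapD (ulDer Q hQ.surj hQ.ker (D p)) (h.map F.subtype))
      (fun n => by
        rw [coeff_mapD, Polynomial.coeff_map]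
        exact der_mem hQ (D p) (hy.ker p) _ (h.coeff n).2)
    obtain ⟨q, hq1, hq2⟩ := exists_q h e hmon hsep (by omega)
    refine ⟨q, hq1, ?_⟩
    rw [← he, Polynomial.derivative_map, ← Polynomial.map_mul, ← Polynomial.map_add]
    exact Polynomial.map_dvd _ hq2
  choose q hq1 hq2 using hq
  have hDz : ∀ p, ulDer Q hQ.surj hQ.ker (D p) z = ((q p).map F.subtype).eval z := by
    intro p
    refine (mason_bdd hQ y D hy a Z A hA X hX u v hu hv b b' hpi htop lam z hlam hx
      (h.map F.subtype) (w.map F.subtype) (fun n => ?_) (hmon.map _)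
      (by rw [Polynomial.natDegree_map]; exact hr) hsep.map hgmap p ((q p).map F.subtype)
      (fun n => ?_) (by rw [Polynomial.natDegree_map, Polynomial.natDegree_map]; exact hq1 p)
      (hq2 p)).resolve_left hzF
    · rw [Polynomial.coeff_map]
      exact (h.coeff n).2
    · rw [Polynomial.coeff_map]
      exact ((q p).coeff n).2
  have hdeg : ∀ p, ((q p).map F.subtype).natDegree ≤ 2 := by
    intro p
    by_contra hlt
    exact hzF (tail_bdd hQ y D hy p ((q p).map F.subtype)
      (fun n => by rw [Polynomial.coeff_map]; exact ((q p).coeff n).2) (by omega) z (hDz p))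
  refine hz (riccati F (fun p => ulDer Q hQ.surj hQ.ker (D p))
    (fun c hc => const_Ω hQ y D hy c hc) (h.map F.subtype)
    (fun n => by rw [Polynomial.coeff_map]; exact (h.coeff n).2) hsep.map
    (by rw [Polynomial.natDegree_map]; exact hr) (fun p => (q p).map F.subtype) hdeg hq2 z hDz ?_)
  intro h0
  exact hmon.ne_zero (hev0 h h0)

end Pool.Agent.Helper10.LB

end

section

/-! # LB-PB: sequences of integral points with bounded two-vectors are bounded -/

set_option autoImplicit false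

namespace Pool.Agent.Helper10.LB

open scoped BigOperators
open Polynomial Pool.Agent.Helper8.LG

/-- a nonzero polynomial does not vanish at some natural number -/
private theorem pb_nat {Ω : Type*} [Field Ω] [CharZero Ω] (p : Polynomial Ω) (hp : p ≠ 0) :
    ∃ n : ℕ, p.eval (n : Ω) ≠ 0 := by
  by_contra h
  push Not at h
  apply hp
  refine Polynomial.eq_zero_of_infinite_isRoot p ?_
  exact Set.infinite_of_injective_forall_mem (f := fun n : ℕ => (n : Ω)) Nat.cast_injective
    fun n => h n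

private theorem pb_alg1 {F : Type*} [Field F] (u v z n : F) (h : 1 - n * z ≠ 0) :
    u + z * v = (1 - n * z) * (u + z / (1 - n * z) * (v + n * u)) := by
  have h1 : (1 - n * z) * (z / (1 - n * z)) = z := mul_div_cancel₀ z h
  linear_combination -(v + n * u) * h1

private theorem pb_alg2 {F : Type*} [Field F] (z n : F) (h : 1 - n * z ≠ 0) :
    z = z / (1 - n * z) / (1 + n * (z / (1 - n * z))) := by
  have h1 : (1 - n * z) * (z / (1 - n * z)) = z := mul_div_cancel₀ z h
  generalize z / (1 - n * z) = t at h1 ⊢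
  have h2 : 1 + n * t ≠ 0 := by
    intro h0
    have h3 : t = 0 := by linear_combination h1 + z * h0
    rw [h3, mul_zero, add_zero] at h0
    exact one_ne_zero h0
  rw [eq_div_iff h2]
  linear_combination -h1

/-- `G x_l` is in a finite-dimensional space for infinitely many members of the sequence -/
theorem point_bdd {k L : Type*} [Field k] [Field L] [CharZero L] [Algebra k L]
    {T : Type*} [Finite T] [DecidableEq T] (y : T → L)
    {σ ι τ : Type*} [Fintype σ] [DecidableEq σ]
    [Fintype ι] [DecidableEq ι] [Fintype τ] {d : ι → ℕ} (hd : ∀ i, 0 < d i)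
    (a : (i : ι) → Sym σ (d i) → L) (D : Ix σ d → Derivation ℤ L L) (hy : Dirs k y D)
    (jj : τ → Ix σ d) (θ : τ → Ix σ d → L) (hD : Dual d a D jj θ) (Z : Finset ι)
    (hnum : 2 * Fintype.card σ + Fintype.card τ ≤ ∑ i, d i + Z.card + 1)
    (A : Subalgebra k L) (hA : A.FG) (i₀ : σ)
    (V : Submodule k L) [FiniteDimensional k V] (X : ℕ → σ → L)
    (hX : ∀ m, Pt a Z A.toSubring (X m)) (h1 : ∀ m, X m i₀ = 1)
    (hP : ∀ m, ∃ δ : σ → L, (∃ j l, X m j * δ l - X m l * δ j ≠ 0) ∧
      ∀ j l, X m j * δ l - X m l * δ j ∈ V) :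
    ∃ V' : Submodule k L, FiniteDimensional k V' ∧
      {m | ∃ G : L, G ≠ 0 ∧ ∀ l, G * X m l ∈ V'}.Infinite := by
  classical
  choose δ hδ hδV using hP
  obtain ⟨Ω, _, Q, hsurj, hker⟩ := ul_exists L
  have hQ : IsUl Q := ⟨hsurj, hker⟩
  have : CharZero Ω := by
    have hinj : Function.Injective (Q.comp (Pi.constRingHom ℕ L)) :=
      (Q.comp (Pi.constRingHom ℕ L)).injective
    exact charZero_of_injective_ringHom hinj
  set x : σ → Ω := fun l => Q fun m => X m l with hx
  set e : σ → Ω := fun l => Q fun m => δ m l with he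
  set P : σ → σ → Ω := fun j l => x j * e l - x l * e j with hPdef
  have hPQ : ∀ j l, P j l = Q fun m => X m j * δ m l - X m l * δ m j := by
    intro j l
    have h2 : (fun m => X m j * δ m l - X m l * δ m j) =
        (fun m => X m j) * (fun m => δ m l) - (fun m => X m l) * (fun m => δ m j) := rfl
    rw [h2, map_sub, map_mul, map_mul]
  have hPF : ∀ j l, P j l ∈ BF k hQ := by
    intro j l
    rw [mem_BF]
    have h1V : (1 : L) ∈ V ⊔ k ∙ (1 : L) :=
      (le_sup_right : k ∙ (1 : L) ≤ V ⊔ k ∙ (1 : L)) (Submodule.mem_span_singleton_self _)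
    refine bset_of_fd hQ (V ⊔ k ∙ (1 : L)) (fun m => X m j * δ m l - X m l * δ m j)
      (fun _ => 1) (Filter.Eventually.of_forall fun m => ?_)
      (Filter.Eventually.of_forall fun m => h1V)
      (Filter.Eventually.of_forall fun m => one_ne_zero) _ ?_
    · exact (le_sup_left : V ≤ V ⊔ k ∙ (1 : L)) (hδV m j l)
    · have h2 : (fun _ : ℕ => (1 : L)) = 1 := rfl
      rw [hPQ, h2, map_one, mul_one]
  -- some two-vector entry is not zero
  have hP0 : ∃ j l, P j l ≠ 0 := by
    by_contra hcon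
    push Not at hcon
    have h2 : ∀ᶠ m in (Filter.hyperfilter ℕ : Filter ℕ), ∀ j l,
        X m j * δ m l - X m l * δ m j = 0 := by
      rw [Filter.eventually_all]
      intro j
      rw [Filter.eventually_all]
      intro l
      have h3 := hcon j l
      rw [hPQ, hker] at h3
      exact h3
    obtain ⟨m, hm⟩ := h2.exists
    obtain ⟨j, l, hjl⟩ := hδ m
    exact hjl (hm j l)
  have hx0 : x i₀ = 1 := by
    have h2 : (fun m => X m i₀) = 1 := by
      funext m
      exact h1 m
    show (Q fun m => X m i₀) = 1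
    rw [h2, map_one]
  obtain ⟨b, hb⟩ : ∃ b, P i₀ b ≠ 0 := by
    by_contra hcon
    push Not at hcon
    have h2 : ∀ l, e l = x l * e i₀ := by
      intro l
      have h3 := hcon l
      simp only [hPdef, hx0, one_mul] at h3
      exact sub_eq_zero.1 h3
    obtain ⟨j, l, hjl⟩ := hP0
    apply hjl
    show x j * e l - x l * e j = 0
    rw [h2 l, h2 j]
    ring
  set z : Ω := x b with hz
  set lam : Ω := (P i₀ b)⁻¹ with hlam
  have hlam0 : lam ≠ 0 := inv_ne_zero hb
  set u : σ → Ω := fun l => P l b with hu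
  set v : σ → Ω := fun l => P i₀ l with hv
  have hxl : ∀ l, x l = lam * (u l + z * v l) := by
    intro l
    rw [hlam, eq_inv_mul_iff_mul_eq₀ hb]
    show (x i₀ * e b - x b * e i₀) * x l =
      (x l * e b - x b * e l) + x b * (x i₀ * e l - x l * e i₀)
    rw [hx0]
    ring
  have hform : ∀ i, form (fun J => Q fun _ => a i J) (fun l => u l + z * v l) * lam ^ d i =
      Q fun m => form (a i) (X m) := by
    intro i
    rw [ul_Q_form]
    have h2 : (fun l => Q fun m => X m l) = fun l => lam * (u l + z * v l) := funext hxl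
    rw [h2, dirTwo_form_mul, mul_comm]
  have hne : ∀ i ∉ Z, lf (fun J => Q fun _ => a i J) v u ≠ 0 := by
    intro i hi h0
    have h2 : (lf (fun J => Q fun _ => a i J) v u).reflect (d i) = 0 := by
      rw [h0, Polynomial.reflect_zero]
    rw [lf_reflect] at h2
    have h3 : (lf (fun J => Q fun _ => a i J) u v).eval z = 0 := by rw [h2, eval_zero]
    rw [lf_eval] at h3
    have h4 := hform i
    rw [h3, zero_mul] at h4
    have h5 := (hker _).1 h4.symm
    obtain ⟨m, hm⟩ := h5.exists
    exact (hX m).ne i hi hm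
  obtain ⟨n, hn⟩ := pb_nat ((1 - C z * Polynomial.X) *
      ∏ i ∈ Zᶜ, lf (fun J => Q fun _ => a i J) v u) (by
    refine mul_ne_zero ?_ (Finset.prod_ne_zero_iff.2 fun i hi => hne i (Finset.mem_compl.1 hi))
    intro h0
    have h2 : (1 - C z * Polynomial.X : Polynomial Ω).eval 0 = 0 := by rw [h0, eval_zero]
    simp at h2)
  rw [eval_mul, eval_prod] at hn
  have hn1 : 1 - n * z ≠ 0 := by
    have h2 := left_ne_zero_of_mul hn
    simp only [eval_sub, eval_one, eval_mul, eval_C, eval_X] at h2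
    rwa [mul_comm]
  have hn2 : ∀ i ∉ Z, form (fun J => Q fun _ => a i J) (fun l => v l + n * u l) ≠ 0 := by
    intro i hi
    have h2 := Finset.prod_ne_zero_iff.1 (right_ne_zero_of_mul hn) i (Finset.mem_compl.2 hi)
    rwa [lf_eval] at h2
  have huF : ∀ l, u l ∈ BF k hQ := fun l => hPF l b
  have hvF : ∀ l, v l ∈ BF k hQ := fun l => hPF i₀ l
  have hnF : (n : Ω) ∈ BF k hQ := natCast_mem _ n
  have halg : IsAlgebraic (BF k hQ) (z / (1 - n * z)) := by
    refine case_two hQ y hd a D hy jj θ hD Z hnum A hA X hX u (fun l => v l + n * u l) huF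
      (fun l => add_mem (hvF l) (mul_mem hnF (huF l))) i₀ b ?_ hn2 (lam * (1 - n * z)) _
      (mul_ne_zero hlam0 hn1) fun l => ?_
    · have h2 : u i₀ * (v b + n * u b) - u b * (v i₀ + n * u i₀) = P i₀ b ^ 2 := by
        have h3 : u b = 0 := by
          show x b * e b - x b * e b = 0
          ring
        rw [h3]
        show P i₀ b * (P i₀ b + n * 0) - 0 * _ = _
        ring
      show u i₀ * (v b + n * u b) - u b * (v i₀ + n * u i₀) ≠ 0
      rw [h2]
      exact pow_ne_zero _ hb
    · show x l = _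
      rw [hxl l, mul_assoc]
      congr 1
      exact pb_alg1 _ _ _ _ hn1
  have hz' : z / (1 - n * z) ∈ BF k hQ := alg_bdd hQ y D hy _ halg
  have hzF : z ∈ BF k hQ := by
    rw [pb_alg2 z n hn1]
    exact div_mem hz' (add_mem (one_mem _) (mul_mem hnF hz'))
  have hxF : ∀ l, x l ∈ bset k Q := by
    intro l
    rw [← mem_BF k hQ, hxl l]
    exact mul_mem (inv_mem (hPF i₀ b)) (add_mem (huF l) (mul_mem hzF (hvF l)))
  obtain ⟨V', hV', nn, dd, hnn, hdd, hdd0, hxd⟩ := bset_common hQ x hxF
  refine ⟨V', hV', ?_⟩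
  have hev : ∀ᶠ m in (Filter.hyperfilter ℕ : Filter ℕ), ∀ l, X m l * dd m = nn l m := by
    rw [Filter.eventually_all]
    intro l
    have h2 : Q ((fun m => X m l) * dd) = Q (nn l) := by
      rw [map_mul]
      exact hxd l
    exact (ul_eq Q hker _ _).1 h2
  intro hfin
  refine Filter.notMem_hyperfilter_of_finite hfin ?_
  filter_upwards [hev] with m hm
  refine ⟨dd m, hdd0 m, fun l => ?_⟩
  rw [mul_comm, hm l]
  exact hnn l m

end Pool.Agent.Helper10.LB

end

section

/-! # LB-IL: infinitely many integral points on one line -/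

set_option autoImplicit false

namespace Pool.Agent.Helper10.LB

open scoped BigOperators
open Pool.Agent.Helper8.LG

/-- minors with more rows than coordinates -/
theorem minors_top {E P σ : Type*} [Field E] [Fintype σ] (D : P → Derivation ℤ E E)
    (x : σ → E) (w : ℕ) (hw : Fintype.card σ ≤ w + 1) : MinorsVanish D x w := by
  intro r c
  have hni : ¬ Function.Injective r := by
    intro hinj
    have h1 := Fintype.card_le_of_injective r hinj
    rw [Fintype.card_fin] at h1
    omega
  rw [Function.Injective] at hni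
  push Not at hni
  obtain ⟨s, s', hss, hne⟩ := hni
  refine Matrix.det_zero_of_row_eq hne ?_
  funext t
  simp only [Matrix.of_apply, hss]

private theorem ilDual {L σ ι τ : Type*} [Field L] [DecidableEq σ] [DecidableEq ι] [Fintype τ]
    (d : ι → ℕ) (a : (i : ι) → Sym σ (d i) → L)
    (D : Ix σ d → Derivation ℤ L L) (jj : τ → Ix σ d) (θ : τ → Ix σ d → L)
    (hD : Dual d a D jj θ) (T : Finset (Ix σ d)) (hT : ∀ j, jj j ∉ T) (q : Ix σ d) (p : T) :
    D q (a p.1.1 p.1.2) = if q = p.1 then 1 else 0 := by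
  have h := hD q p.1
  rw [Finset.sum_eq_zero, sub_zero] at h
  · exact h
  · intro j _
    rw [if_neg]
    rintro h1
    exact hT j (h1 ▸ p.2)

/-- the data of `Helper8.LG.reduce` give `Dirs` -/
theorem dirs_of_dual {k L : Type*} [Field k] [Field L] [Algebra k L]
    {σ ι τ : Type*} [Fintype σ] [DecidableEq σ] [Fintype ι] [DecidableEq ι] [Fintype τ]
    (d : ι → ℕ) (a : (i : ι) → Sym σ (d i) → L) (T : Finset (Ix σ d))
    (hind : AlgebraicIndependent k (fun p : T => a p.1.1 p.1.2))
    (hfin : FiniteDimensional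
      (IntermediateField.adjoin k (Set.range fun p : T => a p.1.1 p.1.2)) L)
    (D : Ix σ d → Derivation ℤ L L) (jj : τ → Ix σ d) (θ : τ → Ix σ d → L)
    (hD : Dual d a D jj θ) (hT : ∀ j, jj j ∉ T)
    (hDk : ∀ p (c : k), D p (algebraMap k L c) = 0) :
    Dirs k (fun p : T => a p.1.1 p.1.2) D := by
  refine ⟨hind, hfin, hDk, fun q p => ?_, fun p => ⟨p.1, fun q => ?_⟩⟩
  · rw [ilDual d a D jj θ hD T hT q p]
    split_ifs
    · exact ⟨1, by rw [Int.cast_one]⟩
    · exact ⟨0, by rw [Int.cast_zero]⟩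
  · rw [ilDual d a D jj θ hD T hT p.1 q]
    by_cases h : q = p
    · rw [if_pos h, if_pos (by rw [h])]
    · rw [if_neg h, if_neg fun h' => h (Subtype.ext h'.symm)]

/-- **An infinite set of integral points has infinitely many points on one line.** -/
theorem inf_line {k L : Type*} [Field k] [Field L] [CharZero L] [Algebra k L]
    {σ ι τ : Type*} [Fintype σ] [DecidableEq σ] [Fintype ι] [DecidableEq ι] [Fintype τ]
    (d : ι → ℕ) (hd : ∀ i, 0 < d i) (a : (i : ι) → Sym σ (d i) → L) (T : Finset (Ix σ d))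
    (hind : AlgebraicIndependent k (fun p : T => a p.1.1 p.1.2))
    (hfin : FiniteDimensional
      (IntermediateField.adjoin k (Set.range fun p : T => a p.1.1 p.1.2)) L)
    (D : Ix σ d → Derivation ℤ L L) (jj : τ → Ix σ d) (θ : τ → Ix σ d → L)
    (hD : Dual d a D jj θ) (hT : ∀ j, jj j ∉ T)
    (hDk : ∀ p (c : k), D p (algebraMap k L c) = 0)
    (Z : Finset ι) (i₀ j₁ : σ) (hj : j₁ ≠ i₀)
    (hw1 : 2 * Fintype.card σ + Fintype.card τ ≤ ∑ i, d i + Z.card + 1)
    (hw2 : Fintype.card σ + 1 ≤ ∑ i, d i)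
    (A : Subalgebra k L) (hA : A.FG) (S : Set (σ → L)) (hinf : S.Infinite)
    (hS : ∀ x ∈ S, x i₀ = 1 ∧ Pt a Z A.toSubring x) :
    ∃ (α β : σ) (p q : σ → L), α ≠ β ∧ p α = 1 ∧ p β = 0 ∧ q α = 0 ∧ q β = 1 ∧
      {x ∈ S | ∀ l, x l = x α * p l + x β * q l}.Infinite := by
  classical
  have hσ : 0 < Fintype.card σ := Fintype.card_pos_iff.2 ⟨i₀⟩
  set w : ℕ := Fintype.card σ - 1 with hw
  have hwσ : w + 1 = Fintype.card σ := by omega
  have hw1' : 2 * w + 1 + Fintype.card τ ≤ ∑ i, d i + Z.card := by omega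
  have hw2' : w + 2 ≤ ∑ i, d i := by omega
  have hmin : ∀ x : σ → L, MinorsVanish D x w := fun x => minors_top D x w (by omega)
  obtain ⟨V, hVfin, hV⟩ := Pool.Agent.Helper49.LG.bounded_line d hd a T hind hfin D jj θ hD hT
    hDk Z i₀ j₁ hj w hw1' hw2' A hA
  set X : ℕ → σ → L := fun m => (hinf.natEmbedding S m : σ → L) with hX
  have hXS : ∀ m, X m ∈ S := fun m => (hinf.natEmbedding S m).2
  have hXi : Function.Injective X := fun u v huv =>
    (hinf.natEmbedding S).injective (Subtype.ext huv)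
  have hX1 : ∀ m, X m i₀ = 1 := fun m => (hS _ (hXS m)).1
  have hXp : ∀ m, Pt a Z A.toSubring (X m) := fun m => (hS _ (hXS m)).2
  have hP : ∀ m, ∃ δ : σ → L, (∃ j l, X m j * δ l - X m l * δ j ≠ 0) ∧
      ∀ j l, X m j * δ l - X m l * δ j ∈ V := fun m =>
    hV (X m) (hX1 m) (hXp m).zero (hXp m).ne (hXp m).int (hmin _)
  have hdir : Dirs k (fun p : T => a p.1.1 p.1.2) D :=
    dirs_of_dual d a T hind hfin D jj θ hD hT hDk
  obtain ⟨V', hV'fin, hV'⟩ := point_bdd (fun p : T => a p.1.1 p.1.2) hd a D hdir jj θ hD Z hw1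
    A hA i₀ V X hXp hX1 hP
  obtain ⟨V'', hV''fin, hV''⟩ := second_round (fun p : T => a p.1.1 p.1.2) D hdir a Z A hA V'
  have hinf1 : (X '' {m | ∃ G : L, G ≠ 0 ∧ ∀ l, G * X m l ∈ V'}).Infinite :=
    hV'.image hXi.injOn
  obtain ⟨α, β, p, q, hαβ, hpα, hpβ, hqα, hqβ, hline⟩ :=
    Pool.Agent.Helper49.LG.ultra_line d hd a D jj θ hD hDk Z i₀ j₁ hj w hw1' hw2' (V' ⊔ V'')
      (X '' {m | ∃ G : L, G ≠ 0 ∧ ∀ l, G * X m l ∈ V'}) hinf1 (by
        rintro _ ⟨m, ⟨G, hG0, hG⟩, rfl⟩
        refine ⟨hX1 m, (hXp m).zero, (hXp m).ne, hmin _, G, hG0, fun l => ?_, fun i hi J => ?_⟩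
        · exact Submodule.mem_sup_left (hG l)
        · exact Submodule.mem_sup_right (hV'' (X m) G (hXp m) hG0 hG i hi J))
  refine ⟨α, β, p, q, hαβ, hpα, hpβ, hqα, hqβ, hline.mono ?_⟩
  rintro _ ⟨⟨m, _, rfl⟩, hx⟩
  exact ⟨hXS m, hx⟩

end Pool.Agent.Helper10.LB

end

section

/-! # LB-FA: finiteness of the integral points over arithmetic rings, over fields -/

set_option autoImplicit false

namespace Pool.Agent.Helper10.LB

open scoped BigOperators
open Polynomial Pool.Agent.Helper8.LG

theorem fa_form_mul {E σ : Type*} [CommRing E] [Fintype σ] [DecidableEq σ] {n : ℕ}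
    (a : Sym σ n → E) (lam : E) (y : σ → E) :
    form a (fun l => lam * y l) = lam ^ n * form a y := by
  unfold form mon
  rw [Finset.mul_sum]
  refine Finset.sum_congr rfl fun J _ => ?_
  rw [Multiset.prod_map_mul, Multiset.map_const', Multiset.prod_replicate, Sym.card_coe]
  ring

/-- a form which vanishes on the affine line `q + Y p` vanishes on the whole line -/
theorem fa_line_zero {E σ : Type*} [Field E] [Fintype σ] [DecidableEq σ] {n : ℕ}
    (a : Sym σ n → E) (p q : σ → E) (h : lf a q p = 0) (s t : E) :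
    form a (fun l => s * p l + t * q l) = 0 := by
  by_cases ht : t = 0
  · have h1 : form a p = 0 := by
      rw [← lf_coeff_top a q p, h, coeff_zero]
    have h2 : (fun l => s * p l + t * q l) = fun l => s * p l := by
      funext l
      rw [ht]
      ring
    rw [h2, fa_form_mul, h1, mul_zero]
  · have h1 : (fun l => s * p l + t * q l) = fun l => t * (q l + s / t * p l) := by
      funext l
      field_simp
      ring
    rw [h1, fa_form_mul, ← lf_eval, h, eval_zero, mul_zero]

theorem fa_adjoin_fg {k L : Type*} [Field k] [Field L] [Algebra k L] (A : Subalgebra ℤ L)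
    (hA : A.FG) : (Algebra.adjoin k (A : Set L)).FG := by
  obtain ⟨t, ht⟩ := hA
  refine ⟨t, le_antisymm ?_ ?_⟩
  · refine Algebra.adjoin_mono ?_
    rw [← ht]
    exact Algebra.subset_adjoin
  · refine Algebra.adjoin_le ?_
    have h1 : A ≤ (Algebra.adjoin k (t : Set L)).restrictScalars ℤ := by
      rw [← ht]
      exact Algebra.adjoin_le Algebra.subset_adjoin
    exact h1

/-- **Finiteness of integral points over finitely generated rings**, normalised coordinates. -/
theorem field_arith {L : Type*} [Field L] [CharZero L] (hfg : (⊤ : IntermediateField ℚ L).FG)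
    {σ ι : Type*} [Fintype σ] [DecidableEq σ] [Fintype ι] [DecidableEq ι]
    (d : ι → ℕ) (hd : ∀ i, 0 < d i) (a : (i : ι) → Sym σ (d i) → L) (c : ℕ)
    (hc : (Fintype.card (Ix σ d) : Cardinal) ≤ Algebra.trdeg ℚ
      (IntermediateField.adjoin ℚ (Set.range fun p : Ix σ d => a p.1 p.2)) + c)
    (Z : Finset ι) (i₀ : σ)
    (hw1 : 2 * Fintype.card σ + c ≤ ∑ i, d i + Z.card + 1)
    (hw2 : Fintype.card σ + 1 ≤ ∑ i, d i)
    (A : Subalgebra ℤ L) (hA : A.FG) :
    {x : σ → L | x i₀ = 1 ∧ (∀ i ∈ Z, form (a i) x = 0) ∧ ∀ i ∉ Z, form (a i) x ≠ 0 ∧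
      ∀ J : Sym σ (d i), mon x J / form (a i) x ∈ A}.Finite := by
  classical
  by_contra hinf
  set S : Set (σ → L) := {x : σ → L | x i₀ = 1 ∧ (∀ i ∈ Z, form (a i) x = 0) ∧
    ∀ i ∉ Z, form (a i) x ≠ 0 ∧ ∀ J : Sym σ (d i), mon x J / form (a i) x ∈ A} with hS
  have hinf' : S.Infinite := hinf
  by_cases hj : ∃ j₁ : σ, j₁ ≠ i₀
  swap
  · push Not at hj
    refine hinf ((Set.finite_singleton (fun _ : σ => (1 : L))).subset fun x hx => ?_)
    rw [Set.mem_singleton_iff]
    funext l
    rw [hj l]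
    exact hx.1
  obtain ⟨j₁, hj₁⟩ := hj
  obtain ⟨T, k, hT, hind, hfin, D, θ, hD, hDk⟩ := reduce hfg d a c hc
  have hnum : 2 * Fintype.card σ + Fintype.card {q : Ix σ d // q ∉ T} ≤
      ∑ i, d i + Z.card + 1 := by omega
  obtain ⟨α, β, p, q, hαβ, hpα, hpβ, hqα, hqβ, hline⟩ := inf_line d hd a T hind hfin D
    (fun j : {q : Ix σ d // q ∉ T} => j.1) θ hD (fun j => j.2) hDk Z i₀ j₁ hj₁ hnum hw2
    (Algebra.adjoin k (A : Set L)) (fa_adjoin_fg A hA) S hinf' (fun x hx =>
      ⟨hx.1, ⟨hx.2.1, fun i hi => (hx.2.2 i hi).1, fun i hi J =>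
        isIntegral_algebraMap (R := (Algebra.adjoin k (A : Set L)).toSubring)
          (x := ⟨_, Algebra.subset_adjoin ((hx.2.2 i hi).2 J)⟩)⟩⟩)
  set S' : Set (σ → L) := {x ∈ S | ∀ l, x l = x α * p l + x β * q l} with hS'
  -- a good second point
  obtain ⟨x₁, hx₁⟩ := hline.nonempty
  have hne : ∀ i ∉ Z, lf (a i) q p ≠ 0 := by
    intro i hi h0
    apply (hx₁.1.2.2 i hi).1
    have h1 := fa_line_zero (a i) p q h0 (x₁ α) (x₁ β)
    have h2 : x₁ = fun l => x₁ α * p l + x₁ β * q l := funext hx₁.2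
    rw [h2]
    exact h1
  have hprod : (∏ i ∈ Zᶜ, lf (a i) q p) ≠ 0 := by
    rw [Finset.prod_ne_zero_iff]
    intro i hi
    exact hne i (Finset.mem_compl.1 hi)
  obtain ⟨n, hn⟩ : ∃ n : L, (∏ i ∈ Zᶜ, lf (a i) q p).eval n ≠ 0 := by
    by_contra hall
    push Not at hall
    exact hprod (Polynomial.funext fun r => by rw [hall r, eval_zero])
  rw [eval_prod, Finset.prod_ne_zero_iff] at hn
  set v : σ → L := fun l => q l + n * p l with hv
  have hU : ∀ i ∉ Z, form (a i) v ≠ 0 := by
    intro i hi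
    have h1 := hn i (Finset.mem_compl.2 hi)
    rw [lf_eval] at h1
    exact h1
  have hpi : p α * v β - p β * v α ≠ 0 := by
    simp only [hv]
    rw [hpα, hpβ, hqα, hqβ]
    norm_num
  have hst : ∀ x ∈ S', ∀ l, x l = (x α - n * x β) * p l + x β * v l := by
    intro x hx l
    have h1 := hx.2 l
    show x l = (x α - n * x β) * p l + x β * (q l + n * p l)
    linear_combination h1
  -- the points off `v`
  set S'' : Set (σ → L) := {x ∈ S' | x α - n * x β ≠ 0} with hS''
  have hinf2 : S''.Infinite := by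
    intro hfin2
    have hsub : {x ∈ S' | x α - n * x β = 0}.Subsingleton := by
      intro x hx y hy
      have ex : ∀ l, x l = x β * v l := by
        intro l
        have h1 := hst x hx.1 l
        rw [hx.2] at h1
        linear_combination h1
      have ey : ∀ l, y l = y β * v l := by
        intro l
        have h1 := hst y hy.1 l
        rw [hy.2] at h1
        linear_combination h1
      have hx1 : x i₀ = 1 := hx.1.1.1
      have hy1 : y i₀ = 1 := hy.1.1.1
      have hxi := ex i₀
      have hyi := ey i₀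
      rw [hx1] at hxi
      rw [hy1] at hyi
      have hv0 : v i₀ ≠ 0 := by
        intro h0
        rw [h0, mul_zero] at hxi
        exact one_ne_zero hxi
      have hb : x β = y β := mul_right_cancel₀ hv0 (by rw [← hxi, ← hyi])
      funext l
      rw [ex l, ey l, hb]
    refine hline ((hfin2.union hsub.finite).subset fun x hx => ?_)
    by_cases h0 : x α - n * x β = 0
    · exact Or.inr ⟨hx, h0⟩
    · exact Or.inl ⟨hx, h0⟩
  have hz0 : ∀ x ∈ S'', ∀ l, x l =
      (x α - n * x β) * (p l + x β / (x α - n * x β) * v l) := by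
    intro x hx l
    have h1 := hst x hx.1 l
    have h2 : (x α - n * x β) * (x β / (x α - n * x β)) = x β := mul_div_cancel₀ _ hx.2
    linear_combination h1 - v l * h2
  have hinj : Set.InjOn (fun x : σ → L => x β / (x α - n * x β)) S'' := by
    intro x hx y hy hxy
    have hxy' : x β / (x α - n * x β) = y β / (y α - n * y β) := hxy
    have hx1 : x i₀ = 1 := hx.1.1.1
    have hy1 : y i₀ = 1 := hy.1.1.1
    have ex := hz0 x hx i₀
    have ey := hz0 y hy i₀
    rw [hx1] at ex
    rw [hy1, ← hxy'] at ey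
    have hv0 : p i₀ + x β / (x α - n * x β) * v i₀ ≠ 0 := by
      intro h0
      rw [h0, mul_zero] at ex
      exact one_ne_zero ex
    have hb : x α - n * x β = y α - n * y β :=
      mul_right_cancel₀ hv0 (by rw [← ex, ← ey])
    funext l
    rw [hz0 x hx l, hz0 y hy l, ← hxy', hb]
  have hZ : ∀ i ∈ Z, lf (a i) p v = 0 := by
    intro i hi
    refine Polynomial.eq_zero_of_infinite_isRoot _ ((hinf2.image hinj).mono ?_)
    rintro _ ⟨x, hx, rfl⟩
    show (lf (a i) p v).eval _ = 0
    have h1 : form (a i) x = 0 := hx.1.1.2.1 i hi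
    have h2 : x = fun l => (x α - n * x β) * (p l + x β / (x α - n * x β) * v l) :=
      funext (hz0 x hx)
    rw [h2, fa_form_mul, mul_eq_zero, or_iff_right (pow_ne_zero _ hx.2)] at h1
    rw [lf_eval]
    exact h1
  have hfinal := line_arith a Z A hA p v α β hpi hU (fun h h0 hdvd =>
    three_roots d hd a D (fun j : {q : Ix σ d // q ∉ T} => j.1) θ hD Z hnum p v α β hpi hZ hU h
      h0 hdvd) i₀
  exact hline (hfinal.subset fun x hx =>
    ⟨hx.1.1, hx.1.2.2, x α - n * x β, x β, hst x hx⟩)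

end Pool.Agent.Helper10.LB

end

section

/-!
# Points of the intersection of all the hypersurfaces are bounded
-/

set_option autoImplicit false

namespace Pool.Agent.Helper49.LG

open scoped BigOperators
open Pool.Agent.Helper8.LG

/-- The multiplier of a point: one `G` which works in all directions. -/
theorem exists_lead {L : Type*} [Field L] [CharZero L] {σ ι τ : Type*} [Fintype σ] [DecidableEq σ]
    [Fintype ι] [DecidableEq ι] [Fintype τ] (d : ι → ℕ)
    (a : (i : ι) → Sym σ (d i) → L) (D : Ix σ d → Derivation ℤ L L)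
    (jj : τ → Ix σ d) (θ : τ → Ix σ d → L) (hD : Dual d a D jj θ)
    (hw3 : 2 * Fintype.card σ + Fintype.card τ ≤ ∑ i, (d i + 1) + 3)
    (x δ : σ → L) (hx : ∀ i, form (a i) x = 0) (hP : ∃ j l, x j * δ l - x l * δ j ≠ 0) :
    ∃ G : L, G ≠ 0 ∧ ∀ (R : Subring L) (Δ : L), (∀ z : L, IsIntegral R z → z ∈ R) → Δ ≠ 0 →
      Δ ∈ R → (∀ i J, Δ * a i J ∈ R) → (∀ j l, Δ * (x j * δ l - x l * δ j) ∈ R) →
      ∀ l, Δ ^ (∑ i, d i + 2) * (G * x l) ∈ R := by
  classical
  obtain ⟨α, β, hαβ, hxα⟩ : ∃ α β, x α * δ β - x β * δ α ≠ 0 ∧ x α ≠ 0 := by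
    obtain ⟨j, l, hjl⟩ := hP
    by_cases hj : x j = 0
    · refine ⟨l, j, ?_, ?_⟩
      · intro h
        apply hjl
        linear_combination -h
      · intro h
        apply hjl
        rw [hj, h]
        ring
    · exact ⟨j, l, hjl, hj⟩
  set P : σ → σ → L := fun j l => x j * δ l - x l * δ j with hPdef
  have hP0 : P α β ≠ 0 := hαβ
  have hne : α ≠ β := by
    intro h
    apply hαβ
    rw [h]
    ring
  have hpp : ∀ j, P j j = 0 := fun j => by
    simp only [hPdef]
    ring
  obtain ⟨i, n, hin⟩ := gen_line d a D jj θ hD α β hne (fun l => P l β / P α β)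
    (fun l => P α l / P α β) (div_self hP0) (by rw [hpp, zero_div])
    (by rw [hpp, zero_div]) (div_self hP0) hw3
  set F := lineP (a i) (fun l => P l β) (fun l => P α l) with hF
  have hF0 : F ≠ 0 := by
    intro h0
    have h1 := lineP_eval (a i) (fun l => P l β) (fun l => P α l) (n : L)
    rw [← hF, h0, Polynomial.eval_zero] at h1
    apply hin
    have h2 := form_mul 1 (P α β)⁻¹ (a i) (fun l => P l β + n * P α l)
    rw [← h1, mul_zero] at h2
    simp only [one_mul] at h2
    rw [← h2]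
    congr 1
    funext l
    rw [div_eq_mul_inv, div_eq_mul_inv]
    ring
  set z := x β / x α with hz
  have hpl : ∀ l, P l β + z * P α l = P α β / x α * x l := by
    intro l
    rw [hz]
    simp only [hPdef]
    field_simp
    ring
  have hroot : form (a i) (fun l => P l β + z * P α l) = 0 := by
    have h2 := form_mul 1 (P α β / x α) (a i) x
    rw [hx i, mul_zero] at h2
    simp only [one_mul] at h2
    rw [← h2]
    congr 1
    funext l
    exact hpl l
  refine ⟨F.leadingCoeff * (P α β / x α),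
    mul_ne_zero (Polynomial.leadingCoeff_ne_zero.2 hF0) (div_ne_zero hP0 hxα), ?_⟩
  intro R Δ hR hΔ0 hΔ ha hPR l
  have h1 := lead_mem R hR Δ (a i) (fun l => P l β) (fun l => P α l) hΔ0 (ha i)
    (fun l => hPR l β) (fun l => hPR α l) z hroot l
  rw [hpl l, ← hF] at h1
  obtain ⟨r, hr⟩ : ∃ r, ∑ i, d i + 2 = d i + 2 + r := by
    apply Nat.exists_eq_add_of_le
    have h2 : d i ≤ ∑ i, d i := Finset.single_le_sum (f := d) (fun _ _ => Nat.zero_le _)
      (Finset.mem_univ i)
    omega
  rw [hr, pow_add]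
  have h3 : Δ ^ (d i + 2) * Δ ^ r * (F.leadingCoeff * (P α β / x α) * x l) =
      Δ ^ r * (Δ ^ (d i + 2) * (F.leadingCoeff * (P α β / x α * x l))) := by
    ring
  rw [h3]
  exact mul_mem (pow_mem hΔ r) h1

theorem intCl_closed {L : Type*} [Field L] (E₀ : Subfield L) (t : L)
    (h1 : IsDedekindDomain (intCl E₀ t)) (h2 : IsFractionRing (intCl E₀ t) L) (z : L)
    (hz : IsIntegral (intCl E₀ t) z) : z ∈ intCl E₀ t := by
  have := h1
  have := h2
  obtain ⟨y, hy⟩ := (IsIntegrallyClosed.isIntegral_iff (R := intCl E₀ t) (K := L)).1 hz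
  rw [← hy]
  exact y.2

/-- **Points of the intersection are bounded.** -/
theorem bounded_pt {k L : Type*} [Field k] [Field L] [CharZero L] [Algebra k L]
    {σ ι τ : Type*} [Fintype σ] [DecidableEq σ] [Fintype ι] [DecidableEq ι] [Fintype τ]
    (d : ι → ℕ) (hd : ∀ i, 0 < d i) (a : (i : ι) → Sym σ (d i) → L) (T : Finset (Ix σ d))
    (hind : AlgebraicIndependent k (fun p : T => a p.1.1 p.1.2))
    (hfin : FiniteDimensional
      (IntermediateField.adjoin k (Set.range fun p : T => a p.1.1 p.1.2)) L)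
    (D : Ix σ d → Derivation ℤ L L) (jj : τ → Ix σ d) (θ : τ → Ix σ d → L)
    (hD : Dual d a D jj θ) (hT : ∀ j, jj j ∉ T)
    (hDk : ∀ p (c : k), D p (algebraMap k L c) = 0)
    (i₀ j₁ : σ) (hj : j₁ ≠ i₀) (w : ℕ)
    (hw1 : 2 * w + 1 + Fintype.card τ ≤ ∑ i, (d i + 1)) (hw2 : w + 2 ≤ ∑ i, d i)
    (hw3 : 2 * Fintype.card σ + Fintype.card τ ≤ ∑ i, (d i + 1) + 3) :
    ∃ V : Submodule k L, FiniteDimensional k V ∧ ∀ x : σ → L, x i₀ = 1 →
      (∀ i, form (a i) x = 0) → MinorsVanish D x w → ∃ G : L, G ≠ 0 ∧ ∀ l, G * x l ∈ V := by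
  classical
  obtain ⟨V, hV, hVx⟩ := bounded_line d hd a T hind hfin D jj θ hD hT hDk Finset.univ i₀ j₁ hj w
    (by
      rw [Finset.sum_add_distrib, Finset.sum_const, smul_eq_mul, mul_one] at hw1
      exact hw1) hw2 ⊥ Subalgebra.fg_bot
  have := hV
  set y₀ : T → L := fun p : T => a p.1.1 p.1.2 with hy₀
  have htr := others_transcendental (k := k) y₀ hind
  have hof := others_finite (k := k) y₀ hfin
  set S : Set L := Set.range fun p : Ix σ d => a p.1 p.2 with hS
  have hSfin : S.Finite := Set.finite_range _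
  have hdir : ∀ (p : T) (t : L), Transcendental (others (k := k) y₀ p) t →
      FiniteDimensional (Subfield.closure ((others (k := k) y₀ p : Set L) ∪ {t})) L →
      ∃ Δ : L, Δ ≠ 0 ∧ Δ ∈ intCl (others (k := k) y₀ p) t ∧
        (∀ z : L, IsIntegral (intCl (others (k := k) y₀ p) t) z →
          z ∈ intCl (others (k := k) y₀ p) t) ∧
        (∀ f ∈ V, Δ * f ∈ intCl (others (k := k) y₀ p) t) ∧
        ∀ f ∈ S, Δ * f ∈ intCl (others (k := k) y₀ p) t := by
    intro p t ht hf
    obtain ⟨h1, h2⟩ := intCl_dedekind (others (k := k) y₀ p) t ht hf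
    have hk : ∀ c : k, algebraMap k L c ∈ intCl (others (k := k) y₀ p) t := by
      intro c
      have h3 : algebraMap k L c ∈ Subring.closure ((others (k := k) y₀ p : Set L) ∪ {t}) :=
        Subring.subset_closure (Or.inl (IntermediateField.algebraMap_mem _ c))
      exact isIntegral_algebraMap (x := (⟨algebraMap k L c, h3⟩ :
        Subring.closure ((others (k := k) y₀ p : Set L) ∪ {t})))
    have := h2
    obtain ⟨Δ, h4, h5, h6, h7⟩ := exists_den (intCl (others (k := k) y₀ p) t) hk V S hSfin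
    exact ⟨Δ, h4, h5, intCl_closed _ _ h1 h2, h6, h7⟩
  choose Δ₁ h10 h11 h12 h13 h14 using fun p => hdir p (y₀ p) (htr p).1 (hof p).1
  choose Δ₂ h20 h21 h22 h23 h24 using fun p => hdir p (y₀ p)⁻¹ (htr p).2 (hof p).2
  obtain ⟨V', hV', hV''⟩ := fd y₀ hind hfin (fun p => Δ₁ p ^ (∑ i, d i + 2))
    (fun p => Δ₂ p ^ (∑ i, d i + 2)) (fun p => pow_ne_zero _ (h10 p))
    (fun p => pow_ne_zero _ (h20 p))
  refine ⟨V', hV', fun x hx0 hx hm => ?_⟩
  obtain ⟨δ, hδ1, hδ2⟩ := hVx x hx0 (fun i _ => hx i) (fun i hi => absurd (Finset.mem_univ i) hi)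
    (fun i hi => absurd (Finset.mem_univ i) hi) hm
  obtain ⟨G, hG0, hG⟩ := exists_lead d a D jj θ hD hw3 x δ hx hδ1
  refine ⟨G, hG0, fun l => hV'' _ fun p => ⟨?_, ?_⟩⟩
  · exact hG _ (Δ₁ p) (h12 p) (h10 p) (h11 p) (fun i J => h14 p _ ⟨⟨i, J⟩, rfl⟩)
      (fun j l => h13 p _ (hδ2 j l)) l
  · exact hG _ (Δ₂ p) (h22 p) (h20 p) (h21 p) (fun i J => h24 p _ ⟨⟨i, J⟩, rfl⟩)
      (fun j l => h23 p _ (hδ2 j l)) l

end Pool.Agent.Helper49.LG

end

section

/-!
# Rational points of the intersection of all the hypersurfaces, over fields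
-/

set_option autoImplicit false

namespace Pool.Agent.Helper49.LG

open scoped BigOperators
open Pool.Agent.Helper8.LG

/-- Finitely many normalised points of a line lie in a hypersurface which does not contain it. -/
theorem line_finite {L : Type*} [Field L] {σ : Type*} [Fintype σ] [DecidableEq σ] {n : ℕ}
    (a : Sym σ n → L) (α β i₀ : σ) (p q : σ → L) (hF : lineP a p q ≠ 0) :
    {x : σ → L | x i₀ = 1 ∧ form a x = 0 ∧ ∀ l, x l = x α * p l + x β * q l}.Finite := by
  classical
  have h1 : {x : σ → L | (x i₀ = 1 ∧ ∀ l, x l = x α * p l + x β * q l) ∧ x α = 0}.Finite := by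
    refine Set.Subsingleton.finite ?_
    rintro x ⟨⟨h1, h2⟩, h3⟩ y ⟨⟨h4, h5⟩, h6⟩
    have h7 : x β * q i₀ = 1 := by
      have h8 := h2 i₀
      rw [h1, h3, zero_mul, zero_add] at h8
      exact h8.symm
    have h8 : y β * q i₀ = 1 := by
      have h9 := h5 i₀
      rw [h4, h6, zero_mul, zero_add] at h9
      exact h9.symm
    have hq : q i₀ ≠ 0 := by
      intro h
      rw [h, mul_zero] at h7
      exact zero_ne_one h7
    have h9 : x β = y β := mul_right_cancel₀ hq (h7.trans h8.symm)
    funext l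
    rw [h2 l, h5 l, h3, h6, h9]
  have h2 : {x : σ → L | (x i₀ = 1 ∧ form a x = 0 ∧ ∀ l, x l = x α * p l + x β * q l) ∧
      x α ≠ 0}.Finite := by
    have hinj : Set.InjOn (fun x : σ → L => x β / x α)
        {x : σ → L | (x i₀ = 1 ∧ form a x = 0 ∧ ∀ l, x l = x α * p l + x β * q l) ∧
          x α ≠ 0} := by
      rintro x ⟨⟨h1, -, h2⟩, h3⟩ y ⟨⟨h4, -, h5⟩, h6⟩ hxy
      have hxy' : x β / x α = y β / y α := hxy
      have h7 : x α * (p i₀ + x β / x α * q i₀) = 1 := by
        have h8 := h2 i₀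
        rw [h1] at h8
        rw [h8]
        field_simp
      have h8 : y α * (p i₀ + x β / x α * q i₀) = 1 := by
        have h9 := h5 i₀
        rw [h4] at h9
        rw [hxy', h9]
        field_simp
      have h9 : p i₀ + x β / x α * q i₀ ≠ 0 := by
        intro h
        rw [h, mul_zero] at h7
        exact zero_ne_one h7
      have h10 : x α = y α := mul_right_cancel₀ h9 (h7.trans h8.symm)
      have h11 : x β = y β := by
        rw [h10] at hxy'
        field_simp at hxy'
        exact hxy'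
      funext l
      rw [h2 l, h5 l, h10, h11]
    refine Set.Finite.of_finite_image ?_ hinj
    refine ((lineP a p q).roots.toFinset.finite_toSet).subset ?_
    rintro _ ⟨x, ⟨⟨_, h2, h3⟩, h4⟩, rfl⟩
    rw [Finset.mem_coe, Multiset.mem_toFinset, Polynomial.mem_roots hF, Polynomial.IsRoot,
      lineP_eval]
    have h5 := form_mul 1 (x α)⁻¹ a x
    rw [h2, mul_zero] at h5
    simp only [one_mul] at h5
    rw [← h5]
    congr 1
    funext l
    rw [h3 l]
    field_simp
  refine (h1.union h2).subset ?_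
  rintro x ⟨h3, h4, h5⟩
  by_cases h : x α = 0
  · exact Or.inl ⟨⟨h3, h5⟩, h⟩
  · exact Or.inr ⟨⟨h3, h4, h5⟩, h⟩

/-- **Rational points of the intersection**, normalised, over fields. -/
theorem final_line {k₀ L : Type*} [Field k₀] [Field L] [CharZero L] [Algebra k₀ L]
    (hfg : (⊤ : IntermediateField k₀ L).FG)
    {σ ι : Type*} [Fintype σ] [DecidableEq σ] [Fintype ι] [DecidableEq ι]
    (d : ι → ℕ) (hd : ∀ i, 0 < d i) (a : (i : ι) → Sym σ (d i) → L) (w c : ℕ)
    (hc : (Fintype.card (Ix σ d) : Cardinal) ≤ Algebra.trdeg k₀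
      (IntermediateField.adjoin k₀ (Set.range fun p : Ix σ d => a p.1 p.2)) + c)
    (i₀ : σ) (hw1 : 2 * w + 1 + c ≤ ∑ i, (d i + 1)) (hw2 : w + 2 ≤ ∑ i, d i)
    (hw3 : 2 * Fintype.card σ + c ≤ ∑ i, (d i + 1) + 3) :
    {x : σ → L | x i₀ = 1 ∧
      Algebra.trdeg k₀ (IntermediateField.adjoin k₀ (Set.range x)) ≤ w ∧
      ∀ i, form (a i) x = 0}.Finite := by
  classical
  by_cases hj : ∀ j, j = i₀
  · refine Set.Subsingleton.finite ?_
    rintro x ⟨h1, -⟩ y ⟨h2, -⟩
    funext l
    rw [hj l, h1, h2]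
  push Not at hj
  obtain ⟨j₁, hj⟩ := hj
  obtain ⟨T, k, hT, hind, hfin, D, θ, hD, hDk⟩ := reduce hfg d a c hc
  obtain ⟨V, hV, hVb⟩ := bounded_pt d hd a T hind hfin D (fun j => j.1) θ hD (fun j => j.2) hDk
    i₀ j₁ hj w (by omega) hw2 (by omega)
  have := hV
  by_contra hinf
  rw [← Set.Infinite] at hinf
  set S : Set (σ → L) := {x : σ → L | x i₀ = 1 ∧
      Algebra.trdeg k₀ (IntermediateField.adjoin k₀ (Set.range x)) ≤ w ∧
      ∀ i, form (a i) x = 0} with hS
  have hrank : ∀ x ∈ S, MinorsVanish D x w := by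
    rintro x ⟨h1, h2, -⟩
    refine minors_of_trdeg (k := k₀) D ?_ x i₀ h1 w h2
    intro p r
    have h7 : algebraMap k₀ L r = algebraMap k L (algebraMap k₀ k r) :=
      IsScalarTower.algebraMap_apply k₀ k L r
    rw [h7]
    exact hDk p _
  obtain ⟨α, β, p, q, hαβ, hpα, hpβ, hqα, hqβ, hline⟩ := ultra_line (k := k) d hd a D
    (fun j => j.1) θ hD hDk Finset.univ i₀ j₁ hj w (by
      rw [Finset.sum_add_distrib, Finset.sum_const, smul_eq_mul, mul_one] at hw1
      omega) hw2 V S hinf (by
      intro x hx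
      have hx' := hx
      obtain ⟨h1, h2, h3⟩ := hx'
      obtain ⟨G, hG0, hG⟩ := hVb x h1 h3 (hrank x hx)
      exact ⟨h1, fun i _ => h3 i, fun i hi => absurd (Finset.mem_univ i) hi, hrank x hx, G, hG0,
        hG, fun i hi => absurd (Finset.mem_univ i) hi⟩)
  obtain ⟨i, n, hin⟩ := gen_line d a D (fun j => j.1) θ hD α β hαβ p q hpα hpβ hqα hqβ (by omega)
  have hF : lineP (a i) p q ≠ 0 := by
    intro h0
    apply hin
    rw [← lineP_eval, h0, Polynomial.eval_zero]
  refine hline ((line_finite (a i) α β i₀ p q hF).subset ?_)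
  rintro x ⟨⟨h1, _, h3⟩, h4⟩
  exact ⟨h1, h3 i, h4⟩

end Pool.Agent.Helper49.LG

end

section

/-! # LB-FL: the integral points lie on finitely many lines -/

set_option autoImplicit false

namespace Pool.Agent.Helper10.LB

open scoped BigOperators
open Pool.Agent.Helper8.LG

/-- If every infinite subset of `S` has infinitely many points on one line, then `S` is contained
in finitely many lines. -/
theorem greedy {L σ : Type*} [Field L] [Fintype σ] (S : Set (σ → L))
    (h : ∀ S' ⊆ S, S'.Infinite → ∃ W : Submodule L (σ → L), Module.finrank L W ≤ 2 ∧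
      (S' ∩ W).Infinite) (i₀ : σ) (h1 : ∀ x ∈ S, x i₀ = 1) :
    ∃ Λ : Set (Submodule L (σ → L)), Λ.Finite ∧ (∀ W ∈ Λ, Module.finrank L W ≤ 2) ∧
      ∀ x ∈ S, ∃ W ∈ Λ, x ∈ W := by
  classical
  by_contra hcon
  have hpair : ∀ u v : σ → L, Module.finrank L (Submodule.span L ({u, v} : Set (σ → L))) ≤ 2 := by
    intro u v
    refine (finrank_span_le_card ({u, v} : Set (σ → L))).trans ?_
    rw [Set.toFinset_card, Fintype.card_ofFinset]
    exact Finset.card_le_two
  have hstep : ∀ F : Finset (σ → L), ∃ x, x ∈ S ∧ ∀ u ∈ F, ∀ v ∈ F,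
      x ∉ Submodule.span L ({u, v} : Set (σ → L)) := by
    intro F
    by_contra hF
    push Not at hF
    refine hcon ⟨((F ×ˢ F).image fun p => Submodule.span L ({p.1, p.2} : Set (σ → L)) :
      Finset (Submodule L (σ → L))), Finset.finite_toSet _, ?_, ?_⟩
    · intro W hW
      obtain ⟨p, -, rfl⟩ := Finset.mem_image.1 (Finset.mem_coe.1 hW)
      exact hpair p.1 p.2
    · intro x hx
      obtain ⟨u, hu, v, hv, hm⟩ := hF x hx
      exact ⟨_, Finset.mem_coe.2 (Finset.mem_image.2 ⟨(u, v), Finset.mk_mem_product hu hv, rfl⟩), hm⟩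
  choose g hgS hg using hstep
  let F : ℕ → Finset (σ → L) := fun n => Nat.rec ∅ (fun _ G => insert (g G) G) n
  have hF1 : ∀ n, F (n + 1) = insert (g (F n)) (F n) := fun n => rfl
  have hmem : ∀ n i, i < n → g (F i) ∈ F n := by
    intro n
    induction n with
    | zero => intro i hi; omega
    | succ n ih =>
      intro i hi
      rw [hF1]
      rcases Nat.lt_succ_iff_lt_or_eq.1 hi with h' | h'
      · exact Finset.mem_insert_of_mem (ih i h')
      · rw [h']
        exact Finset.mem_insert_self _ _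
  have hsp : ∀ i j m, i < m → j < m →
      g (F m) ∉ Submodule.span L ({g (F i), g (F j)} : Set (σ → L)) := fun i j m hi hj =>
    hg (F m) _ (hmem m i hi) _ (hmem m j hj)
  have hne : ∀ i m, i < m → g (F i) ≠ g (F m) := by
    intro i m him heq
    apply hsp i i m him him
    rw [← heq]
    exact Submodule.subset_span (Set.mem_insert _ _)
  have hinj : Function.Injective fun n => g (F n) := by
    intro i j hij
    rcases lt_trichotomy i j with h' | h' | h'
    · exact absurd hij (hne i j h')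
    · exact h'
    · exact absurd hij.symm (hne j i h')
  obtain ⟨W, hW, hWi⟩ := h (Set.range fun n => g (F n)) (by
    rintro _ ⟨n, rfl⟩
    exact hgS (F n)) (Set.infinite_range_of_injective hinj)
  have hI : {n | g (F n) ∈ W}.Infinite := by
    intro hfin
    apply hWi
    refine (hfin.image fun n => g (F n)).subset ?_
    rintro _ ⟨⟨n, rfl⟩, hn⟩
    exact ⟨n, hn, rfl⟩
  obtain ⟨i, hi⟩ := hI.nonempty
  obtain ⟨j, hj, hij⟩ := hI.exists_gt i
  obtain ⟨m, hm, hjm⟩ := hI.exists_gt j
  have hx0 : g (F i) ≠ 0 := by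
    intro h0
    have h2 := h1 _ (hgS (F i))
    rw [h0] at h2
    exact zero_ne_one h2
  have hlin : LinearIndependent L ![g (F i), g (F j)] := by
    rw [LinearIndependent.pair_iff' hx0]
    intro a ha
    apply hsp i i j hij hij
    rw [← ha]
    exact Submodule.smul_mem _ _ (Submodule.subset_span (Set.mem_insert _ _))
  have hr : Set.range ![g (F i), g (F j)] = {g (F i), g (F j)} := by
    ext y
    simp [or_comm]
  have hfr := finrank_span_eq_card hlin
  rw [hr, Fintype.card_fin] at hfr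
  have hle : Submodule.span L ({g (F i), g (F j)} : Set (σ → L)) ≤ W := by
    rw [Submodule.span_le]
    rintro y (rfl | rfl)
    · exact hi
    · exact hj
  have heq := Submodule.eq_of_le_of_finrank_le hle (by rw [hfr]; exact hW)
  apply hsp i j m (hij.trans hjm) hjm
  rw [heq]
  exact hm

/-- **The integral points lie on finitely many lines** (over any field of constants). -/
theorem fin_lines {k₀ L : Type*} [Field k₀] [Field L] [CharZero L] [Algebra k₀ L]
    (hfg : (⊤ : IntermediateField k₀ L).FG)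
    {σ ι : Type*} [Fintype σ] [DecidableEq σ] [Fintype ι] [DecidableEq ι]
    (d : ι → ℕ) (hd : ∀ i, 0 < d i) (a : (i : ι) → Sym σ (d i) → L) (c : ℕ)
    (hc : (Fintype.card (Ix σ d) : Cardinal) ≤ Algebra.trdeg k₀
      (IntermediateField.adjoin k₀ (Set.range fun p : Ix σ d => a p.1 p.2)) + c)
    (Z : Finset ι) (i₀ : σ)
    (hw1 : 2 * Fintype.card σ + c ≤ ∑ i, d i + Z.card + 1)
    (hw2 : Fintype.card σ + 1 ≤ ∑ i, d i)
    (A : Subalgebra k₀ L) (hA : A.FG) :
    ∃ Λ : Set (Submodule L (σ → L)), Λ.Finite ∧ (∀ W ∈ Λ, Module.finrank L W ≤ 2) ∧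
      ∀ x : σ → L, x i₀ = 1 → Pt a Z A.toSubring x → ∃ W ∈ Λ, x ∈ W := by
  classical
  suffices hmain : ∀ S' ⊆ {x : σ → L | x i₀ = 1 ∧ Pt a Z A.toSubring x}, S'.Infinite →
      ∃ W : Submodule L (σ → L), Module.finrank L W ≤ 2 ∧ (S' ∩ W).Infinite by
    obtain ⟨Λ, h1, h2, h3⟩ := greedy _ hmain i₀ (fun x hx => hx.1)
    exact ⟨Λ, h1, h2, fun x hx hp => h3 x ⟨hx, hp⟩⟩
  intro S' hS' hinf
  by_cases hj : ∃ j₁ : σ, j₁ ≠ i₀
  · obtain ⟨j₁, hj₁⟩ := hj
    obtain ⟨T, k, hT, hind, hfin, D, θ, hD, hDk⟩ := reduce hfg d a c hc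
    obtain ⟨s, hs⟩ := hA
    set A' : Subalgebra k L := Algebra.adjoin k (s : Set L) with hA'
    have hAA' : ∀ f ∈ A, f ∈ A' := by
      intro f hf
      rw [← hs] at hf
      induction hf using Algebra.adjoin_induction with
      | mem x hx => exact Algebra.subset_adjoin hx
      | algebraMap r =>
        have h1 : algebraMap k₀ L r = algebraMap k L (algebraMap k₀ k r) :=
          IsScalarTower.algebraMap_apply k₀ k L r
        rw [h1]
        exact A'.algebraMap_mem _
      | add x y _ _ hx hy => exact add_mem hx hy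
      | mul x y _ _ hx hy => exact mul_mem hx hy
    obtain ⟨α, β, p, q, -, -, -, -, -, hline⟩ := inf_line d hd a T hind hfin D (fun j => j.1) θ hD
      (fun j => j.2) hDk Z i₀ j₁ hj₁ (by omega) hw2 A' ⟨s, rfl⟩ S' hinf (by
        intro x hx
        obtain ⟨hx1, hx2⟩ := hS' hx
        refine ⟨hx1, hx2.zero, hx2.ne, ?_⟩
        intro i hi J
        exact (hx2.int i hi J).map_of_comp_eq (Subring.inclusion (S := A.toSubring)
          (T := A'.toSubring) (fun f hf => hAA' f hf)) (RingHom.id L) rfl)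
    refine ⟨Submodule.span L ({p, q} : Set (σ → L)), ?_, hline.mono ?_⟩
    · refine (finrank_span_le_card ({p, q} : Set (σ → L))).trans ?_
      rw [Set.toFinset_card, Fintype.card_ofFinset]
      exact Finset.card_le_two
    · rintro x ⟨hx, hxl⟩
      refine ⟨hx, Submodule.mem_span_pair.2 ⟨x α, x β, ?_⟩⟩
      funext l
      rw [hxl l]
      rfl
  · push Not at hj
    exfalso
    apply hinf
    have hsub : S'.Subsingleton := by
      intro x hx y hy
      funext l
      rw [hj l, (hS' hx).1, (hS' hy).1]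
    exact hsub.finite

end Pool.Agent.Helper10.LB

end
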