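import Pool.Agent.Helper74.MG.T25
import Pool.Agent.Helper74.MG.T14
import Pool.Agent.Helper74.MG.T12

section

/-!
# Project LN: definitions

Points and lines of generic hypersurfaces. `Lam V g = ∑_s (coefficient of X^s in g) V(s)`, the sum
over the monomials of degree `d`.
-/

set_option autoImplicit false

namespace Pool.Agent.Helper74.LN

open MvPolynomial
open Pool.Agent.Helper8.LG (mon form Ix Bdd RowBdd)
open Pool.Agent.Helper74.LG (scl)

section

variable {E : Type*} [Field E] {σ : Type*} [Fintype σ] [DecidableEq σ]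

/-- the exponent vector of a multiset of `d` indices -/
noncomputable def ex {d : ℕ} (s : Sym σ d) : σ →₀ ℕ := Multiset.toFinsupp (s : Multiset σ)

/-- the linear map `g ↦ ∑_s (coefficient of X^s in g) V(s)` -/
noncomputable def Lam {M : Type*} [AddCommGroup M] [Module E M] {d : ℕ} (V : Sym σ d → M) :
    MvPolynomial σ E →ₗ[E] M :=
  ∑ s : Sym σ d, (LinearMap.toSpanSingleton E M (V s)).comp (lcoeff E (ex s))

/-- the linear form `x_j X_l - x_l X_j` -/
noncomputable def two (x : σ → E) (j l : σ) : MvPolynomial σ E := C (x j) * X l - C (x l) * X j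

/-- the linear form with coefficients `h` -/
noncomputable def lin (h : σ → E) : MvPolynomial σ E := ∑ l, C (h l) * X l

/-- a polynomial with integral coefficients, over `E` -/
noncomputable def zp (E : Type*) [Field E] {σ : Type*} (P : MvPolynomial σ ℤ) :
    MvPolynomial σ E := map (Int.castRingHom E) P

/-- the Plücker coordinates of the line through `z 0` and `z 1` -/
def pl (z : Fin 2 → σ → E) (j l : σ) : E := z 0 j * z 1 l - z 0 l * z 1 j

/-- the linear form `P_jl X_m - P_jm X_l + P_lm X_j`, vanishing on the line -/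
noncomputable def thr (z : Fin 2 → σ → E) (j l m : σ) : MvPolynomial σ E :=
  C (pl z j l) * X m - C (pl z j m) * X l + C (pl z l m) * X j

/-- the data `(P, j, l)` of a block -/
abbrev Blk (σ : Type*) := MvPolynomial σ ℤ × σ × σ

variable {M : Type*} [AddCommGroup M] [Module E M] {d : ℕ}

/-- the two columns of a block: `P (x_(i₀) X_j - x_j X_(i₀))` and `P (x_(i₀) X_l - x_l X_(i₀))` -/
noncomputable def bv (V : Sym σ d → M) (x : σ → E) (i₀ : σ) (β : Blk σ) (e : Fin 2) : M :=
  Lam V (zp E β.1 * two x i₀ (if e = 0 then β.2.1 else β.2.2))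

/-- the single columns `X^m (x_j X_l - x_l X_j)` -/
noncomputable def sv (V : Sym σ d → M) (x : σ → E) (s : (σ →₀ ℕ) × σ × σ) : M :=
  Lam V (monomial s.1 1 * two x s.2.1 s.2.2)

/-- the columns of the forms `X^m (P_jl X_t - P_jt X_l + P_lt X_j)` -/
noncomputable def jc (V : Sym σ d → M) (z : Fin 2 → σ → E) (q : (σ →₀ ℕ) × σ × σ × σ) : M :=
  Lam V (monomial q.1 1 * thr z q.2.1 q.2.2.1 q.2.2.2)

/-- the columns of `(x_a X_b - x_b X_a) X_a^(d-1-k) X_b^k` -/
noncomputable def bs (V : Sym σ d → M) (x : σ → E) (a b : σ) (k : ℕ) : M :=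
  Lam V (two x a b * (X a ^ (d - 1 - k) * X b ^ k))

end

/-- The columns before and after the normalisation `x ↦ x / c`. -/
structure Shift {E σ ρ : Type*} [Field E] {d : ℕ} (c : E) (eul eul' : σ ⊕ ρ → E)
    (V V' : Sym σ d → σ ⊕ ρ → E) : Prop where
  eul_eq : eul = scl c eul'
  col_eq : ∀ s, ∃ b : E, V s = scl c (V' s) + b • eul

/-- The situation at a valuation ring: `x_(l₀)` is a maximal coordinate, the columns of the
normalised point `x / x_(l₀)` are bounded by `Δ⁻¹`. -/
structure At {E σ ρ : Type*} [Field E] {d : ℕ} (x : σ → E) (eul : σ ⊕ ρ → E)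
    (V : Sym σ d → σ ⊕ ρ → E) (O : ValuationSubring E) (Δ : E) (l₀ : σ) (eul' : σ ⊕ ρ → E)
    (V' : Sym σ d → σ ⊕ ρ → E) : Prop where
  ne : x l₀ ≠ 0
  le : ∀ l, x l / x l₀ ∈ O
  mem : Δ ∈ O
  shift : Shift (x l₀) eul eul' V V'
  beul : ∀ r, Δ * eul' r ∈ O
  bcol : ∀ s r, Δ * V' s r ∈ O

/-- `G x_l` is integral up to a power of `Δ` at all valuation rings. -/
def KeyX {E σ ρ : Type*} [Field E] [Fintype σ] [Fintype ρ] {d : ℕ} (x : σ → E)
    (eul : σ ⊕ ρ → E) (V : Sym σ d → σ ⊕ ρ → E) (G : E) : Prop :=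
  ∀ (O : ValuationSubring E) (Δ : E) (l₀ : σ) (eul' : σ ⊕ ρ → E) (V' : Sym σ d → σ ⊕ ρ → E),
    At x eul V O Δ l₀ eul' V' → Δ ^ (Fintype.card σ + Fintype.card ρ) * (G * x l₀) ∈ O

/-- There is a line through `x` which moves in at least `T + 1` dimensions. -/
def LineCase {E σ ρ : Type*} [Field E] [Fintype σ] [DecidableEq σ] [Fintype ρ] {d : ℕ}
    (x : σ → E) (eul : σ ⊕ ρ → E) (V : Sym σ d → σ ⊕ ρ → E) (T : ℕ) (y : σ → E) : Prop :=
  (∃ j l, x j * y l - x l * y j ≠ 0) ∧
    Module.finrank E ↥(Submodule.span E {eul} ⊔ Submodule.span E (Set.range (jc V ![x, y]))) +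
        (T + 1) ≤
      Module.finrank E ↥(Submodule.span E {eul} ⊔ Submodule.span E (Set.range V))

section

variable {E : Type*} [Field E] {σ τ : Type*} [Fintype σ] [DecidableEq σ]

/-- the columns `(D_s z_0; D_s z_1; θ(s))` -/
def mu {d : ℕ} (D : Sym σ d → Derivation ℤ E E) (θ : τ → Sym σ d → E) (z : Fin 2 → σ → E)
    (s : Sym σ d) : (Fin 2 × σ) ⊕ τ → E :=
  Sum.elim (fun r => D s (z r.1 r.2)) fun j => θ j s

/-- the columns `(z_f in the place e)` -/
def w4 (z : Fin 2 → σ → E) (ef : Fin 2 × Fin 2) : (Fin 2 × σ) ⊕ τ → E :=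
  Sum.elim (fun r => if r.1 = ef.1 then z ef.2 r.2 else 0) fun _ => 0

/-- the constant columns: `E_lm z` and the unit vectors of `τ` -/
def cst [DecidableEq τ] (z : Fin 2 → σ → E) : (σ × σ) ⊕ τ → (Fin 2 × σ) ⊕ τ → E :=
  Sum.elim (fun lm => Sum.elim (fun r => if r.2 = lm.1 then z r.1 lm.2 else 0) fun _ => 0)
    fun j => Sum.elim (fun _ => 0) fun j' => if j' = j then 1 else 0

/-- the space of the forms vanishing on the line -/
noncomputable def Jsp {d : ℕ} (D : Sym σ d → Derivation ℤ E E) (θ : τ → Sym σ d → E)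
    (z : Fin 2 → σ → E) : Submodule E ((Fin 2 × σ) ⊕ τ → E) :=
  Submodule.span E (Set.range (w4 z)) ⊔ Submodule.span E (Set.range (jc (mu D θ z) z))

/-- the space of all forms -/
noncomputable def Asp {d : ℕ} (D : Sym σ d → Derivation ℤ E E) (θ : τ → Sym σ d → E)
    (z : Fin 2 → σ → E) : Submodule E ((Fin 2 × σ) ⊕ τ → E) :=
  Submodule.span E (Set.range (w4 z)) ⊔ Submodule.span E (Set.range (mu D θ z))

/-- The line moves in at least `T` dimensions under the binary forms. -/
def Moves [Fintype τ] {d : ℕ} (T : ℕ) (D : Sym σ d → Derivation ℤ E E) (θ : τ → Sym σ d → E)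
    (z : Fin 2 → σ → E) : Prop :=
  Module.finrank E (Jsp D θ z) + T ≤ Module.finrank E (Asp D θ z)

end

/-- `G x_l` is integral up to `Δ^M` at all valuation rings where `Δ` bounds the derivations, the
corrections and the logarithmic rows. -/
def KeyP {E : Type*} [Field E] {σ ι τ P : Type*} [Fintype σ] [DecidableEq σ] (M : ℕ) (d : ι → ℕ)
    (a : (i : ι) → Sym σ (d i) → E) (D : P → Derivation ℤ E E) (θ : τ → P → E) (Z : Finset ι)
    (x : σ → E) (G : E) : Prop :=
  ∀ (O : ValuationSubring E) (Δ : E), Bdd D Δ O → (∀ j s, Δ * θ j s ∈ O) →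
    (∀ i ∉ Z, RowBdd D Δ O x (form (a i)) 1 0) → ∀ l, Δ ^ M * (G * x l) ∈ O

/-- `G P_jl` is integral up to a power of `Δ` at all valuation rings where `Δ` bounds the
derivations and the corrections. -/
def KeyL {E σ τ : Type*} [Field E] [Fintype σ] [Fintype τ] {d : ℕ}
    (D : Sym σ d → Derivation ℤ E E) (θ : τ → Sym σ d → E) (z : Fin 2 → σ → E) (G : E) : Prop :=
  ∀ (O : ValuationSubring E) (Δ : E), Bdd D Δ O → (∀ j s, Δ * θ j s ∈ O) →
    ∀ j l, Δ ^ (2 * Fintype.card σ + Fintype.card τ) * (G * pl z j l) ∈ O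

end Pool.Agent.Helper74.LN

end

section

/-! # LN-LAM: the map `Lam` -/

set_option autoImplicit false

namespace Pool.Agent.Helper74.LN

open MvPolynomial
open Pool.Agent.Helper8.LG (mon form Ix Bdd)
open Pool.Agent.Helper74.LG (scl)

variable {E : Type*} [Field E] {σ : Type*} [Fintype σ] [DecidableEq σ]
  {M : Type*} [AddCommGroup M] [Module E M] {d : ℕ}

omit [Fintype σ] in
theorem ex_inj {s t : Sym σ d} (h : ex s = ex t) : s = t :=
  Subtype.ext (Multiset.toFinsupp.injective h)

theorem lam_apply (V : Sym σ d → M) (g : MvPolynomial σ E) :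
    Lam V g = ∑ s, coeff (ex s) g • V s := by
  rw [Lam, LinearMap.sum_apply]
  refine Finset.sum_congr rfl fun s _ => ?_
  rw [LinearMap.comp_apply, LinearMap.toSpanSingleton_apply, lcoeff_apply]

theorem lam_ex (V : Sym σ d → M) (s : Sym σ d) : Lam V (monomial (ex s) (1 : E)) = V s := by
  rw [lam_apply, Finset.sum_eq_single s]
  · rw [coeff_monomial, if_pos rfl, one_smul]
  · intro t _ ht
    rw [coeff_monomial, if_neg (fun h => ht (ex_inj h.symm)), zero_smul]
  · intro h
    exact absurd (Finset.mem_univ s) h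

/-- every exponent vector of degree `d` is an `ex s` -/
theorem exists_ex (m : σ →₀ ℕ) (hm : m.degree = d) : ∃ s : Sym σ d, ex s = m := by
  refine ⟨⟨Finsupp.toMultiset m, ?_⟩, ?_⟩
  · rw [Finsupp.card_toMultiset, ← hm, Finsupp.degree_eq_sum]
    exact Finsupp.sum_fintype _ _ fun _ => rfl
  · exact Finsupp.toMultiset_toFinsupp m

theorem ex_degree (s : Sym σ d) : (ex s).degree = d := by
  have h : (Finsupp.toMultiset (ex s)).card = d := by
    rw [ex, Multiset.toFinsupp_toMultiset]
    exact s.2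
  rw [Finsupp.card_toMultiset] at h
  rw [Finsupp.degree_eq_sum]
  exact (Finsupp.sum_fintype _ _ fun _ => rfl).symm.trans h

theorem lam_ne (V : Sym σ d → M) (m : σ →₀ ℕ) (hm : m.degree ≠ d) (c : E) :
    Lam V (monomial m c) = 0 := by
  rw [lam_apply]
  refine Finset.sum_eq_zero fun s _ => ?_
  rw [coeff_monomial, if_neg, zero_smul]
  rintro rfl
  exact hm (ex_degree s)

theorem lam_map {N : Type*} [AddCommGroup N] [Module E N] (f : M →ₗ[E] N) (V : Sym σ d → M)
    (g : MvPolynomial σ E) : f (Lam V g) = Lam (fun s => f (V s)) g := by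
  rw [lam_apply, lam_apply, map_sum]
  simp only [map_smul]

theorem lam_mem_span (V : Sym σ d → M) (g : MvPolynomial σ E) :
    Lam V g ∈ Submodule.span E (Set.range V) := by
  rw [lam_apply]
  exact Submodule.sum_mem _ fun s _ =>
    Submodule.smul_mem _ _ (Submodule.subset_span ⟨s, rfl⟩)

theorem lam_range (V : Sym σ d → M) :
    LinearMap.range (Lam (E := E) V) = Submodule.span E (Set.range V) := by
  refine le_antisymm ?_ (Submodule.span_le.2 ?_)
  · rintro _ ⟨g, rfl⟩
    exact lam_mem_span V g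
  · rintro _ ⟨s, rfl⟩
    exact ⟨monomial (ex s) 1, lam_ex V s⟩

/-- columns of the normalised point -/
theorem lam_shift {ρ : Type*} {c : E} {eul eul' : σ ⊕ ρ → E} {V V' : Sym σ d → σ ⊕ ρ → E}
    (h : Shift c eul eul' V V') (g : MvPolynomial σ E) :
    ∃ b : E, Lam V g = scl c (Lam V' g) + b • eul := by
  choose b hb using h.col_eq
  refine ⟨∑ s, coeff (ex s) g * b s, ?_⟩
  rw [lam_apply, lam_apply, map_sum, Finset.sum_smul, ← Finset.sum_add_distrib]
  refine Finset.sum_congr rfl fun s _ => ?_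
  rw [hb s, smul_add, map_smul, smul_smul]

/-- bounded columns -/
theorem lam_mem {R : Type*} (O : Subring E) (Δ : E) (V : Sym σ d → R → E)
    (hV : ∀ s r, Δ * V s r ∈ O) (g : MvPolynomial σ E) (hg : ∀ m, coeff m g ∈ O) (r : R) :
    Δ * Lam V g r ∈ O := by
  rw [lam_apply, Finset.sum_apply, Finset.mul_sum]
  refine sum_mem fun s _ => ?_
  rw [Pi.smul_apply, smul_eq_mul, mul_left_comm]
  exact mul_mem (hg _) (hV s r)

/-- It is enough to test multiples by monomials. -/
theorem lam_ideal (V : Sym σ d → M) (W : Submodule E M) (S : Set (MvPolynomial σ E))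
    (hS : ∀ h ∈ S, ∀ m : σ →₀ ℕ, Lam V (monomial m 1 * h) ∈ W) :
    ∀ f ∈ Ideal.span S, Lam V f ∈ W := by
  have key : ∀ f ∈ Ideal.span S, ∀ m : σ →₀ ℕ, Lam V (monomial m 1 * f) ∈ W := by
    intro f hf
    refine Submodule.span_induction (p := fun f _ => ∀ m : σ →₀ ℕ,
      Lam V (monomial m 1 * f) ∈ W) hS ?_ ?_ ?_ hf
    · intro m
      rw [mul_zero, map_zero]
      exact W.zero_mem
    · intro x y _ _ hx hy m
      rw [mul_add, map_add]
      exact W.add_mem (hx m) (hy m)
    · intro a x _ hx m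
      have e : monomial m 1 * (a • x) =
          ∑ n ∈ a.support, coeff n a • (monomial (m + n) (1 : E) * x) := by
        conv_lhs => rw [smul_eq_mul, a.as_sum]
        rw [Finset.sum_mul, Finset.mul_sum]
        refine Finset.sum_congr rfl fun n _ => ?_
        rw [← mul_assoc, monomial_mul, one_mul, smul_eq_C_mul, ← mul_assoc, C_mul_monomial,
          mul_one]
      rw [e, map_sum]
      refine Submodule.sum_mem _ fun n _ => ?_
      rw [map_smul]
      exact W.smul_mem _ (hx _)
  intro f hf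
  have h := key f hf 0
  rw [monomial_zero', C_1, one_mul] at h
  exact h

theorem zp_monomial (m : σ →₀ ℕ) :
    zp E (monomial m (1 : ℤ)) = (monomial m (1 : E) : MvPolynomial σ E) := by
  rw [zp, map_monomial, map_one]

/-- the coefficients of an integral polynomial are integral -/
theorem zp_coeff (P : MvPolynomial σ ℤ) (m : σ →₀ ℕ) :
    coeff m (zp E P) = ((coeff m P : ℤ) : E) := by
  rw [zp, coeff_map, eq_intCast]

/-- the coefficients of products of integral polynomials -/
theorem coeff_mul_mem (O : Subring E) (f g : MvPolynomial σ E) (hf : ∀ m, coeff m f ∈ O)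
    (hg : ∀ m, coeff m g ∈ O) (m : σ →₀ ℕ) : coeff m (f * g) ∈ O := by
  classical
  rw [coeff_mul]
  exact sum_mem fun x _ => mul_mem (hf _) (hg _)

omit [Fintype σ] in
theorem mon_ex (x : σ → E) (s : Sym σ d) : mon x s = (ex s).prod fun i k => x i ^ k := by
  rw [mon, Finset.prod_multiset_map_count, ex, Finsupp.prod, Multiset.toFinsupp_support]
  refine Finset.prod_congr rfl fun i _ => ?_
  rw [Multiset.toFinsupp_apply]

theorem lam_val {lam : M →ₗ[E] E} {V : Sym σ d → M} {x : σ → E}
    (h : ∀ s, lam (V s) = mon x s) (m : σ →₀ ℕ) (c : E) :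
    lam (Lam V (monomial m c)) = if m.degree = d then c * m.prod fun i k => x i ^ k else 0 := by
  split_ifs with hm
  · obtain ⟨s, rfl⟩ := exists_ex m hm
    have e : (monomial (ex s) c : MvPolynomial σ E) = c • monomial (ex s) 1 := by
      rw [smul_monomial, smul_eq_mul, mul_one]
    rw [e, map_smul, map_smul, lam_ex, h, smul_eq_mul, mon_ex]
  · rw [lam_ne V m hm, map_zero]

/-- the values of the functional -/
theorem lam_two {lam : M →ₗ[E] E} {V : Sym σ d → M} {x : σ → E}
    (h : ∀ s, lam (V s) = mon x s) (g : MvPolynomial σ E) (j l : σ) :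
    lam (Lam V (g * two x j l)) = 0 := by
  induction g using MvPolynomial.induction_on' with
  | monomial m c =>
    have e : monomial m c * two x j l = monomial (m + Finsupp.single l 1) (c * x j) -
        monomial (m + Finsupp.single j 1) (c * x l) := by
      rw [two, mul_sub, ← mul_assoc, ← mul_assoc, mul_comm _ (C (x j)), mul_comm _ (C (x l)),
        C_mul_monomial, C_mul_monomial, X, X, monomial_mul, monomial_mul, mul_one, mul_one,
        mul_comm (x j), mul_comm (x l)]
    have hd : ∀ i : σ, (m + Finsupp.single i 1).degree = m.degree + 1 := by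
      intro i
      rw [map_add, Finsupp.degree_single]
    have hp : ∀ i : σ, (m + Finsupp.single i 1).prod (fun i k => x i ^ k) =
        (m.prod fun i k => x i ^ k) * x i := by
      intro i
      have h1 := Finsupp.prod_single_index (a := i) (b := 1) (h := fun i k => x i ^ k)
        (pow_zero _)
      rw [Finsupp.prod_add_index' (fun _ => pow_zero _) (fun _ _ _ => pow_add _ _ _), h1,
        pow_one]
    rw [e, map_sub, map_sub, lam_val h, lam_val h, hd, hd, hp, hp]
    split_ifs
    · ring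
    · ring
  | add p q hp hq => rw [add_mul, map_add, map_add, hp, hq, add_zero]

theorem lam_pow {lam : M →ₗ[E] E} {V : Sym σ d → M} {x : σ → E}
    (h : ∀ s, lam (V s) = mon x s) (i : σ) :
    lam (Lam V ((X i : MvPolynomial σ E) ^ d)) = x i ^ d := by
  have h1 := Finsupp.prod_single_index (a := i) (b := d) (h := fun i k => x i ^ k)
    (pow_zero _)
  rw [X_pow_eq_monomial, lam_val h, Finsupp.degree_single, if_pos rfl, h1, one_mul]

/-- the column of a form which vanishes at the point is in the span of the `sv`; for a monomial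
`s` and `x_(i₀) = 1`: `X^s - x^s X_(i₀)^d` -/
theorem lam_mon_sub (V : Sym σ d → M) (x : σ → E) (i₀ : σ) (hx : x i₀ ≠ 0) (s : Sym σ d) :
    x i₀ ^ d • V s - mon x s • Lam V ((X i₀ : MvPolynomial σ E) ^ d) ∈
      Submodule.span E (Set.range (sv V x)) := by
  have _ := hx
  set I : Ideal (MvPolynomial σ E) := Ideal.span (Set.range fun l => two x i₀ l) with hI
  have key : ∀ t : Multiset σ, C (x i₀ ^ t.card) * (t.map X).prod -
      C ((t.map x).prod) * (X i₀ : MvPolynomial σ E) ^ t.card ∈ I := by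
    intro t
    induction t using Multiset.induction_on with
    | empty => simp
    | cons a t ih =>
      rw [Multiset.card_cons, Multiset.map_cons, Multiset.map_cons, Multiset.prod_cons,
        Multiset.prod_cons]
      have h1 : two x i₀ a ∈ I := Ideal.subset_span ⟨a, rfl⟩
      have h2 := I.add_mem (I.mul_mem_left (C (x i₀) * X a) ih)
        (I.mul_mem_left (C ((t.map x).prod) * (X i₀ : MvPolynomial σ E) ^ t.card) h1)
      have e : C (x i₀ ^ (t.card + 1)) * (X a * (t.map X).prod) -
          C (x a * (t.map x).prod) * (X i₀ : MvPolynomial σ E) ^ (t.card + 1) =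
          C (x i₀) * X a * (C (x i₀ ^ t.card) * (t.map X).prod -
            C ((t.map x).prod) * X i₀ ^ t.card) +
          C ((t.map x).prod) * X i₀ ^ t.card * two x i₀ a := by
        rw [two, pow_succ, C_mul, C_mul, pow_succ]
        ring
      rw [e]
      exact h2
  have hmon : monomial (ex s) (1 : E) = (((s : Multiset σ).map X).prod : MvPolynomial σ E) := by
    have h1 : ∀ t : Multiset σ, monomial (Multiset.toFinsupp t) (1 : E) =
        ((t.map X).prod : MvPolynomial σ E) := by
      intro t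
      induction t using Multiset.induction_on with
      | empty => simp
      | cons a t ih =>
        rw [Multiset.map_cons, Multiset.prod_cons, ← ih, X, monomial_mul, one_mul,
          ← Multiset.singleton_add, map_add, Multiset.toFinsupp_singleton]
    exact h1 _
  have hc : (s : Multiset σ).card = d := s.2
  have hk := key (s : Multiset σ)
  rw [← hmon, hc] at hk
  have h3 := lam_ideal V (Submodule.span E (Set.range (sv V x)))
    (Set.range fun l => two x i₀ l) (by
      rintro _ ⟨l, rfl⟩ m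
      exact Submodule.subset_span ⟨(m, i₀, l), rfl⟩) _ hk
  rw [map_sub, ← smul_eq_C_mul, ← smul_eq_C_mul, map_smul, map_smul, lam_ex] at h3
  exact h3

end Pool.Agent.Helper74.LN

end

section

/-!
# LN-MOVESMIN: `Moves` in terms of minors

`MovesC T β D θ z`: all `(β+1)`-minors of the columns of `Jsp` vanish, some `(β+T)`-minor of the
columns of `Asp` does not (`β = dim Jsp`; `exists_minor`).
-/

set_option autoImplicit false

namespace Pool.Agent.Helper74.LN

open MvPolynomial

private theorem mm_le {E κ ρ : Type*} [Field E] [Fintype ρ] (v : κ → ρ → E) (m : ℕ)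
    (r : Fin m → ρ) (c : Fin m → κ)
    (h : Matrix.det (Matrix.of fun s t => v (c t) (r s)) ≠ 0) :
    m ≤ Module.finrank E ↥(Submodule.span E (Set.range v)) := by
  classical
  have h1 : LinearIndependent E (Matrix.of fun s t => v (c t) (r s)).col :=
    Matrix.linearIndependent_cols_iff_isUnit.mpr
      ((Matrix.isUnit_iff_isUnit_det _).mpr (isUnit_iff_ne_zero.mpr h))
  have h2 : LinearIndependent E ((LinearMap.funLeft E E r) ∘ fun t => v (c t)) := h1
  have h3 : LinearIndependent E fun t => v (c t) := LinearIndependent.of_comp _ h2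
  have h4 := finrank_span_eq_card h3
  rw [Fintype.card_fin] at h4
  rw [← h4]
  apply Submodule.finrank_mono
  apply Submodule.span_mono
  rintro _ ⟨t, rfl⟩
  exact ⟨c t, rfl⟩

private theorem mm_exists {E κ ρ : Type*} [Field E] [Fintype ρ] (v : κ → ρ → E) (m : ℕ)
    (h : m ≤ Module.finrank E ↥(Submodule.span E (Set.range v))) :
    ∃ (r : Fin m → ρ) (c : Fin m → κ),
      Matrix.det (Matrix.of fun s t => v (c t) (r s)) ≠ 0 := by
  classical
  obtain ⟨b, hb1, hb2, hb3⟩ := exists_linearIndependent E (Set.range v)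
  have hfin : Finite b := hb3.finite
  have : Fintype b := Fintype.ofFinite b
  have h4 := finrank_span_eq_card hb3
  rw [Subtype.range_coe, hb2] at h4
  obtain ⟨e⟩ : Nonempty (Fin m ↪ b) := by
    apply Function.Embedding.nonempty_of_card_le
    rw [Fintype.card_fin]
    exact h.trans h4.le
  have hch : ∀ t : Fin m, ∃ j : κ, v j = ((e t : b) : ρ → E) := fun t => hb1 (e t).2
  choose c hc using hch
  have hli : LinearIndependent E fun t => v (c t) := by
    have h1 : (fun t => v (c t)) = (Subtype.val : b → ρ → E) ∘ e := by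
      funext t
      exact hc t
    rw [h1]
    exact hb3.comp _ e.injective
  obtain ⟨r, _, hr⟩ := Helper8.LG.exists_minor (fun t => v (c t)) hli
  exact ⟨r, c, hr⟩

section

variable {E : Type*} [Field E] {σ τ : Type*} [Fintype σ] [DecidableEq σ] {d : ℕ}

/-- the columns of `Jsp` -/
noncomputable def colJ (D : Sym σ d → Derivation ℤ E E) (θ : τ → Sym σ d → E)
    (z : Fin 2 → σ → E) : (Fin 2 × Fin 2) ⊕ ((σ →₀ ℕ) × σ × σ × σ) → (Fin 2 × σ) ⊕ τ → E :=
  Sum.elim (w4 z) (jc (mu D θ z) z)

/-- the columns of `Asp` -/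
noncomputable def colA (D : Sym σ d → Derivation ℤ E E) (θ : τ → Sym σ d → E)
    (z : Fin 2 → σ → E) : (Fin 2 × Fin 2) ⊕ Sym σ d → (Fin 2 × σ) ⊕ τ → E :=
  Sum.elim (w4 z) (mu D θ z)

/-- the certificate -/
def MovesC (T β : ℕ) (D : Sym σ d → Derivation ℤ E E) (θ : τ → Sym σ d → E)
    (z : Fin 2 → σ → E) : Prop :=
  (∀ (r : Fin (β + 1) → (Fin 2 × σ) ⊕ τ) (c : Fin (β + 1) → _),
    Matrix.det (Matrix.of fun s t => colJ D θ z (c t) (r s)) = 0) ∧
  ∃ (r : Fin (β + T) → (Fin 2 × σ) ⊕ τ) (c : Fin (β + T) → _),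
    Matrix.det (Matrix.of fun s t => colA D θ z (c t) (r s)) ≠ 0

theorem moves_iff [Fintype τ] (T : ℕ) (D : Sym σ d → Derivation ℤ E E) (θ : τ → Sym σ d → E)
    (z : Fin 2 → σ → E) :
    Moves T D θ z ↔ ∃ β ≤ Fintype.card ((Fin 2 × σ) ⊕ τ), MovesC T β D θ z := by
  have hJ : Jsp D θ z = Submodule.span E (Set.range (colJ D θ z)) := by
    unfold Jsp colJ
    rw [Set.Sum.elim_range, Submodule.span_union]
  have hA : Asp D θ z = Submodule.span E (Set.range (colA D θ z)) := by
    unfold Asp colA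
    rw [Set.Sum.elim_range, Submodule.span_union]
  unfold Moves MovesC
  rw [hJ, hA]
  constructor
  · intro h
    refine ⟨_, ?_, fun r c => ?_, mm_exists _ _ h⟩
    · refine (Submodule.finrank_le _).trans ?_
      rw [Module.finrank_fintype_fun_eq_card]
    · by_contra hne
      have := mm_le _ _ r c hne
      omega
  · rintro ⟨β, _, h1, r, c, h2⟩
    have h3 := mm_le _ _ r c h2
    have h4 : Module.finrank E ↥(Submodule.span E (Set.range (colJ D θ z))) ≤ β := by
      by_contra hlt
      push Not at hlt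
      obtain ⟨r', c', h5⟩ := mm_exists (colJ D θ z) (β + 1) hlt
      exact h5 (h1 r' c')
    omega

/-- the columns `jc` in terms of the `V s` -/
theorem jc_eq {M : Type*} [AddCommGroup M] [Module E M] (V : Sym σ d → M) (z : Fin 2 → σ → E)
    (q : (σ →₀ ℕ) × σ × σ × σ) :
    jc V z q = pl z q.2.1 q.2.2.1 • Lam V (monomial (q.1 + Finsupp.single q.2.2.2 1) (1 : E)) -
      pl z q.2.1 q.2.2.2 • Lam V (monomial (q.1 + Finsupp.single q.2.2.1 1) (1 : E)) +
      pl z q.2.2.1 q.2.2.2 • Lam V (monomial (q.1 + Finsupp.single q.2.1 1) (1 : E)) := by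
  have key : ∀ (a : E) (i : σ), (monomial q.1 (1 : E)) * (C a * X i) =
      a • monomial (q.1 + Finsupp.single i 1) (1 : E) := by
    intro a i
    rw [C_mul', mul_smul_comm]
    congr 1
    rw [X, monomial_mul, one_mul]
  unfold jc thr
  rw [mul_add, mul_sub, key, key, key, map_add, map_sub, map_smul, map_smul, map_smul]

end

end Pool.Agent.Helper74.LN

end

section

/-!
# LN-MOVESHOM: transport of `Moves` to other fields

By `moves_iff`. The columns of the image are the images of the columns: for `colJ` use `jc_eq`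
and, for an exponent vector `m'`, either `m' = ex s` (then `Lam V (monomial m' 1) = V s`) or
`Lam V (monomial m' 1) = 0` (`lam_ne`); `RingHom.map_det`. For the ultrapower: the number `β`
(bounded) and the rows and columns of the nonvanishing minor (finitely many) are constant on a
large set (`Ultrafilter.eventually_exists_mem_iff`, or finite unions); see the end of
`Helper49.LV.ultra_line` for `MinorsVanish`.
-/

set_option autoImplicit false

namespace Pool.Agent.Helper74.LN

open MvPolynomial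
open Pool.Agent.Helper8.LG

section

variable {E : Type*} [Field E] {σ τ : Type*} [Fintype σ] [DecidableEq σ] [Fintype τ] {d : ℕ}

open Classical in
/-- the entry of `Lam V (monomial m 1)`, in terms of an entry `v` of `V` -/
private noncomputable def mh_pick {R : Type*} [Zero R] {σ : Type*} [DecidableEq σ] {d : ℕ}
    (v : Sym σ d → R) (m : σ →₀ ℕ) : R :=
  if h : ∃ s : Sym σ d, ex s = m then v h.choose else 0

omit [Fintype τ] in
private theorem mh_lam {ρ : Type*} (V : Sym σ d → ρ → E) (m : σ →₀ ℕ) (r : ρ) :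
    Lam V (monomial m (1 : E)) r = mh_pick (fun s => V s r) m := by
  unfold mh_pick
  split_ifs with h
  · conv_lhs => rw [← h.choose_spec, lam_ex]
  · rw [lam_ne]
    · rfl
    · intro hm
      exact h (exists_ex m hm)

private theorem mh_pick_map {R S : Type*} [Zero R] [Zero S] {σ : Type*} [DecidableEq σ] {d : ℕ}
    (f : R → S) (hf : f 0 = 0) (v : Sym σ d → R) (m : σ →₀ ℕ) :
    f (mh_pick v m) = mh_pick (fun s => f (v s)) m := by
  unfold mh_pick
  split_ifs with h
  · rfl
  · exact hf

omit [Fintype τ] in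
private theorem mh_jc {ρ : Type*} (V : Sym σ d → ρ → E) (z : Fin 2 → σ → E)
    (q : (σ →₀ ℕ) × σ × σ × σ) (r : ρ) :
    jc V z q r = pl z q.2.1 q.2.2.1 * mh_pick (fun s => V s r) (q.1 + Finsupp.single q.2.2.2 1) -
      pl z q.2.1 q.2.2.2 * mh_pick (fun s => V s r) (q.1 + Finsupp.single q.2.2.1 1) +
      pl z q.2.2.1 q.2.2.2 * mh_pick (fun s => V s r) (q.1 + Finsupp.single q.2.1 1) := by
  rw [jc_eq]
  simp only [Pi.add_apply, Pi.sub_apply, Pi.smul_apply, smul_eq_mul, mh_lam]

omit [Fintype σ] [DecidableEq σ] [Fintype τ] in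
private theorem mh_mu {F : Type*} [Field F] (f : F →+* E) (D : Sym σ d → Derivation ℤ E E)
    (δ : Sym σ d → Derivation ℤ F F) (hδ : ∀ s x, f (δ s x) = D s (f x)) (θ : τ → Sym σ d → F)
    (z : Fin 2 → σ → F) (s : Sym σ d) (r : (Fin 2 × σ) ⊕ τ) :
    f (mu δ θ z s r) = mu D (fun j s => f (θ j s)) (fun e l => f (z e l)) s r := by
  rcases r with r | j
  · exact hδ s _
  · rfl

omit [Fintype σ] [DecidableEq σ] [Fintype τ] in
private theorem mh_w4 {F : Type*} [Field F] (f : F →+* E) (z : Fin 2 → σ → F) (c : Fin 2 × Fin 2)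
    (r : (Fin 2 × σ) ⊕ τ) :
    f (w4 z c r) = w4 (fun e l => f (z e l)) c r := by
  rcases r with r | j
  · simp only [w4, Sum.elim_inl]
    split_ifs
    · rfl
    · exact map_zero f
  · exact map_zero f

omit [Fintype τ] in
private theorem mh_colJ {F : Type*} [Field F] (f : F →+* E) (D : Sym σ d → Derivation ℤ E E)
    (δ : Sym σ d → Derivation ℤ F F) (hδ : ∀ s x, f (δ s x) = D s (f x)) (θ : τ → Sym σ d → F)
    (z : Fin 2 → σ → F) (c : (Fin 2 × Fin 2) ⊕ ((σ →₀ ℕ) × σ × σ × σ)) (r : (Fin 2 × σ) ⊕ τ) :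
    f (colJ δ θ z c r) = colJ D (fun j s => f (θ j s)) (fun e l => f (z e l)) c r := by
  rcases c with c | q
  · exact mh_w4 f z c r
  · show f (jc (mu δ θ z) z q r) = jc (mu D (fun j s => f (θ j s)) (fun e l => f (z e l)))
      (fun e l => f (z e l)) q r
    rw [mh_jc, mh_jc]
    simp only [map_add, map_sub, map_mul, mh_pick_map f (map_zero f), mh_mu f D δ hδ, pl]

omit [Fintype σ] [DecidableEq σ] [Fintype τ] in
private theorem mh_colA {F : Type*} [Field F] (f : F →+* E) (D : Sym σ d → Derivation ℤ E E)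
    (δ : Sym σ d → Derivation ℤ F F) (hδ : ∀ s x, f (δ s x) = D s (f x)) (θ : τ → Sym σ d → F)
    (z : Fin 2 → σ → F) (c : (Fin 2 × Fin 2) ⊕ Sym σ d) (r : (Fin 2 × σ) ⊕ τ) :
    f (colA δ θ z c r) = colA D (fun j s => f (θ j s)) (fun e l => f (z e l)) c r := by
  rcases c with c | s
  · exact mh_w4 f z c r
  · exact mh_mu f D δ hδ θ z s r

private theorem mh_det {F E : Type*} [Field F] [Field E] (f : F →+* E) {n : ℕ}
    (M : Fin n → Fin n → F) (N : Fin n → Fin n → E) (h : ∀ i j, f (M i j) = N i j) :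
    Matrix.det (Matrix.of M) = 0 ↔ Matrix.det (Matrix.of N) = 0 := by
  have h1 : f.mapMatrix (Matrix.of M) = Matrix.of N := by
    ext i j
    exact h i j
  rw [← h1, ← RingHom.map_det, map_eq_zero]

/-- Transport along a homomorphism of fields. -/
theorem moves_hom {F : Type*} [Field F] (f : F →+* E) (T : ℕ) (D : Sym σ d → Derivation ℤ E E)
    (δ : Sym σ d → Derivation ℤ F F) (hδ : ∀ s x, f (δ s x) = D s (f x)) (θ : τ → Sym σ d → F)
    (z : Fin 2 → σ → F) :
    Moves T δ θ z ↔ Moves T D (fun j s => f (θ j s)) fun e l => f (z e l) := by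
  rw [moves_iff, moves_iff]
  refine exists_congr fun β => and_congr_right fun _ => and_congr ?_ ?_
  · exact forall_congr' fun r => forall_congr' fun c =>
      mh_det f _ _ fun i j => mh_colJ f D δ hδ θ z (c j) (r i)
  · exact exists_congr fun r => exists_congr fun c =>
      not_congr (mh_det f _ _ fun i j => mh_colA f D δ hδ θ z (c j) (r i))

section ultra

variable {L Ω : Type*} [Field L] [Field Ω] (Q : (ℕ → L) →+* Ω)

omit [Fintype σ] [DecidableEq σ] [Fintype τ] in
private theorem mh_umu (hQ : Function.Surjective Q)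
    (hker : ∀ f, Q f = 0 ↔ ∀ᶠ m in (Filter.hyperfilter ℕ : Filter ℕ), f m = 0)
    (D : Sym σ d → Derivation ℤ L L) (θ : τ → Sym σ d → L) (z : ℕ → Fin 2 → σ → L)
    (s : Sym σ d) (r : (Fin 2 × σ) ⊕ τ) :
    (Q fun m => mu D θ (z m) s r) = mu (fun s => ulDer Q hQ hker (D s))
      (fun j s => Q fun _ => θ j s) (fun e l => Q fun m => z m e l) s r := by
  rcases r with r | j
  · exact (ulDer_apply Q hQ hker (D s) fun m => z m r.1 r.2).symm
  · rfl

omit [Fintype σ] [DecidableEq σ] [Fintype τ] in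
private theorem mh_uw4 (z : ℕ → Fin 2 → σ → L) (c : Fin 2 × Fin 2) (r : (Fin 2 × σ) ⊕ τ) :
    (Q fun m => w4 (z m) c r) = w4 (fun e l => Q fun m => z m e l) c r := by
  rcases r with r | j
  · simp only [w4, Sum.elim_inl]
    split_ifs
    · rfl
    · exact map_zero Q
  · exact map_zero Q

omit [Fintype τ] in
private theorem mh_ucolJ (hQ : Function.Surjective Q)
    (hker : ∀ f, Q f = 0 ↔ ∀ᶠ m in (Filter.hyperfilter ℕ : Filter ℕ), f m = 0)
    (D : Sym σ d → Derivation ℤ L L) (θ : τ → Sym σ d → L) (z : ℕ → Fin 2 → σ → L)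
    (c : (Fin 2 × Fin 2) ⊕ ((σ →₀ ℕ) × σ × σ × σ)) (r : (Fin 2 × σ) ⊕ τ) :
    (Q fun m => colJ D θ (z m) c r) = colJ (fun s => ulDer Q hQ hker (D s))
      (fun j s => Q fun _ => θ j s) (fun e l => Q fun m => z m e l) c r := by
  rcases c with c | q
  · exact mh_uw4 Q z c r
  · show (Q fun m => jc (mu D θ (z m)) (z m) q r) = jc (mu (fun s => ulDer Q hQ hker (D s))
      (fun j s => Q fun _ => θ j s) (fun e l => Q fun m => z m e l))
      (fun e l => Q fun m => z m e l) q r
    rw [mh_jc]
    have h1 : ∀ m' : σ →₀ ℕ, mh_pick (fun s : Sym σ d => mu (fun s => ulDer Q hQ hker (D s))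
        (fun j s => Q fun _ => θ j s) (fun e l => Q fun m => z m e l) s r) m' =
        Q fun m => mh_pick (fun s : Sym σ d => mu D θ (z m) s r) m' := by
      intro m'
      have h2 : (fun m => mh_pick (fun s : Sym σ d => mu D θ (z m) s r) m') =
          mh_pick (fun s : Sym σ d => fun m => mu D θ (z m) s r) m' := by
        funext m
        exact (mh_pick_map (σ := σ) (d := d) (fun g : ℕ → L => g m) rfl
          (fun s : Sym σ d => fun m => mu D θ (z m) s r) m').symm
      rw [h2, mh_pick_map Q (map_zero Q)]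
      simp only [mh_umu Q hQ hker]
    have h3 : ∀ j l, pl (fun e l => Q fun m => z m e l) j l = Q fun m => pl (z m) j l := by
      intro j l
      have : (fun m => pl (z m) j l) = (fun m => z m 0 j) * (fun m => z m 1 l) -
          (fun m => z m 0 l) * (fun m => z m 1 j) := rfl
      rw [this, map_sub, map_mul, map_mul]
      rfl
    rw [h1, h1, h1, h3, h3, h3, ← map_mul, ← map_mul, ← map_mul, ← map_sub, ← map_add]
    congr 1
    funext m
    exact mh_jc _ _ _ _

omit [Fintype σ] [DecidableEq σ] [Fintype τ] in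
private theorem mh_ucolA (hQ : Function.Surjective Q)
    (hker : ∀ f, Q f = 0 ↔ ∀ᶠ m in (Filter.hyperfilter ℕ : Filter ℕ), f m = 0)
    (D : Sym σ d → Derivation ℤ L L) (θ : τ → Sym σ d → L) (z : ℕ → Fin 2 → σ → L)
    (c : (Fin 2 × Fin 2) ⊕ Sym σ d) (r : (Fin 2 × σ) ⊕ τ) :
    (Q fun m => colA D θ (z m) c r) = colA (fun s => ulDer Q hQ hker (D s))
      (fun j s => Q fun _ => θ j s) (fun e l => Q fun m => z m e l) c r := by
  rcases c with c | s
  · exact mh_uw4 Q z c r
  · exact mh_umu Q hQ hker D θ z s r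

private theorem mh_udet
    (hker : ∀ f, Q f = 0 ↔ ∀ᶠ m in (Filter.hyperfilter ℕ : Filter ℕ), f m = 0) {n : ℕ}
    (M : ℕ → Fin n → Fin n → L) (N : Fin n → Fin n → Ω) (h : ∀ i j, (Q fun m => M m i j) = N i j) :
    Matrix.det (Matrix.of N) = 0 ↔
      ∀ᶠ m in (Filter.hyperfilter ℕ : Filter ℕ), Matrix.det (Matrix.of (M m)) = 0 := by
  have h1 : Q.mapMatrix (Matrix.of fun i j => fun m => M m i j) = Matrix.of N := by
    ext i j
    exact h i j
  rw [← h1, ← RingHom.map_det, hker]
  refine Filter.eventually_congr (Filter.Eventually.of_forall fun m => ?_)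
  have h2 : (Matrix.det (Matrix.of fun i j => fun m => M m i j)) m =
      Matrix.det (Matrix.of (M m)) := by
    have h3 := RingHom.map_det (Pi.evalRingHom (fun _ : ℕ => L) m)
      (Matrix.of fun i j => fun m => M m i j)
    exact h3
  rw [h2]

/-- Transport to the ultrapower. -/
theorem moves_ultra (hQ : Function.Surjective Q)
    (hker : ∀ f, Q f = 0 ↔ ∀ᶠ m in (Filter.hyperfilter ℕ : Filter ℕ), f m = 0) (T : ℕ)
    (D : Sym σ d → Derivation ℤ L L) (θ : τ → Sym σ d → L) (z : ℕ → Fin 2 → σ → L)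
    (h : ∀ m, Moves T D θ (z m)) :
    Moves T (fun s => ulDer Q hQ hker (D s)) (fun j s => Q fun _ => θ j s)
      fun e l => Q fun m => z m e l := by
  rw [moves_iff]
  have h0 : ∀ᶠ m in (Filter.hyperfilter ℕ : Filter ℕ),
      ∃ β ∈ Set.Iic (Fintype.card ((Fin 2 × σ) ⊕ τ)), MovesC T β D θ (z m) :=
    Filter.Eventually.of_forall fun m => (moves_iff T D θ (z m)).1 (h m)
  rw [Ultrafilter.eventually_exists_mem_iff (Set.finite_Iic _)] at h0
  obtain ⟨β, hβ, h1⟩ := h0
  refine ⟨β, hβ, fun r c => ?_, ?_⟩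
  · rw [mh_udet Q hker (fun m s t => colJ D θ (z m) (c t) (r s)) _
      fun i j => mh_ucolJ Q hQ hker D θ z (c j) (r i)]
    filter_upwards [h1] with m hm
    exact hm.1 r c
  · have h2 : ∀ᶠ m in (Filter.hyperfilter ℕ : Filter ℕ),
        ∃ rc : (Fin (β + T) → (Fin 2 × σ) ⊕ τ) × (Fin (β + T) → (Fin 2 × Fin 2) ⊕ Sym σ d),
        Matrix.det (Matrix.of fun s t => colA D θ (z m) (rc.2 t) (rc.1 s)) ≠ 0 := by
      filter_upwards [h1] with m hm
      obtain ⟨r, c, hrc⟩ := hm.2
      exact ⟨(r, c), hrc⟩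
    rw [Ultrafilter.eventually_exists_iff] at h2
    obtain ⟨⟨r, c⟩, h3⟩ := h2
    refine ⟨r, c, ?_⟩
    rw [Ne, mh_udet Q hker (fun m s t => colA D θ (z m) (c t) (r s)) _
      fun i j => mh_ucolA Q hQ hker D θ z (c j) (r i)]
    intro h4
    obtain ⟨m, hm1, hm2⟩ := (h3.and h4).exists
    exact hm1 hm2

end ultra

end

end Pool.Agent.Helper74.LN

end

section

/-!
# LN-TAU: change of the basis of a line

`z i = ∑_k g_ik w_k`; `tau g` acts by `g` on the places `Fin 2`.
-/

set_option autoImplicit false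

namespace Pool.Agent.Helper74.LN

open MvPolynomial
open Pool.Agent.Helper8.LG (mon form Ix Bdd)

section

variable {E : Type*} [Field E] {σ τ : Type*} [Fintype σ] [DecidableEq σ] [Fintype τ]
  [DecidableEq τ]

/-- the action of `g` -/
def tau (g : Matrix (Fin 2) (Fin 2) E) : ((Fin 2 × σ) ⊕ τ → E) →ₗ[E] ((Fin 2 × σ) ⊕ τ → E) where
  toFun v := Sum.elim (fun r => ∑ k, g r.1 k * v (Sum.inl (k, r.2))) fun j => v (Sum.inr j)
  map_add' u v := by
    funext r
    rcases r with r | j
    · simp [mul_add, Finset.sum_add_distrib]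
    · simp
  map_smul' c v := by
    funext r
    rcases r with r | j
    · simp only [Sum.elim_inl, Pi.smul_apply, smul_eq_mul, RingHom.id_apply, Finset.mul_sum]
      exact Finset.sum_congr rfl fun k _ => by ring
    · simp

theorem tau_inl (g : Matrix (Fin 2) (Fin 2) E) (v : (Fin 2 × σ) ⊕ τ → E) (r : Fin 2 × σ) :
    tau g v (Sum.inl r) = ∑ k, g r.1 k * v (Sum.inl (k, r.2)) := rfl

theorem tau_inr (g : Matrix (Fin 2) (Fin 2) E) (v : (Fin 2 × σ) ⊕ τ → E) (j : τ) :
    tau g v (Sum.inr j) = v (Sum.inr j) := rfl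

/-- the determinant (the matrix is block diagonal: `g ⊗ 1`, `1`) -/
theorem det_tau (g : Matrix (Fin 2) (Fin 2) E) :
    LinearMap.det (tau (σ := σ) (τ := τ) g) = g.det ^ Fintype.card σ := by
  have h : tau (σ := σ) (τ := τ) g = Matrix.toLin' (Matrix.fromBlocks
      (Matrix.kroneckerMap (fun a b => a * b) g (1 : Matrix σ σ E)) 0 0
      (1 : Matrix τ τ E)) := by
    refine LinearMap.ext fun v => funext fun r => ?_
    rw [Matrix.toLin'_apply]
    rcases r with r | j
    · rw [tau_inl, Matrix.mulVec, dotProduct, Fintype.sum_sum_type, Fintype.sum_prod_type]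
      simp [Matrix.fromBlocks_apply₁₁, Matrix.fromBlocks_apply₁₂, Matrix.kroneckerMap_apply,
        Matrix.one_apply]
    · rw [tau_inr, Matrix.mulVec, dotProduct, Fintype.sum_sum_type]
      simp [Matrix.fromBlocks_apply₂₁, Matrix.fromBlocks_apply₂₂, Matrix.one_apply]
  rw [h, LinearMap.det_toLin', Matrix.det_fromBlocks_zero₁₂, Matrix.det_one, mul_one]
  have h2 := Matrix.det_kronecker g (1 : Matrix σ σ E)
  rw [Matrix.det_one, one_pow, mul_one] at h2
  exact h2

theorem tau_mul (g h : Matrix (Fin 2) (Fin 2) E) (v : (Fin 2 × σ) ⊕ τ → E) :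
    tau (g * h) v = tau g (tau h v) := by
  funext r
  rcases r with r | j
  · rw [tau_inl, tau_inl]
    simp only [tau_inl, Matrix.mul_apply, Fin.sum_univ_two]
    ring
  · rw [tau_inr, tau_inr, tau_inr]

theorem tau_one (v : (Fin 2 × σ) ⊕ τ → E) : tau 1 v = v := by
  funext r
  rcases r with ⟨i, l⟩ | j
  · rw [tau_inl]
    simp [Matrix.one_apply]
  · rw [tau_inr]

theorem tau_inj (g : Matrix (Fin 2) (Fin 2) E) (hg : g.det ≠ 0) :
    Function.Injective (tau (σ := σ) (τ := τ) g) := by
  intro u v h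
  have hu : IsUnit g.det := isUnit_iff_ne_zero.2 hg
  have h1 : tau g⁻¹ (tau g u) = tau g⁻¹ (tau g v) := by rw [h]
  rw [← tau_mul, ← tau_mul, Matrix.nonsing_inv_mul _ hu, tau_one, tau_one] at h1
  exact h1

variable {d : ℕ} (D : Sym σ d → Derivation ℤ E E) (θ : τ → Sym σ d → E) (z w : Fin 2 → σ → E)
  (g : Matrix (Fin 2) (Fin 2) E)

/-- `w` in terms of `z` -/
theorem inv_eq {z w : Fin 2 → σ → E} {g : Matrix (Fin 2) (Fin 2) E}
    (hz : ∀ i l, z i l = ∑ k, g i k * w k l) (hg : g.det ≠ 0) (k : Fin 2) (l : σ) :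
    w k l = ∑ f, g⁻¹ k f * z f l := by
  have hu : IsUnit g.det := isUnit_iff_ne_zero.2 hg
  have h1 : ∀ k', ∑ f, g⁻¹ k f * g f k' = (1 : Matrix (Fin 2) (Fin 2) E) k k' := by
    intro k'
    rw [← Matrix.nonsing_inv_mul _ hu, Matrix.mul_apply]
  have h2 : ∑ f, g⁻¹ k f * z f l = ∑ k', (∑ f, g⁻¹ k f * g f k') * w k' l := by
    simp only [hz, Fin.sum_univ_two]
    ring
  rw [h2]
  simp only [h1]
  simp [Matrix.one_apply]

/-- `w_k` in the place `i` -/
theorem place_mem {z w : Fin 2 → σ → E} {g : Matrix (Fin 2) (Fin 2) E}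
    (hz : ∀ i l, z i l = ∑ k, g i k * w k l) (hg : g.det ≠ 0) (i k : Fin 2) :
    w4 (τ := τ) w (i, k) ∈ Submodule.span E (Set.range (w4 (τ := τ) z)) := by
  have h : w4 (τ := τ) w (i, k) = ∑ f, g⁻¹ k f • w4 (τ := τ) z (i, f) := by
    funext r
    rw [Finset.sum_apply]
    rcases r with ⟨i', l⟩ | j
    · by_cases hi : i' = i
      · simp only [w4, Sum.elim_inl, hi, if_true, Pi.smul_apply, smul_eq_mul]
        exact inv_eq hz hg k l
      · simp [w4, hi]
    · simp [w4]
  rw [h]
  exact Submodule.sum_mem _ fun f _ => Submodule.smul_mem _ _ (Submodule.subset_span ⟨(i, f), rfl⟩)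

theorem mu_tau (hz : ∀ i l, z i l = ∑ k, g i k * w k l) (hg : g.det ≠ 0) (s : Sym σ d) :
    mu D θ z s - tau g (mu D θ w s) ∈ Submodule.span E (Set.range (w4 (τ := τ) z)) := by
  have h : mu D θ z s - tau g (mu D θ w s) =
      ∑ i, ∑ k, D s (g i k) • w4 (τ := τ) w (i, k) := by
    funext r
    rw [Finset.sum_apply]
    rcases r with ⟨i, l⟩ | j
    · rw [Pi.sub_apply, tau_inl]
      have h1 : D s (z i l) = ∑ k, (g i k * D s (w k l) + w k l * D s (g i k)) := by
        rw [hz i l, map_sum]
        refine Finset.sum_congr rfl fun k _ => ?_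
        rw [Derivation.leibniz]
        simp only [smul_eq_mul]
      simp only [mu, Sum.elim_inl, h1, Finset.sum_apply, Pi.smul_apply, w4, smul_eq_mul]
      fin_cases i <;> simp [Fin.sum_univ_two] <;> ring
    · rw [Pi.sub_apply, tau_inr]
      simp [mu, w4]
  rw [h]
  exact Submodule.sum_mem _ fun i _ => Submodule.sum_mem _ fun k _ =>
    Submodule.smul_mem _ _ (place_mem hz hg i k)

theorem pl_tau (hz : ∀ i l, z i l = ∑ k, g i k * w k l) (j l : σ) :
    pl z j l = g.det * pl w j l := by
  simp only [pl, hz, Matrix.det_fin_two, Fin.sum_univ_two]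
  ring

theorem thr_tau (hz : ∀ i l, z i l = ∑ k, g i k * w k l) (j l m : σ) :
    thr z j l m = C g.det * thr w j l m := by
  unfold thr
  rw [pl_tau z w g hz j l, pl_tau z w g hz j m, pl_tau z w g hz l m]
  simp only [map_mul]
  ring

theorem w4_tau (hz : ∀ i l, z i l = ∑ k, g i k * w k l) (hg : g.det ≠ 0) :
    Submodule.span E (Set.range (w4 (τ := τ) z)) =
      (Submodule.span E (Set.range (w4 (τ := τ) w))).map (tau g) := by
  have hu : IsUnit g.det := isUnit_iff_ne_zero.2 hg
  have himg : ∀ e f, tau g (w4 (τ := τ) w (e, f)) = ∑ i, g i e • w4 (τ := τ) w (i, f) := by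
    intro e f
    funext r
    rw [Finset.sum_apply]
    rcases r with ⟨i, l⟩ | j
    · rw [tau_inl]
      simp only [Pi.smul_apply, w4, Sum.elim_inl, smul_eq_mul]
      simp
    · rw [tau_inr]
      simp [w4]
  apply le_antisymm
  · rw [Submodule.span_le]
    rintro _ ⟨⟨i, f⟩, rfl⟩
    have h1 : w4 (τ := τ) z (i, f) =
        tau g (∑ k, g f k • ∑ e, g⁻¹ e i • w4 (τ := τ) w (e, k)) := by
      rw [map_sum]
      have h2 : ∀ k, tau g (g f k • ∑ e, g⁻¹ e i • w4 (τ := τ) w (e, k)) =
          g f k • w4 (τ := τ) w (i, k) := by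
        intro k
        rw [map_smul, map_sum]
        congr 1
        have h3 : ∀ e, tau g (g⁻¹ e i • w4 (τ := τ) w (e, k)) =
            ∑ i', (g i' e * g⁻¹ e i) • w4 (τ := τ) w (i', k) := by
          intro e
          rw [map_smul, himg, Finset.smul_sum]
          refine Finset.sum_congr rfl fun i' _ => ?_
          rw [smul_smul, mul_comm]
        simp only [h3]
        rw [Finset.sum_comm]
        have h4 : ∀ i', ∑ e, (g i' e * g⁻¹ e i) • w4 (τ := τ) w (i', k) =
            (1 : Matrix (Fin 2) (Fin 2) E) i' i • w4 (τ := τ) w (i', k) := by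
          intro i'
          rw [← Finset.sum_smul, ← Matrix.mul_nonsing_inv _ hu, Matrix.mul_apply]
        simp only [h4]
        simp [Matrix.one_apply]
      simp only [h2]
      funext r
      rw [Finset.sum_apply]
      rcases r with ⟨i', l⟩ | j
      · simp only [w4, Sum.elim_inl, Pi.smul_apply, smul_eq_mul]
        by_cases hi : i' = i
        · simp only [hi, if_true]; exact hz f l
        · simp [hi]
      · simp [w4]
    rw [SetLike.mem_coe, h1]
    refine Submodule.mem_map_of_mem ?_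
    exact Submodule.sum_mem _ fun k _ => Submodule.smul_mem _ _ (Submodule.sum_mem _ fun e _ =>
      Submodule.smul_mem _ _ (Submodule.subset_span ⟨(e, k), rfl⟩))
  · rw [Submodule.map_le_iff_le_comap, Submodule.span_le]
    rintro _ ⟨⟨e, f⟩, rfl⟩
    rw [SetLike.mem_coe, Submodule.mem_comap, himg]
    exact Submodule.sum_mem _ fun i _ => Submodule.smul_mem _ _ (place_mem hz hg i f)

theorem cst_tau (hz : ∀ i l, z i l = ∑ k, g i k * w k l) (r : (σ × σ) ⊕ τ) :
    cst z r = tau g (cst w r) := by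
  rcases r with ⟨a, b⟩ | j
  · funext r
    rcases r with ⟨i, l⟩ | j'
    · rw [tau_inl]
      by_cases hl : l = a
      · simp only [cst, Sum.elim_inl, hl, if_true]; exact hz i b
      · simp [cst, hl]
    · rw [tau_inr]
      simp [cst]
  · funext r
    rcases r with ⟨i, l⟩ | j'
    · rw [tau_inl]
      simp [cst]
    · rw [tau_inr]
      simp [cst]

/-- columns of forms for the two bases -/
theorem lam_tau (hz : ∀ i l, z i l = ∑ k, g i k * w k l) (hg : g.det ≠ 0)
    (f : MvPolynomial σ E) :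
    Lam (mu D θ z) f - tau g (Lam (mu D θ w) f) ∈
      Submodule.span E (Set.range (w4 (τ := τ) z)) := by
  rw [lam_map, lam_apply, lam_apply, ← Finset.sum_sub_distrib]
  refine Submodule.sum_mem _ fun s _ => ?_
  rw [← smul_sub]
  exact Submodule.smul_mem _ _ (mu_tau D θ z w g hz hg s)

theorem jc_tau (hz : ∀ i l, z i l = ∑ k, g i k * w k l) (hg : g.det ≠ 0)
    (q : (σ →₀ ℕ) × σ × σ × σ) :
    jc (mu D θ z) z q - g.det • tau g (jc (mu D θ w) w q) ∈
      Submodule.span E (Set.range (w4 (τ := τ) z)) := by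
  have h1 : jc (mu D θ z) z q =
      g.det • Lam (mu D θ z) (monomial q.1 1 * thr w q.2.1 q.2.2.1 q.2.2.2) := by
    unfold jc
    rw [thr_tau z w g hz, ← map_smul]
    congr 1
    rw [MvPolynomial.smul_eq_C_mul]
    ring
  rw [h1, ← smul_sub]
  exact Submodule.smul_mem _ _ (lam_tau D θ z w g hz hg _)

/-- the spaces of the line -/
theorem jsp_tau (hz : ∀ i l, z i l = ∑ k, g i k * w k l) (hg : g.det ≠ 0) :
    Jsp D θ z = (Jsp D θ w).map (tau g) := by
  unfold Jsp
  rw [Submodule.map_sup, ← w4_tau z w g hz hg]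
  apply le_antisymm
  · refine sup_le le_sup_left ?_
    rw [Submodule.span_le]
    rintro _ ⟨q, rfl⟩
    have h1 := jc_tau D θ z w g hz hg q
    have h2 : jc (mu D θ z) z q = (jc (mu D θ z) z q - g.det • tau g (jc (mu D θ w) w q)) +
        g.det • tau g (jc (mu D θ w) w q) := by abel
    rw [SetLike.mem_coe, h2]
    refine Submodule.add_mem_sup h1 (Submodule.smul_mem _ _ (Submodule.mem_map_of_mem ?_))
    exact Submodule.subset_span ⟨q, rfl⟩
  · refine sup_le le_sup_left ?_
    rw [Submodule.map_le_iff_le_comap, Submodule.span_le]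
    rintro _ ⟨q, rfl⟩
    have h1 := jc_tau D θ z w g hz hg q
    have h2 : tau g (jc (mu D θ w) w q) =
        g.det⁻¹ • (-(jc (mu D θ z) z q - g.det • tau g (jc (mu D θ w) w q)) +
          jc (mu D θ z) z q) := by
      rw [neg_sub, sub_add_cancel, smul_smul, inv_mul_cancel₀ hg, one_smul]
    rw [SetLike.mem_coe, Submodule.mem_comap, h2]
    refine Submodule.smul_mem _ _ (Submodule.add_mem_sup (Submodule.neg_mem _ h1) ?_)
    exact Submodule.subset_span ⟨q, rfl⟩

theorem asp_tau (hz : ∀ i l, z i l = ∑ k, g i k * w k l) (hg : g.det ≠ 0) :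
    Asp D θ z = (Asp D θ w).map (tau g) := by
  unfold Asp
  rw [Submodule.map_sup, ← w4_tau z w g hz hg]
  apply le_antisymm
  · refine sup_le le_sup_left ?_
    rw [Submodule.span_le]
    rintro _ ⟨s, rfl⟩
    have h1 := mu_tau D θ z w g hz hg s
    have h2 : mu D θ z s = (mu D θ z s - tau g (mu D θ w s)) + tau g (mu D θ w s) := by abel
    rw [SetLike.mem_coe, h2]
    exact Submodule.add_mem_sup h1 (Submodule.mem_map_of_mem (Submodule.subset_span ⟨s, rfl⟩))
  · refine sup_le le_sup_left ?_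
    rw [Submodule.map_le_iff_le_comap, Submodule.span_le]
    rintro _ ⟨s, rfl⟩
    have h1 := mu_tau D θ z w g hz hg s
    have h2 : tau g (mu D θ w s) = -(mu D θ z s - tau g (mu D θ w s)) + mu D θ z s := by abel
    rw [SetLike.mem_coe, Submodule.mem_comap, h2]
    exact Submodule.add_mem_sup (Submodule.neg_mem _ h1) (Submodule.subset_span ⟨s, rfl⟩)

/-- **`Moves` does not depend on the basis of the line.** -/
theorem moves_tau {T : ℕ} (hz : ∀ i l, z i l = ∑ k, g i k * w k l) (hg : g.det ≠ 0) :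
    Moves T D θ z ↔ Moves T D θ w := by
  unfold Moves
  rw [jsp_tau D θ z w g hz hg, asp_tau D θ z w g hz hg]
  have hi := tau_inj (σ := σ) (τ := τ) g hg
  rw [← (Submodule.equivMapOfInjective (tau g) hi (Jsp D θ w)).finrank_eq,
    ← (Submodule.equivMapOfInjective (tau g) hi (Asp D θ w)).finrank_eq]

/-- the echelon basis of the line through `z` at the coordinates `α`, `β` -/
def ech (z : Fin 2 → σ → E) (α β : σ) : Fin 2 → σ → E :=
  ![fun l => pl z l β / pl z α β, fun l => pl z α l / pl z α β]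

theorem ech_eq (α β : σ) (h : pl z α β ≠ 0) (i : Fin 2) (l : σ) :
    z i l = ∑ k, (!![z 0 α, z 0 β; z 1 α, z 1 β] : Matrix (Fin 2) (Fin 2) E) i k *
      ech z α β k l := by
  have h' : z 0 α * z 1 β - z 0 β * z 1 α ≠ 0 := h
  have key : ∀ a b : E, a * (pl z l β / pl z α β) + b * (pl z α l / pl z α β) =
      (a * pl z l β + b * pl z α l) / pl z α β := by
    intro a b; rw [add_div, mul_div_assoc, mul_div_assoc]
  fin_cases i
  · change z 0 l = ∑ k, _
    rw [Fin.sum_univ_two]
    change z 0 l = z 0 α * (pl z l β / pl z α β) + z 0 β * (pl z α l / pl z α β)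
    rw [key, eq_div_iff h]
    unfold pl; ring
  · change z 1 l = ∑ k, _
    rw [Fin.sum_univ_two]
    change z 1 l = z 1 α * (pl z l β / pl z α β) + z 1 β * (pl z α l / pl z α β)
    rw [key, eq_div_iff h]
    unfold pl; ring

theorem pl_ech (α β : σ) (h : pl z α β ≠ 0) (j l : σ) :
    pl (ech z α β) j l = pl z j l / pl z α β := by
  have h1 := pl_tau z (ech z α β) _ (fun i l => ech_eq z α β h i l) j l
  rw [Matrix.det_fin_two_of] at h1
  have h2 : z 0 α * z 1 β - z 0 β * z 1 α = pl z α β := rfl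
  rw [h2] at h1
  rw [h1, mul_div_cancel_left₀ _ h]

end

end Pool.Agent.Helper74.LN

end
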