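import Pool.Agent.Helper74.MG.T14
import Pool.Agent.Helper74.MG.T24
import Pool.Agent.Helper74.MG.T16
import Pool.Agent.Helper74.MG.T11
import Pool.Agent.Helper74.MG.T12

section

/-! # LG-KEY: the linear algebra -/

set_option autoImplicit false

namespace Pool.Agent.Helper8.LV

open Pool.Agent.Helper8.LG

open scoped BigOperators

private theorem left_rows_le {E σ κ Q : Type*} [Field E] [Fintype κ] [DecidableEq κ] [Fintype Q]
    (C : Q → σ → E) (w : ℕ)
    (hm : ∀ (r : Fin (w + 2) → σ) (c : Fin (w + 2) → Q),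
      Matrix.det (Matrix.of fun s t => C (c t) (r s)) = 0)
    (K : κ → σ → E) (hK : ∀ t, K t ∈ Submodule.span E (Set.range C)) (M : Matrix κ κ E)
    (hM : M.det ≠ 0) (S : Finset κ) (ρ : κ → σ) (hS : ∀ s ∈ S, ∀ t, M s t = K t (ρ s)) :
    S.card ≤ w + 1 := by
  by_contra hcon
  have hcard : w + 2 ≤ S.card := by omega
  let f : Fin (w + 2) → κ := fun i => (S.equivFin.symm (Fin.castLE hcard i) : S)
  have hf : Function.Injective f := by
    intro i j hij
    have h1 := S.equivFin.symm.injective (Subtype.ext hij)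
    exact Fin.castLE_injective hcard h1
  have hfS : ∀ i, f i ∈ S := fun i => (S.equivFin.symm (Fin.castLE hcard i)).2
  have hlin : LinearIndependent E fun i : Fin (w + 2) => fun q : Q => C q (ρ (f i)) := by
    rw [Fintype.linearIndependent_iff]
    intro c hc
    have h1 : LinearIndependent E fun i : Fin (w + 2) => M (f i) :=
      (Matrix.linearIndependent_rows_of_det_ne_zero hM).comp f hf
    rw [Fintype.linearIndependent_iff] at h1
    refine h1 c ?_
    funext t
    obtain ⟨T, hT⟩ := (Submodule.mem_span_range_iff_exists_fun E).1 (hK t)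
    simp only [Finset.sum_apply, Pi.smul_apply, smul_eq_mul, Pi.zero_apply]
    have h2 : ∀ i, M (f i) t = ∑ q, T q * C q (ρ (f i)) := by
      intro i
      rw [hS _ (hfS i), ← hT]
      simp
    calc ∑ i, c i * M (f i) t = ∑ q, T q * ∑ i, c i * C q (ρ (f i)) := by
          simp only [h2, Finset.mul_sum]
          rw [Finset.sum_comm]
          exact Finset.sum_congr rfl fun q _ => Finset.sum_congr rfl fun i _ => by ring
      _ = 0 := by
          apply Finset.sum_eq_zero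
          intro q _
          have h3 := congrFun hc q
          simp only [Finset.sum_apply, Pi.smul_apply, smul_eq_mul, Pi.zero_apply] at h3
          rw [h3, mul_zero]
  obtain ⟨c, _, hc⟩ := exists_minor _ hlin
  apply hc
  have h4 := hm (fun s => ρ (f s)) c
  rw [← Matrix.det_transpose] at h4
  exact h4

private theorem sum_single_smul {E κ V : Type*} [Semiring E] [AddCommMonoid V] [Module E V]
    [Fintype κ] [DecidableEq κ] (t : κ) (c : E) (v : κ → V) :
    ∑ t', (Pi.single t c : κ → E) t' • v t' = c • v t := by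
  rw [Finset.sum_eq_single t]
  · rw [Pi.single_eq_same]
  · intro t' _ h
    rw [Pi.single_eq_of_ne h, zero_smul]
  · intro h
    exact absurd (Finset.mem_univ t) h

section

variable {E : Type*} [Field E] {σ ι Tt : Type*} [Fintype σ] [DecidableEq σ] [DecidableEq ι]
  (n : ι → ℕ) {d : ι → ℕ} (a : (i : ι) → Sym σ (d i) → E)
  (D : Ix σ (fun i => n i + 1) → Derivation ℤ E E)
  (θ : Tt → Ix σ (fun i => n i + 1) → E) (Z : Finset ι) (x : σ → E)

omit [Fintype σ] [DecidableEq σ] [DecidableEq ι] in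
private theorem phi_inj {c : E} (hc : c ≠ 0) :
    Function.Injective (phi (σ := σ) (ι := ι) (τ := Tt) c) := by
  intro f g h
  funext r
  have h1 := congrFun h r
  rcases r with (l | i) | j
  · simp only [phi, LinearMap.pi_apply, LinearMap.smul_apply, LinearMap.proj_apply, Sum.elim_inl,
      smul_eq_mul] at h1
    exact mul_left_cancel₀ hc h1
  · simpa only [phi, LinearMap.pi_apply, LinearMap.smul_apply, LinearMap.proj_apply, Sum.elim_inl,
      Sum.elim_inr, smul_eq_mul, one_mul] using h1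
  · simpa only [phi, LinearMap.pi_apply, LinearMap.smul_apply, LinearMap.proj_apply, Sum.elim_inr,
      smul_eq_mul, one_mul] using h1

omit [Fintype σ] [DecidableEq σ] [DecidableEq ι] in
private theorem phi_apply (c : E) (f : (σ ⊕ ι) ⊕ Tt → E) (r : (σ ⊕ ι) ⊕ Tt) :
    phi c f r = (Sum.elim (Sum.elim (fun _ => c) (fun _ => 1)) (fun _ => 1) r : E) * f r := rfl

omit [Fintype σ] [DecidableEq σ] in
private theorem eul_row {i : ι} (hi : i ∈ Z) :
    (eul d Z x : (σ ⊕ ι) ⊕ Tt → E) (Sum.inl (Sum.inr i)) = 0 := by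
  simp [eul, hi]

private theorem cv_row (s : Ix σ (fun i => n i + 1)) {i : ι} (hi : i ∈ Z) :
    cv n a D θ Z x s (Sum.inl (Sum.inr i)) = 0 := by
  simp [cv, hi]

private theorem syz_row (s : Σ i : ι, Sym σ (n i) × σ × σ) {i : ι} (hi : i ∈ Z) :
    syz n a D θ Z x s (Sum.inl (Sum.inr i)) = 0 := by
  simp [syz, cv_row n a D θ Z x _ hi]

/-- the column indexed by `o` -/
private def colF (o : Option (Σ i : ι, Sym σ (n i) × σ × σ)) : (σ ⊕ ι) ⊕ Tt → E :=
  o.elim (eul d Z x) (syz n a D θ Z x)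

/-- the column indexed by `i` -/
private def colR (j : σ) (i : ι) : (σ ⊕ ι) ⊕ Tt → E :=
  cv n a D θ Z x ⟨i, Sym.replicate (n i + 1) j⟩

omit [Fintype σ] [DecidableEq σ] in
private theorem mon_rep (x : σ → E) (m : ℕ) (j : σ) : mon x (Sym.replicate m j) = x j ^ m := by
  simp [mon, Sym.coe_replicate]

variable {n a D θ Z x}

private theorem span_tilde (b : Set (Option (Σ i : ι, Sym σ (n i) × σ × σ))) (hb0 : none ∈ b)
    (hbsp : ∀ s, syz n a D θ Z x s ∈
      Submodule.span E (Set.range fun o : b => colF n a D θ Z x (o : Option _)))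
    (hU : ∀ i ∉ Z, form (a i) x ≠ 0) {c : E} (hc : c ≠ 0)
    (s : Σ i : ι, Sym σ (n i) × σ × σ) :
    syz n a D θ Z (fun l => x l / c) s ∈
      Submodule.span E (Set.range fun o : b => colF n a D θ Z (fun l => x l / c) (o : Option _)) := by
  set W := Submodule.span E
    (Set.range fun o : b => colF n a D θ Z (fun l => x l / c) (o : Option _)) with hW
  have h0 : eul d Z (fun l => x l / c) ∈ W := Submodule.subset_span ⟨⟨none, hb0⟩, rfl⟩
  have h0' : (eul d Z x : (σ ⊕ ι) ⊕ Tt → E) ∈ W.map (phi c) := by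
    rw [eul_scale d Z x c hc]
    exact Submodule.mem_map_of_mem h0
  have h1 : Submodule.span E (Set.range fun o : b => colF n a D θ Z x (o : Option _)) ≤
      W.map (phi c) := by
    rw [Submodule.span_le]
    rintro _ ⟨⟨o, ho⟩, rfl⟩
    rcases o with _ | s'
    · exact h0'
    · obtain ⟨bb, hbb⟩ := syz_scale n a D θ Z x hU c hc s'
      change syz n a D θ Z x s' ∈ W.map (phi c)
      rw [hbb]
      exact add_mem (Submodule.smul_mem _ _ (Submodule.mem_map_of_mem
        (Submodule.subset_span ⟨⟨some s', ho⟩, rfl⟩))) (Submodule.smul_mem _ _ h0')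
  obtain ⟨bb, hbb⟩ := syz_scale n a D θ Z x hU c hc s
  have h2 := h1 (hbsp s)
  have h3 : c • phi c (syz n a D θ Z (fun l => x l / c) s) ∈ W.map (phi c) := by
    have h4 := sub_mem h2 (Submodule.smul_mem _ bb h0')
    rwa [hbb, add_sub_cancel_right] at h4
  have h5 : phi c (syz n a D θ Z (fun l => x l / c) s) ∈ W.map (phi c) := by
    have h6 := Submodule.smul_mem _ c⁻¹ h3
    rwa [smul_smul, inv_mul_cancel₀ hc, one_smul] at h6
  obtain ⟨y, hy, hy2⟩ := h5
  rw [← phi_inj hc hy2]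
  exact hy

/-- the column indexed by `t` -/
private def colK (n : ι → ℕ) {d : ι → ℕ} (a : (i : ι) → Sym σ (d i) → E)
    (D : Ix σ (fun i => n i + 1) → Derivation ℤ E E)
    (θ : Tt → Ix σ (fun i => n i + 1) → E) (Z : Finset ι)
    (b : Set (Option (Σ i : ι, Sym σ (n i) × σ × σ))) (x : σ → E) (j : σ) :
    (b ⊕ ι) → (σ ⊕ ι) ⊕ Tt → E :=
  Sum.elim (fun o : b => colF n a D θ Z x (o : Option _)) (colR n a D θ Z x j)

private def rkK {S : Type*} (b : Set (Option S)) : (b ⊕ ι) → ℕ :=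
  Sum.elim (fun o : b => (o : Option S).elim 0 fun _ => 1) fun _ => 2

private def gK (n : ι → ℕ) {S : Type*} (b : Set (Option S)) (c : E) : (b ⊕ ι) → E :=
  Sum.elim (fun o : b => (o : Option S).elim 1 fun _ => c) fun i => (c ^ (n i + 1))⁻¹

private theorem exists_T [Fintype ι] (b : Set (Option (Σ i : ι, Sym σ (n i) × σ × σ)))
    [Fintype b] [DecidableEq (b ⊕ ι)] (hb0 : none ∈ b)
    (hbsp : ∀ s, syz n a D θ Z x s ∈
      Submodule.span E (Set.range fun o : b => colF n a D θ Z x (o : Option _)))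
    (hU : ∀ i ∉ Z, form (a i) x ≠ 0) (i₀ : σ) (hx : x i₀ = 1) (j₀ : σ) (hj : x j₀ ≠ 0)
    (t : b ⊕ ι) :
    ∃ τ : (b ⊕ ι) → E,
      colK n a D θ Z b x i₀ t =
        ∑ t', τ t' • phi (x j₀) (colK n a D θ Z b (fun l => x l / x j₀) j₀ t') ∧
      τ t = gK n b (x j₀) t ∧ ∀ t', t' ≠ t → rkK b t ≤ rkK b t' → τ t' = 0 := by
  set c := x j₀ with hc
  set xt : σ → E := fun l => x l / c with hxt
  set N : b ⊕ ι := Sum.inl ⟨none, hb0⟩ with hN
  have hN1 : phi c (colK n a D θ Z b xt j₀ N) = eul d Z x := (eul_scale d Z x c hj).symm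
  rcases t with ⟨o, ho⟩ | i
  · rcases o with _ | s
    · refine ⟨Pi.single N 1, ?_, ?_, ?_⟩
      · rw [sum_single_smul, one_smul, hN1]
        rfl
      · rw [← hN, Pi.single_eq_same]
        rfl
      · intro t' ht _
        rw [Pi.single_eq_of_ne ht]
    · obtain ⟨bb, hbb⟩ := syz_scale n a D θ Z x hU c hj s
      have hne : (Sum.inl ⟨some s, ho⟩ : b ⊕ ι) ≠ N := by
        intro h
        have h1 := congrArg Subtype.val (Sum.inl_injective h)
        cases h1
      refine ⟨Pi.single (Sum.inl ⟨some s, ho⟩) c + Pi.single N bb, ?_, ?_, ?_⟩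
      · simp only [Pi.add_apply, add_smul, Finset.sum_add_distrib, sum_single_smul]
        rw [hN1]
        exact hbb
      · rw [Pi.add_apply, Pi.single_eq_same, Pi.single_eq_of_ne hne, add_zero]
        rfl
      · intro t' ht hrk
        have h1 : t' ≠ N := by
          intro h
          rw [h] at hrk
          change 1 ≤ 0 at hrk
          omega
        rw [Pi.add_apply, Pi.single_eq_of_ne ht, Pi.single_eq_of_ne h1, add_zero]
  · have h1 := cv_sub_mem n a D θ Z xt j₀ i (Sym.replicate (n i + 1) i₀)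
    have hxj : xt j₀ = 1 := div_self hj
    rw [hxj, one_pow, one_smul, mon_rep] at h1
    have h2 : Submodule.span E (Set.range (syz n a D θ Z xt)) ≤
        Submodule.span E (Set.range fun o : b => colF n a D θ Z xt (o : Option _)) := by
      rw [Submodule.span_le]
      rintro _ ⟨s, rfl⟩
      exact span_tilde b hb0 hbsp hU hj s
    obtain ⟨cf, hcf⟩ := (Submodule.mem_span_range_iff_exists_fun E).1 (h2 h1)
    have hxi : xt i₀ ^ (n i + 1) = (c ^ (n i + 1))⁻¹ := by
      rw [hxt]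
      simp only
      rw [hx, one_div, inv_pow]
    rw [hxi] at hcf
    have h3 : cv n a D θ Z xt ⟨i, Sym.replicate (n i + 1) i₀⟩ =
        (c ^ (n i + 1))⁻¹ • colK n a D θ Z b xt j₀ (Sum.inr i) +
          ∑ o : b, cf o • colK n a D θ Z b xt j₀ (Sum.inl o) := by
      have h4 : ∑ o : b, cf o • colK n a D θ Z b xt j₀ (Sum.inl o) =
          cv n a D θ Z xt ⟨i, Sym.replicate (n i + 1) i₀⟩ -
            (c ^ (n i + 1))⁻¹ • cv n a D θ Z xt ⟨i, Sym.replicate (n i + 1) j₀⟩ := hcf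
      rw [h4]
      change _ = (c ^ (n i + 1))⁻¹ • cv n a D θ Z xt ⟨i, Sym.replicate (n i + 1) j₀⟩ + _
      abel
    set bb := D ⟨i, Sym.replicate (n i + 1) i₀⟩ c / c with hbb
    have h5 : colK n a D θ Z b x i₀ (Sum.inr i) =
        (c ^ (n i + 1))⁻¹ • phi c (colK n a D θ Z b xt j₀ (Sum.inr i)) +
          ∑ o : b, cf o • phi c (colK n a D θ Z b xt j₀ (Sum.inl o)) +
            bb • phi c (colK n a D θ Z b xt j₀ N) := by
      rw [hN1]
      have h6 := cv_scale n a D θ Z x hU c hj ⟨i, Sym.replicate (n i + 1) i₀⟩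
      rw [h3, map_add, map_smul, map_sum] at h6
      simp only [map_smul] at h6
      exact h6
    have hNr : (Sum.inr i : b ⊕ ι) ≠ N := Sum.inr_ne_inl
    refine ⟨Pi.single (Sum.inr i) (c ^ (n i + 1))⁻¹ + Sum.elim cf 0 + Pi.single N bb, ?_, ?_, ?_⟩
    · simp only [Pi.add_apply, add_smul, Finset.sum_add_distrib, sum_single_smul]
      rw [h5]
      congr 2
      rw [Fintype.sum_sum_type]
      simp
    · rw [Pi.add_apply, Pi.add_apply, Pi.single_eq_same, Pi.single_eq_of_ne hNr, add_zero]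
      simp [gK]
    · intro t' ht hrk
      rcases t' with o | i'
      · exfalso
        rcases o with ⟨_ | s, ho⟩
        · change 2 ≤ 0 at hrk
          omega
        · change 2 ≤ 1 at hrk
          omega
      · have h7 : (Sum.inr i' : b ⊕ ι) ≠ N := Sum.inr_ne_inl
        rw [Pi.add_apply, Pi.add_apply, Pi.single_eq_of_ne ht, Pi.single_eq_of_ne h7]
        simp

/-- the weights of the rows -/
private def wt (u : ι → E) (e : ι → ℕ) (c : E) : (σ ⊕ ι) ⊕ Tt → E :=
  Sum.elim (Sum.elim (fun _ => 1) fun i => u i / c ^ e i) fun _ => 1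

private theorem entry_mem (b : Set (Option (Σ i : ι, Sym σ (n i) × σ × σ)))
    (u : ι → E) (e : ι → ℕ) (c : E) (j₀ : σ) (O : ValuationSubring E) (Δ : E)
    (xt : σ → E) (hxt : ∀ l, xt l ∈ O) (hD : Bdd D Δ O) (hθ : ∀ j s, Δ * θ j s ∈ O)
    (r : (σ ⊕ ι) ⊕ Tt)
    (hr : ∀ i, r = Sum.inl (Sum.inr i) → i ∉ Z ∧ Δ * (u i / c ^ e i) ∈ O ∧
      ∀ p, Δ * (u i / c ^ e i * (D p (form (a i) xt) / form (a i) xt)) ∈ O) (t : b ⊕ ι) :
    Δ * (wt u e c r * colK n a D θ Z b xt j₀ t r) ∈ O := by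
  have h1 : Δ * (wt u e c r * eul d Z xt r) ∈ O := by
    rcases r with (l | i) | j
    · simp only [wt, eul, Sum.elim_inl, one_mul]
      exact mul_mem hD.1 (hxt l)
    · obtain ⟨h2, h3, _⟩ := hr i rfl
      simp only [wt, eul, Sum.elim_inl, Sum.elim_inr, if_neg h2]
      rw [← mul_assoc]
      exact mul_mem h3 (natCast_mem O _)
    · simp only [wt, eul, Sum.elim_inr, mul_zero]
      exact zero_mem O
  have h2 : ∀ p, Δ * (wt u e c r * cv n a D θ Z xt p r) ∈ O := by
    intro p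
    rcases r with (l | i) | j
    · simp only [wt, cv, Sum.elim_inl, one_mul]
      exact hD.2 p _ (hxt l)
    · obtain ⟨h2, _, h3⟩ := hr i rfl
      simp only [wt, cv, Sum.elim_inl, Sum.elim_inr, if_neg h2]
      exact h3 p
    · simp only [wt, cv, Sum.elim_inr, one_mul]
      exact hθ j p
  rcases t with ⟨o, ho⟩ | i
  · rcases o with _ | s
    · exact h1
    · have h3 : colK n a D θ Z b xt j₀ (Sum.inl ⟨some s, ho⟩) r =
          xt s.2.2.1 * cv n a D θ Z xt ⟨s.1, s.2.2.2 ::ₛ s.2.1⟩ r -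
            xt s.2.2.2 * cv n a D θ Z xt ⟨s.1, s.2.2.1 ::ₛ s.2.1⟩ r := rfl
      have h4 := sub_mem (mul_mem (hxt s.2.2.1) (h2 ⟨s.1, s.2.2.2 ::ₛ s.2.1⟩))
        (mul_mem (hxt s.2.2.2) (h2 ⟨s.1, s.2.2.1 ::ₛ s.2.1⟩))
      rw [h3]
      have h5 : Δ * (wt u e c r * (xt s.2.2.1 * cv n a D θ Z xt ⟨s.1, s.2.2.2 ::ₛ s.2.1⟩ r -
            xt s.2.2.2 * cv n a D θ Z xt ⟨s.1, s.2.2.1 ::ₛ s.2.1⟩ r)) =
          xt s.2.2.1 * (Δ * (wt u e c r * cv n a D θ Z xt ⟨s.1, s.2.2.2 ::ₛ s.2.1⟩ r)) -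
            xt s.2.2.2 * (Δ * (wt u e c r * cv n a D θ Z xt ⟨s.1, s.2.2.1 ::ₛ s.2.1⟩ r)) := by
        ring
      rw [h5]
      exact h4
  · exact h2 _

/-- the columns are linearly independent -/
private theorem li_K [Fintype ι] [Fintype Tt] {bb : ι → ℕ} {A : (i : ι) → Sym σ (d i) → E}
    {p : (i : ι) → Sym σ (bb i) → E} {h : (i : ι) → Sym σ (n i + 1) → E}
    (jj : Tt → Ix σ (fun i => n i + 1))
    (hD : Dual (fun i => n i + 1) h D jj θ) (hM : Mov d bb (fun i => n i + 1) a A p h D)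
    (hP : ∀ i, form (p i) x ≠ 0)
    (hZ : ∀ i ∈ Z, form (a i) x = 0) (hU : ∀ i ∉ Z, form (a i) x ≠ 0)
    (b : Set (Option (Σ i : ι, Sym σ (n i) × σ × σ)))
    (hbli : LinearIndependent E fun o : b => colF n a D θ Z x (o : Option _))
    (i₀ : σ) (hx : x i₀ = 1) : LinearIndependent E (colK n a D θ Z b x i₀) := by
  obtain ⟨lam, hl1, hl2, hl3⟩ := exists_functional n a A p h D jj θ hD hM Z x hZ hU
  have hlF : ∀ o : b, lam (colF n a D θ Z x (o : Option _)) = 0 := by
    rintro ⟨o, ho⟩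
    rcases o with _ | s
    · exact hl1
    · exact hl3 s
  have hlR : ∀ i, lam (colR n a D θ Z x i₀ i) = Pi.single i (-form (p i) x) := by
    intro i
    rw [colR, hl2, mon_rep, hx, one_pow, mul_one]
  have key1 : ∀ f : ι → E, lam (∑ i, f i • colR n a D θ Z x i₀ i) =
      fun i => -(f i * form (p i) x) := by
    intro f
    rw [map_sum]
    simp only [map_smul, hlR]
    funext i
    rw [Finset.sum_apply, Finset.sum_eq_single i]
    · simp
    · intro i' _ h
      rw [Pi.smul_apply, Pi.single_eq_of_ne h.symm, smul_zero]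
    · intro h
      exact absurd (Finset.mem_univ i) h
  have hRli : LinearIndependent E (colR n a D θ Z x i₀) := by
    rw [Fintype.linearIndependent_iff]
    intro f hf i
    have h1 := key1 f
    rw [hf, map_zero] at h1
    have h2 := congrFun h1 i
    rw [Pi.zero_apply] at h2
    exact (mul_eq_zero.1 (neg_eq_zero.1 h2.symm)).resolve_right (hP i)
  refine LinearIndependent.sum_type hbli hRli ?_
  rw [Submodule.disjoint_def]
  intro z hz1 hz2
  have h1 : lam z = 0 := by
    have h2 : Submodule.span E (Set.range fun o : b => colF n a D θ Z x (o : Option _)) ≤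
        LinearMap.ker lam := by
      rw [Submodule.span_le]
      rintro _ ⟨o, rfl⟩
      exact hlF o
    exact h2 hz1
  obtain ⟨f, hf⟩ := (Submodule.mem_span_range_iff_exists_fun E).1 hz2
  have h2 := key1 f
  rw [hf, h1] at h2
  have h3 : f = 0 := by
    funext i
    have h4 := congrFun h2 i
    rw [Pi.zero_apply] at h4
    exact (mul_eq_zero.1 (neg_eq_zero.1 h4.symm)).resolve_right (hP i)
  rw [← hf, h3]
  simp

/-- the `x`-rows of the columns are combinations of `x` and the `D_p x` -/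
private theorem colK_span [Fintype ι] (b : Set (Option (Σ i : ι, Sym σ (n i) × σ × σ)))
    (i₀ : σ) (t : b ⊕ ι) : (fun l => colK n a D θ Z b x i₀ t (Sum.inl (Sum.inl l))) ∈
      Submodule.span E (Set.range (col D x)) := by
  have h1 : ∀ q, col D x q ∈ Submodule.span E (Set.range (col D x)) :=
    fun q => Submodule.subset_span ⟨q, rfl⟩
  rcases t with ⟨o, ho⟩ | i
  · rcases o with _ | s
    · exact h1 none
    · exact sub_mem (Submodule.smul_mem _ (x s.2.2.1) (h1 (some ⟨s.1, s.2.2.2 ::ₛ s.2.1⟩)))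
        (Submodule.smul_mem _ (x s.2.2.2) (h1 (some ⟨s.1, s.2.2.1 ::ₛ s.2.1⟩)))
  · exact h1 (some ⟨i, Sym.replicate (n i + 1) i₀⟩)

private theorem colK_zero (b : Set (Option (Σ i : ι, Sym σ (n i) × σ × σ)))
    (i₀ : σ) (t : b ⊕ ι) {i : ι} (hi : i ∈ Z) : colK n a D θ Z b x i₀ t (Sum.inl (Sum.inr i)) = 0 := by
  rcases t with ⟨o, ho⟩ | i'
  · rcases o with _ | s
    · exact eul_row (Tt := Tt) Z x hi
    · exact syz_row n a D θ Z x s hi
  · exact cv_row n a D θ Z x _ hi

omit [DecidableEq ι] in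
private theorem prod_gK [Fintype ι] {S : Type*} (b : Set (Option S)) [Fintype b]
    (hb0 : none ∈ b) (c : E) (hc : c ≠ 0) :
    (∏ t, gK n b c t) * (c * c ^ ∑ i, (n i + 1)) = c ^ Fintype.card b := by
  classical
  rw [Fintype.prod_sum_type]
  have h1 : ∏ i : ι, gK n b c (Sum.inr i) = (c ^ ∑ i, (n i + 1))⁻¹ := by
    rw [← Finset.prod_pow_eq_pow_sum, ← Finset.prod_inv_distrib]
    rfl
  have h2 : (∏ o : b, gK n b c (Sum.inl o)) * c = c ^ Fintype.card b := by
    rw [← Finset.mul_prod_erase Finset.univ _ (Finset.mem_univ (⟨none, hb0⟩ : b))]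
    have h3 : gK n b c (Sum.inl ⟨none, hb0⟩) = 1 := rfl
    rw [h3, one_mul, Finset.prod_congr rfl (g := fun _ => c)]
    · rw [Finset.prod_const, Finset.card_erase_of_mem (Finset.mem_univ _), Finset.card_univ,
        ← pow_succ]
      congr 1
      have h5 : 0 < Fintype.card b := Fintype.card_pos_iff.2 ⟨⟨none, hb0⟩⟩
      exact Nat.sub_add_cancel h5
    · rintro ⟨o, ho⟩ h
      rcases o with _ | s
      · exact absurd rfl (Finset.ne_of_mem_erase h)
      · rfl
  rw [h1]
  have h4 : c ^ ∑ i, (n i + 1) ≠ 0 := pow_ne_zero _ hc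
  calc (∏ o : b, gK n b c (Sum.inl o)) * (c ^ ∑ i, (n i + 1))⁻¹ * (c * c ^ ∑ i, (n i + 1))
      = ((∏ o : b, gK n b c (Sum.inl o)) * c) * ((c ^ ∑ i, (n i + 1))⁻¹ * c ^ ∑ i, (n i + 1)) := by
        ring
    _ = c ^ Fintype.card b := by rw [inv_mul_cancel₀ h4, mul_one, h2]

end

private theorem key_aux {E : Type*} [Field E] {σ ι Tt : Type*} [Fintype σ] [DecidableEq σ]
    [Fintype ι] [DecidableEq ι] [Fintype Tt] (n d bb e : ι → ℕ)
    (a A : (i : ι) → Sym σ (d i) → E) (p : (i : ι) → Sym σ (bb i) → E)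
    (h : (i : ι) → Sym σ (n i + 1) → E)
    (D : Ix σ (fun i => n i + 1) → Derivation ℤ E E)
    (jj : Tt → Ix σ (fun i => n i + 1)) (θ : Tt → Ix σ (fun i => n i + 1) → E)
    (hD : Dual (fun i => n i + 1) h D jj θ) (hM : Mov d bb (fun i => n i + 1) a A p h D)
    (Z : Finset ι) (x : σ → E) (i₀ : σ) (hx : x i₀ = 1)
    (hZ : ∀ i ∈ Z, form (a i) x = 0) (hU : ∀ i ∉ Z, form (a i) x ≠ 0)
    (hP : ∀ i, form (p i) x ≠ 0)
    (u : ι → E) (hu : ∀ i ∉ Z, u i ≠ 0)
    (w : ℕ) (hw : 2 * w + 2 + Fintype.card Tt + ∑ i, e i ≤ ∑ i, (n i + 1) + Z.card)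
    (hm : MinorsVanish D x w) :
    ∃ G : E, G ≠ 0 ∧ KeyV d e a D θ Z u x G := by
  classical
  have heul : (eul d Z x : (σ ⊕ ι) ⊕ Tt → E) ≠ 0 := by
    intro h
    have h1 := congrFun h (Sum.inl (Sum.inl i₀))
    simp only [eul, Sum.elim_inl, Pi.zero_apply, hx] at h1
    exact one_ne_zero h1
  obtain ⟨b, hb0, hbli, hbsp⟩ := Helper74.LG.exists_basis_part (E := E) (eul d Z x) heul
    (syz n a D θ Z x)
  have : Fintype b := Fintype.ofFinite b
  have hK := li_K jj hD hM hP hZ hU b hbli i₀ hx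
  obtain ⟨r, hrinj, hrdet⟩ := exists_minor _ hK
  have hrZ : ∀ s i, r s = Sum.inl (Sum.inr i) → i ∉ Z := by
    intro s i hs hi
    apply hrdet
    refine Matrix.det_eq_zero_of_row_eq_zero s fun t => ?_
    rw [Matrix.of_apply, hs]
    exact colK_zero b i₀ t hi
  set uw : (σ ⊕ ι) ⊕ Tt → E := Sum.elim (Sum.elim (fun _ => 1) u) (fun _ => 1) with huw
  set ee : (σ ⊕ ι) ⊕ Tt → ℕ := Sum.elim (Sum.elim (fun _ => 0) e) (fun _ => 0) with hee
  set isx : (σ ⊕ ι) ⊕ Tt → Bool :=
    Sum.elim (Sum.elim (fun _ => true) (fun _ => false)) (fun _ => false) with hisx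
  -- counting
  set lft : Finset (b ⊕ ι) := Finset.univ.filter fun s => isx (r s) = true with hlft
  set rgt : Finset (b ⊕ ι) := Finset.univ.filter fun s => ¬ isx (r s) = true with hrgt
  have hn' : lft.card ≤ w + 1 := by
    refine left_rows_le (col D x) w hm (fun t l => colK n a D θ Z b x i₀ t (Sum.inl (Sum.inl l)))
      (colK_span b i₀) _ hrdet lft
      (fun s => Sum.elim (Sum.elim id (fun _ => i₀)) (fun _ => i₀) (r s)) ?_
    intro s hs t
    rw [hlft, Finset.mem_filter] at hs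
    rcases h : r s with (l | i) | j
    · simp [h]
    · rw [h] at hs
      simp [hisx] at hs
    · rw [h] at hs
      simp [hisx] at hs
  have hq' : rgt.card + Z.card ≤ Fintype.card ι + Fintype.card Tt := by
    have h1 : rgt.image r ⊆ ((Finset.univ \ Z).map ⟨fun i => Sum.inl (Sum.inr i),
          Sum.inl_injective.comp Sum.inr_injective⟩) ∪
        (Finset.univ : Finset Tt).map ⟨Sum.inr, Sum.inr_injective⟩ := by
      intro y hy
      rw [Finset.mem_image] at hy
      obtain ⟨s, hs, rfl⟩ := hy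
      rw [hrgt, Finset.mem_filter] at hs
      rw [Finset.mem_union]
      rcases h : r s with (l | i) | j
      · rw [h] at hs
        simp [hisx] at hs
      · left
        rw [Finset.mem_map]
        exact ⟨i, Finset.mem_sdiff.2 ⟨Finset.mem_univ i, hrZ s i h⟩, rfl⟩
      · right
        rw [Finset.mem_map]
        exact ⟨j, Finset.mem_univ j, rfl⟩
    have h2 := (Finset.card_le_card h1).trans (Finset.card_union_le _ _)
    rw [Finset.card_image_of_injective _ hrinj, Finset.card_map, Finset.card_map,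
      Finset.card_sdiff_of_subset (Finset.subset_univ Z), Finset.card_univ,
      Finset.card_univ] at h2
    have h3 : Z.card ≤ Fintype.card ι := Finset.card_le_univ Z
    omega
  have hcard : Fintype.card b + Fintype.card ι = lft.card + rgt.card := by
    rw [← Fintype.card_sum, ← Finset.card_univ (α := b ⊕ ι)]
    exact (Finset.card_filter_add_card_filter_not _).symm
  have hesum : ∑ s, ee (r s) ≤ ∑ i, e i := by
    calc ∑ s, ee (r s) = ∑ y ∈ Finset.univ.image r, ee y :=
          (Finset.sum_image fun _ _ _ _ h => hrinj h).symm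
      _ ≤ ∑ y, ee y := Finset.sum_le_sum_of_subset (Finset.subset_univ _)
      _ = ∑ i, e i := by
          rw [Fintype.sum_sum_type, Fintype.sum_sum_type]
          simp [hee]
  obtain ⟨m, hmP⟩ : ∃ m, 1 + ∑ i, (n i + 1) = (∑ s, ee (r s) + lft.card + Fintype.card b) + 1 + m :=
    Nat.exists_eq_add_of_le (by omega)
  obtain ⟨k', hk'⟩ : ∃ k', Fintype.card σ + Fintype.card ι + Fintype.card Tt =
      Fintype.card (b ⊕ ι) + k' := by
    apply Nat.exists_eq_add_of_le
    rw [← Fintype.card_sum, ← Fintype.card_sum]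
    exact Fintype.card_le_of_injective r hrinj
  refine ⟨Matrix.det (Matrix.of fun s t => uw (r s) * colK n a D θ Z b x i₀ t (r s)), ?_, ?_⟩
  · have h1 := Matrix.det_mul_column (fun s => uw (r s))
      (Matrix.of fun s t => colK n a D θ Z b x i₀ t (r s))
    simp only [Matrix.of_apply] at h1
    rw [h1]
    refine mul_ne_zero (Finset.prod_ne_zero_iff.2 fun s _ => ?_) hrdet
    rcases h : r s with (l | i) | j
    · rw [huw]
      simp
    · rw [huw]
      simpa using hu i (hrZ s i h)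
    · rw [huw]
      simp
  · intro O Δ hO hθ hrow l
    obtain ⟨j₀, hj, hjO⟩ := Helper74.LG.exists_max_coord O x i₀ (by
      rw [hx]
      exact one_ne_zero)
    set c := x j₀ with hc
    have hci : c⁻¹ ∈ O := by
      have h1 := hjO i₀
      rwa [hx, one_div] at h1
    choose τ hτ1 hτ2 hτ3 using exists_T b hb0 hbsp hU i₀ hx j₀ hj
    set Kt := colK n a D θ Z b (fun l => x l / x j₀) j₀ with hKt
    set rf : (σ ⊕ ι) ⊕ Tt → E := Sum.elim (Sum.elim (fun _ => c) (fun _ => 1)) (fun _ => 1)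
      with hrf
    set N : Matrix (b ⊕ ι) (b ⊕ ι) E := Matrix.of fun s t => wt u e c (r s) * Kt t (r s) with hN
    set T : Matrix (b ⊕ ι) (b ⊕ ι) E := Matrix.of fun t' t => τ t t' with hT
    have hTdet : T.det = ∏ t, gK n b c t :=
      Helper74.LG.det_tri T (rkK b) _ (fun t => hτ2 t) fun t' t h1 h2 => hτ3 t t' h1 h2
    have hdecomp : ∀ s, uw s = c ^ ee s * wt u e c s := by
      rintro ((s | i) | j)
      · simp [huw, hee, wt]
      · have h1 : c ^ e i ≠ 0 := pow_ne_zero _ hj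
        simp only [huw, hee, wt, Sum.elim_inl, Sum.elim_inr]
        field_simp
      · simp [huw, hee, wt]
    have hmat : (Matrix.of fun s t => uw (r s) * colK n a D θ Z b x i₀ t (r s)) =
        (Matrix.of fun s t' => (c ^ ee (r s) * rf (r s)) * N s t') * T := by
      ext s t
      rw [Matrix.mul_apply, Matrix.of_apply, hτ1 t, Finset.sum_apply, Finset.mul_sum]
      refine Finset.sum_congr rfl fun t' _ => ?_
      rw [Pi.smul_apply, smul_eq_mul, phi_apply, hdecomp]
      simp only [hN, hT, Matrix.of_apply]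
      change _ * (_ * (rf (r s) * Kt t' (r s))) = _
      ring
    have hdet : Matrix.det (Matrix.of fun s t => uw (r s) * colK n a D θ Z b x i₀ t (r s)) *
        (c * c ^ ∑ i, (n i + 1)) =
        c ^ (∑ s, ee (r s) + lft.card + Fintype.card b) * N.det := by
      rw [hmat, Matrix.det_mul, Matrix.det_mul_column, hTdet, mul_assoc, prod_gK b hb0 c hj,
        Finset.prod_mul_distrib, Finset.prod_pow_eq_pow_sum]
      have h1 : ∏ s, rf (r s) = c ^ lft.card := by
        rw [hlft, ← Finset.prod_const, Finset.prod_filter]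
        refine Finset.prod_congr rfl fun s _ => ?_
        rcases h : r s with (l | i) | j <;> simp [hrf, hisx]
      rw [h1]
      ring
    set G := Matrix.det (Matrix.of fun s t => uw (r s) * colK n a D θ Z b x i₀ t (r s)) with hG
    have hG2 : G * c ^ (m + 1) = N.det := by
      have h1 : c * c ^ ∑ i, (n i + 1) =
          c ^ (∑ s, ee (r s) + lft.card + Fintype.card b) * c ^ (m + 1) := by
        rw [← pow_succ', ← pow_add]
        congr 1
        omega
      rw [h1] at hdet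
      have h2 : c ^ (∑ s, ee (r s) + lft.card + Fintype.card b) ≠ 0 := pow_ne_zero _ hj
      apply mul_left_cancel₀ h2
      rw [← hdet]
      ring
    have hNdet : Δ ^ Fintype.card (b ⊕ ι) * N.det ∈ O := by
      rw [← Matrix.det_smul]
      refine Helper74.LG.det_mem O.toSubring _ fun s t => ?_
      rw [Matrix.smul_apply, smul_eq_mul]
      refine entry_mem (D := D) b u e c j₀ O Δ _ hjO hO hθ (r s) (fun i hi => ?_) t
      obtain ⟨h1, h2⟩ := hrow i (hrZ s i hi) j₀ hj hjO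
      exact ⟨hrZ s i hi, h1, h2⟩
    have hfin : Δ ^ (Fintype.card σ + Fintype.card ι + Fintype.card Tt) * (G * x l) =
        Δ ^ k' * (c⁻¹ ^ m * (x l / c)) * (Δ ^ Fintype.card (b ⊕ ι) * N.det) := by
      have h1 : c⁻¹ ^ m * c ^ (m + 1) = c := by
        rw [pow_succ, ← mul_assoc, ← mul_pow, inv_mul_cancel₀ hj, one_pow, one_mul]
      have h2 : x l / c * c = x l := div_mul_cancel₀ _ hj
      rw [hk', pow_add, ← hG2]
      calc Δ ^ Fintype.card (b ⊕ ι) * Δ ^ k' * (G * x l)
          = Δ ^ Fintype.card (b ⊕ ι) * Δ ^ k' * (G * (x l / c * (c⁻¹ ^ m * c ^ (m + 1)))) := by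
            rw [h1, h2]
        _ = _ := by ring
    rw [hfin]
    exact mul_mem (mul_mem (pow_mem hO.1 _) (mul_mem (pow_mem hci _) (hjO l))) hNdet

theorem key {E : Type*} [Field E] {σ ι τ : Type*} [Fintype σ] [DecidableEq σ] [Fintype ι]
    [DecidableEq ι] [Fintype τ] (d b q e : ι → ℕ) (hq : ∀ i, 0 < q i)
    (a A : (i : ι) → Sym σ (d i) → E) (p : (i : ι) → Sym σ (b i) → E)
    (h : (i : ι) → Sym σ (q i) → E) (D : Ix σ q → Derivation ℤ E E)
    (jj : τ → Ix σ q) (θ : τ → Ix σ q → E) (hD : Dual q h D jj θ) (hM : Mov d b q a A p h D)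
    (Z : Finset ι) (x : σ → E) (i₀ : σ) (hx : x i₀ = 1)
    (hZ : ∀ i ∈ Z, form (a i) x = 0) (hU : ∀ i ∉ Z, form (a i) x ≠ 0)
    (hP : ∀ i, form (p i) x ≠ 0)
    (u : ι → E) (hu : ∀ i ∉ Z, u i ≠ 0)
    (w : ℕ) (hw : 2 * w + 2 + Fintype.card τ + ∑ i, e i ≤ ∑ i, q i + Z.card)
    (hm : MinorsVanish D x w) :
    ∃ G : E, G ≠ 0 ∧ KeyV d e a D θ Z u x G := by
  obtain ⟨n, rfl⟩ : ∃ n : ι → ℕ, q = fun i => n i + 1 :=
    ⟨fun i => q i - 1, funext fun i => (Nat.sub_add_cancel (hq i)).symm⟩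
  exact key_aux n d b e a A p h D jj θ hD hM Z x i₀ hx hZ hU hP u hu w hw hm

end Pool.Agent.Helper8.LV

end

section

/-! # LG-DIR1: one direction of the base, first round -/

set_option autoImplicit false

namespace Pool.Agent.Helper8.LV

open Pool.Agent.Helper8.LG

open scoped BigOperators

/-- first round: the poles of `G x_l` are bounded -/
theorem dir_one {L : Type*} [Field L] [CharZero L] {σ ι τ P : Type*} [Fintype σ]
    [DecidableEq σ] [Fintype ι] [DecidableEq ι] [Fintype τ] [Finite P]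
    (d q e m : ι → ℕ) (a : (i : ι) → Sym σ (d i) → L) (D : P → Derivation ℤ L L)
    (θ : τ → P → L)
    (Z C : Finset ι) (i₀ : σ) (w c : ℕ) (hnum : NumV d q e m Z C w c)
    (E₀ : Subfield L) (t : L) (ht : Transcendental E₀ t)
    (hfin : FiniteDimensional (Subfield.closure ((E₀ : Set L) ∪ {t})) L)
    (hE₀ : ∀ p, ∀ f ∈ E₀, D p f ∈ E₀)
    (hDt : ∀ p, D p t ∈ Subring.closure ((E₀ : Set L) ∪ {t}))
    (S : Set L) (hS : S.Finite) (hSa : ∀ p : Ix σ d, a p.1 p.2 ∈ S)
    (hSθ : ∀ j s, θ j s ∈ S) :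
    ∃ Δ : L, Δ ≠ 0 ∧ ∀ (x : σ → L) (y : ι → L) (G : L),
      GoodV d m a D Z C i₀ w (Subring.closure ((E₀ : Set L) ∪ S)) x y →
      KeyV d e a D θ Z (uu C y) x G →
      ∀ l, Δ * (G * x l) ∈ intCl E₀ t := by
  obtain ⟨Δ₀, hΔc, hΔ0, hΔD, hΔS⟩ := exists_bound E₀ t ht hfin D hE₀ hDt S hS
  obtain ⟨hDed, hFrac⟩ := intCl_dedekind E₀ t ht hfin
  have hcl : Subring.closure ((E₀ : Set L) ∪ {t}) ≤ intCl E₀ t := by
    intro f hf
    exact isIntegral_algebraMap (R := Subring.closure ((E₀ : Set L) ∪ {t})) (x := ⟨f, hf⟩)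
  have hE₀R : ∀ f ∈ E₀, f ∈ intCl E₀ t := fun f hf =>
    hcl (Subring.subset_closure (Or.inl hf))
  have hQ : ∀ n : ℕ, n ≠ 0 → ((n : L))⁻¹ ∈ intCl E₀ t := fun n _ =>
    hE₀R _ (E₀.inv_mem (natCast_mem E₀ n))
  have hΔR : Δ₀ ∈ intCl E₀ t := hcl hΔc
  refine ⟨(Δ₀ ^ 3) ^ (Fintype.card σ + Fintype.card ι + Fintype.card τ), pow_ne_zero _ (pow_ne_zero _ hΔ0), ?_⟩
  intro x y G hgood hkey l
  refine mem_of (intCl E₀ t) _ fun O hO => ?_
  have hb : Bdd D Δ₀ O := bdd_of (intCl E₀ t) D Δ₀ hΔR hΔD O hO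
  have hΔO : Δ₀ ∈ O := hb.1
  refine hkey O (Δ₀ ^ 3) ⟨pow_mem hΔO 3, fun p f hf => ?_⟩ (fun j s => ?_) ?_ l
  · have h1 : Δ₀ ^ 3 * D p f = Δ₀ ^ 2 * (Δ₀ * D p f) := by ring
    rw [h1]
    exact mul_mem (pow_mem hΔO 2) (hb.2 p f hf)
  · have h1 : Δ₀ ^ 3 * θ j s = Δ₀ ^ 2 * (Δ₀ * θ j s) := by ring
    rw [h1]
    exact mul_mem (pow_mem hΔO 2) (hO (hΔS _ (hSθ j s)))
  intro i hi j hj hxO
  have hane : form (a i) x ≠ 0 := hgood.ne i hi
  have hgeq : form (a i) (fun l => x l / x j) = form (a i) x / x j ^ d i :=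
    dirOne_form_div (a i) x (x j)
  have hg0 : form (a i) (fun l => x l / x j) ≠ 0 := by
    rw [hgeq]
    exact div_ne_zero hane (pow_ne_zero _ hj)
  have haS : ∀ J, Δ₀ * a i J ∈ O := fun J => hO (hΔS _ (hSa ⟨i, J⟩))
  have hΔg : Δ₀ * form (a i) (fun l => x l / x j) ∈ O :=
    dirOne_form_mem O Δ₀ (a i) haS _ hxO
  by_cases hiC : i ∈ C
  · -- ramified case
    have hu : uu C y i = y i := if_pos hiC
    have hdm : d i = m i * e i := hnum.deg i hiC
    have hm : 0 < m i := by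
      rcases Nat.eq_zero_or_pos (m i) with h0 | h0
      · have := hnum.pos i
        rw [hdm, h0, zero_mul] at this
        exact absurd this (lt_irrefl 0)
      · exact h0
    rw [hu]
    generalize hgg : form (a i) (fun l => x l / x j) = g at hg0 hΔg hgeq ⊢
    generalize hyy : y i / x j ^ e i = yt
    have hyg : yt ^ m i = g := by
      have hpw : x j ^ d i = x j ^ (e i * m i) :=
        congrArg (fun r => x j ^ r) (hdm.trans (mul_comm _ _))
      rw [← hyy, div_pow, hgood.root i hiC, hgeq, ← pow_mul, hpw]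
    have hy0 : yt ≠ 0 := by
      intro h0
      rw [h0, zero_pow hm.ne'] at hyg
      exact hg0 hyg.symm
    have hΔy : Δ₀ * yt ∈ O := by
      refine dirOne_pow_mem O hm ?_
      obtain ⟨r, hr⟩ := Nat.exists_eq_succ_of_ne_zero hm.ne'
      have h1 : (Δ₀ * yt) ^ m i = Δ₀ ^ r * (Δ₀ * g) := by
        rw [mul_pow, hyg, hr, pow_succ]
        ring
      rw [h1]
      exact mul_mem (pow_mem hΔO r) hΔg
    refine ⟨?_, fun p => ?_⟩
    · have h1 : Δ₀ ^ 3 * yt = Δ₀ ^ 2 * (Δ₀ * yt) := by ring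
      rw [h1]
      exact mul_mem (pow_mem hΔO 2) hΔy
    · have h2 : D p g = (m i : L) * yt ^ (m i - 1) * D p yt := by
        rw [← hyg, Derivation.leibniz_pow, smul_eq_mul, nsmul_eq_mul]
        ring
      have h3 : yt * (D p g / g) = (m i : L) * D p yt := by
        rw [h2, ← hyg]
        obtain ⟨r, hr⟩ := Nat.exists_eq_succ_of_ne_zero hm.ne'
        rw [hr, Nat.succ_sub_one, pow_succ]
        field_simp
      have h4 : Δ₀ ^ 3 * D p yt =
          Δ₀ * (Δ₀ * D p (Δ₀ * yt)) - (Δ₀ * yt) * (Δ₀ * D p Δ₀) := by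
        rw [Derivation.leibniz, smul_eq_mul, smul_eq_mul]
        ring
      have h5 : Δ₀ ^ 3 * D p yt ∈ O := by
        rw [h4]
        exact sub_mem (mul_mem hΔO (hb.2 p _ hΔy)) (mul_mem hΔy (hb.2 p _ hΔO))
      have h6 : Δ₀ ^ 3 * (yt * (D p g / g)) = (m i : L) * (Δ₀ ^ 3 * D p yt) := by
        rw [h3]
        ring
      rw [h6]
      exact mul_mem (natCast_mem O (m i)) h5
  · -- unramified case
    have hu : uu C y i = 1 := if_neg hiC
    have he : e i = 0 := hnum.e0 i hiC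
    rw [hu, he, pow_zero, div_one]
    refine ⟨by rw [mul_one]; exact pow_mem hΔO 3, fun p => ?_⟩
    rw [one_mul]
    have key : Δ₀ ^ 2 * (D p (form (a i) fun l => x l / x j) /
        form (a i) fun l => x l / x j) ∈ O := by
      by_cases hinv : Δ₀⁻¹ ∈ O
      · have hSO : ∀ f ∈ S, f ∈ O := fun f hf => by
          have h1 : f = Δ₀⁻¹ * (Δ₀ * f) := by
            rw [← mul_assoc, inv_mul_cancel₀ hΔ0, one_mul]
          rw [h1]
          exact mul_mem hinv (hO (hΔS f hf))
        have hA : Subring.closure ((E₀ : Set L) ∪ S) ≤ O.toSubring := by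
          rw [Subring.closure_le]
          rintro f (hf | hf)
          · exact hO (hE₀R f hf)
          · exact hSO f hf
        have hint := dirOne_int_mem O _ hA (hgood.int i hi hiC (Sym.replicate (d i) j))
        rw [dirOne_mon_replicate] at hint
        have hgi : (form (a i) (fun l => x l / x j))⁻¹ ∈ O := by
          rw [hgeq, inv_div]
          exact hint
        have hgO : form (a i) (fun l => x l / x j) ∈ O := by
          have h1 := dirOne_form_mem O 1 (a i)
            (fun J => by rw [one_mul]; exact hSO _ (hSa ⟨i, J⟩)) _ hxO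
          rwa [one_mul] at h1
        have h2 : Δ₀ ^ 2 * (D p (form (a i) fun l => x l / x j) /
            form (a i) fun l => x l / x j) =
            Δ₀ * ((Δ₀ * D p (form (a i) fun l => x l / x j)) *
              (form (a i) (fun l => x l / x j))⁻¹) := by
          rw [div_eq_mul_inv]
          ring
        rw [h2]
        exact mul_mem hΔO (mul_mem (hb.2 p _ hgO) hgi)
      · have hb2 : Bdd D (Δ₀ ^ 2) O := by
          refine ⟨pow_mem hΔO 2, fun p f hf => ?_⟩
          have h1 : Δ₀ ^ 2 * D p f = Δ₀ * (Δ₀ * D p f) := by ring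
          rw [h1]
          exact mul_mem hΔO (hb.2 p f hf)
        refine log_of (intCl E₀ t) hQ D O hO (Δ₀ ^ 2) hb2 Δ₀ hΔ0 (Or.inr hinv) (fun q => ?_)
          _ hg0 p
        have h1 : Δ₀ ^ 2 * (D q Δ₀ / Δ₀) = Δ₀ * D q Δ₀ := by
          field_simp
        rw [h1]
        exact hb.2 q _ hΔO
    have h3 : Δ₀ ^ 3 * (D p (form (a i) fun l => x l / x j) /
        form (a i) fun l => x l / x j) =
        Δ₀ * (Δ₀ ^ 2 * (D p (form (a i) fun l => x l / x j) /
        form (a i) fun l => x l / x j)) := by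
      ring
    rw [h3]
    exact mul_mem hΔO key

end Pool.Agent.Helper8.LV

end

section

/-! # LG-DIR2: one direction of the base, second round -/

set_option autoImplicit false

namespace Pool.Agent.Helper8.LV

open Pool.Agent.Helper8.LG

open scoped BigOperators

/-- second round: the poles of `x^J/F_i(x)` and of `G^(e_i) y_i` are bounded -/
theorem dir_two {k L : Type*} [Field k] [Field L] [CharZero L] [Algebra k L]
    {σ ι P : Type*} [Fintype σ] [DecidableEq σ] [Fintype ι] [DecidableEq ι]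
    (d q e m : ι → ℕ) (a : (i : ι) → Sym σ (d i) → L) (D : P → Derivation ℤ L L)
    (Z C : Finset ι) (i₀ : σ) (w c : ℕ) (hnum : NumV d q e m Z C w c)
    (E₀ : Subfield L) (hk : ∀ c : k, algebraMap k L c ∈ E₀) (t : L) (ht : Transcendental E₀ t)
    (hfin : FiniteDimensional (Subfield.closure ((E₀ : Set L) ∪ {t})) L)
    (S : Set L) (hS : S.Finite) (hSa : ∀ p : Ix σ d, a p.1 p.2 ∈ S)
    (V : Submodule k L) [FiniteDimensional k V] :
    ∃ Δ : L, Δ ≠ 0 ∧ ∀ (x : σ → L) (y : ι → L) (G : L),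
      GoodV d m a D Z C i₀ w (Subring.closure ((E₀ : Set L) ∪ S)) x y →
      G ≠ 0 → (∀ l, G * x l ∈ V) →
      (∀ i ∉ Z, i ∉ C → ∀ J : Sym σ (d i), Δ * (mon x J / form (a i) x) ∈ intCl E₀ t) ∧
      ∀ i ∈ C, Δ * (G ^ e i * y i) ∈ intCl E₀ t := by
  classical
  obtain ⟨T, hT⟩ : V.FG := Module.Finite.iff_fg.1 inferInstance
  obtain ⟨Δ₀, hΔc, hΔ0, _, hΔS⟩ := exists_bound (P := Empty) E₀ t ht hfin (fun p => p.elim)
    (fun p => p.elim) (fun p => p.elim) (S ∪ (T : Set L)) (hS.union T.finite_toSet)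
  obtain ⟨hDed, hFrac⟩ := intCl_dedekind E₀ t ht hfin
  have hcl : Subring.closure ((E₀ : Set L) ∪ {t}) ≤ intCl E₀ t := by
    intro f hf
    exact isIntegral_algebraMap (R := Subring.closure ((E₀ : Set L) ∪ {t})) (x := ⟨f, hf⟩)
  have hE₀R : ∀ f ∈ E₀, f ∈ intCl E₀ t := fun f hf =>
    hcl (Subring.subset_closure (Or.inl hf))
  have hkR : ∀ c : k, algebraMap k L c ∈ intCl E₀ t := fun c => hE₀R _ (hk c)
  have hΔR : Δ₀ ∈ intCl E₀ t := hcl hΔc
  -- elements of `V` have bounded poles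
  have hVR : ∀ v ∈ V, Δ₀ * v ∈ intCl E₀ t := by
    intro v hv
    rw [← hT] at hv
    induction hv using Submodule.span_induction with
    | mem v hv => exact hΔS v (Or.inr hv)
    | zero => rw [mul_zero]; exact zero_mem _
    | add u v _ _ hu hv => rw [mul_add]; exact add_mem hu hv
    | smul c v _ hv =>
      rw [Algebra.smul_def, mul_left_comm]
      exact mul_mem (hkR c) hv
  -- the constants of `bounded_of`
  have hB : ∀ i : ι, ∃ c : ℕ, ∀ O : ValuationSubring L, intCl E₀ t ≤ O.toSubring →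
      Δ₀⁻¹ ∉ O → ∀ f ∈ dirTwoW V (a i), f ≠ 0 → Δ₀ ^ c * f⁻¹ ∈ O := by
    intro i
    have := dirTwo_finite V (a i)
    exact bounded_of (intCl E₀ t) hkR (dirTwoW V (a i)) Δ₀ hΔR hΔ0
  choose B hB using hB
  set N : ℕ := ∑ i, (B i + d i + 1) with hN
  have hNi : ∀ i, B i + d i + 1 ≤ N := fun i =>
    Finset.single_le_sum (f := fun i => B i + d i + 1) (fun _ _ => Nat.zero_le _)
      (Finset.mem_univ i)
  refine ⟨Δ₀ ^ N, pow_ne_zero _ hΔ0, ?_⟩
  intro x y G hgood hG hGx
  -- the monomials and the forms at `G x`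
  have hmon : ∀ i (J : Sym σ (d i)), Δ₀ ^ d i * mon (fun l => G * x l) J ∈ intCl E₀ t :=
    fun i J => dirTwo_mon_mem (intCl E₀ t) Δ₀ _ (fun l => hVR _ (hGx l)) J
  refine ⟨?_, ?_⟩
  · intro i hiZ hiC J
    refine mem_of (intCl E₀ t) _ fun O hO => ?_
    have hΔO : Δ₀ ∈ O := hO hΔR
    by_cases hinv : Δ₀⁻¹ ∈ O
    · have hA : Subring.closure ((E₀ : Set L) ∪ S) ≤ O.toSubring := by
        rw [Subring.closure_le]
        rintro f (hf | hf)
        · exact hO (hE₀R f hf)
        · have h1 : f = Δ₀⁻¹ * (Δ₀ * f) := by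
            rw [← mul_assoc, inv_mul_cancel₀ hΔ0, one_mul]
          rw [h1]
          exact mul_mem (S := ValuationSubring L) hinv (hO (hΔS f (Or.inl hf)))
      exact mul_mem (pow_mem hΔO N) (dirTwo_int_mem O _ hA (hgood.int i hiZ hiC J))
    · have hne : form (a i) (fun l => G * x l) ≠ 0 := by
        rw [dirTwo_form_mul]
        exact mul_ne_zero (pow_ne_zero _ hG) (hgood.ne i hiZ)
      have h1 := hB i O hO hinv _ (dirTwo_form_mem V (a i) _ hGx) hne
      have h2 : Δ₀ ^ d i * mon (fun l => G * x l) J ∈ O := hO (hmon i J)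
      have h3 : mon x J / form (a i) x
          = mon (fun l => G * x l) J * (form (a i) (fun l => G * x l))⁻¹ := by
        rw [dirTwo_mon_mul, dirTwo_form_mul]
        have := hgood.ne i hiZ
        field_simp
      obtain ⟨r, hr⟩ := Nat.exists_eq_add_of_le (hNi i)
      have h4 : Δ₀ ^ N * (mon x J / form (a i) x) = Δ₀ ^ (r + 1)
          * ((Δ₀ ^ B i * (form (a i) (fun l => G * x l))⁻¹)
            * (Δ₀ ^ d i * mon (fun l => G * x l) J)) := by
        rw [h3, hr]
        ring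
      rw [h4]
      exact mul_mem (pow_mem hΔO _) (mul_mem h1 h2)
  · intro i hiC
    have hdm : d i = m i * e i := hnum.deg i hiC
    have hm : 0 < m i := by
      rcases Nat.eq_zero_or_pos (m i) with h0 | h0
      · have := hnum.pos i
        rw [hdm, h0, zero_mul] at this
        exact absurd this (lt_irrefl 0)
      · exact h0
    have hroot : (G ^ e i * y i) ^ m i = form (a i) (fun l => G * x l) := by
      have h1 : G ^ d i = G ^ (e i * m i) := congrArg (fun r => G ^ r) (hdm.trans (mul_comm _ _))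
      rw [mul_pow, hgood.root i hiC, dirTwo_form_mul, ← pow_mul, h1]
    have hform : Δ₀ ^ (d i + 1) * form (a i) (fun l => G * x l) ∈ intCl E₀ t := by
      unfold form
      rw [Finset.mul_sum]
      refine sum_mem fun J _ => ?_
      have h1 : Δ₀ ^ (d i + 1) * (a i J * mon (fun l => G * x l) J)
          = (Δ₀ * a i J) * (Δ₀ ^ d i * mon (fun l => G * x l) J) := by ring
      rw [h1]
      exact mul_mem (hΔS _ (Or.inl (hSa ⟨i, J⟩))) (hmon i J)
    have hz : Δ₀ ^ (d i + 1) * (G ^ e i * y i) ∈ intCl E₀ t := by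
      have h1 : (Δ₀ ^ (d i + 1) * (G ^ e i * y i)) ^ m i ∈ intCl E₀ t := by
        obtain ⟨r, hr⟩ := Nat.exists_eq_succ_of_ne_zero hm.ne'
        have h2 : (Δ₀ ^ (d i + 1) * (G ^ e i * y i)) ^ m i
            = (Δ₀ ^ (d i + 1)) ^ r * (Δ₀ ^ (d i + 1) * form (a i) (fun l => G * x l)) := by
          rw [mul_pow, hroot, hr, pow_succ]
          ring
        rw [h2]
        exact mul_mem (pow_mem (pow_mem hΔR _) r) hform
      exact IsIntegral.of_pow hm h1
    obtain ⟨r, hr⟩ := Nat.exists_eq_add_of_le (hNi i)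
    have h4 : Δ₀ ^ N * (G ^ e i * y i)
        = Δ₀ ^ (B i + r) * (Δ₀ ^ (d i + 1) * (G ^ e i * y i)) := by
      rw [hr]
      ring
    rw [h4]
    exact mul_mem (pow_mem hΔR _) hz

end Pool.Agent.Helper8.LV

end

section

/-! # LG-BD: everything lies in a finite-dimensional space -/

set_option autoImplicit false

namespace Pool.Agent.Helper8.LV

open Pool.Agent.Helper8.LG

open scoped BigOperators

private theorem bdInv {L : Type*} [Field L] (D : Derivation ℤ L L) (f : L) :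
    D f⁻¹ = -(f⁻¹ ^ 2) * D f := by
  have h := Derivation.leibniz_inv D f
  rw [h, smul_eq_mul]

private theorem bdDual {L σ ι τ : Type*} [Field L] [DecidableEq σ] [DecidableEq ι] [Fintype τ]
    (d : ι → ℕ) (a : (i : ι) → Sym σ (d i) → L)
    (D : Ix σ d → Derivation ℤ L L) (jj : τ → Ix σ d) (θ : τ → Ix σ d → L)
    (hD : Dual d a D jj θ) (T : Finset (Ix σ d)) (hT : ∀ j, jj j ∉ T) (q : Ix σ d) (p : T) :
    D q (a p.1.1 p.1.2) = if q = p.1 then 1 else 0 := by
  have h := hD q p.1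
  rw [Finset.sum_eq_zero, sub_zero] at h
  · exact h
  · intro j _
    rw [if_neg]
    rintro h1
    exact hT j (h1 ▸ p.2)

private theorem bdStable {k L σ ι τ : Type*} [Field k] [Field L] [Algebra k L]
    [DecidableEq σ] [DecidableEq ι] [Fintype τ]
    (d : ι → ℕ) (a : (i : ι) → Sym σ (d i) → L)
    (D : Ix σ d → Derivation ℤ L L) (jj : τ → Ix σ d) (θ : τ → Ix σ d → L)
    (hD : Dual d a D jj θ) (T : Finset (Ix σ d)) (hT : ∀ j, jj j ∉ T)
    (hDk : ∀ p (c : k), D p (algebraMap k L c) = 0) (p : T) (q : Ix σ d) :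
    ∀ f ∈ others (k := k) (fun p : T => a p.1.1 p.1.2) p,
      D q f ∈ others (k := k) (fun p : T => a p.1.1 p.1.2) p := by
  intro f hf
  have hf' : f ∈ IntermediateField.adjoin k ((fun p : T => a p.1.1 p.1.2) '' {p}ᶜ) := hf
  show D q f ∈ IntermediateField.adjoin k ((fun p : T => a p.1.1 p.1.2) '' {p}ᶜ)
  induction hf' using IntermediateField.adjoin_induction with
  | mem x hx =>
    obtain ⟨r, _, rfl⟩ := hx
    show D q (a r.1.1 r.1.2) ∈ _
    rw [bdDual d a D jj θ hD T hT q r]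
    split_ifs
    · exact one_mem _
    · exact zero_mem _
  | algebraMap c =>
    rw [hDk q c]
    exact zero_mem _
  | add x y hx hy hx' hy' =>
    rw [map_add]
    exact add_mem (hx' hx) (hy' hy)
  | inv x hx hx' =>
    rw [bdInv]
    exact mul_mem (neg_mem (pow_mem (inv_mem hx) 2)) (hx' hx)
  | mul x y hx hy hx' hy' =>
    rw [Derivation.leibniz, smul_eq_mul, smul_eq_mul]
    exact add_mem (mul_mem hx (hy' hy)) (mul_mem hy (hx' hx))

private theorem bdVar {L σ ι τ : Type*} [Field L] [DecidableEq σ] [DecidableEq ι] [Fintype τ]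
    (d : ι → ℕ) (a : (i : ι) → Sym σ (d i) → L)
    (D : Ix σ d → Derivation ℤ L L) (jj : τ → Ix σ d) (θ : τ → Ix σ d → L)
    (hD : Dual d a D jj θ) (T : Finset (Ix σ d)) (hT : ∀ j, jj j ∉ T) (p : T) (q : Ix σ d)
    (R : Subring L) :
    D q (a p.1.1 p.1.2) ∈ R := by
  rw [bdDual d a D jj θ hD T hT q p]
  split_ifs
  · exact one_mem _
  · exact zero_mem _

private theorem bdVarInv {L σ ι τ : Type*} [Field L] [DecidableEq σ] [DecidableEq ι] [Fintype τ]
    (d : ι → ℕ) (a : (i : ι) → Sym σ (d i) → L)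
    (D : Ix σ d → Derivation ℤ L L) (jj : τ → Ix σ d) (θ : τ → Ix σ d → L)
    (hD : Dual d a D jj θ) (T : Finset (Ix σ d)) (hT : ∀ j, jj j ∉ T) (p : T) (q : Ix σ d)
    (R : Subring L) (hR : (a p.1.1 p.1.2)⁻¹ ∈ R) :
    D q (a p.1.1 p.1.2)⁻¹ ∈ R := by
  rw [bdInv]
  exact mul_mem (neg_mem (pow_mem hR 2)) (bdVar d a D jj θ hD T hT p q R)

private theorem bdGood {E σ ι P : Type*} [Field E] [Fintype σ] [DecidableEq σ]
    {d m : ι → ℕ} {a : (i : ι) → Sym σ (d i) → E} {D : P → Derivation ℤ E E}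
    {Z C : Finset ι} {i₀ : σ} {w : ℕ} {A B : Subring E} (hAB : A ≤ B)
    {x : σ → E} {y : ι → E} (h : GoodV d m a D Z C i₀ w A x y) :
    GoodV d m a D Z C i₀ w B x y where
  one := h.one
  zero := h.zero
  ne := h.ne
  root := h.root
  int := fun i hZ hC J =>
    (h.int i hZ hC J).map_of_comp_eq (Subring.inclusion hAB) (RingHom.id E) rfl
  rank := h.rank

private theorem bdLe {k L : Type*} [Field k] [Field L] [Algebra k L] (s : Set L)
    (E₀ : Subfield L) (hk : ∀ c : k, algebraMap k L c ∈ E₀) (S : Set L) (hs : s ⊆ S) :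
    (Algebra.adjoin k s).toSubring ≤ Subring.closure ((E₀ : Set L) ∪ S) := by
  intro f hf
  have hf' : f ∈ Algebra.adjoin k s := hf
  induction hf' using Algebra.adjoin_induction with
  | mem x hx => exact Subring.subset_closure (Or.inr (hs hx))
  | algebraMap c => exact Subring.subset_closure (Or.inl (hk c))
  | add x y hx hy hx' hy' => exact add_mem (hx' hx) (hy' hy)
  | mul x y hx hy hx' hy' => exact mul_mem (hx' hx) (hy' hy)

theorem bounded {k L : Type*} [Field k] [Field L] [CharZero L] [Algebra k L]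
    {σ ι τ : Type*} [Fintype σ] [DecidableEq σ] [Fintype ι] [DecidableEq ι] [Fintype τ]
    (d b q e m : ι → ℕ) (a aA : (i : ι) → Sym σ (d i) → L) (ap : (i : ι) → Sym σ (b i) → L)
    (ah : (i : ι) → Sym σ (q i) → L) (hF : Fam d b q a aA ap ah) (hAk : Over k aA)
    (hpk : Over k ap) (T : Finset (Ix σ q))
    (hind : AlgebraicIndependent k (fun p : T => ah p.1.1 p.1.2))
    (hfin : FiniteDimensional
      (IntermediateField.adjoin k (Set.range fun p : T => ah p.1.1 p.1.2)) L)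
    (D : Ix σ q → Derivation ℤ L L) (jj : τ → Ix σ q) (θ : τ → Ix σ q → L)
    (hD : Dual q ah D jj θ) (hT : ∀ j, jj j ∉ T)
    (hDk : ∀ p (c : k), D p (algebraMap k L c) = 0)
    (Z C : Finset ι) (i₀ : σ) (w : ℕ) (hnum : NumV d q e m Z C w (Fintype.card τ))
    (A : Subalgebra k L) (hA : A.FG) :
    ∃ V : Submodule k L, FiniteDimensional k V ∧ ∀ (x : σ → L) (y : ι → L),
      GoodV d m a D Z C i₀ w A.toSubring x y → (∀ i, form (ap i) x ≠ 0) →
      ∃ G : L, G ≠ 0 ∧ (∀ l, G * x l ∈ V) ∧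
        (∀ i ∉ Z, i ∉ C → ∀ J : Sym σ (d i), mon x J / form (a i) x ∈ V) ∧
        ∀ i ∈ C, G ^ e i * y i ∈ V := by
  classical
  obtain ⟨s, hs⟩ := hA
  set y₀ : T → L := fun p : T => ah p.1.1 p.1.2 with hy₀
  set S : Set L := (s : Set L) ∪ (Set.range (fun p : Ix σ d => a p.1 p.2) ∪
    Set.range fun r : τ × Ix σ q => θ r.1 r.2) with hS
  have hSfin : S.Finite :=
    (s.finite_toSet).union ((Set.finite_range _).union (Set.finite_range _))
  have hSa : ∀ p : Ix σ d, a p.1 p.2 ∈ S := fun p => Or.inr (Or.inl ⟨p, rfl⟩)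
  have hSθ : ∀ j s, θ j s ∈ S := fun j s => Or.inr (Or.inr ⟨(j, s), rfl⟩)
  have hk : ∀ (p : T) (c : k), algebraMap k L c ∈ others (k := k) y₀ p := by
    intro p c
    exact IntermediateField.algebraMap_mem _ c
  have hAle : ∀ p : T,
      A.toSubring ≤ Subring.closure ((others (k := k) y₀ p : Set L) ∪ S) := by
    intro p
    rw [← hs]
    exact bdLe (s : Set L) _ (hk p) S Set.subset_union_left
  have htr := others_transcendental (k := k) y₀ hind
  have hof := others_finite (k := k) y₀ hfin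
  have hst : ∀ (p : T) (s : Ix σ q), ∀ f ∈ others (k := k) y₀ p,
      D s f ∈ others (k := k) y₀ p :=
    fun p s => bdStable q ah D jj θ hD T hT hDk p s
  -- first round
  have h1 : ∀ p : T, ∃ Δ : L, Δ ≠ 0 ∧ ∀ (x : σ → L) (y : ι → L) (G : L),
      GoodV d m a D Z C i₀ w (Subring.closure ((others (k := k) y₀ p : Set L) ∪ S)) x y →
      KeyV d e a D θ Z (uu C y) x G →
      ∀ l, Δ * (G * x l) ∈ intCl (others (k := k) y₀ p) (y₀ p) := by
    intro p
    exact dir_one d q e m a D θ Z C i₀ w _ hnum (others (k := k) y₀ p) (y₀ p) (htr p).1 (hof p).1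
      (fun s => hst p s) (fun s => bdVar q ah D jj θ hD T hT p s _) S hSfin hSa hSθ
  have h1' : ∀ p : T, ∃ Δ : L, Δ ≠ 0 ∧ ∀ (x : σ → L) (y : ι → L) (G : L),
      GoodV d m a D Z C i₀ w (Subring.closure ((others (k := k) y₀ p : Set L) ∪ S)) x y →
      KeyV d e a D θ Z (uu C y) x G →
      ∀ l, Δ * (G * x l) ∈ intCl (others (k := k) y₀ p) (y₀ p)⁻¹ := by
    intro p
    exact dir_one d q e m a D θ Z C i₀ w _ hnum (others (k := k) y₀ p) (y₀ p)⁻¹ (htr p).2 (hof p).2
      (fun s => hst p s)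
      (fun s => bdVarInv q ah D jj θ hD T hT p s _ (Subring.subset_closure (Or.inr rfl)))
      S hSfin hSa hSθ
  choose Δ₁ hΔ₁ H₁ using h1
  choose Δ₁' hΔ₁' H₁' using h1'
  obtain ⟨V₁, hV₁, hV₁'⟩ := fd y₀ hind hfin Δ₁ Δ₁' hΔ₁ hΔ₁'
  -- second round
  have h2 : ∀ p : T, ∃ Δ : L, Δ ≠ 0 ∧ ∀ (x : σ → L) (y : ι → L) (G : L),
      GoodV d m a D Z C i₀ w (Subring.closure ((others (k := k) y₀ p : Set L) ∪ S)) x y →
      G ≠ 0 → (∀ l, G * x l ∈ V₁) →
      (∀ i ∉ Z, i ∉ C → ∀ J : Sym σ (d i),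
        Δ * (mon x J / form (a i) x) ∈ intCl (others (k := k) y₀ p) (y₀ p)) ∧
      ∀ i ∈ C, Δ * (G ^ e i * y i) ∈ intCl (others (k := k) y₀ p) (y₀ p) := by
    intro p
    exact dir_two d q e m a D Z C i₀ w _ hnum (others (k := k) y₀ p) (hk p) (y₀ p) (htr p).1
      (hof p).1 S hSfin hSa V₁
  have h2' : ∀ p : T, ∃ Δ : L, Δ ≠ 0 ∧ ∀ (x : σ → L) (y : ι → L) (G : L),
      GoodV d m a D Z C i₀ w (Subring.closure ((others (k := k) y₀ p : Set L) ∪ S)) x y →
      G ≠ 0 → (∀ l, G * x l ∈ V₁) →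
      (∀ i ∉ Z, i ∉ C → ∀ J : Sym σ (d i),
        Δ * (mon x J / form (a i) x) ∈ intCl (others (k := k) y₀ p) (y₀ p)⁻¹) ∧
      ∀ i ∈ C, Δ * (G ^ e i * y i) ∈ intCl (others (k := k) y₀ p) (y₀ p)⁻¹ := by
    intro p
    exact dir_two d q e m a D Z C i₀ w _ hnum (others (k := k) y₀ p) (hk p) (y₀ p)⁻¹ (htr p).2
      (hof p).2 S hSfin hSa V₁
  choose Δ₂ hΔ₂ H₂ using h2
  choose Δ₂' hΔ₂' H₂' using h2'
  obtain ⟨V₂, hV₂, hV₂'⟩ := fd y₀ hind hfin Δ₂ Δ₂' hΔ₂ hΔ₂'
  haveI := hV₁
  haveI := hV₂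
  refine ⟨V₁ ⊔ V₂, inferInstance, ?_⟩
  intro x y hgood hP
  have hg : ∀ p : T,
      GoodV d m a D Z C i₀ w (Subring.closure ((others (k := k) y₀ p : Set L) ∪ S)) x y :=
    fun p => bdGood (hAle p) hgood
  have hu : ∀ i ∉ Z, uu C y i ≠ 0 := by
    intro i hi
    unfold uu
    by_cases hC : i ∈ C
    · rw [if_pos hC]
      intro h0
      have hr := hgood.root i hC
      have hm : m i ≠ 0 := by
        intro hm0
        have h1 := hnum.deg i hC
        have h2 := hnum.pos i
        rw [hm0, zero_mul] at h1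
        omega
      rw [h0, zero_pow hm] at hr
      exact hgood.ne i hi hr.symm
    · rw [if_neg hC]
      exact one_ne_zero
  obtain ⟨G, hG, hKey⟩ := key d b q e hnum.posq a aA ap ah D jj θ hD
    (hF.mov (k := k) hAk hpk D hDk) Z x i₀ hgood.one hgood.zero hgood.ne hP
    (uu C y) hu w hnum.ineq hgood.rank
  have hGx : ∀ l, G * x l ∈ V₁ := by
    intro l
    apply hV₁'
    intro p
    exact ⟨H₁ p x y G (hg p) hKey l, H₁' p x y G (hg p) hKey l⟩
  refine ⟨G, hG, fun l => Submodule.mem_sup_left (hGx l), ?_, ?_⟩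
  · intro i hi hC J
    apply Submodule.mem_sup_right
    apply hV₂'
    intro p
    exact ⟨(H₂ p x y G (hg p) hG hGx).1 i hi hC J, (H₂' p x y G (hg p) hG hGx).1 i hi hC J⟩
  · intro i hC
    apply Submodule.mem_sup_right
    apply hV₂'
    intro p
    exact ⟨(H₂ p x y G (hg p) hG hGx).2 i hC, (H₂' p x y G (hg p) hG hGx).2 i hC⟩

end Pool.Agent.Helper8.LV

end
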