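import Pool.Agent.Helper74.MG.T34
import Pool.Agent.Helper74.MG.T19
import Pool.Agent.Helper74.MG.T24
import Pool.Agent.Helper74.MG.T26

section

/-! # LV-RIGID: rigidity along constants -/

set_option autoImplicit false

namespace Pool.Agent.Helper8.LV

open Pool.Agent.Helper8.LG

open scoped BigOperators

section RigidAux

variable {E : Type*} [Field E]

/-- One side: `G x_l` is integral over `E₀[t]`. -/
theorem rg_side [CharZero E] {σ ι τ P : Type*} [Fintype σ] [DecidableEq σ] [Fintype ι]
    [DecidableEq ι] [Fintype τ] (d q e m : ι → ℕ) (a : (i : ι) → Sym σ (d i) → E)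
    (D : P → Derivation ℤ E E) (θ : τ → P → E) (Z C : Finset ι) (w cc : ℕ)
    (hnum : NumV d q e m Z C w cc)
    (x : σ → E) (y : ι → E) (hU : ∀ i ∉ Z, form (a i) x ≠ 0)
    (hroot : ∀ i ∈ C, y i ^ m i = form (a i) x)
    (E₀ : Subfield E) (t : E) (ht : Transcendental E₀ t)
    (hfin : FiniteDimensional (Subfield.closure ((E₀ : Set E) ∪ {t})) E)
    (hstab : ∀ p, ∀ f ∈ intCl E₀ t, D p f ∈ intCl E₀ t)
    (ha : ∀ i J, a i J ∈ E₀) (hθ : ∀ j s, θ j s ∈ E₀) {n : ℕ} (c : Fin n → E) (hDc : ∀ p r, D p (c r) = 0)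
    (hc : ∀ O : ValuationSubring E, (∀ f ∈ E₀, f ∈ O) → (∀ r, c r ∈ O) →
      ∀ i ∉ Z, i ∉ C → ∀ J : Sym σ (d i), mon x J / form (a i) x ∈ O)
    (G : E) (hG : KeyV d e a D θ Z (uu C y) x G) (l : σ) : G * x l ∈ intCl E₀ t := by
  obtain ⟨h1, h2⟩ := intCl_dedekind E₀ t ht hfin
  haveI := h1
  haveI := h2
  have hE₀R : ∀ f ∈ E₀, f ∈ intCl E₀ t := fun f hf =>
    rg_mem_intCl E₀ t (Subring.subset_closure (Or.inl hf))
  have hQ : ∀ n : ℕ, n ≠ 0 → ((n : E))⁻¹ ∈ intCl E₀ t := fun n _ =>
    hE₀R _ (inv_mem (natCast_mem E₀ n))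
  apply mem_of (intCl E₀ t)
  intro O hO
  have hE₀O : ∀ f ∈ E₀, f ∈ O := fun f hf => hO (hE₀R f hf)
  have hbdd : Bdd D 1 O := bdd_of (intCl E₀ t) D 1 (one_mem _)
    (fun p f hf => by rw [one_mul]; exact hstab p f hf) O hO
  have hDO : ∀ p, ∀ f ∈ O, D p f ∈ O := fun p f hf => by
    have := hbdd.2 p f hf
    rwa [one_mul] at this
  have hrow : ∀ i ∉ Z, RowBdd D 1 O x (form (a i)) (uu C y i) (e i) := by
    intro i hiZ j hj hprim
    have hform := rg_form_div (a i) x (x j)
    have hform0 : form (a i) (fun l => x l / x j) ≠ 0 := by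
      rw [hform]
      exact div_ne_zero (hU i hiZ) (pow_ne_zero _ hj)
    have hformO : form (a i) (fun l => x l / x j) ∈ O := by
      unfold form
      refine sum_mem fun J _ => mul_mem (hE₀O _ (ha i J)) ?_
      unfold mon
      refine multiset_prod_mem _ fun z hz => ?_
      obtain ⟨l, -, rfl⟩ := Multiset.mem_map.1 hz
      exact hprim l
    simp only [one_mul]
    by_cases hiC : i ∈ C
    · have hu : uu C y i = y i := by unfold uu; rw [if_pos hiC]
      rw [hu]
      have hdeg := hnum.deg i hiC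
      have hm : 0 < m i := by
        rcases Nat.eq_zero_or_pos (m i) with h | h
        · have := hnum.pos i
          rw [hdeg, h, zero_mul] at this
          exact absurd this (lt_irrefl 0)
        · exact h
      have hyt : (y i / x j ^ e i) ^ m i = form (a i) (fun l => x l / x j) := by
        have h3 : x j ^ (e i * m i) = x j ^ d i := by rw [hdeg, mul_comm]
        rw [hform, div_pow, hroot i hiC, ← pow_mul, h3]
      have hytO : y i / x j ^ e i ∈ O := rg_mem_of_pow O hm (by rw [hyt]; exact hformO)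
      refine ⟨hytO, fun p => ?_⟩
      have hyt0 : y i / x j ^ e i ≠ 0 := by
        intro h
        rw [h, zero_pow hm.ne'] at hyt
        exact hform0 hyt.symm
      obtain ⟨r, hr⟩ : ∃ r, m i = r + 1 := ⟨m i - 1, by omega⟩
      have hder : y i / x j ^ e i * (D p (form (a i) fun l => x l / x j) /
          form (a i) fun l => x l / x j) = (m i : E) * D p (y i / x j ^ e i) := by
        rw [← hyt, hr]
        exact rg_log (D p) hyt0 r
      rw [hder]
      exact mul_mem (natCast_mem O _) (hDO p _ hytO)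
    · have hu : uu C y i = 1 := by unfold uu; rw [if_neg hiC]
      rw [hu, hnum.e0 i hiC, pow_zero, div_one]
      refine ⟨one_mem O, fun p => ?_⟩
      rw [one_mul]
      by_cases hcO : ∀ r, c r ∈ O
      · have h3 := hc O hE₀O hcO i hiZ hiC (Sym.replicate (d i) j)
        rw [rg_mon_replicate] at h3
        have h4 : x j ^ d i / form (a i) x = (form (a i) fun l => x l / x j)⁻¹ := by
          rw [hform, inv_div]
        rw [h4] at h3
        rw [div_eq_mul_inv]
        exact mul_mem (hDO p _ hformO) h3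
      · push Not at hcO
        obtain ⟨r, hr⟩ := hcO
        have hr0 : c r ≠ 0 := by
          intro h
          rw [h] at hr
          exact hr (zero_mem O)
        have h3 := log_of (intCl E₀ t) hQ D O hO 1 hbdd (c r) hr0 (Or.inl hr)
          (fun p => by rw [hDc, zero_div, mul_zero]; exact zero_mem O) _ hform0 p
        rwa [one_mul] at h3
  have h5 := hG O 1 hbdd (fun j s => by rw [one_mul]; exact hE₀O _ (hθ j s)) hrow l
  rwa [one_pow, one_mul] at h5

end RigidAux

theorem rigid {k L E : Type*} [Field k] [Field L] [Field E] [CharZero E] [Algebra k L]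
    [Algebra L E] [Algebra k E] [IsScalarTower k L E] {n : ℕ} (c : Fin n → E)
    (hgen : IntermediateField.adjoin L (Set.range c) = ⊤) (B : Set (Fin n))
    (hB : AlgebraicIndependent L (fun b : B => c b))
    (halg : ∀ r, IsAlgebraic (IntermediateField.adjoin k (c '' B)) (c r))
    {σ ι τ : Type*} [Fintype σ] [DecidableEq σ] [Fintype ι] [DecidableEq ι] [Fintype τ]
    (d b q e m : ι → ℕ) (a A : (i : ι) → Sym σ (d i) → L) (p : (i : ι) → Sym σ (b i) → L)
    (h : (i : ι) → Sym σ (q i) → L) (hF : Fam d b q a A p h) (hA : Over k A) (hp : Over k p)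
    (D : Ix σ q → Derivation ℤ E E) (jj : τ → Ix σ q) (θ : τ → Ix σ q → L)
    (hD : Dual q (fun i J => algebraMap L E (h i J)) D jj fun j s => algebraMap L E (θ j s))
    (hDL : ∀ p b, ∃ b', D p (algebraMap L E b) = algebraMap L E b')
    (hDk : ∀ p (b : k), D p (algebraMap k E b) = 0)
    (hDc : ∀ p r, D p (c r) = 0)
    (Z C : Finset ι) (w : ℕ) (hnum : NumV d q e m Z C w (Fintype.card τ))
    (x : σ → E) (y : ι → E) (i₀ : σ) (hx : x i₀ = 1)
    (hZ : ∀ i ∈ Z, form (fun J => algebraMap L E (a i J)) x = 0)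
    (hU : ∀ i ∉ Z, form (fun J => algebraMap L E (a i J)) x ≠ 0)
    (hP : ∀ i, form (fun J => algebraMap L E (p i J)) x ≠ 0)
    (hint : ∀ i ∉ Z, i ∉ C → ∀ J : Sym σ (d i),
      mon x J / form (fun J => algebraMap L E (a i J)) x ∈ Algebra.adjoin L (Set.range c))
    (hroot : ∀ i ∈ C, y i ^ m i = form (fun J => algebraMap L E (a i J)) x)
    (hm : MinorsVanish D x w) :
    ∀ l, IsAlgebraic L (x l) := by
  classical
  -- the key lemma
  have hu : ∀ i ∉ Z, uu C y i ≠ 0 := by
    intro i hiZ
    unfold uu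
    split_ifs with hiC
    · intro h
      have hdeg := hnum.deg i hiC
      have hm0 : m i ≠ 0 := by
        intro h'
        have := hnum.pos i
        rw [hdeg, h', zero_mul] at this
        exact absurd this (lt_irrefl 0)
      have h1 := hroot i hiC
      rw [h, zero_pow hm0] at h1
      exact hU i hiZ h1.symm
    · exact one_ne_zero
  have hmov : Mov d b q (fun i J => algebraMap L E (a i J)) (fun i J => algebraMap L E (A i J))
      (fun i J => algebraMap L E (p i J)) (fun i J => algebraMap L E (h i J)) D :=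
    (hF.map (algebraMap L E)).mov (k := k) hA.map hp.map D hDk
  obtain ⟨G, hG0, hG⟩ := key d b q e hnum.posq (fun i J => algebraMap L E (a i J))
    (fun i J => algebraMap L E (A i J)) (fun i J => algebraMap L E (p i J))
    (fun i J => algebraMap L E (h i J)) D jj
    (fun j s => algebraMap L E (θ j s)) hD hmov Z x i₀ hx
    hZ hU hP (uu C y) hu w hnum.ineq hm
  -- the field `F = E₀(t)`
  have hrange : (Set.range fun b : B => c b) = c '' B := by
    ext z
    constructor
    · rintro ⟨b, rfl⟩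
      exact ⟨b, b.2, rfl⟩
    · rintro ⟨b, hb, rfl⟩
      exact ⟨⟨b, hb⟩, rfl⟩
  have halgF : ∀ (F : Subfield E), (∀ b : k, algebraMap k E b ∈ F) → (∀ b ∈ B, c b ∈ F) →
      ∀ r, IsAlgebraic F (c r) := by
    intro F hkF hBF r
    refine rg_alg (R₁ := IntermediateField.adjoin k (c '' B)) (fun s => ?_) (halg r)
    have h1 : (IntermediateField.adjoin k (c '' B)).toSubfield ≤ F := by
      rw [IntermediateField.adjoin_toSubfield, Subfield.closure_le]
      rintro z (⟨b, rfl⟩ | ⟨b, hb, rfl⟩)
      · exact hkF b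
      · exact hBF b hb
    exact ⟨⟨s, h1 s.2⟩, rfl⟩
  have hfinF : ∀ (F : Subfield E), (∀ b : L, algebraMap L E b ∈ F) → (∀ b ∈ B, c b ∈ F) →
      FiniteDimensional F E := by
    intro F hLF hBF
    have hkF : ∀ b : k, algebraMap k E b ∈ F := fun b => by
      rw [IsScalarTower.algebraMap_apply k L E]
      exact hLF _
    have h1 : FiniteDimensional F (IntermediateField.adjoin F (Set.range c)) :=
      IntermediateField.finiteDimensional_adjoin (by
        rintro z ⟨r, rfl⟩
        exact (halgF F hkF hBF r).isIntegral)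
    have h2 : IntermediateField.adjoin F (Set.range c) = ⊤ := by
      rw [eq_top_iff]
      intro z _
      have hz : z ∈ IntermediateField.adjoin L (Set.range c) := by rw [hgen]; trivial
      have h3 : (IntermediateField.adjoin L (Set.range c)).toSubfield ≤
          (IntermediateField.adjoin F (Set.range c)).toSubfield := by
        rw [IntermediateField.adjoin_toSubfield, Subfield.closure_le]
        rintro z (⟨b, rfl⟩ | hz)
        · exact (IntermediateField.adjoin F (Set.range c)).algebraMap_mem ⟨_, hLF b⟩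
        · exact IntermediateField.subset_adjoin F _ hz
      exact h3 hz
    rw [h2] at h1
    exact Module.Finite.equiv (IntermediateField.topEquiv (F := F) (E := E)).toLinearEquiv
  intro l
  refine exchange (fun b : B => c b) hB (x l) ?_ fun b => ?_
  · -- algebraic over `L(c_B)`
    have h1 := hfinF (IntermediateField.adjoin L (Set.range fun b : B => c b)).toSubfield
      (fun b => (IntermediateField.adjoin L (Set.range fun b : B => c b)).algebraMap_mem b)
      (fun b hb => IntermediateField.subset_adjoin L _ ⟨⟨b, hb⟩, rfl⟩)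
    have h2 : IsAlgebraic (IntermediateField.adjoin L (Set.range fun b : B => c b)).toSubfield
        (x l) := Algebra.IsAlgebraic.isAlgebraic (x l)
    exact rg_alg (fun s => ⟨⟨s, s.2⟩, rfl⟩) h2
  · -- algebraic over `L(c_(B - b))`
    set S₀ : Set E := (fun b : B => c b) '' {b}ᶜ with hS₀
    set E₀ : Subfield E := (IntermediateField.adjoin L S₀).toSubfield with hE₀
    have hE₀cl : E₀ = Subfield.closure (Set.range (algebraMap L E) ∪ S₀) :=
      IntermediateField.adjoin_toSubfield L S₀
    have hLE₀ : ∀ z : L, algebraMap L E z ∈ E₀ := fun z =>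
      (IntermediateField.adjoin L S₀).algebraMap_mem z
    have hSE₀ : ∀ z ∈ S₀, z ∈ E₀ := fun z hz => IntermediateField.subset_adjoin L _ hz
    have hcE₀ : ∀ b' ∈ B, b' ≠ b → c b' ∈ E₀ := fun b' hb' hne => by
      refine hSE₀ _ ⟨⟨b', hb'⟩, ?_, rfl⟩
      intro h
      apply hne
      rw [Set.mem_singleton_iff] at h
      rw [← h]
    have htr : Transcendental E₀ (c b) := by
      have h1 : Transcendental (Algebra.adjoin L S₀) (c b) :=
        hB.transcendental_adjoin (s := {b}ᶜ) (i := b) (fun h => h rfl)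
      have h2 := (IntermediateField.transcendental_adjoin_iff (F := L) (s := S₀)).2 h1
      intro h3
      exact h2 (rg_alg (fun s => ⟨⟨s, s.2⟩, rfl⟩) h3)
    -- the derivations
    have hDE₀ : ∀ p, ∀ f ∈ E₀, D p f ∈ E₀ := by
      intro p
      rw [hE₀cl]
      apply rg_stable
      rintro f (⟨z, rfl⟩ | hf)
      · obtain ⟨z', hz'⟩ := hDL p z
        rw [hz']
        exact Subfield.subset_closure (Or.inl ⟨z', rfl⟩)
      · obtain ⟨b', -, rfl⟩ := hf
        show D p (c b') ∈ _
        rw [hDc]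
        exact zero_mem _
    set k₀ : Subfield E := (IntermediateField.adjoin k S₀).toSubfield with hk₀
    have hk₀cl : k₀ = Subfield.closure (Set.range (algebraMap k E) ∪ S₀) :=
      IntermediateField.adjoin_toSubfield k S₀
    have hk₀E₀ : k₀ ≤ E₀ := by
      rw [hk₀cl, Subfield.closure_le]
      rintro z (⟨z, rfl⟩ | hz)
      · rw [IsScalarTower.algebraMap_apply k L E]
        exact hLE₀ _
      · exact hSE₀ z hz
    have hDk₀ : ∀ p, ∀ f ∈ k₀, D p f = 0 := by
      intro p
      rw [hk₀cl]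
      apply rg_kill
      rintro f (⟨z, rfl⟩ | hf)
      · exact hDk p z
      · obtain ⟨b', -, rfl⟩ := hf
        exact hDc p b'
    -- both sides
    have hside : ∀ t : E, (t = c b ∨ t = (c b)⁻¹) → Transcendental E₀ t ∧
        FiniteDimensional (Subfield.closure ((E₀ : Set E) ∪ {t})) E ∧
        ∀ l, G * x l ∈ intCl E₀ t := by
      intro t ht
      have htc : c b ∈ Subfield.closure ({t} : Set E) := by
        rcases ht with h | h
        · rw [← h]
          exact Subfield.subset_closure rfl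
        · have h1 : c b = t⁻¹ := by rw [h, inv_inv]
          rw [h1]
          exact inv_mem (Subfield.subset_closure rfl)
      have htt : Transcendental E₀ t := by
        rcases ht with h | h
        · rw [h]
          exact htr
        · rw [h]
          intro h1
          exact htr (by simpa using h1.inv)
      have hF1 : ∀ z : L, algebraMap L E z ∈ Subfield.closure ((E₀ : Set E) ∪ {t}) := fun z =>
        Subfield.subset_closure (Or.inl (hLE₀ z))
      have hF2 : ∀ b' ∈ B, c b' ∈ Subfield.closure ((E₀ : Set E) ∪ {t}) := by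
        intro b' hb'
        by_cases hne : b' = b
        · rw [hne]
          exact Subfield.closure_mono (Set.subset_union_right) htc
        · exact Subfield.subset_closure (Or.inl (hcE₀ b' hb' hne))
      have hfin := hfinF _ hF1 hF2
      refine ⟨htt, hfin, ?_⟩
      have hDt : ∀ p, D p t = 0 := by
        intro p
        rcases ht with h | h
        · rw [h]
          exact hDc p b
        · rw [h, (D p).leibniz_inv, hDc, smul_zero]
      have hstab := intCl_stable E₀ t D hDE₀ hDt k₀ hk₀E₀ hDk₀ (Set.range c)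
        (Set.finite_range c) (by rintro p z ⟨r, rfl⟩; exact hDc p r) (by
          rintro z ⟨r, rfl⟩
          refine halgF _ (fun z => ?_) (fun b' hb' => ?_) r
          · exact Subfield.subset_closure
              (Or.inl ((IntermediateField.adjoin k S₀).algebraMap_mem z))
          · by_cases hne : b' = b
            · rw [hne]
              exact Subfield.closure_mono (Set.subset_union_right) htc
            · refine Subfield.subset_closure (Or.inl ?_)
              refine IntermediateField.subset_adjoin k S₀ ⟨⟨b', hb'⟩, ?_, rfl⟩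
              intro h
              apply hne
              rw [Set.mem_singleton_iff] at h
              rw [← h]) (by
          rw [eq_top_iff]
          intro z _
          have hz : z ∈ (IntermediateField.adjoin L (Set.range c)).toSubfield := by
            rw [hgen]; trivial
          rw [IntermediateField.adjoin_toSubfield] at hz
          refine Subfield.closure_mono ?_ hz
          rintro z (⟨z, rfl⟩ | hz)
          · exact Or.inl (Or.inl (hLE₀ z))
          · exact Or.inr hz)
      intro l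
      refine rg_side d q e m (fun i J => algebraMap L E (a i J)) D
        (fun j s => algebraMap L E (θ j s)) Z C w _ hnum x y hU hroot E₀ t
        htt hfin hstab (fun i J => hLE₀ _) (fun j s => hLE₀ _) c hDc ?_ G hG l
      intro O hO1 hO2 i hiZ hiC J
      have h1 := hint i hiZ hiC J
      have h2 : (Algebra.adjoin L (Set.range c)).toSubring ≤ O.toSubring := by
        rw [Algebra.adjoin_eq_ring_closure, Subring.closure_le]
        rintro z (⟨z, rfl⟩ | ⟨r, rfl⟩)
        · exact hO1 _ (hLE₀ z)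
        · exact hO2 r
      exact h2 h1
    obtain ⟨ht1, hfin1, h1⟩ := hside (c b) (Or.inl rfl)
    obtain ⟨-, -, h2⟩ := hside (c b)⁻¹ (Or.inr rfl)
    have hGx : ∀ l, IsAlgebraic E₀ (G * x l) := fun l =>
      algebraic_of_mem E₀ (c b) ht1 hfin1 (G * x l) (h1 l) (h2 l)
    have hGa : IsAlgebraic E₀ G := by
      have := hGx i₀
      rwa [hx, mul_one] at this
    have hxl : IsAlgebraic E₀ (x l) := by
      have h3 : x l = (G * x l) * G⁻¹ := by
        field_simp
      rw [h3]
      exact (hGx l).mul hGa.inv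
    exact rg_alg (fun s => ⟨⟨s, s.2⟩, rfl⟩) hxl

end Pool.Agent.Helper8.LV

end

section

/-!
# The key lemma for two-vectors `x ∧ δ`, moving linear systems

One degree better than `Helper8.LV.key`: if `∑ q_i + |Z| ≥ 2 w + 1 + c`, the two-vector `x ∧ δ` is
integral up to a power of `Δ` for some `δ` not proportional to `x`.
-/

set_option autoImplicit false

namespace Pool.Agent.Helper49.LV

open scoped BigOperators
open Pool.Agent.Helper8.LG (Ix Dual form mon col MinorsVanish Bdd RowBdd)
open Pool.Agent.Helper8.LV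
open Pool.Agent.Helper49.LG (key_two_abs sy)
open Pool.Agent.Helper74.LG (scl scl_apply Trans exists_max_coord)

/-- The conclusion of the key lemma: the entries `P_jl` are integral up to a power of `Δ` at all
valuation rings where `Δ` bounds the derivations, the corrections and the rows. -/
def KeyP {E : Type*} [Field E] {σ ι τ P : Type*} [Fintype σ] [DecidableEq σ] [Fintype ι]
    [Fintype τ] (d : ι → ℕ) (a : (i : ι) → Sym σ (d i) → E) (D : P → Derivation ℤ E E)
    (θ : τ → P → E) (Z : Finset ι) (x : σ → E) (M : σ → σ → E) : Prop :=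
  ∀ (O : ValuationSubring E) (Δ : E), Bdd D Δ O → (∀ j s, Δ * θ j s ∈ O) →
      (∀ i ∉ Z, RowBdd D Δ O x (form (a i)) 1 0) →
      ∀ j l, Δ ^ (Fintype.card σ + Fintype.card ι + Fintype.card τ) * M j l ∈ O

section

variable {E : Type*} [Field E] {σ ι Tt : Type*}

/-- the reordering of the rows -/
def emb : σ ⊕ (ι ⊕ Tt) → (σ ⊕ ι) ⊕ Tt := (Equiv.sumAssoc σ ι Tt).symm

theorem phi_emb (c : E) (f : (σ ⊕ ι) ⊕ Tt → E) :
    (fun r => phi c f (emb r)) = scl c fun r => f (emb r) := by
  funext r
  rcases r with l | (i | j) <;> rfl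

variable [Fintype σ] [DecidableEq σ] [DecidableEq ι]
  (n : ι → ℕ) {d : ι → ℕ} (a : (i : ι) → Sym σ (d i) → E)
  (D : Ix σ (fun i => n i + 1) → Derivation ℤ E E)
  (θ : Tt → Ix σ (fun i => n i + 1) → E) (Z : Finset ι) (x : σ → E)

/-- the columns `C_(q,l)` -/
def c0 (q : Σ i : ι, Sym σ (n i)) (l : σ) : σ ⊕ (ι ⊕ Tt) → E :=
  fun r => cv n a D θ Z x ⟨q.1, l ::ₛ q.2⟩ (emb r)

/-- the Euler column -/
def e0 (d : ι → ℕ) (Z : Finset ι) (x : σ → E) : σ ⊕ (ι ⊕ Tt) → E := fun r => eul d Z x (emb r)

/-- the columns of `x_(j₀)^(d_i)` -/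
def r0 (j₀ : σ) (i : ι) : σ ⊕ (ι ⊕ Tt) → E :=
  fun r => cv n a D θ Z x ⟨i, Sym.replicate (n i + 1) j₀⟩ (emb r)

theorem sy_c0 (s : (Σ i : ι, Sym σ (n i)) × σ × σ) :
    sy x (c0 n a D θ Z x) s =
      fun r => syz n a D θ Z x ⟨s.1.1, s.1.2, s.2.1, s.2.2⟩ (emb r) := rfl

theorem trans0 (hU : ∀ i ∉ Z, form (a i) x ≠ 0) (i₀ : σ) (hx : x i₀ = 1) (j₀ : σ)
    (hj : x j₀ ≠ 0) :
    Trans (fun i => n i + 1) (x j₀) (e0 d Z x) (e0 d Z fun l => x l / x j₀)
      (sy x (c0 n a D θ Z x)) (sy (fun l => x l / x j₀) (c0 n a D θ Z fun l => x l / x j₀))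
      (r0 n a D θ Z x i₀) (r0 n a D θ Z (fun l => x l / x j₀) j₀) := by
  set c := x j₀ with hc
  set xt : σ → E := fun l => x l / c with hxt
  refine ⟨?_, ?_, ?_⟩
  · unfold e0
    rw [eul_scale d Z x c hj, phi_emb]
  · intro s
    obtain ⟨bb, hbb⟩ := syz_scale n a D θ Z x hU c hj ⟨s.1.1, s.1.2, s.2.1, s.2.2⟩
    refine ⟨bb, ?_⟩
    rw [sy_c0, sy_c0, hbb, ← phi_emb]
    rfl
  · intro i
    have h1 := cv_sub_mem n a D θ Z xt j₀ i (Sym.replicate (n i + 1) i₀)
    have hxj : xt j₀ = 1 := div_self hj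
    have hxi : mon xt (Sym.replicate (n i + 1) i₀) = (c ^ (n i + 1))⁻¹ := by
      rw [mon, Sym.coe_replicate, Multiset.map_replicate, Multiset.prod_replicate, hxt]
      simp only
      rw [hx, one_div, inv_pow]
    rw [hxj, one_pow, one_smul, hxi] at h1
    refine ⟨fun r => (cv n a D θ Z xt ⟨i, Sym.replicate (n i + 1) i₀⟩ -
      (c ^ (n i + 1))⁻¹ • cv n a D θ Z xt ⟨i, Sym.replicate (n i + 1) j₀⟩) (emb r),
      ?_, D ⟨i, Sym.replicate (n i + 1) i₀⟩ c / c, ?_⟩
    · have h2 := Submodule.mem_map_of_mem (f := LinearMap.funLeft E E (emb (σ := σ) (ι := ι)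
        (Tt := Tt))) h1
      rw [Submodule.map_span, ← Set.range_comp] at h2
      refine Submodule.span_mono ?_ h2
      rintro _ ⟨⟨i', I, j, l⟩, rfl⟩
      exact ⟨⟨⟨i', I⟩, j, l⟩, rfl⟩
    · have h6 := cv_scale n a D θ Z x hU c hj ⟨i, Sym.replicate (n i + 1) i₀⟩
      funext r
      have h7 := congrFun (phi_emb c (cv n a D θ Z xt
        ⟨i, Sym.replicate (n i + 1) i₀⟩)) r
      rw [scl_apply] at h7
      have h8 := congrFun h6 (emb r)
      rw [Pi.add_apply, Pi.smul_apply, smul_eq_mul] at h8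
      have h9 : r0 n a D θ Z x i₀ i r = cv n a D θ Z x
        ⟨i, Sym.replicate (n i + 1) i₀⟩ (emb r) := rfl
      rw [h9, h8]
      simp only [Pi.add_apply, Pi.smul_apply, smul_eq_mul, scl_apply, Pi.sub_apply]
      change _ = _ * (_ * cv n a D θ Z xt
        ⟨i, Sym.replicate (n i + 1) j₀⟩ (emb r)) + _ + _ * eul d Z x (emb r)
      rw [← hxt]
      change phi c (cv n a D θ Z xt
        ⟨i, Sym.replicate (n i + 1) i₀⟩) (emb r) + _ = _
      rw [h7]
      ring

end

private theorem key_line_aux {E : Type*} [Field E] {σ ι Tt : Type*} [Fintype σ] [DecidableEq σ]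
    [Fintype ι] [DecidableEq ι] [Fintype Tt] (n d b : ι → ℕ)
    (a A : (i : ι) → Sym σ (d i) → E) (p : (i : ι) → Sym σ (b i) → E)
    (h : (i : ι) → Sym σ (n i + 1) → E)
    (D : Ix σ (fun i => n i + 1) → Derivation ℤ E E)
    (jj : Tt → Ix σ (fun i => n i + 1)) (θ : Tt → Ix σ (fun i => n i + 1) → E)
    (hD : Dual (fun i => n i + 1) h D jj θ) (hM : Mov d b (fun i => n i + 1) a A p h D)
    (Z : Finset ι) (x : σ → E) (i₀ j₁ : σ) (hx : x i₀ = 1) (hj : j₁ ≠ i₀)
    (hZ : ∀ i ∈ Z, form (a i) x = 0) (hU : ∀ i ∉ Z, form (a i) x ≠ 0)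
    (hP : ∀ i, form (p i) x ≠ 0) (w : ℕ)
    (hw1 : 2 * w + 1 + Fintype.card Tt ≤ ∑ i, (n i + 1) + Z.card)
    (hw2 : w + 2 ≤ ∑ i, (n i + 1)) (hm : MinorsVanish D x w) :
    ∃ δ : σ → E, (∃ j l, x j * δ l - x l * δ j ≠ 0) ∧
      KeyP d a D θ Z x fun j l => x j * δ l - x l * δ j := by
  classical
  obtain ⟨lam, hl1, hl2, hl3⟩ := exists_functional n a A p h D jj θ hD hM Z x hZ hU
  have hext : ∀ f : (σ ⊕ ι) ⊕ Tt → E,
      LinearMap.funLeft E E (Equiv.sumAssoc σ ι Tt) (fun r => f (emb r)) = f := by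
    intro f
    funext r
    rw [LinearMap.funLeft_apply]
    change f ((Equiv.sumAssoc σ ι Tt).symm (Equiv.sumAssoc σ ι Tt r)) = f r
    rw [Equiv.symm_apply_apply]
  have hcv0 : ∀ s, ∀ i ∈ Z, cv n a D θ Z x s (Sum.inl (Sum.inr i)) = 0 := by
    intro s i hi
    simp [cv, hi]
  have hCm : ∀ q, col D x q ∈ Submodule.span E (Set.range (col D x)) :=
    fun q => Submodule.subset_span ⟨q, rfl⟩
  obtain ⟨δ, hδ1, hδ2⟩ := key_two_abs (fun i => n i + 1)
    (Z.map ⟨Sum.inl, Sum.inl_injective⟩ : Finset (ι ⊕ Tt)) x i₀ j₁ hx hj (e0 d Z x)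
    (c0 n a D θ Z x) (r0 n a D θ Z x i₀) (by
      change x i₀ ≠ 0
      rw [hx]
      exact one_ne_zero)
    (by
      intro i hi
      obtain ⟨i', hi', rfl⟩ := Finset.mem_map.1 hi
      change eul d Z x (Sum.inl (Sum.inr i') : (σ ⊕ ι) ⊕ Tt) = 0
      simp [eul, hi'])
    (by
      intro q l i hi
      obtain ⟨i', hi', rfl⟩ := Finset.mem_map.1 hi
      exact hcv0 _ i' hi')
    (by
      intro i'' i hi
      obtain ⟨i', hi', rfl⟩ := Finset.mem_map.1 hi
      exact hcv0 _ i' hi')
    (lam ∘ₗ LinearMap.funLeft E E (Equiv.sumAssoc σ ι Tt))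
    (by
      rw [LinearMap.comp_apply]
      unfold e0
      rw [hext, hl1])
    (by
      intro s
      rw [LinearMap.comp_apply, sy_c0, hext, hl3])
    (fun i => -form (p i) x) (fun i => neg_ne_zero.2 (hP i))
    (by
      intro i
      rw [LinearMap.comp_apply]
      unfold r0
      rw [hext, hl2, mon, Sym.coe_replicate, Multiset.map_replicate,
        Multiset.prod_replicate, hx, one_pow, mul_one])
    (col D x) w hm (hCm none)
    (by
      intro s
      exact sub_mem (Submodule.smul_mem _ (x s.2.1) (hCm (some ⟨s.1.1, s.2.2 ::ₛ s.1.2⟩)))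
        (Submodule.smul_mem _ (x s.2.2) (hCm (some ⟨s.1.1, s.2.1 ::ₛ s.1.2⟩))))
    (fun i => hCm (some ⟨i, Sym.replicate (n i + 1) i₀⟩))
    (by
      rw [Finset.card_map, Fintype.card_sum]
      omega) hw2
  refine ⟨δ, hδ1, fun O Δ hO hθ hrow => ?_⟩
  obtain ⟨j₀, hj₀, hjO⟩ := exists_max_coord O x i₀ (by
    rw [hx]
    exact one_ne_zero)
  have hci : (x j₀)⁻¹ ∈ O := by
    have h1 := hjO i₀
    rwa [hx, one_div] at h1
  have hcv : ∀ s r, Δ * cv n a D θ Z (fun l => x l / x j₀) s (emb r) ∈ O := by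
    intro s r
    rcases r with l | (i | j)
    · exact hO.2 s _ (hjO l)
    · change Δ * (if i ∈ Z then 0 else _) ∈ O
      split_ifs with hi
      · rw [mul_zero]
        exact zero_mem O
      · have h1 := (hrow i hi j₀ hj₀ hjO).2 s
        rwa [pow_zero, div_one, one_mul] at h1
    · exact hθ j s
  have hmain := hδ2 O Δ (x j₀) (e0 d Z fun l => x l / x j₀)
    (sy (fun l => x l / x j₀) (c0 n a D θ Z fun l => x l / x j₀))
    (r0 n a D θ Z (fun l => x l / x j₀) j₀) hj₀ hci hjO hO.1
    (trans0 n a D θ Z x hU i₀ hx j₀ hj₀) ?_ ?_ ?_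
  · intro j l
    have h1 := hmain j l
    rwa [Fintype.card_sum, ← add_assoc] at h1
  · rintro (l | (i | j))
    · exact mul_mem hO.1 (hjO l)
    · change Δ * (if i ∈ Z then 0 else _) ∈ O
      split_ifs with hi
      · rw [mul_zero]
        exact zero_mem O
      · exact mul_mem hO.1 (natCast_mem O _)
    · change Δ * 0 ∈ O
      rw [mul_zero]
      exact zero_mem O
  · intro s r
    have h4 := sub_mem (mul_mem (hjO s.2.1) (hcv ⟨s.1.1, s.2.2 ::ₛ s.1.2⟩ r))
      (mul_mem (hjO s.2.2) (hcv ⟨s.1.1, s.2.1 ::ₛ s.1.2⟩ r))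
    have h5 : Δ * sy (fun l => x l / x j₀) (c0 n a D θ Z fun l => x l / x j₀) s r =
        x s.2.1 / x j₀ * (Δ * cv n a D θ Z (fun l => x l / x j₀)
          ⟨s.1.1, s.2.2 ::ₛ s.1.2⟩ (emb r)) -
        x s.2.2 / x j₀ * (Δ * cv n a D θ Z (fun l => x l / x j₀)
          ⟨s.1.1, s.2.1 ::ₛ s.1.2⟩ (emb r)) := by
      simp only [sy, c0, Pi.sub_apply, Pi.smul_apply, smul_eq_mul]
      ring
    rw [h5]
    exact h4
  · intro i r
    exact hcv _ r

/-- **The key lemma for two-vectors**, one degree better than `key`. -/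
theorem key_line {E : Type*} [Field E] {σ ι τ : Type*} [Fintype σ] [DecidableEq σ] [Fintype ι]
    [DecidableEq ι] [Fintype τ] (d b q : ι → ℕ) (hq : ∀ i, 0 < q i)
    (a A : (i : ι) → Sym σ (d i) → E) (p : (i : ι) → Sym σ (b i) → E)
    (h : (i : ι) → Sym σ (q i) → E) (D : Ix σ q → Derivation ℤ E E)
    (jj : τ → Ix σ q) (θ : τ → Ix σ q → E) (hD : Dual q h D jj θ) (hM : Mov d b q a A p h D)
    (Z : Finset ι) (x : σ → E) (i₀ j₁ : σ) (hx : x i₀ = 1) (hj : j₁ ≠ i₀)
    (hZ : ∀ i ∈ Z, form (a i) x = 0) (hU : ∀ i ∉ Z, form (a i) x ≠ 0)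
    (hP : ∀ i, form (p i) x ≠ 0) (w : ℕ)
    (hw1 : 2 * w + 1 + Fintype.card τ ≤ ∑ i, q i + Z.card)
    (hw2 : w + 2 ≤ ∑ i, q i) (hm : MinorsVanish D x w) :
    ∃ δ : σ → E, (∃ j l, x j * δ l - x l * δ j ≠ 0) ∧
      KeyP d a D θ Z x fun j l => x j * δ l - x l * δ j := by
  obtain ⟨n, rfl⟩ : ∃ n : ι → ℕ, q = fun i => n i + 1 :=
    ⟨fun i => q i - 1, funext fun i => (Nat.sub_add_cancel (hq i)).symm⟩
  exact key_line_aux n d b a A p h D jj θ hD hM Z x i₀ j₁ hx hj hZ hU hP w hw1 hw2 hm

end Pool.Agent.Helper49.LV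

end

section

/-! # LV-RIGIDLINE: rigidity of the line

Copy of `Helper8.LV.rigid` (`C` empty) with `key_line` instead of `key`. -/

set_option autoImplicit false

namespace Pool.Agent.Helper49.LV

open scoped BigOperators
open Pool.Agent.Helper8.LG
open Pool.Agent.Helper8.LV (Fam Mov Over)

/-- One side: `P j l` is integral over `E₀[t]`. -/
theorem rl_side {E : Type*} [Field E] [CharZero E] {σ ι τ P : Type*} [Fintype σ]
    [DecidableEq σ] [Fintype ι] [Fintype τ] (d : ι → ℕ) (a : (i : ι) → Sym σ (d i) → E)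
    (D : P → Derivation ℤ E E) (θ : τ → P → E) (Z : Finset ι)
    (x : σ → E) (hU : ∀ i ∉ Z, form (a i) x ≠ 0)
    (E₀ : Subfield E) (t : E) (ht : Transcendental E₀ t)
    (hfin : FiniteDimensional (Subfield.closure ((E₀ : Set E) ∪ {t})) E)
    (hstab : ∀ p, ∀ f ∈ intCl E₀ t, D p f ∈ intCl E₀ t)
    (ha : ∀ i J, a i J ∈ E₀) (hθ : ∀ j s, θ j s ∈ E₀) {n : ℕ} (c : Fin n → E)
    (hDc : ∀ p r, D p (c r) = 0)
    (hc : ∀ O : ValuationSubring E, (∀ f ∈ E₀, f ∈ O) → (∀ r, c r ∈ O) →
      ∀ i ∉ Z, ∀ J : Sym σ (d i), mon x J / form (a i) x ∈ O)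
    (M : σ → σ → E) (hM : KeyP d a D θ Z x M) (j l : σ) : M j l ∈ intCl E₀ t := by
  obtain ⟨h1, h2⟩ := intCl_dedekind E₀ t ht hfin
  haveI := h1
  haveI := h2
  have hE₀R : ∀ f ∈ E₀, f ∈ intCl E₀ t := fun f hf =>
    rg_mem_intCl E₀ t (Subring.subset_closure (Or.inl hf))
  have hQ : ∀ n : ℕ, n ≠ 0 → ((n : E))⁻¹ ∈ intCl E₀ t := fun n _ =>
    hE₀R _ (inv_mem (natCast_mem E₀ n))
  apply mem_of (intCl E₀ t)
  intro O hO
  have hE₀O : ∀ f ∈ E₀, f ∈ O := fun f hf => hO (hE₀R f hf)
  have hbdd : Bdd D 1 O := bdd_of (intCl E₀ t) D 1 (one_mem _)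
    (fun p f hf => by rw [one_mul]; exact hstab p f hf) O hO
  have hDO : ∀ p, ∀ f ∈ O, D p f ∈ O := fun p f hf => by
    have := hbdd.2 p f hf
    rwa [one_mul] at this
  have hrow : ∀ i ∉ Z, RowBdd D 1 O x (form (a i)) 1 0 := by
    intro i hiZ j hj hprim
    have hform := rg_form_div (a i) x (x j)
    have hform0 : form (a i) (fun l => x l / x j) ≠ 0 := by
      rw [hform]
      exact div_ne_zero (hU i hiZ) (pow_ne_zero _ hj)
    have hformO : form (a i) (fun l => x l / x j) ∈ O := by
      unfold form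
      refine sum_mem fun J _ => mul_mem (hE₀O _ (ha i J)) ?_
      unfold mon
      refine multiset_prod_mem _ fun z hz => ?_
      obtain ⟨l, -, rfl⟩ := Multiset.mem_map.1 hz
      exact hprim l
    simp only [one_mul, pow_zero, div_one]
    refine ⟨one_mem O, fun p => ?_⟩
    by_cases hcO : ∀ r, c r ∈ O
    · have h3 := hc O hE₀O hcO i hiZ (Sym.replicate (d i) j)
      rw [rg_mon_replicate] at h3
      have h4 : x j ^ d i / form (a i) x = (form (a i) fun l => x l / x j)⁻¹ := by
        rw [hform, inv_div]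
      rw [h4] at h3
      rw [div_eq_mul_inv]
      exact mul_mem (hDO p _ hformO) h3
    · push Not at hcO
      obtain ⟨r, hr⟩ := hcO
      have hr0 : c r ≠ 0 := by
        intro h
        rw [h] at hr
        exact hr (zero_mem O)
      have h3 := log_of (intCl E₀ t) hQ D O hO 1 hbdd (c r) hr0 (Or.inl hr)
        (fun p => by rw [hDc, zero_div, mul_zero]; exact zero_mem O) _ hform0 p
      rwa [one_mul] at h3
  have h5 := hM O 1 hbdd (fun j s => by rw [one_mul]; exact hE₀O _ (hθ j s)) hrow j l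
  rwa [one_pow, one_mul] at h5

theorem rigid_line {k L E : Type*} [Field k] [Field L] [Field E] [CharZero E] [Algebra k L]
    [Algebra L E] [Algebra k E] [IsScalarTower k L E] {n : ℕ} (c : Fin n → E)
    (hgen : IntermediateField.adjoin L (Set.range c) = ⊤) (B : Set (Fin n))
    (hB : AlgebraicIndependent L (fun b : B => c b))
    (halg : ∀ r, IsAlgebraic (IntermediateField.adjoin k (c '' B)) (c r))
    {σ ι τ : Type*} [Fintype σ] [DecidableEq σ] [Fintype ι] [DecidableEq ι] [Fintype τ]
    (d b q : ι → ℕ) (hq : ∀ i, 0 < q i) (a aA : (i : ι) → Sym σ (d i) → L)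
    (ap : (i : ι) → Sym σ (b i) → L) (ah : (i : ι) → Sym σ (q i) → L)
    (hF : Fam d b q a aA ap ah) (hAk : Over k aA) (hpk : Over k ap)
    (D : Ix σ q → Derivation ℤ E E) (jj : τ → Ix σ q) (θ : τ → Ix σ q → L)
    (hD : Dual q (fun i J => algebraMap L E (ah i J)) D jj fun j s => algebraMap L E (θ j s))
    (hDL : ∀ p b, ∃ b', D p (algebraMap L E b) = algebraMap L E b')
    (hDk : ∀ p (b : k), D p (algebraMap k E b) = 0)
    (hDc : ∀ p r, D p (c r) = 0)
    (Z : Finset ι) (w : ℕ)
    (hw1 : 2 * w + 1 + Fintype.card τ ≤ ∑ i, q i + Z.card) (hw2 : w + 2 ≤ ∑ i, q i)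
    (x : σ → E) (i₀ j₁ : σ) (hx : x i₀ = 1) (hj : j₁ ≠ i₀)
    (hZ : ∀ i ∈ Z, form (fun J => algebraMap L E (a i J)) x = 0)
    (hU : ∀ i ∉ Z, form (fun J => algebraMap L E (a i J)) x ≠ 0)
    (hPx : ∀ i, form (fun J => algebraMap L E (ap i J)) x ≠ 0)
    (hint : ∀ i ∉ Z, ∀ J : Sym σ (d i),
      mon x J / form (fun J => algebraMap L E (a i J)) x ∈ Algebra.adjoin L (Set.range c))
    (hm : MinorsVanish D x w) :
    ∃ δ : σ → E, (∃ j l, x j * δ l - x l * δ j ≠ 0) ∧
      ∀ j l, IsAlgebraic L (x j * δ l - x l * δ j) := by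
  classical
  have hmov : Mov d b q (fun i J => algebraMap L E (a i J)) (fun i J => algebraMap L E (aA i J))
      (fun i J => algebraMap L E (ap i J)) (fun i J => algebraMap L E (ah i J)) D :=
    (hF.map (algebraMap L E)).mov (k := k) hAk.map hpk.map D hDk
  obtain ⟨δ, hδ, hδ2⟩ := key_line d b q hq (fun i J => algebraMap L E (a i J))
    (fun i J => algebraMap L E (aA i J)) (fun i J => algebraMap L E (ap i J))
    (fun i J => algebraMap L E (ah i J)) D jj
    (fun j s => algebraMap L E (θ j s)) hD hmov Z x i₀ j₁ hx hj hZ hU hPx w hw1 hw2 hm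
  -- the field `F = E₀(t)`
  have hrange : (Set.range fun b : B => c b) = c '' B := by
    ext z
    constructor
    · rintro ⟨b, rfl⟩
      exact ⟨b, b.2, rfl⟩
    · rintro ⟨b, hb, rfl⟩
      exact ⟨⟨b, hb⟩, rfl⟩
  have halgF : ∀ (F : Subfield E), (∀ b : k, algebraMap k E b ∈ F) → (∀ b ∈ B, c b ∈ F) →
      ∀ r, IsAlgebraic F (c r) := by
    intro F hkF hBF r
    refine rg_alg (R₁ := IntermediateField.adjoin k (c '' B)) (fun s => ?_) (halg r)
    have h1 : (IntermediateField.adjoin k (c '' B)).toSubfield ≤ F := by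
      rw [IntermediateField.adjoin_toSubfield, Subfield.closure_le]
      rintro z (⟨b, rfl⟩ | ⟨b, hb, rfl⟩)
      · exact hkF b
      · exact hBF b hb
    exact ⟨⟨s, h1 s.2⟩, rfl⟩
  have hfinF : ∀ (F : Subfield E), (∀ b : L, algebraMap L E b ∈ F) → (∀ b ∈ B, c b ∈ F) →
      FiniteDimensional F E := by
    intro F hLF hBF
    have hkF : ∀ b : k, algebraMap k E b ∈ F := fun b => by
      rw [IsScalarTower.algebraMap_apply k L E]
      exact hLF _
    have h1 : FiniteDimensional F (IntermediateField.adjoin F (Set.range c)) :=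
      IntermediateField.finiteDimensional_adjoin (by
        rintro z ⟨r, rfl⟩
        exact (halgF F hkF hBF r).isIntegral)
    have h2 : IntermediateField.adjoin F (Set.range c) = ⊤ := by
      rw [eq_top_iff]
      intro z _
      have hz : z ∈ IntermediateField.adjoin L (Set.range c) := by rw [hgen]; trivial
      have h3 : (IntermediateField.adjoin L (Set.range c)).toSubfield ≤
          (IntermediateField.adjoin F (Set.range c)).toSubfield := by
        rw [IntermediateField.adjoin_toSubfield, Subfield.closure_le]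
        rintro z (⟨b, rfl⟩ | hz)
        · exact (IntermediateField.adjoin F (Set.range c)).algebraMap_mem ⟨_, hLF b⟩
        · exact IntermediateField.subset_adjoin F _ hz
      exact h3 hz
    rw [h2] at h1
    exact Module.Finite.equiv (IntermediateField.topEquiv (F := F) (E := E)).toLinearEquiv
  refine ⟨δ, hδ, fun j l => ?_⟩
  refine exchange (fun b : B => c b) hB (x j * δ l - x l * δ j) ?_ fun b => ?_
  · -- algebraic over `L(c_B)`
    have h1 := hfinF (IntermediateField.adjoin L (Set.range fun b : B => c b)).toSubfield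
      (fun b => (IntermediateField.adjoin L (Set.range fun b : B => c b)).algebraMap_mem b)
      (fun b hb => IntermediateField.subset_adjoin L _ ⟨⟨b, hb⟩, rfl⟩)
    have h2 : IsAlgebraic (IntermediateField.adjoin L (Set.range fun b : B => c b)).toSubfield
        (x j * δ l - x l * δ j) := Algebra.IsAlgebraic.isAlgebraic _
    exact rg_alg (fun s => ⟨⟨s, s.2⟩, rfl⟩) h2
  · -- algebraic over `L(c_(B - b))`
    set S₀ : Set E := (fun b : B => c b) '' {b}ᶜ with hS₀
    set E₀ : Subfield E := (IntermediateField.adjoin L S₀).toSubfield with hE₀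
    have hE₀cl : E₀ = Subfield.closure (Set.range (algebraMap L E) ∪ S₀) :=
      IntermediateField.adjoin_toSubfield L S₀
    have hLE₀ : ∀ z : L, algebraMap L E z ∈ E₀ := fun z =>
      (IntermediateField.adjoin L S₀).algebraMap_mem z
    have hSE₀ : ∀ z ∈ S₀, z ∈ E₀ := fun z hz => IntermediateField.subset_adjoin L _ hz
    have hcE₀ : ∀ b' ∈ B, b' ≠ b → c b' ∈ E₀ := fun b' hb' hne => by
      refine hSE₀ _ ⟨⟨b', hb'⟩, ?_, rfl⟩
      intro h
      apply hne
      rw [Set.mem_singleton_iff] at h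
      rw [← h]
    have htr : Transcendental E₀ (c b) := by
      have h1 : Transcendental (Algebra.adjoin L S₀) (c b) :=
        hB.transcendental_adjoin (s := {b}ᶜ) (i := b) (fun h => h rfl)
      have h2 := (IntermediateField.transcendental_adjoin_iff (F := L) (s := S₀)).2 h1
      intro h3
      exact h2 (rg_alg (fun s => ⟨⟨s, s.2⟩, rfl⟩) h3)
    -- the derivations
    have hDE₀ : ∀ p, ∀ f ∈ E₀, D p f ∈ E₀ := by
      intro p
      rw [hE₀cl]
      apply rg_stable
      rintro f (⟨z, rfl⟩ | hf)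
      · obtain ⟨z', hz'⟩ := hDL p z
        rw [hz']
        exact Subfield.subset_closure (Or.inl ⟨z', rfl⟩)
      · obtain ⟨b', -, rfl⟩ := hf
        show D p (c b') ∈ _
        rw [hDc]
        exact zero_mem _
    set k₀ : Subfield E := (IntermediateField.adjoin k S₀).toSubfield with hk₀
    have hk₀cl : k₀ = Subfield.closure (Set.range (algebraMap k E) ∪ S₀) :=
      IntermediateField.adjoin_toSubfield k S₀
    have hk₀E₀ : k₀ ≤ E₀ := by
      rw [hk₀cl, Subfield.closure_le]
      rintro z (⟨z, rfl⟩ | hz)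
      · rw [IsScalarTower.algebraMap_apply k L E]
        exact hLE₀ _
      · exact hSE₀ z hz
    have hDk₀ : ∀ p, ∀ f ∈ k₀, D p f = 0 := by
      intro p
      rw [hk₀cl]
      apply rg_kill
      rintro f (⟨z, rfl⟩ | hf)
      · exact hDk p z
      · obtain ⟨b', -, rfl⟩ := hf
        exact hDc p b'
    -- both sides
    have hside : ∀ t : E, (t = c b ∨ t = (c b)⁻¹) → Transcendental E₀ t ∧
        FiniteDimensional (Subfield.closure ((E₀ : Set E) ∪ {t})) E ∧
        x j * δ l - x l * δ j ∈ intCl E₀ t := by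
      intro t ht
      have htc : c b ∈ Subfield.closure ({t} : Set E) := by
        rcases ht with h | h
        · rw [← h]
          exact Subfield.subset_closure rfl
        · have h1 : c b = t⁻¹ := by rw [h, inv_inv]
          rw [h1]
          exact inv_mem (Subfield.subset_closure rfl)
      have htt : Transcendental E₀ t := by
        rcases ht with h | h
        · rw [h]
          exact htr
        · rw [h]
          intro h1
          exact htr (by simpa using h1.inv)
      have hF1 : ∀ z : L, algebraMap L E z ∈ Subfield.closure ((E₀ : Set E) ∪ {t}) := fun z =>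
        Subfield.subset_closure (Or.inl (hLE₀ z))
      have hF2 : ∀ b' ∈ B, c b' ∈ Subfield.closure ((E₀ : Set E) ∪ {t}) := by
        intro b' hb'
        by_cases hne : b' = b
        · rw [hne]
          exact Subfield.closure_mono (Set.subset_union_right) htc
        · exact Subfield.subset_closure (Or.inl (hcE₀ b' hb' hne))
      have hfin := hfinF _ hF1 hF2
      refine ⟨htt, hfin, ?_⟩
      have hDt : ∀ p, D p t = 0 := by
        intro p
        rcases ht with h | h
        · rw [h]
          exact hDc p b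
        · rw [h, (D p).leibniz_inv, hDc, smul_zero]
      have hstab := intCl_stable E₀ t D hDE₀ hDt k₀ hk₀E₀ hDk₀ (Set.range c)
        (Set.finite_range c) (by rintro p z ⟨r, rfl⟩; exact hDc p r) (by
          rintro z ⟨r, rfl⟩
          refine halgF _ (fun z => ?_) (fun b' hb' => ?_) r
          · exact Subfield.subset_closure
              (Or.inl ((IntermediateField.adjoin k S₀).algebraMap_mem z))
          · by_cases hne : b' = b
            · rw [hne]
              exact Subfield.closure_mono (Set.subset_union_right) htc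
            · refine Subfield.subset_closure (Or.inl ?_)
              refine IntermediateField.subset_adjoin k S₀ ⟨⟨b', hb'⟩, ?_, rfl⟩
              intro h
              apply hne
              rw [Set.mem_singleton_iff] at h
              rw [← h]) (by
          rw [eq_top_iff]
          intro z _
          have hz : z ∈ (IntermediateField.adjoin L (Set.range c)).toSubfield := by
            rw [hgen]; trivial
          rw [IntermediateField.adjoin_toSubfield] at hz
          refine Subfield.closure_mono ?_ hz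
          rintro z (⟨z, rfl⟩ | hz)
          · exact Or.inl (Or.inl (hLE₀ z))
          · exact Or.inr hz)
      refine rl_side d (fun i J => algebraMap L E (a i J)) D
        (fun j s => algebraMap L E (θ j s)) Z x hU E₀ t
        htt hfin hstab (fun i J => hLE₀ _) (fun j s => hLE₀ _) c hDc ?_ _ hδ2 j l
      intro O hO1 hO2 i hiZ J
      have h1 := hint i hiZ J
      have h2 : (Algebra.adjoin L (Set.range c)).toSubring ≤ O.toSubring := by
        rw [Algebra.adjoin_eq_ring_closure, Subring.closure_le]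
        rintro z (⟨z, rfl⟩ | ⟨r, rfl⟩)
        · exact hO1 _ (hLE₀ z)
        · exact hO2 r
      exact h2 h1
    obtain ⟨ht1, hfin1, h1⟩ := hside (c b) (Or.inl rfl)
    obtain ⟨-, -, h2⟩ := hside (c b)⁻¹ (Or.inr rfl)
    have hP : IsAlgebraic E₀ (x j * δ l - x l * δ j) :=
      algebraic_of_mem E₀ (c b) ht1 hfin1 _ h1 h2
    exact rg_alg (fun s => ⟨⟨s, s.2⟩, rfl⟩) hP

end Pool.Agent.Helper49.LV

end
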