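import Pool.Agent.Helper74.MG.T34
import Pool.Agent.Helper74.MG.T35
import Pool.Agent.Helper74.MG.T33

section

/-! # LV-ROWS: the rows are bounded in one direction of the base (`C` empty)

The proof is the one of `Helper8.LG.dir_one` (unramified case). -/

set_option autoImplicit false

namespace Pool.Agent.Helper49.LV

open scoped BigOperators
open Pool.Agent.Helper8.LG
open Pool.Agent.Helper8.LV

/-- In one direction: the derivations, the corrections and the rows of all good points are bounded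
by one `Δ` at all valuation rings containing `intCl E₀ t`. -/
theorem dir_rows {L : Type*} [Field L] [CharZero L] {σ ι τ P : Type*} [Fintype σ]
    [DecidableEq σ] [Fintype ι] [DecidableEq ι] [Fintype τ] [Finite P]
    (d : ι → ℕ)
    (a : (i : ι) → Sym σ (d i) → L) (D : P → Derivation ℤ L L)
    (θ : τ → P → L) (Z : Finset ι)
    (E₀ : Subfield L) (t : L) (ht : Transcendental E₀ t)
    (hfin : FiniteDimensional (Subfield.closure ((E₀ : Set L) ∪ {t})) L)
    (hE₀ : ∀ p, ∀ f ∈ E₀, D p f ∈ E₀)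
    (hDt : ∀ p, D p t ∈ Subring.closure ((E₀ : Set L) ∪ {t}))
    (S : Set L) (hS : S.Finite) (hSa : ∀ p : Ix σ d, a p.1 p.2 ∈ S)
    (hSθ : ∀ j s, θ j s ∈ S) :
    ∃ Δ : L, Δ ≠ 0 ∧ Δ ∈ intCl E₀ t ∧ (∀ f ∈ S, Δ * f ∈ intCl E₀ t) ∧ ∀ x : σ → L,
      (∀ i ∉ Z, form (a i) x ≠ 0) →
      (∀ i ∉ Z, ∀ J : Sym σ (d i),
        IsIntegral (Subring.closure ((E₀ : Set L) ∪ S)) (mon x J / form (a i) x)) →
      ∀ O : ValuationSubring L, intCl E₀ t ≤ O.toSubring →
        Bdd D Δ O ∧ (∀ j s, Δ * θ j s ∈ O) ∧ ∀ i ∉ Z, RowBdd D Δ O x (form (a i)) 1 0 := by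
  obtain ⟨Δ₀, hΔc, hΔ0, hΔD, hΔS⟩ := exists_bound E₀ t ht hfin D hE₀ hDt S hS
  obtain ⟨hDed, hFrac⟩ := intCl_dedekind E₀ t ht hfin
  have hcl : Subring.closure ((E₀ : Set L) ∪ {t}) ≤ intCl E₀ t := by
    intro f hf
    exact isIntegral_algebraMap (R := Subring.closure ((E₀ : Set L) ∪ {t})) (x := ⟨f, hf⟩)
  have hE₀R : ∀ f ∈ E₀, f ∈ intCl E₀ t := fun f hf =>
    hcl (Subring.subset_closure (Or.inl hf))
  have hQ : ∀ n : ℕ, n ≠ 0 → ((n : L))⁻¹ ∈ intCl E₀ t := fun n _ =>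
    hE₀R _ (E₀.inv_mem (natCast_mem E₀ n))
  have hΔR : Δ₀ ∈ intCl E₀ t := hcl hΔc
  refine ⟨Δ₀ ^ 3, pow_ne_zero _ hΔ0, pow_mem hΔR 3, fun f hf => ?_, ?_⟩
  · have h1 : Δ₀ ^ 3 * f = Δ₀ ^ 2 * (Δ₀ * f) := by ring
    rw [h1]
    exact mul_mem (pow_mem hΔR 2) (hΔS f hf)
  intro x hne hint₀ O hO
  have hb : Bdd D Δ₀ O := bdd_of (intCl E₀ t) D Δ₀ hΔR hΔD O hO
  have hΔO : Δ₀ ∈ O := hb.1
  refine ⟨⟨pow_mem hΔO 3, fun p f hf => ?_⟩, fun j s => ?_, ?_⟩
  · have h1 : Δ₀ ^ 3 * D p f = Δ₀ ^ 2 * (Δ₀ * D p f) := by ring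
    rw [h1]
    exact mul_mem (pow_mem hΔO 2) (hb.2 p f hf)
  · have h1 : Δ₀ ^ 3 * θ j s = Δ₀ ^ 2 * (Δ₀ * θ j s) := by ring
    rw [h1]
    exact mul_mem (pow_mem hΔO 2) (hO (hΔS _ (hSθ j s)))
  intro i hi j hj hxO
  have hane : form (a i) x ≠ 0 := hne i hi
  have hgeq : form (a i) (fun l => x l / x j) = form (a i) x / x j ^ d i :=
    dirOne_form_div (a i) x (x j)
  have hg0 : form (a i) (fun l => x l / x j) ≠ 0 := by
    rw [hgeq]
    exact div_ne_zero hane (pow_ne_zero _ hj)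
  rw [pow_zero, div_one]
  refine ⟨by rw [mul_one]; exact pow_mem hΔO 3, fun p => ?_⟩
  rw [one_mul]
  have key : Δ₀ ^ 2 * (D p (form (a i) fun l => x l / x j) /
      form (a i) fun l => x l / x j) ∈ O := by
    by_cases hinv : Δ₀⁻¹ ∈ O
    · have hSO : ∀ f ∈ S, f ∈ O := fun f hf => by
        have h1 : f = Δ₀⁻¹ * (Δ₀ * f) := by
          rw [← mul_assoc, inv_mul_cancel₀ hΔ0, one_mul]
        rw [h1]
        exact mul_mem hinv (hO (hΔS f hf))
      have hA : Subring.closure ((E₀ : Set L) ∪ S) ≤ O.toSubring := by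
        rw [Subring.closure_le]
        rintro f (hf | hf)
        · exact hO (hE₀R f hf)
        · exact hSO f hf
      have hint := dirOne_int_mem O _ hA (hint₀ i hi (Sym.replicate (d i) j))
      rw [dirOne_mon_replicate] at hint
      have hgi : (form (a i) (fun l => x l / x j))⁻¹ ∈ O := by
        rw [hgeq, inv_div]
        exact hint
      have hgO : form (a i) (fun l => x l / x j) ∈ O := by
        have h1 := dirOne_form_mem O 1 (a i)
          (fun J => by rw [one_mul]; exact hSO _ (hSa ⟨i, J⟩)) _ hxO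
        rwa [one_mul] at h1
      have h2 : Δ₀ ^ 2 * (D p (form (a i) fun l => x l / x j) /
          form (a i) fun l => x l / x j) =
          Δ₀ * ((Δ₀ * D p (form (a i) fun l => x l / x j)) *
            (form (a i) (fun l => x l / x j))⁻¹) := by
        rw [div_eq_mul_inv]
        ring
      rw [h2]
      exact mul_mem hΔO (mul_mem (hb.2 p _ hgO) hgi)
    · have hb2 : Bdd D (Δ₀ ^ 2) O := by
        refine ⟨pow_mem hΔO 2, fun p f hf => ?_⟩
        have h1 : Δ₀ ^ 2 * D p f = Δ₀ * (Δ₀ * D p f) := by ring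
        rw [h1]
        exact mul_mem hΔO (hb.2 p f hf)
      refine log_of (intCl E₀ t) hQ D O hO (Δ₀ ^ 2) hb2 Δ₀ hΔ0 (Or.inr hinv) (fun q => ?_)
        _ hg0 p
      have h1 : Δ₀ ^ 2 * (D q Δ₀ / Δ₀) = Δ₀ * D q Δ₀ := by
        field_simp
      rw [h1]
      exact hb.2 q _ hΔO
  have h3 : Δ₀ ^ 3 * (D p (form (a i) fun l => x l / x j) /
      form (a i) fun l => x l / x j) =
      Δ₀ * (Δ₀ ^ 2 * (D p (form (a i) fun l => x l / x j) /
      form (a i) fun l => x l / x j)) := by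
    ring
  rw [h3]
  exact mul_mem hΔO key

end Pool.Agent.Helper49.LV

end

section

/-! # LV-BOUNDLINE: the two-vectors lie in a finite-dimensional space

Copy of the first round of `Helper8.LV.bounded`, with `key_line` instead of `key`. -/

set_option autoImplicit false

namespace Pool.Agent.Helper49.LV

open scoped BigOperators
open Pool.Agent.Helper8.LG
open Pool.Agent.Helper8.LV (Fam Mov Over)

private theorem blInv {L : Type*} [Field L] (D : Derivation ℤ L L) (f : L) :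
    D f⁻¹ = -(f⁻¹ ^ 2) * D f := by
  have h := Derivation.leibniz_inv D f
  rw [h, smul_eq_mul]

private theorem blDual {L σ ι τ : Type*} [Field L] [DecidableEq σ] [DecidableEq ι] [Fintype τ]
    (d : ι → ℕ) (a : (i : ι) → Sym σ (d i) → L)
    (D : Ix σ d → Derivation ℤ L L) (jj : τ → Ix σ d) (θ : τ → Ix σ d → L)
    (hD : Dual d a D jj θ) (T : Finset (Ix σ d)) (hT : ∀ j, jj j ∉ T) (q : Ix σ d) (p : T) :
    D q (a p.1.1 p.1.2) = if q = p.1 then 1 else 0 := by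
  have h := hD q p.1
  rw [Finset.sum_eq_zero, sub_zero] at h
  · exact h
  · intro j _
    rw [if_neg]
    rintro h1
    exact hT j (h1 ▸ p.2)

private theorem blStable {k L σ ι τ : Type*} [Field k] [Field L] [Algebra k L]
    [DecidableEq σ] [DecidableEq ι] [Fintype τ]
    (d : ι → ℕ) (a : (i : ι) → Sym σ (d i) → L)
    (D : Ix σ d → Derivation ℤ L L) (jj : τ → Ix σ d) (θ : τ → Ix σ d → L)
    (hD : Dual d a D jj θ) (T : Finset (Ix σ d)) (hT : ∀ j, jj j ∉ T)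
    (hDk : ∀ p (c : k), D p (algebraMap k L c) = 0) (p : T) (q : Ix σ d) :
    ∀ f ∈ others (k := k) (fun p : T => a p.1.1 p.1.2) p,
      D q f ∈ others (k := k) (fun p : T => a p.1.1 p.1.2) p := by
  intro f hf
  have hf' : f ∈ IntermediateField.adjoin k ((fun p : T => a p.1.1 p.1.2) '' {p}ᶜ) := hf
  show D q f ∈ IntermediateField.adjoin k ((fun p : T => a p.1.1 p.1.2) '' {p}ᶜ)
  induction hf' using IntermediateField.adjoin_induction with
  | mem x hx =>
    obtain ⟨r, _, rfl⟩ := hx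
    show D q (a r.1.1 r.1.2) ∈ _
    rw [blDual d a D jj θ hD T hT q r]
    split_ifs
    · exact one_mem _
    · exact zero_mem _
  | algebraMap c =>
    rw [hDk q c]
    exact zero_mem _
  | add x y hx hy hx' hy' =>
    rw [map_add]
    exact add_mem (hx' hx) (hy' hy)
  | inv x hx hx' =>
    rw [blInv]
    exact mul_mem (neg_mem (pow_mem (inv_mem hx) 2)) (hx' hx)
  | mul x y hx hy hx' hy' =>
    rw [Derivation.leibniz, smul_eq_mul, smul_eq_mul]
    exact add_mem (mul_mem hx (hy' hy)) (mul_mem hy (hx' hx))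

private theorem blVar {L σ ι τ : Type*} [Field L] [DecidableEq σ] [DecidableEq ι] [Fintype τ]
    (d : ι → ℕ) (a : (i : ι) → Sym σ (d i) → L)
    (D : Ix σ d → Derivation ℤ L L) (jj : τ → Ix σ d) (θ : τ → Ix σ d → L)
    (hD : Dual d a D jj θ) (T : Finset (Ix σ d)) (hT : ∀ j, jj j ∉ T) (p : T) (q : Ix σ d)
    (R : Subring L) :
    D q (a p.1.1 p.1.2) ∈ R := by
  rw [blDual d a D jj θ hD T hT q p]
  split_ifs
  · exact one_mem _
  · exact zero_mem _

private theorem blVarInv {L σ ι τ : Type*} [Field L] [DecidableEq σ] [DecidableEq ι] [Fintype τ]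
    (d : ι → ℕ) (a : (i : ι) → Sym σ (d i) → L)
    (D : Ix σ d → Derivation ℤ L L) (jj : τ → Ix σ d) (θ : τ → Ix σ d → L)
    (hD : Dual d a D jj θ) (T : Finset (Ix σ d)) (hT : ∀ j, jj j ∉ T) (p : T) (q : Ix σ d)
    (R : Subring L) (hR : (a p.1.1 p.1.2)⁻¹ ∈ R) :
    D q (a p.1.1 p.1.2)⁻¹ ∈ R := by
  rw [blInv]
  exact mul_mem (neg_mem (pow_mem hR 2)) (blVar d a D jj θ hD T hT p q R)

private theorem blLe {k L : Type*} [Field k] [Field L] [Algebra k L] (s : Set L)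
    (E₀ : Subfield L) (hk : ∀ c : k, algebraMap k L c ∈ E₀) (S : Set L) (hs : s ⊆ S) :
    (Algebra.adjoin k s).toSubring ≤ Subring.closure ((E₀ : Set L) ∪ S) := by
  intro f hf
  have hf' : f ∈ Algebra.adjoin k s := hf
  induction hf' using Algebra.adjoin_induction with
  | mem x hx => exact Subring.subset_closure (Or.inr (hs hx))
  | algebraMap c => exact Subring.subset_closure (Or.inl (hk c))
  | add x y hx hy hx' hy' => exact add_mem (hx' hx) (hy' hy)
  | mul x y hx hy hx' hy' => exact mul_mem (hx' hx) (hy' hy)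

/-- In one direction the entries of all the two-vectors have bounded poles. -/
private theorem blDir {L : Type*} [Field L] [CharZero L] {σ ι τ P : Type*} [Fintype σ]
    [DecidableEq σ] [Fintype ι] [DecidableEq ι] [Fintype τ] [Finite P]
    (d : ι → ℕ)
    (a : (i : ι) → Sym σ (d i) → L) (D : P → Derivation ℤ L L)
    (θ : τ → P → L) (Z : Finset ι)
    (E₀ : Subfield L) (t : L) (ht : Transcendental E₀ t)
    (hfin : FiniteDimensional (Subfield.closure ((E₀ : Set L) ∪ {t})) L)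
    (hE₀ : ∀ p, ∀ f ∈ E₀, D p f ∈ E₀)
    (hDt : ∀ p, D p t ∈ Subring.closure ((E₀ : Set L) ∪ {t}))
    (S : Set L) (hS : S.Finite) (hSa : ∀ p : Ix σ d, a p.1 p.2 ∈ S)
    (hSθ : ∀ j s, θ j s ∈ S) :
    ∃ Δ : L, Δ ≠ 0 ∧ ∀ (x : σ → L) (M : σ → σ → L),
      (∀ i ∉ Z, form (a i) x ≠ 0) →
      (∀ i ∉ Z, ∀ J : Sym σ (d i),
        IsIntegral (Subring.closure ((E₀ : Set L) ∪ S)) (mon x J / form (a i) x)) →
      KeyP d a D θ Z x M → ∀ j l, Δ * M j l ∈ intCl E₀ t := by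
  obtain ⟨Δ, hΔ0, hΔR, hΔS, hΔ⟩ :=
    dir_rows d a D θ Z E₀ t ht hfin hE₀ hDt S hS hSa hSθ
  obtain ⟨hDed, hFrac⟩ := intCl_dedekind E₀ t ht hfin
  refine ⟨Δ ^ (Fintype.card σ + Fintype.card ι + Fintype.card τ), pow_ne_zero _ hΔ0,
    fun x M hne hint hkey j l => ?_⟩
  refine mem_of (intCl E₀ t) _ fun O hO => ?_
  obtain ⟨h1, h2, h3⟩ := hΔ x hne hint O hO
  exact hkey O Δ h1 h2 h3 j l

theorem bounded_line {k L : Type*} [Field k] [Field L] [CharZero L] [Algebra k L]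
    {σ ι τ : Type*} [Fintype σ] [DecidableEq σ] [Fintype ι] [DecidableEq ι] [Fintype τ]
    (d b q : ι → ℕ) (hq : ∀ i, 0 < q i) (a aA : (i : ι) → Sym σ (d i) → L)
    (ap : (i : ι) → Sym σ (b i) → L) (ah : (i : ι) → Sym σ (q i) → L)
    (hF : Fam d b q a aA ap ah) (hAk : Over k aA) (hpk : Over k ap) (T : Finset (Ix σ q))
    (hind : AlgebraicIndependent k (fun p : T => ah p.1.1 p.1.2))
    (hfin : FiniteDimensional
      (IntermediateField.adjoin k (Set.range fun p : T => ah p.1.1 p.1.2)) L)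
    (D : Ix σ q → Derivation ℤ L L) (jj : τ → Ix σ q) (θ : τ → Ix σ q → L)
    (hD : Dual q ah D jj θ) (hT : ∀ j, jj j ∉ T)
    (hDk : ∀ p (c : k), D p (algebraMap k L c) = 0)
    (Z : Finset ι) (i₀ j₁ : σ) (hj : j₁ ≠ i₀) (w : ℕ)
    (hw1 : 2 * w + 1 + Fintype.card τ ≤ ∑ i, q i + Z.card) (hw2 : w + 2 ≤ ∑ i, q i)
    (A : Subalgebra k L) (hA : A.FG) :
    ∃ V : Submodule k L, FiniteDimensional k V ∧ ∀ x : σ → L, x i₀ = 1 →
      (∀ i ∈ Z, form (a i) x = 0) → (∀ i ∉ Z, form (a i) x ≠ 0) → (∀ i, form (ap i) x ≠ 0) →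
      (∀ i ∉ Z, ∀ J : Sym σ (d i), IsIntegral A (mon x J / form (a i) x)) →
      MinorsVanish D x w →
      ∃ δ : σ → L, (∃ j l, x j * δ l - x l * δ j ≠ 0) ∧ ∀ j l, x j * δ l - x l * δ j ∈ V := by
  classical
  obtain ⟨s, hs⟩ := hA
  set y₀ : T → L := fun p : T => ah p.1.1 p.1.2 with hy₀
  set S : Set L := (s : Set L) ∪ (Set.range (fun p : Ix σ d => a p.1 p.2) ∪
    Set.range fun r : τ × Ix σ q => θ r.1 r.2) with hS
  have hSfin : S.Finite :=
    (s.finite_toSet).union ((Set.finite_range _).union (Set.finite_range _))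
  have hSa : ∀ p : Ix σ d, a p.1 p.2 ∈ S := fun p => Or.inr (Or.inl ⟨p, rfl⟩)
  have hSθ : ∀ j s, θ j s ∈ S := fun j s => Or.inr (Or.inr ⟨(j, s), rfl⟩)
  have hk : ∀ (p : T) (c : k), algebraMap k L c ∈ others (k := k) y₀ p := by
    intro p c
    exact IntermediateField.algebraMap_mem _ c
  have hAle : ∀ p : T,
      A.toSubring ≤ Subring.closure ((others (k := k) y₀ p : Set L) ∪ S) := by
    intro p
    rw [← hs]
    exact blLe (s : Set L) _ (hk p) S Set.subset_union_left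
  have htr := others_transcendental (k := k) y₀ hind
  have hof := others_finite (k := k) y₀ hfin
  have hst : ∀ (p : T) (s : Ix σ q), ∀ f ∈ others (k := k) y₀ p,
      D s f ∈ others (k := k) y₀ p :=
    fun p s => blStable q ah D jj θ hD T hT hDk p s
  have h1 := fun p : T => blDir d a D θ Z (others (k := k) y₀ p) (y₀ p) (htr p).1 (hof p).1
    (fun s => hst p s) (fun s => blVar q ah D jj θ hD T hT p s _) S hSfin hSa hSθ
  have h1' := fun p : T => blDir d a D θ Z (others (k := k) y₀ p) (y₀ p)⁻¹ (htr p).2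
    (hof p).2 (fun s => hst p s)
    (fun s => blVarInv q ah D jj θ hD T hT p s _ (Subring.subset_closure (Or.inr rfl)))
    S hSfin hSa hSθ
  choose Δ₁ hΔ₁ H₁ using h1
  choose Δ₁' hΔ₁' H₁' using h1'
  obtain ⟨V₁, hV₁, hV₁'⟩ := fd y₀ hind hfin Δ₁ Δ₁' hΔ₁ hΔ₁'
  refine ⟨V₁, hV₁, fun x hx hZ hU hP hint hm => ?_⟩
  obtain ⟨δ, hδ, hkey⟩ := key_line d b q hq a aA ap ah D jj θ hD
    (hF.mov (k := k) hAk hpk D hDk) Z x i₀ j₁ hx hj hZ hU hP w hw1 hw2 hm
  refine ⟨δ, hδ, fun j l => ?_⟩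
  have hint' : ∀ p : T, ∀ i ∉ Z, ∀ J : Sym σ (d i),
      IsIntegral (Subring.closure ((others (k := k) y₀ p : Set L) ∪ S))
        (mon x J / form (a i) x) := fun p i hi J =>
    (hint i hi J).map_of_comp_eq (Subring.inclusion (S := A.toSubring) (hAle p))
      (RingHom.id L) rfl
  apply hV₁'
  intro p
  exact ⟨H₁ p x _ hU (hint' p) hkey j l, H₁' p x _ hU (hint' p) hkey j l⟩

end Pool.Agent.Helper49.LV

end

section

/-!
# LN-BOUNDP: bounded points lie in a finite-dimensional space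

Copy of `Helper8.LV.bounded` (both rounds, `C` empty) with the conclusion `KeyP M` of the key lemma
as a hypothesis (so no numerical hypotheses; use `dir_rows` of `Helper49.LV.Rows` in place of
`dir_one`, and copy `dir_two` without `NumV`, `GoodV`).
-/

set_option autoImplicit false

namespace Pool.Agent.Helper74.LN

open scoped BigOperators
open Pool.Agent.Helper8.LG
open Pool.Agent.Helper8.LV (Fam Mov Over)

private theorem bpInv {L : Type*} [Field L] (D : Derivation ℤ L L) (f : L) :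
    D f⁻¹ = -(f⁻¹ ^ 2) * D f := by
  have h := Derivation.leibniz_inv D f
  rw [h, smul_eq_mul]

private theorem bpDual {L σ ι τ : Type*} [Field L] [DecidableEq σ] [DecidableEq ι] [Fintype τ]
    (d : ι → ℕ) (a : (i : ι) → Sym σ (d i) → L)
    (D : Ix σ d → Derivation ℤ L L) (jj : τ → Ix σ d) (θ : τ → Ix σ d → L)
    (hD : Dual d a D jj θ) (T : Finset (Ix σ d)) (hT : ∀ j, jj j ∉ T) (q : Ix σ d) (p : T) :
    D q (a p.1.1 p.1.2) = if q = p.1 then 1 else 0 := by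
  have h := hD q p.1
  rw [Finset.sum_eq_zero, sub_zero] at h
  · exact h
  · intro j _
    rw [if_neg]
    rintro h1
    exact hT j (h1 ▸ p.2)

private theorem bpStable {k L σ ι τ : Type*} [Field k] [Field L] [Algebra k L]
    [DecidableEq σ] [DecidableEq ι] [Fintype τ]
    (d : ι → ℕ) (a : (i : ι) → Sym σ (d i) → L)
    (D : Ix σ d → Derivation ℤ L L) (jj : τ → Ix σ d) (θ : τ → Ix σ d → L)
    (hD : Dual d a D jj θ) (T : Finset (Ix σ d)) (hT : ∀ j, jj j ∉ T)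
    (hDk : ∀ p (c : k), D p (algebraMap k L c) = 0) (p : T) (q : Ix σ d) :
    ∀ f ∈ others (k := k) (fun p : T => a p.1.1 p.1.2) p,
      D q f ∈ others (k := k) (fun p : T => a p.1.1 p.1.2) p := by
  intro f hf
  have hf' : f ∈ IntermediateField.adjoin k ((fun p : T => a p.1.1 p.1.2) '' {p}ᶜ) := hf
  show D q f ∈ IntermediateField.adjoin k ((fun p : T => a p.1.1 p.1.2) '' {p}ᶜ)
  induction hf' using IntermediateField.adjoin_induction with
  | mem x hx =>
    obtain ⟨r, _, rfl⟩ := hx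
    show D q (a r.1.1 r.1.2) ∈ _
    rw [bpDual d a D jj θ hD T hT q r]
    split_ifs
    · exact one_mem _
    · exact zero_mem _
  | algebraMap c =>
    rw [hDk q c]
    exact zero_mem _
  | add x y hx hy hx' hy' =>
    rw [map_add]
    exact add_mem (hx' hx) (hy' hy)
  | inv x hx hx' =>
    rw [bpInv]
    exact mul_mem (neg_mem (pow_mem (inv_mem hx) 2)) (hx' hx)
  | mul x y hx hy hx' hy' =>
    rw [Derivation.leibniz, smul_eq_mul, smul_eq_mul]
    exact add_mem (mul_mem hx (hy' hy)) (mul_mem hy (hx' hx))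

private theorem bpVar {L σ ι τ : Type*} [Field L] [DecidableEq σ] [DecidableEq ι] [Fintype τ]
    (d : ι → ℕ) (a : (i : ι) → Sym σ (d i) → L)
    (D : Ix σ d → Derivation ℤ L L) (jj : τ → Ix σ d) (θ : τ → Ix σ d → L)
    (hD : Dual d a D jj θ) (T : Finset (Ix σ d)) (hT : ∀ j, jj j ∉ T) (p : T) (q : Ix σ d)
    (R : Subring L) :
    D q (a p.1.1 p.1.2) ∈ R := by
  rw [bpDual d a D jj θ hD T hT q p]
  split_ifs
  · exact one_mem _
  · exact zero_mem _

private theorem bpVarInv {L σ ι τ : Type*} [Field L] [DecidableEq σ] [DecidableEq ι] [Fintype τ]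
    (d : ι → ℕ) (a : (i : ι) → Sym σ (d i) → L)
    (D : Ix σ d → Derivation ℤ L L) (jj : τ → Ix σ d) (θ : τ → Ix σ d → L)
    (hD : Dual d a D jj θ) (T : Finset (Ix σ d)) (hT : ∀ j, jj j ∉ T) (p : T) (q : Ix σ d)
    (R : Subring L) (hR : (a p.1.1 p.1.2)⁻¹ ∈ R) :
    D q (a p.1.1 p.1.2)⁻¹ ∈ R := by
  rw [bpInv]
  exact mul_mem (neg_mem (pow_mem hR 2)) (bpVar d a D jj θ hD T hT p q R)

private theorem bpLe {k L : Type*} [Field k] [Field L] [Algebra k L] (s : Set L)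
    (E₀ : Subfield L) (hk : ∀ c : k, algebraMap k L c ∈ E₀) (S : Set L) (hs : s ⊆ S) :
    (Algebra.adjoin k s).toSubring ≤ Subring.closure ((E₀ : Set L) ∪ S) := by
  intro f hf
  have hf' : f ∈ Algebra.adjoin k s := hf
  induction hf' using Algebra.adjoin_induction with
  | mem x hx => exact Subring.subset_closure (Or.inr (hs hx))
  | algebraMap c => exact Subring.subset_closure (Or.inl (hk c))
  | add x y hx hy hx' hy' => exact add_mem (hx' hx) (hy' hy)
  | mul x y hx hy hx' hy' => exact mul_mem (hx' hx) (hy' hy)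

/-- first round: the poles of `G x_l` are bounded -/
private theorem bp_one {L : Type*} [Field L] [CharZero L] {σ ι τ P : Type*} [Fintype σ]
    [DecidableEq σ] [Fintype ι] [DecidableEq ι] [Fintype τ] [Finite P]
    (d : ι → ℕ) (a : (i : ι) → Sym σ (d i) → L) (D : P → Derivation ℤ L L)
    (θ : τ → P → L) (Z : Finset ι) (M : ℕ)
    (E₀ : Subfield L) (t : L) (ht : Transcendental E₀ t)
    (hfin : FiniteDimensional (Subfield.closure ((E₀ : Set L) ∪ {t})) L)
    (hE₀ : ∀ p, ∀ f ∈ E₀, D p f ∈ E₀)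
    (hDt : ∀ p, D p t ∈ Subring.closure ((E₀ : Set L) ∪ {t}))
    (S : Set L) (hS : S.Finite) (hSa : ∀ p : Ix σ d, a p.1 p.2 ∈ S)
    (hSθ : ∀ j s, θ j s ∈ S) :
    ∃ Δ : L, Δ ≠ 0 ∧ ∀ (x : σ → L) (G : L),
      (∀ i ∉ Z, form (a i) x ≠ 0) →
      (∀ i ∉ Z, ∀ J : Sym σ (d i),
        IsIntegral (Subring.closure ((E₀ : Set L) ∪ S)) (mon x J / form (a i) x)) →
      KeyP M d a D θ Z x G →
      ∀ l, Δ * (G * x l) ∈ intCl E₀ t := by
  obtain ⟨Δ₀, hΔ0, _, _, hrows⟩ :=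
    Pool.Agent.Helper49.LV.dir_rows d a D θ Z E₀ t ht hfin hE₀ hDt S hS hSa hSθ
  obtain ⟨hDed, hFrac⟩ := intCl_dedekind E₀ t ht hfin
  refine ⟨Δ₀ ^ M, pow_ne_zero _ hΔ0, ?_⟩
  intro x G hne hint hkey l
  refine mem_of (intCl E₀ t) _ fun O hO => ?_
  obtain ⟨hb, hθ, hrow⟩ := hrows x hne hint O hO
  exact hkey O Δ₀ hb hθ hrow l

/-- second round: the poles of `x^J/F_i(x)` are bounded -/
private theorem bp_two {k L : Type*} [Field k] [Field L] [CharZero L] [Algebra k L]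
    {σ ι : Type*} [Fintype σ] [DecidableEq σ] [Fintype ι] [DecidableEq ι]
    (d : ι → ℕ) (a : (i : ι) → Sym σ (d i) → L) (Z : Finset ι)
    (E₀ : Subfield L) (hk : ∀ c : k, algebraMap k L c ∈ E₀) (t : L) (ht : Transcendental E₀ t)
    (hfin : FiniteDimensional (Subfield.closure ((E₀ : Set L) ∪ {t})) L)
    (S : Set L) (hS : S.Finite)
    (V : Submodule k L) [FiniteDimensional k V] :
    ∃ Δ : L, Δ ≠ 0 ∧ ∀ (x : σ → L) (G : L),
      (∀ i ∉ Z, form (a i) x ≠ 0) →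
      (∀ i ∉ Z, ∀ J : Sym σ (d i),
        IsIntegral (Subring.closure ((E₀ : Set L) ∪ S)) (mon x J / form (a i) x)) →
      G ≠ 0 → (∀ l, G * x l ∈ V) →
      ∀ i ∉ Z, ∀ J : Sym σ (d i), Δ * (mon x J / form (a i) x) ∈ intCl E₀ t := by
  classical
  obtain ⟨T, hT⟩ : V.FG := Module.Finite.iff_fg.1 inferInstance
  obtain ⟨Δ₀, hΔc, hΔ0, _, hΔS⟩ := exists_bound (P := Empty) E₀ t ht hfin (fun p => p.elim)
    (fun p => p.elim) (fun p => p.elim) (S ∪ (T : Set L)) (hS.union T.finite_toSet)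
  obtain ⟨hDed, hFrac⟩ := intCl_dedekind E₀ t ht hfin
  have hcl : Subring.closure ((E₀ : Set L) ∪ {t}) ≤ intCl E₀ t := by
    intro f hf
    exact isIntegral_algebraMap (R := Subring.closure ((E₀ : Set L) ∪ {t})) (x := ⟨f, hf⟩)
  have hE₀R : ∀ f ∈ E₀, f ∈ intCl E₀ t := fun f hf =>
    hcl (Subring.subset_closure (Or.inl hf))
  have hkR : ∀ c : k, algebraMap k L c ∈ intCl E₀ t := fun c => hE₀R _ (hk c)
  have hΔR : Δ₀ ∈ intCl E₀ t := hcl hΔc
  -- elements of `V` have bounded poles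
  have hVR : ∀ v ∈ V, Δ₀ * v ∈ intCl E₀ t := by
    intro v hv
    rw [← hT] at hv
    induction hv using Submodule.span_induction with
    | mem v hv => exact hΔS v (Or.inr hv)
    | zero => rw [mul_zero]; exact zero_mem _
    | add u v _ _ hu hv => rw [mul_add]; exact add_mem hu hv
    | smul c v _ hv =>
      rw [Algebra.smul_def, mul_left_comm]
      exact mul_mem (hkR c) hv
  -- the constants of `bounded_of`
  have hB : ∀ i : ι, ∃ c : ℕ, ∀ O : ValuationSubring L, intCl E₀ t ≤ O.toSubring →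
      Δ₀⁻¹ ∉ O → ∀ f ∈ dirTwoW V (a i), f ≠ 0 → Δ₀ ^ c * f⁻¹ ∈ O := by
    intro i
    have := dirTwo_finite V (a i)
    exact bounded_of (intCl E₀ t) hkR (dirTwoW V (a i)) Δ₀ hΔR hΔ0
  choose B hB using hB
  set N : ℕ := ∑ i, (B i + d i + 1) with hN
  have hNi : ∀ i, B i + d i + 1 ≤ N := fun i =>
    Finset.single_le_sum (f := fun i => B i + d i + 1) (fun _ _ => Nat.zero_le _)
      (Finset.mem_univ i)
  refine ⟨Δ₀ ^ N, pow_ne_zero _ hΔ0, ?_⟩
  intro x G hnex hint hG hGx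
  -- the monomials at `G x`
  have hmon : ∀ i (J : Sym σ (d i)), Δ₀ ^ d i * mon (fun l => G * x l) J ∈ intCl E₀ t :=
    fun i J => dirTwo_mon_mem (intCl E₀ t) Δ₀ _ (fun l => hVR _ (hGx l)) J
  intro i hiZ J
  refine mem_of (intCl E₀ t) _ fun O hO => ?_
  have hΔO : Δ₀ ∈ O := hO hΔR
  by_cases hinv : Δ₀⁻¹ ∈ O
  · have hA : Subring.closure ((E₀ : Set L) ∪ S) ≤ O.toSubring := by
      rw [Subring.closure_le]
      rintro f (hf | hf)
      · exact hO (hE₀R f hf)
      · have h1 : f = Δ₀⁻¹ * (Δ₀ * f) := by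
          rw [← mul_assoc, inv_mul_cancel₀ hΔ0, one_mul]
        rw [h1]
        exact mul_mem (S := ValuationSubring L) hinv (hO (hΔS f (Or.inl hf)))
    exact mul_mem (pow_mem hΔO N) (dirTwo_int_mem O _ hA (hint i hiZ J))
  · have hne : form (a i) (fun l => G * x l) ≠ 0 := by
      rw [dirTwo_form_mul]
      exact mul_ne_zero (pow_ne_zero _ hG) (hnex i hiZ)
    have h1 := hB i O hO hinv _ (dirTwo_form_mem V (a i) _ hGx) hne
    have h2 : Δ₀ ^ d i * mon (fun l => G * x l) J ∈ O := hO (hmon i J)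
    have h3 : mon x J / form (a i) x
        = mon (fun l => G * x l) J * (form (a i) (fun l => G * x l))⁻¹ := by
      rw [dirTwo_mon_mul, dirTwo_form_mul]
      have := hnex i hiZ
      field_simp
    obtain ⟨r, hr⟩ := Nat.exists_eq_add_of_le (hNi i)
    have h4 : Δ₀ ^ N * (mon x J / form (a i) x) = Δ₀ ^ (r + 1)
        * ((Δ₀ ^ B i * (form (a i) (fun l => G * x l))⁻¹)
          * (Δ₀ ^ d i * mon (fun l => G * x l) J)) := by
      rw [h3, hr]
      ring
    rw [h4]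
    exact mul_mem (pow_mem hΔO _) (mul_mem h1 h2)

theorem bounded_pt {k L : Type*} [Field k] [Field L] [CharZero L] [Algebra k L]
    {σ ι τ : Type*} [Fintype σ] [DecidableEq σ] [Fintype ι] [DecidableEq ι] [Fintype τ]
    (d b q : ι → ℕ) (hd : ∀ i, 0 < d i) (hq : ∀ i, 0 < q i) (a aA : (i : ι) → Sym σ (d i) → L)
    (ap : (i : ι) → Sym σ (b i) → L) (ah : (i : ι) → Sym σ (q i) → L)
    (hF : Fam d b q a aA ap ah) (hAk : Over k aA) (hpk : Over k ap) (T : Finset (Ix σ q))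
    (hind : AlgebraicIndependent k (fun p : T => ah p.1.1 p.1.2))
    (hfin : FiniteDimensional
      (IntermediateField.adjoin k (Set.range fun p : T => ah p.1.1 p.1.2)) L)
    (D : Ix σ q → Derivation ℤ L L) (jj : τ → Ix σ q) (θ : τ → Ix σ q → L)
    (hD : Dual q ah D jj θ) (hT : ∀ j, jj j ∉ T)
    (hDk : ∀ p (c : k), D p (algebraMap k L c) = 0)
    (Z : Finset ι) (i₀ : σ) (M : ℕ) (A : Subalgebra k L) (hA : A.FG) :
    ∃ V : Submodule k L, FiniteDimensional k V ∧ ∀ (x : σ → L) (G : L), x i₀ = 1 →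
      (∀ i ∉ Z, form (a i) x ≠ 0) →
      (∀ i ∉ Z, ∀ J : Sym σ (d i), IsIntegral A (mon x J / form (a i) x)) →
      G ≠ 0 → KeyP M d a D θ Z x G →
      (∀ l, G * x l ∈ V) ∧ ∀ i ∉ Z, ∀ J : Sym σ (d i), mon x J / form (a i) x ∈ V := by
  classical
  obtain ⟨s, hs⟩ := hA
  set y₀ : T → L := fun p : T => ah p.1.1 p.1.2 with hy₀
  set S : Set L := (s : Set L) ∪ (Set.range (fun p : Ix σ d => a p.1 p.2) ∪
    Set.range fun r : τ × Ix σ q => θ r.1 r.2) with hS
  have hSfin : S.Finite :=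
    (s.finite_toSet).union ((Set.finite_range _).union (Set.finite_range _))
  have hSa : ∀ p : Ix σ d, a p.1 p.2 ∈ S := fun p => Or.inr (Or.inl ⟨p, rfl⟩)
  have hSθ : ∀ j s, θ j s ∈ S := fun j s => Or.inr (Or.inr ⟨(j, s), rfl⟩)
  have hk : ∀ (p : T) (c : k), algebraMap k L c ∈ others (k := k) y₀ p := by
    intro p c
    exact IntermediateField.algebraMap_mem _ c
  have hAle : ∀ p : T,
      A.toSubring ≤ Subring.closure ((others (k := k) y₀ p : Set L) ∪ S) := by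
    intro p
    rw [← hs]
    exact bpLe (s : Set L) _ (hk p) S Set.subset_union_left
  have htr := others_transcendental (k := k) y₀ hind
  have hof := others_finite (k := k) y₀ hfin
  have hst : ∀ (p : T) (s : Ix σ q), ∀ f ∈ others (k := k) y₀ p,
      D s f ∈ others (k := k) y₀ p :=
    fun p s => bpStable q ah D jj θ hD T hT hDk p s
  -- first round
  have h1 : ∀ p : T, ∃ Δ : L, Δ ≠ 0 ∧ ∀ (x : σ → L) (G : L),
      (∀ i ∉ Z, form (a i) x ≠ 0) →
      (∀ i ∉ Z, ∀ J : Sym σ (d i),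
        IsIntegral (Subring.closure ((others (k := k) y₀ p : Set L) ∪ S))
          (mon x J / form (a i) x)) →
      KeyP M d a D θ Z x G →
      ∀ l, Δ * (G * x l) ∈ intCl (others (k := k) y₀ p) (y₀ p) := by
    intro p
    exact bp_one d a D θ Z M (others (k := k) y₀ p) (y₀ p) (htr p).1 (hof p).1
      (fun s => hst p s) (fun s => bpVar q ah D jj θ hD T hT p s _) S hSfin hSa hSθ
  have h1' : ∀ p : T, ∃ Δ : L, Δ ≠ 0 ∧ ∀ (x : σ → L) (G : L),
      (∀ i ∉ Z, form (a i) x ≠ 0) →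
      (∀ i ∉ Z, ∀ J : Sym σ (d i),
        IsIntegral (Subring.closure ((others (k := k) y₀ p : Set L) ∪ S))
          (mon x J / form (a i) x)) →
      KeyP M d a D θ Z x G →
      ∀ l, Δ * (G * x l) ∈ intCl (others (k := k) y₀ p) (y₀ p)⁻¹ := by
    intro p
    exact bp_one d a D θ Z M (others (k := k) y₀ p) (y₀ p)⁻¹ (htr p).2 (hof p).2
      (fun s => hst p s)
      (fun s => bpVarInv q ah D jj θ hD T hT p s _ (Subring.subset_closure (Or.inr rfl)))
      S hSfin hSa hSθ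
  choose Δ₁ hΔ₁ H₁ using h1
  choose Δ₁' hΔ₁' H₁' using h1'
  obtain ⟨V₁, hV₁, hV₁'⟩ := fd y₀ hind hfin Δ₁ Δ₁' hΔ₁ hΔ₁'
  -- second round
  have h2 : ∀ p : T, ∃ Δ : L, Δ ≠ 0 ∧ ∀ (x : σ → L) (G : L),
      (∀ i ∉ Z, form (a i) x ≠ 0) →
      (∀ i ∉ Z, ∀ J : Sym σ (d i),
        IsIntegral (Subring.closure ((others (k := k) y₀ p : Set L) ∪ S))
          (mon x J / form (a i) x)) →
      G ≠ 0 → (∀ l, G * x l ∈ V₁) →
      ∀ i ∉ Z, ∀ J : Sym σ (d i),
        Δ * (mon x J / form (a i) x) ∈ intCl (others (k := k) y₀ p) (y₀ p) := by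
    intro p
    exact bp_two d a Z (others (k := k) y₀ p) (hk p) (y₀ p) (htr p).1 (hof p).1 S hSfin V₁
  have h2' : ∀ p : T, ∃ Δ : L, Δ ≠ 0 ∧ ∀ (x : σ → L) (G : L),
      (∀ i ∉ Z, form (a i) x ≠ 0) →
      (∀ i ∉ Z, ∀ J : Sym σ (d i),
        IsIntegral (Subring.closure ((others (k := k) y₀ p : Set L) ∪ S))
          (mon x J / form (a i) x)) →
      G ≠ 0 → (∀ l, G * x l ∈ V₁) →
      ∀ i ∉ Z, ∀ J : Sym σ (d i),
        Δ * (mon x J / form (a i) x) ∈ intCl (others (k := k) y₀ p) (y₀ p)⁻¹ := by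
    intro p
    exact bp_two d a Z (others (k := k) y₀ p) (hk p) (y₀ p)⁻¹ (htr p).2 (hof p).2 S hSfin V₁
  choose Δ₂ hΔ₂ H₂ using h2
  choose Δ₂' hΔ₂' H₂' using h2'
  obtain ⟨V₂, hV₂, hV₂'⟩ := fd y₀ hind hfin Δ₂ Δ₂' hΔ₂ hΔ₂'
  have := hV₁
  have := hV₂
  refine ⟨V₁ ⊔ V₂, inferInstance, ?_⟩
  intro x G _ hne hint hG hKey
  have hi : ∀ p : T, ∀ i ∉ Z, ∀ J : Sym σ (d i),
      IsIntegral (Subring.closure ((others (k := k) y₀ p : Set L) ∪ S))
        (mon x J / form (a i) x) :=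
    fun p i hZ J => (hint i hZ J).map_of_comp_eq (Subring.inclusion (hAle p)) (RingHom.id L) rfl
  have hGx : ∀ l, G * x l ∈ V₁ := by
    intro l
    apply hV₁'
    intro p
    exact ⟨H₁ p x G hne (hi p) hKey l, H₁' p x G hne (hi p) hKey l⟩
  refine ⟨fun l => Submodule.mem_sup_left (hGx l), ?_⟩
  intro i hiZ J
  apply Submodule.mem_sup_right
  apply hV₂'
  intro p
  exact ⟨H₂ p x G hne (hi p) hG hGx i hiZ J, H₂' p x G hne (hi p) hG hGx i hiZ J⟩

end Pool.Agent.Helper74.LN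

end

section

/-!
# LN-BOUNDL: bounded lines lie in a finite-dimensional space

Copy of `Helper49.LV.bounded_line` (or of the first round of `Helper8.LV.bounded`) with the
conclusion `KeyL` of `k2` as a hypothesis; there are no rows.
-/

set_option autoImplicit false

namespace Pool.Agent.Helper74.LN

open scoped BigOperators
open Pool.Agent.Helper8.LG
open Pool.Agent.Helper8.LV (Fam Mov Over)

private theorem bnInv {L : Type*} [Field L] (D : Derivation ℤ L L) (f : L) :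
    D f⁻¹ = -(f⁻¹ ^ 2) * D f := by
  have h := Derivation.leibniz_inv D f
  rw [h, smul_eq_mul]

private theorem bnDual {L σ ι τ : Type*} [Field L] [DecidableEq σ] [DecidableEq ι] [Fintype τ]
    (d : ι → ℕ) (a : (i : ι) → Sym σ (d i) → L)
    (D : Ix σ d → Derivation ℤ L L) (jj : τ → Ix σ d) (θ : τ → Ix σ d → L)
    (hD : Dual d a D jj θ) (T : Finset (Ix σ d)) (hT : ∀ j, jj j ∉ T) (q : Ix σ d) (p : T) :
    D q (a p.1.1 p.1.2) = if q = p.1 then 1 else 0 := by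
  have h := hD q p.1
  rw [Finset.sum_eq_zero, sub_zero] at h
  · exact h
  · intro j _
    rw [if_neg]
    rintro h1
    exact hT j (h1 ▸ p.2)

private theorem bnStable {k L σ ι τ : Type*} [Field k] [Field L] [Algebra k L]
    [DecidableEq σ] [DecidableEq ι] [Fintype τ]
    (d : ι → ℕ) (a : (i : ι) → Sym σ (d i) → L)
    (D : Ix σ d → Derivation ℤ L L) (jj : τ → Ix σ d) (θ : τ → Ix σ d → L)
    (hD : Dual d a D jj θ) (T : Finset (Ix σ d)) (hT : ∀ j, jj j ∉ T)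
    (hDk : ∀ p (c : k), D p (algebraMap k L c) = 0) (p : T) (q : Ix σ d) :
    ∀ f ∈ others (k := k) (fun p : T => a p.1.1 p.1.2) p,
      D q f ∈ others (k := k) (fun p : T => a p.1.1 p.1.2) p := by
  intro f hf
  have hf' : f ∈ IntermediateField.adjoin k ((fun p : T => a p.1.1 p.1.2) '' {p}ᶜ) := hf
  show D q f ∈ IntermediateField.adjoin k ((fun p : T => a p.1.1 p.1.2) '' {p}ᶜ)
  induction hf' using IntermediateField.adjoin_induction with
  | mem x hx =>
    obtain ⟨r, _, rfl⟩ := hx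
    show D q (a r.1.1 r.1.2) ∈ _
    rw [bnDual d a D jj θ hD T hT q r]
    split_ifs
    · exact one_mem _
    · exact zero_mem _
  | algebraMap c =>
    rw [hDk q c]
    exact zero_mem _
  | add x y hx hy hx' hy' =>
    rw [map_add]
    exact add_mem (hx' hx) (hy' hy)
  | inv x hx hx' =>
    rw [bnInv]
    exact mul_mem (neg_mem (pow_mem (inv_mem hx) 2)) (hx' hx)
  | mul x y hx hy hx' hy' =>
    rw [Derivation.leibniz, smul_eq_mul, smul_eq_mul]
    exact add_mem (mul_mem hx (hy' hy)) (mul_mem hy (hx' hx))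

private theorem bnVar {L σ ι τ : Type*} [Field L] [DecidableEq σ] [DecidableEq ι] [Fintype τ]
    (d : ι → ℕ) (a : (i : ι) → Sym σ (d i) → L)
    (D : Ix σ d → Derivation ℤ L L) (jj : τ → Ix σ d) (θ : τ → Ix σ d → L)
    (hD : Dual d a D jj θ) (T : Finset (Ix σ d)) (hT : ∀ j, jj j ∉ T) (p : T) (q : Ix σ d)
    (R : Subring L) :
    D q (a p.1.1 p.1.2) ∈ R := by
  rw [bnDual d a D jj θ hD T hT q p]
  split_ifs
  · exact one_mem _
  · exact zero_mem _

private theorem bnVarInv {L σ ι τ : Type*} [Field L] [DecidableEq σ] [DecidableEq ι] [Fintype τ]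
    (d : ι → ℕ) (a : (i : ι) → Sym σ (d i) → L)
    (D : Ix σ d → Derivation ℤ L L) (jj : τ → Ix σ d) (θ : τ → Ix σ d → L)
    (hD : Dual d a D jj θ) (T : Finset (Ix σ d)) (hT : ∀ j, jj j ∉ T) (p : T) (q : Ix σ d)
    (R : Subring L) (hR : (a p.1.1 p.1.2)⁻¹ ∈ R) :
    D q (a p.1.1 p.1.2)⁻¹ ∈ R := by
  rw [bnInv]
  exact mul_mem (neg_mem (pow_mem hR 2)) (bnVar d a D jj θ hD T hT p q R)

/-- In one direction the entries have bounded poles. -/
private theorem bnDir {L : Type*} [Field L] [CharZero L] {σ τ : Type*} [Fintype σ]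
    [DecidableEq σ] [Fintype τ] {d : ℕ} (D : Sym σ d → Derivation ℤ L L)
    (θ : τ → Sym σ d → L)
    (E₀ : Subfield L) (t : L) (ht : Transcendental E₀ t)
    (hfin : FiniteDimensional (Subfield.closure ((E₀ : Set L) ∪ {t})) L)
    (hE₀ : ∀ p, ∀ f ∈ E₀, D p f ∈ E₀)
    (hDt : ∀ p, D p t ∈ Subring.closure ((E₀ : Set L) ∪ {t})) :
    ∃ Δ : L, Δ ≠ 0 ∧ ∀ (z : Fin 2 → σ → L) (G : L), KeyL D θ z G →
      ∀ j l, Δ * (G * pl z j l) ∈ intCl E₀ t := by
  obtain ⟨Δ₀, hΔc, hΔ0, hΔD, hΔS⟩ := exists_bound E₀ t ht hfin D hE₀ hDt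
    (Set.range fun r : τ × Sym σ d => θ r.1 r.2) (Set.finite_range _)
  obtain ⟨hDed, hFrac⟩ := intCl_dedekind E₀ t ht hfin
  have hcl : Subring.closure ((E₀ : Set L) ∪ {t}) ≤ intCl E₀ t := by
    intro f hf
    exact isIntegral_algebraMap (R := Subring.closure ((E₀ : Set L) ∪ {t})) (x := ⟨f, hf⟩)
  have hΔR : Δ₀ ∈ intCl E₀ t := hcl hΔc
  refine ⟨Δ₀ ^ (2 * Fintype.card σ + Fintype.card τ), pow_ne_zero _ hΔ0,
    fun z G hkey j l => ?_⟩
  refine mem_of (intCl E₀ t) _ fun O hO => ?_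
  exact hkey O Δ₀ (bdd_of (intCl E₀ t) D Δ₀ hΔR hΔD O hO)
    (fun j s => hO (hΔS _ ⟨(j, s), rfl⟩)) j l

theorem bounded_ln {k L : Type*} [Field k] [Field L] [CharZero L] [Algebra k L]
    {σ ι τ : Type*} [Fintype σ] [DecidableEq σ] [Fintype ι] [DecidableEq ι] [Unique ι]
    [Fintype τ] (q : ι → ℕ) (ah : (i : ι) → Sym σ (q i) → L) (T : Finset (Ix σ q))
    (hind : AlgebraicIndependent k (fun p : T => ah p.1.1 p.1.2))
    (hfin : FiniteDimensional
      (IntermediateField.adjoin k (Set.range fun p : T => ah p.1.1 p.1.2)) L)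
    (D : Ix σ q → Derivation ℤ L L) (jj : τ → Ix σ q) (θ : τ → Ix σ q → L)
    (hD : Dual q ah D jj θ) (hT : ∀ j, jj j ∉ T)
    (hDk : ∀ p (c : k), D p (algebraMap k L c) = 0) :
    ∃ V : Submodule k L, FiniteDimensional k V ∧ ∀ (z : Fin 2 → σ → L) (G : L),
      KeyL (fun s : Sym σ (q default) => D ⟨default, s⟩)
        (fun j (s : Sym σ (q default)) => θ j ⟨default, s⟩) z G → ∀ j l, G * pl z j l ∈ V := by
  classical
  set y₀ : T → L := fun p : T => ah p.1.1 p.1.2 with hy₀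
  have htr := others_transcendental (k := k) y₀ hind
  have hof := others_finite (k := k) y₀ hfin
  have hst : ∀ (p : T) (s : Ix σ q), ∀ f ∈ others (k := k) y₀ p,
      D s f ∈ others (k := k) y₀ p :=
    fun p s => bnStable q ah D jj θ hD T hT hDk p s
  have h1 := fun p : T => bnDir (fun s : Sym σ (q default) => D ⟨default, s⟩)
    (fun j (s : Sym σ (q default)) => θ j ⟨default, s⟩) (others (k := k) y₀ p) (y₀ p)
    (htr p).1 (hof p).1 (fun s => hst p ⟨default, s⟩)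
    (fun s => bnVar q ah D jj θ hD T hT p ⟨default, s⟩ _)
  have h1' := fun p : T => bnDir (fun s : Sym σ (q default) => D ⟨default, s⟩)
    (fun j (s : Sym σ (q default)) => θ j ⟨default, s⟩) (others (k := k) y₀ p) (y₀ p)⁻¹
    (htr p).2 (hof p).2 (fun s => hst p ⟨default, s⟩)
    (fun s => bnVarInv q ah D jj θ hD T hT p ⟨default, s⟩ _
      (Subring.subset_closure (Or.inr rfl)))
  choose Δ₁ hΔ₁ H₁ using h1
  choose Δ₁' hΔ₁' H₁' using h1'
  obtain ⟨V₁, hV₁, hV₁'⟩ := fd y₀ hind hfin Δ₁ Δ₁' hΔ₁ hΔ₁'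
  refine ⟨V₁, hV₁, fun z G hkey j l => ?_⟩
  apply hV₁'
  intro p
  exact ⟨H₁ p z G hkey j l, H₁' p z G hkey j l⟩

end Pool.Agent.Helper74.LN

end
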