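import Pool.Agent.Helper74.MG.T20
import Pool.Agent.Helper74.MG.T24
import Pool.Agent.Helper74.MG.T08
import Pool.Agent.Helper74.MG.T11
import Pool.Agent.Helper74.MG.T22

section

/-!
# LV-GL: lines and moving linear systems
-/

set_option autoImplicit false

namespace Pool.Agent.Helper10.LV

open scoped BigOperators
open Pool.Agent.Helper8.LG Pool.Agent.Helper8.LV Pool.Agent.Helper49.LG Pool.Agent.Helper10.LB

/-- **The killer derivation.** -/
theorem exists_killer_comb {E : Type*} [Field E] {σ ι τ κ : Type*} [Fintype σ] [DecidableEq σ]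
    [Fintype ι] [DecidableEq ι] [Fintype τ] [Fintype κ] (d : ι → ℕ)
    (a : (i : ι) → Sym σ (d i) → E) (D : Ix σ d → Derivation ℤ E E)
    (jj : τ → Ix σ d) (θ : τ → Ix σ d → E) (hD : Dual d a D jj θ) (α β : σ) (z : κ → E)
    (hcard : Fintype.card κ + Fintype.card τ < ∑ i, (d i + 1)) :
    ∃ (f : (i : ι) → Fin (d i + 1) → E) (δ : Derivation ℤ E E), (∃ i r, f i r ≠ 0) ∧
      (∀ m, δ (z m) = 0) ∧ (∀ y, (∀ s, D s y = 0) → δ y = 0) ∧
      ∀ (i : ι) (x : σ → E), (∀ l, δ (x l) = 0) →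
        δ (form (a i) x) = ∑ r : Fin (d i + 1), f i r * (x α ^ (d i - r) * x β ^ (r : ℕ)) := by
  classical
  set Λ : ((Σ i : ι, Fin (d i + 1)) → E) →ₗ[E] (κ ⊕ τ → E) :=
    { toFun := fun f => Sum.elim (fun m => ∑ s, f s * D (abi d α β s) (z m))
        fun j => ∑ s, f s * θ j (abi d α β s)
      map_add' := fun f g => by
        funext t
        rcases t with m | j <;> simp [add_mul, Finset.sum_add_distrib]
      map_smul' := fun c f => by
        funext t
        rcases t with m | j <;> simp [Finset.mul_sum, mul_assoc] } with hΛ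
  have hker : LinearMap.ker Λ ≠ ⊥ := by
    apply LinearMap.ker_ne_bot_of_finrank_lt
    rw [Module.finrank_fintype_fun_eq_card, Module.finrank_fintype_fun_eq_card, Fintype.card_sum,
      Fintype.card_sigma]
    simpa using hcard
  obtain ⟨f, hf, hf0⟩ := (Submodule.ne_bot_iff _).1 hker
  have hf1 : ∀ m, ∑ s, f s * D (abi d α β s) (z m) = 0 := fun m =>
    congrFun (LinearMap.mem_ker.1 hf) (Sum.inl m)
  have hf2 : ∀ j, ∑ s, f s * θ j (abi d α β s) = 0 := fun j =>
    congrFun (LinearMap.mem_ker.1 hf) (Sum.inr j)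
  set δ : Derivation ℤ E E := ∑ s, f s • D (abi d α β s) with hδ
  have hδa : ∀ y, δ y = ∑ s, f s * D (abi d α β s) y := by
    intro y
    have h1 : δ y = (Derivation.coeFnAddMonoidHom δ) y := rfl
    rw [h1, hδ, map_sum, Finset.sum_apply]
    rfl
  have hδq : ∀ q : Ix σ d, δ (a q.1 q.2) = ∑ s, if abi d α β s = q then f s else 0 := by
    intro q
    rw [hδa]
    have h1 : ∀ s, f s * D (abi d α β s) (a q.1 q.2) = (if abi d α β s = q then f s else 0) -
        ∑ j, if jj j = q then f s * θ j (abi d α β s) else 0 := by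
      intro s
      rw [hD (abi d α β s) q, mul_sub, mul_ite, mul_one, mul_zero, Finset.mul_sum]
      congr 1
      exact Finset.sum_congr rfl fun j _ => by rw [mul_ite, mul_zero]
    rw [Finset.sum_congr rfl fun s _ => h1 s, Finset.sum_sub_distrib, Finset.sum_comm]
    have h2 : ∑ j, ∑ s, (if jj j = q then f s * θ j (abi d α β s) else 0) = 0 := by
      refine Finset.sum_eq_zero fun j _ => ?_
      split_ifs
      · exact hf2 j
      · exact Finset.sum_const_zero
    rw [h2, sub_zero]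
  refine ⟨fun i r => f ⟨i, r⟩, δ, ?_, fun m => by rw [hδa]; exact hf1 m, fun y hy => by
    rw [hδa]
    exact Finset.sum_eq_zero fun s _ => by rw [hy, mul_zero], ?_⟩
  · by_contra h
    push Not at h
    exact hf0 (funext fun s => h s.1 s.2)
  · intro i x hx
    obtain ⟨g, hg, _⟩ := Pool.Agent.Helper8.LG.kf_grad_form (a i) x
    rw [hg δ, Finset.sum_eq_zero (s := Finset.univ) (f := fun l => g l * δ (x l))
      (fun l _ => by rw [hx, mul_zero]), add_zero]
    have h1 : ∀ J : Sym σ (d i), δ (a i J) * mon x J =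
        ∑ s, if abi d α β s = ⟨i, J⟩ then f s * mon x J else 0 := by
      intro J
      rw [hδq ⟨i, J⟩, Finset.sum_mul]
      exact Finset.sum_congr rfl fun s _ => by rw [ite_mul, zero_mul]
    rw [Finset.sum_congr rfl fun J _ => h1 J, Finset.sum_comm, ← Finset.univ_sigma_univ,
      Finset.sum_sigma, Finset.sum_eq_single i]
    · refine Finset.sum_congr rfl fun r _ => ?_
      rw [Finset.sum_eq_single (ab α β (d i) r)]
      · rw [if_pos (show abi d α β ⟨i, r⟩ = ⟨i, ab α β (d i) r⟩ from rfl), mon_ab]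
      · intro J _ hJ
        rw [if_neg]
        intro h
        apply hJ
        unfold abi at h
        rw [Sigma.mk.injEq] at h
        exact (eq_of_heq h.2).symm
      · intro h
        exact absurd (Finset.mem_univ _) h
    · intro i' _ hi'
      refine Finset.sum_eq_zero fun r _ => Finset.sum_eq_zero fun J _ => ?_
      rw [if_neg]
      intro h
      exact hi' (congrArg Sigma.fst h)
    · intro h
      exact absurd (Finset.mem_univ _) h

/-- **The killer derivation**, moving linear systems. -/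
theorem exists_killer {E : Type*} [Field E] {σ ι τ κ : Type*} [Fintype σ] [DecidableEq σ]
    [Fintype ι] [DecidableEq ι] [Fintype τ] [Fintype κ] (d b q : ι → ℕ)
    (a aA : (i : ι) → Sym σ (d i) → E) (ap : (i : ι) → Sym σ (b i) → E)
    (ah : (i : ι) → Sym σ (q i) → E) (D : Ix σ q → Derivation ℤ E E)
    (jj : τ → Ix σ q) (θ : τ → Ix σ q → E) (hD : Dual q ah D jj θ)
    (hM : Mov d b q a aA ap ah D) (α β : σ) (z : κ → E)
    (hcard : Fintype.card κ + Fintype.card τ < ∑ i, (q i + 1)) :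
    ∃ (f : (i : ι) → Fin (q i + 1) → E) (δ : Derivation ℤ E E), (∃ i r, f i r ≠ 0) ∧
      (∀ m, δ (z m) = 0) ∧ ∀ (i : ι) (x : σ → E), (∀ l, δ (x l) = 0) →
        δ (form (a i) x) = form (ap i) x *
          ∑ r : Fin (q i + 1), f i r * (x α ^ (q i - r) * x β ^ (r : ℕ)) := by
  obtain ⟨f, δ, hf, hz, hk, hform⟩ := exists_killer_comb q ah D jj θ hD α β z hcard
  refine ⟨f, δ, hf, hz, fun i x hx => ?_⟩
  have h1 : form (a i) x = form (aA i) x + form (ap i) x * form (ah i) x :=
    mov_form hM i x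
  have h0 : ∀ (n : ℕ) (c : Sym σ n → E), (∀ J, δ (c J) = 0) → δ (form c x) = 0 := by
    intro n c hc
    obtain ⟨g, hg, _⟩ := Pool.Agent.Helper8.LG.kf_grad_form c x
    rw [hg δ, Finset.sum_eq_zero fun J _ => by rw [hc, zero_mul],
      Finset.sum_eq_zero fun l _ => by rw [hx, mul_zero], add_zero]
  rw [h1, map_add, Derivation.leibniz, h0 _ _ fun J => hk _ fun s => hM.DA s i J,
    h0 _ _ fun J => hk _ fun s => hM.Dp s i J, hform i x hx, smul_zero, add_zero, zero_add,
    smul_eq_mul]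

/-- a form which vanishes at the points `p + n p'` vanishes on the line -/
theorem line_zero {E : Type*} [Field E] [CharZero E] {σ : Type*} [Fintype σ] [DecidableEq σ]
    {n : ℕ} (a : Sym σ n → E) (p p' : σ → E)
    (h : ∀ m : ℕ, form a (fun l => p l + m * p' l) = 0) (x y : E) :
    form a (fun l => x * p l + y * p' l) = 0 := by
  have h0 : lf a p p' = 0 := by
    refine Polynomial.eq_zero_of_infinite_isRoot _ ?_
    refine Set.infinite_of_injective_forall_mem (f := fun m : ℕ => (m : E)) Nat.cast_injective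
      fun m => ?_
    show (lf a p p').eval (m : E) = 0
    rw [lf_eval]
    exact h m
  by_cases hx : x = 0
  · have h1 : form a p' = 0 := by rw [← lf_coeff_top a p p', h0, Polynomial.coeff_zero]
    have h2 : (fun l => x * p l + y * p' l) = fun l => y * p' l := by
      funext l
      rw [hx, zero_mul, zero_add]
    rw [h2, dirTwo_form_mul, h1, mul_zero]
  · have h1 : form a (fun l => p l + y / x * p' l) = 0 := by
      rw [← lf_eval, h0, Polynomial.eval_zero]
    have h2 : (fun l => x * p l + y * p' l) = fun l => x * (p l + y / x * p' l) := by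
      funext l
      field_simp
    rw [h2, dirTwo_form_mul, h1, mul_zero]

/-- a binary form times a form which is not zero on the line -/
theorem zero_of_nat_mul {E : Type*} [Field E] [CharZero E] {σ : Type*} [Fintype σ]
    [DecidableEq σ] {n : ℕ} (a : Sym σ n → E) (p p' : σ → E)
    (hP : ∃ x y : E, form a (fun l => x * p l + y * p' l) ≠ 0) (m : ℕ) (f : Fin (m + 1) → E)
    (α β : σ) (hdet : p α * p' β - p β * p' α ≠ 0)
    (h : ∀ t : ℕ, form a (fun l => p l + t * p' l) *
      ∑ r : Fin (m + 1), f r * ((p α + t * p' α) ^ (m - r) * (p β + t * p' β) ^ (r : ℕ)) = 0)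
    (r : Fin (m + 1)) : f r = 0 := by
  classical
  set φ : Polynomial E := ∑ r : Fin (m + 1), Polynomial.C (f r) *
    ((Polynomial.C (p α) + Polynomial.X * Polynomial.C (p' α)) ^ (m - r) *
      (Polynomial.C (p β) + Polynomial.X * Polynomial.C (p' β)) ^ (r : ℕ)) with hφ
  have hev : ∀ t : E, φ.eval t = ∑ r : Fin (m + 1),
      f r * ((p α + t * p' α) ^ (m - r) * (p β + t * p' β) ^ (r : ℕ)) := by
    intro t
    rw [hφ, Polynomial.eval_finsetSum]
    simp only [Polynomial.eval_mul, Polynomial.eval_C, Polynomial.eval_pow, Polynomial.eval_add,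
      Polynomial.eval_X]
  have h0 : lf a p p' * φ = 0 := by
    refine Polynomial.eq_zero_of_infinite_isRoot _ ?_
    refine Set.infinite_of_injective_forall_mem (f := fun t : ℕ => (t : E)) Nat.cast_injective
      fun t => ?_
    show (lf a p p' * φ).eval (t : E) = 0
    rw [Polynomial.eval_mul, lf_eval, hev]
    exact h t
  rcases mul_eq_zero.1 h0 with h1 | h1
  · exfalso
    obtain ⟨x, y, hxy⟩ := hP
    apply hxy
    refine line_zero a p p' (fun t => ?_) x y
    rw [← lf_eval, h1, Polynomial.eval_zero]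
  · refine zero_of_nat m f (p α) (p β) (p' α) (p' β) hdet (fun t => ?_) r
    rw [← hev, h1, Polynomial.eval_zero]

/-- The forms do not all vanish in at most two points of a line. -/
theorem no_two {E : Type*} [Field E] [CharZero E] {σ ι τ : Type*} [Fintype σ] [DecidableEq σ]
    [Fintype ι] [DecidableEq ι] [Fintype τ] (d b q : ι → ℕ)
    (a aA : (i : ι) → Sym σ (d i) → E) (ap : (i : ι) → Sym σ (b i) → E)
    (ah : (i : ι) → Sym σ (q i) → E) (D : Ix σ q → Derivation ℤ E E)
    (jj : τ → Ix σ q) (θ : τ → Ix σ q → E) (hD : Dual q ah D jj θ)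
    (hM : Mov d b q a aA ap ah D)
    (p p' : σ → E) (α β : σ) (hdet : p α * p' β - p β * p' α ≠ 0)
    (hP : ∀ i, ∃ x y : E, form (ap i) (fun l => x * p l + y * p' l) ≠ 0)
    (ip iq : σ) (hp : p ip = 1) (hq : p' iq = 1) (U : Finset ι) (e : ι → E) (c : ι → ℕ)
    (he : ∀ i ∉ U, e i = 0)
    (h : ∀ (i : ι) (n : ℕ), form (a i) (fun l => p l + n * p' l) = e i * (n : E) ^ c i)
    (hcount : 2 * Fintype.card σ + U.card + Fintype.card τ < ∑ i, (q i + 1) + 2) : False := by
  classical
  have hcard : ∀ j : σ, Fintype.card {l : σ // l ≠ j} + 1 = Fintype.card σ := by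
    intro j
    have h1 : Fintype.card {l : σ // l ≠ j} = Fintype.card σ - 1 := by
      rw [Fintype.card_subtype_compl (fun l => l = j)]
      simp
    have h2 : 0 < Fintype.card σ := Fintype.card_pos_iff.2 ⟨j⟩
    omega
  obtain ⟨f, δ, ⟨i, r, hfr⟩, hδ, hform⟩ := exists_killer d b q a aA ap ah D jj θ hD hM α β
    (κ := ({l : σ // l ≠ ip} ⊕ {l : σ // l ≠ iq}) ⊕ U)
    (Sum.elim (Sum.elim (fun l => p l) fun l => p' l) fun i => e i) (by
      rw [Fintype.card_sum, Fintype.card_sum, Fintype.card_coe]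
      have h1 := hcard ip
      have h2 := hcard iq
      omega)
  have hδp : ∀ l, δ (p l) = 0 := by
    intro l
    by_cases h1 : l = ip
    · rw [h1, hp, Derivation.map_one_eq_zero]
    · exact hδ (Sum.inl (Sum.inl ⟨l, h1⟩))
  have hδq : ∀ l, δ (p' l) = 0 := by
    intro l
    by_cases h1 : l = iq
    · rw [h1, hq, Derivation.map_one_eq_zero]
    · exact hδ (Sum.inl (Sum.inr ⟨l, h1⟩))
  have hδe : ∀ i, δ (e i) = 0 := by
    intro i
    by_cases h1 : i ∈ U
    · exact hδ (Sum.inr ⟨i, h1⟩)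
    · rw [he i h1, map_zero]
  apply hfr
  refine zero_of_nat_mul (ap i) p p' (hP i) (q i) (f i) α β hdet ?_ r
  intro n
  rw [← hform i (fun l => p l + n * p' l), h i n, Derivation.leibniz, hδe, smul_zero, add_zero]
  · have h1 : δ ((n : E) ^ c i) = 0 := by
      rw [Derivation.leibniz_pow, Derivation.map_natCast, smul_zero, smul_zero]
    rw [h1, smul_zero]
  · intro l
    rw [map_add, hδp, zero_add, Derivation.leibniz, hδq, smul_zero, zero_add,
      Derivation.map_natCast, smul_zero]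

end Pool.Agent.Helper10.LV

end

section

/-! # LV-NT: lines meet the divisor in at least three points -/

set_option autoImplicit false

namespace Pool.Agent.Helper10.LV

open scoped BigOperators
open Polynomial Pool.Agent.Helper8.LG Pool.Agent.Helper8.LV Pool.Agent.Helper10.LB

private theorem ntv_scale {K σ : Type*} [Field K] [Fintype σ] [DecidableEq σ] {n : ℕ}
    (a : Sym σ n → K) (c : K) (x : σ → K) : form a (fun l => c * x l) = c ^ n * form a x := by
  unfold form
  rw [Finset.mul_sum]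
  refine Finset.sum_congr rfl fun J _ => ?_
  have h : mon (fun l => c * x l) J = c ^ n * mon x J := by
    unfold mon
    rw [Multiset.prod_map_mul, Multiset.map_const', Multiset.prod_replicate, Sym.card_coe]
  rw [h]
  ring

/-- the homogeneous version of `lf` with two roots -/
private theorem ntv_hom {K : Type*} [Field K] {σ : Type*} [Fintype σ] [DecidableEq σ] {n : ℕ}
    (a : Sym σ n → K) (u v : σ → K) (ρ₁ ρ₂ : K) (α β : ℕ) (hαβ : α + β = n)
    (h : lf a u v = C (form a v) * ((X - C ρ₁) ^ α * (X - C ρ₂) ^ β)) (x y : K) :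
    form a (fun l => x * (u l + ρ₁ * v l) + y * (u l + ρ₂ * v l)) =
      form a v * ((y * (ρ₂ - ρ₁)) ^ α * (x * (ρ₁ - ρ₂)) ^ β) := by
  by_cases hxy : x + y = 0
  · have hx : x = -y := by linear_combination hxy
    have h1 : (fun l => x * (u l + ρ₁ * v l) + y * (u l + ρ₂ * v l)) =
        fun l => (y * (ρ₂ - ρ₁)) * v l := by
      funext l
      rw [hx]
      ring
    have h2 : x * (ρ₁ - ρ₂) = y * (ρ₂ - ρ₁) := by
      rw [hx]
      ring
    rw [h1, ntv_scale, h2, ← pow_add, hαβ]
    ring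
  · set z : K := (x * ρ₁ + y * ρ₂) / (x + y) with hz
    have hz1 : (x + y) * z = x * ρ₁ + y * ρ₂ := by
      rw [hz]
      field_simp
    have h1 : (fun l => x * (u l + ρ₁ * v l) + y * (u l + ρ₂ * v l)) =
        fun l => (x + y) * (u l + z * v l) := by
      funext l
      linear_combination (-v l) * hz1
    have h2 : y * (ρ₂ - ρ₁) = (x + y) * (z - ρ₁) := by
      linear_combination -hz1
    have h3 : x * (ρ₁ - ρ₂) = (x + y) * (z - ρ₂) := by
      linear_combination -hz1
    have h5 : (x + y) ^ n = (x + y) ^ α * (x + y) ^ β := by rw [← pow_add, hαβ]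
    rw [h1, ntv_scale, ← lf_eval, h, h2, h3, mul_pow, mul_pow, h5]
    simp only [eval_mul, eval_C, eval_pow, eval_sub, eval_X]
    ring

/-- the factorisation -/
private theorem ntv_fact {K : Type*} [Field K] (f h : K[X]) (hf0 : f ≠ 0) (hh0 : h ≠ 0)
    (hh : h.Splits) (k : ℕ) (hdvd : f ∣ h ^ k) (ρ₁ ρ₂ : K) (hρ : ρ₁ ≠ ρ₂)
    (hr : ∀ r ∈ h.roots, r = ρ₁ ∨ r = ρ₂) :
    ∃ α β : ℕ, α + β = f.natDegree ∧
      f = C f.leadingCoeff * ((X - C ρ₁) ^ α * (X - C ρ₂) ^ β) := by
  classical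
  have hs : f.Splits := (hh.pow k).of_dvd (pow_ne_zero _ hh0) hdvd
  have hsub : f.roots.toFinset ⊆ {ρ₁, ρ₂} := by
    intro r hr1
    rw [Multiset.mem_toFinset, mem_roots hf0] at hr1
    have h1 : (h ^ k).IsRoot r := hr1.dvd hdvd
    rw [IsRoot, eval_pow] at h1
    have h2 : r ∈ h.roots := by
      rw [mem_roots hh0]
      exact eq_zero_of_pow_eq_zero h1
    rcases hr r h2 with h3 | h3
    · simp [h3]
    · simp [h3]
  refine ⟨f.roots.count ρ₁, f.roots.count ρ₂, ?_, ?_⟩
  · rw [hs.natDegree_eq_card_roots, ← Multiset.toFinset_sum_count_eq,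
      Finset.sum_subset hsub fun r _ h1 => ?_, Finset.sum_pair hρ]
    rw [Multiset.mem_toFinset] at h1
    exact Multiset.count_eq_zero_of_notMem h1
  · conv_lhs => rw [hs.eq_prod_roots]
    congr 1
    rw [Finset.prod_multiset_map_count, Finset.prod_subset hsub fun r _ h1 => ?_,
      Finset.prod_pair hρ]
    rw [Multiset.mem_toFinset] at h1
    rw [Multiset.count_eq_zero_of_notMem h1, pow_zero]

/-- at most two roots -/
private theorem ntv_roots {K : Type*} [Field K] (h : K[X]) (hn : h.natDegree ≤ 2) :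
    ∃ ρ₁ ρ₂ : K, ρ₁ ≠ ρ₂ ∧ ∀ r ∈ h.roots, r = ρ₁ ∨ r = ρ₂ := by
  classical
  have h1 : h.roots.toFinset.card ≤ 2 :=
    (Multiset.toFinset_card_le _).trans ((card_roots' h).trans hn)
  rcases Nat.lt_or_ge h.roots.toFinset.card 2 with h2 | h2
  · rcases Nat.eq_zero_or_pos h.roots.toFinset.card with h3 | h3
    · refine ⟨0, 1, zero_ne_one, fun r hr => ?_⟩
      rw [Finset.card_eq_zero] at h3
      rw [← Multiset.mem_toFinset, h3] at hr
      exact absurd hr (Finset.notMem_empty _)
    · obtain ⟨ρ, hρ⟩ := Finset.card_eq_one.1 (by omega : h.roots.toFinset.card = 1)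
      refine ⟨ρ, ρ + 1, fun h4 => ?_, fun r hr => ?_⟩
      · exact one_ne_zero (left_eq_add.1 h4)
      · rw [← Multiset.mem_toFinset, hρ, Finset.mem_singleton] at hr
        exact Or.inl hr
  · obtain ⟨ρ₁, ρ₂, hne, hρ⟩ := Finset.card_eq_two.1 (le_antisymm h1 h2)
    refine ⟨ρ₁, ρ₂, hne, fun r hr => ?_⟩
    rw [← Multiset.mem_toFinset, hρ, Finset.mem_insert, Finset.mem_singleton] at hr
    exact hr

/-- If `F_i = 0` on the line `u + Y v` for `i ∈ Z` and the `F_i(u + Y v)`, `i ∉ Z`, have full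
degree, then together they have at least three distinct roots (over an algebraic closure). -/
theorem three_roots {E : Type*} [Field E] [CharZero E] {σ ι τ : Type*} [Fintype σ]
    [DecidableEq σ] [Fintype ι] [DecidableEq ι] [Fintype τ] (d b q : ι → ℕ)
    (a aA : (i : ι) → Sym σ (d i) → E) (ap : (i : ι) → Sym σ (b i) → E)
    (ah : (i : ι) → Sym σ (q i) → E) (D : Ix σ q → Derivation ℤ E E)
    (jj : τ → Ix σ q) (θ : τ → Ix σ q → E) (hD : Dual q ah D jj θ)
    (hM : Mov d b q a aA ap ah D) (Z : Finset ι)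
    (hnum : 2 * Fintype.card σ + Fintype.card τ ≤ ∑ i, q i + Z.card + 1)
    (u v : σ → E) (β₁ β₂ : σ) (hpi : u β₁ * v β₂ - u β₂ * v β₁ ≠ 0)
    (hP : ∀ i, lf (ap i) u v ≠ 0)
    (hZ : ∀ i ∈ Z, lf (a i) u v = 0) (hU : ∀ i ∉ Z, form (a i) v ≠ 0)
    (h : E[X]) (h0 : h ≠ 0) (hdvd : ∀ i ∉ Z, ∃ n, lf (a i) u v ∣ h ^ n) :
    3 ≤ h.natDegree := by
  classical
  by_contra hlt
  have hn2 : h.natDegree ≤ 2 := by omega
  let K := h.SplittingField
  let φ : E →+* K := algebraMap E K
  have hφ : Function.Injective φ := φ.injective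
  have : CharZero K := charZero_of_injective_algebraMap hφ
  -- the polynomial over `K`
  have hhK0 : h.map φ ≠ 0 := (Polynomial.map_ne_zero_iff hφ).2 h0
  have hhK : (h.map φ).Splits := SplittingField.splits h
  obtain ⟨ρ₁, ρ₂, hρ, hroots⟩ := ntv_roots (h.map φ) (by rw [natDegree_map]; exact hn2)
  -- derivations
  choose D' hD' using fun s : Ix σ q => der_ext (K := K) (D s)
  have hDual : Dual q (fun i J => φ (ah i J)) D' jj (fun j s => φ (θ j s)) := by
    intro s t
    have h1 := hD' s (ah t.1 t.2)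
    rw [hD s t] at h1
    rw [show D' s (φ (ah t.1 t.2)) = _ from h1, map_sub, map_sum]
    congr 1
    · split_ifs
      · exact map_one φ
      · exact map_zero φ
    · refine Finset.sum_congr rfl fun j _ => ?_
      split_ifs
      · rfl
      · exact map_zero φ
  have hMov : Mov d b q (fun i J => φ (a i J)) (fun i J => φ (aA i J))
      (fun i J => φ (ap i J)) (fun i J => φ (ah i J)) D' := by
    refine ⟨hM.toFam.map φ, fun s i J => ?_, fun s i J => ?_⟩
    · exact (hD' s (aA i J)).trans (by rw [hM.DA, map_zero])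
    · exact (hD' s (ap i J)).trans (by rw [hM.Dp, map_zero])
  -- factorisations
  have hfac : ∀ i ∉ Z, ∃ α β : ℕ, α + β = d i ∧
      lf (fun J => φ (a i J)) (fun l => φ (u l)) (fun l => φ (v l)) =
        C (form (fun J => φ (a i J)) fun l => φ (v l)) *
          ((X - C ρ₁) ^ α * (X - C ρ₂) ^ β) := by
    intro i hi
    obtain ⟨k, hk⟩ := hdvd i hi
    have hv : form (fun J => φ (a i J)) (fun l => φ (v l)) ≠ 0 := by
      rw [← pd_map_form]
      exact (map_ne_zero φ).2 (hU i hi)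
    have hc := lf_coeff_top (fun J => φ (a i J)) (fun l => φ (u l)) (fun l => φ (v l))
    have hle := lf_natDegree_le (fun J => φ (a i J)) (fun l => φ (u l)) (fun l => φ (v l))
    have hdeg : (lf (fun J => φ (a i J)) (fun l => φ (u l)) (fun l => φ (v l))).natDegree =
        d i := by
      refine le_antisymm hle (le_natDegree_of_ne_zero ?_)
      rw [hc]
      exact hv
    have hf0 : lf (fun J => φ (a i J)) (fun l => φ (u l)) (fun l => φ (v l)) ≠ 0 := by
      intro h1
      rw [h1, coeff_zero] at hc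
      exact hv hc.symm
    obtain ⟨α, β, h1, h2⟩ := ntv_fact _ _ hf0 hhK0 hhK k (by
      rw [← lf_map, ← Polynomial.map_pow]
      exact Polynomial.map_dvd φ hk) ρ₁ ρ₂ hρ hroots
    refine ⟨α, β, h1.trans hdeg, ?_⟩
    rw [leadingCoeff, hdeg, hc] at h2
    exact h2
  choose! α β hαβ hlf using hfac
  -- the two points
  set p : σ → K := fun l => φ (u l) + ρ₁ * φ (v l) with hp
  set p' : σ → K := fun l => φ (u l) + ρ₂ * φ (v l) with hp'
  have hdet : p β₁ * p' β₂ - p β₂ * p' β₁ ≠ 0 := by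
    have h1 : p β₁ * p' β₂ - p β₂ * p' β₁ = (ρ₂ - ρ₁) * φ (u β₁ * v β₂ - u β₂ * v β₁) := by
      rw [hp, hp', map_sub, map_mul, map_mul]
      ring
    rw [h1]
    exact mul_ne_zero (sub_ne_zero.2 hρ.symm) ((map_ne_zero φ).2 hpi)
  obtain ⟨ip, hip⟩ : ∃ l, p l ≠ 0 := by
    by_contra! h1
    rw [h1 β₁, h1 β₂] at hdet
    simp at hdet
  obtain ⟨iq, hiq⟩ : ∃ l, p' l ≠ 0 := by
    by_contra! h1
    rw [h1 β₁, h1 β₂] at hdet
    simp at hdet
  have hform : ∀ i (x y : K), form (fun J => φ (a i J)) (fun l => x * p l + y * p' l) =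
      if i ∈ Z then 0 else form (fun J => φ (a i J)) (fun l => φ (v l)) *
        ((y * (ρ₂ - ρ₁)) ^ α i * (x * (ρ₁ - ρ₂)) ^ β i) := by
    intro i x y
    split_ifs with hi
    · have h1 : lf (fun J => φ (a i J)) (fun l => φ (u l)) (fun l => φ (v l)) = 0 := by
        rw [← lf_map, hZ i hi, Polynomial.map_zero]
      have h2 : form (fun J => φ (a i J)) (fun l => φ (v l)) = 0 := by
        rw [← lf_coeff_top (fun J => φ (a i J)) (fun l => φ (u l)) (fun l => φ (v l)), h1,
          coeff_zero]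
      have h3 := ntv_hom (fun J => φ (a i J)) (fun l => φ (u l)) (fun l => φ (v l)) ρ₁ ρ₂ (d i) 0
        (Nat.add_zero _) (by rw [h1, h2, C_0, zero_mul]) x y
      rw [h2, zero_mul] at h3
      exact h3
    · exact ntv_hom _ _ _ ρ₁ ρ₂ (α i) (β i) (hαβ i hi) (hlf i hi) x y
  have hPK : ∀ i, ∃ x y : K, form (fun J => φ (ap i J))
      (fun l => x * ((p ip)⁻¹ * p l) + y * ((p' iq)⁻¹ * p' l)) ≠ 0 := by
    intro i
    by_contra! hcon
    have hlf : lf (fun J => φ (ap i J)) (fun l => φ (u l)) (fun l => φ (v l)) ≠ 0 := by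
      rw [← lf_map]
      exact (Polynomial.map_ne_zero_iff hφ).2 (hP i)
    apply hlf
    refine Polynomial.eq_zero_of_infinite_isRoot _ ?_
    refine Set.infinite_of_injective_forall_mem (f := fun n : ℕ => (n : K)) Nat.cast_injective
      fun n => ?_
    show (lf (fun J => φ (ap i J)) (fun l => φ (u l)) (fun l => φ (v l))).eval (n : K) = 0
    rw [lf_eval, ← hcon ((ρ₂ - n) / (ρ₂ - ρ₁) * p ip) ((n - ρ₁) / (ρ₂ - ρ₁) * p' iq)]
    congr 1
    funext l
    have h1 : ρ₂ - ρ₁ ≠ 0 := sub_ne_zero.2 hρ.symm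
    have h2 : (ρ₂ - n) / (ρ₂ - ρ₁) * p ip * ((p ip)⁻¹ * p l) = (ρ₂ - n) / (ρ₂ - ρ₁) * p l := by
      rw [mul_assoc, mul_inv_cancel_left₀ hip]
    have h3 : (n - ρ₁) / (ρ₂ - ρ₁) * p' iq * ((p' iq)⁻¹ * p' l) =
        (n - ρ₁) / (ρ₂ - ρ₁) * p' l := by
      rw [mul_assoc, mul_inv_cancel_left₀ hiq]
    rw [h2, h3, hp, hp']
    have h4 : (ρ₂ - n) / (ρ₂ - ρ₁) + (n - ρ₁) / (ρ₂ - ρ₁) = 1 := by
      rw [← add_div, sub_add_sub_cancel, div_self h1]
    have h5 : (ρ₂ - n) / (ρ₂ - ρ₁) * ρ₁ + (n - ρ₁) / (ρ₂ - ρ₁) * ρ₂ = n := by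
      rw [div_mul_eq_mul_div, div_mul_eq_mul_div, ← add_div, div_eq_iff h1]
      ring
    linear_combination (-φ (u l)) * h4 - φ (v l) * h5
  refine no_two d b q (fun i J => φ (a i J)) (fun i J => φ (aA i J)) (fun i J => φ (ap i J))
    (fun i J => φ (ah i J)) D' jj (fun j s => φ (θ j s))
    hDual hMov (fun l => (p ip)⁻¹ * p l) (fun l => (p' iq)⁻¹ * p' l) β₁ β₂ ?_ hPK ip iq
    (inv_mul_cancel₀ hip) (inv_mul_cancel₀ hiq) Zᶜ
    (fun i => if i ∈ Z then 0 else form (fun J => φ (a i J)) (fun l => φ (v l)) *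
        (((p' iq)⁻¹ * (ρ₂ - ρ₁)) ^ α i * ((p ip)⁻¹ * (ρ₁ - ρ₂)) ^ β i)) α ?_ ?_ ?_
  · have h1 : (p ip)⁻¹ * p β₁ * ((p' iq)⁻¹ * p' β₂) - (p ip)⁻¹ * p β₂ * ((p' iq)⁻¹ * p' β₁) =
        (p ip)⁻¹ * (p' iq)⁻¹ * (p β₁ * p' β₂ - p β₂ * p' β₁) := by ring
    rw [h1]
    exact mul_ne_zero (mul_ne_zero (inv_ne_zero hip) (inv_ne_zero hiq)) hdet
  · intro i hi
    rw [Finset.mem_compl, not_not] at hi
    rw [if_pos hi]
  · intro i n
    have h1 : (fun l => (p ip)⁻¹ * p l + (n : K) * ((p' iq)⁻¹ * p' l)) =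
        fun l => (p ip)⁻¹ * p l + ((n : K) * (p' iq)⁻¹) * p' l := by
      funext l
      ring
    rw [h1, hform]
    split_ifs
    · rw [zero_mul]
    · rw [mul_assoc (n : K), mul_pow (n : K)]
      ring
  · have h1 : Zᶜ.card = Fintype.card ι - Z.card := Finset.card_compl Z
    have h2 : Z.card ≤ Fintype.card ι := Finset.card_le_univ Z
    have h3 : ∑ i, (q i + 1) = ∑ i, q i + Fintype.card ι := by
      rw [Finset.sum_add_distrib, Finset.sum_const, smul_eq_mul, mul_one, Finset.card_univ]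
    omega

end Pool.Agent.Helper10.LV

end
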