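import Pool.Agent.Helper74.MG.T35
import Pool.Agent.Helper74.MG.T19
import Pool.Agent.Helper74.MG.T34
import Pool.Agent.Helper74.MG.T21
import Pool.Agent.Helper74.MG.T05
import Pool.Agent.Helper74.MG.T03

section

/-! # LV-ULTRA: the ultrapower argument inside a large field -/

set_option autoImplicit false

namespace Pool.Agent.Helper8.LV

open Pool.Agent.Helper8.LG

open scoped BigOperators

theorem ul_core {k L Ω : Type*} [Field k] [Field L] [Field Ω] [CharZero Ω] [Algebra k L]
    [Algebra L Ω] [Algebra k Ω] [IsScalarTower k L Ω]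
    (K : Subring Ω) (hkK : ∀ b : k, algebraMap k Ω b ∈ K) (hLD : UlDisj k (L := L) K)
    {n : ℕ} (c : Fin n → Ω) (hcK : ∀ r, c r ∈ K)
    {σ ι τ : Type*} [Fintype σ] [DecidableEq σ] [Fintype ι] [DecidableEq ι] [Fintype τ]
    (d b q e m : ι → ℕ) (a A : (i : ι) → Sym σ (d i) → L) (ap : (i : ι) → Sym σ (b i) → L)
    (h : (i : ι) → Sym σ (q i) → L) (hFam : Fam d b q a A ap h) (hA : Over k A) (hap : Over k ap)
    (D : Ix σ q → Derivation ℤ Ω Ω) (jj : τ → Ix σ q) (θ : τ → Ix σ q → L)
    (hD : Dual q (fun i J => algebraMap L Ω (h i J)) D jj fun j s => algebraMap L Ω (θ j s))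
    (hDL : ∀ p b, ∃ b', D p (algebraMap L Ω b) = algebraMap L Ω b')
    (hDk : ∀ p (b : k), D p (algebraMap k Ω b) = 0)
    (hDc : ∀ p r, D p (c r) = 0)
    (Z C : Finset ι) (w : ℕ) (hnum : NumV d q e m Z C w (Fintype.card τ))
    (x : σ → Ω) (y : ι → Ω) (i₀ : σ) (hx : x i₀ = 1) (G : Ω) (hG : G ≠ 0)
    (hGx : ∀ l, G * x l ∈ Algebra.adjoin L (Set.range c))
    (hZ : ∀ i ∈ Z, form (fun J => algebraMap L Ω (a i J)) x = 0)
    (hU : ∀ i ∉ Z, form (fun J => algebraMap L Ω (a i J)) x ≠ 0)
    (hP : ∀ i, form (fun J => algebraMap L Ω (ap i J)) x ≠ 0)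
    (hint : ∀ i ∉ Z, i ∉ C → ∀ J : Sym σ (d i),
      mon x J / form (fun J => algebraMap L Ω (a i J)) x ∈ Algebra.adjoin L (Set.range c))
    (hroot : ∀ i ∈ C, y i ^ m i = form (fun J => algebraMap L Ω (a i J)) x)
    (hGy : ∀ i ∈ C, G ^ e i * y i ∈ Algebra.adjoin L (Set.range c))
    (hm : MinorsVanish D x w) :
    ∀ l, IsAlgebraic L (x l) := by
  classical
  set F : IntermediateField L Ω := IntermediateField.adjoin L (Set.range c) with hF
  have hsub : ∀ z ∈ Algebra.adjoin L (Set.range c), z ∈ F := fun z hz =>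
    IntermediateField.algebra_adjoin_le_adjoin L _ hz
  have hFcl : F.toSubfield = Subfield.closure (Set.range (algebraMap L Ω) ∪ Set.range c) :=
    IntermediateField.adjoin_toSubfield L _
  -- the generators
  set c' : Fin n → F := fun r => ⟨c r, IntermediateField.subset_adjoin L _ ⟨r, rfl⟩⟩ with hc'
  have himg : ∀ B : Set (Fin n), (F.val : F → Ω) '' (c' '' B) = c '' B := by
    intro B
    rw [← Set.image_comp]
    rfl
  have hrange : (F.val : F → Ω) '' (Set.range c') = Set.range c := by
    rw [← Set.image_univ, himg, Set.image_univ]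
  have hgen : IntermediateField.adjoin L (Set.range c') = ⊤ := by
    apply IntermediateField.lift_injective F
    rw [IntermediateField.lift_adjoin, IntermediateField.lift_top]
    have h1 : (Subtype.val : F → Ω) '' (Set.range c') = Set.range c := hrange
    rw [h1]
  obtain ⟨B, hB1, hB2⟩ := ul_basis (k := k) c'
  have hB3 : AlgebraicIndependent k (fun b : B => c b) :=
    (AlgHom.algebraicIndependent_iff (x := fun b : B => c' b) ((F.val).restrictScalars k)
      Subtype.val_injective).2 hB1
  have hB4 : AlgebraicIndependent L (fun b : B => c b) :=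
    ul_algInd K hkK hLD _ (fun b => hcK b) hB3
  have hB5 : AlgebraicIndependent L (fun b : B => c' b) :=
    (AlgHom.algebraicIndependent_iff (x := fun b : B => c' b) F.val Subtype.val_injective).1 hB4
  have halg : ∀ r, IsAlgebraic (IntermediateField.adjoin k (c' '' B)) (c' r) := by
    intro r
    have h1 := hB2 r
    obtain ⟨p, hp0, hp⟩ := h1
    set φ : Algebra.adjoin k (c' '' B) →+* IntermediateField.adjoin k (c' '' B) :=
      { toFun := fun z => ⟨z, IntermediateField.algebra_adjoin_le_adjoin k _ z.2⟩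
        map_one' := rfl
        map_mul' := fun _ _ => rfl
        map_zero' := rfl
        map_add' := fun _ _ => rfl } with hφ
    have hφi : Function.Injective φ := by
      intro u v huv
      apply Subtype.ext
      exact congrArg (fun z : IntermediateField.adjoin k (c' '' B) => (z : F)) huv
    refine ⟨p.map φ, ?_, ?_⟩
    · rwa [Ne, Polynomial.map_eq_zero_iff hφi]
    · rw [Polynomial.aeval_def, Polynomial.eval₂_map]
      exact hp
  -- the derivations
  have hst : ∀ p, ∀ f ∈ F, D p f ∈ F := by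
    intro p f hf
    have hf' : f ∈ F.toSubfield := hf
    rw [hFcl] at hf'
    have h1 := rg_stable (D p) (Set.range (algebraMap L Ω) ∪ Set.range c) ?_ f hf'
    · rw [← hFcl] at h1
      exact h1
    · rintro g (⟨z, rfl⟩ | ⟨r, rfl⟩)
      · obtain ⟨z', hz'⟩ := hDL p z
        rw [hz']
        exact Subfield.subset_closure (Or.inl ⟨z', rfl⟩)
      · rw [hDc]
        exact zero_mem _
  set δ : Ix σ q → Derivation ℤ F F := fun p =>
    Derivation.mk' (AddMonoidHom.toIntLinearMap
      { toFun := fun f => (⟨D p f, hst p f f.2⟩ : F)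
        map_zero' := Subtype.ext (map_zero (D p))
        map_add' := fun f g => Subtype.ext (map_add (D p) (f : Ω) g) })
      (fun f g => Subtype.ext ((D p).leibniz (f : Ω) g)) with hδ
  have hδv : ∀ p (f : F), ((δ p f : F) : Ω) = D p f := fun p f => rfl
  have hamap : ∀ b : L, ((algebraMap L F b : F) : Ω) = algebraMap L Ω b := fun b => rfl
  -- the point
  have hxF : ∀ l, x l ∈ F := by
    intro l
    have h1 : G ∈ F := by
      have := hsub _ (hGx i₀)
      rwa [hx, mul_one] at this
    have h2 : x l = G * x l / G := by field_simp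
    rw [h2]
    exact div_mem (hsub _ (hGx l)) h1
  have hyF : ∀ i ∈ C, y i ∈ F := by
    intro i hi
    have h1 : G ∈ F := by
      have := hsub _ (hGx i₀)
      rwa [hx, mul_one] at this
    have h2 : y i = G ^ e i * y i / G ^ e i := by field_simp
    rw [h2]
    exact div_mem (hsub _ (hGy i hi)) (pow_mem h1 _)
  set x' : σ → F := fun l => ⟨x l, hxF l⟩ with hx'
  set y' : ι → F := fun i => if hi : i ∈ C then ⟨y i, hyF i hi⟩ else 0 with hy'
  have hform : ∀ i, ((form (fun J => algebraMap L F (a i J)) x' : F) : Ω) =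
      form (fun J => algebraMap L Ω (a i J)) x := fun i =>
    ul_map_form (F.val : F →+* Ω) _ _
  have hmon : ∀ {r : ℕ} (J : Sym σ r), ((mon x' J : F) : Ω) = mon x J := fun J =>
    ul_map_mon (F.val : F →+* Ω) _ _
  have hcz : CharZero F := inferInstance
  intro l
  have key := rigid (k := k) (L := L) (E := F) c' hgen B hB5 halg d b q e m a A ap h hFam hA hap
    δ jj θ ?_ ?_ ?_ ?_ Z C w hnum x' y' i₀ (Subtype.ext hx) ?_ ?_ ?_ ?_ ?_ ?_ l
  · exact key.algHom F.val
  · intro s q
    apply Subtype.ext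
    have h1 := hD s q
    rw [hδv, hamap, h1]
    push_cast
    congr 1
    · split_ifs <;> rfl
    · refine Finset.sum_congr rfl fun j _ => ?_
      split_ifs <;> rfl
  · intro p b
    obtain ⟨b', hb'⟩ := hDL p b
    exact ⟨b', Subtype.ext hb'⟩
  · intro p b
    exact Subtype.ext (hDk p b)
  · intro p r
    exact Subtype.ext (hDc p r)
  · intro i hi
    exact Subtype.ext ((hform i).trans (hZ i hi))
  · intro i hi h0
    apply hU i hi
    rw [← hform i, h0]
    rfl
  · intro i h0
    apply hP i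
    have h1 : ((form (fun J => algebraMap L F (ap i J)) x' : F) : Ω) =
      form (fun J => algebraMap L Ω (ap i J)) x := ul_map_form (F.val : F →+* Ω) _ _
    rw [← h1, h0]
    rfl
  · intro i hi1 hi2 J
    have h1 := hint i hi1 hi2 J
    rw [← hrange, ← AlgHom.map_adjoin] at h1
    obtain ⟨z, hz1, hz2⟩ := h1
    have h2 : mon x' J / form (fun J => algebraMap L F (a i J)) x' = z := by
      apply Subtype.ext
      have h3 : (z : Ω) = mon x J / form (fun J => algebraMap L Ω (a i J)) x := hz2
      rw [h3]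
      push_cast
      rw [hmon, hform]
    rw [h2]
    exact hz1
  · intro i hi
    apply Subtype.ext
    have h1 : y' i = ⟨y i, hyF i hi⟩ := by rw [hy']; exact dif_pos hi
    rw [h1, hform i, ← hroot i hi]
    rfl
  · intro r s
    apply Subtype.ext
    have h1 := hm r s
    have h2 := RingHom.map_det (F.val : F →+* Ω) (Matrix.of fun s' t => col δ x' (s t) (r s'))
    have h3 : (F.val : F →+* Ω).mapMatrix (Matrix.of fun s' t => col δ x' (s t) (r s')) =
        Matrix.of fun s' t => col D x (s t) (r s') := by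
      ext s' t
      simp only [RingHom.mapMatrix_apply, Matrix.map_apply, Matrix.of_apply]
      rcases s t with _ | p
      · rfl
      · rfl
    rw [h3, h1] at h2
    exact h2

end Pool.Agent.Helper8.LV

end

section

/-! # LV-ULTRA: the ultrapower argument -/

set_option autoImplicit false

namespace Pool.Agent.Helper8.LV

open Pool.Agent.Helper8.LG

open scoped BigOperators

theorem ultra {k L : Type*} [Field k] [Field L] [CharZero L] [Algebra k L]
    {σ ι τ : Type*} [Fintype σ] [DecidableEq σ] [Fintype ι] [DecidableEq ι] [Fintype τ]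
    (d b q e m : ι → ℕ) (a aA : (i : ι) → Sym σ (d i) → L) (ap : (i : ι) → Sym σ (b i) → L)
    (ah : (i : ι) → Sym σ (q i) → L) (hFam : Fam d b q a aA ap ah) (hAk : Over k aA)
    (hpk : Over k ap)
    (D : Ix σ q → Derivation ℤ L L) (jj : τ → Ix σ q) (θ : τ → Ix σ q → L)
    (hD : Dual q ah D jj θ)
    (hDk : ∀ p (c : k), D p (algebraMap k L c) = 0)
    (Z C : Finset ι) (i₀ : σ) (w : ℕ) (hnum : NumV d q e m Z C w (Fintype.card τ))
    (V : Submodule k L) [FiniteDimensional k V] (S : Set (σ → L))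
    (hS : ∀ x ∈ S, x i₀ = 1 ∧ (∀ i ∈ Z, form (a i) x = 0) ∧ (∀ i ∉ Z, form (a i) x ≠ 0) ∧
      (∀ i, form (ap i) x ≠ 0) ∧ MinorsVanish D x w ∧ ∃ (y : ι → L) (G : L), G ≠ 0 ∧ (∀ l, G * x l ∈ V) ∧
        (∀ i ∉ Z, i ∉ C → ∀ J : Sym σ (d i), mon x J / form (a i) x ∈ V) ∧
        (∀ i ∈ C, y i ^ m i = form (a i) x) ∧ ∀ i ∈ C, G ^ e i * y i ∈ V) :
    S.Finite := by
  classical
  by_contra hinf
  rw [← Set.Infinite] at hinf
  set X : ℕ → σ → L := fun m => (hinf.natEmbedding S m : σ → L) with hX
  have hXS : ∀ m, X m ∈ S := fun m => (hinf.natEmbedding S m).2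
  have hXi : Function.Injective X := fun u v huv =>
    (hinf.natEmbedding S).injective (Subtype.ext huv)
  have hS' := fun m => hS (X m) (hXS m)
  choose hX0 hXZ hXU hXP hXm Y G hG0 hGx hint hroot hGy using hS'
  obtain ⟨Ω, instΩ, Q, hQ, hker⟩ := ul_exists L
  let algLΩ : Algebra L Ω := (Q.comp (Pi.constRingHom ℕ L)).toAlgebra
  let algkΩ : Algebra k Ω := ((algebraMap L Ω).comp (algebraMap k L)).toAlgebra
  have : IsScalarTower k L Ω := IsScalarTower.of_algebraMap_eq fun _ => rfl
  have : CharZero Ω := charZero_of_injective_algebraMap (algebraMap L Ω).injective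
  have halgL : ∀ b : L, algebraMap L Ω b = Q fun _ => b := fun _ => rfl
  have halgk : ∀ b : k, algebraMap k Ω b = Q fun _ => algebraMap k L b := fun _ => rfl
  -- the constants
  set K : Subring Ω := (Q.comp ((algebraMap k L).compLeft ℕ)).range with hK
  have hQK : ∀ g : ℕ → k, Q (fun m => algebraMap k L (g m)) ∈ K := fun g => ⟨g, rfl⟩
  have hLD : UlDisj k (L := L) K := by
    intro J hJ T z hz hsum
    choose g hg using hz
    have hg' : ∀ b, Q (fun m => algebraMap k L (g b m)) = z b := fun b => hg b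
    have h1 := ul_disj Q hker J hJ T g (by
      rw [← hsum]
      exact Finset.sum_congr rfl fun b _ => by rw [hg', halgL])
    intro b hb
    rw [← hg']
    exact h1 b hb
  -- the sequences
  set bV := Module.finBasis k V with hbV
  set r := Module.finrank k V with hr
  set H : Type _ := σ ⊕ (Ix σ d) ⊕ ι with hH
  set h : H → ℕ → L := fun η m' => Sum.elim (fun l => G m' * X m' l)
    (Sum.elim (fun p : Ix σ d => if p.1 ∉ Z ∧ p.1 ∉ C then mon (X m') p.2 / form (a p.1) (X m')
      else 0) (fun i => if i ∈ C then G m' ^ e i * Y m' i else 0)) η with hh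
  have hhV : ∀ η m', h η m' ∈ V := by
    rintro (l | p | i) m'
    · exact hGx m' l
    · show (if p.1 ∉ Z ∧ p.1 ∉ C then mon (X m') p.2 / form (a p.1) (X m') else 0) ∈ V
      split_ifs with hp
      · exact hint m' p.1 hp.1 hp.2 p.2
      · exact V.zero_mem
    · show (if i ∈ C then G m' ^ e i * Y m' i else 0) ∈ V
      split_ifs with hi
      · exact hGy m' i hi
      · exact V.zero_mem
  set c₀ : H × Fin r → Ω := fun ηj => Q fun m' =>
    algebraMap k L (bV.repr ⟨h ηj.1 m', hhV ηj.1 m'⟩ ηj.2) with hc₀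
  set eqv := (Fintype.equivFin (H × Fin r)).symm with heqv
  set c : Fin (Fintype.card (H × Fin r)) → Ω := fun s => c₀ (eqv s) with hc
  have hcmem : ∀ ηj, c₀ ηj ∈ Algebra.adjoin L (Set.range c) := fun ηj =>
    Algebra.subset_adjoin ⟨eqv.symm ηj, by rw [hc]; simp⟩
  have hhc : ∀ η, Q (h η) ∈ Algebra.adjoin L (Set.range c) := by
    intro η
    have h1 : Q (h η) = ∑ j, algebraMap L Ω (bV j : L) * c₀ (η, j) := by
      have h2 : h η = ∑ j, (fun _ => (bV j : L)) *
          (fun m' => algebraMap k L (bV.repr ⟨h η m', hhV η m'⟩ j)) := by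
        funext m'
        rw [Finset.sum_apply]
        have h3 := congrArg (Subtype.val : V → L) (bV.sum_repr ⟨h η m', hhV η m'⟩)
        rw [Submodule.coe_sum] at h3
        have h4 : ((⟨h η m', hhV η m'⟩ : V) : L) = h η m' := rfl
        rw [h4] at h3
        rw [← h3]
        refine Finset.sum_congr rfl fun j _ => ?_
        show _ = (bV j : L) * algebraMap k L (bV.repr ⟨h η m', hhV η m'⟩ j)
        rw [Submodule.coe_smul, Algebra.smul_def, mul_comm]
      conv_lhs => rw [h2]
      rw [map_sum]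
      exact Finset.sum_congr rfl fun j _ => by rw [map_mul]; rfl
    rw [h1]
    exact sum_mem fun j _ => mul_mem (Subalgebra.algebraMap_mem _ _) (hcmem _)
  -- the core
  have hform : ∀ i, form (fun J => algebraMap L Ω (a i J)) (fun l => Q fun m' => X m' l) =
      Q fun m' => form (a i) (X m') := fun i => (ul_Q_form Q (a i) X).symm
  have hcore := ul_core (k := k) (L := L) K (fun b => by rw [halgk]; exact hQK fun _ => b) hLD c
    (fun s => hQK _) d b q e m a aA ap ah hFam hAk hpk (fun p => ulDer Q hQ hker (D p)) jj θ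
    ?_ ?_ ?_ ?_ Z C w hnum
    (fun l => Q fun m' => X m' l) (fun i => Q fun m' => Y m' i) i₀ ?_ (Q G) ?_ ?_ ?_ ?_ ?_ ?_ ?_ ?_ ?_
  · -- conclusion
    choose p hp0 hp using hcore
    have h1 : ∀ l, ∀ᶠ m' in (Filter.hyperfilter ℕ : Filter ℕ), (p l).eval (X m' l) = 0 := by
      intro l
      rw [← hker (fun m' => (p l).eval (X m' l)), ul_Q_eval Q]
      exact hp l
    have h2 : ∀ᶠ m' in (Filter.hyperfilter ℕ : Filter ℕ), ∀ l, (p l).eval (X m' l) = 0 :=
      Filter.eventually_all.2 h1
    have h3 : ({m' : ℕ | ∀ l, (p l).eval (X m' l) = 0}).Finite := by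
      have h4 : (Set.pi Set.univ fun l => {z : L | (p l).eval z = 0}).Finite :=
        Set.Finite.pi fun l => by
          refine ((p l).roots.toFinset.finite_toSet).subset fun z hz => ?_
          rw [Finset.mem_coe, Multiset.mem_toFinset, Polynomial.mem_roots (hp0 l)]
          exact hz
      refine Set.Finite.of_finite_image (f := X) (h4.subset ?_) hXi.injOn
      rintro _ ⟨m', hm', rfl⟩ l -
      exact hm' l
    exact Filter.notMem_hyperfilter_of_finite h3 h2
  · intro s q
    show ulDer Q hQ hker (D s) (Q fun _ => ah q.1 q.2) = _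
    rw [ulDer_apply]
    have h1 := hD s q
    have h2 : (Q fun _ => D s (ah q.1 q.2)) = algebraMap L Ω (D s (ah q.1 q.2)) := rfl
    rw [h2, h1, map_sub, map_sum]
    congr 1
    · split_ifs
      · rw [map_one]
      · rw [map_zero]
    · refine Finset.sum_congr rfl fun j _ => ?_
      split_ifs
      · rfl
      · rw [map_zero]
  · intro p b
    exact ⟨D p b, ulDer_apply Q hQ hker (D p) _⟩
  · intro p b
    rw [halgk, ulDer_apply]
    rw [hker]
    exact Filter.Eventually.of_forall fun m' => hDk p b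
  · intro p s
    show ulDer Q hQ hker (D p) (Q _) = 0
    rw [ulDer_apply, hker]
    exact Filter.Eventually.of_forall fun m' => hDk p _
  · show Q (fun m' => X m' i₀) = 1
    have h1 : (fun m' => X m' i₀) = 1 := by
      funext m'
      exact hX0 m'
    rw [h1, map_one]
  · intro h0
    rw [hker] at h0
    obtain ⟨m', hm'⟩ := h0.exists
    exact hG0 m' hm'
  · intro l
    show Q G * Q (fun m' => X m' l) ∈ _
    rw [← map_mul]
    exact hhc (Sum.inl l)
  · intro i hi
    rw [hform, hker]
    exact Filter.Eventually.of_forall fun m' => hXZ m' i hi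
  · intro i hi h0
    rw [hform, hker] at h0
    obtain ⟨m', hm'⟩ := h0.exists
    exact hXU m' i hi hm'
  · intro i h0
    have h1 : form (fun J => algebraMap L Ω (ap i J)) (fun l => Q fun m' => X m' l) =
      Q fun m' => form (ap i) (X m') := (ul_Q_form Q (ap i) X).symm
    rw [h1, hker] at h0
    obtain ⟨m', hm'⟩ := h0.exists
    exact hXP m' i hm'
  · intro i hi1 hi2 J
    rw [hform, ← ul_Q_mon Q X J, ← ul_Q_div Q hker _ _ fun m' => hXU m' i hi1]
    have h1 := hhc (Sum.inr (Sum.inl ⟨i, J⟩))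
    have h2 : h (Sum.inr (Sum.inl ⟨i, J⟩)) = fun m' => mon (X m') J / form (a i) (X m') := by
      funext m'
      exact if_pos ⟨hi1, hi2⟩
    rw [h2] at h1
    exact h1
  · intro i hi
    show (Q fun m' => Y m' i) ^ m i = _
    rw [hform, ← map_pow]
    congr 1
    funext m'
    exact hroot m' i hi
  · intro i hi
    show Q G ^ e i * Q (fun m' => Y m' i) ∈ _
    rw [← map_pow, ← map_mul]
    have h1 := hhc (Sum.inr (Sum.inr i))
    have h2 : h (Sum.inr (Sum.inr i)) = G ^ e i * fun m' => Y m' i := by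
      funext m'
      exact if_pos hi
    rw [h2] at h1
    exact h1
  · intro rr ss
    have h1 := RingHom.map_det Q (Matrix.of fun s t => fun m' => col D (X m') (ss t) (rr s))
    have h2 : Q.mapMatrix (Matrix.of fun s t => fun m' => col D (X m') (ss t) (rr s)) =
        Matrix.of fun s t => col (fun p => ulDer Q hQ hker (D p)) (fun l => Q fun m' => X m' l)
          (ss t) (rr s) := by
      ext s t
      simp only [RingHom.mapMatrix_apply, Matrix.map_apply, Matrix.of_apply]
      rcases ss t with _ | p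
      · rfl
      · exact (ulDer_apply Q hQ hker (D p) _).symm
    rw [← h2, ← h1, hker]
    refine Filter.Eventually.of_forall fun m' => ?_
    have h3 := RingHom.map_det (Pi.evalRingHom (fun _ : ℕ => L) m')
      (Matrix.of fun s t => fun m' => col D (X m') (ss t) (rr s))
    have h4 : (Pi.evalRingHom (fun _ : ℕ => L) m').mapMatrix
        (Matrix.of fun s t => fun m' => col D (X m') (ss t) (rr s)) =
        Matrix.of fun s t => col D (X m') (ss t) (rr s) := rfl
    rw [h4, hXm m' rr ss] at h3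
    exact h3

end Pool.Agent.Helper8.LV

end

section

/-! # LG-FINAL: the theorem over fields -/

set_option autoImplicit false

namespace Pool.Agent.Helper8.LV

open Pool.Agent.Helper8.LG

open scoped BigOperators

private theorem num_mono {ι : Type*} [Fintype ι] {d q e m : ι → ℕ} {Z C : Finset ι} {w c c' : ℕ}
    (h : NumV d q e m Z C w c) (hc : c' ≤ c) : NumV d q e m Z C w c' where
  pos := h.pos
  posq := h.posq
  disj := h.disj
  deg := h.deg
  e0 := h.e0
  ineq := by
    have := h.ineq
    omega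

theorem over_tower {k₀ k L : Type*} [Field k₀] [Field k] [Field L] [Algebra k₀ L] [Algebra k L]
    [Algebra k₀ k] [IsScalarTower k₀ k L] {σ ι : Type*} {d : ι → ℕ}
    {A : (i : ι) → Sym σ (d i) → L} (h : Over k₀ A) : Over k A := by
  intro i J
  obtain ⟨c, hc⟩ := h i J
  exact ⟨algebraMap k₀ k c, by rw [← hc, ← IsScalarTower.algebraMap_apply k₀ k L]⟩

/-- normalised points, all roots non-zero -/
theorem final_aux {k₀ L : Type*} [Field k₀] [Field L] [CharZero L] [Algebra k₀ L]
    (hfg : (⊤ : IntermediateField k₀ L).FG)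
    {σ ι : Type*} [Fintype σ] [DecidableEq σ] [Fintype ι] [DecidableEq ι]
    (d b q e m : ι → ℕ) (a aA : (i : ι) → Sym σ (d i) → L) (ap : (i : ι) → Sym σ (b i) → L)
    (ah : (i : ι) → Sym σ (q i) → L) (hFam : Fam d b q a aA ap ah) (hAk : Over k₀ aA)
    (hpk : Over k₀ ap) (w c : ℕ)
    (hc : (Fintype.card (Ix σ q) : Cardinal) ≤ Algebra.trdeg k₀
      (IntermediateField.adjoin k₀ (Set.range fun p : Ix σ q => ah p.1 p.2)) + c)
    (Z C : Finset ι) (i₀ : σ) (hnum : NumV d q e m Z C w c)
    (A : Subalgebra k₀ L) (hA : A.FG) :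
    {x : σ → L | x i₀ = 1 ∧
      Algebra.trdeg k₀ (IntermediateField.adjoin k₀ (Set.range x)) ≤ w ∧
      (∀ i, form (ap i) x ≠ 0) ∧
      (∀ i ∈ Z, form (a i) x = 0) ∧ (∀ i ∉ Z, form (a i) x ≠ 0) ∧
      (∀ i ∈ C, ∃ y : L, y ^ m i = form (a i) x) ∧
      ∀ i ∉ Z, i ∉ C → ∀ J : Sym σ (d i), IsIntegral A (mon x J / form (a i) x)}.Finite := by
  classical
  obtain ⟨T, k, hT, hind, hfin, D, θ, hD, hDk⟩ := reduce hfg q ah c hc
  have hnum' := num_mono hnum hT
  -- the algebra over `k`
  obtain ⟨s, hs⟩ := hA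
  set A' : Subalgebra k L := Algebra.adjoin k (s : Set L) with hA'
  have hAA' : ∀ f ∈ A, f ∈ A' := by
    intro f hf
    rw [← hs] at hf
    induction hf using Algebra.adjoin_induction with
    | mem x hx => exact Algebra.subset_adjoin hx
    | algebraMap r =>
      have h1 : algebraMap k₀ L r = algebraMap k L (algebraMap k₀ k r) :=
        IsScalarTower.algebraMap_apply k₀ k L r
      rw [h1]
      exact A'.algebraMap_mem _
    | add x y _ _ hx hy => exact add_mem hx hy
    | mul x y _ _ hx hy => exact mul_mem hx hy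
  have hAk' : Over k aA := over_tower hAk
  have hpk' : Over k ap := over_tower hpk
  obtain ⟨V, hV, hVb⟩ := bounded d b q e m a aA ap ah hFam hAk' hpk' T hind hfin D
    (fun j => j.1) θ hD (fun j => j.2) hDk Z C i₀ w hnum' A' ⟨s, rfl⟩
  haveI := hV
  refine ultra (k := k) d b q e m a aA ap ah hFam hAk' hpk' D (fun j => j.1) θ hD hDk
    Z C i₀ w hnum' V _ ?_
  rintro x ⟨h1, h2, hP, h3, h4, h5, h6⟩
  have hrank : MinorsVanish D x w := by
    refine minors_of_trdeg (k := k₀) D ?_ x i₀ h1 w h2
    intro p r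
    have h7 : algebraMap k₀ L r = algebraMap k L (algebraMap k₀ k r) :=
      IsScalarTower.algebraMap_apply k₀ k L r
    rw [h7]
    exact hDk p _
  choose y hy using h5
  set y' : ι → L := fun i => if h : i ∈ C then y i h else 0 with hy'
  have hyy : ∀ i ∈ C, y' i ^ m i = form (a i) x := by
    intro i hi
    rw [hy']
    simp only [dif_pos hi]
    exact hy i hi
  have hgood : GoodV d m a D Z C i₀ w A'.toSubring x y' := by
    refine ⟨h1, h3, h4, hyy, ?_, hrank⟩
    intro i hiZ hiC J
    have h8 := h6 i hiZ hiC J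
    exact h8.map_of_comp_eq (Subring.inclusion (S := A.toSubring) (T := A'.toSubring)
      (fun f hf => hAA' f hf)) (RingHom.id L) rfl
  obtain ⟨G, hG, hG1, hG2, hG3⟩ := hVb x y' hgood hP
  exact ⟨h1, h3, h4, hP, hrank, y', G, hG, hG1, hG2, hyy, hG3⟩

end Pool.Agent.Helper8.LV

end

section

/-! # LV-ENG: the engine in terms of polynomials -/

set_option autoImplicit false

open MvPolynomial

namespace Pool.Agent.Helper8.LV

open scoped BigOperators
open Pool.Agent.Helper8.LG

/-- the coefficients of `A + P H` -/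
theorem cf_add_mul {L : Type*} [Field L] {N d b q : ℕ} (hdb : d = b + q)
    (F A P H : MvPolynomial (Fin (N + 1)) L) (hP : P.IsHomogeneous b) (hH : H.IsHomogeneous q)
    (h : F = A + P * H) (J : Sym (Fin (N + 1)) d) :
    cf d F J = cf d A J + ∑ J' : Sym (Fin (N + 1)) b, ∑ J'' : Sym (Fin (N + 1)) q,
      if (J' : Multiset (Fin (N + 1))) + (J'' : Multiset (Fin (N + 1))) = (J : Multiset _)
        then cf b P J' * cf q H J'' else 0 := by
  classical
  have h0 : cf d F J = cf d A J +
      coeff (Multiset.toFinsupp (J : Multiset (Fin (N + 1)))) (P * H) := by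
    rw [h, cf, coeff_add]
    rfl
  rw [h0, coeff_mul]
  congr 1
  symm
  rw [← Finset.sum_product', ← Finset.sum_filter]
  refine Finset.sum_bij_ne_zero (fun p _ _ =>
    (Multiset.toFinsupp (p.1 : Multiset (Fin (N + 1))),
      Multiset.toFinsupp (p.2 : Multiset (Fin (N + 1))))) ?_ ?_ ?_ ?_
  · intro p hp _
    rw [Finset.mem_filter] at hp
    rw [Finset.HasAntidiagonal.mem_antidiagonal, ← map_add, hp.2]
  · intro p _ _ p' _ _ hpp
    rw [Prod.mk.injEq] at hpp
    exact Prod.ext (poly_toFinsupp_inj hpp.1) (poly_toFinsupp_inj hpp.2)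
  · rintro ⟨m, n⟩ hmn hne
    rw [Finset.HasAntidiagonal.mem_antidiagonal] at hmn
    have h1 : coeff m P ≠ 0 := left_ne_zero_of_mul hne
    have h2 : coeff n H ≠ 0 := right_ne_zero_of_mul hne
    have h3 : m.degree = b := (DFunLike.congr_fun Finsupp.degree_eq_weight_one m).trans (hP h1)
    have h4 : n.degree = q := (DFunLike.congr_fun Finsupp.degree_eq_weight_one n).trans (hH h2)
    obtain ⟨J', hJ'⟩ := poly_exists_sym m h3
    obtain ⟨J'', hJ''⟩ := poly_exists_sym n h4
    refine ⟨(J', J''), ?_, ?_, ?_⟩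
    · rw [Finset.mem_filter]
      refine ⟨Finset.mem_product.2 ⟨Finset.mem_univ _, Finset.mem_univ _⟩, ?_⟩
      apply Multiset.toFinsupp.injective
      rw [map_add, hJ', hJ'']
      exact hmn
    · change coeff _ P * coeff _ H ≠ 0
      rw [hJ', hJ'']
      exact hne
    · exact Prod.ext hJ' hJ''
  · intro p _ _
    rfl

/-- the family of the coefficients -/
theorem fam_poly {k L : Type*} [Field k] [Field L] [Algebra k L] {N r : ℕ} (d b q : Fin r → ℕ)
    (hdb : ∀ i, d i = b i + q i) (F : Fin r → MvPolynomial (Fin (N + 1)) L)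
    (A P : Fin r → MvPolynomial (Fin (N + 1)) k) (H : Fin r → MvPolynomial (Fin (N + 1)) L)
    (hP : ∀ i, (P i).IsHomogeneous (b i)) (hH : ∀ i, (H i).IsHomogeneous (q i))
    (h : ∀ i, F i = map (algebraMap k L) (A i) + map (algebraMap k L) (P i) * H i) :
    Fam d b q (fun i => cf (d i) (F i)) (fun i => cf (d i) (map (algebraMap k L) (A i)))
      (fun i => cf (b i) (map (algebraMap k L) (P i))) (fun i => cf (q i) (H i)) where
  deg := hdb
  eq := fun i J => cf_add_mul (hdb i) _ _ _ _ ((hP i).map _) (hH i) (h i) J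

theorem over_poly {k L : Type*} [Field k] [Field L] [Algebra k L] {N r : ℕ} (d : Fin r → ℕ)
    (A : Fin r → MvPolynomial (Fin (N + 1)) k) :
    Over k fun i => cf (d i) (map (algebraMap k L) (A i)) := fun i J =>
  ⟨coeff (Multiset.toFinsupp (J : Multiset (Fin (N + 1)))) (A i), (coeff_map _ _ _).symm⟩

theorem form_poly {k L : Type*} [Field k] [Field L] [Algebra k L] {N n : ℕ}
    (P : MvPolynomial (Fin (N + 1)) k) (hP : P.IsHomogeneous n) (x : Fin (N + 1) → L) :
    form (cf n (map (algebraMap k L) P)) x = aeval x P := by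
  rw [form_cf _ (hP.map _), aeval_def, eval_map]

/-- the field generated by the coefficients -/
theorem adjoin_poly (k : Type*) {L : Type*} [Field k] [Field L] [Algebra k L] {N r : ℕ}
    (q : Fin r → ℕ) (H : Fin r → MvPolynomial (Fin (N + 1)) L)
    (hH : ∀ i, (H i).IsHomogeneous (q i)) :
    IntermediateField.adjoin k {z | ∃ i J, z = coeff J (H i)} =
      IntermediateField.adjoin k (Set.range fun p : Ix (Fin (N + 1)) q => cf (q p.1) (H p.1) p.2) :=
  coeffField_eq k q H hH

theorem trdeg_mono' {k₀ L : Type*} [Field k₀] [Field L] [Algebra k₀ L]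
    (k : IntermediateField k₀ L) {X : Type*} [Finite X] (x : X → L) :
    Algebra.trdeg k (IntermediateField.adjoin k (Set.range x)) ≤
      Algebra.trdeg k₀ (IntermediateField.adjoin k₀ (Set.range x)) := by
  classical
  haveI := Fintype.ofFinite X
  obtain ⟨T, hT, hc⟩ := red_subfamily (k := k) x
  rw [← hc]
  have h1 : AlgebraicIndependent k₀ (fun p : T => x p) :=
    hT.restrictScalars (algebraMap k₀ k).injective
  have h2 : AlgebraicIndependent k₀ (fun p : T =>
      (⟨x p, IntermediateField.subset_adjoin _ _ ⟨p, rfl⟩⟩ :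
        IntermediateField.adjoin k₀ (Set.range x))) :=
    (AlgHom.algebraicIndependent_iff (IntermediateField.adjoin k₀ (Set.range x)).val
      (IntermediateField.adjoin k₀ (Set.range x)).val.injective).1 h1
  have h3 := h2.lift_cardinalMk_le_trdeg
  rw [Cardinal.mk_coe_finset, Cardinal.lift_natCast, Cardinal.nat_le_lift_iff] at h3
  exact h3

theorem fg_tower {k₀ L : Type*} [Field k₀] [Field L] [Algebra k₀ L] (k : IntermediateField k₀ L)
    (h : (⊤ : IntermediateField k₀ L).FG) : (⊤ : IntermediateField k L).FG := by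
  rw [IntermediateField.fg_top_iff] at h ⊢
  exact Algebra.EssFiniteType.of_comp k₀ k L

theorem subalgebra_tower {k₀ L : Type*} [Field k₀] [Field L] [Algebra k₀ L]
    (k : IntermediateField k₀ L) (R : Subalgebra k₀ L) (hR : R.FG) :
    ∃ R' : Subalgebra k L, R'.FG ∧ ∀ f ∈ R, f ∈ R' := by
  obtain ⟨s, hs⟩ := hR
  refine ⟨Algebra.adjoin k (s : Set L), ⟨s, rfl⟩, ?_⟩
  intro f hf
  rw [← hs] at hf
  induction hf using Algebra.adjoin_induction with
  | mem x hx => exact Algebra.subset_adjoin hx
  | algebraMap r =>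
    have h1 : algebraMap k₀ L r = algebraMap k L (algebraMap k₀ k r) :=
      IsScalarTower.algebraMap_apply k₀ k L r
    rw [h1]
    exact Subalgebra.algebraMap_mem _ _
  | add x y _ _ hx hy => exact add_mem hx hy
  | mul x y _ _ hx hy => exact mul_mem hx hy

/-- the G engine: polynomials, several multipliers, normalised points -/
theorem eng_G {k₀ L : Type*} [Field k₀] [Field L] [CharZero L] [Algebra k₀ L]
    (hfg : (⊤ : IntermediateField k₀ L).FG) {N r s : ℕ} (d q m : Fin r → ℕ)
    (b : Fin r → Fin s → ℕ) (hq : ∀ i, 0 < q i) (hbq : ∀ i j, b i j + q i ≤ d i)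
    (F : Fin r → MvPolynomial (Fin (N + 1)) L)
    (A : Fin r → MvPolynomial (Fin (N + 1)) k₀) (hA : ∀ i, (A i).IsHomogeneous (d i))
    (P : Fin r → Fin s → MvPolynomial (Fin (N + 1)) k₀)
    (hP : ∀ i j, (P i j).IsHomogeneous (b i j))
    (H : Fin r → Fin s → MvPolynomial (Fin (N + 1)) L)
    (hH : ∀ i j, (H i j).IsHomogeneous (d i - b i j))
    (hFA : ∀ i, F i = map (algebraMap k₀ L) (A i) + ∑ j, map (algebraMap k₀ L) (P i j) * H i j)
    (w c : ℕ)
    (hcoef : ((∑ i, ∑ j, (N + (d i - b i j)).choose N : ℕ) : Cardinal) ≤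
      Algebra.trdeg k₀ (IntermediateField.adjoin k₀ {z | ∃ i j J, z = coeff J (H i j)}) + c)
    (Z C : Finset (Fin r)) (hZC : Disjoint Z C) (hm : ∀ i ∈ C, m i ∣ d i)
    (hnum : 2 * w + 2 + c + ∑ i ∈ C, d i / m i ≤ ∑ i, q i + Z.card)
    (i₀ : Fin (N + 1)) (R : Subalgebra k₀ L) (hR : R.FG) :
    {x : Fin (N + 1) → L | x i₀ = 1 ∧
      (Algebra.trdeg k₀ (IntermediateField.adjoin k₀ (Set.range x)) ≤ w ∧
        (∀ i, ∃ j, aeval x (P i j) ≠ 0) ∧ (∀ i ∈ Z, eval x (F i) = 0) ∧
        ∀ i ∈ C, ∃ y : L, y ^ m i = eval x (F i)) ∧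
      ∀ i ∈ (Z ∪ C)ᶜ, eval x (F i) ≠ 0 ∧
        ∀ J : Sym (Fin (N + 1)) (d i), mon x J / eval x (F i) ∈ R}.Finite := by
  classical
  have hdF : ∀ i, (∃ j : Fin s, True) → (F i).IsHomogeneous (d i) := by
    rintro i ⟨j, -⟩
    rw [hFA i]
    refine ((hA i).map _).add (IsHomogeneous.sum _ _ _ fun j _ => ?_)
    have h1 := ((hP i j).map (algebraMap k₀ L)).mul (hH i j)
    rwa [Nat.add_sub_cancel' ((Nat.le_add_right _ _).trans (hbq i j))] at h1
  have hmulti := multi d b (fun i j => (Nat.le_add_right _ _).trans (hbq i j)) A hA P hP H hH c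
    hcoef {x : Fin (N + 1) → L | x i₀ = 1 ∧
      (Algebra.trdeg k₀ (IntermediateField.adjoin k₀ (Set.range x)) ≤ w ∧
        (∀ i ∈ Z, eval x (F i) = 0) ∧ ∀ i ∈ C, ∃ y : L, y ^ m i = eval x (F i)) ∧
      ∀ i ∈ (Z ∪ C)ᶜ, eval x (F i) ≠ 0 ∧
        ∀ J : Sym (Fin (N + 1)) (d i), mon x J / eval x (F i) ∈ R} ?_
  · refine hmulti.subset ?_
    rintro x ⟨h1, ⟨h2, h3, h4, h5⟩, h6⟩
    exact ⟨⟨h1, ⟨h2, h4, h5⟩, h6⟩, h3⟩
  intro k j A' hA' hFA' hcoef'
  -- the ring over `k`
  have hkfg : (⊤ : IntermediateField k L).FG := fg_tower k hfg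
  obtain ⟨R', hR', hRR'⟩ := subalgebra_tower k R hR
  -- the data
  obtain ⟨q', hq'⟩ : ∃ q' : Fin r → ℕ, q' = fun i => d i - b i (j i) := ⟨_, rfl⟩
  have hdb : ∀ i, d i = b i (j i) + q' i := by
    intro i
    have := hbq i (j i)
    rw [hq']
    simp only
    omega
  have hqq : ∀ i, q i ≤ q' i := by
    intro i
    have := hbq i (j i)
    rw [hq']
    simp only
    omega
  have hFam : Fam d (fun i => b i (j i)) q' (fun i => cf (d i) (F i))
      (fun i => cf (d i) (map (algebraMap k L) (A' i)))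
      (fun i => cf (b i (j i)) (map (algebraMap k L) (map (algebraMap k₀ k) (P i (j i)))))
      fun i => cf (q' i) (H i (j i)) := by
    refine fam_poly d (fun i => b i (j i)) q' hdb F A' (fun i => map (algebraMap k₀ k) (P i (j i)))
      (fun i => H i (j i)) (fun i => (hP i (j i)).map _) (fun i => ?_) (fun i => ?_)
    · rw [hq']
      exact hH i (j i)
    · rw [hFA i, hFA' i, map_map, ← IsScalarTower.algebraMap_eq]
  have hform : ∀ (x : Fin (N + 1) → L) i, form (cf (d i) (F i)) x = eval x (F i) := fun x i =>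
    form_cf _ (hdF i ⟨j i, trivial⟩) x
  have hformP : ∀ (x : Fin (N + 1) → L) i,
      form (cf (b i (j i)) (map (algebraMap k L) (map (algebraMap k₀ k) (P i (j i))))) x
        = aeval x (P i (j i)) := by
    intro x i
    rw [form_poly _ ((hP i (j i)).map _), aeval_map_algebraMap]
  obtain ⟨T, hT⟩ : ∃ T : Finset (Fin r) → Set (Fin (N + 1) → L), T = fun C₀ => {x | x i₀ = 1 ∧
      Algebra.trdeg k (IntermediateField.adjoin k (Set.range x)) ≤ w ∧
      (∀ i, form (cf (b i (j i)) (map (algebraMap k L)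
        (map (algebraMap k₀ k) (P i (j i))))) x ≠ 0) ∧
      (∀ i ∈ Z ∪ C₀, form (cf (d i) (F i)) x = 0) ∧
      (∀ i ∉ Z ∪ C₀, form (cf (d i) (F i)) x ≠ 0) ∧
      (∀ i ∈ C \ C₀, ∃ y : L, y ^ m i = form (cf (d i) (F i)) x) ∧
      ∀ i ∉ Z ∪ C₀, i ∉ C \ C₀ → ∀ J : Sym (Fin (N + 1)) (d i),
        IsIntegral R' (mon x J / form (cf (d i) (F i)) x)} := ⟨_, rfl⟩
  have hTfin : ∀ C₀, (T C₀).Finite := by
    intro C₀
    rw [hT]
    refine final_aux hkfg d (fun i => b i (j i)) q'
      (fun i => if i ∈ C \ C₀ then d i / m i else 0) m (fun i => cf (d i) (F i)) _ _ _ hFam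
      (over_poly d A') (over_poly (fun i => b i (j i)) _) w c ?_ (Z ∪ C₀) (C \ C₀) i₀ ?_ R' hR'
    · rw [card_Ix, ← adjoin_poly k q' (fun i => H i (j i)) (fun i => ?_)]
      · rw [hq']
        exact hcoef'
      · rw [hq']
        exact hH i (j i)
    · refine ⟨fun i => ?_, fun i => (hq i).trans_le (hqq i), ?_, ?_, ?_, ?_⟩
      · have := hq i
        have := hqq i
        rw [hdb i]
        omega
      · intro i hi hi'
        rw [Finset.mem_sdiff] at hi
        rcases Finset.mem_union.1 hi' with h | h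
        · exact Finset.disjoint_left.1 hZC h hi.1
        · exact hi.2 h
      · intro i hi
        rw [if_pos hi]
        exact (Nat.mul_div_cancel' (hm i (Finset.mem_sdiff.1 hi).1)).symm
      · intro i hi
        exact if_neg hi
      · have h1 : ∑ i, (if i ∈ C \ C₀ then d i / m i else 0) ≤ ∑ i ∈ C, d i / m i := by
          rw [← Finset.sum_filter]
          refine Finset.sum_le_sum_of_subset (fun i hi => ?_)
          exact (Finset.mem_sdiff.1 (Finset.mem_filter.1 hi).2).1
        have h2 : Z.card ≤ (Z ∪ C₀).card := Finset.card_le_card Finset.subset_union_left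
        have h3 : ∑ i, q i ≤ ∑ i, q' i := Finset.sum_le_sum fun i _ => hqq i
        omega
  refine (Set.finite_iUnion hTfin).subset ?_
  rintro x ⟨⟨h1, ⟨h2, h3, h4⟩, h5⟩, h6⟩
  rw [Set.mem_iUnion]
  refine ⟨C.filter (fun i => eval x (F i) = 0), ?_⟩
  rw [hT]
  have hnz : ∀ i ∉ Z ∪ C.filter (fun i => eval x (F i) = 0), eval x (F i) ≠ 0 := by
    intro i hi
    rw [Finset.mem_union, Finset.mem_filter] at hi
    push Not at hi
    by_cases hiC : i ∈ C
    · exact hi.2 hiC
    · refine (h5 i ?_).1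
      rw [Finset.mem_compl, Finset.mem_union]
      push Not
      exact ⟨hi.1, hiC⟩
  refine ⟨h1, (trdeg_mono' k _).trans h2, ?_, ?_, ?_, ?_, ?_⟩
  · intro i
    rw [hformP]
    exact h6 i
  · intro i hi
    rw [hform]
    rcases Finset.mem_union.1 hi with h | h
    · exact h3 i h
    · exact (Finset.mem_filter.1 h).2
  · intro i hi
    rw [hform]
    exact hnz i hi
  · intro i hi
    rw [hform]
    exact h4 i (Finset.mem_sdiff.1 hi).1
  · intro i hi hi' J
    have hiZ : i ∉ Z := fun h => hi (Finset.mem_union_left _ h)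
    have hiC : i ∉ C := by
      intro h
      apply hi'
      rw [Finset.mem_sdiff]
      exact ⟨h, fun h' => hi (Finset.mem_union_right _ h')⟩
    rw [hform]
    have h7 := (h5 i (by
      rw [Finset.mem_compl, Finset.mem_union]
      push Not
      exact ⟨hiZ, hiC⟩)).2 J
    exact isIntegral_algebraMap (x := (⟨_, hRR' _ h7⟩ : R'))

end Pool.Agent.Helper8.LV

end
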