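import Pool.Agent.Helper74.MG.T07
import Pool.Agent.Helper74.MG.T32
import Pool.Agent.Helper74.MG.T23
import Pool.Agent.Helper74.MG.T22
import Pool.Agent.Helper74.MG.T38
import Pool.Agent.Helper74.MG.T11
import Pool.Agent.Helper74.MG.T13
import Pool.Agent.Helper74.MG.T36
import Pool.Agent.Helper74.MG.T37
import Pool.Agent.Helper74.MG.T39

section

/-! # LN-TZ: lines with infinitely many integral points over arithmetic rings -/

set_option autoImplicit false

open MvPolynomial

namespace Pool.Agent.Helper10.LN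

open scoped BigOperators
open Pool.Agent.Helper8.LG Pool.Agent.Helper10.LB

/-- The hypersurfaces `F i = 0`, `i ∈ I`, have together at most two points on the line `W` over an
algebraic closure: among any three such points two are proportional. -/
def TwoZeros {K : Type*} [Field K] {N r : ℕ} (F : Fin r → MvPolynomial (Fin (N + 1)) K)
    (I : Finset (Fin r)) (W : Submodule K (Fin (N + 1) → K)) : Prop :=
  ∀ x : Fin 3 → Fin (N + 1) → AlgebraicClosure K, (∀ j, x j ≠ 0) →
    (∀ j, x j ∈ Submodule.span (AlgebraicClosure K)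
      ((fun (y : Fin (N + 1) → K) l => algebraMap K (AlgebraicClosure K) (y l)) '' W)) →
    (∀ j, ∃ i ∈ I, aeval (x j) (F i) = 0) →
    ∃ j j', j ≠ j' ∧ ∃ c : AlgebraicClosure K, x j = c • x j'

/-- descent of the property -/
theorem twoZeros_desc {K M : Type*} [Field K] [Field M] [Algebra K M] {N r : ℕ}
    {g : GL (Fin (N + 1)) M} (F : Fin r → MvPolynomial (Fin (N + 1)) K) (I : Finset (Fin r))
    (W' : Submodule M (Fin (N + 1) → M))
    (h : TwoZeros (fun i => subst (g : Matrix _ _ M) (F i)) I W') :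
    TwoZeros F I (desc K g W') := by
  classical
  intro x hx0 hxW hxF
  let φ : AlgebraicClosure K →ₐ[K] AlgebraicClosure M :=
    IsAlgClosed.lift (R := K) (S := AlgebraicClosure K) (M := AlgebraicClosure M)
  let G : Matrix (Fin (N + 1)) (Fin (N + 1)) (AlgebraicClosure M) :=
    (g : Matrix _ _ M).map (algebraMap M (AlgebraicClosure M))
  let G' : Matrix (Fin (N + 1)) (Fin (N + 1)) (AlgebraicClosure M) :=
    (g⁻¹ : GL (Fin (N + 1)) M).1.map (algebraMap M (AlgebraicClosure M))
  have hGG : G * G' = 1 := by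
    have h1 : (g : Matrix (Fin (N + 1)) (Fin (N + 1)) M) * (g⁻¹ : GL (Fin (N + 1)) M).1 = 1 :=
      Units.mul_inv g
    have h2 := congrArg (fun m : Matrix (Fin (N + 1)) (Fin (N + 1)) M =>
      m.map (algebraMap M (AlgebraicClosure M))) h1
    simp only [Matrix.map_mul] at h2
    rw [show G * G' = _ from h2]
    exact Matrix.map_one _ (map_zero _) (map_one _)
  have hback : ∀ y : Fin (N + 1) → AlgebraicClosure M, G.mulVec (G'.mulVec y) = y := by
    intro y
    rw [Matrix.mulVec_mulVec, hGG, Matrix.one_mulVec]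
  -- the new points
  let z : Fin 3 → Fin (N + 1) → AlgebraicClosure M := fun j => G'.mulVec fun l => φ (x j l)
  have hz0 : ∀ j, z j ≠ 0 := by
    intro j hj
    apply hx0 j
    have h1 := hback fun l => φ (x j l)
    rw [show G'.mulVec (fun l => φ (x j l)) = 0 from hj, Matrix.mulVec_zero] at h1
    funext l
    have h2 := congrFun h1 l
    exact (map_eq_zero_iff φ φ.toRingHom.injective).1 h2.symm
  have hzW : ∀ j, z j ∈ Submodule.span (AlgebraicClosure M)
      ((fun (y : Fin (N + 1) → M) l => algebraMap M (AlgebraicClosure M) (y l)) '' W') := by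
    intro j
    have hgen : ∀ y ∈ Submodule.span (AlgebraicClosure K)
        ((fun (y : Fin (N + 1) → K) l => algebraMap K (AlgebraicClosure K) (y l)) ''
          (desc K g W')),
        G'.mulVec (fun l => φ (y l)) ∈ Submodule.span (AlgebraicClosure M)
          ((fun (y : Fin (N + 1) → M) l => algebraMap M (AlgebraicClosure M) (y l)) '' W') := by
      intro y hy
      induction hy using Submodule.span_induction with
      | mem y hy =>
        obtain ⟨w, hw, rfl⟩ := hy
        refine Submodule.subset_span ⟨(g⁻¹ : GL (Fin (N + 1)) M).1.mulVec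
          (fun l => algebraMap K M (w l)), hw, ?_⟩
        funext l
        have h1 := (algebraMap M (AlgebraicClosure M)).map_mulVec
          (g⁻¹ : GL (Fin (N + 1)) M).1 (fun l => algebraMap K M (w l)) l
        simp only
        rw [h1]
        congr 1
        funext l'
        simp only [Function.comp]
        rw [φ.commutes]
        exact (IsScalarTower.algebraMap_apply K M (AlgebraicClosure M) (w l')).symm
      | zero =>
        have h1 : (fun l => φ ((0 : Fin (N + 1) → AlgebraicClosure K) l)) = 0 := by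
          funext l
          exact map_zero _
        rw [h1, Matrix.mulVec_zero]
        exact Submodule.zero_mem _
      | add y y' _ _ hy hy' =>
        have h1 : (fun l => φ ((y + y') l)) = (fun l => φ (y l)) + fun l => φ (y' l) := by
          funext l
          exact map_add _ _ _
        rw [h1, Matrix.mulVec_add]
        exact Submodule.add_mem _ hy hy'
      | smul a y _ hy =>
        have h1 : (fun l => φ ((a • y) l)) = φ a • fun l => φ (y l) := by
          funext l
          exact map_mul _ _ _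
        rw [h1, Matrix.mulVec_smul]
        exact Submodule.smul_mem _ _ hy
    exact hgen _ (hxW j)
  have hzF : ∀ j, ∃ i ∈ I, aeval (z j) (subst (g : Matrix _ _ M) (F i)) = 0 := by
    intro j
    obtain ⟨i, hi, h0⟩ := hxF j
    refine ⟨i, hi, ?_⟩
    have h1 : aeval (z j) (subst (g : Matrix _ _ M) (F i)) =
        aeval (G.mulVec (z j)) (F i) := by
      have h2 := MvPolynomial.comp_aeval_apply
        (f := fun i => ∑ j, MvPolynomial.C ((g : Matrix _ _ M) i j) * MvPolynomial.X j)
        ((aeval (z j) : MvPolynomial (Fin (N + 1)) M →ₐ[M] AlgebraicClosure M).restrictScalars K)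
        (F i)
      refine h2.trans ?_
      congr 1
      congr 1
      funext l
      rw [AlgHom.restrictScalars_apply, map_sum]
      refine Finset.sum_congr rfl fun l' _ => ?_
      rw [map_mul, aeval_X, aeval_C]
      rfl
    rw [h1, show G.mulVec (z j) = fun l => φ (x j l) from hback _]
    have h3 : aeval (fun l => φ (x j l)) (F i) = φ (aeval (x j) (F i)) := by
      have h4 := MvPolynomial.comp_aeval_apply (f := x j) φ (F i)
      exact h4.symm
    rw [h3, h0, map_zero]
  obtain ⟨j, j', hjj, c, hc⟩ := h z hz0 hzW hzF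
  refine ⟨j, j', hjj, ?_⟩
  have h1 : (fun l => φ (x j l)) = c • fun l => φ (x j' l) := by
    have h2 := hback fun l => φ (x j l)
    have h3 := hback fun l => φ (x j' l)
    rw [show G'.mulVec (fun l => φ (x j l)) = z j from rfl, hc, Matrix.mulVec_smul] at h2
    rw [← h2]
    congr 1
  obtain ⟨l, hl⟩ : ∃ l, x j' l ≠ 0 := by
    by_contra hne
    push Not at hne
    exact hx0 j' (funext hne)
  have hl' : φ (x j' l) ≠ 0 := fun h => hl ((map_eq_zero_iff φ φ.toRingHom.injective).1 h)
  refine ⟨x j l / x j' l, ?_⟩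
  funext m
  apply φ.toRingHom.injective
  show φ (x j m) = φ ((x j l / x j' l) • x j' m)
  have e1 : φ (x j l) = c * φ (x j' l) := congrFun h1 l
  have e2 : φ (x j m) = c * φ (x j' m) := congrFun h1 m
  rw [smul_eq_mul, map_mul, map_div₀, e1, e2, mul_div_cancel_right₀ _ hl']

theorem hom_smul {M : Type*} [Field M] {N n : ℕ}
    (F : MvPolynomial (Fin (N + 1)) M) (hF : F.IsHomogeneous n) (c : M)
    (x : Fin (N + 1) → M) : eval (fun i => c * x i) F = c ^ n * eval x F := by
  rw [← form_cf F hF, ← form_cf F hF, form, form, Finset.mul_sum]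
  refine Finset.sum_congr rfl (fun J _ => ?_)
  rw [mon, mon, Multiset.prod_map_mul, Multiset.map_const', Multiset.prod_replicate, Sym.card_coe]
  ring

/-- **A line with infinitely many integral points over a ring of finite type over the integers
meets the divisors in at most two points.** -/
theorem twoZeros_of_infinite {M : Type*} [Field M] [CharZero M] {N r : ℕ} (d : Fin r → ℕ)
    (F : Fin r → MvPolynomial (Fin (N + 1)) M) (hF : ∀ i, (F i).IsHomogeneous (d i))
    (I : Finset (Fin r)) (A : Subalgebra ℤ M) (hA : A.FG) (W' : Submodule M (Fin (N + 1) → M))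
    (hW : Module.finrank M W' ≤ 2) (i₀ : Fin (N + 1))
    (hinf : {y : Fin (N + 1) → M | y i₀ = 1 ∧ y ∈ W' ∧ ∀ i ∈ I, eval y (F i) ≠ 0 ∧
      ∀ J : Sym (Fin (N + 1)) (d i), mon y J / eval y (F i) ∈ A}.Infinite) :
    TwoZeros F I W' := by
  classical
  -- two points
  obtain ⟨v, hv⟩ := hinf.nonempty
  obtain ⟨u, hu⟩ : ∃ u ∈ {y : Fin (N + 1) → M | y i₀ = 1 ∧ y ∈ W' ∧ ∀ i ∈ I, eval y (F i) ≠ 0 ∧
      ∀ J : Sym (Fin (N + 1)) (d i), mon y J / eval y (F i) ∈ A}, u ≠ v := by
    by_contra hne
    push Not at hne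
    exact hinf ((Set.finite_singleton v).subset fun y hy => hne y hy)
  obtain ⟨hu, huv⟩ := hu
  obtain ⟨l₀, hl₀⟩ : ∃ l, u l ≠ v l := by
    by_contra hne
    push Not at hne
    exact huv (funext hne)
  have hu1 : u i₀ = 1 := hu.1
  have hv1 : v i₀ = 1 := hv.1
  have hpi : u i₀ * v l₀ - u l₀ * v i₀ ≠ 0 := by
    rw [hu1, hv1, one_mul, mul_one]
    exact sub_ne_zero.2 hl₀.symm
  have hind : LinearIndependent M ![u, v] := by
    rw [LinearIndependent.pair_iff]
    intro s t hst
    have h1 := congrFun hst i₀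
    have h2 := congrFun hst l₀
    simp only [Pi.add_apply, Pi.smul_apply, smul_eq_mul, Pi.zero_apply, hu1, hv1, mul_one]
      at h1 h2
    have h3 : s * (u l₀ - v l₀) = 0 := by linear_combination h2 - v l₀ * h1
    have h4 : s = 0 := (mul_eq_zero.1 h3).resolve_right (sub_ne_zero.2 hl₀)
    exact ⟨h4, by rw [h4, zero_add] at h1; exact h1⟩
  have hspan : W' ≤ Submodule.span M ({u, v} : Set (Fin (N + 1) → M)) := by
    have h1 : Submodule.span M ({u, v} : Set (Fin (N + 1) → M)) ≤ W' := by
      rw [Submodule.span_le]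
      rintro y (rfl | rfl)
      · exact hu.2.1
      · exact hv.2.1
    have h2 : Module.finrank M (Submodule.span M ({u, v} : Set (Fin (N + 1) → M))) = 2 := by
      have h3 := finrank_span_eq_card hind
      have h4 : Set.range ![u, v] = ({u, v} : Set (Fin (N + 1) → M)) := by
        ext y
        simp [eq_comm, or_comm]
      rw [h4] at h3
      exact h3
    exact (Submodule.eq_of_le_of_finrank_le h1 (by rw [h2]; exact hW)).ge
  -- the polynomial
  set a : (i : Fin r) → Sym (Fin (N + 1)) (d i) → M := fun i => cf (d i) (F i) with ha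
  have hform : ∀ i y, form (a i) y = eval y (F i) := fun i y => form_cf _ (hF i) y
  obtain ⟨h, h0, hdvd, hdeg⟩ : ∃ h : Polynomial M, h ≠ 0 ∧
      (∀ i ∉ Iᶜ, ∃ n, lf (a i) u v ∣ h ^ n) ∧ h.natDegree < 3 := by
    by_contra hne
    push Not at hne
    refine hinf ((line_arith a Iᶜ A hA u v i₀ l₀ hpi (fun i hi => ?_) (fun h h0 hh => ?_)
      i₀).subset ?_)
    · rw [Finset.mem_compl, not_not] at hi
      rw [hform]
      exact (hv.2.2 i hi).1
    · exact hne h h0 hh
    · rintro y ⟨hy1, hyW, hy⟩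
      refine ⟨hy1, fun i hi => ?_, ?_⟩
      · rw [Finset.mem_compl, not_not] at hi
        rw [hform]
        exact hy i hi
      · obtain ⟨s, t, hst⟩ := Submodule.mem_span_pair.1 (hspan hyW)
        refine ⟨s, t, fun l => ?_⟩
        rw [← hst]
        rfl
  intro x hx0 hxW hxF
  -- coordinates on the line
  have hcoord : ∀ j, ∃ s t : AlgebraicClosure M, ∀ l,
      x j l = s * algebraMap M _ (u l) + t * algebraMap M _ (v l) := by
    intro j
    have hgen : ∀ y ∈ Submodule.span (AlgebraicClosure M)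
        ((fun (y : Fin (N + 1) → M) l => algebraMap M (AlgebraicClosure M) (y l)) '' W'),
        ∃ s t : AlgebraicClosure M, ∀ l,
          y l = s * algebraMap M _ (u l) + t * algebraMap M _ (v l) := by
      intro y hy
      induction hy using Submodule.span_induction with
      | mem y hy =>
        obtain ⟨w, hw, rfl⟩ := hy
        obtain ⟨s, t, hst⟩ := Submodule.mem_span_pair.1 (hspan hw)
        refine ⟨algebraMap M _ s, algebraMap M _ t, fun l => ?_⟩
        simp only
        rw [← hst, Pi.add_apply, Pi.smul_apply, Pi.smul_apply, smul_eq_mul, smul_eq_mul, map_add,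
          map_mul, map_mul]
      | zero => exact ⟨0, 0, fun l => by simp⟩
      | add y y' _ _ hy hy' =>
        obtain ⟨s, t, hst⟩ := hy
        obtain ⟨s', t', hst'⟩ := hy'
        refine ⟨s + s', t + t', fun l => ?_⟩
        rw [Pi.add_apply, hst, hst']
        ring
      | smul c y _ hy =>
        obtain ⟨s, t, hst⟩ := hy
        refine ⟨c * s, c * t, fun l => ?_⟩
        rw [Pi.smul_apply, smul_eq_mul, hst]
        ring
    exact hgen _ (hxW j)
  choose s t hst using hcoord
  have hs : ∀ j, s j ≠ 0 := by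
    intro j hsj
    obtain ⟨i, hi, h1⟩ := hxF j
    have h2 : x j = fun l => t j * algebraMap M (AlgebraicClosure M) (v l) := by
      funext l
      rw [hst j l, hsj, zero_mul, zero_add]
    have ht : t j ≠ 0 := by
      intro ht
      apply hx0 j
      rw [h2, ht]
      funext l
      exact zero_mul _
    have h3 : aeval (fun l => t j * algebraMap M (AlgebraicClosure M) (v l)) (F i) =
        t j ^ d i * algebraMap M (AlgebraicClosure M) (eval v (F i)) := by
      have e1 : ∀ y : Fin (N + 1) → AlgebraicClosure M,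
          aeval y (F i) = eval y (map (algebraMap M (AlgebraicClosure M)) (F i)) := fun y => by
        rw [aeval_def, MvPolynomial.eval_map]
      rw [e1]
      have h4 := hom_smul (map (algebraMap M (AlgebraicClosure M)) (F i)) (hF i |>.map _) (t j)
        (fun l => algebraMap M (AlgebraicClosure M) (v l))
      rw [h4]
      congr 1
      rw [MvPolynomial.eval_map]
      exact (MvPolynomial.eval₂_comp_left (algebraMap M (AlgebraicClosure M)) (RingHom.id M) v
        (F i)).symm
    rw [h2, h3] at h1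
    rcases mul_eq_zero.1 h1 with h4 | h4
    · exact pow_ne_zero _ ht h4
    · exact (hv.2.2 i hi).1 ((map_eq_zero_iff _ (algebraMap M (AlgebraicClosure M)).injective).1 h4)
  -- the roots
  set ψ : M →+* AlgebraicClosure M := algebraMap M (AlgebraicClosure M) with hψ
  have hroot : ∀ j, t j / s j ∈ (h.map ψ).roots := by
    intro j
    have hmap0 : h.map ψ ≠ 0 := (Polynomial.map_ne_zero_iff ψ.injective).2 h0
    rw [Polynomial.mem_roots hmap0]
    obtain ⟨i, hi, h1⟩ := hxF j
    obtain ⟨n, hn⟩ := hdvd i (by rwa [Finset.mem_compl, not_not])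
    have h2 : (lf (a i) u v).map ψ ∣ (h.map ψ) ^ n := by
      rw [← Polynomial.map_pow]
      exact Polynomial.map_dvd ψ hn
    have h3 : ((lf (a i) u v).map ψ).eval (t j / s j) = 0 := by
      rw [lf_map, lf_eval]
      have e1 : (fun J => ψ (a i J)) = cf (d i) (map ψ (F i)) := by
        funext J
        exact (MvPolynomial.coeff_map ψ (F i) _).symm
      rw [e1, form_cf _ ((hF i).map ψ)]
      have e2 : x j = fun l => s j * (ψ (u l) + t j / s j * ψ (v l)) := by
        funext l
        rw [hst j l]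
        field_simp [hs j]
      have e3 : aeval (x j) (F i) = eval (x j) (map ψ (F i)) := by
        rw [aeval_def, MvPolynomial.eval_map]
      rw [e3, e2, hom_smul _ ((hF i).map ψ)] at h1
      exact (mul_eq_zero.1 h1).resolve_left (pow_ne_zero _ (hs j))
    obtain ⟨r, hr⟩ := h2
    have h4 : ((h.map ψ) ^ n).eval (t j / s j) = 0 := by
      rw [hr, Polynomial.eval_mul, h3, zero_mul]
    rw [Polynomial.eval_pow] at h4
    exact eq_zero_of_pow_eq_zero h4
  obtain ⟨j, -, j', -, hjj, hjt⟩ : ∃ j ∈ (Finset.univ : Finset (Fin 3)),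
      ∃ j' ∈ (Finset.univ : Finset (Fin 3)), j ≠ j' ∧ t j / s j = t j' / s j' := by
    refine Finset.exists_ne_map_eq_of_card_lt_of_maps_to
      (t := (h.map ψ).roots.toFinset) ?_ (fun j _ => Multiset.mem_toFinset.2 (hroot j))
    have h5 : (h.map ψ).roots.toFinset.card ≤ h.natDegree :=
      (Multiset.toFinset_card_le _).trans
        ((Polynomial.card_roots' _).trans Polynomial.natDegree_map_le)
    rw [Finset.card_univ, Fintype.card_fin]
    omega
  refine ⟨j, j', hjj, s j / s j', ?_⟩
  have h6 : t j * s j' = t j' * s j := by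
    rw [div_eq_div_iff (hs j) (hs j')] at hjt
    exact hjt
  funext l
  rw [Pi.smul_apply, smul_eq_mul, hst j l, hst j' l]
  have h7 := hs j'
  field_simp
  linear_combination (algebraMap M (AlgebraicClosure M)) (v l) * h6

end Pool.Agent.Helper10.LN

end

section

/-! # LN-AI: from fields of constants to the integers -/

set_option autoImplicit false

open MvPolynomial

namespace Pool.Agent.Helper10.LN

open scoped BigOperators
open Pool.Agent.Helper8.LG Pool.Agent.Helper10.LB

/-- **Arithmetic bases**: the lines with infinitely many integral points over a ring of finite type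
over the integers meet the divisors in at most two points. -/
theorem arith_input {k₀ M : Type*} [Field k₀] [Field M] [CharZero M] [Algebra k₀ M] {N r : ℕ}
    (d : Fin r → ℕ) (F : Fin r → MvPolynomial (Fin (N + 1)) M) (hF : ∀ i, (F i).IsHomogeneous (d i))
    (I : Finset (Fin r)) (Q' : (Fin (N + 1) → M) → Prop)
    (R : Submodule M (Fin (N + 1) → M) → Prop)
    (hfin : ∀ A : Subalgebra k₀ M, A.FG → ∃ Λ' : Set (Submodule M (Fin (N + 1) → M)),
      Λ'.Finite ∧ (∀ W' ∈ Λ', Module.finrank M W' ≤ 2 ∧ R W') ∧ ∀ i₀ : Fin (N + 1),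
        {y : Fin (N + 1) → M | y i₀ = 1 ∧ Q' y ∧ (∀ W' ∈ Λ', y ∉ W') ∧
          ∀ i ∈ I, eval y (F i) ≠ 0 ∧
            ∀ J : Sym (Fin (N + 1)) (d i), mon y J / eval y (F i) ∈ A}.Finite)
    (A : Subalgebra ℤ M) (hA : A.FG) :
    ∃ Λ' : Set (Submodule M (Fin (N + 1) → M)),
      Λ'.Finite ∧ (∀ W' ∈ Λ', Module.finrank M W' ≤ 2 ∧ (R W' ∧ TwoZeros F I W')) ∧
      ∀ i₀ : Fin (N + 1),
        {y : Fin (N + 1) → M | y i₀ = 1 ∧ Q' y ∧ (∀ W' ∈ Λ', y ∉ W') ∧
          ∀ i ∈ I, eval y (F i) ≠ 0 ∧
            ∀ J : Sym (Fin (N + 1)) (d i), mon y J / eval y (F i) ∈ A}.Finite := by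
  classical
  obtain ⟨Λ', hΛ', hΛ2, hfin'⟩ := hfin (Algebra.adjoin k₀ (A : Set M)) (fa_adjoin_fg A hA)
  obtain ⟨S, hS⟩ : ∃ S : Submodule M (Fin (N + 1) → M) → Fin (N + 1) → Set (Fin (N + 1) → M),
      S = fun W' i₀ => {y : Fin (N + 1) → M | y i₀ = 1 ∧ y ∈ W' ∧ ∀ i ∈ I, eval y (F i) ≠ 0 ∧
        ∀ J : Sym (Fin (N + 1)) (d i), mon y J / eval y (F i) ∈ A} := ⟨_, rfl⟩
  refine ⟨{W' ∈ Λ' | ∃ i₀, (S W' i₀).Infinite}, hΛ'.subset fun W' h => h.1, ?_, ?_⟩
  · rintro W' ⟨hW', i₀, hinf⟩
    refine ⟨(hΛ2 W' hW').1, (hΛ2 W' hW').2, ?_⟩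
    rw [hS] at hinf
    exact twoZeros_of_infinite d F hF I A hA W' (hΛ2 W' hW').1 i₀ hinf
  · intro i₀
    have h1 : (⋃ W' ∈ {W' ∈ Λ' | (S W' i₀).Finite}, S W' i₀).Finite :=
      Set.Finite.biUnion (hΛ'.subset fun W' h => h.1) fun W' h => h.2
    refine ((hfin' i₀).union h1).subset ?_
    rintro y ⟨hy1, hyQ, hyΛ, hyF⟩
    by_cases hex : ∃ W' ∈ Λ', y ∈ W'
    · right
      obtain ⟨W', hW', hyW⟩ := hex
      have h2 : (S W' i₀).Finite := by
        by_contra hinf
        exact hyΛ W' ⟨hW', i₀, hinf⟩ hyW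
      refine Set.mem_biUnion (x := W') ⟨hW', h2⟩ ?_
      rw [hS]
      exact ⟨hy1, hyW, hyF⟩
    · left
      push Not at hex
      exact ⟨hy1, hyQ, hex, fun i hi => ⟨(hyF i hi).1, fun J =>
        Algebra.subset_adjoin ((hyF i hi).2 J)⟩⟩

end Pool.Agent.Helper10.LN

end

section

/-! # LV-C2: the coordinate of an integral point on a bounded line is bounded -/

set_option autoImplicit false

namespace Pool.Agent.Helper10.LV

open scoped BigOperators
open Polynomial Pool.Agent.Helper8.LG Pool.Agent.Helper8.LV Pool.Agent.Helper10.LB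

/-- **The coordinate `z` of the integral point `x = lam (u + z v)` on the bounded line `u, v` is
algebraic over the bounded elements.** -/
theorem case_two {k L Ω : Type*} [Field k] [Field L] [CharZero L] [Algebra k L] [Field Ω]
    {Q : (ℕ → L) →+* Ω} (hQ : IsUl Q) {T : Type*} [Finite T] [DecidableEq T] (y : T → L)
    {σ ι τ : Type*} [Fintype σ] [DecidableEq σ]
    [Fintype ι] [DecidableEq ι] [Fintype τ] {d b q : ι → ℕ}
    (a aA : (i : ι) → Sym σ (d i) → L) (ap : (i : ι) → Sym σ (b i) → L)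
    (ah : (i : ι) → Sym σ (q i) → L) (D : Ix σ q → Derivation ℤ L L) (hy : Dirs k y D)
    (jj : τ → Ix σ q) (θ : τ → Ix σ q → L) (hD : Dual q ah D jj θ)
    (hM : Mov d b q a aA ap ah D) (Z : Finset ι)
    (hnum : 2 * Fintype.card σ + Fintype.card τ ≤ ∑ i, q i + Z.card + 1)
    (A : Subalgebra k L) (hA : A.FG) (X : ℕ → σ → L) (hX : ∀ m, Pt a Z A.toSubring (X m))
    (hXp : ∀ m i, form (ap i) (X m) ≠ 0)
    (u v : σ → Ω) (hu : ∀ l, u l ∈ BF k hQ) (hv : ∀ l, v l ∈ BF k hQ) (β β' : σ)
    (hpi : u β * v β' - u β' * v β ≠ 0)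
    (htop : ∀ i ∉ Z, form (fun J => Q fun _ => a i J) v ≠ 0) (lam z : Ω) (hlam : lam ≠ 0)
    (hx : ∀ l, (Q fun m => X m l) = lam * (u l + z * v l)) :
    IsAlgebraic (BF k hQ) z := by
  classical
  by_contra hz
  have hz' : Transcendental (BF k hQ) z := hz
  have hzF : z ∉ BF k hQ := by
    intro h
    exact hz (isAlgebraic_algebraMap (⟨z, h⟩ : BF k hQ))
  have : CharZero Ω := by
    have hinj : Function.Injective (Q.comp (Pi.constRingHom ℕ L)) :=
      (Q.comp (Pi.constRingHom ℕ L)).injective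
    exact charZero_of_injective_ringHom hinj
  -- the line over the field of the bounded elements
  set F := BF k hQ with hF
  set u' : σ → F := fun l => ⟨u l, hu l⟩ with hu'
  set v' : σ → F := fun l => ⟨v l, hv l⟩ with hv'
  set a' : (i : ι) → Sym σ (d i) → F := fun i J => ⟨Q fun _ => a i J, const_mem hQ _⟩ with ha'
  have hmap : ∀ i, (lf (a' i) u' v').map F.subtype = lf (fun J => Q fun _ => a i J) u v := by
    intro i
    rw [lf_map]
    rfl
  have hev0 : ∀ p : F[X], (p.map F.subtype).eval z = 0 → p = 0 := by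
    intro p hp
    by_contra h0
    refine hz ⟨p, h0, ?_⟩
    rw [Polynomial.aeval_def, Polynomial.eval₂_eq_eval_map]
    exact hp
  have hform : ∀ i, form (fun J => Q fun _ => a i J) (fun l => u l + z * v l) * lam ^ d i =
      Q fun m => form (a i) (X m) := by
    intro i
    rw [ul_Q_form, funext hx, dirTwo_form_mul, mul_comm]
  have hZ0 : ∀ i ∈ Z, lf (a' i) u' v' = 0 := by
    intro i hi
    refine hev0 _ ?_
    rw [hmap, lf_eval]
    have h1 := hform i
    have h2 : (fun m => form (a i) (X m)) = 0 := by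
      funext m
      exact (hX m).zero i hi
    rw [h2, map_zero] at h1
    exact (mul_eq_zero.1 h1).resolve_right (pow_ne_zero _ hlam)
  have hU0 : ∀ i ∉ Z, lf (a' i) u' v' ≠ 0 := by
    intro i hi h0
    apply htop i hi
    rw [← lf_coeff_top (fun J => Q fun _ => a i J) u v, ← hmap, h0, Polynomial.map_zero,
      Polynomial.coeff_zero]
  set g : F[X] := ∏ i ∈ Zᶜ, lf (a' i) u' v' with hg
  have hg0 : g ≠ 0 := Finset.prod_ne_zero_iff.2 fun i hi => hU0 i (Finset.mem_compl.1 hi)
  obtain ⟨h, w, hmon, hsep, hw, n, hn⟩ := exists_sqfree g hg0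
  have hgmap : (h.map F.subtype) * (w.map F.subtype) =
      ∏ i ∈ Zᶜ, lf (fun J => Q fun _ => a i J) u v := by
    rw [← Polynomial.map_mul, hw, hg, Polynomial.map_prod]
    exact Finset.prod_congr rfl fun i _ => hmap i
  have hr : 3 ≤ (h.map F.subtype).natDegree := by
    have hDual : Dual q (fun i J => Q fun _ => ah i J)
        (fun p => ulDer Q hQ.surj hQ.ker (D p)) jj (fun j s => Q fun _ => θ j s) := by
      intro s t
      have h1 := congrArg (Q.comp (Pi.constRingHom ℕ L)) (hD s t)
      show ulDer Q hQ.surj hQ.ker (D s) (Q fun _ => ah t.1 t.2) = _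
      rw [ulDer_apply]
      rw [map_sub, map_sum] at h1
      have h2 : (Q fun _ => D s (ah t.1 t.2)) =
          (Q.comp (Pi.constRingHom ℕ L)) (D s (ah t.1 t.2)) := rfl
      rw [h2, h1]
      congr 1
      · split_ifs
        · exact map_one _
        · exact map_zero _
      · refine Finset.sum_congr rfl fun j _ => ?_
        split_ifs
        · rfl
        · exact map_zero _
    have hMov : Mov d b q (fun i J => Q fun _ => a i J) (fun i J => Q fun _ => aA i J)
        (fun i J => Q fun _ => ap i J) (fun i J => Q fun _ => ah i J)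
        (fun p => ulDer Q hQ.surj hQ.ker (D p)) := by
      refine ⟨hM.toFam.map (Q.comp (Pi.constRingHom ℕ L)), fun s i J => ?_, fun s i J => ?_⟩
      · show ulDer Q hQ.surj hQ.ker (D s) (Q fun _ => aA i J) = 0
        rw [ulDer_apply]
        have h1 : (fun _ : ℕ => D s (aA i J)) = 0 := by
          funext m
          exact hM.DA s i J
        rw [h1, map_zero]
      · show ulDer Q hQ.surj hQ.ker (D s) (Q fun _ => ap i J) = 0
        rw [ulDer_apply]
        have h1 : (fun _ : ℕ => D s (ap i J)) = 0 := by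
          funext m
          exact hM.Dp s i J
        rw [h1, map_zero]
    have hP0 : ∀ i, lf (fun J => Q fun _ => ap i J) u v ≠ 0 := by
      intro i h0
      have h1 : (lf (fun J => Q fun _ => ap i J) u v).eval z = 0 := by rw [h0, eval_zero]
      rw [lf_eval] at h1
      have h2 : (Q fun m => form (ap i) (X m)) = 0 := by
        rw [ul_Q_form, funext hx, dirTwo_form_mul, h1, mul_zero]
      obtain ⟨m, hm⟩ := ((hQ.ker _).1 h2).exists
      exact hXp m i hm
    refine three_roots d b q (fun i J => Q fun _ => a i J) (fun i J => Q fun _ => aA i J)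
      (fun i J => Q fun _ => ap i J) (fun i J => Q fun _ => ah i J) _ jj _ hDual hMov Z hnum
      u v β β' hpi hP0 (fun i hi => ?_) htop _ ?_ fun i hi => ?_
    · rw [← hmap, hZ0 i hi, Polynomial.map_zero]
    · exact (Polynomial.map_ne_zero_iff F.subtype.injective).2 hmon.ne_zero
    · refine ⟨n, ?_⟩
      have h1 : lf (a' i) u' v' ∣ h ^ n :=
        (Finset.dvd_prod_of_mem (fun i => lf (a' i) u' v') (Finset.mem_compl.2 hi)).trans hn
      rw [← hmap, ← Polynomial.map_pow]
      exact Polynomial.map_dvd F.subtype h1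
  rw [Polynomial.natDegree_map] at hr
  -- the polynomials q
  have hq : ∀ p : Ix σ q, ∃ r : F[X], r.natDegree < h.natDegree ∧
      h.map F.subtype ∣ mapD (ulDer Q hQ.surj hQ.ker (D p)) (h.map F.subtype) +
        derivative (h.map F.subtype) * r.map F.subtype := by
    intro p
    obtain ⟨e, he⟩ := exists_lift_sub F (mapD (ulDer Q hQ.surj hQ.ker (D p)) (h.map F.subtype))
      (fun n => by
        rw [coeff_mapD, Polynomial.coeff_map]
        exact der_mem hQ (D p) (hy.ker p) _ (h.coeff n).2)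
    obtain ⟨r, hq1, hq2⟩ := exists_q h e hmon hsep (by omega)
    refine ⟨r, hq1, ?_⟩
    rw [← he, Polynomial.derivative_map, ← Polynomial.map_mul, ← Polynomial.map_add]
    exact Polynomial.map_dvd _ hq2
  choose r hq1 hq2 using hq
  have hDz : ∀ p, ulDer Q hQ.surj hQ.ker (D p) z = ((r p).map F.subtype).eval z := by
    intro p
    refine (mason_bdd hQ y D hy a Z A hA X hX u v hu hv β β' hpi htop lam z hlam hx
      (h.map F.subtype) (w.map F.subtype) (fun n => ?_) (hmon.map _)
      (by rw [Polynomial.natDegree_map]; exact hr) hsep.map hgmap p ((r p).map F.subtype)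
      (fun n => ?_) (by rw [Polynomial.natDegree_map, Polynomial.natDegree_map]; exact hq1 p)
      (hq2 p)).resolve_left hzF
    · rw [Polynomial.coeff_map]
      exact (h.coeff n).2
    · rw [Polynomial.coeff_map]
      exact ((r p).coeff n).2
  have hdeg : ∀ p, ((r p).map F.subtype).natDegree ≤ 2 := by
    intro p
    by_contra hlt
    exact hzF (tail_bdd hQ y D hy p ((r p).map F.subtype)
      (fun n => by rw [Polynomial.coeff_map]; exact ((r p).coeff n).2) (by omega) z (hDz p))
  refine hz (riccati F (fun p => ulDer Q hQ.surj hQ.ker (D p))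
    (fun c hc => const_Ω hQ y D hy c hc) (h.map F.subtype)
    (fun n => by rw [Polynomial.coeff_map]; exact (h.coeff n).2) hsep.map
    (by rw [Polynomial.natDegree_map]; exact hr) (fun p => (r p).map F.subtype) hdeg hq2 z hDz ?_)
  intro h0
  exact hmon.ne_zero (hev0 h h0)

end Pool.Agent.Helper10.LV

end

section

/-! # LV-PB: sequences of integral points with bounded two-vectors are bounded -/

set_option autoImplicit false

namespace Pool.Agent.Helper10.LV

open scoped BigOperators
open Polynomial Pool.Agent.Helper8.LG Pool.Agent.Helper8.LV Pool.Agent.Helper10.LB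

/-- a nonzero polynomial does not vanish at some natural number -/
private theorem pbv_nat {Ω : Type*} [Field Ω] [CharZero Ω] (p : Polynomial Ω) (hp : p ≠ 0) :
    ∃ n : ℕ, p.eval (n : Ω) ≠ 0 := by
  by_contra h
  push Not at h
  apply hp
  refine Polynomial.eq_zero_of_infinite_isRoot p ?_
  exact Set.infinite_of_injective_forall_mem (f := fun n : ℕ => (n : Ω)) Nat.cast_injective
    fun n => h n

private theorem pbv_alg1 {F : Type*} [Field F] (u v z n : F) (h : 1 - n * z ≠ 0) :
    u + z * v = (1 - n * z) * (u + z / (1 - n * z) * (v + n * u)) := by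
  have h1 : (1 - n * z) * (z / (1 - n * z)) = z := mul_div_cancel₀ z h
  linear_combination -(v + n * u) * h1

private theorem pbv_alg2 {F : Type*} [Field F] (z n : F) (h : 1 - n * z ≠ 0) :
    z = z / (1 - n * z) / (1 + n * (z / (1 - n * z))) := by
  have h1 : (1 - n * z) * (z / (1 - n * z)) = z := mul_div_cancel₀ z h
  generalize z / (1 - n * z) = t at h1 ⊢
  have h2 : 1 + n * t ≠ 0 := by
    intro h0
    have h3 : t = 0 := by linear_combination h1 + z * h0
    rw [h3, mul_zero, add_zero] at h0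
    exact one_ne_zero h0
  rw [eq_div_iff h2]
  linear_combination -h1

/-- `G x_l` is in a finite-dimensional space for infinitely many members of the sequence -/
theorem point_bdd {k L : Type*} [Field k] [Field L] [CharZero L] [Algebra k L]
    {T : Type*} [Finite T] [DecidableEq T] (y : T → L)
    {σ ι τ : Type*} [Fintype σ] [DecidableEq σ]
    [Fintype ι] [DecidableEq ι] [Fintype τ] {d b q : ι → ℕ}
    (a aA : (i : ι) → Sym σ (d i) → L) (ap : (i : ι) → Sym σ (b i) → L)
    (ah : (i : ι) → Sym σ (q i) → L) (D : Ix σ q → Derivation ℤ L L) (hy : Dirs k y D)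
    (jj : τ → Ix σ q) (θ : τ → Ix σ q → L) (hD : Dual q ah D jj θ)
    (hM : Mov d b q a aA ap ah D) (Z : Finset ι)
    (hnum : 2 * Fintype.card σ + Fintype.card τ ≤ ∑ i, q i + Z.card + 1)
    (A : Subalgebra k L) (hA : A.FG) (i₀ : σ)
    (V : Submodule k L) [FiniteDimensional k V] (X : ℕ → σ → L)
    (hX : ∀ m, Pt a Z A.toSubring (X m)) (hXp : ∀ m i, form (ap i) (X m) ≠ 0)
    (h1 : ∀ m, X m i₀ = 1)
    (hP : ∀ m, ∃ δ : σ → L, (∃ j l, X m j * δ l - X m l * δ j ≠ 0) ∧
      ∀ j l, X m j * δ l - X m l * δ j ∈ V) :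
    ∃ V' : Submodule k L, FiniteDimensional k V' ∧
      {m | ∃ G : L, G ≠ 0 ∧ ∀ l, G * X m l ∈ V'}.Infinite := by
  classical
  choose δ hδ hδV using hP
  obtain ⟨Ω, _, Q, hsurj, hker⟩ := ul_exists L
  have hQ : IsUl Q := ⟨hsurj, hker⟩
  have : CharZero Ω := by
    have hinj : Function.Injective (Q.comp (Pi.constRingHom ℕ L)) :=
      (Q.comp (Pi.constRingHom ℕ L)).injective
    exact charZero_of_injective_ringHom hinj
  set x : σ → Ω := fun l => Q fun m => X m l with hx
  set e : σ → Ω := fun l => Q fun m => δ m l with he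
  set P : σ → σ → Ω := fun j l => x j * e l - x l * e j with hPdef
  have hPQ : ∀ j l, P j l = Q fun m => X m j * δ m l - X m l * δ m j := by
    intro j l
    have h2 : (fun m => X m j * δ m l - X m l * δ m j) =
        (fun m => X m j) * (fun m => δ m l) - (fun m => X m l) * (fun m => δ m j) := rfl
    rw [h2, map_sub, map_mul, map_mul]
  have hPF : ∀ j l, P j l ∈ BF k hQ := by
    intro j l
    rw [mem_BF]
    have h1V : (1 : L) ∈ V ⊔ k ∙ (1 : L) :=
      (le_sup_right : k ∙ (1 : L) ≤ V ⊔ k ∙ (1 : L)) (Submodule.mem_span_singleton_self _)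
    refine bset_of_fd hQ (V ⊔ k ∙ (1 : L)) (fun m => X m j * δ m l - X m l * δ m j)
      (fun _ => 1) (Filter.Eventually.of_forall fun m => ?_)
      (Filter.Eventually.of_forall fun m => h1V)
      (Filter.Eventually.of_forall fun m => one_ne_zero) _ ?_
    · exact (le_sup_left : V ≤ V ⊔ k ∙ (1 : L)) (hδV m j l)
    · have h2 : (fun _ : ℕ => (1 : L)) = 1 := rfl
      rw [hPQ, h2, map_one, mul_one]
  -- some two-vector entry is not zero
  have hP0 : ∃ j l, P j l ≠ 0 := by
    by_contra hcon
    push Not at hcon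
    have h2 : ∀ᶠ m in (Filter.hyperfilter ℕ : Filter ℕ), ∀ j l,
        X m j * δ m l - X m l * δ m j = 0 := by
      rw [Filter.eventually_all]
      intro j
      rw [Filter.eventually_all]
      intro l
      have h3 := hcon j l
      rw [hPQ, hker] at h3
      exact h3
    obtain ⟨m, hm⟩ := h2.exists
    obtain ⟨j, l, hjl⟩ := hδ m
    exact hjl (hm j l)
  have hx0 : x i₀ = 1 := by
    have h2 : (fun m => X m i₀) = 1 := by
      funext m
      exact h1 m
    show (Q fun m => X m i₀) = 1
    rw [h2, map_one]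
  obtain ⟨b, hb⟩ : ∃ b, P i₀ b ≠ 0 := by
    by_contra hcon
    push Not at hcon
    have h2 : ∀ l, e l = x l * e i₀ := by
      intro l
      have h3 := hcon l
      simp only [hPdef, hx0, one_mul] at h3
      exact sub_eq_zero.1 h3
    obtain ⟨j, l, hjl⟩ := hP0
    apply hjl
    show x j * e l - x l * e j = 0
    rw [h2 l, h2 j]
    ring
  set z : Ω := x b with hz
  set lam : Ω := (P i₀ b)⁻¹ with hlam
  have hlam0 : lam ≠ 0 := inv_ne_zero hb
  set u : σ → Ω := fun l => P l b with hu
  set v : σ → Ω := fun l => P i₀ l with hv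
  have hxl : ∀ l, x l = lam * (u l + z * v l) := by
    intro l
    rw [hlam, eq_inv_mul_iff_mul_eq₀ hb]
    show (x i₀ * e b - x b * e i₀) * x l =
      (x l * e b - x b * e l) + x b * (x i₀ * e l - x l * e i₀)
    rw [hx0]
    ring
  have hform : ∀ i, form (fun J => Q fun _ => a i J) (fun l => u l + z * v l) * lam ^ d i =
      Q fun m => form (a i) (X m) := by
    intro i
    rw [ul_Q_form]
    have h2 : (fun l => Q fun m => X m l) = fun l => lam * (u l + z * v l) := funext hxl
    rw [h2, dirTwo_form_mul, mul_comm]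
  have hne : ∀ i ∉ Z, lf (fun J => Q fun _ => a i J) v u ≠ 0 := by
    intro i hi h0
    have h2 : (lf (fun J => Q fun _ => a i J) v u).reflect (d i) = 0 := by
      rw [h0, Polynomial.reflect_zero]
    rw [lf_reflect] at h2
    have h3 : (lf (fun J => Q fun _ => a i J) u v).eval z = 0 := by rw [h2, eval_zero]
    rw [lf_eval] at h3
    have h4 := hform i
    rw [h3, zero_mul] at h4
    have h5 := (hker _).1 h4.symm
    obtain ⟨m, hm⟩ := h5.exists
    exact (hX m).ne i hi hm
  obtain ⟨n, hn⟩ := pbv_nat ((1 - C z * Polynomial.X) *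
      ∏ i ∈ Zᶜ, lf (fun J => Q fun _ => a i J) v u) (by
    refine mul_ne_zero ?_ (Finset.prod_ne_zero_iff.2 fun i hi => hne i (Finset.mem_compl.1 hi))
    intro h0
    have h2 : (1 - C z * Polynomial.X : Polynomial Ω).eval 0 = 0 := by rw [h0, eval_zero]
    simp at h2)
  rw [eval_mul, eval_prod] at hn
  have hn1 : 1 - n * z ≠ 0 := by
    have h2 := left_ne_zero_of_mul hn
    simp only [eval_sub, eval_one, eval_mul, eval_C, eval_X] at h2
    rwa [mul_comm]
  have hn2 : ∀ i ∉ Z, form (fun J => Q fun _ => a i J) (fun l => v l + n * u l) ≠ 0 := by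
    intro i hi
    have h2 := Finset.prod_ne_zero_iff.1 (right_ne_zero_of_mul hn) i (Finset.mem_compl.2 hi)
    rwa [lf_eval] at h2
  have huF : ∀ l, u l ∈ BF k hQ := fun l => hPF l b
  have hvF : ∀ l, v l ∈ BF k hQ := fun l => hPF i₀ l
  have hnF : (n : Ω) ∈ BF k hQ := natCast_mem _ n
  have halg : IsAlgebraic (BF k hQ) (z / (1 - n * z)) := by
    refine case_two hQ y a aA ap ah D hy jj θ hD hM Z hnum A hA X hX hXp u (fun l => v l + n * u l) huF
      (fun l => add_mem (hvF l) (mul_mem hnF (huF l))) i₀ b ?_ hn2 (lam * (1 - n * z)) _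
      (mul_ne_zero hlam0 hn1) fun l => ?_
    · have h2 : u i₀ * (v b + n * u b) - u b * (v i₀ + n * u i₀) = P i₀ b ^ 2 := by
        have h3 : u b = 0 := by
          show x b * e b - x b * e b = 0
          ring
        rw [h3]
        show P i₀ b * (P i₀ b + n * 0) - 0 * _ = _
        ring
      show u i₀ * (v b + n * u b) - u b * (v i₀ + n * u i₀) ≠ 0
      rw [h2]
      exact pow_ne_zero _ hb
    · show x l = _
      rw [hxl l, mul_assoc]
      congr 1
      exact pbv_alg1 _ _ _ _ hn1
  have hz' : z / (1 - n * z) ∈ BF k hQ := alg_bdd hQ y D hy _ halg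
  have hzF : z ∈ BF k hQ := by
    rw [pbv_alg2 z n hn1]
    exact div_mem hz' (add_mem (one_mem _) (mul_mem hnF hz'))
  have hxF : ∀ l, x l ∈ bset k Q := by
    intro l
    rw [← mem_BF k hQ, hxl l]
    exact mul_mem (inv_mem (hPF i₀ b)) (add_mem (huF l) (mul_mem hzF (hvF l)))
  obtain ⟨V', hV', nn, dd, hnn, hdd, hdd0, hxd⟩ := bset_common hQ x hxF
  refine ⟨V', hV', ?_⟩
  have hev : ∀ᶠ m in (Filter.hyperfilter ℕ : Filter ℕ), ∀ l, X m l * dd m = nn l m := by
    rw [Filter.eventually_all]
    intro l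
    have h2 : Q ((fun m => X m l) * dd) = Q (nn l) := by
      rw [map_mul]
      exact hxd l
    exact (ul_eq Q hker _ _).1 h2
  intro hfin
  refine Filter.notMem_hyperfilter_of_finite hfin ?_
  filter_upwards [hev] with m hm
  refine ⟨dd m, hdd0 m, fun l => ?_⟩
  rw [mul_comm, hm l]
  exact hnn l m

end Pool.Agent.Helper10.LV

end

section

/-! # LV-IL: infinitely many integral points on one line -/

set_option autoImplicit false

namespace Pool.Agent.Helper10.LV

open scoped BigOperators
open Pool.Agent.Helper8.LG Pool.Agent.Helper8.LV Pool.Agent.Helper10.LB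

/-- **An infinite set of integral points has infinitely many points on one line.** -/
theorem inf_line {k L : Type*} [Field k] [Field L] [CharZero L] [Algebra k L]
    {σ ι τ : Type*} [Fintype σ] [DecidableEq σ] [Fintype ι] [DecidableEq ι] [Fintype τ]
    (d b q : ι → ℕ) (a aA : (i : ι) → Sym σ (d i) → L) (ap : (i : ι) → Sym σ (b i) → L)
    (ah : (i : ι) → Sym σ (q i) → L) (hF : Fam d b q a aA ap ah) (hAk : Over k aA)
    (hpk : Over k ap) (hq : ∀ i, 0 < q i) (T : Finset (Ix σ q))
    (hind : AlgebraicIndependent k (fun p : T => ah p.1.1 p.1.2))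
    (hfin : FiniteDimensional
      (IntermediateField.adjoin k (Set.range fun p : T => ah p.1.1 p.1.2)) L)
    (D : Ix σ q → Derivation ℤ L L) (jj : τ → Ix σ q) (θ : τ → Ix σ q → L)
    (hD : Dual q ah D jj θ) (hT : ∀ j, jj j ∉ T)
    (hDk : ∀ p (c : k), D p (algebraMap k L c) = 0)
    (Z : Finset ι) (i₀ j₁ : σ) (hj : j₁ ≠ i₀)
    (hw1 : 2 * Fintype.card σ + Fintype.card τ ≤ ∑ i, q i + Z.card + 1)
    (hw2 : Fintype.card σ + 1 ≤ ∑ i, q i)
    (A : Subalgebra k L) (hA : A.FG) (S : Set (σ → L)) (hinf : S.Infinite)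
    (hS : ∀ x ∈ S, x i₀ = 1 ∧ Pt a Z A.toSubring x ∧ ∀ i, form (ap i) x ≠ 0) :
    ∃ (α β : σ) (p p' : σ → L), α ≠ β ∧ p α = 1 ∧ p β = 0 ∧ p' α = 0 ∧ p' β = 1 ∧
      {x ∈ S | ∀ l, x l = x α * p l + x β * p' l}.Infinite := by
  classical
  have hσ : 0 < Fintype.card σ := Fintype.card_pos_iff.2 ⟨i₀⟩
  set w : ℕ := Fintype.card σ - 1 with hw
  have hwσ : w + 1 = Fintype.card σ := by omega
  have hw1' : 2 * w + 1 + Fintype.card τ ≤ ∑ i, q i + Z.card := by omega
  have hw2' : w + 2 ≤ ∑ i, q i := by omega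
  have hmin : ∀ x : σ → L, MinorsVanish D x w := fun x => minors_top D x w (by omega)
  obtain ⟨V, hVfin, hV⟩ := Pool.Agent.Helper49.LV.bounded_line d b q hq a aA ap ah hF hAk hpk T
    hind hfin D jj θ hD hT hDk Z i₀ j₁ hj w hw1' hw2' A hA
  set X : ℕ → σ → L := fun m => (hinf.natEmbedding S m : σ → L) with hX
  have hXS : ∀ m, X m ∈ S := fun m => (hinf.natEmbedding S m).2
  have hXi : Function.Injective X := fun u v huv =>
    (hinf.natEmbedding S).injective (Subtype.ext huv)
  have hX1 : ∀ m, X m i₀ = 1 := fun m => (hS _ (hXS m)).1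
  have hXp : ∀ m, Pt a Z A.toSubring (X m) := fun m => (hS _ (hXS m)).2.1
  have hXP : ∀ m i, form (ap i) (X m) ≠ 0 := fun m => (hS _ (hXS m)).2.2
  have hM : Mov d b q a aA ap ah D := hF.mov hAk hpk D hDk
  have hP : ∀ m, ∃ δ : σ → L, (∃ j l, X m j * δ l - X m l * δ j ≠ 0) ∧
      ∀ j l, X m j * δ l - X m l * δ j ∈ V := fun m =>
    hV (X m) (hX1 m) (hXp m).zero (hXp m).ne (hXP m) (hXp m).int (hmin _)
  have hdir : Dirs k (fun p : T => ah p.1.1 p.1.2) D :=
    dirs_of_dual q ah T hind hfin D jj θ hD hT hDk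
  obtain ⟨V', hV'fin, hV'⟩ := point_bdd (fun p : T => ah p.1.1 p.1.2) a aA ap ah D hdir jj θ hD hM Z
    hw1 A hA i₀ V X hXp hXP hX1 hP
  obtain ⟨V'', hV''fin, hV''⟩ := second_round (fun p : T => ah p.1.1 p.1.2) D hdir a Z A hA V'
  have hinf1 : (X '' {m | ∃ G : L, G ≠ 0 ∧ ∀ l, G * X m l ∈ V'}).Infinite :=
    hV'.image hXi.injOn
  obtain ⟨α, β, p, p', hαβ, hpα, hpβ, hqα, hqβ, hline⟩ :=
    Pool.Agent.Helper49.LV.ultra_line d b q hq a aA ap ah hF hAk hpk D jj θ hD hDk Z i₀ j₁ hj w hw1' hw2' (V' ⊔ V'')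
      (X '' {m | ∃ G : L, G ≠ 0 ∧ ∀ l, G * X m l ∈ V'}) hinf1 (by
        rintro _ ⟨m, ⟨G, hG0, hG⟩, rfl⟩
        refine ⟨hX1 m, (hXp m).zero, (hXp m).ne, hXP m, hmin _, G, hG0, fun l => ?_, fun i hi J => ?_⟩
        · exact Submodule.mem_sup_left (hG l)
        · exact Submodule.mem_sup_right (hV'' (X m) G (hXp m) hG0 hG i hi J))
  refine ⟨α, β, p, p', hαβ, hpα, hpβ, hqα, hqβ, hline.mono ?_⟩
  rintro _ ⟨⟨m, _, rfl⟩, hx⟩
  exact ⟨hXS m, hx⟩

end Pool.Agent.Helper10.LV

end

section

/-! # LV-FA: finiteness of the integral points over arithmetic rings, over fields -/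

set_option autoImplicit false

namespace Pool.Agent.Helper10.LV

open scoped BigOperators
open Polynomial Pool.Agent.Helper8.LG Pool.Agent.Helper8.LV Pool.Agent.Helper10.LB

/-- **Finiteness of integral points over finitely generated rings**, normalised coordinates. -/
theorem field_arith {k₀ L : Type*} [Field k₀] [Field L] [CharZero L] [Algebra k₀ L]
    (hfg : (⊤ : IntermediateField k₀ L).FG)
    {σ ι : Type*} [Fintype σ] [DecidableEq σ] [Fintype ι] [DecidableEq ι]
    (d b q : ι → ℕ) (a aA : (i : ι) → Sym σ (d i) → L) (ap : (i : ι) → Sym σ (b i) → L)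
    (ah : (i : ι) → Sym σ (q i) → L) (hF : Fam d b q a aA ap ah) (hAk : Over k₀ aA)
    (hpk : Over k₀ ap) (hq : ∀ i, 0 < q i) (c : ℕ)
    (hc : (Fintype.card (Ix σ q) : Cardinal) ≤ Algebra.trdeg k₀
      (IntermediateField.adjoin k₀ (Set.range fun p : Ix σ q => ah p.1 p.2)) + c)
    (Z : Finset ι) (i₀ : σ)
    (hw1 : 2 * Fintype.card σ + c ≤ ∑ i, q i + Z.card + 1)
    (hw2 : Fintype.card σ + 1 ≤ ∑ i, q i)
    (A : Subalgebra ℤ L) (hA : A.FG) :
    {x : σ → L | x i₀ = 1 ∧ (∀ i, form (ap i) x ≠ 0) ∧ (∀ i ∈ Z, form (a i) x = 0) ∧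
      ∀ i ∉ Z, form (a i) x ≠ 0 ∧ ∀ J : Sym σ (d i), mon x J / form (a i) x ∈ A}.Finite := by
  classical
  by_contra hinf
  set S : Set (σ → L) := {x : σ → L | x i₀ = 1 ∧ (∀ i, form (ap i) x ≠ 0) ∧
    (∀ i ∈ Z, form (a i) x = 0) ∧
    ∀ i ∉ Z, form (a i) x ≠ 0 ∧ ∀ J : Sym σ (d i), mon x J / form (a i) x ∈ A} with hS
  have hinf' : S.Infinite := hinf
  by_cases hj : ∃ j₁ : σ, j₁ ≠ i₀
  swap
  · push Not at hj
    refine hinf ((Set.finite_singleton (fun _ : σ => (1 : L))).subset fun x hx => ?_)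
    rw [Set.mem_singleton_iff]
    funext l
    rw [hj l]
    exact hx.1
  obtain ⟨j₁, hj₁⟩ := hj
  obtain ⟨T, k, hT, hind, hfin, D, θ, hD, hDk⟩ := reduce hfg q ah c hc
  have hnum : 2 * Fintype.card σ + Fintype.card {s : Ix σ q // s ∉ T} ≤
      ∑ i, q i + Z.card + 1 := by omega
  have hM : Mov d b q a aA ap ah D := hF.mov (over_tower hAk) (over_tower hpk) D hDk
  obtain ⟨α, β, p, p', hαβ, hpα, hpβ, hqα, hqβ, hline⟩ := inf_line d b q a aA ap ah hF
    (over_tower hAk) (over_tower hpk) hq T hind hfin D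
    (fun j : {s : Ix σ q // s ∉ T} => j.1) θ hD (fun j => j.2) hDk Z i₀ j₁ hj₁ hnum hw2
    (Algebra.adjoin k (A : Set L)) (fa_adjoin_fg A hA) S hinf' (fun x hx =>
      ⟨hx.1, ⟨hx.2.2.1, fun i hi => (hx.2.2.2 i hi).1, fun i hi J =>
        isIntegral_algebraMap (R := (Algebra.adjoin k (A : Set L)).toSubring)
          (x := ⟨_, Algebra.subset_adjoin ((hx.2.2.2 i hi).2 J)⟩)⟩, hx.2.1⟩)
  set S' : Set (σ → L) := {x ∈ S | ∀ l, x l = x α * p l + x β * p' l} with hS'
  -- a good second point
  obtain ⟨x₁, hx₁⟩ := hline.nonempty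
  have hne : ∀ i ∉ Z, lf (a i) p' p ≠ 0 := by
    intro i hi h0
    apply (hx₁.1.2.2.2 i hi).1
    have h1 := fa_line_zero (a i) p p' h0 (x₁ α) (x₁ β)
    have h2 : x₁ = fun l => x₁ α * p l + x₁ β * p' l := funext hx₁.2
    rw [h2]
    exact h1
  have hprod : (∏ i ∈ Zᶜ, lf (a i) p' p) ≠ 0 := by
    rw [Finset.prod_ne_zero_iff]
    intro i hi
    exact hne i (Finset.mem_compl.1 hi)
  obtain ⟨n, hn⟩ : ∃ n : L, (∏ i ∈ Zᶜ, lf (a i) p' p).eval n ≠ 0 := by
    by_contra hall
    push Not at hall
    exact hprod (Polynomial.funext fun r => by rw [hall r, eval_zero])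
  rw [eval_prod, Finset.prod_ne_zero_iff] at hn
  set v : σ → L := fun l => p' l + n * p l with hv
  have hU : ∀ i ∉ Z, form (a i) v ≠ 0 := by
    intro i hi
    have h1 := hn i (Finset.mem_compl.2 hi)
    rw [lf_eval] at h1
    exact h1
  have hpi : p α * v β - p β * v α ≠ 0 := by
    simp only [hv]
    rw [hpα, hpβ, hqα, hqβ]
    norm_num
  have hst : ∀ x ∈ S', ∀ l, x l = (x α - n * x β) * p l + x β * v l := by
    intro x hx l
    have h1 := hx.2 l
    show x l = (x α - n * x β) * p l + x β * (p' l + n * p l)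
    linear_combination h1
  -- the points off `v`
  set S'' : Set (σ → L) := {x ∈ S' | x α - n * x β ≠ 0} with hS''
  have hinf2 : S''.Infinite := by
    intro hfin2
    have hsub : {x ∈ S' | x α - n * x β = 0}.Subsingleton := by
      intro x hx y hy
      have ex : ∀ l, x l = x β * v l := by
        intro l
        have h1 := hst x hx.1 l
        rw [hx.2] at h1
        linear_combination h1
      have ey : ∀ l, y l = y β * v l := by
        intro l
        have h1 := hst y hy.1 l
        rw [hy.2] at h1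
        linear_combination h1
      have hx1 : x i₀ = 1 := hx.1.1.1
      have hy1 : y i₀ = 1 := hy.1.1.1
      have hxi := ex i₀
      have hyi := ey i₀
      rw [hx1] at hxi
      rw [hy1] at hyi
      have hv0 : v i₀ ≠ 0 := by
        intro h0
        rw [h0, mul_zero] at hxi
        exact one_ne_zero hxi
      have hb : x β = y β := mul_right_cancel₀ hv0 (by rw [← hxi, ← hyi])
      funext l
      rw [ex l, ey l, hb]
    refine hline ((hfin2.union hsub.finite).subset fun x hx => ?_)
    by_cases h0 : x α - n * x β = 0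
    · exact Or.inr ⟨hx, h0⟩
    · exact Or.inl ⟨hx, h0⟩
  have hz0 : ∀ x ∈ S'', ∀ l, x l =
      (x α - n * x β) * (p l + x β / (x α - n * x β) * v l) := by
    intro x hx l
    have h1 := hst x hx.1 l
    have h2 : (x α - n * x β) * (x β / (x α - n * x β)) = x β := mul_div_cancel₀ _ hx.2
    linear_combination h1 - v l * h2
  have hinj : Set.InjOn (fun x : σ → L => x β / (x α - n * x β)) S'' := by
    intro x hx y hy hxy
    have hxy' : x β / (x α - n * x β) = y β / (y α - n * y β) := hxy
    have hx1 : x i₀ = 1 := hx.1.1.1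
    have hy1 : y i₀ = 1 := hy.1.1.1
    have ex := hz0 x hx i₀
    have ey := hz0 y hy i₀
    rw [hx1] at ex
    rw [hy1, ← hxy'] at ey
    have hv0 : p i₀ + x β / (x α - n * x β) * v i₀ ≠ 0 := by
      intro h0
      rw [h0, mul_zero] at ex
      exact one_ne_zero ex
    have hb : x α - n * x β = y α - n * y β :=
      mul_right_cancel₀ hv0 (by rw [← ex, ← ey])
    funext l
    rw [hz0 x hx l, hz0 y hy l, ← hxy', hb]
  have hZ : ∀ i ∈ Z, lf (a i) p v = 0 := by
    intro i hi
    refine Polynomial.eq_zero_of_infinite_isRoot _ ((hinf2.image hinj).mono ?_)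
    rintro _ ⟨x, hx, rfl⟩
    show (lf (a i) p v).eval _ = 0
    have h1 : form (a i) x = 0 := hx.1.1.2.2.1 i hi
    have h2 : x = fun l => (x α - n * x β) * (p l + x β / (x α - n * x β) * v l) :=
      funext (hz0 x hx)
    rw [h2, fa_form_mul, mul_eq_zero, or_iff_right (pow_ne_zero _ hx.2)] at h1
    rw [lf_eval]
    exact h1
  have hPl : ∀ i, lf (ap i) p v ≠ 0 := by
    intro i h0
    obtain ⟨x, hx⟩ := hinf2.nonempty
    apply hx.1.1.2.1 i
    have h2 : x = fun l => (x α - n * x β) * (p l + x β / (x α - n * x β) * v l) :=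
      funext (hz0 x hx)
    rw [h2, fa_form_mul, ← lf_eval, h0, eval_zero, mul_zero]
  have hfinal := line_arith a Z A hA p v α β hpi hU (fun h h0 hdvd =>
    three_roots d b q a aA ap ah D (fun j : {s : Ix σ q // s ∉ T} => j.1) θ hD hM Z hnum p v
      α β hpi hPl hZ hU h h0 hdvd) i₀
  exact hline (hfinal.subset fun x hx =>
    ⟨hx.1.1, hx.1.2.2.2, x α - n * x β, x β, hst x hx⟩)

end Pool.Agent.Helper10.LV

end

section

/-! # LV-FL: the integral points lie on finitely many lines -/

set_option autoImplicit false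

namespace Pool.Agent.Helper10.LV

open scoped BigOperators
open Pool.Agent.Helper8.LG Pool.Agent.Helper8.LV Pool.Agent.Helper10.LB

/-- **The integral points lie on finitely many lines** (over any field of constants). -/
theorem fin_lines {k₀ L : Type*} [Field k₀] [Field L] [CharZero L] [Algebra k₀ L]
    (hfg : (⊤ : IntermediateField k₀ L).FG)
    {σ ι : Type*} [Fintype σ] [DecidableEq σ] [Fintype ι] [DecidableEq ι]
    (d b q : ι → ℕ) (a aA : (i : ι) → Sym σ (d i) → L) (ap : (i : ι) → Sym σ (b i) → L)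
    (ah : (i : ι) → Sym σ (q i) → L) (hF : Fam d b q a aA ap ah) (hAk : Over k₀ aA)
    (hpk : Over k₀ ap) (hq : ∀ i, 0 < q i) (c : ℕ)
    (hc : (Fintype.card (Ix σ q) : Cardinal) ≤ Algebra.trdeg k₀
      (IntermediateField.adjoin k₀ (Set.range fun p : Ix σ q => ah p.1 p.2)) + c)
    (Z : Finset ι) (i₀ : σ)
    (hw1 : 2 * Fintype.card σ + c ≤ ∑ i, q i + Z.card + 1)
    (hw2 : Fintype.card σ + 1 ≤ ∑ i, q i)
    (A : Subalgebra k₀ L) (hA : A.FG) :
    ∃ Λ : Set (Submodule L (σ → L)), Λ.Finite ∧ (∀ W ∈ Λ, Module.finrank L W ≤ 2) ∧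
      ∀ x : σ → L, x i₀ = 1 → Pt a Z A.toSubring x → (∀ i, form (ap i) x ≠ 0) →
        ∃ W ∈ Λ, x ∈ W := by
  classical
  suffices hmain : ∀ S' ⊆ {x : σ → L | x i₀ = 1 ∧ Pt a Z A.toSubring x ∧
      ∀ i, form (ap i) x ≠ 0}, S'.Infinite →
      ∃ W : Submodule L (σ → L), Module.finrank L W ≤ 2 ∧ (S' ∩ W).Infinite by
    obtain ⟨Λ, h1, h2, h3⟩ := greedy _ hmain i₀ (fun x hx => hx.1)
    exact ⟨Λ, h1, h2, fun x hx hp hP => h3 x ⟨hx, hp, hP⟩⟩
  intro S' hS' hinf
  by_cases hj : ∃ j₁ : σ, j₁ ≠ i₀
  · obtain ⟨j₁, hj₁⟩ := hj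
    obtain ⟨T, k, hT, hind, hfin, D, θ, hD, hDk⟩ := reduce hfg q ah c hc
    obtain ⟨s, hs⟩ := hA
    set A' : Subalgebra k L := Algebra.adjoin k (s : Set L) with hA'
    have hAA' : ∀ f ∈ A, f ∈ A' := by
      intro f hf
      rw [← hs] at hf
      induction hf using Algebra.adjoin_induction with
      | mem x hx => exact Algebra.subset_adjoin hx
      | algebraMap r =>
        have h1 : algebraMap k₀ L r = algebraMap k L (algebraMap k₀ k r) :=
          IsScalarTower.algebraMap_apply k₀ k L r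
        rw [h1]
        exact A'.algebraMap_mem _
      | add x y _ _ hx hy => exact add_mem hx hy
      | mul x y _ _ hx hy => exact mul_mem hx hy
    obtain ⟨α, β, p, p', -, -, -, -, -, hline⟩ := inf_line d b q a aA ap ah hF
      (over_tower hAk) (over_tower hpk) hq T hind hfin D (fun j => j.1) θ hD
      (fun j => j.2) hDk Z i₀ j₁ hj₁ (by omega) hw2 A' ⟨s, rfl⟩ S' hinf (by
        intro x hx
        obtain ⟨hx1, hx2, hx3⟩ := hS' hx
        refine ⟨hx1, ⟨hx2.zero, hx2.ne, ?_⟩, hx3⟩
        intro i hi J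
        exact (hx2.int i hi J).map_of_comp_eq (Subring.inclusion (S := A.toSubring)
          (T := A'.toSubring) (fun f hf => hAA' f hf)) (RingHom.id L) rfl)
    refine ⟨Submodule.span L ({p, p'} : Set (σ → L)), ?_, hline.mono ?_⟩
    · refine (finrank_span_le_card ({p, p'} : Set (σ → L))).trans ?_
      rw [Set.toFinset_card, Fintype.card_ofFinset]
      exact Finset.card_le_two
    · rintro x ⟨hx, hxl⟩
      refine ⟨hx, Submodule.mem_span_pair.2 ⟨x α, x β, ?_⟩⟩
      funext l
      rw [hxl l]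
      rfl
  · push Not at hj
    exfalso
    apply hinf
    have hsub : S'.Subsingleton := by
      intro x hx y hy
      funext l
      rw [hj l, (hS' hx).1, (hS' hy).1]
    exact hsub.finite

end Pool.Agent.Helper10.LV

end
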