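import Pool.Agent.Helper74.MG.T01

section

/-!
# LV: the field of coefficients of several polynomials
-/

set_option autoImplicit false

open MvPolynomial

namespace Pool.Agent.Helper8.LV

/-- The field generated over `k` by the coefficients of the polynomials `H i j`. -/
noncomputable def coeffField (k : Type*) {M : Type*} [Field k] [Field M] [Algebra k M] {N r n : ℕ}
    (H : Fin r → Fin n → MvPolynomial (Fin (N + 1)) M) : IntermediateField k M :=
  IntermediateField.adjoin k {z | ∃ i j J, z = coeff J (H i j)}

/-- The vector `g⁻¹ x`. -/
noncomputable def pull {K M : Type*} [Field K] [Field M] [Algebra K M] {N : ℕ}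
    (g : GL (Fin (N + 1)) M) (x : Fin (N + 1) → K) : Fin (N + 1) → M :=
  (g⁻¹ : GL (Fin (N + 1)) M).1.mulVec fun l => algebraMap K M (x l)

end Pool.Agent.Helper8.LV

end
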