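import Mathlib
import Pool.Agent.Helper74.MG.T19
import Pool.Agent.Helper74.MG.T21

section

/-! # LG-FINAL: the theorem over fields -/

set_option autoImplicit false

namespace Pool.Agent.Helper8.LG

open scoped BigOperators

private theorem num_mono {ι : Type*} [Fintype ι] {d e m : ι → ℕ} {Z C : Finset ι} {w c c' : ℕ}
    (h : Num d e m Z C w c) (hc : c' ≤ c) : Num d e m Z C w c' where
  pos := h.pos
  disj := h.disj
  deg := h.deg
  e0 := h.e0
  ineq := by
    have := h.ineq
    omega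

/-- normalised points, all roots non-zero -/
theorem final_aux {k₀ L : Type*} [Field k₀] [Field L] [CharZero L] [Algebra k₀ L]
    (hfg : (⊤ : IntermediateField k₀ L).FG)
    {σ ι : Type*} [Fintype σ] [DecidableEq σ] [Fintype ι] [DecidableEq ι]
    (d e m : ι → ℕ) (a : (i : ι) → Sym σ (d i) → L) (w c : ℕ)
    (hc : (Fintype.card (Ix σ d) : Cardinal) ≤ Algebra.trdeg k₀
      (IntermediateField.adjoin k₀ (Set.range fun p : Ix σ d => a p.1 p.2)) + c)
    (Z C : Finset ι) (i₀ : σ) (hnum : Num d e m Z C w c)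
    (A : Subalgebra k₀ L) (hA : A.FG) :
    {x : σ → L | x i₀ = 1 ∧
      Algebra.trdeg k₀ (IntermediateField.adjoin k₀ (Set.range x)) ≤ w ∧
      (∀ i ∈ Z, form (a i) x = 0) ∧ (∀ i ∉ Z, form (a i) x ≠ 0) ∧
      (∀ i ∈ C, ∃ y : L, y ^ m i = form (a i) x) ∧
      ∀ i ∉ Z, i ∉ C → ∀ J : Sym σ (d i), IsIntegral A (mon x J / form (a i) x)}.Finite := by
  classical
  obtain ⟨T, k, hT, hind, hfin, D, θ, hD, hDk⟩ := reduce hfg d a c hc
  have hnum' := num_mono hnum hT
  -- the algebra over `k`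
  obtain ⟨s, hs⟩ := hA
  set A' : Subalgebra k L := Algebra.adjoin k (s : Set L) with hA'
  have hAA' : ∀ f ∈ A, f ∈ A' := by
    intro f hf
    rw [← hs] at hf
    induction hf using Algebra.adjoin_induction with
    | mem x hx => exact Algebra.subset_adjoin hx
    | algebraMap r =>
      have h1 : algebraMap k₀ L r = algebraMap k L (algebraMap k₀ k r) :=
        IsScalarTower.algebraMap_apply k₀ k L r
      rw [h1]
      exact A'.algebraMap_mem _
    | add x y _ _ hx hy => exact add_mem hx hy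
    | mul x y _ _ hx hy => exact mul_mem hx hy
  obtain ⟨V, hV, hVb⟩ := bounded d e m a T hind hfin D (fun j => j.1) θ hD (fun j => j.2) hDk
    Z C i₀ w hnum' A' ⟨s, rfl⟩
  haveI := hV
  refine ultra (k := k) d e m a D (fun j => j.1) θ hD hDk Z C i₀ w hnum' V _ ?_
  rintro x ⟨h1, h2, h3, h4, h5, h6⟩
  have hrank : MinorsVanish D x w := by
    refine minors_of_trdeg (k := k₀) D ?_ x i₀ h1 w h2
    intro p r
    have h7 : algebraMap k₀ L r = algebraMap k L (algebraMap k₀ k r) :=
      IsScalarTower.algebraMap_apply k₀ k L r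
    rw [h7]
    exact hDk p _
  choose y hy using h5
  set y' : ι → L := fun i => if h : i ∈ C then y i h else 0 with hy'
  have hyy : ∀ i ∈ C, y' i ^ m i = form (a i) x := by
    intro i hi
    rw [hy']
    simp only [dif_pos hi]
    exact hy i hi
  have hgood : Good d m a D Z C i₀ w A'.toSubring x y' := by
    refine ⟨h1, h3, h4, hyy, ?_, hrank⟩
    intro i hiZ hiC J
    have h8 := h6 i hiZ hiC J
    exact h8.map_of_comp_eq (Subring.inclusion (S := A.toSubring) (T := A'.toSubring)
      (fun f hf => hAA' f hf)) (RingHom.id L) rfl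
  obtain ⟨G, hG, hG1, hG2, hG3⟩ := hVb x y' hgood
  exact ⟨h1, h3, h4, hrank, y', G, hG, hG1, hG2, hyy, hG3⟩

end Pool.Agent.Helper8.LG

end

section

/-!
# QS-DER: a derivation over a subfield

`Ω` is a field of characteristic zero, `y` is transcendental over the subfield `B`: there is a
derivation of `Ω` over `B` which does not kill `y` (transcendence basis containing `y`, derivation
of the rational function field, unique extension to algebraic extensions; or: `Ω / B(y)` is formally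
smooth / the Kaehler differential `dy` is not zero). See also `red_exists_der` of
`Helper8/LG/Reduce.lean`, where the extension is finite.
-/

set_option autoImplicit false

namespace Pool.Agent.Helper6.QS

theorem exists_der {Ω : Type*} [Field Ω] [CharZero Ω] (B : Subfield Ω) (y : Ω)
    (hy : ¬ IsAlgebraic B y) :
    ∃ δ : Derivation ℤ Ω Ω, (∀ b ∈ B, δ b = 0) ∧ δ y ≠ 0 := by
  classical
  have h1 : AlgebraicIndepOn B id ({y} : Set Ω) := by
    have h2 : Transcendental B y := hy
    exact (algebraicIndependent_unique_type_iff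
      (x := fun i : ({y} : Set Ω) => id i.1)).2 h2
  obtain ⟨t, hst, ht⟩ := exists_isTranscendenceBasis_superset h1
  have hyt : y ∈ t := hst rfl
  have ha := ht.isAlgebraic
  obtain ⟨D, hD⟩ := Pool.Agent.Helper8.LG.red_exists_der (k := B) (fun i : t => (i : Ω)) ht.1 ha
    (fun i => if (i : Ω) = y then 1 else 0)
  refine ⟨D.restrictScalars ℤ, fun b hb => ?_, ?_⟩
  · exact D.map_algebraMap (⟨b, hb⟩ : B)
  · have h3 := hD ⟨y, hyt⟩
    rw [if_pos rfl] at h3
    change D y ≠ 0
    rw [h3]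
    exact one_ne_zero

end Pool.Agent.Helper6.QS

end

section

/-!
# Q8-ADX: a derivation of a family of 2 x 2 matrices with constant traces is inner

Let `S` be the span of the `M i`. A relation `∑ c_i M_i = 0` gives `∑ c_i δ(M_i) = - ∑ δ(c_i) M_i`,
which is in `S` and orthogonal to all `M_j` (`δ tr(M_i M_j) = 0`), so zero: there is a linear map
`G` with `G (M i) = δ (M i)`, skew on `S`. With the orthogonal projection `π` to `S` and the adjoint
`A` of `G` (values in `S`) the map `F = G π + A (1 - π)` is skew on all matrices and extends `G`;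
`F 1 = 0`. A skew map of `M_2` killing `1` is `ad X` (`X` explicit).
-/

set_option autoImplicit false

namespace Pool.Agent.Helper74.Q8

open scoped BigOperators Matrix

section AdX_aux

variable {Ω : Type*} [Field Ω]

theorem AdX_trace_der (δ : Derivation ℤ Ω Ω) (M N : Matrix (Fin 2) (Fin 2) Ω) :
    δ (M * N).trace = (M.map δ * N).trace + (M * N.map δ).trace := by
  simp only [Matrix.trace_fin_two, Matrix.mul_apply, Fin.sum_univ_two, Matrix.map_apply, map_add,
    Derivation.leibniz, smul_eq_mul]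
  ring

/-- a skew map killing `1` is inner -/
theorem AdX_full [CharZero Ω]
    (F : Matrix (Fin 2) (Fin 2) Ω →ₗ[Ω] Matrix (Fin 2) (Fin 2) Ω)
    (hs : ∀ N, (F N * N).trace = 0) (h1 : F 1 = 0) :
    ∃ X : Matrix (Fin 2) (Fin 2) Ω, ∀ N, F N = X * N - N * X := by
  have hp : ∀ N N', (F N * N').trace + (F N' * N).trace = 0 := by
    intro N N'
    have h := hs (N + N')
    rw [map_add, add_mul, mul_add, mul_add, Matrix.trace_add, Matrix.trace_add, Matrix.trace_add,
      hs N, hs N'] at h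
    linear_combination h
  obtain ⟨a, ha⟩ : ∃ a, a = F !![1, 0; 0, 0] := ⟨_, rfl⟩
  obtain ⟨b, hb⟩ : ∃ b, b = F !![0, 1; 0, 0] := ⟨_, rfl⟩
  obtain ⟨c, hc⟩ : ∃ c, c = F !![0, 0; 1, 0] := ⟨_, rfl⟩
  obtain ⟨d, hd⟩ : ∃ d, d = F !![0, 0; 0, 1] := ⟨_, rfl⟩
  have hF : ∀ N : Matrix (Fin 2) (Fin 2) Ω,
      F N = N 0 0 • a + N 0 1 • b + N 1 0 • c + N 1 1 • d := by
    intro N
    have h : N = N 0 0 • (!![1, 0; 0, 0] : Matrix (Fin 2) (Fin 2) Ω) +
        N 0 1 • (!![0, 1; 0, 0] : Matrix (Fin 2) (Fin 2) Ω) +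
        N 1 0 • (!![0, 0; 1, 0] : Matrix (Fin 2) (Fin 2) Ω) +
        N 1 1 • (!![0, 0; 0, 1] : Matrix (Fin 2) (Fin 2) Ω) := by
      ext i j
      fin_cases i <;> fin_cases j <;> simp
    have h' := congrArg F h
    rw [map_add, map_add, map_add, map_smul, map_smul, map_smul, map_smul, ← ha, ← hb, ← hc,
      ← hd] at h'
    exact h'
  have e1 : a 0 0 = 0 := by
    have h := hs !![1, 0; 0, 0]
    rw [← ha] at h
    simpa [Matrix.trace_fin_two, Matrix.mul_apply, Fin.sum_univ_two] using h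
  have e2 : b 1 0 = 0 := by
    have h := hs !![0, 1; 0, 0]
    rw [← hb] at h
    simpa [Matrix.trace_fin_two, Matrix.mul_apply, Fin.sum_univ_two] using h
  have e3 : c 0 1 = 0 := by
    have h := hs !![0, 0; 1, 0]
    rw [← hc] at h
    simpa [Matrix.trace_fin_two, Matrix.mul_apply, Fin.sum_univ_two] using h
  have e4 : d 1 1 = 0 := by
    have h := hs !![0, 0; 0, 1]
    rw [← hd] at h
    simpa [Matrix.trace_fin_two, Matrix.mul_apply, Fin.sum_univ_two] using h
  have e5 : a + d = 0 := by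
    have h := hF 1
    rw [h1] at h
    rw [h]
    simp
  have e5' : ∀ i j, a i j + d i j = 0 := fun i j => by
    have h := congrFun (congrFun e5 i) j
    simpa using h
  have e6 : a 1 0 + b 0 0 = 0 := by
    have h := hp !![1, 0; 0, 0] !![0, 1; 0, 0]
    rw [← ha, ← hb] at h
    simpa [Matrix.trace_fin_two, Matrix.mul_apply, Fin.sum_univ_two] using h
  have e7 : a 0 1 + c 0 0 = 0 := by
    have h := hp !![1, 0; 0, 0] !![0, 0; 1, 0]
    rw [← ha, ← hc] at h
    simpa [Matrix.trace_fin_two, Matrix.mul_apply, Fin.sum_univ_two] using h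
  have e8 : d 1 0 + b 1 1 = 0 := by
    have h := hp !![0, 0; 0, 1] !![0, 1; 0, 0]
    rw [← hd, ← hb] at h
    simpa [Matrix.trace_fin_two, Matrix.mul_apply, Fin.sum_univ_two] using h
  have e9 : d 0 1 + c 1 1 = 0 := by
    have h := hp !![0, 0; 0, 1] !![0, 0; 1, 0]
    rw [← hd, ← hc] at h
    simpa [Matrix.trace_fin_two, Matrix.mul_apply, Fin.sum_univ_two] using h
  have e10 : b 0 1 + c 1 0 = 0 := by
    have h := hp !![0, 1; 0, 0] !![0, 0; 1, 0]
    rw [← hb, ← hc] at h
    simpa [Matrix.trace_fin_two, Matrix.mul_apply, Fin.sum_univ_two] using h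
  refine ⟨!![b 0 1 / 2, -a 0 1; a 1 0, -(b 0 1 / 2)], fun N => ?_⟩
  rw [hF N]
  ext i j
  fin_cases i <;> fin_cases j <;>
    simp only [Matrix.add_apply, Matrix.smul_apply, Matrix.sub_apply, Matrix.mul_apply,
      Fin.sum_univ_two, smul_eq_mul, Fin.zero_eta, Fin.mk_one, Matrix.of_apply,
      Matrix.cons_val', Matrix.cons_val_zero, Matrix.cons_val_one, Matrix.cons_val_fin_one,
      Fin.isValue]
  · linear_combination (N 0 0 - N 1 1) * e1 + N 1 1 * e5' 0 0 + N 0 1 * e6 + N 1 0 * e7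
  · linear_combination N 1 0 * e3 + N 1 1 * e5' 0 1
  · linear_combination N 0 1 * e2 + N 1 0 * e10 + N 1 1 * e5' 1 0
  · linear_combination (N 1 1 - N 0 0) * e4 + N 0 0 * e5' 1 1 + N 0 1 * e8 + N 1 0 * e9
      - N 0 1 * e5' 1 0 - N 1 0 * e5' 0 1

/-- the extension of a skew map of a nondegenerate subspace -/
theorem AdX_ext (S : Submodule Ω (Matrix (Fin 2) (Fin 2) Ω))
    (hnd : ∀ N ∈ S, (∀ N' ∈ S, (N * N').trace = 0) → N = 0)
    (G : Matrix (Fin 2) (Fin 2) Ω →ₗ[Ω] Matrix (Fin 2) (Fin 2) Ω)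
    (hs : ∀ N ∈ S, (G N * N).trace = 0) :
    ∃ F : Matrix (Fin 2) (Fin 2) Ω →ₗ[Ω] Matrix (Fin 2) (Fin 2) Ω,
      (∀ N, (F N * N).trace = 0) ∧ ∀ N ∈ S, F N = G N := by
  obtain ⟨T, hT⟩ : ∃ T : Matrix (Fin 2) (Fin 2) Ω →ₗ[Ω] Matrix (Fin 2) (Fin 2) Ω →ₗ[Ω] Ω,
      ∀ N N', T N N' = (N * N').trace :=
    ⟨LinearMap.mk₂ Ω (fun N N' => (N * N').trace)
      (fun _ _ _ => by rw [add_mul, Matrix.trace_add])
      (fun _ _ _ => by rw [Matrix.smul_mul, Matrix.trace_smul])
      (fun _ _ _ => by rw [mul_add, Matrix.trace_add])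
      (fun _ _ _ => by rw [Matrix.mul_smul, Matrix.trace_smul]), fun _ _ => rfl⟩
  -- the map to the dual of `S`
  let R : Matrix (Fin 2) (Fin 2) Ω →ₗ[Ω] Module.Dual Ω S := (LinearMap.lcomp Ω Ω S.subtype) ∘ₗ T
  have hR : ∀ N (s : S), R N s = (N * (s : Matrix (Fin 2) (Fin 2) Ω)).trace := fun N s => hT N s
  have hinj : Function.Injective (R ∘ₗ S.subtype) := by
    rw [injective_iff_map_eq_zero]
    intro s hs'
    apply Subtype.ext
    refine hnd s s.2 fun N' hN' => ?_
    have h := LinearMap.congr_fun hs' ⟨N', hN'⟩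
    rw [LinearMap.comp_apply, Submodule.subtype_apply, hR] at h
    exact h
  obtain ⟨e, he⟩ : ∃ e : S ≃ₗ[Ω] Module.Dual Ω S, ∀ s, e s = R s :=
    ⟨LinearMap.linearEquivOfInjective (R ∘ₗ S.subtype) hinj
      (Subspace.dual_finrank_eq).symm, fun s => rfl⟩
  -- the projection
  let P : Matrix (Fin 2) (Fin 2) Ω →ₗ[Ω] S := e.symm.toLinearMap ∘ₗ R
  have hP : ∀ N (s : S), ((P N : Matrix (Fin 2) (Fin 2) Ω) *
      (s : Matrix (Fin 2) (Fin 2) Ω)).trace = (N * (s : Matrix (Fin 2) (Fin 2) Ω)).trace := by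
    intro N s
    rw [← hR, ← hR, ← he]
    show (e (e.symm (R N))) s = R N s
    rw [LinearEquiv.apply_symm_apply]
  -- the adjoint
  let A : Matrix (Fin 2) (Fin 2) Ω →ₗ[Ω] S :=
    e.symm.toLinearMap ∘ₗ (LinearMap.lcomp Ω Ω (G ∘ₗ S.subtype)) ∘ₗ T
  have hA : ∀ N (s : S), ((A N : Matrix (Fin 2) (Fin 2) Ω) *
      (s : Matrix (Fin 2) (Fin 2) Ω)).trace = (N * G (s : Matrix (Fin 2) (Fin 2) Ω)).trace := by
    intro N s
    rw [← hR, ← he, ← hT]
    show (e (e.symm ((LinearMap.lcomp Ω Ω (G ∘ₗ S.subtype)) (T N)))) s = T N (G s)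
    rw [LinearEquiv.apply_symm_apply]
    rfl
  refine ⟨G ∘ₗ S.subtype ∘ₗ P - S.subtype ∘ₗ A ∘ₗ (LinearMap.id - S.subtype ∘ₗ P), ?_, ?_⟩
  · intro N
    obtain ⟨s, hs'⟩ : ∃ s, s = P N := ⟨_, rfl⟩
    obtain ⟨t, ht⟩ : ∃ t, t = N - (s : Matrix (Fin 2) (Fin 2) Ω) := ⟨_, rfl⟩
    have hN : N = s + t := by rw [ht]; abel
    have h0 : ∀ s' : S, (t * (s' : Matrix (Fin 2) (Fin 2) Ω)).trace = 0 := by
      intro s'
      rw [ht, sub_mul, Matrix.trace_sub, hs', hP, sub_self]
    have e1 : (G ∘ₗ S.subtype ∘ₗ P - S.subtype ∘ₗ A ∘ₗ (LinearMap.id - S.subtype ∘ₗ P) :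
        Matrix (Fin 2) (Fin 2) Ω →ₗ[Ω] Matrix (Fin 2) (Fin 2) Ω) N = G s - A t := by
      rw [ht, hs']
      rfl
    rw [e1]
    have h2 := hs s s.2
    have h3 := hA t s
    have h4 := h0 (A t)
    rw [Matrix.trace_mul_comm] at h4
    have h5 : ((G s - A t) * N).trace = (G s * s).trace + (G s * t).trace -
        ((A t : Matrix (Fin 2) (Fin 2) Ω) * s).trace -
        ((A t : Matrix (Fin 2) (Fin 2) Ω) * t).trace := by
      conv_lhs => rw [hN]
      rw [sub_mul, mul_add, mul_add, Matrix.trace_sub, Matrix.trace_add, Matrix.trace_add]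
      ring
    rw [h5, h2, h3, h4, Matrix.trace_mul_comm (G s) t]
    ring
  · intro N hN
    have h1 : P N = ⟨N, hN⟩ := by
      apply Subtype.ext
      refine sub_eq_zero.1 (hnd _ (S.sub_mem (P N).2 hN) fun N' hN' => ?_)
      rw [sub_mul, Matrix.trace_sub]
      exact sub_eq_zero.2 (hP N ⟨N', hN'⟩)
    show G (P N : Matrix (Fin 2) (Fin 2) Ω) - A (N - (P N : Matrix (Fin 2) (Fin 2) Ω)) = G N
    rw [h1]
    show G N - A (N - N) = G N
    rw [sub_self, map_zero]
    show G N - 0 = G N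
    rw [sub_zero]

/-- the linear map `M i ↦ δ (M i)` -/
theorem AdX_lin {ι : Type*} (M M' : ι → Matrix (Fin 2) (Fin 2) Ω)
    (h : ∀ c : ι →₀ Ω, Finsupp.linearCombination Ω M c = 0 →
      Finsupp.linearCombination Ω M' c = 0) :
    ∃ G : Matrix (Fin 2) (Fin 2) Ω →ₗ[Ω] Matrix (Fin 2) (Fin 2) Ω, ∀ i, G (M i) = M' i := by
  obtain ⟨g, hg⟩ := (Finsupp.linearCombination Ω M).rangeRestrict.exists_rightInverse_of_surjective
    (LinearMap.range_rangeRestrict _)
  obtain ⟨G, hG⟩ := LinearMap.exists_extend ((Finsupp.linearCombination Ω M') ∘ₗ g)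
  refine ⟨G, fun i => ?_⟩
  have h1 : Finsupp.linearCombination Ω M (Finsupp.single i 1) = M i := by
    rw [Finsupp.linearCombination_single, one_smul]
  have h2 : Finsupp.linearCombination Ω M' (Finsupp.single i 1) = M' i := by
    rw [Finsupp.linearCombination_single, one_smul]
  have h3 := LinearMap.congr_fun hG
    ((Finsupp.linearCombination Ω M).rangeRestrict (Finsupp.single i 1))
  have h4 : G (M i) = Finsupp.linearCombination Ω M'
      (g ((Finsupp.linearCombination Ω M).rangeRestrict (Finsupp.single i 1))) := by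
    rw [← h1]
    exact h3
  have h5 := LinearMap.congr_fun hg
    ((Finsupp.linearCombination Ω M).rangeRestrict (Finsupp.single i 1))
  have h6 := h (g ((Finsupp.linearCombination Ω M).rangeRestrict (Finsupp.single i 1)) -
    Finsupp.single i 1) (by
      rw [map_sub, sub_eq_zero]
      exact congrArg Subtype.val h5)
  rw [map_sub, sub_eq_zero, h2] at h6
  rw [h4, h6]

end AdX_aux

theorem ad_X {Ω : Type*} [Field Ω] [CharZero Ω] {B : Subfield Ω} {ι : Type*}
    (M : ι → Matrix (Fin 2) (Fin 2) Ω) (i₀ : ι) (h1 : M i₀ = 1)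
    (htr : ∀ i j, (M i * M j).trace ∈ B)
    (hnd : ∀ N ∈ Submodule.span Ω (Set.range M), (∀ i, (N * M i).trace = 0) → N = 0)
    (δ : Derivation ℤ Ω Ω) (hδ : ∀ b ∈ B, δ b = 0) :
    ∃ X : Matrix (Fin 2) (Fin 2) Ω, ∀ i, (M i).map δ = X * M i - M i * X := by
  have hrel : ∀ c : ι →₀ Ω, Finsupp.linearCombination Ω M c = 0 →
      Finsupp.linearCombination Ω (fun i => (M i).map δ) c = 0 := by
    intro c hc
    rw [Finsupp.linearCombination_apply, Finsupp.sum] at hc ⊢
    have h2 : ∑ i ∈ c.support, δ (c i) • M i + ∑ i ∈ c.support, c i • (M i).map δ = 0 := by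
      ext a b
      have h3 := congrFun (congrFun hc a) b
      rw [Matrix.sum_apply] at h3
      have h4 := congrArg δ h3
      rw [map_sum] at h4
      rw [Matrix.add_apply, Matrix.sum_apply, Matrix.sum_apply, ← Finset.sum_add_distrib]
      rw [Matrix.zero_apply, map_zero] at h4
      rw [Matrix.zero_apply, ← h4]
      refine Finset.sum_congr rfl fun i _ => ?_
      rw [Matrix.smul_apply, Matrix.smul_apply, Matrix.smul_apply, Matrix.map_apply, smul_eq_mul,
        smul_eq_mul, smul_eq_mul, Derivation.leibniz, smul_eq_mul, smul_eq_mul]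
      ring
    have h3 : ∑ i ∈ c.support, δ (c i) • M i = 0 := by
      refine hnd _ (Submodule.sum_mem _ fun i _ => Submodule.smul_mem _ _
        (Submodule.subset_span ⟨i, rfl⟩)) fun j => ?_
      rw [Finset.sum_mul, Matrix.trace_sum]
      have h4 : δ (((∑ i ∈ c.support, c i • M i) * M j).trace) = 0 := by
        rw [hc, zero_mul, Matrix.trace_zero, map_zero]
      rw [Finset.sum_mul, Matrix.trace_sum, map_sum] at h4
      rw [← h4]
      refine Finset.sum_congr rfl fun i _ => ?_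
      rw [Matrix.smul_mul, Matrix.smul_mul, Matrix.trace_smul, Matrix.trace_smul, smul_eq_mul,
        smul_eq_mul, Derivation.leibniz, hδ _ (htr i j), smul_zero, zero_add, smul_eq_mul,
        mul_comm]
    rw [h3, zero_add] at h2
    exact h2
  obtain ⟨G, hG⟩ := AdX_lin M (fun i => (M i).map δ) hrel
  have hskew : ∀ i j, (G (M i) * M j).trace + (M i * G (M j)).trace = 0 := by
    intro i j
    rw [hG, hG, ← AdX_trace_der, hδ _ (htr i j)]
  have hsk1 : ∀ i, ∀ N ∈ Submodule.span Ω (Set.range M),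
      (G (M i) * N).trace + (M i * G N).trace = 0 := by
    intro i N hN
    induction hN using Submodule.span_induction with
    | mem x hx =>
      obtain ⟨j, rfl⟩ := hx
      exact hskew i j
    | zero => rw [map_zero, mul_zero, mul_zero, Matrix.trace_zero, add_zero]
    | add x y _ _ hx hy =>
      rw [map_add, mul_add, mul_add, Matrix.trace_add, Matrix.trace_add]
      linear_combination hx + hy
    | smul c x _ hx =>
      rw [map_smul, Matrix.mul_smul, Matrix.mul_smul, Matrix.trace_smul, Matrix.trace_smul,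
        smul_eq_mul, smul_eq_mul]
      linear_combination c * hx
  have hsk2 : ∀ N' ∈ Submodule.span Ω (Set.range M), ∀ N ∈ Submodule.span Ω (Set.range M),
      (G N' * N).trace + (N' * G N).trace = 0 := by
    intro N' hN' N hN
    induction hN' using Submodule.span_induction with
    | mem x hx =>
      obtain ⟨j, rfl⟩ := hx
      exact hsk1 j N hN
    | zero => rw [map_zero, zero_mul, zero_mul, Matrix.trace_zero, add_zero]
    | add x y _ _ hx hy =>
      rw [map_add, add_mul, add_mul, Matrix.trace_add, Matrix.trace_add]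
      linear_combination hx + hy
    | smul c x _ hx =>
      rw [map_smul, Matrix.smul_mul, Matrix.smul_mul, Matrix.trace_smul, Matrix.trace_smul,
        smul_eq_mul, smul_eq_mul]
      linear_combination c * hx
  obtain ⟨F, hF1, hF2⟩ := AdX_ext (Submodule.span Ω (Set.range M))
    (fun N hN h => hnd N hN fun i => h _ (Submodule.subset_span ⟨i, rfl⟩)) G (fun N hN => by
      have h := hsk2 N hN N hN
      rw [Matrix.trace_mul_comm N (G N), ← two_mul] at h
      exact (mul_eq_zero.1 h).resolve_left two_ne_zero)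
  have hF : ∀ i, F (M i) = (M i).map δ := fun i => by
    rw [hF2 _ (Submodule.subset_span ⟨i, rfl⟩), hG]
  obtain ⟨X, hX⟩ := AdX_full F hF1 (by
    rw [← h1, hF, h1]
    ext a b
    rw [Matrix.map_apply, Matrix.one_apply, Matrix.zero_apply]
    split_ifs
    · exact δ.map_one_eq_zero
    · exact map_zero δ)
  exact ⟨X, fun i => by rw [← hF, hX]⟩

end Pool.Agent.Helper74.Q8

end
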