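import Pool.Agent.Helper74.MG.T32
import Pool.Agent.Helper74.MG.T36
import Pool.Agent.Helper74.MG.T27
import Pool.Agent.Helper74.MG.T37
import Pool.Agent.Helper74.MG.T39
import Pool.Agent.Helper74.MG.T43
import Pool.Agent.Helper74.MG.T03
import Pool.Agent.Helper74.MG.T06

section

/-!
# Points of the intersection of all the hypersurfaces are bounded, moving linear systems
-/

set_option autoImplicit false

namespace Pool.Agent.Helper49.LV

open scoped BigOperators
open Pool.Agent.Helper8.LG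
open Pool.Agent.Helper8.LV (Fam Mov Over)
open Pool.Agent.Helper49.LG (lineP lineP_eval form_mul lead_mem exists_den intCl_closed)

/-- The multiplier of a point: one `G` which works in all directions. -/
theorem exists_lead {L : Type*} [Field L] [CharZero L] {σ ι τ : Type*} [Fintype σ] [DecidableEq σ]
    [Fintype ι] [DecidableEq ι] [Fintype τ] (d b q : ι → ℕ)
    (a aA : (i : ι) → Sym σ (d i) → L) (ap : (i : ι) → Sym σ (b i) → L)
    (ah : (i : ι) → Sym σ (q i) → L) (D : Ix σ q → Derivation ℤ L L)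
    (jj : τ → Ix σ q) (θ : τ → Ix σ q → L) (hD : Dual q ah D jj θ)
    (hM : Mov d b q a aA ap ah D)
    (hw3 : 2 * Fintype.card σ + Fintype.card τ ≤ ∑ i, (q i + 1) + 3)
    (x δ : σ → L) (hx : ∀ i, form (a i) x = 0) (hPx : ∀ i, form (ap i) x ≠ 0) (hP : ∃ j l, x j * δ l - x l * δ j ≠ 0) :
    ∃ G : L, G ≠ 0 ∧ ∀ (R : Subring L) (Δ : L), (∀ z : L, IsIntegral R z → z ∈ R) → Δ ≠ 0 →
      Δ ∈ R → (∀ i J, Δ * a i J ∈ R) → (∀ j l, Δ * (x j * δ l - x l * δ j) ∈ R) →
      ∀ l, Δ ^ (∑ i, d i + 2) * (G * x l) ∈ R := by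
  classical
  obtain ⟨α, β, hαβ, hxα⟩ : ∃ α β, x α * δ β - x β * δ α ≠ 0 ∧ x α ≠ 0 := by
    obtain ⟨j, l, hjl⟩ := hP
    by_cases hj : x j = 0
    · refine ⟨l, j, ?_, ?_⟩
      · intro h
        apply hjl
        linear_combination -h
      · intro h
        apply hjl
        rw [hj, h]
        ring
    · exact ⟨j, l, hjl, hj⟩
  set P : σ → σ → L := fun j l => x j * δ l - x l * δ j with hPdef
  have hP0 : P α β ≠ 0 := hαβ
  have hne : α ≠ β := by
    intro h
    apply hαβ
    rw [h]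
    ring
  have hpp : ∀ j, P j j = 0 := fun j => by
    simp only [hPdef]
    ring
  obtain ⟨i, n, hin⟩ := gen_line d b q a aA ap ah D jj θ hD hM α β hne
    (fun l => P l β / P α β) (fun l => P α l / P α β) (div_self hP0) (by rw [hpp, zero_div])
    (by rw [hpp, zero_div]) (div_self hP0) x (fun l => by
      have h1 : x l * P α β = x α * P l β + x β * P α l := by
        simp only [hPdef]
        ring
      show x l = x α * (P l β / P α β) + x β * (P α l / P α β)
      rw [mul_div_assoc', mul_div_assoc', ← add_div, eq_div_iff hP0, h1]) hPx hw3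
  set F := lineP (a i) (fun l => P l β) (fun l => P α l) with hF
  have hF0 : F ≠ 0 := by
    intro h0
    have h1 := lineP_eval (a i) (fun l => P l β) (fun l => P α l) (n : L)
    rw [← hF, h0, Polynomial.eval_zero] at h1
    apply hin
    have h2 := form_mul 1 (P α β)⁻¹ (a i) (fun l => P l β + n * P α l)
    rw [← h1, mul_zero] at h2
    simp only [one_mul] at h2
    rw [← h2]
    congr 1
    funext l
    rw [div_eq_mul_inv, div_eq_mul_inv]
    ring
  set z := x β / x α with hz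
  have hpl : ∀ l, P l β + z * P α l = P α β / x α * x l := by
    intro l
    rw [hz]
    simp only [hPdef]
    field_simp
    ring
  have hroot : form (a i) (fun l => P l β + z * P α l) = 0 := by
    have h2 := form_mul 1 (P α β / x α) (a i) x
    rw [hx i, mul_zero] at h2
    simp only [one_mul] at h2
    rw [← h2]
    congr 1
    funext l
    exact hpl l
  refine ⟨F.leadingCoeff * (P α β / x α),
    mul_ne_zero (Polynomial.leadingCoeff_ne_zero.2 hF0) (div_ne_zero hP0 hxα), ?_⟩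
  intro R Δ hR hΔ0 hΔ ha hPR l
  have h1 := lead_mem R hR Δ (a i) (fun l => P l β) (fun l => P α l) hΔ0 (ha i)
    (fun l => hPR l β) (fun l => hPR α l) z hroot l
  rw [hpl l, ← hF] at h1
  obtain ⟨r, hr⟩ : ∃ r, ∑ i, d i + 2 = d i + 2 + r := by
    apply Nat.exists_eq_add_of_le
    have h2 : d i ≤ ∑ i, d i := Finset.single_le_sum (f := d) (fun _ _ => Nat.zero_le _)
      (Finset.mem_univ i)
    omega
  rw [hr, pow_add]
  have h3 : Δ ^ (d i + 2) * Δ ^ r * (F.leadingCoeff * (P α β / x α) * x l) =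
      Δ ^ r * (Δ ^ (d i + 2) * (F.leadingCoeff * (P α β / x α * x l))) := by
    ring
  rw [h3]
  exact mul_mem (pow_mem hΔ r) h1

/-- **Points of the intersection are bounded.** -/
theorem bounded_pt {k L : Type*} [Field k] [Field L] [CharZero L] [Algebra k L]
    {σ ι τ : Type*} [Fintype σ] [DecidableEq σ] [Fintype ι] [DecidableEq ι] [Fintype τ]
    (d b q : ι → ℕ) (hq : ∀ i, 0 < q i) (a aA : (i : ι) → Sym σ (d i) → L)
    (ap : (i : ι) → Sym σ (b i) → L) (ah : (i : ι) → Sym σ (q i) → L)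
    (hF : Fam d b q a aA ap ah) (hAk : Over k aA) (hpk : Over k ap) (T : Finset (Ix σ q))
    (hind : AlgebraicIndependent k (fun p : T => ah p.1.1 p.1.2))
    (hfin : FiniteDimensional
      (IntermediateField.adjoin k (Set.range fun p : T => ah p.1.1 p.1.2)) L)
    (D : Ix σ q → Derivation ℤ L L) (jj : τ → Ix σ q) (θ : τ → Ix σ q → L)
    (hD : Dual q ah D jj θ) (hT : ∀ j, jj j ∉ T)
    (hDk : ∀ p (c : k), D p (algebraMap k L c) = 0)
    (i₀ j₁ : σ) (hj : j₁ ≠ i₀) (w : ℕ)
    (hw1 : 2 * w + 1 + Fintype.card τ ≤ ∑ i, (q i + 1)) (hw2 : w + 2 ≤ ∑ i, q i)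
    (hw3 : 2 * Fintype.card σ + Fintype.card τ ≤ ∑ i, (q i + 1) + 3) :
    ∃ V : Submodule k L, FiniteDimensional k V ∧ ∀ x : σ → L, x i₀ = 1 →
      (∀ i, form (a i) x = 0) → (∀ i, form (ap i) x ≠ 0) → MinorsVanish D x w → ∃ G : L, G ≠ 0 ∧ ∀ l, G * x l ∈ V := by
  classical
  obtain ⟨V, hV, hVx⟩ := bounded_line d b q hq a aA ap ah hF hAk hpk T hind hfin D jj θ hD hT
    hDk Finset.univ i₀ j₁ hj w
    (by
      rw [Finset.sum_add_distrib, Finset.sum_const, smul_eq_mul, mul_one] at hw1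
      exact hw1) hw2 ⊥ Subalgebra.fg_bot
  have := hV
  set y₀ : T → L := fun p : T => ah p.1.1 p.1.2 with hy₀
  have htr := others_transcendental (k := k) y₀ hind
  have hof := others_finite (k := k) y₀ hfin
  set S : Set L := Set.range fun p : Ix σ d => a p.1 p.2 with hS
  have hSfin : S.Finite := Set.finite_range _
  have hdir : ∀ (p : T) (t : L), Transcendental (others (k := k) y₀ p) t →
      FiniteDimensional (Subfield.closure ((others (k := k) y₀ p : Set L) ∪ {t})) L →
      ∃ Δ : L, Δ ≠ 0 ∧ Δ ∈ intCl (others (k := k) y₀ p) t ∧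
        (∀ z : L, IsIntegral (intCl (others (k := k) y₀ p) t) z →
          z ∈ intCl (others (k := k) y₀ p) t) ∧
        (∀ f ∈ V, Δ * f ∈ intCl (others (k := k) y₀ p) t) ∧
        ∀ f ∈ S, Δ * f ∈ intCl (others (k := k) y₀ p) t := by
    intro p t ht hf
    obtain ⟨h1, h2⟩ := intCl_dedekind (others (k := k) y₀ p) t ht hf
    have hk : ∀ c : k, algebraMap k L c ∈ intCl (others (k := k) y₀ p) t := by
      intro c
      have h3 : algebraMap k L c ∈ Subring.closure ((others (k := k) y₀ p : Set L) ∪ {t}) :=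
        Subring.subset_closure (Or.inl (IntermediateField.algebraMap_mem _ c))
      exact isIntegral_algebraMap (x := (⟨algebraMap k L c, h3⟩ :
        Subring.closure ((others (k := k) y₀ p : Set L) ∪ {t})))
    have := h2
    obtain ⟨Δ, h4, h5, h6, h7⟩ := exists_den (intCl (others (k := k) y₀ p) t) hk V S hSfin
    exact ⟨Δ, h4, h5, intCl_closed _ _ h1 h2, h6, h7⟩
  choose Δ₁ h10 h11 h12 h13 h14 using fun p => hdir p (y₀ p) (htr p).1 (hof p).1
  choose Δ₂ h20 h21 h22 h23 h24 using fun p => hdir p (y₀ p)⁻¹ (htr p).2 (hof p).2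
  obtain ⟨V', hV', hV''⟩ := fd y₀ hind hfin (fun p => Δ₁ p ^ (∑ i, d i + 2))
    (fun p => Δ₂ p ^ (∑ i, d i + 2)) (fun p => pow_ne_zero _ (h10 p))
    (fun p => pow_ne_zero _ (h20 p))
  refine ⟨V', hV', fun x hx0 hx hPx hm => ?_⟩
  obtain ⟨δ, hδ1, hδ2⟩ := hVx x hx0 (fun i _ => hx i) (fun i hi => absurd (Finset.mem_univ i) hi)
    hPx (fun i hi => absurd (Finset.mem_univ i) hi) hm
  obtain ⟨G, hG0, hG⟩ := exists_lead d b q a aA ap ah D jj θ hD
    (hF.mov (k := k) hAk hpk D hDk) hw3 x δ hx hPx hδ1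
  refine ⟨G, hG0, fun l => hV'' _ fun p => ⟨?_, ?_⟩⟩
  · exact hG _ (Δ₁ p) (h12 p) (h10 p) (h11 p) (fun i J => h14 p _ ⟨⟨i, J⟩, rfl⟩)
      (fun j l => h13 p _ (hδ2 j l)) l
  · exact hG _ (Δ₂ p) (h22 p) (h20 p) (h21 p) (fun i J => h24 p _ ⟨⟨i, J⟩, rfl⟩)
      (fun j l => h23 p _ (hδ2 j l)) l

end Pool.Agent.Helper49.LV

end

section

/-!
# Rational points of the intersection of all the hypersurfaces, over fields

Moving linear systems.
-/

set_option autoImplicit false

namespace Pool.Agent.Helper49.LV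

open scoped BigOperators
open Pool.Agent.Helper8.LG
open Pool.Agent.Helper8.LV (Fam Mov Over over_tower)
open Pool.Agent.Helper49.LG (lineP lineP_eval line_finite)

/-- **Rational points of the intersection**, normalised, over fields. -/
theorem final_line {k₀ L : Type*} [Field k₀] [Field L] [CharZero L] [Algebra k₀ L]
    (hfg : (⊤ : IntermediateField k₀ L).FG)
    {σ ι : Type*} [Fintype σ] [DecidableEq σ] [Fintype ι] [DecidableEq ι]
    (d b q : ι → ℕ) (hq : ∀ i, 0 < q i) (a aA : (i : ι) → Sym σ (d i) → L)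
    (ap : (i : ι) → Sym σ (b i) → L) (ah : (i : ι) → Sym σ (q i) → L)
    (hFam : Fam d b q a aA ap ah) (hAk : Over k₀ aA) (hpk : Over k₀ ap) (w c : ℕ)
    (hc : (Fintype.card (Ix σ q) : Cardinal) ≤ Algebra.trdeg k₀
      (IntermediateField.adjoin k₀ (Set.range fun p : Ix σ q => ah p.1 p.2)) + c)
    (i₀ : σ) (hw1 : 2 * w + 1 + c ≤ ∑ i, (q i + 1)) (hw2 : w + 2 ≤ ∑ i, q i)
    (hw3 : 2 * Fintype.card σ + c ≤ ∑ i, (q i + 1) + 3) :
    {x : σ → L | x i₀ = 1 ∧
      Algebra.trdeg k₀ (IntermediateField.adjoin k₀ (Set.range x)) ≤ w ∧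
      (∀ i, form (ap i) x ≠ 0) ∧ ∀ i, form (a i) x = 0}.Finite := by
  classical
  by_cases hj : ∀ j, j = i₀
  · refine Set.Subsingleton.finite ?_
    rintro x ⟨h1, -⟩ y ⟨h2, -⟩
    funext l
    rw [hj l, h1, h2]
  push Not at hj
  obtain ⟨j₁, hj⟩ := hj
  obtain ⟨T, k, hT, hind, hfin, D, θ, hD, hDk⟩ := reduce hfg q ah c hc
  have hAk' : Over k aA := over_tower hAk
  have hpk' : Over k ap := over_tower hpk
  obtain ⟨V, hV, hVb⟩ := bounded_pt d b q hq a aA ap ah hFam hAk' hpk' T hind hfin D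
    (fun j => j.1) θ hD (fun j => j.2) hDk i₀ j₁ hj w (by omega) hw2 (by omega)
  have := hV
  by_contra hinf
  rw [← Set.Infinite] at hinf
  set S : Set (σ → L) := {x : σ → L | x i₀ = 1 ∧
      Algebra.trdeg k₀ (IntermediateField.adjoin k₀ (Set.range x)) ≤ w ∧
      (∀ i, form (ap i) x ≠ 0) ∧ ∀ i, form (a i) x = 0} with hS
  have hrank : ∀ x ∈ S, MinorsVanish D x w := by
    rintro x ⟨h1, h2, -⟩
    refine minors_of_trdeg (k := k₀) D ?_ x i₀ h1 w h2
    intro p r
    have h7 : algebraMap k₀ L r = algebraMap k L (algebraMap k₀ k r) :=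
      IsScalarTower.algebraMap_apply k₀ k L r
    rw [h7]
    exact hDk p _
  obtain ⟨α, β, u, v, hαβ, huα, huβ, hvα, hvβ, hline⟩ := ultra_line (k := k) d b q hq a aA ap ah
    hFam hAk' hpk' D (fun j => j.1) θ hD hDk Finset.univ i₀ j₁ hj w (by
      rw [Finset.sum_add_distrib, Finset.sum_const, smul_eq_mul, mul_one] at hw1
      omega) hw2 V S hinf (by
      intro x hx
      have hx' := hx
      obtain ⟨h1, h2, hP, h3⟩ := hx'
      obtain ⟨G, hG0, hG⟩ := hVb x h1 h3 hP (hrank x hx)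
      exact ⟨h1, fun i _ => h3 i, fun i hi => absurd (Finset.mem_univ i) hi, hP, hrank x hx, G, hG0,
        hG, fun i hi => absurd (Finset.mem_univ i) hi⟩)
  obtain ⟨y, hyS, hy⟩ := hline.nonempty
  obtain ⟨-, -, hPy, -⟩ := hyS
  obtain ⟨i, n, hin⟩ := gen_line d b q a aA ap ah D (fun j => j.1) θ hD
    (hFam.mov (k := k) hAk' hpk' D hDk) α β hαβ u v huα huβ hvα hvβ y hy hPy (by omega)
  have hF : lineP (a i) u v ≠ 0 := by
    intro h0
    apply hin
    rw [← lineP_eval, h0, Polynomial.eval_zero]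
  refine hline ((line_finite (a i) α β i₀ u v hF).subset ?_)
  rintro x ⟨⟨h1, _, _, h3⟩, h4⟩
  exact ⟨h1, h3 i, h4⟩

end Pool.Agent.Helper49.LV

end

section

/-! # LG-FPROJ: the theorem over one field, in terms of polynomials and projective points -/

set_option autoImplicit false

open MvPolynomial

namespace Pool.Agent.Helper8.LG

open scoped BigOperators LinearAlgebra.Projectivization

private theorem fproj_mon_div {L : Type*} [Field L] {N n : ℕ} (x : Fin (N + 1) → L) (t : L)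
    (J : Sym (Fin (N + 1)) n) : mon (fun i => x i / t) J = mon x J / t ^ n := by
  rw [mon, mon, Multiset.prod_map_div, Multiset.map_const', Multiset.prod_replicate]
  rw [Sym.card_coe]

private theorem fproj_form_div {L : Type*} [Field L] {N n : ℕ} (F : MvPolynomial (Fin (N + 1)) L)
    (hF : F.IsHomogeneous n) (x : Fin (N + 1) → L) (t : L) :
    form (cf n F) (fun i => x i / t) = eval x F / t ^ n := by
  rw [← form_cf F hF x, form, form, Finset.sum_div]
  refine Finset.sum_congr rfl (fun J _ => ?_)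
  rw [fproj_mon_div, mul_div_assoc]

private theorem fproj_inj {L : Type*} [Field L] {N : ℕ} (i₀ : Fin (N + 1))
    {x y : ℙ L (Fin (N + 1) → L)} (hx : x.rep i₀ ≠ 0) (hy : y.rep i₀ ≠ 0)
    (h : (fun i => x.rep i / x.rep i₀) = fun i => y.rep i / y.rep i₀) : x = y := by
  rw [← x.mk_rep, ← y.mk_rep, Projectivization.mk_eq_mk_iff']
  refine ⟨x.rep i₀ / y.rep i₀, ?_⟩
  funext i
  have h1 : x.rep i / x.rep i₀ = y.rep i / y.rep i₀ := congrFun h i
  rw [Pi.smul_apply, smul_eq_mul]
  field_simp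
  field_simp at h1
  linear_combination -h1

private theorem fproj_trdeg {k₀ L : Type*} [Field k₀] [Field L] [Algebra k₀ L]
    {A B : IntermediateField k₀ L} (h : A ≤ B) : Algebra.trdeg k₀ A ≤ Algebra.trdeg k₀ B :=
  trdeg_le_of_injective (IntermediateField.inclusion h)
    (IntermediateField.inclusion_injective h)

/-- projective version over one field, roots may vanish -/
theorem final_proj {k₀ L : Type*} [Field k₀] [Field L] [CharZero L] [Algebra k₀ L]
    (hfg : (⊤ : IntermediateField k₀ L).FG) {N r : ℕ} (d m : Fin r → ℕ)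
    (hd : ∀ i, 0 < d i) (F : Fin r → MvPolynomial (Fin (N + 1)) L)
    (hF : ∀ i, (F i).IsHomogeneous (d i)) (w c : ℕ) (Z C : Finset (Fin r))
    (hZC : Disjoint Z C) (hm : ∀ i ∈ C, m i ∣ d i)
    (hcoef : ((∑ i, (N + d i).choose N : ℕ) : Cardinal) ≤
      Algebra.trdeg k₀ (coeffField k₀ F) + c)
    (hnum : 2 * w + 2 + c + ∑ i ∈ C, d i / m i ≤ ∑ i, d i + Z.card ∨
      Z = Finset.univ ∧ 2 * w + 1 + c ≤ ∑ i, (d i + 1) ∧ w + 2 ≤ ∑ i, d i ∧
        2 * N + c ≤ ∑ i, (d i + 1) + 1)
    (A : Subalgebra k₀ L) (hA : A.FG) :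
    {x : ℙ L (Fin (N + 1) → L) | Algebra.trdeg k₀ (ratioField k₀ x.rep) ≤ w ∧
      (∀ i ∈ Z, eval x.rep (F i) = 0) ∧ (∀ i ∈ C, ∃ y : L, y ^ m i = eval x.rep (F i)) ∧
      ∀ i ∉ Z, i ∉ C → eval x.rep (F i) ≠ 0 ∧
        ∀ J : Sym (Fin (N + 1)) (d i), IsIntegral A (mon x.rep J / eval x.rep (F i))}.Finite := by
  classical
  have hc : (Fintype.card (Ix (Fin (N + 1)) d) : Cardinal) ≤ Algebra.trdeg k₀
      (IntermediateField.adjoin k₀
        (Set.range fun p : Ix (Fin (N + 1)) d => cf (d p.1) (F p.1) p.2)) + c := by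
    rw [card_Ix, ← coeffField_eq k₀ d F hF]
    exact hcoef
  -- the normalised points
  obtain ⟨S, hSdef⟩ : ∃ S : Fin (N + 1) → Finset (Fin r) → Set (Fin (N + 1) → L),
      S = fun i₀ C₀ => {x : Fin (N + 1) → L | x i₀ = 1 ∧
        Algebra.trdeg k₀ (IntermediateField.adjoin k₀ (Set.range x)) ≤ w ∧
        (∀ i ∈ Z ∪ C₀, form (cf (d i) (F i)) x = 0) ∧
        (∀ i ∉ Z ∪ C₀, form (cf (d i) (F i)) x ≠ 0) ∧
        (∀ i ∈ C \ C₀, ∃ y : L, y ^ m i = form (cf (d i) (F i)) x) ∧
        ∀ i ∉ Z ∪ C₀, i ∉ C \ C₀ → ∀ J : Sym (Fin (N + 1)) (d i),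
          IsIntegral A (mon x J / form (cf (d i) (F i)) x)} := ⟨_, rfl⟩
  have hS : ∀ i₀ C₀, (S i₀ C₀).Finite := by
    intro i₀ C₀
    rw [hSdef]
    rcases hnum with hnum | ⟨hZu, hn1, hn2, hn3⟩
    swap
    · refine (Helper49.LG.final_line hfg d hd (fun i => cf (d i) (F i)) w c hc i₀ hn1 hn2
        (by rw [Fintype.card_fin]; omega)).subset ?_
      rintro x ⟨h1, h2, h3, -⟩
      exact ⟨h1, h2, fun i => h3 i (Finset.mem_union_left _ (hZu ▸ Finset.mem_univ i))⟩
    refine final_aux hfg d (fun i => if i ∈ C \ C₀ then d i / m i else 0) m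
      (fun i => cf (d i) (F i)) w c hc (Z ∪ C₀) (C \ C₀) i₀ ?_ A hA
    refine ⟨hd, ?_, ?_, ?_, ?_⟩
    · intro i hi hi'
      rw [Finset.mem_sdiff] at hi
      rcases Finset.mem_union.1 hi' with h | h
      · exact Finset.disjoint_left.1 hZC h hi.1
      · exact hi.2 h
    · intro i hi
      rw [if_pos hi]
      exact (Nat.mul_div_cancel' (hm i (Finset.mem_sdiff.1 hi).1)).symm
    · intro i hi
      exact if_neg hi
    · have h1 : ∑ i, (if i ∈ C \ C₀ then d i / m i else 0) ≤ ∑ i ∈ C, d i / m i := by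
        rw [← Finset.sum_filter]
        refine Finset.sum_le_sum_of_subset (fun i hi => ?_)
        exact (Finset.mem_sdiff.1 (Finset.mem_filter.1 hi).2).1
      have h2 : Z.card ≤ (Z ∪ C₀).card := Finset.card_le_card Finset.subset_union_left
      omega
  -- the covering
  have hcov : {x : ℙ L (Fin (N + 1) → L) | Algebra.trdeg k₀ (ratioField k₀ x.rep) ≤ w ∧
      (∀ i ∈ Z, eval x.rep (F i) = 0) ∧ (∀ i ∈ C, ∃ y : L, y ^ m i = eval x.rep (F i)) ∧
      ∀ i ∉ Z, i ∉ C → eval x.rep (F i) ≠ 0 ∧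
        ∀ J : Sym (Fin (N + 1)) (d i), IsIntegral A (mon x.rep J / eval x.rep (F i))}
      ⊆ ⋃ i₀ : Fin (N + 1), ⋃ C₀ : Finset (Fin r),
        {x : ℙ L (Fin (N + 1) → L) | x.rep i₀ ≠ 0 ∧
          (fun i => x.rep i / x.rep i₀) ∈ S i₀ C₀} := by
    rintro x ⟨h1, h2, h3, h4⟩
    obtain ⟨i₀, hi₀⟩ : ∃ i₀, x.rep i₀ ≠ 0 := by
      by_contra hne
      push Not at hne
      exact x.rep_nonzero (funext hne)
    rw [Set.mem_iUnion]
    refine ⟨i₀, ?_⟩
    rw [Set.mem_iUnion]
    refine ⟨C.filter (fun i => eval x.rep (F i) = 0), hi₀, ?_⟩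
    have hform : ∀ i, form (cf (d i) (F i)) (fun l => x.rep l / x.rep i₀)
        = eval x.rep (F i) / x.rep i₀ ^ d i := fun i => fproj_form_div (F i) (hF i) _ _
    have ht : ∀ n : ℕ, x.rep i₀ ^ n ≠ 0 := fun n => pow_ne_zero n hi₀
    have hnz : ∀ i ∉ Z ∪ C.filter (fun i => eval x.rep (F i) = 0), eval x.rep (F i) ≠ 0 := by
      intro i hi
      rw [Finset.mem_union, Finset.mem_filter] at hi
      push Not at hi
      by_cases hiC : i ∈ C
      · exact hi.2 hiC
      · exact (h4 i hi.1 hiC).1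
    rw [hSdef]
    refine ⟨div_self hi₀, ?_, ?_, ?_, ?_, ?_⟩
    · refine (fproj_trdeg ?_).trans h1
      rw [ratioField]
      refine IntermediateField.adjoin.mono _ _ _ ?_
      rintro _ ⟨i, rfl⟩
      exact ⟨i, i₀, rfl⟩
    · intro i hi
      rw [hform]
      rcases Finset.mem_union.1 hi with h | h
      · rw [h2 i h, zero_div]
      · rw [(Finset.mem_filter.1 h).2, zero_div]
    · intro i hi
      rw [hform]
      exact div_ne_zero (hnz i hi) (ht _)
    · intro i hi
      have hiC := (Finset.mem_sdiff.1 hi).1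
      obtain ⟨y, hy⟩ := h3 i hiC
      refine ⟨y / x.rep i₀ ^ (d i / m i), ?_⟩
      rw [hform, div_pow, hy, ← pow_mul, Nat.div_mul_cancel (hm i hiC)]
    · intro i hi hi' J
      have hiZ : i ∉ Z := fun h => hi (Finset.mem_union_left _ h)
      have hiC : i ∉ C := by
        intro h
        apply hi'
        rw [Finset.mem_sdiff]
        exact ⟨h, fun h' => hi (Finset.mem_union_right _ h')⟩
      rw [hform, fproj_mon_div, div_div_div_cancel_right₀ (ht _)]
      exact (h4 i hiZ hiC).2 J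
  refine Set.Finite.subset ?_ hcov
  refine Set.finite_iUnion (fun i₀ => Set.finite_iUnion (fun C₀ => ?_))
  refine Set.Finite.of_injOn (f := fun x : ℙ L (Fin (N + 1) → L) =>
    fun i => x.rep i / x.rep i₀) (fun x hx => hx.2) ?_ (hS i₀ C₀)
  intro x hx y hy hxy
  exact fproj_inj i₀ hx.1 hy.1 hxy

end Pool.Agent.Helper8.LG

end

section

/-! # LG-FIELD: the theorem over fields, with a change of coordinates -/

set_option autoImplicit false

open MvPolynomial

namespace Pool.Agent.Helper8.LG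

open scoped BigOperators LinearAlgebra.Projectivization

private theorem fmain_mon_smul {M : Type*} [Field M] {N n : ℕ} (c : M) (x : Fin (N + 1) → M)
    (J : Sym (Fin (N + 1)) n) : mon (fun i => c * x i) J = c ^ n * mon x J := by
  rw [mon, mon, Multiset.prod_map_mul, Multiset.map_const', Multiset.prod_replicate, Sym.card_coe]

private theorem fmain_mon_map {L M : Type*} [Field L] [Field M] [Algebra L M] {N n : ℕ}
    (x : Fin (N + 1) → L) (J : Sym (Fin (N + 1)) n) :
    mon (fun i => algebraMap L M (x i)) J = algebraMap L M (mon x J) := by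
  rw [mon, mon, map_multiset_prod, Multiset.map_map]
  rfl

private theorem fmain_eval_smul {M : Type*} [Field M] {N n : ℕ}
    (F : MvPolynomial (Fin (N + 1)) M) (hF : F.IsHomogeneous n) (c : M)
    (x : Fin (N + 1) → M) : eval (fun i => c * x i) F = c ^ n * eval x F := by
  rw [← form_cf F hF, ← form_cf F hF, form, form, Finset.mul_sum]
  refine Finset.sum_congr rfl (fun J _ => ?_)
  rw [fmain_mon_smul]
  ring

private theorem fmain_ratio_smul {k₀ M : Type*} [Field k₀] [Field M] [Algebra k₀ M] {N : ℕ}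
    (c : M) (hc : c ≠ 0) (x : Fin (N + 1) → M) :
    ratioField k₀ (fun i => c * x i) = ratioField k₀ x := by
  rw [ratioField, ratioField]
  congr 1
  ext z
  simp only [Set.mem_ofPred_eq, mul_div_mul_left _ _ hc]

/-- with a change of coordinates `g` over an extension field `M` -/
theorem field_main {k₀ L M : Type*} [Field k₀] [Field L] [Field M] [CharZero M]
    [Algebra k₀ M] [Algebra L M] (hfg : (⊤ : IntermediateField k₀ M).FG) {N r : ℕ}
    (d m : Fin r → ℕ) (hd : ∀ i, 0 < d i) (F : Fin r → MvPolynomial (Fin (N + 1)) L)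
    (hF : ∀ i, (F i).IsHomogeneous (d i)) (g : GL (Fin (N + 1)) M) (w c : ℕ)
    (Z C : Finset (Fin r)) (hZC : Disjoint Z C) (hm : ∀ i ∈ C, m i ∣ d i)
    (hcoef : ((∑ i, (N + d i).choose N : ℕ) : Cardinal) ≤
      Algebra.trdeg k₀ (coeffField k₀ fun i => subst (g : Matrix _ _ M) (F i)) + c)
    (hnum : 2 * w + 2 + c + ∑ i ∈ C, d i / m i ≤ ∑ i, d i + Z.card ∨
      Z = Finset.univ ∧ 2 * w + 1 + c ≤ ∑ i, (d i + 1) ∧ w + 2 ≤ ∑ i, d i ∧
        2 * N + c ≤ ∑ i, (d i + 1) + 1)
    (A : Subalgebra k₀ M) (hA : A.FG) :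
    {x : ℙ L (Fin (N + 1) → L) |
      Algebra.trdeg k₀ (ratioField k₀
        ((g⁻¹ : GL (Fin (N + 1)) M).1.mulVec fun i => algebraMap L M (x.rep i))) ≤ w ∧
      (∀ i ∈ Z, eval x.rep (F i) = 0) ∧ (∀ i ∈ C, ∃ y : L, y ^ m i = eval x.rep (F i)) ∧
      ∀ i ∉ Z, i ∉ C → eval x.rep (F i) ≠ 0 ∧ ∀ J : Sym (Fin (N + 1)) (d i),
        IsIntegral A (algebraMap L M (mon x.rep J / eval x.rep (F i)))}.Finite := by
  classical
  obtain ⟨h, hh⟩ : ∃ h : Matrix (Fin (N + 1)) (Fin (N + 1)) M,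
      h = (g⁻¹ : GL (Fin (N + 1)) M).1 := ⟨_, rfl⟩
  have hgh : (g : Matrix (Fin (N + 1)) (Fin (N + 1)) M) * h = 1 := by
    rw [hh]; exact Units.mul_inv g
  have hhg : h * (g : Matrix (Fin (N + 1)) (Fin (N + 1)) M) = 1 := by
    rw [hh]; exact Units.inv_mul g
  rw [← hh]
  -- the coordinates over `M`
  obtain ⟨ξ, hξ⟩ : ∃ ξ : ℙ L (Fin (N + 1) → L) → Fin (N + 1) → M,
      ξ = fun x i => algebraMap L M (x.rep i) := ⟨_, rfl⟩
  have hgy : ∀ x, (g : Matrix (Fin (N + 1)) (Fin (N + 1)) M).mulVec (h.mulVec (ξ x)) = ξ x := by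
    intro x
    rw [Matrix.mulVec_mulVec, hgh, Matrix.one_mulVec]
  have hy0 : ∀ x, h.mulVec (ξ x) ≠ 0 := by
    intro x hx
    have h1 := hgy x
    rw [hx, Matrix.mulVec_zero, hξ] at h1
    refine x.rep_nonzero (funext fun i => ?_)
    have h2 := congrFun h1 i
    simp only [Pi.zero_apply] at h2 ⊢
    exact (map_eq_zero_iff _ (algebraMap L M).injective).1 h2.symm
  -- the new polynomials
  obtain ⟨F', hF'⟩ : ∃ F' : Fin r → MvPolynomial (Fin (N + 1)) M,
      F' = fun i => subst (g : Matrix _ _ M) (F i) := ⟨_, rfl⟩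
  have hF'h : ∀ i, (F' i).IsHomogeneous (d i) := by
    intro i; rw [hF']; exact subst_hom _ _ (hF i)
  have hev : ∀ x i, eval (h.mulVec (ξ x)) (F' i) = algebraMap L M (eval x.rep (F i)) := by
    intro x i
    rw [hF']
    simp only
    rw [eval_subst, hgy, hξ]
    simp only
    rw [aeval_def]
    exact (eval₂_comp_left (algebraMap L M) (RingHom.id L) x.rep (F i)).symm
  rw [← hF'] at hcoef
  -- the new algebra
  obtain ⟨A', hA'⟩ : ∃ A' : Subalgebra k₀ M,
      A' = A ⊔ Algebra.adjoin k₀ (Set.range fun p : Fin (N + 1) × Fin (N + 1) => h p.1 p.2) :=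
    ⟨_, rfl⟩
  have hAA' : A ≤ A' := by rw [hA']; exact le_sup_left
  have hhA' : ∀ i j, h i j ∈ A' := by
    intro i j
    rw [hA']
    exact (le_sup_right : _ ≤ A ⊔ Algebra.adjoin k₀ (Set.range fun p : Fin (N + 1) ×
      Fin (N + 1) => h p.1 p.2)) (Algebra.subset_adjoin ⟨(i, j), rfl⟩)
  have hA'fg : A'.FG := by
    rw [hA']
    refine hA.sup ?_
    have h1 := Subalgebra.fg_adjoin_finset (R := k₀) (A := M)
      (Finset.univ.image fun p : Fin (N + 1) × Fin (N + 1) => h p.1 p.2)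
    rwa [Finset.coe_image, Finset.coe_univ, Set.image_univ] at h1
  -- the map
  obtain ⟨φ, hφ⟩ : ∃ φ : ℙ L (Fin (N + 1) → L) → ℙ M (Fin (N + 1) → M),
      φ = fun x => Projectivization.mk M (h.mulVec (ξ x)) (hy0 x) := ⟨_, rfl⟩
  have hfin := final_proj hfg d m hd F' hF'h w c Z C hZC hm hcoef hnum A' hA'fg
  refine Set.Finite.of_injOn (f := φ) ?_ ?_ hfin
  · rintro x ⟨h1, h2, h3, h4⟩
    obtain ⟨u, hu⟩ := Projectivization.exists_smul_eq_mk_rep M (h.mulVec (ξ x)) (hy0 x)
    have hrep : (φ x).rep = fun i => (u : M) * h.mulVec (ξ x) i := by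
      rw [hφ]
      simp only
      rw [← hu]
      rfl
    have hu0 : (u : M) ≠ 0 := u.ne_zero
    have hevφ : ∀ i, eval (φ x).rep (F' i)
        = (u : M) ^ d i * algebraMap L M (eval x.rep (F i)) := by
      intro i
      rw [hrep, fmain_eval_smul (F' i) (hF'h i), hev]
    refine ⟨?_, ?_, ?_, ?_⟩
    · rw [hrep, fmain_ratio_smul _ hu0]
      rw [hξ]
      exact h1
    · intro i hi
      rw [hevφ, h2 i hi, map_zero, mul_zero]
    · intro i hi
      obtain ⟨y, hy⟩ := h3 i hi
      refine ⟨(u : M) ^ (d i / m i) * algebraMap L M y, ?_⟩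
      rw [hevφ, mul_pow, ← pow_mul, Nat.div_mul_cancel (hm i hi), ← map_pow, hy]
    · intro i hiZ hiC
      obtain ⟨h5, h6⟩ := h4 i hiZ hiC
      have hud : (u : M) ^ d i ≠ 0 := pow_ne_zero _ hu0
      refine ⟨?_, ?_⟩
      · rw [hevφ]
        exact mul_ne_zero hud ((map_ne_zero_iff _ (algebraMap L M).injective).2 h5)
      · intro J
        obtain ⟨b, hb, hb'⟩ := mon_mulVec h A'.toSubring hhA' J
        have h7 : mon (φ x).rep J / eval (φ x).rep (F' i)
            = ∑ J', b J' * algebraMap L M (mon x.rep J' / eval x.rep (F i)) := by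
          rw [hevφ, hrep, fmain_mon_smul, mul_div_mul_left _ _ hud, hb' (ξ x), Finset.sum_div]
          refine Finset.sum_congr rfl (fun J' _ => ?_)
          rw [map_div₀, hξ]
          simp only
          rw [fmain_mon_map, mul_div_assoc]
        rw [h7]
        refine IsIntegral.sum _ (fun J' _ => ?_)
        refine IsIntegral.mul ?_ ?_
        · exact isIntegral_algebraMap (R := A') (A := M) (x := ⟨b J', hb J'⟩)
        · exact (h6 J').map_of_comp_eq (Subalgebra.inclusion hAA').toRingHom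
            (RingHom.id M) rfl
  · intro x _ x' _ hxx
    rw [hφ] at hxx
    simp only at hxx
    rw [Projectivization.mk_eq_mk_iff'] at hxx
    obtain ⟨c', hc'⟩ := hxx
    -- `c' • h ξ' = h ξ`
    have hc1 : ∀ i, c' * algebraMap L M (x'.rep i) = algebraMap L M (x.rep i) := by
      have h1 := congrArg ((g : Matrix (Fin (N + 1)) (Fin (N + 1)) M).mulVec) hc'
      rw [Matrix.mulVec_smul, hgy, hgy, hξ] at h1
      intro i
      exact congrFun h1 i
    obtain ⟨i₀, hi₀⟩ : ∃ i₀, x'.rep i₀ ≠ 0 := by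
      by_contra hne
      push Not at hne
      exact x'.rep_nonzero (funext hne)
    have hi₀' : algebraMap L M (x'.rep i₀) ≠ 0 :=
      (map_ne_zero_iff _ (algebraMap L M).injective).2 hi₀
    rw [← x.mk_rep, ← x'.mk_rep, Projectivization.mk_eq_mk_iff']
    refine ⟨x.rep i₀ / x'.rep i₀, ?_⟩
    funext i
    apply (algebraMap L M).injective
    rw [Pi.smul_apply, smul_eq_mul, map_mul, map_div₀, ← hc1 i₀, ← hc1 i,
      mul_div_assoc, div_self hi₀', mul_one]

end Pool.Agent.Helper8.LG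

end

section

/-! # LG-WRAP: the theorem over schemes -/

set_option autoImplicit false

open AlgebraicGeometry CategoryTheory CategoryTheory.Limits MvPolynomial

namespace Pool.Agent.Helper8.LG

attribute [local instance] MvPolynomial.gradedAlgebra

universe u v

theorem wrap_fg_trans {k K M : Type*} [Field k] [Field K] [Field M] [Algebra k K] [Algebra K M]
    [Algebra k M] [IsScalarTower k K M] (h1 : (⊤ : IntermediateField k K).FG)
    (h2 : (⊤ : IntermediateField K M).FG) : (⊤ : IntermediateField k M).FG := by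
  rw [IntermediateField.fg_top_iff] at h1 h2 ⊢
  exact Algebra.EssFiniteType.comp k K M

theorem main (R : CommRingCat.{u}) (B : Scheme.{u}) [IsIntegral B] (s : B ⟶ Spec R)
    [LocallyOfFiniteType s] [CharZero B.functionField]
    (U : Scheme.{u}) (π : U ⟶ B) [IsSeparated π] [LocallyOfFiniteType π] [QuasiCompact π]
    {N r : ℕ} (d m : Fin r → ℕ) (hd : ∀ i, 0 < d i)
    (F : Fin r → MvPolynomial (Fin (N + 1)) B.functionField)
    (hF : ∀ i, (F i).IsHomogeneous (d i))
    (q : genFib π ⟶ PN N B.functionField) (hq : q ≫ PN.toSpec N _ = pullback.snd _ _)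
    [LocallyQuasiFinite q]
    (Z C : Finset (Fin r)) (hZC : Disjoint Z C) (hm : ∀ i ∈ C, m i ∣ d i)
    (k₀ : Subfield B.functionField)
    (hk₀ : ∀ r : R, (Spec.preimage (B.fromSpecStalk (genericPoint B) ≫ s)).hom r ∈ k₀)
    (M : Type v) [Field M] [Algebra B.functionField M]
    (hM : (⊤ : IntermediateField B.functionField M).FG) (g : GL (Fin (N + 1)) M) (w c : ℕ)
    (hcoef : ((∑ i, (N + d i).choose N : ℕ) : Cardinal) ≤
      Algebra.trdeg k₀ (coeffField k₀ fun i => subst (g : Matrix _ _ M) (F i)) + c)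
    (hnum : 2 * w + 2 + c + ∑ i ∈ C, d i / m i ≤ ∑ i, d i + Z.card ∨
      Z = Finset.univ ∧ 2 * w + 1 + c ≤ ∑ i, (d i + 1) ∧ w + 2 ≤ ∑ i, d i ∧
        2 * N + c ≤ ∑ i, (d i + 1) + 1)
    (hU : ∀ i ∉ Z, i ∉ C → ∀ z : genFib π, q z ∈ Proj.basicOpen _ (F i))
    (hpt : ∀ p : Spec B.functionField ⟶ genFib π, p ≫ pullback.snd _ _ = 𝟙 _ →
      ∀ (t : Spec B.functionField) (x : Fin (N + 1) → B.functionField), IsCoord (q (p t)) x →
      Algebra.trdeg k₀ (ratioField k₀ ((g⁻¹ : GL (Fin (N + 1)) M).1.mulVec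
        fun i => algebraMap B.functionField M (x i))) ≤ w ∧
      (∀ i ∈ Z, eval x (F i) = 0) ∧ ∀ i ∈ C, ∃ y : B.functionField, y ^ m i = eval x (F i)) :
    {σ : B ⟶ U | σ ≫ π = 𝟙 B}.Finite := by
  classical
  obtain ⟨V, hVne, hV, ⟨A, ⟨S₀, hS₀⟩, hA⟩, hKfg⟩ := exists_affine_ft R s k₀ hk₀
  haveI := hVne
  haveI : CharZero M :=
    charZero_of_injective_algebraMap (algebraMap B.functionField M).injective
  have hfg : (⊤ : IntermediateField k₀ M).FG := wrap_fg_trans hKfg hM
  -- a point of the spectrum of the function field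
  let t : Spec B.functionField := IsLocalRing.closedPoint B.functionField
  -- the functions `X^J / F_i` and their denominators
  have hfun : ∀ i : Fin r, ∀ J : Sym (Fin (N + 1)) (d i), ∃ f : B.functionField, f ≠ 0 ∧
      (i ∉ Z → i ∉ C → ∀ (σ : B ⟶ U) (hσ : σ ≫ π = 𝟙 B) (x : Fin (N + 1) → B.functionField),
        IsCoord (q (genPt π σ hσ t)) x → ∃ b ∈ A, f * (mon x J / eval x (F i)) = b) := by
    intro i J
    by_cases hi : i ∉ Z ∧ i ∉ C
    · obtain ⟨φ, hφ⟩ := exists_fun π q hq (hd i) (F i) (hF i) (hU i hi.1 hi.2)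
        (monX B.functionField J) (monX_hom _ J)
      obtain ⟨s', hs', hb⟩ := spread π V hV φ
      refine ⟨B.germToFunctionField V s', hs', fun _ _ σ hσ x hx => ?_⟩
      obtain ⟨b, hb⟩ := hb σ hσ
      refine ⟨B.germToFunctionField V b, hA b, ?_⟩
      rw [← hb, hφ σ hσ t x hx, eval_monX]
    · exact ⟨1, one_ne_zero, fun h1 h2 => absurd ⟨h1, h2⟩ hi⟩
  choose f hf0 hfA using hfun
  -- the algebra over `M`
  let A' : Subalgebra k₀ M := Algebra.adjoin k₀
    ((S₀.image (algebraMap B.functionField M) ∪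
      Finset.univ.image (fun p : Ix (Fin (N + 1)) d =>
        algebraMap B.functionField M (f p.1 p.2)⁻¹) : Finset M) : Set M)
  have hAA' : ∀ b ∈ A, algebraMap B.functionField M b ∈ A' := by
    intro b hb
    rw [← hS₀] at hb
    induction hb using Algebra.adjoin_induction with
    | mem x hx =>
      refine Algebra.subset_adjoin ?_
      rw [Finset.coe_union, Finset.coe_image]
      exact Or.inl ⟨x, hx, rfl⟩
    | algebraMap r => exact A'.algebraMap_mem r
    | add x y _ _ hx hy => rw [map_add]; exact add_mem hx hy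
    | mul x y _ _ hx hy => rw [map_mul]; exact mul_mem hx hy
  have hfA' : ∀ i J, algebraMap B.functionField M (f i J)⁻¹ ∈ A' := by
    intro i J
    refine Algebra.subset_adjoin ?_
    rw [Finset.coe_union]
    exact Or.inr (Finset.mem_coe.2 (Finset.mem_image.2 ⟨⟨i, J⟩, Finset.mem_univ _, rfl⟩))
  have hfin := field_main hfg d m hd F hF g w c Z C hZC hm hcoef hnum A' ⟨_, rfl⟩
  refine Set.Finite.subset (Set.Finite.biUnion hfin
    (t := fun y => {σ : B ⟶ U | ∃ hσ : σ ≫ π = 𝟙 B, IsCoord (q (genPt π σ hσ t)) y.rep})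
    (fun y _ => ?_)) ?_
  · by_cases h : ∃ z : PN N B.functionField, IsCoord z y.rep
    · obtain ⟨z, hz⟩ := h
      refine (fib_finite π q hq t z).subset ?_
      rintro σ ⟨hσ, h2⟩
      exact ⟨hσ, point_unique h2 hz⟩
    · refine Set.Finite.subset Set.finite_empty ?_
      rintro σ ⟨hσ, h2⟩
      exact h ⟨_, h2⟩
  · intro σ hσ
    have hσ' : σ ≫ π = 𝟙 B := hσ
    have hsnd : genPt π σ hσ' ≫ pullback.snd _ _ = 𝟙 _ := pullback.lift_snd _ _ _
    obtain ⟨x, hx⟩ := exists_coord (genPt π σ hσ' ≫ q)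
      (by rw [Category.assoc, hq]; exact hsnd) t
    have hx0 : x ≠ 0 := hx.1
    have hx' : IsCoord (q (genPt π σ hσ' t)) x := by
      have h3 : (genPt π σ hσ' ≫ q) t = q (genPt π σ hσ' t) := Scheme.Hom.comp_apply _ _ _
      rw [← h3]
      exact hx
    obtain ⟨a, ha⟩ := Projectivization.exists_smul_eq_mk_rep B.functionField x hx0
    have hrep : IsCoord (q (genPt π σ hσ' t))
        (Projectivization.mk B.functionField x hx0).rep := by
      have h4 : (Projectivization.mk B.functionField x hx0).rep =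
          fun i => (a : B.functionField) * x i := by
        rw [← ha]
        rfl
      rw [h4]
      exact coord_smul hx' a a.ne_zero
    rw [Set.mem_iUnion₂]
    refine ⟨Projectivization.mk B.functionField x hx0, ?_, hσ', hrep⟩
    obtain ⟨h5, h6, h7⟩ := hpt (genPt π σ hσ') hsnd t _ hrep
    refine ⟨h5, h6, h7, ?_⟩
    intro i hiZ hiC
    have h8 : eval (Projectivization.mk B.functionField x hx0).rep (F i) ≠ 0 := by
      intro h9
      have h10 := (hrep.2 (d i) (F i) (hF i)).2 h9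
      exact (ProjectiveSpectrum.mem_basicOpen _ _ _).1 (hU i hiZ hiC _) h10
    refine ⟨h8, fun J => ?_⟩
    obtain ⟨b, hbA, hb⟩ := hfA i J hiZ hiC σ hσ' _ hrep
    have h11 : algebraMap B.functionField M
        (mon (Projectivization.mk B.functionField x hx0).rep J /
          eval (Projectivization.mk B.functionField x hx0).rep (F i)) =
        algebraMap B.functionField M b * algebraMap B.functionField M (f i J)⁻¹ := by
      rw [← map_mul, ← hb]
      congr 1
      have := hf0 i J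
      field_simp
    have h12 : algebraMap B.functionField M
        (mon (Projectivization.mk B.functionField x hx0).rep J /
          eval (Projectivization.mk B.functionField x hx0).rep (F i)) ∈ A' := by
      rw [h11]
      exact mul_mem (hAA' b hbA) (hfA' i J)
    exact isIntegral_algebraMap (x := (⟨_, h12⟩ : A'))

end Pool.Agent.Helper8.LG

end
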