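import Mathlib
import Pool.Agent.Helper74.MG.T39
import Pool.Agent.Helper74.MG.T44
import Pool.Agent.Helper74.MG.T40
import Pool.Agent.Helper74.MG.T42
import Pool.Agent.Helper74.MG.T05
import Pool.Agent.Helper74.MG.T06
import Pool.Agent.Helper74.MG.T41

section

/-! # LV-ENGA: the A' engine in terms of polynomials -/

set_option autoImplicit false

open MvPolynomial

namespace Pool.Agent.Helper8.LV

open scoped BigOperators
open Pool.Agent.Helper8.LG

/-- the A' engine: polynomials, several multipliers, normalised points -/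
theorem eng_A {k₀ L : Type*} [Field k₀] [Field L] [CharZero L] [Algebra k₀ L]
    (hfg : (⊤ : IntermediateField k₀ L).FG) {N r s : ℕ} (d q : Fin r → ℕ)
    (b : Fin r → Fin s → ℕ) (hq : ∀ i, 0 < q i) (hbq : ∀ i j, b i j + q i ≤ d i)
    (F : Fin r → MvPolynomial (Fin (N + 1)) L)
    (A : Fin r → MvPolynomial (Fin (N + 1)) k₀) (hA : ∀ i, (A i).IsHomogeneous (d i))
    (P : Fin r → Fin s → MvPolynomial (Fin (N + 1)) k₀)
    (hP : ∀ i j, (P i j).IsHomogeneous (b i j))
    (H : Fin r → Fin s → MvPolynomial (Fin (N + 1)) L)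
    (hH : ∀ i j, (H i j).IsHomogeneous (d i - b i j))
    (hFA : ∀ i, F i = map (algebraMap k₀ L) (A i) + ∑ j, map (algebraMap k₀ L) (P i j) * H i j)
    (w c : ℕ)
    (hcoef : ((∑ i, ∑ j, (N + (d i - b i j)).choose N : ℕ) : Cardinal) ≤
      Algebra.trdeg k₀ (IntermediateField.adjoin k₀ {z | ∃ i j J, z = coeff J (H i j)}) + c)
    (h1 : 2 * w + 1 + c ≤ ∑ i, (q i + 1)) (h2 : w + 2 ≤ ∑ i, q i)
    (h3 : 2 * N + c ≤ ∑ i, (q i + 1) + 1) (i₀ : Fin (N + 1)) :
    {x : Fin (N + 1) → L | x i₀ = 1 ∧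
      Algebra.trdeg k₀ (IntermediateField.adjoin k₀ (Set.range x)) ≤ w ∧
      (∀ i, ∃ j, aeval x (P i j) ≠ 0) ∧ ∀ i, eval x (F i) = 0}.Finite := by
  classical
  have hdF : ∀ i, (∃ j : Fin s, True) → (F i).IsHomogeneous (d i) := by
    rintro i ⟨j, -⟩
    rw [hFA i]
    refine ((hA i).map _).add (IsHomogeneous.sum _ _ _ fun j _ => ?_)
    have h1 := ((hP i j).map (algebraMap k₀ L)).mul (hH i j)
    rwa [Nat.add_sub_cancel' ((Nat.le_add_right _ _).trans (hbq i j))] at h1
  have hmulti := multi d b (fun i j => (Nat.le_add_right _ _).trans (hbq i j)) A hA P hP H hH c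
    hcoef {x : Fin (N + 1) → L | x i₀ = 1 ∧
      Algebra.trdeg k₀ (IntermediateField.adjoin k₀ (Set.range x)) ≤ w ∧
      ∀ i, eval x (F i) = 0} ?_
  · refine hmulti.subset ?_
    rintro x ⟨h1, h2, h3, h4⟩
    exact ⟨⟨h1, h2, h4⟩, h3⟩
  intro k j A' hA' hFA' hcoef'
  -- the field over `k`
  have hkfg : (⊤ : IntermediateField k L).FG := fg_tower k hfg
  -- the data
  obtain ⟨q', hq'⟩ : ∃ q' : Fin r → ℕ, q' = fun i => d i - b i (j i) := ⟨_, rfl⟩
  have hdb : ∀ i, d i = b i (j i) + q' i := by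
    intro i
    have := hbq i (j i)
    rw [hq']
    simp only
    omega
  have hqq : ∀ i, q i ≤ q' i := by
    intro i
    have := hbq i (j i)
    rw [hq']
    simp only
    omega
  have hFam : Fam d (fun i => b i (j i)) q' (fun i => cf (d i) (F i))
      (fun i => cf (d i) (map (algebraMap k L) (A' i)))
      (fun i => cf (b i (j i)) (map (algebraMap k L) (map (algebraMap k₀ k) (P i (j i)))))
      fun i => cf (q' i) (H i (j i)) := by
    refine fam_poly d (fun i => b i (j i)) q' hdb F A' (fun i => map (algebraMap k₀ k) (P i (j i)))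
      (fun i => H i (j i)) (fun i => (hP i (j i)).map _) (fun i => ?_) (fun i => ?_)
    · rw [hq']
      exact hH i (j i)
    · rw [hFA i, hFA' i, map_map, ← IsScalarTower.algebraMap_eq]
  have hform : ∀ (x : Fin (N + 1) → L) i, form (cf (d i) (F i)) x = eval x (F i) := fun x i =>
    form_cf _ (hdF i ⟨j i, trivial⟩) x
  have hformP : ∀ (x : Fin (N + 1) → L) i,
      form (cf (b i (j i)) (map (algebraMap k L) (map (algebraMap k₀ k) (P i (j i))))) x
        = aeval x (P i (j i)) := by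
    intro x i
    rw [form_poly _ ((hP i (j i)).map _), aeval_map_algebraMap]
  have hs1 : ∑ i, (q i + 1) ≤ ∑ i, (q' i + 1) :=
    Finset.sum_le_sum fun i _ => Nat.add_le_add_right (hqq i) 1
  have hs2 : ∑ i, q i ≤ ∑ i, q' i := Finset.sum_le_sum fun i _ => hqq i
  have hfin := Pool.Agent.Helper49.LV.final_line hkfg d (fun i => b i (j i)) q'
    (fun i => (hq i).trans_le (hqq i)) (fun i => cf (d i) (F i)) _ _ _ hFam
    (over_poly d A') (over_poly (fun i => b i (j i)) _) w c (by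
      rw [card_Ix, ← adjoin_poly k q' (fun i => H i (j i)) (fun i => ?_)]
      · rw [hq']
        exact hcoef'
      · rw [hq']
        exact hH i (j i)) i₀ (h1.trans hs1) (h2.trans hs2) (by
      rw [Fintype.card_fin]
      omega)
  refine hfin.subset ?_
  rintro x ⟨⟨h4, h5, h6⟩, h7⟩
  refine ⟨h4, (trdeg_mono' k _).trans h5, fun i => ?_, fun i => ?_⟩
  · rw [hformP]
    exact h7 i
  · rw [hform]
    exact h6 i

end Pool.Agent.Helper8.LV

end

section

/-! # LV-ENGB: the B' engine (arithmetic bases) in terms of polynomials -/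

set_option autoImplicit false

open MvPolynomial

namespace Pool.Agent.Helper8.LV

open scoped BigOperators
open Pool.Agent.Helper8.LG

/-- the B' engine: polynomials, several multipliers, normalised points, rings of finite type
over the integers -/
theorem eng_B {k₀ L : Type*} [Field k₀] [Field L] [CharZero L] [Algebra k₀ L]
    (hfg : (⊤ : IntermediateField k₀ L).FG) {N r s : ℕ} (d q : Fin r → ℕ)
    (b : Fin r → Fin s → ℕ) (hq : ∀ i, 0 < q i) (hbq : ∀ i j, b i j + q i ≤ d i)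
    (F : Fin r → MvPolynomial (Fin (N + 1)) L)
    (A : Fin r → MvPolynomial (Fin (N + 1)) k₀) (hA : ∀ i, (A i).IsHomogeneous (d i))
    (P : Fin r → Fin s → MvPolynomial (Fin (N + 1)) k₀)
    (hP : ∀ i j, (P i j).IsHomogeneous (b i j))
    (H : Fin r → Fin s → MvPolynomial (Fin (N + 1)) L)
    (hH : ∀ i j, (H i j).IsHomogeneous (d i - b i j))
    (hFA : ∀ i, F i = map (algebraMap k₀ L) (A i) + ∑ j, map (algebraMap k₀ L) (P i j) * H i j)
    (c : ℕ)
    (hcoef : ((∑ i, ∑ j, (N + (d i - b i j)).choose N : ℕ) : Cardinal) ≤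
      Algebra.trdeg k₀ (IntermediateField.adjoin k₀ {z | ∃ i j J, z = coeff J (H i j)}) + c)
    (Z : Finset (Fin r)) (h1 : 2 * N + 1 + c ≤ ∑ i, q i + Z.card) (h2 : N + 2 ≤ ∑ i, q i)
    (i₀ : Fin (N + 1)) (R : Subalgebra ℤ L) (hR : R.FG) :
    {x : Fin (N + 1) → L | x i₀ = 1 ∧
      (∀ i, ∃ j, aeval x (P i j) ≠ 0) ∧ (∀ i ∈ Z, eval x (F i) = 0) ∧
      ∀ i ∉ Z, eval x (F i) ≠ 0 ∧
        ∀ J : Sym (Fin (N + 1)) (d i), mon x J / eval x (F i) ∈ R}.Finite := by
  classical
  have hdF : ∀ i, (∃ j : Fin s, True) → (F i).IsHomogeneous (d i) := by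
    rintro i ⟨j, -⟩
    rw [hFA i]
    refine ((hA i).map _).add (IsHomogeneous.sum _ _ _ fun j _ => ?_)
    have h1 := ((hP i j).map (algebraMap k₀ L)).mul (hH i j)
    rwa [Nat.add_sub_cancel' ((Nat.le_add_right _ _).trans (hbq i j))] at h1
  have hmulti := multi d b (fun i j => (Nat.le_add_right _ _).trans (hbq i j)) A hA P hP H hH c
    hcoef {x : Fin (N + 1) → L | x i₀ = 1 ∧ (∀ i ∈ Z, eval x (F i) = 0) ∧
      ∀ i ∉ Z, eval x (F i) ≠ 0 ∧
        ∀ J : Sym (Fin (N + 1)) (d i), mon x J / eval x (F i) ∈ R} ?_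
  · refine hmulti.subset ?_
    rintro x ⟨h1, h3, h4, h5⟩
    exact ⟨⟨h1, h4, h5⟩, h3⟩
  intro k j A' hA' hFA' hcoef'
  have hkfg : (⊤ : IntermediateField k L).FG := fg_tower k hfg
  -- the data
  obtain ⟨q', hq'⟩ : ∃ q' : Fin r → ℕ, q' = fun i => d i - b i (j i) := ⟨_, rfl⟩
  have hdb : ∀ i, d i = b i (j i) + q' i := by
    intro i
    have := hbq i (j i)
    rw [hq']
    simp only
    omega
  have hqq : ∀ i, q i ≤ q' i := by
    intro i
    have := hbq i (j i)
    rw [hq']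
    simp only
    omega
  have hFam : Fam d (fun i => b i (j i)) q' (fun i => cf (d i) (F i))
      (fun i => cf (d i) (map (algebraMap k L) (A' i)))
      (fun i => cf (b i (j i)) (map (algebraMap k L) (map (algebraMap k₀ k) (P i (j i)))))
      fun i => cf (q' i) (H i (j i)) := by
    refine fam_poly d (fun i => b i (j i)) q' hdb F A' (fun i => map (algebraMap k₀ k) (P i (j i)))
      (fun i => H i (j i)) (fun i => (hP i (j i)).map _) (fun i => ?_) (fun i => ?_)
    · rw [hq']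
      exact hH i (j i)
    · rw [hFA i, hFA' i, map_map, ← IsScalarTower.algebraMap_eq]
  have hform : ∀ (x : Fin (N + 1) → L) i, form (cf (d i) (F i)) x = eval x (F i) := fun x i =>
    form_cf _ (hdF i ⟨j i, trivial⟩) x
  have hformP : ∀ (x : Fin (N + 1) → L) i,
      form (cf (b i (j i)) (map (algebraMap k L) (map (algebraMap k₀ k) (P i (j i))))) x
        = aeval x (P i (j i)) := by
    intro x i
    rw [form_poly _ ((hP i (j i)).map _), aeval_map_algebraMap]
  have h0 := Pool.Agent.Helper10.LV.field_arith hkfg d (fun i => b i (j i)) q'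
    (fun i => cf (d i) (F i)) _ _ _ hFam (over_poly d A') (over_poly (fun i => b i (j i)) _)
    (fun i => (hq i).trans_le (hqq i)) c (by
      rw [card_Ix, ← adjoin_poly k q' (fun i => H i (j i)) (fun i => by rw [hq']; exact hH i (j i))]
      rw [hq']
      exact hcoef') Z i₀ (by
      have h3 : ∑ i, q i ≤ ∑ i, q' i := Finset.sum_le_sum fun i _ => hqq i
      rw [Fintype.card_fin]
      omega) (by
      have h3 : ∑ i, q i ≤ ∑ i, q' i := Finset.sum_le_sum fun i _ => hqq i
      rw [Fintype.card_fin]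
      omega) R hR
  refine h0.subset ?_
  rintro x ⟨⟨h3, h4, h5⟩, h6⟩
  refine ⟨h3, fun i => ?_, fun i hi => ?_, fun i hi => ?_⟩
  · rw [hformP]
    exact h6 i
  · rw [hform]
    exact h4 i hi
  · rw [hform]
    exact h5 i hi


end Pool.Agent.Helper8.LV

end

section

/-! # LV-MAIN: generic members of linear systems, over schemes -/

set_option autoImplicit false

open AlgebraicGeometry CategoryTheory CategoryTheory.Limits MvPolynomial

namespace Pool.Agent.Helper8.LV

open scoped BigOperators LinearAlgebra.Projectivization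
open Pool.Agent.Helper8.LG hiding coeffField
open Pool.Agent.Helper10.LB

attribute [local instance] MvPolynomial.gradedAlgebra

universe u v

/-- the conditions on a vector `x` of coordinates over `K` -/
def CondX {k₀ K M : Type*} [Field k₀] [Field K] [Field M] [Algebra k₀ M] [Algebra K M]
    {N r n : ℕ} (m : Fin r → ℕ) (F : Fin r → MvPolynomial (Fin (N + 1)) K)
    (g : GL (Fin (N + 1)) M) (P : Fin r → Fin n → MvPolynomial (Fin (N + 1)) k₀)
    (Z C : Finset (Fin r)) (w : ℕ) (x : Fin (N + 1) → K) : Prop :=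
  (∀ i, ∃ j, aeval ((g⁻¹ : GL (Fin (N + 1)) M).1.mulVec fun l => algebraMap K M (x l))
      (P i j) ≠ 0) ∧
    Algebra.trdeg k₀ (ratioField k₀
      ((g⁻¹ : GL (Fin (N + 1)) M).1.mulVec fun l => algebraMap K M (x l))) ≤ w ∧
    (∀ i ∈ Z, eval x (F i) = 0) ∧ ∀ i ∈ C, ∃ y : K, y ^ m i = eval x (F i)

/-- the conditions on a normalised vector `y` over `M` -/
def CondY {k₀ M : Type*} [Field k₀] [Field M] [Algebra k₀ M]
    {N r n : ℕ} (m : Fin r → ℕ) (F : Fin r → MvPolynomial (Fin (N + 1)) M)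
    (P : Fin r → Fin n → MvPolynomial (Fin (N + 1)) k₀)
    (Z C : Finset (Fin r)) (w : ℕ) (y : Fin (N + 1) → M) : Prop :=
  Algebra.trdeg k₀ (IntermediateField.adjoin k₀ (Set.range y)) ≤ w ∧
    (∀ i, ∃ j, aeval y (P i j) ≠ 0) ∧ (∀ i ∈ Z, eval y (F i) = 0) ∧
    ∀ i ∈ C, ∃ z : M, z ^ m i = eval y (F i)

theorem eval_div_hom {L : Type*} [Field L] {N n : ℕ} (F : MvPolynomial (Fin (N + 1)) L)
    (hF : F.IsHomogeneous n) (x : Fin (N + 1) → L) (t : L) :
    eval (fun i => x i / t) F = eval x F / t ^ n := by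
  rw [← form_cf F hF, ← form_cf F hF, form, form, Finset.sum_div]
  refine Finset.sum_congr rfl (fun J _ => ?_)
  rw [mon, mon, Multiset.prod_map_div, Multiset.map_const', Multiset.prod_replicate,
    Sym.card_coe, mul_div_assoc]

theorem cond_XY {k₀ K M : Type*} [Field k₀] [Field K] [Field M] [Algebra k₀ M] [Algebra K M]
    {N r n : ℕ} (d m : Fin r → ℕ) (b : Fin r → Fin n → ℕ)
    (F : Fin r → MvPolynomial (Fin (N + 1)) K) (hF : ∀ i, (F i).IsHomogeneous (d i))
    (g : GL (Fin (N + 1)) M) (P : Fin r → Fin n → MvPolynomial (Fin (N + 1)) k₀)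
    (hP : ∀ i j, (P i j).IsHomogeneous (b i j))
    (Z C : Finset (Fin r)) (hm : ∀ i ∈ C, m i ∣ d i) (w : ℕ) (x : Fin (N + 1) → K)
    (h : CondX m F g P Z C w x) (i₀ : Fin (N + 1))
    (h0 : (g⁻¹ : GL (Fin (N + 1)) M).1.mulVec (fun l => algebraMap K M (x l)) i₀ ≠ 0) :
    CondY m (fun i => subst (g : Matrix _ _ M) (F i)) P Z C w
      fun i => (g⁻¹ : GL (Fin (N + 1)) M).1.mulVec (fun l => algebraMap K M (x l)) i /
        (g⁻¹ : GL (Fin (N + 1)) M).1.mulVec (fun l => algebraMap K M (x l)) i₀ := by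
  classical
  obtain ⟨h1, h2, h3, h4⟩ := h
  obtain ⟨y, hy⟩ : ∃ y : Fin (N + 1) → M,
      y = (g⁻¹ : GL (Fin (N + 1)) M).1.mulVec (fun l => algebraMap K M (x l)) := ⟨_, rfl⟩
  rw [← hy] at h0 h1 h2 ⊢
  have hgy : (g : Matrix (Fin (N + 1)) (Fin (N + 1)) M).mulVec y =
      fun l => algebraMap K M (x l) := by
    rw [hy, Matrix.mulVec_mulVec, ← Matrix.GeneralLinearGroup.coe_mul, mul_inv_cancel,
      Matrix.GeneralLinearGroup.coe_one, Matrix.one_mulVec]
  have hev : ∀ i, eval y (subst (g : Matrix _ _ M) (F i)) = algebraMap K M (eval x (F i)) := by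
    intro i
    rw [eval_subst, hgy, aeval_def]
    exact (eval₂_comp_left (algebraMap K M) (RingHom.id K) x (F i)).symm
  have hev' : ∀ i, eval (fun l => y l / y i₀) (subst (g : Matrix _ _ M) (F i)) =
      algebraMap K M (eval x (F i)) / y i₀ ^ d i := by
    intro i
    rw [eval_div_hom _ (subst_hom _ _ (hF i)), hev]
  refine ⟨?_, ?_, ?_, ?_⟩
  · refine (trdeg_le_of_injective (IntermediateField.inclusion ?_)
      (IntermediateField.inclusion_injective _)).trans h2
    rw [ratioField]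
    refine IntermediateField.adjoin.mono _ _ _ ?_
    rintro _ ⟨i, rfl⟩
    exact ⟨i, i₀, rfl⟩
  · intro i
    obtain ⟨j, hj⟩ := h1 i
    refine ⟨j, ?_⟩
    have e1 : ∀ z : Fin (N + 1) → M, aeval z (P i j) = eval z (map (algebraMap k₀ M) (P i j)) :=
      fun z => by rw [aeval_def, MvPolynomial.eval_map]
    rw [e1, eval_div_hom _ ((hP i j).map _), ← e1]
    exact div_ne_zero hj (pow_ne_zero _ h0)
  · intro i hi
    simp only
    rw [hev', h3 i hi, map_zero, zero_div]
  · intro i hi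
    obtain ⟨z, hz⟩ := h4 i hi
    refine ⟨algebraMap K M z / y i₀ ^ (d i / m i), ?_⟩
    simp only
    rw [hev', div_pow, ← map_pow, hz, ← pow_mul, Nat.div_mul_cancel (hm i hi)]

set_option maxHeartbeats 400000 in
/-- the passage from fields to schemes -/
theorem main_eng {κ : Type*} [CommRing κ] {B : Scheme.{u}} [IsIntegral B]
    [Algebra κ B.functionField]
    (V : B.Opens) [Nonempty V] (hV : IsAffineOpen V) (A₀ : Subalgebra κ B.functionField)
    (hA₀ : A₀.FG) (hVA : ∀ b : Γ(B, V), B.germToFunctionField V b ∈ A₀)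
    {U : Scheme.{u}} (π : U ⟶ B) [IsSeparated π] [LocallyOfFiniteType π] [QuasiCompact π]
    {N r n : ℕ} (d m : Fin r → ℕ) (b : Fin r → Fin n → ℕ) (hd : ∀ i, 0 < d i)
    (F : Fin r → MvPolynomial (Fin (N + 1)) B.functionField)
    (hF : ∀ i, (F i).IsHomogeneous (d i))
    (f : genFib π ⟶ PN N B.functionField) (hf : f ≫ PN.toSpec N _ = pullback.snd _ _)
    [LocallyQuasiFinite f] (Z C : Finset (Fin r)) (hm : ∀ i ∈ C, m i ∣ d i)
    (hU : ∀ i ∉ Z, i ∉ C → ∀ z : genFib π, NonVanishing (f z) (F i))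
    (k₀ : Subfield B.functionField)
    (M : Type v) [Field M] [Algebra B.functionField M] [Algebra κ M]
    [IsScalarTower κ B.functionField M] (g : GL (Fin (N + 1)) M)
    (P : Fin r → Fin n → MvPolynomial (Fin (N + 1)) k₀)
    (hP : ∀ i j, (P i j).IsHomogeneous (b i j)) (w : ℕ)
    (hfin : ∀ (i₀ : Fin (N + 1)) (A : Subalgebra κ M), A.FG →
      {y : Fin (N + 1) → M | y i₀ = 1 ∧
        CondY m (fun i => subst (g : Matrix _ _ M) (F i)) P Z C w y ∧
        ∀ i ∈ (Z ∪ C)ᶜ, eval y (subst (g : Matrix _ _ M) (F i)) ≠ 0 ∧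
          ∀ J : Sym (Fin (N + 1)) (d i),
            mon y J / eval y (subst (g : Matrix _ _ M) (F i)) ∈ A}.Finite) :
    {σ : B ⟶ U | ∃ hσ : σ ≫ π = 𝟙 B, ∀ (t : Spec B.functionField)
      (x : Fin (N + 1) → B.functionField), IsCoord (f (genPt π σ hσ t)) x →
      CondX m F g P Z C w x}.Finite := by
  classical
  refine wrap_core (κ := κ) V hV A₀ hA₀ hVA π d hd F hF f hf (Z ∪ C)ᶜ ?_ M
    (CondX m F g P Z C w) ?_
  · intro i hi
    rw [Finset.mem_compl, Finset.mem_union] at hi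
    push Not at hi
    exact hU i hi.1 hi.2
  · intro A hA
    have h0 := points (κ := κ) (L := B.functionField) (M := M) d F hF g (Z ∪ C)ᶜ
      (CondY m (fun i => subst (g : Matrix _ _ M) (F i)) P Z C w)
    have h1 := h0 hfin A hA
    refine h1.subset ?_
    rintro x ⟨h1, h2⟩
    exact ⟨fun i₀ h0 => cond_XY d m b F hF g P hP Z C hm w x.rep h1 i₀ h0, h2⟩

set_option maxHeartbeats 400000 in
theorem main_v (R : CommRingCat.{u}) (B : Scheme.{u}) [IsIntegral B] (s : B ⟶ Spec R)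
    [LocallyOfFiniteType s] [CharZero B.functionField]
    (U : Scheme.{u}) (π : U ⟶ B) [IsSeparated π] [LocallyOfFiniteType π] [QuasiCompact π]
    {N r n : ℕ} (d q m : Fin r → ℕ) (b : Fin r → Fin n → ℕ) (hq : ∀ i, 0 < q i)
    (hb : ∀ i j, b i j + q i ≤ d i)
    (F : Fin r → MvPolynomial (Fin (N + 1)) B.functionField)
    (hF : ∀ i, (F i).IsHomogeneous (d i))
    (f : genFib π ⟶ PN N B.functionField) (hf : f ≫ PN.toSpec N _ = pullback.snd _ _)
    [LocallyQuasiFinite f]
    (Z C : Finset (Fin r)) (hZC : Disjoint Z C) (hm : ∀ i ∈ C, m i ∣ d i)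
    (hU : ∀ i ∉ Z, i ∉ C → ∀ z : genFib π, NonVanishing (f z) (F i))
    (k₀ : Subfield B.functionField)
    (hk₀ : ∀ r : R, (Spec.preimage (B.fromSpecStalk (genericPoint B) ≫ s)).hom r ∈ k₀)
    (M : Type v) [Field M] [Algebra B.functionField M]
    (hM : (⊤ : IntermediateField B.functionField M).FG) (g : GL (Fin (N + 1)) M)
    (A : Fin r → MvPolynomial (Fin (N + 1)) k₀) (hA : ∀ i, (A i).IsHomogeneous (d i))
    (P : Fin r → Fin n → MvPolynomial (Fin (N + 1)) k₀)
    (hP : ∀ i j, (P i j).IsHomogeneous (b i j))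
    (H : Fin r → Fin n → MvPolynomial (Fin (N + 1)) M)
    (hH : ∀ i j, (H i j).IsHomogeneous (d i - b i j))
    (hFA : ∀ i, subst (g : Matrix _ _ M) (F i) =
      map (algebraMap k₀ M) (A i) + ∑ j, map (algebraMap k₀ M) (P i j) * H i j)
    (w c : ℕ)
    (hcoef : ((∑ i, ∑ j, (N + (d i - b i j)).choose N : ℕ) : Cardinal) ≤
      Algebra.trdeg k₀ (coeffField k₀ H) + c)
    (hnum : 2 * w + 2 + c + ∑ i ∈ C, d i / m i ≤ ∑ i, q i + Z.card ∨
      (Z = Finset.univ ∧ 2 * w + 1 + c ≤ ∑ i, (q i + 1) ∧ w + 2 ≤ ∑ i, q i ∧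
        2 * N + c ≤ ∑ i, (q i + 1) + 1) ∨
      (Algebra.FiniteType ℤ R ∧ C = ∅ ∧ 2 * N + 1 + c ≤ ∑ i, q i + Z.card ∧
        N + 2 ≤ ∑ i, q i)) :
    {σ : B ⟶ U | ∃ hσ : σ ≫ π = 𝟙 B, ∀ (t : Spec B.functionField)
      (x : Fin (N + 1) → B.functionField), IsCoord (f (genPt π σ hσ t)) x →
      CondX m F g P Z C w x}.Finite := by
  classical
  haveI : CharZero M :=
    charZero_of_injective_algebraMap (algebraMap B.functionField M).injective
  by_cases hn : Nonempty (Fin r → Fin n)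
  swap
  · -- no multipliers
    have hr : ∃ i : Fin r, ∀ j : Fin n, False := by
      by_contra hne
      push Not at hne
      exact hn ⟨fun i => (hne i).choose⟩
    obtain ⟨i, hi⟩ := hr
    refine Set.Finite.subset Set.finite_empty ?_
    rintro σ ⟨hσ, h1⟩
    obtain ⟨t⟩ : Nonempty (Spec B.functionField) := inferInstance
    obtain ⟨x, hx⟩ := exists_coord (genPt π σ hσ ≫ f)
      (by rw [Category.assoc, hf]; exact ffib_snd π σ hσ) t
    obtain ⟨j, -⟩ := (h1 t x hx).1 i
    exact hi j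
  have hd : ∀ i, 0 < d i := by
    obtain ⟨j⟩ := hn
    intro i
    have := hq i
    have := hb i (j i)
    omega
  rcases hnum with hnum | ⟨hZ, h1, h2, h3⟩ | ⟨hR, hC, h1, h2⟩
  · obtain ⟨V, hVne, hV, ⟨A₀, hA₀, hVA⟩, hKfg⟩ := exists_affine_ft R s k₀ hk₀
    haveI := hVne
    have hfg : (⊤ : IntermediateField k₀ M).FG := wrap_fg_trans hKfg hM
    refine main_eng (κ := k₀) V hV A₀ hA₀ hVA π d m b hd F hF f hf Z C hm hU k₀ M g P hP w ?_
    intro i₀ R' hR'
    have h9 := eng_G (k₀ := k₀) (L := M) hfg d q m b hq hb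
      (fun i => subst (g : Matrix _ _ M) (F i))
    have h12 := h9 A hA P hP H hH
    have h13 := h12 hFA
    have h14 := h13 w c hcoef
    have h15 := h14 Z C hZC hm hnum
    have h11 := h15 i₀ R' hR'
    refine h11.subset ?_
    rintro y ⟨h4, ⟨h5, h6, h7, h8⟩, h9⟩
    exact ⟨h4, ⟨h5, h6, h7, h8⟩, h9⟩
  · obtain ⟨V, hVne, hV, ⟨A₀, hA₀, hVA⟩, hKfg⟩ := exists_affine_ft R s k₀ hk₀
    haveI := hVne
    have hfg : (⊤ : IntermediateField k₀ M).FG := wrap_fg_trans hKfg hM
    refine main_eng (κ := k₀) V hV A₀ hA₀ hVA π d m b hd F hF f hf Z C hm hU k₀ M g P hP w ?_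
    intro i₀ R' hR'
    have h9 := eng_A (k₀ := k₀) (L := M) hfg d q b hq hb
      (fun i => subst (g : Matrix _ _ M) (F i))
    have h12 := h9 A hA P hP H hH
    have h13 := h12 hFA
    have h14 := h13 w c hcoef
    have h15 := h14 h1 h2 h3 i₀
    refine h15.subset ?_
    rintro y ⟨h4, ⟨h5, h6, h7, -⟩, -⟩
    exact ⟨h4, h5, h6, fun i => h7 i (by rw [hZ]; exact Finset.mem_univ i)⟩
  · haveI := hR
    obtain ⟨V, hVne, hV, ⟨A₀, hA₀, hVA⟩, -⟩ := exists_affine_ftZ R s
    haveI := hVne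
    obtain ⟨-, -, -, -, hKfg⟩ := exists_affine_ft R s k₀ hk₀
    have hfg : (⊤ : IntermediateField k₀ M).FG := wrap_fg_trans hKfg hM
    have h9 := eng_B (k₀ := k₀) (L := M) hfg d q b hq hb
      (fun i => subst (g : Matrix _ _ M) (F i))
    have h12 := h9 A hA P hP H hH
    have h13 := h12 hFA
    have h14 := h13 c hcoef
    have h15 := h14 Z h1 h2
    have h10 := main_eng (κ := ℤ) V hV A₀ hA₀ hVA π d m b hd F hF f hf Z C hm hU k₀ M g P hP w
    refine h10 ?_
    intro i₀ R' hR'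
    have h11 := h15 i₀ R' hR'
    refine h11.subset ?_
    rintro y ⟨h4, ⟨h5, h6, h7, -⟩, h8⟩
    refine ⟨h4, h6, h7, fun i hi => h8 i ?_⟩
    rw [hC, Finset.union_empty, Finset.mem_compl]
    exact hi

end Pool.Agent.Helper8.LV

end

section

/-! # LN-MAIN: finitely many lines, over schemes, from an engine -/

set_option autoImplicit false

open AlgebraicGeometry CategoryTheory CategoryTheory.Limits MvPolynomial

namespace Pool.Agent.Helper10.LN

open scoped BigOperators LinearAlgebra.Projectivization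
open Pool.Agent.Helper8.LG hiding coeffField
open Pool.Agent.Helper8.LV (eval_div_hom)
open Pool.Agent.Helper10.LB

attribute [local instance] MvPolynomial.gradedAlgebra

universe u v

/-- the conditions on a vector of coordinates -/
def CondN {k₀ K M : Type*} [Field k₀] [Field K] [Field M] [Algebra k₀ M] [Algebra K M]
    {N n : ℕ} (Cl : Prop) (F : MvPolynomial (Fin (N + 1)) K) (g : GL (Fin (N + 1)) M)
    (P : Fin n → MvPolynomial (Fin (N + 1)) k₀) (w : ℕ) (x : Fin (N + 1) → K) : Prop :=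
  (∃ j, aeval ((g⁻¹ : GL (Fin (N + 1)) M).1.mulVec fun l => algebraMap K M (x l)) (P j) ≠ 0) ∧
    Algebra.trdeg k₀ (ratioField k₀
      ((g⁻¹ : GL (Fin (N + 1)) M).1.mulVec fun l => algebraMap K M (x l))) ≤ w ∧
    (Cl → eval x F = 0)

/-- the conditions on a normalised vector -/
def CondN' {k₀ M : Type*} [Field k₀] [Field M] [Algebra k₀ M]
    {N n : ℕ} (Cl : Prop) (F : MvPolynomial (Fin (N + 1)) M)
    (P : Fin n → MvPolynomial (Fin (N + 1)) k₀) (w : ℕ) (y : Fin (N + 1) → M) : Prop :=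
  (∃ j, aeval y (P j) ≠ 0) ∧
    Algebra.trdeg k₀ (IntermediateField.adjoin k₀ (Set.range y)) ≤ w ∧ (Cl → eval y F = 0)

theorem condN {k₀ K M : Type*} [Field k₀] [Field K] [Field M] [Algebra k₀ M] [Algebra K M]
    {N n : ℕ} (Cl : Prop) (d : ℕ) (b : Fin n → ℕ)
    (F : MvPolynomial (Fin (N + 1)) K) (hF : F.IsHomogeneous d) (g : GL (Fin (N + 1)) M)
    (P : Fin n → MvPolynomial (Fin (N + 1)) k₀) (hP : ∀ j, (P j).IsHomogeneous (b j)) (w : ℕ)
    (x : Fin (N + 1) → K) (h : CondN Cl F g P w x) (i₀ : Fin (N + 1))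
    (h0 : (g⁻¹ : GL (Fin (N + 1)) M).1.mulVec (fun l => algebraMap K M (x l)) i₀ ≠ 0) :
    CondN' Cl (subst (g : Matrix _ _ M) F) P w
      fun i => (g⁻¹ : GL (Fin (N + 1)) M).1.mulVec (fun l => algebraMap K M (x l)) i /
        (g⁻¹ : GL (Fin (N + 1)) M).1.mulVec (fun l => algebraMap K M (x l)) i₀ := by
  classical
  obtain ⟨h1, h2, h3⟩ := h
  obtain ⟨y, hy⟩ : ∃ y : Fin (N + 1) → M,
      y = (g⁻¹ : GL (Fin (N + 1)) M).1.mulVec (fun l => algebraMap K M (x l)) := ⟨_, rfl⟩
  rw [← hy] at h0 h1 h2 ⊢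
  have hgy : (g : Matrix (Fin (N + 1)) (Fin (N + 1)) M).mulVec y =
      fun l => algebraMap K M (x l) := by
    rw [hy, Matrix.mulVec_mulVec, ← Matrix.GeneralLinearGroup.coe_mul, mul_inv_cancel,
      Matrix.GeneralLinearGroup.coe_one, Matrix.one_mulVec]
  have hev : eval y (subst (g : Matrix _ _ M) F) = algebraMap K M (eval x F) := by
    rw [eval_subst, hgy, aeval_def]
    exact (eval₂_comp_left (algebraMap K M) (RingHom.id K) x F).symm
  refine ⟨?_, ?_, fun hCl => ?_⟩
  · obtain ⟨j, hj⟩ := h1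
    refine ⟨j, ?_⟩
    have e1 : ∀ z : Fin (N + 1) → M, aeval z (P j) = eval z (map (algebraMap k₀ M) (P j)) :=
      fun z => by rw [aeval_def, MvPolynomial.eval_map]
    rw [e1, eval_div_hom _ ((hP j).map _), ← e1]
    exact div_ne_zero hj (pow_ne_zero _ h0)
  · refine (trdeg_le_of_injective (IntermediateField.inclusion ?_)
      (IntermediateField.inclusion_injective _)).trans h2
    rw [ratioField]
    refine IntermediateField.adjoin.mono _ _ _ ?_
    rintro _ ⟨i, rfl⟩
    exact ⟨i, i₀, rfl⟩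
  · rw [eval_div_hom _ (subst_hom _ _ hF), hev, h3 hCl, map_zero, zero_div]

set_option maxHeartbeats 400000 in
/-- the closed case, over schemes -/
theorem main_closed (R : CommRingCat.{u}) (B : Scheme.{u}) [IsIntegral B] (s : B ⟶ Spec R)
    [LocallyOfFiniteType s]
    (U : Scheme.{u}) (π : U ⟶ B) [IsSeparated π] [LocallyOfFiniteType π] [QuasiCompact π]
    {N n : ℕ} (d : ℕ) (b : Fin n → ℕ)
    (F : MvPolynomial (Fin (N + 1)) B.functionField) (hF : F.IsHomogeneous d)
    (f : genFib π ⟶ PN N B.functionField) (hf : f ≫ PN.toSpec N _ = pullback.snd _ _)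
    [LocallyQuasiFinite f]
    (k₀ : Subfield B.functionField)
    (hk₀ : ∀ r : R, (Spec.preimage (B.fromSpecStalk (genericPoint B) ≫ s)).hom r ∈ k₀)
    (M : Type v) [Field M] [Algebra B.functionField M]
    (hM : (⊤ : IntermediateField B.functionField M).FG) (g : GL (Fin (N + 1)) M)
    (F' : MvPolynomial (Fin (N + 1)) M) (hFF' : F' = subst (g : Matrix _ _ M) F)
    (P : Fin n → MvPolynomial (Fin (N + 1)) k₀) (hP : ∀ j, (P j).IsHomogeneous (b j)) (w : ℕ)
    (Cl X : Prop)
    (heng : (⊤ : IntermediateField k₀ M).FG → ∃ Λ' : Set (Submodule M (Fin (N + 1) → M)),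
      Λ'.Finite ∧ (∀ W' ∈ Λ', Module.finrank M W' ≤ 2 ∧
        (∀ y ∈ W', eval y F' = 0) ∧ X) ∧ ∀ i₀ : Fin (N + 1),
        {y : Fin (N + 1) → M | y i₀ = 1 ∧ CondN' Cl F' P w y ∧ (∀ W' ∈ Λ', y ∉ W')}.Finite) :
    ∃ Λ : Set (Submodule B.functionField (Fin (N + 1) → B.functionField)), Λ.Finite ∧
      (∀ W ∈ Λ, Module.finrank B.functionField W = 2 ∧ (∀ x ∈ W, eval x F = 0) ∧ X) ∧
      {σ : B ⟶ U | ∃ hσ : σ ≫ π = 𝟙 B, ∀ (t : Spec B.functionField)
        (x : Fin (N + 1) → B.functionField), IsCoord (f (genPt π σ hσ t)) x →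
          CondN Cl F g P w x ∧ ∀ W ∈ Λ, x ∉ W}.Finite := by
  classical
  obtain ⟨V, hVne, hV, ⟨A₀, hA₀, hVA⟩, hKfg⟩ := exists_affine_ft R s k₀ hk₀
  haveI := hVne
  have hfg : (⊤ : IntermediateField k₀ M).FG := wrap_fg_trans hKfg hM
  have hQ : ∀ x, CondN Cl F g P w x → ∀ i₀,
      (g⁻¹ : GL (Fin (N + 1)) M).1.mulVec (fun l => algebraMap B.functionField M (x l)) i₀ ≠ 0 →
      CondN' Cl F' P w fun i => (g⁻¹ : GL (Fin (N + 1)) M).1.mulVec
        (fun l => algebraMap B.functionField M (x l)) i /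
          (g⁻¹ : GL (Fin (N + 1)) M).1.mulVec
            (fun l => algebraMap B.functionField M (x l)) i₀ := by
    intro x hx i₀ h0
    rw [hFF']
    exact condN Cl d b F hF g P hP w x hx i₀ h0
  exact lines_closed (κ := k₀) V hV A₀ hA₀ hVA π F f hf M g F' hFF'
    (CondN' Cl F' P w) X (heng hfg) (CondN Cl F g P w) hQ

set_option maxHeartbeats 400000 in
/-- the open case, over schemes -/
theorem main_open (R : CommRingCat.{u}) (B : Scheme.{u}) [IsIntegral B] (s : B ⟶ Spec R)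
    [LocallyOfFiniteType s] [CharZero B.functionField]
    (U : Scheme.{u}) (π : U ⟶ B) [IsSeparated π] [LocallyOfFiniteType π] [QuasiCompact π]
    {N n : ℕ} (d : ℕ) (hd : 0 < d) (b : Fin n → ℕ)
    (F : MvPolynomial (Fin (N + 1)) B.functionField) (hF : F.IsHomogeneous d)
    (f : genFib π ⟶ PN N B.functionField) (hf : f ≫ PN.toSpec N _ = pullback.snd _ _)
    [LocallyQuasiFinite f] (hU : ∀ z : genFib π, NonVanishing (f z) F)
    (k₀ : Subfield B.functionField)
    (hk₀ : ∀ r : R, (Spec.preimage (B.fromSpecStalk (genericPoint B) ≫ s)).hom r ∈ k₀)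
    (M : Type v) [Field M] [Algebra B.functionField M]
    (hM : (⊤ : IntermediateField B.functionField M).FG) (g : GL (Fin (N + 1)) M)
    (F' : MvPolynomial (Fin (N + 1)) M) (hFF' : F' = subst (g : Matrix _ _ M) F)
    (hF' : F'.IsHomogeneous d)
    (P : Fin n → MvPolynomial (Fin (N + 1)) k₀) (hP : ∀ j, (P j).IsHomogeneous (b j)) (w : ℕ)
    (Cl : Prop)
    (heng : (⊤ : IntermediateField k₀ M).FG → ∀ A : Subalgebra k₀ M, A.FG →
      ∃ Λ' : Set (Submodule M (Fin (N + 1) → M)),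
      Λ'.Finite ∧ (∀ W' ∈ Λ', Module.finrank M W' ≤ 2) ∧ ∀ i₀ : Fin (N + 1),
        {y : Fin (N + 1) → M | y i₀ = 1 ∧ CondN' Cl F' P w y ∧
          (∀ W' ∈ Λ', y ∉ W') ∧ eval y F' ≠ 0 ∧
          ∀ J : Sym (Fin (N + 1)) d, mon y J / eval y F' ∈ A}.Finite) :
    ∃ Λ : Set (Submodule B.functionField (Fin (N + 1) → B.functionField)), Λ.Finite ∧
      (∀ W ∈ Λ, Module.finrank B.functionField W = 2 ∧
        (Algebra.FiniteType ℤ R → MeetsTwice F W)) ∧
      {σ : B ⟶ U | ∃ hσ : σ ≫ π = 𝟙 B, ∀ (t : Spec B.functionField)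
        (x : Fin (N + 1) → B.functionField), IsCoord (f (genPt π σ hσ t)) x →
          CondN Cl F g P w x ∧ ∀ W ∈ Λ, x ∉ W}.Finite := by
  classical
  haveI : CharZero M :=
    charZero_of_injective_algebraMap (algebraMap B.functionField M).injective
  obtain ⟨V, hVne, hV, ⟨A₀, hA₀, hVA⟩, hKfg⟩ := exists_affine_ft R s k₀ hk₀
  haveI := hVne
  have hfg : (⊤ : IntermediateField k₀ M).FG := wrap_fg_trans hKfg hM
  have h14 := heng hfg
  have hQ : ∀ x, CondN Cl F g P w x → ∀ i₀,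
      (g⁻¹ : GL (Fin (N + 1)) M).1.mulVec (fun l => algebraMap B.functionField M (x l)) i₀ ≠ 0 →
      CondN' Cl F' P w fun i => (g⁻¹ : GL (Fin (N + 1)) M).1.mulVec
        (fun l => algebraMap B.functionField M (x l)) i /
          (g⁻¹ : GL (Fin (N + 1)) M).1.mulVec
            (fun l => algebraMap B.functionField M (x l)) i₀ := by
    intro x hx i₀ h0
    rw [hFF']
    exact condN Cl d b F hF g P hP w x hx i₀ h0
  by_cases hR : Algebra.FiniteType ℤ R
  · have := hR
    obtain ⟨V, hVne, hV, ⟨A₀, hA₀, hVA⟩, -⟩ := exists_affine_ftZ R s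
    haveI := hVne
    have h15 := arith_one (k₀ := k₀) F' hF' (CondN' Cl F' P w) h14
    have h21 := lines_open_aux (κ := ℤ) V hV A₀ hA₀ hVA π hd F hF f hf hU M g F' hFF'
      (CondN' Cl F' P w) (fun W' => TwoZeros (fun _ : Fin 1 => F') Finset.univ W') h15
      (CondN Cl F g P w) hQ
    obtain ⟨Λ, h1, h2, h3⟩ := h21
    refine ⟨Λ, h1, fun W hW => ?_, h3⟩
    obtain ⟨h4, W', h5, -, rfl⟩ := h2 W hW
    refine ⟨h4, fun _ => MeetsTwice.of_twoZeros (twoZeros_desc (fun _ : Fin 1 => F)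
      Finset.univ W' ?_)⟩
    rw [← hFF']
    exact h5
  · have h21 := lines_open_aux (κ := k₀) V hV A₀ hA₀ hVA π hd F hF f hf hU M g F' hFF'
      (CondN' Cl F' P w) (fun _ => True) (fun A hA => by
        obtain ⟨Λ', h5, h6, h7⟩ := h14 A hA
        exact ⟨Λ', h5, fun W' hW' => ⟨h6 W' hW', trivial⟩, h7⟩)
      (CondN Cl F g P w) hQ
    obtain ⟨Λ, h1, h2, h3⟩ := h21
    exact ⟨Λ, h1, fun W hW => ⟨(h2 W hW).1, fun h => absurd h hR⟩, h3⟩

end Pool.Agent.Helper10.LN

end

section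

/-! # LV-ENGL: finitely many lines, in terms of polynomials -/

set_option autoImplicit false

open MvPolynomial

namespace Pool.Agent.Helper8.LV

open scoped BigOperators
open Pool.Agent.Helper8.LG

/-- the line engine: polynomials, several multipliers, normalised points -/
theorem eng_L {k₀ L : Type*} [Field k₀] [Field L] [CharZero L] [Algebra k₀ L]
    (hfg : (⊤ : IntermediateField k₀ L).FG) {N r s : ℕ} (d q : Fin r → ℕ)
    (b : Fin r → Fin s → ℕ) (hq : ∀ i, 0 < q i) (hbq : ∀ i j, b i j + q i ≤ d i)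
    (F : Fin r → MvPolynomial (Fin (N + 1)) L)
    (A : Fin r → MvPolynomial (Fin (N + 1)) k₀) (hA : ∀ i, (A i).IsHomogeneous (d i))
    (P : Fin r → Fin s → MvPolynomial (Fin (N + 1)) k₀)
    (hP : ∀ i j, (P i j).IsHomogeneous (b i j))
    (H : Fin r → Fin s → MvPolynomial (Fin (N + 1)) L)
    (hH : ∀ i j, (H i j).IsHomogeneous (d i - b i j))
    (hFA : ∀ i, F i = map (algebraMap k₀ L) (A i) + ∑ j, map (algebraMap k₀ L) (P i j) * H i j)
    (c : ℕ)
    (hcoef : ((∑ i, ∑ j, (N + (d i - b i j)).choose N : ℕ) : Cardinal) ≤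
      Algebra.trdeg k₀ (IntermediateField.adjoin k₀ {z | ∃ i j J, z = coeff J (H i j)}) + c)
    (Z : Finset (Fin r)) (h1 : 2 * N + 1 + c ≤ ∑ i, q i + Z.card) (h2 : N + 2 ≤ ∑ i, q i)
    (i₀ : Fin (N + 1)) (R : Subalgebra k₀ L) (hR : R.FG) :
    ∃ Λ : Set (Submodule L (Fin (N + 1) → L)), Λ.Finite ∧
      (∀ W ∈ Λ, Module.finrank L W ≤ 2) ∧ ∀ x : Fin (N + 1) → L, x i₀ = 1 →
      (∀ i, ∃ j, aeval x (P i j) ≠ 0) → (∀ i ∈ Z, eval x (F i) = 0) →
      (∀ i ∉ Z, eval x (F i) ≠ 0 ∧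
        ∀ J : Sym (Fin (N + 1)) (d i), mon x J / eval x (F i) ∈ R) → ∃ W ∈ Λ, x ∈ W := by
  classical
  have hdF : ∀ i, (∃ j : Fin s, True) → (F i).IsHomogeneous (d i) := by
    rintro i ⟨j, -⟩
    rw [hFA i]
    refine ((hA i).map _).add (IsHomogeneous.sum _ _ _ fun j _ => ?_)
    have h1 := ((hP i j).map (algebraMap k₀ L)).mul (hH i j)
    rwa [Nat.add_sub_cancel' ((Nat.le_add_right _ _).trans (hbq i j))] at h1
  have hmain : ∀ S' ⊆ {x : Fin (N + 1) → L | x i₀ = 1 ∧ (∀ i, ∃ j, aeval x (P i j) ≠ 0) ∧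
      (∀ i ∈ Z, eval x (F i) = 0) ∧ ∀ i ∉ Z, eval x (F i) ≠ 0 ∧
        ∀ J : Sym (Fin (N + 1)) (d i), mon x J / eval x (F i) ∈ R}, S'.Infinite →
      ∃ W : Submodule L (Fin (N + 1) → L), Module.finrank L W ≤ 2 ∧ (S' ∩ W).Infinite := by
    intro S' hS' hinf
    by_contra hcon
    push Not at hcon
    refine hinf ((multi d b (fun i j => (Nat.le_add_right _ _).trans (hbq i j)) A hA P hP H hH c
      hcoef S' ?_).subset fun x hx => ⟨hx, (hS' hx).2.1⟩)
    intro k j A' hA' hFA' hcoef'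
    have hkfg : (⊤ : IntermediateField k L).FG := fg_tower k hfg
    -- the data
    obtain ⟨q', hq'⟩ : ∃ q' : Fin r → ℕ, q' = fun i => d i - b i (j i) := ⟨_, rfl⟩
    have hdb : ∀ i, d i = b i (j i) + q' i := by
      intro i
      have := hbq i (j i)
      rw [hq']
      simp only
      omega
    have hqq : ∀ i, q i ≤ q' i := by
      intro i
      have := hbq i (j i)
      rw [hq']
      simp only
      omega
    have hFam : Fam d (fun i => b i (j i)) q' (fun i => cf (d i) (F i))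
        (fun i => cf (d i) (map (algebraMap k L) (A' i)))
        (fun i => cf (b i (j i)) (map (algebraMap k L) (map (algebraMap k₀ k) (P i (j i)))))
        fun i => cf (q' i) (H i (j i)) := by
      refine fam_poly d (fun i => b i (j i)) q' hdb F A' (fun i => map (algebraMap k₀ k) (P i (j i)))
        (fun i => H i (j i)) (fun i => (hP i (j i)).map _) (fun i => ?_) (fun i => ?_)
      · rw [hq']
        exact hH i (j i)
      · rw [hFA i, hFA' i, map_map, ← IsScalarTower.algebraMap_eq]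
    have hform : ∀ (x : Fin (N + 1) → L) i, form (cf (d i) (F i)) x = eval x (F i) := fun x i =>
      form_cf _ (hdF i ⟨j i, trivial⟩) x
    have hformP : ∀ (x : Fin (N + 1) → L) i,
        form (cf (b i (j i)) (map (algebraMap k L) (map (algebraMap k₀ k) (P i (j i))))) x
          = aeval x (P i (j i)) := by
      intro x i
      rw [form_poly _ ((hP i (j i)).map _), aeval_map_algebraMap]
    obtain ⟨R', hR', hRR'⟩ := subalgebra_tower k R hR
    obtain ⟨Λ, hΛ, hΛ2, hcov⟩ := Pool.Agent.Helper10.LV.fin_lines hkfg d (fun i => b i (j i)) q'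
      (fun i => cf (d i) (F i)) _ _ _ hFam (over_poly d A') (over_poly (fun i => b i (j i)) _)
      (fun i => (hq i).trans_le (hqq i)) c (by
        rw [card_Ix, ← adjoin_poly k q' (fun i => H i (j i))
          (fun i => by rw [hq']; exact hH i (j i))]
        rw [hq']
        exact hcoef') Z i₀ (by
        have h3 : ∑ i, q i ≤ ∑ i, q' i := Finset.sum_le_sum fun i _ => hqq i
        rw [Fintype.card_fin]
        omega) (by
        have h3 : ∑ i, q i ≤ ∑ i, q' i := Finset.sum_le_sum fun i _ => hqq i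
        rw [Fintype.card_fin]
        omega) R' hR'
    refine (Set.Finite.biUnion hΛ (t := fun W => S' ∩ (W : Set (Fin (N + 1) → L)))
      fun W hW => hcon W (hΛ2 W hW)).subset ?_
    rintro x ⟨hx, h6⟩
    obtain ⟨h3, -, h4, h5⟩ := hS' hx
    obtain ⟨W, hW, hxW⟩ := hcov x h3 ⟨fun i hi => by rw [hform]; exact h4 i hi,
      fun i hi => by rw [hform]; exact (h5 i hi).1, fun i hi J => by
        rw [hform]
        exact isIntegral_algebraMap (R := R'.toSubring) (x := ⟨_, hRR' _ ((h5 i hi).2 J)⟩)⟩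
      (fun i => by rw [hformP]; exact h6 i)
    rw [Set.mem_iUnion₂]
    exact ⟨W, hW, hx, hxW⟩
  obtain ⟨Λ, h1, h2, h3⟩ := Pool.Agent.Helper10.LB.greedy _ hmain i₀ fun x hx => hx.1
  exact ⟨Λ, h1, h2, fun x hx hP hZ hU => h3 x ⟨hx, hP, hZ, hU⟩⟩

end Pool.Agent.Helper8.LV

end

section

/-! # LV-REFINE: points of a hypersurface on finitely many lines -/

set_option autoImplicit false

open MvPolynomial

namespace Pool.Agent.Helper8.LV

theorem lr_eval_smul {K : Type*} [Field K] {N n : ℕ} (F : MvPolynomial (Fin (N + 1)) K)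
    (hF : F.IsHomogeneous n) (c : K) (x : Fin (N + 1) → K) :
    eval (c • x) F = c ^ n * eval x F := by
  rw [eval_eq', eval_eq', Finset.mul_sum]
  refine Finset.sum_congr rfl fun m hm => ?_
  have h1 : ∑ i, m i = n := by
    have h2 : m.degree = n := by
      by_contra h
      exact (mem_support_iff.1 hm) (hF.coeff_eq_zero h)
    rw [← h2, Finsupp.degree_eq_sum]
  have h3 : ∏ i, (c • x) i ^ m i = c ^ n * ∏ i, x i ^ m i := by
    simp only [Pi.smul_apply, smul_eq_mul, mul_pow]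
    rw [Finset.prod_mul_distrib, Finset.prod_pow_eq_pow_sum, h1]
  rw [h3]
  ring

theorem lr_eval_zero {K : Type*} [Field K] {N n : ℕ} (hn : 0 < n)
    (F : MvPolynomial (Fin (N + 1)) K) (hF : F.IsHomogeneous n) :
    eval (0 : Fin (N + 1) → K) F = 0 := by
  have h := lr_eval_smul F hF 0 0
  rw [zero_smul, zero_pow hn.ne', zero_mul] at h
  exact h

/-- The zeros of a form `F` on a subspace of dimension at most two where `F` is not identically
zero lie on finitely many subspaces of dimension at most one where `F` vanishes. -/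
theorem line_zeros {K : Type*} [Field K] {N n : ℕ} (hn : 0 < n)
    (F : MvPolynomial (Fin (N + 1)) K) (hF : F.IsHomogeneous n)
    (W : Submodule K (Fin (N + 1) → K)) (hW : Module.finrank K W ≤ 2)
    (hne : ∃ x ∈ W, eval x F ≠ 0) :
    ∃ Λ : Set (Submodule K (Fin (N + 1) → K)), Λ.Finite ∧
      (∀ W' ∈ Λ, Module.finrank K W' ≤ 1 ∧ W' ≤ W ∧ ∀ x ∈ W', eval x F = 0) ∧
      ∀ x ∈ W, eval x F = 0 → ∃ W' ∈ Λ, x ∈ W' := by
  classical
  obtain ⟨x₀, hx₀, hF₀⟩ := hne
  have hx0 : x₀ ≠ 0 := by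
    rintro rfl
    exact hF₀ (lr_eval_zero hn F hF)
  -- a second vector
  obtain ⟨y, hyW, hy⟩ : ∃ y ∈ W, ∀ x ∈ W, ∃ a b : K, x = a • x₀ + b • y := by
    by_cases hle : W ≤ Submodule.span K {x₀}
    · refine ⟨0, W.zero_mem, fun x hx => ?_⟩
      obtain ⟨a, ha⟩ := Submodule.mem_span_singleton.1 (hle hx)
      exact ⟨a, 0, by rw [ha, zero_smul, add_zero]⟩
    · obtain ⟨y, hyW, hyn⟩ := Set.not_subset.1 hle
      refine ⟨y, hyW, fun x hx => ?_⟩
      have hli : LinearIndependent K ![x₀, y] := by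
        rw [LinearIndependent.pair_iff' hx0]
        intro a ha
        exact hyn (Submodule.mem_span_singleton.2 ⟨a, ha⟩)
      have hr : Module.finrank K (Submodule.span K (Set.range ![x₀, y])) = 2 := by
        rw [finrank_span_eq_card hli, Fintype.card_fin]
      have hle2 : Submodule.span K (Set.range ![x₀, y]) ≤ W := by
        rw [Submodule.span_le]
        rintro _ ⟨i, rfl⟩
        fin_cases i
        · exact hx₀
        · exact hyW
      have heq : Submodule.span K (Set.range ![x₀, y]) = W :=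
        Submodule.eq_of_le_of_finrank_le hle2 (by rw [hr]; exact hW)
      rw [← heq, Matrix.range_cons, Matrix.range_cons, Matrix.range_empty, Set.union_empty,
        Set.singleton_union] at hx
      obtain ⟨a, b, hab⟩ := Submodule.mem_span_pair.1 hx
      exact ⟨a, b, hab.symm⟩
  -- the polynomial
  set q : Polynomial K := aeval (fun i => Polynomial.C (x₀ i) + Polynomial.C (y i) *
    Polynomial.X) F with hq
  have hqe : ∀ s : K, q.eval s = eval (x₀ + s • y) F := by
    intro s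
    have h1 : (Polynomial.aeval s).comp (aeval (fun i => Polynomial.C (x₀ i) +
        Polynomial.C (y i) * Polynomial.X) : MvPolynomial (Fin (N + 1)) K →ₐ[K] Polynomial K) =
        aeval (x₀ + s • y) := by
      refine MvPolynomial.algHom_ext fun i => ?_
      simp only [AlgHom.comp_apply, MvPolynomial.aeval_X, map_add, map_mul, Polynomial.aeval_C,
        Polynomial.aeval_X, Algebra.algebraMap_self, RingHom.id_apply, Pi.add_apply,
        Pi.smul_apply, smul_eq_mul]
      ring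
    have h2 := congrArg (fun f : MvPolynomial (Fin (N + 1)) K →ₐ[K] K => f F) h1
    simp only [AlgHom.comp_apply] at h2
    rw [hq, ← Polynomial.coe_aeval_eq_eval, ← MvPolynomial.coe_aeval_eq_eval]
    exact h2
  have hq0 : q ≠ 0 := by
    intro h
    have h1 := hqe 0
    rw [h, Polynomial.eval_zero, zero_smul, add_zero] at h1
    exact hF₀ h1.symm
  set Λ : Set (Submodule K (Fin (N + 1) → K)) :=
    insert ⊥ (((fun s : K => Submodule.span K {x₀ + s • y}) '' (q.roots.toFinset : Set K)) ∪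
      (if eval y F = 0 then {Submodule.span K {y}} else ∅)) with hΛ
  have hspan : ∀ (v : Fin (N + 1) → K), v ∈ W → eval v F = 0 →
      Module.finrank K (Submodule.span K {v}) ≤ 1 ∧ Submodule.span K {v} ≤ W ∧
        ∀ x ∈ Submodule.span K {v}, eval x F = 0 := by
    intro v hv hv0
    refine ⟨?_, ?_, ?_⟩
    · exact (finrank_span_le_card ({v} : Set (Fin (N + 1) → K))).trans (by simp)
    · rw [Submodule.span_singleton_le_iff_mem]
      exact hv
    · intro x hx
      obtain ⟨c, rfl⟩ := Submodule.mem_span_singleton.1 hx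
      rw [lr_eval_smul F hF, hv0, mul_zero]
  refine ⟨Λ, ?_, ?_, ?_⟩
  · refine Set.Finite.insert _ (Set.Finite.union ((Finset.finite_toSet _).image _) ?_)
    split_ifs
    · exact Set.finite_singleton _
    · exact Set.finite_empty
  · intro W' hW'
    rcases hW' with rfl | hW' | hW'
    · refine ⟨by simp, bot_le, fun x hx => ?_⟩
      rw [(Submodule.mem_bot K).1 hx]
      exact lr_eval_zero hn F hF
    · obtain ⟨s, hs, rfl⟩ := hW'
      have hs1 : q.eval s = 0 := by
        have : s ∈ q.roots := Multiset.mem_toFinset.1 (Finset.mem_coe.1 hs)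
        exact Polynomial.isRoot_of_mem_roots this
      rw [hqe] at hs1
      exact hspan _ (W.add_mem hx₀ (W.smul_mem s hyW)) hs1
    · split_ifs at hW' with h
      · rw [Set.mem_singleton_iff] at hW'
        rw [hW']
        exact hspan y hyW h
      · exact absurd hW' (Set.notMem_empty _)
  · intro x hx hx1
    obtain ⟨a, b, rfl⟩ := hy x hx
    by_cases ha : a = 0
    · subst ha
      rw [zero_smul, zero_add] at hx1 ⊢
      rw [lr_eval_smul F hF] at hx1
      rcases mul_eq_zero.1 hx1 with h | h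
      · have hb : b = 0 := (pow_eq_zero_iff hn.ne').1 h
        refine ⟨⊥, Set.mem_insert _ _, ?_⟩
        rw [hb, zero_smul]
        exact Submodule.zero_mem _
      · refine ⟨Submodule.span K {y}, ?_, Submodule.mem_span_singleton.2 ⟨b, rfl⟩⟩
        refine Or.inr (Or.inr ?_)
        rw [if_pos h]
        rfl
    · have e : a • x₀ + b • y = a • (x₀ + (b / a) • y) := by
        rw [smul_add, smul_smul, mul_div_cancel₀ _ ha]
      rw [e] at hx1 ⊢
      rw [lr_eval_smul F hF] at hx1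
      have h1 : eval (x₀ + (b / a) • y) F = 0 :=
        (mul_eq_zero.1 hx1).resolve_left (pow_ne_zero _ ha)
      refine ⟨Submodule.span K {x₀ + (b / a) • y}, ?_,
        Submodule.mem_span_singleton.2 ⟨a, rfl⟩⟩
      refine Or.inr (Or.inl ⟨b / a, ?_, rfl⟩)
      rw [Finset.mem_coe, Multiset.mem_toFinset, Polynomial.mem_roots hq0, Polynomial.IsRoot,
        hqe]
      exact h1

/-- Several forms: the common zeros of the `F i`, `i ∈ Z`, on finitely many subspaces of dimension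
at most two lie on finitely many subspaces of dimension at most two where all these `F i` vanish
identically. -/
theorem line_refine {K : Type*} [Field K] {N r : ℕ} (d : Fin r → ℕ) (hd : ∀ i, 0 < d i)
    (F : Fin r → MvPolynomial (Fin (N + 1)) K) (hF : ∀ i, (F i).IsHomogeneous (d i))
    (Z : Finset (Fin r)) (Λ : Set (Submodule K (Fin (N + 1) → K))) (hΛ : Λ.Finite)
    (hΛ2 : ∀ W ∈ Λ, Module.finrank K W ≤ 2) :
    ∃ Λ' : Set (Submodule K (Fin (N + 1) → K)), Λ'.Finite ∧
      (∀ W ∈ Λ', Module.finrank K W ≤ 2 ∧ ∀ i ∈ Z, ∀ x ∈ W, eval x (F i) = 0) ∧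
      ∀ W ∈ Λ, ∀ x ∈ W, (∀ i ∈ Z, eval x (F i) = 0) → ∃ W' ∈ Λ', x ∈ W' := by
  classical
  induction Z using Finset.induction_on with
  | empty => exact ⟨Λ, hΛ, fun W hW => ⟨hΛ2 W hW, by simp⟩, fun W hW x hx _ => ⟨W, hW, hx⟩⟩
  | insert i Z hi ih =>
    obtain ⟨Λ₁, hf, h1, h2⟩ := ih
    have key : ∀ W ∈ Λ₁, ∃ M : Set (Submodule K (Fin (N + 1) → K)), M.Finite ∧
        (∀ W' ∈ M, Module.finrank K W' ≤ 2 ∧ W' ≤ W ∧ ∀ x ∈ W', eval x (F i) = 0) ∧
        ∀ x ∈ W, eval x (F i) = 0 → ∃ W' ∈ M, x ∈ W' := by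
      intro W hW
      by_cases hz : ∀ x ∈ W, eval x (F i) = 0
      · exact ⟨{W}, Set.finite_singleton _, fun W' hW' => by
          rw [Set.mem_singleton_iff] at hW'
          rw [hW']
          exact ⟨(h1 W hW).1, le_refl _, hz⟩, fun x hx _ => ⟨W, rfl, hx⟩⟩
      · push Not at hz
        obtain ⟨M, a1, a2, a3⟩ := line_zeros (hd i) (F i) (hF i) W (h1 W hW).1 hz
        exact ⟨M, a1, fun W' hW' => ⟨(a2 W' hW').1.trans (by norm_num), (a2 W' hW').2⟩, a3⟩
    choose! M hM1 hM2 hM3 using key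
    refine ⟨⋃ W ∈ Λ₁, M W, hf.biUnion hM1, ?_, ?_⟩
    · intro W' hW'
      simp only [Set.mem_iUnion] at hW'
      obtain ⟨W, hW, hW'⟩ := hW'
      obtain ⟨b1, b2, b3⟩ := hM2 W hW W' hW'
      refine ⟨b1, fun j hj x hx => ?_⟩
      rcases Finset.mem_insert.1 hj with rfl | hj
      · exact b3 x hx
      · exact (h1 W hW).2 j hj x (b2 hx)
    · intro W hW x hx hz
      obtain ⟨W₁, hW₁, hx₁⟩ := h2 W hW x hx fun j hj => hz j (Finset.mem_insert_of_mem hj)
      obtain ⟨W', hW', hx'⟩ := hM3 W₁ hW₁ x hx₁ (hz i (Finset.mem_insert_self _ _))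
      exact ⟨W', Set.mem_iUnion.2 ⟨W₁, Set.mem_iUnion.2 ⟨hW₁, hW'⟩⟩, hx'⟩

end Pool.Agent.Helper8.LV

end
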