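import Pool.Agent.Helper74.MG.T46

section

/-!
# LN: binary monomials

If `X_a = m₁₁ U + m₁₂ V`, `X_b = m₂₁ U + m₂₂ V` with `m_ij` in the valuation ring `O` and
`δ = det m ≠ 0`, then any `f` different monomials `X_a^(n-k) X_b^k` are combinations of the
monomials `z^(n-i) u^i` in another `O`-basis `z, u`, with a matrix which is product-bounded by
`δ^(f(f-1)/2)`.
-/

set_option autoImplicit false

namespace Pool.Agent.Helper49.LN

open scoped BigOperators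

theorem sum_ge_card (s : Finset ℕ) : s.card * (s.card - 1) ≤ 2 * ∑ i ∈ s, i := by
  induction s using Finset.induction_on_max with
  | empty => simp
  | insert a s hs ih =>
    have ha : a ∉ s := fun h => lt_irrefl a (hs a h)
    rw [Finset.card_insert_of_notMem ha, Finset.sum_insert ha]
    have h1 : s ⊆ Finset.range a := fun i hi => Finset.mem_range.2 (hs i hi)
    have h2 : s.card ≤ a := by
      have h3 := Finset.card_le_card h1
      rwa [Finset.card_range] at h3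
    have h4 : (s.card + 1) * (s.card + 1 - 1) = s.card * (s.card - 1) + 2 * s.card := by
      rcases Nat.eq_zero_or_pos s.card with h0 | h0
      · rw [h0]
      · obtain ⟨m, hm⟩ : ∃ m, s.card = m + 1 := ⟨s.card - 1, by omega⟩
        rw [hm]
        simp only [Nat.add_sub_cancel]
        ring
    rw [h4]
    omega

theorem sum_inj_ge {T : Type*} [Fintype T] (g : T → ℕ) (hg : Function.Injective g) :
    Fintype.card T * (Fintype.card T - 1) / 2 ≤ ∑ t, g t := by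
  classical
  have h1 := sum_ge_card (Finset.univ.image g)
  rw [Finset.card_image_of_injective _ hg, Finset.card_univ,
    Finset.sum_image (fun s _ t _ h => hg h)] at h1
  omega

section

variable {E : Type*} [Field E]

/-- the triangular case -/
theorem fan_tri (O : ValuationSubring E) {S : Type*} [CommRing S] [Algebra E S] (z u : S)
    (α e r : E) (hα : α ∈ O) (he : e ∈ O) (hr : r ∈ O) (n : ℕ) {T : Type*} [Fintype T]
    (κ : T → ℕ) (hκ : ∀ t, κ t ≤ n) :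
    ∃ A : Fin (n + 1) → T → E,
      PB O A ((α * e) ^ (Fintype.card T * (Fintype.card T - 1) / 2)) ∧
      ∀ t, (α • z) ^ (n - κ t) * ((α * r) • z + e • u) ^ κ t =
        ∑ i, A i t • (z ^ (n - (i : ℕ)) * u ^ (i : ℕ)) := by
  refine ⟨fun i t => ((κ t).choose i : E) * r ^ (κ t - i) * (α ^ (n - (i : ℕ)) * e ^ (i : ℕ)),
    ?_, ?_⟩
  · intro g hg
    have hg1 : Function.Injective fun t => ((g t : Fin (n + 1)) : ℕ) := fun s t h =>
      hg (Fin.ext h)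
    have hg2 : Function.Injective fun t => n - ((g t : Fin (n + 1)) : ℕ) := by
      intro s t h
      apply hg
      apply Fin.ext
      have h1 := (g s).is_le
      have h2 := (g t).is_le
      simp only at h
      omega
    have h1 := sum_inj_ge _ hg1
    have h2 := sum_inj_ge _ hg2
    obtain ⟨a, ha⟩ := Nat.exists_eq_add_of_le h1
    obtain ⟨b, hb⟩ := Nat.exists_eq_add_of_le h2
    refine ⟨(∏ t, ((κ t).choose (g t) : E) * r ^ (κ t - (g t : ℕ))) * (α ^ b * e ^ a), ?_, ?_⟩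
    · refine mul_mem (prod_mem fun t _ => mul_mem (natCast_mem O _) (pow_mem hr _))
        (mul_mem (pow_mem hα _) (pow_mem he _))
    · have h3 : ∏ t, α ^ (n - ((g t : Fin (n + 1)) : ℕ)) * e ^ ((g t : Fin (n + 1)) : ℕ) =
          (α * e) ^ (Fintype.card T * (Fintype.card T - 1) / 2) * (α ^ b * e ^ a) := by
        rw [Finset.prod_mul_distrib, Finset.prod_pow_eq_pow_sum, Finset.prod_pow_eq_pow_sum,
          ha, hb, mul_pow, pow_add, pow_add]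
        ring
      rw [Finset.prod_mul_distrib, h3]
      ring
  · intro t
    have h1 : ∀ i ∈ Finset.range (κ t + 1),
        ((α * r) • z) ^ (κ t - i) * (e • u) ^ i * ((κ t).choose i : S) =
          ((κ t).choose i * r ^ (κ t - i) * (α ^ (κ t - i) * e ^ i) : E) •
            (z ^ (κ t - i) * u ^ i) := by
      intro i _
      simp only [Algebra.smul_def, map_mul, map_pow, map_natCast]
      ring
    have h2 : ((α * r) • z + e • u) ^ κ t = ∑ i ∈ Finset.range (κ t + 1),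
        ((κ t).choose i * r ^ (κ t - i) * (α ^ (κ t - i) * e ^ i) : E) •
            (z ^ (κ t - i) * u ^ i) := by
      rw [add_comm, add_pow]
      refine Finset.sum_congr rfl fun i hi => ?_
      rw [← h1 i hi]
      ring
    rw [h2, Finset.mul_sum]
    rw [Fin.sum_univ_eq_sum_range (fun i => (((κ t).choose i : E) * r ^ (κ t - i) *
      (α ^ (n - i) * e ^ i)) • (z ^ (n - i) * u ^ i)) (n + 1)]
    have h3 : Finset.range (κ t + 1) ⊆ Finset.range (n + 1) := by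
      intro i hi
      rw [Finset.mem_range] at hi ⊢
      have := hκ t
      omega
    rw [← Finset.sum_subset h3]
    · refine Finset.sum_congr rfl fun i hi => ?_
      rw [Finset.mem_range] at hi
      have h4 : n - i = (n - κ t) + (κ t - i) := by
        have := hκ t
        omega
      rw [h4]
      simp only [Algebra.smul_def, map_mul, map_pow, map_natCast, mul_pow, pow_add]
      ring
    · intro i _ hi
      rw [Finset.mem_range, not_lt] at hi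
      rw [Nat.choose_eq_zero_of_lt (by omega)]
      simp

/-- the entry `m₁₁` has maximal value -/
theorem fan_row (O : ValuationSubring E) {S : Type*} [CommRing S] [Algebra E S] (U V : S)
    (m₁₁ m₁₂ m₂₁ m₂₂ : E) (h₁₁ : m₁₁ ∈ O) (h0 : m₁₁ ≠ 0) (h₁₂ : m₁₂ / m₁₁ ∈ O)
    (h₂₁ : m₂₁ / m₁₁ ∈ O) (h₂₂ : m₂₂ / m₁₁ ∈ O) (n : ℕ) {T : Type*} [Fintype T]
    (κ : T → ℕ) (hκ : ∀ t, κ t ≤ n) :
    ∃ (s₁ s₂ s₃ s₄ : E) (A : Fin (n + 1) → T → E), s₁ ∈ O ∧ s₂ ∈ O ∧ s₃ ∈ O ∧ s₄ ∈ O ∧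
      PB O A ((m₁₁ * m₂₂ - m₁₂ * m₂₁) ^ (Fintype.card T * (Fintype.card T - 1) / 2)) ∧
      ∀ t, (m₁₁ • U + m₁₂ • V) ^ (n - κ t) * (m₂₁ • U + m₂₂ • V) ^ κ t =
        ∑ i, A i t • ((s₁ • U + s₂ • V) ^ (n - (i : ℕ)) * (s₃ • U + s₄ • V) ^ (i : ℕ)) := by
  obtain ⟨A, hA, hA2⟩ := fan_tri O (U + (m₁₂ / m₁₁) • V) V m₁₁
    ((m₁₁ * m₂₂ - m₁₂ * m₂₁) / m₁₁) (m₂₁ / m₁₁) h₁₁ (by
      have h1 : (m₁₁ * m₂₂ - m₁₂ * m₂₁) / m₁₁ =
          m₁₁ * (m₂₂ / m₁₁ - m₁₂ / m₁₁ * (m₂₁ / m₁₁)) := by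
        field_simp
      rw [h1]
      exact mul_mem h₁₁ (sub_mem h₂₂ (mul_mem h₁₂ h₂₁))) h₂₁ n κ hκ
  refine ⟨1, m₁₂ / m₁₁, 0, 1, A, one_mem O, h₁₂, zero_mem O, one_mem O, ?_, ?_⟩
  · rwa [mul_div_cancel₀ _ h0] at hA
  · intro t
    have h2 : m₁₁ • U + m₁₂ • V = m₁₁ • (U + (m₁₂ / m₁₁) • V) := by
      rw [smul_add, smul_smul, mul_div_cancel₀ _ h0]
    have h3 : m₂₁ • U + m₂₂ • V = (m₁₁ * (m₂₁ / m₁₁)) • (U + (m₁₂ / m₁₁) • V) +
        ((m₁₁ * m₂₂ - m₁₂ * m₂₁) / m₁₁) • V := by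
      rw [mul_div_cancel₀ _ h0, smul_add, smul_smul, add_assoc, ← add_smul]
      congr 2
      field_simp
      ring
    rw [h2, h3, hA2 t]
    simp only [one_smul, zero_smul, zero_add]

theorem mono_neg {O : ValuationSubring E} {U T : Type*} [Fintype T] {A : U → T → E} {δ : E} {k : ℕ}
    (h : PB O A ((-δ) ^ k)) : PB O A (δ ^ k) := by
  refine h.mono ((-1) ^ k) (pow_mem (neg_mem (one_mem O)) k) ?_
  rw [neg_pow, mul_comm]

/-- an entry of maximal value -/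
theorem exists_max_entry (O : ValuationSubring E) (x : Fin 4 → E) (hx : ∃ i, x i ≠ 0) :
    ∃ j, x j ≠ 0 ∧ ∀ l, x l / x j ∈ O := by
  obtain ⟨i, hi⟩ := hx
  exact Pool.Agent.Helper74.LG.exists_max_coord O x i hi

/-- **Binary monomials.** -/
theorem fan (O : ValuationSubring E) {S : Type*} [CommRing S] [Algebra E S] (U V : S)
    (m₁₁ m₁₂ m₂₁ m₂₂ : E) (h₁₁ : m₁₁ ∈ O) (h₁₂ : m₁₂ ∈ O) (h₂₁ : m₂₁ ∈ O) (h₂₂ : m₂₂ ∈ O)
    (h0 : m₁₁ * m₂₂ - m₁₂ * m₂₁ ≠ 0) (n : ℕ) {T : Type*} [Fintype T]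
    (κ : T → ℕ) (hκ : ∀ t, κ t ≤ n) :
    ∃ (s₁ s₂ s₃ s₄ : E) (A : Fin (n + 1) → T → E), s₁ ∈ O ∧ s₂ ∈ O ∧ s₃ ∈ O ∧ s₄ ∈ O ∧
      PB O A ((m₁₁ * m₂₂ - m₁₂ * m₂₁) ^ (Fintype.card T * (Fintype.card T - 1) / 2)) ∧
      ∀ t, (m₁₁ • U + m₁₂ • V) ^ (n - κ t) * (m₂₁ • U + m₂₂ • V) ^ κ t =
        ∑ i, A i t • ((s₁ • U + s₂ • V) ^ (n - (i : ℕ)) * (s₃ • U + s₄ • V) ^ (i : ℕ)) := by
  obtain ⟨j, hj0, hj⟩ := exists_max_entry O ![m₁₁, m₁₂, m₂₁, m₂₂] (by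
    by_contra hcon
    push Not at hcon
    have h1 := hcon 0
    have h2 := hcon 1
    simp only [Matrix.cons_val_zero, Matrix.cons_val_one] at h1 h2
    apply h0
    rw [h1, h2]
    ring)
  have e0 := hj 0
  have e1 := hj 1
  have e2 := hj 2
  have e3 := hj 3
  have hκ' : ∀ t, n - κ t ≤ n := fun t => Nat.sub_le _ _
  have hκ'' : ∀ t, n - (n - κ t) = κ t := fun t => Nat.sub_sub_self (hκ t)
  fin_cases j
  · exact fan_row O U V m₁₁ m₁₂ m₂₁ m₂₂ h₁₁ hj0 e1 e2 e3 n κ hκ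
  · obtain ⟨s₁, s₂, s₃, s₄, A, a₁, a₂, a₃, a₄, hA, hA2⟩ :=
      fan_row O V U m₁₂ m₁₁ m₂₂ m₂₁ h₁₂ hj0 e0 e3 e2 n κ hκ
    refine ⟨s₂, s₁, s₄, s₃, A, a₂, a₁, a₄, a₃, ?_, fun t => ?_⟩
    · apply mono_neg
      rw [neg_sub]
      exact hA
    · have h3 := hA2 t
      rw [add_comm (m₁₂ • V), add_comm (m₂₂ • V)] at h3
      rw [h3]
      refine Finset.sum_congr rfl fun i _ => ?_
      rw [add_comm (s₁ • V), add_comm (s₃ • V)]
  · obtain ⟨s₁, s₂, s₃, s₄, A, a₁, a₂, a₃, a₄, hA, hA2⟩ :=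
      fan_row O U V m₂₁ m₂₂ m₁₁ m₁₂ h₂₁ hj0 e3 e0 e1 n (fun t => n - κ t) hκ'
    refine ⟨s₁, s₂, s₃, s₄, A, a₁, a₂, a₃, a₄, ?_, fun t => ?_⟩
    · apply mono_neg
      have h4 : -(m₁₁ * m₂₂ - m₁₂ * m₂₁) = m₂₁ * m₁₂ - m₂₂ * m₁₁ := by ring
      rw [h4]
      exact hA
    · have h3 := hA2 t
      rw [hκ''] at h3
      rw [mul_comm, h3]
  · obtain ⟨s₁, s₂, s₃, s₄, A, a₁, a₂, a₃, a₄, hA, hA2⟩ :=
      fan_row O V U m₂₂ m₂₁ m₁₂ m₁₁ h₂₂ hj0 e2 e1 e0 n (fun t => n - κ t) hκ'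
    refine ⟨s₂, s₁, s₄, s₃, A, a₂, a₁, a₄, a₃, ?_, fun t => ?_⟩
    · have h4 : m₁₁ * m₂₂ - m₁₂ * m₂₁ = m₂₂ * m₁₁ - m₂₁ * m₁₂ := by ring
      rw [h4]
      exact hA
    · have h3 := hA2 t
      rw [hκ'', add_comm (m₂₂ • V), add_comm (m₁₂ • V)] at h3
      rw [mul_comm, h3]
      refine Finset.sum_congr rfl fun i _ => ?_
      rw [add_comm (s₁ • V), add_comm (s₃ • V)]

end

end Pool.Agent.Helper49.LN

end
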