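import Pool.Agent.Helper74.MG.T47
import Pool.Agent.Helper74.MG.T02

section

/-!
# LN: columns as linear functions of polynomials

`cP v f = ∑ J, (coefficient of X^J in f) • v J`.
-/

set_option autoImplicit false

namespace Pool.Agent.Helper49.LN

open scoped BigOperators
open MvPolynomial

variable {E : Type*} [Field E] {σ : Type*} [Fintype σ] [DecidableEq σ]

/-- the monomial of a multiset -/
noncomputable def mo (E : Type*) [Field E] {σ : Type*} (K : Multiset σ) : MvPolynomial σ E :=
  (K.map X).prod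

omit [Fintype σ] in
theorem mo_eq (K : Multiset σ) : mo E K = monomial (Multiset.toFinsupp K) 1 := by
  unfold mo
  induction K using Multiset.induction_on with
  | empty => simp
  | cons a K ih =>
    rw [Multiset.map_cons, Multiset.prod_cons, ih, X, monomial_mul, one_mul]
    congr 1
    rw [← Multiset.singleton_add, map_add, Multiset.toFinsupp_singleton]

omit [Fintype σ] [DecidableEq σ] in
theorem mo_hom (K : Multiset σ) : (mo E K).IsHomogeneous (Multiset.card K) := by
  unfold mo
  induction K using Multiset.induction_on with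
  | empty => simpa using isHomogeneous_one σ E
  | cons a K ih =>
    rw [Multiset.map_cons, Multiset.prod_cons, Multiset.card_cons, add_comm]
    exact (isHomogeneous_X E a).mul ih

section cP

variable {V : Type*} [AddCommGroup V] [Module E V] {n : ℕ}

/-- the column of a polynomial -/
noncomputable def cP (v : Sym σ n → V) : MvPolynomial σ E →ₗ[E] V :=
  ∑ J : Sym σ n, (lcoeff E (Multiset.toFinsupp (J : Multiset σ))).smulRight (v J)

theorem cP_apply (v : Sym σ n → V) (f : MvPolynomial σ E) :
    cP v f = ∑ J : Sym σ n, coeff (Multiset.toFinsupp (J : Multiset σ)) f • v J := by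
  unfold cP
  rw [LinearMap.sum_apply]
  rfl

theorem toFinsupp_degree (K : Multiset σ) : (Multiset.toFinsupp K).degree = Multiset.card K := by
  induction K using Multiset.induction_on with
  | empty => simp
  | cons a K ih =>
    rw [← Multiset.singleton_add, map_add, Multiset.toFinsupp_singleton, map_add, ih,
      Multiset.card_add, Multiset.card_singleton, Finsupp.degree_single]

theorem cP_hom_ne (v : Sym σ n → V) (f : MvPolynomial σ E) (k : ℕ) (hf : f.IsHomogeneous k)
    (hk : k ≠ n) : cP v f = 0 := by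
  rw [cP_apply]
  refine Finset.sum_eq_zero fun J _ => ?_
  rw [hf.coeff_eq_zero, zero_smul]
  rw [toFinsupp_degree, Sym.card_coe]
  exact hk.symm

theorem cP_mo (v : Sym σ n → V) (J : Sym σ n) : cP v (mo E (J : Multiset σ)) = v J := by
  rw [cP_apply, Finset.sum_eq_single J]
  · rw [mo_eq, coeff_monomial, if_pos rfl, one_smul]
  · intro J' _ hJ
    rw [mo_eq, coeff_monomial, if_neg, zero_smul]
    intro h
    exact hJ (Sym.coe_injective (Multiset.toFinsupp.injective h)).symm
  · intro h
    exact absurd (Finset.mem_univ J) h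

/-- every polynomial is a combination of monomials -/
theorem mo_span (f : MvPolynomial σ E) : f = ∑ m ∈ f.support, coeff m f • mo E (Finsupp.toMultiset m) := by
  conv_lhs => rw [f.as_sum]
  refine Finset.sum_congr rfl fun m _ => ?_
  rw [mo_eq, smul_monomial, smul_eq_mul, mul_one, Finsupp.toMultiset_toFinsupp]

/-- to check `cP v (f * g) ∈ W` for all `f`, `g` homogeneous of degree `e`, monomials `f` of degree
`k`, `k + e = n`, are enough -/
theorem cP_mul_mem (v : Sym σ n → V) (W : Submodule E V) (k e : ℕ) (hn : k + e = n)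
    (g : MvPolynomial σ E) (hg : g.IsHomogeneous e)
    (h : ∀ I : Sym σ k, cP v (mo E (I : Multiset σ) * g) ∈ W) (f : MvPolynomial σ E) :
    cP v (f * g) ∈ W := by
  rw [mo_span f, Finset.sum_mul, map_sum]
  refine sum_mem fun m _ => ?_
  rw [smul_mul_assoc, map_smul]
  refine W.smul_mem _ ?_
  by_cases hm : Multiset.card (Finsupp.toMultiset m) = k
  · exact h (Sym.mk _ hm)
  · rw [cP_hom_ne v _ _ ((mo_hom _).mul hg) (by omega)]
    exact W.zero_mem

/-- the same for an ideal generated by forms of one degree -/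
theorem cP_ideal_mem (v : Sym σ n → V) (W : Submodule E V) (k e : ℕ) (hn : k + e = n)
    {X : Type*} (g : X → MvPolynomial σ E) (hg : ∀ i, (g i).IsHomogeneous e)
    (h : ∀ i (I : Sym σ k), cP v (mo E (I : Multiset σ) * g i) ∈ W) (f : MvPolynomial σ E)
    (hf : f ∈ Ideal.span (Set.range g)) : cP v f ∈ W := by
  obtain ⟨l, rfl⟩ := (Finsupp.mem_ideal_span_range_iff_exists_finsupp).1 hf
  rw [Finsupp.sum, map_sum]
  exact sum_mem fun i _ => cP_mul_mem v W k e hn (g i) (hg i) (h i) _

end cP

/-- polynomials with coefficients in `O` -/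
def IntP (O : ValuationSubring E) (f : MvPolynomial σ E) : Prop := ∀ m, coeff m f ∈ O

omit [Fintype σ] [DecidableEq σ] in
theorem IntP.add {O : ValuationSubring E} {f g : MvPolynomial σ E} (hf : IntP O f)
    (hg : IntP O g) : IntP O (f + g) := fun m => by
  rw [coeff_add]
  exact add_mem (hf m) (hg m)

omit [Fintype σ] [DecidableEq σ] in
theorem IntP.sub {O : ValuationSubring E} {f g : MvPolynomial σ E} (hf : IntP O f)
    (hg : IntP O g) : IntP O (f - g) := fun m => by
  rw [coeff_sub]
  exact sub_mem (hf m) (hg m)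

omit [Fintype σ] in
theorem IntP.mul {O : ValuationSubring E} {f g : MvPolynomial σ E} (hf : IntP O f)
    (hg : IntP O g) : IntP O (f * g) := fun m => by
  rw [coeff_mul]
  exact sum_mem fun p _ => mul_mem (hf _) (hg _)

omit [Fintype σ] in
theorem IntP.pow {O : ValuationSubring E} {f : MvPolynomial σ E} (hf : IntP O f) (k : ℕ) :
    IntP O (f ^ k) := by
  induction k with
  | zero =>
    intro m
    rw [pow_zero, coeff_one]
    split_ifs
    · exact one_mem O
    · exact zero_mem O
  | succ k ih =>
    rw [pow_succ]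
    exact ih.mul hf

omit [Fintype σ] [DecidableEq σ] in
theorem IntP.smul {O : ValuationSubring E} {f : MvPolynomial σ E} (hf : IntP O f) {a : E}
    (ha : a ∈ O) : IntP O (a • f) := fun m => by
  rw [coeff_smul, smul_eq_mul]
  exact mul_mem ha (hf m)

omit [Fintype σ] in
theorem IntP.X (O : ValuationSubring E) (i : σ) : IntP O (X i : MvPolynomial σ E) := fun m => by
  rw [coeff_X]
  split_ifs
  · exact one_mem O
  · exact zero_mem O

omit [Fintype σ] in
theorem IntP.mo (O : ValuationSubring E) (K : Multiset σ) : IntP O (mo E K) := fun m => by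
  rw [mo_eq, coeff_monomial]
  split_ifs
  · exact one_mem O
  · exact zero_mem O

omit [Fintype σ] [DecidableEq σ] in
theorem IntP.one (O : ValuationSubring E) : IntP O (1 : MvPolynomial σ E) := fun m => by
  classical
  rw [coeff_one]
  split_ifs
  · exact one_mem O
  · exact zero_mem O

/-- columns of integral polynomials are bounded -/
theorem cP_bdd {R : Type*} {n : ℕ} (O : ValuationSubring E) (Δ : E) (v : Sym σ n → R → E)
    (hv : ∀ J l, Δ * v J l ∈ O) (f : MvPolynomial σ E) (hf : IntP O f) (l : R) :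
    Δ * cP v f l ∈ O := by
  rw [cP_apply, Finset.sum_apply, Finset.mul_sum]
  refine sum_mem fun J _ => ?_
  rw [Pi.smul_apply, smul_eq_mul]
  have h1 : Δ * (coeff (Multiset.toFinsupp (J : Multiset σ)) f * v J l) =
      coeff (Multiset.toFinsupp (J : Multiset σ)) f * (Δ * v J l) := by ring
  rw [h1]
  exact mul_mem (hf _) (hv J l)

/-- transformation of the columns -/
theorem cP_trans {V : Type*} [AddCommGroup V] [Module E V] {n : ℕ} (Γ : V →ₗ[E] V)
    (v v' : Sym σ n → V) (B : Submodule E V) (h : ∀ J, v J - Γ (v' J) ∈ B)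
    (f : MvPolynomial σ E) : cP v f - Γ (cP v' f) ∈ B := by
  rw [cP_apply, cP_apply, map_sum, ← Finset.sum_sub_distrib]
  refine sum_mem fun J _ => ?_
  rw [map_smul, ← smul_sub]
  exact B.smul_mem _ (h J)

end Pool.Agent.Helper49.LN

end

section

/-!
# LN: the ideal of a line

`Lf P j l m = P_jl X_m - P_jm X_l + P_lm X_j`, `P = x ∧ y`; `Il P` is the ideal generated by them.
-/

set_option autoImplicit false

namespace Pool.Agent.Helper49.LN

open scoped BigOperators
open MvPolynomial

variable {E : Type*} [Field E] {σ : Type*}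

/-- the Pluecker coordinates of the line through `x` and `y` -/
def pl (x y : σ → E) (j l : σ) : E := x j * y l - x l * y j

/-- the linear forms vanishing on the line -/
noncomputable def Lf (P : σ → σ → E) (s : σ × σ × σ) : MvPolynomial σ E :=
  P s.1 s.2.1 • X s.2.2 - P s.1 s.2.2 • X s.2.1 + P s.2.1 s.2.2 • X s.1

theorem Lf_hom (P : σ → σ → E) (s : σ × σ × σ) : (Lf P s).IsHomogeneous 1 := by
  have h : ∀ (a : E) (i : σ), (a • (X i : MvPolynomial σ E)).IsHomogeneous 1 := by
    intro a i
    rw [smul_eq_C_mul]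
    have h1 := (isHomogeneous_C σ a).mul (isHomogeneous_X E i)
    rwa [zero_add] at h1
  exact ((h _ _).sub (h _ _)).add (h _ _)

/-- the ideal of the line -/
noncomputable def Il (P : σ → σ → E) : Ideal (MvPolynomial σ E) := Ideal.span (Set.range (Lf P))

theorem Lf_mem (P : σ → σ → E) (s : σ × σ × σ) : Lf P s ∈ Il P := Ideal.subset_span ⟨s, rfl⟩

/-- scaling of the Pluecker coordinates -/
theorem Lf_smul (ρ : E) (P P' : σ → σ → E) (h : ∀ j l, P j l = ρ * P' j l) (s : σ × σ × σ) :
    Lf P s = ρ • Lf P' s := by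
  unfold Lf
  rw [h, h, h]
  simp only [mul_smul, smul_add, smul_sub]

theorem Il_smul (ρ : E) (hρ : ρ ≠ 0) (P P' : σ → σ → E) (h : ∀ j l, P j l = ρ * P' j l) :
    Il P = Il P' := by
  apply le_antisymm
  · unfold Il
    rw [Ideal.span_le]
    rintro _ ⟨s, rfl⟩
    rw [Lf_smul ρ P P' h, smul_eq_C_mul]
    exact Ideal.mul_mem_left _ _ (Lf_mem P' s)
  · unfold Il
    rw [Ideal.span_le]
    rintro _ ⟨s, rfl⟩
    have h1 : Lf P' s = ρ⁻¹ • Lf P s := by
      rw [Lf_smul ρ P P' h, smul_smul, inv_mul_cancel₀ hρ, one_smul]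
    rw [h1, smul_eq_C_mul]
    exact Ideal.mul_mem_left _ _ (Lf_mem P s)

/-- modulo the ideal of the line every variable is a combination of `X_a` and `X_b` -/
theorem X_mod (P : σ → σ → E) (hPs : ∀ j l, P l j = -P j l) (a b : σ) (hab : P a b ≠ 0) (l : σ) :
    (X l : MvPolynomial σ E) - ((P l b / P a b) • X a + (P a l / P a b) • X b) ∈ Il P := by
  have h1 : (X l : MvPolynomial σ E) - ((P l b / P a b) • X a + (P a l / P a b) • X b) =
      C (P a b)⁻¹ * Lf P (a, b, l) := by
    unfold Lf
    rw [← smul_eq_C_mul]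
    simp only [smul_add, smul_sub, smul_smul]
    rw [inv_mul_cancel₀ hab, one_smul, hPs b l]
    simp only [div_eq_mul_inv, mul_neg, neg_smul, neg_mul]
    rw [hPs l b]
    simp only [neg_mul, neg_smul, mul_neg, mul_comm (P a b)⁻¹]
    abel
  rw [h1]
  exact Ideal.mul_mem_left _ _ (Lf_mem P _)

/-- the reduction of a variable at a point `x` with `x_m = 1` and a second point `y` with
`y_m = 0`, `y_j = 1` -/
theorem X_mod_std (x y : σ → E) (m j : σ) (hxm : x m = 1) (hym : y m = 0) (hyj : y j = 1) (a : σ) :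
    (X a : MvPolynomial σ E) - (x a • X m + y a • (X j - x j • X m)) ∈ Il (pl x y) := by
  have h1 : (X a : MvPolynomial σ E) - (x a • X m + y a • (X j - x j • X m)) =
      Lf (pl x y) (m, j, a) := by
    unfold Lf pl
    simp only [hxm, hym, hyj]
    module
  rw [h1]
  exact Lf_mem _ _

/-- the linear form `x_a X_b - x_b X_a` -/
noncomputable def hf (x : σ → E) (a b : σ) : MvPolynomial σ E := x a • X b - x b • X a

theorem hf_hom (x : σ → E) (a b : σ) : (hf x a b).IsHomogeneous 1 := by
  have h : ∀ (c : E) (i : σ), (c • (X i : MvPolynomial σ E)).IsHomogeneous 1 := by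
    intro c i
    rw [smul_eq_C_mul]
    have h1 := (isHomogeneous_C σ c).mul (isHomogeneous_X E i)
    rwa [zero_add] at h1
  exact (h _ _).sub (h _ _)

theorem smul_mem_Il (P : σ → σ → E) (c : E) {f : MvPolynomial σ E} (hf : f ∈ Il P) :
    c • f ∈ Il P := by
  rw [smul_eq_C_mul]
  exact Ideal.mul_mem_left _ _ hf

/-- `x_a X_b - x_b X_a` is a multiple of `X_j - x_j X_m` modulo the ideal of the line -/
theorem hf_mod_std (x y : σ → E) (m j : σ) (hxm : x m = 1) (hym : y m = 0) (hyj : y j = 1)
    (a b : σ) :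
    hf x a b - pl x y a b • (X j - x j • X m) ∈ Il (pl x y) := by
  have ha := X_mod_std x y m j hxm hym hyj a
  have hb := X_mod_std x y m j hxm hym hyj b
  have h1 : hf x a b - pl x y a b • ((X j : MvPolynomial σ E) - x j • X m) =
      x a • ((X b : MvPolynomial σ E) - (x b • X m + y b • (X j - x j • X m))) -
      x b • ((X a : MvPolynomial σ E) - (x a • X m + y a • (X j - x j • X m))) := by
    unfold hf pl
    module
  rw [h1]
  exact Ideal.sub_mem _ (smul_mem_Il _ _ hb) (smul_mem_Il _ _ ha)

/-- `x_j X_l - x_l X_j` is a multiple of `x_a X_b - x_b X_a` modulo the ideal of the line -/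
theorem hf_mod (x y : σ → E) (a b : σ) (hab : pl x y a b ≠ 0) (j l : σ) :
    hf x j l - (pl x y j l / pl x y a b) • hf x a b ∈ Il (pl x y) := by
  have hs : ∀ j l, pl x y l j = -pl x y j l := fun j l => by
    unfold pl
    ring
  have hj := X_mod (pl x y) hs a b hab j
  have hl := X_mod (pl x y) hs a b hab l
  have h1 : hf x j l - (pl x y j l / pl x y a b) • hf x a b =
      x j • ((X l : MvPolynomial σ E) - ((pl x y l b / pl x y a b) • X a +
        (pl x y a l / pl x y a b) • X b)) -
      x l • ((X j : MvPolynomial σ E) - ((pl x y j b / pl x y a b) • X a +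
        (pl x y a j / pl x y a b) • X b)) := by
    have e1 : x j * (pl x y l b / pl x y a b) - x l * (pl x y j b / pl x y a b) =
        -(pl x y j l / pl x y a b * x b) := by
      field_simp
      unfold pl
      ring
    have e2 : x j * (pl x y a l / pl x y a b) - x l * (pl x y a j / pl x y a b) =
        pl x y j l / pl x y a b * x a := by
      field_simp
      unfold pl
      ring
    have h2 : x j • ((X l : MvPolynomial σ E) - ((pl x y l b / pl x y a b) • X a +
        (pl x y a l / pl x y a b) • X b)) -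
      x l • ((X j : MvPolynomial σ E) - ((pl x y j b / pl x y a b) • X a +
        (pl x y a j / pl x y a b) • X b)) =
        x j • (X l : MvPolynomial σ E) - x l • X j -
        ((x j * (pl x y l b / pl x y a b) - x l * (pl x y j b / pl x y a b)) • X a +
        (x j * (pl x y a l / pl x y a b) - x l * (pl x y a j / pl x y a b)) • X b) := by
      simp only [smul_sub, smul_add, smul_smul, sub_smul]
      abel
    rw [h2, e1, e2]
    unfold hf
    simp only [smul_sub, smul_smul, neg_smul]
    abel
  rw [h1]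
  exact Ideal.sub_mem _ (smul_mem_Il _ _ hl) (smul_mem_Il _ _ hj)

/-- binary forms in `X_a`, `X_b` modulo the ideal of the line -/
noncomputable def Bk (P : σ → σ → E) (a b : σ) (k : ℕ) : Submodule E (MvPolynomial σ E) :=
  Submodule.span E (Set.range fun i : Fin (k + 1) =>
    (X a ^ (k - (i : ℕ)) * X b ^ (i : ℕ) : MvPolynomial σ E)) ⊔ (Il P).restrictScalars E

theorem Bk_mul (P : σ → σ → E) (hPs : ∀ j l, P l j = -P j l) (a b : σ) (hab : P a b ≠ 0)
    (k : ℕ) (l : σ) (f : MvPolynomial σ E) (hf : f ∈ Bk P a b k) : X l * f ∈ Bk P a b (k + 1) := by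
  obtain ⟨g, hg, w, hw, rfl⟩ := Submodule.mem_sup.1 hf
  have hI : ∀ w' ∈ Il P, w' ∈ Bk P a b (k + 1) := fun w' hw' => Submodule.mem_sup_right hw'
  rw [mul_add]
  refine add_mem ?_ (hI _ (Ideal.mul_mem_left _ _ hw))
  clear hf
  induction hg using Submodule.span_induction with
  | mem g hg =>
    obtain ⟨i, rfl⟩ := hg
    have h1 := X_mod P hPs a b hab l
    have h2 : X l * (X a ^ (k - (i : ℕ)) * X b ^ (i : ℕ) : MvPolynomial σ E) =
        (P l b / P a b) • (X a ^ (k + 1 - (i : ℕ)) * X b ^ (i : ℕ)) +
        (P a l / P a b) • (X a ^ (k + 1 - ((i : ℕ) + 1)) * X b ^ ((i : ℕ) + 1)) +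
        ((X l : MvPolynomial σ E) - ((P l b / P a b) • X a + (P a l / P a b) • X b)) *
          (X a ^ (k - (i : ℕ)) * X b ^ (i : ℕ)) := by
      have h3 : k + 1 - (i : ℕ) = (k - (i : ℕ)) + 1 := by
        have := i.is_le
        omega
      have h4 : k + 1 - ((i : ℕ) + 1) = k - (i : ℕ) := by omega
      rw [h3, h4]
      simp only [smul_eq_C_mul]
      ring
    rw [h2]
    refine add_mem (add_mem ?_ ?_) (hI _ (Ideal.mul_mem_right _ _ h1))
    · refine Submodule.smul_mem _ _ (Submodule.mem_sup_left (Submodule.subset_span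
        ⟨⟨i, by have := i.is_le; omega⟩, rfl⟩))
    · refine Submodule.smul_mem _ _ (Submodule.mem_sup_left (Submodule.subset_span
        ⟨⟨(i : ℕ) + 1, by have := i.is_le; omega⟩, rfl⟩))
  | zero =>
    rw [mul_zero]
    exact zero_mem _
  | add g g' _ _ ih ih' =>
    rw [mul_add]
    exact add_mem ih ih'
  | smul c g _ ih =>
    rw [mul_smul_comm]
    exact Submodule.smul_mem _ _ ih

theorem mo_mem_Bk (P : σ → σ → E) (hPs : ∀ j l, P l j = -P j l) (a b : σ) (hab : P a b ≠ 0)
    (K : Multiset σ) : mo E K ∈ Bk P a b (Multiset.card K) := by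
  induction K using Multiset.induction_on with
  | empty =>
    refine Submodule.mem_sup_left (Submodule.subset_span ⟨0, ?_⟩)
    simp [mo]
  | cons l K ih =>
    have h1 : mo E (l ::ₘ K) = X l * mo E K := by
      unfold mo
      rw [Multiset.map_cons, Multiset.prod_cons]
    rw [h1, Multiset.card_cons]
    exact Bk_mul P hPs a b hab _ l _ ih

/-- modulo the columns of the ideal of the line, the columns of the multiples of `h` are spanned by
those of the binary monomials times `h` -/
theorem span_bin [Fintype σ] [DecidableEq σ] {V : Type*} [AddCommGroup V] [Module E V] {n : ℕ}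
    (v : Sym σ n → V) (W : Submodule E V) (P : σ → σ → E) (hPs : ∀ j l, P l j = -P j l) (a b : σ)
    (hab : P a b ≠ 0) (hW : ∀ f ∈ Il P, cP v f ∈ W) (k e : ℕ) (hn : k + e = n)
    (h : MvPolynomial σ E) (hh : h.IsHomogeneous e) (f : MvPolynomial σ E) :
    cP v (f * h) ∈ W ⊔ Submodule.span E (Set.range fun i : Fin (k + 1) =>
      cP v (X a ^ (k - (i : ℕ)) * X b ^ (i : ℕ) * h)) := by
  refine cP_mul_mem v _ k e hn h hh (fun I => ?_) f
  have h1 := mo_mem_Bk P hPs a b hab (I : Multiset σ)
  rw [Sym.card_coe] at h1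
  obtain ⟨g, hg, w, hw, h2⟩ := Submodule.mem_sup.1 h1
  rw [← h2, add_mul, map_add]
  refine add_mem ?_ (Submodule.mem_sup_left (hW _ (Ideal.mul_mem_right _ _ hw)))
  refine Submodule.mem_sup_right ?_
  clear h1 h2
  induction hg using Submodule.span_induction with
  | mem g hg =>
    obtain ⟨i, rfl⟩ := hg
    exact Submodule.subset_span ⟨i, rfl⟩
  | zero =>
    rw [zero_mul, map_zero]
    exact zero_mem _
  | add g g' _ _ ih ih' =>
    rw [add_mul, map_add]
    exact add_mem ih ih'
  | smul c g _ ih =>
    rw [smul_mul_assoc, map_smul]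
    exact Submodule.smul_mem _ _ ih

/-- the ideal of the point `x` -/
noncomputable def Ipt (x : σ → E) : Ideal (MvPolynomial σ E) :=
  Ideal.span (Set.range fun p : σ × σ => hf x p.1 p.2)

/-- `X_i^n` and `X_m^n` agree up to scaling modulo the ideal of the point -/
theorem pow_mod (x : σ → E) (i m : σ) (hi : x i = 1) (hm : x m ≠ 0) (n : ℕ) :
    (X i ^ n : MvPolynomial σ E) - (x m ^ n)⁻¹ • X m ^ n ∈ Ipt x := by
  have h1 : (X i : MvPolynomial σ E) - (x m)⁻¹ • X m = (x m)⁻¹ • hf x m i := by
    unfold hf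
    rw [hi, smul_sub, smul_smul, inv_mul_cancel₀ hm]
    simp only [one_smul]
  have h2 : (x m ^ n)⁻¹ • (X m ^ n : MvPolynomial σ E) = ((x m)⁻¹ • X m) ^ n := by
    rw [smul_pow, inv_pow]
  rw [h2]
  obtain ⟨g, hg⟩ := sub_dvd_pow_sub_pow (X i : MvPolynomial σ E) ((x m)⁻¹ • X m) n
  rw [hg, h1, smul_eq_C_mul, mul_assoc]
  refine Ideal.mul_mem_left _ _ (Ideal.mul_mem_right _ _ ?_)
  exact Ideal.subset_span ⟨(m, i), rfl⟩

end Pool.Agent.Helper49.LN

end
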