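import Mathlib

section

/-!
# LN: selection of bases
-/

set_option autoImplicit false

namespace Pool.Agent.Helper49.LN

open scoped BigOperators

/-- a maximal family of blocks -/
theorem max_blk {E V A B K : Type*} [Field E] [AddCommGroup V] [Module E V]
    [FiniteDimensional E V] [Fintype K] [Nonempty K] (v : A → V) (hv : LinearIndependent E v)
    (u : B → K → V) :
    ∃ (m : ℕ) (β : Fin m → B),
      LinearIndependent E (Sum.elim v fun p : Fin m × K => u (β p.1) p.2) ∧
      ∀ b : B, ∃ c : K → E, c ≠ 0 ∧ ∑ k, c k • u b k ∈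
        Submodule.span E (Set.range (Sum.elim v fun p : Fin m × K => u (β p.1) p.2)) := by
  classical
  -- the possible numbers of blocks
  have hb : ∀ m : ℕ, (∃ β : Fin m → B,
      LinearIndependent E (Sum.elim v fun p : Fin m × K => u (β p.1) p.2)) →
      m ≤ Module.finrank E V := by
    rintro m ⟨β, hβ⟩
    have h1 : LinearIndependent E fun p : Fin m × K => u (β p.1) p.2 := by
      have h2 := hβ.comp Sum.inr Sum.inr_injective
      exact h2
    have h2 := h1.fintype_card_le_finrank
    rw [Fintype.card_prod, Fintype.card_fin] at h2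
    have h3 : 0 < Fintype.card K := Fintype.card_pos
    exact le_trans (Nat.le_mul_of_pos_right m h3) h2
  have h0 : ∃ β : Fin 0 → B,
      LinearIndependent E (Sum.elim v fun p : Fin 0 × K => u (β p.1) p.2) := by
    refine ⟨Fin.elim0, ?_⟩
    have h1 : LinearIndependent E fun p : Fin 0 × K => u ((Fin.elim0 : Fin 0 → B) p.1) p.2 :=
      linearIndependent_empty_type
    refine hv.sum_type h1 ?_
    have h2 : Set.range (fun p : Fin 0 × K => u ((Fin.elim0 : Fin 0 → B) p.1) p.2) = ∅ :=
      Set.range_eq_empty _
    rw [h2, Submodule.span_empty]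
    exact disjoint_bot_right
  set P : ℕ → Prop := fun m => ∃ β : Fin m → B,
      LinearIndependent E (Sum.elim v fun p : Fin m × K => u (β p.1) p.2) with hP
  have hm := Nat.findGreatest_spec (P := P) (Nat.zero_le (Module.finrank E V)) h0
  have hmax : ¬ P (Nat.findGreatest P (Module.finrank E V) + 1) := by
    intro h
    have h1 := hb _ h
    have h2 := Nat.le_findGreatest (P := P) h1 h
    omega
  generalize Nat.findGreatest P (Module.finrank E V) = m at hm hmax
  obtain ⟨β, hβ⟩ := hm
  refine ⟨m, β, hβ, fun b => ?_⟩
  by_contra hcon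
  push Not at hcon
  apply hmax
  have hc : ∀ c : K → E, ∑ k, c k • u b k ∈
      Submodule.span E (Set.range (Sum.elim v fun p : Fin m × K => u (β p.1) p.2)) → c = 0 := by
    intro c h1
    by_contra h2
    exact hcon c h2 h1
  have h1 : LinearIndependent E (u b) := by
    rw [Fintype.linearIndependent_iff]
    intro c hc0 k
    have h2 := hc c (by rw [hc0]; exact Submodule.zero_mem _)
    rw [h2]
    rfl
  have h2 : Disjoint
      (Submodule.span E (Set.range (Sum.elim v fun p : Fin m × K => u (β p.1) p.2)))
      (Submodule.span E (Set.range (u b))) := by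
    rw [Submodule.disjoint_def]
    intro x hx hx2
    obtain ⟨c, rfl⟩ := (Submodule.mem_span_range_iff_exists_fun E).1 hx2
    have h3 := hc c hx
    rw [h3]
    simp
  have h3 := hβ.sum_type h1 h2
  refine ⟨Fin.snoc β b, ?_⟩
  let f : A ⊕ (Fin (m + 1) × K) → (A ⊕ (Fin m × K)) ⊕ K := fun x => match x with
    | Sum.inl a => Sum.inl (Sum.inl a)
    | Sum.inr p => Fin.lastCases (motive := fun _ => (A ⊕ (Fin m × K)) ⊕ K) (Sum.inr p.2)
        (fun s => Sum.inl (Sum.inr (s, p.2))) p.1
  have hf1 : ∀ k, f (Sum.inr (Fin.last m, k)) = Sum.inr k := fun k => by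
    simp only [f, Fin.lastCases_last]
  have hf2 : ∀ s k, f (Sum.inr (Fin.castSucc s, k)) = Sum.inl (Sum.inr (s, k)) := fun s k => by
    simp only [f, Fin.lastCases_castSucc]
  have hf : Function.Injective f := by
    rintro (a | ⟨s, k⟩) (a' | ⟨s', k'⟩) h
    · have h4 : (Sum.inl (Sum.inl a) : (A ⊕ (Fin m × K)) ⊕ K) = Sum.inl (Sum.inl a') := h
      rw [Sum.inl.inj (Sum.inl.inj h4)]
    · exfalso
      induction s' using Fin.lastCases with
      | last =>
        rw [hf1] at h
        have h4 : (Sum.inl (Sum.inl a) : (A ⊕ (Fin m × K)) ⊕ K) = Sum.inr k' := h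
        exact Sum.inl_ne_inr h4
      | cast s' =>
        rw [hf2] at h
        have h4 : (Sum.inl (Sum.inl a) : (A ⊕ (Fin m × K)) ⊕ K) = Sum.inl (Sum.inr (s', k')) := h
        exact Sum.inl_ne_inr (Sum.inl.inj h4)
    · exfalso
      induction s using Fin.lastCases with
      | last =>
        rw [hf1] at h
        have h4 : (Sum.inr k : (A ⊕ (Fin m × K)) ⊕ K) = Sum.inl (Sum.inl a') := h
        exact Sum.inr_ne_inl h4
      | cast s =>
        rw [hf2] at h
        have h4 : (Sum.inl (Sum.inr (s, k)) : (A ⊕ (Fin m × K)) ⊕ K) = Sum.inl (Sum.inl a') := h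
        exact Sum.inr_ne_inl (Sum.inl.inj h4)
    · induction s using Fin.lastCases with
      | last =>
        induction s' using Fin.lastCases with
        | last =>
          rw [hf1, hf1] at h
          rw [Sum.inr.inj h]
        | cast s' =>
          rw [hf1, hf2] at h
          exact absurd h Sum.inr_ne_inl
      | cast s =>
        induction s' using Fin.lastCases with
        | last =>
          rw [hf1, hf2] at h
          exact absurd h Sum.inl_ne_inr
        | cast s' =>
          rw [hf2, hf2] at h
          have h4 := Sum.inr.inj (Sum.inl.inj h)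
          rw [Prod.mk.injEq] at h4
          rw [h4.1, h4.2]
  have h4 := h3.comp f hf
  have h5 : (Sum.elim v fun p : Fin (m + 1) × K =>
      u ((Fin.snoc β b : Fin (m + 1) → B) p.1) p.2) =
      (Sum.elim (Sum.elim v fun p : Fin m × K => u (β p.1) p.2) (u b)) ∘ f := by
    funext x
    rcases x with a | ⟨s, k⟩
    · rfl
    · induction s using Fin.lastCases with
      | last =>
        rw [Function.comp_apply, hf1, Sum.elim_inr, Sum.elim_inr, Fin.snoc_last]
      | cast s =>
        rw [Function.comp_apply, hf2, Sum.elim_inr, Sum.elim_inl, Sum.elim_inr,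
          Fin.snoc_castSucc]
  rw [h5]
  exact h4

/-- extend an independent family by members of another family to a basis of the common span -/
theorem sel {E V A B : Type*} [Field E] [AddCommGroup V] [Module E V] [FiniteDimensional E V]
    (v : A → V) (hv : LinearIndependent E v) (w : B → V) :
    ∃ (m : ℕ) (β : Fin m → B), Function.Injective β ∧
      LinearIndependent E (Sum.elim v fun s => w (β s)) ∧
      ∀ b, w b ∈ Submodule.span E (Set.range (Sum.elim v fun s => w (β s))) := by
  obtain ⟨m, β, h1, h2⟩ := max_blk (K := Unit) v hv (fun b _ => w b)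
  have h3 : LinearIndependent E (Sum.elim v fun s => w (β s)) := by
    have h4 := h1.comp (Sum.map id fun s : Fin m => (s, ()))
      (Sum.map_injective.2 ⟨Function.injective_id, fun s t h => (Prod.mk.inj h).1⟩)
    have h5 : (Sum.elim v fun s => w (β s)) =
        (Sum.elim v fun p : Fin m × Unit => w (β p.1)) ∘ (Sum.map id fun s : Fin m => (s, ())) := by
      funext x
      rcases x with a | s
      · rfl
      · rfl
    rw [h5]
    exact h4
  have h6 : Set.range (Sum.elim v fun p : Fin m × Unit => w (β p.1)) =
      Set.range (Sum.elim v fun s => w (β s)) := by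
    rw [Set.Sum.elim_range, Set.Sum.elim_range]
    congr 1
    ext x
    constructor
    · rintro ⟨p, rfl⟩
      exact ⟨p.1, rfl⟩
    · rintro ⟨s, rfl⟩
      exact ⟨(s, ()), rfl⟩
  refine ⟨m, β, ?_, h3, fun b => ?_⟩
  · have h4 := (h3.comp Sum.inr Sum.inr_injective).injective
    intro s t hst
    apply h4
    simp only [Function.comp_apply, Sum.elim_inr, hst]
  · obtain ⟨c, hc0, hc⟩ := h2 b
    rw [h6] at hc
    have h7 : c () ≠ 0 := by
      intro h8
      apply hc0
      funext x
      exact h8
    rw [Fintype.sum_unique] at hc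
    have h8 := (Submodule.smul_mem_iff _ h7).1 hc
    exact h8

/-- a maximal family of 2-blocks -/
theorem max_blocks {E V A B : Type*} [Field E] [AddCommGroup V] [Module E V]
    [FiniteDimensional E V] (v : A → V) (hv : LinearIndependent E v) (u : B → Fin 2 → V) :
    ∃ (m : ℕ) (β : Fin m → B),
      LinearIndependent E (Sum.elim v fun p : Fin m × Fin 2 => u (β p.1) p.2) ∧
      ∀ b : B, ∃ s t : E, (s ≠ 0 ∨ t ≠ 0) ∧ s • u b 0 + t • u b 1 ∈
        Submodule.span E (Set.range (Sum.elim v fun p : Fin m × Fin 2 => u (β p.1) p.2)) := by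
  obtain ⟨m, β, h1, h2⟩ := max_blk v hv u
  refine ⟨m, β, h1, fun b => ?_⟩
  obtain ⟨c, hc0, hc⟩ := h2 b
  refine ⟨c 0, c 1, ?_, ?_⟩
  · by_contra h3
    push Not at h3
    apply hc0
    funext i
    fin_cases i
    · exact h3.1
    · exact h3.2
  · rwa [Fin.sum_univ_two] at hc

/-- an independent family which spans everything has the right number of members -/
theorem card_of_basis {E R T : Type*} [Field E] [Fintype R] [DecidableEq R] [Fintype T]
    (v : T → R → E) (hv : LinearIndependent E v) (hs : Submodule.span E (Set.range v) = ⊤) :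
    Nonempty (T ≃ R) := by
  have h1 := Module.finrank_eq_card_basis (Module.Basis.mk hv (le_of_eq hs.symm))
  rw [Module.finrank_fintype_fun_eq_card] at h1
  exact Fintype.card_eq.1 h1.symm

/-- the determinant of a basis does not vanish -/
theorem det_ne {E R T : Type*} [Field E] [Fintype R] [DecidableEq R] [Fintype T] [DecidableEq T]
    (v : T → R → E) (hv : LinearIndependent E v) (r : T ≃ R) :
    Matrix.det (Matrix.of fun s t => v t (r s)) ≠ 0 := by
  have h1 : LinearIndependent E fun t => (LinearEquiv.funCongrLeft E E r) (v t) :=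
    hv.map' (LinearEquiv.funCongrLeft E E r).toLinearMap (LinearEquiv.ker _)
  have h2 : (Matrix.of fun s t => v t (r s)).col = fun t => (LinearEquiv.funCongrLeft E E r) (v t) := by
    funext t
    rfl
  rw [← h2, Matrix.linearIndependent_cols_iff_isUnit, Matrix.isUnit_iff_isUnit_det] at h1
  exact h1.ne_zero

end Pool.Agent.Helper49.LN

end

section

/-!
# LN: dimensions
-/

set_option autoImplicit false

namespace Pool.Agent.Helper49.LN

section

variable {E V W : Type*} [Field E] [AddCommGroup V] [Module E V] [FiniteDimensional E V]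
  [AddCommGroup W] [Module E W] [FiniteDimensional E W]

omit [FiniteDimensional E W] in
/-- a linear map loses more dimension on the larger subspace -/
theorem mv1 (f : V →ₗ[E] W) (A B : Submodule E V) (hAB : A ≤ B) :
    Module.finrank E (B.map f) + Module.finrank E A ≤
      Module.finrank E B + Module.finrank E (A.map f) := by
  have h1 := LinearMap.finrank_range_add_finrank_ker (f.domRestrict A)
  have h2 := LinearMap.finrank_range_add_finrank_ker (f.domRestrict B)
  have h3 : Module.finrank E (LinearMap.ker (f.domRestrict A)) ≤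
      Module.finrank E (LinearMap.ker (f.domRestrict B)) := by
    let g : LinearMap.ker (f.domRestrict A) →ₗ[E] LinearMap.ker (f.domRestrict B) :=
      ((Submodule.inclusion hAB).comp (LinearMap.ker (f.domRestrict A)).subtype).codRestrict
        (LinearMap.ker (f.domRestrict B)) fun x => by
          have h4 := x.2
          rw [LinearMap.mem_ker] at h4 ⊢
          exact h4
    refine LinearMap.finrank_le_finrank_of_injective (f := g) ?_
    intro x y h
    have h4 : ((g x : B) : V) = ((g y : B) : V) := by rw [h]
    exact Subtype.ext (Subtype.ext h4)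
  rw [LinearMap.range_domRestrict] at h1 h2
  omega

omit [FiniteDimensional E W] in
/-- a linear map with a small kernel loses little dimension -/
theorem mv3 (f : V →ₗ[E] W) (s : ℕ) (hs : Module.finrank E (LinearMap.ker f) ≤ s)
    (C : Submodule E V) : Module.finrank E C ≤ Module.finrank E (C.map f) + s := by
  have h1 := mv1 f C ⊤ le_top
  have h2 := LinearMap.finrank_range_add_finrank_ker f
  rw [Submodule.map_top, finrank_top] at h1
  omega

/-- adding a vector -/
theorem finrank_sup_span_singleton_le (A : Submodule E V) (Y : V) :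
    Module.finrank E (A ⊔ Submodule.span E {Y} : Submodule E V) ≤ Module.finrank E A + 1 := by
  have h1 := Submodule.finrank_sup_add_finrank_inf_eq A (Submodule.span E {Y})
  have h2 : Module.finrank E (Submodule.span E {Y}) ≤ 1 := by
    by_cases hY : Y = 0
    · rw [hY, Submodule.span_zero_singleton, finrank_bot]
      exact Nat.zero_le 1
    · rw [finrank_span_singleton hY]
  omega

theorem mv2 (Y : V) (A C : Submodule E V) :
    Module.finrank E C + Module.finrank E (A ⊔ Submodule.span E {Y} : Submodule E V) ≤
      Module.finrank E (C ⊔ Submodule.span E {Y} : Submodule E V) + Module.finrank E A + 1 := by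
  have h1 := finrank_sup_span_singleton_le A Y
  have h2 : Module.finrank E C ≤
      Module.finrank E (C ⊔ Submodule.span E {Y} : Submodule E V) :=
    Submodule.finrank_mono le_sup_left
  omega

/-- a vector outside -/
theorem mv4 (A C : Submodule E V) (hAC : A ≤ C) (v : V) (hv : v ∈ C) (hv' : v ∉ A) :
    Module.finrank E A + 1 ≤ Module.finrank E C := by
  refine Submodule.finrank_lt_finrank_of_lt (lt_of_le_of_ne hAC ?_)
  intro h
  apply hv'
  rw [h]
  exact hv

end

/-- dimension of the span of an independent family -/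
theorem mv5 {E V A B : Type*} [Field E] [AddCommGroup V] [Module E V] [Fintype A] [Fintype B]
    (v : A → V) (w : B → V) (h : LinearIndependent E (Sum.elim v w)) :
    Module.finrank E (Submodule.span E (Set.range (Sum.elim v w))) =
        Fintype.card A + Fintype.card B ∧
      Module.finrank E (Submodule.span E (Set.range v)) = Fintype.card A := by
  refine ⟨?_, ?_⟩
  · rw [finrank_span_eq_card h, Fintype.card_sum]
  · have h1 : LinearIndependent E v := h.comp Sum.inl Sum.inl_injective
    rw [finrank_span_eq_card h1]

end Pool.Agent.Helper49.LN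

end

section

/-!
# LN: if no further 2-block exists, all columns come from one line

Application: `b I l = column of X^I (X_l - x_l X_(i₀))` modulo `W`. The hypothesis says that all the
blocks `(X^I + X^J)(X_l - ..), (X^I + X^J)(X_l' - ..)` are dependent modulo `W`.
-/

set_option autoImplicit false

namespace Pool.Agent.Helper49.LN

open scoped BigOperators

section stuckQ

variable {E Q A σ : Type*} [Field E] [CharZero E] [AddCommGroup Q] [Module E Q]

private theorem rank_one (B : A → σ → Q)
    (h : ∀ (i j : A) (l l' : σ), ∃ s t : E, (s ≠ 0 ∨ t ≠ 0) ∧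
      s • (B i l + B j l) + t • (B i l' + B j l') = 0)
    (i : A) (l : σ) (hl : B i l ≠ 0) : ∃ α : σ → E, α l = 1 ∧ ∀ m, B i m = α m • B i l := by
  classical
  have h1 : ∀ m, ∃ a : E, B i m = a • B i l := by
    intro m
    obtain ⟨s, t, hst, h0⟩ := h i i l m
    have h2 : s • B i l + t • B i m = 0 := by
      have h3 : (2 : E) • (s • B i l + t • B i m) = 0 := by
        rw [← h0, ← two_smul E (B i l), ← two_smul E (B i m), smul_add, smul_comm (2 : E) s,
          smul_comm (2 : E) t]
      exact (smul_eq_zero.1 h3).resolve_left two_ne_zero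
    have ht : t ≠ 0 := by
      rintro rfl
      rw [zero_smul, add_zero] at h2
      rcases smul_eq_zero.1 h2 with h3 | h3
      · rcases hst with h4 | h4
        · exact h4 h3
        · exact h4 rfl
      · exact hl h3
    refine ⟨-(t⁻¹ * s), ?_⟩
    have h3 : t • B i m = -(s • B i l) := by
      rw [add_comm] at h2
      exact eq_neg_of_add_eq_zero_left h2
    calc B i m = t⁻¹ • (t • B i m) := by rw [smul_smul, inv_mul_cancel₀ ht, one_smul]
      _ = -(t⁻¹ * s) • B i l := by rw [h3, smul_neg, smul_smul, neg_smul]
  choose α hα using h1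
  refine ⟨Function.update α l 1, Function.update_self _ _ _, fun m => ?_⟩
  by_cases hm : m = l
  · subst hm
    rw [Function.update_self, one_smul]
  · rw [Function.update_of_ne hm]
    exact hα m

omit [CharZero E] in
private theorem prop_of_indep (B : A → σ → Q)
    (h : ∀ (i j : A) (l l' : σ), ∃ s t : E, (s ≠ 0 ∨ t ≠ 0) ∧
      s • (B i l + B j l) + t • (B i l' + B j l') = 0)
    (i j : A) (u v : Q) (α β : σ → E) (hα : ∀ m, B i m = α m • u) (hβ : ∀ m, B j m = β m • v)
    (huv : ∀ s t : E, s • u + t • v = 0 → s = 0 ∧ t = 0) (m m' : σ) :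
    α m * β m' = α m' * β m := by
  obtain ⟨s, t, hst, h0⟩ := h i j m m'
  have h1 : (s * α m + t * α m') • u + (s * β m + t * β m') • v = 0 := by
    rw [← h0, hα m, hα m', hβ m, hβ m']
    module
  obtain ⟨h2, h3⟩ := huv _ _ h1
  rcases hst with hs | ht
  · have h4 : s * (α m * β m' - α m' * β m) = 0 := by linear_combination β m' * h2 - α m' * h3
    have h5 := (mul_eq_zero.1 h4).resolve_left hs
    linear_combination h5
  · have h4 : t * (α m * β m' - α m' * β m) = 0 := by linear_combination α m * h3 - β m * h2
    have h5 := (mul_eq_zero.1 h4).resolve_left ht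
    linear_combination h5

private theorem stuckQ [Fintype σ] (B : A → σ → Q) (i₀ : σ) (hb : ∀ i, B i i₀ = 0)
    (h : ∀ (i j : A) (l l' : σ), ∃ s t : E, (s ≠ 0 ∨ t ≠ 0) ∧
      s • (B i l + B j l) + t • (B i l' + B j l') = 0)
    (hne : ∃ (i : A) (l : σ) (j : A) (l' : σ), ∀ s t : E, s • B i l + t • B j l' = 0 →
      s = 0 ∧ t = 0) :
    ∃ y : σ → E, y i₀ = 0 ∧ y ≠ 0 ∧ ∀ c : σ → E, ∑ l, c l * y l = 0 →
      ∀ i, ∑ l, c l • B i l = 0 := by
  obtain ⟨i, l, j, l', huv⟩ := hne
  have hu : B i l ≠ 0 := by
    intro h0
    have := (huv 1 0 (by rw [h0, smul_zero, zero_smul, add_zero])).1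
    exact one_ne_zero this
  have hv : B j l' ≠ 0 := by
    intro h0
    have := (huv 0 1 (by rw [h0, smul_zero, zero_smul, add_zero])).2
    exact one_ne_zero this
  obtain ⟨α, hα1, hα⟩ := rank_one B h i l hu
  obtain ⟨β, hβ1, hβ⟩ := rank_one B h j l' hv
  have hαβ := prop_of_indep B h i j _ _ α β hα hβ huv
  -- β = β l • α
  have hβα : ∀ m, β m = α m * β l := by
    intro m
    have := hαβ l m
    rw [hα1, one_mul] at this
    exact this
  have hβl : β l ≠ 0 := by
    intro h0
    have := hβα l'
    rw [hβ1, h0, mul_zero] at this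
    exact one_ne_zero this
  refine ⟨α, ?_, ?_, ?_⟩
  · have := hα i₀
    rw [hb] at this
    exact (smul_eq_zero.1 this.symm).resolve_right hu
  · intro h0
    have := congrFun h0 l
    rw [hα1] at this
    exact one_ne_zero this
  · intro c hc k
    by_cases hk : ∀ m, B k m = 0
    · exact Finset.sum_eq_zero fun m _ => by rw [hk m, smul_zero]
    · push Not at hk
      obtain ⟨n, hn⟩ := hk
      obtain ⟨γ, hγ1, hγ⟩ := rank_one B h k n hn
      have key : ∃ g : E, ∀ m, γ m = α m * g := by
        by_cases h1 : ∀ s t : E, s • B i l + t • B k n = 0 → s = 0 ∧ t = 0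
        · refine ⟨γ l, fun m => ?_⟩
          have := prop_of_indep B h i k _ _ α γ hα hγ h1 l m
          rw [hα1, one_mul] at this
          exact this
        · have h2 : ∀ s t : E, s • B j l' + t • B k n = 0 → s = 0 ∧ t = 0 := by
            push Not at h1
            obtain ⟨s₁, t₁, e1, hne1⟩ := h1
            intro s t e2
            -- B k n is a multiple of B i l
            have ht₁ : t₁ ≠ 0 := by
              intro h0
              rw [h0, zero_smul, add_zero] at e1
              have := (smul_eq_zero.1 e1).resolve_right hu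
              exact hne1 this h0
            have e3 : (t * s₁) • B i l + -(t₁ * s) • B j l' = 0 := by
              have : (t * s₁) • B i l + -(t₁ * s) • B j l' =
                  t • (s₁ • B i l + t₁ • B k n) - t₁ • (s • B j l' + t • B k n) := by module
              rw [this, e1, e2, smul_zero, smul_zero, sub_zero]
            obtain ⟨e4, e5⟩ := huv _ _ e3
            have hs : s = 0 := by
              rw [neg_eq_zero] at e5
              exact (mul_eq_zero.1 e5).resolve_left ht₁
            refine ⟨hs, ?_⟩
            rw [hs, zero_smul, zero_add] at e2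
            exact (smul_eq_zero.1 e2).resolve_right hn
          refine ⟨β l * γ l', fun m => ?_⟩
          have := prop_of_indep B h j k _ _ β γ hβ hγ h2 l' m
          rw [hβ1, one_mul] at this
          rw [this, hβα m, mul_assoc]
      obtain ⟨g, hg⟩ := key
      calc ∑ m, c m • B k m = ∑ m, (c m * α m) • (g • B k n) := by
            refine Finset.sum_congr rfl fun m _ => ?_
            rw [hγ m, hg m, smul_smul, smul_smul, mul_assoc]
        _ = (∑ m, c m * α m) • (g • B k n) := by rw [Finset.sum_smul]
        _ = 0 := by rw [hc, zero_smul]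

end stuckQ

theorem stuck {E V A σ : Type*} [Field E] [CharZero E] [AddCommGroup V] [Module E V] [Fintype σ]
    [DecidableEq σ] (W : Submodule E V) (b : A → σ → V) (i₀ : σ) (hb : ∀ i, b i i₀ = 0)
    (h : ∀ (i j : A) (l l' : σ), ∃ s t : E, (s ≠ 0 ∨ t ≠ 0) ∧
      s • (b i l + b j l) + t • (b i l' + b j l') ∈ W)
    (hne : ∃ (i : A) (l : σ) (j : A) (l' : σ), ∀ s t : E, s • b i l + t • b j l' ∈ W →
      s = 0 ∧ t = 0) :
    ∃ y : σ → E, y i₀ = 0 ∧ y ≠ 0 ∧ ∀ c : σ → E, ∑ l, c l * y l = 0 →
      ∀ i, ∑ l, c l • b i l ∈ W := by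
  have h0 : ∀ x : V, W.mkQ x = 0 ↔ x ∈ W := fun x => by
    rw [Submodule.mkQ_apply, Submodule.Quotient.mk_eq_zero]
  obtain ⟨y, hy0, hy1, hy2⟩ := stuckQ (E := E) (fun i l => W.mkQ (b i l)) i₀
    (fun i => by rw [hb, map_zero])
    (fun i j l l' => by
      obtain ⟨s, t, hst, hW⟩ := h i j l l'
      refine ⟨s, t, hst, ?_⟩
      rw [← map_add, ← map_add, ← map_smul, ← map_smul, ← map_add]
      exact (h0 _).2 hW)
    (by
      obtain ⟨i, l, j, l', hne⟩ := hne
      refine ⟨i, l, j, l', fun s t hst => hne s t ?_⟩
      rw [← map_smul, ← map_smul, ← map_add] at hst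
      exact (h0 _).1 hst)
  refine ⟨y, hy0, hy1, fun c hc i => ?_⟩
  have := hy2 c hc i
  simp only [← map_smul, ← map_sum] at this
  exact (h0 _).1 this

end Pool.Agent.Helper49.LN

end
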