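import Pool.Agent.Helper74.MG.T50
import Pool.Agent.Helper74.MG.T51
import Pool.Agent.Helper74.MG.T52

section

/-!
# LN: spans of columns
-/

set_option autoImplicit false

namespace Pool.Agent.Helper49.LN

open scoped BigOperators
open MvPolynomial

variable {E : Type*} [Field E] {σ : Type*} [Fintype σ] [DecidableEq σ] {κ : Type*} [Fintype κ]
  [DecidableEq κ] {n : ℕ}

/-- the unit vectors span everything -/
theorem span_unit {R : Type*} [Fintype R] [DecidableEq R] :
    Submodule.span E (Set.range fun r : R => (Pi.single r 1 : R → E)) = ⊤ := by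
  have h := (Pi.basisFun E R).span_eq
  rw [← h]
  congr 1
  congr 1
  funext r
  rw [Pi.basisFun_apply]

/-- the constant columns span everything -/
theorem span_kv (x y : σ → E) (a b : σ) (hab : pl x y a b ≠ 0) :
    Submodule.span E (Set.range (kv (κ := κ) x y)) = ⊤ := by
  rw [eq_top_iff, ← span_unit (E := E) (R := (σ ⊕ σ) ⊕ κ), Submodule.span_le]
  rintro _ ⟨r, rfl⟩
  change (Pi.single r 1 : (σ ⊕ σ) ⊕ κ → E) ∈ Submodule.span E (Set.range (kv (κ := κ) x y))
  have hk : ∀ t, kv (κ := κ) x y t ∈ Submodule.span E (Set.range (kv (κ := κ) x y)) :=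
    fun t => Submodule.subset_span ⟨t, rfl⟩
  rcases r with (l | l) | i
  · have h1 : (Pi.single (Sum.inl (Sum.inl l)) 1 : (σ ⊕ σ) ⊕ κ → E) =
        (pl x y a b)⁻¹ • (y b • kv x y (Sum.inl (l, a)) - y a • kv x y (Sum.inl (l, b))) := by
      funext r
      rcases r with (l' | l') | i
      · simp only [kv, tr, Pi.smul_apply, Pi.sub_apply, Sum.elim_inl, smul_eq_mul, Pi.single_apply,
          Sum.inl.injEq]
        split_ifs
        · rw [eq_inv_mul_iff_mul_eq₀ hab]
          unfold pl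
          ring
        · ring
      · simp only [kv, tr, Pi.smul_apply, Pi.sub_apply, Sum.elim_inl, Sum.elim_inr, smul_eq_mul,
          Pi.single_apply, Sum.inl.injEq, reduceCtorEq, if_false]
        split_ifs
        · ring
        · ring
      · simp [kv, tr]
    rw [h1]
    exact Submodule.smul_mem _ _ (Submodule.sub_mem _ (Submodule.smul_mem _ _ (hk _))
      (Submodule.smul_mem _ _ (hk _)))
  · have h1 : (Pi.single (Sum.inl (Sum.inr l)) 1 : (σ ⊕ σ) ⊕ κ → E) =
        (pl x y a b)⁻¹ • (x a • kv x y (Sum.inl (l, b)) - x b • kv x y (Sum.inl (l, a))) := by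
      funext r
      rcases r with (l' | l') | i
      · simp only [kv, tr, Pi.smul_apply, Pi.sub_apply, Sum.elim_inl, smul_eq_mul,
          Pi.single_apply, Sum.inl.injEq, reduceCtorEq, if_false]
        split_ifs
        · ring
        · ring
      · simp only [kv, tr, Pi.smul_apply, Pi.sub_apply, Sum.elim_inl, Sum.elim_inr, smul_eq_mul,
          Pi.single_apply, Sum.inl.injEq, Sum.inr.injEq]
        split_ifs
        · rw [eq_inv_mul_iff_mul_eq₀ hab]
          unfold pl
          ring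
        · ring
      · simp [kv, tr]
    rw [h1]
    exact Submodule.smul_mem _ _ (Submodule.sub_mem _ (Submodule.smul_mem _ _ (hk _))
      (Submodule.smul_mem _ _ (hk _)))
  · have h1 : (Pi.single (Sum.inr i) 1 : (σ ⊕ σ) ⊕ κ → E) = kv x y (Sum.inr i) := by
      funext r
      rcases r with (l' | l') | i'
      · simp [kv, tr]
      · simp [kv, tr]
      · simp only [kv, tr, Sum.elim_inr, Pi.single_apply, Sum.inr.injEq]
    rw [h1]
    exact hk _

omit [Fintype σ] [DecidableEq σ] [Fintype κ] [DecidableEq κ] in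
private theorem two_zero (x y : σ → E) (a b : σ) (hab : pl x y a b ≠ 0) (s t : E)
    (h : ∀ l, s * x l + t * y l = 0) : s = 0 ∧ t = 0 := by
  have ha := h a
  have hb := h b
  constructor
  · have h1 : s * pl x y a b = 0 := by
      unfold pl
      linear_combination y b * ha - y a * hb
    exact (mul_eq_zero.1 h1).resolve_right hab
  · have h1 : t * pl x y a b = 0 := by
      unfold pl
      linear_combination x a * hb - x b * ha
    exact (mul_eq_zero.1 h1).resolve_right hab

omit [Fintype σ] [DecidableEq σ] [Fintype κ] [DecidableEq κ] in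
theorem b3_indep (x y : σ → E) (ε : κ → E) (a b : σ) (hab : pl x y a b ≠ 0) :
    LinearIndependent E (b3 x y ε) := by
  rw [Fintype.linearIndependent_iff]
  intro g hg
  rw [Fin.sum_univ_three] at hg
  have h1 : ∀ l, g 1 * x l = 0 := by
    intro l
    have := congrFun hg (Sum.inl (Sum.inl l))
    simpa [b3, tr] using this
  have h2 : ∀ l, g 0 * x l + g 2 * y l = 0 := by
    intro l
    have := congrFun hg (Sum.inl (Sum.inr l))
    simpa [b3, tr] using this
  have h3 := two_zero x y a b hab (g 1) 0 (fun l => by rw [zero_mul, add_zero]; exact h1 l)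
  have h4 := two_zero x y a b hab (g 0) (g 2) h2
  intro i
  fin_cases i
  · exact h4.1
  · exact h3.1
  · exact h4.2

omit [Fintype σ] [DecidableEq σ] [Fintype κ] [DecidableEq κ] in
theorem b4_indep (x y : σ → E) (a b : σ) (hab : pl x y a b ≠ 0) :
    LinearIndependent E (b4 (κ := κ) x y) := by
  rw [Fintype.linearIndependent_iff]
  intro g hg
  rw [Fin.sum_univ_four] at hg
  have h1 : ∀ l, g 1 * x l + g 3 * y l = 0 := by
    intro l
    have := congrFun hg (Sum.inl (Sum.inl l))
    simpa [b4, tr] using this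
  have h2 : ∀ l, g 0 * x l + g 2 * y l = 0 := by
    intro l
    have := congrFun hg (Sum.inl (Sum.inr l))
    simpa [b4, tr] using this
  have h3 := two_zero x y a b hab (g 1) (g 3) h1
  have h4 := two_zero x y a b hab (g 0) (g 2) h2
  intro i
  fin_cases i
  · exact h4.1
  · exact h3.1
  · exact h4.2
  · exact h3.2

section gen

variable {M : Type*} [AddCommGroup M] [Module E M]

/-- the columns of the ideal of the line (use `cP_ideal_mem`) -/
theorem span_lv (V : Sym σ (n + 1) → M) (P : σ → σ → E) (W : Submodule E M)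
    (h : ∀ p, lv V P p ∈ W) (f : MvPolynomial σ E) (hf : f ∈ Il P) : cP V f ∈ W :=
  cP_ideal_mem V W n 1 rfl (Lf P) (Lf_hom P) (fun s I => h (I, s)) f hf

omit [Fintype σ] [DecidableEq σ] in
/-- `x_j X_l - x_l X_j` in terms of `X_l - x_l X_(i₀)` -/
theorem hf_base (x : σ → E) (i₀ : σ) (hx : x i₀ = 1) (j l : σ) :
    hf x j l = x j • hf x i₀ l - x l • hf x i₀ j := by
  unfold hf
  rw [hx]
  module

/-- the columns of the ideal of the point -/
theorem span_sg (V : Sym σ (n + 1) → M) (x : σ → E) (i₀ : σ) (hx : x i₀ = 1) (W : Submodule E M)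
    (h : ∀ p, sg V x i₀ p ∈ W) (f : MvPolynomial σ E) (hf : f ∈ Ipt x) : cP V f ∈ W := by
  refine cP_ideal_mem V W n 1 rfl (fun p : σ × σ => Pool.Agent.Helper49.LN.hf x p.1 p.2)
    (fun p => hf_hom x _ _) (fun p I => ?_) f hf
  rw [hf_base x i₀ hx p.1 p.2, mul_sub, mul_smul_comm, mul_smul_comm, map_sub, map_smul,
    map_smul]
  exact W.sub_mem (W.smul_mem _ (h (I, p.2))) (W.smul_mem _ (h (I, p.1)))

/-- the columns of the ideal of the point, modulo those of the ideal of the line (use `hf_mod`,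
`span_bin`) -/
theorem span_fn (V : Sym σ (n + 1) → M) (x y : σ → E) (a b : σ) (hab : pl x y a b ≠ 0)
    (W : Submodule E M) (h : ∀ f ∈ Il (pl x y), cP V f ∈ W)
    (h' : ∀ k ≤ n, fn V x a b k ∈ W) (f : MvPolynomial σ E) (hf : f ∈ Ipt x) : cP V f ∈ W := by
  refine cP_ideal_mem V W n 1 rfl (fun p : σ × σ => Pool.Agent.Helper49.LN.hf x p.1 p.2)
    (fun p => hf_hom x _ _) (fun p I => ?_) f hf
  have h1 := hf_mod x y a b hab p.1 p.2
  have h2 : mo E (I : Multiset σ) * Pool.Agent.Helper49.LN.hf x p.1 p.2 =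
      mo E (I : Multiset σ) * (Pool.Agent.Helper49.LN.hf x p.1 p.2 -
        (pl x y p.1 p.2 / pl x y a b) • Pool.Agent.Helper49.LN.hf x a b) +
      (pl x y p.1 p.2 / pl x y a b) •
        (mo E (I : Multiset σ) * Pool.Agent.Helper49.LN.hf x a b) := by
    rw [mul_sub, mul_smul_comm, sub_add_cancel]
  rw [h2, map_add, map_smul]
  refine W.add_mem (h _ (Ideal.mul_mem_left _ _ h1)) (W.smul_mem _ ?_)
  have h3 := span_bin V W (pl x y) (fun j l => by unfold pl; ring) a b hab h n 1 rfl
    (Pool.Agent.Helper49.LN.hf x a b) (hf_hom x a b) (mo E (I : Multiset σ))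
  refine (sup_le le_rfl ?_ : W ⊔ _ ≤ W) h3
  rw [Submodule.span_le]
  rintro _ ⟨i, rfl⟩
  exact h' i.1 i.is_le

/-- all columns, modulo those of the ideal of the line -/
theorem span_bn (V : Sym σ n → M) (x y : σ → E) (a b : σ) (hab : pl x y a b ≠ 0)
    (W : Submodule E M) (h : ∀ f ∈ Il (pl x y), cP V f ∈ W)
    (h' : ∀ k ≤ n, bn (E := E) V a b k ∈ W) (f : MvPolynomial σ E) : cP V f ∈ W := by
  have h3 := span_bin V W (pl x y) (fun j l => by unfold pl; ring) a b hab h n 0 rfl
    1 (isHomogeneous_one σ E) f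
  rw [mul_one] at h3
  refine (sup_le le_rfl ?_ : W ⊔ _ ≤ W) h3
  rw [Submodule.span_le]
  rintro _ ⟨i, rfl⟩
  simp only [mul_one]
  exact h' i.1 i.is_le

omit [Fintype σ] [DecidableEq σ] in
/-- the ideal of the line is contained in the ideal of the point -/
theorem Il_le_Ipt (x y : σ → E) (i₀ : σ) (hx : x i₀ = 1) : Il (pl x y) ≤ Ipt x := by
  unfold Il
  rw [Ideal.span_le]
  rintro _ ⟨⟨j, l, m⟩, rfl⟩
  have hm : ∀ s t, hf x s t ∈ Ipt x := fun s t => Ideal.subset_span ⟨(s, t), rfl⟩
  have h1 : Lf (pl x y) (j, l, m) =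
      C (y l) * hf x j m + C (y j) * hf x m l + C (y m) * hf x l j := by
    unfold Lf pl hf
    simp only [← smul_eq_C_mul]
    module
  rw [h1]
  exact Ideal.add_mem _ (Ideal.add_mem _ (Ideal.mul_mem_left _ _ (hm _ _))
    (Ideal.mul_mem_left _ _ (hm _ _))) (Ideal.mul_mem_left _ _ (hm _ _))

omit [Fintype σ] [DecidableEq σ] in
theorem fn_mem (x : σ → E) (a b : σ) (k : ℕ) :
    (X a ^ (n - k) * X b ^ k * hf x a b : MvPolynomial σ E) ∈ Ipt x :=
  Ideal.mul_mem_left _ _ (Ideal.subset_span ⟨(a, b), rfl⟩)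

omit [Fintype σ] [DecidableEq σ] in
theorem sg_mem (x : σ → E) (i₀ : σ) (p : Sym σ n × σ) :
    (mo E (p.1 : Multiset σ) * hf x i₀ p.2 : MvPolynomial σ E) ∈ Ipt x :=
  Ideal.mul_mem_left _ _ (Ideal.subset_span ⟨(i₀, p.2), rfl⟩)

omit [Fintype σ] [DecidableEq σ] in
theorem bl_mem (x : σ → E) (i₀ : σ) (β : (Sym σ n × Sym σ n) × (σ × σ)) (s : Fin 2) :
    ((mo E (β.1.1 : Multiset σ) + mo E (β.1.2 : Multiset σ)) *
      hf x i₀ (if s = 0 then β.2.1 else β.2.2) : MvPolynomial σ E) ∈ Ipt x :=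
  Ideal.mul_mem_left _ _ (Ideal.subset_span ⟨(i₀, _), rfl⟩)

omit [Fintype σ] [DecidableEq σ] in
theorem lv_mem (P : σ → σ → E) (p : Sym σ n × σ × σ × σ) :
    (mo E (p.1 : Multiset σ) * Lf P p.2 : MvPolynomial σ E) ∈ Il P :=
  Ideal.mul_mem_left _ _ (Lf_mem P _)

end gen

end Pool.Agent.Helper49.LN

end

section

/-!
# LN: choice of the columns
-/

set_option autoImplicit false

namespace Pool.Agent.Helper49.LN

open scoped BigOperators
open MvPolynomial

variable {E : Type*} [Field E] {σ : Type*} [Fintype σ] [DecidableEq σ] {κ : Type*} [Fintype κ]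
  [DecidableEq κ] {n : ℕ}

/-- completion to a basis, with a last vector detected by a functional -/
theorem complete1 {R A B : Type*} [Fintype R] [DecidableEq R] [Fintype A] [DecidableEq A]
    (v : A → R → E) (hv : LinearIndependent E v) (lam : (R → E) →ₗ[E] E) (hl : ∀ a, lam (v a) = 0)
    (u : R → E) (hu : lam u ≠ 0) (w : B → R → E) (hw : Submodule.span E (Set.range w) = ⊤) :
    ∃ (t : ℕ) (f : Fin t → B) (r : ((A ⊕ Fin 1) ⊕ Fin t) ≃ R),
      dt r (Sum.elim (Sum.elim v fun _ : Fin 1 => u) fun s => w (f s)) ≠ 0 := by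
  have hu0 : u ≠ 0 := by
    intro h
    apply hu
    rw [h, map_zero]
  have h1 : LinearIndependent E (Sum.elim v fun _ : Fin 1 => u) := by
    refine hv.sum_type (LinearIndependent.of_subsingleton (0 : Fin 1) hu0) ?_
    rw [Submodule.disjoint_def]
    intro x hx hx2
    have h2 : Submodule.span E (Set.range v) ≤ LinearMap.ker lam := by
      rw [Submodule.span_le]
      rintro _ ⟨a, rfl⟩
      exact hl a
    have h3 : lam x = 0 := h2 hx
    have h4 : Set.range (fun _ : Fin 1 => u) = {u} := Set.range_const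
    rw [h4] at hx2
    obtain ⟨c, rfl⟩ := Submodule.mem_span_singleton.1 hx2
    rw [map_smul, smul_eq_mul] at h3
    rcases mul_eq_zero.1 h3 with h5 | h5
    · rw [h5, zero_smul]
    · exact absurd h5 hu
  obtain ⟨t, f, -, h2, h3⟩ := sel _ h1 w
  have h4 : Submodule.span E (Set.range (Sum.elim (Sum.elim v fun _ : Fin 1 => u)
      fun s => w (f s))) = ⊤ := by
    rw [eq_top_iff, ← hw, Submodule.span_le]
    rintro _ ⟨b, rfl⟩
    exact h3 b
  obtain ⟨r⟩ := card_of_basis _ h2 h4
  exact ⟨t, f, r, det_ne _ h2 r⟩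

/-- completion to a basis, without a last vector -/
theorem complete0 {R A B : Type*} [Fintype R] [DecidableEq R] [Fintype A] [DecidableEq A]
    (v : A → R → E) (hv : LinearIndependent E v) (u : Fin 0 → R → E)
    (w : B → R → E) (hw : Submodule.span E (Set.range w) = ⊤) :
    ∃ (t : ℕ) (f : Fin t → B) (r : ((A ⊕ Fin 0) ⊕ Fin t) ≃ R),
      dt r (Sum.elim (Sum.elim v u) fun s => w (f s)) ≠ 0 := by
  have h1 : LinearIndependent E (Sum.elim v u) := by
    refine hv.sum_type linearIndependent_empty_type ?_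
    rw [Set.range_eq_empty u, Submodule.span_empty]
    exact disjoint_bot_right
  obtain ⟨t, f, -, h2, h3⟩ := sel _ h1 w
  have h4 : Submodule.span E (Set.range (Sum.elim (Sum.elim v u) fun s => w (f s))) = ⊤ := by
    rw [eq_top_iff, ← hw, Submodule.span_le]
    rintro _ ⟨b, rfl⟩
    exact h3 b
  obtain ⟨r⟩ := card_of_basis _ h2 h4
  exact ⟨t, f, r, det_ne _ h2 r⟩

omit [Fintype σ] [DecidableEq σ] in
theorem hf_self (x : σ → E) (i : σ) : hf x i i = 0 := sub_self _

omit [Fintype σ] [DecidableEq σ] in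
/-- `L` in terms of the `X_l - x_l X_(i₀)` -/
theorem Lf_base (x y : σ → E) (i₀ : σ) (hx : x i₀ = 1) (s : σ × σ × σ) :
    Lf (pl x y) s = pl x y s.1 s.2.1 • hf x i₀ s.2.2 - pl x y s.1 s.2.2 • hf x i₀ s.2.1 +
      pl x y s.2.1 s.2.2 • hf x i₀ s.1 := by
  obtain ⟨j, l, m⟩ := s
  have h1 : pl x y j l * x m - pl x y j m * x l + pl x y l m * x j = 0 := by
    unfold pl
    ring
  have h2 : pl x y j l • hf x i₀ m - pl x y j m • hf x i₀ l + pl x y l m • hf x i₀ j =
      Lf (pl x y) (j, l, m) - (pl x y j l * x m - pl x y j m * x l + pl x y l m * x j) •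
        (X i₀ : MvPolynomial σ E) := by
    unfold Lf hf
    rw [hx]
    simp only [one_smul, smul_sub, smul_smul, sub_smul, add_smul]
    abel
  simp only
  rw [h2, h1, zero_smul, sub_zero]

omit [Fintype κ] [DecidableEq κ] in
/-- a combination of three members of a family -/
theorem sum_three {M : Type*} [AddCommGroup M] [Module E M] (p q r : E) (j l m : σ) (F : σ → M) :
    ∑ k, (p • (Pi.single m 1 : σ → E) - q • (Pi.single l 1 : σ → E) +
      r • (Pi.single j 1 : σ → E)) k • F k = p • F m - q • F l + r • F j := by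
  simp only [Pi.add_apply, Pi.sub_apply, Pi.smul_apply, smul_eq_mul, add_smul, sub_smul,
    Finset.sum_add_distrib, Finset.sum_sub_distrib]
  have e : ∀ (q : E) (i : σ), ∑ k, (q * (Pi.single i 1 : σ → E) k) • F k = q • F i := by
    intro q i
    rw [Finset.sum_eq_single i, Pi.single_eq_same, mul_one]
    · intro k _ hk
      rw [Pi.single_eq_of_ne hk, mul_zero, zero_smul]
    · intro h
      exact absurd (Finset.mem_univ _) h
  rw [e, e, e]

/-- **Point**: blocks and singles; if there are two singles, there is a line. -/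
theorem ex_point {M : Type*} [AddCommGroup M] [Module E M] [FiniteDimensional E M] [CharZero E]
    (V : Sym σ (n + 1) → M) (e₀ : M) (he₀ : e₀ ≠ 0) (x : σ → E) (i₀ : σ) (hx : x i₀ = 1) :
    ∃ (i t : ℕ) (β : Fin i → (Sym σ n × Sym σ n) × (σ × σ)) (f : Fin t → Sym σ n × σ),
      LinearIndependent E (Sum.elim (Sum.elim (fun _ : Fin 1 => e₀)
        (fun p : Fin i × Fin 2 => bl V x i₀ (β p.1) p.2)) (fun s => sg V x i₀ (f s))) ∧
      (∀ g ∈ Ipt x, cP V g ∈ Submodule.span E (Set.range (Sum.elim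
        (Sum.elim (fun _ : Fin 1 => e₀) (fun p : Fin i × Fin 2 => bl V x i₀ (β p.1) p.2))
        (fun s => sg V x i₀ (f s))))) ∧
      (2 ≤ t → ∃ (y : σ → E) (a : σ), pl x y i₀ a ≠ 0 ∧ ∀ g ∈ Il (pl x y),
        cP V g ∈ Submodule.span E (Set.range (Sum.elim (fun _ : Fin 1 => e₀)
          (fun p : Fin i × Fin 2 => bl V x i₀ (β p.1) p.2)))) := by
  have h1 : LinearIndependent E (fun _ : Fin 1 => e₀) :=
    LinearIndependent.of_subsingleton (0 : Fin 1) he₀
  obtain ⟨i, β, h2, h3⟩ := max_blocks _ h1 (bl V x i₀)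
  obtain ⟨t, f, -, h4, h5⟩ := sel _ h2 (sg V x i₀)
  refine ⟨i, t, β, f, h4, fun g hg => span_sg V x i₀ hx _ h5 g hg, fun ht => ?_⟩
  obtain ⟨W, hW⟩ : ∃ W, W = Submodule.span E (Set.range (Sum.elim (fun _ : Fin 1 => e₀)
    (fun p : Fin i × Fin 2 => bl V x i₀ (β p.1) p.2))) := ⟨_, rfl⟩
  rw [← hW] at h3 ⊢
  obtain ⟨y, hy0, hy, hyW⟩ := stuck W (fun (I : Sym σ n) l => sg V x i₀ (I, l)) i₀
    (fun I => by
      simp only [sg]
      rw [hf_self, mul_zero, map_zero])
    (fun I J l l' => by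
      obtain ⟨s, r, h6, h7⟩ := h3 ((I, J), (l, l'))
      refine ⟨s, r, h6, ?_⟩
      have e : ∀ k, sg V x i₀ (I, k) + sg V x i₀ (J, k) =
          cP V ((mo E (I : Multiset σ) + mo E (J : Multiset σ)) * hf x i₀ k) := by
        intro k
        simp only [sg]
        rw [add_mul, map_add]
      rw [e, e]
      have e1 : bl V x i₀ ((I, J), (l, l')) 0 =
          cP V ((mo E (I : Multiset σ) + mo E (J : Multiset σ)) * hf x i₀ l) := rfl
      have e2 : bl V x i₀ ((I, J), (l, l')) 1 =
          cP V ((mo E (I : Multiset σ) + mo E (J : Multiset σ)) * hf x i₀ l') := rfl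
      rw [← e1, ← e2]
      exact h7)
    (by
      refine ⟨(f ⟨0, by omega⟩).1, (f ⟨0, by omega⟩).2, (f ⟨1, by omega⟩).1, (f ⟨1, by omega⟩).2,
        fun s r hsr => ?_⟩
      simp only [Prod.mk.eta] at hsr
      -- independence modulo `W`
      have h6 : Disjoint (Submodule.span E (Set.range (Sum.elim (fun _ : Fin 1 => e₀)
          (fun p : Fin i × Fin 2 => bl V x i₀ (β p.1) p.2))))
          (Submodule.span E (Set.range fun k => sg V x i₀ (f k))) := by
        have h7 := h4.disjoint_span_image (s := Set.range Sum.inl) (t := Set.range Sum.inr)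
          Set.isCompl_range_inl_range_inr.disjoint
        rw [← Set.range_comp, ← Set.range_comp] at h7
        exact h7
      rw [← hW] at h6
      have h8 : LinearIndependent E fun k => sg V x i₀ (f k) := h4.comp Sum.inr Sum.inr_injective
      have h9 : s • sg V x i₀ (f ⟨0, by omega⟩) + r • sg V x i₀ (f ⟨1, by omega⟩) ∈
          Submodule.span E (Set.range fun k => sg V x i₀ (f k)) :=
        add_mem (Submodule.smul_mem _ _ (Submodule.subset_span ⟨_, rfl⟩))
          (Submodule.smul_mem _ _ (Submodule.subset_span ⟨_, rfl⟩))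
      have h10 := (Submodule.disjoint_def.1 h6) _ hsr h9
      rw [Fintype.linearIndependent_iff] at h8
      have h11 := h8 (Pi.single ⟨0, by omega⟩ s + Pi.single ⟨1, by omega⟩ r) (by
        simp only [Pi.add_apply, add_smul, Finset.sum_add_distrib]
        rw [Finset.sum_eq_single (⟨0, by omega⟩ : Fin t), Finset.sum_eq_single
          (⟨1, by omega⟩ : Fin t), Pi.single_eq_same, Pi.single_eq_same, h10]
        · intro b _ hb
          rw [Pi.single_eq_of_ne hb, zero_smul]
        · intro hb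
          exact absurd (Finset.mem_univ _) hb
        · intro b _ hb
          rw [Pi.single_eq_of_ne hb, zero_smul]
        · intro hb
          exact absurd (Finset.mem_univ _) hb)
      have hne : (⟨0, by omega⟩ : Fin t) ≠ ⟨1, by omega⟩ := by
        intro h
        have := congrArg Fin.val h
        simp at this
      have h12 := h11 ⟨0, by omega⟩
      have h13 := h11 ⟨1, by omega⟩
      rw [Pi.add_apply, Pi.single_eq_same, Pi.single_eq_of_ne hne, add_zero] at h12
      rw [Pi.add_apply, Pi.single_eq_same, Pi.single_eq_of_ne hne.symm, zero_add] at h13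
      exact ⟨h12, h13⟩)
  obtain ⟨a, ha⟩ : ∃ a, y a ≠ 0 := by
    by_contra hcon
    push Not at hcon
    exact hy (funext hcon)
  refine ⟨y, a, ?_, fun g hg => span_lv V (pl x y) W (fun p => ?_) g hg⟩
  · unfold pl
    rw [hx, hy0, mul_zero, sub_zero, one_mul]
    exact ha
  · obtain ⟨I, s⟩ := p
    obtain ⟨j, l, m⟩ := s
    obtain ⟨c, hc⟩ : ∃ c : σ → E, c = pl x y j l • Pi.single m 1 - pl x y j m • Pi.single l 1 +
      pl x y l m • Pi.single j 1 := ⟨_, rfl⟩
    have h6 := hyW c (by
      have h7 := sum_three (pl x y j l) (pl x y j m) (pl x y l m) j l m y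
      rw [← hc] at h7
      simp only [smul_eq_mul] at h7
      rw [h7]
      unfold pl
      ring) I
    rw [hc, sum_three (pl x y j l) (pl x y j m) (pl x y l m) j l m
      (fun l => sg V x i₀ (I, l))] at h6
    have h8 : lv V (pl x y) (I, j, l, m) = pl x y j l • sg V x i₀ (I, m) -
        pl x y j m • sg V x i₀ (I, l) + pl x y l m • sg V x i₀ (I, j) := by
      simp only [lv, sg]
      rw [Lf_base x y i₀ hx]
      simp only
      rw [mul_add, mul_sub, map_add, map_sub, mul_smul_comm, mul_smul_comm, mul_smul_comm,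
        map_smul, map_smul, map_smul]
    rw [h8]
    exact h6

/-- **Point**: the same number of singles can be taken among the `fn`. -/
theorem ex_fan {M : Type*} [AddCommGroup M] [Module E M] [FiniteDimensional E M]
    (V : Sym σ (n + 1) → M) {A : Type*} [Fintype A] (v : A → M) {t : ℕ}
    (f : Fin t → Sym σ n × σ) (x y : σ → E) (i₀ a : σ) (hx : x i₀ = 1) (ha : pl x y i₀ a ≠ 0)
    (hv : LinearIndependent E (Sum.elim v fun s => sg V x i₀ (f s)))
    (h1 : ∀ g ∈ Ipt x, cP V g ∈ Submodule.span E (Set.range (Sum.elim v fun s => sg V x i₀ (f s))))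
    (h2 : ∀ g ∈ Il (pl x y), cP V g ∈ Submodule.span E (Set.range v)) :
    ∃ K : Fin t → ℕ, (∀ s, K s ≤ n) ∧ Function.Injective K ∧
      LinearIndependent E (Sum.elim v fun s => fn V x i₀ a (K s)) ∧
      ∀ g ∈ Ipt x, cP V g ∈ Submodule.span E (Set.range
        (Sum.elim v fun s => fn V x i₀ a (K s))) := by
  have hv0 : LinearIndependent E v := hv.comp Sum.inl Sum.inl_injective
  obtain ⟨m, β, hβ, h3, h4⟩ := sel v hv0 (fun k : Fin (n + 1) => fn V x i₀ a k)
  have h5 : ∀ g ∈ Ipt x, cP V g ∈ Submodule.span E (Set.range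
      (Sum.elim v fun s => fn V x i₀ a (β s))) := by
    intro g hg
    refine span_fn V x y i₀ a ha _ (fun g' hg' => ?_) (fun k hk => ?_) g hg
    · refine Submodule.span_mono ?_ (h2 g' hg')
      rintro _ ⟨a', rfl⟩
      exact ⟨Sum.inl a', rfl⟩
    · exact h4 ⟨k, Nat.lt_succ_of_le hk⟩
  have h6 : Submodule.span E (Set.range (Sum.elim v fun s => sg V x i₀ (f s))) =
      Submodule.span E (Set.range (Sum.elim v fun s => fn V x i₀ a (β s))) := by
    apply le_antisymm
    · rw [Submodule.span_le]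
      rintro _ ⟨s | s, rfl⟩
      · exact Submodule.subset_span ⟨Sum.inl s, rfl⟩
      · exact h5 _ (sg_mem x i₀ (f s))
    · rw [Submodule.span_le]
      rintro _ ⟨s | s, rfl⟩
      · exact Submodule.subset_span ⟨Sum.inl s, rfl⟩
      · exact h1 _ (fn_mem x i₀ a (β s))
  have h7 := (mv5 _ _ hv).1
  have h8 := (mv5 _ _ h3).1
  rw [h6, h8, Fintype.card_fin, Fintype.card_fin] at h7
  have h9 : m = t := by omega
  subst h9
  refine ⟨fun s => (β s : ℕ), fun s => (β s).is_le, fun s s' h => hβ (Fin.ext h), h3, h5⟩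

end Pool.Agent.Helper49.LN

end

section

/-!
# LN: choice of the columns of a flag and of a line
-/

set_option autoImplicit false

namespace Pool.Agent.Helper49.LN

open scoped BigOperators
open MvPolynomial

variable {E : Type*} [Field E] {σ : Type*} [Fintype σ] [DecidableEq σ] {κ : Type*} [Fintype κ]
  [DecidableEq κ] {n : ℕ}

/-! auxiliary statements -/

private theorem ex2_indep {M : Type*} [AddCommGroup M] [Module E M] {A : Type*} {v : A → M}
    (hv : LinearIndependent E v) : LinearIndependent E (Sum.elim v (vb0 M)) := by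
  have h1 : LinearIndependent E (vb0 M) := linearIndependent_empty_type
  refine hv.sum_type h1 ?_
  have h2 : Set.range (vb0 M) = ∅ := Set.range_eq_empty _
  rw [h2, Submodule.span_empty]
  exact disjoint_bot_right

private theorem ex2_range0 {M A : Type*} (v : A → M) :
    Set.range (Sum.elim v (vb0 M)) = Set.range v := by
  have h2 : Set.range (vb0 M) = ∅ := Set.range_eq_empty _
  rw [Set.Sum.elim_range, h2, Set.union_empty]

private theorem ex2_IC {M : Type*} [AddCommGroup M] [Module E M] {q : ℕ} (V : Sym σ q → M)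
    (I : Ideal (MvPolynomial σ E)) (W : Submodule E M) (h : ∀ g ∈ I, cP V g ∈ W) :
    IC V I ≤ W := by
  rintro _ ⟨g, hg, rfl⟩
  exact h g hg

private theorem ex2_mem_IC {M : Type*} [AddCommGroup M] [Module E M] {q : ℕ} (V : Sym σ q → M)
    (I : Ideal (MvPolynomial σ E)) (g : MvPolynomial σ E) (h : g ∈ I) : cP V g ∈ IC V I :=
  ⟨g, h, rfl⟩

/-- **Flag**. -/
theorem ex_flag (V : Sym σ (n + 1) → (σ ⊕ σ) ⊕ κ → E) (x y : σ → E) (ε : κ → E) (i₀ a : σ)
    (hx : x i₀ = 1) (ha : pl x y i₀ a ≠ 0) (lam : ((σ ⊕ σ) ⊕ κ → E) →ₗ[E] E)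
    (hl0 : ∀ t, lam (b3 x y ε t) = 0) (hl1 : ∀ g ∈ Ipt x, lam (cP V g) = 0)
    (hu : lam (la (E := E) V i₀) ≠ 0) :
    ∃ (b r t : ℕ) (f : Fin b → Sym σ n × σ × σ × σ) (K : Fin r → ℕ) (f' : Fin t → (σ × σ) ⊕ κ)
      (rr : TT (Fin 3) (Fin 0) (Fin b) (Fin r) (Fin 1) (Fin t) ≃ (σ ⊕ σ) ⊕ κ),
      (∀ s, K s ≤ n) ∧ Function.Injective K ∧
      dt rr (vv (b3 x y ε) (vb0 _) (fun s => lv V (pl x y) (f s)) (fun s => fn V x i₀ a (K s))
        (fun _ => la (E := E) V i₀) fun s => kv x y (f' s)) ≠ 0 ∧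
      (∀ g ∈ Il (pl x y), cP V g ∈ Submodule.span E (Set.range (b3 x y ε) ∪
        Set.range fun s => lv V (pl x y) (f s))) ∧
      (∀ g ∈ Ipt x, cP V g ∈ Submodule.span E (Set.range (b3 x y ε) ∪
        (Set.range fun s => lv V (pl x y) (f s)) ∪ Set.range fun s => fn V x i₀ a (K s))) ∧
      Module.finrank E ↥(Submodule.span E (Set.range (b3 x y ε)) ⊔ IC V (Il (pl x y))) = 3 + b ∧
      Module.finrank E ↥(Submodule.span E (Set.range (b3 x y ε)) ⊔ IC V (Ipt x)) = 3 + b + r ∧
      3 + b + r + 1 ≤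
        Module.finrank E ↥(Submodule.span E (Set.range (b3 x y ε)) ⊔ IC (E := E) V ⊤) ∧
      3 + b + r + 1 + t = 2 * Fintype.card σ + Fintype.card κ := by
  classical
  have h0 := ex2_indep (b3_indep x y ε i₀ a ha)
  obtain ⟨b, f, -, h1, h1s⟩ := sel (Sum.elim (b3 x y ε) (vb0 _)) h0 (lv V (pl x y))
  obtain ⟨r, K, hK, h2, h2s⟩ := sel _ h1 (fun k : Fin (n + 1) => fn V x i₀ a k)
  have hr1 : Set.range (Sum.elim (Sum.elim (b3 x y ε) (vb0 _)) fun s => lv V (pl x y) (f s)) =
      Set.range (b3 x y ε) ∪ Set.range fun s => lv V (pl x y) (f s) := by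
    rw [Set.Sum.elim_range, ex2_range0]
  have hr2 : Set.range (Sum.elim (Sum.elim (Sum.elim (b3 x y ε) (vb0 _))
      fun s => lv V (pl x y) (f s)) fun s => fn V x i₀ a (K s : ℕ)) =
      (Set.range (b3 x y ε) ∪ Set.range fun s => lv V (pl x y) (f s)) ∪
        Set.range fun s => fn V x i₀ a (K s : ℕ) := by
    rw [Set.Sum.elim_range, hr1]
  rw [hr1] at h1s
  rw [hr2] at h2s
  have hI1 : ∀ g ∈ Il (pl x y), cP V g ∈ Submodule.span E (Set.range (b3 x y ε) ∪
      Set.range fun s => lv V (pl x y) (f s)) := fun g hg => span_lv V (pl x y) _ h1s g hg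
  have hI2 : ∀ g ∈ Ipt x, cP V g ∈ Submodule.span E (Set.range (b3 x y ε) ∪
      (Set.range fun s => lv V (pl x y) (f s)) ∪
        Set.range fun s => fn V x i₀ a (K s : ℕ)) := fun g hg =>
    span_fn V x y i₀ a ha _
      (fun g hg => Submodule.span_mono Set.subset_union_left (hI1 g hg))
      (fun k hk => h2s ⟨k, Nat.lt_succ_of_le hk⟩) g hg
  have hlz : ∀ g ∈ Submodule.span E (Set.range (b3 x y ε) ∪
      (Set.range fun s => lv V (pl x y) (f s)) ∪
        Set.range fun s => fn V x i₀ a (K s : ℕ)), lam g = 0 := by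
    intro g hg
    have h3 : Submodule.span E (Set.range (b3 x y ε) ∪
      (Set.range fun s => lv V (pl x y) (f s)) ∪
        Set.range fun s => fn V x i₀ a (K s : ℕ)) ≤ LinearMap.ker lam := by
      rw [Submodule.span_le]
      rintro _ ((⟨s, rfl⟩ | ⟨s, rfl⟩) | ⟨s, rfl⟩)
      · exact hl0 s
      · exact hl1 _ (Il_le_Ipt x y i₀ hx (lv_mem (pl x y) (f s)))
      · exact hl1 _ (fn_mem x i₀ a (K s))
    exact h3 hg
  obtain ⟨t, f', rr, hrr⟩ := complete1 _ h2 lam (fun s => hlz _ (by
    rw [← hr2]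
    exact Submodule.subset_span ⟨s, rfl⟩)) (la (E := E) V i₀) hu (kv x y) (span_kv x y i₀ a ha)
  have e1 : Submodule.span E (Set.range (b3 x y ε)) ⊔ IC V (Il (pl x y)) =
      Submodule.span E (Set.range (Sum.elim (Sum.elim (b3 x y ε) (vb0 _))
        fun s => lv V (pl x y) (f s))) := by
    rw [hr1]
    refine le_antisymm (sup_le (Submodule.span_mono Set.subset_union_left)
      (ex2_IC V _ _ hI1)) ?_
    rw [Submodule.span_union]
    refine sup_le_sup_left ?_ _
    rw [Submodule.span_le]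
    rintro _ ⟨s, rfl⟩
    exact ex2_mem_IC V _ _ (lv_mem (pl x y) (f s))
  have e2 : Submodule.span E (Set.range (b3 x y ε)) ⊔ IC V (Ipt x) =
      Submodule.span E (Set.range (Sum.elim (Sum.elim (Sum.elim (b3 x y ε) (vb0 _))
        fun s => lv V (pl x y) (f s)) fun s => fn V x i₀ a (K s : ℕ))) := by
    rw [hr2]
    refine le_antisymm (sup_le (Submodule.span_mono (Set.subset_union_left.trans
      Set.subset_union_left)) (ex2_IC V _ _ hI2)) ?_
    rw [Submodule.span_union, Submodule.span_union, sup_assoc]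
    refine sup_le_sup_left (sup_le ?_ ?_) _
    · rw [Submodule.span_le]
      rintro _ ⟨s, rfl⟩
      exact ex2_mem_IC V _ _ (Il_le_Ipt x y i₀ hx (lv_mem (pl x y) (f s)))
    · rw [Submodule.span_le]
      rintro _ ⟨s, rfl⟩
      exact ex2_mem_IC V _ _ (fn_mem x i₀ a (K s))
  have c1 : Module.finrank E ↥(Submodule.span E (Set.range (b3 x y ε)) ⊔ IC V (Il (pl x y))) =
      3 + b := by
    rw [e1, finrank_span_eq_card h1]
    simp
  have c2 : Module.finrank E ↥(Submodule.span E (Set.range (b3 x y ε)) ⊔ IC V (Ipt x)) =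
      3 + b + r := by
    rw [e2, finrank_span_eq_card h2]
    simp
  refine ⟨b, r, t, f, fun s => (K s : ℕ), f', rr, fun s => Nat.lt_succ_iff.1 (K s).2,
    fun s s' h => hK (Fin.ext h), hrr, hI1, hI2, c1, c2, ?_, ?_⟩
  · have h3 : Submodule.span E (Set.range (b3 x y ε)) ⊔ IC V (Ipt x) <
        Submodule.span E (Set.range (b3 x y ε)) ⊔ IC (E := E) V ⊤ := by
      refine lt_of_le_of_ne (sup_le_sup_left (ex2_IC V _ _ fun g _ =>
        ex2_mem_IC V _ _ Submodule.mem_top) _) ?_
      intro h4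
      apply hu
      refine hlz _ ?_
      rw [← hr2, ← e2, h4]
      exact Submodule.mem_sup_right (ex2_mem_IC V _ _ Submodule.mem_top)
    have h4 := Submodule.finrank_lt_finrank_of_lt h3
    rw [c2] at h4
    exact h4
  · have h3 := Fintype.card_congr rr
    simp only [Fintype.card_sum, Fintype.card_prod, Fintype.card_fin] at h3
    omega

/-- **Line**. -/
theorem ex_line (V : Sym σ (n + 1) → (σ ⊕ σ) ⊕ κ → E) (x y : σ → E) (a b : σ)
    (hab : pl x y a b ≠ 0) :
    ∃ (b' r t : ℕ) (f : Fin b' → Sym σ n × σ × σ × σ) (K : Fin r → ℕ) (f' : Fin t → (σ × σ) ⊕ κ)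
      (rr : TT (Fin 4) (Fin 0) (Fin b') (Fin r) (Fin 0) (Fin t) ≃ (σ ⊕ σ) ⊕ κ),
      (∀ s, K s ≤ n + 1) ∧ Function.Injective K ∧
      dt rr (vv (b4 x y) (vb0 _) (fun s => lv V (pl x y) (f s))
        (fun s => bn (E := E) V a b (K s)) Fin.elim0 fun s => kv x y (f' s)) ≠ 0 ∧
      (∀ g ∈ Il (pl x y), cP V g ∈ Submodule.span E (Set.range (b4 x y) ∪
        Set.range fun s => lv V (pl x y) (f s))) ∧
      Module.finrank E ↥(Submodule.span E (Set.range (b4 x y)) ⊔ IC V (Il (pl x y))) = 4 + b' ∧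
      Module.finrank E ↥(Submodule.span E (Set.range (b4 x y)) ⊔ IC (E := E) V ⊤) = 4 + b' + r ∧
      4 + b' + r + t = 2 * Fintype.card σ + Fintype.card κ := by
  classical
  have h0 := ex2_indep (b4_indep (κ := κ) x y a b hab)
  obtain ⟨b', f, -, h1, h1s⟩ := sel (Sum.elim (b4 x y) (vb0 _)) h0 (lv V (pl x y))
  obtain ⟨r, K, hK, h2, h2s⟩ := sel _ h1 (fun k : Fin (n + 2) => bn (E := E) V a b k)
  have hr1 : Set.range (Sum.elim (Sum.elim (b4 x y) (vb0 _)) fun s => lv V (pl x y) (f s)) =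
      Set.range (b4 x y) ∪ Set.range fun s => lv V (pl x y) (f s) := by
    rw [Set.Sum.elim_range, ex2_range0]
  have hr2 : Set.range (Sum.elim (Sum.elim (Sum.elim (b4 x y) (vb0 _))
      fun s => lv V (pl x y) (f s)) fun s => bn (E := E) V a b (K s : ℕ)) =
      (Set.range (b4 x y) ∪ Set.range fun s => lv V (pl x y) (f s)) ∪
        Set.range fun s => bn (E := E) V a b (K s : ℕ) := by
    rw [Set.Sum.elim_range, hr1]
  rw [hr1] at h1s
  rw [hr2] at h2s
  have hI1 : ∀ g ∈ Il (pl x y), cP V g ∈ Submodule.span E (Set.range (b4 x y) ∪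
      Set.range fun s => lv V (pl x y) (f s)) := fun g hg => span_lv V (pl x y) _ h1s g hg
  have hI2 : ∀ g : MvPolynomial σ E, cP V g ∈ Submodule.span E (Set.range (b4 x y) ∪
      (Set.range fun s => lv V (pl x y) (f s)) ∪
        Set.range fun s => bn (E := E) V a b (K s : ℕ)) := fun g =>
    span_bn V x y a b hab _
      (fun g hg => Submodule.span_mono Set.subset_union_left (hI1 g hg))
      (fun k hk => h2s ⟨k, Nat.lt_succ_of_le hk⟩) g
  obtain ⟨t, f', rr, hrr⟩ := complete0 _ h2 Fin.elim0 (kv x y) (span_kv x y a b hab)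
  have e1 : Submodule.span E (Set.range (b4 x y)) ⊔ IC V (Il (pl x y)) =
      Submodule.span E (Set.range (Sum.elim (Sum.elim (b4 x y) (vb0 _))
        fun s => lv V (pl x y) (f s))) := by
    rw [hr1]
    refine le_antisymm (sup_le (Submodule.span_mono Set.subset_union_left)
      (ex2_IC V _ _ hI1)) ?_
    rw [Submodule.span_union]
    refine sup_le_sup_left ?_ _
    rw [Submodule.span_le]
    rintro _ ⟨s, rfl⟩
    exact ex2_mem_IC V _ _ (lv_mem (pl x y) (f s))
  have e2 : Submodule.span E (Set.range (b4 x y)) ⊔ IC (E := E) V ⊤ =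
      Submodule.span E (Set.range (Sum.elim (Sum.elim (Sum.elim (b4 x y) (vb0 _))
        fun s => lv V (pl x y) (f s)) fun s => bn (E := E) V a b (K s : ℕ))) := by
    rw [hr2]
    refine le_antisymm (sup_le (Submodule.span_mono (Set.subset_union_left.trans
      Set.subset_union_left)) (ex2_IC V _ _ fun g _ => hI2 g)) ?_
    rw [Submodule.span_union, Submodule.span_union, sup_assoc]
    refine sup_le_sup_left (sup_le ?_ ?_) _
    · rw [Submodule.span_le]
      rintro _ ⟨s, rfl⟩
      exact ex2_mem_IC V _ _ Submodule.mem_top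
    · rw [Submodule.span_le]
      rintro _ ⟨s, rfl⟩
      exact ex2_mem_IC V _ _ Submodule.mem_top
  have c1 : Module.finrank E ↥(Submodule.span E (Set.range (b4 x y)) ⊔ IC V (Il (pl x y))) =
      4 + b' := by
    rw [e1, finrank_span_eq_card h1]
    simp
  have c2 : Module.finrank E ↥(Submodule.span E (Set.range (b4 x y)) ⊔ IC (E := E) V ⊤) =
      4 + b' + r := by
    rw [e2, finrank_span_eq_card h2]
    simp
  refine ⟨b', r, t, f, fun s => (K s : ℕ), f', rr, fun s => Nat.lt_succ_iff.1 (K s).2,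
    fun s s' h => hK (Fin.ext h), hrr, hI1, c1, c2, ?_⟩
  have h3 := Fintype.card_congr rr
  simp only [Fintype.card_sum, Fintype.card_prod, Fintype.card_fin] at h3
  omega

end Pool.Agent.Helper49.LN

end
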