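import Pool.Agent.Helper74.MG.T50
import Pool.Agent.Helper74.MG.T51

section

/-!
# LN: bounds and transformation of the columns
-/

set_option autoImplicit false

namespace Pool.Agent.Helper49.LN

open scoped BigOperators
open MvPolynomial
open Pool.Agent.Helper8.LG (Bdd)

variable {E : Type*} [Field E] {σ : Type*} {κ : Type*} {n : ℕ}

/-- The local situation for the rows `κ`: `g = g' + (D x_m / x_m) ε`, `g'` and `ε` bounded. -/
structure LocG (O : ValuationSubring E) (Δ : E) (D : Sym σ (n + 1) → Derivation ℤ E E)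
    (x : σ → E) (m : σ) (g g' : Sym σ (n + 1) → κ → E) (ε : κ → E) : Prop where
  bdd : Bdd D Δ O
  eq : ∀ J, g J = g' J + (D J (x m) / x m) • ε
  mem : ∀ J k, Δ * g' J k ∈ O
  eps : ∀ k, ε k ∈ O

section

variable {O : ValuationSubring E} {Δ : E} {D : Sym σ (n + 1) → Derivation ℤ E E}
  {x y : σ → E} {m j : σ} {g g' : Sym σ (n + 1) → κ → E} {ε : κ → E}

theorem pv_bdd (hG : LocG O Δ D x m g g' ε) (hx : ∀ l, xt x m l ∈ O) (J : Sym σ (n + 1))
    (r : σ ⊕ κ) : Δ * pv D (xt x m) g' J r ∈ O := by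
  rcases r with l | k
  · exact hG.bdd.2 J _ (hx l)
  · exact hG.mem J k

theorem pe_bdd (hG : LocG O Δ D x m g g' ε) (hx : ∀ l, xt x m l ∈ O) (r : σ ⊕ κ) :
    Δ * pe (xt x m) ε r ∈ O := by
  rcases r with l | k
  · exact mul_mem hG.bdd.1 (hx l)
  · exact mul_mem hG.bdd.1 (hG.eps k)

theorem fv_bdd (hG : LocG O Δ D x m g g' ε) (h : Loc O x y m j) (J : Sym σ (n + 1))
    (r : (σ ⊕ σ) ⊕ κ) : Δ * fv D (xt x m) (yt x y m j) g' J r ∈ O := by
  rcases r with (l | l) | k
  · exact hG.bdd.2 J _ (h.hx l)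
  · exact hG.bdd.2 J _ (h.hy l)
  · exact hG.mem J k

theorem tr_bdd (hΔ : Δ ∈ O) {u v : σ → E} {w : κ → E} (hu : ∀ l, u l ∈ O) (hv : ∀ l, v l ∈ O)
    (hw : ∀ k, w k ∈ O) (r : (σ ⊕ σ) ⊕ κ) : Δ * tr u v w r ∈ O := by
  rcases r with (l | l) | k
  · exact mul_mem hΔ (hu l)
  · exact mul_mem hΔ (hv l)
  · exact mul_mem hΔ (hw k)

theorem zero_bdd {R : Type*} (O : ValuationSubring E) (l : R) : (0 : R → E) l ∈ O := zero_mem O

theorem b3_bdd (hΔ : Δ ∈ O) (h : Loc O x y m j) (hε : ∀ k, ε k ∈ O) (t : Fin 3)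
    (r : (σ ⊕ σ) ⊕ κ) : Δ * b3 (xt x m) (yt x y m j) ε t r ∈ O := by
  fin_cases t
  · exact tr_bdd hΔ (zero_bdd O) h.hx (zero_bdd O) r
  · exact tr_bdd hΔ h.hx (zero_bdd O) hε r
  · exact tr_bdd hΔ (zero_bdd O) h.hy (zero_bdd O) r

theorem b4_bdd (hΔ : Δ ∈ O) (h : Loc O x y m j) (t : Fin 4)
    (r : (σ ⊕ σ) ⊕ κ) : Δ * b4 (xt x m) (yt x y m j) t r ∈ O := by
  fin_cases t
  · exact tr_bdd hΔ (zero_bdd O) h.hx (zero_bdd O) r
  · exact tr_bdd hΔ h.hx (zero_bdd O) (zero_bdd O) r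
  · exact tr_bdd hΔ (zero_bdd O) h.hy (zero_bdd O) r
  · exact tr_bdd hΔ h.hy (zero_bdd O) (zero_bdd O) r

theorem single_bdd {R : Type*} [DecidableEq R] (O : ValuationSubring E) (i : R) {a : E}
    (ha : a ∈ O) (l : R) : (Pi.single i a : R → E) l ∈ O := by
  rw [Pi.single_apply]
  split_ifs
  · exact ha
  · exact zero_mem O

theorem kv_bdd [DecidableEq σ] [DecidableEq κ] (hΔ : Δ ∈ O) (h : Loc O x y m j)
    (t : (σ × σ) ⊕ κ) (r : (σ ⊕ σ) ⊕ κ) : Δ * kv (xt x m) (yt x y m j) t r ∈ O := by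
  rcases t with ⟨l, k⟩ | i
  · exact tr_bdd hΔ (single_bdd O _ (h.hx k)) (single_bdd O _ (h.hy k)) (zero_bdd O) r
  · exact tr_bdd hΔ (zero_bdd O) (zero_bdd O) (single_bdd O _ (one_mem O)) r

section fin

variable [Fintype σ] [DecidableEq σ]

/-- transformation of the columns of polynomials, flag -/
theorem cPf_trans (hG : LocG O Δ D x m g g' ε) (h : Loc O x y m j) (f : MvPolynomial σ E) :
    cP (fv D x y g) f - gf (x m) (y m) (mu x y m j) (cP (fv D (xt x m) (yt x y m j) g') f) ∈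
      Submodule.span E (Set.range (b3 x y ε)) := by
  refine cP_trans _ _ _ _ (fun J => ?_) f
  refine Submodule.span_mono ?_ (fv_trans D x y m j h g g' ε hG.eq J)
  intro v hv
  simp only [Set.mem_insert_iff, Set.mem_singleton_iff] at hv
  rcases hv with rfl | rfl | rfl
  · exact ⟨1, rfl⟩
  · exact ⟨0, rfl⟩
  · exact ⟨2, rfl⟩

/-- transformation of the columns of polynomials, line -/
theorem cPl_trans (hG : LocG O Δ D x m g g' 0) (h : Loc O x y m j) (f : MvPolynomial σ E) :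
    cP (fv D x y g) f - gf (x m) (y m) (mu x y m j) (cP (fv D (xt x m) (yt x y m j) g') f) ∈
      Submodule.span E (Set.range (b4 (κ := κ) x y)) := by
  refine cP_trans _ _ _ _ (fun J => ?_) f
  refine Submodule.span_mono ?_ (fv_trans D x y m j h g g' 0 hG.eq J)
  intro v hv
  simp only [Set.mem_insert_iff, Set.mem_singleton_iff] at hv
  rcases hv with rfl | rfl | rfl
  · exact ⟨1, rfl⟩
  · exact ⟨0, rfl⟩
  · exact ⟨2, rfl⟩

/-- transformation of the columns of polynomials, point -/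
theorem cPp_trans (hG : LocG O Δ D x m g g' ε) (hm : x m ≠ 0) (f : MvPolynomial σ E) :
    cP (pv D x g) f - gp (x m) (cP (pv D (xt x m) g') f) ∈
      Submodule.span E (Set.range fun _ : Fin 1 => pe x ε) := by
  refine cP_trans _ _ _ _ (fun J => ?_) f
  rw [pv_trans D x m hm g g' ε hG.eq J]
  exact Submodule.smul_mem _ _ (Submodule.subset_span ⟨0, rfl⟩)

theorem cPf_bdd (hG : LocG O Δ D x m g g' ε) (h : Loc O x y m j) (f : MvPolynomial σ E)
    (hf : IntP O f) (r : (σ ⊕ σ) ⊕ κ) : Δ * cP (fv D (xt x m) (yt x y m j) g') f r ∈ O :=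
  cP_bdd O Δ _ (fv_bdd hG h) f hf r

theorem cPp_bdd (hG : LocG O Δ D x m g g' ε) (hx : ∀ l, xt x m l ∈ O) (f : MvPolynomial σ E)
    (hf : IntP O f) (r : σ ⊕ κ) : Δ * cP (pv D (xt x m) g') f r ∈ O :=
  cP_bdd O Δ _ (pv_bdd hG hx) f hf r

end fin

theorem Lf_int [DecidableEq σ] (P : σ → σ → E) (hP : ∀ k l, P k l ∈ O) (s : σ × σ × σ) :
    IntP O (Lf P s) :=
  (((IntP.X O _).smul (hP _ _)).sub ((IntP.X O _).smul (hP _ _))).add
    ((IntP.X O _).smul (hP _ _))

theorem hf_int [DecidableEq σ] (z : σ → E) (hz : ∀ l, z l ∈ O) (a b : σ) : IntP O (hf z a b) :=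
  ((IntP.X O _).smul (hz _)).sub ((IntP.X O _).smul (hz _))

/-- `x_a X_b - x_b X_a` at the point `x / x_m` -/
theorem hf_xt (hm : x m ≠ 0) (a b : σ) : hf x a b = x m • hf (xt x m) a b := by
  unfold hf xt
  rw [smul_sub, smul_smul, smul_smul, mul_div_cancel₀ _ hm, mul_div_cancel₀ _ hm]

theorem Il_loc (h : Loc O x y m j) : Il (pl x y) = Il (pl (xt x m) (yt x y m j)) :=
  Il_smul _ h.hρ _ _ fun k l => h.pl_eq k l

/-- **Binary monomials modulo the ideal of the line.** -/
theorem fanI [DecidableEq σ] (h : Loc O x y m j) (a b : σ) (hab : pl x y a b ≠ 0) (N : ℕ)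
    {T : Type*} [Fintype T] (K : T → ℕ) (hK : ∀ t, K t ≤ N) :
    ∃ (A : Fin (N + 1) → T → E) (G : Fin (N + 1) → MvPolynomial σ E),
      PB O A (pl (xt x m) (yt x y m j) a b ^ (Fintype.card T * (Fintype.card T - 1) / 2)) ∧
      (∀ i, IntP O (G i)) ∧
      ∀ t, (X a ^ (N - K t) * X b ^ K t : MvPolynomial σ E) - ∑ i, A i t • G i ∈
        Il (pl x y) := by
  set I := Il (pl x y) with hI
  have hab' : pl (xt x m) (yt x y m j) a b ≠ 0 := by
    intro h0
    apply hab
    rw [h.pl_eq, h0, mul_zero]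
  have hX : ∀ c, (Ideal.Quotient.mk I) (X c) = xt x m c • (Ideal.Quotient.mk I) (X m) +
      yt x y m j c • (Ideal.Quotient.mk I) (X j - xt x m j • X m) := by
    intro c
    have h1 := X_mod_std (xt x m) (yt x y m j) m j h.xt_m h.yt_m h.yt_j c
    rw [← Il_loc h, ← hI] at h1
    have h2 := (Ideal.Quotient.eq (I := I)).2 h1
    rw [h2]
    rfl
  obtain ⟨s₁, s₂, s₃, s₄, A, h₁, h₂, h₃, h₄, hA, hA2⟩ := fan O (Ideal.Quotient.mk I (X m))
    (Ideal.Quotient.mk I (X j - xt x m j • X m)) (xt x m a) (yt x y m j a) (xt x m b)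
    (yt x y m j b) (h.hx a) (h.hy a) (h.hx b) (h.hy b) (by
      intro h0
      apply hab'
      unfold pl
      rw [← h0]
      ring) N K hK
  have hV : IntP O (X j - xt x m j • X m : MvPolynomial σ E) :=
    (IntP.X O _).sub ((IntP.X O _).smul (h.hx j))
  refine ⟨A, fun i => (s₁ • X m + s₂ • (X j - xt x m j • X m)) ^ (N - (i : ℕ)) *
    (s₃ • X m + s₄ • (X j - xt x m j • X m)) ^ (i : ℕ), ?_, ?_, ?_⟩
  · have h5 : pl (xt x m) (yt x y m j) a b = xt x m a * yt x y m j b -
        yt x y m j a * xt x m b := by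
      unfold pl
      ring
    rw [h5]
    exact hA
  · intro i
    exact ((((IntP.X O _).smul h₁).add (hV.smul h₂)).pow _).mul
      ((((IntP.X O _).smul h₃).add (hV.smul h₄)).pow _)
  · intro t
    rw [← Ideal.Quotient.eq, map_mul, map_pow, map_pow, hX a, hX b, hA2 t, map_sum]
    refine Finset.sum_congr rfl fun i _ => ?_
    rfl

end

end Pool.Agent.Helper49.LN

end

section

/-!
# LN: the determinants of a line and of a flag at one valuation ring
-/

set_option autoImplicit false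

namespace Pool.Agent.Helper49.LN

open scoped BigOperators
open MvPolynomial
open Pool.Agent.Helper8.LG (Bdd)

variable {E : Type*} [Field E] {σ : Type*} {κ : Type*} {n : ℕ}

section

variable {O : ValuationSubring E} {Δ : E} {D : Sym σ (n + 1) → Derivation ℤ E E}
  {x y : σ → E} {m j : σ} {g g' : Sym σ (n + 1) → κ → E} {ε : κ → E}

theorem lam_mul_mu (h : Loc O x y m j) : x m * mu x y m j = pl x y m j := by
  unfold mu
  rw [mul_div_cancel₀ _ h.xm]

theorem x_div_mu (h : Loc O x y m j) : x m / mu x y m j = x m ^ 2 / pl x y m j := by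
  unfold mu
  have h1 := h.xm
  have h2 := h.hρ
  field_simp

variable [Fintype σ] [DecidableEq σ]

theorem lv_smul {M : Type*} [AddCommGroup M] [Module E M] (V : Sym σ (n + 1) → M) (ρ : E)
    (P P' : σ → σ → E) (h : ∀ j l, P j l = ρ * P' j l) (p : Sym σ n × σ × σ × σ) :
    lv V P p = ρ • lv V P' p := by
  unfold lv
  rw [Lf_smul ρ P P' h, mul_smul_comm, map_smul]

theorem lv_trans_f (hG : LocG O Δ D x m g g' ε) (h : Loc O x y m j) (p : Sym σ n × σ × σ × σ) :
    lv (fv D x y g) (pl x y) p - pl x y m j • gf (x m) (y m) (mu x y m j)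
      (lv (fv D (xt x m) (yt x y m j) g') (pl (xt x m) (yt x y m j)) p) ∈
      Submodule.span E (Set.range (b3 x y ε)) := by
  rw [← map_smul, ← lv_smul _ _ _ _ (fun k l => h.pl_eq k l)]
  exact cPf_trans hG h _

theorem lv_trans_l (hG : LocG O Δ D x m g g' 0) (h : Loc O x y m j) (p : Sym σ n × σ × σ × σ) :
    lv (fv D x y g) (pl x y) p - pl x y m j • gf (x m) (y m) (mu x y m j)
      (lv (fv D (xt x m) (yt x y m j) g') (pl (xt x m) (yt x y m j)) p) ∈
      Submodule.span E (Set.range (b4 (κ := κ) x y)) := by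
  rw [← map_smul, ← lv_smul _ _ _ _ (fun k l => h.pl_eq k l)]
  exact cPl_trans hG h _

theorem lv_bdd (hG : LocG O Δ D x m g g' ε) (h : Loc O x y m j) (p : Sym σ n × σ × σ × σ)
    (r : (σ ⊕ σ) ⊕ κ) :
    Δ * lv (fv D (xt x m) (yt x y m j) g') (pl (xt x m) (yt x y m j)) p r ∈ O :=
  cPf_bdd hG h _ ((IntP.mo O _).mul (Lf_int _ (fun k l => h.pl_mem k l) _)) r

variable [Fintype κ] [DecidableEq κ]

/-- **The determinant of a line at one valuation ring** -/
theorem g3_det (hG : LocG O Δ D x m g g' 0) (h : Loc O x y m j) (a b : σ)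
    (hab : pl x y a b ≠ 0) {b' r t : ℕ} (f : Fin b' → Sym σ n × σ × σ × σ) (K : Fin r → ℕ)
    (hK : ∀ s, K s ≤ n + 1) (f' : Fin t → (σ × σ) ⊕ κ)
    (rr : TT (Fin 4) (Fin 0) (Fin b') (Fin r) (Fin 0) (Fin t) ≃ (σ ⊕ σ) ⊕ κ)
    (hI : ∀ p ∈ Il (pl x y), cP (fv D x y g) p ∈ Submodule.span E (Set.range (b4 x y) ∪
        Set.range fun s => lv (fv D x y g) (pl x y) (f s))) :
    ∃ N ∈ O, Δ ^ Fintype.card ((σ ⊕ σ) ⊕ κ) * dt rr (vv (b4 x y) (vb0 _)
      (fun s => lv (fv D x y g) (pl x y) (f s)) (fun s => bn (E := E) (fv D x y g) a b (K s))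
      Fin.elim0 fun s => kv x y (f' s)) =
      pl x y m j ^ (Fintype.card σ + b') *
        pl (xt x m) (yt x y m j) a b ^ (r * (r - 1) / 2) * N := by
  classical
  obtain ⟨A, G, hA, hGi, hAG⟩ := fanI h a b hab (n + 1) K hK
  rw [Fintype.card_fin] at hA
  have hv0 : Submodule.span E (Set.range (b4 (κ := κ) x y)) ≤ Submodule.span E
      (Set.range (b4 (κ := κ) x y) ∪ Set.range (vb0 ((σ ⊕ σ) ⊕ κ → E)) ∪
        Set.range fun s => lv (fv D x y g) (pl x y) (f s)) :=
    Submodule.span_mono (fun v hv => Or.inl (Or.inl hv))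
  obtain ⟨N, hN, e⟩ := det_left O Δ rr (gf (x m) (y m) (mu x y m j))
    (b4 x y) (b4 (xt x m) (yt x y m j)) (a4 (x m) (mu x y m j)) r4
    (by intro t; fin_cases t <;> simp [r4]) (b4_trans h)
    (vb0 _) (fun p => p.1.elim0) (fun i => i.elim0) (fun i => i.elim0) 1 one_ne_zero
    (by rw [inv_one]; exact one_mem O) (fun i => i.elim0)
    (fun s => lv (fv D x y g) (pl x y) (f s))
    (fun s => lv (fv D (xt x m) (yt x y m j) g') (pl (xt x m) (yt x y m j)) (f s))
    (fun _ => pl x y m j) (fun s => lv_trans_l hG h (f s))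
    (fun s => bn (E := E) (fv D x y g) a b (K s))
    (fun i => cP (fv D (xt x m) (yt x y m j) g') (G i)) A _ hA
    (by
      intro s
      have h1 : cP (fv D x y g) (X a ^ (n + 1 - K s) * X b ^ K s : MvPolynomial σ E) -
          gf (x m) (y m) (mu x y m j) (∑ u, A u s • cP (fv D (xt x m) (yt x y m j) g') (G u)) =
          cP (fv D x y g) ((X a ^ (n + 1 - K s) * X b ^ K s : MvPolynomial σ E) -
            ∑ i, A i s • G i) + (cP (fv D x y g) (∑ i, A i s • G i) -
            gf (x m) (y m) (mu x y m j) (cP (fv D (xt x m) (yt x y m j) g')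
              (∑ i, A i s • G i))) := by
        rw [map_sub]
        simp only [map_sum, map_smul]
        abel
      show cP (fv D x y g) (X a ^ (n + 1 - K s) * X b ^ K s : MvPolynomial σ E) - _ ∈ _
      rw [h1]
      refine add_mem ?_ (hv0 (cPl_trans hG h _))
      refine Submodule.span_mono ?_ (hI _ (hAG s))
      rintro v (hv | hv)
      · exact Or.inl (Or.inl hv)
      · exact Or.inr hv)
    Fin.elim0 (fun i => i.elim0) (fun i => i.elim0) (fun i => i.elim0)
    (fun s => kv x y (f' s)) (fun s => kv (xt x m) (yt x y m j) (f' s)) (fun _ => 1)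
    (fun _ => one_mem O) (fun s => by rw [one_smul]; exact kv_trans h (f' s))
    (fun t l => b4_bdd hG.bdd.1 h t l) (fun p => p.1.elim0)
    (fun s l => lv_bdd hG h (f s) l) (fun i l => cPf_bdd hG h _ (hGi i) l)
    (fun i => i.elim0) (fun s l => kv_bdd hG.bdd.1 h (f' s) l)
  refine ⟨N, hN, ?_⟩
  rw [e, det_gf, lam_mul_mu h, prod_a4 _ _ h.xm h.mu_ne, Finset.prod_const, Finset.card_univ,
    Fintype.card_fin, Fintype.card_fin, pow_zero, pow_add]
  simp only [Finset.univ_eq_empty, Finset.prod_empty]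
  ring

theorem tri_nat (r : ℕ) : r + r * (r - 1) / 2 = r * (r + 1) / 2 := by
  rcases r with _ | r
  · rfl
  · have h1 : (r + 1) * (r + 1 + 1) = 2 * (r + 1) + (r + 1) * (r + 1 - 1) := by
      rw [Nat.add_sub_cancel]
      ring
    rw [h1, Nat.mul_add_div (by norm_num)]

omit [Fintype κ] [DecidableEq κ] [Fintype σ] in
/-- the fan of the forms vanishing at the point, modulo the ideal of the line -/
theorem fanJ (h : Loc O x y m j) (a b : σ) (hab : pl x y a b ≠ 0) (N : ℕ)
    {T : Type*} [Fintype T] (K : T → ℕ) (hK : ∀ t, K t ≤ N) :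
    ∃ (A : Fin (N + 1) → T → E) (G : Fin (N + 1) → MvPolynomial σ E),
      PB O A (x m ^ Fintype.card T * pl (xt x m) (yt x y m j) a b ^
        (Fintype.card T * (Fintype.card T + 1) / 2)) ∧
      (∀ i, IntP O (G i)) ∧
      ∀ t, (X a ^ (N - K t) * X b ^ K t * hf x a b : MvPolynomial σ E) - ∑ i, A i t • G i ∈
        Il (pl x y) := by
  obtain ⟨A, G, hA, hG, hAG⟩ := fanI h a b hab N K hK
  have hV : IntP O (X j - xt x m j • X m : MvPolynomial σ E) :=
    (IntP.X O _).sub ((IntP.X O _).smul (h.hx j))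
  refine ⟨fun u t => (x m * pl (xt x m) (yt x y m j) a b) * A u t,
    fun i => G i * (X j - xt x m j • X m), ?_, fun i => (hG i).mul hV, ?_⟩
  · have h1 := hA.mul (fun _ : T => x m * pl (xt x m) (yt x y m j) a b)
    rw [Finset.prod_const, Finset.card_univ, mul_pow, mul_assoc, ← pow_add, tri_nat] at h1
    exact h1
  · intro t
    have h1 := hf_mod_std (xt x m) (yt x y m j) m j h.xt_m h.yt_m h.yt_j a b
    rw [← Il_loc h] at h1
    have h2 : (X a ^ (N - K t) * X b ^ K t * hf x a b : MvPolynomial σ E) -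
        ∑ i, (x m * pl (xt x m) (yt x y m j) a b * A i t) • (G i * (X j - xt x m j • X m)) =
        (X a ^ (N - K t) * X b ^ K t - ∑ i, A i t • G i) * hf x a b +
        (x m • ∑ i, A i t • G i) * (hf (xt x m) a b - pl (xt x m) (yt x y m j) a b •
          (X j - xt x m j • X m)) := by
      have h3 : ∑ i, (x m * pl (xt x m) (yt x y m j) a b * A i t) •
          (G i * (X j - xt x m j • X m)) = (x m * pl (xt x m) (yt x y m j) a b) •
          ((∑ i, A i t • G i) * (X j - xt x m j • X m)) := by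
        rw [Finset.sum_mul, Finset.smul_sum]
        refine Finset.sum_congr rfl fun i _ => ?_
        rw [mul_smul, smul_mul_assoc]
      rw [h3, hf_xt h.xm a b]
      generalize (∑ i, A i t • G i) = S
      simp only [smul_eq_C_mul, map_mul]
      ring
    rw [h2]
    exact add_mem (Ideal.mul_mem_right _ _ (hAG t)) (Ideal.mul_mem_left _ _ h1)

/-- **The determinant of a flag at one valuation ring** -/
theorem g2_det (hG : LocG O Δ D x m g g' ε) (h : Loc O x y m j) (i₀ a : σ) (hx : x i₀ = 1)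
    (ha : pl x y i₀ a ≠ 0) {b' r t : ℕ} (f : Fin b' → Sym σ n × σ × σ × σ) (K : Fin r → ℕ)
    (hK : ∀ s, K s ≤ n) (f' : Fin t → (σ × σ) ⊕ κ)
    (rr : TT (Fin 3) (Fin 0) (Fin b') (Fin r) (Fin 1) (Fin t) ≃ (σ ⊕ σ) ⊕ κ)
    (hI : ∀ p ∈ Il (pl x y), cP (fv D x y g) p ∈ Submodule.span E (Set.range (b3 x y ε) ∪
        Set.range fun s => lv (fv D x y g) (pl x y) (f s)))
    (hJ : ∀ p ∈ Ipt x, cP (fv D x y g) p ∈ Submodule.span E (Set.range (b3 x y ε) ∪
        (Set.range fun s => lv (fv D x y g) (pl x y) (f s)) ∪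
        Set.range fun s => fn (fv D x y g) x i₀ a (K s))) :
    ∃ N ∈ O, Δ ^ Fintype.card ((σ ⊕ σ) ⊕ κ) * dt rr (vv (b3 x y ε) (vb0 _)
      (fun s => lv (fv D x y g) (pl x y) (f s)) (fun s => fn (fv D x y g) x i₀ a (K s))
      (fun _ => la (E := E) (fv D x y g) i₀) fun s => kv x y (f' s)) *
        (x m ^ (n + 1) * pl x y m j) =
      x m ^ (2 + r) * pl x y m j ^ (Fintype.card σ + b') *
        pl (xt x m) (yt x y m j) i₀ a ^ (r * (r + 1) / 2) * N := by
  classical
  obtain ⟨A, G, hA, hGi, hAG⟩ := fanJ h i₀ a ha n K hK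
  rw [Fintype.card_fin] at hA
  have hv0 : Submodule.span E (Set.range (b3 x y ε)) ≤ Submodule.span E
      (Set.range (b3 x y ε) ∪ Set.range (vb0 ((σ ⊕ σ) ⊕ κ → E)) ∪
        Set.range fun s => lv (fv D x y g) (pl x y) (f s)) :=
    Submodule.span_mono (fun v hv => Or.inl (Or.inl hv))
  have hv1 : Submodule.span E (Set.range (b3 x y ε)) ≤ Submodule.span E
      (Set.range (b3 x y ε) ∪ Set.range (vb0 ((σ ⊕ σ) ⊕ κ → E)) ∪
        (Set.range fun s => lv (fv D x y g) (pl x y) (f s)) ∪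
        Set.range fun s => fn (fv D x y g) x i₀ a (K s)) :=
    Submodule.span_mono (fun v hv => Or.inl (Or.inl (Or.inl hv)))
  obtain ⟨N, hN, e⟩ := det_left O Δ rr (gf (x m) (y m) (mu x y m j))
    (b3 x y ε) (b3 (xt x m) (yt x y m j) ε) (a3 (x m) (mu x y m j)) r3
    (by intro t; fin_cases t <;> simp [r3]) (b3_trans h ε)
    (vb0 _) (fun p => p.1.elim0) (fun i => i.elim0) (fun i => i.elim0) 1 one_ne_zero
    (by rw [inv_one]; exact one_mem O) (fun i => i.elim0)
    (fun s => lv (fv D x y g) (pl x y) (f s))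
    (fun s => lv (fv D (xt x m) (yt x y m j) g') (pl (xt x m) (yt x y m j)) (f s))
    (fun _ => pl x y m j) (fun s => lv_trans_f hG h (f s))
    (fun s => fn (fv D x y g) x i₀ a (K s))
    (fun i => cP (fv D (xt x m) (yt x y m j) g') (G i)) A _ hA
    (by
      intro s
      have h1 : cP (fv D x y g) (X i₀ ^ (n - K s) * X a ^ K s * hf x i₀ a : MvPolynomial σ E) -
          gf (x m) (y m) (mu x y m j) (∑ u, A u s • cP (fv D (xt x m) (yt x y m j) g') (G u)) =
          cP (fv D x y g) ((X i₀ ^ (n - K s) * X a ^ K s * hf x i₀ a : MvPolynomial σ E) -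
            ∑ i, A i s • G i) + (cP (fv D x y g) (∑ i, A i s • G i) -
            gf (x m) (y m) (mu x y m j) (cP (fv D (xt x m) (yt x y m j) g')
              (∑ i, A i s • G i))) := by
        rw [map_sub]
        simp only [map_sum, map_smul]
        abel
      show cP (fv D x y g) (X i₀ ^ (n - K s) * X a ^ K s * hf x i₀ a : MvPolynomial σ E) - _ ∈ _
      rw [h1]
      refine add_mem ?_ (hv0 (cPf_trans hG h _))
      refine Submodule.span_mono ?_ (hI _ (hAG s))
      rintro v (hv | hv)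
      · exact Or.inl (Or.inl hv)
      · exact Or.inr hv)
    (fun _ => la (E := E) (fv D x y g) i₀)
    (fun _ => la (E := E) (fv D (xt x m) (yt x y m j) g') m) (fun _ => (x m ^ (n + 1))⁻¹)
    (by
      intro _
      have h1 : la (E := E) (fv D x y g) i₀ - (x m ^ (n + 1))⁻¹ • gf (x m) (y m) (mu x y m j)
          (la (E := E) (fv D (xt x m) (yt x y m j) g') m) =
          cP (fv D x y g) ((X i₀ : MvPolynomial σ E) ^ (n + 1) -
            (x m ^ (n + 1))⁻¹ • X m ^ (n + 1)) +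
          (cP (fv D x y g) ((x m ^ (n + 1))⁻¹ • (X m : MvPolynomial σ E) ^ (n + 1)) -
            gf (x m) (y m) (mu x y m j) (cP (fv D (xt x m) (yt x y m j) g')
              ((x m ^ (n + 1))⁻¹ • (X m : MvPolynomial σ E) ^ (n + 1)))) := by
        unfold la
        rw [map_sub]
        simp only [map_smul]
        abel
      rw [h1]
      refine add_mem ?_ (hv1 (cPf_trans hG h _))
      refine Submodule.span_mono ?_ (hJ _ (pow_mod x i₀ m hx h.xm (n + 1)))
      rintro v ((hv | hv) | hv)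
      · exact Or.inl (Or.inl (Or.inl hv))
      · exact Or.inl (Or.inr hv)
      · exact Or.inr hv)
    (fun s => kv x y (f' s)) (fun s => kv (xt x m) (yt x y m j) (f' s)) (fun _ => 1)
    (fun _ => one_mem O) (fun s => by rw [one_smul]; exact kv_trans h (f' s))
    (fun t l => b3_bdd hG.bdd.1 h hG.eps t l) (fun p => p.1.elim0)
    (fun s l => lv_bdd hG h (f s) l) (fun i l => cPf_bdd hG h _ (hGi i) l)
    (fun _ l => cPf_bdd hG h _ ((IntP.X O m).pow _) l)
    (fun s l => kv_bdd hG.bdd.1 h (f' s) l)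
  refine ⟨N, hN, ?_⟩
  rw [e, det_gf, lam_mul_mu h, prod_a3, x_div_mu h, Finset.prod_const, Finset.card_univ,
    Fintype.card_fin, Fintype.card_fin, pow_zero, Finset.prod_const, Finset.card_univ,
    Fintype.card_fin, pow_one]
  have h1 := h.xm
  have h2 := h.hρ
  have h3 : x m ^ (n + 1) ≠ 0 := pow_ne_zero _ h1
  rw [pow_add, pow_add]
  field_simp
  ring

end

end Pool.Agent.Helper49.LN

end
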