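import Pool.Agent.Helper74.MG.T54
import Pool.Agent.Helper74.MG.T53
import Pool.Agent.Helper74.MG.T55

section

/-!
# LN: the determinants of a point at one valuation ring
-/

set_option autoImplicit false

namespace Pool.Agent.Helper49.LN

open scoped BigOperators
open MvPolynomial
open Pool.Agent.Helper8.LG (Bdd)

variable {E : Type*} [Field E] {σ : Type*} {κ : Type*} {n : ℕ}

/-- the unit vectors of a point -/
def uv [DecidableEq σ] [DecidableEq κ] (r : σ ⊕ κ) : σ ⊕ κ → E := Pi.single r 1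

/-- weights of the unit vectors -/
def au (c : E) : σ ⊕ κ → E := Sum.elim (fun _ => c⁻¹) fun _ => 1

theorem uv_trans [DecidableEq σ] [DecidableEq κ] (c : E) (hc : c ≠ 0) (r : σ ⊕ κ) :
    (uv r : σ ⊕ κ → E) = au c r • gp c (uv r) := by
  rcases r with l | k
  · funext s
    rcases s with l' | k'
    · show (Pi.single (Sum.inl l) 1 : σ ⊕ κ → E) (Sum.inl l') =
        c⁻¹ * (c * (Pi.single (Sum.inl l) 1 : σ ⊕ κ → E) (Sum.inl l'))
      rw [inv_mul_cancel_left₀ hc]
    · show (Pi.single (Sum.inl l) 1 : σ ⊕ κ → E) (Sum.inr k') =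
        c⁻¹ * (1 * (Pi.single (Sum.inl l) 1 : σ ⊕ κ → E) (Sum.inr k'))
      rw [Pi.single_apply, if_neg (by simp)]
      ring
  · funext s
    rcases s with l' | k'
    · show (Pi.single (Sum.inr k) 1 : σ ⊕ κ → E) (Sum.inl l') =
        1 * (c * (Pi.single (Sum.inr k) 1 : σ ⊕ κ → E) (Sum.inl l'))
      rw [Pi.single_apply, if_neg (by simp)]
      ring
    · show (Pi.single (Sum.inr k) 1 : σ ⊕ κ → E) (Sum.inr k') =
        1 * (1 * (Pi.single (Sum.inr k) 1 : σ ⊕ κ → E) (Sum.inr k'))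
      ring

section

variable {O : ValuationSubring E} {Δ : E} {D : Sym σ (n + 1) → Derivation ℤ E E}
  {x y : σ → E} {m j : σ} {g g' : Sym σ (n + 1) → κ → E} {ε : κ → E}

theorem uv_bdd [DecidableEq σ] [DecidableEq κ] (hΔ : Δ ∈ O) (r l : σ ⊕ κ) :
    Δ * (uv r : σ ⊕ κ → E) l ∈ O := mul_mem hΔ (single_bdd O _ (one_mem O) l)

theorem au_mem (hx : ∀ l, xt x m l ∈ O) {i₀ : σ} (hi : x i₀ = 1) (r : σ ⊕ κ) :
    au (x m) r ∈ O := by
  rcases r with l | k
  · have h1 := hx i₀
    unfold xt at h1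
    rw [hi, one_div] at h1
    exact h1
  · exact one_mem O

variable [Fintype σ] [DecidableEq σ]

/-- the bounded columns of the blocks -/
noncomputable def wb (V : Sym σ (n + 1) → σ ⊕ κ → E) (i₀ : σ)
    (β : (Sym σ n × Sym σ n) × (σ × σ)) (s : Option (Fin 2)) : σ ⊕ κ → E :=
  cP V ((mo E (β.1.1 : Multiset σ) + mo E (β.1.2 : Multiset σ)) *
    s.elim (X i₀) fun s => X (if s = 0 then β.2.1 else β.2.2))

theorem bl_trans (hG : LocG O Δ D x m g g' ε) (hm : x m ≠ 0) {i₀ : σ} (hx : x i₀ = 1)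
    (β : (Sym σ n × Sym σ n) × (σ × σ)) (s : Fin 2) :
    bl (pv D x g) x i₀ β s - gp (x m) (wb (pv D (xt x m) g') i₀ β (some s) -
      x (if s = 0 then β.2.1 else β.2.2) • wb (pv D (xt x m) g') i₀ β none) ∈
      Submodule.span E (Set.range fun _ : Fin 1 => pe x ε) := by
  have h1 : wb (pv D (xt x m) g') i₀ β (some s) -
      x (if s = 0 then β.2.1 else β.2.2) • wb (pv D (xt x m) g') i₀ β none =
      cP (pv D (xt x m) g') ((mo E (β.1.1 : Multiset σ) + mo E (β.1.2 : Multiset σ)) *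
        hf x i₀ (if s = 0 then β.2.1 else β.2.2)) := by
    unfold wb hf
    rw [hx, one_smul, mul_sub, map_sub, mul_smul_comm, map_smul]
    rfl
  rw [h1]
  exact cPp_trans hG hm _

theorem wb_bdd (hG : LocG O Δ D x m g g' ε) (hx : ∀ l, xt x m l ∈ O) (i₀ : σ)
    (β : (Sym σ n × Sym σ n) × (σ × σ)) (s : Option (Fin 2)) (r : σ ⊕ κ) :
    Δ * wb (pv D (xt x m) g') i₀ β s r ∈ O := by
  refine cPp_bdd hG hx _ (((IntP.mo O _).add (IntP.mo O _)).mul ?_) r
  rcases s with _ | s
  · exact IntP.X O _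
  · exact IntP.X O _

theorem sg_trans (hG : LocG O Δ D x m g g' ε) (hm : x m ≠ 0) (i₀ : σ) (p : Sym σ n × σ) :
    sg (pv D x g) x i₀ p - x m • gp (x m) (sg (pv D (xt x m) g') (xt x m) i₀ p) ∈
      Submodule.span E (Set.range fun _ : Fin 1 => pe x ε) := by
  have h1 : x m • gp (x m) (sg (pv D (xt x m) g') (xt x m) i₀ p) =
      gp (x m) (cP (pv D (xt x m) g') (mo E (p.1 : Multiset σ) * hf x i₀ p.2)) := by
    unfold sg
    rw [hf_xt hm, mul_smul_comm, map_smul, map_smul]
  rw [h1]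
  exact cPp_trans hG hm _

theorem sg_bdd (hG : LocG O Δ D x m g g' ε) (hx : ∀ l, xt x m l ∈ O) (i₀ : σ)
    (p : Sym σ n × σ) (r : σ ⊕ κ) :
    Δ * sg (pv D (xt x m) g') (xt x m) i₀ p r ∈ O :=
  cPp_bdd hG hx _ ((IntP.mo O _).mul (hf_int _ hx _ _)) r

theorem la_trans (hG : LocG O Δ D x m g g' ε) (hm : x m ≠ 0) {i₀ : σ} (hx : x i₀ = 1)
    (S S' : Submodule E (σ ⊕ κ → E))
    (hS : Submodule.span E (Set.range fun _ : Fin 1 => pe x ε) ≤ S)
    (hJ : ∀ p ∈ Ipt x, cP (pv D x g) p ∈ S') (hS' : S' ≤ S) :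
    la (E := E) (pv D x g) i₀ - (x m ^ (n + 1))⁻¹ •
      gp (x m) (la (E := E) (pv D (xt x m) g') m) ∈ S := by
  have h1 : la (E := E) (pv D x g) i₀ - (x m ^ (n + 1))⁻¹ •
      gp (x m) (la (E := E) (pv D (xt x m) g') m) =
      cP (pv D x g) ((X i₀ : MvPolynomial σ E) ^ (n + 1) -
        (x m ^ (n + 1))⁻¹ • X m ^ (n + 1)) +
      (cP (pv D x g) ((x m ^ (n + 1))⁻¹ • (X m : MvPolynomial σ E) ^ (n + 1)) -
        gp (x m) (cP (pv D (xt x m) g')
          ((x m ^ (n + 1))⁻¹ • (X m : MvPolynomial σ E) ^ (n + 1)))) := by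
    unfold la
    rw [map_sub]
    simp only [map_smul]
    abel
  rw [h1]
  exact add_mem (hS' (hJ _ (pow_mod x i₀ m hx hm (n + 1)))) (hS (cPp_trans hG hm _))

variable [Fintype κ] [DecidableEq κ]

/-- **The determinant of a point at one valuation ring**, simple version -/
theorem g1_det (hG : LocG O Δ D x m g g' ε) (hm : x m ≠ 0) (hxm : ∀ l, xt x m l ∈ O) {i₀ : σ}
    (hx : x i₀ = 1) {i t p u : ℕ} (β : Fin i → (Sym σ n × Sym σ n) × (σ × σ))
    (f : Fin t → Sym σ n × σ) (e : Fin p → σ) (f' : Fin u → σ ⊕ κ)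
    (rr : TT (Fin 1) (Fin i) (Fin t) (Fin 0) (Fin 1 ⊕ Fin p) (Fin u) ≃ σ ⊕ κ)
    (hJ : ∀ p ∈ Ipt x, cP (pv D x g) p ∈ Submodule.span E
        ((Set.range fun _ : Fin 1 => pe x ε) ∪
        (Set.range fun p : Fin i × Fin 2 => bl (pv D x g) x i₀ (β p.1) p.2) ∪
        Set.range fun s => sg (pv D x g) x i₀ (f s))) :
    ∃ N ∈ O, Δ ^ Fintype.card (σ ⊕ κ) * dt rr (vv (fun _ => pe x ε)
      (fun p => bl (pv D x g) x i₀ (β p.1) p.2) (fun s => sg (pv D x g) x i₀ (f s)) Fin.elim0
      (Sum.elim (fun _ => la (E := E) (pv D x g) i₀) fun s => uv (Sum.inl (e s)))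
      fun s => uv (f' s)) * x m ^ (n + 1 + p) =
      x m ^ (Fintype.card σ + i + t) * N := by
  classical
  have hxi : (x m)⁻¹ ∈ O := by
    have h1 := hxm i₀
    unfold xt at h1
    rw [hx, one_div] at h1
    exact h1
  obtain ⟨N, hN, eq⟩ := det_left (T2 := Fin 0) (U2 := Fin 0) O Δ rr (gp (x m))
    (fun _ => pe x ε) (fun _ => pe (xt x m) ε) (fun _ => 1) (fun _ => 0) (fun _ => by omega)
    (fun _ => by
      rw [one_smul, ← pe_trans x m hm ε, sub_self]
      exact Submodule.zero_mem _)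
    (fun p => bl (pv D x g) x i₀ (β p.1) p.2)
    (fun p => wb (pv D (xt x m) g') i₀ (β p.1) p.2)
    (fun k s => x (if s = 0 then (β k).2.1 else (β k).2.2))
    (fun k s => bl_trans hG hm hx (β k) s) (x m) hm hxi
    (fun k s => by
      have h1 := hxm (if s = 0 then (β k).2.1 else (β k).2.2)
      unfold xt at h1
      rwa [div_eq_inv_mul] at h1)
    (fun s => sg (pv D x g) x i₀ (f s))
    (fun s => sg (pv D (xt x m) g') (xt x m) i₀ (f s)) (fun _ => x m)
    (fun s => sg_trans hG hm i₀ (f s))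
    Fin.elim0 Fin.elim0 (fun _ s => s.elim0) 1
    (by
      intro g _
      refine ⟨1, one_mem O, ?_⟩
      simp) (fun s => s.elim0)
    (Sum.elim (fun _ => la (E := E) (pv D x g) i₀) fun s => uv (Sum.inl (e s)))
    (Sum.elim (fun _ => la (E := E) (pv D (xt x m) g') m) fun s => uv (Sum.inl (e s)))
    (Sum.elim (fun _ => (x m ^ (n + 1))⁻¹) fun _ => (x m)⁻¹)
    (by
      rintro (s | s)
      · exact la_trans hG hm hx _ _
          (Submodule.span_mono (fun v hv => Or.inl (Or.inl (Or.inl hv)))) hJ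
          (Submodule.span_mono (by
            rintro v ((hv | hv) | hv)
            · exact Or.inl (Or.inl (Or.inl hv))
            · exact Or.inl (Or.inl (Or.inr hv))
            · exact Or.inl (Or.inr hv)))
      · show uv (Sum.inl (e s)) - (x m)⁻¹ • gp (x m) (uv (Sum.inl (e s))) ∈ _
        have h1 := uv_trans (κ := κ) (x m) hm (Sum.inl (e s))
        have h2 : au (κ := κ) (x m) (Sum.inl (e s)) = (x m)⁻¹ := rfl
        rw [h2] at h1
        rw [← h1, sub_self]
        exact Submodule.zero_mem _)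
    (fun s => uv (f' s)) (fun s => uv (f' s)) (fun s => au (x m) (f' s))
    (fun s => au_mem hxm hx (f' s)) (fun s => uv_trans (x m) hm (f' s))
    (fun _ l => pe_bdd hG hxm l) (fun p l => wb_bdd hG hxm i₀ (β p.1) p.2 l)
    (fun s l => sg_bdd hG hxm i₀ (f s) l) (fun s => s.elim0)
    (by
      rintro (s | s) l
      · exact cPp_bdd hG hxm _ ((IntP.X O m).pow _) l
      · exact uv_bdd hG.bdd.1 _ l)
    (fun s l => uv_bdd hG.bdd.1 (f' s) l)
  refine ⟨N, hN, ?_⟩
  rw [eq, det_gp]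
  simp only [Finset.prod_const, Finset.card_univ, Fintype.card_fin, one_pow, one_mul, pow_one,
    Fintype.prod_sum_type, Sum.elim_inl, Sum.elim_inr]
  have h3 : x m ^ (n + 1) ≠ 0 := pow_ne_zero _ hm
  have h4 : x m ^ p ≠ 0 := pow_ne_zero _ hm
  rw [inv_pow, pow_add (x m) (n + 1) p, pow_add, pow_add]
  generalize hA1 : x m ^ (n + 1) = A1 at *
  generalize hA2 : x m ^ p = A2 at *
  field_simp
  ring

/-- **The determinant of a point at one valuation ring**, with the fan -/
theorem g1_fan (hG : LocG O Δ D x m g g' ε) (h : Loc O x y m j) {i₀ a : σ} (hx : x i₀ = 1)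
    (ha : pl x y i₀ a ≠ 0) {i r p u : ℕ} (β : Fin i → (Sym σ n × Sym σ n) × (σ × σ))
    (K : Fin r → ℕ) (hK : ∀ s, K s ≤ n) (e : Fin p → σ) (f' : Fin u → σ ⊕ κ)
    (rr : TT (Fin 1) (Fin i) (Fin 0) (Fin r) (Fin 1 ⊕ Fin p) (Fin u) ≃ σ ⊕ κ)
    (hI : ∀ p ∈ Il (pl x y), cP (pv D x g) p ∈ Submodule.span E
        ((Set.range fun _ : Fin 1 => pe x ε) ∪
        Set.range fun p : Fin i × Fin 2 => bl (pv D x g) x i₀ (β p.1) p.2))
    (hJ : ∀ p ∈ Ipt x, cP (pv D x g) p ∈ Submodule.span E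
        ((Set.range fun _ : Fin 1 => pe x ε) ∪
        (Set.range fun p : Fin i × Fin 2 => bl (pv D x g) x i₀ (β p.1) p.2) ∪
        Set.range fun s => fn (pv D x g) x i₀ a (K s))) :
    ∃ N ∈ O, Δ ^ Fintype.card (σ ⊕ κ) * dt rr (vv (fun _ => pe x ε)
      (fun p => bl (pv D x g) x i₀ (β p.1) p.2) Fin.elim0 (fun s => fn (pv D x g) x i₀ a (K s))
      (Sum.elim (fun _ => la (E := E) (pv D x g) i₀) fun s => uv (Sum.inl (e s)))
      fun s => uv (f' s)) * x m ^ (n + 1 + p) =
      x m ^ (Fintype.card σ + i + r) *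
        pl (xt x m) (yt x y m j) i₀ a ^ (r * (r + 1) / 2) * N := by
  classical
  have hm := h.xm
  have hxm := h.hx
  have hxi : (x m)⁻¹ ∈ O := by
    have h1 := hxm i₀
    unfold xt at h1
    rw [hx, one_div] at h1
    exact h1
  obtain ⟨A, G, hA, hGi, hAG⟩ := fanJ h i₀ a ha n K hK
  rw [Fintype.card_fin] at hA
  obtain ⟨N, hN, eq⟩ := det_left O Δ rr (gp (x m))
    (fun _ => pe x ε) (fun _ => pe (xt x m) ε) (fun _ => 1) (fun _ => 0) (fun _ => by omega)
    (fun _ => by
      rw [one_smul, ← pe_trans x m hm ε, sub_self]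
      exact Submodule.zero_mem _)
    (fun p => bl (pv D x g) x i₀ (β p.1) p.2)
    (fun p => wb (pv D (xt x m) g') i₀ (β p.1) p.2)
    (fun k s => x (if s = 0 then (β k).2.1 else (β k).2.2))
    (fun k s => bl_trans hG hm hx (β k) s) (x m) hm hxi
    (fun k s => by
      have h1 := hxm (if s = 0 then (β k).2.1 else (β k).2.2)
      unfold xt at h1
      rwa [div_eq_inv_mul] at h1)
    Fin.elim0 Fin.elim0 (fun _ => 1) (fun s => s.elim0)
    (fun s => fn (pv D x g) x i₀ a (K s))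
    (fun i => cP (pv D (xt x m) g') (G i)) A _ hA
    (by
      intro s
      have h1 : cP (pv D x g) (X i₀ ^ (n - K s) * X a ^ K s * hf x i₀ a : MvPolynomial σ E) -
          gp (x m) (∑ u, A u s • cP (pv D (xt x m) g') (G u)) =
          cP (pv D x g) ((X i₀ ^ (n - K s) * X a ^ K s * hf x i₀ a : MvPolynomial σ E) -
            ∑ i, A i s • G i) + (cP (pv D x g) (∑ i, A i s • G i) -
            gp (x m) (cP (pv D (xt x m) g') (∑ i, A i s • G i))) := by
        rw [map_sub]
        simp only [map_sum, map_smul]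
        abel
      show cP (pv D x g) (X i₀ ^ (n - K s) * X a ^ K s * hf x i₀ a : MvPolynomial σ E) - _ ∈ _
      rw [h1]
      refine add_mem ?_ (Submodule.span_mono (fun v hv => Or.inl (Or.inl hv))
        (cPp_trans hG hm _))
      exact Submodule.span_mono (fun v hv => Or.inl hv) (hI _ (hAG s)))
    (Sum.elim (fun _ => la (E := E) (pv D x g) i₀) fun s => uv (Sum.inl (e s)))
    (Sum.elim (fun _ => la (E := E) (pv D (xt x m) g') m) fun s => uv (Sum.inl (e s)))
    (Sum.elim (fun _ => (x m ^ (n + 1))⁻¹) fun _ => (x m)⁻¹)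
    (by
      rintro (s | s)
      · exact la_trans hG hm hx _ _
          (Submodule.span_mono (fun v hv => Or.inl (Or.inl (Or.inl hv)))) hJ
          (Submodule.span_mono (by
            rintro v ((hv | hv) | hv)
            · exact Or.inl (Or.inl (Or.inl hv))
            · exact Or.inl (Or.inl (Or.inr hv))
            · exact Or.inr hv))
      · show uv (Sum.inl (e s)) - (x m)⁻¹ • gp (x m) (uv (Sum.inl (e s))) ∈ _
        have h1 := uv_trans (κ := κ) (x m) hm (Sum.inl (e s))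
        have h2 : au (κ := κ) (x m) (Sum.inl (e s)) = (x m)⁻¹ := rfl
        rw [h2] at h1
        rw [← h1, sub_self]
        exact Submodule.zero_mem _)
    (fun s => uv (f' s)) (fun s => uv (f' s)) (fun s => au (x m) (f' s))
    (fun s => au_mem hxm hx (f' s)) (fun s => uv_trans (x m) hm (f' s))
    (fun _ l => pe_bdd hG hxm l) (fun p l => wb_bdd hG hxm i₀ (β p.1) p.2 l)
    (fun s => s.elim0) (fun i l => cPp_bdd hG hxm _ (hGi i) l)
    (by
      rintro (s | s) l
      · exact cPp_bdd hG hxm _ ((IntP.X O m).pow _) l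
      · exact uv_bdd hG.bdd.1 _ l)
    (fun s l => uv_bdd hG.bdd.1 (f' s) l)
  refine ⟨N, hN, ?_⟩
  rw [eq, det_gp]
  simp only [Finset.prod_const, Finset.card_univ, Fintype.card_fin, one_pow, one_mul, pow_one,
    Finset.univ_eq_empty, Finset.prod_empty, Fintype.prod_sum_type, Sum.elim_inl, Sum.elim_inr]
  have h3 : x m ^ (n + 1) ≠ 0 := pow_ne_zero _ hm
  have h4 : x m ^ p ≠ 0 := pow_ne_zero _ hm
  rw [inv_pow, pow_add (x m) (n + 1) p, pow_add, pow_add]
  generalize hA1 : x m ^ (n + 1) = A1 at *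
  generalize hA2 : x m ^ p = A2 at *
  field_simp
  ring

end

end Pool.Agent.Helper49.LN

end

section

/-!
# LN: ranks
-/

set_option autoImplicit false

namespace Pool.Agent.Helper49.LN

open scoped BigOperators
open MvPolynomial
open Pool.Agent.Helper8.LG (col MinorsVanish exists_minor)

/-- the rank of the matrix with columns `x` and `D_p x` -/
theorem rk1 {E σ P : Type*} [Field E] [Finite σ] (D : P → Derivation ℤ E E) (x : σ → E) (w : ℕ)
    (h : MinorsVanish D x w) :
    Module.finrank E ↥(Submodule.span E (Set.range (col D x))) ≤ w + 1 := by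
  by_contra hcon
  push Not at hcon
  obtain ⟨m, β, -, h1, h2⟩ := sel (E := E) (Fin.elim0 : Fin 0 → σ → E)
    linearIndependent_empty_type (col D x)
  have h3 : LinearIndependent E fun s => col D x (β s) := h1.comp Sum.inr Sum.inr_injective
  have h4 : Submodule.span E (Set.range (col D x)) ≤
      Submodule.span E (Set.range fun s => col D x (β s)) := by
    rw [Submodule.span_le]
    rintro _ ⟨b, rfl⟩
    have h5 := h2 b
    have h6 : Set.range (Sum.elim (Fin.elim0 : Fin 0 → σ → E) fun s => col D x (β s)) =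
        Set.range fun s => col D x (β s) := by
      rw [Set.Sum.elim_range, Set.range_eq_empty (Fin.elim0 : Fin 0 → σ → E), Set.empty_union]
    rw [h6] at h5
    exact h5
  have h5 := Submodule.finrank_mono h4
  rw [finrank_span_eq_card h3, Fintype.card_fin] at h5
  have h6 : w + 2 ≤ m := by omega
  have h7 := h3.comp (Fin.castLE h6) (Fin.castLE_injective h6)
  obtain ⟨r, -, hr⟩ := exists_minor _ h7
  exact hr (h r fun s => β (Fin.castLE h6 s))

/-- a complement of coordinate vectors -/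
theorem rk2 {E σ : Type*} [Field E] [Fintype σ] [DecidableEq σ] (S : Submodule E (σ → E)) :
    ∃ (m : ℕ) (e : Fin m → σ), m + Module.finrank E S = Fintype.card σ ∧
      LinearIndependent E (fun s => (Pi.single (e s) 1 : σ → E)) ∧
      Disjoint S (Submodule.span E (Set.range fun s => (Pi.single (e s) 1 : σ → E))) := by
  let b := Module.finBasis E S
  have hb : LinearIndependent E fun i => ((b i : S) : σ → E) :=
    b.linearIndependent.map' S.subtype (Submodule.ker_subtype S)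
  have hbs : Submodule.span E (Set.range fun i => ((b i : S) : σ → E)) = S := by
    have h1 : (Set.range fun i => ((b i : S) : σ → E)) = S.subtype '' Set.range b := by
      rw [← Set.range_comp]
      rfl
    rw [h1, Submodule.span_image, b.span_eq, Submodule.map_top, Submodule.range_subtype]
  obtain ⟨m, e, -, h1, h2⟩ := sel (fun i => ((b i : S) : σ → E)) hb
    (fun l : σ => (Pi.single l 1 : σ → E))
  have h3 : Submodule.span E (Set.range (Sum.elim (fun i => ((b i : S) : σ → E))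
      fun s => (Pi.single (e s) 1 : σ → E))) = ⊤ := by
    rw [eq_top_iff, ← span_unit (E := E) (R := σ), Submodule.span_le]
    rintro _ ⟨l, rfl⟩
    exact h2 l
  obtain ⟨rr⟩ := card_of_basis _ h1 h3
  have h4 := Fintype.card_congr rr
  rw [Fintype.card_sum, Fintype.card_fin, Fintype.card_fin] at h4
  obtain ⟨h5, h6, h7⟩ := linearIndependent_sum.1 h1
  refine ⟨m, e, by omega, h6, ?_⟩
  have h8 : Disjoint (Submodule.span E (Set.range fun i => ((b i : S) : σ → E)))
    (Submodule.span E (Set.range fun s => (Pi.single (e s) 1 : σ → E))) := h7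
  rwa [hbs] at h8

/-- completion for a point -/
theorem rk3 {E σ κ A : Type*} [Field E] [Fintype σ] [DecidableEq σ] [Fintype κ] [DecidableEq κ]
    [Fintype A] [DecidableEq A] (v : A → σ ⊕ κ → E) (hv : LinearIndependent E v)
    (lam : (σ ⊕ κ → E) →ₗ[E] E) (hl : ∀ a, lam (v a) = 0) (u : σ ⊕ κ → E) (hu : lam u ≠ 0)
    (S : Submodule E (σ → E)) (hS : ∀ a, (fun l => v a (Sum.inl l)) ∈ S)
    (huS : (fun l => u (Sum.inl l)) ∈ S) :
    ∃ (m t : ℕ) (e : Fin m → σ) (f : Fin t → σ ⊕ κ)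
      (rr : ((A ⊕ (Fin 1 ⊕ Fin m)) ⊕ Fin t) ≃ (σ ⊕ κ)),
      m + Module.finrank E S = Fintype.card σ ∧
      dt rr (Sum.elim (Sum.elim v (Sum.elim (fun _ : Fin 1 => u)
        fun s => uv (Sum.inl (e s)))) fun s => uv (f s)) ≠ 0 := by
  obtain ⟨m, e, hm, h1, h2⟩ := rk2 S
  have h3 : LinearIndependent E (Sum.elim v (Sum.elim (fun _ : Fin 1 => u)
      fun s => (uv (Sum.inl (e s)) : σ ⊕ κ → E))) := by
    rw [Fintype.linearIndependent_iff]
    intro c hc
    rw [Fintype.sum_sum_type, Fintype.sum_sum_type, Fin.sum_univ_one] at hc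
    simp only [Sum.elim_inl, Sum.elim_inr] at hc
    -- the coordinates in `σ`
    have h4 : (∑ a, c (Sum.inl a) • fun l => v a (Sum.inl l)) +
        (c (Sum.inr (Sum.inl 0)) • (fun l => u (Sum.inl l)) +
          ∑ s, c (Sum.inr (Sum.inr s)) • (Pi.single (e s) 1 : σ → E)) = 0 := by
      funext l
      have h5 := congrFun hc (Sum.inl l)
      simp only [Pi.add_apply, Finset.sum_apply, Pi.smul_apply, Pi.zero_apply] at h5 ⊢
      rw [← h5]
      congr 2
      refine Finset.sum_congr rfl fun s _ => ?_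
      congr 1
      unfold uv
      simp only [Pi.single_apply, Sum.inl.injEq]
    have h5 : (∑ a, c (Sum.inl a) • fun l => v a (Sum.inl l)) +
        c (Sum.inr (Sum.inl 0)) • (fun l => u (Sum.inl l)) ∈ S :=
      S.add_mem (S.sum_mem fun a _ => S.smul_mem _ (hS a)) (S.smul_mem _ huS)
    have h6 : ∑ s, c (Sum.inr (Sum.inr s)) • (Pi.single (e s) 1 : σ → E) = 0 := by
      have h7 : ∑ s, c (Sum.inr (Sum.inr s)) • (Pi.single (e s) 1 : σ → E) =
          -((∑ a, c (Sum.inl a) • fun l => v a (Sum.inl l)) +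
            c (Sum.inr (Sum.inl 0)) • (fun l => u (Sum.inl l))) := by
        rw [← add_assoc] at h4
        exact eq_neg_of_add_eq_zero_right h4
      refine Submodule.disjoint_def.1 h2 _ ?_ ?_
      · rw [h7]
        exact S.neg_mem h5
      · exact Submodule.sum_mem _ fun s _ =>
          Submodule.smul_mem _ _ (Submodule.subset_span ⟨s, rfl⟩)
    have h7 : ∀ s, c (Sum.inr (Sum.inr s)) = 0 := Fintype.linearIndependent_iff.1 h1 _ h6
    have h8 : ∑ s, c (Sum.inr (Sum.inr s)) • (uv (Sum.inl (e s)) : σ ⊕ κ → E) = 0 :=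
      Finset.sum_eq_zero fun s _ => by rw [h7 s, zero_smul]
    rw [h8, add_zero] at hc
    have h9 : c (Sum.inr (Sum.inl 0)) = 0 := by
      have h10 := congrArg lam hc
      rw [map_add, map_sum, map_smul, map_zero, smul_eq_mul] at h10
      have h11 : ∑ a, lam (c (Sum.inl a) • v a) = 0 :=
        Finset.sum_eq_zero fun a _ => by rw [map_smul, hl, smul_zero]
      rw [h11, zero_add] at h10
      exact (mul_eq_zero.1 h10).resolve_right hu
    rw [h9, zero_smul, add_zero] at hc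
    have h10 := Fintype.linearIndependent_iff.1 hv _ hc
    rintro (a | i | s)
    · exact h10 a
    · rw [Subsingleton.elim i 0]
      exact h9
    · exact h7 s
  obtain ⟨t, f, -, h4, h5⟩ := sel _ h3 (uv : σ ⊕ κ → σ ⊕ κ → E)
  have h6 : Submodule.span E (Set.range (Sum.elim (Sum.elim v (Sum.elim (fun _ : Fin 1 => u)
      fun s => (uv (Sum.inl (e s)) : σ ⊕ κ → E))) fun s => uv (f s))) = ⊤ := by
    rw [eq_top_iff, ← span_unit (E := E) (R := σ ⊕ κ), Submodule.span_le]
    rintro _ ⟨l, rfl⟩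
    exact h5 l
  obtain ⟨rr⟩ := card_of_basis _ h4 h6
  exact ⟨m, t, e, f, rr, hm, det_ne _ h4 rr⟩

/-- the rank of the columns of a flag -/
theorem rk4 {E σ κ : Type*} [Field E] [Fintype σ] [DecidableEq σ] [Fintype κ] {n : ℕ}
    (D : Sym σ (n + 1) → Derivation ℤ E E) (x y : σ → E) (g : Sym σ (n + 1) → κ → E)
    (ε : κ → E) :
    Module.finrank E ↥(Submodule.span E (Set.range (b3 x y ε)) ⊔
        IC (E := E) (fv D x y g) ⊤) ≤
      Module.finrank E ↥(Submodule.span E (Set.range (col D x))) +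
        Fintype.card σ + Fintype.card κ := by
  obtain ⟨W, hW⟩ : ∃ W, W = Submodule.span E (Set.range (b3 x y ε)) ⊔
    IC (E := E) (fv D x y g) ⊤ := ⟨_, rfl⟩
  obtain ⟨S, hS⟩ : ∃ S, S = Submodule.span E (Set.range (col D x)) := ⟨_, rfl⟩
  rw [← hW, ← hS]
  let p1 : ((σ ⊕ σ) ⊕ κ → E) →ₗ[E] (σ → E) :=
    LinearMap.funLeft E E fun l => Sum.inl (Sum.inl l)
  let p2 : ((σ ⊕ σ) ⊕ κ → E) →ₗ[E] (σ ⊕ κ → E) :=
    LinearMap.funLeft E E (Sum.elim (fun l => Sum.inl (Sum.inr l)) Sum.inr)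
  have h1 : W ≤ S.comap p1 := by
    rw [hW]
    refine sup_le ?_ ?_
    · rw [Submodule.span_le]
      rintro _ ⟨s, rfl⟩
      show p1 (b3 x y ε s) ∈ S
      fin_cases s
      · have h2 : p1 (b3 x y ε 0) = 0 := by
          funext l
          rfl
        show p1 (b3 x y ε 0) ∈ S
        rw [h2]
        exact S.zero_mem
      · have h2 : p1 (b3 x y ε 1) = col D x none := by
          funext l
          rfl
        show p1 (b3 x y ε 1) ∈ S
        rw [h2, hS]
        exact Submodule.subset_span ⟨none, rfl⟩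
      · have h2 : p1 (b3 x y ε 2) = 0 := by
          funext l
          rfl
        show p1 (b3 x y ε 2) ∈ S
        rw [h2]
        exact S.zero_mem
    · rintro _ ⟨f, -, rfl⟩
      show p1 (cP (fv D x y g) f) ∈ S
      rw [cP_apply, map_sum]
      refine S.sum_mem fun J _ => ?_
      rw [map_smul]
      refine S.smul_mem _ ?_
      have h2 : p1 (fv D x y g J) = col D x (some J) := by
        funext l
        rfl
      rw [h2, hS]
      exact Submodule.subset_span ⟨some J, rfl⟩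
  let F : W →ₗ[E] S × (σ ⊕ κ → E) :=
    LinearMap.prod ((p1.comp W.subtype).codRestrict S fun w => h1 w.2) (p2.comp W.subtype)
  have hF : Function.Injective F := by
    rw [← LinearMap.ker_eq_bot, LinearMap.ker_eq_bot']
    intro w hw
    have h2 : p1 (w : (σ ⊕ σ) ⊕ κ → E) = 0 := congrArg (fun z => ((z.1 : S) : σ → E)) hw
    have h3 : p2 (w : (σ ⊕ σ) ⊕ κ → E) = 0 := congrArg (fun z => z.2) hw
    apply Subtype.ext
    funext r
    rcases r with (l | l) | k
    · exact congrFun h2 l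
    · exact congrFun h3 (Sum.inl l)
    · exact congrFun h3 (Sum.inr k)
  have h2 := LinearMap.finrank_le_finrank_of_injective hF
  rw [Module.finrank_prod, Module.finrank_fintype_fun_eq_card, Fintype.card_sum] at h2
  omega

end Pool.Agent.Helper49.LN

end

section

/-!
# LN: completion of the columns of a point
-/

set_option autoImplicit false

namespace Pool.Agent.Helper49.LN

open scoped BigOperators
open MvPolynomial
open Pool.Agent.Helper8.LG (Bdd col MinorsVanish)

variable {E : Type*} [Field E] {σ : Type*} [Fintype σ] [DecidableEq σ] {κ : Type*} {n : ℕ}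

theorem cP_proj {q : ℕ} (V : Sym σ q → σ ⊕ κ → E) (S : Submodule E (σ → E))
    (hV : ∀ J, (fun l => V J (Sum.inl l)) ∈ S) (f : MvPolynomial σ E) :
    (fun l => cP V f (Sum.inl l)) ∈ S := by
  have h1 : (fun l => cP V f (Sum.inl l)) =
      ∑ J : Sym σ q, coeff (Multiset.toFinsupp (J : Multiset σ)) f •
        fun l => V J (Sum.inl l) := by
    rw [cP_apply]
    funext l
    simp only [Finset.sum_apply, Pi.smul_apply]
  rw [h1]
  exact sum_mem fun J _ => S.smul_mem _ (hV J)

omit [Fintype σ] [DecidableEq σ] in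
theorem indep_right {M A : Type*} [AddCommGroup M] [Module E M] (v : A → M)
    (hv : LinearIndependent E v) (w : Fin 0 → M) : LinearIndependent E (Sum.elim v w) := by
  refine hv.sum_type linearIndependent_empty_type ?_
  rw [Set.range_eq_empty w, Submodule.span_empty]
  exact disjoint_bot_right

omit [Fintype σ] [DecidableEq σ] in
theorem indep_mid {M A B : Type*} [AddCommGroup M] [Module E M] (v : A → M) (u : B → M)
    (hv : LinearIndependent E (Sum.elim v u)) (w : Fin 0 → M) :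
    LinearIndependent E (Sum.elim (Sum.elim v w) u) := by
  let f : (A ⊕ Fin 0) ⊕ B → A ⊕ B := Sum.elim (Sum.elim Sum.inl fun s => s.elim0) Sum.inr
  have hf : Function.Injective f := by
    rintro ((a | s) | b) ((a' | s') | b') h
    · rw [Sum.inl.inj h]
    · exact s'.elim0
    · exact absurd h Sum.inl_ne_inr
    · exact s.elim0
    · exact s.elim0
    · exact s.elim0
    · exact absurd h Sum.inr_ne_inl
    · exact s'.elim0
    · rw [Sum.inr.inj h]
  have h1 := hv.comp f hf
  have h2 : Sum.elim (Sum.elim v w) u = Sum.elim v u ∘ f := by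
    funext s
    rcases s with (a | s) | b
    · rfl
    · exact s.elim0
    · rfl
  rw [h2]
  exact h1

variable [Fintype κ] [DecidableEq κ]

theorem point_complete (V : Sym σ (n + 1) → σ ⊕ κ → E) (e₀ : σ ⊕ κ → E) (x : σ → E) (i₀ : σ)
    (lam : (σ ⊕ κ → E) →ₗ[E] E) (hl0 : lam e₀ = 0) (hl1 : ∀ g ∈ Ipt x, lam (cP V g) = 0)
    (hu : lam (la (E := E) V i₀) ≠ 0) (S : Submodule E (σ → E))
    (hS0 : (fun l => e₀ (Sum.inl l)) ∈ S) (hSV : ∀ J, (fun l => V J (Sum.inl l)) ∈ S)
    {i t r : ℕ} (β : Fin i → (Sym σ n × Sym σ n) × (σ × σ)) (v1 : Fin t → σ ⊕ κ → E)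
    (h1 : ∀ s, ∃ g ∈ Ipt x, v1 s = cP V g) (v2 : Fin r → σ ⊕ κ → E)
    (h2 : ∀ s, ∃ g ∈ Ipt x, v2 s = cP V g)
    (hlin : LinearIndependent E (Sum.elim (Sum.elim (Sum.elim (fun _ : Fin 1 => e₀)
      (fun p : Fin i × Fin 2 => bl V x i₀ (β p.1) p.2)) v1) v2)) :
    ∃ (p u : ℕ) (e : Fin p → σ) (f' : Fin u → σ ⊕ κ)
      (rr : TT (Fin 1) (Fin i) (Fin t) (Fin r) (Fin 1 ⊕ Fin p) (Fin u) ≃ σ ⊕ κ),
      p + Module.finrank E S = Fintype.card σ ∧
      dt rr (vv (fun _ => e₀) (fun p => bl V x i₀ (β p.1) p.2) v1 v2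
        (Sum.elim (fun _ => la (E := E) V i₀) fun s => uv (Sum.inl (e s)))
        fun s => uv (f' s)) ≠ 0 := by
  have hbl : ∀ p : Fin i × Fin 2, ∃ g ∈ Ipt x, bl V x i₀ (β p.1) p.2 = cP V g := fun p =>
    ⟨_, bl_mem x i₀ (β p.1) p.2, rfl⟩
  have hP : ∀ v, (∃ g ∈ Ipt x, v = cP V g) → (fun l => v (Sum.inl l)) ∈ S := by
    rintro _ ⟨g, -, rfl⟩
    exact cP_proj V S hSV g
  have hL : ∀ v, (∃ g ∈ Ipt x, v = cP V g) → lam v = 0 := by
    rintro _ ⟨g, hg, rfl⟩
    exact hl1 g hg
  obtain ⟨p, u, e, f, rr, e1, e2⟩ := rk3 _ hlin lam (by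
    rintro (((s | s) | s) | s)
    · exact hl0
    · exact hL _ (hbl s)
    · exact hL _ (h1 s)
    · exact hL _ (h2 s)) (la (E := E) V i₀) hu S (by
    rintro (((s | s) | s) | s)
    · exact hS0
    · exact hP _ (hbl s)
    · exact hP _ (h1 s)
    · exact hP _ (h2 s)) (cP_proj V S hSV _)
  exact ⟨p, u, e, f, rr, e1, e2⟩

end Pool.Agent.Helper49.LN

end

section

/-!
# LN: the dichotomy for one moving form, abstract version
-/

set_option autoImplicit false

namespace Pool.Agent.Helper49.LN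

open scoped BigOperators
open MvPolynomial
open Pool.Agent.Helper8.LG (Bdd col MinorsVanish)

theorem exists_j {E σ : Type*} [Field E] [Fintype σ] (O : ValuationSubring E) (x y : σ → E)
    (a b : σ) (hab : pl x y a b ≠ 0) (m : σ) (hm : x m ≠ 0) (hx : ∀ l, xt x m l ∈ O) :
    ∃ j, Loc O x y m j := by
  have hy : ∃ j, pl x y m j ≠ 0 := by
    by_contra hcon
    push Not at hcon
    apply hab
    have h1 : ∀ l, x m * y l = x l * y m := fun l => by
      have := hcon l
      unfold pl at this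
      exact sub_eq_zero.1 this
    have h2 : x m * pl x y a b = 0 := by
      unfold pl
      have ha := h1 a
      have hb := h1 b
      calc x m * (x a * y b - x b * y a) = x a * (x m * y b) - x b * (x m * y a) := by ring
        _ = 0 := by rw [ha, hb]; ring
    rcases mul_eq_zero.1 h2 with h | h
    · exact absurd h hm
    · exact h
  obtain ⟨j₀, hj₀⟩ := hy
  obtain ⟨j, hj, hj2⟩ := Pool.Agent.Helper74.LG.exists_max_coord O (fun l => pl x y m l) j₀ hj₀
  exact ⟨j, hm, hx, hj, hj2⟩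

theorem ka_w {E : Type*} [Field E] (lam D N : E) (hlam : lam ≠ 0) (q p k c kw a : ℕ)
    (h : D * lam ^ (q + p) = lam ^ (k + a) * N) (hk : p + c = k) (hc : c ≤ kw) :
    D * lam ^ q = lam ^ (kw + a) * (lam⁻¹ ^ (kw - c) * N) := by
  refine mul_right_cancel₀ (pow_ne_zero p hlam) ?_
  obtain ⟨s, hs⟩ : ∃ s, kw = c + s := ⟨kw - c, by omega⟩
  have h1 : kw - c = s := by omega
  have h2 : lam ^ s * lam⁻¹ ^ s = 1 := by
    rw [← mul_pow, mul_inv_cancel₀ hlam, one_pow]
  rw [h1, hs]
  calc D * lam ^ q * lam ^ p = D * lam ^ (q + p) := by rw [pow_add]; ring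
    _ = lam ^ (k + a) * N := h
    _ = lam ^ (c + a) * lam ^ p * 1 * N := by rw [← hk]; ring
    _ = lam ^ (c + a) * lam ^ p * (lam ^ s * lam⁻¹ ^ s) * N := by rw [h2]
    _ = lam ^ (c + s + a) * (lam⁻¹ ^ s * N) * lam ^ p := by ring

/-- the easy case -/
theorem ka_easy {E : Type*} [Field E] (O : ValuationSubring E) (G lam Δ : E)
    (k i t q k₁ : ℕ) (h : k + i + t + 1 ≤ q) (hlam : lam ≠ 0) (hl : lam⁻¹ ∈ O)
    (H : ∃ w ∈ O, Δ ^ k₁ * G * lam ^ q = lam ^ (k + i + t) * w) : Δ ^ k₁ * G * lam ∈ O := by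
  obtain ⟨w, hw, e⟩ := H
  obtain ⟨M, hM⟩ : ∃ M : ℕ, q = M + (k + i + t + 1) := ⟨q - (k + i + t + 1), by omega⟩
  have key : Δ ^ k₁ * G * lam = (lam⁻¹) ^ M * w := by
    refine mul_right_cancel₀ (pow_ne_zero q hlam) ?_
    have h3 : (lam⁻¹) ^ M * lam ^ M = 1 := by
      rw [← mul_pow, inv_mul_cancel₀ hlam, one_pow]
    calc Δ ^ k₁ * G * lam * lam ^ q = (Δ ^ k₁ * G * lam ^ q) * lam := by ring
      _ = lam ^ (k + i + t) * w * lam := by rw [e]
      _ = 1 * (lam ^ (k + i + t + 1) * w) := by ring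
      _ = ((lam⁻¹) ^ M * lam ^ M) * (lam ^ (k + i + t + 1) * w) := by rw [h3]
      _ = (lam⁻¹) ^ M * w * lam ^ (M + (k + i + t + 1)) := by ring
      _ = (lam⁻¹) ^ M * w * lam ^ q := by rw [← hM]
  rw [key]
  exact mul_mem (pow_mem hl M) hw

section

variable {E : Type*} [Field E] {σ : Type*} [Fintype σ] [DecidableEq σ] {κ : Type*}

theorem ka_comp {M M' : Type*} [AddCommGroup M] [Module E M] [AddCommGroup M'] [Module E M']
    {q : ℕ} (V : Sym σ q → M) (φ : M →ₗ[E] M') (f : MvPolynomial σ E) :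
    φ (cP V f) = cP (fun J => φ (V J)) f := by
  rw [cP_apply, cP_apply, map_sum]
  simp only [map_smul]

/-- the projection of the rows of a flag to those of the point -/
def fp : ((σ ⊕ σ) ⊕ κ → E) →ₗ[E] (σ ⊕ κ → E) := LinearMap.funLeft E E (Sum.map Sum.inl id)

omit [Fintype σ] [DecidableEq σ] in
theorem fp_tr (u v : σ → E) (w : κ → E) : fp (tr u v w) = Sum.elim u w := by
  funext r
  rcases r with l | k <;> rfl

omit [Fintype σ] [DecidableEq σ] in
theorem fp_fv {n : ℕ} (D : Sym σ (n + 1) → Derivation ℤ E E) (x y : σ → E)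
    (g : Sym σ (n + 1) → κ → E) (J : Sym σ (n + 1)) : fp (fv D x y g J) = pv D x g J := by
  funext r
  rcases r with l | k <;> rfl

end

/-- **The dichotomy.** -/
theorem key_abs {E : Type*} [Field E] [CharZero E] {σ : Type*} [Fintype σ] [DecidableEq σ]
    {κ : Type*} [Fintype κ] [DecidableEq κ] {n : ℕ}
    (D : Sym σ (n + 1) → Derivation ℤ E E) (x : σ → E) (i₀ : σ) (hx : x i₀ = 1)
    (g : Sym σ (n + 1) → κ → E) (ε : κ → E) (lam : (σ ⊕ κ → E) →ₗ[E] E)
    (hl0 : lam (pe x ε) = 0) (hl1 : ∀ f ∈ Ipt x, lam (cP (pv D x g) f) = 0)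
    (hu : lam (la (E := E) (pv D x g) i₀) ≠ 0) (kw T z : ℕ) (hkw : kw ≤ Fintype.card σ)
    (hS : Module.finrank E (Submodule.span E (Set.range (col D x))) ≤ kw)
    (h10 : 2 * Fintype.card σ + kw + Fintype.card κ + 52 ≤ 10 * (n + 1) ∨
      kw = Fintype.card σ)
    (hq : 3 * kw + Fintype.card κ ≤ 2 * (n + 1)) (hT : T + z + 2 ≤ n + 1) :
    (∃ G : E, G ≠ 0 ∧ ∀ (O : ValuationSubring E) (Δ : E) (m : σ) (g' : Sym σ (n + 1) → κ → E),
      x m ≠ 0 → (∀ l, xt x m l ∈ O) → LocG O Δ D x m g g' ε →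
      Δ ^ (5 * (Fintype.card σ + Fintype.card κ) ^ 3) * (G * x m) ∈ O) ∨
    ∃ y : σ → E, (∃ j l, pl x y j l ≠ 0) ∧
      Module.finrank E ↥(Submodule.span E (Set.range (b3 x y ε)) ⊔
        IC (fv D x y g) (Il (pl x y))) + (T + z + 1) ≤
      Module.finrank E ↥(Submodule.span E (Set.range (b3 x y ε)) ⊔
        IC (E := E) (fv D x y g) ⊤) := by
  classical
  have hk1 : 1 ≤ Fintype.card σ := Fintype.card_pos_iff.2 ⟨i₀⟩
  have hkk : Fintype.card σ + Fintype.card κ ≤ 5 * (Fintype.card σ + Fintype.card κ) ^ 3 := by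
    have h1 : Fintype.card σ + Fintype.card κ ≤ (Fintype.card σ + Fintype.card κ) ^ 3 :=
      Nat.le_self_pow (by norm_num) _
    omega
  have he0 : pe x ε ≠ 0 := by
    intro h
    have h1 : pe x ε (Sum.inl i₀) = 0 := by rw [h]; rfl
    have h2 : pe x ε (Sum.inl i₀) = x i₀ := rfl
    rw [h2, hx] at h1
    exact one_ne_zero h1
  obtain ⟨S, hSd⟩ : ∃ S, S = Submodule.span E (Set.range (col D x)) := ⟨_, rfl⟩
  have hS0 : (fun l => pe x ε (Sum.inl l)) ∈ S := by
    rw [hSd]
    exact Submodule.subset_span ⟨none, rfl⟩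
  have hSV : ∀ J, (fun l => pv D x g J (Sum.inl l)) ∈ S := by
    intro J
    rw [hSd]
    exact Submodule.subset_span ⟨some J, rfl⟩
  rw [← hSd] at hS
  obtain ⟨i, t, β, f, hlin, hspan, hline⟩ := ex_point (pv D x g) (pe x ε) he0 x i₀ hx
  have hlin' := indep_right _ hlin (Fin.elim0 : Fin 0 → σ ⊕ κ → E)
  obtain ⟨p, u, e, f', rr, hp, hdt⟩ := point_complete (pv D x g) (pe x ε) x i₀ lam hl0 hl1 hu S
    hS0 hSV β _ (fun s => ⟨_, sg_mem x i₀ (f s), rfl⟩) _ (fun s => s.elim0) hlin'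
  have hcard := Fintype.card_congr rr
  simp only [Fintype.card_sum, Fintype.card_prod, Fintype.card_fin] at hcard
  have hit : 2 * i + t + 2 ≤ kw + Fintype.card κ := by omega
  by_cases hA : kw + i + t + 1 ≤ n + 1
  · left
    refine ⟨_, hdt, ?_⟩
    intro O Δ m g' hm hxm hG
    have hl : (x m)⁻¹ ∈ O := by
      have h1 := hxm i₀
      unfold xt at h1
      rw [hx, one_div] at h1
      exact h1
    obtain ⟨N, hN, eq⟩ := g1_det hG hm hxm hx β f e f' rr (by
      intro q hq
      have h1 := hspan q hq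
      rw [Set.Sum.elim_range, Set.Sum.elim_range] at h1
      exact h1)
    rw [Fintype.card_sum, add_assoc (Fintype.card σ) i t] at eq
    have h2 := ka_w _ _ _ hm (n + 1) p (Fintype.card σ) (Module.finrank E S) kw (i + t) eq hp hS
    rw [← add_assoc] at h2
    have h3 := ka_easy O _ (x m) Δ kw i t (n + 1) (Fintype.card σ + Fintype.card κ) hA hm hl
      ⟨_, mul_mem (pow_mem hl _) hN, h2⟩
    obtain ⟨s, hs⟩ : ∃ s, 5 * (Fintype.card σ + Fintype.card κ) ^ 3 =
      s + (Fintype.card σ + Fintype.card κ) := ⟨_, (Nat.sub_add_cancel hkk).symm⟩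
    rw [hs, pow_add, mul_assoc]
    rw [mul_assoc] at h3
    exact mul_mem (pow_mem hG.bdd.1 _) h3
  · have ht : 2 ≤ t := by omega
    obtain ⟨y, a, ha, hI⟩ := hline ht
    -- the fan
    obtain ⟨K, hK, -, hlinK, hspanK⟩ := ex_fan (pv D x g) _ f x y i₀ a hx ha hlin hspan hI
    have hlinK' := indep_mid _ _ hlinK (Fin.elim0 : Fin 0 → σ ⊕ κ → E)
    obtain ⟨p₁, u₁, e₁, f₁, rr₁, hp₁, hdt₁⟩ := point_complete (pv D x g) (pe x ε) x i₀ lam hl0
      hl1 hu S hS0 hSV β _ (fun s => s.elim0) _ (fun s => ⟨_, fn_mem x i₀ a (K s), rfl⟩) hlinK'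
    -- the flag
    have hcomp : ∀ q : MvPolynomial σ E, fp (cP (fv D x y g) q) = cP (pv D x g) q := by
      intro q
      have h1 : (fun J => fp (fv D x y g J)) = pv D x g := funext fun J => fp_fv D x y g J
      rw [ka_comp, h1]
    obtain ⟨b, r, t', f₂, K₂, f₂', rr₂, hK₂, -, hdt₂, hI₂, hJ₂, hd1, hd2, hd3, hc2⟩ :=
      ex_flag (fv D x y g) x y ε i₀ a hx ha (lam.comp fp) (by
        intro s
        fin_cases s
        · show lam (fp (tr 0 x 0)) = 0
          rw [fp_tr]
          have : (Sum.elim (0 : σ → E) (0 : κ → E)) = 0 := by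
            funext r
            rcases r with l | k <;> rfl
          rw [this, map_zero]
        · show lam (fp (tr x 0 ε)) = 0
          rw [fp_tr]
          exact hl0
        · show lam (fp (tr 0 y 0)) = 0
          rw [fp_tr]
          have : (Sum.elim (0 : σ → E) (0 : κ → E)) = 0 := by
            funext r
            rcases r with l | k <;> rfl
          rw [this, map_zero]) (by
        intro q hq
        show lam (fp (cP (fv D x y g) q)) = 0
        rw [hcomp]
        exact hl1 q hq) (by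
        show lam (fp (cP (fv D x y g) _)) ≠ 0
        rw [hcomp]
        exact hu)
    by_cases hr : T + z ≤ r
    · right
      refine ⟨y, ⟨i₀, a, ha⟩, ?_⟩
      omega
    · left
      have hrk := rk4 D x y g ε
      rw [← hSd] at hrk
      obtain ⟨B, C, M, hM, hch⟩ := choice_pt_w (E := E) (Fintype.card σ) kw (Fintype.card κ)
        (n + 1) i t b r hkw hk1 h10 hit (by omega) (by omega) hq ht
      refine ⟨dt rr₁ _ ^ B * dt rr₂ _ ^ C / pl x y i₀ a ^ M,
        div_ne_zero (mul_ne_zero (pow_ne_zero _ hdt₁) (pow_ne_zero _ hdt₂))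
          (pow_ne_zero _ ha), ?_⟩
      intro O Δ m g' hm hxm hG
      have hl : (x m)⁻¹ ∈ O := by
        have h1 := hxm i₀
        unfold xt at h1
        rw [hx, one_div] at h1
        exact h1
      obtain ⟨j, hL⟩ := exists_j O x y i₀ a ha m hm hxm
      have hδ : pl x y i₀ a / pl x y m j = pl (xt x m) (yt x y m j) i₀ a := by
        rw [hL.pl_eq i₀ a, mul_div_cancel_left₀ _ hL.hρ]
      obtain ⟨N₁, hN₁, eq₁⟩ := g1_fan hG hL hx ha β K hK e₁ f₁ rr₁ (by
        intro q hq
        have h1 := hI q hq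
        rw [Set.Sum.elim_range] at h1
        exact h1) (by
        intro q hq
        have h1 := hspanK q hq
        rw [Set.Sum.elim_range, Set.Sum.elim_range] at h1
        exact h1)
      obtain ⟨N₂, hN₂, eq₂⟩ := g2_det hG hL i₀ a hx ha f₂ K₂ hK₂ f₂' rr₂ hI₂ hJ₂
      rw [Fintype.card_sum, add_assoc (Fintype.card σ) i t, mul_assoc (x m ^ _)] at eq₁
      have h2 := ka_w _ _ _ hm (n + 1) p₁ (Fintype.card σ) (Module.finrank E S) kw (i + t)
        eq₁ hp₁ hS
      rw [← add_assoc] at h2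
      have h4 : Fintype.card ((σ ⊕ σ) ⊕ κ) = 2 * Fintype.card σ + Fintype.card κ := by
        rw [Fintype.card_sum, Fintype.card_sum]
        ring
      rw [h4] at eq₂
      have h6 : ∀ X : E, X = x m ^ (kw + i + t) * ((x m)⁻¹ ^ (kw - Module.finrank E S) *
          (pl (xt x m) (yt x y m j) i₀ a ^ (t * (t + 1) / 2) * N₁)) →
          X = x m ^ (kw + i + t) * (pl x y i₀ a / pl x y m j) ^ (t * (t + 1) / 2) *
            ((x m)⁻¹ ^ (kw - Module.finrank E S) * N₁) := by
        intro X hX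
        rw [hX, hδ]
        ring
      have h7 : ∀ X : E, X * (x m ^ (n + 1) * pl x y m j) =
          x m ^ (2 + r) * pl x y m j ^ (Fintype.card σ + b) *
            pl (xt x m) (yt x y m j) i₀ a ^ (r * (r + 1) / 2) * N₂ →
          X * x m ^ (n + 1) * pl x y m j = x m ^ (2 + r) * pl x y m j ^ (Fintype.card σ + b) *
            (pl x y i₀ a / pl x y m j) ^ (r * (r + 1) / 2) * N₂ := by
        intro X hX
        rw [hδ, ← hX]
        ring
      have h3 := hch O _ _ (x m) (pl x y m j) Δ (pl x y i₀ a) (Fintype.card σ + Fintype.card κ)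
        (2 * Fintype.card σ + Fintype.card κ) hm hL.hρ ha
        (by rw [hδ]; exact hL.pl_mem i₀ a) hl
        ⟨_, mul_mem (pow_mem hl _) hN₁, h6 _ h2⟩ ⟨_, hN₂, h7 _ eq₂⟩
      have h5 := hM (Fintype.card σ + Fintype.card κ) (2 * Fintype.card σ + Fintype.card κ)
        le_rfl le_rfl
      obtain ⟨s, hs⟩ : ∃ s, 5 * (Fintype.card σ + Fintype.card κ) ^ 3 =
        s + (B * (Fintype.card σ + Fintype.card κ) +
          C * (2 * Fintype.card σ + Fintype.card κ)) := ⟨_, (Nat.sub_add_cancel h5).symm⟩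
      rw [hs, pow_add, mul_assoc]
      rw [mul_assoc] at h3
      exact mul_mem (pow_mem hG.bdd.1 _) h3

end Pool.Agent.Helper49.LN

end
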