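import Pool.Agent.Helper74.MG.T56
import Pool.Agent.Helper74.MG.T33
import Pool.Agent.Helper74.MG.T24

section

/-!
# LN: the dichotomy for one moving form
-/

set_option autoImplicit false

namespace Pool.Agent.Helper49.LN

open scoped BigOperators
open MvPolynomial
open Pool.Agent.Helper8.LG (mon form Ix Bdd Dual RowBdd MinorsVanish col)
open Pool.Agent.Helper8.LV (Fam Mov Over cv eul syz phi exists_functional cv_scale)
open Pool.Agent.Helper74.LN (KeyP)

section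

variable {E : Type*} [Field E] {σ ι τ : Type*} [Fintype σ] [DecidableEq σ] [Fintype ι]
  [DecidableEq ι] [Unique ι]

/-- the extra rows: the logarithmic ones and the corrections -/
abbrev Kp (ι τ : Type*) [Fintype ι] [DecidableEq ι] (Z : Finset ι) :=
  {i : ι // i ∈ (Zᶜ : Finset ι)} ⊕ τ

/-- the extra rows of the columns -/
def gK (n : ι → ℕ) {d : ι → ℕ} (a : (i : ι) → Sym σ (d i) → E)
    (D : Ix σ (fun i => n i + 1) → Derivation ℤ E E)
    (θ : τ → Ix σ (fun i => n i + 1) → E) (Z : Finset ι) (x : σ → E)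
    (J : Sym σ (n default + 1)) : Kp ι τ Z → E :=
  Sum.elim (fun i => D ⟨default, J⟩ (form (a i.1) x) / form (a i.1) x)
    fun j => θ j ⟨default, J⟩

/-- the extra rows of the Euler column -/
def εK (d : ι → ℕ) (Z : Finset ι) : Kp ι τ Z → E :=
  Sum.elim (fun i => (d i.1 : E)) fun _ => 0

/-- insertion of zero rows -/
def ext (Z : Finset ι) : (σ ⊕ Kp ι τ Z → E) →ₗ[E] ((σ ⊕ ι) ⊕ τ → E) :=
  LinearMap.pi fun r => Sum.elim (Sum.elim
    (fun l => (LinearMap.proj (Sum.inl l) : (σ ⊕ Kp ι τ Z → E) →ₗ[E] E))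
    (fun i => if h : i ∈ (Zᶜ : Finset ι) then
      (LinearMap.proj (Sum.inr (Sum.inl ⟨i, h⟩)) : (σ ⊕ Kp ι τ Z → E) →ₗ[E] E) else 0))
    (fun j => (LinearMap.proj (Sum.inr (Sum.inr j)) : (σ ⊕ Kp ι τ Z → E) →ₗ[E] E)) r

omit [Fintype σ] [DecidableEq σ] [Unique ι] in
theorem ext_pe (d : ι → ℕ) (Z : Finset ι) (x : σ → E) :
    ext (τ := τ) Z (pe x (εK d Z)) = eul d Z x := by
  funext r
  rcases r with (l | i) | j
  · rfl
  · by_cases h : i ∈ Z
    · have h1 : i ∉ (Zᶜ : Finset ι) := by simpa using h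
      show (if h : i ∈ (Zᶜ : Finset ι) then (LinearMap.proj (Sum.inr (Sum.inl ⟨i, h⟩)) :
        (σ ⊕ Kp ι τ Z → E) →ₗ[E] E) else 0) (pe x (εK d Z)) = if i ∈ Z then 0 else (d i : E)
      rw [dif_neg h1, if_pos h]
      rfl
    · have h1 : i ∈ (Zᶜ : Finset ι) := by simpa using h
      show (if h : i ∈ (Zᶜ : Finset ι) then (LinearMap.proj (Sum.inr (Sum.inl ⟨i, h⟩)) :
        (σ ⊕ Kp ι τ Z → E) →ₗ[E] E) else 0) (pe x (εK d Z)) = if i ∈ Z then 0 else (d i : E)
      rw [dif_pos h1, if_neg h]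
      rfl
  · rfl

theorem ext_pv (n : ι → ℕ) {d : ι → ℕ} (a : (i : ι) → Sym σ (d i) → E)
    (D : Ix σ (fun i => n i + 1) → Derivation ℤ E E)
    (θ : τ → Ix σ (fun i => n i + 1) → E) (Z : Finset ι) (x : σ → E)
    (J : Sym σ (n default + 1)) :
    ext Z (pv (fun J => D ⟨default, J⟩) x (gK n a D θ Z x) J) = cv n a D θ Z x ⟨default, J⟩ := by
  funext r
  rcases r with (l | i) | j
  · rfl
  · by_cases h : i ∈ Z
    · have h1 : i ∉ (Zᶜ : Finset ι) := by simpa using h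
      show (if h : i ∈ (Zᶜ : Finset ι) then (LinearMap.proj (Sum.inr (Sum.inl ⟨i, h⟩)) :
        (σ ⊕ Kp ι τ Z → E) →ₗ[E] E) else 0) _ = if i ∈ Z then 0 else _
      rw [dif_neg h1, if_pos h]
      rfl
    · have h1 : i ∈ (Zᶜ : Finset ι) := by simpa using h
      show (if h : i ∈ (Zᶜ : Finset ι) then (LinearMap.proj (Sum.inr (Sum.inl ⟨i, h⟩)) :
        (σ ⊕ Kp ι τ Z → E) →ₗ[E] E) else 0) _ = if i ∈ Z then 0 else _
      rw [dif_pos h1, if_neg h]
      rfl
  · rfl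

/-- the column of `X^I (x_j X_l - x_l X_j)` -/
theorem cP_hf {M : Type*} [AddCommGroup M] [Module E M] {n : ℕ} (V : Sym σ (n + 1) → M)
    (x : σ → E) (I : Sym σ n) (j l : σ) :
    cP V (mo E (I : Multiset σ) * hf x j l) = x j • V (l ::ₛ I) - x l • V (j ::ₛ I) := by
  have h1 : ∀ k : σ, mo E (I : Multiset σ) * X k = mo E ((k ::ₛ I : Sym σ (n + 1)) :
      Multiset σ) := by
    intro k
    rw [Sym.coe_cons]
    unfold mo
    rw [Multiset.map_cons, Multiset.prod_cons, mul_comm]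
  unfold hf
  rw [mul_sub, mul_smul_comm, mul_smul_comm, map_sub, map_smul, map_smul, h1, h1, cP_mo, cP_mo]

theorem la_eq {M : Type*} [AddCommGroup M] [Module E M] {n : ℕ} (V : Sym σ n → M) (i : σ) :
    la (E := E) V i = V (Sym.replicate n i) := by
  have h1 : (X i : MvPolynomial σ E) ^ n = mo E ((Sym.replicate n i : Sym σ n) : Multiset σ) := by
    unfold mo
    rw [Sym.coe_replicate, Multiset.map_replicate, Multiset.prod_replicate]
  unfold la
  rw [h1, cP_mo]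

variable [Fintype τ]

theorem key_one [CharZero E] (d b : ι → ℕ) (n : ι → ℕ)
    (a A : (i : ι) → Sym σ (d i) → E) (p : (i : ι) → Sym σ (b i) → E)
    (h : (i : ι) → Sym σ (n i + 1) → E) (D : Ix σ (fun i => n i + 1) → Derivation ℤ E E)
    (jj : τ → Ix σ (fun i => n i + 1)) (θ : τ → Ix σ (fun i => n i + 1) → E)
    (hD : Dual (fun i => n i + 1) h D jj θ) (hM : Mov d b (fun i => n i + 1) a A p h D)
    (Z : Finset ι) (x : σ → E) (i₀ : σ) (hx : x i₀ = 1)
    (hZ : ∀ i ∈ Z, form (a i) x = 0) (hU : ∀ i ∉ Z, form (a i) x ≠ 0)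
    (hP : ∀ i, form (p i) x ≠ 0) (w T : ℕ)
    (h0 : w + 1 = Fintype.card σ ∨
      2 * Fintype.card σ + w + Fintype.card τ + Zᶜ.card + 53 ≤ 10 * (n default + 1))
    (h1 : 3 * w + 3 + Zᶜ.card + Fintype.card τ ≤ 2 * (n default + 1))
    (h2 : T + Zᶜ.card + 2 ≤ n default + 1) (hmw : MinorsVanish D x w) :
    (∃ G : E, G ≠ 0 ∧
      KeyP (5 * (Fintype.card σ + Fintype.card ι + Fintype.card τ) ^ 3) d a D θ Z x G) ∨
      ∃ y : σ → E, (∃ j l, pl x y j l ≠ 0) ∧
        Module.finrank E ↥(Submodule.span E (Set.range (b3 x y (εK (τ := τ) d Z))) ⊔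
          IC (fv (fun J => D ⟨default, J⟩) x y (gK n a D θ Z x)) (Il (pl x y))) +
            (T + Fintype.card {i : ι // i ∈ (Zᶜ : Finset ι)} + 1) ≤
        Module.finrank E ↥(Submodule.span E (Set.range (b3 x y (εK (τ := τ) d Z))) ⊔
          IC (E := E) (fv (fun J => D ⟨default, J⟩) x y (gK n a D θ Z x)) ⊤) := by
  classical
  have hcz : Fintype.card {i : ι // i ∈ (Zᶜ : Finset ι)} = Zᶜ.card := Fintype.card_coe _
  have hck : Fintype.card (Kp ι τ Z) = Zᶜ.card + Fintype.card τ := by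
    rw [Fintype.card_sum, hcz]
  have hcu : Zᶜ.card ≤ Fintype.card ι := Finset.card_le_univ _
  obtain ⟨lam, hl1, hl2, hl3⟩ := exists_functional n a A p h D jj θ hD hM Z x hZ hU
  let lam' : (σ ⊕ Kp ι τ Z → E) →ₗ[E] E := (LinearMap.proj default).comp (lam.comp (ext Z))
  have hlv : ∀ J, lam' (pv (fun J => D ⟨default, J⟩) x (gK n a D θ Z x) J) =
      -(form (p default) x * mon x J) := by
    intro J
    show lam (ext Z _) default = _
    rw [ext_pv, hl2, Pi.single_eq_same]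
  have hmon : ∀ (k : σ) (I : Sym σ (n default)), mon x (k ::ₛ I) = x k * mon x I := by
    intro k I
    unfold mon
    rw [Sym.coe_cons, Multiset.map_cons, Multiset.prod_cons]
  have hmem : ∀ f ∈ Ipt x, lam' (cP (pv (fun J => D ⟨default, J⟩) x (gK n a D θ Z x)) f) = 0 := by
    intro f hff
    have h3 : cP (pv (fun J => D ⟨default, J⟩) x (gK n a D θ Z x)) f ∈ LinearMap.ker lam' := by
      refine cP_ideal_mem _ _ (n default) 1 rfl (fun p : σ × σ => hf x p.1 p.2)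
        (fun p => hf_hom x p.1 p.2) (fun p I => ?_) f hff
      rw [cP_hf, LinearMap.mem_ker, map_sub, map_smul, map_smul, hlv, hlv, hmon, hmon]
      simp only [smul_eq_mul]
      ring
    exact h3
  have hla : lam' (la (E := E) (pv (fun J => D ⟨default, J⟩) x (gK n a D θ Z x)) i₀) ≠ 0 := by
    rw [la_eq, hlv]
    have h3 : mon x (Sym.replicate (n default + 1) i₀) = 1 := by
      unfold mon
      rw [Sym.coe_replicate, Multiset.map_replicate, Multiset.prod_replicate, hx, one_pow]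
    rw [h3, mul_one, neg_ne_zero]
    exact hP default
  have hrk : Module.finrank E (Submodule.span E (Set.range
      (col (fun J : Sym σ (n default + 1) => D ⟨default, J⟩) x))) ≤ min (w + 1)
        (Fintype.card σ) := by
    refine le_min ?_ ?_
    · refine rk1 _ x w ?_
      intro r c
      have h3 := hmw r (fun t => (c t).map fun J => ⟨default, J⟩)
      refine Eq.trans ?_ h3
      refine congrArg Matrix.det ?_
      ext s t
      simp only [Matrix.of_apply]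
      rcases hct : c t with _ | J
      · rfl
      · rfl
    · refine le_trans (Submodule.finrank_le _) ?_
      rw [Module.finrank_fintype_fun_eq_card]
  rcases key_abs (fun J : Sym σ (n default + 1) => D ⟨default, J⟩) x i₀ hx (gK n a D θ Z x)
    (εK d Z) lam' (by
      show lam (ext Z _) default = 0
      rw [ext_pe, hl1]
      rfl) hmem hla (min (w + 1) (Fintype.card σ)) T
    (Fintype.card {i : ι // i ∈ (Zᶜ : Finset ι)}) (min_le_right _ _) hrk (by
      rw [hck]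
      rcases h0 with h0 | h0
      · right
        rw [← h0, min_self]
      · left
        have h3 := min_le_left (w + 1) (Fintype.card σ)
        omega) (by
      rw [hck]
      have h3 := min_le_left (w + 1) (Fintype.card σ)
      omega) (by
      rw [hcz]
      exact h2) with ⟨G, hG, hG2⟩ | ⟨y, hy, hfl⟩
  · left
    refine ⟨G, hG, ?_⟩
    intro O Δ hB hθ hR l
    obtain ⟨m, hm, hm2⟩ := Pool.Agent.Helper74.LG.exists_max_coord O x i₀ (by
      rw [hx]
      exact one_ne_zero)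
    have h3 := hG2 O Δ m (gK n a D θ Z fun l => x l / x m) hm hm2 ⟨⟨hB.1, fun J => hB.2 _⟩, ?_,
      ?_, ?_⟩
    · obtain ⟨s, hs⟩ : ∃ s, 5 * (Fintype.card σ + Fintype.card ι + Fintype.card τ) ^ 3 =
          s + 5 * (Fintype.card σ + Fintype.card (Kp ι τ Z)) ^ 3 := by
        refine ⟨_, (Nat.sub_add_cancel ?_).symm⟩
        refine Nat.mul_le_mul_left 5 (Nat.pow_le_pow_left ?_ 3)
        omega
      have h4 : G * x l = G * x m * (x l / x m) := by
        field_simp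
      rw [hs, pow_add, h4]
      have h5 : Δ ^ s * Δ ^ (5 * (Fintype.card σ + Fintype.card (Kp ι τ Z)) ^ 3) *
          (G * x m * (x l / x m)) = Δ ^ s *
          (Δ ^ (5 * (Fintype.card σ + Fintype.card (Kp ι τ Z)) ^ 3) * (G * x m)) *
          (x l / x m) := by ring
      rw [h5]
      exact mul_mem (mul_mem (pow_mem hB.1 _) h3) (hm2 l)
    · intro J
      have h4 := cv_scale n a D θ Z x hU (x m) hm ⟨default, J⟩
      funext k
      rcases k with i | j
      · have hi : i.1 ∉ Z := Finset.mem_compl.1 i.2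
        have h5 := congrFun h4 (Sum.inl (Sum.inr i.1))
        have h6 : cv n a D θ Z x ⟨default, J⟩ (Sum.inl (Sum.inr i.1)) =
            D ⟨default, J⟩ (form (a i.1) x) / form (a i.1) x := if_neg hi
        have h7 : (phi (x m) (cv n a D θ Z (fun l => x l / x m) ⟨default, J⟩) +
            (D ⟨default, J⟩ (x m) / x m) • eul d Z x : (σ ⊕ ι) ⊕ τ → E)
              (Sum.inl (Sum.inr i.1)) =
            1 * (if i.1 ∈ Z then 0 else D ⟨default, J⟩ (form (a i.1) fun l => x l / x m) /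
              form (a i.1) fun l => x l / x m) +
            (D ⟨default, J⟩ (x m) / x m) * (if i.1 ∈ Z then 0 else (d i.1 : E)) := rfl
        rw [h6, h7, if_neg hi, if_neg hi, one_mul] at h5
        exact h5
      · show θ j ⟨default, J⟩ = θ j ⟨default, J⟩ + (D ⟨default, J⟩ (x m) / x m) * 0
        rw [mul_zero, add_zero]
    · intro J k
      rcases k with i | j
      · have hi : i.1 ∉ Z := Finset.mem_compl.1 i.2
        have h4 := (hR i.1 hi m hm hm2).2 ⟨default, J⟩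
        rw [pow_zero, div_one, one_mul] at h4
        exact h4
      · exact hθ j _
    · intro k
      rcases k with i | j
      · exact natCast_mem O (d i.1)
      · exact zero_mem O
  · right
    exact ⟨y, hy, hfl⟩

end

end Pool.Agent.Helper49.LN

end

section

/-!
# QS: the determinant of a point with general single columns, and the numerics at one valuation ring
-/

set_option autoImplicit false

namespace Pool.Agent.Helper6.QS

open scoped BigOperators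
open MvPolynomial
open Pool.Agent.Helper8.LG (Bdd)
open Pool.Agent.Helper49.LN

section

variable {E : Type*} [Field E] {σ : Type*} {κ : Type*} {n : ℕ}
  {O : ValuationSubring E} {Δ : E} {D : Sym σ (n + 1) → Derivation ℤ E E}
  {x y : σ → E} {m j : σ} {g g' : Sym σ (n + 1) → κ → E} {ε : κ → E}
  [Fintype σ] [DecidableEq σ] [Fintype κ] [DecidableEq κ]

/-- **The determinant of a point at one valuation ring**, single columns
`X^I (x_j X_l - x_l X_j)` with arbitrary `j` (copy of `g1_det`). -/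
theorem g1_sj (hG : LocG O Δ D x m g g' ε) (hm : x m ≠ 0) (hxm : ∀ l, xt x m l ∈ O) {i₀ : σ}
    (hx : x i₀ = 1) {i t p u : ℕ} (β : Fin i → (Sym σ n × Sym σ n) × (σ × σ))
    (fa : Fin t → σ) (f : Fin t → Sym σ n × σ) (e : Fin p → σ) (f' : Fin u → σ ⊕ κ)
    (rr : TT (Fin 1) (Fin i) (Fin t) (Fin 0) (Fin 1 ⊕ Fin p) (Fin u) ≃ σ ⊕ κ)
    (hJ : ∀ p ∈ Ipt x, cP (pv D x g) p ∈ Submodule.span E
        ((Set.range fun _ : Fin 1 => pe x ε) ∪
        (Set.range fun p : Fin i × Fin 2 => bl (pv D x g) x i₀ (β p.1) p.2) ∪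
        Set.range fun s => sg (pv D x g) x (fa s) (f s))) :
    ∃ N ∈ O, Δ ^ Fintype.card (σ ⊕ κ) * dt rr (vv (fun _ => pe x ε)
      (fun p => bl (pv D x g) x i₀ (β p.1) p.2) (fun s => sg (pv D x g) x (fa s) (f s)) Fin.elim0
      (Sum.elim (fun _ => la (E := E) (pv D x g) i₀) fun s => uv (Sum.inl (e s)))
      fun s => uv (f' s)) * x m ^ (n + 1 + p) =
      x m ^ (Fintype.card σ + i + t) * N := by
  classical
  have hxi : (x m)⁻¹ ∈ O := by
    have h1 := hxm i₀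
    unfold xt at h1
    rw [hx, one_div] at h1
    exact h1
  obtain ⟨N, hN, eq⟩ := det_left (T2 := Fin 0) (U2 := Fin 0) O Δ rr (gp (x m))
    (fun _ => pe x ε) (fun _ => pe (xt x m) ε) (fun _ => 1) (fun _ => 0) (fun _ => by omega)
    (fun _ => by
      rw [one_smul, ← pe_trans x m hm ε, sub_self]
      exact Submodule.zero_mem _)
    (fun p => bl (pv D x g) x i₀ (β p.1) p.2)
    (fun p => wb (pv D (xt x m) g') i₀ (β p.1) p.2)
    (fun k s => x (if s = 0 then (β k).2.1 else (β k).2.2))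
    (fun k s => bl_trans hG hm hx (β k) s) (x m) hm hxi
    (fun k s => by
      have h1 := hxm (if s = 0 then (β k).2.1 else (β k).2.2)
      unfold xt at h1
      rwa [div_eq_inv_mul] at h1)
    (fun s => sg (pv D x g) x (fa s) (f s))
    (fun s => sg (pv D (xt x m) g') (xt x m) (fa s) (f s)) (fun _ => x m)
    (fun s => sg_trans hG hm (fa s) (f s))
    Fin.elim0 Fin.elim0 (fun _ s => s.elim0) 1
    (by
      intro g _
      refine ⟨1, one_mem O, ?_⟩
      simp) (fun s => s.elim0)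
    (Sum.elim (fun _ => la (E := E) (pv D x g) i₀) fun s => uv (Sum.inl (e s)))
    (Sum.elim (fun _ => la (E := E) (pv D (xt x m) g') m) fun s => uv (Sum.inl (e s)))
    (Sum.elim (fun _ => (x m ^ (n + 1))⁻¹) fun _ => (x m)⁻¹)
    (by
      rintro (s | s)
      · exact la_trans hG hm hx _ _
          (Submodule.span_mono (fun v hv => Or.inl (Or.inl (Or.inl hv)))) hJ
          (Submodule.span_mono (by
            rintro v ((hv | hv) | hv)
            · exact Or.inl (Or.inl (Or.inl hv))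
            · exact Or.inl (Or.inl (Or.inr hv))
            · exact Or.inl (Or.inr hv)))
      · show uv (Sum.inl (e s)) - (x m)⁻¹ • gp (x m) (uv (Sum.inl (e s))) ∈ _
        have h1 := uv_trans (κ := κ) (x m) hm (Sum.inl (e s))
        have h2 : au (κ := κ) (x m) (Sum.inl (e s)) = (x m)⁻¹ := rfl
        rw [h2] at h1
        rw [← h1, sub_self]
        exact Submodule.zero_mem _)
    (fun s => uv (f' s)) (fun s => uv (f' s)) (fun s => au (x m) (f' s))
    (fun s => au_mem hxm hx (f' s)) (fun s => uv_trans (x m) hm (f' s))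
    (fun _ l => pe_bdd hG hxm l) (fun p l => wb_bdd hG hxm i₀ (β p.1) p.2 l)
    (fun s l => sg_bdd hG hxm (fa s) (f s) l) (fun s => s.elim0)
    (by
      rintro (s | s) l
      · exact cPp_bdd hG hxm _ ((IntP.X O m).pow _) l
      · exact uv_bdd hG.bdd.1 _ l)
    (fun s l => uv_bdd hG.bdd.1 (f' s) l)
  refine ⟨N, hN, ?_⟩
  rw [eq, det_gp]
  simp only [Finset.prod_const, Finset.card_univ, Fintype.card_fin, one_pow, one_mul, pow_one,
    Fintype.prod_sum_type, Sum.elim_inl, Sum.elim_inr]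
  have h3 : x m ^ (n + 1) ≠ 0 := pow_ne_zero _ hm
  have h4 : x m ^ p ≠ 0 := pow_ne_zero _ hm
  rw [inv_pow, pow_add (x m) (n + 1) p, pow_add, pow_add]
  generalize hA1 : x m ^ (n + 1) = A1 at *
  generalize hA2 : x m ^ p = A2 at *
  field_simp
  ring

end

/-- the numbers -/
theorem kd_num (K kw q i t b r : ℕ) (h : (K = 4 ∧ q = 5 ∧ kw = 4 ∧ i = 0 ∧ t = 2 ∧ r ≤ 2) ∨
      (K = 5 ∧ q = 7 ∧ kw = 5 ∧ i = 0 ∧ t = 3 ∧ r ≤ 4) ∨
      (K = 6 ∧ q = 8 ∧ ((kw = 6 ∧ i = 0 ∧ t = 4) ∨ (kw = 6 ∧ i = 1 ∧ t = 2) ∨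
        (kw = 5 ∧ i = 0 ∧ t = 3)) ∧ r ≤ 5) ∨
      (K = 7 ∧ q = 10 ∧ ((kw = 7 ∧ i = 1 ∧ t = 3) ∨ (kw = 7 ∧ i = 0 ∧ t = 5) ∨
        (kw = 6 ∧ i = 0 ∧ t = 4)) ∧ r ≤ 7)) (hb : b + r + 4 ≤ kw + K) :
    ∃ B C m s : ℕ, C + m = C * (K + b) ∧
      m + s = B * (t * (t + 1) / 2) + C * (r * (r + 1) / 2) ∧
      B * (kw + i + t) + C * (2 + r) + 1 ≤ q * (B + C) := by
  by_cases hB : K + b ≤ 1 + r * (r + 1) / 2
  · refine ⟨0, 1, K + b - 1, r * (r + 1) / 2 - (K + b - 1), by omega, by omega, ?_⟩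
    rcases h with ⟨rfl, rfl, rfl, rfl, rfl, h⟩ | ⟨rfl, rfl, rfl, rfl, rfl, h⟩ |
      ⟨rfl, rfl, ⟨rfl, rfl, rfl⟩ | ⟨rfl, rfl, rfl⟩ | ⟨rfl, rfl, rfl⟩, h⟩ |
      ⟨rfl, rfl, ⟨rfl, rfl, rfl⟩ | ⟨rfl, rfl, rfl⟩ | ⟨rfl, rfl, rfl⟩, h⟩ <;> omega
  · obtain ⟨v, hv⟩ : ∃ v, v = r * (r + 1) / 2 := ⟨_, rfl⟩
    obtain ⟨u, hu⟩ : ∃ u, u = t * (t + 1) / 2 := ⟨_, rfl⟩
    rw [← hv, ← hu]
    rw [← hv] at hB
    refine ⟨K + b - 1 - v, u, (K + b - 1 - v) * u + u * v, 0, ?_, by ring, ?_⟩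
    · have h1 : K + b = 1 + v + (K + b - 1 - v) := by omega
      conv_rhs => rw [h1]
      ring
    · rcases h with ⟨rfl, rfl, rfl, rfl, rfl, h⟩ | ⟨rfl, rfl, rfl, rfl, rfl, h⟩ |
        ⟨rfl, rfl, ⟨rfl, rfl, rfl⟩ | ⟨rfl, rfl, rfl⟩ | ⟨rfl, rfl, rfl⟩, h⟩ |
        ⟨rfl, rfl, ⟨rfl, rfl, rfl⟩ | ⟨rfl, rfl, rfl⟩ | ⟨rfl, rfl, rfl⟩, h⟩ <;>
        norm_num at hu <;> subst hu <;> interval_cases r <;> norm_num at hv <;> subst hv <;> omega

/-- The end of the dichotomy at one valuation ring (copy of `choice_pt_w` with given exponents). -/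
theorem kd_pt {E : Type*} [Field E] (k kw q i t b r B C m s : ℕ)
    (e1 : C + m = C * (k + b)) (e2 : m + s = B * (t * (t + 1) / 2) + C * (r * (r + 1) / 2))
    (e3 : B * (kw + i + t) + C * (2 + r) + 1 ≤ q * (B + C))
    (O : ValuationSubring E) (G₁ G₂ lam rho Δ P : E) (k₁ k₂ : ℕ) (hlam : lam ≠ 0)
    (hrho : rho ≠ 0) (hP : P ≠ 0) (hy : P / rho ∈ O) (hl : lam⁻¹ ∈ O)
    (h1 : ∃ w ∈ O, Δ ^ k₁ * G₁ * lam ^ q =
          lam ^ (kw + i + t) * (P / rho) ^ (t * (t + 1) / 2) * w)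
    (h2 : ∃ w ∈ O, Δ ^ k₂ * G₂ * lam ^ q * rho =
          lam ^ (2 + r) * rho ^ (k + b) * (P / rho) ^ (r * (r + 1) / 2) * w) :
    Δ ^ (B * k₁ + C * k₂) * (G₁ ^ B * G₂ ^ C / P ^ m) * lam ∈ O := by
  obtain ⟨w₁, hw₁, h₁⟩ := h1
  obtain ⟨w₂, hw₂, h₂⟩ := h2
  obtain ⟨y, hy'⟩ : ∃ y : E, y = P / rho := ⟨_, rfl⟩
  have hPy : P = y * rho := by rw [hy', div_mul_cancel₀ _ hrho]
  have hy0 : y ≠ 0 := by
    rw [hy']
    exact div_ne_zero hP hrho
  rw [← hy'] at h₁ h₂ hy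
  obtain ⟨M, hM⟩ : ∃ M : ℕ, q * (B + C) = M + (B * (kw + i + t) + C * (2 + r) + 1) :=
    ⟨q * (B + C) - (B * (kw + i + t) + C * (2 + r) + 1), by omega⟩
  have key : Δ ^ (B * k₁ + C * k₂) * (G₁ ^ B * G₂ ^ C / P ^ m) * lam =
      (lam⁻¹) ^ M * y ^ s * (w₁ ^ B * w₂ ^ C) := by
    have hne : lam ^ (q * (B + C)) * rho ^ C * P ^ m ≠ 0 :=
      mul_ne_zero (mul_ne_zero (pow_ne_zero _ hlam) (pow_ne_zero _ hrho)) (pow_ne_zero _ hP)
    refine mul_right_cancel₀ hne ?_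
    have hL : Δ ^ (B * k₁ + C * k₂) * (G₁ ^ B * G₂ ^ C / P ^ m) * lam *
        (lam ^ (q * (B + C)) * rho ^ C * P ^ m) =
        (Δ ^ k₁ * G₁ * lam ^ q) ^ B * (Δ ^ k₂ * G₂ * lam ^ q * rho) ^ C * lam := by
      rw [div_eq_mul_inv]
      have : (P ^ m)⁻¹ * P ^ m = 1 := inv_mul_cancel₀ (pow_ne_zero _ hP)
      calc Δ ^ (B * k₁ + C * k₂) * (G₁ ^ B * G₂ ^ C * (P ^ m)⁻¹) * lam *
            (lam ^ (q * (B + C)) * rho ^ C * P ^ m) =
            Δ ^ (B * k₁ + C * k₂) * (G₁ ^ B * G₂ ^ C) * lam *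
            (lam ^ (q * (B + C)) * rho ^ C) * ((P ^ m)⁻¹ * P ^ m) := by ring
        _ = _ := by
          rw [this, mul_one]
          ring
    have hR : (lam⁻¹) ^ M * y ^ s * (w₁ ^ B * w₂ ^ C) *
        (lam ^ (q * (B + C)) * rho ^ C * P ^ m) =
        lam ^ (B * (kw + i + t) + C * (2 + r) + 1) * rho ^ (C + m) * y ^ (m + s) *
          (w₁ ^ B * w₂ ^ C) := by
      have h3 : (lam⁻¹) ^ M * lam ^ M = 1 := by
        rw [← mul_pow, inv_mul_cancel₀ hlam, one_pow]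
      rw [hM, hPy]
      calc (lam⁻¹) ^ M * y ^ s * (w₁ ^ B * w₂ ^ C) *
            (lam ^ (M + (B * (kw + i + t) + C * (2 + r) + 1)) * rho ^ C * (y * rho) ^ m) =
            ((lam⁻¹) ^ M * lam ^ M) * (lam ^ (B * (kw + i + t) + C * (2 + r) + 1) *
              rho ^ (C + m) * y ^ (m + s) * (w₁ ^ B * w₂ ^ C)) := by ring
        _ = _ := by rw [h3, one_mul]
    rw [hL, hR, h₁, h₂, e1, e2]
    ring
  rw [key]
  exact mul_mem (mul_mem (pow_mem hl M) (pow_mem hy s))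
    (mul_mem (pow_mem hw₁ B) (pow_mem hw₂ C))

/-- the special case of the quintic surfaces: the line is bounded -/
theorem kd_ln {E : Type*} [Field E] (b : ℕ) (hb : b ≤ 1)
    (O : ValuationSubring E) (G₂ lam rho Δ P z : E) (k₂ : ℕ) (hlam : lam ≠ 0)
    (hrho : rho ≠ 0) (hP : P ≠ 0) (hy : P / rho ∈ O) (hz : z / rho ∈ O)
    (h2 : ∃ w ∈ O, Δ ^ k₂ * G₂ * lam ^ 5 * rho =
          lam ^ (2 + 3) * rho ^ (4 + b) * (P / rho) ^ 6 * w) :
    Δ ^ k₂ * (G₂ / P ^ (4 + b) * z) ∈ O := by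
  obtain ⟨w, hw, h⟩ := h2
  have h5 : lam ^ 5 ≠ 0 := pow_ne_zero _ hlam
  have h3 : Δ ^ k₂ * G₂ * rho = rho ^ (4 + b) * (P / rho) ^ 6 * w := by
    refine mul_right_cancel₀ h5 ?_
    calc Δ ^ k₂ * G₂ * rho * lam ^ 5 = Δ ^ k₂ * G₂ * lam ^ 5 * rho := by ring
      _ = _ := by rw [h]; ring
  have h4 : Δ ^ k₂ * (G₂ / P ^ (4 + b) * z) = (P / rho) ^ (2 - b) * (z / rho) * w := by
    have h6 : P ^ (4 + b) = (P / rho) ^ (4 + b) * rho ^ (4 + b) := by
      rw [← mul_pow, div_mul_cancel₀ _ hrho]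
    have h7 : (P / rho) ^ 6 = (P / rho) ^ (2 - b) * (P / rho) ^ (4 + b) := by
      rw [← pow_add]
      congr 1
      omega
    have h8 : (P / rho) ^ (4 + b) ≠ 0 := pow_ne_zero _ (div_ne_zero hP hrho)
    have h9 : rho ^ (4 + b) ≠ 0 := pow_ne_zero _ hrho
    have h10 : Δ ^ k₂ * (G₂ / P ^ (4 + b) * z) =
        (Δ ^ k₂ * G₂ * rho) * (z / rho) / P ^ (4 + b) := by
      field_simp
    rw [h10, h3, h6, h7]
    field_simp
  rw [h4]
  exact mul_mem (mul_mem (pow_mem hy _) hz) hw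

end Pool.Agent.Helper6.QS

end
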