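import Pool.Agent.Helper74.MG.T53
import Pool.Agent.Helper74.MG.T33
import Pool.Agent.Helper74.MG.T54
import Pool.Agent.Helper74.MG.T35
import Pool.Agent.Helper74.MG.T19

section

/-!
# LN: from the flag to `Moves`
-/

set_option autoImplicit false

namespace Pool.Agent.Helper49.LN

open scoped BigOperators
open MvPolynomial
open Pool.Agent.Helper74.LN (Lam jc thr w4 Jsp Asp Moves)

variable {E : Type*} [Field E] {σ : Type*} [Fintype σ] [DecidableEq σ] {n : ℕ}

/-- (tm0) -/
theorem lam_eq_cP {M : Type*} [AddCommGroup M] [Module E M] {q : ℕ} (V : Sym σ q → M) :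
    Lam (E := E) V = cP V := by
  refine LinearMap.ext fun g => ?_
  rw [Pool.Agent.Helper74.LN.lam_apply, cP_apply]
  rfl

/-- `cP` and linear maps -/
theorem cP_comp {M N : Type*} [AddCommGroup M] [Module E M] [AddCommGroup N] [Module E N] {q : ℕ}
    (f : M →ₗ[E] N) (V : Sym σ q → M) (g : MvPolynomial σ E) :
    f (cP V g) = cP (fun J => f (V J)) g := by
  rw [cP_apply, cP_apply, map_sum]
  simp only [map_smul]

/-- the columns of an ideal under a linear map -/
theorem IC_map {M N : Type*} [AddCommGroup M] [Module E M] [AddCommGroup N] [Module E N] {q : ℕ}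
    (f : M →ₗ[E] N) (V : Sym σ q → M) (I : Ideal (MvPolynomial σ E)) :
    (IC V I).map f = IC (fun J => f (V J)) I := by
  unfold IC
  rw [← Submodule.map_comp]
  congr 1
  exact LinearMap.ext fun g => cP_comp f V g

/-- all columns -/
theorem IC_top {M : Type*} [AddCommGroup M] [Module E M] {q : ℕ} (V : Sym σ q → M) :
    IC (E := E) V ⊤ = Submodule.span E (Set.range V) := by
  rw [← Pool.Agent.Helper74.LN.lam_range, lam_eq_cP, LinearMap.range_eq_map]
  rfl

omit [Fintype σ] [DecidableEq σ] in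
theorem thr_eq (x y : σ → E) (j l m : σ) : thr ![x, y] j l m = Lf (pl x y) (j, l, m) := by
  unfold thr Lf
  rw [smul_eq_C_mul, smul_eq_C_mul, smul_eq_C_mul]
  rfl

/-- the columns of the forms vanishing on the line -/
theorem span_jc {M : Type*} [AddCommGroup M] [Module E M] {q : ℕ} (V : Sym σ q → M)
    (x y : σ → E) :
    Submodule.span E (Set.range (jc V ![x, y])) = IC V (Il (pl x y)) := by
  apply le_antisymm
  · rw [Submodule.span_le]
    rintro _ ⟨p, rfl⟩
    unfold jc
    rw [thr_eq, lam_eq_cP]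
    exact ⟨_, (Il (pl x y)).mul_mem_left _ (Lf_mem (pl x y) _), rfl⟩
  · rintro _ ⟨g, hg, rfl⟩
    rw [← lam_eq_cP]
    refine Pool.Agent.Helper74.LN.lam_ideal V _ (Set.range (Lf (pl x y))) ?_ g hg
    rintro _ ⟨p, rfl⟩ m
    refine Submodule.subset_span ⟨(m, p), ?_⟩
    unfold jc
    rw [thr_eq]

/-- the bijection of the rows of two points -/
def rows2 (σ : Type*) : σ ⊕ σ ≃ Fin 2 × σ where
  toFun := Sum.elim (fun l => (0, l)) fun l => (1, l)
  invFun p := if p.1 = 0 then Sum.inl p.2 else Sum.inr p.2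
  left_inv := by
    rintro (l | l)
    · rfl
    · rfl
  right_inv := by
    rintro ⟨i, l⟩
    fin_cases i
    · rfl
    · rfl

section rows

variable {τ : Type*}

/-- the linear equivalence of the rows -/
noncomputable def rowsE (E σ τ : Type*) [Field E] :
    ((Fin 2 × σ) ⊕ τ → E) ≃ₗ[E] ((σ ⊕ σ) ⊕ τ → E) :=
  LinearEquiv.funCongrLeft E E (Equiv.sumCongr (rows2 σ) (Equiv.refl τ))

omit [Fintype σ] [DecidableEq σ] in
theorem rowsE_apply (v : (Fin 2 × σ) ⊕ τ → E) :
    rowsE E σ τ v = Sum.elim (Sum.elim (fun l => v (Sum.inl (0, l))) fun l => v (Sum.inl (1, l)))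
      fun j => v (Sum.inr j) := by
  funext r
  rcases r with (l | l) | j
  · rfl
  · rfl
  · rfl

omit [Fintype σ] [DecidableEq σ] in
theorem rowsE_mu (D : Sym σ (n + 1) → Derivation ℤ E E) (θ : τ → Sym σ (n + 1) → E) (x y : σ → E)
    (J : Sym σ (n + 1)) :
    rowsE E σ τ (Pool.Agent.Helper74.LN.mu D θ ![x, y] J) = fv D x y (fun J j => θ j J) J := by
  rw [rowsE_apply]
  rfl

omit [Fintype σ] [DecidableEq σ] in
theorem rowsE_w4 (x y : σ → E) :
    Set.range (fun p => rowsE E σ τ (w4 ![x, y] p)) = Set.range (b4 x y) := by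
  have h : ∀ p : Fin 2 × Fin 2, rowsE E σ τ (w4 ![x, y] p) =
      tr (if p.1 = 0 then ![x, y] p.2 else 0) (if p.1 = 1 then ![x, y] p.2 else 0) 0 := by
    rintro ⟨e, f⟩
    rw [rowsE_apply]
    unfold tr w4
    fin_cases e
    · funext r
      rcases r with (l | l) | j
      · rfl
      · rfl
      · rfl
    · funext r
      rcases r with (l | l) | j
      · rfl
      · rfl
      · rfl
  ext v
  constructor
  · rintro ⟨⟨e, f⟩, rfl⟩
    simp only
    rw [h]
    fin_cases e
    · fin_cases f
      · exact ⟨1, rfl⟩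
      · exact ⟨3, rfl⟩
    · fin_cases f
      · exact ⟨0, rfl⟩
      · exact ⟨2, rfl⟩
  · rintro ⟨i, rfl⟩
    fin_cases i
    · exact ⟨(1, 0), (h _).trans rfl⟩
    · exact ⟨(0, 0), (h _).trans rfl⟩
    · exact ⟨(1, 1), (h _).trans rfl⟩
    · exact ⟨(0, 1), (h _).trans rfl⟩

/-- (tm1) for the space of the forms vanishing on the line -/
theorem Jsp_map (D : Sym σ (n + 1) → Derivation ℤ E E) (θ : τ → Sym σ (n + 1) → E)
    (x y : σ → E) :
    (Jsp D θ ![x, y]).map (rowsE E σ τ : ((Fin 2 × σ) ⊕ τ → E) →ₗ[E] ((σ ⊕ σ) ⊕ τ → E)) =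
      Submodule.span E (Set.range (b4 x y)) ⊔ IC (fv D x y fun J j => θ j J) (Il (pl x y)) := by
  unfold Jsp
  rw [Submodule.map_sup, span_jc, IC_map, Submodule.map_span, ← Set.range_comp]
  have e : (fun J => (rowsE E σ τ : ((Fin 2 × σ) ⊕ τ → E) →ₗ[E] ((σ ⊕ σ) ⊕ τ → E))
      (Pool.Agent.Helper74.LN.mu D θ ![x, y] J)) = fv D x y fun J j => θ j J :=
    funext fun J => rowsE_mu D θ x y J
  rw [e, ← rowsE_w4]
  rfl

/-- (tm1) for the space of all forms -/
theorem Asp_map (D : Sym σ (n + 1) → Derivation ℤ E E) (θ : τ → Sym σ (n + 1) → E)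
    (x y : σ → E) :
    (Asp D θ ![x, y]).map (rowsE E σ τ : ((Fin 2 × σ) ⊕ τ → E) →ₗ[E] ((σ ⊕ σ) ⊕ τ → E)) =
      Submodule.span E (Set.range (b4 x y)) ⊔ IC (E := E) (fv D x y fun J j => θ j J) ⊤ := by
  unfold Asp
  rw [Submodule.map_sup, ← IC_top, IC_map, Submodule.map_span, ← Set.range_comp]
  have e : (fun J => (rowsE E σ τ : ((Fin 2 × σ) ⊕ τ → E) →ₗ[E] ((σ ⊕ σ) ⊕ τ → E))
      (Pool.Agent.Helper74.LN.mu D θ ![x, y] J)) = fv D x y fun J j => θ j J :=
    funext fun J => rowsE_mu D θ x y J
  rw [e, ← rowsE_w4]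
  rfl

/-- (tm1) -/
theorem moves_iff [Fintype τ] (T : ℕ) (D : Sym σ (n + 1) → Derivation ℤ E E)
    (θ : τ → Sym σ (n + 1) → E) (x y : σ → E) :
    Moves T D θ ![x, y] ↔
      Module.finrank E ↥(Submodule.span E (Set.range (b4 x y)) ⊔
          IC (fv D x y fun J j => θ j J) (Il (pl x y))) + T ≤
        Module.finrank E ↥(Submodule.span E (Set.range (b4 x y)) ⊔
          IC (E := E) (fv D x y fun J j => θ j J) ⊤) := by
  unfold Moves
  rw [← Jsp_map, ← Asp_map, LinearEquiv.finrank_map_eq, LinearEquiv.finrank_map_eq]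

/-- the projection which forgets the rows `z` -/
def forget (E σ z τ : Type*) [Field E] :
    ((σ ⊕ σ) ⊕ (z ⊕ τ) → E) →ₗ[E] ((σ ⊕ σ) ⊕ τ → E) :=
  LinearMap.funLeft E E (Sum.map id Sum.inr)

omit [Fintype σ] [DecidableEq σ] in
theorem forget_tr {z : Type*} (u v : σ → E) (w : z ⊕ τ → E) :
    forget E σ z τ (tr u v w) = tr u v fun j => w (Sum.inr j) := by
  funext r
  rcases r with (l | l) | j
  · rfl
  · rfl
  · rfl

omit [Fintype σ] [DecidableEq σ] in
theorem forget_fv {z : Type*} (D : Sym σ (n + 1) → Derivation ℤ E E) (x y : σ → E)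
    (g : Sym σ (n + 1) → z ⊕ τ → E) (J : Sym σ (n + 1)) :
    forget E σ z τ (fv D x y g J) = fv D x y (fun J j => g J (Sum.inr j)) J := by
  funext r
  rcases r with (l | l) | j
  · rfl
  · rfl
  · rfl

omit [Fintype σ] [DecidableEq σ] in
theorem forget_ker {z : Type*} [Fintype z] [Fintype τ] :
    Module.finrank E (LinearMap.ker (forget E σ z τ)) ≤ Fintype.card z := by
  have h : LinearMap.ker (forget E σ z τ) ≤
      LinearMap.range (LinearMap.pi fun r : (σ ⊕ σ) ⊕ (z ⊕ τ) =>
        Sum.elim (fun _ => 0) (Sum.elim (fun i => LinearMap.proj i) fun _ => 0) r :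
        (z → E) →ₗ[E] ((σ ⊕ σ) ⊕ (z ⊕ τ) → E)) := by
    intro v hv
    rw [LinearMap.mem_ker] at hv
    refine ⟨fun i => v (Sum.inr (Sum.inl i)), ?_⟩
    funext r
    rcases r with l | i | j
    · exact (congrFun hv (Sum.inl l)).symm
    · rfl
    · exact (congrFun hv (Sum.inr j)).symm
  refine (Submodule.finrank_mono h).trans ((LinearMap.finrank_range_le _).trans ?_)
  rw [Module.finrank_fintype_fun_eq_card]

omit [Fintype σ] [DecidableEq σ] in
/-- the images of the base of the flag and of the fourth vector -/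
theorem forget_b3 {z : Type*} (x y : σ → E) (ε : z ⊕ τ → E) (hε : ∀ j, ε (Sum.inr j) = 0) :
    (Submodule.span E (Set.range (b3 x y ε)) ⊔ Submodule.span E {tr y 0 0}).map
      (forget E σ z τ) = Submodule.span E (Set.range (b4 (κ := τ) x y)) := by
  rw [← Submodule.span_union, Submodule.map_span]
  congr 1
  have e0 : forget E σ z τ (tr 0 x 0) = tr 0 x 0 := forget_tr _ _ _
  have e1 : forget E σ z τ (tr x 0 ε) = tr x 0 0 := by
    rw [forget_tr]
    congr 1
    funext j
    exact hε j
  have e2 : forget E σ z τ (tr 0 y 0) = tr 0 y 0 := forget_tr _ _ _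
  have e3 : forget E σ z τ (tr y 0 0) = tr y 0 0 := forget_tr _ _ _
  ext v
  constructor
  · rintro ⟨_, ⟨i, rfl⟩ | rfl, rfl⟩
    · fin_cases i
      · exact ⟨0, e0.symm⟩
      · exact ⟨1, e1.symm⟩
      · exact ⟨2, e2.symm⟩
    · exact ⟨3, e3.symm⟩
  · rintro ⟨i, rfl⟩
    fin_cases i
    · exact ⟨_, Or.inl ⟨0, rfl⟩, e0⟩
    · exact ⟨_, Or.inl ⟨1, rfl⟩, e1⟩
    · exact ⟨_, Or.inl ⟨2, rfl⟩, e2⟩
    · exact ⟨_, Or.inr rfl, e3⟩

/-- (tm2) **From the flag to the moving line.** -/
theorem moves_of_flag {z : Type*} [Fintype z] [Fintype τ] (T : ℕ)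
    (D : Sym σ (n + 1) → Derivation ℤ E E) (θ : τ → Sym σ (n + 1) → E) (x y : σ → E)
    (g : Sym σ (n + 1) → z ⊕ τ → E) (hg : ∀ J j, g J (Sum.inr j) = θ j J) (ε : z ⊕ τ → E)
    (hε : ∀ j, ε (Sum.inr j) = 0)
    (h : Module.finrank E ↥(Submodule.span E (Set.range (b3 x y ε)) ⊔
        IC (fv D x y g) (Il (pl x y))) + (T + Fintype.card z + 1) ≤
      Module.finrank E ↥(Submodule.span E (Set.range (b3 x y ε)) ⊔
        IC (E := E) (fv D x y g) ⊤)) :
    Moves T D θ ![x, y] := by
  rw [moves_iff]
  have key : ∀ I : Ideal (MvPolynomial σ E),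
      ((Submodule.span E (Set.range (b3 x y ε)) ⊔ IC (fv D x y g) I) ⊔
        Submodule.span E {tr y 0 0}).map (forget E σ z τ) =
      Submodule.span E (Set.range (b4 x y)) ⊔ IC (fv D x y fun J j => θ j J) I := by
    intro I
    rw [sup_assoc, sup_comm (IC _ I), ← sup_assoc, Submodule.map_sup, forget_b3 x y ε hε, IC_map]
    congr 2
    funext J
    rw [forget_fv]
    congr 1
    funext J j
    exact hg J j
  have h1 := mv2 (tr y 0 0 : (σ ⊕ σ) ⊕ (z ⊕ τ) → E)
    (Submodule.span E (Set.range (b3 x y ε)) ⊔ IC (fv D x y g) (Il (pl x y)))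
    (Submodule.span E (Set.range (b3 x y ε)) ⊔ IC (E := E) (fv D x y g) ⊤)
  have h2 := mv3 (forget E σ z τ) (Fintype.card z) forget_ker
    ((Submodule.span E (Set.range (b3 x y ε)) ⊔ IC (E := E) (fv D x y g) ⊤) ⊔
      Submodule.span E {tr y 0 0})
  have h3 := Submodule.finrank_map_le (forget E σ z τ)
    ((Submodule.span E (Set.range (b3 x y ε)) ⊔ IC (fv D x y g) (Il (pl x y))) ⊔
      Submodule.span E {tr y 0 0})
  rw [key] at h2 h3
  omega

end rows

end Pool.Agent.Helper49.LN

end

section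

/-!
# LN: a line which moves in many dimensions is bounded
-/

set_option autoImplicit false

namespace Pool.Agent.Helper49.LN

open scoped BigOperators
open MvPolynomial
open Pool.Agent.Helper8.LG (Bdd)

/-- the numbers: `card σ + b' + 1 ≤ r (r - 1) / 2` -/
theorem k2_num (s c T r b' : ℕ) (hr : T ≤ r) (hb : 4 + b' + r ≤ 2 * s + c)
    (hT : 6 * s + 2 * c ≤ T * (T + 1) + 6) : s + b' + 1 ≤ r * (r - 1) / 2 := by
  have h1 : T * (T + 1) ≤ r * (r + 1) := Nat.mul_le_mul hr (Nat.succ_le_succ hr)
  have h2 := tri_nat r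
  have h3 : (6 * s + 2 * c) ≤ r * (r + 1) + 6 := hT.trans (Nat.add_le_add_right h1 6)
  have h4 : r * (r + 1) / 2 * 2 = r * (r + 1) := by
    have h5 : Even (r * (r + 1)) := Nat.even_mul_succ_self r
    exact Nat.div_mul_cancel h5.two_dvd
  omega

theorem k2' {E σ κ : Type*} [Field E] [Fintype σ] [DecidableEq σ] [Fintype κ] [DecidableEq κ]
    {n : ℕ} (D : Sym σ (n + 1) → Derivation ℤ E E) (g : Sym σ (n + 1) → κ → E) (x y : σ → E)
    (a b : σ) (hab : pl x y a b ≠ 0) (T : ℕ)
    (hm : Module.finrank E ↥(Submodule.span E (Set.range (b4 x y)) ⊔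
        IC (fv D x y g) (Il (pl x y))) + T ≤
      Module.finrank E ↥(Submodule.span E (Set.range (b4 x y)) ⊔ IC (E := E) (fv D x y g) ⊤))
    (hT : 6 * Fintype.card σ + 2 * Fintype.card κ ≤ T * (T + 1) + 6) :
    ∃ G : E, G ≠ 0 ∧ ∀ (O : ValuationSubring E) (Δ : E), Bdd D Δ O →
      (∀ J k, Δ * g J k ∈ O) →
      ∀ k l, Δ ^ (2 * Fintype.card σ + Fintype.card κ) * (G * pl x y k l) ∈ O := by
  obtain ⟨b', r, t, f, K, f', rr, hK, -, hdt, hI, e1, e2, e3⟩ :=
    ex_line (fv D x y g) x y a b hab
  rw [e1, e2] at hm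
  have hnum : Fintype.card σ + b' + 1 ≤ r * (r - 1) / 2 :=
    k2_num (Fintype.card σ) (Fintype.card κ) T r b' (by omega) (by omega) hT
  refine ⟨dt rr (vv (b4 x y) (vb0 _) (fun s => lv (fv D x y g) (pl x y) (f s))
    (fun s => bn (E := E) (fv D x y g) a b (K s)) Fin.elim0 fun s => kv x y (f' s)) /
      pl x y a b ^ (Fintype.card σ + b' + 1), div_ne_zero hdt (pow_ne_zero _ hab), ?_⟩
  intro O Δ hD hg k l
  obtain ⟨m, j, h⟩ := exists_loc O x y a b hab
  have hG : LocG O Δ D x m g g 0 := by
    refine ⟨hD, fun J => ?_, hg, fun k => zero_mem O⟩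
    rw [smul_zero, add_zero]
  obtain ⟨N, hN, e⟩ := g3_det hG h a b hab f K hK f' rr hI
  have hcard : Fintype.card ((σ ⊕ σ) ⊕ κ) = 2 * Fintype.card σ + Fintype.card κ := by
    rw [Fintype.card_sum, Fintype.card_sum]
    ring
  rw [hcard] at e
  obtain ⟨M, hM⟩ := Nat.exists_eq_add_of_le hnum
  rw [hM] at e
  have hδ : pl (xt x m) (yt x y m j) a b ≠ 0 := by
    intro h0
    apply hab
    rw [h.pl_eq, h0, mul_zero]
  have hρ := h.hρ
  have h3 : Δ ^ (2 * Fintype.card σ + Fintype.card κ) *
      (dt rr (vv (b4 x y) (vb0 _) (fun s => lv (fv D x y g) (pl x y) (f s))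
        (fun s => bn (E := E) (fv D x y g) a b (K s)) Fin.elim0 fun s => kv x y (f' s)) /
        pl x y a b ^ (Fintype.card σ + b' + 1) * pl x y k l) =
      pl (xt x m) (yt x y m j) a b ^ M * N * pl (xt x m) (yt x y m j) k l := by
    rw [h.pl_eq a b, h.pl_eq k l]
    generalize pl (xt x m) (yt x y m j) a b = δ at e hδ ⊢
    generalize pl x y m j = ρ at e hρ ⊢
    generalize pl (xt x m) (yt x y m j) k l = w
    generalize dt rr (vv (b4 x y) (vb0 _) (fun s => lv (fv D x y g) (pl x y) (f s))
      (fun s => bn (E := E) (fv D x y g) a b (K s)) Fin.elim0 fun s => kv x y (f' s)) = d at e ⊢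
    generalize Fintype.card σ + b' = q at e ⊢
    calc Δ ^ (2 * Fintype.card σ + Fintype.card κ) * (d / (ρ * δ) ^ (q + 1) * (ρ * w)) =
          (Δ ^ (2 * Fintype.card σ + Fintype.card κ) * d) * (ρ * w) / (ρ * δ) ^ (q + 1) := by
          ring
      _ = (ρ ^ q * δ ^ (q + 1 + M) * N) * (ρ * w) / (ρ * δ) ^ (q + 1) := by rw [e]
      _ = δ ^ M * N * w := by
          have h4 : (ρ * δ) ^ (q + 1) ≠ 0 := pow_ne_zero _ (mul_ne_zero hρ hδ)
          rw [div_eq_iff h4, mul_pow, pow_add δ (q + 1) M, pow_succ ρ q]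
          ring
  rw [h3]
  exact mul_mem (mul_mem (pow_mem (h.pl_mem a b) M) hN) (h.pl_mem k l)

end Pool.Agent.Helper49.LN

end

section

/-!
# LN-K2: a line which moves in many dimensions is bounded (determinant G3)

`R = dim Asp - dim Jsp ≥ T`, `nJ + 4 + R ≤ 2 σ + τ`, `m := σ + nJ + 1 ≤ R (R - 1) / 2`,
`G = det / P_ab^m`; no normalisation of `z` is needed.
-/

set_option autoImplicit false

namespace Pool.Agent.Helper74.LN

open Pool.Agent.Helper8.LG (mon form Ix Bdd)

theorem k2 {E σ τ : Type*} [Field E] [Fintype σ] [DecidableEq σ] [Fintype τ] {d : ℕ}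
    (D : Sym σ d → Derivation ℤ E E) (θ : τ → Sym σ d → E) (z : Fin 2 → σ → E)
    (hz : ∃ a b, pl z a b ≠ 0) (T : ℕ) (hm : Moves T D θ z)
    (hT : 6 * Fintype.card σ + 2 * Fintype.card τ ≤ T * (T + 1) + 6) :
    ∃ G : E, G ≠ 0 ∧ KeyL D θ z G := by
  classical
  obtain ⟨a, b, hab⟩ := hz
  rcases d with _ | n
  · -- no forms
    exfalso
    have hne : a ≠ b := by
      rintro rfl
      apply hab
      unfold pl
      ring
    have hσ : 2 ≤ Fintype.card σ := by
      have h1 : ({a, b} : Finset σ).card ≤ Fintype.card σ := Finset.card_le_univ _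
      rwa [Finset.card_pair hne] at h1
    have hT1 : T ≤ 1 := by
      have h2 : Module.finrank E (Asp D θ z) ≤ Module.finrank E (Jsp D θ z) + 1 := by
        unfold Asp Jsp
        have h3 : Set.range (mu D θ z) = {mu D θ z default} := by
          ext v
          constructor
          · rintro ⟨s, rfl⟩
            rw [Subsingleton.elim s default]
            rfl
          · rintro rfl
            exact ⟨default, rfl⟩
        rw [h3]
        refine (Pool.Agent.Helper49.LN.finrank_sup_span_singleton_le _ _).trans ?_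
        exact Nat.add_le_add_right (Submodule.finrank_mono le_sup_left) 1
      unfold Moves at hm
      omega
    have h4 : T * (T + 1) ≤ 1 * (1 + 1) := Nat.mul_le_mul hT1 (Nat.succ_le_succ hT1)
    omega
  · have hz2 : z = ![z 0, z 1] := by
      funext i
      fin_cases i <;> rfl
    rw [hz2] at hm
    have h1 := (Pool.Agent.Helper49.LN.moves_iff T D θ (z 0) (z 1)).1 hm
    obtain ⟨G, hG, h2⟩ := Pool.Agent.Helper49.LN.k2' D (fun J j => θ j J) (z 0) (z 1) a b hab T
      h1 hT
    exact ⟨G, hG, fun O Δ hD hθ j l => h2 O Δ hD (fun J k => hθ k J) j l⟩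

end Pool.Agent.Helper74.LN

end

section

/-!
# LN-RIGIDL: rigidity of a line which moves

Copy of `Helper49.LV.rigid_line` with `k2` instead of `key_line`: no rows, no point.
-/

set_option autoImplicit false

namespace Pool.Agent.Helper74.LN

open scoped BigOperators
open Pool.Agent.Helper8.LG

/-- One side: `G P_jl` is integral over `E₀[t]`. -/
theorem rl_ln {E : Type*} [Field E] [CharZero E] {σ τ : Type*} [Fintype σ] [Fintype τ] {d : ℕ}
    (D : Sym σ d → Derivation ℤ E E) (θ : τ → Sym σ d → E) (z : Fin 2 → σ → E)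
    (E₀ : Subfield E) (t : E) (ht : Transcendental E₀ t)
    (hfin : FiniteDimensional (Subfield.closure ((E₀ : Set E) ∪ {t})) E)
    (hstab : ∀ p, ∀ f ∈ intCl E₀ t, D p f ∈ intCl E₀ t)
    (hθ : ∀ j s, θ j s ∈ E₀) (G : E) (hG : KeyL D θ z G) (j l : σ) :
    G * pl z j l ∈ intCl E₀ t := by
  obtain ⟨h1, h2⟩ := intCl_dedekind E₀ t ht hfin
  haveI := h1
  haveI := h2
  have hE₀R : ∀ f ∈ E₀, f ∈ intCl E₀ t := fun f hf =>
    rg_mem_intCl E₀ t (Subring.subset_closure (Or.inl hf))
  apply mem_of (intCl E₀ t)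
  intro O hO
  have hbdd : Bdd D 1 O := bdd_of (intCl E₀ t) D 1 (one_mem _)
    (fun p f hf => by rw [one_mul]; exact hstab p f hf) O hO
  have h5 := hG O 1 hbdd (fun j s => by rw [one_mul]; exact hO (hE₀R _ (hθ j s))) j l
  rwa [one_pow, one_mul] at h5

theorem rigid_ln {k L E : Type*} [Field k] [Field L] [Field E] [CharZero E] [Algebra k L]
    [Algebra L E] [Algebra k E] [IsScalarTower k L E] {n : ℕ} (c : Fin n → E)
    (hgen : IntermediateField.adjoin L (Set.range c) = ⊤) (B : Set (Fin n))
    (hB : AlgebraicIndependent L (fun b : B => c b))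
    (halg : ∀ r, IsAlgebraic (IntermediateField.adjoin k (c '' B)) (c r))
    {σ τ : Type*} [Fintype σ] [DecidableEq σ] [Fintype τ] {d : ℕ}
    (D : Sym σ d → Derivation ℤ E E) (θ : τ → Sym σ d → L)
    (hDL : ∀ p b, ∃ b', D p (algebraMap L E b) = algebraMap L E b')
    (hDk : ∀ p (b : k), D p (algebraMap k E b) = 0)
    (hDc : ∀ p r, D p (c r) = 0) (T : ℕ)
    (hT : 6 * Fintype.card σ + 2 * Fintype.card τ ≤ T * (T + 1) + 6)
    (z : Fin 2 → σ → E) (hz : ∃ α β, pl z α β ≠ 0)
    (hm : Moves T D (fun j s => algebraMap L E (θ j s)) z) :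
    ∃ G : E, G ≠ 0 ∧ ∀ j l, IsAlgebraic L (G * pl z j l) := by
  classical
  obtain ⟨G, hG0, hG⟩ := k2 D (fun j s => algebraMap L E (θ j s)) z hz T hm hT
  -- the field `F = E₀(t)`
  have hrange : (Set.range fun b : B => c b) = c '' B := by
    ext z
    constructor
    · rintro ⟨b, rfl⟩
      exact ⟨b, b.2, rfl⟩
    · rintro ⟨b, hb, rfl⟩
      exact ⟨⟨b, hb⟩, rfl⟩
  have halgF : ∀ (F : Subfield E), (∀ b : k, algebraMap k E b ∈ F) → (∀ b ∈ B, c b ∈ F) →
      ∀ r, IsAlgebraic F (c r) := by
    intro F hkF hBF r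
    refine rg_alg (R₁ := IntermediateField.adjoin k (c '' B)) (fun s => ?_) (halg r)
    have h1 : (IntermediateField.adjoin k (c '' B)).toSubfield ≤ F := by
      rw [IntermediateField.adjoin_toSubfield, Subfield.closure_le]
      rintro z (⟨b, rfl⟩ | ⟨b, hb, rfl⟩)
      · exact hkF b
      · exact hBF b hb
    exact ⟨⟨s, h1 s.2⟩, rfl⟩
  have hfinF : ∀ (F : Subfield E), (∀ b : L, algebraMap L E b ∈ F) → (∀ b ∈ B, c b ∈ F) →
      FiniteDimensional F E := by
    intro F hLF hBF
    have hkF : ∀ b : k, algebraMap k E b ∈ F := fun b => by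
      rw [IsScalarTower.algebraMap_apply k L E]
      exact hLF _
    have h1 : FiniteDimensional F (IntermediateField.adjoin F (Set.range c)) :=
      IntermediateField.finiteDimensional_adjoin (by
        rintro z ⟨r, rfl⟩
        exact (halgF F hkF hBF r).isIntegral)
    have h2 : IntermediateField.adjoin F (Set.range c) = ⊤ := by
      rw [eq_top_iff]
      intro z _
      have hz : z ∈ IntermediateField.adjoin L (Set.range c) := by rw [hgen]; trivial
      have h3 : (IntermediateField.adjoin L (Set.range c)).toSubfield ≤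
          (IntermediateField.adjoin F (Set.range c)).toSubfield := by
        rw [IntermediateField.adjoin_toSubfield, Subfield.closure_le]
        rintro z (⟨b, rfl⟩ | hz)
        · exact (IntermediateField.adjoin F (Set.range c)).algebraMap_mem ⟨_, hLF b⟩
        · exact IntermediateField.subset_adjoin F _ hz
      exact h3 hz
    rw [h2] at h1
    exact Module.Finite.equiv (IntermediateField.topEquiv (F := F) (E := E)).toLinearEquiv
  refine ⟨G, hG0, fun j l => ?_⟩
  refine exchange (fun b : B => c b) hB (G * pl z j l) ?_ fun b => ?_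
  · -- algebraic over `L(c_B)`
    have h1 := hfinF (IntermediateField.adjoin L (Set.range fun b : B => c b)).toSubfield
      (fun b => (IntermediateField.adjoin L (Set.range fun b : B => c b)).algebraMap_mem b)
      (fun b hb => IntermediateField.subset_adjoin L _ ⟨⟨b, hb⟩, rfl⟩)
    have h2 : IsAlgebraic (IntermediateField.adjoin L (Set.range fun b : B => c b)).toSubfield
        (G * pl z j l) := Algebra.IsAlgebraic.isAlgebraic _
    exact rg_alg (fun s => ⟨⟨s, s.2⟩, rfl⟩) h2
  · -- algebraic over `L(c_(B - b))`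
    set S₀ : Set E := (fun b : B => c b) '' {b}ᶜ with hS₀
    set E₀ : Subfield E := (IntermediateField.adjoin L S₀).toSubfield with hE₀
    have hE₀cl : E₀ = Subfield.closure (Set.range (algebraMap L E) ∪ S₀) :=
      IntermediateField.adjoin_toSubfield L S₀
    have hLE₀ : ∀ z : L, algebraMap L E z ∈ E₀ := fun z =>
      (IntermediateField.adjoin L S₀).algebraMap_mem z
    have hSE₀ : ∀ z ∈ S₀, z ∈ E₀ := fun z hz => IntermediateField.subset_adjoin L _ hz
    have hcE₀ : ∀ b' ∈ B, b' ≠ b → c b' ∈ E₀ := fun b' hb' hne => by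
      refine hSE₀ _ ⟨⟨b', hb'⟩, ?_, rfl⟩
      intro h
      apply hne
      rw [Set.mem_singleton_iff] at h
      rw [← h]
    have htr : Transcendental E₀ (c b) := by
      have h1 : Transcendental (Algebra.adjoin L S₀) (c b) :=
        hB.transcendental_adjoin (s := {b}ᶜ) (i := b) (fun h => h rfl)
      have h2 := (IntermediateField.transcendental_adjoin_iff (F := L) (s := S₀)).2 h1
      intro h3
      exact h2 (rg_alg (fun s => ⟨⟨s, s.2⟩, rfl⟩) h3)
    -- the derivations
    have hDE₀ : ∀ p, ∀ f ∈ E₀, D p f ∈ E₀ := by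
      intro p
      rw [hE₀cl]
      apply rg_stable
      rintro f (⟨z, rfl⟩ | hf)
      · obtain ⟨z', hz'⟩ := hDL p z
        rw [hz']
        exact Subfield.subset_closure (Or.inl ⟨z', rfl⟩)
      · obtain ⟨b', -, rfl⟩ := hf
        show D p (c b') ∈ _
        rw [hDc]
        exact zero_mem _
    set k₀ : Subfield E := (IntermediateField.adjoin k S₀).toSubfield with hk₀
    have hk₀cl : k₀ = Subfield.closure (Set.range (algebraMap k E) ∪ S₀) :=
      IntermediateField.adjoin_toSubfield k S₀
    have hk₀E₀ : k₀ ≤ E₀ := by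
      rw [hk₀cl, Subfield.closure_le]
      rintro z (⟨z, rfl⟩ | hz)
      · rw [IsScalarTower.algebraMap_apply k L E]
        exact hLE₀ _
      · exact hSE₀ z hz
    have hDk₀ : ∀ p, ∀ f ∈ k₀, D p f = 0 := by
      intro p
      rw [hk₀cl]
      apply rg_kill
      rintro f (⟨z, rfl⟩ | hf)
      · exact hDk p z
      · obtain ⟨b', -, rfl⟩ := hf
        exact hDc p b'
    -- both sides
    have hside : ∀ t : E, (t = c b ∨ t = (c b)⁻¹) → Transcendental E₀ t ∧
        FiniteDimensional (Subfield.closure ((E₀ : Set E) ∪ {t})) E ∧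
        G * pl z j l ∈ intCl E₀ t := by
      intro t ht
      have htc : c b ∈ Subfield.closure ({t} : Set E) := by
        rcases ht with h | h
        · rw [← h]
          exact Subfield.subset_closure rfl
        · have h1 : c b = t⁻¹ := by rw [h, inv_inv]
          rw [h1]
          exact inv_mem (Subfield.subset_closure rfl)
      have htt : Transcendental E₀ t := by
        rcases ht with h | h
        · rw [h]
          exact htr
        · rw [h]
          intro h1
          exact htr (by simpa using h1.inv)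
      have hF1 : ∀ z : L, algebraMap L E z ∈ Subfield.closure ((E₀ : Set E) ∪ {t}) := fun z =>
        Subfield.subset_closure (Or.inl (hLE₀ z))
      have hF2 : ∀ b' ∈ B, c b' ∈ Subfield.closure ((E₀ : Set E) ∪ {t}) := by
        intro b' hb'
        by_cases hne : b' = b
        · rw [hne]
          exact Subfield.closure_mono (Set.subset_union_right) htc
        · exact Subfield.subset_closure (Or.inl (hcE₀ b' hb' hne))
      have hfin := hfinF _ hF1 hF2
      refine ⟨htt, hfin, ?_⟩
      have hDt : ∀ p, D p t = 0 := by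
        intro p
        rcases ht with h | h
        · rw [h]
          exact hDc p b
        · rw [h, (D p).leibniz_inv, hDc, smul_zero]
      have hstab := intCl_stable E₀ t D hDE₀ hDt k₀ hk₀E₀ hDk₀ (Set.range c)
        (Set.finite_range c) (by rintro p z ⟨r, rfl⟩; exact hDc p r) (by
          rintro z ⟨r, rfl⟩
          refine halgF _ (fun z => ?_) (fun b' hb' => ?_) r
          · exact Subfield.subset_closure
              (Or.inl ((IntermediateField.adjoin k S₀).algebraMap_mem z))
          · by_cases hne : b' = b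
            · rw [hne]
              exact Subfield.closure_mono (Set.subset_union_right) htc
            · refine Subfield.subset_closure (Or.inl ?_)
              refine IntermediateField.subset_adjoin k S₀ ⟨⟨b', hb'⟩, ?_, rfl⟩
              intro h
              apply hne
              rw [Set.mem_singleton_iff] at h
              rw [← h]) (by
          rw [eq_top_iff]
          intro z _
          have hz : z ∈ (IntermediateField.adjoin L (Set.range c)).toSubfield := by
            rw [hgen]; trivial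
          rw [IntermediateField.adjoin_toSubfield] at hz
          refine Subfield.closure_mono ?_ hz
          rintro z (⟨z, rfl⟩ | hz)
          · exact Or.inl (Or.inl (hLE₀ z))
          · exact Or.inr hz)
      exact rl_ln D (fun j s => algebraMap L E (θ j s)) z E₀ t htt hfin hstab
        (fun j s => hLE₀ _) G hG j l
    obtain ⟨ht1, hfin1, h1⟩ := hside (c b) (Or.inl rfl)
    obtain ⟨-, -, h2⟩ := hside (c b)⁻¹ (Or.inr rfl)
    have hP : IsAlgebraic E₀ (G * pl z j l) :=
      algebraic_of_mem E₀ (c b) ht1 hfin1 _ h1 h2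
    exact rg_alg (fun s => ⟨⟨s, s.2⟩, rfl⟩) hP

end Pool.Agent.Helper74.LN

end

section

/-!
# LN-COREL: rigidity inside a large field, lines

Copy of `Helper49.LV.ul_core_line` with `rigid_ln`: the echelon basis `ech z α β` has its
coordinates `P_jl / P_αβ` in the field `F = L(c)`; `moves_tau` (change of basis) and `moves_hom`
(descent to `F`).
-/

set_option autoImplicit false

namespace Pool.Agent.Helper74.LN

open scoped BigOperators
open Pool.Agent.Helper8.LG

theorem core_ln {k L Ω : Type*} [Field k] [Field L] [Field Ω] [CharZero Ω] [Algebra k L]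
    [Algebra L Ω] [Algebra k Ω] [IsScalarTower k L Ω]
    (K : Subring Ω) (hkK : ∀ b : k, algebraMap k Ω b ∈ K) (hLD : UlDisj k (L := L) K)
    {n : ℕ} (c : Fin n → Ω) (hcK : ∀ r, c r ∈ K)
    {σ τ : Type*} [Fintype σ] [DecidableEq σ] [Fintype τ] {d : ℕ}
    (D : Sym σ d → Derivation ℤ Ω Ω) (θ : τ → Sym σ d → L)
    (hDL : ∀ p b, ∃ b', D p (algebraMap L Ω b) = algebraMap L Ω b')
    (hDk : ∀ p (b : k), D p (algebraMap k Ω b) = 0)
    (hDc : ∀ p r, D p (c r) = 0) (T : ℕ)
    (hT : 6 * Fintype.card σ + 2 * Fintype.card τ ≤ T * (T + 1) + 6)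
    (z : Fin 2 → σ → Ω) (hz : ∃ α β, pl z α β ≠ 0) (G : Ω) (hG : G ≠ 0)
    (hGz : ∀ j l, G * pl z j l ∈ Algebra.adjoin L (Set.range c))
    (hm : Moves T D (fun j s => algebraMap L Ω (θ j s)) z) :
    ∃ G' : Ω, G' ≠ 0 ∧ ∀ j l, IsAlgebraic L (G' * pl z j l) := by
  classical
  obtain ⟨α, β, hαβ⟩ := hz
  set F : IntermediateField L Ω := IntermediateField.adjoin L (Set.range c) with hF
  have hsub : ∀ z ∈ Algebra.adjoin L (Set.range c), z ∈ F := fun z hz =>
    IntermediateField.algebra_adjoin_le_adjoin L _ hz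
  have hFcl : F.toSubfield = Subfield.closure (Set.range (algebraMap L Ω) ∪ Set.range c) :=
    IntermediateField.adjoin_toSubfield L _
  -- the generators
  set c' : Fin n → F := fun r => ⟨c r, IntermediateField.subset_adjoin L _ ⟨r, rfl⟩⟩ with hc'
  have himg : ∀ B : Set (Fin n), (F.val : F → Ω) '' (c' '' B) = c '' B := by
    intro B
    rw [← Set.image_comp]
    rfl
  have hrange : (F.val : F → Ω) '' (Set.range c') = Set.range c := by
    rw [← Set.image_univ, himg, Set.image_univ]
  have hgen : IntermediateField.adjoin L (Set.range c') = ⊤ := by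
    apply IntermediateField.lift_injective F
    rw [IntermediateField.lift_adjoin, IntermediateField.lift_top]
    have h1 : (Subtype.val : F → Ω) '' (Set.range c') = Set.range c := hrange
    rw [h1]
  obtain ⟨B, hB1, hB2⟩ := ul_basis (k := k) c'
  have hB3 : AlgebraicIndependent k (fun b : B => c b) :=
    (AlgHom.algebraicIndependent_iff (x := fun b : B => c' b) ((F.val).restrictScalars k)
      Subtype.val_injective).2 hB1
  have hB4 : AlgebraicIndependent L (fun b : B => c b) :=
    ul_algInd K hkK hLD _ (fun b => hcK b) hB3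
  have hB5 : AlgebraicIndependent L (fun b : B => c' b) :=
    (AlgHom.algebraicIndependent_iff (x := fun b : B => c' b) F.val Subtype.val_injective).1 hB4
  have halg : ∀ r, IsAlgebraic (IntermediateField.adjoin k (c' '' B)) (c' r) := by
    intro r
    have h1 := hB2 r
    obtain ⟨p, hp0, hp⟩ := h1
    set φ : Algebra.adjoin k (c' '' B) →+* IntermediateField.adjoin k (c' '' B) :=
      { toFun := fun z => ⟨z, IntermediateField.algebra_adjoin_le_adjoin k _ z.2⟩
        map_one' := rfl
        map_mul' := fun _ _ => rfl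
        map_zero' := rfl
        map_add' := fun _ _ => rfl } with hφ
    have hφi : Function.Injective φ := by
      intro u v huv
      apply Subtype.ext
      exact congrArg (fun z : IntermediateField.adjoin k (c' '' B) => (z : F)) huv
    refine ⟨p.map φ, ?_, ?_⟩
    · rwa [Ne, Polynomial.map_eq_zero_iff hφi]
    · rw [Polynomial.aeval_def, Polynomial.eval₂_map]
      exact hp
  -- the derivations
  have hst : ∀ p, ∀ f ∈ F, D p f ∈ F := by
    intro p f hf
    have hf' : f ∈ F.toSubfield := hf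
    rw [hFcl] at hf'
    have h1 := rg_stable (D p) (Set.range (algebraMap L Ω) ∪ Set.range c) ?_ f hf'
    · rw [← hFcl] at h1
      exact h1
    · rintro g (⟨z, rfl⟩ | ⟨r, rfl⟩)
      · obtain ⟨z', hz'⟩ := hDL p z
        rw [hz']
        exact Subfield.subset_closure (Or.inl ⟨z', rfl⟩)
      · rw [hDc]
        exact zero_mem _
  set δ : Sym σ d → Derivation ℤ F F := fun p =>
    Derivation.mk' (AddMonoidHom.toIntLinearMap
      { toFun := fun f => (⟨D p f, hst p f f.2⟩ : F)
        map_zero' := Subtype.ext (map_zero (D p))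
        map_add' := fun f g => Subtype.ext (map_add (D p) (f : Ω) g) })
      (fun f g => Subtype.ext ((D p).leibniz (f : Ω) g)) with hδ
  have hδv : ∀ p (f : F), ((δ p f : F) : Ω) = D p f := fun p f => rfl
  have hamap : ∀ b : L, ((algebraMap L F b : F) : Ω) = algebraMap L Ω b := fun b => rfl
  -- the line
  have hquo : ∀ j l, pl z j l / pl z α β ∈ F := by
    intro j l
    have h2 : pl z j l / pl z α β = G * pl z j l / (G * pl z α β) := by field_simp
    rw [h2]
    exact div_mem (hsub _ (hGz j l)) (hsub _ (hGz α β))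
  set w' : Fin 2 → σ → F := ![fun l => ⟨pl z l β / pl z α β, hquo l β⟩,
    fun l => ⟨pl z α l / pl z α β, hquo α l⟩] with hw'
  have hw : (fun e l => F.val (w' e l)) = ech z α β := by
    funext e l
    fin_cases e <;> rfl
  have hw2 : ∀ e l, ((w' e l : F) : Ω) = ech z α β e l := fun e l => congrFun (congrFun hw e) l
  have hplw : ∀ j l, ((pl w' j l : F) : Ω) = pl z j l / pl z α β := by
    intro j l
    rw [← pl_ech (z := z) α β hαβ j l]
    unfold pl
    push_cast
    rw [hw2, hw2, hw2, hw2]
  have hdet : (!![z 0 α, z 0 β; z 1 α, z 1 β] : Matrix (Fin 2) (Fin 2) Ω).det ≠ 0 := by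
    rw [Matrix.det_fin_two_of]
    exact hαβ
  have hm2 : Moves T D (fun j s => algebraMap L Ω (θ j s)) (ech z α β) :=
    (moves_tau D _ z (ech z α β) _ (ech_eq (z := z) α β hαβ) hdet).1 hm
  have hm3 : Moves T δ (fun j s => algebraMap L F (θ j s)) w' := by
    rw [moves_hom (F.val : F →+* Ω) T D δ (fun s x => rfl)]
    have h1 : (fun j s => (F.val : F →+* Ω) (algebraMap L F (θ j s))) =
        fun j s => algebraMap L Ω (θ j s) := rfl
    have h2 : (fun e l => (F.val : F →+* Ω) (w' e l)) = ech z α β := hw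
    rw [h1, h2]
    exact hm2
  have hcz : CharZero F := inferInstance
  obtain ⟨G0, hG0, hG1⟩ := rigid_ln (k := k) (L := L) (E := F) c' hgen B hB5 halg δ θ
    (fun p b => by
      obtain ⟨b', hb'⟩ := hDL p b
      exact ⟨b', Subtype.ext hb'⟩)
    (fun p b => Subtype.ext (hDk p b)) (fun p r => Subtype.ext (hDc p r)) T hT w'
    ⟨α, β, fun h0 => by
      have h1 := hplw α β
      rw [h0, div_self hαβ] at h1
      exact zero_ne_one h1⟩ hm3
  refine ⟨(G0 : Ω) / pl z α β, div_ne_zero (fun h0 => hG0 (Subtype.ext h0)) hαβ, fun j l => ?_⟩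
  have h1 := (hG1 j l).algHom F.val
  have h2 : F.val (G0 * pl w' j l) = (G0 : Ω) / pl z α β * pl z j l := by
    have h3 : F.val (G0 * pl w' j l) = (G0 : Ω) * ((pl w' j l : F) : Ω) := rfl
    rw [h3, hplw]
    ring
  rw [h2] at h1
  exact h1

end Pool.Agent.Helper74.LN

end

section

/-!
# LN-ULTRAL: an infinite set of points with bounded moving lines has infinitely many points on one
line

Copy of `Helper49.LV.ultra_line` with `core_ln` instead of `ul_core_line` (`moves_ultra` for the
hypothesis `Moves`; the bounded functions are the `G P_jl`).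
-/

set_option autoImplicit false

namespace Pool.Agent.Helper74.LN

open scoped BigOperators
open Pool.Agent.Helper8.LG

theorem ultra_ln {k L : Type*} [Field k] [Field L] [CharZero L] [Algebra k L]
    {σ τ : Type*} [Fintype σ] [DecidableEq σ] [Fintype τ] {d : ℕ}
    (D : Sym σ d → Derivation ℤ L L) (θ : τ → Sym σ d → L)
    (hDk : ∀ p (c : k), D p (algebraMap k L c) = 0) (T : ℕ)
    (hT : 6 * Fintype.card σ + 2 * Fintype.card τ ≤ T * (T + 1) + 6)
    (V : Submodule k L) [FiniteDimensional k V] (S : Set (σ → L)) (hinf : S.Infinite)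
    (hS : ∀ x ∈ S, ∃ (y : σ → L) (G : L), (∃ j l, pl ![x, y] j l ≠ 0) ∧ G ≠ 0 ∧
      (∀ j l, G * pl ![x, y] j l ∈ V) ∧ Moves T D θ ![x, y]) :
    ∃ (α β : σ) (u v : σ → L), α ≠ β ∧ u α = 1 ∧ u β = 0 ∧ v α = 0 ∧ v β = 1 ∧
      {x ∈ S | ∀ l, x l = x α * u l + x β * v l}.Infinite := by
  classical
  set X : ℕ → σ → L := fun m => (hinf.natEmbedding S m : σ → L) with hX
  have hXS : ∀ m, X m ∈ S := fun m => (hinf.natEmbedding S m).2
  have hXi : Function.Injective X := fun u v huv =>
    (hinf.natEmbedding S).injective (Subtype.ext huv)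
  have hS' := fun m => hS (X m) (hXS m)
  choose Y G hne0 hG0 hGx hXm using hS'
  obtain ⟨Ω, instΩ, Q, hQ, hker⟩ := ul_exists L
  let algLΩ : Algebra L Ω := (Q.comp (Pi.constRingHom ℕ L)).toAlgebra
  let algkΩ : Algebra k Ω := ((algebraMap L Ω).comp (algebraMap k L)).toAlgebra
  have : IsScalarTower k L Ω := IsScalarTower.of_algebraMap_eq fun _ => rfl
  have : CharZero Ω := charZero_of_injective_algebraMap (algebraMap L Ω).injective
  have halgL : ∀ b : L, algebraMap L Ω b = Q fun _ => b := fun _ => rfl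
  have halgk : ∀ b : k, algebraMap k Ω b = Q fun _ => algebraMap k L b := fun _ => rfl
  -- the constants
  set K : Subring Ω := (Q.comp ((algebraMap k L).compLeft ℕ)).range with hK
  have hQK : ∀ g : ℕ → k, Q (fun m => algebraMap k L (g m)) ∈ K := fun g => ⟨g, rfl⟩
  have hLD : UlDisj k (L := L) K := by
    intro J hJ T z hz hsum
    choose g hg using hz
    have hg' : ∀ b, Q (fun m => algebraMap k L (g b m)) = z b := fun b => hg b
    have h1 := ul_disj Q hker J hJ T g (by
      rw [← hsum]
      exact Finset.sum_congr rfl fun b _ => by rw [hg', halgL])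
    intro b hb
    rw [← hg']
    exact h1 b hb
  -- the sequences
  set bV := Module.finBasis k V with hbV
  set r := Module.finrank k V with hr
  set h : σ × σ → ℕ → L := fun η m' => G m' * pl ![X m', Y m'] η.1 η.2 with hh
  have hhV : ∀ η m', h η m' ∈ V := fun η m' => hGx m' η.1 η.2
  set c₀ : (σ × σ) × Fin r → Ω := fun ηj => Q fun m' =>
    algebraMap k L (bV.repr ⟨h ηj.1 m', hhV ηj.1 m'⟩ ηj.2) with hc₀
  set eqv := (Fintype.equivFin ((σ × σ) × Fin r)).symm with heqv
  set c : Fin (Fintype.card ((σ × σ) × Fin r)) → Ω := fun s => c₀ (eqv s) with hc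
  have hcmem : ∀ ηj, c₀ ηj ∈ Algebra.adjoin L (Set.range c) := fun ηj =>
    Algebra.subset_adjoin ⟨eqv.symm ηj, by rw [hc]; simp⟩
  have hhc : ∀ η, Q (h η) ∈ Algebra.adjoin L (Set.range c) := by
    intro η
    have h1 : Q (h η) = ∑ j, algebraMap L Ω (bV j : L) * c₀ (η, j) := by
      have h2 : h η = ∑ j, (fun _ => (bV j : L)) *
          (fun m' => algebraMap k L (bV.repr ⟨h η m', hhV η m'⟩ j)) := by
        funext m'
        rw [Finset.sum_apply]
        have h3 := congrArg (Subtype.val : V → L) (bV.sum_repr ⟨h η m', hhV η m'⟩)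
        rw [Submodule.coe_sum] at h3
        have h4 : ((⟨h η m', hhV η m'⟩ : V) : L) = h η m' := rfl
        rw [h4] at h3
        rw [← h3]
        refine Finset.sum_congr rfl fun j _ => ?_
        show _ = (bV j : L) * algebraMap k L (bV.repr ⟨h η m', hhV η m'⟩ j)
        rw [Submodule.coe_smul, Algebra.smul_def, mul_comm]
      conv_lhs => rw [h2]
      rw [map_sum]
      exact Finset.sum_congr rfl fun j _ => by rw [map_mul]; rfl
    rw [h1]
    exact sum_mem fun j _ => mul_mem (Subalgebra.algebraMap_mem _ _) (hcmem _)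
  -- the line
  set z : Fin 2 → σ → Ω := fun e l => Q fun m' => (![X m', Y m'] : Fin 2 → σ → L) e l with hz
  have hpl : ∀ j l, pl z j l = Q fun m' => pl ![X m', Y m'] j l := by
    intro j l
    have h1 : (fun m' => pl ![X m', Y m'] j l) =
        (fun m' => X m' j) * (fun m' => Y m' l) - (fun m' => X m' l) * fun m' => Y m' j := rfl
    rw [h1, map_sub, map_mul, map_mul]
    rfl
  have hzne : ∃ α β, pl z α β ≠ 0 := by
    by_contra hcon
    push Not at hcon
    have h1 : ∀ j l, ∀ᶠ m' in (Filter.hyperfilter ℕ : Filter ℕ), pl ![X m', Y m'] j l = 0 := by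
      intro j l
      have h2 := hcon j l
      rw [hpl, hker] at h2
      exact h2
    have h2 : ∀ᶠ m' in (Filter.hyperfilter ℕ : Filter ℕ), ∀ j l, pl ![X m', Y m'] j l = 0 :=
      Filter.eventually_all.2 fun j => Filter.eventually_all.2 fun l => h1 j l
    obtain ⟨m', hm'⟩ := h2.exists
    obtain ⟨j, l, hjl⟩ := hne0 m'
    exact hjl (hm' j l)
  -- the core
  have hcore := core_ln (k := k) (L := L) K (fun b => by rw [halgk]; exact hQK fun _ => b)
    hLD c (fun s => hQK _) (fun p => ulDer Q hQ hker (D p)) θ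
    (fun p b => ⟨D p b, ulDer_apply Q hQ hker (D p) _⟩) ?_ ?_ T hT z hzne (Q G) ?_ ?_
    (moves_ultra Q hQ hker T D θ (fun m' => ![X m', Y m']) hXm)
  · -- conclusion
    obtain ⟨G', hG', halg⟩ := hcore
    obtain ⟨α, β, hαβ⟩ := hzne
    have hconst : ∀ z : Ω, IsAlgebraic L z → ∃ b : L, algebraMap L Ω b = z := by
      rintro z ⟨p, hp0, hp⟩
      obtain ⟨f, rfl⟩ := hQ z
      have h1 : ∀ᶠ m' in (Filter.hyperfilter ℕ : Filter ℕ), p.eval (f m') = 0 := by
        rw [← hker (fun m' => p.eval (f m')), ul_Q_eval Q]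
        exact hp
      have h2 : ∃ b ∈ (p.roots.toFinset : Set L),
          ∀ᶠ m' in (Filter.hyperfilter ℕ : Filter ℕ), f m' = b := by
        refine (Ultrafilter.eventually_exists_mem_iff p.roots.toFinset.finite_toSet).mp ?_
        filter_upwards [h1] with m' hm'
        refine ⟨f m', ?_, rfl⟩
        rw [Finset.mem_coe, Multiset.mem_toFinset, Polynomial.mem_roots hp0]
        exact hm'
      obtain ⟨b, -, hb⟩ := h2
      refine ⟨b, ?_⟩
      rw [halgL, ← sub_eq_zero, ← map_sub, hker]
      filter_upwards [hb] with m' hm'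
      show b - f m' = 0
      rw [hm', sub_self]
    choose P hP using fun j l => hconst _ (halg j l)
    have hPαβ : P α β ≠ 0 := by
      intro h0
      have h1 := hP α β
      rw [h0, map_zero] at h1
      exact mul_ne_zero hG' hαβ h1.symm
    have hdiag : ∀ j, P j j = 0 := by
      intro j
      apply (algebraMap L Ω).injective
      rw [hP j j, map_zero]
      show G' * (z 0 j * z 1 j - z 0 j * z 1 j) = 0
      ring
    have hne : α ≠ β := by
      rintro rfl
      exact hPαβ (hdiag α)
    refine ⟨α, β, fun l => P l β / P α β, fun l => P α l / P α β, hne, div_self hPαβ, ?_, ?_,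
      div_self hPαβ, ?_⟩
    · show P β β / P α β = 0
      rw [hdiag, zero_div]
    · show P α α / P α β = 0
      rw [hdiag, zero_div]
    have hrel : ∀ l, ∀ᶠ m' in (Filter.hyperfilter ℕ : Filter ℕ),
        X m' l = X m' α * (P l β / P α β) + X m' β * (P α l / P α β) := by
      intro l
      have h1 : (Q fun m' => X m' l - (X m' α * (P l β / P α β) + X m' β * (P α l / P α β))) =
          0 := by
        have h2 : (Q fun m' => X m' l - (X m' α * (P l β / P α β) +
            X m' β * (P α l / P α β))) = z 0 l -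
            (z 0 α * algebraMap L Ω (P l β / P α β) + z 0 β * algebraMap L Ω (P α l / P α β)) := by
          rw [halgL, halgL]
          show _ = (Q fun m' => X m' l) - ((Q fun m' => X m' α) * (Q fun _ => P l β / P α β) +
            (Q fun m' => X m' β) * Q fun _ => P α l / P α β)
          rw [← map_mul, ← map_mul, ← map_add, ← map_sub]
          rfl
        have h3 : pl z α β ≠ 0 := hαβ
        rw [h2, map_div₀, map_div₀, hP, hP, hP, mul_div_mul_left _ _ hG', mul_div_mul_left _ _ hG']
        have h4 : z 0 l * pl z α β = z 0 α * pl z l β + z 0 β * pl z α l := by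
          unfold pl
          ring
        field_simp
        rw [h4]
        ring
      rw [hker] at h1
      filter_upwards [h1] with m' hm'
      exact sub_eq_zero.mp hm'
    have hrel' : ∀ᶠ m' in (Filter.hyperfilter ℕ : Filter ℕ), ∀ l,
        X m' l = X m' α * (P l β / P α β) + X m' β * (P α l / P α β) :=
      Filter.eventually_all.2 hrel
    have hinf' : {m' : ℕ | ∀ l, X m' l = X m' α * (P l β / P α β) +
        X m' β * (P α l / P α β)}.Infinite := by
      intro hfin
      exact Filter.notMem_hyperfilter_of_finite hfin hrel'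
    refine (hinf'.image hXi.injOn).mono ?_
    rintro _ ⟨m', hm', rfl⟩
    exact ⟨hXS m', hm'⟩
  · intro p b
    rw [halgk, ulDer_apply]
    rw [hker]
    exact Filter.Eventually.of_forall fun m' => hDk p b
  · intro p s
    show ulDer Q hQ hker (D p) (Q _) = 0
    rw [ulDer_apply, hker]
    exact Filter.Eventually.of_forall fun m' => hDk p _
  · intro h0
    rw [hker] at h0
    obtain ⟨m', hm'⟩ := h0.exists
    exact hG0 m' hm'
  · intro j l
    rw [hpl, ← map_mul]
    exact hhc (j, l)

end Pool.Agent.Helper74.LN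

end
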