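import Pool.Agent.Helper74.MG.T61
import Pool.Agent.Helper74.MG.T36
import Pool.Agent.Helper74.MG.T19
import Pool.Agent.Helper74.MG.T59

section

/-!
# QS-ULFRAME: the ultrapower is a frame

`L` is finite over `k(a)`, the `a_J` algebraically independent over `k`, `D_J` dual to them and zero
on `k`; `Ω` an ultrapower of `L` (`ul_exists`), with the derivations `ulDer`. `B` = quotients of
bounded elements `Q f`, `f m ∈ V` for all `m`, `V` a finite-dimensional `k`-subspace of `L` (a
subring: products of two such spaces). `ul_val`: ultraproducts of valuation rings.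
`rat`: let `s ⊆ B` be finite; with a common denominator `b (Q v) = Q f_b`, `v m, f_b m ∈ V₀`,
`v m ≠ 0` (change `v` on a null set). `y = Q Y`. For every direction `p` and every sign take
`Δ_p ∈ L` of `exists_bound` for `intCl (others p) (a_p)^(±1)` with `S` = a basis of `V₀` and `1`.
Claim: for almost all `m`: `(Δ_p^2 v_m)^M Y_m ∈ intCl`. Otherwise choose (`mem_of`) valuation rings
`O_m ⊇ intCl` with `(Δ_p^2 v_m)^M Y_m ∉ O_m` for almost all `m`; in the ultraproduct `O` the
element `Δ = Q (Δ_p^2 v_m)` satisfies `Bdd` (`bdd_of`) and `Δ b = Q (Δ_p^2 f_b) ∈ O`, so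
`Δ^M y ∈ O`, a contradiction. By `fd` with `Δ_p^(2 M)`: `v_m^M Y_m ∈ V₁` for almost all `m`, so
`y ∈ B`.
-/

set_option autoImplicit false

namespace Pool.Agent.Helper6.QS

open scoped BigOperators
open MvPolynomial
open Pool.Agent.Helper8.LG
open Pool.Agent.Helper49.LN (cP mo hf pl)

/-- the ultraproduct of valuation rings -/
theorem ul_val {L Ω : Type*} [Field L] [Field Ω] (Q : (ℕ → L) →+* Ω)
    (hQ : Function.Surjective Q)
    (hker : ∀ f, Q f = 0 ↔ ∀ᶠ m in (Filter.hyperfilter ℕ : Filter ℕ), f m = 0)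
    (Om : ℕ → ValuationSubring L) :
    ∃ O : ValuationSubring Ω, ∀ f : ℕ → L, Q f ∈ O ↔
      ∀ᶠ m in (Filter.hyperfilter ℕ : Filter ℕ), f m ∈ Om m := by
  have heq : ∀ (f g : ℕ → L), Q f = Q g → (∀ᶠ m in (Filter.hyperfilter ℕ : Filter ℕ), f m ∈ Om m) →
      ∀ᶠ m in (Filter.hyperfilter ℕ : Filter ℕ), g m ∈ Om m := by
    intro f g h hf
    rw [ul_eq Q hker] at h
    filter_upwards [h, hf] with m h1 h2
    rw [← h1]
    exact h2
  let O : ValuationSubring Ω :=
    { carrier := {z | ∃ f, Q f = z ∧ ∀ᶠ m in (Filter.hyperfilter ℕ : Filter ℕ), f m ∈ Om m}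
      mul_mem' := by
        rintro _ _ ⟨f, rfl, hf⟩ ⟨g, rfl, hg⟩
        refine ⟨f * g, map_mul Q f g, ?_⟩
        filter_upwards [hf, hg] with m h1 h2
        exact (Om m).mul_mem _ _ h1 h2
      one_mem' := ⟨1, map_one Q, Filter.Eventually.of_forall fun m => (Om m).one_mem⟩
      add_mem' := by
        rintro _ _ ⟨f, rfl, hf⟩ ⟨g, rfl, hg⟩
        refine ⟨f + g, map_add Q f g, ?_⟩
        filter_upwards [hf, hg] with m h1 h2
        exact (Om m).add_mem _ _ h1 h2
      zero_mem' := ⟨0, map_zero Q, Filter.Eventually.of_forall fun m => (Om m).zero_mem⟩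
      neg_mem' := by
        rintro _ ⟨f, rfl, hf⟩
        refine ⟨-f, map_neg Q f, ?_⟩
        filter_upwards [hf] with m h1
        exact (Om m).neg_mem _ h1
      mem_or_inv_mem' := by
        intro x
        obtain ⟨f, rfl⟩ := hQ x
        by_cases hf : ∀ᶠ m in (Filter.hyperfilter ℕ : Filter ℕ), f m ∈ Om m
        · exact Or.inl ⟨f, rfl, hf⟩
        · right
          have hf' : ∀ᶠ m in (Filter.hyperfilter ℕ : Filter ℕ), f m ∉ Om m :=
            Ultrafilter.eventually_not.2 hf
          refine ⟨fun m => (f m)⁻¹, ?_, ?_⟩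
          · have h1 : Q (fun m => (f m)⁻¹) * Q f = 1 := by
              rw [← map_mul, ← map_one Q, ul_eq Q hker]
              filter_upwards [hf'] with m hm
              have h0 : f m ≠ 0 := by
                intro h0
                rw [h0] at hm
                exact hm (Om m).zero_mem
              show (f m)⁻¹ * f m = 1
              exact inv_mul_cancel₀ h0
            exact eq_inv_of_mul_eq_one_left h1
          · filter_upwards [hf'] with m hm
            exact ((Om m).mem_or_inv_mem (f m)).resolve_left hm }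
  refine ⟨O, fun f => ⟨?_, fun h => ⟨f, rfl, h⟩⟩⟩
  rintro ⟨g, hg, h⟩
  exact heq g f hg h

/-- quotients of bounded elements -/
def UlFrameB (k : Type*) {L Ω : Type*} [Field k] [Field L] [Algebra k L] [Field Ω]
    (Q : (ℕ → L) →+* Ω) (y : Ω) : Prop :=
  ∃ V : Submodule k L, FiniteDimensional k V ∧ ∃ f g : ℕ → L,
    (∀ m, f m ∈ V) ∧ (∀ m, g m ∈ V) ∧ Q g ≠ 0 ∧ y * Q g = Q f

section

variable {k L Ω : Type*} [Field k] [Field L] [Algebra k L] [Field Ω] (Q : (ℕ → L) →+* Ω)

theorem ulFrame_fdmul (V W : Submodule k L) (hV : FiniteDimensional k V)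
    (hW : FiniteDimensional k W) : FiniteDimensional k ((V * W : Submodule k L)) :=
  Module.Finite.iff_fg.2 ((Module.Finite.iff_fg.1 hV).mul (Module.Finite.iff_fg.1 hW))

theorem ulFrame_fdpow (V : Submodule k L) (hV : FiniteDimensional k V) (n : ℕ) :
    FiniteDimensional k ((V ^ n : Submodule k L)) :=
  Module.Finite.iff_fg.2 ((Module.Finite.iff_fg.1 hV).pow n)

theorem ulFrame_fdone : FiniteDimensional k ((1 : Submodule k L)) := by
  rw [Submodule.one_eq_span]
  exact FiniteDimensional.span_of_finite k (Set.toFinite _)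

theorem ulFrame_one : UlFrameB k Q 1 := by
  refine ⟨1, ulFrame_fdone, fun _ => 1, fun _ => 1, fun _ => ?_, fun _ => ?_,
    ?_, ?_⟩
  · exact Submodule.one_le.1 le_rfl
  · exact Submodule.one_le.1 le_rfl
  · have : Q (fun _ => 1) = 1 := map_one Q
    rw [this]
    exact one_ne_zero
  · rw [one_mul]

theorem ulFrame_zero : UlFrameB k Q 0 := by
  obtain ⟨V, hV, f, g, hf, hg, hg0, -⟩ := ulFrame_one (k := k) Q
  refine ⟨V, hV, fun _ => 0, g, fun _ => V.zero_mem, hg, hg0, ?_⟩
  have : Q (fun _ => 0) = 0 := map_zero Q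
  rw [this, zero_mul]

theorem ulFrame_neg {y : Ω} (hy : UlFrameB k Q y) : UlFrameB k Q (-y) := by
  obtain ⟨V, hV, f, g, hf, hg, hg0, h⟩ := hy
  refine ⟨V, hV, -f, g, fun m => V.neg_mem (hf m), hg, hg0, ?_⟩
  rw [map_neg, ← h, neg_mul]

theorem ulFrame_inv {y : Ω} (hy : UlFrameB k Q y) : UlFrameB k Q y⁻¹ := by
  by_cases hy0 : y = 0
  · rw [hy0, inv_zero]
    exact ulFrame_zero Q
  obtain ⟨V, hV, f, g, hf, hg, hg0, h⟩ := hy
  refine ⟨V, hV, g, f, hg, hf, ?_, ?_⟩
  · rw [← h]
    exact mul_ne_zero hy0 hg0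
  · rw [← h, ← mul_assoc, inv_mul_cancel₀ hy0, one_mul]

theorem ulFrame_mul {y z : Ω} (hy : UlFrameB k Q y) (hz : UlFrameB k Q z) :
    UlFrameB k Q (y * z) := by
  obtain ⟨V, hV, f, g, hf, hg, hg0, h⟩ := hy
  obtain ⟨V', hV', f', g', hf', hg', hg0', h'⟩ := hz
  refine ⟨V * V', ulFrame_fdmul V V' hV hV', f * f', g * g', fun m => ?_, fun m => ?_, ?_, ?_⟩
  · exact Submodule.mul_mem_mul (hf m) (hf' m)
  · exact Submodule.mul_mem_mul (hg m) (hg' m)
  · rw [map_mul]
    exact mul_ne_zero hg0 hg0'
  · rw [map_mul, map_mul, ← h, ← h']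
    ring

theorem ulFrame_add {y z : Ω} (hy : UlFrameB k Q y) (hz : UlFrameB k Q z) :
    UlFrameB k Q (y + z) := by
  obtain ⟨V, hV, f, g, hf, hg, hg0, h⟩ := hy
  obtain ⟨V', hV', f', g', hf', hg', hg0', h'⟩ := hz
  refine ⟨V * V', ulFrame_fdmul V V' hV hV', f * g' + g * f', g * g', fun m => ?_, fun m => ?_,
    ?_, ?_⟩
  · exact (V * V').add_mem (Submodule.mul_mem_mul (hf m) (hg' m))
      (Submodule.mul_mem_mul (hg m) (hf' m))
  · exact Submodule.mul_mem_mul (hg m) (hg' m)
  · rw [map_mul]
    exact mul_ne_zero hg0 hg0'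
  · rw [map_add, map_mul, map_mul, map_mul, ← h, ← h']
    ring

theorem ulFrame_const (b : L) : UlFrameB k Q (Q fun _ => b) := by
  refine ⟨Submodule.span k {b, 1}, FiniteDimensional.span_of_finite k (Set.toFinite _),
    fun _ => b, fun _ => 1, fun _ => ?_, fun _ => ?_, ?_, ?_⟩
  · exact Submodule.subset_span (Or.inl rfl)
  · exact Submodule.subset_span (Or.inr rfl)
  · have : Q (fun _ => 1) = 1 := map_one Q
    rw [this]
    exact one_ne_zero
  · have : Q (fun _ => 1) = 1 := map_one Q
    rw [this, mul_one]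

/-- a common denominator -/
theorem ulFrame_denom (hker : ∀ f, Q f = 0 ↔ ∀ᶠ m in (Filter.hyperfilter ℕ : Filter ℕ), f m = 0)
    (s : Finset Ω) (hs : ∀ b ∈ s, UlFrameB k Q b) :
    ∃ V : Submodule k L, FiniteDimensional k V ∧ ∃ v : ℕ → L, (∀ m, v m ∈ V) ∧ (∀ m, v m ≠ 0) ∧
      ∀ b ∈ s, ∃ f : ℕ → L, (∀ m, f m ∈ V) ∧ b * Q v = Q f := by
  classical
  induction s using Finset.induction_on with
  | empty =>
    refine ⟨1, ulFrame_fdone, fun _ => 1, fun _ => ?_,
      fun _ => one_ne_zero, fun b hb => ?_⟩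
    · exact Submodule.one_le.1 le_rfl
    · exact absurd hb (Finset.notMem_empty b)
  | insert b₀ s hb₀ ih =>
    obtain ⟨V, hV, v, hv, hv0, h⟩ := ih fun b hb => hs b (Finset.mem_insert_of_mem hb)
    obtain ⟨V', hV', f', g', hf', hg', hg0', h'⟩ := hs b₀ (Finset.mem_insert_self b₀ s)
    set g₁ : ℕ → L := fun m => if g' m = 0 then 1 else g' m with hg₁
    have hne : ∀ᶠ m in (Filter.hyperfilter ℕ : Filter ℕ), g' m ≠ 0 :=
      Ultrafilter.eventually_not.2 fun h0 => hg0' ((hker g').2 h0)
    have hQg : Q g₁ = Q g' := by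
      rw [ul_eq Q hker]
      filter_upwards [hne] with m hm
      rw [hg₁]
      exact if_neg hm
    have h1 : FiniteDimensional k ((1 : Submodule k L)) :=
      ulFrame_fdone
    have h1m : (1 : L) ∈ (1 : Submodule k L) := Submodule.one_le.1 le_rfl
    have hW : FiniteDimensional k ((V' ⊔ 1 : Submodule k L)) := inferInstance
    have hg₁m : ∀ m, g₁ m ∈ V' ⊔ 1 := by
      intro m
      show (if g' m = 0 then 1 else g' m) ∈ V' ⊔ 1
      split_ifs
      · exact Submodule.mem_sup_right h1m
      · exact Submodule.mem_sup_left (hg' m)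
    refine ⟨V * (V' ⊔ 1), ulFrame_fdmul _ _ hV hW, v * g₁, fun m => ?_, fun m => ?_,
      fun b hb => ?_⟩
    · exact Submodule.mul_mem_mul (hv m) (hg₁m m)
    · refine mul_ne_zero (hv0 m) ?_
      show (if g' m = 0 then 1 else g' m) ≠ 0
      split_ifs with h0
      · exact one_ne_zero
      · exact h0
    · rcases Finset.mem_insert.1 hb with rfl | hb
      · refine ⟨v * f', fun m => Submodule.mul_mem_mul (hv m) (Submodule.mem_sup_left (hf' m)), ?_⟩
        rw [map_mul, map_mul, hQg, ← h']
        ring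
      · obtain ⟨f, hf, hfb⟩ := h b hb
        refine ⟨f * g₁, fun m => Submodule.mul_mem_mul (hf m) (hg₁m m), ?_⟩
        rw [map_mul, map_mul, ← hfb]
        ring

end

private theorem ulFrame_inv_der {L : Type*} [Field L] (D : Derivation ℤ L L) (f : L) :
    D f⁻¹ = -(f⁻¹ ^ 2) * D f := by
  have h := Derivation.leibniz_inv D f
  rw [h, smul_eq_mul]

/-- one direction -/
theorem ulFrame_dir {k L Ω : Type*} [Field k] [Field L] [CharZero L] [Algebra k L] [Field Ω]
    (Q : (ℕ → L) →+* Ω) (hQ : Function.Surjective Q)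
    (hker : ∀ f, Q f = 0 ↔ ∀ᶠ m in (Filter.hyperfilter ℕ : Filter ℕ), f m = 0)
    {P : Type*} [Finite P] (D : P → Derivation ℤ L L)
    (E₀ : Subfield L) (hk : ∀ c : k, algebraMap k L c ∈ E₀) (t : L) (ht : Transcendental E₀ t)
    (hfin : FiniteDimensional (Subfield.closure ((E₀ : Set L) ∪ {t})) L)
    (hE₀ : ∀ p, ∀ f ∈ E₀, D p f ∈ E₀)
    (hDt : ∀ p, D p t ∈ Subring.closure ((E₀ : Set L) ∪ {t}))
    (V : Submodule k L) (hV : FiniteDimensional k V) (v : ℕ → L) (hv : ∀ m, v m ∈ V)
    (s : Finset Ω) (F : Ω → ℕ → L) (hF : ∀ b ∈ s, ∀ m, F b m ∈ V)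
    (hFb : ∀ b ∈ s, b * Q v = Q (F b)) (Y : ℕ → L) (M : ℕ)
    (h : ∀ (O : ValuationSubring Ω) (Δ : Ω), Bdd (fun p => ulDer Q hQ hker (D p)) Δ O →
      (∀ b ∈ s, Δ * b ∈ O) → Δ ^ M * Q Y ∈ O) :
    ∃ Δ : L, Δ ≠ 0 ∧ ∀ᶠ m in (Filter.hyperfilter ℕ : Filter ℕ),
      Δ ^ (2 * M) * (v m ^ M * Y m) ∈ intCl E₀ t := by
  classical
  obtain ⟨T, hT⟩ : V.FG := Module.Finite.iff_fg.1 hV
  obtain ⟨Δ, hΔc, hΔ0, hΔD, hΔS⟩ := exists_bound E₀ t ht hfin D hE₀ hDt (T : Set L)
    T.finite_toSet
  obtain ⟨hDed, hFrac⟩ := intCl_dedekind E₀ t ht hfin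
  have hcl : Subring.closure ((E₀ : Set L) ∪ {t}) ≤ intCl E₀ t := by
    intro f hf
    exact isIntegral_algebraMap (R := Subring.closure ((E₀ : Set L) ∪ {t})) (x := ⟨f, hf⟩)
  have hkR : ∀ c : k, algebraMap k L c ∈ intCl E₀ t := fun c =>
    hcl (Subring.subset_closure (Or.inl (hk c)))
  have hΔR : Δ ∈ intCl E₀ t := hcl hΔc
  have hVR : ∀ w ∈ V, Δ * w ∈ intCl E₀ t := by
    intro w hw
    rw [← hT] at hw
    induction hw using Submodule.span_induction with
    | mem w hw => exact hΔS w hw
    | zero => rw [mul_zero]; exact zero_mem _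
    | add u w _ _ hu hw => rw [mul_add]; exact add_mem hu hw
    | smul c w _ hw =>
      rw [Algebra.smul_def, mul_left_comm]
      exact mul_mem (hkR c) hw
  refine ⟨Δ, hΔ0, ?_⟩
  by_contra hcon
  have hcon' : ∀ᶠ m in (Filter.hyperfilter ℕ : Filter ℕ),
      Δ ^ (2 * M) * (v m ^ M * Y m) ∉ intCl E₀ t := Ultrafilter.eventually_not.2 hcon
  have hex : ∀ m, ∃ O : ValuationSubring L, intCl E₀ t ≤ O.toSubring ∧
      (Δ ^ (2 * M) * (v m ^ M * Y m) ∉ intCl E₀ t → Δ ^ (2 * M) * (v m ^ M * Y m) ∉ O) := by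
    intro m
    by_cases hm : Δ ^ (2 * M) * (v m ^ M * Y m) ∈ intCl E₀ t
    · exact ⟨⊤, fun _ _ => ValuationSubring.mem_top _, fun h0 => absurd hm h0⟩
    · by_contra h1
      push Not at h1
      refine hm (mem_of (intCl E₀ t) _ fun O hO => ?_)
      exact (h1 O hO).2
  choose Om hOm hOm' using hex
  obtain ⟨O, hO⟩ := ul_val Q hQ hker Om
  have hbdd : ∀ m, Bdd D Δ (Om m) := fun m =>
    bdd_of (intCl E₀ t) D Δ hΔR hΔD (Om m) (hOm m)
  have h1 := h O (Q fun m => Δ ^ 2 * v m) ⟨?_, ?_⟩ ?_
  · rw [← map_pow, ← map_mul, hO] at h1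
    obtain ⟨m, hm, hm'⟩ := (hcon'.and h1).exists
    refine hOm' m hm ?_
    have h2 : (((fun m => Δ ^ 2 * v m) ^ M * Y : ℕ → L)) m = Δ ^ (2 * M) * (v m ^ M * Y m) := by
      show (Δ ^ 2 * v m) ^ M * Y m = _
      rw [mul_pow, ← pow_mul, mul_assoc]
    rw [← h2]
    exact hm'
  · rw [hO]
    refine Filter.Eventually.of_forall fun m => hOm m ?_
    have h2 : Δ ^ 2 * v m = Δ * (Δ * v m) := by ring
    show Δ ^ 2 * v m ∈ intCl E₀ t
    rw [h2]
    exact mul_mem hΔR (hVR _ (hv m))
  · intro p z hz
    obtain ⟨g, rfl⟩ := hQ z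
    rw [hO] at hz
    show _ * ulDer Q hQ hker (D p) (Q g) ∈ O
    rw [ulDer_apply, ← map_mul, hO]
    filter_upwards [hz] with m hm
    have h2 : ((fun m => Δ ^ 2 * v m) * (fun m => D p (g m)) : ℕ → L) m =
        (Δ * v m) * (Δ * D p (g m)) := by
      show (Δ ^ 2 * v m) * D p (g m) = _
      ring
    rw [h2]
    exact (Om m).mul_mem _ _ (hOm m (hVR _ (hv m))) ((hbdd m).2 p _ hm)
  · intro b hb
    have h2 : (Q fun m => Δ ^ 2 * v m) * b = Q fun m => Δ ^ 2 * F b m := by
      have h3 : (fun m => Δ ^ 2 * v m) = (fun _ => Δ ^ 2) * v := rfl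
      have h4 : (fun m => Δ ^ 2 * F b m) = (fun _ => Δ ^ 2) * F b := rfl
      rw [h3, h4, map_mul, map_mul, ← hFb b hb]
      ring
    rw [h2, hO]
    refine Filter.Eventually.of_forall fun m => hOm m ?_
    have h5 : Δ ^ 2 * F b m = Δ * (Δ * F b m) := by ring
    show Δ ^ 2 * F b m ∈ intCl E₀ t
    rw [h5]
    exact mul_mem hΔR (hVR _ (hF b hb m))

theorem ul_frame {k L Ω : Type*} [Field k] [Field L] [CharZero L] [Algebra k L] [Field Ω]
    (Q : (ℕ → L) →+* Ω) (hQ : Function.Surjective Q)
    (hker : ∀ f, Q f = 0 ↔ ∀ᶠ m in (Filter.hyperfilter ℕ : Filter ℕ), f m = 0)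
    {σ : Type*} [Fintype σ] [DecidableEq σ] {q : ℕ} (a : Sym σ q → L)
    (hind : AlgebraicIndependent k a)
    (hfin : FiniteDimensional (IntermediateField.adjoin k (Set.range a)) L)
    (D : Sym σ q → Derivation ℤ L L) (hD : ∀ I J, D J (a I) = if I = J then 1 else 0)
    (hDk : ∀ J (c : k), D J (algebraMap k L c) = 0) :
    ∃ B : Subfield Ω, Frame (fun J => ulDer Q hQ hker (D J)) (fun J => Q fun _ => a J) B ∧
      ∀ y ∈ B, ∃ V : Submodule k L, FiniteDimensional k V ∧ ∃ f g : ℕ → L,
        (∀ m, f m ∈ V) ∧ (∀ m, g m ∈ V) ∧ Q g ≠ 0 ∧ y * Q g = Q f := by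
  classical
  let B : Subfield Ω :=
    { carrier := {y | UlFrameB k Q y}
      mul_mem' := fun hy hz => ulFrame_mul Q hy hz
      one_mem' := ulFrame_one Q
      add_mem' := fun hy hz => ulFrame_add Q hy hz
      zero_mem' := ulFrame_zero Q
      neg_mem' := fun hy => ulFrame_neg Q hy
      inv_mem' := fun _ hy => ulFrame_inv Q hy }
  refine ⟨B, ⟨?_, ?_, ?_⟩, fun y hy => hy⟩
  · intro I J
    show ulDer Q hQ hker (D J) (Q fun _ => a I) = _
    rw [ulDer_apply]
    split_ifs with h
    · have h1 : (fun _ : ℕ => D J (a I)) = 1 := by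
        funext m
        rw [hD, if_pos h]
        rfl
      rw [h1, map_one]
    · have h1 : (fun _ : ℕ => D J (a I)) = 0 := by
        funext m
        rw [hD, if_neg h]
        rfl
      rw [h1, map_zero]
  · intro J
    exact ulFrame_const Q (a J)
  · intro s hs y M h
    obtain ⟨V, hV, v, hv, hv0, hF⟩ := ulFrame_denom (k := k) Q hker s hs
    have hF' : ∀ b, ∃ f : ℕ → L, b ∈ s → (∀ m, f m ∈ V) ∧ b * Q v = Q f := by
      intro b
      by_cases hb : b ∈ s
      · obtain ⟨f, hf⟩ := hF b hb
        exact ⟨f, fun _ => hf⟩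
      · exact ⟨0, fun h0 => absurd h0 hb⟩
    choose F hF using hF'
    obtain ⟨Y, rfl⟩ := hQ y
    have htr := others_transcendental (k := k) a hind
    have hof := others_finite (k := k) a hfin
    have hk : ∀ (p : Sym σ q) (c : k), algebraMap k L c ∈ others (k := k) a p := fun p c =>
      IntermediateField.algebraMap_mem _ c
    have hst : ∀ (p J : Sym σ q), ∀ f ∈ others (k := k) a p, D J f ∈ others (k := k) a p := by
      intro p J f hf
      have hf' : f ∈ IntermediateField.adjoin k (a '' {p}ᶜ) := hf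
      show D J f ∈ IntermediateField.adjoin k (a '' {p}ᶜ)
      induction hf' using IntermediateField.adjoin_induction with
      | mem x hx =>
        obtain ⟨r, _, rfl⟩ := hx
        rw [hD]
        split_ifs
        · exact one_mem _
        · exact zero_mem _
      | algebraMap c =>
        rw [hDk J c]
        exact zero_mem _
      | add x y hx hy hx' hy' =>
        rw [map_add]
        exact add_mem (hx' hx) (hy' hy)
      | inv x hx hx' =>
        rw [ulFrame_inv_der]
        exact mul_mem (neg_mem (pow_mem (inv_mem hx) 2)) (hx' hx)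
      | mul x y hx hy hx' hy' =>
        rw [Derivation.leibniz, smul_eq_mul, smul_eq_mul]
        exact add_mem (mul_mem hx (hy' hy)) (mul_mem hy (hx' hx))
    have hvar : ∀ (p J : Sym σ q) (R : Subring L), D J (a p) ∈ R := by
      intro p J R
      rw [hD]
      split_ifs
      · exact one_mem _
      · exact zero_mem _
    have h1 : ∀ p : Sym σ q, ∃ Δ : L, Δ ≠ 0 ∧ ∀ᶠ m in (Filter.hyperfilter ℕ : Filter ℕ),
        Δ ^ (2 * M) * (v m ^ M * Y m) ∈ intCl (others (k := k) a p) (a p) := fun p =>
      ulFrame_dir Q hQ hker D (others (k := k) a p) (hk p) (a p) (htr p).1 (hof p).1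
        (fun J => hst p J) (fun J => hvar p J _) V hV v hv s F (fun b hb => (hF b hb).1)
        (fun b hb => (hF b hb).2) Y M h
    have h2 : ∀ p : Sym σ q, ∃ Δ : L, Δ ≠ 0 ∧ ∀ᶠ m in (Filter.hyperfilter ℕ : Filter ℕ),
        Δ ^ (2 * M) * (v m ^ M * Y m) ∈ intCl (others (k := k) a p) (a p)⁻¹ := fun p =>
      ulFrame_dir Q hQ hker D (others (k := k) a p) (hk p) (a p)⁻¹ (htr p).2 (hof p).2
        (fun J => hst p J)
        (fun J => by
          have hinv : (a p)⁻¹ ∈ Subring.closure
              ((others (k := k) a p : Set L) ∪ {(a p)⁻¹}) :=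
            Subring.subset_closure (Or.inr rfl)
          rw [ulFrame_inv_der]
          exact mul_mem (neg_mem (pow_mem hinv 2)) (hvar p J _))
        V hV v hv s F (fun b hb => (hF b hb).1) (fun b hb => (hF b hb).2) Y M h
    choose Δ hΔ0 hΔ using h1
    choose Δ' hΔ0' hΔ' using h2
    obtain ⟨V₁, hV₁, hfd⟩ := fd a hind hfin (fun p => Δ p ^ (2 * M)) (fun p => Δ' p ^ (2 * M))
      (fun p => pow_ne_zero _ (hΔ0 p)) (fun p => pow_ne_zero _ (hΔ0' p))
    have h3 : ∀ᶠ m in (Filter.hyperfilter ℕ : Filter ℕ), v m ^ M * Y m ∈ V₁ := by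
      have h4 := (Filter.eventually_all.2 hΔ).and (Filter.eventually_all.2 hΔ')
      filter_upwards [h4] with m hm
      exact hfd _ fun p => ⟨hm.1 p, hm.2 p⟩
    have hVM := ulFrame_fdpow V hV M
    refine ⟨V₁ ⊔ V ^ M, inferInstance, fun m => if v m ^ M * Y m ∈ V₁ then v m ^ M * Y m else 0,
      fun m => v m ^ M, fun m => ?_, fun m => ?_, ?_, ?_⟩
    · show (if v m ^ M * Y m ∈ V₁ then v m ^ M * Y m else 0) ∈ V₁ ⊔ V ^ M
      split_ifs with hm
      · exact Submodule.mem_sup_left hm
      · exact Submodule.zero_mem _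
    · exact Submodule.mem_sup_right (Submodule.pow_mem_pow V (hv m) M)
    · intro h0
      rw [hker] at h0
      obtain ⟨m, hm⟩ := h0.exists
      exact pow_ne_zero _ (hv0 m) hm
    · rw [← map_mul, ul_eq Q hker]
      filter_upwards [h3] with m hm
      rw [if_pos hm]
      show Y m * v m ^ M = _
      rw [mul_comm]

end Pool.Agent.Helper6.QS

end

section

/-!
# QS-STAGEONE: infinitely many of the points are bounded

Apply `KeyQ` in the ultrapower (`ul_exists L`, `ul_frame`) to the point `x = (Q (X m l))_l`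
(`form` by `ul_Q_form`): all `x_l ∈ B`, so with a common denominator `Q g`, `Q g ≠ 0`,
`Q g * x_l = Q f_l`, all in one finite-dimensional `V`; so `g m ≠ 0` and `g m * X m l = f_l m ∈ V`
for almost all `m`, hence for infinitely many.
-/

set_option autoImplicit false

namespace Pool.Agent.Helper6.QS

open scoped BigOperators
open MvPolynomial
open Pool.Agent.Helper8.LG
open Pool.Agent.Helper49.LN (cP mo hf pl)

universe u v

/-- a common denominator -/
theorem StageOne_den {k : Type v} {L : Type u} [Field k] [Field L] [Algebra k L] {Ω : Type u}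
    [Field Ω] (Q : (ℕ → L) →+* Ω) {ι : Type} [DecidableEq ι] (x : ι → Ω)
    (hx : ∀ l, ∃ V : Submodule k L, FiniteDimensional k V ∧ ∃ f g : ℕ → L,
      (∀ m, f m ∈ V) ∧ (∀ m, g m ∈ V) ∧ Q g ≠ 0 ∧ x l * Q g = Q f) (s : Finset ι) :
    ∃ V : Submodule k L, FiniteDimensional k V ∧ ∃ (f : ι → ℕ → L) (g : ℕ → L),
      (∀ l ∈ s, ∀ m, f l m ∈ V) ∧ (∀ m, g m ∈ V) ∧ Q g ≠ 0 ∧ ∀ l ∈ s, x l * Q g = Q (f l) := by
  induction s using Finset.induction_on with
  | empty =>
    refine ⟨Submodule.span k {1}, FiniteDimensional.span_singleton k 1, fun _ _ => 0, fun _ => 1,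
      fun l hl => absurd hl (Finset.notMem_empty l), fun _ => Submodule.mem_span_singleton_self 1,
      ?_, fun l hl => absurd hl (Finset.notMem_empty l)⟩
    have : Q (fun _ => (1 : L)) = 1 := map_one Q
    rw [this]
    exact one_ne_zero
  | insert l₀ s hl₀ ih =>
    obtain ⟨V, hV, f, g, hf, hg, hg0, hx1⟩ := ih
    obtain ⟨V₀, hV₀, f₀, g₀, hf₀, hg₀, hg₀0, hx₀⟩ := hx l₀
    refine ⟨V * V₀, ?_, fun l => if l = l₀ then g * f₀ else f l * g₀, g * g₀, ?_, ?_, ?_, ?_⟩
    · have h1 : V.FG := Module.Finite.iff_fg.1 hV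
      have h2 : V₀.FG := Module.Finite.iff_fg.1 hV₀
      exact Module.Finite.iff_fg.2 (h1.mul h2)
    · intro l hl m
      by_cases h : l = l₀
      · simp only [h, if_true]
        exact Submodule.mul_mem_mul (hg m) (hf₀ m)
      · simp only [h, if_false]
        exact Submodule.mul_mem_mul (hf l ((Finset.mem_insert.1 hl).resolve_left h) m) (hg₀ m)
    · exact fun m => Submodule.mul_mem_mul (hg m) (hg₀ m)
    · rw [map_mul]
      exact mul_ne_zero hg0 hg₀0
    · intro l hl
      by_cases h : l = l₀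
      · subst h
        simp only [if_true]
        rw [map_mul, map_mul, ← hx₀]
        ring
      · simp only [h, if_false]
        rw [map_mul, map_mul, ← hx1 l ((Finset.mem_insert.1 hl).resolve_left h)]
        ring

theorem stage_one {N q : ℕ} (hK : KeyQ.{u} N q) {k : Type v} {L : Type u} [Field k] [Field L]
    [CharZero L] [Algebra k L] (a : Sym (Fin (N + 1)) q → L) (hind : AlgebraicIndependent k a)
    (hfin : FiniteDimensional (IntermediateField.adjoin k (Set.range a)) L)
    (D : Sym (Fin (N + 1)) q → Derivation ℤ L L)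
    (hD : ∀ I J, D J (a I) = if I = J then 1 else 0)
    (hDk : ∀ J (c : k), D J (algebraMap k L c) = 0)
    (X : ℕ → Fin (N + 1) → L) (h0 : ∀ m, X m 0 = 1) (hF : ∀ m, form a (X m) = 0) :
    ∃ V : Submodule k L, FiniteDimensional k V ∧
      {m : ℕ | ∃ G : L, G ≠ 0 ∧ ∀ l, G * X m l ∈ V}.Infinite := by
  classical
  obtain ⟨Ω, instΩ, Q, hQ, hker⟩ := ul_exists L
  let algLΩ : Algebra L Ω := (Q.comp (Pi.constRingHom ℕ L)).toAlgebra
  have : CharZero Ω := charZero_of_injective_algebraMap (algebraMap L Ω).injective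
  obtain ⟨B, hfr, hB⟩ := ul_frame Q hQ hker a hind hfin D hD hDk
  set x : Fin (N + 1) → Ω := fun l => Q fun m => X m l with hx
  have hx0 : x 0 = 1 := by
    rw [hx]
    simp only [h0]
    exact map_one Q
  have hxF : form (fun J => Q fun _ => a J) x = 0 := by
    rw [hx, ← ul_Q_form]
    simp only [hF]
    exact map_zero Q
  have hxB := hK Ω _ _ B hfr x hx0 hxF
  obtain ⟨V, hV, f, g, hf, hg, hg0, hxg⟩ := StageOne_den (k := k) Q x (fun l => hB _ (hxB l))
    Finset.univ
  refine ⟨V, hV, ?_⟩
  have h1 : ∀ᶠ m in (Filter.hyperfilter ℕ : Filter ℕ), g m ≠ 0 := by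
    have h2 : ¬ ∀ᶠ m in (Filter.hyperfilter ℕ : Filter ℕ), g m = 0 := fun h => hg0 ((hker g).2 h)
    exact Ultrafilter.eventually_not.2 h2
  have h3 : ∀ᶠ m in (Filter.hyperfilter ℕ : Filter ℕ), ∀ l, g m * X m l = f l m := by
    rw [Filter.eventually_all]
    intro l
    have h4 : Q ((fun m => X m l) * g - f l) = 0 := by
      rw [map_sub, map_mul, ← hxg l (Finset.mem_univ l), sub_self]
    refine ((hker _).1 h4).mono fun m hm => ?_
    have h5 : X m l * g m - f l m = 0 := hm
    rw [mul_comm]
    exact sub_eq_zero.1 h5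
  intro hfin'
  refine hfin'.notMem_hyperfilter ?_
  have h6 := h1.and h3
  refine Filter.mem_of_superset h6 ?_
  rintro m ⟨hm1, hm2⟩
  exact ⟨g m, hm1, fun l => by rw [hm2 l]; exact hf l (Finset.mem_univ l) m⟩

end Pool.Agent.Helper6.QS

end

section

/-!
# QS-STAGETWO: rigidity

Copy of `rp_alg` (`Helper74/LN/RigidP.lean`), without forms. For `b ∈ Bs` let
`E₀ = L(c_(Bs - b))` and `B` = the elements of `E` algebraic over `E₀`. `Frame D a B`: for `rat`
take, on both sides `t = c_b` and `t = 1 / c_b`, the valuation rings `O ⊇ intCl E₀ t` and `Δ = 1`: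
`Bdd D 1 O` (`intCl_stable`, `bdd_of`), elements of `B` lie in `intCl E₀ t` (algebraic over the
field `E₀`), so `y ∈ O` for all these `O`, `y ∈ intCl E₀ t` (`mem_of`), and `algebraic_of_mem`
gives `y ∈ B`. So by `KeyQ` the `x_l` are algebraic over all these `E₀`; `exchange`, as in `rp_alg`.
-/

set_option autoImplicit false

namespace Pool.Agent.Helper6.QS

open scoped BigOperators
open MvPolynomial
open Pool.Agent.Helper8.LG
open Pool.Agent.Helper49.LN (cP mo hf pl)

universe u v w

theorem stage_two {N q : ℕ} (hK : KeyQ.{u} N q) {k : Type v} {L : Type w} {E : Type u} [Field k]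
    [Field L] [Field E] [CharZero E] [Algebra k L] [Algebra L E] [Algebra k E]
    [IsScalarTower k L E] {n : ℕ} (c : Fin n → E)
    (hgen : IntermediateField.adjoin L (Set.range c) = ⊤) (Bs : Set (Fin n))
    (hB : AlgebraicIndependent L (fun b : Bs => c b))
    (halg : ∀ r, IsAlgebraic (IntermediateField.adjoin k (c '' Bs)) (c r))
    (a : Sym (Fin (N + 1)) q → L) (D : Sym (Fin (N + 1)) q → Derivation ℤ E E)
    (hD : ∀ I J, D J (algebraMap L E (a I)) = if I = J then 1 else 0)
    (hDL : ∀ p b, ∃ b', D p (algebraMap L E b) = algebraMap L E b')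
    (hDk : ∀ p (b : k), D p (algebraMap k E b) = 0) (hDc : ∀ p r, D p (c r) = 0)
    (x : Fin (N + 1) → E) (hx : x 0 = 1) (hF : form (fun J => algebraMap L E (a J)) x = 0) :
    ∀ l, IsAlgebraic L (x l) := by
  classical
  -- the field `F = E₀(t)`
  have hrange : (Set.range fun b : Bs => c b) = c '' Bs := by
    ext z
    constructor
    · rintro ⟨b, rfl⟩
      exact ⟨b, b.2, rfl⟩
    · rintro ⟨b, hb, rfl⟩
      exact ⟨⟨b, hb⟩, rfl⟩
  have halgF : ∀ (F : Subfield E), (∀ b : k, algebraMap k E b ∈ F) → (∀ b ∈ Bs, c b ∈ F) →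
      ∀ r, IsAlgebraic F (c r) := by
    intro F hkF hBF r
    refine rg_alg (R₁ := IntermediateField.adjoin k (c '' Bs)) (fun s => ?_) (halg r)
    have h1 : (IntermediateField.adjoin k (c '' Bs)).toSubfield ≤ F := by
      rw [IntermediateField.adjoin_toSubfield, Subfield.closure_le]
      rintro z (⟨b, rfl⟩ | ⟨b, hb, rfl⟩)
      · exact hkF b
      · exact hBF b hb
    exact ⟨⟨s, h1 s.2⟩, rfl⟩
  have hfinF : ∀ (F : Subfield E), (∀ b : L, algebraMap L E b ∈ F) → (∀ b ∈ Bs, c b ∈ F) →
      FiniteDimensional F E := by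
    intro F hLF hBF
    have hkF : ∀ b : k, algebraMap k E b ∈ F := fun b => by
      rw [IsScalarTower.algebraMap_apply k L E]
      exact hLF _
    have h1 : FiniteDimensional F (IntermediateField.adjoin F (Set.range c)) :=
      IntermediateField.finiteDimensional_adjoin (by
        rintro z ⟨r, rfl⟩
        exact (halgF F hkF hBF r).isIntegral)
    have h2 : IntermediateField.adjoin F (Set.range c) = ⊤ := by
      rw [eq_top_iff]
      intro z _
      have hz : z ∈ IntermediateField.adjoin L (Set.range c) := by rw [hgen]; trivial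
      have h3 : (IntermediateField.adjoin L (Set.range c)).toSubfield ≤
          (IntermediateField.adjoin F (Set.range c)).toSubfield := by
        rw [IntermediateField.adjoin_toSubfield, Subfield.closure_le]
        rintro z (⟨b, rfl⟩ | hz)
        · exact (IntermediateField.adjoin F (Set.range c)).algebraMap_mem ⟨_, hLF b⟩
        · exact IntermediateField.subset_adjoin F _ hz
      exact h3 hz
    rw [h2] at h1
    exact Module.Finite.equiv (IntermediateField.topEquiv (F := F) (E := E)).toLinearEquiv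
  intro l₀
  obtain ⟨v, hv⟩ : ∃ v, v = x l₀ := ⟨_, rfl⟩
  rw [← hv]
  refine exchange (fun b : Bs => c b) hB v ?_ fun b => ?_
  · -- algebraic over `L(c_B)`
    have h1 := hfinF (IntermediateField.adjoin L (Set.range fun b : Bs => c b)).toSubfield
      (fun b => (IntermediateField.adjoin L (Set.range fun b : Bs => c b)).algebraMap_mem b)
      (fun b hb => IntermediateField.subset_adjoin L _ ⟨⟨b, hb⟩, rfl⟩)
    have h2 : IsAlgebraic (IntermediateField.adjoin L (Set.range fun b : Bs => c b)).toSubfield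
        v := Algebra.IsAlgebraic.isAlgebraic _
    exact rg_alg (fun s => ⟨⟨s, s.2⟩, rfl⟩) h2
  · -- algebraic over `L(c_(B - b))`
    set S₀ : Set E := (fun b : Bs => c b) '' {b}ᶜ with hS₀
    set E₀ : Subfield E := (IntermediateField.adjoin L S₀).toSubfield with hE₀
    have hE₀cl : E₀ = Subfield.closure (Set.range (algebraMap L E) ∪ S₀) :=
      IntermediateField.adjoin_toSubfield L S₀
    have hLE₀ : ∀ z : L, algebraMap L E z ∈ E₀ := fun z =>
      (IntermediateField.adjoin L S₀).algebraMap_mem z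
    have hSE₀ : ∀ z ∈ S₀, z ∈ E₀ := fun z hz => IntermediateField.subset_adjoin L _ hz
    have hcE₀ : ∀ b' ∈ Bs, b' ≠ b → c b' ∈ E₀ := fun b' hb' hne => by
      refine hSE₀ _ ⟨⟨b', hb'⟩, ?_, rfl⟩
      intro h
      apply hne
      rw [Set.mem_singleton_iff] at h
      rw [← h]
    have htr : Transcendental E₀ (c b) := by
      have h1 : Transcendental (Algebra.adjoin L S₀) (c b) :=
        hB.transcendental_adjoin (s := {b}ᶜ) (i := b) (fun h => h rfl)
      have h2 := (IntermediateField.transcendental_adjoin_iff (F := L) (s := S₀)).2 h1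
      intro h3
      exact h2 (rg_alg (fun s => ⟨⟨s, s.2⟩, rfl⟩) h3)
    -- the derivations
    have hDE₀ : ∀ p, ∀ f ∈ E₀, D p f ∈ E₀ := by
      intro p
      rw [hE₀cl]
      apply rg_stable
      rintro f (⟨z, rfl⟩ | hf)
      · obtain ⟨z', hz'⟩ := hDL p z
        rw [hz']
        exact Subfield.subset_closure (Or.inl ⟨z', rfl⟩)
      · obtain ⟨b', -, rfl⟩ := hf
        show D p (c b') ∈ _
        rw [hDc]
        exact zero_mem _
    set k₀ : Subfield E := (IntermediateField.adjoin k S₀).toSubfield with hk₀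
    have hk₀cl : k₀ = Subfield.closure (Set.range (algebraMap k E) ∪ S₀) :=
      IntermediateField.adjoin_toSubfield k S₀
    have hk₀E₀ : k₀ ≤ E₀ := by
      rw [hk₀cl, Subfield.closure_le]
      rintro z (⟨z, rfl⟩ | hz)
      · rw [IsScalarTower.algebraMap_apply k L E]
        exact hLE₀ _
      · exact hSE₀ z hz
    have hDk₀ : ∀ p, ∀ f ∈ k₀, D p f = 0 := by
      intro p
      rw [hk₀cl]
      apply rg_kill
      rintro f (⟨z, rfl⟩ | hf)
      · exact hDk p z
      · obtain ⟨b', -, rfl⟩ := hf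
        exact hDc p b'
    -- both sides
    have hside : ∀ t : E, (t = c b ∨ t = (c b)⁻¹) → Transcendental E₀ t ∧
        FiniteDimensional (Subfield.closure ((E₀ : Set E) ∪ {t})) E ∧
        ∀ p, ∀ f ∈ intCl E₀ t, D p f ∈ intCl E₀ t := by
      intro t ht
      have htc : c b ∈ Subfield.closure ({t} : Set E) := by
        rcases ht with h | h
        · rw [← h]
          exact Subfield.subset_closure rfl
        · have h1 : c b = t⁻¹ := by rw [h, inv_inv]
          rw [h1]
          exact inv_mem (Subfield.subset_closure rfl)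
      have htt : Transcendental E₀ t := by
        rcases ht with h | h
        · rw [h]
          exact htr
        · rw [h]
          intro h1
          exact htr (by simpa using h1.inv)
      have hF1 : ∀ z : L, algebraMap L E z ∈ Subfield.closure ((E₀ : Set E) ∪ {t}) := fun z =>
        Subfield.subset_closure (Or.inl (hLE₀ z))
      have hF2 : ∀ b' ∈ Bs, c b' ∈ Subfield.closure ((E₀ : Set E) ∪ {t}) := by
        intro b' hb'
        by_cases hne : b' = b
        · rw [hne]
          exact Subfield.closure_mono (Set.subset_union_right) htc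
        · exact Subfield.subset_closure (Or.inl (hcE₀ b' hb' hne))
      have hfin := hfinF _ hF1 hF2
      refine ⟨htt, hfin, ?_⟩
      have hDt : ∀ p, D p t = 0 := by
        intro p
        rcases ht with h | h
        · rw [h]
          exact hDc p b
        · rw [h, (D p).leibniz_inv, hDc, smul_zero]
      have hstab := intCl_stable E₀ t D hDE₀ hDt k₀ hk₀E₀ hDk₀ (Set.range c)
        (Set.finite_range c) (by rintro p z ⟨r, rfl⟩; exact hDc p r) (by
          rintro z ⟨r, rfl⟩
          refine halgF _ (fun z => ?_) (fun b' hb' => ?_) r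
          · exact Subfield.subset_closure
              (Or.inl ((IntermediateField.adjoin k S₀).algebraMap_mem z))
          · by_cases hne : b' = b
            · rw [hne]
              exact Subfield.closure_mono (Set.subset_union_right) htc
            · refine Subfield.subset_closure (Or.inl ?_)
              refine IntermediateField.subset_adjoin k S₀ ⟨⟨b', hb'⟩, ?_, rfl⟩
              intro h
              apply hne
              rw [Set.mem_singleton_iff] at h
              rw [← h]) (by
          rw [eq_top_iff]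
          intro z _
          have hz : z ∈ (IntermediateField.adjoin L (Set.range c)).toSubfield := by
            rw [hgen]; trivial
          rw [IntermediateField.adjoin_toSubfield] at hz
          refine Subfield.closure_mono ?_ hz
          rintro z (⟨z, rfl⟩ | hz)
          · exact Or.inl (Or.inl (hLE₀ z))
          · exact Or.inr hz)
      exact hstab
    have hfrm : Frame D (fun J => algebraMap L E (a J)) (algebraicClosure E₀ E).toSubfield := by
      refine ⟨hD, fun J => ?_, fun s hs y M hM => ?_⟩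
      · exact (mem_algebraicClosure_iff).2
          (isAlgebraic_algebraMap (A := E) (⟨algebraMap L E (a J), hLE₀ _⟩ : E₀))
      · have hone : ∀ t : E, (t = c b ∨ t = (c b)⁻¹) → y ∈ intCl E₀ t := by
          intro t ht
          obtain ⟨htt, hfin, hstab⟩ := hside t ht
          obtain ⟨g1, g2⟩ := intCl_dedekind E₀ t htt hfin
          have := g1
          have := g2
          apply mem_of (intCl E₀ t)
          intro O hO
          have hbdd : Bdd D 1 O := bdd_of (intCl E₀ t) D 1 (one_mem _)
            (fun p f hf => by rw [one_mul]; exact hstab p f hf) O hO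
          have h5 := hM O 1 hbdd fun b' hb' => by
            rw [one_mul]
            refine hO ((ring_mem_intCl E₀ t b').2 ?_)
            have h6 : IsAlgebraic E₀ b' := (mem_algebraicClosure_iff).1 (hs b' hb')
            exact h6.isIntegral.tower_top
          rwa [one_pow, one_mul] at h5
        obtain ⟨ht1, hfin1, -⟩ := hside (c b) (Or.inl rfl)
        exact (mem_algebraicClosure_iff).2 (algebraic_of_mem E₀ (c b) ht1 hfin1 _
          (hone _ (Or.inl rfl)) (hone _ (Or.inr rfl)))
    have hP : IsAlgebraic E₀ v := by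
      rw [hv]
      exact (mem_algebraicClosure_iff).1 (hK E D _ _ hfrm x hx hF l₀)
    exact rg_alg (fun s => ⟨⟨s, s.2⟩, rfl⟩) hP

end Pool.Agent.Helper6.QS

end

section

/-!
# QS-ENGQ: finiteness from the key statement

`core_q`: copy of `core_pt` (`Helper74/LN/CoreP.lean`) with `stage_two` instead of `rigid_pt`.
`ultra_q`: copy of `ultra_pt` (`Helper74/LN/UltraP.lean`) with `core_q`: an infinite set of points
with `G x_l ∈ V` gives a point of the ultrapower with coordinates algebraic over `L`, so in `L`: the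
sequence of different points is constant on an infinite set, a contradiction.
`fin_zero`: if the set is infinite, take an injective sequence `X`, restrict to the infinite subset
of `stage_one`, and apply `ultra_q`.
-/

set_option autoImplicit false

namespace Pool.Agent.Helper6.QS

open scoped BigOperators
open MvPolynomial
open Pool.Agent.Helper8.LG
open Pool.Agent.Helper49.LN (cP mo hf pl)

universe u v

theorem core_q {N q : ℕ} (hK : KeyQ.{u} N q) {k : Type v} {L Ω : Type u} [Field k] [Field L]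
    [Field Ω] [CharZero Ω] [Algebra k L] [Algebra L Ω] [Algebra k Ω] [IsScalarTower k L Ω]
    (K : Subring Ω) (hkK : ∀ b : k, algebraMap k Ω b ∈ K) (hLD : UlDisj k (L := L) K)
    {n : ℕ} (c : Fin n → Ω) (hcK : ∀ r, c r ∈ K) (a : Sym (Fin (N + 1)) q → L)
    (D : Sym (Fin (N + 1)) q → Derivation ℤ Ω Ω)
    (hD : ∀ I J, D J (algebraMap L Ω (a I)) = if I = J then 1 else 0)
    (hDL : ∀ p b, ∃ b', D p (algebraMap L Ω b) = algebraMap L Ω b')
    (hDk : ∀ p (b : k), D p (algebraMap k Ω b) = 0) (hDc : ∀ p r, D p (c r) = 0)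
    (x : Fin (N + 1) → Ω) (hx : x 0 = 1) (G : Ω) (hG : G ≠ 0)
    (hGx : ∀ l, G * x l ∈ Algebra.adjoin L (Set.range c))
    (hF : form (fun J => algebraMap L Ω (a J)) x = 0) : ∀ l, IsAlgebraic L (x l) := by
  classical
  set F : IntermediateField L Ω := IntermediateField.adjoin L (Set.range c) with hFdef
  have hsub : ∀ z ∈ Algebra.adjoin L (Set.range c), z ∈ F := fun z hz =>
    IntermediateField.algebra_adjoin_le_adjoin L _ hz
  have hFcl : F.toSubfield = Subfield.closure (Set.range (algebraMap L Ω) ∪ Set.range c) :=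
    IntermediateField.adjoin_toSubfield L _
  -- the generators
  set c' : Fin n → F := fun r => ⟨c r, IntermediateField.subset_adjoin L _ ⟨r, rfl⟩⟩ with hc'
  have himg : ∀ B : Set (Fin n), (F.val : F → Ω) '' (c' '' B) = c '' B := by
    intro B
    rw [← Set.image_comp]
    rfl
  have hrange : (F.val : F → Ω) '' (Set.range c') = Set.range c := by
    rw [← Set.image_univ, himg, Set.image_univ]
  have hgen : IntermediateField.adjoin L (Set.range c') = ⊤ := by
    apply IntermediateField.lift_injective F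
    rw [IntermediateField.lift_adjoin, IntermediateField.lift_top]
    have h1 : (Subtype.val : F → Ω) '' (Set.range c') = Set.range c := hrange
    rw [h1]
  obtain ⟨B, hB1, hB2⟩ := ul_basis (k := k) c'
  have hB3 : AlgebraicIndependent k (fun b : B => c b) :=
    (AlgHom.algebraicIndependent_iff (x := fun b : B => c' b) ((F.val).restrictScalars k)
      Subtype.val_injective).2 hB1
  have hB4 : AlgebraicIndependent L (fun b : B => c b) :=
    ul_algInd K hkK hLD _ (fun b => hcK b) hB3
  have hB5 : AlgebraicIndependent L (fun b : B => c' b) :=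
    (AlgHom.algebraicIndependent_iff (x := fun b : B => c' b) F.val Subtype.val_injective).1 hB4
  have halg : ∀ r, IsAlgebraic (IntermediateField.adjoin k (c' '' B)) (c' r) := by
    intro r
    have h1 := hB2 r
    obtain ⟨p, hp0, hp⟩ := h1
    set φ : Algebra.adjoin k (c' '' B) →+* IntermediateField.adjoin k (c' '' B) :=
      { toFun := fun z => ⟨z, IntermediateField.algebra_adjoin_le_adjoin k _ z.2⟩
        map_one' := rfl
        map_mul' := fun _ _ => rfl
        map_zero' := rfl
        map_add' := fun _ _ => rfl } with hφ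
    have hφi : Function.Injective φ := by
      intro u v huv
      apply Subtype.ext
      exact congrArg (fun z : IntermediateField.adjoin k (c' '' B) => (z : F)) huv
    refine ⟨p.map φ, ?_, ?_⟩
    · rwa [Ne, Polynomial.map_eq_zero_iff hφi]
    · rw [Polynomial.aeval_def, Polynomial.eval₂_map]
      exact hp
  -- the derivations
  have hst : ∀ p, ∀ f ∈ F, D p f ∈ F := by
    intro p f hf
    have hf' : f ∈ F.toSubfield := hf
    rw [hFcl] at hf'
    have h1 := rg_stable (D p) (Set.range (algebraMap L Ω) ∪ Set.range c) ?_ f hf'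
    · rw [← hFcl] at h1
      exact h1
    · rintro g (⟨z, rfl⟩ | ⟨r, rfl⟩)
      · obtain ⟨z', hz'⟩ := hDL p z
        rw [hz']
        exact Subfield.subset_closure (Or.inl ⟨z', rfl⟩)
      · rw [hDc]
        exact zero_mem _
  set δ : Sym (Fin (N + 1)) q → Derivation ℤ F F := fun p =>
    Derivation.mk' (AddMonoidHom.toIntLinearMap
      { toFun := fun f => (⟨D p f, hst p f f.2⟩ : F)
        map_zero' := Subtype.ext (map_zero (D p))
        map_add' := fun f g => Subtype.ext (map_add (D p) (f : Ω) g) })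
      (fun f g => Subtype.ext ((D p).leibniz (f : Ω) g)) with hδ
  have hδv : ∀ p (f : F), ((δ p f : F) : Ω) = D p f := fun p f => rfl
  have hamap : ∀ b : L, ((algebraMap L F b : F) : Ω) = algebraMap L Ω b := fun b => rfl
  -- the point
  have hxF : ∀ l, x l ∈ F := by
    intro l
    have h1 : G ∈ F := by
      have := hsub _ (hGx 0)
      rwa [hx, mul_one] at this
    have h2 : x l = G * x l / G := by field_simp
    rw [h2]
    exact div_mem (hsub _ (hGx l)) h1
  set x' : Fin (N + 1) → F := fun l => ⟨x l, hxF l⟩ with hx'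
  have hform : ((form (fun J => algebraMap L F (a J)) x' : F) : Ω) =
      form (fun J => algebraMap L Ω (a J)) x :=
    ul_map_form (F.val : F →+* Ω) _ _
  have hcz : CharZero F := inferInstance
  have key := stage_two (k := k) (L := L) (E := F) hK c' hgen B hB5 halg a δ ?_ ?_ ?_ ?_ x'
    (Subtype.ext hx) (Subtype.ext (hform.trans hF))
  · exact fun l => (key l).algHom F.val
  · intro I J
    apply Subtype.ext
    rw [hδv, hamap, hD I J]
    split_ifs <;> rfl
  · intro p b
    obtain ⟨b', hb'⟩ := hDL p b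
    exact ⟨b', Subtype.ext hb'⟩
  · intro p b
    exact Subtype.ext (hDk p b)
  · intro p r
    exact Subtype.ext (hDc p r)

theorem ultra_q {N q : ℕ} (hK : KeyQ.{u} N q) {k : Type v} {L : Type u} [Field k] [Field L]
    [CharZero L] [Algebra k L] (a : Sym (Fin (N + 1)) q → L)
    (D : Sym (Fin (N + 1)) q → Derivation ℤ L L)
    (hD : ∀ I J, D J (a I) = if I = J then 1 else 0)
    (hDk : ∀ J (c : k), D J (algebraMap k L c) = 0) (V : Submodule k L) [FiniteDimensional k V]
    (S : Set (Fin (N + 1) → L))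
    (hS : ∀ x ∈ S, x 0 = 1 ∧ form a x = 0 ∧ ∃ G : L, G ≠ 0 ∧ ∀ l, G * x l ∈ V) :
    S.Finite := by
  classical
  by_contra hnf
  have hinf : S.Infinite := hnf
  set X : ℕ → Fin (N + 1) → L := fun m => (hinf.natEmbedding S m : Fin (N + 1) → L) with hX
  have hXS : ∀ m, X m ∈ S := fun m => (hinf.natEmbedding S m).2
  have hXi : Function.Injective X := fun u v huv =>
    (hinf.natEmbedding S).injective (Subtype.ext huv)
  have hS' := fun m => hS (X m) (hXS m)
  choose hX0 hXF G hG0 hGx using hS'
  obtain ⟨Ω, instΩ, Q, hQ, hker⟩ := ul_exists L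
  let algLΩ : Algebra L Ω := (Q.comp (Pi.constRingHom ℕ L)).toAlgebra
  let algkΩ : Algebra k Ω := ((algebraMap L Ω).comp (algebraMap k L)).toAlgebra
  have : IsScalarTower k L Ω := IsScalarTower.of_algebraMap_eq fun _ => rfl
  have : CharZero Ω := charZero_of_injective_algebraMap (algebraMap L Ω).injective
  have halgL : ∀ b : L, algebraMap L Ω b = Q fun _ => b := fun _ => rfl
  have halgk : ∀ b : k, algebraMap k Ω b = Q fun _ => algebraMap k L b := fun _ => rfl
  -- the constants
  set K : Subring Ω := (Q.comp ((algebraMap k L).compLeft ℕ)).range with hKdef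
  have hQK : ∀ g : ℕ → k, Q (fun m => algebraMap k L (g m)) ∈ K := fun g => ⟨g, rfl⟩
  have hLD : UlDisj k (L := L) K := by
    intro J hJ T z hz hsum
    choose g hg using hz
    have hg' : ∀ b, Q (fun m => algebraMap k L (g b m)) = z b := fun b => hg b
    have h1 := ul_disj Q hker J hJ T g (by
      rw [← hsum]
      exact Finset.sum_congr rfl fun b _ => by rw [hg', halgL])
    intro b hb
    rw [← hg']
    exact h1 b hb
  -- the sequences
  set bV := Module.finBasis k V with hbV
  set r := Module.finrank k V with hr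
  set h : Fin (N + 1) → ℕ → L := fun l m' => G m' * X m' l with hh
  have hhV : ∀ l m', h l m' ∈ V := fun l m' => hGx m' l
  set c₀ : Fin (N + 1) × Fin r → Ω := fun ηj => Q fun m' =>
    algebraMap k L (bV.repr ⟨h ηj.1 m', hhV ηj.1 m'⟩ ηj.2) with hc₀
  set eqv := (Fintype.equivFin (Fin (N + 1) × Fin r)).symm with heqv
  set c : Fin (Fintype.card (Fin (N + 1) × Fin r)) → Ω := fun s => c₀ (eqv s) with hc
  have hcmem : ∀ ηj, c₀ ηj ∈ Algebra.adjoin L (Set.range c) := fun ηj =>
    Algebra.subset_adjoin ⟨eqv.symm ηj, by rw [hc]; simp⟩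
  have hhc : ∀ l, Q (h l) ∈ Algebra.adjoin L (Set.range c) := by
    intro l
    have h1 : Q (h l) = ∑ j, algebraMap L Ω (bV j : L) * c₀ (l, j) := by
      have h2 : h l = ∑ j, (fun _ => (bV j : L)) *
          (fun m' => algebraMap k L (bV.repr ⟨h l m', hhV l m'⟩ j)) := by
        funext m'
        rw [Finset.sum_apply]
        have h3 := congrArg (Subtype.val : V → L) (bV.sum_repr ⟨h l m', hhV l m'⟩)
        rw [Submodule.coe_sum] at h3
        have h4 : ((⟨h l m', hhV l m'⟩ : V) : L) = h l m' := rfl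
        rw [h4] at h3
        rw [← h3]
        refine Finset.sum_congr rfl fun j _ => ?_
        show _ = (bV j : L) * algebraMap k L (bV.repr ⟨h l m', hhV l m'⟩ j)
        rw [Submodule.coe_smul, Algebra.smul_def, mul_comm]
      conv_lhs => rw [h2]
      rw [map_sum]
      exact Finset.sum_congr rfl fun j _ => by rw [map_mul]; rfl
    rw [h1]
    exact sum_mem fun j _ => mul_mem (Subalgebra.algebraMap_mem _ _) (hcmem _)
  -- the core
  have hform : form (fun J => algebraMap L Ω (a J)) (fun l => Q fun m' => X m' l) =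
      Q fun m' => form a (X m') := (ul_Q_form Q a X).symm
  have hcore := core_q hK (k := k) (L := L) K (fun b => by rw [halgk]; exact hQK fun _ => b)
    hLD c (fun s => hQK _) a (fun p => ulDer Q hQ hker (D p)) ?_ ?_ ?_ ?_
    (fun l => Q fun m' => X m' l) ?_ (Q G) ?_ ?_ ?_
  · -- conclusion
    have hconst : ∀ z : Ω, IsAlgebraic L z → ∃ b : L, algebraMap L Ω b = z := by
      rintro z ⟨p, hp0, hp⟩
      obtain ⟨f, rfl⟩ := hQ z
      have h1 : ∀ᶠ m' in (Filter.hyperfilter ℕ : Filter ℕ), p.eval (f m') = 0 := by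
        rw [← hker (fun m' => p.eval (f m')), ul_Q_eval Q]
        exact hp
      have h2 : ∃ b ∈ (p.roots.toFinset : Set L),
          ∀ᶠ m' in (Filter.hyperfilter ℕ : Filter ℕ), f m' = b := by
        refine (Ultrafilter.eventually_exists_mem_iff p.roots.toFinset.finite_toSet).mp ?_
        filter_upwards [h1] with m' hm'
        refine ⟨f m', ?_, rfl⟩
        rw [Finset.mem_coe, Multiset.mem_toFinset, Polynomial.mem_roots hp0]
        exact hm'
      obtain ⟨b, -, hb⟩ := h2
      refine ⟨b, ?_⟩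
      rw [halgL, ← sub_eq_zero, ← map_sub, hker]
      filter_upwards [hb] with m' hm'
      show b - f m' = 0
      rw [hm', sub_self]
    choose b hb using fun l => hconst _ (hcore l)
    have hrel : ∀ l, ∀ᶠ m' in (Filter.hyperfilter ℕ : Filter ℕ), X m' l = b l := by
      intro l
      have h1 : (Q fun m' => X m' l - b l) = 0 := by
        have h2 : (Q fun m' => X m' l - b l) = (Q fun m' => X m' l) - algebraMap L Ω (b l) := by
          rw [halgL, ← map_sub]
          rfl
        rw [h2, hb l, sub_self]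
      rw [hker] at h1
      filter_upwards [h1] with m' hm'
      exact sub_eq_zero.mp hm'
    have hrel' : ∀ᶠ m' in (Filter.hyperfilter ℕ : Filter ℕ), ∀ l, X m' l = b l :=
      Filter.eventually_all.2 hrel
    have hinf' : {m' : ℕ | ∀ l, X m' l = b l}.Infinite := by
      intro hfin
      exact Filter.notMem_hyperfilter_of_finite hfin hrel'
    apply hinf'
    refine Set.Subsingleton.finite ?_
    intro m₁ h₁ m₂ h₂
    apply hXi
    funext l
    exact (h₁ l).trans (h₂ l).symm
  · intro I J
    show ulDer Q hQ hker (D J) (Q fun _ => a I) = _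
    rw [ulDer_apply]
    have h2 : (Q fun _ => D J (a I)) = algebraMap L Ω (D J (a I)) := rfl
    rw [h2, hD I J]
    split_ifs
    · rw [map_one]
    · rw [map_zero]
  · intro p b
    exact ⟨D p b, ulDer_apply Q hQ hker (D p) _⟩
  · intro p b
    rw [halgk, ulDer_apply]
    rw [hker]
    exact Filter.Eventually.of_forall fun m' => hDk p b
  · intro p s
    show ulDer Q hQ hker (D p) (Q _) = 0
    rw [ulDer_apply, hker]
    exact Filter.Eventually.of_forall fun m' => hDk p _
  · show Q (fun m' => X m' 0) = 1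
    have h1 : (fun m' => X m' 0) = 1 := by
      funext m'
      exact hX0 m'
    rw [h1, map_one]
  · intro h0
    rw [hker] at h0
    obtain ⟨m', hm'⟩ := h0.exists
    exact hG0 m' hm'
  · intro l
    show Q G * Q (fun m' => X m' l) ∈ _
    rw [← map_mul]
    exact hhc l
  · rw [hform, hker]
    exact Filter.Eventually.of_forall fun m' => hXF m'

theorem fin_zero {N q : ℕ} (hK : KeyQ.{u} N q) {k : Type v} {L : Type u} [Field k] [Field L]
    [CharZero L] [Algebra k L] (a : Sym (Fin (N + 1)) q → L) (hind : AlgebraicIndependent k a)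
    (hfin : FiniteDimensional (IntermediateField.adjoin k (Set.range a)) L)
    (D : Sym (Fin (N + 1)) q → Derivation ℤ L L)
    (hD : ∀ I J, D J (a I) = if I = J then 1 else 0)
    (hDk : ∀ J (c : k), D J (algebraMap k L c) = 0) :
    {x : Fin (N + 1) → L | x 0 = 1 ∧ form a x = 0}.Finite := by
  classical
  by_contra hnf
  have hinf : {x : Fin (N + 1) → L | x 0 = 1 ∧ form a x = 0}.Infinite := hnf
  set X : ℕ → Fin (N + 1) → L := fun m => (hinf.natEmbedding _ m : Fin (N + 1) → L) with hX
  have hXS : ∀ m, X m 0 = 1 ∧ form a (X m) = 0 := fun m => (hinf.natEmbedding _ m).2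
  have hXi : Function.Injective X := fun u v huv =>
    (hinf.natEmbedding _).injective (Subtype.ext huv)
  obtain ⟨V, hV, hinfV⟩ := stage_one hK a hind hfin D hD hDk X (fun m => (hXS m).1)
    (fun m => (hXS m).2)
  have := ultra_q hK a D hD hDk V (X '' {m : ℕ | ∃ G : L, G ≠ 0 ∧ ∀ l, G * X m l ∈ V}) (by
    rintro _ ⟨m, hm, rfl⟩
    exact ⟨(hXS m).1, (hXS m).2, hm⟩)
  exact hinfV.image hXi.injOn this

end Pool.Agent.Helper6.QS

end
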