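import Pool.Agent.Helper74.MG.T60
import Pool.Agent.Helper74.MG.T32
import Pool.Agent.Helper74.MG.T39
import Pool.Agent.Helper74.MG.T27
import Pool.Agent.Helper74.MG.T45
import Pool.Agent.Helper74.MG.T62

section

/-!
# LN-LINES: the points lie on finitely many lines, over fields

Copy of `Helper10.LV.fin_lines` with `inf_line` of this project.
-/

set_option autoImplicit false

namespace Pool.Agent.Helper74.LN

open scoped BigOperators
open Pool.Agent.Helper8.LG
open Pool.Agent.Helper8.LV (Fam Mov Over over_tower)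
open Pool.Agent.Helper10.LB (Pt greedy)

/-- **The points lie on finitely many lines.** -/
theorem lines {k₀ L : Type*} [Field k₀] [Field L] [CharZero L] [Algebra k₀ L]
    (hfg : (⊤ : IntermediateField k₀ L).FG)
    {σ ι : Type*} [Fintype σ] [DecidableEq σ] [Fintype ι] [DecidableEq ι] [Unique ι]
    (d b q : ι → ℕ) (a aA : (i : ι) → Sym σ (d i) → L) (ap : (i : ι) → Sym σ (b i) → L)
    (ah : (i : ι) → Sym σ (q i) → L) (hF : Fam d b q a aA ap ah) (hAk : Over k₀ aA)
    (hpk : Over k₀ ap) (hq : ∀ i, 0 < q i) (c : ℕ)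
    (hc : (Fintype.card (Ix σ q) : Cardinal) ≤ Algebra.trdeg k₀
      (IntermediateField.adjoin k₀ (Set.range fun p : Ix σ q => ah p.1 p.2)) + c)
    (Z : Finset ι) (i₀ : σ) (w t : ℕ)
    (h0 : w + 1 = Fintype.card σ ∨
      2 * Fintype.card σ + w + c + Zᶜ.card + 53 ≤ 10 * q default)
    (h1 : 3 * w + 3 + Zᶜ.card + c ≤ 2 * q default)
    (h2 : t + Zᶜ.card + 2 ≤ q default)
    (h3 : 6 * Fintype.card σ + 2 * c ≤ t * (t + 1) + 6)
    (A : Subalgebra k₀ L) (hA : A.FG) :
    ∃ Λ : Set (Submodule L (σ → L)), Λ.Finite ∧ (∀ W ∈ Λ, Module.finrank L W ≤ 2) ∧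
      ∀ x : σ → L, x i₀ = 1 → Pt a Z A.toSubring x → (∀ i, form (ap i) x ≠ 0) →
        Algebra.trdeg k₀ (IntermediateField.adjoin k₀ (Set.range x)) ≤ w → ∃ W ∈ Λ, x ∈ W := by
  classical
  suffices hmain : ∀ S' ⊆ {x : σ → L | x i₀ = 1 ∧ Pt a Z A.toSubring x ∧
      (∀ i, form (ap i) x ≠ 0) ∧
      Algebra.trdeg k₀ (IntermediateField.adjoin k₀ (Set.range x)) ≤ w}, S'.Infinite →
      ∃ W : Submodule L (σ → L), Module.finrank L W ≤ 2 ∧ (S' ∩ W).Infinite by
    obtain ⟨Λ, h1, h2, h3⟩ := greedy _ hmain i₀ (fun x hx => hx.1)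
    exact ⟨Λ, h1, h2, fun x hx hp hP hw => h3 x ⟨hx, hp, hP, hw⟩⟩
  intro S' hS' hinf
  by_cases hj : ∃ j₁ : σ, j₁ ≠ i₀
  · obtain ⟨j₁, hj₁⟩ := hj
    obtain ⟨T, k, hT, hind, hfin, D, θ, hD, hDk⟩ := reduce hfg q ah c hc
    obtain ⟨s, hs⟩ := hA
    set A' : Subalgebra k L := Algebra.adjoin k (s : Set L) with hA'
    have hAA' : ∀ f ∈ A, f ∈ A' := by
      intro f hf
      rw [← hs] at hf
      induction hf using Algebra.adjoin_induction with
      | mem x hx => exact Algebra.subset_adjoin hx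
      | algebraMap r =>
        have h1 : algebraMap k₀ L r = algebraMap k L (algebraMap k₀ k r) :=
          IsScalarTower.algebraMap_apply k₀ k L r
        rw [h1]
        exact A'.algebraMap_mem _
      | add x y _ _ hx hy => exact add_mem hx hy
      | mul x y _ _ hx hy => exact mul_mem hx hy
    obtain ⟨α, β, p, p', -, -, -, -, -, hline⟩ := inf_line d b q a aA ap ah hF
      (over_tower hAk) (over_tower hpk) hq T hind hfin D (fun j => j.1) θ hD
      (fun j => j.2) hDk Z i₀ j₁ hj₁ w t (by omega) (by omega) h2 (by omega) A' ⟨s, rfl⟩ S'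
      hinf (by
        intro x hx
        obtain ⟨hx1, hx2, hx3, hx4⟩ := hS' hx
        refine ⟨hx1, ⟨hx2.zero, hx2.ne, ?_⟩, hx3, minors_of_trdeg (k := k₀) D ?_ x i₀ hx1 w hx4⟩
        swap
        · intro p r
          have h7 : algebraMap k₀ L r = algebraMap k L (algebraMap k₀ k r) :=
            IsScalarTower.algebraMap_apply k₀ k L r
          rw [h7]
          exact hDk p _
        intro i hi J
        exact (hx2.int i hi J).map_of_comp_eq (Subring.inclusion (S := A.toSubring)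
          (T := A'.toSubring) (fun f hf => hAA' f hf)) (RingHom.id L) rfl)
    refine ⟨Submodule.span L ({p, p'} : Set (σ → L)), ?_, hline.mono ?_⟩
    · refine (finrank_span_le_card ({p, p'} : Set (σ → L))).trans ?_
      rw [Set.toFinset_card, Fintype.card_ofFinset]
      exact Finset.card_le_two
    · rintro x ⟨hx, hxl⟩
      refine ⟨hx, Submodule.mem_span_pair.2 ⟨x α, x β, ?_⟩⟩
      funext l
      rw [hxl l]
      rfl
  · push Not at hj
    exfalso
    apply hinf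
    have hsub : S'.Subsingleton := by
      intro x hx y hy
      funext l
      rw [hj l, (hS' hx).1, (hS' hy).1]
    exact hsub.finite

end Pool.Agent.Helper74.LN

end

section

/-!
# LN-LINESIN: rational points of the hypersurface

`lines_in`: refine the lines of `lines` (`Z = univ`, `A` = any finitely generated subalgebra, e.g.
`⊥`; `Pt` has no integrality condition) by `line_finite`: a line on which some `form (a i)` does
not vanish contains finitely many points. `lines_none`: by `gen_line` no line through a point with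
`P(x) ≠ 0` is contained in the hypersurface (see `Helper49.LV.final_line`).
-/

set_option autoImplicit false

namespace Pool.Agent.Helper74.LN

open scoped BigOperators
open Pool.Agent.Helper8.LG
open Pool.Agent.Helper8.LV (Fam Mov Over over_tower)
open Pool.Agent.Helper10.LB (Pt greedy)
open Pool.Agent.Helper49.LG (lineP lineP_eval line_finite)

/-- A basis of a plane adapted to the coordinates `i₀` and `β`. -/
theorem plane_basis {L : Type*} [Field L] {σ : Type*} [Fintype σ] (W : Submodule L (σ → L))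
    (hW : Module.finrank L W = 2) (i₀ : σ) (x : σ → L) (hx : x ∈ W) (hx1 : x i₀ = 1) :
    ∃ (β : σ) (u v : σ → L), i₀ ≠ β ∧ u ∈ W ∧ v ∈ W ∧ u i₀ = 1 ∧ u β = 0 ∧ v i₀ = 0 ∧
      v β = 1 ∧ ∀ y ∈ W, ∀ l, y l = y i₀ * u l + y β * v l := by
  classical
  have hex : ∃ y ∈ W, y ∉ Submodule.span L ({x} : Set (σ → L)) := by
    by_contra hcon
    push Not at hcon
    have h1 : W ≤ Submodule.span L ({x} : Set (σ → L)) := fun y hy => hcon y hy
    have h2 := Submodule.finrank_mono h1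
    have h3 : Module.finrank L (Submodule.span L ({x} : Set (σ → L))) ≤ 1 := by
      refine (finrank_span_le_card ({x} : Set (σ → L))).trans ?_
      simp
    omega
  obtain ⟨y, hy, hyx⟩ := hex
  have hne : y - y i₀ • x ≠ 0 := by
    intro h
    apply hyx
    rw [sub_eq_zero.1 h]
    exact Submodule.smul_mem _ _ (Submodule.subset_span (Set.mem_singleton x))
  obtain ⟨β, hβ⟩ : ∃ β, (y - y i₀ • x) β ≠ 0 := by
    by_contra hcon
    push Not at hcon
    exact hne (funext hcon)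
  have h0 : (y - y i₀ • x) i₀ = 0 := by
    simp [hx1]
  have hiβ : i₀ ≠ β := by
    rintro rfl
    exact hβ h0
  set v : σ → L := ((y - y i₀ • x) β)⁻¹ • (y - y i₀ • x) with hv
  set u : σ → L := x - x β • v with hu
  have hvW : v ∈ W := W.smul_mem _ (W.sub_mem hy (W.smul_mem _ hx))
  have huW : u ∈ W := W.sub_mem hx (W.smul_mem _ hvW)
  have hv0 : v i₀ = 0 := by
    rw [hv, Pi.smul_apply, h0, smul_zero]
  have hv1 : v β = 1 := by
    rw [hv, Pi.smul_apply, smul_eq_mul]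
    exact inv_mul_cancel₀ hβ
  have hu1 : u i₀ = 1 := by
    rw [hu, Pi.sub_apply, Pi.smul_apply, hv0, smul_zero, sub_zero, hx1]
  have hu0 : u β = 0 := by
    rw [hu, Pi.sub_apply, Pi.smul_apply, hv1, smul_eq_mul, mul_one, sub_self]
  have hlin : LinearIndependent L ![u, v] := by
    rw [LinearIndependent.pair_iff]
    intro s t hst
    have h1 := congrFun hst i₀
    have h2 := congrFun hst β
    simp only [Pi.add_apply, Pi.smul_apply, smul_eq_mul, Pi.zero_apply, hu1, hv0, hu0, hv1,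
      mul_one, mul_zero, add_zero, zero_add] at h1 h2
    exact ⟨h1, h2⟩
  have hr : Set.range ![u, v] = {u, v} := by
    ext y
    simp [or_comm]
  have hfr := finrank_span_eq_card hlin
  rw [hr, Fintype.card_fin] at hfr
  have hle : Submodule.span L ({u, v} : Set (σ → L)) ≤ W := by
    rw [Submodule.span_le]
    rintro y (rfl | rfl)
    · exact huW
    · exact hvW
  have heq := Submodule.eq_of_le_of_finrank_le hle (by rw [hfr, hW])
  refine ⟨β, u, v, hiβ, huW, hvW, hu1, hu0, hv0, hv1, ?_⟩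
  intro z hz l
  rw [← heq, Submodule.mem_span_pair] at hz
  obtain ⟨s, t, rfl⟩ := hz
  simp only [Pi.add_apply, Pi.smul_apply, smul_eq_mul, hu1, hv0, hu0, hv1,
      mul_one, mul_zero, add_zero, zero_add]

/-- A line with infinitely many normalised points of the hypersurfaces is contained in them. -/
theorem line_in {L : Type*} [Field L] [CharZero L] {σ ι : Type*} [Fintype σ] [DecidableEq σ]
    (d : ι → ℕ) (a : (i : ι) → Sym σ (d i) → L) (i₀ : σ) (W : Submodule L (σ → L))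
    (hW : Module.finrank L W ≤ 2) (S : Set (σ → L)) (hS : ∀ x ∈ S, x i₀ = 1)
    (hS0 : ∀ x ∈ S, ∀ i, form (a i) x = 0) (hinf : (S ∩ W).Infinite) :
    Module.finrank L W = 2 ∧ ∀ y ∈ W, ∀ i, form (a i) y = 0 := by
  classical
  have h2 : Module.finrank L W = 2 := by
    refine le_antisymm hW ?_
    by_contra hcon
    have hcon' : Module.finrank L W ≤ 1 := by omega
    apply hinf
    refine Set.Subsingleton.finite ?_
    rintro x ⟨hx, hxW⟩ y ⟨hy, hyW⟩
    obtain ⟨w, hw⟩ := finrank_le_one_iff.1 hcon'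
    obtain ⟨s, hs⟩ := hw ⟨x, hxW⟩
    obtain ⟨t, ht⟩ := hw ⟨y, hyW⟩
    have hs' : s • (w : σ → L) = x := congrArg Subtype.val hs
    have ht' : t • (w : σ → L) = y := congrArg Subtype.val ht
    have h3 : s * (w : σ → L) i₀ = 1 := by
      rw [← hS x hx, ← hs']
      rfl
    have h4 : t * (w : σ → L) i₀ = 1 := by
      rw [← hS y hy, ← ht']
      rfl
    have h5 : (w : σ → L) i₀ ≠ 0 := by
      intro h
      rw [h, mul_zero] at h3
      exact zero_ne_one h3
    have h6 : s = t := mul_right_cancel₀ h5 (h3.trans h4.symm)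
    rw [← hs', ← ht', h6]
  refine ⟨h2, ?_⟩
  obtain ⟨x, hx, hxW⟩ := hinf.nonempty
  obtain ⟨β, u, v, hiβ, huW, hvW, hu1, hu0, hv0, hv1, hb⟩ := plane_basis W h2 i₀ x hxW (hS x hx)
  intro y hy i
  by_contra hne
  have hl : lineP (a i) u v ≠ 0 := by
    refine Pool.Agent.Helper49.LV.lineP_ne (a i) u v (y i₀) (y β) ?_
    have h3 : (fun l => y i₀ * u l + y β * v l) = y := by
      funext l
      exact (hb y hy l).symm
    rw [h3]
    exact hne
  apply hinf
  refine (line_finite (a i) i₀ β i₀ u v hl).subset ?_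
  rintro z ⟨hz, hzW⟩
  exact ⟨hS z hz, hS0 z hz i, hb z hzW⟩

/-- **Rational points of the hypersurface**: finitely many outside finitely many lines which are
contained in it (refine the lines of `lines`, `Z = univ`, by `line_finite`). -/
theorem lines_in {k₀ L : Type*} [Field k₀] [Field L] [CharZero L] [Algebra k₀ L]
    (hfg : (⊤ : IntermediateField k₀ L).FG)
    {σ ι : Type*} [Fintype σ] [DecidableEq σ] [Fintype ι] [DecidableEq ι] [Unique ι]
    (d b q : ι → ℕ) (a aA : (i : ι) → Sym σ (d i) → L) (ap : (i : ι) → Sym σ (b i) → L)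
    (ah : (i : ι) → Sym σ (q i) → L) (hF : Fam d b q a aA ap ah) (hAk : Over k₀ aA)
    (hpk : Over k₀ ap) (hq : ∀ i, 0 < q i) (c : ℕ)
    (hc : (Fintype.card (Ix σ q) : Cardinal) ≤ Algebra.trdeg k₀
      (IntermediateField.adjoin k₀ (Set.range fun p : Ix σ q => ah p.1 p.2)) + c)
    (i₀ : σ) (w t : ℕ)
    (h0 : w + 1 = Fintype.card σ ∨ 2 * Fintype.card σ + w + c + 53 ≤ 10 * q default)
    (h1 : 3 * w + 3 + c ≤ 2 * q default)
    (h2 : t + 2 ≤ q default)
    (h3 : 6 * Fintype.card σ + 2 * c ≤ t * (t + 1) + 6) :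
    ∃ (S₀ : Set (σ → L)) (Λ : Set (Submodule L (σ → L))), S₀.Finite ∧ Λ.Finite ∧
      (∀ W ∈ Λ, Module.finrank L W = 2 ∧ ∀ y ∈ W, ∀ i, form (a i) y = 0) ∧
      ∀ x : σ → L, x i₀ = 1 → (∀ i, form (a i) x = 0) → (∀ i, form (ap i) x ≠ 0) →
        Algebra.trdeg k₀ (IntermediateField.adjoin k₀ (Set.range x)) ≤ w →
        x ∈ S₀ ∨ ∃ W ∈ Λ, x ∈ W := by
  classical
  obtain ⟨Λ, hΛ, hΛ2, hcov⟩ := lines hfg d b q a aA ap ah hF hAk hpk hq c hc Finset.univ i₀ w t
    (by rw [Finset.compl_univ, Finset.card_empty]; omega)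
    (by rw [Finset.compl_univ, Finset.card_empty]; omega)
    (by rw [Finset.compl_univ, Finset.card_empty]; omega) h3 ⊥ Subalgebra.fg_bot
  set S : Set (σ → L) := {x : σ → L | x i₀ = 1 ∧ (∀ i, form (a i) x = 0) ∧
    (∀ i, form (ap i) x ≠ 0) ∧
    Algebra.trdeg k₀ (IntermediateField.adjoin k₀ (Set.range x)) ≤ w} with hS
  refine ⟨⋃ W ∈ {W ∈ Λ | (S ∩ W).Finite}, S ∩ (W : Set (σ → L)),
    {W ∈ Λ | ¬(S ∩ (W : Set (σ → L))).Finite}, ?_, hΛ.subset fun W hW => hW.1, ?_, ?_⟩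
  · exact Set.Finite.biUnion (hΛ.subset fun W hW => hW.1) fun W hW => hW.2
  · rintro W ⟨hW, hWi⟩
    exact line_in d a i₀ W (hΛ2 W hW) S (fun x hx => hx.1) (fun x hx => hx.2.1) hWi
  · intro x hx1 hx0 hxP hxw
    obtain ⟨W, hW, hxW⟩ := hcov x hx1
      ⟨fun i _ => hx0 i, fun i hi => absurd (Finset.mem_univ i) hi,
        fun i hi => absurd (Finset.mem_univ i) hi⟩ hxP hxw
    by_cases hf : (S ∩ (W : Set (σ → L))).Finite
    · left
      refine Set.mem_biUnion (show W ∈ {W ∈ Λ | (S ∩ (W : Set (σ → L))).Finite} from ⟨hW, hf⟩) ?_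
      exact ⟨⟨hx1, hx0, hxP, hxw⟩, hxW⟩
    · right
      exact ⟨W, ⟨hW, hf⟩, hxW⟩

/-- **Finiteness** if moreover `q ≥ 2 N - 2 + c` (`gen_line`: no line through a point with
`P(x) ≠ 0` is contained in the hypersurface). -/
theorem lines_none {k₀ L : Type*} [Field k₀] [Field L] [CharZero L] [Algebra k₀ L]
    (hfg : (⊤ : IntermediateField k₀ L).FG)
    {σ ι : Type*} [Fintype σ] [DecidableEq σ] [Fintype ι] [DecidableEq ι] [Unique ι]
    (d b q : ι → ℕ) (a aA : (i : ι) → Sym σ (d i) → L) (ap : (i : ι) → Sym σ (b i) → L)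
    (ah : (i : ι) → Sym σ (q i) → L) (hF : Fam d b q a aA ap ah) (hAk : Over k₀ aA)
    (hpk : Over k₀ ap) (hq : ∀ i, 0 < q i) (c : ℕ)
    (hc : (Fintype.card (Ix σ q) : Cardinal) ≤ Algebra.trdeg k₀
      (IntermediateField.adjoin k₀ (Set.range fun p : Ix σ q => ah p.1 p.2)) + c)
    (i₀ : σ) (w t : ℕ)
    (h0 : w + 1 = Fintype.card σ ∨ 2 * Fintype.card σ + w + c + 53 ≤ 10 * q default)
    (h1 : 3 * w + 3 + c ≤ 2 * q default)
    (h2 : t + 2 ≤ q default)
    (h3 : 6 * Fintype.card σ + 2 * c ≤ t * (t + 1) + 6)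
    (h4 : 2 * Fintype.card σ + c ≤ q default + 4) :
    {x : σ → L | x i₀ = 1 ∧
      Algebra.trdeg k₀ (IntermediateField.adjoin k₀ (Set.range x)) ≤ w ∧
      (∀ i, form (ap i) x ≠ 0) ∧ ∀ i, form (a i) x = 0}.Finite := by
  classical
  obtain ⟨S₀, Λ, hS₀, hΛ, hΛ2, hcov⟩ := lines_in hfg d b q a aA ap ah hF hAk hpk hq c hc i₀ w t h0
    h1 h2 h3
  refine hS₀.subset ?_
  rintro x ⟨hx1, hxw, hxP, hx0⟩
  rcases hcov x hx1 hx0 hxP hxw with h | ⟨W, hW, hxW⟩
  · exact h
  exfalso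
  obtain ⟨hW2, hWin⟩ := hΛ2 W hW
  obtain ⟨β, u, v, hiβ, huW, hvW, hu1, hu0, hv0, hv1, hb⟩ := plane_basis W hW2 i₀ x hxW hx1
  obtain ⟨T, k, hT, hind, hfin, D, θ, hD, hDk⟩ := reduce hfg q ah c hc
  have hAk' : Over k aA := over_tower hAk
  have hpk' : Over k ap := over_tower hpk
  obtain ⟨i, n, hin⟩ := Pool.Agent.Helper49.LV.gen_line d b q a aA ap ah D (fun j => j.1) θ hD
    (hF.mov (k := k) hAk' hpk' D hDk) i₀ β hiβ u v hu1 hu0 hv0 hv1 x (hb x hxW) hxP (by
      rw [Fintype.sum_unique]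
      omega)
  apply hin
  refine hWin _ ?_ i
  have h5 : (fun l => u l + (n : L) * v l) = u + (n : L) • v := by
    funext l
    simp
  rw [h5]
  exact W.add_mem huW (W.smul_mem _ hvW)

end Pool.Agent.Helper74.LN

end

section

/-!
# LN-ENGN: the engine in terms of polynomials, several multipliers

Pattern: `Helper8.LV.eng_L` and `eng_A`, with `r = 1` (`multi`, `Fin 1` has a `Unique` instance).
Numbers: `t = q - 3` resp. `q - 2` in `lines`. `w` bounds the transcendence degree of the points.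
-/

set_option autoImplicit false

open MvPolynomial

namespace Pool.Agent.Helper74.LN

open scoped BigOperators
open Pool.Agent.Helper8.LG
open Pool.Agent.Helper8.LV

/-- the form is homogeneous -/
theorem en_hom {k₀ L : Type*} [Field k₀] [Field L] [Algebra k₀ L] {N s : ℕ} (d : ℕ)
    (b : Fin s → ℕ) (hb : ∀ j, b j ≤ d) (F : MvPolynomial (Fin (N + 1)) L)
    (A : MvPolynomial (Fin (N + 1)) k₀) (hA : A.IsHomogeneous d)
    (P : Fin s → MvPolynomial (Fin (N + 1)) k₀) (hP : ∀ j, (P j).IsHomogeneous (b j))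
    (H : Fin s → MvPolynomial (Fin (N + 1)) L) (hH : ∀ j, (H j).IsHomogeneous (d - b j))
    (hFA : F = map (algebraMap k₀ L) A + ∑ j, map (algebraMap k₀ L) (P j) * H j) :
    F.IsHomogeneous d := by
  rw [hFA]
  refine (hA.map _).add (IsHomogeneous.sum _ _ _ fun j _ => ?_)
  have h1 := ((hP j).map (algebraMap k₀ L)).mul (hH j)
  rwa [Nat.add_sub_cancel' (hb j)] at h1

/-- from one moving multiplier to several, for one form, in terms of families -/
theorem en_multi {k₀ L : Type*} [Field k₀] [Field L] [Algebra k₀ L] {N s : ℕ} (d : ℕ)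
    (b : Fin s → ℕ) (hb : ∀ j, b j ≤ d) (F : MvPolynomial (Fin (N + 1)) L)
    (A : MvPolynomial (Fin (N + 1)) k₀) (hA : A.IsHomogeneous d)
    (P : Fin s → MvPolynomial (Fin (N + 1)) k₀) (hP : ∀ j, (P j).IsHomogeneous (b j))
    (H : Fin s → MvPolynomial (Fin (N + 1)) L) (hH : ∀ j, (H j).IsHomogeneous (d - b j))
    (hFA : F = map (algebraMap k₀ L) A + ∑ j, map (algebraMap k₀ L) (P j) * H j) (c : ℕ)
    (hcoef : ((∑ j, (N + (d - b j)).choose N : ℕ) : Cardinal) ≤
      Algebra.trdeg k₀ (IntermediateField.adjoin k₀ {z | ∃ j J, z = coeff J (H j)}) + c)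
    (S : Set (Fin (N + 1) → L))
    (E : ∀ (k : IntermediateField k₀ L) (j : Fin s)
      (aA : Fin 1 → Sym (Fin (N + 1)) d → L) (ap : Fin 1 → Sym (Fin (N + 1)) (b j) → L)
      (ah : Fin 1 → Sym (Fin (N + 1)) (d - b j) → L),
      Fam (fun _ : Fin 1 => d) (fun _ => b j) (fun _ => d - b j) (fun _ => cf d F) aA ap ah →
      Over k (d := fun _ : Fin 1 => d) aA → Over k (d := fun _ : Fin 1 => b j) ap →
      (Fintype.card (Ix (Fin (N + 1)) fun _ : Fin 1 => d - b j) : Cardinal) ≤ Algebra.trdeg k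
        (IntermediateField.adjoin k (Set.range fun p : Ix (Fin (N + 1)) fun _ : Fin 1 => d - b j =>
          ah p.1 p.2)) + c →
      (∀ x i, form (ap i) x = aeval x (P j)) →
      {x ∈ S | aeval x (P j) ≠ 0}.Finite) :
    {x ∈ S | ∃ j, aeval x (P j) ≠ 0}.Finite := by
  classical
  have h := multi (r := 1) (fun _ => d) (fun _ => b) (fun _ => hb) (fun _ => A) (fun _ => hA)
    (fun _ => P) (fun _ => hP) (fun _ => H) (fun _ => hH) c ?_ S ?_
  · refine h.subset ?_
    rintro x ⟨hx, j, hj⟩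
    exact ⟨hx, fun _ => ⟨j, hj⟩⟩
  · have e : ({z | ∃ (_ : Fin 1) (j : Fin s) (J : Fin (N + 1) →₀ ℕ), z = coeff J (H j)} : Set L)
        = {z | ∃ j J, z = coeff J (H j)} := by
      ext z
      constructor
      · rintro ⟨-, h⟩
        exact h
      · intro h
        exact ⟨0, h⟩
    rw [Fin.sum_univ_one, e]
    exact hcoef
  · intro k j A' hA' hFA' hcoef'
    obtain ⟨j0, rfl⟩ : ∃ j0, j = fun _ => j0 :=
      ⟨j 0, funext fun i => by rw [Subsingleton.elim i 0]⟩
    refine (E k j0 (fun i => cf d (map (algebraMap k L) (A' i)))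
      (fun _ => cf (b j0) (map (algebraMap k L) (map (algebraMap k₀ k) (P j0))))
      (fun _ => cf (d - b j0) (H j0)) ?_ ?_ ?_ ?_ ?_).subset ?_
    · exact fam_poly (fun _ => d) (fun _ => b j0) (fun _ => d - b j0)
        (fun _ => (Nat.add_sub_cancel' (hb j0)).symm) (fun _ => F) A'
        (fun _ => map (algebraMap k₀ k) (P j0)) (fun _ => H j0) (fun _ => (hP j0).map _)
        (fun _ => hH j0) (fun i => by
          rw [hFA, hFA' i, map_map, ← IsScalarTower.algebraMap_eq])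
    · exact over_poly (fun _ : Fin 1 => d) A'
    · exact over_poly (fun _ : Fin 1 => b j0) fun _ => map (algebraMap k₀ k) (P j0)
    · rw [card_Ix, ← adjoin_poly k (fun _ : Fin 1 => d - b j0) (fun _ => H j0) (fun _ => hH j0)]
      exact hcoef'
    · intro x i
      rw [form_poly _ ((hP j0).map _), aeval_map_algebraMap]
    · rintro x ⟨hx, hx2⟩
      exact ⟨hx, hx2 0⟩

/-- a space of dimension at most one contains at most one normalised point -/
theorem en_one {L : Type*} [Field L] {N : ℕ} (W : Submodule L (Fin (N + 1) → L))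
    (hW : Module.finrank L W ≤ 1) (i₀ : Fin (N + 1)) :
    {x : Fin (N + 1) → L | x i₀ = 1 ∧ x ∈ W}.Finite := by
  refine Set.Subsingleton.finite ?_
  rintro x ⟨hx, hxW⟩ y ⟨hy, hyW⟩
  obtain ⟨v, hv⟩ := finrank_le_one_iff.1 hW
  obtain ⟨a, ha⟩ := hv ⟨x, hxW⟩
  obtain ⟨b, hb⟩ := hv ⟨y, hyW⟩
  have ha' : a • (v : Fin (N + 1) → L) = x := congrArg Subtype.val ha
  have hb' : b • (v : Fin (N + 1) → L) = y := congrArg Subtype.val hb
  have h1 : a * (v : Fin (N + 1) → L) i₀ = 1 := by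
    rw [← hx, ← ha']
    rfl
  have h2 : b * (v : Fin (N + 1) → L) i₀ = 1 := by
    rw [← hy, ← hb']
    rfl
  have hv0 : (v : Fin (N + 1) → L) i₀ ≠ 0 := by
    intro h
    rw [h, mul_zero] at h1
    exact zero_ne_one h1
  have hab : a = b := mul_right_cancel₀ hv0 (h1.trans h2.symm)
  rw [← ha', ← hb', hab]

/-- the points of the complement lie on finitely many lines -/
theorem eng_open {k₀ L : Type*} [Field k₀] [Field L] [CharZero L] [Algebra k₀ L]
    (hfg : (⊤ : IntermediateField k₀ L).FG) {N s : ℕ} (w d q : ℕ) (b : Fin s → ℕ)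
    (hbq : ∀ j, b j + q ≤ d) (F : MvPolynomial (Fin (N + 1)) L)
    (A : MvPolynomial (Fin (N + 1)) k₀) (hA : A.IsHomogeneous d)
    (P : Fin s → MvPolynomial (Fin (N + 1)) k₀) (hP : ∀ j, (P j).IsHomogeneous (b j))
    (H : Fin s → MvPolynomial (Fin (N + 1)) L) (hH : ∀ j, (H j).IsHomogeneous (d - b j))
    (hFA : F = map (algebraMap k₀ L) A + ∑ j, map (algebraMap k₀ L) (P j) * H j) (c : ℕ)
    (hcoef : ((∑ j, (N + (d - b j)).choose N : ℕ) : Cardinal) ≤
      Algebra.trdeg k₀ (IntermediateField.adjoin k₀ {z | ∃ j J, z = coeff J (H j)}) + c)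
    (h0 : w = N ∨ 2 * N + w + c + 56 ≤ 10 * q) (h1 : 3 * w + 4 + c ≤ 2 * q) (h2 : 3 ≤ q)
    (h3 : 6 * N + 2 * c ≤ (q - 3) * (q - 2)) (R : Subalgebra k₀ L) (hR : R.FG) :
    ∃ Λ : Set (Submodule L (Fin (N + 1) → L)), Λ.Finite ∧
      (∀ W ∈ Λ, Module.finrank L W ≤ 2) ∧ ∀ (i₀ : Fin (N + 1)) (x : Fin (N + 1) → L),
      x i₀ = 1 → Algebra.trdeg k₀ (IntermediateField.adjoin k₀ (Set.range x)) ≤ w →
      (∃ j, aeval x (P j) ≠ 0) → eval x F ≠ 0 →
      (∀ J : Sym (Fin (N + 1)) d, mon x J / eval x F ∈ R) → ∃ W ∈ Λ, x ∈ W := by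
  classical
  have hb : ∀ j, b j ≤ d := fun j => (Nat.le_add_right _ _).trans (hbq j)
  have hdF := en_hom d b hb F A hA P hP H hH hFA
  have hform : ∀ x : Fin (N + 1) → L, form (cf d F) x = eval x F := fun x => form_cf _ hdF x
  obtain ⟨m, rfl⟩ : ∃ m, q = m + 3 := ⟨q - 3, by omega⟩
  have e1 : m + 3 - 3 = m := by omega
  have e2 : m + 3 - 2 = m + 1 := by omega
  rw [e1, e2] at h3
  have key : ∀ i₀ : Fin (N + 1), ∃ Λ : Set (Submodule L (Fin (N + 1) → L)), Λ.Finite ∧
      (∀ W ∈ Λ, Module.finrank L W ≤ 2) ∧ ∀ (x : Fin (N + 1) → L),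
      x i₀ = 1 → Algebra.trdeg k₀ (IntermediateField.adjoin k₀ (Set.range x)) ≤ w →
      (∃ j, aeval x (P j) ≠ 0) → eval x F ≠ 0 →
      (∀ J : Sym (Fin (N + 1)) d, mon x J / eval x F ∈ R) → ∃ W ∈ Λ, x ∈ W := by
    intro i₀
    have hmain : ∀ S' ⊆ {x : Fin (N + 1) → L | x i₀ = 1 ∧
        Algebra.trdeg k₀ (IntermediateField.adjoin k₀ (Set.range x)) ≤ w ∧
        (∃ j, aeval x (P j) ≠ 0) ∧ eval x F ≠ 0 ∧
        ∀ J : Sym (Fin (N + 1)) d, mon x J / eval x F ∈ R}, S'.Infinite →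
        ∃ W : Submodule L (Fin (N + 1) → L), Module.finrank L W ≤ 2 ∧ (S' ∩ W).Infinite := by
      intro S' hS' hinf
      by_contra hcon
      push Not at hcon
      refine hinf ((en_multi d b hb F A hA P hP H hH hFA c hcoef S' ?_).subset
        fun x hx => ⟨hx, (hS' hx).2.2.1⟩)
      intro k j aA ap ah hFam hoA hoP hc hfP
      obtain ⟨R', hR', hRR'⟩ := subalgebra_tower k R hR
      have hj := hbq j
      obtain ⟨Λ, hΛ, hΛ2, hcov⟩ := lines (fg_tower k hfg) (fun _ : Fin 1 => d) (fun _ => b j)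
        (fun _ => d - b j) (fun _ => cf d F) aA ap ah hFam hoA hoP (fun _ => by omega) c hc
        ∅ i₀ w m
        (by
          rw [Fintype.card_fin, Finset.compl_empty, Finset.card_univ, Fintype.card_fin]
          rcases h0 with h0 | h0
          · left; omega
          · right; omega)
        (by rw [Finset.compl_empty, Finset.card_univ, Fintype.card_fin]; omega)
        (by rw [Finset.compl_empty, Finset.card_univ, Fintype.card_fin]; omega)
        (by rw [Fintype.card_fin]; omega) R' hR'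
      refine (Set.Finite.biUnion hΛ (t := fun W => S' ∩ (W : Set (Fin (N + 1) → L)))
        fun W hW => hcon W (hΛ2 W hW)).subset ?_
      rintro x ⟨hx, h6⟩
      obtain ⟨h3, hw, -, h4, h5⟩ := hS' hx
      obtain ⟨W, hW, hxW⟩ := hcov x h3 ⟨fun i hi => absurd hi (Finset.notMem_empty i),
        fun i hi => by rw [hform]; exact h4, fun i hi J => by
          rw [hform]
          exact isIntegral_algebraMap (R := R'.toSubring) (x := ⟨_, hRR' _ (h5 J)⟩)⟩
        (fun i => by rw [hfP]; exact h6) ((trdeg_mono' k _).trans hw)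
      rw [Set.mem_iUnion₂]
      exact ⟨W, hW, hx, hxW⟩
    obtain ⟨Λ, h1, h2, h3⟩ := Pool.Agent.Helper10.LB.greedy _ hmain i₀ fun x hx => hx.1
    exact ⟨Λ, h1, h2, fun x hx hw hP hF hU => h3 x ⟨hx, hw, hP, hF, hU⟩⟩
  choose Λ hΛ1 hΛ2 hΛ3 using key
  refine ⟨⋃ i₀, Λ i₀, Set.finite_iUnion hΛ1, fun W hW => ?_, fun i₀ x h2 hw h3 h4 h5 => ?_⟩
  · obtain ⟨i₀, h⟩ := Set.mem_iUnion.1 hW
    exact hΛ2 i₀ W h
  · obtain ⟨W, hW, hx⟩ := hΛ3 i₀ x h2 hw h3 h4 h5
    exact ⟨W, Set.mem_iUnion.2 ⟨i₀, hW⟩, hx⟩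

/-- the points of the hypersurface outside finitely many lines contained in it are finite in
number -/
theorem eng_closed {k₀ L : Type*} [Field k₀] [Field L] [CharZero L] [Algebra k₀ L]
    (hfg : (⊤ : IntermediateField k₀ L).FG) {N s : ℕ} (w d q : ℕ) (b : Fin s → ℕ)
    (hbq : ∀ j, b j + q ≤ d) (F : MvPolynomial (Fin (N + 1)) L)
    (A : MvPolynomial (Fin (N + 1)) k₀) (hA : A.IsHomogeneous d)
    (P : Fin s → MvPolynomial (Fin (N + 1)) k₀) (hP : ∀ j, (P j).IsHomogeneous (b j))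
    (H : Fin s → MvPolynomial (Fin (N + 1)) L) (hH : ∀ j, (H j).IsHomogeneous (d - b j))
    (hFA : F = map (algebraMap k₀ L) A + ∑ j, map (algebraMap k₀ L) (P j) * H j) (c : ℕ)
    (hcoef : ((∑ j, (N + (d - b j)).choose N : ℕ) : Cardinal) ≤
      Algebra.trdeg k₀ (IntermediateField.adjoin k₀ {z | ∃ j J, z = coeff J (H j)}) + c)
    (h0 : w = N ∨ 2 * N + w + c + 55 ≤ 10 * q) (h1 : 3 * w + 3 + c ≤ 2 * q)
    (h3 : 6 * N + 2 * c ≤ (q - 2) * (q - 1)) :
    ∃ Λ : Set (Submodule L (Fin (N + 1) → L)), Λ.Finite ∧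
      (∀ W ∈ Λ, Module.finrank L W = 2 ∧ ∀ y ∈ W, eval y F = 0) ∧ ∀ i₀ : Fin (N + 1),
      {x : Fin (N + 1) → L | x i₀ = 1 ∧
        Algebra.trdeg k₀ (IntermediateField.adjoin k₀ (Set.range x)) ≤ w ∧
        (∃ j, aeval x (P j) ≠ 0) ∧ eval x F = 0 ∧ ∀ W ∈ Λ, x ∉ W}.Finite := by
  classical
  have hb : ∀ j, b j ≤ d := fun j => (Nat.le_add_right _ _).trans (hbq j)
  have hdF := en_hom d b hb F A hA P hP H hH hFA
  have hform : ∀ x : Fin (N + 1) → L, form (cf d F) x = eval x F := fun x => form_cf _ hdF x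
  obtain ⟨m, rfl⟩ : ∃ m, q = m + 2 := ⟨q - 2, by omega⟩
  have e1 : m + 2 - 2 = m := by omega
  have e2 : m + 2 - 1 = m + 1 := by omega
  rw [e1, e2] at h3
  have key : ∀ i₀ : Fin (N + 1), ∃ Λ : Set (Submodule L (Fin (N + 1) → L)), Λ.Finite ∧
      (∀ W ∈ Λ, Module.finrank L W ≤ 2) ∧ ∀ (x : Fin (N + 1) → L),
      x i₀ = 1 → Algebra.trdeg k₀ (IntermediateField.adjoin k₀ (Set.range x)) ≤ w →
      (∃ j, aeval x (P j) ≠ 0) → eval x F = 0 → ∃ W ∈ Λ, x ∈ W := by
    intro i₀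
    have hmain : ∀ S' ⊆ {x : Fin (N + 1) → L | x i₀ = 1 ∧
        Algebra.trdeg k₀ (IntermediateField.adjoin k₀ (Set.range x)) ≤ w ∧
        (∃ j, aeval x (P j) ≠ 0) ∧ eval x F = 0}, S'.Infinite →
        ∃ W : Submodule L (Fin (N + 1) → L), Module.finrank L W ≤ 2 ∧ (S' ∩ W).Infinite := by
      intro S' hS' hinf
      by_contra hcon
      push Not at hcon
      refine hinf ((en_multi d b hb F A hA P hP H hH hFA c hcoef S' ?_).subset
        fun x hx => ⟨hx, (hS' hx).2.2.1⟩)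
      intro k j aA ap ah hFam hoA hoP hc hfP
      have hj := hbq j
      obtain ⟨S₀, Λ, hS₀, hΛ, hΛ2, hcov⟩ := lines_in (fg_tower k hfg) (fun _ : Fin 1 => d)
        (fun _ => b j) (fun _ => d - b j) (fun _ => cf d F) aA ap ah hFam hoA hoP
        (fun _ => by omega) c hc i₀ w m
        (by
          rw [Fintype.card_fin]
          rcases h0 with h0 | h0
          · left; omega
          · right; omega)
        (by omega) (by omega) (by rw [Fintype.card_fin]; omega)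
      refine (hS₀.union (Set.Finite.biUnion hΛ (t := fun W => S' ∩ (W : Set (Fin (N + 1) → L)))
        fun W hW => hcon W (hΛ2 W hW).1.le)).subset ?_
      rintro x ⟨hx, h6⟩
      obtain ⟨h3, hw, -, h4⟩ := hS' hx
      rcases hcov x h3 (fun i => by rw [hform]; exact h4) (fun i => by rw [hfP]; exact h6)
        ((trdeg_mono' k _).trans hw) with h | ⟨W, hW, hxW⟩
      · exact Or.inl h
      · right
        rw [Set.mem_iUnion₂]
        exact ⟨W, hW, hx, hxW⟩
    obtain ⟨Λ, h1, h2, h3⟩ := Pool.Agent.Helper10.LB.greedy _ hmain i₀ fun x hx => hx.1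
    exact ⟨Λ, h1, h2, fun x hx hw hP hF => h3 x ⟨hx, hw, hP, hF⟩⟩
  choose Λ hΛ1 hΛ2 hΛ3 using key
  refine ⟨{W ∈ ⋃ i₀, Λ i₀ | Module.finrank L W = 2 ∧ ∀ y ∈ W, eval y F = 0},
    (Set.finite_iUnion hΛ1).subset fun W hW => hW.1, fun W hW => hW.2, fun i₀ => ?_⟩
  refine (Set.Finite.biUnion (hΛ1 i₀) (t := fun W => {x : Fin (N + 1) → L | x i₀ = 1 ∧
    (∃ j, aeval x (P j) ≠ 0) ∧ eval x F = 0 ∧ x ∈ W ∧
      ¬ (Module.finrank L W = 2 ∧ ∀ y ∈ W, eval y F = 0)}) fun W hW => ?_).subset ?_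
  · by_cases hr : Module.finrank L W ≤ 1
    · refine (en_one W hr i₀).subset ?_
      rintro x ⟨h2, -, -, h3, -⟩
      exact ⟨h2, h3⟩
    · have hr2 : Module.finrank L W = 2 := le_antisymm (hΛ2 i₀ W hW) (by omega)
      by_cases hz : ∀ y ∈ W, eval y F = 0
      · refine Set.Finite.subset Set.finite_empty ?_
        rintro x ⟨-, -, -, -, h⟩
        exact absurd ⟨hr2, hz⟩ h
      · by_cases hs : Nonempty (Fin s)
        · obtain ⟨j⟩ := hs
          have hj := hbq j
          push Not at hz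
          obtain ⟨Γ, hΓ1, hΓ2, hΓ3⟩ := line_zeros (by omega : 0 < d) F hdF W hr2.le hz
          refine (Set.Finite.biUnion hΓ1 (t := fun W' => {x : Fin (N + 1) → L |
            x i₀ = 1 ∧ x ∈ W'}) fun W' hW' => en_one W' (hΓ2 W' hW').1 i₀).subset ?_
          rintro x ⟨h2, -, h3, h4, -⟩
          obtain ⟨W', hW', hx⟩ := hΓ3 x h4 h3
          rw [Set.mem_iUnion₂]
          exact ⟨W', hW', h2, hx⟩
        · refine Set.Finite.subset Set.finite_empty ?_
          rintro x ⟨-, ⟨j, -⟩, -⟩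
          exact hs ⟨j⟩
  · rintro x ⟨h2, hw, h3, h4, h5⟩
    obtain ⟨W, hW, hx⟩ := hΛ3 i₀ x h2 hw h3 h4
    rw [Set.mem_iUnion₂]
    exact ⟨W, hW, h2, h3, h4, hx, fun h => h5 W ⟨Set.mem_iUnion.2 ⟨i₀, hW⟩, h⟩ hx⟩

/-- finiteness if there are no lines -/
theorem eng_none {k₀ L : Type*} [Field k₀] [Field L] [CharZero L] [Algebra k₀ L]
    (hfg : (⊤ : IntermediateField k₀ L).FG) {N s : ℕ} (w d q : ℕ) (b : Fin s → ℕ)
    (hbq : ∀ j, b j + q ≤ d) (F : MvPolynomial (Fin (N + 1)) L)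
    (A : MvPolynomial (Fin (N + 1)) k₀) (hA : A.IsHomogeneous d)
    (P : Fin s → MvPolynomial (Fin (N + 1)) k₀) (hP : ∀ j, (P j).IsHomogeneous (b j))
    (H : Fin s → MvPolynomial (Fin (N + 1)) L) (hH : ∀ j, (H j).IsHomogeneous (d - b j))
    (hFA : F = map (algebraMap k₀ L) A + ∑ j, map (algebraMap k₀ L) (P j) * H j) (c : ℕ)
    (hcoef : ((∑ j, (N + (d - b j)).choose N : ℕ) : Cardinal) ≤
      Algebra.trdeg k₀ (IntermediateField.adjoin k₀ {z | ∃ j J, z = coeff J (H j)}) + c)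
    (h0 : w = N ∨ 2 * N + w + c + 55 ≤ 10 * q) (h1 : 3 * w + 3 + c ≤ 2 * q)
    (h3 : 6 * N + 2 * c ≤ (q - 2) * (q - 1)) (h2 : 2 * N + c ≤ q + 2) (i₀ : Fin (N + 1)) :
    {x : Fin (N + 1) → L | x i₀ = 1 ∧
      Algebra.trdeg k₀ (IntermediateField.adjoin k₀ (Set.range x)) ≤ w ∧
      (∃ j, aeval x (P j) ≠ 0) ∧ eval x F = 0}.Finite := by
  classical
  have hb : ∀ j, b j ≤ d := fun j => (Nat.le_add_right _ _).trans (hbq j)
  have hdF := en_hom d b hb F A hA P hP H hH hFA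
  have hform : ∀ x : Fin (N + 1) → L, form (cf d F) x = eval x F := fun x => form_cf _ hdF x
  obtain ⟨m, rfl⟩ : ∃ m, q = m + 2 := ⟨q - 2, by omega⟩
  have e1 : m + 2 - 2 = m := by omega
  have e2 : m + 2 - 1 = m + 1 := by omega
  rw [e1, e2] at h3
  refine (en_multi d b hb F A hA P hP H hH hFA c hcoef
    {x : Fin (N + 1) → L | x i₀ = 1 ∧
      Algebra.trdeg k₀ (IntermediateField.adjoin k₀ (Set.range x)) ≤ w ∧ eval x F = 0}
    ?_).subset ?_
  · intro k j aA ap ah hFam hoA hoP hc hfP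
    have hj := hbq j
    have hfin := lines_none (fg_tower k hfg) (fun _ : Fin 1 => d)
      (fun _ => b j) (fun _ => d - b j) (fun _ => cf d F) aA ap ah hFam hoA hoP
      (fun _ => by omega) c hc i₀ w m
      (by
        rw [Fintype.card_fin]
        rcases h0 with h0 | h0
        · left; omega
        · right; omega)
      (by omega) (by omega) (by rw [Fintype.card_fin]; omega)
      (by rw [Fintype.card_fin]; omega)
    refine hfin.subset ?_
    rintro x ⟨⟨h3, hw, h4⟩, h5⟩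
    exact ⟨h3, (trdeg_mono' k _).trans hw, fun i => by rw [hfP]; exact h5,
      fun i => by rw [hform]; exact h4⟩
  · rintro x ⟨h3, hw, h4, h5⟩
    exact ⟨⟨h3, hw, h5⟩, h4⟩

/-- the numerical condition for `w = N`, complement -/
theorem num_open {N c q : ℕ} (hN : 3 ≤ N) (h : 3 * N + 4 + c ≤ 2 * q) :
    3 ≤ q ∧ 6 * N + 2 * c ≤ (q - 3) * (q - 2) := by
  obtain ⟨t, rfl⟩ : ∃ t, q = t + 3 := ⟨q - 3, by omega⟩
  refine ⟨by omega, ?_⟩
  have h1 : t + 3 - 3 = t := by omega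
  have h2 : t + 3 - 2 = t + 1 := by omega
  rw [h1, h2]
  obtain ⟨u, hu⟩ : ∃ u, u = 3 * N + c := ⟨_, rfl⟩
  have h3 : u ≤ 2 * t + 2 := by omega
  have h4 : 9 ≤ u := by omega
  have h5 : 4 ≤ t := by omega
  have h6 : 6 * N + 2 * c = 2 * u := by omega
  rw [h6]
  nlinarith

/-- the numerical condition for `w = N`, hypersurface -/
theorem num_closed {N c q : ℕ} (hN : 3 ≤ N) (h : 3 * N + 3 + c ≤ 2 * q) :
    6 * N + 2 * c ≤ (q - 2) * (q - 1) := by
  obtain ⟨t, rfl⟩ : ∃ t, q = t + 2 := ⟨q - 2, by omega⟩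
  have h1 : t + 2 - 2 = t := by omega
  have h2 : t + 2 - 1 = t + 1 := by omega
  rw [h1, h2]
  obtain ⟨u, hu⟩ : ∃ u, u = 3 * N + c := ⟨_, rfl⟩
  have h3 : u ≤ 2 * t + 1 := by omega
  have h4 : 9 ≤ u := by omega
  have h6 : 6 * N + 2 * c = 2 * u := by omega
  rw [h6]
  nlinarith

end Pool.Agent.Helper74.LN

end

section

/-!
# LN-FINAL: finitely many lines, over schemes

The version of `Helper10.LN.FinalN` with `w` (bound for the transcendence degree of the points).
-/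

set_option autoImplicit false

open AlgebraicGeometry CategoryTheory CategoryTheory.Limits MvPolynomial

namespace Pool.Agent.Helper74.LN

open Pool.Agent.Helper10.LN

open scoped BigOperators LinearAlgebra.Projectivization
open Pool.Agent.Helper8.LG hiding coeffField
open Pool.Agent.Helper10.LB

attribute [local instance] MvPolynomial.gradedAlgebra

universe u v

/-- the engine, closed case, in the form used here -/
theorem eng_c {k₀ L : Type*} [Field k₀] [Field L] [CharZero L] [Algebra k₀ L]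
    (hfg : (⊤ : IntermediateField k₀ L).FG) {N n : ℕ} (w d q : ℕ) (b : Fin n → ℕ)
    (hbq : ∀ j, b j + q ≤ d) (F : MvPolynomial (Fin (N + 1)) L)
    (A : MvPolynomial (Fin (N + 1)) k₀) (hA : A.IsHomogeneous d)
    (P : Fin n → MvPolynomial (Fin (N + 1)) k₀) (hP : ∀ j, (P j).IsHomogeneous (b j))
    (H : Fin n → MvPolynomial (Fin (N + 1)) L) (hH : ∀ j, (H j).IsHomogeneous (d - b j))
    (hFA : F = map (algebraMap k₀ L) A + ∑ j, map (algebraMap k₀ L) (P j) * H j) (c : ℕ)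
    (hcoef : ((∑ j, (N + (d - b j)).choose N : ℕ) : Cardinal) ≤
      Algebra.trdeg k₀ (IntermediateField.adjoin k₀ {z | ∃ j J, z = coeff J (H j)}) + c)
    (h0 : w = N ∨ 2 * N + w + c + 55 ≤ 10 * q) (h1 : 3 * w + 3 + c ≤ 2 * q)
    (h3 : 6 * N + 2 * c ≤ (q - 2) * (q - 1)) (Cl : Prop) (hCl : Cl) :
    ∃ Λ' : Set (Submodule L (Fin (N + 1) → L)),
      Λ'.Finite ∧ (∀ W' ∈ Λ', Module.finrank L W' ≤ 2 ∧
        (∀ y ∈ W', eval y F = 0) ∧ q + 2 < 2 * N + c) ∧ ∀ i₀ : Fin (N + 1),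
        {y : Fin (N + 1) → L | y i₀ = 1 ∧ CondN' Cl F P w y ∧ (∀ W' ∈ Λ', y ∉ W')}.Finite := by
  by_cases hq : 2 * N + c ≤ q + 2
  · refine ⟨∅, Set.finite_empty, fun W' h => absurd h (Set.notMem_empty _), fun i₀ => ?_⟩
    refine (Pool.Agent.Helper74.LN.eng_none hfg w d q b hbq F A hA P hP H hH hFA c hcoef h0 h1 h3
      hq i₀).subset ?_
    rintro y ⟨h2, h3, -⟩
    exact ⟨h2, h3.2.1, h3.1, h3.2.2 hCl⟩
  · obtain ⟨Λ', h2, h3, h4⟩ := Pool.Agent.Helper74.LN.eng_closed hfg w d q b hbq F A hA P hP H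
      hH hFA c hcoef h0 h1 h3
    refine ⟨Λ', h2, fun W' hW' => ⟨(h3 W' hW').1.le, (h3 W' hW').2, by omega⟩, fun i₀ => ?_⟩
    refine (h4 i₀).subset ?_
    rintro y ⟨h5, h6, h7⟩
    exact ⟨h5, h6.2.1, h6.1, h6.2.2 hCl, h7⟩

/-- the engine, open case, in the form used here -/
theorem eng_o {k₀ L : Type*} [Field k₀] [Field L] [CharZero L] [Algebra k₀ L]
    (hfg : (⊤ : IntermediateField k₀ L).FG) {N n : ℕ} (w d q : ℕ) (b : Fin n → ℕ)
    (hbq : ∀ j, b j + q ≤ d) (F : MvPolynomial (Fin (N + 1)) L)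
    (A : MvPolynomial (Fin (N + 1)) k₀) (hA : A.IsHomogeneous d)
    (P : Fin n → MvPolynomial (Fin (N + 1)) k₀) (hP : ∀ j, (P j).IsHomogeneous (b j))
    (H : Fin n → MvPolynomial (Fin (N + 1)) L) (hH : ∀ j, (H j).IsHomogeneous (d - b j))
    (hFA : F = map (algebraMap k₀ L) A + ∑ j, map (algebraMap k₀ L) (P j) * H j) (c : ℕ)
    (hcoef : ((∑ j, (N + (d - b j)).choose N : ℕ) : Cardinal) ≤
      Algebra.trdeg k₀ (IntermediateField.adjoin k₀ {z | ∃ j J, z = coeff J (H j)}) + c)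
    (h0 : w = N ∨ 2 * N + w + c + 56 ≤ 10 * q) (h1 : 3 * w + 4 + c ≤ 2 * q) (h2 : 3 ≤ q)
    (h3 : 6 * N + 2 * c ≤ (q - 3) * (q - 2)) (Cl : Prop) (R : Subalgebra k₀ L) (hR : R.FG) :
    ∃ Λ' : Set (Submodule L (Fin (N + 1) → L)),
      Λ'.Finite ∧ (∀ W' ∈ Λ', Module.finrank L W' ≤ 2) ∧ ∀ i₀ : Fin (N + 1),
        {y : Fin (N + 1) → L | y i₀ = 1 ∧ CondN' Cl F P w y ∧ (∀ W' ∈ Λ', y ∉ W') ∧
          eval y F ≠ 0 ∧ ∀ J : Sym (Fin (N + 1)) d, mon y J / eval y F ∈ R}.Finite := by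
  obtain ⟨Λ', h2, h3, h4⟩ := Pool.Agent.Helper74.LN.eng_open hfg w d q b hbq F A hA P hP H hH
    hFA c hcoef h0 h1 h2 h3 R hR
  refine ⟨Λ', h2, h3, fun i₀ => Set.Finite.subset Set.finite_empty ?_⟩
  rintro y ⟨h5, h6, h7, h8, h9⟩
  obtain ⟨W', hW', hy⟩ := h4 i₀ y h5 h6.2.1 h6.1 h8 h9
  exact h7 W' hW' hy

set_option maxHeartbeats 400000 in
/-- **A finite set and finitely many lines**, over schemes. -/
theorem main_n (R : CommRingCat.{u}) (B : Scheme.{u}) [IsIntegral B] (s : B ⟶ Spec R)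
    [LocallyOfFiniteType s] [CharZero B.functionField]
    (U : Scheme.{u}) (π : U ⟶ B) [IsSeparated π] [LocallyOfFiniteType π] [QuasiCompact π]
    {N n : ℕ} (d q : ℕ) (b : Fin n → ℕ) (hb : ∀ j, b j + q ≤ d)
    (F : MvPolynomial (Fin (N + 1)) B.functionField) (hF : F.IsHomogeneous d)
    (f : genFib π ⟶ PN N B.functionField) (hf : f ≫ PN.toSpec N _ = pullback.snd _ _)
    [LocallyQuasiFinite f]
    (Cl : Prop) (hU : ¬Cl → ∀ z : genFib π, NonVanishing (f z) F)
    (k₀ : Subfield B.functionField)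
    (hk₀ : ∀ r : R, (Spec.preimage (B.fromSpecStalk (genericPoint B) ≫ s)).hom r ∈ k₀)
    (M : Type v) [Field M] [Algebra B.functionField M]
    (hM : (⊤ : IntermediateField B.functionField M).FG) (g : GL (Fin (N + 1)) M)
    (A : MvPolynomial (Fin (N + 1)) k₀) (hA : A.IsHomogeneous d)
    (P : Fin n → MvPolynomial (Fin (N + 1)) k₀) (hP : ∀ j, (P j).IsHomogeneous (b j))
    (H : Fin n → MvPolynomial (Fin (N + 1)) M) (hH : ∀ j, (H j).IsHomogeneous (d - b j))
    (hFA : subst (g : Matrix _ _ M) F =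
      map (algebraMap k₀ M) A + ∑ j, map (algebraMap k₀ M) (P j) * H j) (w c : ℕ)
    (hcoef : ((∑ j, (N + (d - b j)).choose N : ℕ) : Cardinal) ≤
      Algebra.trdeg k₀ (IntermediateField.adjoin k₀ {z | ∃ j J, z = coeff J (H j)}) + c)
    (hnum : (Cl ∧ (w = N ∨ 2 * N + w + c + 55 ≤ 10 * q) ∧ 3 * w + 3 + c ≤ 2 * q ∧
        6 * N + 2 * c ≤ (q - 2) * (q - 1)) ∨
      (¬Cl ∧ (w = N ∨ 2 * N + w + c + 56 ≤ 10 * q) ∧ 3 * w + 4 + c ≤ 2 * q ∧ 3 ≤ q ∧
        6 * N + 2 * c ≤ (q - 3) * (q - 2))) :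
    ∃ Λ : Set (Submodule B.functionField (Fin (N + 1) → B.functionField)), Λ.Finite ∧
      (∀ W ∈ Λ, Module.finrank B.functionField W = 2 ∧
        (Cl → (∀ x ∈ W, eval x F = 0) ∧ q + 2 < 2 * N + c) ∧
        (¬Cl → Algebra.FiniteType ℤ R → MeetsTwice F W)) ∧
      {σ : B ⟶ U | ∃ hσ : σ ≫ π = 𝟙 B, ∀ (t : Spec B.functionField)
        (x : Fin (N + 1) → B.functionField), IsCoord (f (genPt π σ hσ t)) x →
          CondN Cl F g P w x ∧ ∀ W ∈ Λ, x ∉ W}.Finite := by
  classical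
  have : CharZero M :=
    charZero_of_injective_algebraMap (algebraMap B.functionField M).injective
  by_cases hn : Nonempty (Fin n)
  swap
  · -- no multipliers
    refine ⟨∅, Set.finite_empty, fun W h => absurd h (Set.notMem_empty _), ?_⟩
    refine Set.Finite.subset Set.finite_empty ?_
    rintro σ ⟨hσ, h1⟩
    obtain ⟨t⟩ : Nonempty (Spec B.functionField) := inferInstance
    obtain ⟨x, hx⟩ := exists_coord (genPt π σ hσ ≫ f)
      (by rw [Category.assoc, hf]; exact ffib_snd π σ hσ) t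
    obtain ⟨j, -⟩ := (h1 t x hx).1.1
    exact hn ⟨j⟩
  obtain ⟨j₀⟩ := hn
  have hd : 0 < d := by
    have := hb j₀
    omega
  obtain ⟨F', hFF'⟩ : ∃ F' : MvPolynomial (Fin (N + 1)) M, F' = subst (g : Matrix _ _ M) F :=
    ⟨_, rfl⟩
  have hF' : F'.IsHomogeneous d := by
    rw [hFF']
    exact subst_hom _ _ hF
  rw [← hFF'] at hFA
  rcases hnum with ⟨hCl, n0, n1, n3⟩ | ⟨hCl, n0, n1, n2, n3⟩
  · obtain ⟨Λ, h1, h2, h3⟩ := main_closed R B s U π d b F hF f hf k₀ hk₀ M hM g F' hFF' P hP w Cl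
      (q + 2 < 2 * N + c) (fun hfg => eng_c hfg w d q b hb F' A hA P hP H hH hFA c hcoef n0
        n1 n3 Cl hCl)
    exact ⟨Λ, h1, fun W hW => ⟨(h2 W hW).1, fun _ => (h2 W hW).2, fun h => absurd hCl h⟩, h3⟩
  · obtain ⟨Λ, h1, h2, h3⟩ := main_open R B s U π d hd b F hF f hf (hU hCl) k₀ hk₀ M hM g F' hFF'
      hF' P hP w Cl (fun hfg R' hR' => eng_o hfg w d q b hb F' A hA P hP H hH hFA c hcoef n0 n1
        n2 n3 Cl R' hR')
    exact ⟨Λ, h1, fun W hW => ⟨(h2 W hW).1, fun h => absurd h hCl, fun _ => (h2 W hW).2⟩, h3⟩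

end Pool.Agent.Helper74.LN

end

section

/-!
# QS-FINKEY: finiteness in terms of polynomials

`i₀ = 0`: `reduce` (`Helper8/LG/Reduce.lean`, `ι` = one element, `c = 0`, so `T` = everything) gives
`k` and `D`; `fin_zero`; `form (cf q F) x = eval x F` (`form_cf`, `adjoin_poly`, `card_Ix` as in
`Helper74/LN/EngN.lean`). General `i₀`: permute the variables (`rename (Equiv.swap 0 i₀)`).
-/

set_option autoImplicit false

namespace Pool.Agent.Helper6.QS

open scoped BigOperators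
open MvPolynomial
open Pool.Agent.Helper8.LG
open Pool.Agent.Helper49.LN (cP mo hf pl)

universe u v

/-- the case `i₀ = 0` -/
theorem finKey_zero {N q : ℕ} (hK : KeyQ.{u} N q) {k₀ : Type v} {L : Type u} [Field k₀]
    [Field L] [CharZero L] [Algebra k₀ L] (hfg : (⊤ : IntermediateField k₀ L).FG)
    (F : MvPolynomial (Fin (N + 1)) L) (hF : F.IsHomogeneous q)
    (hcoef : ((N + q).choose N : Cardinal) ≤
      Algebra.trdeg k₀ (IntermediateField.adjoin k₀ {z | ∃ J, z = coeff J F})) :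
    {x : Fin (N + 1) → L | x 0 = 1 ∧ eval x F = 0}.Finite := by
  classical
  have e1 : ({z | ∃ J, z = coeff J F} : Set L) = {z | ∃ (_ : Fin 1) (J : Fin (N + 1) →₀ ℕ),
      z = coeff J F} := by
    ext z
    constructor
    · intro h
      exact ⟨0, h⟩
    · rintro ⟨-, h⟩
      exact h
  have hc : (Fintype.card (Ix (Fin (N + 1)) fun _ : Fin 1 => q) : Cardinal) ≤ Algebra.trdeg k₀
      (IntermediateField.adjoin k₀ (Set.range fun p : Ix (Fin (N + 1)) fun _ : Fin 1 => q =>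
        cf q F p.2)) + (0 : ℕ) := by
    have h1 := Pool.Agent.Helper8.LV.adjoin_poly k₀ (fun _ : Fin 1 => q) (fun _ => F)
      (fun _ => hF)
    rw [card_Ix, ← h1, Fin.sum_univ_one, ← e1, Nat.cast_zero, add_zero]
    exact hcoef
  obtain ⟨T, k, hT, hind, hfin, D, θ, hD, hDk⟩ := reduce hfg (fun _ : Fin 1 => q)
    (fun _ => cf q F) 0 hc
  have hall : ∀ p : Ix (Fin (N + 1)) fun _ : Fin 1 => q, p ∈ T := by
    intro p
    by_contra hp
    have h1 : Fintype.card {p : Ix (Fin (N + 1)) (fun _ : Fin 1 => q) // p ∉ T} = 0 := by omega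
    rw [Fintype.card_eq_zero_iff] at h1
    exact h1.false ⟨p, hp⟩
  have hempty : IsEmpty {p : Ix (Fin (N + 1)) (fun _ : Fin 1 => q) // p ∉ T} :=
    ⟨fun p => p.2 (hall p.1)⟩
  have hinj : Function.Injective
      (fun J : Sym (Fin (N + 1)) q => (⟨⟨0, J⟩, hall _⟩ : T)) := by
    intro J J' h
    have h1 := congrArg (fun p : T => p.1) h
    simp only [Sigma.mk.injEq, heq_eq_eq, true_and] at h1
    exact h1
  have hind1 := hind.comp (fun J : Sym (Fin (N + 1)) q => (⟨⟨0, J⟩, hall _⟩ : T)) hinj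
  have hfun : ((fun p : T => cf q F p.1.2) ∘ fun J : Sym (Fin (N + 1)) q =>
      (⟨⟨0, J⟩, hall _⟩ : T)) = cf q F := rfl
  have hind' : AlgebraicIndependent k (cf q F) := by
    rw [← hfun]
    exact hind1
  have hrange : (Set.range fun p : T => cf q F p.1.2) = Set.range (cf q F) := by
    ext z
    constructor
    · rintro ⟨p, rfl⟩
      exact ⟨p.1.2, rfl⟩
    · rintro ⟨J, rfl⟩
      exact ⟨⟨⟨0, J⟩, hall _⟩, rfl⟩
  rw [hrange] at hfin
  have hD' : ∀ I J : Sym (Fin (N + 1)) q, D ⟨0, J⟩ (cf q F I) = if I = J then 1 else 0 := by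
    intro I J
    have h1 := hD ⟨0, J⟩ ⟨0, I⟩
    rw [Fintype.sum_empty, sub_zero] at h1
    rw [h1]
    refine if_congr ?_ rfl rfl
    constructor
    · intro h
      simp only [Sigma.mk.injEq, heq_eq_eq, true_and] at h
      exact h.symm
    · intro h
      rw [h]
  have h := fin_zero hK (cf q F) hind' hfin (fun J => D ⟨0, J⟩) hD' (fun J c => hDk _ c)
  refine h.subset ?_
  rintro x ⟨h1, h2⟩
  exact ⟨h1, by rw [form_cf F hF, h2]⟩

/-- the coefficients of a polynomial after a permutation of the variables -/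
theorem finKey_coeff {N : ℕ} {L : Type u} [Field L] (e : Fin (N + 1) → Fin (N + 1))
    (he : Function.Injective e) (F : MvPolynomial (Fin (N + 1)) L) :
    ({z | ∃ J, z = coeff J F} : Set L) ⊆ {z | ∃ J, z = coeff J (rename e F)} := by
  rintro z ⟨J, rfl⟩
  exact ⟨J.mapDomain e, (coeff_rename_mapDomain e he F J).symm⟩

theorem fin_key {N q : ℕ} (hq : 0 < q) (hK : KeyQ.{u} N q) {k₀ : Type v} {L : Type u} [Field k₀]
    [Field L] [CharZero L] [Algebra k₀ L] (hfg : (⊤ : IntermediateField k₀ L).FG)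
    (F : MvPolynomial (Fin (N + 1)) L) (hF : F.IsHomogeneous q)
    (hcoef : ((N + q).choose N : Cardinal) ≤
      Algebra.trdeg k₀ (IntermediateField.adjoin k₀ {z | ∃ J, z = coeff J F}))
    (i₀ : Fin (N + 1)) : {x : Fin (N + 1) → L | x i₀ = 1 ∧ eval x F = 0}.Finite := by
  classical
  set e : Fin (N + 1) → Fin (N + 1) := fun i => Equiv.swap 0 i₀ i with he
  have hinj : Function.Injective e := (Equiv.swap 0 i₀).injective
  have hee : e ∘ e = id := by
    funext i
    exact Equiv.swap_apply_self 0 i₀ i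
  have hset : ({z | ∃ J, z = coeff J F} : Set L) = {z | ∃ J, z = coeff J (rename e F)} := by
    refine Set.Subset.antisymm (finKey_coeff e hinj F) ?_
    have h1 := finKey_coeff e hinj (rename e F)
    rw [rename_rename, hee, rename_id_apply] at h1
    exact h1
  rw [hset] at hcoef
  have hfin := finKey_zero hK hfg (rename e F) (hF.rename_isHomogeneous) hcoef
  refine Set.Finite.of_finite_image (f := fun x => x ∘ e) (hfin.subset ?_) ?_
  · rintro _ ⟨x, ⟨h1, h2⟩, rfl⟩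
    refine ⟨?_, ?_⟩
    · change x (e 0) = 1
      have h3 : e 0 = i₀ := Equiv.swap_apply_left 0 i₀
      rw [h3]
      exact h1
    · rw [eval_rename, Function.comp_assoc, hee, Function.comp_id]
      exact h2
  · intro x _ y _ hxy
    have h1 := congrArg (fun z : Fin (N + 1) → L => z ∘ e) hxy
    simp only [Function.comp_assoc, hee, Function.comp_id] at h1
    exact h1

end Pool.Agent.Helper6.QS

end

section

/-!
# QS-MAIN: generic hypersurfaces of degree `q` in `P^N`, from `KeyQ N q`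

`main_n` of `Helper74/LN/Final.lean` with the third case: one term `P_1 H_1`, `P_1` of degree 0, all
coefficients of `H_1` independent; no line is needed.
-/

set_option autoImplicit false

open AlgebraicGeometry CategoryTheory CategoryTheory.Limits MvPolynomial

namespace Pool.Agent.Helper6.QS

open Pool.Agent.Helper10.LN

open scoped BigOperators LinearAlgebra.Projectivization
open Pool.Agent.Helper8.LG hiding coeffField
open Pool.Agent.Helper10.LB

universe u v

/-- the engine in the third case -/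
theorem eng_q {k₀ : Type u} {L : Type v} [Field k₀] [Field L] [CharZero L] [Algebra k₀ L]
    (hfg : (⊤ : IntermediateField k₀ L).FG) {N n : ℕ} (hn : n = 1) (w d q : ℕ) (b : Fin n → ℕ)
    (hbq : ∀ j, b j + q ≤ d) (hdq : d = q) (F : MvPolynomial (Fin (N + 1)) L)
    (hF : F.IsHomogeneous d) (A : MvPolynomial (Fin (N + 1)) k₀)
    (P : Fin n → MvPolynomial (Fin (N + 1)) k₀) (hP : ∀ j, (P j).IsHomogeneous (b j))
    (H : Fin n → MvPolynomial (Fin (N + 1)) L)
    (hFA : F = map (algebraMap k₀ L) A + ∑ j, map (algebraMap k₀ L) (P j) * H j)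
    (hcoef : ((∑ j, (N + (d - b j)).choose N : ℕ) : Cardinal) ≤
      Algebra.trdeg k₀ (IntermediateField.adjoin k₀ {z | ∃ j J, z = coeff J (H j)}))
    (hq0 : 0 < q) (hKQ : KeyQ.{v} N q) (Cl : Prop) (hCl : Cl) (i₀ : Fin (N + 1)) :
    {y : Fin (N + 1) → L | y i₀ = 1 ∧ CondN' Cl F P w y}.Finite := by
  classical
  subst hn
  subst hdq
  have hb : b 0 = 0 := by
    have := hbq 0
    omega
  have hP0 := hP 0
  rw [hb] at hP0
  obtain ⟨p, hp⟩ : ∃ p : k₀, P 0 = C p := ⟨coeff 0 (P 0), by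
    have h1 := totalDegree_eq_zero_iff_eq_C.1
      (Nat.le_zero.1 (hP0.totalDegree_le))
    exact h1⟩
  by_cases hp0 : p = 0
  · refine Set.Finite.subset Set.finite_empty ?_
    rintro y ⟨-, ⟨j, hj⟩, -⟩
    refine absurd ?_ hj
    rw [Subsingleton.elim j 0, hp, hp0]
    simp
  have hFH : F = map (algebraMap k₀ L) A + C (algebraMap k₀ L p) * H 0 := by
    rw [hFA, Fin.sum_univ_one, hp, map_C]
  have hp1 : algebraMap k₀ L p ≠ 0 := by
    rw [Ne, map_eq_zero]
    exact hp0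
  have hle : IntermediateField.adjoin k₀ {z | ∃ j J, z = coeff J (H j)} ≤
      IntermediateField.adjoin k₀ {z | ∃ J, z = coeff J F} := by
    rw [IntermediateField.adjoin_le_iff]
    rintro _ ⟨j, J, rfl⟩
    have h1 : coeff J (H j) = (coeff J F - algebraMap k₀ L (coeff J A)) /
        algebraMap k₀ L p := by
      rw [Subsingleton.elim j 0, hFH, coeff_add, coeff_C_mul, coeff_map, add_sub_cancel_left,
        mul_div_cancel_left₀ _ hp1]
    rw [h1]
    exact div_mem (sub_mem (IntermediateField.subset_adjoin _ _ ⟨J, rfl⟩)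
      (IntermediateField.algebraMap_mem _ _)) (IntermediateField.algebraMap_mem _ _)
  have h2 : ((N + d).choose N : Cardinal) ≤
      Algebra.trdeg k₀ (IntermediateField.adjoin k₀ {z | ∃ J, z = coeff J F}) := by
    rw [Fin.sum_univ_one, hb, Nat.sub_zero] at hcoef
    exact hcoef.trans (trdeg_le_of_injective (IntermediateField.inclusion hle)
      (IntermediateField.inclusion_injective _))
  refine (fin_key hq0 hKQ hfg F hF h2 i₀).subset ?_
  rintro y ⟨h3, -, -, h4⟩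
  exact ⟨h3, h4 hCl⟩

set_option maxHeartbeats 400000 in
/-- **The third case**, over schemes. -/
theorem main_q (R : CommRingCat.{u}) (B : Scheme.{u}) [IsIntegral B] (s : B ⟶ Spec R)
    [LocallyOfFiniteType s] [CharZero B.functionField]
    (U : Scheme.{u}) (π : U ⟶ B) [IsSeparated π] [LocallyOfFiniteType π] [QuasiCompact π]
    {N n : ℕ} (d q : ℕ) (b : Fin n → ℕ) (hb : ∀ j, b j + q ≤ d)
    (F : MvPolynomial (Fin (N + 1)) B.functionField) (hF : F.IsHomogeneous d)
    (f : genFib π ⟶ PN N B.functionField) (hf : f ≫ PN.toSpec N _ = pullback.snd _ _)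
    [LocallyQuasiFinite f] (Cl : Prop)
    (k₀ : Subfield B.functionField)
    (hk₀ : ∀ r : R, (Spec.preimage (B.fromSpecStalk (genericPoint B) ≫ s)).hom r ∈ k₀)
    (M : Type v) [Field M] [Algebra B.functionField M]
    (hM : (⊤ : IntermediateField B.functionField M).FG) (g : GL (Fin (N + 1)) M)
    (A : MvPolynomial (Fin (N + 1)) k₀)
    (P : Fin n → MvPolynomial (Fin (N + 1)) k₀) (hP : ∀ j, (P j).IsHomogeneous (b j))
    (H : Fin n → MvPolynomial (Fin (N + 1)) M)
    (hFA : subst (g : Matrix _ _ M) F =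
      map (algebraMap k₀ M) A + ∑ j, map (algebraMap k₀ M) (P j) * H j) (w c : ℕ)
    (hcoef : ((∑ j, (N + (d - b j)).choose N : ℕ) : Cardinal) ≤
      Algebra.trdeg k₀ (IntermediateField.adjoin k₀ {z | ∃ j J, z = coeff J (H j)}) + c)
    (hCl : Cl) (hn : n = 1) (hdq : d = q) (hc : c = 0) (hq0 : 0 < q) (hKQ : KeyQ.{v} N q) :
    {σ : B ⟶ U | ∃ hσ : σ ≫ π = 𝟙 B, ∀ (t : Spec B.functionField)
        (x : Fin (N + 1) → B.functionField), IsCoord (f (genPt π σ hσ t)) x →
          CondN Cl F g P w x}.Finite := by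
  classical
  have : CharZero M :=
    charZero_of_injective_algebraMap (algebraMap B.functionField M).injective
  obtain ⟨F', hFF'⟩ : ∃ F' : MvPolynomial (Fin (N + 1)) M, F' = subst (g : Matrix _ _ M) F :=
    ⟨_, rfl⟩
  have hF' : F'.IsHomogeneous d := by
    rw [hFF']
    exact subst_hom _ _ hF
  rw [← hFF'] at hFA
  rw [hc, Nat.cast_zero, add_zero] at hcoef
  obtain ⟨Λ, h1, h2, h3⟩ := main_closed R B s U π d b F hF f hf k₀ hk₀ M hM g F' hFF' P hP w Cl
      False (fun hfg => ⟨∅, Set.finite_empty, fun W h => absurd h (Set.notMem_empty _),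
        fun i₀ => (eng_q hfg hn w d q b hb hdq F' hF' A P hP H hFA hcoef hq0 hKQ Cl hCl i₀).subset
          fun y hy => ⟨hy.1, hy.2.1⟩⟩)
  refine h3.subset ?_
  rintro σ ⟨hσ, h4⟩
  exact ⟨hσ, fun t x hx => ⟨h4 t x hx, fun W hW => (h2 W hW).2.2.elim⟩⟩

end Pool.Agent.Helper6.QS

end
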