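import Pool.Agent.Helper74.MG.T61

section

/-!
# QS-EV: values and derivatives

`ev n x f` is the value at `x` of the part of degree `n` of `f`. `dv_normal`: there is a vector `n`
(the gradient of the form `a` at `x`) with `n . x = 0` and `n . dv f = - f(x)`: apply `D_J` to
`form a x = 0`. `dv_scale`: with `x' = x / x_m`, `dv x f = x_m dv x' f + c x`.
-/

set_option autoImplicit false

namespace Pool.Agent.Helper6.QS

open scoped BigOperators
open MvPolynomial
open Pool.Agent.Helper8.LG (Bdd form mon)
open Pool.Agent.Helper49.LN (cP mo hf pl)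

section

variable {Ω : Type*} [Field Ω] {σ : Type*} [Fintype σ] [DecidableEq σ] {q : ℕ}

omit [Fintype σ] [DecidableEq σ] in
theorem ev_eval_mo (x : σ → Ω) (K : Multiset σ) : eval x (mo Ω K) = (K.map x).prod := by
  rw [mo, map_multiset_prod, Multiset.map_map]
  congr 1
  exact Multiset.map_congr rfl fun j _ => eval_X _

/-- linearity of the two sides: monomials of degree `k` are enough -/
theorem ev_cP_part {V : Type*} [AddCommGroup V] [Module Ω V] (v : Sym σ q → V) (k e : ℕ)
    (hq : k + e = q) (f g : MvPolynomial σ Ω) (hg : g.IsHomogeneous e) :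
    cP v (f * g) = cP v (homogeneousComponent k f * g) := by
  have h1 : ∀ j, j ≠ k → cP v (homogeneousComponent j f * g) = 0 := fun j hj =>
    Pool.Agent.Helper49.LN.cP_hom_ne v _ (j + e) ((homogeneousComponent_isHomogeneous j f).mul hg)
      (by omega)
  conv_lhs => rw [← sum_homogeneousComponent f, Finset.sum_mul, map_sum]
  by_cases hk : k ∈ Finset.range (f.totalDegree + 1)
  · rw [Finset.sum_eq_single k (fun j _ hj => h1 j hj) (fun h => absurd hk h)]
  · rw [homogeneousComponent_eq_zero _ _ (by rw [Finset.mem_range] at hk; omega), zero_mul,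
      map_zero]
    exact Finset.sum_eq_zero fun j hj => h1 j fun h => hk (h ▸ hj)

theorem ev_hom (n : ℕ) (x : σ → Ω) (f : MvPolynomial σ Ω) (hf : f.IsHomogeneous n) :
    ev n x f = eval x f := by
  have h1 : ∀ m ∈ f.support, ev n x (mo Ω (Finsupp.toMultiset m)) =
      eval x (mo Ω (Finsupp.toMultiset m)) := by
    intro m hm
    have hc : Multiset.card (Finsupp.toMultiset m) = n := by
      rw [← Pool.Agent.Helper49.LN.toFinsupp_degree, Finsupp.toMultiset_toFinsupp]
      by_contra hne
      exact (mem_support_iff.1 hm) (hf.coeff_eq_zero hne)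
    have h2 := Pool.Agent.Helper49.LN.cP_mo (E := Ω) (fun J : Sym σ n => mon x J)
      (Sym.mk (Finsupp.toMultiset m) hc)
    rw [ev_eval_mo]
    exact h2
  rw [Pool.Agent.Helper49.LN.mo_span f, map_sum, map_sum]
  refine Finset.sum_congr rfl fun m hm => ?_
  rw [map_smul, smul_eval, h1 m hm, smul_eq_mul]

theorem ev_part (n : ℕ) (x : σ → Ω) (f : MvPolynomial σ Ω) :
    ev n x f = eval x (homogeneousComponent n f) := by
  have h1 := ev_cP_part (Ω := Ω) (fun J : Sym σ n => mon x J) n 0 (add_zero n) f 1
    (isHomogeneous_one σ Ω)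
  rw [mul_one, mul_one] at h1
  rw [← ev_hom n x _ (homogeneousComponent_isHomogeneous n f)]
  exact h1

theorem ev_mul (n e : ℕ) (x : σ → Ω) (f g : MvPolynomial σ Ω) (hg : g.IsHomogeneous e) :
    ev (n + e) x (f * g) = ev n x f * eval x g := by
  have h1 := ev_cP_part (Ω := Ω) (fun J : Sym σ (n + e) => mon x J) n e rfl f g hg
  have h2 : ev (n + e) x (f * g) = ev (n + e) x (homogeneousComponent n f * g) := h1
  rw [h2, ev_hom _ _ _ ((homogeneousComponent_isHomogeneous n f).mul hg), map_mul, ev_part]

theorem eval_lf (x l : σ → Ω) : eval x (lf l) = dt l x := by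
  rw [lf, map_sum, dt]
  refine Finset.sum_congr rfl fun i _ => ?_
  rw [smul_eval, eval_X]

theorem lf_hom (l : σ → Ω) : (lf l).IsHomogeneous 1 := by
  rw [lf]
  refine IsHomogeneous.sum _ _ _ fun j _ => ?_
  rw [smul_eq_C_mul]
  simpa using (isHomogeneous_C σ (l j)).mul (isHomogeneous_X Ω j)

/-- the value of a product with a linear form -/
theorem ev_lf (n : ℕ) (x l : σ → Ω) (P : MvPolynomial σ Ω) :
    ev (n + 1) x (P * lf l) = ev n x P * dt l x := by
  rw [ev_mul n 1 x P (lf l) (lf_hom l), eval_lf]

/-- `dv` does not see the other parts: the product with a form only depends on one part -/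
theorem dv_part (D : Sym σ q → Derivation ℤ Ω Ω) (x : σ → Ω) (k e : ℕ) (hq : k + e = q)
    (f g : MvPolynomial σ Ω) (hg : g.IsHomogeneous e) :
    dv D x (f * g) = dv D x (homogeneousComponent k f * g) :=
  ev_cP_part (Ω := Ω) (fun J l => D J (x l)) k e hq f g hg

omit [DecidableEq σ] in
/-- a derivation and a monomial -/
theorem ev_der_mo (δ : Derivation ℤ Ω Ω) (x : σ → Ω) (K : Multiset σ) :
    δ (eval x (mo Ω K)) = ∑ l, eval x (pderiv l (mo Ω K)) * δ (x l) := by
  classical
  induction K using Multiset.induction_on with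
  | empty => simp [mo, pderiv_one]
  | cons a K ih =>
    have h1 : mo Ω (a ::ₘ K) = X a * mo Ω K := by
      rw [mo, mo, Multiset.map_cons, Multiset.prod_cons]
    rw [h1, map_mul, eval_X, Derivation.leibniz, ih, smul_eq_mul, smul_eq_mul, Finset.mul_sum]
    have h2 : ∀ l, eval x (pderiv l (X a * mo Ω K)) * δ (x l) =
        x a * (eval x (pderiv l (mo Ω K)) * δ (x l)) +
          (if l = a then eval x (mo Ω K) * δ (x l) else 0) := by
      intro l
      rw [Derivation.leibniz, smul_eq_mul, smul_eq_mul, map_add, map_mul, map_mul, eval_X,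
        pderiv_X, Pi.single_apply]
      by_cases h : a = l
      · subst h
        rw [if_pos rfl, if_pos rfl, map_one]
        ring
      · rw [if_neg h, if_neg (Ne.symm h), map_zero]
        ring
    simp only [h2]
    rw [Finset.sum_add_distrib, Finset.sum_ite_eq' Finset.univ a, if_pos (Finset.mem_univ a)]

omit [DecidableEq σ] in
/-- Euler -/
theorem ev_euler (x : σ → Ω) (K : Multiset σ) :
    ∑ l, eval x (pderiv l (mo Ω K)) * x l = (Multiset.card K : Ω) * eval x (mo Ω K) := by
  classical
  induction K using Multiset.induction_on with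
  | empty => simp [mo, pderiv_one]
  | cons a K ih =>
    have h1 : mo Ω (a ::ₘ K) = X a * mo Ω K := by
      rw [mo, mo, Multiset.map_cons, Multiset.prod_cons]
    rw [h1, map_mul, eval_X]
    have h2 : ∀ l, eval x (pderiv l (X a * mo Ω K)) * x l =
        x a * (eval x (pderiv l (mo Ω K)) * x l) +
          (if l = a then eval x (mo Ω K) * x l else 0) := by
      intro l
      rw [Derivation.leibniz, smul_eq_mul, smul_eq_mul, map_add, map_mul, map_mul, eval_X,
        pderiv_X, Pi.single_apply]
      by_cases h : a = l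
      · subst h
        rw [if_pos rfl, if_pos rfl, map_one]
        ring
      · rw [if_neg h, if_neg (Ne.symm h), map_zero]
        ring
    simp only [h2]
    rw [Finset.sum_add_distrib, Finset.sum_ite_eq' Finset.univ a, if_pos (Finset.mem_univ a),
      ← Finset.mul_sum, ih, Multiset.card_cons]
    push_cast
    ring

theorem ev_mon_eq {n : ℕ} (x : σ → Ω) (J : Sym σ n) :
    mon x J = eval x (mo Ω (J : Multiset σ)) := by
  rw [ev_eval_mo, mon]

/-- the normal vector -/
theorem dv_normal (D : Sym σ q → Derivation ℤ Ω Ω) (a : Sym σ q → Ω)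
    (hD : ∀ I J, D J (a I) = if I = J then 1 else 0) (hq : 0 < q) (x : σ → Ω)
    (hF : form a x = 0) :
    ∃ n : σ → Ω, dt n x = 0 ∧ ∀ f, dt n (dv D x f) = - ev q x f := by
  refine ⟨fun l => ∑ I : Sym σ q, a I * eval x (pderiv l (mo Ω (I : Multiset σ))), ?_, ?_⟩
  · have h1 : dt (fun l => ∑ I : Sym σ q, a I * eval x (pderiv l (mo Ω (I : Multiset σ)))) x =
        (q : Ω) * form a x := by
      rw [dt, form, Finset.mul_sum]
      simp only [Finset.sum_mul]
      rw [Finset.sum_comm]
      refine Finset.sum_congr rfl fun I _ => ?_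
      simp only [mul_assoc]
      rw [← Finset.mul_sum, ev_euler, Sym.card_coe, ev_mon_eq]
      ring
    rw [h1, hF, mul_zero]
  · intro f
    have h2 : ∀ J, dt (fun l => ∑ I : Sym σ q, a I * eval x (pderiv l (mo Ω (I : Multiset σ))))
        (fun l => D J (x l)) = - mon x J := by
      intro J
      have h3 : D J (form a x) = 0 := by rw [hF, map_zero]
      rw [form, map_sum] at h3
      have h4 : ∀ I : Sym σ q, D J (a I * mon x I) =
          (if I = J then mon x I else 0) +
            ∑ l, a I * eval x (pderiv l (mo Ω (I : Multiset σ))) * D J (x l) := by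
        intro I
        rw [Derivation.leibniz, smul_eq_mul, smul_eq_mul, hD, ev_mon_eq, ev_der_mo,
          Finset.mul_sum, add_comm]
        simp only [mul_assoc]
        congr 1
        split_ifs
        · rw [mul_one]
        · rw [mul_zero]
      simp only [h4] at h3
      rw [Finset.sum_add_distrib, Finset.sum_ite_eq' Finset.univ J, if_pos (Finset.mem_univ J),
        Finset.sum_comm] at h3
      rw [dt]
      simp only [Finset.sum_mul]
      rw [eq_neg_iff_add_eq_zero, add_comm]
      exact h3
    rw [dv, ev, Pool.Agent.Helper49.LN.cP_apply, Pool.Agent.Helper49.LN.cP_apply,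
      ← Finset.sum_neg_distrib, dt]
    simp only [Finset.sum_apply, Pi.smul_apply, smul_eq_mul, Finset.mul_sum]
    rw [Finset.sum_comm]
    refine Finset.sum_congr rfl fun J _ => ?_
    rw [← mul_neg, ← h2 J, dt, Finset.mul_sum]
    refine Finset.sum_congr rfl fun l _ => ?_
    ring

/-- change of scale -/
theorem dv_scale (D : Sym σ q → Derivation ℤ Ω Ω) (x : σ → Ω) (m : σ) (hm : x m ≠ 0)
    (f : MvPolynomial σ Ω) :
    ∃ c : Ω, dv D x f = x m • dv D (fun l => x l / x m) f + c • x := by
  refine ⟨∑ J : Sym σ q, coeff (Multiset.toFinsupp (J : Multiset σ)) f * (D J (x m) / x m), ?_⟩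
  rw [dv, dv, Pool.Agent.Helper49.LN.cP_apply, Pool.Agent.Helper49.LN.cP_apply]
  funext l
  simp only [Finset.sum_apply, Pi.smul_apply, Pi.add_apply, smul_eq_mul]
  rw [Finset.mul_sum, Finset.sum_mul, ← Finset.sum_add_distrib]
  refine Finset.sum_congr rfl fun J _ => ?_
  have h1 : D J (x l) = x m * D J (x l / x m) + x l / x m * D J (x m) := by
    conv_lhs => rw [← mul_div_cancel₀ (x l) hm]
    rw [Derivation.leibniz, smul_eq_mul, smul_eq_mul]
  rw [h1]
  field_simp

/-- boundedness of the derivatives of the scaled point -/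
theorem dv_bdd (D : Sym σ q → Derivation ℤ Ω Ω) (x' : σ → Ω) (O : ValuationSubring Ω) (Δ : Ω)
    (hΔ : Bdd D Δ O) (hx : ∀ l, x' l ∈ O) (f : MvPolynomial σ Ω) (k : ℕ)
    (hf : ∀ m, Δ ^ k * coeff m f ∈ O) (l : σ) : Δ ^ (k + 1) * dv D x' f l ∈ O := by
  rw [dv, Pool.Agent.Helper49.LN.cP_apply]
  simp only [Finset.sum_apply, Pi.smul_apply, smul_eq_mul]
  rw [Finset.mul_sum]
  refine sum_mem fun J _ => ?_
  have h1 : Δ ^ (k + 1) * (coeff (Multiset.toFinsupp (J : Multiset σ)) f * D J (x' l)) =
      Δ ^ k * coeff (Multiset.toFinsupp (J : Multiset σ)) f * (Δ * D J (x' l)) := by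
    ring
  rw [h1]
  exact mul_mem (hf _) (hΔ.2 J _ (hx l))

end

end Pool.Agent.Helper6.QS

end
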