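import Pool.Agent.Helper74.MG.T64
import Pool.Agent.Helper74.MG.T65

section

/-!
# QS-PLANE: quintic surfaces, definitions for the case of a rational plane through the point

`vol3 u v w` is the determinant of the coordinates `1, 2, 3`; on the space `R` of the vectors `l`
with `l . x = 0` (linear forms vanishing at the point `x`, `x_0 = 1`) it is a volume form.
-/

set_option autoImplicit false

namespace Pool.Agent.Helper6.QS

open scoped BigOperators
open MvPolynomial
open Pool.Agent.Helper8.LG (Bdd form mon)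
open Pool.Agent.Helper49.LN (cP mo hf pl)

section

variable {Ω : Type*} [Field Ω]

/-- the determinant of the coordinates `1, 2, 3` -/
def vol3 (u v w : Fin 4 → Ω) : Ω :=
  u 1 * (v 2 * w 3 - v 3 * w 2) - u 2 * (v 1 * w 3 - v 3 * w 1) + u 3 * (v 1 * w 2 - v 2 * w 1)

/-- the coefficients of the linear form `x_j X_b - x_b X_j` -/
def rr (x : Fin 4 → Ω) (j b : Fin 4) (i : Fin 4) : Ω :=
  x j * (if i = b then 1 else 0) - x b * (if i = j then 1 else 0)

/-- the determinant with rows `x`, `D_(f1) x`, `D_(f2) x`, `D_(f0) x` -/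
noncomputable def Gm (D : Sym (Fin 4) 5 → Derivation ℤ Ω Ω) (x : Fin 4 → Ω)
    (f1 f2 f0 : MvPolynomial (Fin 4) Ω) : Ω :=
  Matrix.det (Matrix.of ![x, dv D x f1, dv D x f2, dv D x f0])

/-- the polarised block: alternating in `l`, `l'` -/
noncomputable def Ab (D : Sym (Fin 4) 5 → Derivation ℤ Ω Ω) (x : Fin 4 → Ω)
    (P P' : MvPolynomial (Fin 4) Ω) (l l' : Fin 4 → Ω) : Ω :=
  Gm D x (P * lf l) (P' * lf l') (X 0 ^ 5) - Gm D x (P * lf l') (P' * lf l) (X 0 ^ 5)

/-- the linear form vanishing at `x` which is dual to the polarised block -/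
noncomputable def hv (D : Sym (Fin 4) 5 → Derivation ℤ Ω Ω) (x : Fin 4 → Ω)
    (P P' : MvPolynomial (Fin 4) Ω) : Fin 4 → Ω :=
  ![x 1 * Ab D x P P' (rr x 0 2) (rr x 0 3) - x 2 * Ab D x P P' (rr x 0 1) (rr x 0 3) +
      x 3 * Ab D x P P' (rr x 0 1) (rr x 0 2),
    - Ab D x P P' (rr x 0 2) (rr x 0 3), Ab D x P P' (rr x 0 1) (rr x 0 3),
    - Ab D x P P' (rr x 0 1) (rr x 0 2)]

/-- **The plane case.** `h` is a rational linear form vanishing at `x`, `n` the normal vector, `g`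
the rational symmetric bilinear form on quartic forms with
`det (θ_j D_(P l_i) x) = vol3(θ, θ', n) vol3(h, l, l') g(P, P) / 2`. -/
structure Pln (D : Sym (Fin 4) 5 → Derivation ℤ Ω Ω) (a : Sym (Fin 4) 5 → Ω) (B : Subfield Ω)
    (x h n : Fin 4 → Ω)
    (g : MvPolynomial (Fin 4) Ω →ₗ[Ω] MvPolynomial (Fin 4) Ω →ₗ[Ω] Ω) : Prop where
  frame : Frame D a B
  one : x 0 = 1
  zero : form a x = 0
  hB : ∀ l, h l ∈ B
  h0 : h ≠ 0
  hx : dt h x = 0
  nx : dt n x = 0
  nf : ∀ f, dt n (dv D x f) = - ev 5 x f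
  gB : ∀ P P', RatP B P → RatP B P' → g P P' ∈ B
  g0 : ∃ P, RatP B P ∧ g P P ≠ 0
  rel : ∀ (P P' : MvPolynomial (Fin 4) Ω) (l l' θ θ' : Fin 4 → Ω), dt l x = 0 → dt l' x = 0 →
    dt θ x = 0 → dt θ' x = 0 →
    dt θ (dv D x (P * lf l)) * dt θ' (dv D x (P' * lf l')) -
      dt θ' (dv D x (P * lf l)) * dt θ (dv D x (P' * lf l')) -
      (dt θ (dv D x (P * lf l')) * dt θ' (dv D x (P' * lf l)) -
        dt θ' (dv D x (P * lf l')) * dt θ (dv D x (P' * lf l))) =
      vol3 θ θ' n * vol3 h l l' * g P P'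

/-- There is no pair `l`, `θ` with `θ(D_(P l) x) = 0` for all `P`, except the trivial ones. -/
def NoPure (D : Sym (Fin 4) 5 → Derivation ℤ Ω Ω) (x h n : Fin 4 → Ω) : Prop :=
  ∀ l θ : Fin 4 → Ω, dt l x = 0 → dt θ x = 0 → (∀ P, dt θ (dv D x (P * lf l)) = 0) →
    (∃ c : Ω, l = c • h) ∨ ∃ c : Ω, θ = c • n

/-- the functionals `P ↦ θ_j(D_(P l_i) x)` as a matrix -/
noncomputable def uM (D : Sym (Fin 4) 5 → Derivation ℤ Ω Ω) (x : Fin 4 → Ω)
    (l θ : Fin 2 → Fin 4 → Ω) : MvPolynomial (Fin 4) Ω →ₗ[Ω] Matrix (Fin 2) (Fin 2) Ω where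
  toFun P := Matrix.of fun i j => dt (θ j) (dv D x (P * lf (l i)))
  map_add' P P' := by
    ext i j
    simp only [add_mul, map_add, dt, Matrix.of_apply, Matrix.add_apply, Pi.add_apply, mul_add,
      Finset.sum_add_distrib]
  map_smul' c P := by
    ext i j
    simp only [smul_mul_assoc, map_smul, dt, Matrix.of_apply, Matrix.smul_apply, Pi.smul_apply,
      smul_eq_mul, RingHom.id_apply, Finset.mul_sum]
    exact Finset.sum_congr rfl fun k _ => by ring

/-- the polarised determinant of `2 x 2` matrices -/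
def pol (A A' : Matrix (Fin 2) (Fin 2) Ω) : Ω :=
  A 0 0 * A' 1 1 + A' 0 0 * A 1 1 - A 0 1 * A' 1 0 - A' 0 1 * A 1 0

/-- the derivative of a linear map on polynomials with values in matrices: the linear map `U'` with
`U'(X^m) = δ (U(X^m))` -/
noncomputable def dfun (δ : Derivation ℤ Ω Ω)
    (U : MvPolynomial (Fin 4) Ω →ₗ[Ω] Matrix (Fin 2) (Fin 2) Ω) :
    MvPolynomial (Fin 4) Ω →ₗ[Ω] Matrix (Fin 2) (Fin 2) Ω :=
  (MvPolynomial.basisMonomials (Fin 4) Ω).constr Ω fun m =>
    (U (monomial m 1)).map δ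

end

end Pool.Agent.Helper6.QS

end

section

/-!
# QS-BAS: linear algebra of the vectors orthogonal to `x` in dimension 4

`R = {l | l . x = 0}`, `x_0 = 1`: the coordinates `1, 2, 3` are coordinates of `R`
(`l_0 = - (l_1 x_1 + l_2 x_2 + l_3 x_3)`), and `vol3` is their determinant.
-/

set_option autoImplicit false

namespace Pool.Agent.Helper6.QS

open scoped BigOperators
open MvPolynomial
open Pool.Agent.Helper8.LG (Bdd form mon)
open Pool.Agent.Helper49.LN (cP mo hf pl)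

section

variable {Ω : Type*} [Field Ω]

/-- the dot product in dimension 4 -/
theorem bas_dt4 (u v : Fin 4 → Ω) :
    dt u v = u 0 * v 0 + u 1 * v 1 + u 2 * v 2 + u 3 * v 3 := by
  simp only [dt, Fin.sum_univ_four]

/-- two vectors complete `u ≠ 0` to a basis of `R` -/
theorem bas_ex (x u : Fin 4 → Ω) (hx : x 0 = 1) (hu : dt u x = 0) (h0 : u ≠ 0) :
    ∃ v w : Fin 4 → Ω, dt v x = 0 ∧ dt w x = 0 ∧ vol3 u v w ≠ 0 := by
  have e1 : dt ![-x 1, 1, 0, 0] x = 0 := by
    rw [bas_dt4, hx]; simp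
  have e2 : dt ![-x 2, 0, 1, 0] x = 0 := by
    rw [bas_dt4, hx]; simp
  have e3 : dt ![-x 3, 0, 0, 1] x = 0 := by
    rw [bas_dt4, hx]; simp
  rw [bas_dt4, hx] at hu
  by_cases h1 : u 1 = 0
  · by_cases h2 : u 2 = 0
    · by_cases h3 : u 3 = 0
      · exfalso
        apply h0
        have h00 : u 0 = 0 := by
          rw [h1, h2, h3] at hu
          linear_combination hu
        funext i
        fin_cases i
        · exact h00
        · exact h1
        · exact h2
        · exact h3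
      · refine ⟨_, _, e1, e2, ?_⟩
        have : vol3 u ![-x 1, 1, 0, 0] ![-x 2, 0, 1, 0] = u 3 := by
          simp [vol3]
        rw [this]
        exact h3
    · refine ⟨_, _, e1, e3, ?_⟩
      have : vol3 u ![-x 1, 1, 0, 0] ![-x 3, 0, 0, 1] = - u 2 := by
        simp [vol3]
      rw [this]
      exact neg_ne_zero.mpr h2
  · refine ⟨_, _, e2, e3, ?_⟩
    have : vol3 u ![-x 2, 0, 1, 0] ![-x 3, 0, 0, 1] = u 1 := by
      simp [vol3]
    rw [this]
    exact h1

/-- coordinates in a basis of `R` -/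
theorem bas_coord (x u v w : Fin 4 → Ω) (hx : x 0 = 1) (hu : dt u x = 0) (hv : dt v x = 0)
    (hw : dt w x = 0) (hvol : vol3 u v w ≠ 0) (l : Fin 4 → Ω) (hl : dt l x = 0) :
    ∃ α β γ : Ω, l = α • u + β • v + γ • w := by
  rw [bas_dt4, hx] at hu hv hw hl
  refine ⟨vol3 l v w / vol3 u v w, vol3 u l w / vol3 u v w, vol3 u v l / vol3 u v w, ?_⟩
  have k1 : vol3 u v w * l 1 = vol3 l v w * u 1 + vol3 u l w * v 1 + vol3 u v l * w 1 := by
    simp only [vol3]; ring
  have k2 : vol3 u v w * l 2 = vol3 l v w * u 2 + vol3 u l w * v 2 + vol3 u v l * w 2 := by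
    simp only [vol3]; ring
  have k3 : vol3 u v w * l 3 = vol3 l v w * u 3 + vol3 u l w * v 3 + vol3 u v l * w 3 := by
    simp only [vol3]; ring
  have k0 : vol3 u v w * l 0 = vol3 l v w * u 0 + vol3 u l w * v 0 + vol3 u v l * w 0 := by
    linear_combination (vol3 u v w) * hl - (vol3 l v w) * hu - (vol3 u l w) * hv -
      (vol3 u v l) * hw - x 1 * k1 - x 2 * k2 - x 3 * k3
  have key : ∀ i : Fin 4,
      vol3 u v w * l i = vol3 l v w * u i + vol3 u l w * v i + vol3 u v l * w i := by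
    intro i
    fin_cases i
    · exact k0
    · exact k1
    · exact k2
    · exact k3
  funext i
  simp only [Pi.add_apply, Pi.smul_apply, smul_eq_mul]
  have h := key i
  field_simp
  linear_combination h

/-- a vector orthogonal to a basis of `R` is a multiple of `x` -/
theorem bas_par (x u v w : Fin 4 → Ω) (hx : x 0 = 1) (hu : dt u x = 0) (hv : dt v x = 0)
    (hw : dt w x = 0) (hvol : vol3 u v w ≠ 0) (y : Fin 4 → Ω) (h1 : dt u y = 0) (h2 : dt v y = 0)
    (h3 : dt w y = 0) : Par x y := by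
  rw [bas_dt4] at hu hv hw h1 h2 h3
  rw [hx] at hu hv hw
  have a1 : u 1 * (y 1 - y 0 * x 1) + u 2 * (y 2 - y 0 * x 2) + u 3 * (y 3 - y 0 * x 3) = 0 := by
    linear_combination h1 - y 0 * hu
  have a2 : v 1 * (y 1 - y 0 * x 1) + v 2 * (y 2 - y 0 * x 2) + v 3 * (y 3 - y 0 * x 3) = 0 := by
    linear_combination h2 - y 0 * hv
  have a3 : w 1 * (y 1 - y 0 * x 1) + w 2 * (y 2 - y 0 * x 2) + w 3 * (y 3 - y 0 * x 3) = 0 := by
    linear_combination h3 - y 0 * hw
  have b1 : vol3 u v w * (y 1 - y 0 * x 1) = 0 := by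
    simp only [vol3]
    linear_combination (v 2 * w 3 - v 3 * w 2) * a1 - (u 2 * w 3 - u 3 * w 2) * a2 +
      (u 2 * v 3 - u 3 * v 2) * a3
  have b2 : vol3 u v w * (y 2 - y 0 * x 2) = 0 := by
    simp only [vol3]
    linear_combination -(v 1 * w 3 - v 3 * w 1) * a1 + (u 1 * w 3 - u 3 * w 1) * a2 -
      (u 1 * v 3 - u 3 * v 1) * a3
  have b3 : vol3 u v w * (y 3 - y 0 * x 3) = 0 := by
    simp only [vol3]
    linear_combination (v 1 * w 2 - v 2 * w 1) * a1 - (u 1 * w 2 - u 2 * w 1) * a2 +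
      (u 1 * v 2 - u 2 * v 1) * a3
  have c1 := (mul_eq_zero.mp b1).resolve_left hvol
  have c2 := (mul_eq_zero.mp b2).resolve_left hvol
  have c3 := (mul_eq_zero.mp b3).resolve_left hvol
  refine ⟨y 0, ?_⟩
  have key : ∀ i : Fin 4, y i = y 0 * x i := by
    intro i
    fin_cases i
    · change y 0 = y 0 * x 0
      rw [hx, mul_one]
    · exact sub_eq_zero.mp c1
    · exact sub_eq_zero.mp c2
    · exact sub_eq_zero.mp c3
  funext i
  simp only [Pi.smul_apply, smul_eq_mul]
  exact key i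

/-- two vectors of `R` which are not proportional are part of a basis of `R` -/
theorem bas_two (x u v : Fin 4 → Ω) (hx : x 0 = 1) (hu : dt u x = 0) (hv : dt v x = 0)
    (hu0 : u ≠ 0) (huv : ¬ ∃ c : Ω, v = c • u) :
    ∃ w : Fin 4 → Ω, dt w x = 0 ∧ vol3 u v w ≠ 0 := by
  obtain ⟨v', w', hv', hw', hvol⟩ := bas_ex x u hx hu hu0
  obtain ⟨α, β, γ, h⟩ := bas_coord x u v' w' hx hu hv' hw' hvol v hv
  by_cases hβ : β = 0
  · by_cases hγ : γ = 0
    · exfalso
      apply huv
      refine ⟨α, ?_⟩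
      rw [h, hβ, hγ, zero_smul, zero_smul, add_zero, add_zero]
    · refine ⟨v', hv', ?_⟩
      have e : vol3 u v v' = - (γ * vol3 u v' w') := by
        rw [h, hβ]
        simp only [vol3, Pi.add_apply, Pi.smul_apply, smul_eq_mul]
        ring
      rw [e]
      exact neg_ne_zero.mpr (mul_ne_zero hγ hvol)
  · refine ⟨w', hw', ?_⟩
    have e : vol3 u v w' = β * vol3 u v' w' := by
      rw [h]
      simp only [vol3, Pi.add_apply, Pi.smul_apply, smul_eq_mul]
      ring
    rw [e]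
    exact mul_ne_zero hβ hvol

/-- `vol3 u v w ≠ 0` implies that `v` is not a multiple of `u` (and the same for the others) -/
theorem bas_ne (u v w : Fin 4 → Ω) (hvol : vol3 u v w ≠ 0) :
    u ≠ 0 ∧ v ≠ 0 ∧ w ≠ 0 ∧ (¬ ∃ c : Ω, v = c • u) ∧ (¬ ∃ c : Ω, w = c • u) ∧
      ¬ ∃ c : Ω, w = c • v := by
  refine ⟨?_, ?_, ?_, ?_, ?_, ?_⟩
  · rintro rfl
    apply hvol
    simp [vol3]
  · rintro rfl
    apply hvol
    simp [vol3]
  · rintro rfl
    apply hvol
    simp [vol3]
  · rintro ⟨c, rfl⟩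
    apply hvol
    simp only [vol3, Pi.smul_apply, smul_eq_mul]
    ring
  · rintro ⟨c, rfl⟩
    apply hvol
    simp only [vol3, Pi.smul_apply, smul_eq_mul]
    ring
  · rintro ⟨c, rfl⟩
    apply hvol
    simp only [vol3, Pi.smul_apply, smul_eq_mul]
    ring

/-- `dt` is bilinear and symmetric -/
theorem dt_comm {σ : Type*} [Fintype σ] (u v : σ → Ω) : dt u v = dt v u := by
  simp only [dt]
  exact Finset.sum_congr rfl fun i _ => mul_comm _ _

theorem dt_add {σ : Type*} [Fintype σ] (u v w : σ → Ω) : dt u (v + w) = dt u v + dt u w := by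
  simp only [dt, Pi.add_apply, mul_add, Finset.sum_add_distrib]

theorem dt_smul {σ : Type*} [Fintype σ] (u v : σ → Ω) (c : Ω) : dt u (c • v) = c * dt u v := by
  simp only [dt, Pi.smul_apply, smul_eq_mul, Finset.mul_sum]
  exact Finset.sum_congr rfl fun i _ => by ring

/-- `lf` is linear -/
theorem lf_add {σ : Type*} [Fintype σ] (u v : σ → Ω) : lf (u + v) = lf u + lf v := by
  simp only [lf, Pi.add_apply, add_smul, Finset.sum_add_distrib]

theorem lf_smul {σ : Type*} [Fintype σ] (u : σ → Ω) (c : Ω) : lf (c • u) = c • lf u := by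
  simp only [lf, Pi.smul_apply, smul_eq_mul, mul_smul, Finset.smul_sum]

end

end Pool.Agent.Helper6.QS

end
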