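import Pool.Agent.Helper74.MG.T61

section

/-!
# QS-QUADFAC: factors of a rational quadratic form are rational up to a constant

`(u(P) v(P') + u(P') v(P)) / κ ∈ B` for rational `P`, `P'`. Replace `u` by `u / κ`. Choose a
monomial `P0` with `v(P0) ≠ 0` and scale `v(P0) = 1` (`u` by the inverse). `α = u(P0)`: `2 α ∈ B`.
For rational `P`: `β = u(P) + α v(P) ∈ B` and `2 u(P) v(P) ∈ B`: `(β - α v) v ∈ B`, so `v(P)` is
algebraic over `B` if `α ≠ 0`. If `α = 0`: `u(P) ∈ B` for all rational `P`; choose a monomial `P1`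
with `u(P1) ≠ 0`: `u(P1) v(P1) ∈ B`, so `v(P1) ∈ B`, then `v(P) ∈ B`.
-/

set_option autoImplicit false

namespace Pool.Agent.Helper6.QS

open scoped BigOperators
open MvPolynomial

theorem QuadFac_mon {Ω : Type*} [Field Ω] {σ : Type*} {v : MvPolynomial σ Ω →ₗ[Ω] Ω}
    (hv : v ≠ 0) : ∃ m, v (monomial m 1) ≠ 0 := by
  by_contra h
  push Not at h
  apply hv
  refine LinearMap.ext fun P => ?_
  rw [LinearMap.zero_apply, P.as_sum, map_sum]
  refine Finset.sum_eq_zero fun m _ => ?_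
  have h1 : monomial m (coeff m P) = coeff m P • (monomial m (1 : Ω) : MvPolynomial σ Ω) := by
    rw [smul_monomial, smul_eq_mul, mul_one]
  rw [h1, map_smul, h m, smul_zero]

theorem QuadFac_rat {Ω : Type*} [Field Ω] {σ : Type*} (B : Subfield Ω) (m : σ →₀ ℕ) :
    RatP B (monomial m (1 : Ω)) := by
  classical
  intro n
  rw [coeff_monomial]
  split_ifs
  · exact B.one_mem
  · exact B.zero_mem

theorem QuadFac_half {Ω : Type*} [Field Ω] [CharZero Ω] {B : Subfield Ω} {x : Ω}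
    (h : x + x ∈ B) : x ∈ B := by
  have h2 : (2 : Ω) ∈ B := by
    have := B.add_mem B.one_mem B.one_mem
    rwa [one_add_one_eq_two] at this
  have h3 : x = (x + x) * (2 : Ω)⁻¹ := by
    field_simp
    ring
  rw [h3]
  exact B.mul_mem h (B.inv_mem h2)

theorem QuadFac_alg {Ω : Type*} [Field Ω] {B : Subfield Ω}
    (halg : ∀ y : Ω, IsAlgebraic B y → y ∈ B) {α β γ y : Ω} (hα : α ∈ B) (hβ : β ∈ B)
    (hγ : γ ∈ B) (h0 : α ≠ 0) (h : α * y ^ 2 - β * y + γ = 0) : y ∈ B := by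
  apply halg
  refine ⟨Polynomial.C (⟨α, hα⟩ : B) * Polynomial.X ^ 2 - Polynomial.C (⟨β, hβ⟩ : B) *
    Polynomial.X + Polynomial.C (⟨γ, hγ⟩ : B), ?_, ?_⟩
  · intro hp
    have h1 := congrArg (fun p => Polynomial.coeff p 2) hp
    simp only [Polynomial.coeff_add, Polynomial.coeff_sub, Polynomial.coeff_C_mul,
      Polynomial.coeff_X_pow, Polynomial.coeff_X, Polynomial.coeff_C, Polynomial.coeff_zero] at h1
    norm_num at h1
    exact h0 (congrArg Subtype.val h1)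
  · simp only [map_add, map_sub, map_mul, map_pow, Polynomial.aeval_C, Polynomial.aeval_X]
    exact h

theorem quad_fac {Ω : Type*} [Field Ω] [CharZero Ω] {σ : Type*} {B : Subfield Ω}
    (halg : ∀ y : Ω, IsAlgebraic B y → y ∈ B) (u v : MvPolynomial σ Ω →ₗ[Ω] Ω) (κ : Ω)
    (hκ : κ ≠ 0) (hu : u ≠ 0) (hv : v ≠ 0)
    (hg : ∀ P P', RatP B P → RatP B P' → (u P * v P' + u P' * v P) / κ ∈ B) :
    ∃ c : Ω, c ≠ 0 ∧ ∀ P, RatP B P → c * v P ∈ B := by
  obtain ⟨m₀, hm₀⟩ := QuadFac_mon hv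
  obtain ⟨m₁, hm₁⟩ := QuadFac_mon hu
  have r₀ := QuadFac_rat B m₀
  have r₁ := QuadFac_rat B m₁
  obtain ⟨P₀, hP₀⟩ : ∃ P, P = monomial m₀ (1 : Ω) := ⟨_, rfl⟩
  obtain ⟨P₁, hP₁⟩ : ∃ P, P = monomial m₁ (1 : Ω) := ⟨_, rfl⟩
  rw [← hP₀] at hm₀ r₀
  rw [← hP₁] at hm₁ r₁
  -- normalised functionals
  obtain ⟨f, hf⟩ : ∃ f : MvPolynomial σ Ω → Ω, f = fun P => u P * v P₀ / κ := ⟨_, rfl⟩
  obtain ⟨g, hgd⟩ : ∃ g : MvPolynomial σ Ω → Ω, g = fun P => (v P₀)⁻¹ * v P := ⟨_, rfl⟩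
  have key : ∀ P P', RatP B P → RatP B P' → f P * g P' + f P' * g P ∈ B := by
    intro P P' h1 h2
    have h3 := hg P P' h1 h2
    have h4 : f P * g P' + f P' * g P = (u P * v P' + u P' * v P) / κ := by
      rw [hf, hgd]
      field_simp
    rwa [h4]
  have g0 : g P₀ = 1 := by
    rw [hgd]
    exact inv_mul_cancel₀ hm₀
  have hα : f P₀ ∈ B := by
    have h1 := key P₀ P₀ r₀ r₀
    rw [g0, mul_one] at h1
    exact QuadFac_half h1
  refine ⟨(v P₀)⁻¹, inv_ne_zero hm₀, fun P hP => ?_⟩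
  have hgP : (v P₀)⁻¹ * v P = g P := by rw [hgd]
  rw [hgP]
  have hβ := key P P₀ hP r₀
  rw [g0, mul_one] at hβ
  have hγ := QuadFac_half (key P P hP hP)
  by_cases h0 : f P₀ = 0
  · -- all values of `f` are rational
    have hfB : ∀ Q, RatP B Q → f Q ∈ B := by
      intro Q hQ
      have h1 := key Q P₀ hQ r₀
      rwa [g0, mul_one, h0, zero_mul, add_zero] at h1
    have hf1 : f P₁ ≠ 0 := by
      rw [hf]
      exact div_ne_zero (mul_ne_zero hm₁ hm₀) hκ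
    have h2 : g P₁ ∈ B := by
      have h3 := QuadFac_half (key P₁ P₁ r₁ r₁)
      have h4 : g P₁ = (f P₁)⁻¹ * (f P₁ * g P₁) := by field_simp
      rw [h4]
      exact B.mul_mem (B.inv_mem (hfB P₁ r₁)) h3
    have h5 := key P P₁ hP r₁
    have h6 : f P₁ * g P ∈ B := by
      have h7 := B.sub_mem h5 (B.mul_mem (hfB P hP) h2)
      rwa [add_sub_cancel_left] at h7
    have h8 : g P = (f P₁)⁻¹ * (f P₁ * g P) := by field_simp
    rw [h8]
    exact B.mul_mem (B.inv_mem (hfB P₁ r₁)) h6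
  · refine QuadFac_alg halg hα hβ hγ h0 ?_
    ring

end Pool.Agent.Helper6.QS

end
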