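import Pool.Agent.Helper74.MG.T67

section

/-!
# QS-ANNPT: the annihilator of a rational functional on quartic forms

`v` is a rational functional which only sees the part of degree 4; it kills `h C` and `l1 C` for all
`C`, with `h` rational, `l1` not proportional to `h`, both vanishing at `x`. For every `B`-linear map
`λ : Ω → B` the vector `λ(l1) ∈ B^4` is also killed: `v(λ(l1) C) = λ(v(l1 C)) = 0` for rational `C`,
hence for all `C`. Since `l1` is a combination of such vectors (a basis of `Ω` over `B`), some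
`m = λ(l1)` is not proportional to `h`. If `m . x = 0` we are in the first case. Otherwise
`h, l1, m` are independent (as `h, l1` vanish at `x` and `m` does not); all `λ(l1)` in the span of
`h, m` is impossible (then `l1` would be, and `l1 . x = 0` gives `l1 ∈ Ω h`); so there is
`m' = λ'(l1)` with `h, m, m'` independent, `z` their common zero (rational: cross product). The
annihilator is not everything (`v ≠ 0`), so it is `z^⊥` and contains `l1`; a form of degree 4
vanishing at `z` is a combination `∑ l_i C_i` with `l_i . z = 0`, so `v` kills it.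
-/

set_option autoImplicit false

namespace Pool.Agent.Helper6.QS

open scoped BigOperators
open MvPolynomial

section

variable {Ω : Type*} [Field Ω] {B : Subfield Ω}

theorem AnnPt_dt_add_left (u v w : Fin 4 → Ω) : dt (u + v) w = dt u w + dt v w := by
  simp only [dt, Pi.add_apply, add_mul, Finset.sum_add_distrib]

theorem AnnPt_dt_smul_left (c : Ω) (u w : Fin 4 → Ω) : dt (c • u) w = c * dt u w := by
  simp only [dt, Pi.smul_apply, smul_eq_mul, Finset.mul_sum, mul_assoc]

/-- the annihilator of `v` -/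
noncomputable def AnnPt_A (v : MvPolynomial (Fin 4) Ω →ₗ[Ω] Ω) : Submodule Ω (Fin 4 → Ω) where
  carrier := {l | ∀ C, v (C * lf l) = 0}
  add_mem' := by
    intro a b ha hb C
    have h : lf (a + b) = lf a + lf b := by
      simp only [lf, Pi.add_apply, add_smul, Finset.sum_add_distrib]
    rw [h, mul_add, map_add, ha C, hb C, add_zero]
  zero_mem' := by
    intro C
    have h : lf (0 : Fin 4 → Ω) = 0 := by simp [lf]
    rw [h, mul_zero, map_zero]
  smul_mem' := by
    intro c a ha C
    have h : lf (c • a) = c • lf a := by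
      simp only [lf, Pi.smul_apply, smul_eq_mul, Finset.smul_sum, mul_smul]
    rw [h, mul_smul_comm, map_smul, ha C, smul_zero]

theorem AnnPt_mem_A (v : MvPolynomial (Fin 4) Ω →ₗ[Ω] Ω) (l : Fin 4 → Ω) :
    l ∈ AnnPt_A v ↔ ∀ C, v (C * lf l) = 0 := Iff.rfl

theorem AnnPt_v_mul_lf (v : MvPolynomial (Fin 4) Ω →ₗ[Ω] Ω) (C : MvPolynomial (Fin 4) Ω)
    (l : Fin 4 → Ω) : v (C * lf l) = ∑ i, l i * v (C * X i) := by
  simp only [lf, Finset.mul_sum, mul_smul_comm, map_sum, map_smul, smul_eq_mul]

/-- the vectors `λ(l)` are in the annihilator -/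
theorem AnnPt_lam (v : MvPolynomial (Fin 4) Ω →ₗ[Ω] Ω) (hvB : ∀ P, RatP B P → v P ∈ B)
    (l : Fin 4 → Ω) (hl : l ∈ AnnPt_A v) (lam : Ω →ₗ[B] B) :
    (fun i => ((lam (l i) : B) : Ω)) ∈ AnnPt_A v := by
  have key : ∀ s : Fin 4 →₀ ℕ,
      v (monomial s 1 * lf (fun i => ((lam (l i) : B) : Ω))) = 0 := by
    intro s
    have hB : ∀ i : Fin 4, v (monomial s 1 * X i) ∈ B := by
      intro i
      apply hvB
      intro m
      rw [X, monomial_mul, coeff_monomial, mul_one]
      split_ifs
      · exact B.one_mem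
      · exact B.zero_mem
    rw [AnnPt_v_mul_lf]
    have h1 := hl (monomial s 1)
    rw [AnnPt_v_mul_lf] at h1
    have h2 : ∑ i, (⟨v (monomial s 1 * X i), hB i⟩ : B) • l i = 0 := by
      rw [← h1]
      refine Finset.sum_congr rfl fun i _ => ?_
      rw [Subfield.smul_def, smul_eq_mul, mul_comm]
    have h3 := congrArg lam h2
    rw [map_sum, map_zero] at h3
    simp only [map_smul, smul_eq_mul] at h3
    have h4 := congrArg (Subtype.val : B → Ω) h3
    rw [show (Subtype.val (0 : B) : Ω) = 0 from rfl] at h4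
    rw [← h4]
    rw [show (Subtype.val : B → Ω) = B.subtype from rfl, map_sum]
    refine Finset.sum_congr rfl fun i _ => ?_
    exact mul_comm _ _
  rw [AnnPt_mem_A]
  intro C
  induction C using MvPolynomial.induction_on' with
  | monomial s a =>
    have h1 : (monomial s a : MvPolynomial (Fin 4) Ω) = a • monomial s 1 := by
      rw [smul_monomial, smul_eq_mul, mul_one]
    rw [h1, smul_mul_assoc, map_smul, key, smul_zero]
  | add p q hp hq => rw [add_mul, map_add, hp, hq, add_zero]

/-- a vector is a combination of the `λ(l)` -/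
theorem AnnPt_mem (M : Submodule Ω (Fin 4 → Ω)) (l : Fin 4 → Ω)
    (h : ∀ lam : Ω →ₗ[B] B, (fun i => ((lam (l i) : B) : Ω)) ∈ M) : l ∈ M := by
  classical
  set e := Module.Basis.ofVectorSpace B Ω with he
  set S : Finset _ := Finset.univ.biUnion fun i : Fin 4 => (e.repr (l i)).support with hS
  have h1 : l = ∑ s ∈ S, e s • (fun i => ((e.coord s (l i) : B) : Ω)) := by
    funext i
    rw [Finset.sum_apply]
    have h2 := e.linearCombination_repr (l i)
    rw [Finsupp.linearCombination_apply] at h2
    rw [Finsupp.sum_of_support_subset (s := S) _ _ _ (by intro s _; exact zero_smul _ _)] at h2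
    · refine h2.symm.trans ?_
      refine Finset.sum_congr rfl fun s _ => ?_
      exact mul_comm _ _
    · intro s hs
      rw [hS, Finset.mem_biUnion]
      exact ⟨i, Finset.mem_univ _, hs⟩
  rw [h1]
  exact M.sum_mem fun s _ => M.smul_mem _ (h (e.coord s))

/-- the relation between the monomials -/
theorem AnnPt_mono (v : MvPolynomial (Fin 4) Ω →ₗ[Ω] Ω) (z : Fin 4 → Ω) (j : Fin 4)
    (hr : ∀ C (i : Fin 4), z j * v (C * X i) = z i * v (C * X j)) (s : Fin 4 →₀ ℕ) :
    ∀ C, z j ^ s.degree * v (C * monomial s 1) =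
      eval z (monomial s 1) * v (C * X j ^ s.degree) := by
  induction s using Finsupp.induction_linear with
  | zero => intro C; simp
  | add s t hs ht =>
    intro C
    have h1 : (monomial (s + t) 1 : MvPolynomial (Fin 4) Ω) = monomial s 1 * monomial t 1 := by
      rw [monomial_mul, one_mul]
    rw [h1, map_add, pow_add, pow_add, ← mul_assoc C, (eval z).map_mul]
    have h2 := ht (C * monomial s 1)
    have h3 := hs (C * X j ^ t.degree)
    have h4 : C * X j ^ t.degree * monomial s 1 = C * monomial s 1 * X j ^ t.degree := by ring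
    have h5 : C * X j ^ t.degree * X j ^ s.degree = C * (X j ^ s.degree * X j ^ t.degree) := by
      ring
    rw [h4, h5] at h3
    rw [mul_assoc, h2]
    linear_combination (eval z (monomial t 1)) * h3
  | single i k =>
    induction k with
    | zero => intro C; simp
    | succ k ih =>
      intro C
      have h1 : (monomial (Finsupp.single i (k + 1)) 1 : MvPolynomial (Fin 4) Ω) =
          monomial (Finsupp.single i k) 1 * X i := by
        rw [X, monomial_mul, one_mul, ← Finsupp.single_add]
      have h2 : (Finsupp.single i (k + 1)).degree = k + 1 := Finsupp.degree_single _ _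
      have h3 : (Finsupp.single i k).degree = k := Finsupp.degree_single _ _
      rw [h3] at ih
      rw [h1, h2, (eval z).map_mul, eval_X, pow_succ, pow_succ]
      have h4 := hr (C * monomial (Finsupp.single i k) 1) i
      have h5 := ih (C * X j)
      have h6 : C * X j * monomial (Finsupp.single i k) 1 =
          C * monomial (Finsupp.single i k) 1 * X j := by ring
      have h7 : C * X j * X j ^ k = C * (X j ^ k * X j) := by ring
      rw [h6, h7] at h5
      rw [← mul_assoc C]
      linear_combination (z j ^ k) * h4 + z i * h5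

/-- the value of `v` on a form -/
theorem AnnPt_form (v : MvPolynomial (Fin 4) Ω →ₗ[Ω] Ω) (z : Fin 4 → Ω) (j : Fin 4)
    (hr : ∀ C (i : Fin 4), z j * v (C * X i) = z i * v (C * X j)) (n : ℕ)
    (Q : MvPolynomial (Fin 4) Ω) (hQ : Q.IsHomogeneous n) :
    z j ^ n * v Q = eval z Q * v (X j ^ n) := by
  conv_lhs => rw [Q.as_sum]
  conv_rhs => rw [Q.as_sum]
  rw [map_sum, map_sum, Finset.mul_sum, Finset.sum_mul]
  refine Finset.sum_congr rfl fun s hs => ?_
  have h1 : s.degree = n := by
    have := hQ (mem_support_iff.1 hs)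
    rwa [Finsupp.degree_eq_weight_one]
  have h2 := AnnPt_mono v z j hr s 1
  rw [one_mul, one_mul, h1] at h2
  have h3 : (monomial s (coeff s Q) : MvPolynomial (Fin 4) Ω) = coeff s Q • monomial s 1 := by
    rw [smul_monomial, smul_eq_mul, mul_one]
  rw [h3, map_smul, smul_eq_mul, smul_eval]
  linear_combination (coeff s Q) * h2

end

theorem ann_pt {Ω : Type*} [Field Ω] [CharZero Ω] {B : Subfield Ω}
    (v : MvPolynomial (Fin 4) Ω →ₗ[Ω] Ω) (hv0 : v ≠ 0) (hvB : ∀ P, RatP B P → v P ∈ B)
    (hv4 : ∀ P, v P = v (homogeneousComponent 4 P)) (x h l1 : Fin 4 → Ω) (hx0 : x 0 = 1)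
    (hB : ∀ i, h i ∈ B) (h0 : h ≠ 0) (hx : dt h x = 0) (hl : dt l1 x = 0)
    (hne : ¬ ∃ c : Ω, l1 = c • h) (hh : ∀ C, v (C * lf h) = 0) (hl1 : ∀ C, v (C * lf l1) = 0) :
    (∃ h' : Fin 4 → Ω, (∀ i, h' i ∈ B) ∧ LinearIndependent Ω ![h, h'] ∧ dt h' x = 0) ∨
      ∃ z : Fin 4 → Ω, (∀ i, z i ∈ B) ∧ z ≠ 0 ∧ dt h z = 0 ∧ dt l1 z = 0 ∧
        ∀ P, ev 4 z P = 0 → v P = 0 := by
  classical
  have hA1 : l1 ∈ AnnPt_A v := hl1
  -- a first vector
  obtain ⟨lam, hm⟩ : ∃ lam : Ω →ₗ[B] B,
      (fun i => ((lam (l1 i) : B) : Ω)) ∉ Submodule.span Ω {h} := by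
    by_contra hcon
    push Not at hcon
    have := AnnPt_mem _ l1 hcon
    rw [Submodule.mem_span_singleton] at this
    obtain ⟨c, hc⟩ := this
    exact hne ⟨c, hc.symm⟩
  set m : Fin 4 → Ω := fun i => ((lam (l1 i) : B) : Ω) with hmdef
  have hmB : ∀ i, m i ∈ B := fun i => (lam (l1 i)).2
  have hmA : m ∈ AnnPt_A v := AnnPt_lam v hvB l1 hA1 lam
  rw [Submodule.mem_span_singleton] at hm
  push Not at hm
  have hli : LinearIndependent Ω ![h, m] := (LinearIndependent.pair_iff' h0).2 hm
  by_cases hmx : dt m x = 0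
  · exact Or.inl ⟨m, hmB, hli, hmx⟩
  right
  -- a second vector
  obtain ⟨lam', hm'⟩ : ∃ lam' : Ω →ₗ[B] B,
      (fun i => ((lam' (l1 i) : B) : Ω)) ∉ Submodule.span Ω (Set.range ![h, m]) := by
    by_contra hcon
    push Not at hcon
    have := AnnPt_mem _ l1 hcon
    rw [Matrix.range_cons, Matrix.range_cons, Matrix.range_empty, Set.union_empty,
      Set.singleton_union, Submodule.mem_span_pair] at this
    obtain ⟨α, β, hab⟩ := this
    have h1 : dt l1 x = β * dt m x := by
      rw [← hab, AnnPt_dt_add_left, AnnPt_dt_smul_left, AnnPt_dt_smul_left, hx, mul_zero, zero_add]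
    rw [hl] at h1
    have h2 : β = 0 := (mul_eq_zero.1 h1.symm).resolve_right hmx
    rw [h2, zero_smul, add_zero] at hab
    exact hne ⟨α, hab.symm⟩
  set m' : Fin 4 → Ω := fun i => ((lam' (l1 i) : B) : Ω) with hm'def
  have hm'B : ∀ i, m' i ∈ B := fun i => (lam' (l1 i)).2
  have hm'A : m' ∈ AnnPt_A v := AnnPt_lam v hvB l1 hA1 lam'
  have hli3 : LinearIndependent Ω ![m', h, m] :=
    linearIndependent_finCons.2 ⟨hli, hm'⟩
  -- the rational zero
  obtain ⟨z, hzB, hz0, hz1, hz2, hz3⟩ : ∃ z : Fin 4 → Ω, (∀ i, z i ∈ B) ∧ z ≠ 0 ∧ dt h z = 0 ∧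
      dt m z = 0 ∧ dt m' z = 0 := by
    set L : (Fin 4 → B) →ₗ[B] (Fin 3 → B) := Matrix.mulVecLin (Matrix.of
      ![fun i => (⟨h i, hB i⟩ : B), fun i => (⟨m i, hmB i⟩ : B),
        fun i => (⟨m' i, hm'B i⟩ : B)]) with hL
    have hker : L.ker ≠ ⊥ := LinearMap.ker_ne_bot_of_finrank_lt (by simp)
    obtain ⟨w, hw, hw0⟩ := L.ker.ne_bot_iff.1 hker
    have hw' : L w = 0 := hw
    have hd : ∀ (u : Fin 4 → Ω) (hu : ∀ i, u i ∈ B),
        (∑ i, (⟨u i, hu i⟩ : B) * w i = 0) → dt u (fun i => ((w i : B) : Ω)) = 0 := by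
      intro u hu h1
      have h2 := congrArg B.subtype h1
      rw [map_sum, map_zero] at h2
      exact h2
    refine ⟨fun i => ((w i : B) : Ω), fun i => (w i).2, ?_, ?_, ?_, ?_⟩
    · intro hz
      apply hw0
      funext i
      exact Subtype.ext (congrFun hz i)
    · exact hd h hB (congrFun hw' 0)
    · exact hd m hmB (congrFun hw' 1)
    · exact hd m' hm'B (congrFun hw' 2)
  obtain ⟨j, hj⟩ : ∃ j, z j ≠ 0 := by
    by_contra hcon
    push Not at hcon
    exact hz0 (funext hcon)
  -- the orthogonal space of `z`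
  let fz : (Fin 4 → Ω) →ₗ[Ω] Ω :=
    { toFun := fun l => dt l z
      map_add' := fun a b => AnnPt_dt_add_left a b z
      map_smul' := fun c a => AnnPt_dt_smul_left c a z }
  have hfz : fz ≠ 0 := by
    intro h1
    have h2 := congrArg (fun f : (Fin 4 → Ω) →ₗ[Ω] Ω => f (Pi.single j 1)) h1
    have h3 : dt (Pi.single j 1) z = z j := by
      rw [dt, Finset.sum_eq_single j]
      · simp
      · intro i _ hij
        rw [Pi.single_eq_of_ne hij, zero_mul]
      · intro h; exact absurd (Finset.mem_univ j) h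
    exact hj (h3.symm.trans h2)
  have hsp : Submodule.span Ω (Set.range ![m', h, m]) = fz.ker := by
    apply Submodule.eq_of_le_of_finrank_le
    · rw [Submodule.span_le]
      rintro _ ⟨i, rfl⟩
      fin_cases i
      · exact hz3
      · exact hz1
      · exact hz2
    · have h1 := Module.Dual.finrank_ker_add_one_of_ne_zero (f := fz) hfz
      rw [finrank_span_eq_card hli3]
      simp only [Module.finrank_fintype_fun_eq_card, Fintype.card_fin] at h1 ⊢
      omega
  have hperp : ∀ l, dt l z = 0 → l ∈ AnnPt_A v := by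
    intro l hl
    have h1 : l ∈ fz.ker := hl
    rw [← hsp] at h1
    refine (Submodule.span_le.2 ?_) h1
    rintro _ ⟨i, rfl⟩
    fin_cases i
    · exact hm'A
    · exact hh
    · exact hmA
  have hr : ∀ C (i : Fin 4), z j * v (C * X i) = z i * v (C * X j) := by
    intro C i
    have h1 : dt (z j • Pi.single i 1 - z i • Pi.single j 1 : Fin 4 → Ω) z = 0 := by
      simp only [dt, Pi.sub_apply, Pi.smul_apply, smul_eq_mul, sub_mul, Finset.sum_sub_distrib,
        Pi.single_apply, mul_ite, mul_one, mul_zero, ite_mul, zero_mul, Finset.sum_ite_eq',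
        Finset.mem_univ, if_true]
      ring
    have h2 := hperp _ h1 C
    rw [AnnPt_v_mul_lf] at h2
    simp only [Pi.sub_apply, Pi.smul_apply, smul_eq_mul, sub_mul, Finset.sum_sub_distrib,
        Pi.single_apply, mul_ite, mul_one, mul_zero, ite_mul, zero_mul, Finset.sum_ite_eq',
        Finset.mem_univ, if_true] at h2
    exact sub_eq_zero.1 h2
  have hform := fun Q hQ => AnnPt_form v z j hr 4 Q hQ
  refine ⟨z, hzB, hz0, hz1, ?_, ?_⟩
  · by_contra hlz
    apply hv0
    have hall : ∀ l, l ∈ AnnPt_A v := by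
      intro l
      have h1 : l = (l - (dt l z / dt l1 z) • l1) + (dt l z / dt l1 z) • l1 := by abel
      rw [h1]
      refine (AnnPt_A v).add_mem (hperp _ ?_) ((AnnPt_A v).smul_mem _ hA1)
      have h2 : dt (l - (dt l z / dt l1 z) • l1) z = dt l z - (dt l z / dt l1 z) * dt l1 z := by
        rw [sub_eq_add_neg, ← neg_smul, AnnPt_dt_add_left, AnnPt_dt_smul_left]
        ring
      rw [h2, div_mul_cancel₀ _ hlz, sub_self]
    have hX : v (X j ^ 4) = 0 := by
      have h1 := hall (Pi.single j 1) (X j ^ 3)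
      rw [AnnPt_v_mul_lf] at h1
      simp only [Pi.single_apply, ite_mul, one_mul, zero_mul, Finset.sum_ite_eq',
        Finset.mem_univ, if_true] at h1
      rwa [← pow_succ] at h1
    refine LinearMap.ext fun P => ?_
    have h1 := hform _ (homogeneousComponent_isHomogeneous 4 P)
    rw [hX, mul_zero, mul_eq_zero] at h1
    rw [hv4, LinearMap.zero_apply]
    exact h1.resolve_left (pow_ne_zero _ hj)
  · intro P hP
    rw [ev_part] at hP
    have h1 := hform _ (homogeneousComponent_isHomogeneous 4 P)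
    rw [hP, zero_mul, mul_eq_zero] at h1
    rw [hv4]
    exact h1.resolve_left (pow_ne_zero _ hj)

end Pool.Agent.Helper6.QS

end
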