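import Pool.Agent.Helper74.MG.T69
import Pool.Agent.Helper74.MG.T70
import Pool.Agent.Helper74.MG.T71
import Pool.Agent.Helper74.MG.T72

section

/-!
# QS-CASEA: the plane case with a pure tensor

Not `NoPure`: there are `l1 ∈ R`, not a multiple of `h`, and `θ2 ∈ R`, not a multiple of `n`, with
`θ2(D_(P l1) x) = 0` for all `P`. Complete to bases `h, l1, l2` and `θ1, θ2, n` (`bas_two`). `rel`:
`u(P) v(P') + u(P') v(P) = κ g(P, P')` with `u(P) = θ1(D_(P l1) x)`, `v(P) = θ2(D_(P l2) x)`,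
`κ = vol3 θ1 θ2 n * vol3 h l1 l2 ≠ 0`. `g ≠ 0`, so `u, v ≠ 0`, and `quad_fac` gives `c ≠ 0` with
`c v` rational. `c v` kills `C h` (`pln_par`) and `C l1` (`C l1 l2 = (C l2) l1`). `ann_pt`: either a
second rational plane through `x` (`line_mem_two`), or a rational point `z`, `h(z) = l1(z) = 0`, and
`v(P) = 0` if `P(z) = 0`. If `z` is proportional to `x`, then `x = z / z_0` is rational. Otherwise
`l2(z) ≠ 0` (`bas_par`) and `pt3` applies with `θ = θ2`: if `f(x) = 0 = f(z)` (degree 5), then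
(part of degree 5 of) `f = P_h h + P_1 l1 + P_2 l2`, `θ2(D_f x) = v(P_2)` and
`0 = f(z) = P_2(z) l2(z)`; `hne`: `m = l1`, `P` with `u(P) ≠ 0`.
-/

set_option autoImplicit false

namespace Pool.Agent.Helper6.QS

open scoped BigOperators
open MvPolynomial
open Pool.Agent.Helper8.LG (Bdd form mon)
open Pool.Agent.Helper49.LN (cP mo hf pl)

section

variable {Ω : Type*} [Field Ω]

/-- the functional `P ↦ θ(D_(P l) x)` -/
noncomputable def CaseA_fn (D : Sym (Fin 4) 5 → Derivation ℤ Ω Ω) (x l θ : Fin 4 → Ω) :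
    MvPolynomial (Fin 4) Ω →ₗ[Ω] Ω where
  toFun P := dt θ (dv D x (P * lf l))
  map_add' P P' := by
    rw [add_mul, map_add, dt_add]
  map_smul' c P := by
    rw [smul_mul_assoc, map_smul, dt_smul, RingHom.id_apply, smul_eq_mul]

theorem CaseA_fn_apply (D : Sym (Fin 4) 5 → Derivation ℤ Ω Ω) (x l θ : Fin 4 → Ω)
    (P : MvPolynomial (Fin 4) Ω) : CaseA_fn D x l θ P = dt θ (dv D x (P * lf l)) := rfl

theorem CaseA_lf_rr (x : Fin 4 → Ω) (hx : x 0 = 1) (j : Fin 4) :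
    (lf (rr x 0 j) : MvPolynomial (Fin 4) Ω) = X j - C (x j) * X 0 := by
  unfold lf rr
  have h1 : ∀ i : Fin 4, (x 0 * (if i = j then (1 : Ω) else 0) - x j * (if i = 0 then 1 else 0)) •
      (X i : MvPolynomial (Fin 4) Ω) =
      (if i = j then X i else 0) - (if i = 0 then C (x j) * X i else 0) := by
    intro i
    rw [sub_smul, hx, one_mul]
    congr 1
    · split_ifs
      · rw [one_smul]
      · rw [zero_smul]
    · split_ifs
      · rw [mul_one, smul_eq_C_mul]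
      · rw [mul_zero, zero_smul]
  rw [Finset.sum_congr rfl fun i _ => h1 i, Finset.sum_sub_distrib, Finset.sum_ite_eq',
    Finset.sum_ite_eq', if_pos (Finset.mem_univ _), if_pos (Finset.mem_univ _)]

theorem CaseA_rr_dt (x : Fin 4 → Ω) (hx : x 0 = 1) (j : Fin 4) : dt (rr x 0 j) x = 0 := by
  have h1 := eval_lf x (rr x 0 j)
  rw [CaseA_lf_rr x hx, map_sub, map_mul, eval_X, eval_C, eval_X, hx, mul_one, sub_self] at h1
  exact h1.symm

theorem CaseA_aeval_hom (x : Fin 4 → Ω) (d : ℕ) (f : MvPolynomial (Fin 4) Ω)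
    (hf : f.IsHomogeneous d) :
    aeval (fun j : Fin 4 => (C (x j) * X 0 : MvPolynomial (Fin 4) Ω)) f =
      C (eval x f) * X 0 ^ d := by
  rw [aeval_def, eval₂_eq', eval_eq', map_sum, Finset.sum_mul]
  refine Finset.sum_congr rfl fun m hm => ?_
  have h1 : ∑ i, m i = d := by
    have h2 := hf (mem_support_iff.mp hm)
    rw [show (Finsupp.weight (1 : Fin 4 → ℕ)) m = m.degree from
      (congrFun (congrArg DFunLike.coe (Finsupp.degree_eq_weight_one (R := ℕ))) m).symm,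
      Finsupp.degree_eq_sum] at h2
    exact h2
  rw [algebraMap_eq, map_mul, map_prod, mul_assoc]
  congr 1
  simp only [mul_pow, map_pow]
  rw [Finset.prod_mul_distrib, Finset.prod_pow_eq_pow_sum, h1]

/-- a form vanishing at `x` is a combination of the linear forms `X_j - x_j X_0` -/
theorem CaseA_span (x : Fin 4 → Ω) (hx : x 0 = 1) (d : ℕ) (f : MvPolynomial (Fin 4) Ω)
    (hf : f.IsHomogeneous d) (hfx : eval x f = 0) :
    ∃ c : Fin 4 → MvPolynomial (Fin 4) Ω, ∑ j, c j * lf (rr x 0 j) = f := by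
  obtain ⟨I, hI⟩ : ∃ I : Ideal (MvPolynomial (Fin 4) Ω),
      I = Ideal.span (Set.range fun j : Fin 4 => (lf (rr x 0 j) : MvPolynomial (Fin 4) Ω)) :=
    ⟨_, rfl⟩
  have h1 : (Ideal.Quotient.mkₐ Ω I).comp
      (aeval (fun j : Fin 4 => (C (x j) * X 0 : MvPolynomial (Fin 4) Ω))) =
      Ideal.Quotient.mkₐ Ω I := by
    refine algHom_ext fun j => ?_
    rw [AlgHom.comp_apply, aeval_X]
    simp only [Ideal.Quotient.mkₐ_eq_mk]
    symm
    rw [Ideal.Quotient.eq, ← CaseA_lf_rr x hx, hI]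
    exact Ideal.subset_span ⟨j, rfl⟩
  have h2 := congrArg (fun φ => φ f) h1
  simp only [AlgHom.comp_apply, Ideal.Quotient.mkₐ_eq_mk] at h2
  rw [CaseA_aeval_hom x d f hf, hfx, C_0, zero_mul, map_zero] at h2
  have h3 : f ∈ I := Ideal.Quotient.eq_zero_iff_mem.mp h2.symm
  rw [hI] at h3
  obtain ⟨c, hc⟩ := (Ideal.mem_span_range_iff_exists_fun).mp h3
  exact ⟨c, hc⟩

/-- a form vanishing at `x` in terms of a basis of `R` -/
theorem CaseA_decomp (x u v w : Fin 4 → Ω) (hx : x 0 = 1) (hu : dt u x = 0) (hv : dt v x = 0)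
    (hw : dt w x = 0) (hvol : vol3 u v w ≠ 0) (d : ℕ) (f : MvPolynomial (Fin 4) Ω)
    (hf : f.IsHomogeneous d) (hfx : eval x f = 0) :
    ∃ P Q R : MvPolynomial (Fin 4) Ω, f = P * lf u + Q * lf v + R * lf w := by
  obtain ⟨c, hc⟩ := CaseA_span x hx d f hf hfx
  have h1 : ∀ j : Fin 4, ∃ t : Ω × Ω × Ω, rr x 0 j = t.1 • u + t.2.1 • v + t.2.2 • w := by
    intro j
    obtain ⟨α, β, γ, h⟩ := bas_coord x u v w hx hu hv hw hvol (rr x 0 j) (CaseA_rr_dt x hx j)
    exact ⟨(α, β, γ), h⟩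
  choose t ht using h1
  refine ⟨∑ j, c j * C (t j).1, ∑ j, c j * C (t j).2.1, ∑ j, c j * C (t j).2.2, ?_⟩
  rw [← hc, Finset.sum_mul, Finset.sum_mul, Finset.sum_mul, ← Finset.sum_add_distrib,
    ← Finset.sum_add_distrib]
  refine Finset.sum_congr rfl fun j _ => ?_
  rw [ht j, lf_add, lf_add, lf_smul, lf_smul, lf_smul, smul_eq_C_mul, smul_eq_C_mul,
    smul_eq_C_mul]
  ring

/-- `dv` only sees the part of degree 5 -/
theorem CaseA_dv_part (D : Sym (Fin 4) 5 → Derivation ℤ Ω Ω) (x : Fin 4 → Ω)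
    (f : MvPolynomial (Fin 4) Ω) : dv D x f = dv D x (homogeneousComponent 5 f) := by
  have h1 := dv_part D x 5 0 rfl f 1 (isHomogeneous_one (Fin 4) Ω)
  simp only [mul_one] at h1
  exact h1

theorem CaseA_vol (u v w : Fin 4 → Ω) : vol3 u v w = - vol3 w v u := by
  unfold vol3
  ring

end

theorem caseA {Ω : Type*} [Field Ω] [CharZero Ω] {D : Sym (Fin 4) 5 → Derivation ℤ Ω Ω}
    {a : Sym (Fin 4) 5 → Ω} {B : Subfield Ω} {x h n : Fin 4 → Ω}
    {g : MvPolynomial (Fin 4) Ω →ₗ[Ω] MvPolynomial (Fin 4) Ω →ₗ[Ω] Ω}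
    (hp : Pln D a B x h n g) (hA : ¬ NoPure D x h n) : ∀ i, x i ∈ B := by
  unfold NoPure at hA
  push Not at hA
  obtain ⟨l1, θ2, hl1, hθ2, hkill, hne1, hne2⟩ := hA
  have hne1' : ¬ ∃ c : Ω, l1 = c • h := fun ⟨c, hc⟩ => hne1 c hc
  have hne2' : ¬ ∃ c : Ω, θ2 = c • n := fun ⟨c, hc⟩ => hne2 c hc
  obtain ⟨l2, hl2, hvol⟩ := bas_two x h l1 hp.one hp.hx hl1 hp.h0 hne1'
  obtain ⟨θ1, hθ1, hvolθ'⟩ := bas_two x n θ2 hp.one hp.nx hθ2 (pln_n0 hp) hne2'
  have hvolθ : vol3 θ1 θ2 n ≠ 0 := by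
    rw [CaseA_vol]
    exact neg_ne_zero.mpr hvolθ'
  obtain ⟨κ, hκ⟩ : ∃ κ : Ω, κ = vol3 θ1 θ2 n * vol3 h l1 l2 := ⟨_, rfl⟩
  have hκ0 : κ ≠ 0 := by
    rw [hκ]
    exact mul_ne_zero hvolθ hvol
  obtain ⟨u, hu⟩ : ∃ u : MvPolynomial (Fin 4) Ω →ₗ[Ω] Ω, u = CaseA_fn D x l1 θ1 := ⟨_, rfl⟩
  obtain ⟨v, hv⟩ : ∃ v : MvPolynomial (Fin 4) Ω →ₗ[Ω] Ω, v = CaseA_fn D x l2 θ2 := ⟨_, rfl⟩
  have hu' : ∀ P, u P = dt θ1 (dv D x (P * lf l1)) := fun P => by rw [hu, CaseA_fn_apply]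
  have hv' : ∀ P, v P = dt θ2 (dv D x (P * lf l2)) := fun P => by rw [hv, CaseA_fn_apply]
  have hrel : ∀ P P', u P * v P' + u P' * v P = κ * g P P' := by
    intro P P'
    have h1 := hp.rel P P' l1 l2 θ1 θ2 hl1 hl2 hθ1 hθ2
    rw [hkill P, hkill P', ← hu' P, ← hu' P', ← hv' P, ← hv' P', ← hκ] at h1
    rw [← h1]
    ring
  obtain ⟨P0, hP0, hg0⟩ := hp.g0
  have huv : u P0 ≠ 0 ∧ v P0 ≠ 0 := by
    have h1 := hrel P0 P0
    constructor
    · intro h2
      rw [h2, zero_mul, add_zero] at h1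
      exact mul_ne_zero hκ0 hg0 h1.symm
    · intro h2
      rw [h2, mul_zero, add_zero] at h1
      exact mul_ne_zero hκ0 hg0 h1.symm
  have hu0 : u ≠ 0 := fun h1 => huv.1 (by rw [h1, LinearMap.zero_apply])
  have hv0 : v ≠ 0 := fun h1 => huv.2 (by rw [h1, LinearMap.zero_apply])
  obtain ⟨c, hc0, hcB⟩ := quad_fac (rat_alg hp.frame) u v κ hκ0 hu0 hv0 (by
    intro P P' hP hP'
    rw [hrel P P', mul_comm, mul_div_assoc, div_self hκ0, mul_one]
    exact hp.gB P P' hP hP')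
  have hcv : ∀ P, (c • v) P = c * v P := fun P => rfl
  have hvh : ∀ C, v (C * lf h) = 0 := by
    intro C
    rw [hv', mul_assoc, mul_comm (lf h), ← mul_assoc]
    obtain ⟨s, hs⟩ := pln_par hp (C * lf l2)
    rw [hs, dt_smul, hθ2, mul_zero]
  have hvl1 : ∀ C, v (C * lf l1) = 0 := by
    intro C
    rw [hv', mul_assoc, mul_comm (lf l1), ← mul_assoc]
    have h1 := hkill (C * lf l2)
    rw [h1]
  have hv4 : ∀ P, v P = v (homogeneousComponent 4 P) := by
    intro P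
    rw [hv', hv', dv_part D x 4 1 rfl P (lf l2) (lf_hom l2)]
  rcases ann_pt (B := B) (c • v) (smul_ne_zero hc0 hv0) (fun P hP => by
      rw [hcv]
      exact hcB P hP) (fun P => by rw [hcv, hcv, ← hv4]) x h l1 hp.one hp.hB hp.h0 hp.hx hl1 hne1'
      (fun C => by rw [hcv, hvh, mul_zero]) (fun C => by rw [hcv, hvl1, mul_zero]) with
    ⟨h', hh'B, hlin, hh'x⟩ | ⟨z, hzB, hz0, hhz, hl1z, hvz⟩
  · exact line_mem_two hp.frame (by norm_num) x hp.one hp.zero h h' hp.hB hh'B hlin hp.hx hh'x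
  · have hvz' : ∀ P, ev 4 z P = 0 → v P = 0 := by
      intro P hP
      have h1 := hvz P hP
      rw [hcv] at h1
      exact (mul_eq_zero.mp h1).resolve_left hc0
    by_cases hzx : ∃ j l, pl x z j l ≠ 0
    · have hl2z : dt l2 z ≠ 0 := by
        intro h1
        obtain ⟨s, hs⟩ := bas_par x h l1 l2 hp.one hp.hx hl1 hl2 hvol z hhz hl1z h1
        obtain ⟨j, l, hjl⟩ := hzx
        apply hjl
        unfold pl
        rw [hs]
        simp only [Pi.smul_apply, smul_eq_mul]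
        ring
      refine pt3 hp.frame x hp.one hp.zero n hp.nx hp.nf z hzB hzx θ2 hθ2 hne2' ?_ ?_
      · intro f hfx hfz
        rw [ev_part] at hfx hfz
        obtain ⟨P, Q, R, hPQR⟩ := CaseA_decomp x h l1 l2 hp.one hp.hx hl1 hl2 hvol 5
          (homogeneousComponent 5 f) (homogeneousComponent_isHomogeneous 5 f) hfx
        have hR : v R = 0 := by
          apply hvz'
          have h1 : ev (4 + 1) z (homogeneousComponent 5 f) = 0 := by
            rw [ev_hom (4 + 1) z _ (homogeneousComponent_isHomogeneous 5 f)]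
            exact hfz
          rw [hPQR, map_add, map_add, ev_lf, ev_lf, ev_lf, hhz, hl1z, mul_zero, mul_zero, zero_add,
            zero_add] at h1
          exact (mul_eq_zero.mp h1).resolve_right hl2z
        rw [CaseA_dv_part, hPQR, map_add, map_add, dt_add, dt_add, hkill Q, ← hv' R, hR]
        obtain ⟨s, hs⟩ := pln_par hp P
        rw [hs, dt_smul, hθ2, mul_zero, add_zero, add_zero]
      · refine ⟨P0, l1, hl1, hl1z, ?_⟩
        rintro ⟨s, hs⟩
        apply huv.1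
        rw [hu', hs, dt_smul, hθ1, mul_zero]
    · push Not at hzx
      have h1 : ∀ l, z l = x l * z 0 := by
        intro l
        have h2 := hzx 0 l
        unfold pl at h2
        rw [hp.one, one_mul] at h2
        exact sub_eq_zero.mp h2
      have h2 : z 0 ≠ 0 := by
        intro h3
        apply hz0
        funext l
        rw [h1 l, h3, mul_zero, Pi.zero_apply]
      intro l
      have h3 : x l = z l / z 0 := by
        rw [h1 l, mul_div_assoc, div_self h2, mul_one]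
      rw [h3]
      exact div_mem (hzB l) (hzB 0)

end Pool.Agent.Helper6.QS

end
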