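import Pool.Agent.Helper74.MG.T67

section

/-!
# QS-STAR: the derivative of the matrix of functionals

`δ` is a derivation which kills `B`. `star_rel`: apply `δ` to `rel` for two monomials (coefficients
in `B`, `g` in `B`): `pol(u'(P), u(P')) + pol(u(P), u'(P')) = (δ κ / κ) pol(u(P), u(P'))`,
`κ = vol3(θ_0, θ_1, n) vol3(h, l_0, l_1)`; both sides are bilinear.
`star_form`: with `Θ_j(f) = θ_j . D_f x` and `Θ'_j` the linear functional with
`Θ'_j(X^m) = δ(Θ_j(X^m))`: `u'(P)_ij = Θ_j(P δl_i) + Θ'_j(P l_i)` (check on monomials `P`).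
-/

set_option autoImplicit false

namespace Pool.Agent.Helper6.QS

open scoped BigOperators
open MvPolynomial
open Pool.Agent.Helper8.LG (Bdd form mon)
open Pool.Agent.Helper49.LN (cP mo hf pl)

section

variable {Ω : Type*} [Field Ω]

theorem Star_pol_add_left (A₁ A₂ A' : Matrix (Fin 2) (Fin 2) Ω) :
    pol (A₁ + A₂) A' = pol A₁ A' + pol A₂ A' := by
  simp only [pol, Matrix.add_apply]
  ring

theorem Star_pol_add_right (A A₁ A₂ : Matrix (Fin 2) (Fin 2) Ω) :
    pol A (A₁ + A₂) = pol A A₁ + pol A A₂ := by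
  simp only [pol, Matrix.add_apply]
  ring

theorem Star_pol_smul_left (c : Ω) (A A' : Matrix (Fin 2) (Fin 2) Ω) :
    pol (c • A) A' = c * pol A A' := by
  simp only [pol, Matrix.smul_apply, smul_eq_mul]
  ring

theorem Star_pol_smul_right (c : Ω) (A A' : Matrix (Fin 2) (Fin 2) Ω) :
    pol A (c • A') = c * pol A A' := by
  simp only [pol, Matrix.smul_apply, smul_eq_mul]
  ring

theorem Star_uM {D : Sym (Fin 4) 5 → Derivation ℤ Ω Ω} {x : Fin 4 → Ω}
    (l θ : Fin 2 → Fin 4 → Ω) (P : MvPolynomial (Fin 4) Ω) (i j : Fin 2) :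
    uM D x l θ P i j = dt (θ j) (dv D x (P * lf (l i))) := rfl

/-- Stated for an abstract map `V`, so that the kernel never unfolds `dv D x`. -/
theorem Star_pol (V : MvPolynomial (Fin 4) Ω → (Fin 4 → Ω))
    (l θ : Fin 2 → Fin 4 → Ω) (P P' : MvPolynomial (Fin 4) Ω)
    (A A' : Matrix (Fin 2) (Fin 2) Ω)
    (hA : ∀ i j, A i j = dt (θ j) (V (P * lf (l i))))
    (hA' : ∀ i j, A' i j = dt (θ j) (V (P' * lf (l i)))) :
    pol A A' = dt (θ 0) (V (P * lf (l 0))) * dt (θ 1) (V (P' * lf (l 1))) -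
      dt (θ 1) (V (P * lf (l 0))) * dt (θ 0) (V (P' * lf (l 1))) -
      (dt (θ 0) (V (P * lf (l 1))) * dt (θ 1) (V (P' * lf (l 0))) -
        dt (θ 1) (V (P * lf (l 1))) * dt (θ 0) (V (P' * lf (l 0)))) := by
  simp only [pol, hA, hA']
  ring

theorem Star_pol_uM {D : Sym (Fin 4) 5 → Derivation ℤ Ω Ω} {x : Fin 4 → Ω}
    (l θ : Fin 2 → Fin 4 → Ω) (P P' : MvPolynomial (Fin 4) Ω) :
    pol (uM D x l θ P) (uM D x l θ P') =
    dt (θ 0) (dv D x (P * lf (l 0))) * dt (θ 1) (dv D x (P' * lf (l 1))) -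
      dt (θ 1) (dv D x (P * lf (l 0))) * dt (θ 0) (dv D x (P' * lf (l 1))) -
      (dt (θ 0) (dv D x (P * lf (l 1))) * dt (θ 1) (dv D x (P' * lf (l 0))) -
        dt (θ 1) (dv D x (P * lf (l 1))) * dt (θ 0) (dv D x (P' * lf (l 0)))) :=
  Star_pol (fun f => dv D x f) l θ P P' _ _ (fun i j => Star_uM l θ P i j)
    (fun i j => Star_uM l θ P' i j)

theorem Star_monomial (m : Fin 4 →₀ ℕ) (c : Ω) :
    (monomial m c : MvPolynomial (Fin 4) Ω) = c • monomial m 1 := by
  rw [smul_monomial, smul_eq_mul, mul_one]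

theorem Star_dfun_monomial (δ : Derivation ℤ Ω Ω)
    (U : MvPolynomial (Fin 4) Ω →ₗ[Ω] Matrix (Fin 2) (Fin 2) Ω) (m : Fin 4 →₀ ℕ) :
    dfun δ U (monomial m 1) = (U (monomial m 1)).map δ := by
  unfold dfun
  have h := (MvPolynomial.basisMonomials (Fin 4) Ω).constr_basis Ω
    (fun m => (U (monomial m 1)).map δ) m
  rw [MvPolynomial.coe_basisMonomials] at h
  exact h

theorem Star_mul_lf (m : Fin 4 →₀ ℕ) (c : Fin 4 → Ω) :
    (monomial m 1 * lf c : MvPolynomial (Fin 4) Ω) =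
      ∑ k, c k • monomial (m + Finsupp.single k 1) 1 := by
  unfold lf
  rw [Finset.mul_sum]
  refine Finset.sum_congr rfl fun k _ => ?_
  rw [mul_smul_comm, X, monomial_mul, mul_one]

/-- The relation for two monomials. -/
theorem Star_mon (δ : Derivation ℤ Ω Ω)
    (U : MvPolynomial (Fin 4) Ω →ₗ[Ω] Matrix (Fin 2) (Fin 2) Ω) {κ G : Ω} (hκ : κ ≠ 0)
    (hG : δ G = 0) (m m' : Fin 4 →₀ ℕ)
    (h : pol (U (monomial m 1)) (U (monomial m' 1)) = κ * G) :
    pol (dfun δ U (monomial m 1)) (U (monomial m' 1)) +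
        pol (U (monomial m 1)) (dfun δ U (monomial m' 1)) =
      δ κ / κ * pol (U (monomial m 1)) (U (monomial m' 1)) := by
  have h3 : pol ((U (monomial m 1)).map δ) (U (monomial m' 1)) +
      pol (U (monomial m 1)) ((U (monomial m' 1)).map δ) =
      δ (pol (U (monomial m 1)) (U (monomial m' 1))) := by
    simp only [pol, Matrix.map_apply, map_add, map_sub, Derivation.leibniz, smul_eq_mul]
    ring
  rw [Star_dfun_monomial, Star_dfun_monomial, h3, h, Derivation.leibniz, hG, smul_zero, zero_add,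
    smul_eq_mul]
  field_simp

/-- Both sides are bilinear. -/
theorem Star_bil (U U' : MvPolynomial (Fin 4) Ω →ₗ[Ω] Matrix (Fin 2) (Fin 2) Ω) (c : Ω)
    (hmon : ∀ m m' : Fin 4 →₀ ℕ, pol (U' (monomial m 1)) (U (monomial m' 1)) +
        pol (U (monomial m 1)) (U' (monomial m' 1)) =
      c * pol (U (monomial m 1)) (U (monomial m' 1)))
    (P P' : MvPolynomial (Fin 4) Ω) :
    pol (U' P) (U P') + pol (U P) (U' P') = c * pol (U P) (U P') := by
  have hlin : ∀ (m : Fin 4 →₀ ℕ) (P' : MvPolynomial (Fin 4) Ω),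
      pol (U' (monomial m 1)) (U P') + pol (U (monomial m 1)) (U' P') =
        c * pol (U (monomial m 1)) (U P') := by
    intro m P'
    induction P' using MvPolynomial.induction_on' with
    | monomial u a =>
      rw [Star_monomial u a, map_smul, map_smul, Star_pol_smul_right, Star_pol_smul_right,
        Star_pol_smul_right, ← mul_add, hmon]
      ring
    | add p q h3 h4 =>
      rw [map_add, map_add, Star_pol_add_right, Star_pol_add_right, Star_pol_add_right, mul_add,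
        ← h3, ← h4]
      ring
  induction P using MvPolynomial.induction_on' with
  | monomial u a =>
    rw [Star_monomial u a, map_smul, map_smul, Star_pol_smul_left, Star_pol_smul_left,
      Star_pol_smul_left, ← mul_add, hlin]
    ring
  | add p q h3 h4 =>
    rw [map_add, map_add, Star_pol_add_left, Star_pol_add_left, Star_pol_add_left, mul_add,
      ← h3, ← h4]
    ring

end

theorem star_rel {Ω : Type*} [Field Ω] [CharZero Ω] {D : Sym (Fin 4) 5 → Derivation ℤ Ω Ω}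
    {a : Sym (Fin 4) 5 → Ω} {B : Subfield Ω} {x h n : Fin 4 → Ω}
    {g : MvPolynomial (Fin 4) Ω →ₗ[Ω] MvPolynomial (Fin 4) Ω →ₗ[Ω] Ω}
    (hp : Pln D a B x h n g) (δ : Derivation ℤ Ω Ω) (hδ : ∀ b ∈ B, δ b = 0)
    (l θ : Fin 2 → Fin 4 → Ω) (hl : ∀ i, dt (l i) x = 0) (hθ : ∀ j, dt (θ j) x = 0)
    (h1 : vol3 h (l 0) (l 1) ≠ 0) (h2 : vol3 (θ 0) (θ 1) n ≠ 0)
    (P P' : MvPolynomial (Fin 4) Ω) :
    pol (dfun δ (uM D x l θ) P) (uM D x l θ P') + pol (uM D x l θ P) (dfun δ (uM D x l θ) P') =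
      δ (vol3 (θ 0) (θ 1) n * vol3 h (l 0) (l 1)) / (vol3 (θ 0) (θ 1) n * vol3 h (l 0) (l 1)) *
        pol (uM D x l θ P) (uM D x l θ P') := by
  have hr : ∀ k : Fin 4 →₀ ℕ, RatP B (monomial k (1 : Ω)) := by
    intro k j
    rw [coeff_monomial]
    split_ifs
    · exact B.one_mem
    · exact B.zero_mem
  exact Star_bil (uM D x l θ) (dfun δ (uM D x l θ)) _ (fun m m' =>
    Star_mon δ (uM D x l θ) (mul_ne_zero h2 h1) (hδ _ (hp.gB _ _ (hr m) (hr m'))) m m'
      ((Star_pol_uM l θ _ _).trans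
        (hp.rel _ _ (l 0) (l 1) (θ 0) (θ 1) (hl 0) (hl 1) (hθ 0) (hθ 1)))) P P'

theorem star_form {Ω : Type*} [Field Ω] (D : Sym (Fin 4) 5 → Derivation ℤ Ω Ω)
    (x : Fin 4 → Ω) (δ : Derivation ℤ Ω Ω) (l θ : Fin 2 → Fin 4 → Ω) :
    ∃ Θ' : Fin 2 → MvPolynomial (Fin 4) Ω →ₗ[Ω] Ω, ∀ P i j,
      dfun δ (uM D x l θ) P i j =
        dt (θ j) (dv D x (P * lf fun k => δ (l i k))) + Θ' j (P * lf (l i)) := by
  classical
  obtain ⟨Θ, hΘ⟩ : ∃ Θ : Fin 2 → MvPolynomial (Fin 4) Ω →ₗ[Ω] Ω,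
      ∀ j f, Θ j f = dt (θ j) (dv D x f) := by
    refine ⟨fun j =>
      { toFun := fun f => dt (θ j) (dv D x f)
        map_add' := fun f g => by
          simp only [dt, map_add, Pi.add_apply, mul_add, Finset.sum_add_distrib]
        map_smul' := fun c f => by
          simp only [dt, map_smul, Pi.smul_apply, smul_eq_mul, RingHom.id_apply, Finset.mul_sum]
          exact Finset.sum_congr rfl fun k _ => by ring }, fun j f => rfl⟩
  let Θ' : Fin 2 → MvPolynomial (Fin 4) Ω →ₗ[Ω] Ω := fun j =>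
    (MvPolynomial.basisMonomials (Fin 4) Ω).constr Ω fun m => δ (Θ j (monomial m 1))
  have hΘ' : ∀ j m, Θ' j (monomial m 1) = δ (Θ j (monomial m 1)) := by
    intro j m
    have h := (MvPolynomial.basisMonomials (Fin 4) Ω).constr_basis Ω
      (fun m => δ (Θ j (monomial m 1))) m
    rw [MvPolynomial.coe_basisMonomials] at h
    exact h
  refine ⟨Θ', fun P i j => ?_⟩
  rw [← hΘ]
  induction P using MvPolynomial.induction_on' with
  | monomial u a =>
    rw [Star_monomial u a, map_smul, Matrix.smul_apply, Star_dfun_monomial, smul_mul_assoc,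
      smul_mul_assoc, map_smul, map_smul, ← smul_add, Matrix.map_apply]
    congr 1
    have h1 : uM D x l θ (monomial u 1) i j = Θ j (monomial u 1 * lf (l i)) := by
      rw [hΘ]
      rfl
    rw [h1, Star_mul_lf, Star_mul_lf, map_sum, map_sum, map_sum, map_sum,
      ← Finset.sum_add_distrib]
    refine Finset.sum_congr rfl fun k _ => ?_
    rw [LinearMap.map_smul (Θ j), LinearMap.map_smul (Θ j), LinearMap.map_smul (Θ' j), hΘ',
      smul_eq_mul, smul_eq_mul, smul_eq_mul, Derivation.leibniz, smul_eq_mul, smul_eq_mul]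
    ring
  | add p q h3 h4 =>
    rw [map_add, Matrix.add_apply, h3, h4, add_mul, add_mul, map_add, map_add]
    ring

end Pool.Agent.Helper6.QS

end
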