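import Pool.Agent.Helper74.MG.T69
import Pool.Agent.Helper74.MG.T74

section

/-!
# QS-DELTAQ: a quadratic form from the rigidity of the matrix of functionals

`u'(P) = X u(P) + u(P) Y`. With `star_form` and `Θ_j(f) = θ_j . D_f x` (so `u(P)_ij = Θ_j(P l_i)`)
put `ψ_j = Θ'_j - ∑_k Y_kj Θ_k`, `m_i = ∑_k X_ik l_k - δ l_i`: `ψ_j(P l_i) = Θ_j(P m_i)`.
`Q = lf l_1 * lf m_0 - lf l_0 * lf m_1`: `Θ_j(Q C) = ψ_j(l_0 l_1 C) - ψ_j(l_1 l_0 C) = 0`, and
`Q(x) = 0`, so `n . D_(QC) x = 0` and `D_(QC) x` is proportional to `x` (`bas_par` with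
`θ_0, θ_1, n`). If `Q` vanishes on the plane `h = 0`: take `y0` with `h . y0 = l_0 . y0 = 0`,
`l_1 . y0 ≠ 0` and `y = α x + β y0`: `(l_1 . y)(m_0 . y) = 0` for all `α, β`, so `m_0 . x = 0`;
in the same way `m_1 . x = 0`. But `m_i . x = - δl_i . x = l_i . δx`, and `h . δx = 0`, so `δx` is
proportional to `x` (`bas_par`), and zero as `δ x_0 = δ 1 = 0`, against `hδx`.
-/

set_option autoImplicit false

namespace Pool.Agent.Helper6.QS

open scoped BigOperators
open MvPolynomial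
open Pool.Agent.Helper8.LG (Bdd form mon)
open Pool.Agent.Helper49.LN (cP mo hf pl)

/-- a derivation and the dot product -/
theorem deltaQ_dt {Ω : Type*} [Field Ω] (δ : Derivation ℤ Ω Ω) (u v : Fin 4 → Ω) :
    δ (dt u v) = dt (fun k => δ (u k)) v + dt u (fun k => δ (v k)) := by
  simp only [dt, map_sum, Derivation.leibniz, smul_eq_mul, Finset.sum_add_distrib]
  rw [add_comm]
  congr 1
  exact Finset.sum_congr rfl fun k _ => mul_comm _ _

theorem deltaQ_add_left {Ω : Type*} [Field Ω] (u v w : Fin 4 → Ω) :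
    dt (u + v) w = dt u w + dt v w := by
  rw [dt_comm, dt_add, dt_comm w u, dt_comm w v]

theorem deltaQ_smul_left {Ω : Type*} [Field Ω] (c : Ω) (u w : Fin 4 → Ω) :
    dt (c • u) w = c * dt u w := by
  rw [dt_comm, dt_smul, dt_comm w u]

/-- a vector orthogonal to `h` and `l` but not to `l'` -/
theorem deltaQ_cross {Ω : Type*} [Field Ω] (h l l' : Fin 4 → Ω) (hv : vol3 h l l' ≠ 0) :
    ∃ y : Fin 4 → Ω, dt h y = 0 ∧ dt l y = 0 ∧ dt l' y ≠ 0 := by
  have key : ∀ u : Fin 4 → Ω, dt u ![0, h 2 * l 3 - h 3 * l 2, h 3 * l 1 - h 1 * l 3,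
      h 1 * l 2 - h 2 * l 1] = u 1 * (h 2 * l 3 - h 3 * l 2) + u 2 * (h 3 * l 1 - h 1 * l 3) +
      u 3 * (h 1 * l 2 - h 2 * l 1) := by
    intro u
    simp [dt, Fin.sum_univ_four]
  refine ⟨_, (key h).trans ?_, (key l).trans ?_, ?_⟩
  · ring
  · ring
  · rw [key]
    intro h0
    apply hv
    rw [← h0, vol3]
    ring

theorem delta_Q {Ω : Type*} [Field Ω] [CharZero Ω] {D : Sym (Fin 4) 5 → Derivation ℤ Ω Ω}
    {a : Sym (Fin 4) 5 → Ω} {B : Subfield Ω} {x h n : Fin 4 → Ω}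
    {g : MvPolynomial (Fin 4) Ω →ₗ[Ω] MvPolynomial (Fin 4) Ω →ₗ[Ω] Ω}
    (hp : Pln D a B x h n g) (δ : Derivation ℤ Ω Ω) (hδ : ∀ b ∈ B, δ b = 0)
    (hδx : ∃ i, δ (x i) ≠ 0) (l θ : Fin 2 → Fin 4 → Ω) (hl : ∀ i, dt (l i) x = 0)
    (hθ : ∀ j, dt (θ j) x = 0) (h1 : vol3 h (l 0) (l 1) ≠ 0) (h2 : vol3 (θ 0) (θ 1) n ≠ 0)
    (X Y : Matrix (Fin 2) (Fin 2) Ω)
    (hXY : ∀ P, dfun δ (uM D x l θ) P = X * uM D x l θ P + uM D x l θ P * Y) :
    ∃ Q : MvPolynomial (Fin 4) Ω, Q.IsHomogeneous 2 ∧ (∃ y, dt h y = 0 ∧ eval y Q ≠ 0) ∧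
      ∀ C, Par x (dv D x (C * Q)) := by
  obtain ⟨Θ', hΘ'⟩ := star_form D x δ l θ
  obtain ⟨m, hm⟩ : ∃ m : Fin 2 → Fin 4 → Ω, ∀ i, m i = X i 0 • l 0 + X i 1 • l 1 +
      (-1 : Ω) • fun k => δ (l i k) := ⟨_, fun _ => rfl⟩
  -- the functionals `ψ_j`
  have key : ∀ P i j, dt (θ j) (dv D x (P * lf (m i))) = Θ' j (P * lf (l i)) -
      (dt (θ 0) (dv D x (P * lf (l i))) * Y 0 j + dt (θ 1) (dv D x (P * lf (l i))) * Y 1 j) := by
    intro P i j
    have e1 := congrFun (congrFun (hXY P) i) j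
    rw [hΘ' P i j, Matrix.add_apply, Matrix.mul_apply, Matrix.mul_apply, Fin.sum_univ_two,
      Fin.sum_univ_two] at e1
    have e2 : ∀ i j, uM D x l θ P i j = dt (θ j) (dv D x (P * lf (l i))) := fun _ _ => rfl
    simp only [e2] at e1
    rw [hm i, lf_add, lf_add, lf_smul, lf_smul, lf_smul, mul_add, mul_add, mul_smul_comm,
      mul_smul_comm, mul_smul_comm, map_add, map_add, map_smul, map_smul, map_smul, dt_add, dt_add,
      dt_smul, dt_smul, dt_smul]
    linear_combination -e1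
  obtain ⟨Q, hQ⟩ : ∃ Q : MvPolynomial (Fin 4) Ω, Q = lf (l 1) * lf (m 0) - lf (l 0) * lf (m 1) :=
    ⟨_, rfl⟩
  have hQ2 : Q.IsHomogeneous 2 := by
    rw [hQ]
    exact ((lf_hom (l 1)).mul (lf_hom (m 0))).sub ((lf_hom (l 0)).mul (lf_hom (m 1)))
  have hev : ∀ y, eval y Q = dt (l 1) y * dt (m 0) y - dt (l 0) y * dt (m 1) y := by
    intro y
    rw [hQ, map_sub, map_mul, map_mul, eval_lf, eval_lf, eval_lf, eval_lf]
  refine ⟨Q, hQ2, ?_, ?_⟩
  · by_contra hno
    push Not at hno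
    -- `m_i . x = 0`
    have hmx : ∀ i i' : Fin 2, vol3 h (l i) (l i') ≠ 0 →
        (∀ y, dt h y = 0 → dt (l i') y * dt (m i) y - dt (l i) y * dt (m i') y = 0) →
        dt (m i) x = 0 := by
      intro i i' hv hz
      obtain ⟨y, hy1, hy2, hy3⟩ := deltaQ_cross h (l i) (l i') hv
      have e1 := hz y hy1
      rw [hy2, zero_mul, sub_zero] at e1
      have e2 := (mul_eq_zero.1 e1).resolve_left hy3
      have e3 := hz (x + y) (by rw [dt_add, hp.hx, hy1, add_zero])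
      rw [dt_add, dt_add, dt_add, hl i', hl i, hy2, e2, zero_add, add_zero, add_zero, zero_mul,
        sub_zero] at e3
      exact (mul_eq_zero.1 e3).resolve_left hy3
    have hm0 : dt (m 0) x = 0 := hmx 0 1 h1 fun y hy => by
      rw [← hev y]
      exact hno y hy
    have hm1 : dt (m 1) x = 0 := by
      refine hmx 1 0 ?_ fun y hy => ?_
      · intro h0
        apply h1
        have : vol3 h (l 0) (l 1) = - vol3 h (l 1) (l 0) := by
          simp only [vol3]
          ring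
        rw [this, h0, neg_zero]
      · have := hno y hy
        rw [hev y] at this
        linear_combination -this
    have hlx : ∀ i, dt (m i) x = 0 → dt (l i) (fun k => δ (x k)) = 0 := by
      intro i hi
      have e1 := deltaQ_dt δ (l i) x
      rw [hl i, map_zero] at e1
      rw [hm i, deltaQ_add_left, deltaQ_add_left, deltaQ_smul_left, deltaQ_smul_left,
        deltaQ_smul_left, hl 0, hl 1] at hi
      linear_combination hi - e1
    have hhx : dt h (fun k => δ (x k)) = 0 := by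
      have e1 := deltaQ_dt δ h x
      rw [hp.hx, map_zero] at e1
      have e2 : dt (fun k => δ (h k)) x = 0 := by
        simp only [dt, hδ _ (hp.hB _), zero_mul, Finset.sum_const_zero]
      rw [e2, zero_add] at e1
      exact e1.symm
    obtain ⟨c, hc⟩ := bas_par x h (l 0) (l 1) hp.one hp.hx (hl 0) (hl 1) h1 _ hhx (hlx 0 hm0)
      (hlx 1 hm1)
    have hc0 : c = 0 := by
      have e1 := congrFun hc 0
      simp only [Pi.smul_apply, smul_eq_mul, hp.one, mul_one] at e1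
      rw [← e1]
      exact δ.map_one_eq_zero
    obtain ⟨i, hi⟩ := hδx
    apply hi
    have e1 := congrFun hc i
    rw [hc0, zero_smul] at e1
    exact e1
  · intro C
    have hC : ∀ j, dt (θ j) (dv D x (C * Q)) = 0 := by
      intro j
      have e1 := key (C * lf (l 1)) 0 j
      have e2 := key (C * lf (l 0)) 1 j
      have e3 : C * Q = C * lf (l 1) * lf (m 0) + (-1 : Ω) • (C * lf (l 0) * lf (m 1)) := by
        rw [hQ, neg_one_smul]
        ring
      have e4 : dt (θ j) (dv D x (C * Q)) = dt (θ j) (dv D x (C * lf (l 1) * lf (m 0))) +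
          (-1 : Ω) * dt (θ j) (dv D x (C * lf (l 0) * lf (m 1))) := by
        rw [e3, map_add, map_smul, dt_add, dt_smul]
      have e5 : C * lf (l 1) * lf (l 0) = C * lf (l 0) * lf (l 1) :=
        mul_right_comm C (lf (l 1)) (lf (l 0))
      rw [e5] at e1
      rw [e4, e1, e2]
      ring
    refine bas_par x (θ 0) (θ 1) n hp.one (hθ 0) (hθ 1) hp.nx h2 _ (hC 0) (hC 1) ?_
    have e1 := ev_mul 3 2 x C Q hQ2
    rw [show (3 : ℕ) + 2 = 5 from rfl] at e1
    rw [hp.nf, e1, hev, hl 0, hl 1]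
    ring

end Pool.Agent.Helper6.QS

end
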