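import Pool.Agent.Helper74.MG.T69

section

/-!
# QS-DETK: two relations between the functionals

Two linearly independent matrices `c`, `c'` with `∑ c_ij θ_j(D_(P l_i) x) = 0` for all `P`.
Let `a_j = ∑_i c_ij l_i`, `a'_j = ∑_i c'_ij l_i` (in `R`): `∑_j Θ_j(P a_j) = 0 = ∑_j Θ_j(P a'_j)`.
`Q = lf a_0 * lf a'_1 - lf a_1 * lf a'_0`: `Θ_0(C Q) = - Θ_1(C a_1 a'_1) + Θ_1(C a'_1 a_1) = 0`,
the same for `Θ_1`; `Q(x) = 0`; so `D_(CQ) x` is proportional to `x`.
`Q` does not vanish on the plane `h = 0`: otherwise (in terms of the two coordinates `l_0, l_1` of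
this plane modulo `x`) `a_0 a'_1 = a_1 a'_0` as products of linear forms in two variables, so either
the rows are proportional (`(a_j) ~ (a'_j)`, so `c ~ c'`, or one is zero), or the columns are:
`s a_0 + t a_1 = 0 = s a'_0 + t a'_1` with `(s, t) ≠ 0` modulo `h`, but the `a_j` are combinations of
`l_0, l_1`, so exactly; then `∑_j Θ_j(P a_j) = θ(D_(P b) x)` with `θ = - t θ_0 + s θ_1` (up to
order), `b` a multiple of an `a_j`, not both zero, against `NoPure`.
-/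

set_option autoImplicit false

namespace Pool.Agent.Helper6.QS

open scoped BigOperators
open MvPolynomial
open Pool.Agent.Helper8.LG (Bdd form mon)
open Pool.Agent.Helper49.LN (cP mo hf pl)

/-- dual vectors -/
theorem DetK_dual {Ω : Type*} [Field Ω] {h u v : Fin 4 → Ω} (hv : vol3 h u v ≠ 0) :
    ∃ e f : Fin 4 → Ω, dt h e = 0 ∧ dt u e = 1 ∧ dt v e = 0 ∧ dt h f = 0 ∧ dt u f = 0 ∧
      dt v f = 1 := by
  unfold vol3 at hv
  set V : Ω := h 1 * (u 2 * v 3 - u 3 * v 2) - h 2 * (u 1 * v 3 - u 3 * v 1) +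
    h 3 * (u 1 * v 2 - u 2 * v 1) with hV
  refine ⟨![0, (v 2 * h 3 - v 3 * h 2) / V, (v 3 * h 1 - v 1 * h 3) / V,
    (v 1 * h 2 - v 2 * h 1) / V], ![0, (h 2 * u 3 - h 3 * u 2) / V, (h 3 * u 1 - h 1 * u 3) / V,
    (h 1 * u 2 - h 2 * u 1) / V], ?_, ?_, ?_, ?_, ?_, ?_⟩ <;>
  · simp only [dt, Fin.sum_univ_four, Matrix.cons_val_zero, Matrix.cons_val_one, Matrix.cons_val]
    field_simp
    rw [hV]
    ring

theorem DetK_dt2 {Ω : Type*} [Field Ω] (u v y : Fin 4 → Ω) (p q : Ω) :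
    dt (p • u + q • v) y = p * dt u y + q * dt v y := by
  simp only [dt, Fin.sum_univ_four, Pi.add_apply, Pi.smul_apply, smul_eq_mul]
  ring

/-- a pure relation is impossible -/
theorem DetK_pure {Ω : Type*} [Field Ω] {D : Sym (Fin 4) 5 → Derivation ℤ Ω Ω}
    {x h n : Fin 4 → Ω} (hA : NoPure D x h n) (l θ : Fin 2 → Fin 4 → Ω)
    (hl : ∀ i, dt (l i) x = 0) (hθ : ∀ j, dt (θ j) x = 0) (h1 : vol3 h (l 0) (l 1) ≠ 0)
    (h2 : vol3 (θ 0) (θ 1) n ≠ 0) (p q : Fin 2 → Ω) (hp : p ≠ 0) (hq : q ≠ 0)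
    (hpq : ∀ P, p 0 * q 0 * uM D x l θ P 0 0 + p 0 * q 1 * uM D x l θ P 0 1 +
      (p 1 * q 0 * uM D x l θ P 1 0 + p 1 * q 1 * uM D x l θ P 1 1) = 0) : False := by
  have hlx : dt (p 0 • l 0 + p 1 • l 1) x = 0 := by
    rw [DetK_dt2, hl, hl]
    ring
  have hθx : dt (q 0 • θ 0 + q 1 • θ 1) x = 0 := by
    rw [DetK_dt2, hθ, hθ]
    ring
  have h3 : ∀ P, dt (q 0 • θ 0 + q 1 • θ 1) (dv D x (P * lf (p 0 • l 0 + p 1 • l 1))) = 0 := by
    intro P
    have h4 := hpq P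
    simp only [uM, LinearMap.coe_mk, AddHom.coe_mk, Matrix.of_apply] at h4
    rw [DetK_dt2, lf_add, lf_smul, lf_smul, mul_add, mul_smul_comm, mul_smul_comm, map_add,
      map_smul, map_smul, dt_add, dt_add, dt_smul, dt_smul, dt_smul, dt_smul]
    linear_combination h4
  rcases hA _ _ hlx hθx h3 with ⟨c, hc⟩ | ⟨c, hc⟩
  · obtain ⟨e, f, he1, he2, he3, hf1, hf2, hf3⟩ := DetK_dual h1
    have h5 : dt (c • h) e = 0 := by
      have := DetK_dt2 h h e c 0
      rw [zero_smul, add_zero] at this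
      rw [this, he1]
      ring
    have h6 : dt (c • h) f = 0 := by
      have := DetK_dt2 h h f c 0
      rw [zero_smul, add_zero] at this
      rw [this, hf1]
      ring
    rw [← hc, DetK_dt2, he2, he3] at h5
    rw [← hc, DetK_dt2, hf2, hf3] at h6
    apply hp
    funext i
    fin_cases i
    · simpa using h5
    · simpa using h6
  · have h1' : vol3 n (θ 0) (θ 1) ≠ 0 := by
      intro h0
      apply h2
      rw [← h0]
      unfold vol3
      ring
    obtain ⟨e, f, he1, he2, he3, hf1, hf2, hf3⟩ := DetK_dual h1'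
    have h5 : dt (c • n) e = 0 := by
      have := DetK_dt2 n n e c 0
      rw [zero_smul, add_zero] at this
      rw [this, he1]
      ring
    have h6 : dt (c • n) f = 0 := by
      have := DetK_dt2 n n f c 0
      rw [zero_smul, add_zero] at this
      rw [this, hf1]
      ring
    rw [← hc, DetK_dt2, he2, he3] at h5
    rw [← hc, DetK_dt2, hf2, hf3] at h6
    apply hq
    funext i
    fin_cases i
    · simpa using h5
    · simpa using h6

/-- the matrix of a relation is invertible -/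
theorem DetK_det {Ω : Type*} [Field Ω] {D : Sym (Fin 4) 5 → Derivation ℤ Ω Ω}
    {x h n : Fin 4 → Ω} (hA : NoPure D x h n) (l θ : Fin 2 → Fin 4 → Ω)
    (hl : ∀ i, dt (l i) x = 0) (hθ : ∀ j, dt (θ j) x = 0) (h1 : vol3 h (l 0) (l 1) ≠ 0)
    (h2 : vol3 (θ 0) (θ 1) n ≠ 0) (c : Matrix (Fin 2) (Fin 2) Ω) (hc0 : c ≠ 0)
    (hc : ∀ P, ∑ i, ∑ j, c i j * uM D x l θ P i j = 0) :
    c 0 0 * c 1 1 - c 0 1 * c 1 0 ≠ 0 := by
  intro hdet
  have hcc : ∀ P, c 0 0 * uM D x l θ P 0 0 + c 0 1 * uM D x l θ P 0 1 +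
      (c 1 0 * uM D x l θ P 1 0 + c 1 1 * uM D x l θ P 1 1) = 0 := by
    intro P
    have := hc P
    simpa only [Fin.sum_univ_two] using this
  by_cases h00 : c 0 0 = 0 ∧ c 1 0 = 0
  · obtain ⟨ha, hb⟩ := h00
    refine DetK_pure hA l θ hl hθ h1 h2 ![c 0 1, c 1 1] ![0, 1] ?_ ?_ fun P => ?_
    · intro h0
      apply hc0
      have h3 := congrFun h0 0
      have h4 := congrFun h0 1
      simp only [Matrix.cons_val_zero, Matrix.cons_val_one, Pi.zero_apply] at h3 h4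
      ext i j
      fin_cases i <;> fin_cases j <;> simp [ha, hb, h3, h4]
    · intro h0
      have h3 := congrFun h0 1
      simp only [Matrix.cons_val_one, Pi.zero_apply] at h3
      exact one_ne_zero h3
    · have h3 := hcc P
      simp only [Matrix.cons_val_zero, Matrix.cons_val_one]
      rw [ha, hb] at h3
      linear_combination h3
  · obtain ⟨κ, hκ0, hκ1⟩ : ∃ κ : Ω, c 0 1 = κ * c 0 0 ∧ c 1 1 = κ * c 1 0 := by
      by_cases ha : c 0 0 = 0
      · have hb : c 1 0 ≠ 0 := fun hb => h00 ⟨ha, hb⟩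
        refine ⟨c 1 1 / c 1 0, ?_, ?_⟩
        · rw [ha] at hdet ⊢
          have h3 : c 0 1 * c 1 0 = 0 := by linear_combination -hdet
          rw [mul_zero]
          exact (mul_eq_zero.1 h3).resolve_right hb
        · field_simp
      · refine ⟨c 0 1 / c 0 0, ?_, ?_⟩
        · field_simp
        · field_simp
          linear_combination hdet
    refine DetK_pure hA l θ hl hθ h1 h2 ![c 0 0, c 1 0] ![1, κ] ?_ ?_ fun P => ?_
    · intro h0
      have h3 := congrFun h0 0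
      have h4 := congrFun h0 1
      simp only [Matrix.cons_val_zero, Matrix.cons_val_one, Pi.zero_apply] at h3 h4
      exact h00 ⟨h3, h4⟩
    · intro h0
      have h3 := congrFun h0 0
      simp only [Matrix.cons_val_zero, Pi.zero_apply] at h3
      exact one_ne_zero h3
    · have h3 := hcc P
      simp only [Matrix.cons_val_zero, Matrix.cons_val_one]
      rw [hκ0, hκ1] at h3
      linear_combination h3

theorem DetK_rel {Ω : Type*} [Field Ω] {D : Sym (Fin 4) 5 → Derivation ℤ Ω Ω}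
    {x : Fin 4 → Ω} (l θ : Fin 2 → Fin 4 → Ω) (c : Matrix (Fin 2) (Fin 2) Ω)
    (hc : ∀ P, ∑ i, ∑ j, c i j * uM D x l θ P i j = 0) (P : MvPolynomial (Fin 4) Ω) :
    dt (θ 0) (dv D x (P * lf (c 0 0 • l 0 + c 1 0 • l 1))) +
      dt (θ 1) (dv D x (P * lf (c 0 1 • l 0 + c 1 1 • l 1))) = 0 := by
  have h4 := hc P
  simp only [Fin.sum_univ_two, uM, LinearMap.coe_mk, AddHom.coe_mk, Matrix.of_apply] at h4
  simp only [lf_add, lf_smul, mul_add, mul_smul_comm, map_add, map_smul, dt_add, dt_smul]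
  linear_combination h4

theorem det_K {Ω : Type*} [Field Ω] [CharZero Ω] {D : Sym (Fin 4) 5 → Derivation ℤ Ω Ω}
    {a : Sym (Fin 4) 5 → Ω} {B : Subfield Ω} {x h n : Fin 4 → Ω}
    {g : MvPolynomial (Fin 4) Ω →ₗ[Ω] MvPolynomial (Fin 4) Ω →ₗ[Ω] Ω}
    (hp : Pln D a B x h n g) (hA : NoPure D x h n) (l θ : Fin 2 → Fin 4 → Ω)
    (hl : ∀ i, dt (l i) x = 0)
    (hθ : ∀ j, dt (θ j) x = 0) (h1 : vol3 h (l 0) (l 1) ≠ 0) (h2 : vol3 (θ 0) (θ 1) n ≠ 0)
    (c c' : Matrix (Fin 2) (Fin 2) Ω) (hlin : LinearIndependent Ω ![c, c'])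
    (hc : ∀ P, ∑ i, ∑ j, c i j * uM D x l θ P i j = 0)
    (hc' : ∀ P, ∑ i, ∑ j, c' i j * uM D x l θ P i j = 0) :
    ∃ Q : MvPolynomial (Fin 4) Ω, Q.IsHomogeneous 2 ∧ (∃ y, dt h y = 0 ∧ eval y Q ≠ 0) ∧
      ∀ C, Par x (dv D x (C * Q)) := by
  rw [LinearIndependent.pair_iff] at hlin
  have hc0 : c ≠ 0 := by
    intro h0
    have := (hlin 1 0 (by rw [h0]; simp)).1
    exact one_ne_zero this
  have hprop : ∀ lam : Ω, ¬ c' = lam • c := by
    intro lam h0
    have := (hlin (-lam) 1 (by rw [h0]; simp)).2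
    exact one_ne_zero this
  have hdet := DetK_det hA l θ hl hθ h1 h2 c hc0 hc
  -- the vectors
  set a0 : Fin 4 → Ω := c 0 0 • l 0 + c 1 0 • l 1 with ha0
  set a1 : Fin 4 → Ω := c 0 1 • l 0 + c 1 1 • l 1 with ha1
  set b0 : Fin 4 → Ω := c' 0 0 • l 0 + c' 1 0 • l 1 with hb0
  set b1 : Fin 4 → Ω := c' 0 1 • l 0 + c' 1 1 • l 1 with hb1
  have hr : ∀ P, dt (θ 0) (dv D x (P * lf a0)) + dt (θ 1) (dv D x (P * lf a1)) = 0 := by
    intro P
    have h3 := DetK_rel l θ c hc P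
    rw [← ha0, ← ha1] at h3
    exact h3
  have hr' : ∀ P, dt (θ 0) (dv D x (P * lf b0)) + dt (θ 1) (dv D x (P * lf b1)) = 0 := by
    intro P
    have h3 := DetK_rel l θ c' hc' P
    rw [← hb0, ← hb1] at h3
    exact h3
  have ha0x : dt a0 x = 0 := by rw [ha0, DetK_dt2, hl, hl]; ring
  have ha1x : dt a1 x = 0 := by rw [ha1, DetK_dt2, hl, hl]; ring
  refine ⟨lf a0 * lf b1 - lf a1 * lf b0, ?_, ?_, fun C => ?_⟩
  · exact ((lf_hom a0).mul (lf_hom b1)).sub ((lf_hom a1).mul (lf_hom b0))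
  · obtain ⟨e, f, he1, he2, he3, hf1, hf2, hf3⟩ := DetK_dual h1
    have hval : ∀ s t : Ω, dt h (s • e + t • f) = 0 ∧
        eval (s • e + t • f) (lf a0 * lf b1 - lf a1 * lf b0) =
          (c 0 0 * s + c 1 0 * t) * (c' 0 1 * s + c' 1 1 * t) -
            (c 0 1 * s + c 1 1 * t) * (c' 0 0 * s + c' 1 0 * t) := by
      intro s t
      have hh : ∀ u : Fin 4 → Ω, dt u (s • e + t • f) = s * dt u e + t * dt u f := by
        intro u
        rw [dt_add, dt_smul, dt_smul]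
      refine ⟨?_, ?_⟩
      · rw [hh, he1, hf1]
        ring
      · rw [map_sub, map_mul, map_mul, eval_lf, eval_lf, eval_lf, eval_lf, ha0, ha1, hb0, hb1,
          DetK_dt2, DetK_dt2, DetK_dt2, DetK_dt2, hh, hh, he2, he3, hf2, hf3]
        ring
    by_contra hcon
    push Not at hcon
    have hz : ∀ s t : Ω, (c 0 0 * s + c 1 0 * t) * (c' 0 1 * s + c' 1 1 * t) -
            (c 0 1 * s + c 1 1 * t) * (c' 0 0 * s + c' 1 0 * t) = 0 := by
      intro s t
      rw [← (hval s t).2]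
      exact hcon _ (hval s t).1
    have E1 : c 0 0 * c' 0 1 = c 0 1 * c' 0 0 := by linear_combination hz 1 0
    have E2 : c 1 0 * c' 1 1 = c 1 1 * c' 1 0 := by linear_combination hz 0 1
    have E3 : c 0 0 * c' 1 1 + c 1 0 * c' 0 1 = c 0 1 * c' 1 0 + c 1 1 * c' 0 0 := by
      linear_combination hz 1 1 - hz 1 0 - hz 0 1
    -- `d = c 0 0 c 1 1 - c 0 1 c 1 0`, `d c' = (c' 0 0 c 1 1 - c' 0 1 c 1 0) c`
    set d : Ω := c 0 0 * c 1 1 - c 0 1 * c 1 0 with hd
    apply hprop ((c' 0 0 * c 1 1 - c' 0 1 * c 1 0) / d)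
    ext i j
    rw [Matrix.smul_apply, smul_eq_mul, div_mul_eq_mul_div, eq_div_iff hdet, hd]
    fin_cases i <;> fin_cases j
    · change c' 0 0 * (c 0 0 * c 1 1 - c 0 1 * c 1 0) =
        (c' 0 0 * c 1 1 - c' 0 1 * c 1 0) * c 0 0
      linear_combination c 1 0 * E1
    · change c' 0 1 * (c 0 0 * c 1 1 - c 0 1 * c 1 0) =
        (c' 0 0 * c 1 1 - c' 0 1 * c 1 0) * c 0 1
      linear_combination c 1 1 * E1
    · change c' 1 0 * (c 0 0 * c 1 1 - c 0 1 * c 1 0) =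
        (c' 0 0 * c 1 1 - c' 0 1 * c 1 0) * c 1 0
      linear_combination (-c 0 0) * E2 + c 1 0 * E3
    · change c' 1 1 * (c 0 0 * c 1 1 - c 0 1 * c 1 0) =
        (c' 0 0 * c 1 1 - c' 0 1 * c 1 0) * c 1 1
      linear_combination (-c 0 1) * E2 + c 1 1 * E3
  · have hQ : C * (lf a0 * lf b1 - lf a1 * lf b0) =
        C * lf b1 * lf a0 - C * lf b0 * lf a1 := by ring
    have hQ' : C * (lf a0 * lf b1 - lf a1 * lf b0) =
        C * lf a0 * lf b1 - C * lf a1 * lf b0 := by ring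
    have hsub : ∀ (u : Fin 4 → Ω) (P P' : MvPolynomial (Fin 4) Ω),
        dt u (dv D x (P - P')) = dt u (dv D x P) - dt u (dv D x P') := by
      intro u P P'
      have h3 : P - P' = P + (-1 : Ω) • P' := by rw [neg_smul, one_smul, sub_eq_add_neg]
      rw [h3, map_add, map_smul, dt_add, dt_smul]
      ring
    refine bas_par x (θ 0) (θ 1) n hp.one (hθ 0) (hθ 1) hp.nx h2 _ ?_ ?_ ?_
    · -- `Θ_0(C b1 a0) = - Θ_1(C b1 a1)`, `Θ_0(C a1 b0) = - Θ_1(C a1 b1)`
      have h3 := hr (C * lf b1)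
      have h4 := hr' (C * lf a1)
      have h5 : C * lf b1 * lf a1 = C * lf a1 * lf b1 := by ring
      have h6 : C * (lf a0 * lf b1 - lf a1 * lf b0) =
        C * lf b1 * lf a0 - C * lf a1 * lf b0 := by ring
      rw [h6, hsub]
      rw [h5] at h3
      linear_combination h3 - h4
    · have h3 := hr (C * lf b0)
      have h4 := hr' (C * lf a0)
      have h5 : C * lf b0 * lf a0 = C * lf a0 * lf b0 := by ring
      have h6 : C * (lf a0 * lf b1 - lf a1 * lf b0) =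
        C * lf a0 * lf b1 - C * lf b0 * lf a1 := by ring
      rw [h6, hsub]
      rw [h5] at h3
      linear_combination h4 - h3
    · rw [hQ, hsub, pln_tan hp _ _ ha0x, pln_tan hp _ _ ha1x, sub_zero]

end Pool.Agent.Helper6.QS

end
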