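import Pool.Agent.Helper74.MG.T69

section

/-!
# QS-FINQ: the last step of the plane case

`Q` is a rational quadratic form and `D_(Q C l) x` is proportional to `x` for all `C` and all
`l ∈ R`. For cubic forms `C`, `C'` the form `C(x) C' - C'(x) C` vanishes at `x`, so it is a
combination of `C'' l`, `l ∈ R`: `C(x) (x ∧ D_(QC') x) = C'(x) (x ∧ D_(QC) x)`. So
`w = x ∧ D_(Q X_0^3) x` satisfies `x ∧ D_(Q X_m^3) x = x_m^3 w`. If `w = 0`, then `D_(Q X_0^3) x` is
proportional to `x`, and `0 = n . D_(Q X_0^3) x = - Q(x)`. If `w ≠ 0`, at a valuation ring with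
maximal coordinate `m`, `x' = x / x_m`: `w = x_m^(2 - 3) x' ∧ D_(Q X_m^3) x'`, so `Δ^3 w x_m ∈ O`
(`dv_scale`, `dv_bdd`; `s` = the coefficients of `Q`), and `rat_pt` applies to a coordinate of `w`.
-/

set_option autoImplicit false

namespace Pool.Agent.Helper6.QS

open scoped BigOperators
open MvPolynomial
open Pool.Agent.Helper8.LG (Bdd form mon)
open Pool.Agent.Helper49.LN (cP mo hf pl)

section

variable {Ω : Type*} [Field Ω]

theorem FinQ_dt_rr (x : Fin 4 → Ω) (m : Fin 4) : dt (rr x 0 m) x = 0 := by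
  unfold dt rr
  simp only [sub_mul, mul_assoc, ite_mul, one_mul, zero_mul, Finset.sum_sub_distrib,
    mul_ite, mul_zero, Finset.sum_ite_eq', Finset.mem_univ, if_true]
  ring

theorem FinQ_lf_rr (x : Fin 4 → Ω) (hx : x 0 = 1) (m : Fin 4) :
    lf (rr x 0 m) = X m - C (x m) * X 0 := by
  unfold lf rr
  simp only [hx, sub_smul, Finset.sum_sub_distrib, ite_smul, one_smul, zero_smul,
    mul_ite, mul_one, mul_zero, Finset.sum_ite_eq', Finset.mem_univ, if_true, smul_eq_C_mul]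

/-- not proportional: a coordinate of the wedge product is not zero -/
theorem FinQ_par (x v : Fin 4 → Ω) (hx : x 0 = 1) (h : ∀ j l, pl x v j l = 0) : Par x v := by
  refine ⟨v 0, ?_⟩
  funext l
  have h1 := h 0 l
  unfold pl at h1
  rw [hx, one_mul] at h1
  rw [Pi.smul_apply, smul_eq_mul, mul_comm]
  exact sub_eq_zero.1 h1

/-- the directions `Q X_m^3`, for an arbitrary linear map -/
theorem FinQ_lin (L : MvPolynomial (Fin 4) Ω →ₗ[Ω] (Fin 4 → Ω)) (x : Fin 4 → Ω) (hx : x 0 = 1)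
    (Q : MvPolynomial (Fin 4) Ω)
    (hpar : ∀ C l, dt l x = 0 → Par x (L (C * Q * lf l))) (m : Fin 4) :
    ∃ c : Ω, L (Q * X m ^ 3) = (x m) ^ 3 • L (Q * X 0 ^ 3) + c • x := by
  obtain ⟨c, hc⟩ := hpar (X m ^ 2 + C (x m) * X m * X 0 + C (x m) ^ 2 * X 0 ^ 2) (rr x 0 m)
    (FinQ_dt_rr x m)
  refine ⟨c, ?_⟩
  have hdec : Q * X m ^ 3 = C ((x m) ^ 3) * (Q * X 0 ^ 3) +
      (X m ^ 2 + C (x m) * X m * X 0 + C (x m) ^ 2 * X 0 ^ 2) * Q * lf (rr x 0 m) := by
    rw [FinQ_lf_rr x hx m, C_pow]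
    ring
  rw [hdec, map_add, ← smul_eq_C_mul, map_smul, hc]

theorem FinQ_coeff (O : ValuationSubring Ω) (Δ : Ω) (Q : MvPolynomial (Fin 4) Ω)
    (h : ∀ k, Δ * coeff k Q ∈ O) (m : Fin 4) (k : Fin 4 →₀ ℕ) :
    Δ ^ 1 * coeff k (Q * X m ^ 3) ∈ O := by
  rw [X_pow_eq_monomial, coeff_mul_monomial', pow_one]
  split_ifs with h1
  · rw [mul_one]
    exact h _
  · rw [mul_zero]
    exact zero_mem _

theorem FinQ_alg (x V U : Fin 4 → Ω) (m : Fin 4) (hm : x m ≠ 0) (c c' : Ω)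
    (e : x m ^ 3 • V + c • x = x m • U + c' • x) (j l : Fin 4) :
    pl x V j l * x m = x j / x m * U l - x l / x m * U j := by
  have e1 : ∀ i, x m ^ 3 * V i + c * x i = x m * U i + c' * x i := by
    intro i
    have := congrFun e i
    simpa only [Pi.add_apply, Pi.smul_apply, smul_eq_mul] using this
  unfold pl
  have h1 : x m ^ 2 * ((x j * V l - x l * V j) * x m) =
      x m ^ 2 * (x j / x m * U l - x l / x m * U j) := by
    have h2 : x m ^ 2 * (x j / x m * U l - x l / x m * U j) =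
        x j * (x m * U l) - x l * (x m * U j) := by
      field_simp
    rw [h2]
    have h3 := e1 l
    have h4 := e1 j
    linear_combination x j * h3 - x l * h4
  exact mul_left_cancel₀ (pow_ne_zero 2 hm) h1

theorem FinQ_mem (O : ValuationSubring Ω) (Δ : Ω) (x V U : Fin 4 → Ω) (m : Fin 4)
    (hm : x m ≠ 0) (hxm : ∀ l, x l / x m ∈ O) (c c' : Ω)
    (e : x m ^ 3 • V + c • x = x m • U + c' • x) (hb : ∀ l, Δ ^ (1 + 1) * U l ∈ O)
    (j l : Fin 4) : Δ ^ 2 * (pl x V j l * x m) ∈ O := by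
  rw [FinQ_alg x V U m hm c c' e j l, mul_sub]
  have m1 : Δ ^ 2 * (x j / x m * U l) ∈ O := by
    have := mul_mem (hxm j) (hb l)
    have e : x j / x m * (Δ ^ (1 + 1) * U l) = Δ ^ 2 * (x j / x m * U l) := by ring
    rw [← e]
    exact this
  have m2 : Δ ^ 2 * (x l / x m * U j) ∈ O := by
    have := mul_mem (hxm l) (hb j)
    have e : x l / x m * (Δ ^ (1 + 1) * U j) = Δ ^ 2 * (x l / x m * U j) := by ring
    rw [← e]
    exact this
  exact sub_mem m1 m2

end

theorem fin_Q {Ω : Type*} [Field Ω] [CharZero Ω] {D : Sym (Fin 4) 5 → Derivation ℤ Ω Ω}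
    {a : Sym (Fin 4) 5 → Ω} {B : Subfield Ω} {x h n : Fin 4 → Ω}
    {g : MvPolynomial (Fin 4) Ω →ₗ[Ω] MvPolynomial (Fin 4) Ω →ₗ[Ω] Ω}
    (hp : Pln D a B x h n g) (Q : MvPolynomial (Fin 4) Ω) (hQ : RatP B Q)
    (hQ2 : Q.IsHomogeneous 2)
    (hpar : ∀ C l, dt l x = 0 → Par x (dv D x (C * Q * lf l))) :
    (∀ i, x i ∈ B) ∨ eval x Q = 0 := by
  classical
  have hx := hp.one
  -- the derivatives in the directions `Q X_m^3`
  have key : ∀ m : Fin 4, ∃ c : Ω, dv D x (Q * X m ^ 3) =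
      (x m) ^ 3 • dv D x (Q * X 0 ^ 3) + c • x :=
    FinQ_lin (dv D x) x hx Q hpar
  by_cases hw : ∀ j l, pl x (dv D x (Q * X 0 ^ 3)) j l = 0
  · right
    obtain ⟨c, hc⟩ := FinQ_par x _ hx hw
    have h1 := hp.nf (Q * X 0 ^ 3)
    have h2 : dt n (c • x) = 0 := by
      have h3 : dt n (c • x) = c * dt n x := by
        unfold dt
        rw [Finset.mul_sum]
        exact Finset.sum_congr rfl fun i _ => by
          rw [Pi.smul_apply, smul_eq_mul]
          ring
      rw [h3, hp.nx, mul_zero]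
    rw [hc, h2, ev_hom 5 x _ (by simpa using hQ2.mul ((isHomogeneous_X Ω (0 : Fin 4)).pow 3))] at h1
    have h4 : eval x (Q * X 0 ^ 3) = eval x Q := by
      rw [map_mul, map_pow, eval_X, hx, one_pow, mul_one]
    rw [h4] at h1
    exact neg_eq_zero.1 h1.symm
  · left
    push Not at hw
    obtain ⟨j, l, hjl⟩ := hw
    refine rat_pt hp.frame x 0 hx (Q.support.image fun k => coeff k Q) ?_
      (pl x (dv D x (Q * X 0 ^ 3)) j l) hjl 2 ?_
    · intro b hb
      obtain ⟨k, -, rfl⟩ := Finset.mem_image.1 hb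
      exact hQ k
    · intro O Δ hΔ hs m hm hxm
      have hco : ∀ k, Δ * coeff k Q ∈ O := by
        intro k
        by_cases hk : k ∈ Q.support
        · exact hs _ (Finset.mem_image_of_mem _ hk)
        · rw [notMem_support_iff.1 hk, mul_zero]
          exact zero_mem _
      obtain ⟨c, hc⟩ := key m
      obtain ⟨c', hc'⟩ := dv_scale D x m hm (Q * X m ^ 3)
      have hb := dv_bdd D (fun l => x l / x m) O Δ hΔ hxm (Q * X m ^ 3) 1
        (FinQ_coeff O Δ Q hco m)
      exact FinQ_mem O Δ x _ _ m hm hxm c c' (hc.symm.trans hc') hb j l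

end Pool.Agent.Helper6.QS

end
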