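import Pool.Agent.Helper74.MG.T67

section

/-!
# QS-CONICDIV: a point on a rational conic

`B` is relatively algebraically closed in `Ω`; `h`, `Q`, `F` are rational forms of degrees 1, 2, `d`
vanishing at `x`, `Q` does not vanish identically on the plane `h = 0`. Then `x` is rational, or `x`
lies on a rational line of this plane, or `F = h A + Q C` with rational `A`, `C`.
Proof: choose a rational basis `e_0, e_1, e_2` of the plane with `Q(e_2) ≠ 0`, `x = ∑ y_i e_i`.
If `y_0 = y_1 = 0`, `x` is rational. Otherwise suppose `y_0 ≠ 0` (the other case is the same), and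
let `s = y_1 / y_0`, `t = y_2 / y_0`. On the plane `Q = α Y_2^2 + β Y_2 + γ` with `α ∈ B`, `α ≠ 0`,
`β, γ ∈ B[Y_0, Y_1]`, and `F = A' + C' Y_2 + Q E` (division with remainder by the monic `Q / α`),
`A', C' ∈ B[Y_0, Y_1]` homogeneous. If `A' = C' = 0`, then `F - Q E` vanishes on the plane, so it is
`h A`. If `s` is algebraic over `B`, it is in `B`, then `t` is algebraic and in `B`. If `s` is
transcendental: the norm `A'^2 - A' C' β / α + C'^2 γ / α` vanishes at `s`, so it is zero, so
`Q(1, s, T)` has the root `- A' / C'` in `B(s)`, which is integral over `B[s]`, so it is a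
polynomial in `s`, of degree at most 1 (as `β`, `γ` have degrees at most 1, 2), the same for the
other root: `Q = α (Y_2 - r_1)(Y_2 - r_2)` with linear forms `r_i` in `Y_0, Y_1`, and one of the two
linear forms vanishes at `x`: extend it to `h' ∈ B^4`.
(In the file the special vector is `e_0`, and `s = y_1 / y_2`, `t = y_0 / y_2`.)
-/

set_option autoImplicit false

namespace Pool.Agent.Helper6.QS

open scoped BigOperators
open MvPolynomial

/-! ### linear algebra -/

section lin

variable {k : Type*} [Field k]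

theorem ConicDiv_basis0 (h e : Fin 4 → k) (h0 : h 0 ≠ 0) (e1 : e 1 ≠ 0)
    (he : ∑ i, h i * e i = 0) :
    ∃ (E G : Fin 3 → Fin 4 → k) (c : Fin 4 → k), E 0 = e ∧ (∀ r, ∑ i, h i * E r i = 0) ∧
      (∀ r l, ∑ i, G r i * E l i = if r = l then 1 else 0) ∧
      (∀ i l, (if i = l then 1 else 0) - ∑ r, E r i * G r l = c i * h l) := by
  refine ⟨![e, ![-(h 2 / h 0), 0, 1, 0], ![-(h 3 / h 0), 0, 0, 1]],
    ![![0, 1 / e 1, 0, 0], ![0, -(e 2 / e 1), 1, 0], ![0, -(e 3 / e 1), 0, 1]],
    ![1 / h 0, 0, 0, 0], rfl, ?_, ?_, ?_⟩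
  · intro r
    fin_cases r
    · exact he
    · simp [Fin.sum_univ_four]
      field_simp
      ring
    · simp [Fin.sum_univ_four]
      field_simp
      ring
  · intro r l
    fin_cases r <;> fin_cases l <;> simp [Fin.sum_univ_four] <;> field_simp <;> ring
  · have h1 : e 0 = -(h 1 * e 1 + h 2 * e 2 + h 3 * e 3) / h 0 := by
      rw [Fin.sum_univ_four] at he
      field_simp
      linear_combination he
    intro i l
    fin_cases i <;> fin_cases l <;> simp [Fin.sum_univ_three, h1] <;> field_simp <;> ring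

theorem ConicDiv_perm : ∀ j m : Fin 4, m ≠ j → ∃ σ : Equiv.Perm (Fin 4), σ 0 = j ∧ σ 1 = m := by
  decide

theorem ConicDiv_basis (h e : Fin 4 → k) (h0 : h ≠ 0) (e0 : e ≠ 0)
    (he : ∑ i, h i * e i = 0) :
    ∃ (E G : Fin 3 → Fin 4 → k) (c : Fin 4 → k), E 0 = e ∧ (∀ r, ∑ i, h i * E r i = 0) ∧
      (∀ r l, ∑ i, G r i * E l i = if r = l then 1 else 0) ∧
      (∀ i l, (if i = l then 1 else 0) - ∑ r, E r i * G r l = c i * h l) := by
  obtain ⟨j, hj⟩ : ∃ j, h j ≠ 0 := by
    by_contra hc
    push Not at hc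
    exact h0 (funext hc)
  obtain ⟨m, hmj, hm⟩ : ∃ m, m ≠ j ∧ e m ≠ 0 := by
    by_contra hc
    push Not at hc
    have h1 : h j * e j = 0 := by
      rw [← he]
      symm
      apply Finset.sum_eq_single j
      · intro b _ hb
        rw [hc b hb, mul_zero]
      · intro h2
        exact absurd (Finset.mem_univ j) h2
    have h2 : e j = 0 := by
      rcases mul_eq_zero.mp h1 with h3 | h3
      · exact absurd h3 hj
      · exact h3
    apply e0
    funext i
    by_cases hi : i = j
    · rw [hi]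
      exact h2
    · exact hc i hi
  obtain ⟨σ, s0, s1⟩ := ConicDiv_perm j m hmj
  obtain ⟨E, G, c, hE, h1, h2, h3⟩ := ConicDiv_basis0 (fun i => h (σ i)) (fun i => e (σ i))
    (by rw [s0]; exact hj) (by rw [s1]; exact hm)
    (by rw [← he]; exact Equiv.sum_comp σ (fun i => h i * e i))
  refine ⟨fun r i => E r (σ.symm i), fun r i => G r (σ.symm i), fun i => c (σ.symm i), ?_, ?_, ?_,
    ?_⟩
  · funext i
    simp only [hE, Equiv.apply_symm_apply]
  · intro r
    rw [← h1 r, ← Equiv.sum_comp σ (fun i => h i * E r (σ.symm i))]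
    simp only [Equiv.symm_apply_apply]
  · intro r l
    rw [← h2 r l, ← Equiv.sum_comp σ (fun i => G r (σ.symm i) * E l (σ.symm i))]
    simp only [Equiv.symm_apply_apply]
  · intro i l
    have := h3 (σ.symm i) (σ.symm l)
    simp only [Equiv.apply_symm_apply, EmbeddingLike.apply_eq_iff_eq] at this
    exact this

end lin

/-! ### a rational vector of the plane outside the conic -/

theorem ConicDiv_vec {k Ω : Type*} [Field k] [Infinite k] [Field Ω] [Algebra k Ω] (h : Fin 4 → k)
    (h0 : h ≠ 0) (Q : MvPolynomial (Fin 4) k) (y : Fin 4 → Ω)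
    (hy : ∑ i, algebraMap k Ω (h i) * y i = 0) (hQ : aeval y Q ≠ 0) :
    ∃ e : Fin 4 → k, ∑ i, h i * e i = 0 ∧ eval e Q ≠ 0 := by
  classical
  obtain ⟨j, hj⟩ : ∃ j, h j ≠ 0 := by
    by_contra hc
    push Not at hc
    exact h0 (funext hc)
  obtain ⟨L, hL⟩ : ∃ L : Fin 4 → MvPolynomial (Fin 4) k, L = fun i =>
      X i - if i = j then C (1 / h j) * ∑ l, C (h l) * X l else 0 := ⟨_, rfl⟩
  by_contra hc
  push Not at hc
  have hP : aeval L Q = 0 := by
    apply MvPolynomial.funext
    intro z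
    rw [map_zero]
    have h1 : eval z (aeval L Q) = eval (fun i => eval z (L i)) Q := by
      have : (eval z) = (aeval z : MvPolynomial (Fin 4) k →ₐ[k] k).toRingHom := by
        ext <;> simp
      rw [this]
      simp only [AlgHom.toRingHom_eq_coe, RingHom.coe_coe]
      rw [← AlgHom.comp_apply, comp_aeval]
      rfl
    rw [h1]
    apply hc
    simp only [hL, map_sub, eval_X]
    have h2 : ∀ i, eval z (if i = j then C (1 / h j) * ∑ l, C (h l) * X l else 0) =
        if i = j then (1 / h j) * ∑ l, h l * z l else 0 := by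
      intro i
      split_ifs
      · simp
      · simp
    simp only [h2, mul_sub, Finset.sum_sub_distrib, mul_ite, mul_zero, Finset.sum_ite_eq',
      Finset.mem_univ, if_true]
    field_simp
    ring
  apply hQ
  have h3 : aeval y (aeval L Q) = aeval y Q := by
    rw [← AlgHom.comp_apply, comp_aeval]
    congr 2
    funext i
    rw [hL]
    simp only [map_sub, aeval_X]
    have h2 : aeval y (if i = j then C (1 / h j) * ∑ l, C (h l) * X l else 0) = (0 : Ω) := by
      split_ifs
      · simp only [map_mul, map_sum, aeval_C, aeval_X, hy, mul_zero]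
      · simp
    rw [h2, sub_zero]
  rw [← h3, hP, map_zero]

/-! ### homogeneous components -/

theorem ConicDiv_comp {k σ : Type*} [CommRing k] {P G : MvPolynomial σ k} {n m : ℕ}
    (hP : P.IsHomogeneous n) :
    homogeneousComponent (n + m) (P * G) = P * homogeneousComponent m G := by
  conv_lhs => rw [← sum_homogeneousComponent G, Finset.mul_sum, map_sum]
  have h1 : ∀ i, homogeneousComponent (n + m) (P * homogeneousComponent i G) =
      if i = m then P * homogeneousComponent m G else 0 := by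
    intro i
    have h2 : (P * homogeneousComponent i G) ∈ homogeneousSubmodule σ k (n + i) :=
      hP.mul (homogeneousComponent_isHomogeneous i G)
    rw [homogeneousComponent_of_mem h2]
    by_cases hi : i = m
    · rw [hi, if_pos rfl, if_pos rfl]
    · rw [if_neg hi, if_neg (fun h => hi (by omega))]
  simp only [h1, Finset.sum_ite_eq', Finset.mem_range]
  split_ifs with h3
  · rfl
  · rw [homogeneousComponent_eq_zero _ _ (by omega), mul_zero]

/-! ### the one variable part -/

theorem ConicDiv_one {k Ω : Type*} [Field k] [Field Ω] [Algebra k Ω] {a : k} (ha : a ≠ 0)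
    {q₀ q₁ p₀ p₁ : Polynomial k} (h1 : q₁.natDegree ≤ 1) (h0 : q₀.natDegree ≤ 2) {s t : Ω}
    (hs : Transcendental k s) (hp : p₁ ≠ 0)
    (hq : algebraMap k Ω a * t ^ 2 + Polynomial.aeval s q₁ * t + Polynomial.aeval s q₀ = 0)
    (hpt : Polynomial.aeval s p₀ + Polynomial.aeval s p₁ * t = 0) :
    ∃ b₀ b₁ : k, t = algebraMap k Ω b₀ + algebraMap k Ω b₁ * s := by
  classical
  have hinj : ∀ p : Polynomial k, Polynomial.aeval s p = 0 → p = 0 :=
    fun p hp => by
      by_contra hne
      exact hs ⟨p, hne, hp⟩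
  have hd : p₁ ∣ p₀ := by
    have e1 : Polynomial.C a * p₀ ^ 2 = p₁ * (q₁ * p₀ - q₀ * p₁) := by
      have : Polynomial.C a * p₀ ^ 2 - p₁ * (q₁ * p₀ - q₀ * p₁) = 0 := by
        apply hinj
        simp only [map_sub, map_mul, map_pow, Polynomial.aeval_C]
        linear_combination (Polynomial.aeval s p₁) ^ 2 * hq +
          (algebraMap k Ω a * (Polynomial.aeval s p₀ - Polynomial.aeval s p₁ * t) -
            Polynomial.aeval s q₁ * Polynomial.aeval s p₁) * hpt
      exact sub_eq_zero.mp this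
    obtain ⟨g, b, hb⟩ : ∃ g : Polynomial k, g = EuclideanDomain.gcd p₁ p₀ ∧ True := ⟨_, rfl, trivial⟩
    have hg0 : g ≠ 0 := by
      rw [b]
      intro h
      exact hp (EuclideanDomain.gcd_eq_zero_iff.mp h).1
    obtain ⟨u, hu⟩ : g ∣ p₁ := by rw [b]; exact EuclideanDomain.gcd_dvd_left _ _
    obtain ⟨v, hv⟩ : g ∣ p₀ := by rw [b]; exact EuclideanDomain.gcd_dvd_right _ _
    have hco : IsCoprime u v := by
      have h2 := EuclideanDomain.gcd_eq_gcd_ab p₁ p₀
      rw [← b] at h2
      refine ⟨EuclideanDomain.gcdA p₁ p₀, EuclideanDomain.gcdB p₁ p₀, ?_⟩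
      apply mul_left_cancel₀ hg0
      rw [mul_one]
      conv_rhs => rw [h2]
      conv_rhs => rw [hu, hv]
      conv_lhs => rw [hu, hv]
      ring
    have e2 : u ∣ Polynomial.C a * v ^ 2 := by
      refine ⟨q₁ * v - q₀ * u, ?_⟩
      apply mul_left_cancel₀ (pow_ne_zero 2 hg0)
      have : g ^ 2 * (Polynomial.C a * v ^ 2) = Polynomial.C a * p₀ ^ 2 := by rw [hv]; ring
      rw [this, e1, hu, hv]
      ring
    have e3 : u ∣ Polynomial.C a := (hco.pow_right).dvd_of_dvd_mul_right e2
    have e4 : IsUnit u := isUnit_of_dvd_unit e3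
      (Polynomial.isUnit_C.mpr (isUnit_iff_ne_zero.mpr ha))
    rw [hu, hv]
    exact mul_dvd_mul_left g (e4.dvd)
  obtain ⟨r, hr⟩ := hd
  have hp1 : Polynomial.aeval s p₁ ≠ 0 := fun h => hp (hinj _ h)
  have ht : t = Polynomial.aeval s (-r) := by
    apply mul_left_cancel₀ hp1
    rw [hr, map_mul] at hpt
    rw [map_neg]
    linear_combination hpt
  have hrq : Polynomial.C a * r ^ 2 = q₁ * r - q₀ := by
    have : Polynomial.C a * r ^ 2 - (q₁ * r - q₀) = 0 := by
      apply hinj
      rw [ht] at hq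
      simp only [map_sub, map_mul, map_pow, Polynomial.aeval_C, map_neg] at hq ⊢
      linear_combination hq
    exact sub_eq_zero.mp this
  have hdeg : r.natDegree ≤ 1 := by
    by_contra hc
    push Not at hc
    have h3 : (Polynomial.C a * r ^ 2).natDegree = 2 * r.natDegree := by
      rw [Polynomial.natDegree_C_mul ha, Polynomial.natDegree_pow]
    have h4 : (q₁ * r - q₀).natDegree ≤ max (1 + r.natDegree) 2 := by
      refine (Polynomial.natDegree_sub_le _ _).trans (max_le_max ?_ h0)
      exact Polynomial.natDegree_mul_le.trans (by omega)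
    rw [← hrq, h3] at h4
    rcases max_choice (1 + r.natDegree) 2 with h5 | h5 <;> rw [h5] at h4 <;> omega
  refine ⟨-r.coeff 0, -r.coeff 1, ?_⟩
  rw [ht, Polynomial.eq_X_add_C_of_natDegree_le_one hdeg]
  simp only [map_neg, map_add, map_mul, Polynomial.aeval_C, Polynomial.aeval_X]
  simp

/-! ### the main step -/

theorem ConicDiv_scale {k Ω σ : Type*} [Field k] [Field Ω] [Algebra k Ω] {P : MvPolynomial σ k}
    {n : ℕ} (hP : P.IsHomogeneous n) (a : Ω) (x : σ → Ω) :
    aeval (fun i => a * x i) P = a ^ n * aeval x P := by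
  conv_lhs => rw [P.as_sum]
  conv_rhs => rw [P.as_sum]
  rw [map_sum, map_sum, Finset.mul_sum]
  refine Finset.sum_congr rfl fun m hm => ?_
  have hm' : m.degree = n := by
    have := hP (mem_support_iff.mp hm)
    rw [Finsupp.degree_eq_weight_one]
    exact this
  rw [aeval_monomial, aeval_monomial, ← hm']
  have hdeg : Finsupp.degree m = ∑ i ∈ m.support, m i := rfl
  simp only [Finsupp.prod, mul_pow, Finset.prod_mul_distrib, Finset.prod_pow_eq_pow_sum, hdeg]
  ring

theorem ConicDiv_ren {k : Type*} [Field k] (r : MvPolynomial (Fin 2) k) :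
    finSuccEquiv k 2 (rename Fin.succ r) = Polynomial.C r := by
  have : ((finSuccEquiv k 2 : MvPolynomial (Fin 3) k →ₐ[k] _).comp (rename Fin.succ)) =
      (Polynomial.CAlgHom : MvPolynomial (Fin 2) k →ₐ[k] Polynomial (MvPolynomial (Fin 2) k)) := by
    ext i
    simp [finSuccEquiv_X_succ]
  exact DFunLike.congr_fun this r

theorem ConicDiv_bin {k Ω : Type*} [Field k] [Field Ω] [Algebra k Ω] (r : MvPolynomial (Fin 2) k)
    (s : Ω) :
    aeval ![s, 1] r = Polynomial.aeval s (aeval ![(Polynomial.X : Polynomial k), 1] r) := by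
  rw [← AlgHom.comp_apply, comp_aeval]
  congr 2
  funext i
  fin_cases i <;> simp

theorem ConicDiv_bin_zero {k : Type*} [Field k] {r : MvPolynomial (Fin 2) k} {n : ℕ}
    (hr : r.IsHomogeneous n) (h : aeval ![(Polynomial.X : Polynomial k), 1] r = 0) : r = 0 := by
  have := Polynomial.homogenize_eq_of_isHomogeneous hr h
  rw [← this, Polynomial.homogenize_zero]

theorem ConicDiv_bin_deg {k : Type*} [Field k] {r : MvPolynomial (Fin 2) k} {n : ℕ}
    (hr : r.IsHomogeneous n) :
    (aeval ![(Polynomial.X : Polynomial k), 1] r).natDegree ≤ n := by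
  rw [r.as_sum, map_sum]
  apply Polynomial.natDegree_sum_le_of_forall_le
  intro m hm
  have hm' : m.degree = n := by
    have := hr (mem_support_iff.mp hm)
    rw [Finsupp.degree_eq_weight_one]
    exact this
  rw [aeval_monomial, Finsupp.prod_fintype _ _ (fun i => pow_zero _), Fin.prod_univ_two]
  simp only [Matrix.cons_val_zero, Matrix.cons_val_one, one_pow, mul_one]
  have h1 : m.degree = m 0 + m 1 := by
    rw [Finsupp.degree_eq_sum, Fin.sum_univ_two]
  have h2 : (Polynomial.C (coeff m r) * Polynomial.X ^ m 0).natDegree ≤ m 0 :=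
    Polynomial.natDegree_C_mul_X_pow_le _ _
  refine le_trans h2 ?_
  omega

theorem ConicDiv_main {k Ω : Type*} [Field k] [Field Ω] [Algebra k Ω]
    (halg : ∀ y : Ω, IsAlgebraic k y → ∃ b : k, algebraMap k Ω b = y)
    (h : Fin 4 → k) (E G : Fin 3 → Fin 4 → k) (c : Fin 4 → k)
    (hc : ∀ i l, (if i = l then 1 else 0) - ∑ r, E r i * G r l = c i * h l)
    (Q F : MvPolynomial (Fin 4) k) (d : ℕ) (hQ : Q.IsHomogeneous 2) (hF : F.IsHomogeneous (d + 2))
    (hα : eval (E 0) Q ≠ 0) (x : Fin 4 → Ω) (hx0 : x 0 = 1)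
    (hx : ∑ i, algebraMap k Ω (h i) * x i = 0) (hQx : aeval x Q = 0) (hFx : aeval x F = 0) :
    (∀ i, ∃ b : k, algebraMap k Ω b = x i) ∨
    (∃ w : Fin 3 → k, w ≠ 0 ∧
      ∑ r, algebraMap k Ω (w r) * ∑ i, algebraMap k Ω (G r i) * x i = 0) ∨
    ∃ C' : MvPolynomial (Fin 3) k,
      aeval (fun i => ∑ r, C (E r i) * X r) F = aeval (fun i => ∑ r, C (E r i) * X r) Q * C' := by
  obtain ⟨φ, hφ⟩ : ∃ φ : MvPolynomial (Fin 4) k →ₐ[k] MvPolynomial (Fin 3) k,
      φ = aeval (fun i => ∑ r, C (E r i) * X r) := ⟨_, rfl⟩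
  rw [← hφ]
  obtain ⟨y, hy⟩ : ∃ y : Fin 3 → Ω, y = fun r => ∑ i, algebraMap k Ω (G r i) * x i := ⟨_, rfl⟩
  have hxy : ∀ i, x i = ∑ r, algebraMap k Ω (E r i) * y r := by
    intro i
    have h1 : ∑ l, algebraMap k Ω ((if i = l then 1 else 0) - ∑ r, E r i * G r l) * x l = 0 := by
      simp only [hc, map_mul, mul_assoc]
      rw [← Finset.mul_sum, hx, mul_zero]
    simp only [map_sub, map_sum, map_mul, sub_mul, Finset.sum_sub_distrib, Finset.sum_mul] at h1
    rw [Finset.sum_comm] at h1
    have h2 : ∑ l, algebraMap k Ω (if i = l then 1 else 0) * x l = x i := by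
      simp [apply_ite (algebraMap k Ω)]
    rw [h2] at h1
    rw [sub_eq_zero.mp h1, hy]
    refine Finset.sum_congr rfl fun r _ => ?_
    rw [Finset.mul_sum]
    refine Finset.sum_congr rfl fun l _ => ?_
    ring
  have hφx : ∀ (a : Ω) (P : MvPolynomial (Fin 4) k), aeval (fun r => a * y r) (φ P) =
      aeval (fun i => a * x i) P := by
    intro a P
    rw [hφ, ← AlgHom.comp_apply, comp_aeval]
    congr 2
    funext i
    simp only [map_sum, map_mul, aeval_C, aeval_X, hxy i, Finset.mul_sum]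
    refine Finset.sum_congr rfl fun r _ => ?_
    ring
  have hφh : ∀ (P : MvPolynomial (Fin 4) k) (n : ℕ), P.IsHomogeneous n →
      (φ P).IsHomogeneous n := by
    intro P n hP
    rw [hφ]
    have := hP.aeval (fun i => ∑ r, C (E r i) * X r) (n := 1) (fun i =>
      IsHomogeneous.sum _ _ _ fun r _ => by
        simpa using (isHomogeneous_C (Fin 3) (E r i)).mul (isHomogeneous_X k r))
    simpa using this
  by_cases hy2 : y 2 = 0
  · right
    left
    refine ⟨Pi.single 2 1, by simp, ?_⟩
    have h3 : ∀ r, ∑ i, algebraMap k Ω (G r i) * x i = y r := fun r => by rw [hy]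
    simp only [h3, Fin.sum_univ_three]
    simp [hy2]
  obtain ⟨t, ht⟩ : ∃ t, t = (y 2)⁻¹ * y 0 := ⟨_, rfl⟩
  obtain ⟨s, hs⟩ : ∃ s, s = (y 2)⁻¹ * y 1 := ⟨_, rfl⟩
  have hz : (fun r => (y 2)⁻¹ * y r) = ![t, s, 1] := by
    funext r
    fin_cases r
    · simp [ht]
    · simp [hs]
    · simp [hy2]
  have hzs : (![t, s, 1] : Fin 3 → Ω) ∘ Fin.succ = ![s, 1] := by
    funext r
    fin_cases r <;> rfl
  have hQz : aeval ![t, s, 1] (φ Q) = 0 := by
    rw [← hz, hφx, ConicDiv_scale hQ, hQx, mul_zero]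
  have hFz : aeval ![t, s, 1] (φ F) = 0 := by
    rw [← hz, hφx, ConicDiv_scale hF, hFx, mul_zero]
  -- the conic
  have hQ' := hφh Q 2 hQ
  have hF' := hφh F (d + 2) hF
  obtain ⟨q, hq⟩ : ∃ q, q = finSuccEquiv k 2 (φ Q) := ⟨_, rfl⟩
  obtain ⟨f, hf⟩ : ∃ f, f = finSuccEquiv k 2 (φ F) := ⟨_, rfl⟩
  have hqd : q.natDegree ≤ 2 := by
    rw [hq, natDegree_finSuccEquiv]
    exact (degreeOf_le_totalDegree _ _).trans hQ'.totalDegree_le
  have hq0 : (q.coeff 0).IsHomogeneous 2 := by
    rw [hq]
    exact hQ'.finSuccEquiv_coeff_isHomogeneous 0 2 rfl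
  have hq1 : (q.coeff 1).IsHomogeneous 1 := by
    rw [hq]
    exact hQ'.finSuccEquiv_coeff_isHomogeneous 1 1 rfl
  have hq2 : (q.coeff 2).IsHomogeneous 0 := by
    rw [hq]
    exact hQ'.finSuccEquiv_coeff_isHomogeneous 2 0 rfl
  obtain ⟨α, hα'⟩ : ∃ α, q.coeff 2 = C α :=
    ⟨_, totalDegree_eq_zero_iff_eq_C.mp
      ((totalDegree_zero_iff_isHomogeneous (p := q.coeff 2)).mpr hq2)⟩
  have hqq : q = Polynomial.C (q.coeff 0) + Polynomial.C (q.coeff 1) * Polynomial.X +
      Polynomial.C (C α) * Polynomial.X ^ 2 := by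
    conv_lhs => rw [q.as_sum_range_C_mul_X_pow' (show q.natDegree < 3 by omega)]
    rw [Finset.sum_range_succ, Finset.sum_range_succ, Finset.sum_range_succ, Finset.sum_range_zero,
      hα']
    ring
  have hφQ : φ Q = rename Fin.succ (q.coeff 0) + rename Fin.succ (q.coeff 1) * X 0 +
      C α * X 0 ^ 2 := by
    apply (finSuccEquiv k 2).injective
    rw [← hq]
    simp only [map_add, map_mul, map_pow, ConicDiv_ren, finSuccEquiv_X_zero]
    conv_lhs => rw [hqq]
    congr 2
    have := ConicDiv_ren (k := k) (C α)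
    rw [rename_C] at this
    exact this.symm
  have hαe : α = eval (E 0) Q := by
    have h1 : aeval ![(1 : k), 0, 0] (φ Q) = eval (E 0) Q := by
      have h0 : eval (E 0) Q = aeval (E 0) Q := by
        rw [← coe_aeval_eq_eval]
        rfl
      rw [h0, hφ, ← AlgHom.comp_apply, comp_aeval]
      congr 2
      funext i
      simp [Fin.sum_univ_three]
    have h2 : ∀ (r : MvPolynomial (Fin 2) k) (n : ℕ), r.IsHomogeneous (n + 1) →
        aeval ![(1 : k), 0, 0] (rename Fin.succ r) = 0 := by
      intro r n hr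
      rw [aeval_rename]
      have h3 : (![(1 : k), 0, 0] : Fin 3 → k) ∘ Fin.succ = fun i => (0 : k) * (fun _ => (1 : k)) i := by
        funext i
        fin_cases i <;> simp
      rw [h3, ConicDiv_scale hr]
      simp
    rw [← h1, hφQ, map_add, map_add, map_mul, h2 _ 1 hq0, h2 _ 0 hq1]
    simp
  have hα0 : α ≠ 0 := by
    rw [hαe]
    exact hα
  obtain ⟨qm, hqm⟩ : ∃ qm, qm = Polynomial.C (C α⁻¹) * q := ⟨_, rfl⟩
  have hmon : qm.Monic := by
    apply Polynomial.monic_of_natDegree_le_of_coeff_eq_one 2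
    · rw [hqm]
      refine Polynomial.natDegree_mul_le.trans ?_
      rw [Polynomial.natDegree_C]
      omega
    · rw [hqm, Polynomial.coeff_C_mul, hα', ← C_mul, inv_mul_cancel₀ hα0, C_1]
  have hdiv : f %ₘ qm + qm * (f /ₘ qm) = f := Polynomial.modByMonic_add_div f qm
  have hrd : (f %ₘ qm).natDegree ≤ 1 := by
    have h1 : qm.natDegree ≤ 2 := by
      rw [hqm]
      refine Polynomial.natDegree_mul_le.trans ?_
      rw [Polynomial.natDegree_C]
      omega
    have h2 : (f %ₘ qm).degree < 2 := by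
      refine (Polynomial.degree_modByMonic_lt f hmon).trans_le ?_
      exact Polynomial.degree_le_of_natDegree_le h1
    rcases eq_or_ne (f %ₘ qm) 0 with h3 | h3
    · rw [h3, Polynomial.natDegree_zero]
      omega
    · have h4 := (Polynomial.natDegree_lt_iff_degree_lt (n := 2) h3).mpr (by exact_mod_cast h2)
      omega
  obtain ⟨r₀, hr₀⟩ : ∃ r, r = (f %ₘ qm).coeff 0 := ⟨_, rfl⟩
  obtain ⟨r₁, hr₁⟩ : ∃ r, r = (f %ₘ qm).coeff 1 := ⟨_, rfl⟩
  have hrr : f %ₘ qm = Polynomial.C r₁ * Polynomial.X + Polynomial.C r₀ := by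
    rw [hr₀, hr₁]
    exact Polynomial.eq_X_add_C_of_natDegree_le_one hrd
  obtain ⟨D, hD⟩ : ∃ D, D = f /ₘ qm := ⟨_, rfl⟩
  rw [← hD, hrr] at hdiv
  obtain ⟨E', hE'⟩ : ∃ E', finSuccEquiv k 2 E' = Polynomial.C (C α⁻¹) * D :=
    (finSuccEquiv k 2).surjective _
  have hFd : φ F = φ Q * E' + rename Fin.succ r₀ + X 0 * rename Fin.succ r₁ := by
    apply (finSuccEquiv k 2).injective
    simp only [map_add, map_mul, ConicDiv_ren, finSuccEquiv_X_zero, hE', ← hq, ← hf]
    rw [hqm] at hdiv
    linear_combination -hdiv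
  obtain ⟨R₀, hR₀⟩ : ∃ R, R = homogeneousComponent (d + 2) r₀ := ⟨_, rfl⟩
  obtain ⟨R₁, hR₁⟩ : ∃ R, R = homogeneousComponent (d + 1) r₁ := ⟨_, rfl⟩
  obtain ⟨C', hC'⟩ : ∃ C', C' = homogeneousComponent d E' := ⟨_, rfl⟩
  have hR0h : R₀.IsHomogeneous (d + 2) := by
    rw [hR₀]
    exact homogeneousComponent_isHomogeneous _ _
  have hR1h : R₁.IsHomogeneous (d + 1) := by
    rw [hR₁]
    exact homogeneousComponent_isHomogeneous _ _
  have hFh : φ F = φ Q * C' + rename Fin.succ R₀ + X 0 * rename Fin.succ R₁ := by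
    have h1 := congrArg (homogeneousComponent (d + 2)) hFd
    rw [homogeneousComponent_eq_self hF', map_add, map_add, ← rename_homogeneousComponent,
      ← hR₀] at h1
    rw [h1, show d + 2 = 2 + d by omega, ConicDiv_comp hQ', ← hC',
      show 2 + d = 1 + (d + 1) by omega, ConicDiv_comp (isHomogeneous_X k 0),
      ← rename_homogeneousComponent, ← hR₁]
  obtain ⟨p₀, hp₀⟩ : ∃ p, p = aeval ![(Polynomial.X : Polynomial k), 1] R₀ := ⟨_, rfl⟩
  obtain ⟨p₁, hp₁⟩ : ∃ p, p = aeval ![(Polynomial.X : Polynomial k), 1] R₁ := ⟨_, rfl⟩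
  obtain ⟨c₀, hc₀⟩ : ∃ p, p = aeval ![(Polynomial.X : Polynomial k), 1] (q.coeff 0) := ⟨_, rfl⟩
  obtain ⟨c₁, hc₁⟩ : ∃ p, p = aeval ![(Polynomial.X : Polynomial k), 1] (q.coeff 1) := ⟨_, rfl⟩
  have eF : Polynomial.aeval s p₀ + Polynomial.aeval s p₁ * t = 0 := by
    have h1 := hFz
    rw [hFh, map_add, map_add, map_mul, map_mul, hQz, zero_mul, aeval_rename, aeval_rename, hzs,
      ConicDiv_bin, ConicDiv_bin, ← hp₀, ← hp₁, aeval_X] at h1
    simp only [Matrix.cons_val_zero] at h1
    linear_combination h1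
  have eQ : algebraMap k Ω α * t ^ 2 + Polynomial.aeval s c₁ * t + Polynomial.aeval s c₀ = 0 := by
    have h1 := hQz
    rw [hφQ, map_add, map_add, map_mul, map_mul, map_pow, aeval_rename, aeval_rename, hzs,
      ConicDiv_bin, ConicDiv_bin, ← hc₀, ← hc₁, aeval_X, aeval_C] at h1
    simp only [Matrix.cons_val_zero] at h1
    linear_combination h1
  by_cases hsa : IsAlgebraic k s
  · left
    obtain ⟨s', hs'⟩ := halg s hsa
    have hta : IsAlgebraic k t := by
      refine ⟨Polynomial.C α * Polynomial.X ^ 2 + Polynomial.C (Polynomial.eval s' c₁) *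
        Polynomial.X + Polynomial.C (Polynomial.eval s' c₀), ?_, ?_⟩
      · intro hp
        have h1 := congrArg (fun p => Polynomial.coeff p 2) hp
        simp only [Polynomial.coeff_add, Polynomial.coeff_C_mul,
          Polynomial.coeff_X_pow, Polynomial.coeff_X, Polynomial.coeff_C] at h1
        norm_num at h1
        exact hα0 h1
      · simp only [map_add, map_mul, map_pow, Polynomial.aeval_C, Polynomial.aeval_X]
        have h2 : ∀ p : Polynomial k, algebraMap k Ω (Polynomial.eval s' p) =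
            Polynomial.aeval s p := by
          intro p
          rw [← hs', Polynomial.aeval_algebraMap_apply, Polynomial.coe_aeval_eq_eval]
        rw [h2, h2]
        exact eQ
    obtain ⟨t', ht'⟩ := halg t hta
    have hxi : ∀ i, x i = y 2 * algebraMap k Ω (E 0 i * t' + E 1 i * s' + E 2 i) := by
      intro i
      rw [hxy i, Fin.sum_univ_three, map_add, map_add, map_mul, map_mul, ht', hs', ht, hs]
      field_simp
    have h1 : y 2 = algebraMap k Ω (E 0 0 * t' + E 1 0 * s' + E 2 0)⁻¹ := by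
      have h2 := hxi 0
      rw [hx0] at h2
      rw [map_inv₀]
      exact eq_inv_of_mul_eq_one_left h2.symm
    intro i
    exact ⟨(E 0 0 * t' + E 1 0 * s' + E 2 0)⁻¹ * (E 0 i * t' + E 1 i * s' + E 2 i), by
      rw [map_mul, ← h1, hxi i]⟩
  · right
    by_cases hp1 : p₁ = 0
    · right
      refine ⟨C', ?_⟩
      have hp0 : p₀ = 0 := by
        rw [hp1, map_zero, zero_mul, add_zero] at eF
        by_contra hne
        exact hsa ⟨p₀, hne, eF⟩
      have e0 := ConicDiv_bin_zero hR0h (hp₀ ▸ hp0)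
      have e1 := ConicDiv_bin_zero hR1h (hp₁ ▸ hp1)
      rw [hFh, e0, e1]
      simp
    · left
      obtain ⟨b₀, b₁, hb⟩ := ConicDiv_one hα0 (q₀ := c₀) (q₁ := c₁)
        (hc₁ ▸ ConicDiv_bin_deg hq1) (hc₀ ▸ ConicDiv_bin_deg hq0) (show Transcendental k s from hsa)
        hp1 eQ eF
      refine ⟨![1, -b₁, -b₀], ?_, ?_⟩
      · intro h1
        have := congrFun h1 0
        simp at this
      · have h3 : ∀ r, ∑ i, algebraMap k Ω (G r i) * x i = y r := fun r => by rw [hy]
        simp only [h3, Fin.sum_univ_three]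
        simp only [Matrix.cons_val_zero, Matrix.cons_val_one, Matrix.cons_val_two, map_one,
          map_neg, Matrix.head_cons, Matrix.tail_cons]
        rw [ht, hs] at hb
        have : y 0 = y 2 * ((y 2)⁻¹ * y 0) := by field_simp
        rw [this, hb]
        field_simp
        ring

/-! ### assembly -/

theorem ConicDiv_lift {Ω σ : Type*} [Field Ω] {B : Subfield Ω} {P : MvPolynomial σ Ω}
    (hP : RatP B P) : ∃ P' : MvPolynomial σ B, map (algebraMap B Ω) P' = P := by
  refine ⟨∑ m ∈ P.support, monomial m ⟨coeff m P, hP m⟩, ?_⟩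
  rw [map_sum]
  conv_rhs => rw [P.as_sum]
  refine Finset.sum_congr rfl fun m _ => ?_
  rw [map_monomial]
  rfl

theorem ConicDiv_lf_hom {Ω σ : Type*} [Field Ω] [Fintype σ] (l : σ → Ω) :
    (lf l).IsHomogeneous 1 := by
  unfold lf
  refine IsHomogeneous.sum _ _ _ fun i _ => ?_
  rw [smul_eq_C_mul]
  simpa using (isHomogeneous_C σ (l i)).mul (isHomogeneous_X Ω i)

theorem conic_div {Ω : Type*} [Field Ω] [CharZero Ω] {B : Subfield Ω}
    (halg : ∀ y : Ω, IsAlgebraic B y → y ∈ B) (x : Fin 4 → Ω) (hx0 : x 0 = 1) (h : Fin 4 → Ω)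
    (hB : ∀ i, h i ∈ B) (h0 : h ≠ 0) (hx : dt h x = 0) (Q F : MvPolynomial (Fin 4) Ω)
    (hQ : RatP B Q) (hF : RatP B F) (d : ℕ) (hQ2 : Q.IsHomogeneous 2)
    (hFd : F.IsHomogeneous (d + 2)) (hy : ∃ y, dt h y = 0 ∧ eval y Q ≠ 0) (hQx : eval x Q = 0)
    (hFx : eval x F = 0) :
    (∀ i, x i ∈ B) ∨
    (∃ h' : Fin 4 → Ω, (∀ i, h' i ∈ B) ∧ LinearIndependent Ω ![h, h'] ∧ dt h' x = 0) ∨
    ∃ A C : MvPolynomial (Fin 4) Ω, A.IsHomogeneous (d + 1) ∧ C.IsHomogeneous d ∧
      F = lf h * A + Q * C := by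
  classical
  obtain ⟨y, hy1, hy2⟩ := hy
  obtain ⟨QB, hQB⟩ := ConicDiv_lift hQ
  obtain ⟨FB, hFB⟩ := ConicDiv_lift hF
  obtain ⟨k, hk⟩ : ∃ k : Fin 4 → B, ∀ i, algebraMap B Ω (k i) = h i :=
    ⟨fun i => ⟨h i, hB i⟩, fun i => rfl⟩
  have hk0 : k ≠ 0 := by
    intro hk'
    apply h0
    funext i
    rw [← hk i, hk']
    simp
  have hinj : Function.Injective (algebraMap B Ω) := (algebraMap B Ω).injective
  have hev : ∀ (v : Fin 4 → Ω) (P : MvPolynomial (Fin 4) B),
      aeval v P = eval v (map (algebraMap B Ω) P) := by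
    intro v P
    rw [eval_map, aeval_def]
  have hQBh : QB.IsHomogeneous 2 := IsHomogeneous.of_map hinj (by rw [hQB]; exact hQ2)
  have hFBh : FB.IsHomogeneous (d + 2) := IsHomogeneous.of_map hinj (by rw [hFB]; exact hFd)
  obtain ⟨e, he1, he2⟩ := ConicDiv_vec (k := B) (Ω := Ω) k hk0 QB y
    (by simp only [hk]; exact hy1) (by rw [hev, hQB]; exact hy2)
  have he0 : e ≠ 0 := by
    intro he
    apply he2
    have h1 : eval e QB = aeval e QB := by
      rw [← coe_aeval_eq_eval]
      rfl
    have h2 : e = fun i => (0 : B) * (fun _ => (1 : B)) i := by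
      rw [he]
      funext i
      simp
    rw [h1, h2, ConicDiv_scale hQBh]
    simp
  obtain ⟨E, G, c, hE0, hE, hGE, hc⟩ := ConicDiv_basis k e hk0 he0 he1
  rcases ConicDiv_main (fun y hy => ⟨⟨y, halg y hy⟩, rfl⟩) k E G c hc QB FB d hQBh hFBh
    (by rw [hE0]; exact he2) x hx0 (by simp only [hk]; exact hx) (by rw [hev, hQB]; exact hQx)
    (by rw [hev, hFB]; exact hFx) with h1 | ⟨w, hw0, hw⟩ | ⟨C', hC'⟩
  · left
    intro i
    obtain ⟨b, hb⟩ := h1 i
    rw [← hb]
    exact b.2
  · right
    left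
    refine ⟨fun i => algebraMap B Ω (∑ r, w r * G r i), fun i => (∑ r, w r * G r i).2, ?_, ?_⟩
    · rw [LinearIndependent.pair_iff]
      intro s t hst
      have h2 : ∀ l, t * algebraMap B Ω (w l) = 0 := by
        intro l
        have h3 : ∑ i, (s • h + t • fun i => algebraMap B Ω (∑ r, w r * G r i)) i *
            algebraMap B Ω (E l i) = 0 := by
          rw [hst]
          simp
        have h4 : ∑ i, h i * algebraMap B Ω (E l i) = 0 := by
          have := congrArg (algebraMap B Ω) (hE l)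
          simp only [map_sum, map_mul, hk, map_zero] at this
          exact this
        have h5 : ∑ i, algebraMap B Ω (∑ r, w r * G r i) * algebraMap B Ω (E l i) =
            algebraMap B Ω (w l) := by
          simp only [← map_mul, ← map_sum]
          congr 1
          simp only [Finset.sum_mul, mul_assoc]
          rw [Finset.sum_comm]
          simp only [← Finset.mul_sum, hGE]
          simp
        simp only [Pi.add_apply, Pi.smul_apply, smul_eq_mul, add_mul, Finset.sum_add_distrib,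
          mul_assoc] at h3
        rw [← Finset.mul_sum, ← Finset.mul_sum, h4, h5, mul_zero, zero_add] at h3
        exact h3
      obtain ⟨l, hl⟩ : ∃ l, w l ≠ 0 := by
        by_contra hcon
        push Not at hcon
        exact hw0 (funext hcon)
      have ht : t = 0 := by
        rcases mul_eq_zero.mp (h2 l) with h3 | h3
        · exact h3
        · exact absurd ((map_eq_zero _).mp h3) hl
      refine ⟨?_, ht⟩
      rw [ht, zero_smul, add_zero] at hst
      rcases smul_eq_zero.mp hst with h3 | h3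
      · exact h3
      · exact absurd h3 h0
    · unfold dt
      rw [← hw]
      simp only [map_sum, map_mul, Finset.sum_mul, Finset.mul_sum, mul_assoc]
      rw [Finset.sum_comm]
  · right
    right
    obtain ⟨lam, hlam⟩ : ∃ lam : MvPolynomial (Fin 3) B →+* MvPolynomial (Fin 4) Ω,
        lam = eval₂Hom (C.comp (algebraMap B Ω)) (fun r => lf fun i => algebraMap B Ω (G r i)) :=
      ⟨_, rfl⟩
    obtain ⟨I, hI⟩ : ∃ I : Ideal (MvPolynomial (Fin 4) Ω), I = Ideal.span {lf h} := ⟨_, rfl⟩
    obtain ⟨φ, hφ⟩ : ∃ φ : MvPolynomial (Fin 4) B →ₐ[B] MvPolynomial (Fin 3) B,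
        φ = aeval (fun i => ∑ r, C (E r i) * X r) := ⟨_, rfl⟩
    rw [← hφ] at hC'
    have hX : ∀ i : Fin 4, (X i : MvPolynomial (Fin 4) Ω) -
        ∑ r, C (algebraMap B Ω (E r i)) * lf (fun l => algebraMap B Ω (G r l)) =
        C (algebraMap B Ω (c i)) * lf h := by
      intro i
      have h1 : (X i : MvPolynomial (Fin 4) Ω) =
          ∑ l, C (algebraMap B Ω (if i = l then 1 else 0)) * X l := by
        simp [apply_ite (algebraMap B Ω), apply_ite (C : Ω → MvPolynomial (Fin 4) Ω)]
      have h2 : ∀ l, C (algebraMap B Ω (if i = l then 1 else 0)) * (X l : MvPolynomial (Fin 4) Ω) =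
          C (algebraMap B Ω (c i * k l)) * X l +
            ∑ r, C (algebraMap B Ω (E r i * G r l)) * X l := by
        intro l
        rw [← hc i l, ← Finset.sum_mul, ← add_mul, ← map_sum, ← map_sum, ← map_add, ← map_add]
        congr 3
        ring
      rw [h1]
      simp only [h2, Finset.sum_add_distrib]
      rw [Finset.sum_comm]
      unfold lf
      simp only [smul_eq_C_mul, Finset.mul_sum, map_mul, ← hk, mul_assoc]
      ring
    have hmod : ∀ P : MvPolynomial (Fin 4) B, map (algebraMap B Ω) P - lam (φ P) ∈ I := by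
      intro P
      rw [← Ideal.Quotient.eq_zero_iff_mem, map_sub, sub_eq_zero]
      have h1 : (Ideal.Quotient.mk I).comp (map (algebraMap B Ω)) =
          (Ideal.Quotient.mk I).comp (lam.comp (φ : MvPolynomial (Fin 4) B →+* _)) := by
        apply MvPolynomial.ringHom_ext
        · intro r
          simp [hlam, hφ]
        · intro i
          simp only [RingHom.comp_apply, map_X, RingHom.coe_coe, hφ, aeval_X]
          rw [← sub_eq_zero, ← map_sub, Ideal.Quotient.eq_zero_iff_mem, hI]
          have h2 : lam (∑ r, C (E r i) * X r) =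
              ∑ r, C (algebraMap B Ω (E r i)) * lf (fun l => algebraMap B Ω (G r l)) := by
            rw [hlam]
            simp
          rw [h2, hX i]
          exact Ideal.mul_mem_left _ _ (Ideal.mem_span_singleton_self _)
      exact DFunLike.congr_fun h1 P
    have h3 : F - Q * lam C' ∈ I := by
      have e1 := hmod FB
      have e2 := hmod QB
      rw [hFB, hC', map_mul] at e1
      rw [hQB] at e2
      have e3 := I.add_mem e1 (I.mul_mem_left (-lam C') e2)
      have e4 : F - lam (φ QB) * lam C' + -lam C' * (Q - lam (φ QB)) = F - Q * lam C' := by ring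
      rwa [e4] at e3
    rw [hI, Ideal.mem_span_singleton] at h3
    obtain ⟨A, hA⟩ := h3
    refine ⟨homogeneousComponent (d + 1) A, homogeneousComponent d (lam C'),
      homogeneousComponent_isHomogeneous _ _, homogeneousComponent_isHomogeneous _ _, ?_⟩
    have h4 : F = lf h * A + Q * lam C' := by linear_combination hA
    have h5 := congrArg (homogeneousComponent (d + 2)) h4
    rw [homogeneousComponent_eq_self hFd, map_add, show d + 2 = 1 + (d + 1) by omega,
      ConicDiv_comp (ConicDiv_lf_hom h), show 1 + (d + 1) = 2 + d by omega,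
      ConicDiv_comp hQ2] at h5
    exact h5

end Pool.Agent.Helper6.QS

end
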