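import Pool.Agent.Helper74.MG.T64
import Pool.Agent.Helper74.MG.T65

section

/-!
# Q8: generic octic fourfolds, definitions

The degree `q` is a VARIABLE in all statements (`q = 8` is a field of `Pt8`): with the numeral `8`
the kernel and the unifier try to enumerate `Sym (Fin 6) 8`. Keep it a variable in all proofs.

`dl D x P l` is the derivative of the point `x` in the direction `P l`, `l` a linear form.
`vol D x` is the determinant with first rows `x` and `D_(X_0^q) x`: a volume form on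
`U = n^⊥ / x` (dimension 4). `rr x j b`: the coefficients of the linear form `x_j X_b - x_b X_j`.
-/

set_option autoImplicit false

namespace Pool.Agent.Helper74.Q8

open scoped BigOperators
open MvPolynomial
open Pool.Agent.Helper8.LG (Bdd form mon)
open Pool.Agent.Helper49.LN (cP mo hf pl)
open Pool.Agent.Helper6.QS

section general

variable {Ω : Type*} [Field Ω] {σ : Type*} [Fintype σ] [DecidableEq σ] {q : ℕ}

/-- the derivative of `x` in the direction `P l` -/
noncomputable def dl (D : Sym σ q → Derivation ℤ Ω Ω) (x : σ → Ω)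
    (P : MvPolynomial σ Ω) (l : σ → Ω) : σ → Ω := dv D x (P * lf l)

theorem dl_add (D : Sym σ q → Derivation ℤ Ω Ω) (x : σ → Ω) (P P' : MvPolynomial σ Ω)
    (l : σ → Ω) : dl D x (P + P') l = dl D x P l + dl D x P' l := by
  unfold dl
  rw [add_mul, map_add]

theorem dl_smul (D : Sym σ q → Derivation ℤ Ω Ω) (x : σ → Ω) (c : Ω) (P : MvPolynomial σ Ω)
    (l : σ → Ω) : dl D x (c • P) l = c • dl D x P l := by
  unfold dl
  rw [smul_mul_assoc, map_smul]

omit [DecidableEq σ] in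
theorem lf_add' (l l' : σ → Ω) : (lf (l + l') : MvPolynomial σ Ω) = lf l + lf l' := by
  unfold lf
  rw [← Finset.sum_add_distrib]
  exact Finset.sum_congr rfl fun i _ => by rw [Pi.add_apply, add_smul]

omit [DecidableEq σ] in
theorem lf_smul' (c : Ω) (l : σ → Ω) : (lf (c • l) : MvPolynomial σ Ω) = c • lf l := by
  unfold lf
  rw [Finset.smul_sum]
  exact Finset.sum_congr rfl fun i _ => by rw [Pi.smul_apply, smul_eq_mul, mul_smul]

omit [DecidableEq σ] in
theorem lf_zero' : (lf (0 : σ → Ω) : MvPolynomial σ Ω) = 0 := by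
  unfold lf
  exact Finset.sum_eq_zero fun i _ => by rw [Pi.zero_apply, zero_smul]

theorem dl_add_right (D : Sym σ q → Derivation ℤ Ω Ω) (x : σ → Ω) (P : MvPolynomial σ Ω)
    (l l' : σ → Ω) : dl D x P (l + l') = dl D x P l + dl D x P l' := by
  unfold dl
  rw [lf_add', mul_add, map_add]

theorem dl_smul_right (D : Sym σ q → Derivation ℤ Ω Ω) (x : σ → Ω) (P : MvPolynomial σ Ω)
    (c : Ω) (l : σ → Ω) : dl D x P (c • l) = c • dl D x P l := by
  unfold dl
  rw [lf_smul', mul_smul_comm, map_smul]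

theorem dl_zero_right (D : Sym σ q → Derivation ℤ Ω Ω) (x : σ → Ω) (P : MvPolynomial σ Ω) :
    dl D x P (0 : σ → Ω) = 0 := by
  unfold dl
  rw [lf_zero', mul_zero, map_zero]

theorem dl_zero (D : Sym σ q → Derivation ℤ Ω Ω) (x : σ → Ω) (l : σ → Ω) :
    dl D x 0 l = 0 := by
  unfold dl
  rw [zero_mul, map_zero]

/-- the symmetry `D_((C l') l) x = D_((C l) l') x` -/
theorem dl_comm (D : Sym σ q → Derivation ℤ Ω Ω) (x : σ → Ω) (C : MvPolynomial σ Ω)
    (l l' : σ → Ω) : dl D x (C * lf l') l = dl D x (C * lf l) l' := by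
  unfold dl
  rw [mul_assoc, mul_assoc, mul_comm (lf l') (lf l)]

theorem dl_eq (D : Sym σ q → Derivation ℤ Ω Ω) (x : σ → Ω) (P : MvPolynomial σ Ω)
    (l : σ → Ω) : dl D x P l = dv D x (P * lf l) := rfl

omit [DecidableEq σ] in
theorem dt_add' (u v w : σ → Ω) : dt u (v + w) = dt u v + dt u w := by
  unfold dt
  rw [← Finset.sum_add_distrib]
  exact Finset.sum_congr rfl fun i _ => mul_add _ _ _

omit [DecidableEq σ] in
theorem dt_smul' (u v : σ → Ω) (c : Ω) : dt u (c • v) = c * dt u v := by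
  unfold dt
  rw [Finset.mul_sum]
  exact Finset.sum_congr rfl fun i _ => mul_left_comm _ _ _

omit [DecidableEq σ] in
theorem dt_comm' (u v : σ → Ω) : dt u v = dt v u := by
  unfold dt
  exact Finset.sum_congr rfl fun i _ => mul_comm _ _

omit [DecidableEq σ] in
theorem dt_zero' (u : σ → Ω) : dt u 0 = 0 := by
  unfold dt
  exact Finset.sum_eq_zero fun i _ => by rw [Pi.zero_apply, mul_zero]

omit [DecidableEq σ] in
theorem dt_sum' {ι : Type*} (s : Finset ι) (u : σ → Ω) (v : ι → σ → Ω) :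
    dt u (∑ i ∈ s, v i) = ∑ i ∈ s, dt u (v i) := by
  unfold dt
  rw [Finset.sum_comm]
  exact Finset.sum_congr rfl fun i _ => by rw [Finset.sum_apply, Finset.mul_sum]

/-- `dl D x P` as a linear map -/
noncomputable def dlm (D : Sym σ q → Derivation ℤ Ω Ω) (x : σ → Ω) (P : MvPolynomial σ Ω) :
    (σ → Ω) →ₗ[Ω] (σ → Ω) where
  toFun := dl D x P
  map_add' := dl_add_right D x P
  map_smul' := dl_smul_right D x P

theorem dlm_apply (D : Sym σ q → Derivation ℤ Ω Ω) (x : σ → Ω) (P : MvPolynomial σ Ω)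
    (l : σ → Ω) : dlm D x P l = dl D x P l := rfl

/-- the coefficients of the linear form `x_j X_b - x_b X_j` -/
def rr (x : σ → Ω) (j b : σ) (i : σ) : Ω :=
  x j * (if i = b then 1 else 0) - x b * (if i = j then 1 else 0)

/-- the 2 x 2 matrices of functionals `θ_(s,j)(D_(P l_i) x)`, `s = 0, 1` -/
noncomputable def um (D : Sym σ q → Derivation ℤ Ω Ω) (x : σ → Ω)
    (l : Fin 2 → σ → Ω) (θ : Fin 2 → Fin 2 → σ → Ω) (s : Fin 2) :
    MvPolynomial σ Ω →ₗ[Ω] Matrix (Fin 2) (Fin 2) Ω where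
  toFun P := Matrix.of fun i j => dt (θ s j) (dl D x P (l i))
  map_add' P P' := by
    ext i j
    show dt (θ s j) (dl D x (P + P') (l i)) = dt (θ s j) (dl D x P (l i)) +
      dt (θ s j) (dl D x P' (l i))
    rw [dl_add, dt_add']
  map_smul' c P := by
    ext i j
    show dt (θ s j) (dl D x (c • P) (l i)) = c * dt (θ s j) (dl D x P (l i))
    rw [dl_smul, dt_smul']

theorem um_apply (D : Sym σ q → Derivation ℤ Ω Ω) (x : σ → Ω)
    (l : Fin 2 → σ → Ω) (θ : Fin 2 → Fin 2 → σ → Ω) (s : Fin 2)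
    (P : MvPolynomial σ Ω) (i j : Fin 2) :
    um D x l θ s P i j = dt (θ s j) (dl D x P (l i)) := rfl

/-- the family of matrices: `1` and the matrices of the monomials -/
noncomputable def fam (D : Sym σ q → Derivation ℤ Ω Ω) (x : σ → Ω)
    (l : Fin 2 → σ → Ω) (θ : Fin 2 → Fin 2 → σ → Ω) :
    Option (Fin 2 × (σ →₀ ℕ)) → Matrix (Fin 2) (Fin 2) Ω
  | none => 1
  | some p => um D x l θ p.1 (monomial p.2 1)

end general

variable {Ω : Type*} [Field Ω] {q : ℕ}

/-- the volume form: the determinant with rows `x`, `D_(X_0^q) x`, `v_0`, .., `v_(m-1)`; `m = 4` -/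
noncomputable def vol {m : ℕ} (D : Sym (Fin (m + 2)) q → Derivation ℤ Ω Ω)
    (x : Fin (m + 2) → Ω) : (Fin (m + 2) → Ω) [⋀^Fin m]→ₗ[Ω] Ω :=
  ((Matrix.detRowAlternating (R := Ω) (n := Fin (m + 2))).curryLeft x).curryLeft
    (dv D x (X 0 ^ q))

theorem vol_apply {m : ℕ} (D : Sym (Fin (m + 2)) q → Derivation ℤ Ω Ω) (x : Fin (m + 2) → Ω)
    (v : Fin m → Fin (m + 2) → Ω) : vol D x v =
      Matrix.det (Matrix.of (Matrix.vecCons x (Matrix.vecCons (dv D x (X 0 ^ q)) v))) := by
  unfold vol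
  rw [AlternatingMap.curryLeft_apply_apply, AlternatingMap.curryLeft_apply_apply]
  rfl

/-- two blocks: the volume of `D_(P l) x`, `D_(P l') x`, `D_(Q m) x`, `D_(Q m') x` -/
noncomputable def T4 (D : Sym (Fin 6) q → Derivation ℤ Ω Ω) (x : Fin 6 → Ω)
    (P Q : MvPolynomial (Fin 6) Ω) (l l' m m' : Fin 6 → Ω) : Ω :=
  vol D x ![dl D x P l, dl D x P l', dl D x Q m, dl D x Q m']

/-- the point `x` and the normal vector `n` -/
structure Pt8 (D : Sym (Fin 6) q → Derivation ℤ Ω Ω) (a : Sym (Fin 6) q → Ω) (B : Subfield Ω)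
    (x n : Fin 6 → Ω) : Prop where
  hq : q = 8
  frame : Frame D a B
  one : x 0 = 1
  zero : form a x = 0
  nx : dt n x = 0
  nf : ∀ f, dt n (dv D x f) = - ev q x f

/-- **The plane case.** `k` are three rational linear forms vanishing at `x` which do not move `x`;
`l` completes them to a basis of the linear forms vanishing at `x`. -/
structure Pl8 (D : Sym (Fin 6) q → Derivation ℤ Ω Ω) (a : Sym (Fin 6) q → Ω) (B : Subfield Ω)
    (x n : Fin 6 → Ω) (k : Fin 3 → Fin 6 → Ω) (l : Fin 2 → Fin 6 → Ω) : Prop where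
  pt : Pt8 D a B x n
  kB : ∀ i j, k i j ∈ B
  kx : ∀ i, dt (k i) x = 0
  kp : ∀ P i, Par x (dl D x P (k i))
  lx : ∀ i, dt (l i) x = 0
  ind : LinearIndependent Ω (Sum.elim k l)
  span : ∀ m, dt m x = 0 → ∃ (α : Fin 3 → Ω) (β : Fin 2 → Ω), m = ∑ i, α i • k i + ∑ i, β i • l i
  rat : ∀ P Q, RatP B P → RatP B Q →
    T4 D x P Q (l 0) (l 1) (l 0) (l 1) ∈ B

/-- **The matrices.** `θ_(s,j)` are the coordinates of `U` in the basis `D_(P_1 l_0) x`,
`D_(P_1 l_1) x`, `D_(P_2 l_0) x`, `D_(P_2 l_1) x`. -/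
structure Mt8 (D : Sym (Fin 6) q → Derivation ℤ Ω Ω) (a : Sym (Fin 6) q → Ω) (B : Subfield Ω)
    (x n : Fin 6 → Ω) (k : Fin 3 → Fin 6 → Ω) (l : Fin 2 → Fin 6 → Ω)
    (θ : Fin 2 → Fin 2 → Fin 6 → Ω) (P1 P2 : MvPolynomial (Fin 6) Ω) : Prop where
  pl : Pl8 D a B x n k l
  r1 : RatP B P1
  r2 : RatP B P2
  tx : ∀ s j, dt (θ s j) x = 0
  tp : ∀ v, dt n v = 0 → (∀ s j, dt (θ s j) v = 0) → Par x v
  a1 : um D x l θ 0 P1 = 1
  c1 : um D x l θ 1 P1 = 0
  a2 : um D x l θ 0 P2 = 0
  c2 : um D x l θ 1 P2 = 1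
  det : ∀ P Q, RatP B P → RatP B Q → (Matrix.fromBlocks (um D x l θ 0 P) (um D x l θ 1 P)
    (um D x l θ 0 Q) (um D x l θ 1 Q)).det ∈ B

end Pool.Agent.Helper74.Q8

end

section

/-!
# Q8-VOL: the volume form on `U = n^⊥ / x`

`vol_tan`: `ev_lf` with `q = 7 + 1`. `vol_par`: two proportional rows. `vol_ne`: `x, v_i` span
`n^⊥` and `n . D_(X_0^q) x = - x_0^q = - 1`, so the six rows are independent.
`vol_coord`: the six rows `x, D_(X_0^q) x, w_i` form a basis; `θ_j . v = vol (update w j v) / vol w`;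
for `v` in `n^⊥` the coefficient of `D_(X_0^q) x` is zero, so `v - ∑ (θ_j . v) w_j` is a multiple of
`x`; multilinearity gives the last formula (`AlternatingMap`, Leibniz formula of `det`).
Keep `q` a variable (see `Defs`).
-/

set_option autoImplicit false

namespace Pool.Agent.Helper74.Q8

open scoped BigOperators
open MvPolynomial
open Pool.Agent.Helper8.LG (Bdd form mon)
open Pool.Agent.Helper49.LN (cP mo hf pl)
open Pool.Agent.Helper6.QS

section general

variable {Ω : Type*} [Field Ω] {σ : Type*} [Fintype σ] [DecidableEq σ] {q : ℕ}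

theorem vol_ev_lf (k : ℕ) (hk : q = k + 1) (x l : σ → Ω) (P : MvPolynomial σ Ω)
    (hl : dt l x = 0) : ev q x (P * lf l) = 0 := by
  subst hk
  rw [ev_lf, hl, mul_zero]

theorem vol_ev_pow (x : σ → Ω) (i : σ) : ev q x (X i ^ q) = x i ^ q := by
  have h1 : (X i ^ q : MvPolynomial σ Ω).IsHomogeneous q := by
    have h2 := (isHomogeneous_X Ω i).pow q
    rwa [one_mul] at h2
  rw [ev_hom q x _ h1, map_pow, eval_X]

omit [DecidableEq σ] in
theorem vol_dt_sub (u v w : σ → Ω) : dt u (v - w) = dt u v - dt u w := by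
  unfold dt
  rw [← Finset.sum_sub_distrib]
  exact Finset.sum_congr rfl fun i _ => mul_sub _ _ _

/-- expansion along a first row `e_0` -/
theorem vol_det_row {m : ℕ} (A : Matrix (Fin (m + 1)) (Fin (m + 1)) Ω)
    (h : ∀ j, A 0 j = if j = 0 then 1 else 0) :
    A.det = (A.submatrix Fin.succ Fin.succ).det := by
  rw [Matrix.det_succ_row_zero, Finset.sum_eq_single 0]
  · rw [h 0, if_pos rfl]
    simp
  · intro j _ hj
    rw [h j, if_neg hj]
    simp
  · intro h0
    exact absurd (Finset.mem_univ _) h0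

/-- the determinant of a matrix with two prescribed rows -/
theorem vol_det {m : ℕ} (x y : Fin (m + 2) → Ω) (w v : Fin m → Fin (m + 2) → Ω)
    (W : Matrix (Fin (m + 2)) (Fin (m + 2)) Ω)
    (hW : W = Matrix.of (Matrix.vecCons x (Matrix.vecCons y w))) (h0 : W.det ≠ 0) :
    Matrix.det (Matrix.of (Matrix.vecCons x (Matrix.vecCons y v))) =
      W.det * Matrix.det (Matrix.of fun i j => dt (fun l => W⁻¹ l j.succ.succ) (v i)) := by
  have hu : IsUnit W.det := isUnit_iff_ne_zero.2 h0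
  have h1 : W * W⁻¹ = 1 := Matrix.mul_nonsing_inv W hu
  have h2 : W⁻¹ * W = 1 := Matrix.nonsing_inv_mul W hu
  obtain ⟨V, hV⟩ : ∃ V, V = Matrix.of (Matrix.vecCons x (Matrix.vecCons y v)) := ⟨_, rfl⟩
  rw [← hV]
  have h3 : V = (V * W⁻¹) * W := by rw [Matrix.mul_assoc, h2, Matrix.mul_one]
  have hrow0 : ∀ j, (V * W⁻¹) 0 j = if j = 0 then 1 else 0 := by
    intro j
    have e : (V * W⁻¹) 0 j = (W * W⁻¹) 0 j := by
      rw [Matrix.mul_apply, Matrix.mul_apply]
      refine Finset.sum_congr rfl fun l _ => ?_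
      rw [hV, hW]
      rfl
    rw [e, h1, Matrix.one_apply]
    exact if_congr ⟨Eq.symm, Eq.symm⟩ rfl rfl
  have hrow1 : ∀ j : Fin (m + 1), ((V * W⁻¹).submatrix Fin.succ Fin.succ) 0 j =
      if j = 0 then 1 else 0 := by
    intro j
    have e : ((V * W⁻¹).submatrix Fin.succ Fin.succ) 0 j = (W * W⁻¹) 1 j.succ := by
      rw [Matrix.submatrix_apply, Matrix.mul_apply, Matrix.mul_apply]
      refine Finset.sum_congr rfl fun l _ => ?_
      rw [hV, hW]
      rfl
    rw [e, h1, Matrix.one_apply]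
    refine if_congr ?_ rfl rfl
    constructor
    · intro h
      have h' : (Fin.succ (0 : Fin (m + 1))) = j.succ := h
      exact (Fin.succ_injective _ h').symm
    · intro h
      rw [h]
      rfl
  conv_lhs => rw [h3]
  rw [Matrix.det_mul, vol_det_row _ hrow0, vol_det_row _ hrow1, mul_comm]
  congr 1
  congr 1
  ext i j
  rw [Matrix.submatrix_apply, Matrix.submatrix_apply, Matrix.mul_apply, Matrix.of_apply]
  unfold dt
  refine Finset.sum_congr rfl fun l _ => ?_
  rw [hV, mul_comm]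
  rfl

end general

variable {Ω : Type*} [Field Ω] [CharZero Ω] {q : ℕ} {D : Sym (Fin 6) q → Derivation ℤ Ω Ω}
  {a : Sym (Fin 6) q → Ω} {B : Subfield Ω} {x n : Fin 6 → Ω}

/-- derivatives in directions vanishing at `x` are orthogonal to `n` -/
theorem vol_tan (h : Pt8 D a B x n) (P : MvPolynomial (Fin 6) Ω) (l : Fin 6 → Ω)
    (hl : dt l x = 0) : dt n (dl D x P l) = 0 := by
  rw [dl_eq, h.nf, vol_ev_lf 7 h.hq x l P hl, neg_zero]

theorem vol_w0 (h : Pt8 D a B x n) : dt n (dv D x (X 0 ^ q)) = -1 := by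
  rw [h.nf, vol_ev_pow, h.one, one_pow]

theorem vol_par (v : Fin 4 → Fin 6 → Ω) (i : Fin 4) (hi : Par x (v i)) : vol D x v = 0 := by
  obtain ⟨c, hc⟩ := hi
  have h1 : v = Function.update v i (c • x) := by
    rw [← hc, Function.update_eq_self]
  rw [h1, AlternatingMap.map_update_smul, vol_apply]
  have h2 : Matrix.det (Matrix.of (Matrix.vecCons x
      (Matrix.vecCons (dv D x (X 0 ^ q)) (Function.update v i x)))) = 0 := by
    refine Matrix.det_zero_of_row_eq (i := 0) (j := i.succ.succ) (Fin.succ_ne_zero _).symm ?_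
    show x = Function.update v i x i
    rw [Function.update_self]
  rw [h2, smul_zero]

theorem vol_ne (h : Pt8 D a B x n) (v : Fin 4 → Fin 6 → Ω) (hv : ∀ i, dt n (v i) = 0)
    (hlin : LinearIndependent Ω (Matrix.vecCons x v)) : vol D x v ≠ 0 := by
  rw [vol_apply]
  obtain ⟨w0, hw0⟩ : ∃ w0, w0 = dv D x (X 0 ^ q) := ⟨_, rfl⟩
  have h0 : dt n w0 = -1 := by rw [hw0]; exact vol_w0 h
  rw [← hw0]
  intro hdet
  obtain ⟨c, hc0, hc⟩ := Matrix.exists_vecMul_eq_zero_iff.2 hdet
  have h1 : c 0 • x + (c 1 • w0 + ∑ i : Fin 4, c i.succ.succ • v i) = 0 := by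
    have h2 : Matrix.vecMul c (Matrix.of (Matrix.vecCons x (Matrix.vecCons w0 v))) =
        ∑ i : Fin 6, c i • (Matrix.of (Matrix.vecCons x (Matrix.vecCons w0 v))) i := by
      funext l
      rw [Matrix.vecMul, Finset.sum_apply]
      rfl
    rw [h2, Fin.sum_univ_succ, Fin.sum_univ_succ] at hc
    exact hc
  have h3 : c 1 = 0 := by
    have h4 : dt n (c 0 • x + (c 1 • w0 + ∑ i : Fin 4, c i.succ.succ • v i)) = 0 := by
      rw [h1, dt_zero']
    rw [dt_add', dt_add', dt_smul', dt_smul', dt_sum', h.nx, h0, Finset.sum_eq_zero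
      (fun i _ => by rw [dt_smul', hv i, mul_zero])] at h4
    linear_combination -h4
  have h5 : ∑ i : Fin 5, (Fin.cons (c 0) (fun i : Fin 4 => c i.succ.succ) : Fin 5 → Ω) i •
      (Matrix.vecCons x v) i = 0 := by
    rw [Fin.sum_univ_succ]
    have h6 : c 0 • x + ∑ i : Fin 4, c i.succ.succ • v i = 0 := by
      rw [h3, zero_smul, zero_add] at h1
      exact h1
    exact h6
  have h7 := Fintype.linearIndependent_iff.1 hlin _ h5
  apply hc0
  funext i
  refine Fin.cases ?_ (fun i => ?_) i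
  · exact h7 0
  · refine Fin.cases ?_ (fun i => ?_) i
    · exact h3
    · exact h7 i.succ

/-- the coordinates of `U` in a basis `w` -/
theorem vol_coord (h : Pt8 D a B x n) (w : Fin 4 → Fin 6 → Ω) (hw : ∀ i, dt n (w i) = 0)
    (h0 : vol D x w ≠ 0) :
    ∃ θ : Fin 4 → Fin 6 → Ω, (∀ j, dt (θ j) x = 0) ∧
      (∀ i j, dt (θ j) (w i) = if i = j then 1 else 0) ∧
      (∀ v, dt n v = 0 → Par x (v - ∑ j, dt (θ j) v • w j)) ∧
      (∀ v, dt n v = 0 → (∀ j, dt (θ j) v = 0) → Par x v) ∧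
      ∀ v : Fin 4 → Fin 6 → Ω, (∀ i, dt n (v i) = 0) →
        vol D x v = vol D x w * Matrix.det (Matrix.of fun i j => dt (θ j) (v i)) := by
  have hw0' : dt n (dv D x (X 0 ^ q)) = -1 := vol_w0 h
  rw [vol_apply] at h0
  simp only [vol_apply]
  obtain ⟨w0, hw0⟩ : ∃ w0, w0 = dv D x (X 0 ^ q) := ⟨_, rfl⟩
  rw [← hw0] at hw0' h0 ⊢
  obtain ⟨W, hW⟩ : ∃ W, W = Matrix.of (Matrix.vecCons x (Matrix.vecCons w0 w)) := ⟨_, rfl⟩
  rw [← hW] at h0 ⊢
  have hu : IsUnit W.det := isUnit_iff_ne_zero.2 h0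
  have h1 : W * W⁻¹ = 1 := Matrix.mul_nonsing_inv W hu
  have h2 : W⁻¹ * W = 1 := Matrix.nonsing_inv_mul W hu
  have hdt : ∀ (i : Fin 6) (j : Fin 4), dt (fun l => W⁻¹ l j.succ.succ) (W i) =
      if i = j.succ.succ then 1 else 0 := by
    intro i j
    rw [← Matrix.one_apply, ← h1, Matrix.mul_apply, dt]
    exact Finset.sum_congr rfl fun l _ => mul_comm _ _
  have hx0 : W 0 = x := by rw [hW]; rfl
  have hwi : ∀ i : Fin 4, W i.succ.succ = w i := by
    intro i
    rw [hW]
    rfl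
  have hcomb : ∀ v, dt n v = 0 →
      Par x (v - ∑ j, dt (fun l => W⁻¹ l j.succ.succ) v • w j) := by
    intro v hv
    have e1 : v = ∑ i : Fin 6, (Matrix.vecMul v W⁻¹) i • W i := by
      have e2 : Matrix.vecMul (Matrix.vecMul v W⁻¹) W = v := by
        rw [Matrix.vecMul_vecMul, h2, Matrix.vecMul_one]
      conv_lhs => rw [← e2]
      funext l
      rw [Matrix.vecMul, Finset.sum_apply]
      rfl
    have e3 : ∀ j : Fin 4, (Matrix.vecMul v W⁻¹) j.succ.succ =
        dt (fun l => W⁻¹ l j.succ.succ) v := by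
      intro j
      show ∑ l, v l * W⁻¹ l j.succ.succ = ∑ l, W⁻¹ l j.succ.succ * v l
      exact Finset.sum_congr rfl fun l _ => mul_comm _ _
    have e4 : v = (Matrix.vecMul v W⁻¹) 0 • x + ((Matrix.vecMul v W⁻¹) 1 • w0 +
        ∑ j : Fin 4, dt (fun l => W⁻¹ l j.succ.succ) v • w j) := by
      conv_lhs => rw [e1, Fin.sum_univ_succ, Fin.sum_univ_succ]
      have e5 : W (Fin.succ 0) = w0 := by rw [hW]; rfl
      rw [hx0, e5]
      congr 2
      refine Finset.sum_congr rfl fun j _ => ?_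
      rw [e3, hwi]
    have e6 : (Matrix.vecMul v W⁻¹) 1 = 0 := by
      have e7 := congrArg (dt n) e4
      rw [hv, dt_add', dt_add', dt_smul', dt_smul', dt_sum', h.nx, hw0', Finset.sum_eq_zero
        (fun j _ => by rw [dt_smul', hw j, mul_zero])] at e7
      linear_combination e7
    rw [e6, zero_smul, zero_add] at e4
    exact ⟨(Matrix.vecMul v W⁻¹) 0, by
      conv_lhs => rw [e4]
      rw [add_sub_assoc]
      have e8 : ∀ j : Fin 4, dt (fun l => W⁻¹ l j.succ.succ) v =
          dt (fun l => W⁻¹ l j.succ.succ) v := fun _ => rfl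
      rw [← e4, sub_self, add_zero]⟩
  refine ⟨fun j l => W⁻¹ l j.succ.succ, ?_, ?_, hcomb, ?_, ?_⟩
  · intro j
    have := hdt 0 j
    rw [hx0] at this
    rw [this, if_neg (Fin.succ_ne_zero _).symm]
  · intro i j
    have := hdt i.succ.succ j
    rw [hwi] at this
    rw [this]
    exact if_congr ⟨fun e => Fin.succ_injective _ (Fin.succ_injective _ e), fun e => by rw [e]⟩
      rfl rfl
  · intro v hv hj
    have h3 := hcomb v hv
    rwa [Finset.sum_eq_zero (fun j _ => by rw [hj j, zero_smul]), sub_zero] at h3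
  · intro v _
    exact vol_det x w0 w v W hW h0

/-- every vector orthogonal to `x` is a combination of the `rr x 0 b` -/
theorem rr_span (hx : x 0 = 1) (l : Fin 6 → Ω) (hl : dt l x = 0) :
    l = ∑ b, l b • rr x 0 b := by
  funext i
  rw [Finset.sum_apply]
  have h1 : ∀ b, (l b • rr x 0 b) i = l b * (if i = b then 1 else 0) -
      l b * x b * (if i = 0 then 1 else 0) := by
    intro b
    rw [Pi.smul_apply, smul_eq_mul, rr, hx]
    ring
  rw [Finset.sum_congr rfl fun b _ => h1 b, Finset.sum_sub_distrib, ← Finset.sum_mul]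
  have h2 : ∑ b, l b * x b = 0 := hl
  rw [h2, zero_mul, sub_zero]
  simp

theorem rr_dt (j b : Fin 6) : dt (rr x j b) x = 0 := by
  unfold dt rr
  have h1 : ∀ i, (x j * (if i = b then 1 else 0) - x b * (if i = j then 1 else 0)) * x i =
      x j * (if i = b then x i else 0) - x b * (if i = j then x i else 0) := by
    intro i
    split_ifs <;> ring
  rw [Finset.sum_congr rfl fun i _ => h1 i, Finset.sum_sub_distrib, ← Finset.mul_sum,
    ← Finset.mul_sum]
  simp
  ring

theorem rr_zero : rr x 0 (0 : Fin 6) = 0 := by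
  funext i
  unfold rr
  rw [sub_self]
  rfl

end Pool.Agent.Helper74.Q8

end
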