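import Mathlib
import Pool.Agent.Helper74.MG.T61

section

/-!
# Q8-KERRAT: the solutions of a linear system over a subfield

Let `e_β` be a basis of `Ω` over `B` with coordinates `λ_β : Ω → B` (`B`-linear). For a solution `l`
of the system the vectors `(λ_β(l_j))_j` are solutions in `B`, and `l = ∑_β e_β λ_β(l)` (finitely
many `β`, as `σ` is finite).
-/

set_option autoImplicit false

namespace Pool.Agent.Helper74.Q8

open scoped BigOperators

theorem ker_rat {Ω : Type*} [Field Ω] (B : Subfield Ω) {σ : Type*} [Fintype σ] {ι : Type*}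
    (c : ι → σ → Ω) (hc : ∀ i j, c i j ∈ B) (l : σ → Ω) (hl : ∀ i, ∑ j, l j * c i j = 0) :
    l ∈ Submodule.span Ω {m : σ → Ω | (∀ j, m j ∈ B) ∧ ∀ i, ∑ j, m j * c i j = 0} := by
  classical
  let b := Module.Basis.ofVectorSpace B Ω
  let S : Finset (Module.Basis.ofVectorSpaceIndex B Ω) :=
    Finset.univ.biUnion fun j => (b.repr (l j)).support
  have hlS : l = ∑ β ∈ S, b β • fun j => ((b.repr (l j) β : B) : Ω) := by
    funext j
    rw [Finset.sum_apply]
    have h1 : l j = ∑ β ∈ (b.repr (l j)).support, (b.repr (l j) β) • b β := by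
      conv_lhs => rw [← b.linearCombination_repr (l j)]
      rw [Finsupp.linearCombination_apply, Finsupp.sum]
    have h2 : ∑ β ∈ (b.repr (l j)).support, (b.repr (l j) β) • b β
        = ∑ β ∈ S, (b.repr (l j) β) • b β := by
      apply Finset.sum_subset
      · intro β hβ
        exact Finset.mem_biUnion.mpr ⟨j, Finset.mem_univ j, hβ⟩
      · intro β _ hβ
        rw [Finsupp.notMem_support_iff.mp hβ, zero_smul]
    rw [h2] at h1
    refine h1.trans (Finset.sum_congr rfl fun β _ => ?_)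
    rw [Pi.smul_apply, smul_eq_mul, Subfield.smul_def, smul_eq_mul, mul_comm]
  rw [hlS]
  refine Submodule.sum_mem _ fun β _ => Submodule.smul_mem _ _ (Submodule.subset_span ⟨?_, ?_⟩)
  · intro j
    exact (b.repr (l j) β).2
  · intro i
    have h3 : ∑ j, (⟨c i j, hc i j⟩ : B) • l j = 0 := by
      rw [← hl i]
      refine Finset.sum_congr rfl fun j _ => ?_
      rw [Subfield.smul_def, smul_eq_mul, mul_comm]
    have h4 : ∑ j, (⟨c i j, hc i j⟩ : B) * b.repr (l j) β = 0 := by
      have h5 := congrArg (fun w => b.repr w β) h3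
      simp only [map_sum, map_smul, map_zero, Finsupp.coe_zero, Pi.zero_apply,
        Finsupp.finsetSum_apply, Finsupp.smul_apply, smul_eq_mul] at h5
      exact h5
    have h6 := congrArg (fun w : B => (w : Ω)) h4
    simp only [AddSubmonoidClass.coe_finsetSum, Subfield.coe_mul, Subfield.coe_zero] at h6
    rw [← h6]
    refine Finset.sum_congr rfl fun j _ => ?_
    rw [mul_comm]

end Pool.Agent.Helper74.Q8

end

section

/-!
# Q8-TRACES: the traces are rational

`g(P, Q) = det(A P, C P; A Q, C Q)`. `g(P1 + P, P2) = det(1 + A P) = 1 + tr + det`,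
`g(P, P2) = det (A P)`, so `tr (A P) ∈ B`; `g(P1, P2 + P) = det(1 + C P)`, `g(P1, P) = det (C P)`.
`tr (A P) tr (A Q) - tr (A P A Q) = det(A P + A Q) - det (A P) - det (A Q)` (2 x 2 matrices).
The coefficient of `s t` in `g(P1 + s P, P2 + t Q)` (degree at most 2 in `s` and in `t`), which is
`(f(1,1) - f(1,-1) - f(-1,1) + f(-1,-1)) / 4`, is `tr (A P) tr (C Q) - tr (C P A Q)`.
Expand all determinants (`Matrix.det_fromBlocks..`, or `Matrix.det_succ_row_zero` after reindexing
by `Fin 4`) and use `ring`.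
-/

set_option autoImplicit false

namespace Pool.Agent.Helper74.Q8

open scoped BigOperators Matrix
open MvPolynomial
open Pool.Agent.Helper6.QS

/-- the determinant of a block matrix with blocks of size two -/
theorem Traces_det4 {R : Type*} [CommRing R] (a b c d : Matrix (Fin 2) (Fin 2) R) :
    (Matrix.fromBlocks a b c d).det =
      (a 0 0 * a 1 1 - a 0 1 * a 1 0) * (d 0 0 * d 1 1 - d 0 1 * d 1 0)
      - (a 0 0 * b 1 0 - b 0 0 * a 1 0) * (c 0 1 * d 1 1 - d 0 1 * c 1 1)
      + (a 0 0 * b 1 1 - b 0 1 * a 1 0) * (c 0 1 * d 1 0 - d 0 0 * c 1 1)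
      + (a 0 1 * b 1 0 - b 0 0 * a 1 1) * (c 0 0 * d 1 1 - d 0 1 * c 1 0)
      - (a 0 1 * b 1 1 - b 0 1 * a 1 1) * (c 0 0 * d 1 0 - d 0 0 * c 1 0)
      + (b 0 0 * b 1 1 - b 0 1 * b 1 0) * (c 0 0 * c 1 1 - c 0 1 * c 1 0) := by
  have h : (Matrix.fromBlocks a b c d).det =
      (Matrix.of ![![a 0 0, a 0 1, b 0 0, b 0 1], ![a 1 0, a 1 1, b 1 0, b 1 1],
        ![c 0 0, c 0 1, d 0 0, d 0 1], ![c 1 0, c 1 1, d 1 0, d 1 1]]).det := by
    rw [← Matrix.det_reindex_self (finSumFinEquiv : Fin 2 ⊕ Fin 2 ≃ Fin 4)]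
    congr 1
    ext i j
    fin_cases i <;> fin_cases j <;> rfl
  rw [h]
  simp only [Matrix.det_succ_row_zero, Matrix.submatrix_apply, Fin.sum_univ_succ,
    Matrix.of_apply, Matrix.cons_val_zero, Matrix.cons_val_succ, Fin.succ_zero_eq_one]
  simp [Fin.sum_univ_succ, Fin.succAbove]
  ring

theorem Traces_add {Ω : Type*} [Field Ω] {B : Subfield Ω} {σ : Type*}
    {P Q : MvPolynomial σ Ω} (hP : RatP B P) (hQ : RatP B Q) : RatP B (P + Q) := by
  intro m
  rw [coeff_add]
  exact B.add_mem (hP m) (hQ m)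

theorem Traces_sub {Ω : Type*} [Field Ω] {B : Subfield Ω} {σ : Type*}
    {P Q : MvPolynomial σ Ω} (hP : RatP B P) (hQ : RatP B Q) : RatP B (P - Q) := by
  intro m
  rw [coeff_sub]
  exact B.sub_mem (hP m) (hQ m)

theorem traces {Ω : Type*} [Field Ω] [CharZero Ω] {B : Subfield Ω} {σ : Type*}
    (A C : MvPolynomial σ Ω →ₗ[Ω] Matrix (Fin 2) (Fin 2) Ω) (P1 P2 : MvPolynomial σ Ω)
    (r1 : RatP B P1) (r2 : RatP B P2) (a1 : A P1 = 1) (c1 : C P1 = 0) (a2 : A P2 = 0)
    (c2 : C P2 = 1)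
    (h : ∀ P Q, RatP B P → RatP B Q → (Matrix.fromBlocks (A P) (C P) (A Q) (C Q)).det ∈ B)
    (P Q : MvPolynomial σ Ω) (hP : RatP B P) (hQ : RatP B Q) :
    (A P).trace ∈ B ∧ (C P).trace ∈ B ∧ (A P).det ∈ B ∧ (C P).det ∈ B ∧
      (A P * A Q).trace ∈ B ∧ (C P * C Q).trace ∈ B ∧ (A P * C Q).trace ∈ B := by
  have hdA : ∀ R, RatP B R → (A R).det ∈ B := by
    intro R hR
    have e := h R P2 hR r2
    rw [a2, c2, Matrix.det_fromBlocks_zero₂₁, Matrix.det_one, mul_one] at e
    exact e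
  have hdC : ∀ R, RatP B R → (C R).det ∈ B := by
    intro R hR
    have e := h P1 R r1 hR
    rw [a1, c1, Matrix.det_fromBlocks_zero₁₂, Matrix.det_one, one_mul] at e
    exact e
  have htA : ∀ R, RatP B R → (A R).trace ∈ B := by
    intro R hR
    have e := hdA (P1 + R) (Traces_add r1 hR)
    have e2 : (A R).trace = (A (P1 + R)).det - (A R).det - 1 := by
      rw [map_add, a1, Matrix.det_fin_two, Matrix.det_fin_two, Matrix.trace_fin_two]
      simp only [Matrix.add_apply, Matrix.one_apply_eq, Matrix.one_apply_ne, ne_eq,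
        zero_ne_one, one_ne_zero, not_false_eq_true]
      ring
    rw [e2]
    exact B.sub_mem (B.sub_mem e (hdA R hR)) B.one_mem
  have htC : ∀ R, RatP B R → (C R).trace ∈ B := by
    intro R hR
    have e := hdC (P2 + R) (Traces_add r2 hR)
    have e2 : (C R).trace = (C (P2 + R)).det - (C R).det - 1 := by
      rw [map_add, c2, Matrix.det_fin_two, Matrix.det_fin_two, Matrix.trace_fin_two]
      simp only [Matrix.add_apply, Matrix.one_apply_eq, Matrix.one_apply_ne, ne_eq,
        zero_ne_one, one_ne_zero, not_false_eq_true]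
      ring
    rw [e2]
    exact B.sub_mem (B.sub_mem e (hdC R hR)) B.one_mem
  have h2 : ∀ M N : Matrix (Fin 2) (Fin 2) Ω,
      (M * N).trace = M.trace * N.trace - ((M + N).det - M.det - N.det) := by
    intro M N
    rw [Matrix.det_fin_two, Matrix.det_fin_two, Matrix.det_fin_two, Matrix.trace_fin_two,
      Matrix.trace_fin_two, Matrix.trace_fin_two]
    simp only [Matrix.mul_apply, Fin.sum_univ_two, Matrix.add_apply]
    ring
  refine ⟨htA P hP, htC P hP, hdA P hP, hdC P hP, ?_, ?_, ?_⟩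
  · rw [h2, ← map_add]
    exact B.sub_mem (B.mul_mem (htA P hP) (htA Q hQ))
      (B.sub_mem (B.sub_mem (hdA _ (Traces_add hP hQ)) (hdA P hP)) (hdA Q hQ))
  · rw [h2, ← map_add]
    exact B.sub_mem (B.mul_mem (htC P hP) (htC Q hQ))
      (B.sub_mem (B.sub_mem (hdC _ (Traces_add hP hQ)) (hdC P hP)) (hdC Q hQ))
  · -- mixed trace
    have f1 := h (P1 + Q) (P2 + P) (Traces_add r1 hQ) (Traces_add r2 hP)
    have f2 := h (P1 + Q) (P2 - P) (Traces_add r1 hQ) (Traces_sub r2 hP)
    have f3 := h (P1 - Q) (P2 + P) (Traces_sub r1 hQ) (Traces_add r2 hP)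
    have f4 := h (P1 - Q) (P2 - P) (Traces_sub r1 hQ) (Traces_sub r2 hP)
    have e : (A P * C Q).trace = (A Q).trace * (C P).trace -
        ((Matrix.fromBlocks (A (P1 + Q)) (C (P1 + Q)) (A (P2 + P)) (C (P2 + P))).det
        - (Matrix.fromBlocks (A (P1 + Q)) (C (P1 + Q)) (A (P2 - P)) (C (P2 - P))).det
        - (Matrix.fromBlocks (A (P1 - Q)) (C (P1 - Q)) (A (P2 + P)) (C (P2 + P))).det
        + (Matrix.fromBlocks (A (P1 - Q)) (C (P1 - Q)) (A (P2 - P)) (C (P2 - P))).det) / 4 := by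
      rw [Traces_det4, Traces_det4, Traces_det4, Traces_det4]
      simp only [map_add, map_sub, a1, a2, c1, c2, Matrix.add_apply, Matrix.sub_apply,
        Matrix.one_apply_eq, Matrix.one_apply_ne, ne_eq, zero_ne_one, one_ne_zero,
        not_false_eq_true, Matrix.zero_apply, Matrix.trace_fin_two, Matrix.mul_apply,
        Fin.sum_univ_two]
      ring
    rw [e]
    have h4 : (4 : Ω) ∈ B := by
      have : ((4 : ℕ) : Ω) ∈ B := natCast_mem B 4
      exact_mod_cast this
    exact B.sub_mem (B.mul_mem (htA Q hQ) (htC P hP))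
      (B.div_mem (B.add_mem (B.sub_mem (B.sub_mem f1 f2) f3) f4) h4)

end Pool.Agent.Helper74.Q8

end

section

/-!
# Q8-TRI: a degenerate trace form gives a common triangular form

`N` is a combination of the `M i`, so `tr(N N) = 0` and `tr N = tr(N M_(i₀)) = 0`: `N^2 = 0`
(Cayley-Hamilton), so `N = v w^T` with `w . v = tr N = 0`, and `0 = tr(N M_i) = w . (M_i v)`.
`tri_eig`: `w . (A v) = 0` and `w . v = 0`, `v, w ≠ 0` in dimension 2 give `A v = f v`, `w A = g w`,
with trace `f + g` and determinant `f g`; `f, g` are linear in `P`.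
-/

set_option autoImplicit false

namespace Pool.Agent.Helper74.Q8

open scoped BigOperators Matrix

theorem tri {Ω : Type*} [Field Ω] [CharZero Ω] {ι : Type*}
    (M : ι → Matrix (Fin 2) (Fin 2) Ω) (i₀ : ι) (h1 : M i₀ = 1) (N : Matrix (Fin 2) (Fin 2) Ω)
    (hN : N ≠ 0) (hNs : N ∈ Submodule.span Ω (Set.range M)) (hN0 : ∀ i, (N * M i).trace = 0) :
    ∃ v w : Fin 2 → Ω, v ≠ 0 ∧ w ≠ 0 ∧ w ⬝ᵥ v = 0 ∧ ∀ i, w ⬝ᵥ (M i *ᵥ v) = 0 := by
  have htr : N 0 0 + N 1 1 = 0 := by
    have h := hN0 i₀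
    rw [h1, mul_one, Matrix.trace_fin_two] at h
    exact h
  have hall : ∀ X ∈ Submodule.span Ω (Set.range M), (N * X).trace = 0 := by
    intro X hX
    induction hX using Submodule.span_induction with
    | mem x hx =>
      obtain ⟨i, rfl⟩ := hx
      exact hN0 i
    | zero => simp
    | add x y _ _ hx hy => rw [mul_add, Matrix.trace_add, hx, hy, add_zero]
    | smul c x _ hx => rw [Matrix.mul_smul, Matrix.trace_smul, hx, smul_zero]
  have hNN : N 0 0 * N 0 0 + N 0 1 * N 1 0 + (N 1 0 * N 0 1 + N 1 1 * N 1 1) = 0 := by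
    have h := hall N hNs
    simpa [Matrix.trace_fin_two, Matrix.mul_apply, Fin.sum_univ_two] using h
  have hdet : N 0 0 * N 1 1 - N 0 1 * N 1 0 = 0 := by
    have h2 : (2 : Ω) * (N 0 0 * N 1 1 - N 0 1 * N 1 0) = 0 := by
      linear_combination (N 0 0 + N 1 1) * htr - hNN
    exact (mul_eq_zero.mp h2).resolve_left two_ne_zero
  obtain ⟨k, l, hkl⟩ : ∃ k l, N k l ≠ 0 := by
    by_contra hcon
    push Not at hcon
    exact hN (by ext i j; exact hcon i j)
  refine ⟨fun j => N j l, fun j => N k j, fun h => hkl (congrFun h k), fun h => hkl (congrFun h l),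
    ?_, ?_⟩
  · simp only [dotProduct, Fin.sum_univ_two]
    fin_cases k <;> fin_cases l <;> simp only [Fin.zero_eta, Fin.mk_one, Fin.isValue]
    · linear_combination N 0 0 * htr - hdet
    · linear_combination N 0 1 * htr
    · linear_combination N 1 0 * htr
    · linear_combination N 1 1 * htr - hdet
  · intro i
    have hi := hN0 i
    simp only [Matrix.trace_fin_two, Matrix.mul_apply, Fin.sum_univ_two] at hi
    simp only [dotProduct, Matrix.mulVec, Fin.sum_univ_two]
    fin_cases k <;> fin_cases l <;> simp only [Fin.zero_eta, Fin.mk_one, Fin.isValue]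
    · linear_combination N 0 0 * hi - M i 1 1 * hdet
    · linear_combination N 0 1 * hi + M i 0 1 * hdet
    · linear_combination N 1 0 * hi + M i 1 0 * hdet
    · linear_combination N 1 1 * hi - M i 0 0 * hdet

theorem tri_prop {Ω : Type*} [Field Ω] {v w u : Fin 2 → Ω} (hw : w ≠ 0)
    (hwv : w ⬝ᵥ v = 0) (hwu : w ⬝ᵥ u = 0) : u 0 * v 1 = u 1 * v 0 := by
  simp only [dotProduct, Fin.sum_univ_two] at hwv hwu
  have h0 : w 0 * (u 0 * v 1 - u 1 * v 0) = 0 := by
    linear_combination v 1 * hwu - u 1 * hwv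
  have h1 : w 1 * (u 0 * v 1 - u 1 * v 0) = 0 := by
    linear_combination u 0 * hwv - v 0 * hwu
  by_contra hne
  have hne' : u 0 * v 1 - u 1 * v 0 ≠ 0 := sub_ne_zero.mpr hne
  apply hw
  ext i
  fin_cases i
  · exact (mul_eq_zero.mp h0).resolve_right hne'
  · exact (mul_eq_zero.mp h1).resolve_right hne'

theorem tri_lin {Ω : Type*} [Field Ω] {V : Type*} [AddCommGroup V] [Module Ω V]
    (U : V →ₗ[Ω] (Fin 2 → Ω)) (v w : Fin 2 → Ω) (hv : v ≠ 0) (hw : w ≠ 0)
    (hwv : w ⬝ᵥ v = 0) (h : ∀ P, w ⬝ᵥ U P = 0) :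
    ∃ f : V →ₗ[Ω] Ω, ∀ P, U P = f P • v := by
  obtain ⟨k, hk⟩ : ∃ k, v k ≠ 0 := by
    by_contra hcon
    push Not at hcon
    exact hv (funext hcon)
  refine ⟨(v k)⁻¹ • ((LinearMap.proj k).comp U), ?_⟩
  intro P
  have hp := tri_prop hw hwv (h P)
  ext i
  simp only [LinearMap.smul_apply, LinearMap.comp_apply, LinearMap.proj_apply, Pi.smul_apply,
    smul_eq_mul]
  fin_cases k <;> fin_cases i <;> simp only [Fin.zero_eta, Fin.mk_one, Fin.isValue] at hk ⊢
  · field_simp
  · field_simp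
    linear_combination -hp
  · field_simp
    linear_combination hp
  · field_simp

theorem tri_eig {Ω : Type*} [Field Ω] [CharZero Ω] {V : Type*} [AddCommGroup V] [Module Ω V]
    (A : V →ₗ[Ω] Matrix (Fin 2) (Fin 2) Ω) (v w : Fin 2 → Ω) (hv : v ≠ 0) (hw : w ≠ 0)
    (hwv : w ⬝ᵥ v = 0) (h : ∀ P, w ⬝ᵥ (A P *ᵥ v) = 0) :
    ∃ f g : V →ₗ[Ω] Ω, (∀ P, A P *ᵥ v = f P • v) ∧ (∀ P, w ᵥ* A P = g P • w) ∧
      ∀ P, (A P).trace = f P + g P ∧ (A P).det = f P * g P := by
  obtain ⟨f, hf⟩ := tri_lin (V := V)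
    { toFun := fun P => A P *ᵥ v
      map_add' := fun P Q => by rw [map_add, Matrix.add_mulVec]
      map_smul' := fun c P => by
        rw [map_smul, Matrix.smul_mulVec, RingHom.id_apply] } v w hv hw hwv h
  obtain ⟨g, hg⟩ := tri_lin (V := V)
    { toFun := fun P => w ᵥ* A P
      map_add' := fun P Q => by rw [map_add, Matrix.vecMul_add]
      map_smul' := fun c P => by
        rw [map_smul, Matrix.vecMul_smul, RingHom.id_apply] } w v hw hv
      (by rw [dotProduct_comm]; exact hwv)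
      (fun P => by
        change v ⬝ᵥ (w ᵥ* A P) = 0
        rw [dotProduct_comm, ← Matrix.dotProduct_mulVec]
        exact h P)
  refine ⟨f, g, hf, hg, ?_⟩
  intro P
  have hf0 := congrFun (hf P) 0
  have hf1 := congrFun (hf P) 1
  have hg0 := congrFun (hg P) 0
  have hg1 := congrFun (hg P) 1
  simp only [LinearMap.coe_mk, AddHom.coe_mk, Matrix.mulVec, Matrix.vecMul, dotProduct,
    Fin.sum_univ_two, Pi.smul_apply, smul_eq_mul] at hf0 hf1 hg0 hg1
  have hwv' : w 0 * v 0 + w 1 * v 1 = 0 := by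
    simpa [dotProduct, Fin.sum_univ_two] using hwv
  rw [Matrix.trace_fin_two, Matrix.det_fin_two]
  have htr : A P 0 0 + A P 1 1 = f P + g P := by
    rcases eq_or_ne (v 0) 0 with h0 | h0
    · have hv1 : v 1 ≠ 0 := by
        intro h1
        exact hv (by ext i; fin_cases i; exacts [h0, h1])
      have hw1 : w 1 = 0 := by
        rw [h0, mul_zero, zero_add] at hwv'
        exact (mul_eq_zero.mp hwv').resolve_right hv1
      have hw0 : w 0 ≠ 0 := by
        intro h1
        exact hw (by ext i; fin_cases i; exacts [h1, hw1])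
      have e1 : A P 1 1 = f P := by
        apply mul_right_cancel₀ hv1
        rw [h0] at hf1
        linear_combination hf1
      have e2 : A P 0 0 = g P := by
        apply mul_right_cancel₀ hw0
        rw [hw1] at hg0
        linear_combination hg0
      rw [e1, e2, add_comm]
    · have hw1 : w 1 ≠ 0 := by
        intro h1
        rw [h1, zero_mul, add_zero] at hwv'
        have hw0 : w 0 = 0 := (mul_eq_zero.mp hwv').resolve_right h0
        exact hw (by ext i; fin_cases i; exacts [hw0, h1])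
      apply mul_right_cancel₀ (mul_ne_zero h0 hw1)
      linear_combination w 1 * hf0 + v 0 * hg1 - A P 0 1 * hwv'
  refine ⟨htr, ?_⟩
  have hch : (A P 0 0 - f P) * (A P 1 1 - f P) - A P 0 1 * A P 1 0 = 0 := by
    rcases eq_or_ne (v 0) 0 with h0 | h0
    · have hv1 : v 1 ≠ 0 := by
        intro h1
        exact hv (by ext i; fin_cases i; exacts [h0, h1])
      apply mul_right_cancel₀ hv1
      linear_combination (A P 0 0 - f P) * hf1 - A P 1 0 * hf0
    · apply mul_right_cancel₀ h0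
      linear_combination (A P 1 1 - f P) * hf0 - A P 0 1 * hf1
  linear_combination hch + f P * htr

end Pool.Agent.Helper74.Q8

end
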