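import Pool.Agent.Helper74.MG.T82
import Pool.Agent.Helper74.MG.T81

section

/-!
# Q8-CONICCOUNT8: a generic octic fourfold contains no plane conic

`F = ∑ a_J X^J`, `D_J a_I = δ_IJ`, `q = 8`. Suppose `F = ∑_i lf(k_i) A_i + Q C`, `deg A_i = 7`,
`deg C = 6`, `deg Q = 2`, `k_i` independent. Apply `D_J` to the coefficients (a derivation of the
polynomial ring): `X^J = ∑ (D_J k_i) A_i + ∑ k_i (D_J A_i) + (D_J Q) C + Q (D_J C)`. Restrict to the
plane `k_i = 0` (substitute a parametrisation by 3 variables; the substitution maps the forms of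
degree 8 in 6 variables onto those in 3 variables): all forms of degree 8 in 3 variables (dimension
45) are combinations `∑ M_i A_i' + N C' + Q' E`, `M_i` linear (dimension 3 each), `N` quadratic (6),
`E` of degree 6 (28): `3 * 3 + 6 + 28 = 43 < 45`, a contradiction. Keep `q` a variable. Compare
`Helper6/QS/ConicCount.lean`.
-/

set_option autoImplicit false

namespace Pool.Agent.Helper74.Q8

open scoped BigOperators
open MvPolynomial
open Pool.Agent.Helper8.LG (Bdd form mon)
open Pool.Agent.Helper49.LN (cP mo hf pl)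
open Pool.Agent.Helper6.QS

section CC8

variable {Ω : Type*} [Field Ω]

/-- `lf` as a linear map -/
noncomputable def conicCount8_lf {σ : Type*} [Fintype σ] :
    (σ → Ω) →ₗ[Ω] MvPolynomial σ Ω where
  toFun := lf
  map_add' := lf_add'
  map_smul' c l := lf_smul' c l

theorem conicCount8_lf_single {σ : Type*} [Fintype σ] [DecidableEq σ] (j : σ) :
    (lf (Pi.single j 1 : σ → Ω) : MvPolynomial σ Ω) = X j := by
  unfold lf
  rw [Finset.sum_eq_single j]
  · rw [Pi.single_eq_same, one_smul]
  · intro i _ hi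
    rw [Pi.single_eq_of_ne hi, zero_smul]
  · intro h
    exact absurd (Finset.mem_univ j) h

variable {σ τ : Type*} [Fintype σ] [DecidableEq σ] [Fintype τ] [DecidableEq τ]

/-- the substitution `X_j ↦ lf (g e_j)` -/
noncomputable def conicCount8_phi (g : (σ → Ω) →ₗ[Ω] (τ → Ω)) :
    MvPolynomial σ Ω →ₐ[Ω] MvPolynomial τ Ω :=
  aeval fun j => lf (g (Pi.single j 1))

omit [DecidableEq τ] in
theorem conicCount8_phi_lf (g : (σ → Ω) →ₗ[Ω] (τ → Ω)) (l : σ → Ω) :
    conicCount8_phi g (lf l) = lf (g l) := by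
  have h : (conicCount8_phi g).toLinearMap ∘ₗ conicCount8_lf = conicCount8_lf ∘ₗ g := by
    refine LinearMap.pi_ext' fun j => ?_
    ext1
    change conicCount8_phi g (lf (Pi.single j 1)) = lf (g (Pi.single j 1))
    rw [conicCount8_lf_single, conicCount8_phi, aeval_X]
  exact congrArg (fun f => f l) h

theorem conicCount8_phi_hom (g : (σ → Ω) →ₗ[Ω] (τ → Ω)) {p : MvPolynomial σ Ω} {n : ℕ}
    (hp : p.IsHomogeneous n) : (conicCount8_phi g p).IsHomogeneous n := by
  have h2 := hp.aeval (fun j => (lf (g (Pi.single j 1)) : MvPolynomial τ Ω))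
    (n := 1) (fun j => lf_hom _)
  rwa [one_mul] at h2

theorem conicCount8_prod_hom (c : τ → σ → Ω) (s : Multiset τ) :
    ((s.map fun m => (lf (c m) : MvPolynomial σ Ω)).prod).IsHomogeneous (Multiset.card s) := by
  induction s using Multiset.induction_on with
  | empty =>
    rw [Multiset.map_zero, Multiset.prod_zero, Multiset.card_zero]
    exact isHomogeneous_one σ Ω
  | cons m s ih =>
    rw [Multiset.map_cons, Multiset.prod_cons, Multiset.card_cons, add_comm]
    exact (lf_hom (c m)).mul ih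

/-- every monomial is a value of the substitution on a form of the same degree -/
theorem conicCount8_surj (g : (σ → Ω) →ₗ[Ω] (τ → Ω)) (hg : Function.Surjective g) {n : ℕ}
    (J : Sym τ n) : ∃ P : MvPolynomial σ Ω, P.IsHomogeneous n ∧
      conicCount8_phi g P = Pool.Agent.Helper49.LN.mo Ω (J : Multiset τ) := by
  choose c hc using fun m : τ => hg (Pi.single m 1)
  refine ⟨((J : Multiset τ).map fun m => (lf (c m) : MvPolynomial σ Ω)).prod, ?_, ?_⟩
  · have h := conicCount8_prod_hom c (J : Multiset τ)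
    rwa [Sym.card_coe] at h
  · rw [map_multiset_prod, Multiset.map_map, Pool.Agent.Helper49.LN.mo]
    congr 1
    refine Multiset.map_congr rfl fun m _ => ?_
    rw [Function.comp_apply, conicCount8_phi_lf, hc, conicCount8_lf_single]

/-- a surjection with given kernel vectors -/
theorem conicCount8_ex (k : Fin 3 → Fin 6 → Ω) (hk : LinearIndependent Ω k) :
    ∃ g : (Fin 6 → Ω) →ₗ[Ω] (Fin 3 → Ω), Function.Surjective g ∧ ∀ i, g (k i) = 0 := by
  have h1 : Module.finrank Ω ((Fin 6 → Ω) ⧸ Submodule.span Ω (Set.range k)) =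
      Module.finrank Ω (Fin 3 → Ω) := by
    have h2 := Submodule.finrank_quotient_add_finrank (Submodule.span Ω (Set.range k))
    rw [finrank_span_eq_card hk, Fintype.card_fin, Module.finrank_fintype_fun_eq_card,
      Fintype.card_fin] at h2
    rw [Module.finrank_fintype_fun_eq_card, Fintype.card_fin]
    omega
  let e := LinearEquiv.ofFinrankEq _ _ h1
  refine ⟨e.toLinearMap ∘ₗ (Submodule.span Ω (Set.range k)).mkQ, ?_, fun i => ?_⟩
  · intro y
    obtain ⟨z, hz⟩ := Submodule.mkQ_surjective _ (e.symm y)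
    refine ⟨z, ?_⟩
    rw [LinearMap.comp_apply, hz]
    exact e.apply_symm_apply y
  · rw [LinearMap.comp_apply, Submodule.mkQ_apply,
      (Submodule.Quotient.mk_eq_zero _).2 (Submodule.subset_span (Set.mem_range_self i)), map_zero]

/-- the combinations `∑ M_i A_i + N C + Q E` -/
noncomputable def conicCount8_psi (A : Fin 3 → MvPolynomial (Fin 3) Ω)
    (C Q : MvPolynomial (Fin 3) Ω) :
    ((Fin 3 × Sym (Fin 3) 1 → Ω) × (Sym (Fin 3) 2 → Ω) × (Sym (Fin 3) 6 → Ω)) →ₗ[Ω]
      MvPolynomial (Fin 3) Ω where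
  toFun w := (∑ i, (∑ J, w.1 (i, J) • Pool.Agent.Helper49.LN.mo Ω (J : Multiset (Fin 3))) * A i) +
    (∑ J, w.2.1 J • Pool.Agent.Helper49.LN.mo Ω (J : Multiset (Fin 3))) * C +
    Q * ∑ J, w.2.2 J • Pool.Agent.Helper49.LN.mo Ω (J : Multiset (Fin 3))
  map_add' w w' := by
    simp only [Prod.fst_add, Prod.snd_add, Pi.add_apply, add_smul, Finset.sum_add_distrib,
      add_mul]
    ring
  map_smul' t w := by
    simp only [Prod.smul_fst, Prod.smul_snd, Pi.smul_apply, smul_eq_mul, mul_smul,
      ← Finset.smul_sum, RingHom.id_apply, smul_add, smul_mul_assoc, mul_smul_comm]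

end CC8

theorem conic_count8 {Ω : Type*} [Field Ω] {q : ℕ} (hq : q = 8)
    (D : Sym (Fin 6) q → Derivation ℤ Ω Ω) (a : Sym (Fin 6) q → Ω)
    (hD : ∀ I J, D J (a I) = if I = J then 1 else 0) (k : Fin 3 → Fin 6 → Ω)
    (hk : LinearIndependent Ω k) (Q C : MvPolynomial (Fin 6) Ω)
    (A : Fin 3 → MvPolynomial (Fin 6) Ω) (hQ : Q.IsHomogeneous 2)
    (hA : ∀ i, (A i).IsHomogeneous 7) (hC : C.IsHomogeneous 6)
    (hF : ∑ J : Sym (Fin 6) q, a J • Pool.Agent.Helper49.LN.mo Ω (J : Multiset (Fin 6)) =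
      ∑ i, lf (k i) * A i + Q * C) : False := by
  obtain ⟨g, hg, hgk⟩ := conicCount8_ex k hk
  have key : ∀ J : Sym (Fin 6) q, conicCount8_phi g (Pool.Agent.Helper49.LN.mo Ω
      (J : Multiset (Fin 6))) ∈ LinearMap.range (conicCount8_psi
        (fun i => conicCount8_phi g (A i)) (conicCount8_phi g C) (conicCount8_phi g Q)) := by
    intro J
    have h1 := cc_form D a hD J
    rw [hF, Fin.sum_univ_three, cc_add, cc_add, cc_add, cc_mul, cc_mul, cc_mul, cc_mul] at h1
    rw [← h1]
    simp only [map_add, map_mul, conicCount8_phi_lf, hgk, lf_zero', zero_mul, add_zero]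
    refine ⟨(fun x => coeff (Multiset.toFinsupp (x.2 : Multiset (Fin 3)))
        (conicCount8_phi g (cc_der (D J) (lf (k x.1)))),
      fun I => coeff (Multiset.toFinsupp (I : Multiset (Fin 3)))
        (conicCount8_phi g (cc_der (D J) Q)),
      fun I => coeff (Multiset.toFinsupp (I : Multiset (Fin 3)))
        (conicCount8_phi g (cc_der (D J) C))), ?_⟩
    rw [conicCount8_psi]
    simp only [LinearMap.coe_mk, AddHom.coe_mk]
    rw [Fin.sum_univ_three, cc_sum (conicCount8_phi_hom g (cc_hom (D J) (lf_hom (k 0)))),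
      cc_sum (conicCount8_phi_hom g (cc_hom (D J) (lf_hom (k 1)))),
      cc_sum (conicCount8_phi_hom g (cc_hom (D J) (lf_hom (k 2)))),
      cc_sum (conicCount8_phi_hom g (cc_hom (D J) hQ)),
      cc_sum (conicCount8_phi_hom g (cc_hom (D J) hC)), add_assoc]
  have key2 : ∀ J : Sym (Fin 3) q, ∃ w, conicCount8_psi
        (fun i => conicCount8_phi g (A i)) (conicCount8_phi g C) (conicCount8_phi g Q) w =
      Pool.Agent.Helper49.LN.mo Ω (J : Multiset (Fin 3)) := by
    intro J
    obtain ⟨P, hP, hPJ⟩ := conicCount8_surj g hg J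
    rw [← hPJ, ← cc_sum hP, map_sum]
    refine Submodule.sum_mem (LinearMap.range _) fun I _ => ?_
    rw [map_smul]
    exact Submodule.smul_mem _ _ (key I)
  choose w hw using key2
  have hli : LinearIndependent Ω w := by
    refine LinearIndependent.of_comp (conicCount8_psi
        (fun i => conicCount8_phi g (A i)) (conicCount8_phi g C) (conicCount8_phi g Q)) ?_
    have h3 : (conicCount8_psi (fun i => conicCount8_phi g (A i)) (conicCount8_phi g C)
        (conicCount8_phi g Q)) ∘ w =
        fun J : Sym (Fin 3) q => Pool.Agent.Helper49.LN.mo Ω (J : Multiset (Fin 3)) :=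
      funext hw
    rw [h3]
    exact cc_indep q
  have h4 := hli.fintype_card_le_finrank
  rw [Module.finrank_prod, Module.finrank_prod, Module.finrank_fintype_fun_eq_card,
    Module.finrank_fintype_fun_eq_card, Module.finrank_fintype_fun_eq_card, Fintype.card_prod,
    Sym.card_sym_eq_choose, Sym.card_sym_eq_choose, Sym.card_sym_eq_choose,
    Sym.card_sym_eq_choose, Fintype.card_fin] at h4
  have h5 : (3 + 8 - 1).choose 8 ≤ 3 * (3 + 1 - 1).choose 1 + ((3 + 2 - 1).choose 2 +
      (3 + 6 - 1).choose 6) := by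
    rw [hq] at h4
    exact h4
  revert h5
  decide

end Pool.Agent.Helper74.Q8

end
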