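import Pool.Agent.Helper74.MG.T82
import Pool.Agent.Helper74.MG.T61

section

/-!
# Q8-KERDIM: the kernel of a block modulo another one

`φ(l) = D_(P l) x` maps `R = {l | l . x = 0}` (dimension 5) to `n^⊥` (dimension 5), and
`φ(l1), φ(l2)` form a basis of `n^⊥ / (x, w, w')` (dimension 2, `vol_coord`). So the kernel of
`R → n^⊥ / (x, w, w')` has dimension 3, and it is the kernel of the alternating form
`vol(φ(l), φ(l'), w, w')`.
-/

set_option autoImplicit false

namespace Pool.Agent.Helper74.Q8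

open scoped BigOperators
open MvPolynomial
open Pool.Agent.Helper8.LG (Bdd form mon)
open Pool.Agent.Helper49.LN (cP mo hf pl)
open Pool.Agent.Helper6.QS

variable {Ω : Type*} [Field Ω] [CharZero Ω] {q : ℕ} {D : Sym (Fin 6) q → Derivation ℤ Ω Ω}
  {a : Sym (Fin 6) q → Ω} {B : Subfield Ω} {x n : Fin 6 → Ω}

omit [CharZero Ω] in
theorem kerDim_det (A : Matrix (Fin 4) (Fin 4) Ω)
    (h2 : ∀ j, A 2 j = if (2 : Fin 4) = j then 1 else 0)
    (h3 : ∀ j, A 3 j = if (3 : Fin 4) = j then 1 else 0) :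
    A.det = A 0 0 * A 1 1 - A 0 1 * A 1 0 := by
  have a20 : A 2 0 = 0 := by rw [h2]; simp
  have a21 : A 2 1 = 0 := by rw [h2]; simp
  have a22 : A 2 2 = 1 := by rw [h2]; simp
  have a23 : A 2 3 = 0 := by rw [h2]; simp
  have a30 : A 3 0 = 0 := by rw [h3]; simp
  have a31 : A 3 1 = 0 := by rw [h3]; simp
  have a32 : A 3 2 = 0 := by rw [h3]; simp
  have a33 : A 3 3 = 1 := by rw [h3]; simp
  have e : A = !![A 0 0, A 0 1, A 0 2, A 0 3; A 1 0, A 1 1, A 1 2, A 1 3;
      0, 0, 1, 0; 0, 0, 0, 1] := by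
    ext i j
    fin_cases i <;> fin_cases j <;> first | rfl | assumption
  rw [e]
  simp [Matrix.det_succ_row_zero, Fin.sum_univ_succ, Fin.succAbove]
  ring

/-- the volume of two images in coordinates -/
theorem kerDim_vol (h : Pt8 D a B x n) (V : (Fin 6 → Ω) → (Fin 6 → Ω) → Ω) (v1 v2 w w' : Fin 6 → Ω)
    (eV : ∀ u v, V u v = vol D x (![u, v, w, w'] : Fin 4 → Fin 6 → Ω)) (h1 : dt n v1 = 0)
    (h2 : dt n v2 = 0) (hw : dt n w = 0) (hw' : dt n w' = 0) (hne : V v1 v2 ≠ 0) :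
    ∃ θ0 θ1 : Fin 6 → Ω, dt θ0 v1 = 1 ∧ dt θ1 v1 = 0 ∧ dt θ0 v2 = 0 ∧ dt θ1 v2 = 1 ∧
      ∀ u v, dt n u = 0 → dt n v = 0 → V u v =
        V v1 v2 * (dt θ0 u * dt θ1 v - dt θ1 u * dt θ0 v) := by
  have hW : ∀ u v, dt n u = 0 → dt n v = 0 →
      ∀ i, dt n ((![u, v, w, w'] : Fin 4 → Fin 6 → Ω) i) = 0 := by
    intro u v hu hv i
    fin_cases i
    · exact hu
    · exact hv
    · exact hw
    · exact hw'
  rw [eV] at hne
  obtain ⟨θ, -, hθ, -, -, hv⟩ := vol_coord h _ (hW v1 v2 h1 h2) hne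
  refine ⟨θ 0, θ 1, ?_, ?_, ?_, ?_, ?_⟩
  · exact (hθ 0 0).trans (if_pos rfl)
  · exact (hθ 0 1).trans (if_neg (by decide))
  · exact (hθ 1 0).trans (if_neg (by decide))
  · exact (hθ 1 1).trans (if_pos rfl)
  · intro u v hu hv'
    rw [eV, eV, hv _ (hW u v hu hv'), kerDim_det]
    · rfl
    · intro j
      exact hθ 2 j
    · intro j
      exact hθ 3 j

theorem ker_dim (h : Pt8 D a B x n) (P : MvPolynomial (Fin 6) Ω) (w w' : Fin 6 → Ω)
    (hw : dt n w = 0) (hw' : dt n w' = 0) (l1 l2 : Fin 6 → Ω) (h1 : dt l1 x = 0)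
    (h2 : dt l2 x = 0) (hne : vol D x ![dl D x P l1, dl D x P l2, w, w'] ≠ 0) :
    ∃ k : Fin 3 → Fin 6 → Ω, LinearIndependent Ω k ∧ (∀ i, dt (k i) x = 0) ∧
      (∀ i l', dt l' x = 0 → vol D x ![dl D x P (k i), dl D x P l', w, w'] = 0) ∧
      ∀ l, dt l x = 0 → (∀ l', dt l' x = 0 → vol D x ![dl D x P l, dl D x P l', w, w'] = 0) →
        l ∈ Submodule.span Ω (Set.range k) := by
  obtain ⟨V, eV⟩ : ∃ V : (Fin 6 → Ω) → (Fin 6 → Ω) → Ω, ∀ u v, V u v =
    vol D x (![u, v, w, w'] : Fin 4 → Fin 6 → Ω) := ⟨_, fun _ _ => rfl⟩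
  have lit : ∀ l l', vol D x ![dl D x P l, dl D x P l', w, w'] =
      V (dl D x P l) (dl D x P l') := by
    intro l l'
    rw [eV]
  rw [lit] at hne
  obtain ⟨θ0, θ1, t01, t11, t02, t12, key'⟩ := kerDim_vol h V (dl D x P l1) (dl D x P l2) w w' eV
    (vol_tan h P l1 h1) (vol_tan h P l2 h2) hw hw' hne
  have key := fun l l' (hl : dt l x = 0) (hl' : dt l' x = 0) =>
    key' (dl D x P l) (dl D x P l') (vol_tan h P l hl) (vol_tan h P l' hl')
  -- the linear map
  let G : (Fin 6 → Ω) →ₗ[Ω] (Fin 3 → Ω) :=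
    { toFun := fun l => ![dt x l, dt θ0 (dl D x P l), dt θ1 (dl D x P l)]
      map_add' := by
        intro l l'
        rw [dl_add_right, dt_add', dt_add', dt_add']
        ext i
        fin_cases i <;> rfl
      map_smul' := by
        intro c l
        rw [dl_smul_right, dt_smul', dt_smul', dt_smul']
        ext i
        fin_cases i <;> rfl }
  have hG : ∀ l, G l = ![dt x l, dt θ0 (dl D x P l), dt θ1 (dl D x P l)] := fun _ => rfl
  have hsurj : Function.Surjective G := by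
    intro c
    obtain ⟨l3, hl3⟩ : ∃ l3 : Fin 6 → Ω, dt x l3 = 1 := by
      refine ⟨Pi.single 0 1, ?_⟩
      unfold dt
      rw [Finset.sum_eq_single 0]
      · rw [h.one, Pi.single_eq_same, mul_one]
      · intro b _ hb
        rw [Pi.single_eq_of_ne hb, mul_zero]
      · intro h0
        exact absurd (Finset.mem_univ _) h0
    refine ⟨c 0 • l3 + (c 1 - c 0 * dt θ0 (dl D x P l3)) • l1 +
      (c 2 - c 0 * dt θ1 (dl D x P l3)) • l2, ?_⟩
    rw [hG]
    rw [dl_add_right, dl_add_right, dl_smul_right, dl_smul_right, dl_smul_right]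
    rw [dt_add', dt_add', dt_add', dt_add', dt_add', dt_add']
    rw [dt_smul', dt_smul', dt_smul', dt_smul', dt_smul', dt_smul', dt_smul', dt_smul', dt_smul']
    rw [hl3, dt_comm' x l1, dt_comm' x l2, h1, h2, t01, t11, t02, t12]
    ext i
    fin_cases i
    · show c 0 * 1 + _ * 0 + _ * 0 = c 0
      ring
    · show c 0 * dt θ0 (dl D x P l3) + (c 1 - c 0 * dt θ0 (dl D x P l3)) * 1 + _ * 0 = c 1
      ring
    · show c 0 * dt θ1 (dl D x P l3) + _ * 0 + (c 2 - c 0 * dt θ1 (dl D x P l3)) * 1 = c 2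
      ring
  have hfin : Module.finrank Ω (LinearMap.ker G) = 3 := by
    have e := LinearMap.finrank_range_add_finrank_ker G
    rw [LinearMap.range_eq_top.2 hsurj, finrank_top, Module.finrank_fin_fun,
      Module.finrank_fin_fun] at e
    omega
  let b := Module.finBasisOfFinrankEq Ω (LinearMap.ker G) hfin
  have hk : ∀ l ∈ LinearMap.ker G, dt l x = 0 ∧ dt θ0 (dl D x P l) = 0 ∧
      dt θ1 (dl D x P l) = 0 := by
    intro l hl
    have e : ![dt x l, dt θ0 (dl D x P l), dt θ1 (dl D x P l)] = (0 : Fin 3 → Ω) := by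
      rw [← hG]
      exact LinearMap.mem_ker.1 hl
    refine ⟨?_, congrFun e 1, congrFun e 2⟩
    rw [dt_comm']
    exact congrFun e 0
  refine ⟨fun i => (b i : Fin 6 → Ω), ?_, ?_, ?_, ?_⟩
  · exact b.linearIndependent.map' (LinearMap.ker G).subtype (Submodule.ker_subtype _)
  · intro i
    exact (hk _ (b i).2).1
  · intro i l' hl'
    rw [lit, key _ _ (hk _ (b i).2).1 hl', (hk _ (b i).2).2.1, (hk _ (b i).2).2.2]
    ring
  · intro l hl hz
    have e1 := hz l1 h1
    have e2 := hz l2 h2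
    rw [lit, key _ _ hl h1, t01, t11] at e1
    rw [lit, key _ _ hl h2, t02, t12] at e2
    have f1 : dt θ1 (dl D x P l) = 0 := by
      rcases mul_eq_zero.1 e1 with e | e
      · exact absurd e hne
      · linear_combination -e
    have f0 : dt θ0 (dl D x P l) = 0 := by
      rcases mul_eq_zero.1 e2 with e | e
      · exact absurd e hne
      · linear_combination e
    have hl' : l ∈ LinearMap.ker G := by
      rw [LinearMap.mem_ker, hG, dt_comm' x l, hl, f0, f1]
      ext i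
      fin_cases i <;> rfl
    have hr : Set.range (fun i => (b i : Fin 6 → Ω)) = (LinearMap.ker G).subtype '' Set.range b := by
      rw [← Set.range_comp]
      rfl
    rw [hr, Submodule.span_image, b.span_eq, Submodule.map_top, Submodule.range_subtype]
    exact hl'

end Pool.Agent.Helper74.Q8

end

section

/-!
# Q8-MATS: the matrices

`w = ![D_(P1 l_0) x, D_(P1 l_1) x, D_(P2 l_0) x, D_(P2 l_1) x]`, `vol_coord` gives `θ_0, .., θ_3`; let
`θ_(0,0), θ_(0,1), θ_(1,0), θ_(1,1)` be these. `det`: the determinant is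
`T4 D x P Q (l 0) (l 1) (l 0) (l 1) / vol w`, both in `B` (`rat`); reindex `Fin 4` by
`Fin 2 ⊕ Fin 2` (`finSumFinEquiv`, `Matrix.det_reindex_self` or `Matrix.det_submatrix_equiv_self`).
-/

set_option autoImplicit false

namespace Pool.Agent.Helper74.Q8

open scoped BigOperators
open MvPolynomial
open Pool.Agent.Helper8.LG (Bdd form mon)
open Pool.Agent.Helper49.LN (cP mo hf pl)
open Pool.Agent.Helper6.QS

variable {Ω : Type*} [Field Ω] [CharZero Ω] {q : ℕ} {D : Sym (Fin 6) q → Derivation ℤ Ω Ω}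
  {a : Sym (Fin 6) q → Ω} {B : Subfield Ω} {x n : Fin 6 → Ω}

omit [CharZero Ω] in
theorem mats_T4 (l : Fin 2 → Fin 6 → Ω) (P Q : MvPolynomial (Fin 6) Ω) (w : Fin 4 → Fin 6 → Ω)
    (hw : w = ![dl D x P (l 0), dl D x P (l 1), dl D x Q (l 0), dl D x Q (l 1)]) :
    T4 D x P Q (l 0) (l 1) (l 0) (l 1) = vol D x w := by
  unfold T4
  exact congrArg (vol D x) hw.symm

theorem mats {k : Fin 3 → Fin 6 → Ω} {l : Fin 2 → Fin 6 → Ω} (pl : Pl8 D a B x n k l)
    (P1 P2 : MvPolynomial (Fin 6) Ω) (hP1 : RatP B P1) (hP2 : RatP B P2)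
    (hne : T4 D x P1 P2 (l 0) (l 1) (l 0) (l 1) ≠ 0) :
    ∃ θ : Fin 2 → Fin 2 → Fin 6 → Ω, Mt8 D a B x n k l θ P1 P2 := by
  have ht : ∀ (P : MvPolynomial (Fin 6) Ω) (i : Fin 2), dt n (dl D x P (l i)) = 0 := fun P i =>
    vol_tan pl.pt P (l i) (pl.lx i)
  obtain ⟨w, hwd⟩ : ∃ w : Fin 4 → Fin 6 → Ω,
      w = ![dl D x P1 (l 0), dl D x P1 (l 1), dl D x P2 (l 0), dl D x P2 (l 1)] := ⟨_, rfl⟩
  have h0 : vol D x w ≠ 0 := by
    rw [← mats_T4 l P1 P2 w hwd]
    exact hne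
  have h4 : vol D x w ∈ B := by
    rw [← mats_T4 l P1 P2 w hwd]
    exact pl.rat P1 P2 hP1 hP2
  have hw : ∀ i, dt n (w i) = 0 := by
    intro i
    rw [hwd]
    fin_cases i
    · exact ht P1 0
    · exact ht P1 1
    · exact ht P2 0
    · exact ht P2 1
  obtain ⟨t, ht0, ht1, -, ht3, ht4⟩ := vol_coord pl.pt w hw h0
  have w0 : w 0 = dl D x P1 (l 0) := by rw [hwd]; rfl
  have w1 : w 1 = dl D x P1 (l 1) := by rw [hwd]; rfl
  have w2 : w 2 = dl D x P2 (l 0) := by rw [hwd]; rfl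
  have w3 : w 3 = dl D x P2 (l 1) := by rw [hwd]; rfl
  refine ⟨![![t 0, t 1], ![t 2, t 3]], pl, hP1, hP2, ?_, ?_, ?_, ?_, ?_, ?_, ?_⟩
  · intro s j
    fin_cases s <;> fin_cases j
    · exact ht0 0
    · exact ht0 1
    · exact ht0 2
    · exact ht0 3
  · intro v hv h
    refine ht3 v hv fun j => ?_
    fin_cases j
    · exact h 0 0
    · exact h 0 1
    · exact h 1 0
    · exact h 1 1
  · ext i j
    rw [um_apply]
    fin_cases i <;> fin_cases j
    · exact (congrArg (dt (t 0)) w0).symm.trans (ht1 0 0)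
    · exact (congrArg (dt (t 1)) w0).symm.trans (ht1 0 1)
    · exact (congrArg (dt (t 0)) w1).symm.trans (ht1 1 0)
    · exact (congrArg (dt (t 1)) w1).symm.trans (ht1 1 1)
  · ext i j
    rw [um_apply]
    fin_cases i <;> fin_cases j
    · exact (congrArg (dt (t 2)) w0).symm.trans (ht1 0 2)
    · exact (congrArg (dt (t 3)) w0).symm.trans (ht1 0 3)
    · exact (congrArg (dt (t 2)) w1).symm.trans (ht1 1 2)
    · exact (congrArg (dt (t 3)) w1).symm.trans (ht1 1 3)
  · ext i j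
    rw [um_apply]
    fin_cases i <;> fin_cases j
    · exact (congrArg (dt (t 0)) w2).symm.trans (ht1 2 0)
    · exact (congrArg (dt (t 1)) w2).symm.trans (ht1 2 1)
    · exact (congrArg (dt (t 0)) w3).symm.trans (ht1 3 0)
    · exact (congrArg (dt (t 1)) w3).symm.trans (ht1 3 1)
  · ext i j
    rw [um_apply]
    fin_cases i <;> fin_cases j
    · exact (congrArg (dt (t 2)) w2).symm.trans (ht1 2 2)
    · exact (congrArg (dt (t 3)) w2).symm.trans (ht1 2 3)
    · exact (congrArg (dt (t 2)) w3).symm.trans (ht1 3 2)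
    · exact (congrArg (dt (t 3)) w3).symm.trans (ht1 3 3)
  · intro P Q hP hQ
    obtain ⟨v, hvd⟩ : ∃ v : Fin 4 → Fin 6 → Ω,
        v = ![dl D x P (l 0), dl D x P (l 1), dl D x Q (l 0), dl D x Q (l 1)] := ⟨_, rfl⟩
    have h3 : vol D x v ∈ B := by
      rw [← mats_T4 l P Q v hvd]
      exact pl.rat P Q hP hQ
    have hv : ∀ i, dt n (v i) = 0 := by
      intro i
      rw [hvd]
      fin_cases i
      · exact ht P 0
      · exact ht P 1
      · exact ht Q 0
      · exact ht Q 1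
    have h1 := ht4 v hv
    have h2 : Matrix.fromBlocks (um D x l ![![t 0, t 1], ![t 2, t 3]] 0 P)
        (um D x l ![![t 0, t 1], ![t 2, t 3]] 1 P) (um D x l ![![t 0, t 1], ![t 2, t 3]] 0 Q)
        (um D x l ![![t 0, t 1], ![t 2, t 3]] 1 Q) =
        (Matrix.of fun i j => dt (t j) (v i)).submatrix
          (finSumFinEquiv (m := 2) (n := 2)) (finSumFinEquiv (m := 2) (n := 2)) := by
      rw [hvd]
      ext i j
      rcases i with i | i <;> rcases j with j | j <;> fin_cases i <;> fin_cases j <;> rfl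
    rw [h2, Matrix.det_submatrix_equiv_self]
    have h5 : (Matrix.of fun i j => dt (t j) (v i)).det = vol D x v / vol D x w := by
      rw [h1, mul_div_cancel_left₀ _ h0]
    rw [h5]
    exact div_mem h3 h4

end Pool.Agent.Helper74.Q8

end

section

/-!
# Q8-FINQ8: the last step of the plane case

`Q` is a rational quadratic form and `D_(Q C l) x` is proportional to `x` for all `C` and all
`l ∈ R`. For forms `C`, `C'` of degree 6 the form `C(x) C' - C'(x) C` vanishes at `x`, so it is a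
combination of `C'' l`, `l ∈ R`: `C(x) (x ∧ D_(QC') x) = C'(x) (x ∧ D_(QC) x)`. So
`w = x ∧ D_(Q X_0^6) x` satisfies `x ∧ D_(Q X_m^6) x = x_m^6 w`. If `w = 0`, then `D_(Q X_0^6) x` is
proportional to `x`, and `0 = n . D_(Q X_0^6) x = - Q(x)`. If `w ≠ 0`, at a valuation ring with
maximal coordinate `m`, `x' = x / x_m`: `w = x_m^(2 - 6) x' ∧ D_(Q X_m^6) x'`, so `Δ^3 w x_m^4 ∈ O`,
so `Δ^3 w x_m ∈ O` (`1 / x_m = x_0 / x_m ∈ O`), and `rat_pt` applies to a coordinate of `w`.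
Compare `Helper6/QS/FinQ.lean`.
-/

set_option autoImplicit false

namespace Pool.Agent.Helper74.Q8

open scoped BigOperators
open MvPolynomial
open Pool.Agent.Helper8.LG (Bdd form mon)
open Pool.Agent.Helper49.LN (cP mo hf pl)
open Pool.Agent.Helper6.QS

section

variable {Ω : Type*} [Field Ω] {σ : Type*} [Fintype σ] [DecidableEq σ]

theorem FinQ8_dt_rr (x : σ → Ω) (o m : σ) : dt (rr x o m) x = 0 := by
  unfold dt rr
  simp only [sub_mul, mul_assoc, ite_mul, one_mul, zero_mul, Finset.sum_sub_distrib,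
    mul_ite, mul_zero, Finset.sum_ite_eq', Finset.mem_univ, if_true]
  ring

theorem FinQ8_lf_rr (x : σ → Ω) (o : σ) (hx : x o = 1) (m : σ) :
    lf (rr x o m) = X m - C (x m) * X o := by
  unfold lf rr
  simp only [hx, sub_smul, Finset.sum_sub_distrib, ite_smul, one_smul, zero_smul,
    mul_ite, mul_one, mul_zero, Finset.sum_ite_eq', Finset.mem_univ, if_true, smul_eq_C_mul]

/-- not proportional: a coordinate of the wedge product is not zero -/
theorem FinQ8_par (x v : σ → Ω) (o : σ) (hx : x o = 1) (h : ∀ j l, pl x v j l = 0) : Par x v := by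
  refine ⟨v o, ?_⟩
  funext l
  have h1 := h o l
  unfold pl at h1
  rw [hx, one_mul] at h1
  rw [Pi.smul_apply, smul_eq_mul, mul_comm]
  exact sub_eq_zero.1 h1

/-- the directions `Q X_m^6`, for an arbitrary linear map -/
theorem FinQ8_lin (L : MvPolynomial σ Ω →ₗ[Ω] (σ → Ω)) (x : σ → Ω) (o : σ) (hx : x o = 1)
    (Q : MvPolynomial σ Ω)
    (hpar : ∀ C l, dt l x = 0 → Par x (L (C * Q * lf l))) (m : σ) :
    ∃ c : Ω, L (Q * X m ^ 6) = (x m) ^ 6 • L (Q * X o ^ 6) + c • x := by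
  obtain ⟨c, hc⟩ := hpar (X m ^ 5 + C (x m) * X m ^ 4 * X o + C (x m) ^ 2 * X m ^ 3 * X o ^ 2 +
    C (x m) ^ 3 * X m ^ 2 * X o ^ 3 + C (x m) ^ 4 * X m * X o ^ 4 + C (x m) ^ 5 * X o ^ 5)
    (rr x o m) (FinQ8_dt_rr x o m)
  refine ⟨c, ?_⟩
  have hdec : Q * X m ^ 6 = C ((x m) ^ 6) * (Q * X o ^ 6) +
      (X m ^ 5 + C (x m) * X m ^ 4 * X o + C (x m) ^ 2 * X m ^ 3 * X o ^ 2 +
        C (x m) ^ 3 * X m ^ 2 * X o ^ 3 + C (x m) ^ 4 * X m * X o ^ 4 + C (x m) ^ 5 * X o ^ 5) *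
        Q * lf (rr x o m) := by
    rw [FinQ8_lf_rr x o hx m, C_pow]
    ring
  rw [hdec, map_add, ← smul_eq_C_mul, map_smul, hc]

omit [Fintype σ] [DecidableEq σ] in
theorem FinQ8_coeff (O : ValuationSubring Ω) (Δ : Ω) (Q : MvPolynomial σ Ω)
    (h : ∀ k, Δ * coeff k Q ∈ O) (m : σ) (k : σ →₀ ℕ) :
    Δ ^ 1 * coeff k (Q * X m ^ 6) ∈ O := by
  rw [X_pow_eq_monomial, coeff_mul_monomial', pow_one]
  split_ifs with h1
  · rw [mul_one]
    exact h _
  · rw [mul_zero]
    exact zero_mem _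

omit [Fintype σ] [DecidableEq σ] in
theorem FinQ8_alg (x V U : σ → Ω) (m : σ) (hm : x m ≠ 0) (c c' : Ω)
    (e : x m ^ 6 • V + c • x = x m • U + c' • x) (j l : σ) :
    pl x V j l * x m ^ 4 = x j / x m * U l - x l / x m * U j := by
  have e1 : ∀ i, x m ^ 6 * V i + c * x i = x m * U i + c' * x i := by
    intro i
    have := congrFun e i
    simpa only [Pi.add_apply, Pi.smul_apply, smul_eq_mul] using this
  unfold pl
  have h1 : x m ^ 2 * ((x j * V l - x l * V j) * x m ^ 4) =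
      x m ^ 2 * (x j / x m * U l - x l / x m * U j) := by
    have h2 : x m ^ 2 * (x j / x m * U l - x l / x m * U j) =
        x j * (x m * U l) - x l * (x m * U j) := by
      field_simp
    rw [h2]
    have h3 := e1 l
    have h4 := e1 j
    linear_combination x j * h3 - x l * h4
  exact mul_left_cancel₀ (pow_ne_zero 2 hm) h1

omit [Fintype σ] [DecidableEq σ] in
theorem FinQ8_mem (O : ValuationSubring Ω) (Δ : Ω) (x V U : σ → Ω) (m o : σ) (hx : x o = 1)
    (hm : x m ≠ 0) (hxm : ∀ l, x l / x m ∈ O) (c c' : Ω)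
    (e : x m ^ 6 • V + c • x = x m • U + c' • x) (hb : ∀ l, Δ ^ (1 + 1) * U l ∈ O)
    (j l : σ) : Δ ^ 2 * (pl x V j l * x m) ∈ O := by
  have m1 : Δ ^ 2 * (x j / x m * U l) ∈ O := by
    have := mul_mem (hxm j) (hb l)
    have e : x j / x m * (Δ ^ (1 + 1) * U l) = Δ ^ 2 * (x j / x m * U l) := by ring
    rw [← e]
    exact this
  have m2 : Δ ^ 2 * (x l / x m * U j) ∈ O := by
    have := mul_mem (hxm l) (hb j)
    have e : x l / x m * (Δ ^ (1 + 1) * U j) = Δ ^ 2 * (x l / x m * U j) := by ring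
    rw [← e]
    exact this
  have m3 : Δ ^ 2 * (pl x V j l * x m ^ 4) ∈ O := by
    rw [FinQ8_alg x V U m hm c c' e j l, mul_sub]
    exact sub_mem m1 m2
  have m4 : (1 / x m) ^ 3 ∈ O := by
    have := hxm o
    rw [hx] at this
    exact pow_mem this 3
  have h5 : Δ ^ 2 * (pl x V j l * x m) = (1 / x m) ^ 3 * (Δ ^ 2 * (pl x V j l * x m ^ 4)) := by
    field_simp
  rw [h5]
  exact mul_mem m4 m3

end

section

variable {Ω : Type*} [Field Ω] [CharZero Ω] {σ : Type*} [Fintype σ] [DecidableEq σ] {q : ℕ}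

/-- the general form, the degree `q` is `2 + 6` -/
theorem FinQ8_gen {D : Sym σ q → Derivation ℤ Ω Ω} {a : Sym σ q → Ω} {B : Subfield Ω}
    {x n : σ → Ω} (hfr : Frame D a B) (o : σ) (hx : x o = 1) (hnx : dt n x = 0)
    (hnf : ∀ f, dt n (dv D x f) = - ev q x f) (Q : MvPolynomial σ Ω) (hQ : RatP B Q)
    (hhom : (Q * X o ^ 6).IsHomogeneous q)
    (hpar : ∀ C l, dt l x = 0 → Par x (dv D x (C * Q * lf l))) :
    (∀ i, x i ∈ B) ∨ eval x Q = 0 := by
  have key : ∀ m : σ, ∃ c : Ω, dv D x (Q * X m ^ 6) =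
      (x m) ^ 6 • dv D x (Q * X o ^ 6) + c • x :=
    FinQ8_lin (dv D x) x o hx Q hpar
  by_cases hw : ∀ j l, pl x (dv D x (Q * X o ^ 6)) j l = 0
  · right
    obtain ⟨c, hc⟩ := FinQ8_par x _ o hx hw
    have h1 := hnf (Q * X o ^ 6)
    rw [hc, dt_smul', hnx, mul_zero, ev_hom q x _ hhom] at h1
    have h4 : eval x (Q * X o ^ 6) = eval x Q := by
      rw [map_mul, map_pow, eval_X, hx, one_pow, mul_one]
    rw [h4] at h1
    exact neg_eq_zero.1 h1.symm
  · left
    push Not at hw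
    obtain ⟨j, l, hjl⟩ := hw
    classical
    refine rat_pt hfr x o hx (Q.support.image fun k => coeff k Q) ?_
      (pl x (dv D x (Q * X o ^ 6)) j l) hjl 2 ?_
    · intro b hb
      obtain ⟨k, -, rfl⟩ := Finset.mem_image.1 hb
      exact hQ k
    · intro O Δ hΔ hs m hm hxm
      have hco : ∀ k, Δ * coeff k Q ∈ O := by
        intro k
        by_cases hk : k ∈ Q.support
        · exact hs _ (Finset.mem_image_of_mem _ hk)
        · rw [notMem_support_iff.1 hk, mul_zero]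
          exact zero_mem _
      obtain ⟨c, hc⟩ := key m
      obtain ⟨c', hc'⟩ := dv_scale D x m hm (Q * X m ^ 6)
      have hb := dv_bdd D (fun l => x l / x m) O Δ hΔ hxm (Q * X m ^ 6) 1
        (FinQ8_coeff O Δ Q hco m)
      exact FinQ8_mem O Δ x _ _ m o hx hm hxm c c' (hc.symm.trans hc') hb j l

end

variable {Ω : Type*} [Field Ω] [CharZero Ω] {q : ℕ} {D : Sym (Fin 6) q → Derivation ℤ Ω Ω}
  {a : Sym (Fin 6) q → Ω} {B : Subfield Ω} {x n : Fin 6 → Ω}

theorem fin_q8 (h : Pt8 D a B x n) (Q : MvPolynomial (Fin 6) Ω) (hQ : RatP B Q)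
    (hQ2 : Q.IsHomogeneous 2)
    (hpar : ∀ C l, dt l x = 0 → Par x (dv D x (C * Q * lf l))) :
    (∀ i, x i ∈ B) ∨ eval x Q = 0 := by
  have hhom : (Q * X (0 : Fin 6) ^ 6).IsHomogeneous q := by
    rw [h.hq]
    exact hQ2.mul (by simpa using (isHomogeneous_X Ω (0 : Fin 6)).pow 6)
  exact FinQ8_gen h.frame 0 h.one h.nx h.nf Q hQ hhom hpar

end Pool.Agent.Helper74.Q8

end
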