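import Pool.Agent.Helper74.MG.T82
import Pool.Agent.Helper74.MG.T83
import Pool.Agent.Helper74.MG.T61

section

/-!
# Q8-LINES6: points on a rational line

`two_line`: if `α = 0`, or `β = 0`, or `z'` is a multiple of `z`, then `x` is a multiple of a
rational vector and `x_0 = 1`. Otherwise `y = α⁻¹ z'` satisfies `pl x y j l = pl z z' j l ∈ B`, not all
zero, and `line_mem` applies (`2 * 6 ≤ 8 + 4`).
`four_line`: the vectors `y` with `k_i . y = 0` form a space of dimension 2 which contains `x`;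
`ker_rat`: it is spanned by its rational elements, choose a rational basis `z, z'`.
-/

set_option autoImplicit false

namespace Pool.Agent.Helper74.Q8

open scoped BigOperators
open MvPolynomial
open Pool.Agent.Helper8.LG (Bdd form mon)
open Pool.Agent.Helper49.LN (cP mo hf pl)
open Pool.Agent.Helper6.QS

/-- a multiple of a rational vector with a coordinate `1` is rational -/
theorem Lines6_mul {Ω : Type*} [Field Ω] {σ : Type*} {B : Subfield Ω} {x z : σ → Ω} {i₀ : σ}
    (hx1 : x i₀ = 1) (hz : ∀ i, z i ∈ B) (β : Ω) (h : ∀ i, x i = β * z i) : ∀ i, x i ∈ B := by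
  have h1 : β * z i₀ = 1 := by rw [← h, hx1]
  have h2 : z i₀ ≠ 0 := by
    intro h0
    rw [h0, mul_zero] at h1
    exact zero_ne_one h1
  have h3 : β = (z i₀)⁻¹ := eq_inv_of_mul_eq_one_left h1
  intro i
  rw [h i, h3]
  exact B.mul_mem (B.inv_mem (hz i₀)) (hz i)

/-- the two-dimensional space of solutions of four independent equations in dimension `6` -/
theorem Lines6_span {Ω : Type*} [Field Ω] (k : Fin 4 → Fin 6 → Ω) (hk : LinearIndependent Ω k)
    (z z' : Fin 6 → Ω) (hz : ∀ i, ∑ j, z j * k i j = 0) (hz' : ∀ i, ∑ j, z' j * k i j = 0)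
    (hzz : LinearIndependent Ω ![z, z']) (x : Fin 6 → Ω) (hx : ∀ i, ∑ j, x j * k i j = 0) :
    ∃ α β : Ω, x = α • z + β • z' := by
  set K : Matrix (Fin 4) (Fin 6) Ω := Matrix.of k with hK
  have hrank : K.rank = 4 := by
    have h1 := LinearIndependent.rank_matrix (M := K) hk
    rwa [Fintype.card_fin] at h1
  have hmem : ∀ y : Fin 6 → Ω, (∀ i, ∑ j, y j * k i j = 0) → y ∈ LinearMap.ker K.mulVecLin := by
    intro y hy
    rw [LinearMap.mem_ker, Matrix.mulVecLin_apply]
    funext i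
    rw [Pi.zero_apply, ← hy i]
    show ∑ j, k i j * y j = _
    exact Finset.sum_congr rfl fun j _ => mul_comm _ _
  have hker : Module.finrank Ω (LinearMap.ker K.mulVecLin) = 2 := by
    have h1 := LinearMap.finrank_range_add_finrank_ker K.mulVecLin
    have h2 : Module.finrank Ω (LinearMap.range K.mulVecLin) = 4 := hrank
    rw [h2, Module.finrank_fin_fun] at h1
    omega
  have hle : Submodule.span Ω (Set.range ![z, z']) ≤ LinearMap.ker K.mulVecLin := by
    rw [Submodule.span_le]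
    rintro _ ⟨i, rfl⟩
    fin_cases i
    · exact hmem z hz
    · exact hmem z' hz'
  have heq : Submodule.span Ω (Set.range ![z, z']) = LinearMap.ker K.mulVecLin := by
    apply Submodule.eq_of_le_of_finrank_le hle
    rw [hker, finrank_span_eq_card hzz, Fintype.card_fin]
  have h3 := hmem x hx
  rw [← heq, Matrix.range_cons, Matrix.range_cons, Matrix.range_empty, Set.union_empty,
    Set.singleton_union, Submodule.mem_span_pair] at h3
  obtain ⟨α, β, h4⟩ := h3
  exact ⟨α, β, h4.symm⟩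

variable {Ω : Type*} [Field Ω] [CharZero Ω] {q : ℕ} {D : Sym (Fin 6) q → Derivation ℤ Ω Ω}
  {a : Sym (Fin 6) q → Ω} {B : Subfield Ω} {x n : Fin 6 → Ω}

theorem two_line (h : Pt8 D a B x n) (z z' : Fin 6 → Ω) (hz : ∀ i, z i ∈ B)
    (hz' : ∀ i, z' i ∈ B) (α β : Ω) (hx : x = α • z + β • z') : ∀ i, x i ∈ B := by
  have hxi : ∀ i, x i = α * z i + β * z' i := by
    intro i
    conv_lhs => rw [hx]
    rfl
  by_cases hα : α = 0
  · refine Lines6_mul (i₀ := 0) h.one hz' β fun i => ?_
    rw [hxi i, hα, zero_mul, zero_add]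
  by_cases hpl : ∃ j l, pl z z' j l ≠ 0
  · have hy : ∀ j l, pl x (α⁻¹ • z') j l = pl z z' j l := by
      intro j l
      unfold pl
      rw [hxi j, hxi l, Pi.smul_apply, Pi.smul_apply, smul_eq_mul, smul_eq_mul]
      field_simp
      ring
    refine line_mem h.frame (by rw [Fintype.card_fin, h.hq]) x 0 h.one h.zero (α⁻¹ • z') ?_ ?_
    · obtain ⟨j, l, hjl⟩ := hpl
      exact ⟨j, l, by rw [hy]; exact hjl⟩
    · intro j l
      rw [hy]
      unfold pl
      exact B.sub_mem (B.mul_mem (hz _) (hz' _)) (B.mul_mem (hz _) (hz' _))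
  · push Not at hpl
    have hp : ∀ j l, z j * z' l = z l * z' j := by
      intro j l
      have h1 := hpl j l
      unfold pl at h1
      exact sub_eq_zero.1 h1
    have h0 : α * z 0 + β * z' 0 = 1 := by rw [← hxi, h.one]
    by_cases hz0 : z 0 = 0
    · have hz0' : z' 0 ≠ 0 := by
        intro h1
        rw [hz0, h1, mul_zero, mul_zero, add_zero] at h0
        exact zero_ne_one h0
      refine Lines6_mul (i₀ := 0) h.one hz' (z' 0)⁻¹ fun i => ?_
      have h1 := hp 0 i
      rw [hxi i]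
      field_simp
      linear_combination (-α) * h1 + z' i * h0
    · refine Lines6_mul (i₀ := 0) h.one hz (z 0)⁻¹ fun i => ?_
      have h1 := hp 0 i
      rw [hxi i]
      field_simp
      linear_combination β * h1 + z i * h0

theorem four_line (h : Pt8 D a B x n) (k : Fin 4 → Fin 6 → Ω) (hkB : ∀ i j, k i j ∈ B)
    (hkx : ∀ i, dt (k i) x = 0) (hk : LinearIndependent Ω k) : ∀ i, x i ∈ B := by
  have hx : ∀ i, ∑ j, x j * k i j = 0 := by
    intro i
    rw [← hkx i]
    unfold dt
    exact Finset.sum_congr rfl fun j _ => mul_comm _ _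
  have hspan := ker_rat B k hkB x hx
  by_cases hcase : ∃ z z' : Fin 6 → Ω, ((∀ j, z j ∈ B) ∧ ∀ i, ∑ j, z j * k i j = 0) ∧
      ((∀ j, z' j ∈ B) ∧ ∀ i, ∑ j, z' j * k i j = 0) ∧ LinearIndependent Ω ![z, z']
  · obtain ⟨z, z', h1, h2, h3⟩ := hcase
    obtain ⟨α, β, h4⟩ := Lines6_span k hk z z' h1.2 h2.2 h3 x hx
    exact two_line h z z' h1.1 h2.1 α β h4
  · push Not at hcase
    obtain ⟨z, hzS, hz0⟩ : ∃ z : Fin 6 → Ω, ((∀ j, z j ∈ B) ∧ ∀ i, ∑ j, z j * k i j = 0) ∧
        z ≠ 0 := by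
      by_contra hcon
      push Not at hcon
      have h1 : Submodule.span Ω {m : Fin 6 → Ω | (∀ j, m j ∈ B) ∧ ∀ i, ∑ j, m j * k i j = 0} ≤
          ⊥ := by
        rw [Submodule.span_le]
        intro m hm
        exact (Submodule.mem_bot Ω).2 (hcon m hm)
      have h2 := h1 hspan
      rw [Submodule.mem_bot] at h2
      have h3 := h.one
      rw [h2] at h3
      exact zero_ne_one h3
    have h1 : Submodule.span Ω {m : Fin 6 → Ω | (∀ j, m j ∈ B) ∧ ∀ i, ∑ j, m j * k i j = 0} ≤
        Submodule.span Ω {z} := by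
      rw [Submodule.span_le]
      intro m hm
      have h2 := hcase z m hzS hm
      rw [LinearIndependent.pair_iff' hz0] at h2
      push Not at h2
      obtain ⟨c, hc⟩ := h2
      exact Submodule.mem_span_singleton.2 ⟨c, hc⟩
    obtain ⟨c, hc⟩ := Submodule.mem_span_singleton.1 (h1 hspan)
    refine two_line h z z hzS.1 hzS.1 c 0 ?_
    rw [zero_smul, add_zero, hc]

end Pool.Agent.Helper74.Q8

end

section

/-!
# Q8-ANNPT6: the annihilator of a rational functional on forms of degree 7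

`A = {m | f(C m) = 0 for all C}` is a linear subspace; `f(C lf m) = ∑ m_j f(C X_j)`, for monomials
`C` a linear system over `B`: by `ker_rat` `A` is spanned by its rational elements. It contains `k_i`
and `l'`. If all rational elements of `A` are orthogonal to `x`, then (as `l'` is in their span, not
in the span of `k`) four of them are independent: `four_line`. Otherwise let `m0 ∈ A` be rational,
`m0 . x ≠ 0`; `l'` is not in the span of `k, m0` (evaluate at `x`), so there is a rational `m1 ∈ A`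
such that `k, m0, m1` are independent (dimension 5); let `z ≠ 0` be a rational common zero of these
(`ker_rat`). `f ≠ 0` and `hf7` imply `A ≠ everything`, so `A = z^⊥`, `dt l' z = 0`. A form of degree 7
with `P(z) = 0` is a combination `∑ C_i lf(m_i)` with `m_i . z = 0` (choose `j` with `z_j ≠ 0`:
modulo these, `X_i = (z_i / z_j) X_j`), so `f(P) = 0`. Compare `Helper6/QS/AnnPt.lean`.
-/

set_option autoImplicit false

namespace Pool.Agent.Helper74.Q8

open scoped BigOperators
open MvPolynomial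
open Pool.Agent.Helper8.LG (Bdd form mon)
open Pool.Agent.Helper49.LN (cP mo hf pl)
open Pool.Agent.Helper6.QS

section AnnPt6_gen

variable {Ω : Type*} [Field Ω] {σ : Type*} [Fintype σ] {B : Subfield Ω}

theorem AnnPt6_dt_add_left (u v w : σ → Ω) : dt (u + v) w = dt u w + dt v w := by
  simp only [dt, Pi.add_apply, add_mul, Finset.sum_add_distrib]

theorem AnnPt6_dt_smul_left (c : Ω) (u w : σ → Ω) : dt (c • u) w = c * dt u w := by
  simp only [dt, Pi.smul_apply, smul_eq_mul, Finset.mul_sum, mul_assoc]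

/-- the annihilator of `v` -/
noncomputable def AnnPt6_A (v : MvPolynomial σ Ω →ₗ[Ω] Ω) : Submodule Ω (σ → Ω) where
  carrier := {l | ∀ C, v (C * lf l) = 0}
  add_mem' := by
    intro a b ha hb C
    have h : lf (a + b) = lf a + lf b := by
      simp only [lf, Pi.add_apply, add_smul, Finset.sum_add_distrib]
    rw [h, mul_add, map_add, ha C, hb C, add_zero]
  zero_mem' := by
    intro C
    have h : lf (0 : σ → Ω) = 0 := by simp [lf]
    rw [h, mul_zero, map_zero]
  smul_mem' := by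
    intro c a ha C
    have h : lf (c • a) = c • lf a := by
      simp only [lf, Pi.smul_apply, smul_eq_mul, Finset.smul_sum, mul_smul]
    rw [h, mul_smul_comm, map_smul, ha C, smul_zero]

theorem AnnPt6_mem_A (v : MvPolynomial σ Ω →ₗ[Ω] Ω) (l : σ → Ω) :
    l ∈ AnnPt6_A v ↔ ∀ C, v (C * lf l) = 0 := Iff.rfl

theorem AnnPt6_v_mul_lf (v : MvPolynomial σ Ω →ₗ[Ω] Ω) (C : MvPolynomial σ Ω)
    (l : σ → Ω) : v (C * lf l) = ∑ i, l i * v (C * X i) := by
  simp only [lf, Finset.mul_sum, mul_smul_comm, map_sum, map_smul, smul_eq_mul]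

/-- the vectors `λ(l)` are in the annihilator -/
theorem AnnPt6_lam (v : MvPolynomial σ Ω →ₗ[Ω] Ω) (hvB : ∀ P, RatP B P → v P ∈ B)
    (l : σ → Ω) (hl : l ∈ AnnPt6_A v) (lam : Ω →ₗ[B] B) :
    (fun i => ((lam (l i) : B) : Ω)) ∈ AnnPt6_A v := by
  have key : ∀ s : σ →₀ ℕ,
      v (monomial s 1 * lf (fun i => ((lam (l i) : B) : Ω))) = 0 := by
    intro s
    have hB : ∀ i : σ, v (monomial s 1 * X i) ∈ B := by
      classical
      intro i
      apply hvB
      intro m
      rw [X, monomial_mul, coeff_monomial, mul_one]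
      split_ifs
      · exact B.one_mem
      · exact B.zero_mem
    rw [AnnPt6_v_mul_lf]
    have h1 := hl (monomial s 1)
    rw [AnnPt6_v_mul_lf] at h1
    have h2 : ∑ i, (⟨v (monomial s 1 * X i), hB i⟩ : B) • l i = 0 := by
      rw [← h1]
      refine Finset.sum_congr rfl fun i _ => ?_
      rw [Subfield.smul_def, smul_eq_mul, mul_comm]
    have h3 := congrArg lam h2
    rw [map_sum, map_zero] at h3
    simp only [map_smul, smul_eq_mul] at h3
    have h4 := congrArg (Subtype.val : B → Ω) h3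
    rw [show (Subtype.val (0 : B) : Ω) = 0 from rfl] at h4
    rw [← h4]
    rw [show (Subtype.val : B → Ω) = B.subtype from rfl, map_sum]
    refine Finset.sum_congr rfl fun i _ => ?_
    exact mul_comm _ _
  rw [AnnPt6_mem_A]
  intro C
  induction C using MvPolynomial.induction_on' with
  | monomial s a =>
    have h1 : (monomial s a : MvPolynomial σ Ω) = a • monomial s 1 := by
      rw [smul_monomial, smul_eq_mul, mul_one]
    rw [h1, smul_mul_assoc, map_smul, key, smul_zero]
  | add p q hp hq => rw [add_mul, map_add, hp, hq, add_zero]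

/-- a vector is a combination of the `λ(l)` -/
theorem AnnPt6_mem (M : Submodule Ω (σ → Ω)) (l : σ → Ω)
    (h : ∀ lam : Ω →ₗ[B] B, (fun i => ((lam (l i) : B) : Ω)) ∈ M) : l ∈ M := by
  classical
  set e := Module.Basis.ofVectorSpace B Ω with he
  set S : Finset _ := Finset.univ.biUnion fun i : σ => (e.repr (l i)).support with hS
  have h1 : l = ∑ s ∈ S, e s • (fun i => ((e.coord s (l i) : B) : Ω)) := by
    funext i
    rw [Finset.sum_apply]
    have h2 := e.linearCombination_repr (l i)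
    rw [Finsupp.linearCombination_apply] at h2
    rw [Finsupp.sum_of_support_subset (s := S) _ _ _ (by intro s _; exact zero_smul _ _)] at h2
    · refine h2.symm.trans ?_
      refine Finset.sum_congr rfl fun s _ => ?_
      exact mul_comm _ _
    · intro s hs
      rw [hS, Finset.mem_biUnion]
      exact ⟨i, Finset.mem_univ _, hs⟩
  rw [h1]
  exact M.sum_mem fun s _ => M.smul_mem _ (h (e.coord s))

omit [Fintype σ] in
/-- the relation between the monomials -/
theorem AnnPt6_mono (v : MvPolynomial σ Ω →ₗ[Ω] Ω) (z : σ → Ω) (j : σ)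
    (hr : ∀ C (i : σ), z j * v (C * X i) = z i * v (C * X j)) (s : σ →₀ ℕ) :
    ∀ C, z j ^ s.degree * v (C * monomial s 1) =
      eval z (monomial s 1) * v (C * X j ^ s.degree) := by
  induction s using Finsupp.induction_linear with
  | zero => intro C; simp
  | add s t hs ht =>
    intro C
    have h1 : (monomial (s + t) 1 : MvPolynomial σ Ω) = monomial s 1 * monomial t 1 := by
      rw [monomial_mul, one_mul]
    rw [h1, map_add, pow_add, pow_add, ← mul_assoc C, (eval z).map_mul]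
    have h2 := ht (C * monomial s 1)
    have h3 := hs (C * X j ^ t.degree)
    have h4 : C * X j ^ t.degree * monomial s 1 = C * monomial s 1 * X j ^ t.degree := by ring
    have h5 : C * X j ^ t.degree * X j ^ s.degree = C * (X j ^ s.degree * X j ^ t.degree) := by
      ring
    rw [h4, h5] at h3
    rw [mul_assoc, h2]
    linear_combination (eval z (monomial t 1)) * h3
  | single i k =>
    induction k with
    | zero => intro C; simp
    | succ k ih =>
      intro C
      have h1 : (monomial (Finsupp.single i (k + 1)) 1 : MvPolynomial σ Ω) =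
          monomial (Finsupp.single i k) 1 * X i := by
        rw [X, monomial_mul, one_mul, ← Finsupp.single_add]
      have h2 : (Finsupp.single i (k + 1)).degree = k + 1 := Finsupp.degree_single _ _
      have h3 : (Finsupp.single i k).degree = k := Finsupp.degree_single _ _
      rw [h3] at ih
      rw [h1, h2, (eval z).map_mul, eval_X, pow_succ, pow_succ]
      have h4 := hr (C * monomial (Finsupp.single i k) 1) i
      have h5 := ih (C * X j)
      have h6 : C * X j * monomial (Finsupp.single i k) 1 =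
          C * monomial (Finsupp.single i k) 1 * X j := by ring
      have h7 : C * X j * X j ^ k = C * (X j ^ k * X j) := by ring
      rw [h6, h7] at h5
      rw [← mul_assoc C]
      linear_combination (z j ^ k) * h4 + z i * h5

omit [Fintype σ] in
/-- the value of `v` on a form -/
theorem AnnPt6_form (v : MvPolynomial σ Ω →ₗ[Ω] Ω) (z : σ → Ω) (j : σ)
    (hr : ∀ C (i : σ), z j * v (C * X i) = z i * v (C * X j)) (n : ℕ)
    (Q : MvPolynomial σ Ω) (hQ : Q.IsHomogeneous n) :
    z j ^ n * v Q = eval z Q * v (X j ^ n) := by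
  conv_lhs => rw [Q.as_sum]
  conv_rhs => rw [Q.as_sum]
  rw [map_sum, map_sum, Finset.mul_sum, Finset.sum_mul]
  refine Finset.sum_congr rfl fun s hs => ?_
  have h1 : s.degree = n := by
    have := hQ (mem_support_iff.1 hs)
    rwa [Finsupp.degree_eq_weight_one]
  have h2 := AnnPt6_mono v z j hr s 1
  rw [one_mul, one_mul, h1] at h2
  have h3 : (monomial s (coeff s Q) : MvPolynomial σ Ω) = coeff s Q • monomial s 1 := by
    rw [smul_monomial, smul_eq_mul, mul_one]
  rw [h3, map_smul, smul_eq_mul, smul_eval]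
  linear_combination (coeff s Q) * h2

/-- the functional `dt _ x` -/
def AnnPt6_ort (x : σ → Ω) : (σ → Ω) →ₗ[Ω] Ω where
  toFun := fun l => dt l x
  map_add' := fun a b => AnnPt6_dt_add_left a b x
  map_smul' := fun c a => AnnPt6_dt_smul_left c a x

/-- a rational common zero -/
theorem AnnPt6_zero {ι : Type*} [Fintype ι] (u : ι → σ → Ω) (hu : ∀ i j, u i j ∈ B)
    (hc : Fintype.card ι < Fintype.card σ) :
    ∃ z : σ → Ω, (∀ i, z i ∈ B) ∧ z ≠ 0 ∧ ∀ i, dt (u i) z = 0 := by
  set L : (σ → B) →ₗ[B] (ι → B) := Matrix.mulVecLin (Matrix.of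
    fun i j => (⟨u i j, hu i j⟩ : B)) with hL
  have hker : L.ker ≠ ⊥ := LinearMap.ker_ne_bot_of_finrank_lt (by
    rw [Module.finrank_fintype_fun_eq_card, Module.finrank_fintype_fun_eq_card]
    exact hc)
  obtain ⟨w, hw, hw0⟩ := L.ker.ne_bot_iff.1 hker
  have hw' : L w = 0 := hw
  refine ⟨fun i => ((w i : B) : Ω), fun i => (w i).2, ?_, ?_⟩
  · intro hz
    apply hw0
    funext i
    exact Subtype.ext (congrFun hz i)
  · intro i
    have h1 : ∑ j, (⟨u i j, hu i j⟩ : B) * w j = 0 := congrFun hw' i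
    have h2 := congrArg B.subtype h1
    rw [map_sum, map_zero] at h2
    exact h2

/-- the abstract conclusion -/
theorem AnnPt6_concl [DecidableEq σ] (v : MvPolynomial σ Ω →ₗ[Ω] Ω) (hv0 : v ≠ 0) {d : ℕ}
    (hv : ∀ P, v P = v (homogeneousComponent (d + 1) P)) {ι : Type*} [Fintype ι]
    (u : ι → σ → Ω) (hu : LinearIndependent Ω u) (hc : Fintype.card ι + 1 = Fintype.card σ)
    (huA : ∀ i, u i ∈ AnnPt6_A v) (z : σ → Ω) (hz0 : z ≠ 0) (hz : ∀ i, dt (u i) z = 0) :
    (∀ l ∈ AnnPt6_A v, dt l z = 0) ∧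
      ∀ P, eval z (homogeneousComponent (d + 1) P) = 0 → v P = 0 := by
  obtain ⟨j, hj⟩ : ∃ j, z j ≠ 0 := by
    by_contra hcon
    push Not at hcon
    exact hz0 (funext hcon)
  let fz : (σ → Ω) →ₗ[Ω] Ω :=
    { toFun := fun l => dt l z
      map_add' := fun a b => AnnPt6_dt_add_left a b z
      map_smul' := fun c a => AnnPt6_dt_smul_left c a z }
  have hfz : fz ≠ 0 := by
    intro h1
    have h2 := congrArg (fun f : (σ → Ω) →ₗ[Ω] Ω => f (Pi.single j 1)) h1
    have h3 : dt (Pi.single j 1) z = z j := by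
      rw [dt, Finset.sum_eq_single j]
      · simp
      · intro i _ hij
        rw [Pi.single_eq_of_ne hij, zero_mul]
      · intro h; exact absurd (Finset.mem_univ j) h
    exact hj (h3.symm.trans h2)
  have hsp : Submodule.span Ω (Set.range u) = fz.ker := by
    apply Submodule.eq_of_le_of_finrank_le
    · rw [Submodule.span_le]
      rintro _ ⟨i, rfl⟩
      exact hz i
    · have h1 := Module.Dual.finrank_ker_add_one_of_ne_zero (f := fz) hfz
      rw [finrank_span_eq_card hu]
      rw [Module.finrank_fintype_fun_eq_card] at h1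
      omega
  have hperp : ∀ l, dt l z = 0 → l ∈ AnnPt6_A v := by
    intro l hl
    have h1 : l ∈ fz.ker := hl
    rw [← hsp] at h1
    refine (Submodule.span_le.2 ?_) h1
    rintro _ ⟨i, rfl⟩
    exact huA i
  have hr : ∀ C (i : σ), z j * v (C * X i) = z i * v (C * X j) := by
    intro C i
    have h1 : dt (z j • Pi.single i 1 - z i • Pi.single j 1 : σ → Ω) z = 0 := by
      simp only [dt, Pi.sub_apply, Pi.smul_apply, smul_eq_mul, sub_mul, Finset.sum_sub_distrib,
        Pi.single_apply, mul_ite, mul_one, mul_zero, ite_mul, zero_mul, Finset.sum_ite_eq',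
        Finset.mem_univ, if_true]
      ring
    have h2 := hperp _ h1 C
    rw [AnnPt6_v_mul_lf] at h2
    simp only [Pi.sub_apply, Pi.smul_apply, smul_eq_mul, sub_mul, Finset.sum_sub_distrib,
        Pi.single_apply, mul_ite, mul_one, mul_zero, ite_mul, zero_mul, Finset.sum_ite_eq',
        Finset.mem_univ, if_true] at h2
    exact sub_eq_zero.1 h2
  have hform := fun Q hQ => AnnPt6_form v z j hr (d + 1) Q hQ
  refine ⟨?_, ?_⟩
  · intro l1 hA1
    by_contra hlz
    apply hv0
    have hall : ∀ l, l ∈ AnnPt6_A v := by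
      intro l
      have h1 : l = (l - (dt l z / dt l1 z) • l1) + (dt l z / dt l1 z) • l1 := by abel
      rw [h1]
      refine (AnnPt6_A v).add_mem (hperp _ ?_) ((AnnPt6_A v).smul_mem _ hA1)
      have h2 : dt (l - (dt l z / dt l1 z) • l1) z = dt l z - (dt l z / dt l1 z) * dt l1 z := by
        rw [sub_eq_add_neg, ← neg_smul, AnnPt6_dt_add_left, AnnPt6_dt_smul_left]
        ring
      rw [h2, div_mul_cancel₀ _ hlz, sub_self]
    have hX : v (X j ^ (d + 1)) = 0 := by
      have h1 := hall (Pi.single j 1) (X j ^ d)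
      rw [AnnPt6_v_mul_lf] at h1
      simp only [Pi.single_apply, ite_mul, one_mul, zero_mul, Finset.sum_ite_eq',
        Finset.mem_univ, if_true] at h1
      rwa [← pow_succ] at h1
    refine LinearMap.ext fun P => ?_
    have h1 := hform _ (homogeneousComponent_isHomogeneous (d + 1) P)
    rw [hX, mul_zero, mul_eq_zero] at h1
    rw [hv, LinearMap.zero_apply]
    exact h1.resolve_left (pow_ne_zero _ hj)
  · intro P hP
    have h1 := hform _ (homogeneousComponent_isHomogeneous (d + 1) P)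
    rw [hP, zero_mul, mul_eq_zero] at h1
    rw [hv]
    exact h1.resolve_left (pow_ne_zero _ hj)

end AnnPt6_gen

variable {Ω : Type*} [Field Ω] [CharZero Ω] {q : ℕ} {D : Sym (Fin 6) q → Derivation ℤ Ω Ω}
  {a : Sym (Fin 6) q → Ω} {B : Subfield Ω} {x n : Fin 6 → Ω}

theorem ann_pt6 {k : Fin 3 → Fin 6 → Ω} {l : Fin 2 → Fin 6 → Ω} (pl : Pl8 D a B x n k l)
    (l' : Fin 6 → Ω) (hl' : dt l' x = 0) (hk : l' ∉ Submodule.span Ω (Set.range k))
    (f : MvPolynomial (Fin 6) Ω →ₗ[Ω] Ω) (hf0 : f ≠ 0) (hfB : ∀ P, RatP B P → f P ∈ B)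
    (hf7 : ∀ P, f P = f (homogeneousComponent 7 P)) (fk : ∀ C i, f (C * lf (k i)) = 0)
    (fl : ∀ C, f (C * lf l') = 0) :
    (∀ i, x i ∈ B) ∨ ∃ z : Fin 6 → Ω, (∀ i, z i ∈ B) ∧ z ≠ 0 ∧ (∀ i, dt (k i) z = 0) ∧
      dt l' z = 0 ∧ ∀ P, eval z (homogeneousComponent 7 P) = 0 → f P = 0 := by
  classical
  have hA1 : l' ∈ AnnPt6_A f := fl
  have hkind : LinearIndependent Ω k := by
    have h1 := pl.ind.comp Sum.inl Sum.inl_injective
    exact h1
  have hkA : ∀ i, k i ∈ AnnPt6_A f := fun i C => fk C i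
  -- a first vector
  obtain ⟨lam, hm⟩ : ∃ lam : Ω →ₗ[B] B,
      (fun i => ((lam (l' i) : B) : Ω)) ∉ Submodule.span Ω (Set.range k) := by
    by_contra hcon
    push Not at hcon
    exact hk (AnnPt6_mem _ l' hcon)
  set m : Fin 6 → Ω := fun i => ((lam (l' i) : B) : Ω) with hmdef
  have hmB : ∀ i, m i ∈ B := fun i => (lam (l' i)).2
  have hmA : m ∈ AnnPt6_A f := AnnPt6_lam f hfB l' hA1 lam
  have hli : LinearIndependent Ω (Matrix.vecCons m k) := linearIndependent_finCons.2 ⟨hkind, hm⟩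
  have hliB : ∀ i j, (Matrix.vecCons m k) i j ∈ B := by
    intro i j
    refine Fin.cases ?_ (fun i => ?_) i
    · exact hmB j
    · exact pl.kB i j
  by_cases hmx : dt m x = 0
  · left
    refine four_line pl.pt (Matrix.vecCons m k) hliB ?_ hli
    intro i
    refine Fin.cases ?_ (fun i => ?_) i
    · exact hmx
    · exact pl.kx i
  right
  -- a second vector
  obtain ⟨lam', hm'⟩ : ∃ lam' : Ω →ₗ[B] B,
      (fun i => ((lam' (l' i) : B) : Ω)) ∉ Submodule.span Ω (Set.range (Matrix.vecCons m k)) := by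
    by_contra hcon
    push Not at hcon
    have h0 := AnnPt6_mem _ l' hcon
    rw [Matrix.range_cons, Set.singleton_union, Submodule.mem_span_insert] at h0
    obtain ⟨β, y, hy, hab⟩ := h0
    have hyx : dt y x = 0 := by
      have h2 : y ∈ (AnnPt6_ort x).ker := by
        refine (Submodule.span_le.2 ?_) hy
        rintro _ ⟨i, rfl⟩
        exact pl.kx i
      exact h2
    have h1 : dt l' x = β * dt m x := by
      rw [hab, AnnPt6_dt_add_left, AnnPt6_dt_smul_left, hyx, add_zero]
    rw [hl'] at h1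
    have h2 : β = 0 := (mul_eq_zero.1 h1.symm).resolve_right hmx
    rw [h2, zero_smul, zero_add] at hab
    exact hk (hab ▸ hy)
  set m' : Fin 6 → Ω := fun i => ((lam' (l' i) : B) : Ω) with hm'def
  have hm'B : ∀ i, m' i ∈ B := fun i => (lam' (l' i)).2
  have hm'A : m' ∈ AnnPt6_A f := AnnPt6_lam f hfB l' hA1 lam'
  have hli5 : LinearIndependent Ω (Matrix.vecCons m' (Matrix.vecCons m k)) :=
    linearIndependent_finCons.2 ⟨hli, hm'⟩
  have hB5 : ∀ i j, (Matrix.vecCons m' (Matrix.vecCons m k)) i j ∈ B := by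
    intro i j
    refine Fin.cases ?_ (fun i => ?_) i
    · exact hm'B j
    · exact hliB i j
  have hA5 : ∀ i, (Matrix.vecCons m' (Matrix.vecCons m k)) i ∈ AnnPt6_A f := by
    intro i
    refine Fin.cases ?_ (fun i => ?_) i
    · exact hm'A
    · refine Fin.cases ?_ (fun i => ?_) i
      · exact hmA
      · exact hkA i
  obtain ⟨z, hzB, hz0, hz⟩ := AnnPt6_zero (Matrix.vecCons m' (Matrix.vecCons m k)) hB5
    (by rw [Fintype.card_fin, Fintype.card_fin]; norm_num)
  obtain ⟨h1, h2⟩ := AnnPt6_concl f hf0 (d := 6) hf7 (Matrix.vecCons m' (Matrix.vecCons m k)) hli5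
    (by rw [Fintype.card_fin, Fintype.card_fin]) hA5 z hz0 hz
  exact ⟨z, hzB, hz0, fun i => h1 _ (hkA i), h1 _ hA1, h2⟩

end Pool.Agent.Helper74.Q8

end

section

/-!
# Q8-CASET: the triangular case

`tri_eig` for `A = um .. 0` and `A = um .. 1`: functionals `f_0, g_0, f_1, g_1`. For rational `P` the
numbers `f_s(P) + g_s(P)` and `f_s(P) g_s(P)` are in `B` (`traces`), so `f_s(P)` is algebraic over
`B`, so in `B` (`rat_alg`). `um s (C lf(k_i)) = 0` for all `C` (`dl_comm`, `kp`, `tx`), so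
`f_s(C lf(k_i)) = 0`. Let `l' = w_0 l_0 + w_1 l_1` (not in the span of `k`): `um s (C lf l') i j =
θ_(s,j) . D_(C l' l_i) x = ∑_i' w_i' um s (C lf(l_i)) i' j = (w A)_j` with `A = um s (C lf(l_i))`, so
`um s (C lf l') = μ w^T` and `um s (C lf l') v = 0`: `f_s(C lf l') = 0`. `f_s` only sees the part of
degree 7 (`dv_part`, `q = 7 + 1`). `f_0(P1) = 1, f_0(P2) = 0, f_1(P1) = 0, f_1(P2) = 1`. `ann_pt6` for
`f_0` and `f_1` gives rational `z, z'` orthogonal to `k_i, l'`. If they were proportional, `f_0` and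
`f_1` would both be multiples of the value at `z` of the part of degree 7, so proportional. So
`z, z'` is a basis of the vectors orthogonal to `k_0, k_1, k_2, l'` (independent), and `x` is such a
vector: `two_line`.
-/

set_option autoImplicit false

namespace Pool.Agent.Helper74.Q8

open scoped BigOperators
open MvPolynomial
open Pool.Agent.Helper8.LG (Bdd form mon)
open Pool.Agent.Helper49.LN (cP mo hf pl)
open Pool.Agent.Helper6.QS

section CaseT_gen

variable {Ω : Type*} [Field Ω] {σ : Type*} [Fintype σ] [DecidableEq σ] {q : ℕ}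

/-- the matrices of `C lf k` vanish when `k` does not move `x` -/
theorem CaseT_k (D : Sym σ q → Derivation ℤ Ω Ω) (x : σ → Ω) (l : Fin 2 → σ → Ω)
    (θ : Fin 2 → Fin 2 → σ → Ω) (s : Fin 2) (htx : ∀ j, dt (θ s j) x = 0) (k : σ → Ω)
    (hk : ∀ P, Par x (dl D x P k)) (C : MvPolynomial σ Ω) : um D x l θ s (C * lf k) = 0 := by
  ext i j
  rw [um_apply, dl_comm]
  obtain ⟨c, hc⟩ := hk (C * lf (l i))
  rw [hc, dt_smul', htx, mul_zero, Matrix.zero_apply]

open scoped Matrix in
/-- the matrices of `C lf l'`, `l' = w_0 l_0 + w_1 l_1` -/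
theorem CaseT_l (D : Sym σ q → Derivation ℤ Ω Ω) (x : σ → Ω) (l : Fin 2 → σ → Ω)
    (θ : Fin 2 → Fin 2 → σ → Ω) (s : Fin 2) (w : Fin 2 → Ω) (C : MvPolynomial σ Ω)
    (i j : Fin 2) : um D x l θ s (C * lf (w 0 • l 0 + w 1 • l 1)) i j =
      (w ᵥ* um D x l θ s (C * lf (l i))) j := by
  rw [um_apply, dl_comm, dl_add_right, dl_smul_right, dl_smul_right, dt_add', dt_smul', dt_smul',
    Matrix.vecMul, dotProduct, Fin.sum_univ_two, um_apply, um_apply]

/-- only one part counts -/
theorem CaseT_part (D : Sym σ q → Derivation ℤ Ω Ω) (x : σ → Ω) (l : Fin 2 → σ → Ω)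
    (θ : Fin 2 → Fin 2 → σ → Ω) (s : Fin 2) (n : ℕ) (hq : n + 1 = q) (P : MvPolynomial σ Ω) :
    um D x l θ s P = um D x l θ s (homogeneousComponent n P) := by
  ext i j
  rw [um_apply, um_apply, dl_eq, dl_eq, dv_part D x n 1 hq P (lf (l i)) (lf_hom (l i))]

omit [Fintype σ] [DecidableEq σ] in
theorem CaseT_alg {B : Subfield Ω} (f g : Ω) (ht : f + g ∈ B) (hd : f * g ∈ B) :
    IsAlgebraic B f := by
  obtain ⟨t, ht'⟩ : ∃ t : B, (t : Ω) = f + g := ⟨⟨_, ht⟩, rfl⟩
  obtain ⟨d, hd'⟩ : ∃ d : B, (d : Ω) = f * g := ⟨⟨_, hd⟩, rfl⟩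
  refine ⟨Polynomial.X ^ 2 - Polynomial.C t * Polynomial.X + Polynomial.C d, ?_, ?_⟩
  · intro h
    have h1 := congrArg (fun p => Polynomial.coeff p 2) h
    simp at h1
  · have h1 : algebraMap B Ω t = f + g := ht'
    have h2 : algebraMap B Ω d = f * g := hd'
    simp only [map_add, map_sub, map_mul, map_pow, Polynomial.aeval_X, Polynomial.aeval_C, h1, h2]
    ring

open scoped Matrix in
/-- the eigenvalue functional -/
theorem CaseT_fun (D : Sym σ q → Derivation ℤ Ω Ω) (x : σ → Ω) (l : Fin 2 → σ → Ω)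
    (θ : Fin 2 → Fin 2 → σ → Ω) (s : Fin 2) (v w : Fin 2 → Ω) (hv : v ≠ 0) (hwv : w ⬝ᵥ v = 0)
    (f g : MvPolynomial σ Ω →ₗ[Ω] Ω) (hf : ∀ P, um D x l θ s P *ᵥ v = f P • v)
    (hg : ∀ P, w ᵥ* um D x l θ s P = g P • w) {ι : Type*} (k : ι → σ → Ω)
    (htx : ∀ j, dt (θ s j) x = 0) (hk : ∀ P i, Par x (dl D x P (k i)))
    (n : ℕ) (hq : n + 1 = q) :
    (∀ P, f P = f (homogeneousComponent n P)) ∧ (∀ C i, f (C * lf (k i)) = 0) ∧
      ∀ C, f (C * lf (w 0 • l 0 + w 1 • l 1)) = 0 := by
  have hv' : ∀ a b : Ω, a • v = b • v → a = b := fun a b h => smul_left_injective Ω hv h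
  refine ⟨fun P => ?_, fun C i => ?_, fun C => ?_⟩
  · apply hv'
    rw [← hf, ← hf, ← CaseT_part D x l θ s n hq P]
  · apply hv'
    rw [← hf, CaseT_k D x l θ s htx (k i) (fun P => hk P i) C, Matrix.zero_mulVec, zero_smul]
  · apply hv'
    rw [← hf, zero_smul]
    funext i
    rw [Matrix.mulVec, dotProduct, Fin.sum_univ_two, CaseT_l, CaseT_l, hg, Pi.smul_apply,
      Pi.smul_apply, smul_eq_mul, smul_eq_mul, Pi.zero_apply]
    rw [dotProduct, Fin.sum_univ_two] at hwv
    linear_combination (g (C * lf (l i))) * hwv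

omit [Fintype σ] [DecidableEq σ] in
/-- two functionals which factor through proportional points are proportional -/
theorem CaseT_prop (f0 f1 : MvPolynomial σ Ω →ₗ[Ω] Ω) (n : ℕ) (z z' : σ → Ω) (c : Ω)
    (hc : z' = c • z) (h0 : ∀ P, eval z (homogeneousComponent n P) = 0 → f0 P = 0)
    (h1 : ∀ P, eval z' (homogeneousComponent n P) = 0 → f1 P = 0) (P1 P2 : MvPolynomial σ Ω)
    (a1 : f0 P1 = 1) (b1 : f1 P1 = 0) (b2 : f1 P2 = 1) : False := by
  obtain ⟨e1, he1⟩ : ∃ e1, e1 = eval z (homogeneousComponent n P1) := ⟨_, rfl⟩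
  obtain ⟨e2, he2⟩ : ∃ e2, e2 = eval z (homogeneousComponent n P2) := ⟨_, rfl⟩
  have hQ : eval z (homogeneousComponent n (e2 • P1 - e1 • P2)) = 0 := by
    rw [map_sub, map_smul, map_smul, map_sub, smul_eval, smul_eval, ← he1, ← he2, mul_comm,
      sub_self]
  have hz' : ∀ P : MvPolynomial σ Ω, eval z (homogeneousComponent n P) = 0 →
      eval z' (homogeneousComponent n P) = 0 := by
    intro P hP
    have h2 : eval (c • z) (homogeneousComponent n P) = c ^ n * eval z (homogeneousComponent n P) := by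
      have h3 := (homogeneousComponent_isHomogeneous n P)
      rw [eval_eq, eval_eq, Finset.mul_sum]
      refine Finset.sum_congr rfl fun d hd => ?_
      have h4 : d.degree = n := by
        have := h3 (mem_support_iff.1 hd)
        rwa [Finsupp.degree_eq_weight_one]
      have h5 : ∏ i ∈ d.support, (c • z) i ^ d i = c ^ n * ∏ i ∈ d.support, z i ^ d i := by
        have h6 : ∑ i ∈ d.support, d i = n := h4
        rw [← h6, ← Finset.prod_pow_eq_pow_sum, ← Finset.prod_mul_distrib]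
        exact Finset.prod_congr rfl fun i _ => by rw [Pi.smul_apply, smul_eq_mul, mul_pow]
      rw [h5]
      ring
    rw [hc, h2, hP, mul_zero]
  have h3 := h1 _ (hz' _ hQ)
  rw [map_sub, map_smul, map_smul, b1, b2, smul_zero, zero_sub, smul_eq_mul, mul_one,
    neg_eq_zero] at h3
  rw [h3] at he1
  have h4 := h0 P1 he1.symm
  rw [a1] at h4
  exact one_ne_zero h4

end CaseT_gen

theorem CaseT_dt_left {Ω : Type*} [Field Ω] {σ : Type*} [Fintype σ] (l : Fin 2 → σ → Ω)
    (w : Fin 2 → Ω) (x : σ → Ω) (h : ∀ i, dt (l i) x = 0) :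
    dt (w 0 • l 0 + w 1 • l 1) x = 0 := by
  rw [dt_comm', dt_add', dt_smul', dt_smul', dt_comm' x, dt_comm' x, h, h, mul_zero, mul_zero,
    add_zero]

/-- `l'` is not in the span of `k` -/
theorem CaseT_ind {Ω : Type*} [Field Ω] {σ : Type*} (k : Fin 3 → σ → Ω) (l : Fin 2 → σ → Ω)
    (hind : LinearIndependent Ω (Sum.elim k l)) (w : Fin 2 → Ω) (hw : w ≠ 0) :
    w 0 • l 0 + w 1 • l 1 ∉ Submodule.span Ω (Set.range k) := by
  intro h
  obtain ⟨-, h2, h3⟩ := linearIndependent_sum.1 hind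
  rw [Sum.elim_comp_inl, Sum.elim_comp_inr] at h3
  rw [Sum.elim_comp_inr] at h2
  have h4 : w 0 • l 0 + w 1 • l 1 ∈ Submodule.span Ω (Set.range l) :=
    Submodule.add_mem _ (Submodule.smul_mem _ _ (Submodule.subset_span ⟨0, rfl⟩))
      (Submodule.smul_mem _ _ (Submodule.subset_span ⟨1, rfl⟩))
  have h5 := Submodule.disjoint_def.1 h3 _ h h4
  have h6 := Fintype.linearIndependent_iff.1 h2 w (by rw [Fin.sum_univ_two]; exact h5)
  exact hw (funext h6)

variable {Ω : Type*} [Field Ω] [CharZero Ω] {q : ℕ} {D : Sym (Fin 6) q → Derivation ℤ Ω Ω}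
  {a : Sym (Fin 6) q → Ω} {B : Subfield Ω} {x n : Fin 6 → Ω}

open scoped Matrix in
theorem case_t {k : Fin 3 → Fin 6 → Ω} {l : Fin 2 → Fin 6 → Ω}
    {θ : Fin 2 → Fin 2 → Fin 6 → Ω} {P1 P2 : MvPolynomial (Fin 6) Ω}
    (m : Mt8 D a B x n k l θ P1 P2) (v w : Fin 2 → Ω) (hv : v ≠ 0) (hw : w ≠ 0)
    (hwv : w ⬝ᵥ v = 0) (hM : ∀ s P, w ⬝ᵥ (um D x l θ s P *ᵥ v) = 0) : ∀ i, x i ∈ B := by
  have pl := m.pl
  have hq : 7 + 1 = q := pl.pt.hq.symm
  have htr : ∀ P, RatP B P → (um D x l θ 0 P).trace ∈ B ∧ (um D x l θ 1 P).trace ∈ B ∧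
      (um D x l θ 0 P).det ∈ B ∧ (um D x l θ 1 P).det ∈ B := by
    intro P hP
    obtain ⟨h1, h2, h3, h4, -⟩ := traces (um D x l θ 0) (um D x l θ 1) P1 P2 m.r1 m.r2 m.a1 m.c1
      m.a2 m.c2 m.det P P hP hP
    exact ⟨h1, h2, h3, h4⟩
  obtain ⟨f0, g0, hf0, hg0, ht0⟩ := tri_eig (um D x l θ 0) v w hv hw hwv (hM 0)
  obtain ⟨f1, g1, hf1, hg1, ht1⟩ := tri_eig (um D x l θ 1) v w hv hw hwv (hM 1)
  have hB0 : ∀ P, RatP B P → f0 P ∈ B := fun P hP =>
    rat_alg pl.pt.frame _ (CaseT_alg (f0 P) (g0 P) (by rw [← (ht0 P).1]; exact (htr P hP).1)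
      (by rw [← (ht0 P).2]; exact (htr P hP).2.2.1))
  have hB1 : ∀ P, RatP B P → f1 P ∈ B := fun P hP =>
    rat_alg pl.pt.frame _ (CaseT_alg (f1 P) (g1 P) (by rw [← (ht1 P).1]; exact (htr P hP).2.1)
      (by rw [← (ht1 P).2]; exact (htr P hP).2.2.2))
  obtain ⟨p0, k0, l0⟩ := CaseT_fun D x l θ 0 v w hv hwv f0 g0 hf0 hg0 k (m.tx 0) pl.kp 7 hq
  obtain ⟨p1, k1, l1⟩ := CaseT_fun D x l θ 1 v w hv hwv f1 g1 hf1 hg1 k (m.tx 1) pl.kp 7 hq
  have hv' : ∀ a b : Ω, a • v = b • v → a = b := fun a b h => smul_left_injective Ω hv h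
  have e01 : f0 P1 = 1 := hv' _ _ (by rw [← hf0, m.a1, Matrix.one_mulVec, one_smul])
  have e11 : f1 P1 = 0 := hv' _ _ (by rw [← hf1, m.c1, Matrix.zero_mulVec, zero_smul])
  have e12 : f1 P2 = 1 := hv' _ _ (by rw [← hf1, m.c2, Matrix.one_mulVec, one_smul])
  obtain ⟨l', hl'⟩ : ∃ l', l' = w 0 • l 0 + w 1 • l 1 := ⟨_, rfl⟩
  rw [← hl'] at l0 l1
  have hlx : dt l' x = 0 := by
    rw [hl']
    exact CaseT_dt_left l w x pl.lx
  have hli : l' ∉ Submodule.span Ω (Set.range k) := by
    rw [hl']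
    exact CaseT_ind k l pl.ind w hw
  rcases ann_pt6 pl l' hlx hli f0 (fun h => by rw [h] at e01; exact zero_ne_one e01) hB0 p0 k0 l0
    with h | ⟨z, hzB, hz0, hzk, hzl, hzf⟩
  · exact h
  rcases ann_pt6 pl l' hlx hli f1 (fun h => by rw [h] at e12; exact zero_ne_one e12) hB1 p1 k1 l1
    with h | ⟨z', hzB', hz0', hzk', hzl', hzf'⟩
  · exact h
  have hzz : LinearIndependent Ω ![z, z'] := by
    rw [LinearIndependent.pair_iff' hz0]
    intro c hc
    exact CaseT_prop f0 f1 7 z z' c hc.symm hzf hzf' P1 P2 e01 e11 e12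
  have hkind : LinearIndependent Ω k := by
    have h1 := pl.ind.comp Sum.inl Sum.inl_injective
    exact h1
  have hK : LinearIndependent Ω (Fin.cons l' k : Fin 4 → Fin 6 → Ω) := hkind.finCons hli
  have hsum : ∀ y : Fin 6 → Ω, (∀ i, dt (k i) y = 0) → dt l' y = 0 →
      ∀ i, ∑ j, y j * (Fin.cons l' k : Fin 4 → Fin 6 → Ω) i j = 0 := by
    intro y hy hy' i
    have h1 : ∀ u : Fin 6 → Ω, dt u y = 0 → ∑ j, y j * u j = 0 := by
      intro u hu
      rw [← hu]
      exact Finset.sum_congr rfl fun j _ => mul_comm _ _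
    refine Fin.cases ?_ (fun i => ?_) i
    · exact h1 l' hy'
    · exact h1 (k i) (hy i)
  obtain ⟨α, β, hx⟩ := Lines6_span _ hK z z' (hsum z hzk hzl) (hsum z' hzk' hzl') hzz x
    (hsum x pl.kx hlx)
  exact two_line pl.pt z z' hzB hzB' α β hx

end Pool.Agent.Helper74.Q8

end
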