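import Pool.Agent.Helper74.MG.T86
import Pool.Agent.Helper74.MG.T87
import Pool.Agent.Helper74.MG.T88
import Pool.Agent.Helper74.MG.T89
import Pool.Agent.Helper74.MG.T82
import Pool.Agent.Helper74.MG.T83
import Pool.Agent.Helper74.MG.T78
import Pool.Agent.Helper74.MG.T80
import Pool.Agent.Helper74.MG.T84
import Pool.Agent.Helper74.MG.T85

section

/-!
# Q8-PLANEA: the rational plane through the point

Let `S` be the span of the rational vectors orthogonal to `x`. If four of them are independent,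
`four_line`. So `dim S ≤ 3`. By `ker_dim` (`w = D_(P2 (rr x 0 b)) x`, ..) and `ker_span` the kernel of
the block `P1` modulo the block of `P2` has dimension 3 and is contained in `S`: so `dim S = 3`; let
`k` be a basis of `S` of rational vectors. For all other `P, Q, b', c'` with a nonzero `T4` the
kernel has dimension 3 and is contained in `S`, so it is `S`.
-/

set_option autoImplicit false

namespace Pool.Agent.Helper74.Q8

open scoped BigOperators
open MvPolynomial
open Pool.Agent.Helper8.LG (Bdd form mon)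
open Pool.Agent.Helper49.LN (cP mo hf pl)
open Pool.Agent.Helper6.QS

/-- a spanning set of a subspace which contains three independent vectors, but has no four
independent vectors, has three elements which are a basis -/
theorem PlaneA_basis {Ω V : Type*} [Field Ω] [AddCommGroup V] [Module Ω V] [FiniteDimensional Ω V]
    (S : Set V) (h4 : ∀ k : Fin 4 → V, (∀ i, k i ∈ S) → ¬ LinearIndependent Ω k)
    (h3 : ∃ k : Fin 3 → V, LinearIndependent Ω k ∧ ∀ i, k i ∈ Submodule.span Ω S) :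
    (∃ k : Fin 3 → V, (∀ i, k i ∈ S) ∧ LinearIndependent Ω k) ∧
      ∀ k : Fin 3 → V, LinearIndependent Ω k → (∀ i, k i ∈ Submodule.span Ω S) →
        Submodule.span Ω (Set.range k) = Submodule.span Ω S := by
  obtain ⟨s, hsS, hspan, hlin⟩ := exists_linearIndependent Ω S
  have : Fintype s := hlin.setFinite.fintype
  have hW : Module.finrank Ω (Submodule.span Ω S) = Fintype.card s := by
    have h1 := finrank_span_eq_card hlin
    rw [Subtype.range_coe, hspan] at h1
    exact h1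
  have hle : Fintype.card s ≤ 3 := by
    by_contra hcon
    have h5 : Fintype.card (Fin 4) ≤ Fintype.card s := by
      rw [Fintype.card_fin]
      omega
    obtain ⟨e⟩ := Function.Embedding.nonempty_of_card_le h5
    exact h4 (fun i => (e i).1) (fun i => hsS (e i).2) (hlin.comp e e.injective)
  have hge : ∀ k : Fin 3 → V, LinearIndependent Ω k → (∀ i, k i ∈ Submodule.span Ω S) →
      Submodule.span Ω (Set.range k) ≤ Submodule.span Ω S ∧
      Module.finrank Ω (Submodule.span Ω (Set.range k)) = 3 := by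
    intro k hk hkS
    refine ⟨?_, ?_⟩
    · rw [Submodule.span_le]
      rintro _ ⟨i, rfl⟩
      exact hkS i
    · rw [finrank_span_eq_card hk, Fintype.card_fin]
  obtain ⟨k0, hk0, hk0S⟩ := h3
  have h6 : 3 ≤ Fintype.card s := by
    rw [← hW, ← (hge k0 hk0 hk0S).2]
    exact Submodule.finrank_mono (hge k0 hk0 hk0S).1
  have hcard : Fintype.card s = 3 := le_antisymm hle h6
  refine ⟨?_, ?_⟩
  · obtain ⟨e⟩ : Nonempty (s ≃ Fin 3) := ⟨Fintype.equivFinOfCardEq hcard⟩
    exact ⟨fun i => (e.symm i).1, fun i => hsS (e.symm i).2, hlin.comp e.symm e.symm.injective⟩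
  · intro k hk hkS
    apply Submodule.eq_of_le_of_finrank_le (hge k hk hkS).1
    rw [hW, hcard, (hge k hk hkS).2]

variable {Ω : Type*} [Field Ω] [CharZero Ω] {q : ℕ} {D : Sym (Fin 6) q → Derivation ℤ Ω Ω}
  {a : Sym (Fin 6) q → Ω} {B : Subfield Ω} {x n : Fin 6 → Ω}

omit [CharZero Ω] in
/-- `T4` with names for the last two rows (the unifier does not see it otherwise) -/
theorem PlaneA_T4 (P Q : MvPolynomial (Fin 6) Ω) (l l' m m' w w' : Fin 6 → Ω)
    (hw : w = dl D x Q m) (hw' : w' = dl D x Q m') :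
    T4 D x P Q l l' m m' = vol D x ![dl D x P l, dl D x P l', w, w'] := by
  rw [T4, hw, hw']

/-- the kernel of a block modulo a rational block -/
theorem PlaneA_ker (h : Pt8 D a B x n) (P Q : MvPolynomial (Fin 6) Ω) (hP : RatP B P)
    (hQ : RatP B Q) (b' c' : Fin 6) (l l' : Fin 6 → Ω) (hl : dt l x = 0) (hl' : dt l' x = 0)
    (hne : T4 D x P Q l l' (rr x 0 b') (rr x 0 c') ≠ 0) :
    ∃ k : Fin 3 → Fin 6 → Ω, LinearIndependent Ω k ∧
      (∀ i, k i ∈ Submodule.span Ω {m : Fin 6 → Ω | (∀ j, m j ∈ B) ∧ dt m x = 0}) ∧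
      ∀ l'', dt l'' x = 0 → ∀ m ∈ Submodule.span Ω (Set.range k),
        T4 D x P Q m l'' (rr x 0 b') (rr x 0 c') = 0 := by
  obtain ⟨w, hw⟩ : ∃ w, w = dl D x Q (rr x 0 b') := ⟨_, rfl⟩
  obtain ⟨w', hw'⟩ : ∃ w', w' = dl D x Q (rr x 0 c') := ⟨_, rfl⟩
  have hn : dt n w = 0 := by
    rw [hw]
    exact vol_tan h Q _ (trat_rr_dt x 0 b')
  have hn' : dt n w' = 0 := by
    rw [hw']
    exact vol_tan h Q _ (trat_rr_dt x 0 c')
  have hne' : vol D x ![dl D x P l, dl D x P l', w, w'] ≠ 0 := by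
    rw [← PlaneA_T4 P Q l l' _ _ w w' hw hw']
    exact hne
  obtain ⟨k, hk1, hk2, hk3, -⟩ := ker_dim h P w w' hn hn' l l' hl hl' hne'
  have hk4 : ∀ i l'', dt l'' x = 0 → T4 D x P Q (k i) l'' (rr x 0 b') (rr x 0 c') = 0 := by
    intro i l'' hl''
    rw [PlaneA_T4 P Q (k i) l'' _ _ w w' hw hw']
    exact hk3 i l'' hl''
  refine ⟨k, hk1, fun i => ?_, ?_⟩
  · exact ker_span h P Q hP hQ b' c' l l' hl hl' hne (k i) (hk2 i) (hk4 i)
  · intro l'' hl'' m hm
    induction hm using Submodule.span_induction with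
    | mem m hm =>
      obtain ⟨i, rfl⟩ := hm
      exact hk4 i l'' hl''
    | zero =>
      have e := trat_left D x P Q 0 0 0 0 l'' (rr x 0 b') (rr x 0 c')
      rw [zero_smul, add_zero, zero_mul, add_zero] at e
      exact e
    | add u v _ _ hu hv =>
      have e := trat_left D x P Q 1 1 u v l'' (rr x 0 b') (rr x 0 c')
      rw [one_smul, one_smul, one_mul, one_mul, hu, hv, add_zero] at e
      exact e
    | smul r u _ hu =>
      have e := trat_left D x P Q r 0 u 0 l'' (rr x 0 b') (rr x 0 c')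
      rw [zero_smul, add_zero, zero_mul, add_zero, hu, mul_zero] at e
      exact e

theorem plane_a (h : Pt8 D a B x n) (P1 P2 : MvPolynomial (Fin 6) Ω) (hP1 : RatP B P1)
    (hP2 : RatP B P2) (l1 l2 : Fin 6 → Ω) (h1 : dt l1 x = 0) (h2 : dt l2 x = 0) (b c : Fin 6)
    (hne : T4 D x P1 P2 l1 l2 (rr x 0 b) (rr x 0 c) ≠ 0) :
    (∀ i, x i ∈ B) ∨ ∃ k : Fin 3 → Fin 6 → Ω, (∀ i j, k i j ∈ B) ∧ (∀ i, dt (k i) x = 0) ∧
      LinearIndependent Ω k ∧ ∀ P Q, RatP B P → RatP B Q → ∀ (b' c' : Fin 6) (l l' : Fin 6 → Ω),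
        dt l x = 0 → dt l' x = 0 → T4 D x P Q l l' (rr x 0 b') (rr x 0 c') ≠ 0 →
        ∀ i l'', dt l'' x = 0 → T4 D x P Q (k i) l'' (rr x 0 b') (rr x 0 c') = 0 := by
  by_cases hfour : ∃ k : Fin 4 → Fin 6 → Ω,
      (∀ i, k i ∈ {m : Fin 6 → Ω | (∀ j, m j ∈ B) ∧ dt m x = 0}) ∧ LinearIndependent Ω k
  · obtain ⟨k, hk1, hk2⟩ := hfour
    exact Or.inl (four_line h k (fun i => (hk1 i).1) (fun i => (hk1 i).2) hk2)
  · right
    push Not at hfour
    obtain ⟨k0, hk0, hk0S, -⟩ := PlaneA_ker h P1 P2 hP1 hP2 b c l1 l2 h1 h2 hne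
    obtain ⟨⟨k, hkS, hk⟩, hall⟩ := PlaneA_basis _ hfour ⟨k0, hk0, hk0S⟩
    refine ⟨k, fun i => (hkS i).1, fun i => (hkS i).2, hk, ?_⟩
    intro P Q hP hQ b' c' l l' hl hl' hne' i l'' hl''
    obtain ⟨k', hk', hk'S, hk'0⟩ := PlaneA_ker h P Q hP hQ b' c' l l' hl hl' hne'
    apply hk'0 l'' hl''
    rw [hall k' hk' hk'S]
    exact Submodule.subset_span (hkS i)

end Pool.Agent.Helper74.Q8

end

section

/-!
# Q8-PLANEC: a rational line or the plane case

`m, m'` are combinations of the `rr x 0 b` (`rr_span`): choose `b, c` with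
`T4 P1 P2 l l' (rr x 0 b) (rr x 0 c) ≠ 0`; `plane_a`, `plane_b`; `l = ![rr x 0 b, rr x 0 c]`. `rat` is
`t_rat0`; `span`: the vectors orthogonal to `x` form a space of dimension 5.
-/

set_option autoImplicit false

namespace Pool.Agent.Helper74.Q8

open scoped BigOperators
open MvPolynomial
open Pool.Agent.Helper8.LG (Bdd form mon)
open Pool.Agent.Helper49.LN (cP mo hf pl)
open Pool.Agent.Helper6.QS

variable {Ω : Type*} [Field Ω] [CharZero Ω] {q : ℕ} {D : Sym (Fin 6) q → Derivation ℤ Ω Ω}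
  {a : Sym (Fin 6) q → Ω} {B : Subfield Ω} {x n : Fin 6 → Ω}

theorem plane_c (h : Pt8 D a B x n) (P1 P2 : MvPolynomial (Fin 6) Ω) (hP1 : RatP B P1)
    (hP2 : RatP B P2) (l l' m m' : Fin 6 → Ω) (hl : dt l x = 0) (hl' : dt l' x = 0)
    (hm : dt m x = 0) (hm' : dt m' x = 0) (hne : T4 D x P1 P2 l l' m m' ≠ 0) :
    (∀ i, x i ∈ B) ∨ ∃ (k : Fin 3 → Fin 6 → Ω) (l : Fin 2 → Fin 6 → Ω),
      Pl8 D a B x n k l ∧ T4 D x P1 P2 (l 0) (l 1) (l 0) (l 1) ≠ 0 := by
  have hne' : T4 D x P2 P1 m m' l l' ≠ 0 := by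
    rw [PlaneB_t_blk]
    exact hne
  obtain ⟨b, c, hbc⟩ := PlaneB_ex P2 P1 m m' l l' (fun u hu => rr_span h.one u hu) hm hm' hne'
  have hbc' : T4 D x P1 P2 l l' (rr x 0 b) (rr x 0 c) ≠ 0 := by
    rw [← PlaneB_t_blk]
    exact hbc
  rcases plane_a h P1 P2 hP1 hP2 l l' hl hl' b c hbc' with hB | ⟨k, hkB, hkx, hk, hall⟩
  · exact Or.inl hB
  obtain ⟨hpar, hind, hT⟩ := plane_b h k hkx hk hall P1 P2 hP1 hP2 l l' hl hl' b c hbc'
  have hlx : ∀ i, dt ((![rr x 0 b, rr x 0 c] : Fin 2 → Fin 6 → Ω) i) x = 0 := by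
    intro i
    refine Fin.cases ?_ (fun i => ?_) i
    · exact rr_dt 0 b
    · rw [Subsingleton.elim i 0]
      exact rr_dt 0 c
  refine Or.inr ⟨k, ![rr x 0 b, rr x 0 c], ⟨h, hkB, hkx, hpar, hlx, hind, ?_, ?_⟩, hT⟩
  · intro u hu
    have hg : ∀ i, dt (Sum.elim k (![rr x 0 b, rr x 0 c] : Fin 2 → Fin 6 → Ω) i) x = 0 := by
      intro i
      rcases i with i | i
      · exact hkx i
      · exact hlx i
    obtain ⟨r, hr⟩ := PlaneB_span h.one _ hg hind u hu
    refine ⟨fun i => r (Sum.inl i), fun i => r (Sum.inr i), ?_⟩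
    rw [← hr, Fintype.sum_sum_type]
    rfl
  · intro P Q hP hQ
    exact t_rat0 h P Q hP hQ b c b c

end Pool.Agent.Helper74.Q8

end

section

/-!
# Q8-RATQ8: a rational quadratic form

`Q` does not vanish identically on the rational space `k_i . y = 0`, so `Q(y1) ≠ 0` for a rational
`y1` in it (`ker_rat`-like: the space is spanned by rational vectors; a polynomial vanishing on all
rational combinations is zero, `B` is infinite). Choose a `B`-linear map `λ : Ω → B` with
`λ(Q(y1)) ≠ 0` and `Q1 = λ(Q)` (coefficientwise): `Q1(y1) = λ(Q(y1)) ≠ 0`. For rational `C`, `P`: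
`um s (C Q) = 0` (`um s (C Q) i j = θ_(s,j) . D_(C Q l_i) x`, `hpar`, `tx`). The functions
`P ↦ tr(um s P * M)` for `M` in the family `fam` are linear and rational on rational `P` (`traces`),
so `tr(um s (C Q1) * M) = λ(tr(um s (C Q) * M)) = 0` for rational `C`, hence for all `C`. By `hnd`
`um s (C Q1) = 0` (`um s P` is in the span of the family). So `D_(C Q1 l_i) x` is a multiple of `x`
(`tp`; `n . D_(C Q1 l_i) x = 0`), the same for `k_i` by `kp`, and for all `l'` by `span`.
Compare `Helper6/QS/RatQ.lean`.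
-/

set_option autoImplicit false

namespace Pool.Agent.Helper74.Q8

open scoped BigOperators
open MvPolynomial
open Pool.Agent.Helper8.LG (Bdd form mon)
open Pool.Agent.Helper49.LN (cP mo hf pl)
open Pool.Agent.Helper6.QS

section ratq8_general

variable {Ω : Type*} [Field Ω] {σ : Type*}

theorem ratq8_par_zero (x : σ → Ω) : Par x (0 : σ → Ω) := ⟨0, (zero_smul _ _).symm⟩

theorem ratq8_par_add {x u v : σ → Ω} (hu : Par x u) (hv : Par x v) : Par x (u + v) := by
  obtain ⟨a, rfl⟩ := hu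
  obtain ⟨b, rfl⟩ := hv
  exact ⟨a + b, (add_smul _ _ _).symm⟩

theorem ratq8_par_smul {x u : σ → Ω} (c : Ω) (hu : Par x u) : Par x (c • u) := by
  obtain ⟨a, rfl⟩ := hu
  exact ⟨c * a, smul_smul _ _ _⟩

theorem ratq8_par_sum {ι : Type*} (s : Finset ι) {x : σ → Ω} (u : ι → σ → Ω)
    (hu : ∀ i ∈ s, Par x (u i)) : Par x (∑ i ∈ s, u i) := by
  classical
  induction s using Finset.induction_on with
  | empty => rw [Finset.sum_empty]; exact ratq8_par_zero x
  | insert a s ha ih =>
    rw [Finset.sum_insert ha]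
    exact ratq8_par_add (hu a (Finset.mem_insert_self _ _))
      (ih fun i hi => hu i (Finset.mem_insert_of_mem hi))

variable [Fintype σ]

theorem ratq8_par_dt {x u w : σ → Ω} (hu : Par x u) (hw : dt w x = 0) : dt w u = 0 := by
  obtain ⟨c, rfl⟩ := hu
  rw [dt_smul', hw, mul_zero]

variable [DecidableEq σ]

theorem ratq8_ev (q : ℕ) (hq : 1 ≤ q) (x l : σ → Ω) (h : dt l x = 0) (P : MvPolynomial σ Ω) :
    ev q x (P * lf l) = 0 := by
  obtain ⟨n, rfl⟩ := Nat.exists_eq_add_of_le' hq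
  rw [ev_lf, h, mul_zero]

omit [DecidableEq σ] in
/-- a rational point of a rational subspace at which `Q` does not vanish -/
theorem ratq8_pt [CharZero Ω] {B : Subfield Ω} {ι : Type*} (k : ι → σ → Ω)
    (hB : ∀ i l, k i l ∈ B) (Q : MvPolynomial σ Ω)
    (hy : ∃ y, (∀ i, dt (k i) y = 0) ∧ eval y Q ≠ 0) :
    ∃ y : σ → Ω, (∀ i, y i ∈ B) ∧ (∀ i, dt (k i) y = 0) ∧ eval y Q ≠ 0 := by
  obtain ⟨y, hy1, hy2⟩ := hy
  have hmem := ker_rat B k hB y (fun i => by
    rw [← hy1 i]
    unfold dt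
    exact Finset.sum_congr rfl fun j _ => mul_comm _ _)
  rw [Submodule.mem_span_set'] at hmem
  obtain ⟨N, f, g, hfg⟩ := hmem
  have hR : ∀ t : Fin N → Ω, eval t (bind₁ (fun j => ∑ i, C ((g i : σ → Ω) j) * X i) Q :
      MvPolynomial (Fin N) Ω) = eval (∑ i, t i • (g i : σ → Ω)) Q := by
    intro t
    have h1 : eval t (bind₁ (fun j => ∑ i, C ((g i : σ → Ω) j) * X i) Q :
        MvPolynomial (Fin N) Ω) = eval₂Hom (RingHom.id Ω) t
        (bind₁ (fun j => ∑ i, C ((g i : σ → Ω) j) * X i) Q) := rfl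
    rw [h1, eval₂Hom_bind₁]
    have h2 : (fun j => eval₂Hom (RingHom.id Ω) t
        (∑ i, C ((g i : σ → Ω) j) * X i : MvPolynomial (Fin N) Ω)) =
        ∑ i, t i • (g i : σ → Ω) := by
      funext j
      rw [map_sum, Finset.sum_apply]
      refine Finset.sum_congr rfl fun i _ => ?_
      simp [mul_comm]
    rw [h2]
    rfl
  by_contra hcon
  push Not at hcon
  have hR0 : (bind₁ (fun j => ∑ i, C ((g i : σ → Ω) j) * X i) Q : MvPolynomial (Fin N) Ω) = 0 := by
    refine MvPolynomial.funext_set (fun _ => (B : Set Ω)) ?_ ?_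
    · intro _
      exact Set.infinite_of_injective_forall_mem (f := fun n : ℕ => (n : Ω)) Nat.cast_injective
        fun n => natCast_mem B n
    · intro t ht
      rw [hR, map_zero]
      refine hcon _ ?_ ?_
      · intro j
        rw [Finset.sum_apply]
        refine sum_mem fun i _ => ?_
        rw [Pi.smul_apply, smul_eq_mul]
        exact mul_mem (ht i (Set.mem_univ i)) ((g i).2.1 j)
      · intro i
        rw [dt_sum']
        refine Finset.sum_eq_zero fun s _ => ?_
        rw [dt_smul', dt_comm']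
        have := (g s).2.2 i
        unfold dt
        rw [this, mul_zero]
  have h3 := hR f
  rw [hR0, map_zero, hfg] at h3
  exact hy2 h3.symm

/-- `um s P` is in the span of the family -/
theorem ratq8_um_mem {q : ℕ} (D : Sym σ q → Derivation ℤ Ω Ω) (x : σ → Ω)
    (l : Fin 2 → σ → Ω) (θ : Fin 2 → Fin 2 → σ → Ω) (s : Fin 2) (P : MvPolynomial σ Ω) :
    um D x l θ s P ∈ Submodule.span Ω (Set.range (fam D x l θ)) := by
  rw [P.as_sum, map_sum]
  refine Submodule.sum_mem _ fun m _ => ?_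
  have h3 : monomial m (coeff m P) = coeff m P • monomial m (1 : Ω) := by
    rw [smul_monomial, smul_eq_mul, mul_one]
  rw [h3, map_smul]
  exact Submodule.smul_mem _ _ (Submodule.subset_span ⟨some (s, m), rfl⟩)

/-- the trace of the product with a fixed matrix, as a linear functional -/
noncomputable def ratq8_tr (M : Matrix (Fin 2) (Fin 2) Ω) :
    Matrix (Fin 2) (Fin 2) Ω →ₗ[Ω] Ω where
  toFun N := (N * M).trace
  map_add' N N' := by rw [add_mul, Matrix.trace_add]
  map_smul' c N := by rw [Matrix.smul_mul, Matrix.trace_smul, RingHom.id_apply]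

omit [Fintype σ] [DecidableEq σ] in
/-- the abstract step: `A`, `Cc` two linear maps to matrices with rational traces -/
theorem ratq8_abs [CharZero Ω] {B : Subfield Ω}
    (U : Fin 2 → MvPolynomial σ Ω →ₗ[Ω] Matrix (Fin 2) (Fin 2) Ω)
    (h1 : ∀ s m, (U s (monomial m 1)).trace ∈ B)
    (h2 : ∀ s s' m m', (U s (monomial m 1) * U s' (monomial m' 1)).trace ∈ B)
    (F : Option (Fin 2 × (σ →₀ ℕ)) → Matrix (Fin 2) (Fin 2) Ω)
    (hF1 : F none = 1) (hF2 : ∀ s m, F (some (s, m)) = U s (monomial m 1))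
    (hU : ∀ s P, U s P ∈ Submodule.span Ω (Set.range F))
    (hnd : ∀ N ∈ Submodule.span Ω (Set.range F), (∀ i, (N * F i).trace = 0) → N = 0)
    (Q : MvPolynomial σ Ω) (μ : Ω →ₗ[B] Ω) (hQ : ∀ s C, U s (C * Q) = 0) :
    ∀ s C, U s (C * ∑ m ∈ Q.support, monomial m (μ (coeff m Q))) = 0 := by
  intro s
  have hmon : ∀ c : σ →₀ ℕ,
      U s (monomial c 1 * ∑ m ∈ Q.support, monomial m (μ (coeff m Q))) = 0 := by
    intro c
    refine hnd _ (hU s _) ?_
    intro i
    have hmem : ∀ m, ((ratq8_tr (F i)) ∘ₗ (U s) ∘ₗ LinearMap.mulLeft Ω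
        (monomial c (1 : Ω) : MvPolynomial σ Ω)) (monomial m 1) ∈ B := by
      intro m
      rw [LinearMap.comp_apply, LinearMap.comp_apply, LinearMap.mulLeft_apply, monomial_mul,
        one_mul]
      show (U s (monomial (c + m) 1) * F i).trace ∈ B
      rcases i with _ | ⟨s', m'⟩
      · rw [hF1, mul_one]
        exact h1 _ _
      · rw [hF2]
        exact h2 _ _ _ _
    have h3 := ratQ_lin μ Q _ hmem
    rw [LinearMap.comp_apply, LinearMap.comp_apply, LinearMap.mulLeft_apply,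
      LinearMap.comp_apply, LinearMap.comp_apply, LinearMap.mulLeft_apply, hQ, map_zero,
      map_zero] at h3
    exact h3
  generalize (∑ m ∈ Q.support, monomial m (μ (coeff m Q))) = Q1 at hmon ⊢
  intro C
  rw [C.as_sum, Finset.sum_mul, map_sum]
  refine Finset.sum_eq_zero fun c _ => ?_
  have h3 : monomial c (coeff c C) = coeff c C • monomial c (1 : Ω) := by
    rw [smul_monomial, smul_eq_mul, mul_one]
  rw [h3, smul_mul_assoc, map_smul, hmon, smul_zero]

end ratq8_general

variable {Ω : Type*} [Field Ω] [CharZero Ω] {q : ℕ} {D : Sym (Fin 6) q → Derivation ℤ Ω Ω}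
  {a : Sym (Fin 6) q → Ω} {B : Subfield Ω} {x n : Fin 6 → Ω}

theorem rat_q8 {k : Fin 3 → Fin 6 → Ω} {l : Fin 2 → Fin 6 → Ω}
    {θ : Fin 2 → Fin 2 → Fin 6 → Ω} {P1 P2 : MvPolynomial (Fin 6) Ω}
    (m : Mt8 D a B x n k l θ P1 P2)
    (hnd : ∀ N ∈ Submodule.span Ω (Set.range (fam D x l θ)),
      (∀ i, (N * fam D x l θ i).trace = 0) → N = 0)
    (Q : MvPolynomial (Fin 6) Ω) (hQ : Q.IsHomogeneous 2)
    (hy : ∃ y, (∀ i, dt (k i) y = 0) ∧ eval y Q ≠ 0) (hpar : ∀ C, Par x (dv D x (C * Q))) :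
    ∃ Q1 : MvPolynomial (Fin 6) Ω, RatP B Q1 ∧ Q1.IsHomogeneous 2 ∧
      (∃ y, (∀ i, dt (k i) y = 0) ∧ eval y Q1 ≠ 0) ∧
      ∀ C l', dt l' x = 0 → Par x (dv D x (C * Q1 * lf l')) := by
  obtain ⟨y, hyB, hy1, hy2⟩ := ratq8_pt k m.pl.kB Q hy
  obtain ⟨φ, hφ⟩ : ∃ φ : Module.Dual B Ω, φ (eval y Q) ≠ 0 := by
    by_contra hcon
    push Not at hcon
    exact hy2 ((Module.forall_dual_apply_eq_zero_iff B (eval y Q)).1 hcon)
  obtain ⟨μ, hμB, hμ⟩ : ∃ μ : Ω →ₗ[B] Ω, (∀ b, μ b ∈ B) ∧ μ (eval y Q) ≠ 0 :=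
    ⟨(Algebra.linearMap B Ω) ∘ₗ φ, fun b => (φ b).2, fun h => hφ (Subtype.ext h)⟩
  have hae : ∀ f : MvPolynomial (Fin 6) Ω, aeval y f = eval y f := fun f => by
    rw [← coe_aeval_eq_eval]
    rfl
  -- the matrices of the multiples of `Q` vanish
  have hum : ∀ s C, um D x l θ s (C * Q) = 0 := by
    intro s C
    ext i j
    rw [um_apply, dl_eq, Matrix.zero_apply]
    have e : C * Q * lf (l i) = C * lf (l i) * Q := by ring
    rw [e]
    exact ratq8_par_dt (hpar _) (m.tx s j)
  have tr := traces (um D x l θ 0) (um D x l θ 1) P1 P2 m.r1 m.r2 m.a1 m.c1 m.a2 m.c2 m.det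
  have h1 : ∀ s p, (um D x l θ s (monomial p 1)).trace ∈ B := by
    intro s p
    have := tr _ _ (ratQ_ratP p) (ratQ_ratP p)
    fin_cases s
    · exact this.1
    · exact this.2.1
  have h2 : ∀ s s' p p', (um D x l θ s (monomial p 1) * um D x l θ s' (monomial p' 1)).trace ∈
      B := by
    intro s s' p p'
    have t1 := tr _ _ (ratQ_ratP p) (ratQ_ratP p')
    have t2 := tr _ _ (ratQ_ratP p') (ratQ_ratP p)
    fin_cases s <;> fin_cases s'
    · exact t1.2.2.2.2.1
    · exact t1.2.2.2.2.2.2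
    · have := t2.2.2.2.2.2.2
      rw [Matrix.trace_mul_comm] at this
      exact this
    · exact t1.2.2.2.2.2.1
  have hab := ratq8_abs (B := B) (um D x l θ) h1 h2 (fam D x l θ) rfl (fun _ _ => rfl)
    (ratq8_um_mem D x l θ) hnd Q μ hum
  refine ⟨∑ m ∈ Q.support, monomial m (μ (coeff m Q)), ?_, ?_, ⟨y, hy1, ?_⟩, ?_⟩
  · intro p
    rw [ratQ_coeff]
    exact hμB _
  · intro p hp
    rw [ratQ_coeff] at hp
    exact hQ fun h => hp (by rw [h, map_zero])
  · have hmem : ∀ m, (aeval y : MvPolynomial (Fin 6) Ω →ₐ[Ω] Ω).toLinearMap (monomial m 1) ∈ B := by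
      intro m
      rw [AlgHom.toLinearMap_apply, aeval_monomial, map_one, one_mul]
      exact prod_mem fun i _ => pow_mem (hyB i) _
    have h1 := ratQ_lin μ Q (aeval y : MvPolynomial (Fin 6) Ω →ₐ[Ω] Ω).toLinearMap hmem
    rw [AlgHom.toLinearMap_apply, AlgHom.toLinearMap_apply, hae, hae] at h1
    intro h2
    exact hμ (h1.symm.trans h2)
  · generalize (∑ m ∈ Q.support, monomial m (μ (coeff m Q))) = Q1 at hab ⊢
    intro C l' hl'
    have hl : ∀ i, Par x (dl D x (C * Q1) (l i)) := by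
      intro i
      refine m.tp _ ?_ ?_
      · rw [dl_eq, m.pl.pt.nf, ratq8_ev q (by rw [m.pl.pt.hq]; norm_num) x (l i) (m.pl.lx i),
          neg_zero]
      · intro s j
        rw [← um_apply, hab, Matrix.zero_apply]
    obtain ⟨α, β, hαβ⟩ := m.pl.span l' hl'
    have e : dv D x (C * Q1 * lf l') = dlm D x (C * Q1) l' := rfl
    rw [e, hαβ, map_add, map_sum, map_sum]
    refine ratq8_par_add (ratq8_par_sum _ _ fun i _ => ?_) (ratq8_par_sum _ _ fun i _ => ?_)
    · rw [map_smul]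
      exact ratq8_par_smul _ (m.pl.kp _ i)
    · rw [map_smul]
      exact ratq8_par_smul _ (hl i)

end Pool.Agent.Helper74.Q8

end

section

/-!
# Q8-CONICDIV8: a point on a rational conic in the plane `k_0 = k_1 = k_2 = 0`

Choose a rational basis `e_0, e_1, e_2` of the plane (`ker_rat`: it is spanned by rational vectors),
`x = ∑ y_i e_i`, permute so that `y_0 ≠ 0`, and let `x' = (1, y_1 / y_0, y_2 / y_0, 0)`, `h = (0,0,0,1)`.
Substitute `X ↦ ∑_(i < 3) X_i e_i` in `Q`, `F`: rational polynomials `Q'`, `F'` in 4 variables,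
homogeneous, zero at `x'`, and `Q'` does not vanish identically on `h = 0`. Apply `conic_div` (proved
in `Helper6/QS/ConicDiv.lean`): (1) `x'` rational: so `x` (`x_0 = 1`); (2) `h'` rational, independent
of `h`, `h' . x' = 0`: let `h''` be a rational linear form on `Ω^6` with `h'' . e_i = h'_i` for `i < 3`
(exists: the `e_i` are rational and independent): not in the span of `k`; (3)
`F' = lf h A + Q' C`: let `π` be a linear projection of `Ω^6` onto the plane and `C' = C ∘ π`
(coordinates in the basis `e_i`, last coordinate `0`; take the part of degree `d`): `F - Q C'`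
vanishes on the plane, so it is `∑ lf(k_i) A_i` with `A_i` homogeneous of degree `d + 1` (change of
coordinates such that `k_i` become variables).
-/

set_option autoImplicit false

namespace Pool.Agent.Helper74.Q8

open scoped BigOperators
open MvPolynomial
open Pool.Agent.Helper8.LG (Bdd form mon)
open Pool.Agent.Helper49.LN (cP mo hf pl)
open Pool.Agent.Helper6.QS

section lin

variable {K : Type*} [Field K]

theorem ConicDiv8_compl (k : Fin 3 → Fin 6 → K) (hk : LinearIndependent K k) :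
    ∃ b : Module.Basis (Fin 3 ⊕ Fin 3) K (Fin 6 → K), ∀ i, b (Sum.inl i) = k i := by
  obtain ⟨W', hW'⟩ := Submodule.exists_isCompl (Submodule.span K (Set.range k))
  have h1 : Module.finrank K (Submodule.span K (Set.range k)) = 3 := by
    rw [finrank_span_eq_card hk, Fintype.card_fin]
  have h2 := Submodule.finrank_add_eq_of_isCompl hW'
  rw [h1, Module.finrank_fintype_fun_eq_card, Fintype.card_fin] at h2
  have h3 : Module.finrank K W' = 3 := by omega
  obtain ⟨bW⟩ : Nonempty (Module.Basis (Fin 3) K W') := ⟨Module.finBasisOfFinrankEq K W' h3⟩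
  refine ⟨((Module.Basis.span hk).prod bW).map (Submodule.prodEquivOfIsCompl _ _ hW'), ?_⟩
  intro i
  simp [Module.Basis.span_apply]

theorem ConicDiv8_basis (k : Fin 3 → Fin 6 → K) (hk : LinearIndependent K k) :
    ∃ (E G : Fin 3 → Fin 6 → K) (c : Fin 6 → Fin 3 → K),
      (∀ m r, ∑ i, k m i * E r i = 0) ∧
      (∀ r l, ∑ i, G r i * E l i = if r = l then 1 else 0) ∧
      (∀ i l, (if i = l then 1 else 0) - ∑ r, E r i * G r l = ∑ m, c i m * k m l) := by
  classical
  obtain ⟨b, hb⟩ := ConicDiv8_compl k hk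
  have e1 : ∀ j m, ∑ i, b j i * b.repr (Pi.single i 1) m = if j = m then 1 else 0 := by
    intro j m
    have h1 : b j = ∑ i, b j i • (Pi.single i (1 : K) : Fin 6 → K) := by
      rw [← Finset.univ_sum_single (b j)]
      refine Finset.sum_congr rfl fun i _ => ?_
      funext l
      simp [Pi.single_apply]
    have h2 : b.repr (b j) m = if j = m then 1 else 0 := by
      rw [b.repr_self, Finsupp.single_apply]
    rw [← h2]
    conv_rhs => rw [h1]
    rw [map_sum, Finsupp.finsetSum_apply]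
    refine Finset.sum_congr rfl fun i _ => ?_
    rw [map_smul, Finsupp.smul_apply, smul_eq_mul]
  have e2 : ∀ i l, ∑ j, b.repr (Pi.single i 1) j * b j l = if i = l then 1 else 0 := by
    intro i l
    have h1 := congrFun (b.sum_repr (Pi.single i (1 : K))) l
    rw [Finset.sum_apply] at h1
    simp only [Pi.smul_apply, smul_eq_mul] at h1
    rw [h1, Pi.single_apply]
    by_cases h : i = l
    · rw [if_pos h, if_pos h.symm]
    · rw [if_neg h, if_neg (Ne.symm h)]
  refine ⟨fun r i => b.repr (Pi.single i 1) (Sum.inr r), fun r i => b (Sum.inr r) i,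
    fun i m => b.repr (Pi.single i 1) (Sum.inl m), ?_, ?_, ?_⟩
  · intro m r
    have := e1 (Sum.inl m) (Sum.inr r)
    rw [hb, if_neg (by simp)] at this
    exact this
  · intro r l
    have := e1 (Sum.inr r) (Sum.inr l)
    rw [this]
    simp
  · intro i l
    have := e2 i l
    rw [Fintype.sum_sum_type] at this
    rw [← this]
    simp only [hb]
    ring

end lin


theorem ConicDiv8_rat {Ω : Type*} [Field Ω] {B : Subfield Ω} {σ τ : Type*} (g : σ → MvPolynomial τ Ω)
    (hg : ∀ i, RatP B (g i)) (P : MvPolynomial σ Ω) (hP : RatP B P) : RatP B (aeval g P) := by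
  obtain ⟨PB, hPB⟩ := ConicDiv_lift hP
  obtain ⟨gB, hgB⟩ : ∃ gB : σ → MvPolynomial τ B, ∀ i, map (algebraMap B Ω) (gB i) = g i :=
    ⟨fun i => (ConicDiv_lift (hg i)).choose, fun i => (ConicDiv_lift (hg i)).choose_spec⟩
  have h1 : ∀ R : MvPolynomial σ B, aeval g (map (algebraMap B Ω) R) =
      map (algebraMap B Ω) (aeval gB R) := by
    intro R
    induction R using MvPolynomial.induction_on with
    | C a => simp [algebraMap_eq]
    | add p q hp hq => rw [map_add, map_add, map_add, map_add, hp, hq]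
    | mul_X p i hp => rw [map_mul, map_mul, map_mul, map_mul, hp, map_X, aeval_X, aeval_X, hgB]
  rw [← hPB, h1]
  intro m
  rw [coeff_map]
  exact SetLike.coe_mem (coeff m (aeval gB PB))

theorem ConicDiv8_main {Ω : Type*} [Field Ω] [CharZero Ω] {B : Subfield Ω}
    (halg : ∀ y : Ω, IsAlgebraic B y → y ∈ B) (x : Fin 6 → Ω) (hx0 : x 0 = 1)
    (k : Fin 3 → Fin 6 → Ω) (hkx : ∀ i, dt (k i) x = 0)
    (hk : LinearIndependent Ω k) (E G : Fin 3 → Fin 6 → Ω) (c : Fin 6 → Fin 3 → Ω)
    (hEB : ∀ r i, E r i ∈ B) (hGB : ∀ r i, G r i ∈ B)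
    (h1 : ∀ m r, ∑ i, k m i * E r i = 0)
    (h2 : ∀ r l, ∑ i, G r i * E l i = if r = l then 1 else 0)
    (h3 : ∀ i l, (if i = l then 1 else 0) - ∑ r, E r i * G r l = ∑ m, c i m * k m l)
    (y : Fin 3 → Ω) (hyd : ∀ r, y r = ∑ i, G r i * x i) (hy0 : y 0 ≠ 0)
    (Q F : MvPolynomial (Fin 6) Ω)
    (hQ : RatP B Q) (hF : RatP B F) (d : ℕ) (hQ2 : Q.IsHomogeneous 2)
    (hFd : F.IsHomogeneous (d + 2)) (hy : ∃ y, (∀ i, dt (k i) y = 0) ∧ eval y Q ≠ 0)
    (hQx : eval x Q = 0) (hFx : eval x F = 0) :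
    (∀ i, x i ∈ B) ∨
    (∃ h' : Fin 6 → Ω, (∀ i, h' i ∈ B) ∧ LinearIndependent Ω (Matrix.vecCons h' k) ∧
      dt h' x = 0) ∨
    ∃ (A : Fin 3 → MvPolynomial (Fin 6) Ω) (C : MvPolynomial (Fin 6) Ω),
      (∀ i, (A i).IsHomogeneous (d + 1)) ∧ C.IsHomogeneous d ∧
      F = ∑ i, lf (k i) * A i + Q * C := by
  classical
  -- coordinates of a point of the plane
  have hco : ∀ z : Fin 6 → Ω, (∀ i, dt (k i) z = 0) → ∀ i, z i = ∑ r, E r i * ∑ l, G r l * z l := by
    intro z hz i
    have e1 : ∑ l, ((if i = l then 1 else 0) - ∑ r, E r i * G r l) * z l = 0 := by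
      simp only [h3, Finset.sum_mul, mul_assoc]
      rw [Finset.sum_comm]
      simp only [← Finset.mul_sum]
      refine Finset.sum_eq_zero fun m _ => ?_
      have := hz m
      unfold dt at this
      rw [this, mul_zero]
    simp only [sub_mul, Finset.sum_sub_distrib, Finset.sum_mul, mul_assoc] at e1
    rw [Finset.sum_comm] at e1
    simp only [← Finset.mul_sum] at e1
    rw [sub_eq_zero] at e1
    rw [← e1]
    simp
  obtain ⟨g, hg⟩ : ∃ g : Fin 6 → MvPolynomial (Fin 4) Ω, g = fun i => C (E 0 i) * X 0 +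
    C (E 1 i) * X 1 + C (E 2 i) * X 2 := ⟨_, rfl⟩
  have hgh : ∀ i, (g i).IsHomogeneous 1 := by
    intro i
    rw [hg]
    have e1 : ∀ (a : Ω) (j : Fin 4), (C a * X j : MvPolynomial (Fin 4) Ω).IsHomogeneous 1 :=
      fun a j => by simpa using (isHomogeneous_C (Fin 4) a).mul (isHomogeneous_X Ω j)
    exact ((e1 _ _).add (e1 _ _)).add (e1 _ _)
  have hgB : ∀ i, RatP B (g i) := by
    intro i m
    rw [hg]
    simp only [coeff_add, coeff_C_mul, coeff_X]
    refine B.add_mem (B.add_mem (B.mul_mem (hEB _ _) ?_) (B.mul_mem (hEB _ _) ?_))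
      (B.mul_mem (hEB _ _) ?_)
    all_goals
      split_ifs
      · exact B.one_mem
      · exact B.zero_mem
  have hge : ∀ (z : Fin 4 → Ω) (P : MvPolynomial (Fin 6) Ω), eval z (aeval g P) =
      eval (fun i => E 0 i * z 0 + E 1 i * z 1 + E 2 i * z 2) P := by
    intro z P
    have e1 : ∀ {τ : Type} (w : τ → Ω) (R : MvPolynomial τ Ω), eval w R = aeval w R := by
      intro τ w R
      rw [← coe_aeval_eq_eval]
      rfl
    rw [e1, e1, ← AlgHom.comp_apply, comp_aeval]
    congr 2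
    funext i
    rw [hg]
    simp
  have hhom : ∀ (P : MvPolynomial (Fin 6) Ω) (n : ℕ), P.IsHomogeneous n →
      (aeval g P : MvPolynomial (Fin 4) Ω).IsHomogeneous n := by
    intro P n hP
    have := hP.aeval g (n := 1) hgh
    simpa using this
  have hsc : ∀ (P : MvPolynomial (Fin 6) Ω) (n : ℕ), P.IsHomogeneous n → eval x P = 0 →
      eval (fun i => (y 0)⁻¹ * x i) P = 0 := by
    intro P n hP hPx
    have e1 : ∀ {τ : Type} (w : τ → Ω) (R : MvPolynomial τ Ω), eval w R = aeval w R := by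
      intro τ w R
      rw [← coe_aeval_eq_eval]
      rfl
    rw [e1] at hPx ⊢
    rw [ConicDiv_scale hP, hPx, mul_zero]
  obtain ⟨x', hx'⟩ : ∃ x' : Fin 4 → Ω, x' = ![1, y 1 / y 0, y 2 / y 0, 0] := ⟨_, rfl⟩
  have hxe : (fun i => E 0 i * x' 0 + E 1 i * x' 1 + E 2 i * x' 2) =
      fun i => (y 0)⁻¹ * x i := by
    funext i
    rw [hco x hkx i, Fin.sum_univ_three, ← hyd, ← hyd, ← hyd, hx']
    simp
    field_simp
  obtain ⟨yy, hyy, hyQ⟩ := hy
  rcases conic_div halg x' (by rw [hx']; rfl) ![0, 0, 0, 1]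
    (by intro i; fin_cases i <;> simp [B.one_mem, B.zero_mem])
    (by intro h; have := congrFun h 3; simp at this)
    (by rw [hx']; simp [dt, Fin.sum_univ_four])
    (aeval g Q) (aeval g F) (ConicDiv8_rat g hgB Q hQ) (ConicDiv8_rat g hgB F hF) d
    (hhom Q 2 hQ2) (hhom F (d + 2) hFd)
    ⟨![∑ l, G 0 l * yy l, ∑ l, G 1 l * yy l, ∑ l, G 2 l * yy l, 0],
      by simp [dt, Fin.sum_univ_four], by
        rw [hge]
        have : (fun i => E 0 i * (![∑ l, G 0 l * yy l, ∑ l, G 1 l * yy l, ∑ l, G 2 l * yy l, 0] :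
            Fin 4 → Ω) 0 + E 1 i * (![∑ l, G 0 l * yy l, ∑ l, G 1 l * yy l, ∑ l, G 2 l * yy l, 0] :
            Fin 4 → Ω) 1 + E 2 i * (![∑ l, G 0 l * yy l, ∑ l, G 1 l * yy l, ∑ l, G 2 l * yy l, 0] :
            Fin 4 → Ω) 2) = yy := by
          funext i
          rw [hco yy hyy i, Fin.sum_univ_three]
          rfl
        rw [this]
        exact hyQ⟩
    (by rw [hge, hxe]; exact hsc Q 2 hQ2 hQx) (by rw [hge, hxe]; exact hsc F (d + 2) hFd hFx)
    with h4 | ⟨w, hwB, hwi, hwx⟩ | ⟨A, C', hA, hC', hFF⟩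
  · left
    have e1 : ∀ i, (y 0)⁻¹ * x i ∈ B := by
      intro i
      rw [← congrFun hxe i]
      exact B.add_mem (B.add_mem (B.mul_mem (hEB _ _) (h4 _)) (B.mul_mem (hEB _ _) (h4 _)))
        (B.mul_mem (hEB _ _) (h4 _))
    have e2 : (y 0)⁻¹ ∈ B := by
      have := e1 0
      rwa [hx0, mul_one] at this
    intro i
    have e3 : x i = ((y 0)⁻¹)⁻¹ * ((y 0)⁻¹ * x i) := by
      field_simp
    rw [e3]
    exact B.mul_mem (B.inv_mem e2) (e1 i)
  · right
    left
    refine ⟨fun i => w 0 * G 0 i + w 1 * G 1 i + w 2 * G 2 i, ?_, ?_, ?_⟩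
    · intro i
      exact B.add_mem (B.add_mem (B.mul_mem (hwB _) (hGB _ _)) (B.mul_mem (hwB _) (hGB _ _)))
        (B.mul_mem (hwB _) (hGB _ _))
    · have hdot : ∀ l : Fin 3, ∑ i, (w 0 * G 0 i + w 1 * G 1 i + w 2 * G 2 i) * E l i =
          w 0 * (if 0 = l then 1 else 0) + w 1 * (if 1 = l then 1 else 0) +
            w 2 * (if 2 = l then 1 else 0) := by
        intro l
        rw [← h2 0 l, ← h2 1 l, ← h2 2 l, Finset.mul_sum, Finset.mul_sum, Finset.mul_sum,
          ← Finset.sum_add_distrib, ← Finset.sum_add_distrib]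
        exact Finset.sum_congr rfl fun i _ => by ring
      refine linearIndependent_finCons.mpr ⟨hk, ?_⟩
      intro hmem
      rw [Submodule.mem_span_range_iff_exists_fun] at hmem
      obtain ⟨a, ha⟩ := hmem
      have hz : ∀ l : Fin 3, w 0 * (if 0 = l then 1 else 0) + w 1 * (if 1 = l then 1 else 0) +
            w 2 * (if 2 = l then 1 else 0) = 0 := by
        intro l
        rw [← hdot l]
        have e1 : ∀ i, w 0 * G 0 i + w 1 * G 1 i + w 2 * G 2 i = ∑ m, a m * k m i := by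
          intro i
          have := congrFun ha i
          simp only [Finset.sum_apply, Pi.smul_apply, smul_eq_mul] at this
          exact this.symm
        simp only [e1, Finset.sum_mul, mul_assoc]
        rw [Finset.sum_comm]
        simp only [← Finset.mul_sum, h1, mul_zero, Finset.sum_const_zero]
      have w0 : w 0 = 0 := by simpa using hz 0
      have w1 : w 1 = 0 := by simpa using hz 1
      have w2 : w 2 = 0 := by simpa using hz 2
      rw [LinearIndependent.pair_iff] at hwi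
      have := hwi (w 3) (-1) (by
        funext i
        fin_cases i <;> simp [w0, w1, w2])
      simp at this
    · have e1 : dt w x' = w 0 + w 1 * (y 1 / y 0) + w 2 * (y 2 / y 0) := by
        rw [hx']
        simp [dt, Fin.sum_univ_four]
      rw [e1] at hwx
      have e2 : dt (fun i => w 0 * G 0 i + w 1 * G 1 i + w 2 * G 2 i) x =
          w 0 * y 0 + w 1 * y 1 + w 2 * y 2 := by
        rw [hyd, hyd, hyd, Finset.mul_sum, Finset.mul_sum, Finset.mul_sum,
          ← Finset.sum_add_distrib, ← Finset.sum_add_distrib]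
        unfold dt
        exact Finset.sum_congr rfl fun i _ => by ring
      rw [e2]
      field_simp at hwx
      linear_combination hwx
  · right
    right
    obtain ⟨I, hI⟩ : ∃ I : Ideal (MvPolynomial (Fin 6) Ω),
      I = Ideal.span (Set.range fun m => lf (k m)) := ⟨_, rfl⟩
    obtain ⟨pi, hpi⟩ : ∃ pi : MvPolynomial (Fin 4) Ω →ₐ[Ω] MvPolynomial (Fin 6) Ω,
      pi = aeval ![lf (G 0), lf (G 1), lf (G 2), 0] := ⟨_, rfl⟩
    have hX : ∀ i : Fin 6, (X i : MvPolynomial (Fin 6) Ω) - (C (E 0 i) * lf (G 0) +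
        C (E 1 i) * lf (G 1) + C (E 2 i) * lf (G 2)) = ∑ m, C (c i m) * lf (k m) := by
      intro i
      have e1 : (X i : MvPolynomial (Fin 6) Ω) =
          ∑ l, C (if i = l then (1 : Ω) else 0) * X l := by
        simp [apply_ite (C : Ω → MvPolynomial (Fin 6) Ω)]
      have e2 : C (E 0 i) * lf (G 0) + C (E 1 i) * lf (G 1) + C (E 2 i) * lf (G 2) =
          ∑ l, C (∑ r, E r i * G r l) * (X l : MvPolynomial (Fin 6) Ω) := by
        simp only [Fin.sum_univ_three, map_add, map_mul, add_mul, Finset.sum_add_distrib, lf,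
          smul_eq_C_mul, Finset.mul_sum, mul_assoc]
      have e3 : ∑ m, C (c i m) * lf (k m) =
          ∑ l, C (∑ m, c i m * k m l) * (X l : MvPolynomial (Fin 6) Ω) := by
        simp only [Fin.sum_univ_three, map_add, map_mul, add_mul, Finset.sum_add_distrib, lf,
          smul_eq_C_mul, Finset.mul_sum, mul_assoc]
      rw [e1, e2, e3, ← Finset.sum_sub_distrib]
      refine Finset.sum_congr rfl fun l _ => ?_
      rw [← h3 i l, map_sub, sub_mul]
    have hmod : ∀ P : MvPolynomial (Fin 6) Ω, P - pi (aeval g P) ∈ I := by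
      intro P
      rw [← Ideal.Quotient.eq_zero_iff_mem, map_sub, sub_eq_zero]
      have e1 : (Ideal.Quotient.mkₐ Ω I) = (Ideal.Quotient.mkₐ Ω I).comp (pi.comp (aeval g)) := by
        apply MvPolynomial.algHom_ext
        intro i
        simp only [AlgHom.comp_apply, aeval_X]
        rw [← sub_eq_zero, ← map_sub, Ideal.Quotient.mkₐ_eq_mk, Ideal.Quotient.eq_zero_iff_mem, hI]
        have e2 : pi (g i) = C (E 0 i) * lf (G 0) + C (E 1 i) * lf (G 1) + C (E 2 i) * lf (G 2) := by
          rw [hpi, hg]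
          simp [algebraMap_eq]
        rw [e2, hX i]
        exact Ideal.sum_mem _ fun m _ => Ideal.mul_mem_left _ _
          (Ideal.subset_span (Set.mem_range_self m))
      exact DFunLike.congr_fun e1 P
    have e3 : F - Q * pi C' ∈ I := by
      have f1 := hmod F
      have f2 := hmod Q
      have f3 : pi (lf ![0, 0, 0, 1]) = 0 := by
        rw [hpi]
        simp [lf, Fin.sum_univ_four]
      rw [hFF, map_add, map_mul, map_mul, f3, zero_mul, zero_add] at f1
      have e3 := I.add_mem f1 (I.mul_mem_left (-pi C') f2)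
      have e4 : F - pi (aeval g Q) * pi C' + -pi C' * (Q - pi (aeval g Q)) = F - Q * pi C' := by
        ring
      rwa [e4] at e3
    rw [hI, Ideal.mem_span_range_iff_exists_fun] at e3
    obtain ⟨a, ha⟩ := e3
    refine ⟨fun m => homogeneousComponent (d + 1) (a m), homogeneousComponent d (pi C'),
      fun m => homogeneousComponent_isHomogeneous _ _, homogeneousComponent_isHomogeneous _ _, ?_⟩
    have h5 : F = ∑ m, lf (k m) * a m + Q * pi C' := by
      have : ∑ m, lf (k m) * a m = ∑ m, a m * lf (k m) :=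
        Finset.sum_congr rfl fun m _ => mul_comm _ _
      rw [this, ha]
      ring
    have h6 := congrArg (homogeneousComponent (d + 2)) h5
    rw [homogeneousComponent_eq_self hFd, map_add, map_sum] at h6
    have h7 : ∀ m, homogeneousComponent (d + 2) (lf (k m) * a m) =
        lf (k m) * homogeneousComponent (d + 1) (a m) := by
      intro m
      rw [show d + 2 = 1 + (d + 1) by omega, ConicDiv_comp (ConicDiv_lf_hom (k m))]
    have h8 : homogeneousComponent (d + 2) (Q * pi C') = Q * homogeneousComponent d (pi C') := by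
      rw [show d + 2 = 2 + d by omega, ConicDiv_comp hQ2]
    simp only [h7, h8] at h6
    exact h6

theorem conic_div8 {Ω : Type*} [Field Ω] [CharZero Ω] {B : Subfield Ω}
    (halg : ∀ y : Ω, IsAlgebraic B y → y ∈ B) (x : Fin 6 → Ω) (hx0 : x 0 = 1)
    (k : Fin 3 → Fin 6 → Ω) (hkB : ∀ i j, k i j ∈ B) (hkx : ∀ i, dt (k i) x = 0)
    (hk : LinearIndependent Ω k) (Q F : MvPolynomial (Fin 6) Ω)
    (hQ : RatP B Q) (hF : RatP B F) (d : ℕ) (hQ2 : Q.IsHomogeneous 2)
    (hFd : F.IsHomogeneous (d + 2)) (hy : ∃ y, (∀ i, dt (k i) y = 0) ∧ eval y Q ≠ 0)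
    (hQx : eval x Q = 0) (hFx : eval x F = 0) :
    (∀ i, x i ∈ B) ∨
    (∃ h' : Fin 6 → Ω, (∀ i, h' i ∈ B) ∧ LinearIndependent Ω (Matrix.vecCons h' k) ∧
      dt h' x = 0) ∨
    ∃ (A : Fin 3 → MvPolynomial (Fin 6) Ω) (C : MvPolynomial (Fin 6) Ω),
      (∀ i, (A i).IsHomogeneous (d + 1)) ∧ C.IsHomogeneous d ∧
      F = ∑ i, lf (k i) * A i + Q * C := by
  classical
  obtain ⟨kB, hkB'⟩ : ∃ kB : Fin 3 → Fin 6 → B, ∀ i j, algebraMap B Ω (kB i j) = k i j :=
    ⟨fun i j => ⟨k i j, hkB i j⟩, fun i j => rfl⟩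
  have hkBi : LinearIndependent B kB := by
    rw [Fintype.linearIndependent_iff] at hk ⊢
    intro t ht i
    have h1 := hk (fun m => algebraMap B Ω (t m)) (by
      funext j
      have := congrArg (algebraMap B Ω) (congrFun ht j)
      simp only [Finset.sum_apply, Pi.smul_apply, smul_eq_mul, map_sum, map_mul, hkB',
        Pi.zero_apply, map_zero] at this ⊢
      exact this) i
    exact (map_eq_zero _).mp h1
  obtain ⟨E, G, c, h1, h2, h3⟩ := ConicDiv8_basis kB hkBi
  obtain ⟨f, hf⟩ : ∃ f : B →+* Ω, f = algebraMap B Ω := ⟨_, rfl⟩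
  have hfB : ∀ b, f b ∈ B := by
    intro b
    rw [hf]
    exact b.2
  rw [← hf] at hkB'
  have h1' : ∀ m r, ∑ i, k m i * f (E r i) = 0 := by
    intro m r
    have := congrArg f (h1 m r)
    simpa only [map_sum, map_mul, hkB', map_zero] using this
  have h2' : ∀ r l, ∑ i, f (G r i) * f (E l i) = if r = l then 1 else 0 := by
    intro r l
    have := congrArg f (h2 r l)
    simpa only [map_sum, map_mul, apply_ite f, map_zero, map_one] using this
  have h3' : ∀ i l, (if i = l then 1 else 0) - ∑ r, f (E r i) * f (G r l) =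
      ∑ m, f (c i m) * k m l := by
    intro i l
    have := congrArg f (h3 i l)
    simpa only [map_sub, map_sum, map_mul, apply_ite f, map_zero, map_one, hkB'] using this
  obtain ⟨r, hr⟩ : ∃ r, ∑ l, f (G r l) * x l ≠ 0 := by
    by_contra hcon
    push Not at hcon
    have e1 : ∑ l, ((if (0 : Fin 6) = l then 1 else 0) - ∑ r, f (E r 0) * f (G r l)) * x l = 0 := by
      simp only [h3', Finset.sum_mul, mul_assoc]
      rw [Finset.sum_comm]
      simp only [← Finset.mul_sum]
      refine Finset.sum_eq_zero fun m _ => ?_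
      have := hkx m
      unfold dt at this
      rw [this, mul_zero]
    simp only [sub_mul, Finset.sum_sub_distrib, Finset.sum_mul, mul_assoc] at e1
    rw [Finset.sum_comm] at e1
    simp only [← Finset.mul_sum, hcon, mul_zero, Finset.sum_const_zero, sub_zero] at e1
    simp [hx0] at e1
  obtain ⟨s, hs⟩ : ∃ s : Equiv.Perm (Fin 3), s 0 = r := ⟨Equiv.swap 0 r, by simp⟩
  refine ConicDiv8_main halg x hx0 k hkx hk (fun r i => f (E (s r) i)) (fun r i => f (G (s r) i))
    (fun i m => f (c i m)) (fun r i => hfB _) (fun r i => hfB _) (fun m r => h1' m (s r))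
    (fun r l => by rw [h2' (s r) (s l)]; simp)
    (fun i l => by rw [← h3' i l, ← Equiv.sum_comp s (fun r => f (E r i) * f (G r l))])
    (fun r => ∑ i, f (G (s r) i) * x i) (fun r => rfl) (by rw [hs]; exact hr)
    Q F hQ hF d hQ2 hFd hy hQx hFx

end Pool.Agent.Helper74.Q8

end

section

/-!
# Q8-KEYBLK8: octic fourfolds, the block case (assembly)
-/

set_option autoImplicit false

namespace Pool.Agent.Helper74.Q8

open scoped BigOperators
open MvPolynomial
open Pool.Agent.Helper8.LG (Bdd form mon)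
open Pool.Agent.Helper49.LN (cP mo hf pl)
open Pool.Agent.Helper6.QS

section general

variable {Ω : Type*} [Field Ω] {σ : Type*} [Fintype σ] [DecidableEq σ] {q : ℕ}

omit [Fintype σ] [DecidableEq σ] in
theorem eval_mo8 (x : σ → Ω) (J : Sym σ q) : eval x (mo Ω (J : Multiset σ)) = mon x J := by
  unfold mo mon
  rw [map_multiset_prod, Multiset.map_map]
  congr 1
  exact Multiset.map_congr rfl fun i _ => eval_X i

theorem eval_sum8 (x : σ → Ω) (a : Sym σ q → Ω) :
    eval x (∑ J : Sym σ q, a J • mo Ω (J : Multiset σ)) = form a x := by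
  rw [map_sum]
  unfold form
  refine Finset.sum_congr rfl fun J _ => ?_
  rw [smul_eval, eval_mo8]

theorem sum_hom8 (a : Sym σ q → Ω) :
    (∑ J : Sym σ q, a J • mo Ω (J : Multiset σ) : MvPolynomial σ Ω).IsHomogeneous q := by
  refine IsHomogeneous.sum _ _ _ fun J _ => ?_
  have h4 := Pool.Agent.Helper49.LN.mo_hom (E := Ω) (J : Multiset σ)
  rw [Sym.card_coe] at h4
  rw [smul_eq_C_mul]
  have h5 := (isHomogeneous_C σ (a J)).mul h4
  rwa [zero_add] at h5

theorem sum_rat8 (B : Subfield Ω) (a : Sym σ q → Ω) (ha : ∀ J, a J ∈ B) :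
    RatP B (∑ J : Sym σ q, a J • mo Ω (J : Multiset σ)) := by
  intro m
  rw [coeff_sum]
  refine sum_mem fun J _ => ?_
  rw [coeff_smul, smul_eq_mul, Pool.Agent.Helper49.LN.mo_eq, coeff_monomial]
  refine mul_mem (ha J) ?_
  split_ifs
  · exact one_mem B
  · exact zero_mem B

end general

variable {Ω : Type*} [Field Ω] [CharZero Ω] {q : ℕ} {D : Sym (Fin 6) q → Derivation ℤ Ω Ω}
  {a : Sym (Fin 6) q → Ω} {B : Subfield Ω} {x n : Fin 6 → Ω}

/-- the plane case -/
theorem key_mt8 {k : Fin 3 → Fin 6 → Ω} {l : Fin 2 → Fin 6 → Ω}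
    {θ : Fin 2 → Fin 2 → Fin 6 → Ω} {P1 P2 : MvPolynomial (Fin 6) Ω}
    (m : Mt8 D a B x n k l θ P1 P2) : ∀ i, x i ∈ B := by
  by_contra hcon
  by_cases hnd : ∀ N ∈ Submodule.span Ω (Set.range (fam D x l θ)),
      (∀ i, (N * fam D x l θ i).trace = 0) → N = 0
  swap
  · push Not at hnd
    obtain ⟨N, hNs, hN0, hN⟩ := hnd
    obtain ⟨v, w, hv, hw, hwv, hM⟩ := tri (fam D x l θ) none rfl N hN hNs hN0
    refine hcon (case_t m v w hv hw hwv fun s P => ?_)
    have h1 : ∀ e : Fin 6 →₀ ℕ, dotProduct w (Matrix.mulVec (um D x l θ s (monomial e 1)) v) = 0 :=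
      fun e => hM (some (s, e))
    induction P using MvPolynomial.induction_on' with
    | monomial e c =>
      have h2 : monomial e c = c • (monomial e (1 : Ω) : MvPolynomial (Fin 6) Ω) := by
        rw [smul_monomial, smul_eq_mul, mul_one]
      rw [h2, map_smul, Matrix.smul_mulVec, dotProduct_smul, h1, smul_zero]
    | add P P' hP hP' =>
      rw [map_add, Matrix.add_mulVec, dotProduct_add, hP, hP', add_zero]
  obtain ⟨Q, hQ2, hQy, hQpar⟩ := case_n m hnd hcon
  obtain ⟨Q1, hQ1, hQ12, hQ1y, hpar⟩ := rat_q8 m hnd Q hQ2 hQy hQpar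
  have hpt := m.pl.pt
  rcases fin_q8 hpt Q1 hQ1 hQ12 hpar with h3 | h3
  · exact hcon h3
  have hq : q = 8 := hpt.hq
  obtain ⟨F, hFdef⟩ : ∃ F, F = ∑ J : Sym (Fin 6) q, a J • mo Ω (J : Multiset (Fin 6)) :=
    ⟨_, rfl⟩
  have hFq : F.IsHomogeneous q := by
    rw [hFdef]
    exact sum_hom8 a
  have hFhom : F.IsHomogeneous (6 + 2) := by
    rw [hq] at hFq
    exact hFq
  have hFx : eval x F = 0 := by
    rw [hFdef, eval_sum8]
    exact hpt.zero
  have hFB : RatP B F := by
    rw [hFdef]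
    exact sum_rat8 B a hpt.frame.mem
  have hkind : LinearIndependent Ω k := by
    have h5 := m.pl.ind.comp Sum.inl Sum.inl_injective
    exact h5
  rcases conic_div8 (rat_alg hpt.frame) x hpt.one k m.pl.kB m.pl.kx hkind Q1 F hQ1 hFB 6 hQ12
    hFhom hQ1y h3 hFx with h4 | ⟨h', h5, h6, h7⟩ | ⟨A, C, h5, h6, h7⟩
  · exact hcon h4
  · refine hcon (four_line hpt (Matrix.vecCons h' k) ?_ ?_ h6)
    · intro i j
      refine Fin.cases ?_ (fun i => ?_) i
      · exact h5 j
      · exact m.pl.kB i j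
    · intro i
      refine Fin.cases ?_ (fun i => ?_) i
      · exact h7
      · exact m.pl.kx i
  · exact conic_count8 hq D a hpt.frame.dual k hkind Q1 C A hQ12 h5 h6 (hFdef ▸ h7)

/-- **The block case.** -/
theorem key_blk8 (hq : q = 8) (hB : Frame D a B) (x : Fin 6 → Ω) (hx : x 0 = 1)
    (hF : form a x = 0) (P1 P2 : MvPolynomial (Fin 6) Ω) (hP1 : RatP B P1) (hP2 : RatP B P2)
    (l l' m m' : Fin 6 → Ω) (hl : dt l x = 0) (hl' : dt l' x = 0) (hm : dt m x = 0)
    (hm' : dt m' x = 0)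
    (hlin : LinearIndependent Ω ![x, dl D x P1 l, dl D x P1 l', dl D x P2 m, dl D x P2 m']) :
    ∀ i, x i ∈ B := by
  obtain ⟨n, hn, hf⟩ := dv_normal D a hB.dual (by omega) x hF
  have hpt : Pt8 D a B x n := ⟨hq, hB, hx, hF, hn, hf⟩
  have hne : T4 D x P1 P2 l l' m m' ≠ 0 := by
    refine vol_ne hpt _ ?_ hlin
    intro i
    fin_cases i
    · exact vol_tan hpt P1 l hl
    · exact vol_tan hpt P1 l' hl'
    · exact vol_tan hpt P2 m hm
    · exact vol_tan hpt P2 m' hm'
  rcases plane_c hpt P1 P2 hP1 hP2 l l' m m' hl hl' hm hm' hne with h1 | ⟨k, l0, pl, hne0⟩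
  · exact h1
  obtain ⟨θ, hθ⟩ := mats pl P1 P2 hP1 hP2 hne0
  exact key_mt8 hθ

end Pool.Agent.Helper74.Q8

end
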