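import Pool.Agent.Helper74.MG.T68
import Pool.Agent.Helper74.MG.T73
import Pool.Agent.Helper74.MG.T77
import Pool.Agent.Helper74.MG.T78
import Pool.Agent.Helper74.MG.T79
import Pool.Agent.Helper74.MG.T80
import Pool.Agent.Helper74.MG.T81
import Pool.Agent.Helper74.MG.T66
import Pool.Agent.Helper74.MG.T90

section

/-!
# QS-KEYBLK: quintic surfaces, the block case (assembly)
-/

set_option autoImplicit false

namespace Pool.Agent.Helper6.QS

open scoped BigOperators
open MvPolynomial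
open Pool.Agent.Helper8.LG (Bdd form mon)
open Pool.Agent.Helper49.LN (cP mo hf pl)

theorem eval_mo {Ω σ : Type*} [Field Ω] {n : ℕ} (x : σ → Ω) (J : Sym σ n) :
    eval x (mo Ω (J : Multiset σ)) = mon x J := by
  unfold mo mon
  rw [map_multiset_prod, Multiset.map_map]
  congr 1
  exact Multiset.map_congr rfl fun i _ => eval_X i

theorem eval_sum_mo {Ω σ : Type*} [Field Ω] [Fintype σ] [DecidableEq σ] {n : ℕ} (x : σ → Ω)
    (a : Sym σ n → Ω) : eval x (∑ J : Sym σ n, a J • mo Ω (J : Multiset σ)) = form a x := by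
  rw [map_sum]
  unfold form
  refine Finset.sum_congr rfl fun J _ => ?_
  rw [smul_eval, eval_mo]

theorem key_blk {Ω : Type*} [Field Ω] [CharZero Ω] {D : Sym (Fin 4) 5 → Derivation ℤ Ω Ω}
    {a : Sym (Fin 4) 5 → Ω} {B : Subfield Ω} (hB : Frame D a B) (x : Fin 4 → Ω) (hx : x 0 = 1)
    (hF : form a x = 0) (P0 : MvPolynomial (Fin 4) Ω) (hP0 : RatP B P0) (l l' : Fin 4 → Ω)
    (hl : dt l x = 0) (hl' : dt l' x = 0)
    (hlin : LinearIndependent Ω ![x, dv D x (P0 * lf l), dv D x (P0 * lf l')]) :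
    ∀ i, x i ∈ B := by
  rcases pln_mk hB x hx hF P0 hP0 l l' hl hl' hlin with h1 | ⟨h, n, g, hp⟩
  · exact h1
  by_contra hcon
  by_cases hA : NoPure D x h n
  swap
  · exact hcon (caseA hp hA)
  obtain ⟨Q, hQ2, hQy, hQpar⟩ := caseB hp hA hcon
  obtain ⟨Q1, hQ1, hQ12, hQ1y, hg⟩ := rat_Q hp Q hQ2 hQy hQpar
  have h2 : ∀ C l, dt l x = 0 → Par x (dv D x (C * Q1 * lf l)) := fun C l hl =>
    pln_nondeg hp hA (C * Q1) (fun P => hg P C) l hl
  rcases fin_Q hp Q1 hQ1 hQ12 h2 with h3 | h3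
  · exact hcon h3
  obtain ⟨F, hFdef⟩ : ∃ F, F = ∑ J : Sym (Fin 4) 5, a J • mo Ω (J : Multiset (Fin 4)) := ⟨_, rfl⟩
  have hFhom : F.IsHomogeneous (3 + 2) := by
    rw [hFdef]
    refine IsHomogeneous.sum _ _ _ fun J _ => ?_
    have h4 := Pool.Agent.Helper49.LN.mo_hom (E := Ω) (J : Multiset (Fin 4))
    rw [Sym.card_coe] at h4
    rw [smul_eq_C_mul]
    have h5 := (isHomogeneous_C (Fin 4) (a J)).mul h4
    rwa [zero_add] at h5
  have hFx : eval x F = 0 := by
    rw [hFdef, eval_sum_mo]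
    exact hF
  have hFB : RatP B F := by
    intro m
    rw [hFdef, coeff_sum]
    refine sum_mem fun J _ => ?_
    rw [coeff_smul, smul_eq_mul, Pool.Agent.Helper49.LN.mo_eq, coeff_monomial]
    refine mul_mem (hB.mem J) ?_
    split_ifs
    · exact one_mem B
    · exact zero_mem B
  rcases conic_div (rat_alg hB) x hx h hp.hB hp.h0 hp.hx Q1 F hQ1 hFB 3 hQ12 hFhom hQ1y h3 hFx with
    h4 | ⟨h', h5, h6, h7⟩ | ⟨A, C, h5, h6, h7⟩
  · exact hcon h4
  · exact hcon (line_mem_two hB (by norm_num) x hx hF h h' hp.hB h5 h6 hp.hx h7)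
  · exact conic_count D a hB.dual h hp.h0 Q1 A C hQ12 h5 h6 (hFdef ▸ h7)

end Pool.Agent.Helper6.QS

end

section

/-!
# QS: the key statement for `(3, 5)`, `(4, 7)`, `(6, 10)`
-/

set_option autoImplicit false

namespace Pool.Agent.Helper6.QS

open scoped BigOperators
open MvPolynomial
open Pool.Agent.Helper8.LG (Bdd form mon)
open Pool.Agent.Helper49.LN (cP mo hf pl)

theorem hf_lf {Ω σ : Type*} [Field Ω] [Fintype σ] [DecidableEq σ] (x : σ → Ω) (i j : σ) :
    hf x i j = lf (Pi.single j (x i) - Pi.single i (x j)) := by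
  unfold Pool.Agent.Helper49.LN.hf lf
  simp only [Pi.sub_apply, sub_smul, Finset.sum_sub_distrib]
  congr 1
  · rw [Finset.sum_eq_single j]
    · rw [Pi.single_eq_same]
    · intro b _ hb
      rw [Pi.single_eq_of_ne hb, zero_smul]
    · intro h
      exact absurd (Finset.mem_univ _) h
  · rw [Finset.sum_eq_single i]
    · rw [Pi.single_eq_same]
    · intro b _ hb
      rw [Pi.single_eq_of_ne hb, zero_smul]
    · intro h
      exact absurd (Finset.mem_univ _) h

theorem dt_hf {Ω σ : Type*} [Field Ω] [Fintype σ] [DecidableEq σ] (x : σ → Ω) (i j : σ) :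
    dt (Pi.single j (x i) - Pi.single i (x j)) x = 0 := by
  unfold dt
  simp only [Pi.sub_apply, sub_mul, Finset.sum_sub_distrib]
  rw [Finset.sum_eq_single j, Finset.sum_eq_single i, Pi.single_eq_same, Pi.single_eq_same]
  · ring
  · intro b _ hb
    rw [Pi.single_eq_of_ne hb, zero_mul]
  · intro h
    exact absurd (Finset.mem_univ _) h
  · intro b _ hb
    rw [Pi.single_eq_of_ne hb, zero_mul]
  · intro h
    exact absurd (Finset.mem_univ _) h

theorem ratP_mo {Ω σ : Type*} [Field Ω] [DecidableEq σ] (B : Subfield Ω) (K : Multiset σ) :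
    RatP B (mo Ω K) := by
  intro m
  rw [Pool.Agent.Helper49.LN.mo_eq, coeff_monomial]
  split_ifs
  · exact one_mem B
  · exact zero_mem B

universe u

theorem key35 {Ω : Type*} [Field Ω] [CharZero Ω] {D : Sym (Fin 4) 5 → Derivation ℤ Ω Ω}
    {a : Sym (Fin 4) 5 → Ω} {B : Subfield Ω} (hB : Frame D a B) (x : Fin 4 → Ω) (hx : x 0 = 1)
    (hF : form a x = 0) : ∀ l, x l ∈ B := by
  have h0 := key_dich (n := 4) hB x 0 hx hF (Or.inl ⟨Fintype.card_fin _, rfl⟩)
  have e : @dv Ω _ (Fin 4) _ _ (4 + 1) D x = @dv Ω _ (Fin 4) _ _ 5 D x := rfl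
  rw [e] at h0
  rcases h0 with h | ⟨_, I, I', j, l, hlin⟩ | h
  · exact h
  · rw [hf_lf, hf_lf] at hlin
    exact key_blk hB x hx hF _ (fun m => by
        rw [coeff_add]
        exact add_mem (ratP_mo B _ m) (ratP_mo B _ m)) _ _ (dt_hf x 0 j) (dt_hf x 0 l) hlin
  · exact absurd h.1 (by rw [Fintype.card_fin]; norm_num)

theorem keyQ35 : KeyQ.{u} 3 5 := by
  intro Ω _ _ D a B hB x hx hF
  exact key35 hB x hx hF

theorem keyQ47 : KeyQ.{u} 4 7 := by
  intro Ω _ _ D a B hB x hx hF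
  have hc : Fintype.card (Fin (4 + 1)) = 5 := Fintype.card_fin _
  rcases key_dich (n := 6) hB x 0 hx hF (Or.inr (Or.inl ⟨hc, rfl⟩)) with h | h | h
  · exact h
  · exact absurd h.1 (by rw [hc]; norm_num)
  · exact absurd h.1 (by rw [hc]; norm_num)

theorem keyQ610 : KeyQ.{u} 6 10 := by
  intro Ω _ _ D a B hB x hx hF
  have hc : Fintype.card (Fin (6 + 1)) = 7 := Fintype.card_fin _
  rcases key_dich (n := 9) hB x 0 hx hF (Or.inr (Or.inr (Or.inr ⟨hc, rfl⟩))) with h | h | h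
  · exact h
  · exact absurd h.1 (by rw [hc]; norm_num)
  · exact absurd h.1 (by rw [hc]; norm_num)

/-- **The key statement in the three cases.** -/
theorem keyQ_all (N q : ℕ) (h : (N = 3 ∧ q = 5) ∨ (N = 4 ∧ q = 7) ∨ (N = 6 ∧ q = 10)) :
    KeyQ.{u} N q := by
  rcases h with ⟨rfl, rfl⟩ | ⟨rfl, rfl⟩ | ⟨rfl, rfl⟩
  · exact keyQ35
  · exact keyQ47
  · exact keyQ610

end Pool.Agent.Helper6.QS

end

section

/-!
# QS: the key statement for `(5, 8)`, and all four cases
-/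

set_option autoImplicit false

namespace Pool.Agent.Helper6.QS

open scoped BigOperators
open MvPolynomial
open Pool.Agent.Helper8.LG (Bdd form mon)
open Pool.Agent.Helper49.LN (cP mo hf pl)

theorem key58 {Ω : Type*} [Field Ω] [CharZero Ω] {n : ℕ} (hn : n + 1 = 8)
    {D : Sym (Fin 6) (n + 1) → Derivation ℤ Ω Ω} {a : Sym (Fin 6) (n + 1) → Ω} {B : Subfield Ω}
    (hB : Frame D a B) (x : Fin 6 → Ω) (hx : x 0 = 1) (hF : form a x = 0) : ∀ l, x l ∈ B := by
  have h0 := key_dich hB x 0 hx hF (Or.inr (Or.inr (Or.inl ⟨Fintype.card_fin _, hn⟩)))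
  rcases h0 with h | h | ⟨_, I, I', J, J', j, l, j', l', hlin⟩
  · exact h
  · exact absurd h.1 (by rw [Fintype.card_fin]; norm_num)
  · rw [hf_lf, hf_lf, hf_lf, hf_lf] at hlin
    exact Pool.Agent.Helper74.Q8.key_blk8 hn hB x hx hF _ _
      (fun m => by
        rw [coeff_add]
        exact add_mem (ratP_mo B _ m) (ratP_mo B _ m))
      (fun m => by
        rw [coeff_add]
        exact add_mem (ratP_mo B _ m) (ratP_mo B _ m)) _ _ _ _ (dt_hf x 0 j) (dt_hf x 0 l)
      (dt_hf x 0 j') (dt_hf x 0 l') hlin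

universe u

theorem keyQ5 (q : ℕ) (hq : q = 8) : KeyQ.{u} 5 q := by
  obtain ⟨n, rfl⟩ : ∃ n, q = n + 1 := ⟨7, by omega⟩
  intro Ω _ _ D a B hB x hx hF
  exact key58 hq hB x hx hF

/-- **The key statement in the four cases.** -/
theorem keyQ_all4 (N q : ℕ) (h : (N = 3 ∧ q = 5) ∨ (N = 4 ∧ q = 7) ∨ (N = 5 ∧ q = 8) ∨
    (N = 6 ∧ q = 10)) : KeyQ.{u} N q := by
  rcases h with h | h | ⟨rfl, h⟩ | h
  · exact keyQ_all N q (Or.inl h)
  · exact keyQ_all N q (Or.inr (Or.inl h))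
  · exact keyQ5 q h
  · exact keyQ_all N q (Or.inr (Or.inr h))

end Pool.Agent.Helper6.QS

end
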